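import Pool.Agent.Lib.MP_2194ec_nt.LW.DefsPas

set_option autoImplicit false

/-!
# Tuples all of whose large sub-tuples have a small orbit: statements of the rows
-/

namespace Pool.DynLehmer.LW
open scoped Classical

/-- There are `3 ≤ m ≤ k₀` points with independent vectors such that every sub-tuple of `k ≥ m / 2`
of them has an orbit of size at most `C * D ^ (k - 1 / A')`. -/
def Htup (G : Type) {Ω V : Type} [Group G] [MulAction G Ω] [AddCommGroup V] [Module ℚ V]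
    (f : Ω → V) (k₀ A' C D : ℕ) : Prop :=
  ∃ (m : ℕ) (y : Fin m → Ω), 3 ≤ m ∧ m ≤ k₀ ∧ LinearIndependent ℚ (fun i => f (y i)) ∧
    ∀ (k : ℕ) (ι : Fin k → Fin m), Function.Injective ι → m ≤ 2 * k →
      (Nat.card (MulAction.orbit G (y ∘ ι))) ^ A' ≤ C * D ^ (k * A' - 1)

/-- Row BLKH (from MODT): three points with independent vectors in one orbit of `H`. -/
def BlkhStatement : Prop :=
  ∀ (G Ω V : Type) [Group G] [Finite G] [Fintype Ω] [MulAction G Ω] [AddCommGroup V] [Module ℚ V]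
    (ρ : Representation ℚ G V) (f : Ω → V), (∀ (g : G) (x : Ω), f (g • x) = ρ g (f x)) →
    Function.Injective f → ∀ (x : Ω) (H W : Subgroup G), (∀ w ∈ W, w • x = x) →
    (∀ w ∈ W, ∀ h ∈ H, w * h * w⁻¹ ∈ H) → 81 < Nat.card (MulAction.orbit H x) →
    ∃ y : Fin 3 → Ω, LinearIndependent ℚ (fun i => f (y i)) ∧
      ∀ (k : ℕ) (ι : Fin k → Fin 3), Function.Injective ι → 1 ≤ k →
        Nat.card (MulAction.orbit G (y ∘ ι)) ≤
          W.index * (Nat.card (MulAction.orbit H x)) ^ (k - 1)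

/-- Row GRPQH (from GRAM, MODT, BLKH): as `grpq'`, with `Htup`. -/
def GrpqhStatement : Prop :=
  ∀ A : ℕ, 1 ≤ A → ∃ R k₀ A' C : ℕ, 1 ≤ A' ∧ ∀ (G Ω V : Type) [Group G] [Finite G]
    [Fintype Ω] [MulAction G Ω] [AddCommGroup V] [Module ℚ V] (ρ : Representation ℚ G V)
    (f : Ω → V), (∀ (g : G) (x : Ω), f (g • x) = ρ g (f x)) → Function.Injective f →
    MulAction.IsPretransitive G Ω → ∀ x : Ω, R < Fintype.card Ω →
    Htup G f k₀ A' C (Fintype.card Ω) ∨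
    ∃ B₀ B : Subgroup G, B₀.Normal ∧ Sse (MulAction.stabilizer G x) B₀ B ∧
      (Fintype.card Ω) ^ A < B₀.relIndex B ∧ Nat.card (MulAction.orbit B₀ x) ≤ R ∧
      (Fintype.card Ω) ^ (A - 1) < (Nat.card (MulAction.orbit B x)) ^ A

/-- Row ALTH (from MODT): as ALTG, with `Htup`, if the orbit of `B` has more than `81` points. -/
def AlthStatement : Prop :=
  ∀ A : ℕ, 1 ≤ A → ∀ Rb : ℕ, ∃ C : ℕ, ∀ (G Ω V : Type) [Group G] [Finite G]
    [Fintype Ω] [MulAction G Ω] [AddCommGroup V] [Module ℚ V] (ρ : Representation ℚ G V)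
    (f : Ω → V), (∀ (g : G) (x : Ω), f (g • x) = ρ g (f x)) → Function.Injective f →
    MulAction.IsPretransitive G Ω → ∀ (x : Ω) (B₀ B : Subgroup G), B₀ ≤ B →
    (∀ g ∈ MulAction.stabilizer G x, ∀ h ∈ B₀, g * h * g⁻¹ ∈ B₀) →
    (∀ g ∈ MulAction.stabilizer G x, ∀ h ∈ B, g * h * g⁻¹ ∈ B) →
    (∀ g ∈ B, ∀ h ∈ B₀, g * h * g⁻¹ ∈ B₀) →
    Nat.card (MulAction.orbit B₀ x) ≤ Rb →
    Nat.card (MulAction.orbit B₀ x) < Nat.card (MulAction.orbit B x) →
    81 < Nat.card (MulAction.orbit B x) →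
    ∀ (n : ℕ) (φ : B →* alternatingGroup (Fin n)), Function.Surjective φ →
    φ.ker = B₀.subgroupOf B → n ^ A ≤ (Fintype.card Ω) ^ (A - 1) →
    Htup G f 3 (2 * A) C (Fintype.card Ω)

/-- Row GRPQAH (from GRPQH, ALTH): as GRPQA, with `Htup`. -/
def GrpqahStatement : Prop :=
  ∀ A : ℕ, 1 ≤ A → ∃ R k₀ A' C : ℕ, 1 ≤ A' ∧ ∀ (G Ω V : Type) [Group G] [Finite G]
    [Fintype Ω] [MulAction G Ω] [AddCommGroup V] [Module ℚ V] (ρ : Representation ℚ G V)
    (f : Ω → V), (∀ (g : G) (x : Ω), f (g • x) = ρ g (f x)) → Function.Injective f →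
    MulAction.IsPretransitive G Ω → ∀ x : Ω, R < Fintype.card Ω →
    Htup G f k₀ A' C (Fintype.card Ω) ∨
    ∃ B₀ B : Subgroup G, B₀.Normal ∧ Sse (MulAction.stabilizer G x) B₀ B ∧
      (Fintype.card Ω) ^ A < B₀.relIndex B ∧ Nat.card (MulAction.orbit B₀ x) ≤ R ∧
      (Fintype.card Ω) ^ (A - 1) < (Nat.card (MulAction.orbit B x)) ^ A ∧
      ∀ (n : ℕ) (φ : B →* alternatingGroup (Fin n)), Function.Surjective φ →
        φ.ker = B₀.subgroupOf B → (Fintype.card Ω) ^ (A - 1) < n ^ A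

/-- Row PASH (from GRPQAH, BLKH): the primitive form, with `Htup` and `[W : S] ≤ 81`. -/
def PashStatement : Prop :=
  ∀ A : ℕ, 1 ≤ A → ∃ R k₀ A' C : ℕ, 1 ≤ A' ∧ ∀ (G Ω V : Type) [Group G] [Finite G]
    [Fintype Ω] [MulAction G Ω] [AddCommGroup V] [Module ℚ V] (ρ : Representation ℚ G V)
    (f : Ω → V), (∀ (g : G) (x : Ω), f (g • x) = ρ g (f x)) → Function.Injective f →
    MulAction.IsPretransitive G Ω → ∀ x : Ω, R < Fintype.card Ω →
    Htup G f k₀ A' C (Fintype.card Ω) ∨ Pas (MulAction.stabilizer G x) A 81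

end Pool.DynLehmer.LW
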