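import Pool.Agent.Lib.MP_2194ec_nt.LW.DefsMulE

set_option autoImplicit false

/-!
# The Lehmer bound and primitive almost simple groups: statements of the rows
-/

namespace Pool.DynLehmer.LW
open MvPolynomial NumberField Filter Topology Pool.DynLehmer Pool.DynLehmer.SB Pool.DynLehmer.SP
  Pool.DynLehmer.GS Pool.DynLehmer.LP
open scoped Classical

/-- There are subgroups `S ≤ W < U` of `G`, `W` maximal in `U`, `[W : S] ≤ R`, `[G : U] ^ A < D`,
such that the group of permutations of `U / W` induced by `U` has a simple normal subgroup `T` with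
trivial centralizer and of order more than `D ^ A`, and if `T` is an alternating group, its degree
is more than `D ^ (1 - 1 / A)`. Here `D` is the index of `S`. -/
def Pas {G : Type} [Group G] (S : Subgroup G) (A R : ℕ) : Prop :=
  ∃ U W : Subgroup G, S ≤ W ∧ W < U ∧ (∀ J : Subgroup G, W ≤ J → J ≤ U → J = W ∨ J = U) ∧
    S.relIndex W ≤ R ∧ U.index ^ A < S.index ∧
    ∃ T : Subgroup (U ⧸ (W.subgroupOf U).normalCore), T.Normal ∧ IsSimpleGroup T ∧
      Subgroup.centralizer (T : Set (U ⧸ (W.subgroupOf U).normalCore)) = ⊥ ∧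
      S.index ^ A < Nat.card T ∧
      ∀ n : ℕ, Nonempty (T ≃* alternatingGroup (Fin n)) → S.index ^ (A - 1) < n ^ A

/-- Row GRPO (from `grpq'`, GRPW, ALTG). -/
def GrpoStatement : Prop :=
  ∀ A : ℕ, 1 ≤ A → ∃ R k₀ A' C : ℕ, 1 ≤ A' ∧ ∀ (G Ω V : Type) [Group G] [Finite G]
    [Fintype Ω] [MulAction G Ω] [AddCommGroup V] [Module ℚ V] (ρ : Representation ℚ G V)
    (f : Ω → V), (∀ (g : G) (x : Ω), f (g • x) = ρ g (f x)) → Function.Injective f →
    MulAction.IsPretransitive G Ω → ∀ x : Ω, R < Fintype.card Ω →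
    (∃ (k : ℕ) (y : Fin k → Ω), 2 ≤ k ∧ k ≤ k₀ ∧ LinearIndependent ℚ (fun i => f (y i)) ∧
      (Nat.card (MulAction.orbit G y)) ^ A' ≤ C * (Fintype.card Ω) ^ (k * A' - 1)) ∨
    Smo (MulAction.stabilizer G x) A R ∧ Pas (MulAction.stabilizer G x) A R

/-- Row FINO (from FING, GRPO, NORMB, REPM): the Lehmer bound for algebraic numbers whose Galois
group is not a primitive almost simple group, essentially. `S` is the stabilizer of the class of
`a` modulo roots of unity. -/
def MuloStatement : Prop :=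
  ∀ A : ℕ, 1 ≤ A → ∃ R : ℕ, ∀ (K : Type) [Field K] [NumberField K], ∃ c : ℝ, 0 < c ∧
    ∀ (N : Type) [Field N] [NumberField N] [Algebra K N] [IsGalois K N] (a : N), a ≠ 0 →
      (∀ n : ℕ, 1 ≤ n → a ^ n ≠ 1) →
      ∃ S : Subgroup (N ≃ₐ[K] N), (∀ g, g ∈ S ↔ ∃ r : ℕ, 1 ≤ r ∧ (g a) ^ r = a ^ r) ∧
      (c / (Module.finrank K (IntermediateField.adjoin K {a}) : ℝ) ≤
        Height.logHeight ![a, 1] / (Module.finrank ℚ N : ℝ) ∨
      Ind a S A ∧ Smo S A R ∧ Pas S A R)

end Pool.DynLehmer.LW
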