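import Pool.Agent.Lib.MP_2194ec_nt.LW.Grpo

set_option autoImplicit false

/-!
# The exceptional case is a primitive almost simple group: blocks with at most two points
-/

namespace Pool.DynLehmer.LW
open scoped Classical

/-- Row PASO2: as PASO, with `[W : S] ≤ 2`. -/
def Paso2Statement : Prop :=
  ∀ A : ℕ, 1 ≤ A → ∃ R k₀ A' C : ℕ, 1 ≤ A' ∧ ∀ (G Ω V : Type) [Group G] [Finite G]
    [Fintype Ω] [MulAction G Ω] [AddCommGroup V] [Module ℚ V] (ρ : Representation ℚ G V)
    (f : Ω → V), (∀ (g : G) (x : Ω), f (g • x) = ρ g (f x)) → Function.Injective f →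
    MulAction.IsPretransitive G Ω → ∀ x : Ω, R < Fintype.card Ω →
    (∃ (k : ℕ) (y : Fin k → Ω), 2 ≤ k ∧ k ≤ k₀ ∧ LinearIndependent ℚ (fun i => f (y i)) ∧
      (Nat.card (MulAction.orbit G y)) ^ A' ≤ C * (Fintype.card Ω) ^ (k * A' - 1)) ∨
    Pas (MulAction.stabilizer G x) A 2

/-- Row GRPO2: as GRPO, with `[W : S] ≤ 2`. -/
def Grpo2Statement : Prop :=
  ∀ A : ℕ, 1 ≤ A → ∃ R k₀ A' C : ℕ, 1 ≤ A' ∧ ∀ (G Ω V : Type) [Group G] [Finite G]
    [Fintype Ω] [MulAction G Ω] [AddCommGroup V] [Module ℚ V] (ρ : Representation ℚ G V)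
    (f : Ω → V), (∀ (g : G) (x : Ω), f (g • x) = ρ g (f x)) → Function.Injective f →
    MulAction.IsPretransitive G Ω → ∀ x : Ω, R < Fintype.card Ω →
    (∃ (k : ℕ) (y : Fin k → Ω), 2 ≤ k ∧ k ≤ k₀ ∧ LinearIndependent ℚ (fun i => f (y i)) ∧
      (Nat.card (MulAction.orbit G y)) ^ A' ≤ C * (Fintype.card Ω) ^ (k * A' - 1)) ∨
    Smo (MulAction.stabilizer G x) A R ∧ Pas (MulAction.stabilizer G x) A 2

namespace Pp

open Cf

section Pair

variable {G Ω : Type} [Group G] [Finite G] [Finite Ω] [MulAction G Ω]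

/-- An orbit with more than two points contains a pair of independent vectors. -/
theorem pair3 {U : Type} [AddCommGroup U] [Module ℚ U] (ρ : Representation ℚ G U) (f : Ω → U)
    (hf : ∀ (g : G) (x : Ω), f (g • x) = ρ g (f x)) (hinj : Function.Injective f) {x : Ω}
    {H W : Subgroup G} (hH : 2 < oc H x) (hWx : ∀ w ∈ W, w • x = x)
    (hWH : ∀ w ∈ W, ∀ h ∈ H, w * h * w⁻¹ ∈ H) :
    ∃ y : Fin 2 → Ω, LinearIndependent ℚ (fun i => f (y i)) ∧
      Nat.card (MulAction.orbit G y) ≤ W.index * oc H x := by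
  have hx : x ∈ Ob H x := self_mem H x
  -- a third point
  obtain ⟨z, hz, hzx, hzn⟩ : ∃ z ∈ Ob H x, z ≠ x ∧ f z ≠ -f x := by
    by_contra hcon
    push Not at hcon
    have h1 : Ob H x ⊆ {x} ∪ f ⁻¹' {-f x} := by
      intro z hz
      by_cases hzx : z = x
      · exact Or.inl hzx
      · exact Or.inr (hcon z hz hzx)
    have h2 : (f ⁻¹' {-f x}).ncard ≤ 1 := by
      rw [Set.ncard_le_one (Set.toFinite _)]
      intro a ha b hb
      exact hinj (ha.trans hb.symm)
    have h3 := (Set.ncard_le_ncard h1 (Set.toFinite _)).trans (Set.ncard_union_le _ _)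
    rw [Set.ncard_singleton] at h3
    have h4 : oc H x = (Ob H x).ncard := rfl
    omega
  obtain ⟨h, hh, rfl⟩ := hz
  have hfx : f x ≠ 0 := by
    intro h0
    apply hzx
    apply hinj
    rw [hf, h0, map_zero]
  refine ⟨![x, h • x], ?_, ?_⟩
  · have h2 : (fun i : Fin 2 => f ((![x, h • x] : Fin 2 → Ω) i)) = ![f x, f (h • x)] := by
      funext i
      fin_cases i <;> rfl
    rw [h2, LinearIndependent.pair_iff]
    intro s t hst
    by_cases ht : t = 0
    · rw [ht, zero_smul, add_zero] at hst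
      exact ⟨(smul_eq_zero.1 hst).resolve_right hfx, ht⟩
    exfalso
    have h3 : f (h • x) = (-(s / t)) • f x := by
      have h4 : t • f (h • x) = -(s • f x) := eq_neg_of_add_eq_zero_right hst
      calc f (h • x) = t⁻¹ • t • f (h • x) := by rw [smul_smul, inv_mul_cancel₀ ht, one_smul]
        _ = t⁻¹ • -(s • f x) := by rw [h4]
        _ = (-(s / t)) • f x := by
            rw [smul_neg, smul_smul, neg_smul]
            congr 2
            field_simp
    set c := -(s / t) with hc
    have h4 : ∀ n : ℕ, ρ (h ^ n) (f x) = c ^ n • f x := by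
      intro n
      induction n with
      | zero => simp
      | succ n ih =>
        rw [pow_succ, map_mul, Module.End.mul_apply, ← hf, h3, map_smul, ih, smul_smul]
        congr 1
        ring
    have h5 := h4 (orderOf h)
    rw [pow_orderOf_eq_one, map_one, Module.End.one_apply] at h5
    have h6 : c ^ orderOf h = 1 := by
      have h7 : (c ^ orderOf h - 1) • f x = 0 := by rw [sub_smul, ← h5, one_smul, sub_self]
      have h8 := (smul_eq_zero.1 h7).resolve_right hfx
      linarith
    have h7 : |c| ^ orderOf h = 1 := by rw [← abs_pow, h6, abs_one]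
    have h8 : |c| = 1 := (pow_eq_one_iff_of_nonneg (abs_nonneg c) (orderOf_pos h).ne').1 h7
    rcases (abs_eq (zero_le_one)).1 h8 with h9 | h9
    · apply hzx
      apply hinj
      rw [h3, h9, one_smul]
    · apply hzn
      rw [h3, h9, neg_smul, one_smul]
  · have h3 := orb_le (![x, h • x] : Fin 2 → Ω) W
      (![{x}, Ob H x] : Fin 2 → Set Ω) (by
        intro w hw i
        have hw' := hWx w hw
        fin_cases i
        · exact hw'
        · refine ⟨w * h * w⁻¹, hWH w hw _ hh, ?_⟩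
          have hw2 : w⁻¹ • x = x := by rw [inv_smul_eq_iff, hw']
          rw [mul_smul, hw2, mul_smul]
          rfl)
    rw [Fin.prod_univ_two] at h3
    have h4 : (![{x}, Ob H x] : Fin 2 → Set Ω) 0 = {x} := rfl
    have h5 : (![{x}, Ob H x] : Fin 2 → Set Ω) 1 = Ob H x := rfl
    rw [h4, h5, Set.ncard_singleton, one_mul] at h3
    exact h3

end Pair

theorem paso2 (hq : GrpqaStatement) : Paso2Statement := by
  intro A hA
  obtain ⟨R1, k₁, A₁, C₁, hA₁, h1⟩ := hq (A * (A + 1) * 2) (by
    have : 0 < A * (A + 1) * 2 := by positivity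
    omega)
  obtain ⟨R3, hR3⟩ : ∃ R3 : ℕ, max R1 2 = R3 := ⟨_, rfl⟩
  have hR31 : R1 ≤ R3 := by
    have := le_max_left R1 2
    omega
  have hR32 : 2 ≤ R3 := by
    have := le_max_right R1 2
    omega
  have hR3pos : 1 ≤ R3 := by omega
  have hR33 : R3 ≤ R3 * R3 := Nat.le_mul_of_pos_left _ hR3pos
  have hR3a : R3 * R3 ≤ (R3 * R3) ^ (A + 1) := Nat.le_self_pow (by omega) _
  refine ⟨(R3 * R3) ^ (A + 1), max k₁ 2, (A + 1) * A₁, C₁ ^ (A + 1) + 2,
    Nat.one_le_iff_ne_zero.2 (by positivity), ?_⟩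
  intro G Ω V _ _ _ _ _ _ ρ f hf hinj htr x hR
  obtain ⟨D, hD⟩ : ∃ D : ℕ, Fintype.card Ω = D := ⟨_, rfl⟩
  rw [hD] at hR ⊢
  have hDpos : 1 ≤ D := by omega
  have hstab : (MulAction.stabilizer G x).index = D := by
    rw [MulAction.index_stabilizer_of_transitive, Nat.card_eq_fintype_card, hD]
  have htop : oc (⊤ : Subgroup G) x = D := by
    rw [oc_relIndex, Subgroup.relIndex_top_right, hstab]
  obtain ⟨U, ⟨hSU, hUR⟩, hUmin⟩ := Set.Finite.exists_minimal
    (Set.toFinite {Y : Subgroup G | MulAction.stabilizer G x ≤ Y ∧ 2 < oc Y x})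
    ⟨⊤, le_top, by rw [htop]; omega⟩
  have hUi : oc U x * U.index = D := by
    rw [oc_relIndex, Subgroup.relIndex_mul_index hSU, hstab]
  have hUi1 : 1 ≤ U.index := Nat.one_le_iff_ne_zero.2 Subgroup.FiniteIndex.index_ne_zero
  obtain ⟨β, hβ⟩ : ∃ β : ℕ, oc U x = β := ⟨_, rfl⟩
  rw [hβ] at hUR hUi
  by_cases hcase : β ^ (A + 1) ≤ D ^ A
  · -- a pair in the minimal block
    left
    obtain ⟨y, hy, hc⟩ := pair3 ρ f hf hinj (x := x) (H := U)
      (W := MulAction.stabilizer G x) (by rw [hβ]; exact hUR) (fun w hw => hw)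
      (fun w hw h hh => U.mul_mem (U.mul_mem (hSU hw) hh) (U.inv_mem (hSU hw)))
    rw [hstab, hβ] at hc
    refine ⟨2, y, le_rfl, le_max_right _ _, hy, ?_⟩
    have h2 : (Nat.card (MulAction.orbit G y)) ^ (A + 1) ≤ 1 * D ^ (2 * (A + 1) - 1) := by
      calc (Nat.card (MulAction.orbit G y)) ^ (A + 1) ≤ (D * β) ^ (A + 1) :=
            Nat.pow_le_pow_left hc _
        _ = D ^ (A + 1) * β ^ (A + 1) := mul_pow _ _ _
        _ ≤ D ^ (A + 1) * D ^ A := Nat.mul_le_mul_left _ hcase
        _ = 1 * D ^ (2 * (A + 1) - 1) := by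
            rw [← pow_add, one_mul]
            congr 1
            omega
    have h3 := exp_up (a := A₁) hDpos le_rfl (by omega) hA₁ h2
    rw [mul_comm (A + 1) A₁]
    refine h3.trans (Nat.mul_le_mul_right _ ?_)
    rw [one_pow]
    omega
  · push Not at hcase
    have hDA : D ≤ D ^ A := Nat.le_self_pow (by omega) _
    have hβR : R3 * R3 < β := lt_of_pow_lt_pow_left₀ (A + 1) (Nat.zero_le _) (by omega)
    have hβ1 : 1 ≤ β := by omega
    have hA2 : 4 ≤ A * (A + 1) * 2 := by nlinarith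
    set x' : MulAction.orbit U x := ⟨x, MulAction.mem_orbit_self x⟩ with hx'
    let _ : Fintype (MulAction.orbit U x) := Fintype.ofFinite _
    have hcΩ : Nat.card (MulAction.orbit U x) = β := by rw [natCard_orbit, hβ]
    have hfΩ : Fintype.card (MulAction.orbit U x) = β := by
      rw [← Nat.card_eq_fintype_card, hcΩ]
    have hst : ∀ u : U, u ∈ MulAction.stabilizer U x' ↔ (u : G) ∈ MulAction.stabilizer G x := by
      intro u
      rw [MulAction.mem_stabilizer_iff, MulAction.mem_stabilizer_iff]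
      exact ⟨fun h => congrArg Subtype.val h, fun h => Subtype.ext h⟩
    have h2 := h1 U (MulAction.orbit U x) V (ρ.comp U.subtype) (fun z => f z)
      (fun g z => hf g z) (fun z z' h => Subtype.ext (hinj h)) inferInstance x'
      (by rw [hfΩ]; omega)
    rw [hfΩ] at h2
    obtain ⟨k, y, hk2, hk, hind, hc⟩ | ⟨B₀, B, hn, hS, hi, h0, hb, halt⟩ := h2
    · -- a tuple for `U`
      left
      refine ⟨k, fun i => (y i : Ω), hk2, hk.trans (le_max_left _ _), hind, ?_⟩
      have h3 := lift_num (lift_orb y) hc hUi hk2 hA₁ hUi1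
      have h4 := exp_up (a := A + 1) hDpos hk2 hA₁ (by omega) h3
      exact h4.trans (Nat.mul_le_mul_right _ (by omega))
    · -- the exceptional case
      right
      rw [natCard_orbit] at h0 hb
      have hmin : ∀ Y : Subgroup U, MulAction.stabilizer U x' ≤ Y → Y ≠ ⊤ → oc Y x' ≤ 2 := by
        intro Y hY hYt
        by_contra hcon
        push Not at hcon
        rw [hx', oc_map] at hcon
        have h3 : MulAction.stabilizer G x ≤ Y.map U.subtype := by
          intro g hg
          exact ⟨⟨g, hSU hg⟩, hY ((hst _).2 hg), rfl⟩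
        have h4 : Y.map U.subtype ≤ U := Subgroup.map_subtype_le Y
        have h5 := hUmin (⟨h3, hcon⟩ : Y.map U.subtype ∈
          {Y : Subgroup G | MulAction.stabilizer G x ≤ Y ∧ 2 < oc Y x}) h4
        apply hYt
        rw [eq_top_iff]
        intro u _
        obtain ⟨u', hu', hu''⟩ := h5 u.2
        have h6 : u' = u := Subtype.ext hu''
        rw [← h6]
        exact hu'
      have hBb : R3 < oc B x' := by
        by_contra hcon
        push Not at hcon
        have h3 : (oc B x') ^ (A * (A + 1) * 2) ≤ R3 ^ (A * (A + 1) * 2) :=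
          Nat.pow_le_pow_left hcon _
        have h4 : R3 ^ (A * (A + 1) * 2) ≤ (R3 * R3) ^ (A * (A + 1) * 2 - 1) := by
          rw [← sq, ← pow_mul]
          exact Nat.pow_le_pow_right hR3pos (by omega)
        have h5 : (R3 * R3) ^ (A * (A + 1) * 2 - 1) ≤ β ^ (A * (A + 1) * 2 - 1) :=
          Nat.pow_le_pow_left hβR.le _
        omega
      have hiβ : Nat.card (MulAction.orbit U x) < B₀.relIndex B := by
        rw [hcΩ]
        exact lt_of_le_of_lt (Nat.le_self_pow (by omega) _) hi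
      obtain ⟨W', hSW', hWc, hWR, T, hTn, hTs, hTc, hTcard, π, hπs, hπk⟩ :=
        core x' (fun Y h1 h2 => (hmin Y h1 h2).trans hR32) (by rw [hcΩ]; exact hβR) hn hS hiβ
          (h0.trans hR31) hBb
      have hWW : (W'.map U.subtype).subgroupOf U = W' :=
        Subgroup.comap_map_eq_self_of_injective Subtype.val_injective W'
      have hT4 : D ^ A < Nat.card T := by
        rw [hTcard]
        refine lt_of_le_of_lt ?_ hi
        calc D ^ A ≤ (D ^ A) ^ (2 * A) := Nat.le_self_pow (by omega) _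
          _ ≤ (β ^ (A + 1)) ^ (2 * A) := Nat.pow_le_pow_left hcase.le _
          _ = β ^ (A * (A + 1) * 2) := by
              rw [← pow_mul]
              congr 1
              ring
      have hT5 : ∀ n : ℕ, Nonempty (T ≃* alternatingGroup (Fin n)) → D ^ (A - 1) < n ^ A := by
        rintro n ⟨e⟩
        have h3 := halt n (e.toMonoidHom.comp π) (e.surjective.comp hπs) (by
          rw [← hπk]
          ext b
          rw [MonoidHom.mem_ker, MonoidHom.mem_ker, MonoidHom.comp_apply]
          exact e.map_eq_one_iff)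
        by_contra hcon
        push Not at hcon
        have h4 : (β ^ (A * (A + 1) * 2 - 1)) ^ (A + 1) < (n ^ (A * (A + 1) * 2)) ^ (A + 1) :=
          Nat.pow_lt_pow_left h3 (by omega)
        have h5 : (n ^ (A * (A + 1) * 2)) ^ (A + 1) ≤ D ^ ((A - 1) * (2 * (A + 1) * (A + 1))) := by
          calc (n ^ (A * (A + 1) * 2)) ^ (A + 1) = (n ^ A) ^ (2 * (A + 1) * (A + 1)) := by
                rw [← pow_mul, ← pow_mul]
                congr 1
                ring
            _ ≤ (D ^ (A - 1)) ^ (2 * (A + 1) * (A + 1)) := Nat.pow_le_pow_left hcon _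
            _ = _ := by rw [← pow_mul]
        have h6 : D ^ (A * (A * (A + 1) * 2 - 1)) ≤ (β ^ (A * (A + 1) * 2 - 1)) ^ (A + 1) := by
          calc D ^ (A * (A * (A + 1) * 2 - 1)) = (D ^ A) ^ (A * (A + 1) * 2 - 1) := by
                rw [← pow_mul]
            _ ≤ (β ^ (A + 1)) ^ (A * (A + 1) * 2 - 1) := Nat.pow_le_pow_left hcase.le _
            _ = _ := by
                rw [← pow_mul, ← pow_mul]
                congr 1
                ring
        have h7 : D ^ ((A - 1) * (2 * (A + 1) * (A + 1))) ≤ D ^ (A * (A * (A + 1) * 2 - 1)) :=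
          Nat.pow_le_pow_right hDpos (exp_num hA)
        exact absurd (lt_of_lt_of_le (lt_of_le_of_lt h6 h4) (h5.trans h7)) (lt_irrefl _)
      refine ⟨U, W'.map U.subtype, ?_, ?_, ?_, ?_, ?_, ?_⟩
      · intro g hg
        exact ⟨⟨g, hSU hg⟩, hSW' ((hst _).2 hg), rfl⟩
      · refine lt_of_le_of_ne (Subgroup.map_subtype_le W') ?_
        intro he
        apply hWc.1
        rw [← hWW, he]
        exact U.subgroupOf_self
      · intro J hWJ hJU
        have h3 : W' ≤ J.subgroupOf U := by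
          rw [← hWW]
          exact Subgroup.comap_mono hWJ
        rcases (hWc.le_iff.1 h3).symm with h4 | h4
        · left
          rw [← h4, Subgroup.subgroupOf, Subgroup.map_comap_eq]
          simpa using hJU
        · right
          exact le_antisymm hJU (Subgroup.subgroupOf_eq_top.1 h4)
      · rw [← oc_relIndex, ← oc_map]
        exact hmin W' hSW' hWc.1
      · rw [hstab]
        by_contra hcon
        push Not at hcon
        have h3 : D ^ (A + 1) = β ^ (A + 1) * U.index ^ (A + 1) := by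
          rw [← hUi, mul_pow]
        have h4 : U.index ^ A ≤ U.index ^ (A + 1) := Nat.pow_le_pow_right hUi1 (by omega)
        have h5 : D ^ A * D < β ^ (A + 1) * U.index ^ (A + 1) := by
          calc D ^ A * D ≤ D ^ A * U.index ^ (A + 1) := Nat.mul_le_mul_left _ (hcon.trans h4)
            _ < β ^ (A + 1) * U.index ^ (A + 1) :=
                Nat.mul_lt_mul_of_pos_right hcase (by positivity)
        rw [← h3, pow_succ] at h5
        exact lt_irrefl _ h5
      · rw [hstab]
        have key : ∀ X : Subgroup U, X = W' → ∃ T : Subgroup (U ⧸ X.normalCore), T.Normal ∧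
            IsSimpleGroup T ∧ Subgroup.centralizer (T : Set (U ⧸ X.normalCore)) = ⊥ ∧
            D ^ A < Nat.card T ∧
            ∀ n : ℕ, Nonempty (T ≃* alternatingGroup (Fin n)) → D ^ (A - 1) < n ^ A := by
          rintro X rfl
          exact ⟨T, hTn, hTs, hTc, hT4, hT5⟩
        exact key _ hWW

end Pp

/-- Row GRPO2. -/
theorem grpo2_of (hP : Paso2Statement) (hW : GrpwStatement) : Grpo2Statement := by
  intro A hA
  obtain ⟨R₁, k₁, A₁, C₁, hA₁, h1⟩ := hP A hA
  obtain ⟨s, R₂, hs, h2⟩ := hW A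
  obtain ⟨C₂, h2⟩ := h2 (max R₁ R₂)
  refine ⟨max R₁ R₂, max k₁ (2 ^ s), 2 * A₁, max (C₁ ^ 2) (C₂ ^ A₁), by omega, ?_⟩
  intro G Ω V _ _ _ _ _ _ ρ f hf hinj htr x hR
  have hDpos : 1 ≤ Fintype.card Ω := Fintype.card_pos_iff.2 ⟨x⟩
  have hstab : (MulAction.stabilizer G x).index = Fintype.card Ω := by
    rw [MulAction.index_stabilizer_of_transitive, Nat.card_eq_fintype_card]
  have hri : ∀ U : Subgroup G, (MulAction.stabilizer G x).relIndex U =
      Nat.card (MulAction.orbit U x) := by
    intro U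
    rw [Nat.card_coe_set_eq, ← MulAction.index_stabilizer]
    rfl
  by_cases hS : Smo (MulAction.stabilizer G x) A (max R₁ R₂)
  · obtain ⟨k, y, hk2, hk, hind, hc⟩ | hB :=
      h1 G Ω V ρ f hf hinj htr x (lt_of_le_of_lt (le_max_left _ _) hR)
    · refine Or.inl ⟨k, y, hk2, hk.trans (le_max_left _ _), hind, ?_⟩
      have h3 : 1 ≤ k * A₁ := Nat.one_le_iff_ne_zero.2 (by positivity)
      calc (Nat.card (MulAction.orbit G y)) ^ (2 * A₁) =
            ((Nat.card (MulAction.orbit G y)) ^ A₁) ^ 2 := by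
            rw [mul_comm, pow_mul]
        _ ≤ (C₁ * Fintype.card Ω ^ (k * A₁ - 1)) ^ 2 := Nat.pow_le_pow_left hc 2
        _ = C₁ ^ 2 * Fintype.card Ω ^ ((k * A₁ - 1) * 2) := by
            rw [mul_pow, ← pow_mul]
        _ ≤ max (C₁ ^ 2) (C₂ ^ A₁) * Fintype.card Ω ^ (k * (2 * A₁) - 1) := by
            refine Nat.mul_le_mul (le_max_left _ _) (Nat.pow_le_pow_right hDpos ?_)
            have h4 : k * (2 * A₁) = 2 * (k * A₁) := by ring
            rw [h4]
            omega
    · exact Or.inr ⟨hS, hB⟩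
  · left
    unfold Smo at hS
    push Not at hS
    obtain ⟨P₀, P, W, hP, hWS, hWP, hWP₀, hPP₀, hr, hi, hw, hb⟩ := hS
    rw [hstab] at hi hw
    rw [hri] at hr hb
    obtain ⟨y, -, hind, hc⟩ := h2 G Ω V ρ f hf hinj htr x P P₀ W hP hWS hWP hWP₀ hPP₀ hr hi hw
      (lt_of_le_of_lt (le_max_right _ _) hb)
    have h3 : 2 ≤ 2 ^ s := by
      calc 2 = 2 ^ 1 := rfl
        _ ≤ 2 ^ s := Nat.pow_le_pow_right (by norm_num) hs
    refine ⟨2 ^ s, y, h3, le_max_right _ _, hind, ?_⟩
    calc (Nat.card (MulAction.orbit G y)) ^ (2 * A₁) =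
          ((Nat.card (MulAction.orbit G y)) ^ 2) ^ A₁ := by
          rw [pow_mul]
      _ ≤ (C₂ * Fintype.card Ω ^ (2 ^ s)) ^ A₁ := Nat.pow_le_pow_left hc A₁
      _ = C₂ ^ A₁ * Fintype.card Ω ^ (2 ^ s * A₁) := by
          rw [mul_pow, ← pow_mul]
      _ ≤ max (C₁ ^ 2) (C₂ ^ A₁) * Fintype.card Ω ^ (2 ^ s * (2 * A₁) - 1) := by
          refine Nat.mul_le_mul (le_max_right _ _) (Nat.pow_le_pow_right hDpos ?_)
          have h4 : 2 ^ s * (2 * A₁) = 2 * (2 ^ s * A₁) := by ring
          have h5 : 1 ≤ 2 ^ s * A₁ := Nat.one_le_iff_ne_zero.2 (by positivity)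
          rw [h4]
          omega

/-- Row GRPO2, from the group theoretic statement with the clause for alternating groups. -/
theorem grpo2 (hW : GrpwStatement) (hq : GrpqaStatement) : Grpo2Statement :=
  grpo2_of (Pp.paso2 hq) hW

end Pool.DynLehmer.LW
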