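import Pool.Agent.Lib.MP_2194ec_nt.LW.Altg
import Pool.Agent.Lib.MP_2194ec_nt.LW.DefsHt

set_option autoImplicit false

/-!
# Triples of independent vectors with small orbits, from an alternating section
-/

namespace Pool.DynLehmer.LW.Alt
open scoped Classical
open Equiv Equiv.Perm

/-! ## Three-cycles -/

section TC

variable {α : Type} [DecidableEq α] [Fintype α]

omit [Fintype α] in
theorem tc_inv (a b d : α) : (tc a b d)⁻¹ = tc a d b := by
  rw [tc, tc, mul_inv_rev, swap_inv, swap_inv]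

omit [Fintype α] in
theorem tc_mul_inv (a b d e : α) : tc a b d * (tc a b e)⁻¹ = tc a e d := by
  rw [tc, tc, tc, mul_inv_rev, swap_inv, swap_inv, mul_assoc, ← mul_assoc (swap a b),
    swap_mul_self, one_mul]

omit [Fintype α] in
theorem tc_rot {a b d : α} (hab : a ≠ b) (had : a ≠ d) (hbd : b ≠ d) : tc a b d = tc b d a := by
  ext z
  simp only [tc, Perm.mul_apply, swap_apply_def]
  split_ifs <;> simp_all

omit [Fintype α] in
theorem tc_prod {a b c d : α} (hab : a ≠ b) (hac : a ≠ c) (had : a ≠ d) (hbc : b ≠ c)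
    (hbd : b ≠ d) : tc a b c = tc a b d * tc b c d := by
  rw [tc_rot hab had hbd, ← tc_inv b d c, tc_mul_inv, ← tc_rot hab hac hbc]

theorem tc_gen (H : Subgroup (Perm α)) {a b : α} (hab : a ≠ b)
    (h : ∀ d, d ≠ a → d ≠ b → tc a b d ∈ H) {p q r : α} (hpq : p ≠ q) (hpr : p ≠ r)
    (hqr : q ≠ r) : tc p q r ∈ H := by
  have h1 : ∀ d e, d ≠ a → e ≠ a → d ≠ e → tc a d e ∈ H := by
    intro d e hd he hde
    by_cases hdb : d = b
    · subst hdb
      exact h e he hde.symm
    · by_cases heb : e = b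
      · subst heb
        rw [← tc_inv]
        exact H.inv_mem (h d hd hdb)
      · rw [← tc_mul_inv a b e d]
        exact H.mul_mem (h e he heb) (H.inv_mem (h d hd hdb))
  by_cases hpa : p = a
  · subst hpa
    exact h1 q r hpq.symm hpr.symm hqr
  by_cases hqa : q = a
  · subst hqa
    rw [tc_rot hpq hpr hqr]
    exact h1 r p hqr.symm hpq hpr.symm
  by_cases hra : r = a
  · subst hra
    rw [tc_rot hpq hpr hqr, tc_rot hqr hpq.symm hpr.symm]
    exact h1 p q hpr hqr hpq
  · have h2 : (tc a p r)⁻¹ * tc a p q = tc p q r := by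
      rw [tc_inv_mul (Ne.symm hpa) (Ne.symm hra) (Ne.symm hqa) hpr hpq]
      rfl
    rw [← h2]
    exact H.mul_mem (H.inv_mem (h1 p r hpa hra hpr)) (h1 p q hpa hqa hpq)

end TC

/-! ## The plane -/

section Plane

variable {G Ω : Type} [Group G] [Finite G] [Finite Ω] [MulAction G Ω]
  {V : Type} [AddCommGroup V] [Module ℚ V] (ρ : Representation ℚ G V)
  (f : Ω → V) (hf : ∀ (g : G) (x : Ω), f (g • x) = ρ g (f x)) (hinj : Function.Injective f)
  {B C : Subgroup G} (hBC : ∀ g ∈ B, ∀ h ∈ C, g * h * g⁻¹ ∈ C) (x : Ω)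
  {n : ℕ} (φ : B →* alternatingGroup (Fin n)) (hφ : Function.Surjective φ)
  (hker : φ.ker = C.subgroupOf B)

include hf hinj hBC hker in
/-- A lift of a three-cycle which moves the orbit of `x` under `C` gives an independent pair. -/
theorem indN (h : B) (hh3 : ((φ h : alternatingGroup (Fin n)) : Perm (Fin n)).IsThreeCycle)
    (hhx : (h : G) • x ∉ oS C x) : LinearIndependent ℚ ![f x, ρ (h : G) (f x)] := by
  apply indep
  · rw [← hf]
    intro h6
    apply hhx
    rw [hinj h6]
    exact self_oS C x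
  · rw [← hf]
    intro h6
    have h7 : (h : G) • (h : G) • x = x := by
      apply hinj
      rw [hf, h6, map_neg, ← hf, h6, neg_neg]
    have h8 : h * h ∈ KK B C hBC x := by
      refine ⟨1, C.one_mem, ?_⟩
      rw [one_smul, Subgroup.coe_mul, mul_smul, h7]
    have h9 : h * h * h ∈ φ.ker := by
      rw [MonoidHom.mem_ker]
      apply Subtype.ext
      rw [map_mul, map_mul]
      have h10 : ((φ h : alternatingGroup (Fin n)) : Perm (Fin n)) ^ 3 = 1 := by
        rw [← hh3.orderOf]
        exact pow_orderOf_eq_one _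
      rw [pow_succ, pow_succ, pow_one] at h10
      exact h10
    have h10 := ker_le hBC x φ hker h9
    have h11 : (h * h)⁻¹ * (h * h * h) ∈ KK B C hBC x :=
      Subgroup.mul_mem _ (Subgroup.inv_mem _ h8) h10
    rw [inv_mul_cancel_left] at h11
    exact hhx h11

/-- The elements of `B` which map the space `P` to itself. -/
def stab (B : Subgroup G) (P : Submodule ℚ V) : Subgroup B where
  carrier := {b | P.map (ρ (b : G)) = P}
  one_mem' := by
    change P.map (ρ ((1 : B) : G)) = P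
    rw [Subgroup.coe_one, map_one]
    exact Submodule.map_id P
  mul_mem' := by
    intro a b ha hb
    change P.map (ρ ((a * b : B) : G)) = P
    change P.map (ρ (a : G)) = P at ha
    change P.map (ρ (b : G)) = P at hb
    rw [Subgroup.coe_mul, map_mul]
    change P.map ((ρ (a : G)).comp (ρ (b : G))) = P
    rw [Submodule.map_comp, hb, ha]
  inv_mem' := by
    intro a ha
    change P.map (ρ ((a⁻¹ : B) : G)) = P
    change P.map (ρ (a : G)) = P at ha
    conv_lhs => rw [← ha]
    rw [← Submodule.map_comp]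
    have h1 : (ρ ((a⁻¹ : B) : G)).comp (ρ (a : G)) = LinearMap.id := by
      change ρ ((a⁻¹ : B) : G) * ρ (a : G) = 1
      rw [← map_mul, Subgroup.coe_inv, inv_mul_cancel, map_one]
    rw [h1, Submodule.map_id]

include hf hinj hBC hφ hker in
/-- If there are no independent triples of pairwise adjacent points, then the orbit of `x` under `B`
is in a plane. -/
theorem plane (hno : ∀ g g' : B, ((φ g : alternatingGroup (Fin n)) : Perm (Fin n)).IsThreeCycle →
      ((φ g' : alternatingGroup (Fin n)) : Perm (Fin n)).IsThreeCycle →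
      ((φ (g⁻¹ * g') : alternatingGroup (Fin n)) : Perm (Fin n)).IsThreeCycle →
      ¬ LinearIndependent ℚ ![f x, f ((g : G) • x), f ((g' : G) • x)])
    (hlt : ∃ b ∈ B, b • x ∉ oS C x) :
    ∃ P : Submodule ℚ V, FiniteDimensional ℚ P ∧ Module.finrank ℚ P ≤ 2 ∧
      ∀ b : B, f ((b : G) • x) ∈ P := by
  obtain ⟨g₀, h3, hg₀⟩ := exists_tc hBC x φ hφ hker hlt
  set v := f x with hv
  set K := KK B C hBC x with hK
  have hKm : ∀ b : B, b ∈ K ↔ (b : G) • x ∈ oS C x := fun b => Iff.rfl
  have hkerK : φ.ker ≤ K := ker_le hBC x φ hker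
  have hind : ∀ g : B, ((φ g : alternatingGroup (Fin n)) : Perm (Fin n)).IsThreeCycle → g ∉ K →
      LinearIndependent ℚ ![v, ρ (g : G) v] := fun g hg hgK =>
    indN ρ f hf hinj hBC x φ hker g hg (fun h => hgK ((hKm g).2 h))
  have hg₀K : g₀ ∉ K := fun h => hg₀ ((hKm g₀).1 h)
  set P : Submodule ℚ V := Submodule.span ℚ (Set.range ![v, ρ (g₀ : G) v]) with hP
  have hPf : FiniteDimensional ℚ P := FiniteDimensional.span_of_finite ℚ (Set.finite_range _)
  have hP2 : Module.finrank ℚ P = 2 := by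
    rw [hP, finrank_span_eq_card (hind g₀ h3 hg₀K), Fintype.card_fin]
  have hvP : v ∈ P := Submodule.subset_span ⟨0, rfl⟩
  have hg₀P : ρ (g₀ : G) v ∈ P := Submodule.subset_span ⟨1, rfl⟩
  -- the plane is spanned by every admissible pair
  have hspan : ∀ g : B, ((φ g : alternatingGroup (Fin n)) : Perm (Fin n)).IsThreeCycle → g ∉ K →
      ρ (g : G) v ∈ P → Submodule.span ℚ (Set.range ![v, ρ (g : G) v]) = P := by
    intro g hg hgK hgP
    apply Submodule.eq_of_le_of_finrank_eq
    · rw [Submodule.span_le]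
      rintro _ ⟨i, rfl⟩
      fin_cases i
      · exact hvP
      · exact hgP
    · rw [finrank_span_eq_card (hind g hg hgK), Fintype.card_fin, hP2]
  -- adjacent elements
  have hadj : ∀ g g' : B, ((φ g : alternatingGroup (Fin n)) : Perm (Fin n)).IsThreeCycle → g ∉ K →
      ρ (g : G) v ∈ P → ((φ g' : alternatingGroup (Fin n)) : Perm (Fin n)).IsThreeCycle →
      ((φ (g⁻¹ * g') : alternatingGroup (Fin n)) : Perm (Fin n)).IsThreeCycle →
      ρ (g' : G) v ∈ P := by
    intro g g' hg hgK hgP hg' hgg'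
    have h1 := hno g g' hg hg' hgg'
    rw [hf, hf] at h1
    by_contra hcon
    apply h1
    rw [linearIndependent_finSucc']
    have h2 : Fin.init ![v, ρ (g : G) v, ρ (g' : G) v] = ![v, ρ (g : G) v] := by
      funext i
      fin_cases i <;> rfl
    rw [h2]
    refine ⟨hind g hg hgK, ?_⟩
    rw [hspan g hg hgK hgP]
    exact hcon
  set H := stab ρ B P with hH
  -- an admissible element is in the stabilizer of the plane
  have hmem : ∀ g : B, ((φ g : alternatingGroup (Fin n)) : Perm (Fin n)).IsThreeCycle → g ∉ K →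
      ρ (g : G) v ∈ P → g ∈ H := by
    intro g hg hgK hgP
    have hinv : ((φ g⁻¹ : alternatingGroup (Fin n)) : Perm (Fin n)).IsThreeCycle := by
      rw [map_inv]
      exact hg.inv
    have h1 : ρ ((g⁻¹ : B) : G) v ∈ P := by
      refine hadj g g⁻¹ hg hgK hgP hinv ?_
      have h2 := hinv.isThreeCycle_sq
      rw [map_mul]
      exact h2
    change P.map (ρ (g : G)) = P
    symm
    apply Submodule.eq_of_le_of_finrank_le
    · rw [← hspan g hg hgK hgP, Submodule.span_le]
      rintro _ ⟨i, rfl⟩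
      rw [hspan g hg hgK hgP]
      fin_cases i
      · refine ⟨_, h1, ?_⟩
        change (ρ (g : G) * ρ ((g⁻¹ : B) : G)) v = v
        rw [← map_mul, Subgroup.coe_inv, mul_inv_cancel, map_one]
        rfl
      · exact ⟨v, hvP, rfl⟩
    · exact Submodule.finrank_map_le (ρ (g : G)) P
  have hg₀H : g₀ ∈ H := hmem g₀ h3 hg₀K hg₀P
  -- the kernel
  have hkerH : φ.ker ≤ H := by
    intro c hc
    have hc' : φ c = 1 := hc
    have h1 : ((φ g₀⁻¹ : alternatingGroup (Fin n)) : Perm (Fin n)).IsThreeCycle := by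
      rw [map_inv]
      exact h3.inv
    have h2 : g₀⁻¹ ∉ K := fun h => hg₀K (by
      have := K.inv_mem h
      rwa [inv_inv] at this)
    have h4 : ρ ((g₀⁻¹ : B) : G) v ∈ P := by
      refine hadj g₀ g₀⁻¹ h3 hg₀K hg₀P h1 ?_
      have h5 := h1.isThreeCycle_sq
      rw [map_mul]
      exact h5
    have h5 : ((φ (g₀ * c) : alternatingGroup (Fin n)) : Perm (Fin n)).IsThreeCycle := by
      rw [map_mul, hc', mul_one]
      exact h3
    have h6 : g₀ * c ∉ K := fun h => hg₀K (by
      have := K.mul_mem h (K.inv_mem (hkerK hc))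
      rwa [mul_assoc, mul_inv_cancel, mul_one] at this)
    have h7 : ρ ((g₀ * c : B) : G) v ∈ P := by
      refine hadj g₀⁻¹ (g₀ * c) h1 h2 h4 h5 ?_
      rw [inv_inv, ← mul_assoc, map_mul, hc', mul_one, map_mul]
      exact h3.isThreeCycle_sq
    have h8 : g₀ * c ∈ H := hmem _ h5 h6 h7
    have h9 := H.mul_mem (H.inv_mem hg₀H) h8
    rwa [inv_mul_cancel_left] at h9
  -- all three-cycles
  have hlift : ∀ σ : Perm (Fin n), σ.IsThreeCycle → ∃ g : B,
      ((φ g : alternatingGroup (Fin n)) : Perm (Fin n)) = σ := by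
    intro σ hσ
    obtain ⟨g, hg⟩ := hφ ⟨σ, hσ.mem_alternatingGroup⟩
    exact ⟨g, by rw [hg]⟩
  set Hb : Subgroup (Perm (Fin n)) := (H.map φ).map (alternatingGroup (Fin n)).subtype with hHb
  have hHb1 : ∀ g ∈ H, ((φ g : alternatingGroup (Fin n)) : Perm (Fin n)) ∈ Hb := fun g hg =>
    ⟨φ g, ⟨g, hg, rfl⟩, rfl⟩
  obtain ⟨a, ha⟩ : ((φ g₀ : alternatingGroup (Fin n)) : Perm (Fin n)).support.Nonempty := by
    rw [← Finset.card_pos, h3.card_support]
    norm_num
  set σ := ((φ g₀ : alternatingGroup (Fin n)) : Perm (Fin n)) with hσ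
  have hσt : σ = tc a (σ a) (σ (σ a)) := tc_self h3 ha
  set b := σ a with hb
  set c := σ b with hc
  have hσ3 : σ c = a := by
    have h4 : σ ^ 3 = 1 := by
      rw [← h3.orderOf]
      exact pow_orderOf_eq_one σ
    have h5 : (σ ^ 3) a = a := by rw [h4]; rfl
    simpa [pow_succ] using h5
  have hab : a ≠ b := fun h => (Perm.mem_support.1 ha) h.symm
  have hbc : b ≠ c := fun h => hab (σ.injective (by rw [← hb, ← hc]; exact h))
  have hac : a ≠ c := by
    intro h
    rw [← h] at hσ3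
    exact hab (hσ3.symm.trans hb.symm)
  have h3tc : ∀ {p q r : Fin n}, p ≠ q → p ≠ r → q ≠ r → (tc p q r).IsThreeCycle := by
    intro p q r hpq hpr hqr
    exact isThreeCycle_swap_mul_swap_same hpr hpq hqr.symm
  have hadj' : ∀ p q r s : Fin n, p ≠ q → p ≠ r → p ≠ s → q ≠ r → q ≠ s → r ≠ s →
      σ = tc p q r → ∀ g : B, ((φ g : alternatingGroup (Fin n)) : Perm (Fin n)) = tc p q s →
      g ∉ K → g ∈ H := by
    intro p q r s hpq hpr hps hqr hqs hrs hs g hg hgK
    have h4 : ((φ g : alternatingGroup (Fin n)) : Perm (Fin n)).IsThreeCycle := by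
      rw [hg]
      exact h3tc hpq hps hqs
    refine hmem g h4 hgK (hadj g₀ g h3 hg₀K hg₀P h4 ?_)
    have h5 : ((φ (g₀⁻¹ * g) : alternatingGroup (Fin n)) : Perm (Fin n)) = σ⁻¹ *
        ((φ g : alternatingGroup (Fin n)) : Perm (Fin n)) := by
      rw [map_mul, map_inv]
      rfl
    rw [h5, hg, hs, tc_inv_mul hpq hpr hps hqr hqs]
    exact isThreeCycle_swap_mul_swap_same hqr hqs hrs
  have hgen : ∀ d, d ≠ a → d ≠ b → tc a b d ∈ Hb := by
    intro d hda hdb
    by_cases hdc : d = c
    · rw [hdc, ← hσt]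
      exact hHb1 g₀ hg₀H
    · obtain ⟨g, hg⟩ := hlift (tc a b d) (h3tc hab hda.symm hdb.symm)
      by_cases hgK : g ∈ K
      · obtain ⟨g', hg'⟩ := hlift (tc b c d) (h3tc hbc hdb.symm (Ne.symm hdc))
        have hg'K : g' ∉ K := by
          intro hg'K
          apply hg₀K
          have h4 : (g * g')⁻¹ * g₀ ∈ φ.ker := by
            rw [MonoidHom.mem_ker]
            apply Subtype.ext
            have h5 : ((φ ((g * g')⁻¹ * g₀) : alternatingGroup (Fin n)) : Perm (Fin n)) =
                (tc a b d * tc b c d)⁻¹ * σ := by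
              rw [map_mul, map_inv, map_mul, ← hg, ← hg']
              rfl
            rw [h5, ← tc_prod hab hac hda.symm hbc hdb.symm, ← hσt, inv_mul_cancel]
            rfl
          have h6 := K.mul_mem (K.mul_mem hgK hg'K) (hkerK h4)
          rwa [mul_inv_cancel_left] at h6
        have h4 : g' ∈ H := by
          refine hadj' b c a d hbc hab.symm hdb.symm hac.symm (Ne.symm hdc) hda.symm ?_ g' hg' hg'K
          rw [hσt, tc_rot hab hac hbc]
        have h5 : tc a b d = σ * (tc b c d)⁻¹ := by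
          rw [hσt, tc_prod hab hac hda.symm hbc hdb.symm, mul_inv_cancel_right]
        rw [h5, ← hg']
        exact Hb.mul_mem (hHb1 g₀ hg₀H) (Hb.inv_mem (hHb1 g' h4))
      · rw [← hg]
        exact hHb1 g (hadj' a b c d hab hac hda.symm hbc hdb.symm (Ne.symm hdc) hσt g hg hgK)
  have htop : H.map φ = ⊤ := by
    rw [eq_top_iff, ← alternatingGroup.closure_isThreeCycles_eq_top, Subgroup.closure_le]
    intro τ hτ
    have hτ' : (τ : Perm (Fin n)).IsThreeCycle := hτ
    obtain ⟨p, hp⟩ : (τ : Perm (Fin n)).support.Nonempty := by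
      rw [← Finset.card_pos, hτ'.card_support]
      norm_num
    have h4 := tc_self hτ' hp
    have h5 : (τ : Perm (Fin n)) (τ.1 (τ.1 p)) = p := by
      have h6 : (τ : Perm (Fin n)) ^ 3 = 1 := by
        rw [← hτ'.orderOf]
        exact pow_orderOf_eq_one _
      have h7 : ((τ : Perm (Fin n)) ^ 3) p = p := by rw [h6]; rfl
      simpa [pow_succ] using h7
    have h6 : p ≠ τ.1 p := fun h => (Perm.mem_support.1 hp) h.symm
    have h7 : τ.1 p ≠ τ.1 (τ.1 p) := fun h => h6 (τ.1.injective h)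
    have h8 : p ≠ τ.1 (τ.1 p) := by
      intro h
      rw [← h] at h5
      exact h6 h5.symm
    have h9 : (τ : Perm (Fin n)) ∈ Hb := by
      rw [h4]
      exact tc_gen Hb hab hgen h6 h8 h7
    obtain ⟨τ', hτ1, hτ2⟩ := h9
    have h10 : τ' = τ := Subtype.ext hτ2
    rw [← h10]
    exact hτ1
  have hHtop : ∀ b : B, b ∈ H := by
    intro b
    have h4 : φ b ∈ H.map φ := by
      rw [htop]
      exact Subgroup.mem_top _
    obtain ⟨b', hb', hb''⟩ := h4
    have h5 : b'⁻¹ * b ∈ φ.ker := by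
      rw [MonoidHom.mem_ker, map_mul, map_inv, hb'', inv_mul_cancel]
    have h6 := H.mul_mem hb' (hkerH h5)
    rwa [mul_inv_cancel_left] at h6
  refine ⟨P, hPf, hP2.le, ?_⟩
  intro b'
  rw [hf]
  have h4 : P.map (ρ (b' : G)) = P := hHtop b'
  rw [← h4]
  exact ⟨v, hvP, rfl⟩

end Plane

/-! ## Orbits -/

theorem orb_tuple_le {G Ω : Type} [Group G] [Finite G] [Finite Ω] [MulAction G Ω] (x : Ω) (m : ℕ)
    (y : Fin (m + 1) → Ω) (hy : y 0 = x) (W : Subgroup G) (hW : W ≤ MulAction.stabilizer G x)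
    (Z : Set Ω) (hZ : ∀ (i : Fin m), ∀ w ∈ W, w • y i.succ ∈ Z) :
    Nat.card (MulAction.orbit G y) ≤ W.index * Z.ncard ^ m := by
  have h2 : (MulAction.stabilizer G y).relIndex W = (MulAction.stabilizer W y).index := rfl
  have hmem : ∀ y' : Fin (m + 1) → Ω, y' ∈ MulAction.orbit W y →
      y' 0 = x ∧ ∀ i : Fin m, y' i.succ ∈ Z := by
    rintro _ ⟨w, rfl⟩
    refine ⟨?_, fun i => hZ i w w.2⟩
    change (w : G) • y 0 = x
    rw [hy]
    exact MulAction.mem_stabilizer_iff.1 (hW w.2)
  have h3 : (MulAction.stabilizer W y).index ≤ Z.ncard ^ m := by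
    rw [MulAction.index_stabilizer, ← Nat.card_coe_set_eq]
    have h4 : Nat.card (Fin m → Z) = Z.ncard ^ m := by
      rw [Nat.card_fun, Nat.card_coe_set_eq, Nat.card_eq_fintype_card, Fintype.card_fin]
    rw [← h4]
    let F : MulAction.orbit W y → (Fin m → Z) := fun y' i => ⟨y'.1 i.succ, (hmem y'.1 y'.2).2 i⟩
    refine Nat.card_le_card_of_injective F ?_
    intro u u' huu
    apply Subtype.ext
    funext i
    refine Fin.cases ?_ (fun j => ?_) i
    · rw [(hmem u.1 u.2).1, (hmem u'.1 u'.2).1]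
    · exact congrArg Subtype.val (congrFun huu j)
  have h4 : (W ⊓ MulAction.stabilizer G y).index ≤ W.index * Z.ncard ^ m := by
    rw [← Subgroup.relIndex_mul_index (inf_le_left : W ⊓ MulAction.stabilizer G y ≤ W),
      Subgroup.inf_relIndex_left, h2, mul_comm]
    exact Nat.mul_le_mul_left _ h3
  rw [Nat.card_coe_set_eq, ← MulAction.index_stabilizer]
  refine le_trans ?_ h4
  exact Nat.le_of_dvd (Nat.pos_of_ne_zero Subgroup.FiniteIndex.index_ne_zero)
    (Subgroup.index_dvd_of_le inf_le_right)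

/-! ## Numbers -/

theorem num3 (A R : ℕ) (hA : 1 ≤ A) : ∃ C : ℕ, ∀ D k n Z m : ℕ, 2 ≤ D → 2 ^ k ≤ D ^ 10 →
    n ^ A ≤ D ^ (A - 1) → Z ≤ R * (5040 * (k + 5) ^ 2 * n) → (m = 1 ∨ m = 2) →
    (D * Z ^ m) ^ (2 * A) ≤ C * D ^ ((m + 1) * (2 * A) - 1) := by
  obtain ⟨C, hC⟩ := num A R hA
  refine ⟨C + C * C, ?_⟩
  intro D k n Z m hD hk hn hZ hm
  have h1 : (D * Z) ^ (2 * A) ≤ C * D ^ (2 * (2 * A) - 1) := by
    refine hC D 1 k n (D * Z) (by omega) hk ?_ hn ?_
    · calc 2 ^ 1 ≤ 2 ^ 2 := by norm_num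
        _ ≤ D ^ 2 := Nat.pow_le_pow_left hD 2
    · rw [one_mul]
      exact Nat.mul_le_mul_left _ hZ
  have hDp : 0 < D ^ (2 * A) := by positivity
  have h2 : Z ^ (2 * A) ≤ C * D ^ (2 * A - 1) := by
    have h3 : D ^ (2 * A) * Z ^ (2 * A) ≤ D ^ (2 * A) * (C * D ^ (2 * A - 1)) := by
      rw [← mul_pow]
      refine h1.trans (le_of_eq ?_)
      have h4 : 2 * (2 * A) - 1 = 2 * A + (2 * A - 1) := by omega
      rw [h4, pow_add]
      ring
    exact Nat.le_of_mul_le_mul_left h3 hDp
  rcases hm with rfl | rfl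
  · rw [pow_one]
    refine h1.trans ?_
    rw [show (1 + 1) * (2 * A) - 1 = 2 * (2 * A) - 1 by omega]
    exact Nat.mul_le_mul_right _ (Nat.le_add_right _ _)
  · calc (D * Z ^ 2) ^ (2 * A) = (D * Z) ^ (2 * A) * Z ^ (2 * A) := by
          rw [← mul_pow]
          congr 1
          ring
      _ ≤ C * D ^ (2 * (2 * A) - 1) * (C * D ^ (2 * A - 1)) := Nat.mul_le_mul h1 h2
      _ = C * C * D ^ (2 * (2 * A) - 1 + (2 * A - 1)) := by
          rw [pow_add]
          ring
      _ ≤ (C + C * C) * D ^ ((2 + 1) * (2 * A) - 1) := by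
          apply Nat.mul_le_mul (Nat.le_add_left _ _)
          apply Nat.pow_le_pow_right (by omega)
          omega

theorem num7 (A R : ℕ) (hA : 1 ≤ A) : ∃ C : ℕ, ∀ D Z m : ℕ, 1 ≤ D → Z ≤ R * 5040 →
    (m = 1 ∨ m = 2) → (D * Z ^ m) ^ (2 * A) ≤ C * D ^ ((m + 1) * (2 * A) - 1) := by
  refine ⟨(R * 5040 + 1) ^ (2 * (2 * A)), ?_⟩
  intro D Z m hD hZ hm
  have hm2 : m ≤ 2 := by omega
  generalize R * 5040 = Q at hZ ⊢
  have h1 : (Z ^ m) ^ (2 * A) ≤ (Q + 1) ^ (2 * (2 * A)) := by
    rw [← pow_mul]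
    exact (Nat.pow_le_pow_left (hZ.trans (Nat.le_succ Q)) _).trans
      (Nat.pow_le_pow_right (Nat.succ_pos Q) (Nat.mul_le_mul_right _ hm2))
  rw [mul_pow, mul_comm]
  refine Nat.mul_le_mul h1 (Nat.pow_le_pow_right hD ?_)
  rcases hm with rfl | rfl <;> omega

end Pool.DynLehmer.LW.Alt

namespace Pool.DynLehmer.LW
open scoped Classical
open Alt Equiv Equiv.Perm

theorem alth (hMod : ModtStatement) (hB : BlkhStatement) : AlthStatement := by
  intro A hA Rb
  obtain ⟨C1, hC1⟩ := num3 A Rb hA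
  obtain ⟨C2, hC2⟩ := num7 A Rb hA
  refine ⟨C1 + C2, ?_⟩
  intro G Ω V _ _ _ _ _ _ ρ f hf hinj htr x B₀ B hle hS0 hSB hBB hR hlt h81 n φ hφ hker hn
  have hidx : (MulAction.stabilizer G x).index = Fintype.card Ω := by
    rw [MulAction.index_stabilizer_of_transitive, Nat.card_eq_fintype_card]
  have hR' := hR
  have hlt' := hlt
  rw [oS_eq] at hR'
  rw [oS_eq, oS_eq] at hlt'
  have hex : ∃ b ∈ B, b • x ∉ oS B₀ x := by
    by_contra hcon
    push Not at hcon
    have h1 : oS B x ⊆ oS B₀ x := by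
      rintro z ⟨b, hb, rfl⟩
      exact hcon b hb
    have h2 := Set.ncard_le_ncard h1 (Set.toFinite _)
    omega
  have hoD : (oS B x).ncard ≤ Fintype.card Ω := by
    rw [← Nat.card_eq_fintype_card]
    exact Set.ncard_le_card _
  have hD : 2 ≤ Fintype.card Ω := by
    rw [oS_eq] at h81
    omega
  by_cases h8 : 8 ≤ n
  · -- an independent triple
    have htrip : ∃ g g' : B, ((φ g : alternatingGroup (Fin n)) : Perm (Fin n)).IsThreeCycle ∧
        ((φ g' : alternatingGroup (Fin n)) : Perm (Fin n)).IsThreeCycle ∧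
        ((φ (g⁻¹ * g') : alternatingGroup (Fin n)) : Perm (Fin n)).IsThreeCycle ∧
        LinearIndependent ℚ ![f x, f ((g : G) • x), f ((g' : G) • x)] := by
      by_contra hcon
      push Not at hcon
      obtain ⟨P, hPf, hP2, hP⟩ := plane ρ f hf hinj hBB x φ hφ hker hcon hex
      let ρB : Representation ℚ B V := ρ.comp B.subtype
      have hsp : Submodule.span ℚ (Set.range fun h : B => ρB h (f x)) ≤ P := by
        rw [Submodule.span_le]
        rintro _ ⟨b, rfl⟩
        have h1 := hP b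
        rw [hf] at h1
        exact h1
      have h1 := hMod 2 B V ρB (f x) ((Submodule.finrank_mono hsp).trans hP2)
      have h2 : Nat.card (MulAction.orbit B x) ≤ Nat.card (Set.range fun h : B => ρB h (f x)) := by
        have hm : ∀ z : MulAction.orbit B x, f z.1 ∈ Set.range fun h : B => ρB h (f x) := by
          rintro ⟨_, b, rfl⟩
          exact ⟨b, (hf b x).symm⟩
        refine Nat.card_le_card_of_injective
          (fun z : MulAction.orbit B x => (⟨f z.1, hm z⟩ : Set.range fun h : B => ρB h (f x))) ?_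
        intro z z' hzz
        exact Subtype.ext (hinj (congrArg Subtype.val hzz))
      have h3 : (3 : ℕ) ^ (2 ^ 2) = 81 := by norm_num
      rw [h3] at h1
      omega
    obtain ⟨g, g', hg, hg', hgg', hli⟩ := htrip
    let hh : Fin 3 → B := ![1, g, g']
    have hadj : ∀ i j : Fin 3, i ≠ j →
        ((φ ((hh i)⁻¹ * hh j) : alternatingGroup (Fin n)) : Perm (Fin n)).IsThreeCycle := by
      have hinv : ∀ b : B, ((φ b : alternatingGroup (Fin n)) : Perm (Fin n)).IsThreeCycle →
          ((φ b⁻¹ : alternatingGroup (Fin n)) : Perm (Fin n)).IsThreeCycle := by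
        intro b hb
        rw [map_inv]
        exact hb.inv
      have h1 : ((φ (g'⁻¹ * g) : alternatingGroup (Fin n)) : Perm (Fin n)).IsThreeCycle := by
        have h2 := hinv _ hgg'
        rwa [mul_inv_rev, inv_inv] at h2
      intro i j hij
      fin_cases i <;> fin_cases j
      · exact absurd rfl hij
      · change ((φ ((1 : B)⁻¹ * g) : alternatingGroup (Fin n)) : Perm (Fin n)).IsThreeCycle
        rwa [inv_one, one_mul]
      · change ((φ ((1 : B)⁻¹ * g') : alternatingGroup (Fin n)) : Perm (Fin n)).IsThreeCycle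
        rwa [inv_one, one_mul]
      · change ((φ (g⁻¹ * 1) : alternatingGroup (Fin n)) : Perm (Fin n)).IsThreeCycle
        rw [mul_one]
        exact hinv g hg
      · exact absurd rfl hij
      · exact hgg'
      · change ((φ (g'⁻¹ * 1) : alternatingGroup (Fin n)) : Perm (Fin n)).IsThreeCycle
        rw [mul_one]
        exact hinv g' hg'
      · exact h1
      · exact absurd rfl hij
    obtain ⟨k₁, hk1, hk2⟩ := Z_le hBB x φ hφ hker (by omega) hR'
    set Z := {z : Ω | ∃ b : B, ((φ b : alternatingGroup (Fin n)) : Perm (Fin n)).IsThreeCycle ∧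
      (b : G) • x = z} with hZ
    have hZn : Z.ncard ≤ Rb * (5040 * (k₁ + 5) ^ 2 * n) := by
      refine hk2.trans (Nat.mul_le_mul_left _ ?_)
      exact Nat.mul_le_mul_right _ (Nat.mul_le_mul_right _ (by norm_num))
    have hSZ : ∀ w ∈ MulAction.stabilizer G x, ∀ z ∈ Z, w • z ∈ Z := by
      rintro w hw _ ⟨b, hb, rfl⟩
      have hBw : ∀ b, b ∈ B ↔ w * b * w⁻¹ ∈ B := by
        intro b
        refine ⟨fun hb => hSB w hw b hb, fun hb => ?_⟩
        have h1 := hSB w⁻¹ (inv_mem hw) _ hb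
        have h2 : w⁻¹ * (w * b * w⁻¹) * w⁻¹⁻¹ = b := by group
        rwa [h2] at h1
      have hCw : ∀ b, b ∈ B₀ ↔ w * b * w⁻¹ ∈ B₀ := by
        intro b
        refine ⟨fun hb => hS0 w hw b hb, fun hb => ?_⟩
        have h1 := hS0 w⁻¹ (inv_mem hw) _ hb
        have h2 : w⁻¹ * (w * b * w⁻¹) * w⁻¹⁻¹ = b := by group
        rwa [h2] at h1
      refine ⟨⟨w * b * w⁻¹, (hBw b).1 b.2⟩, tc_conj φ hφ hker h8 w hBw hCw b hb, ?_⟩
      have h1 : w⁻¹ • x = x := by
        rw [inv_smul_eq_iff]
        exact (MulAction.mem_stabilizer_iff.1 hw).symm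
      change (w * (b : G) * w⁻¹) • x = w • (b : G) • x
      rw [mul_smul, h1, mul_smul]
    refine ⟨3, fun i => ((hh i : B) : G) • x, le_rfl, le_rfl, ?_, ?_⟩
    · have h1 : (fun i => f (((hh i : B) : G) • x)) = ![f x, f ((g : G) • x), f ((g' : G) • x)] := by
        funext i
        fin_cases i
        · change f (((1 : B) : G) • x) = f x
          rw [Subgroup.coe_one, one_smul]
        · rfl
        · rfl
      rw [h1]
      exact hli
    · intro k ι hι hk
      have hk3 : k ≤ 3 := by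
        have h1 := Fintype.card_le_of_injective ι hι
        rwa [Fintype.card_fin, Fintype.card_fin] at h1
      obtain ⟨m, rfl⟩ : ∃ m, k = m + 1 := ⟨k - 1, by omega⟩
      have hm : m = 1 ∨ m = 2 := by omega
      set t : B := hh (ι 0) with ht
      set y' : Fin (m + 1) → Ω := fun i => ((t⁻¹ * hh (ι i) : B) : G) • x with hy'
      have h1 : ((fun i => ((hh i : B) : G) • x) ∘ ι : Fin (m + 1) → Ω) = (t : G) • y' := by
        funext i
        change ((hh (ι i) : B) : G) • x = (t : G) • ((t⁻¹ * hh (ι i) : B) : G) • x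
        rw [← mul_smul, Subgroup.coe_mul, Subgroup.coe_inv, mul_inv_cancel_left]
      have h2 : Nat.card (MulAction.orbit G y') ≤ Fintype.card Ω * Z.ncard ^ m := by
        rw [← hidx]
        refine orb_tuple_le x m y' ?_ _ le_rfl Z ?_
        · change ((t⁻¹ * hh (ι 0) : B) : G) • x = x
          rw [← ht, inv_mul_cancel, Subgroup.coe_one, one_smul]
        · intro i w hw
          refine hSZ w hw _ ⟨t⁻¹ * hh (ι i.succ), hadj _ _ ?_, rfl⟩
          intro h3
          exact (Fin.succ_ne_zero i) (hι h3).symm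
      rw [h1, MulAction.orbit_smul]
      refine (Nat.pow_le_pow_left h2 _).trans ((hC1 (Fintype.card Ω) k₁ n Z.ncard m hD
        (hk1.trans (Nat.pow_le_pow_left hoD 10)) hn hZn hm).trans ?_)
      exact Nat.mul_le_mul_right _ (Nat.le_add_right _ _)
  · -- few points
    have hZ : Nat.card (MulAction.orbit B x) ≤ Rb * 5040 := by
      rw [oS_eq]
      exact oS_le x φ hφ hker hR' (by omega)
    obtain ⟨y, hy, hy'⟩ := hB G Ω V ρ f hf hinj x B (MulAction.stabilizer G x)
      (fun w hw => MulAction.mem_stabilizer_iff.1 hw) hSB h81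
    refine ⟨3, y, le_rfl, le_rfl, hy, ?_⟩
    intro k ι hι hk
    have hk3 : k ≤ 3 := by
      have h1 := Fintype.card_le_of_injective ι hι
      rwa [Fintype.card_fin, Fintype.card_fin] at h1
    obtain ⟨m, rfl⟩ : ∃ m, k = m + 1 := ⟨k - 1, by omega⟩
    have hm : m = 1 ∨ m = 2 := by omega
    have h1 := hy' (m + 1) ι hι (by omega)
    rw [hidx, Nat.add_sub_cancel] at h1
    refine (Nat.pow_le_pow_left h1 _).trans ((hC2 (Fintype.card Ω) _ m (by omega) hZ hm).trans ?_)
    exact Nat.mul_le_mul_right _ (Nat.le_add_left _ _)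

end Pool.DynLehmer.LW
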