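import Pool.Agent.Lib.MP_2194ec_nt.LW.GrpcC

set_option autoImplicit false

/-!
# Cubes with a small orbit
-/

namespace Pool.DynLehmer.LW
open scoped Classical

namespace Cf

variable {G Ω : Type} [Group G] [Finite G] [Finite Ω] [MulAction G Ω]

omit [Finite G] [Finite Ω] in
theorem ob_of_mem {H : Subgroup G} {x z : Ω} (hz : z ∈ Ob H x) : Ob H z = Ob H x := by
  obtain ⟨h, hh, rfl⟩ := hz
  ext w
  constructor
  · rintro ⟨u, hu, rfl⟩
    exact ⟨u * h, H.mul_mem hu hh, mul_smul _ _ _⟩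
  · rintro ⟨u, hu, rfl⟩
    refine ⟨u * h⁻¹, H.mul_mem hu (H.inv_mem hh), ?_⟩
    rw [mul_smul, inv_smul_smul]

omit [Finite Ω] in
theorem card_fib (H : Subgroup G) (z w : Ω) :
    oc H z * Nat.card {h : H // h • z = w} ≤ Nat.card H := by
  have h1 : Nat.card {h : H // h • z = w} ≤ Nat.card (MulAction.stabilizer H z) := by
    by_cases he : Nonempty {h : H // h • z = w}
    · obtain ⟨h0, hh0⟩ := he
      refine Nat.card_le_card_of_injective
        (fun h => (⟨h0⁻¹ * h.1, ?_⟩ : MulAction.stabilizer H z)) ?_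
      · rw [MulAction.mem_stabilizer_iff, mul_smul, h.2, inv_smul_eq_iff, hh0]
      · intro a b hab
        have := congrArg Subtype.val hab
        exact Subtype.ext (mul_left_cancel this)
    · rw [not_nonempty_iff] at he
      simp
  have h2 : Nat.card (MulAction.orbit H z) * Nat.card (MulAction.stabilizer H z) =
      Nat.card H := by
    rw [← Nat.card_prod]
    exact Nat.card_congr (MulAction.orbitProdStabilizerEquivGroup H z)
  rw [natCard_orbit] at h2
  rw [← h2]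
  exact Nat.mul_le_mul_left _ h1

theorem exh (H : Subgroup G) {x : Ω} {R : ℕ} {E : Ω → Finset Ω} (hE : ∀ x, (E x).card ≤ R)
    {ι : Type} [Fintype ι] (y : ι → Ω) (hy : ∀ i, y i ∈ Ob H x)
    (hc : (Fintype.card ι) ^ 2 * R < oc H x) : ∃ h ∈ H, ∀ i j, h • y i ∉ E (y j) := by
  by_contra hcon
  push Not at hcon
  have _ : Fintype H := Fintype.ofFinite _
  set F : ι × ι → Ω → Finset H := fun p z => Finset.univ.filter (fun h : H => h • y p.1 = z)
    with hF
  have h1 : (Finset.univ : Finset H) ⊆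
      (Finset.univ : Finset (ι × ι)).biUnion (fun p => (E (y p.2)).biUnion (F p)) := by
    intro h _
    obtain ⟨i, j, hij⟩ := hcon h h.2
    rw [Finset.mem_biUnion]
    refine ⟨(i, j), Finset.mem_univ _, ?_⟩
    rw [Finset.mem_biUnion]
    exact ⟨h • y i, hij, by simp [hF]⟩
  have h2 : ∀ p z, oc H x * (F p z).card ≤ Nat.card H := by
    intro p z
    have h3 := card_fib H (y p.1) z
    have h4 : oc H (y p.1) = oc H x := by rw [oc, ob_of_mem (hy p.1), oc]
    have h5 : Nat.card {h : H // h • y p.1 = z} = (F p z).card := by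
      rw [Nat.card_eq_fintype_card, Fintype.card_subtype]
    rwa [h4, h5] at h3
  have h3 : Nat.card H ≤ ∑ p : ι × ι, ∑ z ∈ E (y p.2), (F p z).card := by
    rw [Nat.card_eq_fintype_card, ← Finset.card_univ]
    exact (Finset.card_le_card h1).trans (Finset.card_biUnion_le.trans
      (Finset.sum_le_sum fun p _ => Finset.card_biUnion_le))
  have h4 : oc H x * Nat.card H ≤ ((Fintype.card ι) ^ 2 * R) * Nat.card H := by
    calc oc H x * Nat.card H ≤ oc H x * ∑ p : ι × ι, ∑ z ∈ E (y p.2), (F p z).card :=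
          Nat.mul_le_mul_left _ h3
      _ = ∑ p : ι × ι, ∑ z ∈ E (y p.2), oc H x * (F p z).card := by
          simp only [Finset.mul_sum]
      _ ≤ ∑ p : ι × ι, ∑ z ∈ E (y p.2), Nat.card H :=
          Finset.sum_le_sum fun p _ => Finset.sum_le_sum fun z _ => h2 p z
      _ ≤ ∑ _p : ι × ι, R * Nat.card H := by
          refine Finset.sum_le_sum fun p _ => ?_
          rw [Finset.sum_const, smul_eq_mul]
          exact Nat.mul_le_mul_right _ (hE _)
      _ = ((Fintype.card ι) ^ 2 * R) * Nat.card H := by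
          rw [Finset.sum_const, smul_eq_mul, Finset.card_univ, Fintype.card_prod]
          ring
  have h5 : 0 < Nat.card H := Nat.card_pos
  exact absurd (Nat.le_of_mul_le_mul_right h4 h5) (not_le.2 hc)

/-- The elements of `W` which commute with `h` modulo `L`. -/
def Wc (L W : Subgroup G) (hWL : ∀ w ∈ W, ∀ a ∈ L, w * a * w⁻¹ ∈ L) (h : G) : Subgroup G where
  carrier := {w | w ∈ W ∧ w * h * w⁻¹ * h⁻¹ ∈ L}
  one_mem' := ⟨W.one_mem, by simp⟩
  mul_mem' := by
    rintro a b ⟨ha, ha'⟩ ⟨hb, hb'⟩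
    refine ⟨W.mul_mem ha hb, ?_⟩
    have h1 := L.mul_mem (hWL a ha _ hb') ha'
    have h2 : a * b * h * (a * b)⁻¹ * h⁻¹ =
        a * (b * h * b⁻¹ * h⁻¹) * a⁻¹ * (a * h * a⁻¹ * h⁻¹) := by group
    rw [h2]
    exact h1
  inv_mem' := by
    rintro a ⟨ha, ha'⟩
    refine ⟨W.inv_mem ha, ?_⟩
    have h1 := hWL a⁻¹ (W.inv_mem ha) _ (L.inv_mem ha')
    have h2 : a⁻¹ * h * a⁻¹⁻¹ * h⁻¹ = a⁻¹ * (a * h * a⁻¹ * h⁻¹)⁻¹ * a⁻¹⁻¹ := by group
    rw [h2]
    exact h1

theorem cube {L H W : Subgroup G} {x : Ω} (hLH : ∀ h ∈ H, ∀ a ∈ L, h * a * h⁻¹ ∈ L)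
    (hWL : ∀ w ∈ W, ∀ a ∈ L, w * a * w⁻¹ ∈ L) (hWH : ∀ w ∈ W, ∀ h ∈ H, w * h * w⁻¹ ∈ H)
    (hWx : ∀ w ∈ W, w • x = x) {R : ℕ} {E : Ω → Finset Ω} (hE : ∀ x, (E x).card ≤ R)
    (hsymm : ∀ x y, y ∈ E x → x ∈ E y) (heq : ∀ (g : G) (x y : Ω), y ∈ E x → g • y ∈ E (g • x))
    {r : ℕ} (hr : 4 ^ r * R < oc H x) :
    ∀ s ≤ r, ∃ (ι : Type) (_ : Fintype ι) (y : ι → Ω), Fintype.card ι = 2 ^ s ∧ (∃ i, y i = x) ∧
      (∀ i, y i ∈ Ob H x) ∧ (∀ i i', i ≠ i' → y i' ∉ E (y i)) ∧
      ∃ W' ≤ W, W'.relIndex W ≤ (L.relIndex H) ^ s ∧ ∀ w ∈ W', ∀ i, w • y i ∈ Ob L (y i) := by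
  intro s
  induction s with
  | zero =>
    intro _
    refine ⟨Unit, inferInstance, fun _ => x, by simp, ⟨(), rfl⟩, fun _ => self_mem H x, ?_, W,
      le_rfl, by simp, ?_⟩
    · intro i i' hne
      exact absurd (Subsingleton.elim i i') hne
    · intro w hw i
      rw [hWx w hw]
      exact self_mem L x
  | succ s ih =>
    intro hs
    obtain ⟨ι, _, y, hcard, ⟨i0, hi0⟩, hyH, hyE, W', hW'W, hidx, hW'⟩ := ih (by omega)
    have hc : (Fintype.card ι) ^ 2 * R < oc H x := by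
      rw [hcard, ← pow_mul, mul_comm s 2, pow_mul]
      refine lt_of_le_of_lt (Nat.mul_le_mul_right R ?_) hr
      exact Nat.pow_le_pow_right (by norm_num) (by omega)
    obtain ⟨h, hh, hbad⟩ := exh H hE y hyH hc
    have hWL' : ∀ w ∈ W', ∀ a ∈ L, w * a * w⁻¹ ∈ L := fun w hw => hWL w (hW'W hw)
    refine ⟨ι ⊕ ι, inferInstance, Sum.elim y (fun i => h • y i), ?_, ⟨Sum.inl i0, hi0⟩, ?_, ?_,
      Wc L W' hWL' h, fun w hw => hW'W hw.1, ?_, ?_⟩
    · rw [Fintype.card_sum, hcard, pow_succ]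
      ring
    · rintro (i | i)
      · exact hyH i
      · obtain ⟨u, hu, hux⟩ := hyH i
        refine ⟨h * u, H.mul_mem hh hu, ?_⟩
        rw [mul_smul, hux]
        rfl
    · rintro (i | i) (j | j) hij
      · exact hyE i j fun he => hij (by rw [he])
      · exact hbad j i
      · exact fun hc => hbad i j (hsymm _ _ hc)
      · intro hc
        have h1 := heq h⁻¹ _ _ hc
        simp only [Sum.elim_inr, inv_smul_smul] at h1
        exact hyE i j (fun he => hij (by rw [he])) h1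
    · have h1 : (Wc L W' hWL' h).relIndex W' ≤ L.relIndex H := by
        have h2 : L.relIndex H = Nat.card (H ⧸ L.subgroupOf H) := rfl
        rw [h2]
        refine ri_le _ _ (fun w => (QuotientGroup.mk
          ⟨(w : G) * h * (w : G)⁻¹, hWH w (hW'W w.2) h hh⟩ : H ⧸ L.subgroupOf H)) ?_
        intro a b hab
        rw [QuotientGroup.eq, Subgroup.mem_subgroupOf] at hab
        have h3 : ((a : G) * h * (a : G)⁻¹)⁻¹ * ((b : G) * h * (b : G)⁻¹) ∈ L := by
          simpa using hab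
        refine ⟨W'.mul_mem (W'.inv_mem a.2) b.2, ?_⟩
        have h4 := hLH h hh _ (hWL' (a : G)⁻¹ (W'.inv_mem a.2) _ h3)
        have h5 : h * ((a : G)⁻¹ * (((a : G) * h * (a : G)⁻¹)⁻¹ * ((b : G) * h * (b : G)⁻¹)) *
            (a : G)⁻¹⁻¹) * h⁻¹ = (a : G)⁻¹ * (b : G) * h * ((a : G)⁻¹ * (b : G))⁻¹ * h⁻¹ := by
          group
        rwa [h5] at h4
      have h3 : Wc L W' hWL' h ≤ W' := fun w hw => hw.1
      rw [← Subgroup.relIndex_mul_relIndex _ _ _ h3 hW'W, pow_succ, mul_comm]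
      exact Nat.mul_le_mul hidx h1
    · rintro w ⟨hw, hwL⟩ (i | i)
      · exact hW' w hw i
      · obtain ⟨l, hl, hlx⟩ := hW' w hw i
        refine ⟨(w * h * w⁻¹ * h⁻¹) * (h * l * h⁻¹), L.mul_mem hwL (hLH h hh l hl), ?_⟩
        simp only [Sum.elim_inr]
        rw [← mul_smul]
        have h1 : (w * h * w⁻¹ * h⁻¹ * (h * l * h⁻¹) * h) • y i = (w * h * w⁻¹) • l • y i := by
          rw [← mul_smul]
          congr 1
          group
        rw [h1, hlx, ← mul_smul, ← mul_smul]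
        congr 1
        group

theorem orb_le {ι : Type} [Fintype ι] (y : ι → Ω) (W : Subgroup G) (S : ι → Set Ω)
    (hS : ∀ w ∈ W, ∀ i, w • y i ∈ S i) :
    Nat.card (MulAction.orbit G y) ≤ W.index * ∏ i, (S i).ncard := by
  rw [Nat.card_coe_set_eq, ← MulAction.index_stabilizer]
  have h1 : (MulAction.stabilizer G y).relIndex W ≤ ∏ i, (S i).ncard := by
    have h2 : ∏ i, (S i).ncard = Nat.card (∀ i, S i) := by
      rw [Nat.card_pi]
      rfl
    rw [h2]
    refine ri_le _ _ (fun w => fun i => (⟨(w : G) • y i, hS w w.2 i⟩ : S i)) ?_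
    intro a b hab
    rw [MulAction.mem_stabilizer_iff, mul_smul, inv_smul_eq_iff]
    funext i
    have := congrArg Subtype.val (congrFun hab i)
    exact this.symm
  calc (MulAction.stabilizer G y).index ≤ (MulAction.stabilizer G y ⊓ W).index :=
        Nat.le_of_dvd (Nat.pos_of_ne_zero Subgroup.FiniteIndex.index_ne_zero)
          (Subgroup.index_dvd_of_le inf_le_left)
    _ = (MulAction.stabilizer G y).relIndex W * W.index := by
        rw [← Subgroup.inf_relIndex_right, Subgroup.relIndex_mul_index inf_le_right]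
    _ ≤ W.index * ∏ i, (S i).ncard := by
        rw [mul_comm]
        exact Nat.mul_le_mul_left _ h1

end Cf

end Pool.DynLehmer.LW
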