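import Pool.Agent.Lib.MP_2194ec_nt.LW.DefsMul
import Pool.Agent.Lib.MP_2194ec_nt.LW.GrpcD

set_option autoImplicit false

/-!
# Tuples with independent vectors and a small orbit
-/

namespace Pool.DynLehmer.LW
open scoped Classical

namespace Cf

variable {G Ω : Type} [Group G] [Finite G] [Finite Ω] [MulAction G Ω]

/-- The elements of `W` which commute with all `h i` modulo `L`. -/
def Wm (L W : Subgroup G) (hWL : ∀ w ∈ W, ∀ a ∈ L, w * a * w⁻¹ ∈ L) {s : ℕ} (h : Fin s → G) :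
    Subgroup G where
  carrier := {w | w ∈ W ∧ ∀ i, w * h i * w⁻¹ * (h i)⁻¹ ∈ L}
  one_mem' := ⟨W.one_mem, fun i => by simp⟩
  mul_mem' := by
    rintro a b ⟨ha, ha'⟩ ⟨hb, hb'⟩
    refine ⟨W.mul_mem ha hb, fun i => ?_⟩
    have h1 := L.mul_mem (hWL a ha _ (hb' i)) (ha' i)
    have h2 : a * b * h i * (a * b)⁻¹ * (h i)⁻¹ =
        a * (b * h i * b⁻¹ * (h i)⁻¹) * a⁻¹ * (a * h i * a⁻¹ * (h i)⁻¹) := by group
    rw [h2]
    exact h1
  inv_mem' := by
    rintro a ⟨ha, ha'⟩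
    refine ⟨W.inv_mem ha, fun i => ?_⟩
    have h1 := hWL a⁻¹ (W.inv_mem ha) _ (L.inv_mem (ha' i))
    have h2 : a⁻¹ * h i * a⁻¹⁻¹ * (h i)⁻¹ = a⁻¹ * (a * h i * a⁻¹ * (h i)⁻¹)⁻¹ * a⁻¹⁻¹ := by
      group
    rw [h2]
    exact h1

omit [Finite Ω] in
theorem Wm_idx {L H W : Subgroup G} (hLH : ∀ h ∈ H, ∀ a ∈ L, h * a * h⁻¹ ∈ L)
    (hWL : ∀ w ∈ W, ∀ a ∈ L, w * a * w⁻¹ ∈ L) (hWH : ∀ w ∈ W, ∀ h ∈ H, w * h * w⁻¹ ∈ H)
    {s : ℕ} (h : Fin s → G) (hh : ∀ i, h i ∈ H) :
    (Wm L W hWL h).relIndex W ≤ (L.relIndex H) ^ s := by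
  have h2 : (L.relIndex H) ^ s = Nat.card (Fin s → H ⧸ L.subgroupOf H) := by
    rw [Nat.card_fun, Nat.card_fin]
    rfl
  rw [h2]
  refine ri_le _ _ (fun w => fun i => (QuotientGroup.mk
    ⟨(w : G) * h i * (w : G)⁻¹, hWH w w.2 (h i) (hh i)⟩ : H ⧸ L.subgroupOf H)) ?_
  intro a b hab
  refine ⟨W.mul_mem (W.inv_mem a.2) b.2, fun i => ?_⟩
  have hab' := congrFun hab i
  rw [QuotientGroup.eq, Subgroup.mem_subgroupOf] at hab'
  have h3 : ((a : G) * h i * (a : G)⁻¹)⁻¹ * ((b : G) * h i * (b : G)⁻¹) ∈ L := by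
    simpa using hab'
  have h4 := hLH (h i) (hh i) _ (hWL (a : G)⁻¹ (W.inv_mem a.2) _ h3)
  have h5 : h i * ((a : G)⁻¹ * (((a : G) * h i * (a : G)⁻¹)⁻¹ * ((b : G) * h i * (b : G)⁻¹)) *
      (a : G)⁻¹⁻¹) * (h i)⁻¹ =
      (a : G)⁻¹ * (b : G) * h i * ((a : G)⁻¹ * (b : G))⁻¹ * (h i)⁻¹ := by
    group
  rwa [h5] at h4

/-- the elements of `H` which commute with `w` modulo `L` -/
def Cm (L H : Subgroup G) (hLH : ∀ h ∈ H, ∀ a ∈ L, h * a * h⁻¹ ∈ L) (w : G) : Submonoid H where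
  carrier := {g | w * (g : G) * w⁻¹ * (g : G)⁻¹ ∈ L}
  one_mem' := by simp
  mul_mem' := by
    rintro a b ha hb
    have h1 := L.mul_mem ha (hLH a a.2 _ hb)
    have h2 : w * ((a * b : H) : G) * w⁻¹ * ((a * b : H) : G)⁻¹ =
        w * (a : G) * w⁻¹ * (a : G)⁻¹ * ((a : G) * (w * (b : G) * w⁻¹ * (b : G)⁻¹) *
          (a : G)⁻¹) := by
      rw [Subgroup.coe_mul]
      group
    change w * ((a * b : H) : G) * w⁻¹ * ((a * b : H) : G)⁻¹ ∈ L
    rw [h2]
    exact h1

theorem cube_orb {L H W : Subgroup G} {x : Ω} (hLH : ∀ h ∈ H, ∀ a ∈ L, h * a * h⁻¹ ∈ L)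
    (hWL : ∀ w ∈ W, ∀ a ∈ L, w * a * w⁻¹ ∈ L) (hWH : ∀ w ∈ W, ∀ h ∈ H, w * h * w⁻¹ ∈ H)
    (hWx : ∀ w ∈ W, w • x = x) {B : ℕ} (hB : ∀ z ∈ Ob H x, oc L z ≤ B) {s : ℕ} (h : Fin s → H) :
    Nat.card (MulAction.orbit G (fun e : Fin s → Bool => ((LW.cube h e : H) : G) • x)) ≤
      (L.relIndex H) ^ s * W.index * B ^ 2 ^ s := by
  refine (orb_le (fun e : Fin s → Bool => ((LW.cube h e : H) : G) • x)
    (Wm L W hWL (fun i => (h i : G))) (fun e => Ob L (((LW.cube h e : H) : G) • x)) ?_).trans ?_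
  · rintro w ⟨hw, hwL⟩ e
    have h1 : LW.cube h e ∈ Cm L H hLH w := by
      apply Submonoid.list_prod_mem
      intro g hg
      rw [List.mem_ofFn] at hg
      obtain ⟨i, rfl⟩ := hg
      by_cases he : e i = true
      · rw [if_pos he]
        exact hwL i
      · rw [if_neg he]
        exact Submonoid.one_mem _
    have h2 : w * ((LW.cube h e : H) : G) * w⁻¹ * ((LW.cube h e : H) : G)⁻¹ ∈ L := h1
    refine ⟨_, h2, ?_⟩
    rw [← mul_smul]
    have h3 : w * ((LW.cube h e : H) : G) * w⁻¹ * ((LW.cube h e : H) : G)⁻¹ *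
        ((LW.cube h e : H) : G) = w * ((LW.cube h e : H) : G) * w⁻¹ := by group
    rw [h3]
    have hw' : w⁻¹ • x = x := by rw [inv_smul_eq_iff, hWx w hw]
    rw [mul_smul, hw', mul_smul]
  · have h1 : Wm L W hWL (fun i => (h i : G)) ≤ W := fun w hw => hw.1
    have h2 : (Wm L W hWL (fun i => (h i : G))).index ≤ (L.relIndex H) ^ s * W.index := by
      rw [← Subgroup.relIndex_mul_index h1]
      exact Nat.mul_le_mul_right _ (Wm_idx hLH hWL hWH _ fun i => (h i).2)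
    refine Nat.mul_le_mul h2 ?_
    calc ∏ e : Fin s → Bool, (Ob L (((LW.cube h e : H) : G) • x)).ncard ≤
        ∏ _e : Fin s → Bool, B := by
          refine Finset.prod_le_prod' fun e _ => ?_
          exact hB _ ⟨_, (LW.cube h e).2, rfl⟩
      _ = B ^ 2 ^ s := by
          rw [Finset.prod_const, Finset.card_univ, Fintype.card_fun, Fintype.card_bool,
            Fintype.card_fin]

/-- The representation of a subgroup. -/
noncomputable def resH {V : Type} [AddCommGroup V] [Module ℚ V] (ρ : Representation ℚ G V)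
    (H : Subgroup G) : Representation ℚ H V := MonoidHom.comp ρ H.subtype

omit [Finite Ω] in
theorem cube_ind (hGram : GramStatement) (hMod : ModtStatement) (s : ℕ) {V : Type}
    [AddCommGroup V] [Module ℚ V] (ρ : Representation ℚ G V) (f : Ω → V)
    (hf : ∀ (g : G) (x : Ω), f (g • x) = ρ g (f x)) (hinj : Function.Injective f) (x : Ω)
    (H : Subgroup G) (hH : 3 ^ ((16 ^ s) ^ 2) < oc H x) :
    ∃ h : Fin s → H,
      LinearIndependent ℚ (fun e : Fin s → Bool => f (((LW.cube h e : H) : G) • x)) := by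
  have h1 : 16 ^ s < Module.finrank ℚ (Submodule.span ℚ
      (Set.range fun h : H => resH ρ H h (f x))) := by
    by_contra hcon
    have h2 := hMod (16 ^ s) H V (resH ρ H) (f x) (not_lt.1 hcon)
    have h3 : (Set.range fun h : H => resH ρ H h (f x)) = f '' Ob H x := by
      ext z
      constructor
      · rintro ⟨h, rfl⟩
        exact ⟨(h : G) • x, ⟨h, h.2, rfl⟩, hf h x⟩
      · rintro ⟨w, ⟨h, hh, rfl⟩, rfl⟩
        exact ⟨⟨h, hh⟩, (hf h x).symm⟩
    rw [h3, Nat.card_coe_set_eq, Set.ncard_image_of_injective _ hinj] at h2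
    exact absurd h2 (not_le.2 hH)
  obtain ⟨h, hh⟩ := hGram s H V (resH ρ H) (f x) h1
  refine ⟨h, ?_⟩
  have h2 : (fun e : Fin s → Bool => f (((LW.cube h e : H) : G) • x)) =
      fun e : Fin s → Bool => resH ρ H (LW.cube h e) (f x) := by
    funext e
    exact hf _ _
  rw [h2]
  exact hh

end Cf

/-- Row GRPM. -/
theorem grpm (hGram : GramStatement) (hMod : ModtStatement) : GrpmStatement := by
  intro A
  -- `2 ^ s ≥ 2 A s + 2`
  obtain ⟨s, hs1, hs⟩ : ∃ s, 1 ≤ s ∧ 2 * A * s + 2 ≤ 2 ^ s := by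
    have key : ∀ n : ℕ, n ^ 2 ≤ 2 ^ (n + 1) := by
      intro n
      have h1 : ∀ n : ℕ, (n + 4) ^ 2 ≤ 2 ^ (n + 5) := by
        intro n
        induction n with
        | zero => norm_num
        | succ n ih =>
          have h2 : 2 ^ (n + 1 + 5) = 2 * 2 ^ (n + 5) := by
            rw [← pow_succ']
          rw [h2]
          have h3 : (n + 1 + 4) ^ 2 ≤ 2 * (n + 4) ^ 2 := by
            have h4 : 2 * (n + 4) ^ 2 = (n + 1 + 4) ^ 2 + (n ^ 2 + 6 * n + 7) := by ring
            rw [h4]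
            exact Nat.le_add_right _ _
          omega
      rcases Nat.lt_or_ge n 4 with h | h
      · interval_cases n <;> norm_num
      · obtain ⟨m, rfl⟩ := Nat.exists_eq_add_of_le h
        rw [add_comm 4 m]
        exact h1 m
    refine ⟨4 * A + 4, by omega, ?_⟩
    have h3 := key (4 * A + 3)
    have h4 : 4 * A + 3 + 1 = 4 * A + 4 := by ring
    rw [h4] at h3
    nlinarith
  refine ⟨s, 3 ^ ((16 ^ s) ^ 2), hs1, ?_⟩
  intro B
  refine ⟨(B ^ 2 ^ s) ^ 2, ?_⟩
  intro G Ω V _ _ _ _ _ _ ρ f hf hinj htr x H L _ hH hL hHL hB hidx hbig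
  rw [Cf.natCard_orbit] at hbig
  obtain ⟨h, hind⟩ := Cf.cube_ind hGram hMod s ρ f hf hinj x H hbig
  set D := Fintype.card Ω with hD
  have hDpos : 1 ≤ D := Fintype.card_pos_iff.2 ⟨x⟩
  have hstab : (MulAction.stabilizer G x).index = D := by
    rw [MulAction.index_stabilizer_of_transitive, Nat.card_eq_fintype_card]
  have horb := Cf.cube_orb (L := L) (H := H) (W := MulAction.stabilizer G x) (x := x) hHL hL hH
    (fun w hw => MulAction.mem_stabilizer_iff.1 hw) (B := B) (by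
      intro z hz
      rw [← Cf.natCard_orbit]
      apply hB
      rw [Cf.orbit_eq]
      exact hz) h
  rw [hstab] at horb
  have e : (Fin s → Bool) ≃ Fin (2 ^ s) := Fintype.equivFinOfCardEq (by
    rw [Fintype.card_fun, Fintype.card_bool, Fintype.card_fin])
  refine ⟨fun i => ((cube h (e.symm i) : H) : G) • x, ⟨e (fun _ => false), ?_⟩, ?_, ?_⟩
  · change ((cube h (e.symm (e fun _ => false)) : H) : G) • x = x
    rw [Equiv.symm_apply_apply]
    have h1 : cube h (fun _ => false) = 1 := by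
      simp [cube]
    rw [h1]
    simp
  · exact hind.comp _ e.symm.injective
  · have h1 : Nat.card (MulAction.orbit G (fun i => ((cube h (e.symm i) : H) : G) • x)) =
        Nat.card (MulAction.orbit G (fun e : Fin s → Bool => ((cube h e : H) : G) • x)) := by
      rw [Nat.card_coe_set_eq, Nat.card_coe_set_eq, ← MulAction.index_stabilizer,
        ← MulAction.index_stabilizer]
      congr 1
      ext g
      simp only [MulAction.mem_stabilizer_iff]
      constructor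
      · intro hg
        funext j
        have := congrFun hg (e j)
        simpa using this
      · intro hg
        funext i
        have := congrFun hg (e.symm i)
        simpa using this
    rw [h1]
    have h2 : (L.relIndex H) ^ s * D * B ^ 2 ^ s ≤ D ^ (A * s + 1) * B ^ 2 ^ s := by
      apply Nat.mul_le_mul_right
      rw [pow_succ, pow_mul]
      exact Nat.mul_le_mul_right _ (Nat.pow_le_pow_left hidx s)
    calc _ ≤ (D ^ (A * s + 1) * B ^ 2 ^ s) ^ 2 := Nat.pow_le_pow_left (horb.trans h2) 2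
      _ = (B ^ 2 ^ s) ^ 2 * D ^ (2 * A * s + 2) := by
          rw [mul_pow, ← pow_mul, mul_comm]
          congr 2
          ring
      _ ≤ (B ^ 2 ^ s) ^ 2 * D ^ 2 ^ s :=
          Nat.mul_le_mul_left _ (Nat.pow_le_pow_right hDpos hs)

end Pool.DynLehmer.LW
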