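import Pool.Agent.Lib.MP_2194ec_nt.LW.DefsHt
import Pool.Agent.Lib.MP_2194ec_nt.LW.Grpm

set_option autoImplicit false

/-!
# Three points with independent vectors in a block
-/

namespace Pool.DynLehmer.LW
open scoped Classical

namespace Cf

section

variable {G Ω : Type} [Group G] [Finite G] [Finite Ω] [MulAction G Ω]

omit [Finite Ω] in
/-- Three independent vectors in the orbit of `H`, if it has more than `81` points. -/
theorem three_ind (hMod : ModtStatement) {V : Type}
    [AddCommGroup V] [Module ℚ V] (ρ : Representation ℚ G V) (f : Ω → V)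
    (hf : ∀ (g : G) (x : Ω), f (g • x) = ρ g (f x)) (hinj : Function.Injective f) (x : Ω)
    (H : Subgroup G) (hH : 81 < oc H x) :
    ∃ h : Fin 3 → H, LinearIndependent ℚ (fun i => f ((h i : G) • x)) := by
  set s : Set V := Set.range fun h : H => resH ρ H h (f x) with hs
  have hsf : s.Finite := Set.finite_range _
  have : FiniteDimensional ℚ (Submodule.span ℚ s) := FiniteDimensional.span_of_finite ℚ hsf
  have h1 : 2 < Module.finrank ℚ (Submodule.span ℚ s) := by
    by_contra hcon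
    have h2 := hMod 2 H V (resH ρ H) (f x) (not_lt.1 hcon)
    have h3 : (Set.range fun h : H => resH ρ H h (f x)) = f '' Ob H x := by
      ext z
      constructor
      · rintro ⟨h, rfl⟩
        exact ⟨(h : G) • x, ⟨h, h.2, rfl⟩, hf h x⟩
      · rintro ⟨w, ⟨h, hh, rfl⟩, rfl⟩
        exact ⟨⟨h, hh⟩, (hf h x).symm⟩
    rw [h3, Nat.card_coe_set_eq, Set.ncard_image_of_injective _ hinj] at h2
    exact absurd h2 (not_le.2 (by
      norm_num
      exact hH))
  obtain ⟨g, hg1, -, hg3⟩ := Submodule.exists_fun_fin_finrank_span_eq ℚ s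
  have hg4 := hg3.comp (Fin.castLE h1) (Fin.castLE_injective _)
  choose h hh using fun i : Fin 3 => hg1 (Fin.castLE h1 i)
  refine ⟨h, ?_⟩
  have h2 : (fun i => f ((h i : G) • x)) = g ∘ Fin.castLE h1 := by
    funext i
    rw [Function.comp_apply, ← hh i, hf]
    rfl
  rw [h2]
  exact hg4

/-- Any `k` points in the orbit of `H`. -/
theorem orb_block {x : Ω} {H W : Subgroup G} (hWx : ∀ w ∈ W, w • x = x)
    (hWH : ∀ w ∈ W, ∀ h ∈ H, w * h * w⁻¹ ∈ H) {k : ℕ} (hk : 1 ≤ k) (h : Fin k → H) :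
    Nat.card (MulAction.orbit G (fun i => (h i : G) • x)) ≤ W.index * (oc H x) ^ (k - 1) := by
  obtain ⟨n, rfl⟩ : ∃ n, k = n + 1 := ⟨k - 1, by omega⟩
  rw [Nat.add_sub_cancel]
  have h1 : MulAction.orbit G (fun i => (h i : G) • x) =
      MulAction.orbit G (fun i => (((h 0)⁻¹ * h i : H) : G) • x) := by
    rw [MulAction.orbit_eq_iff]
    refine ⟨((h 0 : H) : G), ?_⟩
    funext i
    change ((h 0 : H) : G) • (((h 0)⁻¹ * h i : H) : G) • x = (h i : G) • x
    rw [← mul_smul, Subgroup.coe_mul, Subgroup.coe_inv, mul_inv_cancel_left]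
  rw [h1]
  refine (orb_le (fun i => (((h 0)⁻¹ * h i : H) : G) • x) W
    (Fin.cons {x} (fun _ => Ob H x) : Fin (n + 1) → Set Ω) ?_).trans ?_
  · intro w hw i
    refine Fin.cases ?_ (fun j => ?_) i
    · rw [Fin.cons_zero, inv_mul_cancel, Subgroup.coe_one, one_smul, Set.mem_singleton_iff]
      exact hWx w hw
    · rw [Fin.cons_succ]
      have hw2 : w⁻¹ • x = x := by rw [inv_smul_eq_iff, hWx w hw]
      refine ⟨w * (((h 0)⁻¹ * h j.succ : H) : G) * w⁻¹, hWH w hw _ ((h 0)⁻¹ * h j.succ).2, ?_⟩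
      rw [mul_smul, hw2, mul_smul]
  · rw [Fin.prod_univ_succ, Fin.cons_zero, Set.ncard_singleton, one_mul]
    simp only [Fin.cons_succ]
    rw [Finset.prod_const, Finset.card_univ, Fintype.card_fin]
    exact le_rfl

end

end Cf

/-- Row BLKH. -/
theorem blkh (hMod : ModtStatement) : BlkhStatement := by
  intro G Ω V _ _ _ _ _ _ ρ f hf hinj x H W hWx hWH hH
  rw [Cf.natCard_orbit] at hH ⊢
  obtain ⟨h, hh⟩ := Cf.three_ind hMod ρ f hf hinj x H hH
  refine ⟨fun i => (h i : G) • x, hh, ?_⟩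
  intro k ι hι hk
  exact Cf.orb_block hWx hWH hk (fun i => h (ι i))

end Pool.DynLehmer.LW
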