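import Pool.Agent.Lib.MP_2194ec_nt.LW.GrpqhB
import Pool.Agent.Lib.MP_2194ec_nt.LW.DefsHt

set_option autoImplicit false

/-!
# Families of independent vectors all of whose halves have a small orbit: the numbers
-/

namespace Pool.DynLehmer.LW
open scoped Classical

theorem grpvq (hGram : GramStatement) (hMod : ModtStatement) (A : ℕ) (hA : 1 ≤ A) :
    ∃ R k₀ A' C : ℕ, 1 ≤ A' ∧ ∀ (G Ω V : Type) [Group G] [Finite G]
    [Fintype Ω] [MulAction G Ω] [AddCommGroup V] [Module ℚ V] (ρ : Representation ℚ G V)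
    (f : Ω → V), (∀ (g : G) (x : Ω), f (g • x) = ρ g (f x)) → Function.Injective f →
    MulAction.IsPretransitive G Ω → ∀ x : Ω, R < Fintype.card Ω →
    (∃ (m : ℕ) (y : Fin m → Ω), 3 ≤ m ∧ m ≤ k₀ ∧ LinearIndependent ℚ (fun i => f (y i)) ∧
      ∀ (k : ℕ) (ι : Fin k → Fin m), Function.Injective ι → m ≤ 2 * k →
        (Nat.card (MulAction.orbit G (fun i => y (ι i)))) ^ A' ≤
          C * (Fintype.card Ω) ^ (k * A' - 1)) ∨
    ∃ B₀ B : Subgroup G, B₀.Normal ∧ Sse (MulAction.stabilizer G x) B₀ B ∧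
      (Fintype.card Ω) ^ A < B₀.relIndex B ∧ Nat.card (MulAction.orbit B₀ x) ≤ R ∧
      (Fintype.card Ω) ^ (A - 1) < (Nat.card (MulAction.orbit B x)) ^ A := by
  obtain ⟨s, hs2, hs⟩ := Cf.exists_s (2 * A + 4)
  have hs4 : 4 ≤ s := by
    by_contra hcon
    have h1 : s = 2 ∨ s = 3 := by omega
    rcases h1 with rfl | rfl
    · norm_num at hs
      omega
    · norm_num at hs
      omega
  have hs' : 2 * (A * s + 2) ≤ 2 ^ s := by
    have h1 : (2 * A + 4) * s + 2 = 2 * (A * s) + 4 * s + 2 := by ring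
    omega
  obtain ⟨R1, hR1⟩ : ∃ R1 : ℕ, 3 ^ ((16 ^ s) ^ 2) = R1 := ⟨_, rfl⟩
  have hR1pos : 1 ≤ R1 := by
    rw [← hR1]
    exact Nat.one_le_pow _ _ (by norm_num)
  obtain ⟨K1, _, hK1⟩ := Cf.polylog (16 * A)
  obtain ⟨K2, _, hK2⟩ := Cf.polylog (R1 * (8 * A))
  obtain ⟨K3, _, hK3⟩ := Cf.polylog (8 * A)
  obtain ⟨Q, hQ⟩ : ∃ Q : ℕ, (R1 ^ R1) ^ R1 * R1 = Q := ⟨_, rfl⟩
  have hQ1 : 1 ≤ Q := by
    rw [← hQ]
    exact Nat.mul_pos (Nat.pow_pos (Nat.pow_pos hR1pos)) hR1pos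
  obtain ⟨k₀, hk₀⟩ : ∃ k₀ : ℕ, 2 ^ s = k₀ := ⟨_, rfl⟩
  have hk16 : 16 ≤ k₀ := by
    rw [← hk₀]
    calc 16 = 2 ^ 4 := by norm_num
      _ ≤ 2 ^ s := Nat.pow_le_pow_right (by norm_num) hs4
  refine ⟨R1 ^ 4, k₀, 8 * A,
    K1 * (R1 ^ 2 ^ 4) ^ (8 * A) + K2 * (Q ^ 3) ^ (8 * A) + K3 + 1 + (R1 ^ k₀) ^ (8 * A), by omega,
    ?_⟩
  intro G Ω V _ _ _ _ _ _ ρ f hf hinj htr x hD
  have hR14 : R1 ≤ R1 ^ 4 := Nat.le_self_pow (by norm_num) R1
  have hDpos : 1 ≤ Fintype.card Ω := by omega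
  obtain ⟨r, hr, hcase⟩ := Cf.qcorev hGram hMod hs4 hR1.le ρ f hf hinj htr x A hD
  rw [hQ, hk₀] at hcase
  set D := Fintype.card Ω with hDdef
  have hcard : ∀ {k m : ℕ} (ι : Fin k → Fin m), Function.Injective ι → k ≤ m := by
    intro k m ι hι
    have := Fintype.card_le_of_injective _ hι
    rwa [Fintype.card_fin, Fintype.card_fin] at this
  rcases hcase with ⟨y, hy, ho⟩ | ⟨y, hy, ho⟩ | ⟨m, hm, y, hy, ho⟩ | ⟨m, hm, y, hy, ho⟩ |
    ⟨y, hy, ho⟩ | ⟨B₀, B, h1, h2, h3, h4, h5⟩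
  · left
    refine ⟨2 ^ 4, y, by norm_num, by omega, hy, ?_⟩
    intro k ι _ hk
    have hk8 : 8 ≤ k := by omega
    have hkA : 8 * (8 * A) ≤ k * (8 * A) := Nat.mul_le_mul_right _ hk8
    refine Cf.num (c := K1 * (R1 ^ 2 ^ 4) ^ (8 * A)) (e := 40 * A + 1) hDpos ?_ (by omega)
      (by omega)
    calc _ ≤ (D ^ 4 * ((r + 1) ^ 2 * D) * R1 ^ 2 ^ 4) ^ (8 * A) :=
          Nat.pow_le_pow_left ((Cf.sub_orb y ι).trans ho) _
      _ = (r + 1) ^ (16 * A) * D ^ (40 * A) * (R1 ^ 2 ^ 4) ^ (8 * A) := by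
          rw [mul_pow _ (R1 ^ 2 ^ 4)]
          congr 1
          have e1 : D ^ 4 * ((r + 1) ^ 2 * D) = (r + 1) ^ 2 * D ^ 5 := by ring
          rw [e1, mul_pow, ← pow_mul, ← pow_mul]
          congr 2 <;> ring
      _ ≤ (K1 * D) * D ^ (40 * A) * (R1 ^ 2 ^ 4) ^ (8 * A) :=
          Nat.mul_le_mul_right _ (Nat.mul_le_mul_right _ (hK1 r D hr))
      _ = K1 * (R1 ^ 2 ^ 4) ^ (8 * A) * D ^ (40 * A + 1) := by ring
  · left
    refine ⟨4, y, by norm_num, by omega, hy, ?_⟩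
    intro k ι hι hk
    have hk4 := hcard ι hι
    have hkA : 2 * (8 * A) ≤ k * (8 * A) := Nat.mul_le_mul_right _ (by omega)
    refine Cf.num (c := K2 * (Q ^ 3) ^ (8 * A)) (e := 8 * A + 1) hDpos ?_ (by omega) (by omega)
    calc _ ≤ (((r + 1) ^ R1 * D) * Q ^ (k - 1)) ^ (8 * A) :=
          Nat.pow_le_pow_left (ho k ι (by omega)) _
      _ ≤ (((r + 1) ^ R1 * D) * Q ^ 3) ^ (8 * A) :=
          Nat.pow_le_pow_left (Nat.mul_le_mul_left _ (Nat.pow_le_pow_right hQ1 (by omega))) _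
      _ = (r + 1) ^ (R1 * (8 * A)) * D ^ (8 * A) * (Q ^ 3) ^ (8 * A) := by
          rw [mul_pow, mul_pow, ← pow_mul]
      _ ≤ (K2 * D) * D ^ (8 * A) * (Q ^ 3) ^ (8 * A) :=
          Nat.mul_le_mul_right _ (Nat.mul_le_mul_right _ (hK2 r D hr))
      _ = K2 * (Q ^ 3) ^ (8 * A) * D ^ (8 * A + 1) := by ring
  · left
    refine ⟨4, y, by norm_num, by omega, hy, ?_⟩
    intro k ι hι hk
    obtain ⟨j, rfl⟩ : ∃ j, k = j + 1 := ⟨k - 1, by omega⟩
    have hj1 : 1 ≤ j := by omega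
    have hjA : 1 * A ≤ j * A := Nat.mul_le_mul_right _ hj1
    have he : 1 + 8 * A + 3 * (2 * A * j) ≤ (j + 1) * (8 * A) - 1 := by
      have e1 : (j + 1) * (8 * A) = 8 * (j * A) + 8 * A := by ring
      have e2 : 3 * (2 * A * j) = 6 * (j * A) := by ring
      omega
    refine Cf.num (c := K3) (e := 1 + 8 * A + 3 * (2 * A * j)) hDpos ?_ (by omega) he
    have ho' := ho (j + 1) ι (by omega)
    rw [Nat.add_sub_cancel] at ho'
    calc _ ≤ (((r + 1) * D) * m ^ j) ^ (8 * A) := Nat.pow_le_pow_left ho' _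
      _ = (r + 1) ^ (8 * A) * D ^ (8 * A) * (m ^ 4) ^ (2 * A * j) := by
          rw [mul_pow, mul_pow, ← pow_mul m, ← pow_mul m]
          congr 2
          ring
      _ ≤ (K3 * D) * D ^ (8 * A) * (D ^ 3) ^ (2 * A * j) :=
          Nat.mul_le_mul (Nat.mul_le_mul_right _ (hK3 r D hr)) (Nat.pow_le_pow_left hm _)
      _ = K3 * D ^ (1 + 8 * A + 3 * (2 * A * j)) := by
          rw [← pow_mul, pow_add, pow_add, pow_one]
          ring
  · left
    refine ⟨4, y, by norm_num, by omega, hy, ?_⟩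
    intro k ι hι hk
    obtain ⟨j, rfl⟩ : ∃ j, k = j + 1 := ⟨k - 1, by omega⟩
    have hj1 : 1 ≤ j := by omega
    have ho' := ho (j + 1) ι (by omega)
    rw [Nat.add_sub_cancel] at ho'
    have he : 8 * A + (A - 1) * (8 * j) ≤ (j + 1) * (8 * A) - 1 := by
      obtain ⟨a, rfl⟩ : ∃ a, A = a + 1 := ⟨A - 1, by omega⟩
      rw [Nat.add_sub_cancel]
      have e1 : (j + 1) * (8 * (a + 1)) = 8 * (a + 1) + a * (8 * j) + 8 * j := by ring
      omega
    refine Cf.num (c := 1) (e := 8 * A + (A - 1) * (8 * j)) hDpos ?_ (by omega) he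
    calc _ ≤ (D * m ^ j) ^ (8 * A) := Nat.pow_le_pow_left ho' _
      _ = D ^ (8 * A) * (m ^ A) ^ (8 * j) := by
          rw [mul_pow, ← pow_mul m, ← pow_mul m]
          congr 2
          ring
      _ ≤ D ^ (8 * A) * (D ^ (A - 1)) ^ (8 * j) :=
          Nat.mul_le_mul_left _ (Nat.pow_le_pow_left hm _)
      _ = 1 * D ^ (8 * A + (A - 1) * (8 * j)) := by
          rw [← pow_mul, ← pow_add, one_mul]
  · left
    refine ⟨k₀, y, by omega, le_rfl, hy, ?_⟩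
    intro k ι _ hk
    refine Cf.num (c := (R1 ^ k₀) ^ (8 * A)) (e := (A * s + 1) * (8 * A)) hDpos ?_ (by omega) ?_
    · calc _ ≤ ((D ^ A) ^ s * D * R1 ^ k₀) ^ (8 * A) :=
            Nat.pow_le_pow_left ((Cf.sub_orb y ι).trans ho) _
        _ = (R1 ^ k₀) ^ (8 * A) * D ^ ((A * s + 1) * (8 * A)) := by
            rw [mul_pow _ (R1 ^ k₀), mul_comm]
            congr 1
            rw [← pow_mul, ← pow_succ, ← pow_mul]
    · rw [hk₀] at hs'
      have h1 : (A * s + 2) * (8 * A) ≤ k * (8 * A) := Nat.mul_le_mul_right _ (by omega)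
      have h2 : (A * s + 2) * (8 * A) = (A * s + 1) * (8 * A) + 8 * A := by ring
      omega
  · right
    refine ⟨B₀, B, h1, h2, h3, ?_, ?_⟩
    · rw [Cf.natCard_orbit]
      exact h4.trans hR14
    · rw [Cf.natCard_orbit]
      exact h5

/-- Row GRPQH. -/
theorem grpqh (hGram : GramStatement) (hMod : ModtStatement) : GrpqhStatement :=
  fun A hA => grpvq hGram hMod A hA

end Pool.DynLehmer.LW
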