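import Pool.Agent.Lib.MP_2194ec_nt.LW.DefsMul

/-!
# Row MODT: a bounded dimension gives a bounded orbit (reduction modulo three)
-/

set_option autoImplicit false

namespace Pool.DynLehmer.LW.Modt
open scoped Classical

theorem one_add_pow {R : Type*} [Ring R] (x : R) (n : ℕ) :
    ∃ y : R, (1 + x) ^ n = 1 + n • x + x ^ 2 * y := by
  induction n with
  | zero => exact ⟨0, by simp⟩
  | succ n ih =>
    obtain ⟨y, hy⟩ := ih
    refine ⟨n • (1 : R) + y * (1 + x), ?_⟩
    rw [pow_succ, hy]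
    simp only [mul_add, add_mul, one_mul, mul_one, pow_two, add_smul, one_smul, smul_mul_assoc,
      mul_smul_comm, ← mul_assoc]
    abel

section
variable {L : Type} [AddCommGroup L] [Module.IsTorsionFree ℤ L]

theorem end_cancel (c : ℤ) (hc : c ≠ 0) (f : Module.End ℤ L) (h : c • f = 0) : f = 0 := by
  ext x
  have h1 := LinearMap.congr_fun h x
  rw [LinearMap.smul_apply, LinearMap.zero_apply] at h1
  exact (smul_eq_zero.1 h1).resolve_left hc

theorem div3 (T S : Module.End ℤ L) (ℓ j : ℕ) (hℓ : ℓ.Prime) (hT : T ^ ℓ = 1)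
    (hS : T = 1 + (3 : ℤ) ^ (j + 1) • S) : ∃ S' : Module.End ℤ L, S = (3 : ℤ) • S' := by
  by_cases h3 : ℓ = 3
  · subst h3
    have h1 : (1 + (3 : ℤ) ^ (j + 1) • S) ^ 3 = 1 + ((3 : ℤ) ^ (j + 2)) • (S + (3 : ℤ) • ((3 : ℤ) ^ j • S ^ 2 + (3 : ℤ) ^ (2 * j) • S ^ 3)) := by
      have e : ∀ x : Module.End ℤ L, (1 + x) ^ 3 = 1 + (3 : ℤ) • x + (3 : ℤ) • x ^ 2 + x ^ 3 := by
        intro x
        noncomm_ring
      rw [e, smul_pow, smul_pow]
      simp only [smul_add, smul_smul]
      have e1 : (3 : ℤ) * 3 ^ (j + 1) = 3 ^ (j + 2) := by ring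
      have e2 : (3 : ℤ) * (3 ^ (j + 1)) ^ 2 = 3 ^ (j + 2) * (3 * 3 ^ j) := by ring
      have e3 : ((3 : ℤ) ^ (j + 1)) ^ 3 = 3 ^ (j + 2) * (3 * 3 ^ (2 * j)) := by ring
      rw [e1, e2, e3]
      abel
    rw [hS, h1] at hT
    have h2 : ((3 : ℤ) ^ (j + 2)) • (S + (3 : ℤ) • ((3 : ℤ) ^ j • S ^ 2 + (3 : ℤ) ^ (2 * j) • S ^ 3)) = 0 := by
      simpa using hT
    have h3 := end_cancel _ (by positivity) _ h2
    exact ⟨-((3 : ℤ) ^ j • S ^ 2 + (3 : ℤ) ^ (2 * j) • S ^ 3), by rw [smul_neg]; exact eq_neg_of_add_eq_zero_left h3⟩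
  · obtain ⟨y, hy⟩ := one_add_pow ((3 : ℤ) ^ (j + 1) • S) ℓ
    rw [hS, hy] at hT
    have h2 : ((3 : ℤ) ^ (j + 1)) • ((ℓ : ℤ) • S + (3 : ℤ) • ((3 : ℤ) ^ j • (S ^ 2 * y))) = 0 := by
      have h4 : ℓ • (3 : ℤ) ^ (j + 1) • S + ((3 : ℤ) ^ (j + 1) • S) ^ 2 * y = 0 := by
        have : (1 : Module.End ℤ L) + (ℓ • (3 : ℤ) ^ (j + 1) • S + ((3 : ℤ) ^ (j + 1) • S) ^ 2 * y) = 1 := by
          rw [← add_assoc]; exact hT
        exact add_eq_left.1 this
      rw [← h4, smul_pow, smul_mul_assoc]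
      simp only [smul_add, smul_smul, ← Nat.cast_smul_eq_nsmul ℤ]
      congr 2
      · ring
      · ring
    have h3' := end_cancel _ (by positivity) _ h2
    have hcop : IsCoprime (ℓ : ℤ) 3 := by
      rw [show (3 : ℤ) = ((3 : ℕ) : ℤ) by rfl, Nat.isCoprime_iff_coprime]
      exact (Nat.coprime_primes hℓ Nat.prime_three).2 h3
    obtain ⟨u, w, huw⟩ := hcop
    refine ⟨w • S - u • ((3 : ℤ) ^ j • (S ^ 2 * y)), ?_⟩
    have h5 : (ℓ : ℤ) • S = -((3 : ℤ) • ((3 : ℤ) ^ j • (S ^ 2 * y))) := eq_neg_of_add_eq_zero_left h3'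
    calc S = (u * ℓ + w * 3) • S := by rw [huw, one_smul]
      _ = u • ((ℓ : ℤ) • S) + (w * 3) • S := by rw [add_smul, mul_smul]
      _ = _ := by
        rw [h5]
        simp only [smul_sub, smul_neg, smul_smul]
        have e : 3 * (u * 3 ^ j) = u * (3 * 3 ^ j) := by ring
        rw [e, mul_comm 3 w]
        abel

theorem prime_case [Module.Free ℤ L] (T S : Module.End ℤ L) (ℓ : ℕ) (hℓ : ℓ.Prime) (hT : T ^ ℓ = 1)
    (hS : T = 1 + (3 : ℤ) • S) : T = 1 := by
  have h : ∀ k : ℕ, ∃ S' : Module.End ℤ L, T = 1 + (3 : ℤ) ^ (k + 1) • S' := by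
    intro k
    induction k with
    | zero => exact ⟨S, by simpa using hS⟩
    | succ k ih =>
      obtain ⟨S1, h1⟩ := ih
      obtain ⟨S2, h2⟩ := div3 T S1 ℓ k hℓ hT h1
      refine ⟨S2, ?_⟩
      rw [h1, h2, smul_smul, ← pow_succ]
  have hb := Module.Free.chooseBasis ℤ L
  ext x
  apply hb.repr.injective
  ext i
  obtain ⟨m, hm⟩ : ∃ m : ℕ, m = Int.natAbs (hb.repr (T x) i - hb.repr x i) := ⟨_, rfl⟩
  obtain ⟨S', hS'⟩ := h m
  have hx := LinearMap.congr_fun hS' x
  rw [LinearMap.add_apply, Module.End.one_apply, LinearMap.smul_apply] at hx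
  have h1 : hb.repr (T x) i - hb.repr x i = 3 ^ (m + 1) * hb.repr (S' x) i := by
    rw [hx, map_add, map_smul]
    simp
  have h2 : (3 : ℤ) ^ (m + 1) ∣ hb.repr (T x) i - hb.repr x i := ⟨_, h1⟩
  have h3 : hb.repr (T x) i - hb.repr x i = 0 := by
    refine Int.eq_zero_of_abs_lt_dvd h2 ?_
    rw [Int.abs_eq_natAbs, ← hm]
    have := Nat.lt_pow_self (n := m + 1) (show 1 < 3 by norm_num)
    exact_mod_cast (Nat.lt_succ_self _).trans this
  simpa using sub_eq_zero.1 h3

theorem minkowski [Module.Free ℤ L] (N : ℕ) : ∀ T S : Module.End ℤ L, 0 < N → T ^ N = 1 →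
    T = 1 + (3 : ℤ) • S → T = 1 := by
  induction N using Nat.strong_induction_on with
  | _ N ih =>
    intro T S hN hT hS
    by_cases h1 : N = 1
    · subst h1; simpa using hT
    · obtain ⟨ℓ, hℓ, N', rfl⟩ := Nat.exists_prime_and_dvd h1
      have hN' : 0 < N' := Nat.pos_of_mul_pos_left hN |> fun h => by
        rcases Nat.eq_zero_or_pos N' with h0 | h0
        · subst h0; simp at hN
        · exact h0
      obtain ⟨y, hy⟩ := one_add_pow ((3 : ℤ) • S) N'
      have h2 : T ^ N' = 1 := by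
        refine prime_case (T ^ N') ((N' : ℤ) • S + (3 : ℤ) • (S ^ 2 * y)) ℓ hℓ ?_ ?_
        · rw [← pow_mul, mul_comm N' ℓ, hT]
        · rw [hS, hy, smul_pow, smul_mul_assoc]
          simp only [smul_add, smul_smul, ← Nat.cast_smul_eq_nsmul ℤ]
          rw [add_assoc]
          congr 3
          ring
      exact ih N' (by nlinarith [hℓ.two_le]) T S hN' h2 hS

end

section
variable {H V : Type} [Group H] [AddCommGroup V] [Module ℚ V] (ρ : Representation ℚ H V) (v : V)

/-- the lattice of the orbit -/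
abbrev Lat : Submodule ℤ V := Submodule.span ℤ (Set.range fun h => ρ h v)

theorem lat_stab (h : H) : ∀ x ∈ Lat ρ v, ρ h x ∈ Lat ρ v := by
  intro x hx
  induction hx using Submodule.span_induction with
  | mem x hx =>
    obtain ⟨g, rfl⟩ := hx
    refine Submodule.subset_span ⟨h * g, ?_⟩
    simp [map_mul]
  | zero => rw [map_zero]; exact Submodule.zero_mem _
  | add x y _ _ hx hy => rw [map_add]; exact Submodule.add_mem _ hx hy
  | smul a x _ hx => rw [map_zsmul]; exact Submodule.smul_mem _ _ hx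

/-- the action on the lattice -/
noncomputable def tau : H →* Module.End ℤ (Lat ρ v) where
  toFun h := ((ρ h : V →ₗ[ℚ] V).restrictScalars ℤ).restrict (lat_stab ρ v h)
  map_one' := by
    ext x
    simp [LinearMap.restrict_apply]
  map_mul' a b := by
    ext x
    simp [LinearMap.restrict_apply]

theorem tau_apply (h : H) (x : Lat ρ v) : ((tau ρ v h x : Lat ρ v) : V) = ρ h x := rfl

theorem modt (n : ℕ) [Finite H]
    (hn : Module.finrank ℚ (Submodule.span ℚ (Set.range fun h => ρ h v)) ≤ n) :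
    Nat.card (Set.range fun h => ρ h v) ≤ 3 ^ (n ^ 2) := by
  have htf : Module.IsTorsionFree ℤ V := Module.IsTorsionFree.trans_faithfulSMul ℤ ℚ V
  have : Module.Finite ℤ (Lat ρ v) := Module.Finite.span_of_finite ℤ (Set.finite_range _)
  have : Module.IsTorsionFree ℤ (Lat ρ v) := inferInstance
  have : Module.Free ℤ (Lat ρ v) := inferInstance
  let b := Module.finBasis ℤ (Lat ρ v)
  set m := Module.finrank ℤ (Lat ρ v) with hm
  -- the rank
  have hmn : m ≤ n := by
    have h1 : LinearIndependent ℤ (fun i => ((b i : Lat ρ v) : V)) :=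
      b.linearIndependent.map' (Lat ρ v).subtype (Submodule.ker_subtype _)
    have h2 : LinearIndependent ℚ (fun i => ((b i : Lat ρ v) : V)) :=
      (LinearIndependent.iff_fractionRing ℤ ℚ).1 h1
    have h3 := finrank_span_eq_card h2
    rw [Fintype.card_fin] at h3
    have h4 : Submodule.span ℚ (Set.range fun i => ((b i : Lat ρ v) : V)) ≤
        Submodule.span ℚ (Set.range fun h => ρ h v) := by
      refine Submodule.span_le.2 ?_
      rintro _ ⟨i, rfl⟩
      exact Submodule.span_subset_span ℤ ℚ _ (b i).2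
    have : FiniteDimensional ℚ (Submodule.span ℚ (Set.range fun h => ρ h v)) :=
      FiniteDimensional.span_of_finite ℚ (Set.finite_range _)
    have h5 := Submodule.finrank_mono h4
    rw [h3] at h5
    exact h5.trans hn
  -- the reduction
  let M : H → Fin m → Fin m → ZMod 3 := fun h i j => ((b.repr (tau ρ v h (b j)) i : ℤ) : ZMod 3)
  have key : ∀ h h' : H, M h = M h' → ρ h v = ρ h' v := by
    intro h h' hh
    have hd : ∀ i j, ∃ c : ℤ, b.repr (tau ρ v h (b j)) i = b.repr (tau ρ v h' (b j)) i + 3 * c := by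
      intro i j
      have h1 := congrFun (congrFun hh i) j
      have h2 := (ZMod.intCast_eq_intCast_iff_dvd_sub _ _ 3).1 h1
      obtain ⟨c, hc⟩ := h2
      refine ⟨-c, ?_⟩
      push_cast at hc
      linarith
    choose c hc using hd
    let S : Module.End ℤ (Lat ρ v) := b.constr ℤ (fun j => ∑ i, c i j • b i)
    have hS : tau ρ v h = tau ρ v h' + (3 : ℤ) • S := by
      refine b.ext fun j => ?_
      rw [LinearMap.add_apply, LinearMap.smul_apply, Module.Basis.constr_basis]
      apply b.repr.injective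
      ext i
      rw [hc i j]
      simp [Finsupp.single_apply]
    have h3 : tau ρ v (h'⁻¹ * h) = 1 + (3 : ℤ) • (tau ρ v h'⁻¹ * S) := by
      rw [map_mul, hS, mul_add, ← map_mul, inv_mul_cancel, map_one, mul_smul_comm]
    have h4 : tau ρ v (h'⁻¹ * h) ^ Nat.card H = 1 := by
      rw [← map_pow, pow_card_eq_one', map_one]
    have h5 := minkowski (Nat.card H) _ _ Nat.card_pos h4 h3
    have h6 : tau ρ v h = tau ρ v h' := by
      have : tau ρ v h' * tau ρ v (h'⁻¹ * h) = tau ρ v h' * 1 := by rw [h5]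
      rw [← map_mul, mul_inv_cancel_left, mul_one] at this
      exact this
    have h7 : v ∈ Lat ρ v := Submodule.subset_span ⟨1, by simp⟩
    have h8 := congrArg Subtype.val (LinearMap.congr_fun h6 ⟨v, h7⟩)
    exact h8
  have hfin : Nat.card (Set.range fun h => ρ h v) ≤ Nat.card (Fin m → Fin m → ZMod 3) := by
    let f : (Set.range fun h => ρ h v) → (Fin m → Fin m → ZMod 3) := fun x => M x.2.choose
    refine Nat.card_le_card_of_injective f ?_
    intro x y hxy
    have h1 := key _ _ hxy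
    rw [Subtype.ext_iff, ← x.2.choose_spec, ← y.2.choose_spec]
    exact h1
  refine hfin.trans ?_
  rw [Nat.card_eq_fintype_card]
  simp only [Fintype.card_fun, Fintype.card_fin, ZMod.card]
  rw [← pow_mul]
  exact Nat.pow_le_pow_right (by norm_num) (by nlinarith)

end

end Pool.DynLehmer.LW.Modt

namespace Pool.DynLehmer.LW

theorem modt : ModtStatement := fun n _ _ _ _ _ _ ρ v hn => Modt.modt ρ v n hn

end Pool.DynLehmer.LW
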