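import Pool.Agent.Lib.MP_2194ec_nt.LW.Grpqah

set_option autoImplicit false

/-!
# The exceptional case is a primitive almost simple group: tuples with small sub-tuples
-/

namespace Pool.DynLehmer.LW
open scoped Classical

namespace Pp

open Cf

/-- Row PASH. -/
theorem pash (hB : BlkhStatement) (hq : GrpqahStatement) : PashStatement := by
  intro A hA
  obtain ⟨R1, k₁, A₁, C₁, hA₁, h1⟩ := hq (A * (A + 1) * 2) (by
    have : 0 < A * (A + 1) * 2 := by positivity
    omega)
  obtain ⟨R3, hR3⟩ : ∃ R3 : ℕ, max R1 81 = R3 := ⟨_, rfl⟩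
  have hR31 : R1 ≤ R3 := by
    have := le_max_left R1 81
    omega
  have hR32 : 81 ≤ R3 := by
    have := le_max_right R1 81
    omega
  have hR3pos : 1 ≤ R3 := by omega
  have hR33 : R3 ≤ R3 * R3 := Nat.le_mul_of_pos_left _ hR3pos
  have hR3a : R3 * R3 ≤ (R3 * R3) ^ (A + 1) := Nat.le_self_pow (by omega) _
  refine ⟨(R3 * R3) ^ (A + 1), max k₁ 3, (A + 1) * A₁, C₁ ^ (A + 1) + 2,
    Nat.one_le_iff_ne_zero.2 (by positivity), ?_⟩
  intro G Ω V _ _ _ _ _ _ ρ f hf hinj htr x hR
  obtain ⟨D, hD⟩ : ∃ D : ℕ, Fintype.card Ω = D := ⟨_, rfl⟩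
  rw [hD] at hR ⊢
  have hDpos : 1 ≤ D := by omega
  have hstab : (MulAction.stabilizer G x).index = D := by
    rw [MulAction.index_stabilizer_of_transitive, Nat.card_eq_fintype_card, hD]
  have htop : oc (⊤ : Subgroup G) x = D := by
    rw [oc_relIndex, Subgroup.relIndex_top_right, hstab]
  obtain ⟨U, ⟨hSU, hUR⟩, hUmin⟩ := Set.Finite.exists_minimal
    (Set.toFinite {Y : Subgroup G | MulAction.stabilizer G x ≤ Y ∧ 81 < oc Y x})
    ⟨⊤, le_top, by rw [htop]; omega⟩
  have hUi : oc U x * U.index = D := by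
    rw [oc_relIndex, Subgroup.relIndex_mul_index hSU, hstab]
  have hUi1 : 1 ≤ U.index := Nat.one_le_iff_ne_zero.2 Subgroup.FiniteIndex.index_ne_zero
  obtain ⟨β, hβ⟩ : ∃ β : ℕ, oc U x = β := ⟨_, rfl⟩
  rw [hβ] at hUR hUi
  by_cases hcase : β ^ (A + 1) ≤ D ^ A
  · -- a pair in the minimal block
    left
    obtain ⟨y, hy, hc⟩ := hB G Ω V ρ f hf hinj x U (MulAction.stabilizer G x) (fun w hw => hw)
      (fun w hw h hh => U.mul_mem (U.mul_mem (hSU hw) hh) (U.inv_mem (hSU hw)))
      (by rw [natCard_orbit, hβ]; exact hUR)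
    refine ⟨3, y, le_rfl, le_max_right _ _, hy, ?_⟩
    intro k ι hι hk
    have hk2 : 2 ≤ k := by omega
    have hc' := hc k ι hι (by omega)
    rw [hstab, natCard_orbit, hβ] at hc'
    have h2 : (Nat.card (MulAction.orbit G (y ∘ ι))) ^ (A + 1) ≤
        1 * D ^ (k * (A + 1) - 1) := by
      calc (Nat.card (MulAction.orbit G (y ∘ ι))) ^ (A + 1) ≤ (D * β ^ (k - 1)) ^ (A + 1) :=
            Nat.pow_le_pow_left hc' _
        _ = D ^ (A + 1) * (β ^ (A + 1)) ^ (k - 1) := by
            rw [mul_pow, ← pow_mul, ← pow_mul, mul_comm (k - 1) (A + 1)]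
        _ ≤ D ^ (A + 1) * (D ^ A) ^ (k - 1) :=
            Nat.mul_le_mul_left _ (Nat.pow_le_pow_left hcase _)
        _ = D ^ (A + 1 + A * (k - 1)) := by rw [← pow_mul, ← pow_add]
        _ ≤ 1 * D ^ (k * (A + 1) - 1) := by
            rw [one_mul]
            refine Nat.pow_le_pow_right hDpos ?_
            obtain ⟨j, rfl⟩ : ∃ j, k = j + 2 := ⟨k - 2, by omega⟩
            have e1 : j + 2 - 1 = j + 1 := by omega
            have e2 : (j + 2) * (A + 1) = A + 1 + A * (j + 1) + (j + 1) := by ring
            rw [e1, e2]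
            omega
    have h3 := exp_up (a := A₁) hDpos hk2 (by omega) hA₁ h2
    rw [mul_comm (A + 1) A₁]
    refine h3.trans (Nat.mul_le_mul_right _ ?_)
    rw [one_pow]
    omega
  · push Not at hcase
    have hDA : D ≤ D ^ A := Nat.le_self_pow (by omega) _
    have hβR : R3 * R3 < β := lt_of_pow_lt_pow_left₀ (A + 1) (Nat.zero_le _) (by omega)
    have hβ1 : 1 ≤ β := by omega
    have hA2 : 4 ≤ A * (A + 1) * 2 := by nlinarith
    set x' : MulAction.orbit U x := ⟨x, MulAction.mem_orbit_self x⟩ with hx'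
    let _ : Fintype (MulAction.orbit U x) := Fintype.ofFinite _
    have hcΩ : Nat.card (MulAction.orbit U x) = β := by rw [natCard_orbit, hβ]
    have hfΩ : Fintype.card (MulAction.orbit U x) = β := by
      rw [← Nat.card_eq_fintype_card, hcΩ]
    have hst : ∀ u : U, u ∈ MulAction.stabilizer U x' ↔ (u : G) ∈ MulAction.stabilizer G x := by
      intro u
      rw [MulAction.mem_stabilizer_iff, MulAction.mem_stabilizer_iff]
      exact ⟨fun h => congrArg Subtype.val h, fun h => Subtype.ext h⟩
    have h2 := h1 U (MulAction.orbit U x) V (ρ.comp U.subtype) (fun z => f z)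
      (fun g z => hf g z) (fun z z' h => Subtype.ext (hinj h)) inferInstance x'
      (by rw [hfΩ]; omega)
    rw [hfΩ] at h2
    obtain ⟨m, y, hm3, hm, hind, hc⟩ | ⟨B₀, B, hn, hS, hi, h0, hb, halt⟩ := h2
    · -- a tuple for `U`
      left
      refine ⟨m, fun i => (y i : Ω), hm3, hm.trans (le_max_left _ _), hind, ?_⟩
      intro k ι hι hmk
      have hk2 : 2 ≤ k := by omega
      have h3 := lift_num (lift_orb (y ∘ ι)) (hc k ι hι hmk) hUi hk2 hA₁ hUi1
      have h4 := exp_up (a := A + 1) hDpos hk2 hA₁ (by omega) h3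
      exact h4.trans (Nat.mul_le_mul_right _ (by omega))
    · -- the exceptional case
      right
      rw [natCard_orbit] at h0 hb
      have hmin : ∀ Y : Subgroup U, MulAction.stabilizer U x' ≤ Y → Y ≠ ⊤ → oc Y x' ≤ 81 := by
        intro Y hY hYt
        by_contra hcon
        push Not at hcon
        rw [hx', oc_map] at hcon
        have h3 : MulAction.stabilizer G x ≤ Y.map U.subtype := by
          intro g hg
          exact ⟨⟨g, hSU hg⟩, hY ((hst _).2 hg), rfl⟩
        have h4 : Y.map U.subtype ≤ U := Subgroup.map_subtype_le Y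
        have h5 := hUmin (⟨h3, hcon⟩ : Y.map U.subtype ∈
          {Y : Subgroup G | MulAction.stabilizer G x ≤ Y ∧ 81 < oc Y x}) h4
        apply hYt
        rw [eq_top_iff]
        intro u _
        obtain ⟨u', hu', hu''⟩ := h5 u.2
        have h6 : u' = u := Subtype.ext hu''
        rw [← h6]
        exact hu'
      have hBb : R3 < oc B x' := by
        by_contra hcon
        push Not at hcon
        have h3 : (oc B x') ^ (A * (A + 1) * 2) ≤ R3 ^ (A * (A + 1) * 2) :=
          Nat.pow_le_pow_left hcon _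
        have h4 : R3 ^ (A * (A + 1) * 2) ≤ (R3 * R3) ^ (A * (A + 1) * 2 - 1) := by
          rw [← sq, ← pow_mul]
          exact Nat.pow_le_pow_right hR3pos (by omega)
        have h5 : (R3 * R3) ^ (A * (A + 1) * 2 - 1) ≤ β ^ (A * (A + 1) * 2 - 1) :=
          Nat.pow_le_pow_left hβR.le _
        omega
      have hiβ : Nat.card (MulAction.orbit U x) < B₀.relIndex B := by
        rw [hcΩ]
        exact lt_of_le_of_lt (Nat.le_self_pow (by omega) _) hi
      obtain ⟨W', hSW', hWc, hWR, T, hTn, hTs, hTc, hTcard, π, hπs, hπk⟩ :=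
        core x' (fun Y h1 h2 => (hmin Y h1 h2).trans hR32) (by rw [hcΩ]; exact hβR) hn hS hiβ
          (h0.trans hR31) hBb
      have hWW : (W'.map U.subtype).subgroupOf U = W' :=
        Subgroup.comap_map_eq_self_of_injective Subtype.val_injective W'
      have hT4 : D ^ A < Nat.card T := by
        rw [hTcard]
        refine lt_of_le_of_lt ?_ hi
        calc D ^ A ≤ (D ^ A) ^ (2 * A) := Nat.le_self_pow (by omega) _
          _ ≤ (β ^ (A + 1)) ^ (2 * A) := Nat.pow_le_pow_left hcase.le _
          _ = β ^ (A * (A + 1) * 2) := by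
              rw [← pow_mul]
              congr 1
              ring
      have hT5 : ∀ n : ℕ, Nonempty (T ≃* alternatingGroup (Fin n)) → D ^ (A - 1) < n ^ A := by
        rintro n ⟨e⟩
        have h3 := halt n (e.toMonoidHom.comp π) (e.surjective.comp hπs) (by
          rw [← hπk]
          ext b
          rw [MonoidHom.mem_ker, MonoidHom.mem_ker, MonoidHom.comp_apply]
          exact e.map_eq_one_iff)
        by_contra hcon
        push Not at hcon
        have h4 : (β ^ (A * (A + 1) * 2 - 1)) ^ (A + 1) < (n ^ (A * (A + 1) * 2)) ^ (A + 1) :=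
          Nat.pow_lt_pow_left h3 (by omega)
        have h5 : (n ^ (A * (A + 1) * 2)) ^ (A + 1) ≤ D ^ ((A - 1) * (2 * (A + 1) * (A + 1))) := by
          calc (n ^ (A * (A + 1) * 2)) ^ (A + 1) = (n ^ A) ^ (2 * (A + 1) * (A + 1)) := by
                rw [← pow_mul, ← pow_mul]
                congr 1
                ring
            _ ≤ (D ^ (A - 1)) ^ (2 * (A + 1) * (A + 1)) := Nat.pow_le_pow_left hcon _
            _ = _ := by rw [← pow_mul]
        have h6 : D ^ (A * (A * (A + 1) * 2 - 1)) ≤ (β ^ (A * (A + 1) * 2 - 1)) ^ (A + 1) := by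
          calc D ^ (A * (A * (A + 1) * 2 - 1)) = (D ^ A) ^ (A * (A + 1) * 2 - 1) := by
                rw [← pow_mul]
            _ ≤ (β ^ (A + 1)) ^ (A * (A + 1) * 2 - 1) := Nat.pow_le_pow_left hcase.le _
            _ = _ := by
                rw [← pow_mul, ← pow_mul]
                congr 1
                ring
        have h7 : D ^ ((A - 1) * (2 * (A + 1) * (A + 1))) ≤ D ^ (A * (A * (A + 1) * 2 - 1)) :=
          Nat.pow_le_pow_right hDpos (exp_num hA)
        exact absurd (lt_of_lt_of_le (lt_of_le_of_lt h6 h4) (h5.trans h7)) (lt_irrefl _)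
      refine ⟨U, W'.map U.subtype, ?_, ?_, ?_, ?_, ?_, ?_⟩
      · intro g hg
        exact ⟨⟨g, hSU hg⟩, hSW' ((hst _).2 hg), rfl⟩
      · refine lt_of_le_of_ne (Subgroup.map_subtype_le W') ?_
        intro he
        apply hWc.1
        rw [← hWW, he]
        exact U.subgroupOf_self
      · intro J hWJ hJU
        have h3 : W' ≤ J.subgroupOf U := by
          rw [← hWW]
          exact Subgroup.comap_mono hWJ
        rcases (hWc.le_iff.1 h3).symm with h4 | h4
        · left
          rw [← h4, Subgroup.subgroupOf, Subgroup.map_comap_eq]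
          simpa using hJU
        · right
          exact le_antisymm hJU (Subgroup.subgroupOf_eq_top.1 h4)
      · rw [← oc_relIndex, ← oc_map]
        exact hmin W' hSW' hWc.1
      · rw [hstab]
        by_contra hcon
        push Not at hcon
        have h3 : D ^ (A + 1) = β ^ (A + 1) * U.index ^ (A + 1) := by
          rw [← hUi, mul_pow]
        have h4 : U.index ^ A ≤ U.index ^ (A + 1) := Nat.pow_le_pow_right hUi1 (by omega)
        have h5 : D ^ A * D < β ^ (A + 1) * U.index ^ (A + 1) := by
          calc D ^ A * D ≤ D ^ A * U.index ^ (A + 1) := Nat.mul_le_mul_left _ (hcon.trans h4)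
            _ < β ^ (A + 1) * U.index ^ (A + 1) :=
                Nat.mul_lt_mul_of_pos_right hcase (by positivity)
        rw [← h3, pow_succ] at h5
        exact lt_irrefl _ h5
      · rw [hstab]
        have key : ∀ X : Subgroup U, X = W' → ∃ T : Subgroup (U ⧸ X.normalCore), T.Normal ∧
            IsSimpleGroup T ∧ Subgroup.centralizer (T : Set (U ⧸ X.normalCore)) = ⊥ ∧
            D ^ A < Nat.card T ∧
            ∀ n : ℕ, Nonempty (T ≃* alternatingGroup (Fin n)) → D ^ (A - 1) < n ^ A := by
          rintro X rfl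
          exact ⟨T, hTn, hTs, hTc, hT4, hT5⟩
        exact key _ hWW

end Pp

/-- Row PASH. -/
theorem pash (hB : BlkhStatement) (hq : GrpqahStatement) : PashStatement := Pp.pash hB hq

end Pool.DynLehmer.LW
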