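import Pool.Agent.Lib.MP_2194ec_nt.LW.GramRow
import Pool.Agent.Lib.MP_2194ec_nt.LW.Modt
import Pool.Agent.Lib.MP_2194ec_nt.LW.Blkh
import Pool.Agent.Lib.MP_2194ec_nt.LW.Grpqh
import Pool.Agent.Lib.MP_2194ec_nt.LW.Alth
import Pool.Agent.Lib.MP_2194ec_nt.LW.Pash

set_option autoImplicit false

/-!
# Row PASH without hypotheses
-/

namespace Pool.DynLehmer.LW

/-- Tuples all of whose large sub-tuples have a small orbit, or a primitive action of an almost
simple group. -/
theorem pash_all : PashStatement :=
  pash (blkh modt) (grpqah (grpqh gram modt) (alth modt (blkh modt)))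

end Pool.DynLehmer.LW
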