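import Pool.Agent.Lib.MP_2194ec_nt.LW.GrpcA

set_option autoImplicit false

/-!
# The minimal normal subgroups of a chief factor
-/

namespace Pool.DynLehmer.LW
open scoped Classical commutatorElement

namespace Cf

variable {G : Type} [Group G]

theorem ri_le [Finite G] (W' W : Subgroup G) {α : Type} [Finite α] (f : W → α)
    (h : ∀ a b : W, f a = f b → ((a : G)⁻¹ * (b : G)) ∈ W') : W'.relIndex W ≤ Nat.card α := by
  have h1 : W'.relIndex W = Nat.card (W ⧸ W'.subgroupOf W) := rfl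
  rw [h1]
  refine Nat.card_le_card_of_injective (fun q => f q.out) ?_
  intro q q' hqq
  have h2 := h _ _ hqq
  have h3 : (QuotientGroup.mk q.out : W ⧸ W'.subgroupOf W) = QuotientGroup.mk q'.out := by
    rw [QuotientGroup.eq, Subgroup.mem_subgroupOf]
    simpa using h2
  rwa [QuotientGroup.out_eq', QuotientGroup.out_eq'] at h3

theorem ri_sup [Finite G] (K U C : Subgroup G) (hC : C ≤ K)
    (hK : ∀ u ∈ U, ∀ k ∈ K, u * k * u⁻¹ ∈ K) : K.relIndex (K ⊔ U) ≤ C.relIndex U := by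
  have hn : U ≤ Subgroup.normalizer (K : Set G) := by
    intro u hu
    rw [Subgroup.mem_normalizer_iff]
    intro k
    refine ⟨fun hk => hK u hu k hk, fun hk => ?_⟩
    have := hK u⁻¹ (U.inv_mem hu) _ hk
    simpa [mul_assoc] using this
  have hdec : ∀ g : (K ⊔ U : Subgroup G), ∃ u ∈ U, ∃ k ∈ K, (g : G) = u * k := by
    intro g
    have h1 : (g : G) ∈ ((U ⊔ K : Subgroup G) : Set G) := by
      rw [sup_comm]
      exact g.2
    rw [Subgroup.coe_mul_of_left_le_normalizer_right U K hn] at h1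
    obtain ⟨u, hu, k, hk, h2⟩ := h1
    exact ⟨u, hu, k, hk, h2.symm⟩
  choose u hu k hk hg using hdec
  have h1 : C.relIndex U = Nat.card (U ⧸ C.subgroupOf U) := rfl
  rw [h1]
  refine ri_le K (K ⊔ U) (fun g => (QuotientGroup.mk ⟨u g, hu g⟩ : U ⧸ C.subgroupOf U)) ?_
  intro a b hab
  rw [QuotientGroup.eq, Subgroup.mem_subgroupOf] at hab
  have h3 : (u a)⁻¹ * u b ∈ C := by simpa using hab
  rw [hg a, hg b]
  have h4 := K.mul_mem (K.mul_mem (K.inv_mem (hk a)) (hC h3)) (hk b)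
  simpa [mul_assoc] using h4

/-- The conjugate of a subgroup. -/
def cj (g : G) (S : Subgroup G) : Subgroup G := S.comap (MulAut.conj g⁻¹).toMonoidHom

theorem mem_cj {g a : G} {S : Subgroup G} : a ∈ cj g S ↔ g⁻¹ * a * g ∈ S := by
  simp [cj]

theorem conj_mem_cj {g s : G} {S : Subgroup G} (h : s ∈ S) : g * s * g⁻¹ ∈ cj g S := by
  rw [mem_cj]
  simpa [mul_assoc] using h

theorem cj_cj (g h : G) (S : Subgroup G) : cj g (cj h S) = cj (g * h) S := by
  ext a
  simp only [mem_cj, mul_inv_rev, mul_assoc]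

theorem cj_one (S : Subgroup G) : cj 1 S = S := by
  ext a
  simp [mem_cj]

theorem cj_inv_cj (g : G) (S : Subgroup G) : cj g⁻¹ (cj g S) = S := by
  rw [cj_cj, inv_mul_cancel, cj_one]

theorem cj_cj_inv (g : G) (S : Subgroup G) : cj g (cj g⁻¹ S) = S := by
  rw [cj_cj, mul_inv_cancel, cj_one]

theorem cj_inj {g : G} {S S' : Subgroup G} (h : cj g S = cj g S') : S = S' := by
  rw [← cj_inv_cj g S, h, cj_inv_cj]

/-- `S` lies strictly over `C` in `B` and is normalised by `B`. -/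
def Nin (C B S : Subgroup G) : Prop := C < S ∧ S ≤ B ∧ ∀ b ∈ B, ∀ s ∈ S, b * s * b⁻¹ ∈ S

/-- `S` is minimal with this property. -/
def Mn (C B S : Subgroup G) : Prop := Nin C B S ∧ ∀ S', Nin C B S' → S' ≤ S → S' = S

theorem nin_cj {C B S : Subgroup G} (hC : C.Normal) (hB : B.Normal) (h : Nin C B S) (g : G) :
    Nin C B (cj g S) := by
  obtain ⟨h1, h2, h3⟩ := h
  refine ⟨?_, ?_, ?_⟩
  · rw [SetLike.lt_iff_le_and_exists] at h1 ⊢
    obtain ⟨h4, s, hs, hsC⟩ := h1
    refine ⟨?_, g * s * g⁻¹, conj_mem_cj hs, ?_⟩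
    · intro c hc
      rw [mem_cj]
      apply h4
      have := hC.conj_mem c hc g⁻¹
      simpa using this
    · intro hc
      apply hsC
      have := hC.conj_mem _ hc g⁻¹
      simpa [mul_assoc] using this
  · intro a ha
    rw [mem_cj] at ha
    have := hB.conj_mem _ (h2 ha) g
    simpa [mul_assoc] using this
  · intro b hb a ha
    rw [mem_cj] at ha ⊢
    have h5 : g⁻¹ * b * g ∈ B := by
      have := hB.conj_mem b hb g⁻¹
      simpa using this
    have := h3 _ h5 _ ha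
    simpa [mul_assoc] using this

theorem mn_cj {C B S : Subgroup G} (hC : C.Normal) (hB : B.Normal) (h : Mn C B S) (g : G) :
    Mn C B (cj g S) := by
  refine ⟨nin_cj hC hB h.1 g, ?_⟩
  intro S' hS' hle
  have h1 : cj g⁻¹ S' ≤ S := by
    intro a ha
    rw [mem_cj, inv_inv] at ha
    have := hle ha
    rw [mem_cj] at this
    simpa [mul_assoc] using this
  have h2 := h.2 _ (nin_cj hC hB hS' g⁻¹) h1
  rw [← h2, cj_cj_inv]

/-- The setting: a chief factor `B / C` of a finite group. -/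
structure Chf (C B : Subgroup G) : Prop where
  cn : C.Normal
  bn : B.Normal
  cb : C < B
  mx : ∀ N : Subgroup G, N.Normal → C < N → N ≤ B → N = B

/-- The set of minimal subgroups. -/
noncomputable def TT [Finite G] (C B : Subgroup G) : Finset (Subgroup G) :=
  (Set.toFinite {S : Subgroup G | Mn C B S}).toFinset

theorem mem_TT [Finite G] {C B S : Subgroup G} : S ∈ TT C B ↔ Mn C B S := by
  simp [TT]

variable [Finite G] {C B : Subgroup G}

theorem TT_cj (h : Chf C B) {S : Subgroup G} (hS : S ∈ TT C B) (g : G) : cj g S ∈ TT C B :=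
  mem_TT.2 (mn_cj h.cn h.bn (mem_TT.1 hS) g)

theorem TT_ne (h : Chf C B) : (TT C B).Nonempty := by
  have h1 : ({S : Subgroup G | Nin C B S}).Nonempty :=
    ⟨B, h.cb, le_rfl, fun b hb s hs => B.mul_mem (B.mul_mem hb hs) (B.inv_mem hb)⟩
  obtain ⟨S, hS⟩ := Set.Finite.exists_minimal (Set.toFinite _) h1
  refine ⟨S, mem_TT.2 ⟨hS.1, ?_⟩⟩
  intro S' hS' hle
  exact le_antisymm hle (hS.2 hS' hle)

theorem gen (h : Chf C B) {J : Finset (Subgroup G)} (hJ : J ⊆ TT C B) (hne : J.Nonempty)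
    (hc : ∀ S ∈ J, ∀ g, cj g S ∈ J) : T C J = B := by
  apply h.mx
  · constructor
    intro a ha g
    refine T_conj (g := g) (fun c hc' => h.cn.conj_mem c hc' g) ?_ a ha
    intro S hS s hs
    exact mem_le_T (hc S hS g) (conj_mem_cj hs)
  · obtain ⟨S, hS⟩ := hne
    exact lt_of_lt_of_le (mem_TT.1 (hJ hS)).1.1 (mem_le_T hS)
  · exact T_le h.cb.le fun S hS => (mem_TT.1 (hJ hS)).1.2.1

theorem gen_all (h : Chf C B) : T C (TT C B) = B :=
  gen h subset_rfl (TT_ne h) fun _ hS g => TT_cj h hS g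

theorem T_le_B (h : Chf C B) {J : Finset (Subgroup G)} (hJ : J ⊆ TT C B) : T C J ≤ B :=
  T_le h.cb.le fun S hS => (mem_TT.1 (hJ hS)).1.2.1

theorem T_nor (h : Chf C B) {J : Finset (Subgroup G)} (hJ : J ⊆ TT C B) :
    ∀ b ∈ B, ∀ a ∈ T C J, b * a * b⁻¹ ∈ T C J := by
  intro b hb
  refine T_conj (fun c hc => h.cn.conj_mem c hc b) ?_
  intro S hS s hs
  exact mem_le_T hS ((mem_TT.1 (hJ hS)).1.2.2 b hb s hs)

theorem le_cen_of_ne [C.Normal] {S S' : Subgroup G} (hS : S ∈ TT C B) (hS' : S' ∈ TT C B)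
    (hne : S ≠ S') : S ≤ cen C S' := by
  rw [mem_TT] at hS hS'
  have h1 : ∀ s ∈ S, ∀ s' ∈ S', s * s' * s⁻¹ * s'⁻¹ ∈ S ⊓ S' := by
    intro s hs s' hs'
    constructor
    · have h2 := hS.1.2.2 s' (hS'.1.2.1 hs') s⁻¹ (S.inv_mem hs)
      have h3 := S.mul_mem hs h2
      simpa [mul_assoc] using h3
    · have h2 := hS'.1.2.2 s (hS.1.2.1 hs) s' hs'
      exact S'.mul_mem h2 (S'.inv_mem hs')
  have h2 : S ⊓ S' ≤ C := by
    by_contra hcon
    have h3 : Nin C B (S ⊓ S') := by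
      refine ⟨lt_of_le_not_ge (le_inf hS.1.1.le hS'.1.1.le) hcon, inf_le_left.trans hS.1.2.1, ?_⟩
      intro b hb s hs
      exact ⟨hS.1.2.2 b hb s hs.1, hS'.1.2.2 b hb s hs.2⟩
    have h4 := hS.2 _ h3 inf_le_left
    have h5 := hS'.2 _ h3 inf_le_right
    exact hne (h4.symm.trans h5)
  intro s hs
  rw [mem_cen]
  intro s' hs'
  exact h2 (h1 s hs s' hs')

omit [Finite G] in
theorem cen_anti [C.Normal] {U V : Subgroup G} (h : U ≤ V) : cen C V ≤ cen C U := by
  intro g hg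
  rw [mem_cen] at hg ⊢
  exact fun u hu => hg u (h hu)

/-- In the non-abelian case all minimal subgroups are non-abelian. -/
theorem nonab (h : Chf C B) [C.Normal] (hna : ¬ B ≤ cen C B) {S : Subgroup G}
    (hS : S ∈ TT C B) : ¬ S ≤ cen C S := by
  intro hab
  apply hna
  set J := (TT C B).filter (fun S => S ≤ cen C S) with hJ
  have h1 : T C J = B := by
    refine gen h (Finset.filter_subset _ _) ⟨S, by simp [hJ, hS, hab]⟩ ?_
    intro S1 hS1 g
    rw [hJ, Finset.mem_filter] at hS1 ⊢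
    refine ⟨TT_cj h hS1.1 g, ?_⟩
    intro a ha
    rw [mem_cen]
    intro a' ha'
    rw [mem_cj] at ha ha'
    have h2 := mem_cen.1 (hS1.2 ha) _ ha'
    have h3 := h.cn.conj_mem _ h2 g
    simpa [mul_assoc] using h3
  have h2 : T C J ≤ cen C (T C J) := by
    apply T_le_cen
    intro S1 hS1 S2 hS2
    rw [hJ, Finset.mem_filter] at hS1 hS2
    by_cases heq : S1 = S2
    · rw [← heq]
      exact hS1.2
    · exact le_cen_of_ne hS1.1 hS2.1 heq
  rwa [h1] at h2

/-- Each non-abelian minimal subgroup is perfect modulo `C`. -/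
theorem perf (h : Chf C B) [C.Normal] {S : Subgroup G} (hS : S ∈ TT C B) (hna : ¬ S ≤ cen C S)
    {Q : Subgroup G} (hC : C ≤ Q) (hQ : ∀ s ∈ S, ∀ s' ∈ S, s * s' * s⁻¹ * s'⁻¹ ∈ Q) : S ≤ Q := by
  have hm := mem_TT.1 hS
  have h1 : C ⊔ ⁅S, S⁆ ≤ S := sup_le hm.1.1.le
    (Subgroup.commutator_le.2 fun a ha b hb => by
      rw [commutatorElement_def]
      exact S.mul_mem (S.mul_mem (S.mul_mem ha hb) (S.inv_mem ha)) (S.inv_mem hb))
  have h2 : Nin C B (C ⊔ ⁅S, S⁆) := by
    refine ⟨lt_of_le_not_ge le_sup_left ?_, h1.trans hm.1.2.1, ?_⟩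
    · intro hcon
      apply hna
      intro s hs
      rw [mem_cen]
      intro s' hs'
      have := hcon ((le_sup_right : ⁅S, S⁆ ≤ C ⊔ ⁅S, S⁆)
        (Subgroup.commutator_mem_commutator hs hs'))
      rwa [commutatorElement_def] at this
    · intro b hb
      have h3 : C ⊔ ⁅S, S⁆ ≤ (C ⊔ ⁅S, S⁆).comap (MulAut.conj b).toMonoidHom := by
        refine sup_le ?_ ?_
        · intro c hc
          exact (le_sup_left : C ≤ C ⊔ ⁅S, S⁆) (h.cn.conj_mem c hc b)
        · rw [Subgroup.commutator_le]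
          intro s hs s' hs'
          rw [Subgroup.mem_comap]
          have h4 : (MulAut.conj b).toMonoidHom ⁅s, s'⁆ = ⁅b * s * b⁻¹, b * s' * b⁻¹⁆ := by
            rw [map_commutatorElement]
            rfl
          rw [h4]
          exact (le_sup_right : ⁅S, S⁆ ≤ C ⊔ ⁅S, S⁆) (Subgroup.commutator_mem_commutator
            (hm.1.2.2 b hb s hs) (hm.1.2.2 b hb s' hs'))
      intro s hs
      exact h3 hs
  have h3 := hm.2 _ h2 h1
  rw [← h3]
  refine sup_le hC (Subgroup.commutator_le.2 fun a ha b hb => ?_)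
  rw [commutatorElement_def]
  exact hQ a ha b hb

/-- Each minimal subgroup is simple modulo `C`. -/
theorem smpl (h : Chf C B) [C.Normal] {S L : Subgroup G} (hS : S ∈ TT C B) (hCL : C ≤ L)
    (hLS : L ≤ S) (hn : ∀ s ∈ S, ∀ a ∈ L, s * a * s⁻¹ ∈ L) : L ≤ C ∨ S ≤ L := by
  by_cases hLC : L ≤ C
  · exact Or.inl hLC
  right
  have hm := mem_TT.1 hS
  have h1 : B ≤ Subgroup.normalizer (L : Set G) := by
    rw [← gen_all h]
    have key : ∀ U : Subgroup G, (∀ u ∈ U, ∀ a ∈ L, u * a * u⁻¹ ∈ L) →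
        U ≤ Subgroup.normalizer (L : Set G) := by
      intro U hU u hu
      rw [Subgroup.mem_normalizer_iff]
      intro a
      refine ⟨fun ha => hU u hu a ha, fun ha => ?_⟩
      have := hU u⁻¹ (U.inv_mem hu) _ ha
      simpa [mul_assoc] using this
    apply T_le
    · apply key
      intro c hc a ha
      exact L.mul_mem (L.mul_mem (hCL hc) ha) (L.inv_mem (hCL hc))
    · intro S' hS'
      apply key
      intro s hs a ha
      by_cases heq : S' = S
      · exact hn s (heq ▸ hs) a ha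
      · have h2 := mem_cen.1 (le_cen_of_ne hS' hS heq hs) a (hLS ha)
        have h3 := L.mul_mem (hCL h2) ha
        simpa [mul_assoc] using h3
  have h2 : Nin C B L := by
    refine ⟨lt_of_le_not_ge hCL hLC, hLS.trans hm.1.2.1, ?_⟩
    intro b hb a ha
    exact (Subgroup.mem_normalizer_iff.1 (h1 hb) a).1 ha
  exact (hm.2 _ h2 hLS).ge

end Cf

end Pool.DynLehmer.LW
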