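import Pool.Agent.Lib.MP_2194ec_nt.LW.DefsMul
import Mathlib.FieldTheory.Galois.Basic

set_option autoImplicit false
set_option linter.unusedSectionVars false

/-!
# The Lehmer bound for algebraic numbers whose Galois closure is solvable: assembly
-/

namespace Pool.DynLehmer.LW
open MvPolynomial NumberField Filter Topology Pool.DynLehmer Pool.DynLehmer.SB Pool.DynLehmer.SP
  Pool.DynLehmer.GS Pool.DynLehmer.LP
open scoped Classical

namespace FinM

/-! ## The power map -/

theorem gAct_powF {K : Type} [Field K] (q : ℕ) {N : Type} [Field N] [Algebra K N]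
    (y : Fin 2 → N) : gAct (powF K q) N y = y ^ q := by
  funext i
  simp [gAct, powF]

theorem iter_powF {K : Type} [Field K] (q : ℕ) {N : Type} [Field N] [Algebra K N] (n : ℕ)
    (y : Fin 2 → N) : (gAct (powF K q) N)^[n] y = y ^ (q ^ n) := by
  induction n with
  | zero => simp
  | succ n ih => rw [Function.iterate_succ_apply', ih, gAct_powF, ← pow_mul, pow_succ]

theorem pt_pow {N : Type} [Field N] (b : N) (Q : ℕ) : (![b, 1] : Fin 2 → N) ^ Q = ![b ^ Q, 1] := by
  funext i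
  fin_cases i
  · rfl
  · simp

theorem coeff_powF {K : Type} [Field K] (q : ℕ) (i : Fin 2) (t : Fin 2 →₀ ℕ) :
    coeff t (powF K q i) = if Finsupp.single i q = t then 1 else 0 := by
  unfold powF
  rw [coeff_X_pow]

theorem hypR_powF {K : Type} [Field K] [NumberField K] {p : ℕ} (hp : p.Prime) (v : FinitePlace K)
    (hv : v (p : K) < 1) : HypR p 1 v (powF K (p ^ 1)) where
  prime := hp
  pos := le_rfl
  above := hv
  hom := fun i => isHomogeneous_X_pow i _
  int := by
    intro i t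
    rw [coeff_powF]
    split_ifs
    · rw [map_one]
    · rw [map_zero]
      exact zero_le_one
  red := by
    intro i t ht
    rw [coeff_powF, if_neg (fun h => ht i h.symm), map_zero]
    exact one_pos
  det := by
    have h1 : (Matrix.of fun i j : Fin 2 => coeff (Finsupp.single j (p ^ 1)) (powF K (p ^ 1) i)) =
        (1 : Matrix (Fin 2) (Fin 2) K) := by
      ext i j
      rw [Matrix.of_apply, coeff_powF, Matrix.one_apply]
      have hp0 : p ^ 1 ≠ 0 := by
        rw [pow_one]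
        exact hp.pos.ne'
      by_cases hij : i = j
      · subst hij
        rw [if_pos rfl, if_pos rfl]
      · rw [if_neg hij, if_neg]
        intro h
        exact hij (Finsupp.single_left_injective hp0 h)
    rw [h1, Matrix.det_one, map_one]

/-- there is a finite place above `p` -/
theorem exists_place (K : Type) [Field K] [NumberField K] {p : ℕ} (hp : p.Prime) :
    ∃ v : FinitePlace K, v (p : K) < 1 := by
  have h1 : Ideal.span {(p : 𝓞 K)} ≠ ⊤ := by
    intro h
    rw [Ideal.span_singleton_eq_top] at h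
    have h2 : IsUnit ((p : ℤ)) := by
      have h3 : IsIntegral ℤ ((p : ℚ)⁻¹) := by
        obtain ⟨u, hu⟩ := h.exists_left_inv
        have h5 : algebraMap (𝓞 K) K u * (p : K) = 1 := by
          have h6 := congrArg (algebraMap (𝓞 K) K) hu
          rwa [map_mul, map_natCast, map_one] at h6
        have h4 : algebraMap (𝓞 K) K u = algebraMap ℚ K ((p : ℚ)⁻¹) := by
          rw [map_inv₀, map_natCast]
          exact eq_inv_of_mul_eq_one_left h5
        have h7 : IsIntegral ℤ (algebraMap (𝓞 K) K u) := RingOfIntegers.isIntegral_coe u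
        rw [h4] at h7
        exact (isIntegral_algebraMap_iff (FaithfulSMul.algebraMap_injective ℚ K)).1 h7
      obtain ⟨z, hz⟩ := IsIntegrallyClosed.isIntegral_iff.1 h3
      have hp0 : (p : ℚ) ≠ 0 := by exact_mod_cast hp.pos.ne'
      have h9 : (z : ℚ) * p = 1 := by
        have : (z : ℚ) = (p : ℚ)⁻¹ := hz
        rw [this, inv_mul_cancel₀ hp0]
      have h10 : z * (p : ℤ) = 1 := by exact_mod_cast h9
      exact IsUnit.of_mul_eq_one z (by rw [mul_comm]; exact h10)
    have h3 : ((p : ℤ)).natAbs = 1 := Int.isUnit_iff_natAbs_eq.1 h2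
    rw [Int.natAbs_natCast] at h3
    exact hp.one_lt.ne' h3
  obtain ⟨M, hM, hpM⟩ := Ideal.exists_le_maximal _ h1
  have hp0 : (p : 𝓞 K) ≠ 0 := by exact_mod_cast hp.pos.ne'
  have hmem : (p : 𝓞 K) ∈ M := hpM (Ideal.mem_span_singleton_self _)
  let w : IsDedekindDomain.HeightOneSpectrum (𝓞 K) := ⟨M, hM.isPrime, by
    intro h
    rw [h] at hmem
    exact hp0 ((Ideal.mem_bot).1 hmem)⟩
  refine ⟨FinitePlace.mk w, ?_⟩
  have h4 := (FinitePlace.norm_lt_one_iff_mem K w (p : 𝓞 K)).2 hmem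
  rw [FinitePlace.mk_apply]
  rwa [map_natCast (algebraMap (𝓞 K) K)] at h4

/-! ## Degrees and stabilizers -/

section deg

variable {K N : Type} [Field K] [Field N] [Algebra K N] [FiniteDimensional K N] [IsGalois K N]

theorem mem_fix_adjoin (S : Set N) (σ : N ≃ₐ[K] N) :
    σ ∈ (IntermediateField.adjoin K S).fixingSubgroup ↔ ∀ x ∈ S, σ x = x := by
  rw [IntermediateField.mem_fixingSubgroup_iff]
  exact IntermediateField.forall_mem_adjoin_smul_eq_self_iff K (S := S) σ

/-- fields with the same stabilizers have the same degree -/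
theorem finrank_congr (S T : Set N)
    (h : ∀ σ : N ≃ₐ[K] N, (∀ x ∈ S, σ x = x) ↔ ∀ x ∈ T, σ x = x) :
    Module.finrank K (IntermediateField.adjoin K S) =
      Module.finrank K (IntermediateField.adjoin K T) := by
  rw [IntermediateField.finrank_eq_fixingSubgroup_index,
    IntermediateField.finrank_eq_fixingSubgroup_index]
  congr 1
  ext σ
  rw [mem_fix_adjoin, mem_fix_adjoin]
  exact h σ

/-- the degree is the number of conjugates -/
theorem finrank_orbit {Ω : Type} [MulAction (N ≃ₐ[K] N) Ω] (S : Set N) (y : Ω)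
    (h : ∀ σ : N ≃ₐ[K] N, (∀ x ∈ S, σ x = x) ↔ σ • y = y) :
    Module.finrank K (IntermediateField.adjoin K S) =
      Nat.card (MulAction.orbit (N ≃ₐ[K] N) y) := by
  rw [IntermediateField.finrank_eq_fixingSubgroup_index,
    Nat.card_coe_set_eq, ← MulAction.index_stabilizer (N ≃ₐ[K] N)]
  congr 1
  ext σ
  rw [mem_fix_adjoin, MulAction.mem_stabilizer_iff]
  exact h σ

end deg

/-! ## Numbers -/

theorem num {k C D M : ℕ} {Q δ : ℝ} (hk : 2 ≤ k) (hC : 1 ≤ C) (hδ : δ = 1 / (8 * k * (C : ℝ) ^ 4))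
    (hD : 1 / δ < (D : ℝ)) (hthin : Q * (D : ℝ) ^ (1 - δ) ≤ D) (hM1 : 1 ≤ M)
    (hM : M ^ 2 ≤ C * D ^ k) (hQ : 0 < Q) : Q * (M : ℝ) ^ (1 / (k : ℝ) + δ) ≤ D := by
  have hk' : (2 : ℝ) ≤ k := by exact_mod_cast hk
  have hC' : (1 : ℝ) ≤ C := by exact_mod_cast hC
  have hC4 : (1 : ℝ) ≤ (C : ℝ) ^ 4 := one_le_pow₀ hC'
  have hden : (0 : ℝ) < 8 * k * (C : ℝ) ^ 4 := by positivity
  have hδ0 : 0 < δ := by rw [hδ]; positivity
  have h1δ : 1 / δ = 8 * k * (C : ℝ) ^ 4 := by rw [hδ, one_div_one_div]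
  have hkδ : k * δ ≤ 1 / 8 := by
    rw [hδ, mul_one_div, div_le_div_iff₀ hden (by norm_num)]
    nlinarith
  have hδ8 : δ ≤ 1 / 8 := by nlinarith
  have hDC : (C : ℝ) ^ 4 ≤ D := by
    rw [h1δ] at hD
    nlinarith
  have hD1 : (1 : ℝ) ≤ D := hC4.trans hDC
  have hD0 : (0 : ℝ) < D := by linarith
  have hCD : (C : ℝ) ≤ (D : ℝ) ^ (1 / 4 : ℝ) := by
    have h1 := Real.rpow_le_rpow (by positivity) hDC (z := 1 / 4) (by norm_num)
    rwa [← Real.rpow_natCast, ← Real.rpow_mul (by positivity), show ((4 : ℕ) : ℝ) * (1 / 4) = 1 by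
      norm_num, Real.rpow_one] at h1
  have hQD : Q ≤ (D : ℝ) ^ δ := by
    have h1 : (D : ℝ) ^ (1 - δ) * (D : ℝ) ^ δ = D := by
      rw [← Real.rpow_add hD0, show 1 - δ + δ = 1 by ring, Real.rpow_one]
    have h2 : 0 < (D : ℝ) ^ (1 - δ) := Real.rpow_pos_of_pos hD0 _
    have h3 : Q * (D : ℝ) ^ (1 - δ) ≤ (D : ℝ) ^ δ * (D : ℝ) ^ (1 - δ) := by
      rw [mul_comm ((D : ℝ) ^ δ), h1]
      exact hthin
    exact le_of_mul_le_mul_right h3 h2
  have hM0 : (0 : ℝ) < M := by exact_mod_cast hM1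
  set e : ℝ := 1 / (k : ℝ) + δ with he
  have hkinv : 1 / (k : ℝ) ≤ 1 / 2 := one_div_le_one_div_of_le (by norm_num) hk'
  have he0 : 0 < e := by rw [he]; positivity
  have he1 : e / 2 ≤ 1 := by linarith
  have hMe : (M : ℝ) ^ e ≤ (D : ℝ) ^ (1 / 4 : ℝ) * (D : ℝ) ^ ((1 + k * δ) / 2) := by
    have h1 : ((M : ℝ) ^ 2) ≤ C * (D : ℝ) ^ k := by exact_mod_cast hM
    have h2 : (M : ℝ) ^ e = ((M : ℝ) ^ 2) ^ (e / 2) := by
      rw [← Real.rpow_natCast, ← Real.rpow_mul hM0.le]
      congr 1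
      push_cast
      ring
    have h3 : ((D : ℝ) ^ k) ^ (e / 2) = (D : ℝ) ^ ((1 + k * δ) / 2) := by
      rw [← Real.rpow_natCast, ← Real.rpow_mul hD0.le]
      congr 1
      rw [he]
      field_simp
    rw [h2]
    refine (Real.rpow_le_rpow (by positivity) h1 (by positivity)).trans ?_
    rw [Real.mul_rpow (by positivity) (by positivity), h3]
    refine mul_le_mul_of_nonneg_right ?_ (by positivity)
    calc (C : ℝ) ^ (e / 2) ≤ (C : ℝ) ^ (1 : ℝ) := Real.rpow_le_rpow_of_exponent_le hC' he1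
      _ = C := Real.rpow_one _
      _ ≤ _ := hCD
  calc Q * (M : ℝ) ^ e ≤ (D : ℝ) ^ δ * ((D : ℝ) ^ (1 / 4 : ℝ) * (D : ℝ) ^ ((1 + k * δ) / 2)) :=
        mul_le_mul hQD hMe (by positivity) (by positivity)
    _ = (D : ℝ) ^ (δ + (1 / 4 + (1 + k * δ) / 2)) := by
        rw [Real.rpow_add hD0, Real.rpow_add hD0]
    _ ≤ (D : ℝ) ^ (1 : ℝ) := Real.rpow_le_rpow_of_exponent_le hD1 (by linarith)
    _ = D := Real.rpow_one _

end FinM

open FinM in
/-- **The Lehmer bound for algebraic numbers whose Galois closure is solvable.** -/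
theorem finm (hGen : GenmStatement) (hCls : ClsmStatement) (hGrps : GrpsStatement)
    (hNorm : NormStatement) (hRep : RepmStatement) : MulStatement := by
  intro K _ _
  obtain ⟨s, C₀, hs, hG⟩ := hGrps
  obtain ⟨v, hv⟩ := exists_place K Nat.prime_two
  set C : ℕ := C₀ + 1 with hC
  set k : ℕ := 2 ^ s with hk
  have hk2 : 2 ≤ k := by
    calc 2 = 2 ^ 1 := rfl
      _ ≤ 2 ^ s := Nat.pow_le_pow_right (by norm_num) hs
  have hk' : (2 : ℝ) ≤ k := by exact_mod_cast hk2
  have hC1 : 1 ≤ C := by omega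
  have hC' : (1 : ℝ) ≤ C := by exact_mod_cast hC1
  have hC4 : (1 : ℝ) ≤ (C : ℝ) ^ 4 := one_le_pow₀ hC'
  set δ : ℝ := 1 / (8 * k * (C : ℝ) ^ 4) with hδ
  have hδ0 : 0 < δ := by rw [hδ]; positivity
  have h1δ : 1 / δ = 8 * k * (C : ℝ) ^ 4 := by rw [hδ, one_div_one_div]
  obtain ⟨c, hc, hmain⟩ := hGen K 2 1 v (powF K (2 ^ 1)) (hypR_powF Nat.prime_two v hv) k δ hδ0
  refine ⟨c, hc, ?_⟩
  intro N _ _ _ _ a ha0 hat hsolv
  have hfd : FiniteDimensional K N := Module.Finite.of_restrictScalars_finite ℚ K N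
  obtain ⟨b, m, hm, hb0, -, hbw, hbt, hdeg, hht⟩ := hNorm K N a ha0
  have hbt := hbt hat
  set q : ℕ := 2 ^ 1 with hq
  have hq2 : q = 2 := by rw [hq]; norm_num
  -- conjugates are different modulo torsion
  have hconj : ∀ (σ τ : N ≃ₐ[K] N) (Q : ℕ), 1 ≤ Q → (σ (τ b)) ^ Q = (τ b) ^ Q →
      σ (τ b) = τ b := by
    intro σ τ Q hQ h1
    have h2 : ((τ⁻¹ * σ * τ) b) ^ Q = b ^ Q := by
      have h3 : (τ⁻¹ * σ * τ) b = τ⁻¹ (σ (τ b)) := rfl
      rw [h3, ← map_pow, h1, map_pow]
      congr 1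
      exact τ.symm_apply_apply b
    have h4 := hbw _ ⟨Q, hQ, h2⟩
    have h5 : (τ⁻¹ * σ * τ) b = τ⁻¹ (σ (τ b)) := rfl
    rw [h5] at h4
    calc σ (τ b) = τ (τ⁻¹ (σ (τ b))) := (τ.apply_symm_apply _).symm
      _ = τ b := by rw [h4]
  -- the orbit
  let Ω : Type := MulAction.orbit (N ≃ₐ[K] N) b
  have hΩfin : Finite Ω := Set.finite_range (fun g : N ≃ₐ[K] N => g • b)
  let _ : Fintype Ω := Fintype.ofFinite Ω
  have hΩ : ∀ z : Ω, ∃ τ : N ≃ₐ[K] N, τ b = (z : N) := fun z => z.2
  have hΩ0 : ∀ z : Ω, (z : N) ≠ 0 := by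
    intro z
    obtain ⟨τ, hτ⟩ := hΩ z
    rw [← hτ]
    exact (map_ne_zero_iff τ τ.injective).2 hb0
  have hsm : ∀ (σ : N ≃ₐ[K] N) (z : Ω), ((σ • z : Ω) : N) = σ (z : N) := fun σ z => rfl
  obtain ⟨V, hV1, hV2, ρ, f, hf1, hf2, hf3⟩ := hRep K N
  have hfinj : Function.Injective (fun z : Ω => f (z : N)) := by
    intro z z' h1
    obtain ⟨r, hr, h2⟩ := hf2 _ _ (hΩ0 z) (hΩ0 z') h1
    obtain ⟨τ, hτ⟩ := hΩ z
    obtain ⟨τ', hτ'⟩ := hΩ z'
    apply Subtype.ext
    have h3 := hconj (τ * τ'⁻¹) τ' r hr (by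
      have h4 : (τ * τ'⁻¹) (τ' b) = τ b := by
        change τ (τ'⁻¹ (τ' b)) = τ b
        congr 1
        exact τ'.symm_apply_apply b
      rw [h4, hτ, hτ', h2])
    have h4 : (τ * τ'⁻¹) (τ' b) = τ b := by
      change τ (τ'⁻¹ (τ' b)) = τ b
      congr 1
      exact τ'.symm_apply_apply b
    rw [h4, hτ, hτ'] at h3
    exact h3
  have htr : MulAction.IsPretransitive (N ≃ₐ[K] N) Ω := inferInstance
  -- the degree
  set D : ℕ := dg K ![b, 1] with hD
  have hDdef : D = Module.finrank K (IntermediateField.adjoin K {b}) := by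
    rw [hD]
    unfold dg
    rw [show (![b, 1] : Fin 2 → N) 0 / (![b, 1] : Fin 2 → N) 1 = b from div_one b]
  have hDΩ : D = Fintype.card Ω := by
    rw [hDdef, finrank_orbit (Ω := N) {b} b (fun σ => ⟨fun h => h b rfl, fun h x hx => by
      rw [Set.mem_singleton_iff.1 hx]
      exact h⟩), ← Nat.card_eq_fintype_card]
  have hD1 : 1 ≤ D := Module.finrank_pos
  have hstep : ∀ (z : N) (n : ℕ), (gAct (powF K q) N)^[n] ![z, 1] = ![z ^ q ^ n, 1] := fun z n => by
    rw [iter_powF, pt_pow]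
  have hqn : ∀ n : ℕ, 1 ≤ q ^ n := fun n => Nat.one_le_pow _ _ (by omega)
  have hDn : ∀ n : ℕ, dg K ((gAct (powF K q) N)^[n] ![b, 1]) = D := by
    intro n
    rw [hstep, hDdef]
    unfold dg
    apply finrank_congr
    intro σ
    simp only [Matrix.cons_val_zero, Matrix.cons_val_one, div_one, Set.mem_singleton_iff,
      forall_eq, map_pow]
    constructor
    · intro h1
      exact hbw σ ⟨q ^ n, hqn n, h1⟩
    · intro h1
      rw [h1]
  have hwand : WandP (powF K q) (![b, 1] : Fin 2 → N) := by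
    rintro ⟨i, j, hij, u, hu, h1⟩
    rw [hstep, hstep] at h1
    have h2 := congrFun h1 1
    have h3 := congrFun h1 0
    simp only [Matrix.cons_val_zero, Matrix.cons_val_one, Pi.smul_apply, smul_eq_mul] at h2 h3
    rw [mul_one] at h2
    rw [← h2, one_mul] at h3
    have hne : q ^ i ≠ q ^ j := fun h => hij (Nat.pow_right_injective (by omega) h)
    rcases Nat.lt_or_gt_of_ne hne with h | h
    · have h4 : b ^ (q ^ j - q ^ i) = 1 := by
        have h5 : b ^ (q ^ i) * b ^ (q ^ j - q ^ i) = b ^ (q ^ i) * 1 := by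
          rw [← pow_add, Nat.add_sub_cancel' h.le, h3, mul_one]
        exact mul_left_cancel₀ (pow_ne_zero _ hb0) h5
      exact hbt _ (by omega) h4
    · have h4 : b ^ (q ^ i - q ^ j) = 1 := by
        have h5 : b ^ (q ^ j) * b ^ (q ^ i - q ^ j) = b ^ (q ^ j) * 1 := by
          rw [← pow_add, Nat.add_sub_cancel' h.le, h3, mul_one]
        exact mul_left_cancel₀ (pow_ne_zero _ hb0) h5
      exact hbt _ (by omega) h4
  obtain ⟨h, hlim, hle⟩ := hmain N b hwand (by
    intro n hn hthin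
    rw [hDn] at hn hthin
    have hCD : C₀ ≤ Fintype.card Ω := by
      rw [← hDΩ]
      rw [h1δ] at hn
      have h2 : (C : ℝ) ≤ (C : ℝ) ^ 4 := le_self_pow₀ hC' (by norm_num)
      have h3 : (C : ℝ) < D := by nlinarith
      have h4 : C < D := by exact_mod_cast h3
      omega
    obtain ⟨y, -, hlin, hcard⟩ := hG (N ≃ₐ[K] N) Ω V ρ (fun z => f (z : N))
      (fun g x => hf1 g _ (hΩ0 x)) hfinj htr hsolv hCD ⟨b, MulAction.mem_orbit_self b⟩
    refine ⟨k, fun i => (y i : N), hk2, le_rfl, fun i => hΩ (y i), fun _ => ?_, fun j hj => ?_⟩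
    · have hMn : dgk K (fun i => (gAct (powF K q) N)^[n] ![(y i : N), 1]) =
          Nat.card (MulAction.orbit (N ≃ₐ[K] N) y) := by
        unfold dgk
        refine finrank_orbit (Ω := Fin (2 ^ s) → Ω) _ y fun σ => ?_
        rw [Set.forall_mem_range, _root_.funext_iff]
        refine forall_congr' fun i => ?_
        beta_reduce
        rw [hstep]
        simp only [Matrix.cons_val_zero, Matrix.cons_val_one, div_one, map_pow, Pi.smul_apply]
        rw [Subtype.ext_iff, hsm]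
        obtain ⟨τ, hτ⟩ := hΩ (y i)
        constructor
        · intro h1
          rw [← hτ] at h1 ⊢
          exact hconj σ τ _ (hqn n) h1
        · intro h1
          rw [h1]
      rw [hMn]
      have hM1 : 1 ≤ Nat.card (MulAction.orbit (N ≃ₐ[K] N) y) := by
        have hfin : Finite (MulAction.orbit (N ≃ₐ[K] N) y) :=
          Set.finite_range (fun g : N ≃ₐ[K] N => g • y)
        have hne : Nonempty (MulAction.orbit (N ≃ₐ[K] N) y) := ⟨⟨y, MulAction.mem_orbit_self y⟩⟩
        exact Nat.card_pos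
      refine num hk2 hC1 hδ hn hthin hM1 ?_ ?_
      · rw [← hDΩ] at hcard
        exact hcard.trans (Nat.mul_le_mul_right _ (by omega))
      · have := hqn n
        positivity
    · have h1 : (fun i => (gAct (powF K q) N)^[n + j] ![(y i : N), 1]) =
          fun i => ![(y i : N) ^ q ^ (n + j), 1] := by
        funext i
        rw [hstep]
      rw [h1]
      refine hCls K q (by omega) N k (fun i => (y i : N) ^ q ^ (n + j))
        (fun i => pow_ne_zero _ (hΩ0 _)) fun l hl => ?_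
      have h2 := hf3 k (fun i => (y i : N)) (fun i => hΩ0 _) hlin
        (fun i => ((q ^ (n + j) : ℕ) : ℤ) * l i) (by
          rw [← hl]
          refine Finset.prod_congr rfl fun i _ => ?_
          rw [zpow_mul, zpow_natCast])
      funext i
      have h3 := congrFun h2 i
      have h4 : ((q ^ (n + j) : ℕ) : ℤ) ≠ 0 := by
        have := hqn (n + j)
        exact_mod_cast (by omega : q ^ (n + j) ≠ 0)
      simpa [h4] using h3)
  -- the height
  have hheq : h = Height.logHeight (![b, 1] : Fin 2 → N) / (Module.finrank ℚ N : ℝ) := by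
    have h1 : Tendsto (fun n : ℕ => Height.logHeight ((gAct (powF K q) N)^[n] ![b, 1]) /
        (Module.finrank ℚ N : ℝ) / (((2 ^ 1 : ℕ) : ℝ)) ^ n) atTop
        (𝓝 (Height.logHeight (![b, 1] : Fin 2 → N) / (Module.finrank ℚ N : ℝ))) := by
      refine tendsto_const_nhds.congr fun n => ?_
      rw [iter_powF, Height.logHeight_pow]
      have h2 : ((q : ℝ)) ^ n ≠ 0 := by
        have := hqn n
        positivity
      push_cast
      rw [hq]
      push_cast
      field_simp
    exact tendsto_nhds_unique hlim h1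
  rw [hheq, hht] at hle
  have hm0 : (0 : ℝ) < m := by exact_mod_cast hm
  have hD0 : (0 : ℝ) < D := by exact_mod_cast hD1
  have hdeg' : (m : ℝ) * D = (Module.finrank K (IntermediateField.adjoin K {a}) : ℝ) := by
    rw [hDdef]
    exact_mod_cast hdeg
  rw [← hdeg', div_le_iff₀ (by positivity)]
  rw [div_le_iff₀ hD0] at hle
  calc c ≤ _ := hle
    _ = _ := by ring

end Pool.DynLehmer.LW
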