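import Pool.Agent.Lib.MP_2194ec_nt.LW.Grpf

set_option autoImplicit false

/-!
# Tuples with independent vectors and composition factors of polynomial order
-/

namespace Pool.DynLehmer.LW
open scoped Classical

namespace Cf

section

variable {G Ω : Type} [Group G] [Finite G] [Finite Ω] [MulAction G Ω] {C B : Subgroup G}

/-- The elements of `S` which fix the `C`-orbits of the points of `S x`. -/
def Kb (C S : Subgroup G) (hC : C.Normal) (x : Ω) : Subgroup G where
  carrier := {g | g ∈ S ∧ ∀ z ∈ Ob S x, g • z ∈ Ob C z}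
  one_mem' := ⟨S.one_mem, fun z _ => by rw [one_smul]; exact self_mem C z⟩
  mul_mem' := by
    rintro a b ⟨ha, ha'⟩ ⟨hb, hb'⟩
    refine ⟨S.mul_mem ha hb, fun z hz => ?_⟩
    obtain ⟨c, hc, hcz⟩ := hb' z hz
    obtain ⟨c', hc', hcz'⟩ := ha' z hz
    refine ⟨a * c * a⁻¹ * c', C.mul_mem (hC.conj_mem c hc a) hc', ?_⟩
    rw [mul_smul a b, ← hcz, mul_smul, hcz']
    simp [mul_smul]
  inv_mem' := by
    rintro a ⟨ha, ha'⟩
    refine ⟨S.inv_mem ha, fun z hz => ?_⟩
    have h1 : a⁻¹ • z ∈ Ob S x := by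
      obtain ⟨u, hu, rfl⟩ := hz
      exact ⟨a⁻¹ * u, S.mul_mem (S.inv_mem ha) hu, mul_smul _ _ _⟩
    obtain ⟨c, hc, hcz⟩ := ha' _ h1
    rw [smul_inv_smul] at hcz
    refine ⟨c⁻¹, C.inv_mem hc, ?_⟩
    rw [inv_smul_eq_iff]
    exact hcz.symm

theorem ker_idx (h : Chf C B) [C.Normal] {x : Ω} {S : Subgroup G} (hS : S ∈ rel C B x) {R : ℕ}
    (hR : oc S x ≤ R) : C.relIndex S ≤ R ^ R := by
  have hS' := hS
  rw [rel, Finset.mem_filter] at hS'
  obtain ⟨hST, s0, hs0, hs0x⟩ := hS'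
  have hm := mem_TT.1 hST
  have hCS : C ≤ S := hm.1.1.le
  have k1 : C ≤ Kb C S h.cn x := fun c hc => ⟨hCS hc, fun z _ => ⟨c, hc, rfl⟩⟩
  have k2 : ∀ s ∈ S, ∀ a ∈ Kb C S h.cn x, s * a * s⁻¹ ∈ Kb C S h.cn x := by
    rintro s hs a ⟨ha, ha'⟩
    refine ⟨S.mul_mem (S.mul_mem hs ha) (S.inv_mem hs), fun z hz => ?_⟩
    have h3 : s⁻¹ • z ∈ Ob S x := by
      obtain ⟨u, hu, rfl⟩ := hz
      exact ⟨s⁻¹ * u, S.mul_mem (S.inv_mem hs) hu, mul_smul _ _ _⟩
    obtain ⟨c, hc, hcz⟩ := ha' _ h3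
    refine ⟨s * c * s⁻¹, h.cn.conj_mem c hc s, ?_⟩
    rw [mul_smul, mul_smul, hcz, mul_smul, mul_smul]
  have h1 : Kb C S h.cn x ≤ C := by
    rcases smpl h hST (L := Kb C S h.cn x) k1 (fun g hg => hg.1) k2 with h2 | h2
    · exact h2
    · exact absurd ((h2 hs0).2 x (self_mem S x)) hs0x
  have hne : ∀ X Y : Subgroup G, X.relIndex Y ≠ 0 := fun X Y =>
    Subgroup.FiniteIndex.index_ne_zero
  have h2 : C.relIndex S ≤ (Kb C S h.cn x).relIndex S :=
    Subgroup.relIndex_le_of_le_left h1 (hne _ _)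
  refine h2.trans ?_
  have h3 : (Kb C S h.cn x).relIndex S ≤ Nat.card (Ob S x → Ob S x) := by
    refine ri_le _ _ (fun g => fun z => (⟨(g : G) • (z : Ω), ?_⟩ : Ob S x)) ?_
    · obtain ⟨u, hu, hux⟩ := z.2
      exact ⟨(g : G) * u, S.mul_mem g.2 hu, by rw [mul_smul, hux]⟩
    · intro a b hab
      refine ⟨S.mul_mem (S.inv_mem a.2) b.2, fun z hz => ?_⟩
      have h4 := congrArg Subtype.val (congrFun hab ⟨z, hz⟩)
      have h5 : (a : G) • z = (b : G) • z := h4
      rw [mul_smul, ← h5, inv_smul_smul]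
      exact self_mem C z
  refine h3.trans ?_
  rw [Nat.card_fun]
  have h4 : Nat.card (Ob S x) = oc S x := rfl
  rw [h4]
  have h5 := oc_pos S x
  exact (Nat.pow_le_pow_left hR _).trans (Nat.pow_le_pow_right (by omega) hR)

omit [Finite Ω] in
theorem idxJ (h : Chf C B) {M : ℕ} : ∀ J : Finset (Subgroup G), J ⊆ TT C B →
    (∀ S ∈ J, C.relIndex S ≤ M) → C.relIndex (T C J) ≤ M ^ J.card := by
  intro J
  induction J using Finset.induction_on with
  | empty =>
    intro _ _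
    have h1 : T C ∅ = C := le_antisymm (T_le le_rfl (by simp)) le_T
    rw [h1, Subgroup.relIndex_self]
    simp
  | insert S J hSJ ih =>
    intro hJ hM
    have hJ' : J ⊆ TT C B := fun _ h' => hJ (Finset.mem_insert_of_mem h')
    have hS : S ∈ TT C B := hJ (Finset.mem_insert_self _ _)
    rw [T_insert, Finset.card_insert_of_notMem hSJ, pow_succ,
      ← Subgroup.relIndex_mul_relIndex C (T C J) (T C J ⊔ S) le_T le_sup_left]
    refine Nat.mul_le_mul (ih hJ' fun S' hS' => hM S' (Finset.mem_insert_of_mem hS')) ?_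
    refine (ri_sup (T C J) S C le_T ?_).trans (hM S (Finset.mem_insert_self _ _))
    intro s hs a ha
    exact T_nor h hJ' s ((mem_TT.1 hS).1.2.1 hs) a ha

end

section Struct2

variable {V Ω : Type} [Group V] [Finite V] [Finite Ω] [MulAction V Ω]

theorem struct2 {H : Subgroup V} (hH : H.Normal) {x : Ω} (hV : ∀ v : V, v • x ∈ Ob H x)
    {M R1 : ℕ} (hF : FacH H x M) (hR1 : 1 ≤ R1) (h1 : R1 < oc H x) :
    ∃ L H' W : Subgroup V, (∀ h ∈ H', ∀ a ∈ L, h * a * h⁻¹ ∈ L) ∧
      (∀ w ∈ W, ∀ a ∈ L, w * a * w⁻¹ ∈ L) ∧ (∀ w ∈ W, ∀ h ∈ H', w * h * w⁻¹ ∈ H') ∧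
      W ≤ MulAction.stabilizer V x ∧ R1 < oc H' x ∧ oc L x ≤ R1 ∧
      W.relIndex (MulAction.stabilizer V x) ≤ (oc H x) ^ 2 ∧
      (L.relIndex H' ≤ oc H x ∨ L.relIndex H' ≤ M ∨ L.relIndex H' ≤ (R1 ^ R1) ^ R1) := by
  obtain ⟨B, ⟨hBn, hBH, hBx⟩, hBmin⟩ := Set.Finite.exists_minimal
    (Set.toFinite {N : Subgroup V | N.Normal ∧ N ≤ H ∧ R1 < oc N x}) ⟨H, hH, le_rfl, h1⟩
  have hbot : (⊥ : Subgroup V) < B := by
    rw [bot_lt_iff_ne_bot]
    rintro rfl
    have h2 : Ob (⊥ : Subgroup V) x ⊆ {x} := by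
      rintro z ⟨u, hu, rfl⟩
      rw [Subgroup.mem_bot] at hu
      rw [hu, one_smul]
      rfl
    have h3 : oc (⊥ : Subgroup V) x ≤ 1 := by
      refine (Set.ncard_le_ncard h2 (Set.toFinite _)).trans ?_
      rw [Set.ncard_singleton]
    omega
  obtain ⟨C, ⟨hCn, hCB⟩, hCmax⟩ := Set.Finite.exists_maximal
    (Set.toFinite {N : Subgroup V | N.Normal ∧ N < B}) ⟨⊥, inferInstance, hbot⟩
  have hchf : Chf C B := by
    refine ⟨hCn, hBn, hCB, ?_⟩
    intro N hN hCN hNB
    by_contra hne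
    have h2 := hCmax (⟨hN, lt_of_le_of_ne hNB hne⟩ : N ∈ {N : Subgroup V | N.Normal ∧ N < B})
      hCN.le
    exact absurd hCN (not_lt_of_ge h2)
  have hCx : oc C x ≤ R1 := by
    by_contra hcon
    have h2 := hBmin (⟨hCn, hCB.le.trans hBH, not_le.1 hcon⟩ :
      C ∈ {N : Subgroup V | N.Normal ∧ N ≤ H ∧ R1 < oc N x}) hCB.le
    exact absurd hCB (not_lt_of_ge h2)
  by_cases hab : B ≤ cen C B
  · -- the abelian case
    have hCnor : ∀ g ∈ B, ∀ u ∈ C, g * u * g⁻¹ ∈ C := fun g _ c hc => hCn.conj_mem c hc g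
    refine ⟨st B C x hCnor, B, MulAction.stabilizer V x, ?_, ?_, ?_, le_rfl, hBx, ?_, ?_,
      Or.inl ?_⟩
    · intro b hb a ha
      have h2 : C ≤ st B C x hCnor := fun c hc => ⟨hCB.le hc, c, hc, rfl⟩
      have h3 := mem_cen.1 (hab hb) a ha.1
      have h4 := Subgroup.mul_mem _ (h2 h3) ha
      simpa [mul_assoc] using h4
    · rintro w hw a ⟨haB, c, hc, hcx⟩
      refine ⟨hBn.conj_mem a haB w, w * c * w⁻¹, hCn.conj_mem c hc w, ?_⟩
      have hw' : w⁻¹ • x = x := by
        rw [inv_smul_eq_iff]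
        exact (MulAction.mem_stabilizer_iff.1 hw).symm
      rw [mul_smul, hw', mul_smul, hcx, mul_smul, hw', mul_smul]
    · intro w _ b hb
      exact hBn.conj_mem b hb w
    · refine (Set.ncard_le_ncard ?_ (Set.toFinite _)).trans hCx
      rintro z ⟨a, ha, rfl⟩
      exact ha.2
    · rw [Subgroup.relIndex_self]
      have h2 := oc_pos H x
      exact Nat.one_le_pow _ _ h2
    · have h2 : oc B x ≤ oc H x := oc_mono hBH x
      refine le_trans ?_ h2
      have h3 : oc B x = Nat.card (Ob B x) := rfl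
      rw [h3]
      refine ri_le _ _ (fun b => (⟨(b : V) • x, b, b.2, rfl⟩ : Ob B x)) ?_
      intro a b hab'
      have h4 : (a : V) • x = (b : V) • x := congrArg Subtype.val hab'
      refine ⟨B.mul_mem (B.inv_mem a.2) b.2, ?_⟩
      rw [mul_smul, ← h4, inv_smul_smul]
      exact self_mem C x
  · -- the non-abelian case
    obtain ⟨l, L, hL0, hLl, hL⟩ := hF
    let K0 : Subgroup V :=
      { carrier := {b | b ∈ B ∧ ∀ v : V, b • v • x = v • x}
        one_mem' := ⟨B.one_mem, fun v => one_smul _ _⟩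
        mul_mem' := by
          rintro a b ⟨ha, ha'⟩ ⟨hb, hb'⟩
          exact ⟨B.mul_mem ha hb, fun v => by rw [mul_smul, hb', ha']⟩
        inv_mem' := by
          rintro a ⟨ha, ha'⟩
          exact ⟨B.inv_mem ha, fun v => by rw [inv_smul_eq_iff, ha']⟩ }
    have hK0n : K0.Normal := by
      constructor
      rintro a ⟨ha, ha'⟩ g
      refine ⟨hBn.conj_mem a ha g, fun v => ?_⟩
      have h2 := ha' (g⁻¹ * v)
      rw [mul_smul] at h2
      rw [mul_smul, mul_smul, h2, smul_inv_smul]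
    have hK0C : K0 ≤ C := by
      by_contra hcon
      have h2 : C ⊔ K0 = B := by
        apply hchf.mx
        · exact Subgroup.sup_normal C K0
        · exact lt_of_le_not_ge le_sup_left fun h3 => hcon (le_sup_right.trans h3)
        · exact sup_le hCB.le fun b hb => hb.1
      have h3 : B ≤ st B C x (fun g _ c hc => hCn.conj_mem c hc g) := by
        conv_lhs => rw [← h2]
        refine sup_le (fun c hc => ⟨hCB.le hc, c, hc, rfl⟩) ?_
        intro b hb
        refine ⟨hb.1, ?_⟩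
        have h4 := hb.2 1
        rw [one_smul] at h4
        rw [h4]
        exact self_mem C x
      have h4 : Ob B x ⊆ Ob C x := by
        rintro z ⟨b, hb, rfl⟩
        exact (h3 hb).2
      have h5 : oc B x ≤ oc C x := Set.ncard_le_ncard h4 (Set.toFinite _)
      omega
    have h0 : L 0 ⊓ B ≤ C := by
      refine le_trans ?_ hK0C
      rintro g ⟨hg, hgB⟩
      refine ⟨hgB, fun v => ?_⟩
      obtain ⟨h, hh, hhx⟩ := hV v
      rw [← hhx]
      exact hL0 g hg h hh
    have hrel : 2 ^ (rel C B x).card ≤ (oc H x) ^ 2 :=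
      (rel_card hchf hab x).trans (Nat.pow_le_pow_left (oc_mono hBH x) 2)
    by_cases hbig : ∃ S ∈ rel C B x, R1 < oc S x
    · obtain ⟨S, hS, hSx⟩ := hbig
      have hST := rel_sub x hS
      refine ⟨C, S, W1 {S} x, fun h _ a ha => hCn.conj_mem a ha h,
        fun w _ a ha => hCn.conj_mem a ha w, ?_, fun w hw => hw.1, hSx, hCx,
        (W1_idx hchf (Finset.singleton_subset_iff.2 hS)).trans hrel, Or.inr (Or.inl ?_)⟩
      · intro w hw h hh
        have h2 := ((mem_W1.1 hw).2 S).1 (Finset.mem_singleton_self S)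
        rw [Finset.mem_singleton] at h2
        have h3 := conj_mem_cj (g := w) hh
        rwa [h2] at h3
      · exact idxS hchf hBH hab h0 hLl hL hST
    · push Not at hbig
      obtain ⟨I, hIrel, hIt, hIx⟩ := choose_I hchf x hBx (t := R1) Nat.lt_two_pow_self
      have hIT : I ⊆ TT C B := hIrel.trans (rel_sub x)
      refine ⟨C, T C I, W1 I x, fun h _ a ha => hCn.conj_mem a ha h,
        fun w _ a ha => hCn.conj_mem a ha w, ?_, fun w hw => hw.1, hIx, hCx,
        (W1_idx hchf hIrel).trans hrel, Or.inr (Or.inr ?_)⟩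
      · intro w hw
        refine T_conj (fun c hc => hCn.conj_mem c hc w) ?_
        intro S hS s hs
        exact mem_le_T (((mem_W1.1 hw).2 S).1 hS) (conj_mem_cj hs)
      · refine (idxJ hchf I hIT (fun S hS => ker_idx hchf (hIrel hS)
          (hbig S (hIrel hS)))).trans ?_
        exact Nat.pow_le_pow_right (Nat.one_le_pow _ _ hR1) hIt

end Struct2

end Cf

/-- Row GRPA: tuples with independent vectors and a small orbit, for a subgroup `H` normalised by
the stabilizer of `x`, with a large orbit, on which it acts through a group whose composition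
factors are abelian or of order at most `D ^ A`. -/
def GrpaStatement : Prop :=
  ∀ A : ℕ, ∃ s R C : ℕ, 1 ≤ s ∧ ∀ (G Ω V : Type) [Group G] [Finite G]
    [Fintype Ω] [MulAction G Ω] [AddCommGroup V] [Module ℚ V] (ρ : Representation ℚ G V)
    (f : Ω → V), (∀ (g : G) (x : Ω), f (g • x) = ρ g (f x)) → Function.Injective f →
    MulAction.IsPretransitive G Ω → ∀ (x : Ω) (H : Subgroup G),
    (∀ g ∈ MulAction.stabilizer G x, ∀ h ∈ H, g * h * g⁻¹ ∈ H) →
    R < Nat.card (MulAction.orbit H x) → FacH H x ((Fintype.card Ω) ^ A) →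
    ∃ y : Fin (2 ^ s) → Ω, (∃ i, y i = x) ∧ LinearIndependent ℚ (fun i => f (y i)) ∧
      (Nat.card (MulAction.orbit G y)) ^ 2 ≤ C * (Fintype.card Ω) ^ (2 ^ s)

/-- Row GRPA. -/
theorem grpa (hGram : GramStatement) (hMod : ModtStatement) : GrpaStatement := by
  intro A
  -- `2 ^ s ≥ 2 (A + 1) s + 6`
  obtain ⟨s, hs1, hs⟩ : ∃ s, 1 ≤ s ∧ 2 * (A + 1) * s + 6 ≤ 2 ^ s := by
    have key : ∀ n : ℕ, n ^ 2 ≤ 2 ^ (n + 1) := by
      intro n
      have h1 : ∀ n : ℕ, (n + 4) ^ 2 ≤ 2 ^ (n + 5) := by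
        intro n
        induction n with
        | zero => norm_num
        | succ n ih =>
          have h2 : 2 ^ (n + 1 + 5) = 2 * 2 ^ (n + 5) := by
            rw [← pow_succ']
          rw [h2]
          have h3 : (n + 1 + 4) ^ 2 ≤ 2 * (n + 4) ^ 2 := by
            have h4 : 2 * (n + 4) ^ 2 = (n + 1 + 4) ^ 2 + (n ^ 2 + 6 * n + 7) := by ring
            rw [h4]
            exact Nat.le_add_right _ _
          omega
      rcases Nat.lt_or_ge n 4 with h | h
      · interval_cases n <;> norm_num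
      · obtain ⟨m, rfl⟩ := Nat.exists_eq_add_of_le h
        rw [add_comm 4 m]
        exact h1 m
    refine ⟨4 * A + 8, by omega, ?_⟩
    have h3 := key (4 * A + 7)
    have h4 : 4 * A + 7 + 1 = 4 * A + 8 := by ring
    rw [h4] at h3
    nlinarith
  obtain ⟨R, hR⟩ : ∃ R : ℕ, R = 3 ^ ((16 ^ s) ^ 2) := ⟨_, rfl⟩
  have hR1 : 1 ≤ R := by
    rw [hR]
    exact Nat.one_le_pow _ _ (by norm_num)
  obtain ⟨Q, hQ1, hQR⟩ : ∃ Q : ℕ, 1 ≤ Q ∧ (R ^ R) ^ R ≤ Q :=
    ⟨(R ^ R) ^ R, Nat.one_le_pow _ _ (Nat.one_le_pow _ _ hR1), le_rfl⟩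
  refine ⟨s, R, (Q ^ s) ^ 2 * (R ^ 2 ^ s) ^ 2, hs1, ?_⟩
  intro G Ω U _ _ _ _ _ _ ρ f hf hinj htr x H hnor hbig hfac
  rw [Cf.natCard_orbit] at hbig
  set D := Fintype.card Ω with hD
  set d := Cf.oc H x with hd
  have hDpos : 1 ≤ D := Fintype.card_pos_iff.2 ⟨x⟩
  have hstabG : (MulAction.stabilizer G x).index = D := by
    rw [MulAction.index_stabilizer_of_transitive, Nat.card_eq_fintype_card]
  set V : Subgroup G := H ⊔ MulAction.stabilizer G x with hVdef
  have hHV : H ≤ V := le_sup_left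
  have hSV : MulAction.stabilizer G x ≤ V := le_sup_right
  have hVn : ∀ g ∈ V, ∀ h ∈ H, g * h * g⁻¹ ∈ H := by
    have key : V ≤ Subgroup.normalizer (H : Set G) := by
      have key : ∀ U : Subgroup G, (∀ u ∈ U, ∀ a ∈ H, u * a * u⁻¹ ∈ H) →
          U ≤ Subgroup.normalizer (H : Set G) := by
        intro U hU u hu
        rw [Subgroup.mem_normalizer_iff]
        intro a
        refine ⟨fun ha => hU u hu a ha, fun ha => ?_⟩
        have := hU u⁻¹ (U.inv_mem hu) _ ha
        simpa [mul_assoc] using this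
      refine sup_le (key H ?_) (key _ hnor)
      intro u hu a ha
      exact H.mul_mem (H.mul_mem hu ha) (H.inv_mem hu)
    intro g hg h hh
    exact (Subgroup.mem_normalizer_iff.1 (key hg) h).1 hh
  have hVx : ∀ g ∈ V, g • x ∈ Cf.Ob H x := by
    have h1 : V ≤ Cf.st V H x hVn := by
      refine sup_le ?_ ?_
      · intro h hh
        exact ⟨hHV hh, h, hh, rfl⟩
      · intro g hg
        refine ⟨hSV hg, ?_⟩
        rw [MulAction.mem_stabilizer_iff.1 hg]
        exact Cf.self_mem H x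
    intro g hg
    exact (h1 hg).2
  set H' : Subgroup V := H.subgroupOf V with hH'
  have hH'n : H'.Normal := by
    constructor
    intro a ha g
    rw [hH', Subgroup.mem_subgroupOf] at ha ⊢
    exact hVn g g.2 a ha
  have hOb : Cf.Ob H' x = Cf.Ob H x := by
    ext z
    constructor
    · rintro ⟨u, hu, rfl⟩
      exact ⟨u, Subgroup.mem_subgroupOf.1 hu, rfl⟩
    · rintro ⟨u, hu, rfl⟩
      exact ⟨⟨u, hHV hu⟩, Subgroup.mem_subgroupOf.2 hu, rfl⟩
  have hoc : Cf.oc H' x = d := by rw [Cf.oc, hOb, hd, Cf.oc]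
  have hF' : FacH H' x (D ^ A) := by
    obtain ⟨l, L, h0, hl, hL⟩ := hfac
    have hmono : ∀ i ≤ l, L i ≤ H := by
      intro i hi
      rw [← hl]
      induction hi using Nat.decreasingInduction with
      | self => exact le_rfl
      | of_succ k hk ih => exact ((hL k hk).1).trans ih
    refine ⟨l, fun i => (L i).subgroupOf V, ?_, ?_, ?_⟩
    · intro g hg h hh
      exact h0 g (Subgroup.mem_subgroupOf.1 hg) h (Subgroup.mem_subgroupOf.1 hh)
    · simp only [hl, hH']
    · intro i hi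
      obtain ⟨h1, h2, h3⟩ := hL i hi
      refine ⟨?_, ?_, ?_⟩
      · intro a ha
        exact Subgroup.mem_subgroupOf.2 (h1 (Subgroup.mem_subgroupOf.1 ha))
      · intro a ha b hb
        exact Subgroup.mem_subgroupOf.2
          (h2 a (Subgroup.mem_subgroupOf.1 ha) b (Subgroup.mem_subgroupOf.1 hb))
      · rcases h3 with h3 | h3
        · left
          intro a ha b hb
          exact Subgroup.mem_subgroupOf.2
            (h3 a (Subgroup.mem_subgroupOf.1 ha) b (Subgroup.mem_subgroupOf.1 hb))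
        · right
          rwa [Subgroup.relIndex_subgroupOf ((hmono (i + 1) (by omega)).trans hHV)]
  obtain ⟨L, J, W, hLJ, hWL, hWJ, hWx, hJx, hLx, hWi, hidx⟩ :=
    Cf.struct2 (V := V) hH'n (x := x) (fun v => by rw [hOb]; exact hVx v v.2) hF' hR1
      (by rw [hoc]; exact hbig)
  obtain ⟨h, hind⟩ := Cf.cube_ind hGram hMod s (Cf.resH ρ V) f (fun g x => hf g x) hinj x J
    (by rw [← hR]; exact hJx)
  have horb := Cf.cube_orb (L := L) (H := J) (W := W) (x := x) hLJ hWL hWJ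
    (fun w hw => MulAction.mem_stabilizer_iff.1 (hWx hw)) (B := R) (by
      rintro z ⟨u, hu, rfl⟩
      rw [Cf.oc_smul hLJ hu]
      exact hLx) h
  obtain ⟨y, hy1, hy2, hy3⟩ := tuple_of_cube f x J h hind
  refine ⟨y, hy1, hy2, ?_⟩
  have hstabV : (MulAction.stabilizer V x).index = d := by
    rw [MulAction.index_stabilizer, ← hoc, Cf.oc]
    congr 1
    ext z
    rw [hOb]
    constructor
    · rintro ⟨v, rfl⟩
      exact hVx v v.2
    · rintro ⟨u, hu, rfl⟩
      exact ⟨⟨u, hHV hu⟩, rfl⟩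
  have hVD : V.index * d = D := by
    have h1 : (MulAction.stabilizer G x).relIndex V = d := hstabV
    rw [← h1, mul_comm, Subgroup.relIndex_mul_index hSV, hstabG]
  have hdD : d ≤ D := by
    rw [← hVD]
    exact Nat.le_mul_of_pos_left _ (Nat.pos_of_ne_zero Subgroup.FiniteIndex.index_ne_zero)
  have hWidx : W.index = W.relIndex (MulAction.stabilizer V x) * d := by
    rw [← hstabV, Subgroup.relIndex_mul_index hWx]
  rw [hoc] at hidx hWi
  have hJL : L.relIndex J ≤ Q * D ^ (A + 1) := by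
    have hp : 1 ≤ D ^ (A + 1) := Nat.one_le_pow _ _ hDpos
    rcases hidx with h1 | h1 | h1
    · calc L.relIndex J ≤ D := h1.trans hdD
        _ = D ^ 1 := (pow_one _).symm
        _ ≤ D ^ (A + 1) := Nat.pow_le_pow_right hDpos (by omega)
        _ ≤ Q * D ^ (A + 1) := Nat.le_mul_of_pos_left _ hQ1
    · calc L.relIndex J ≤ D ^ A := h1
        _ ≤ D ^ (A + 1) := Nat.pow_le_pow_right hDpos (by omega)
        _ ≤ Q * D ^ (A + 1) := Nat.le_mul_of_pos_left _ hQ1
    · exact (h1.trans hQR).trans (Nat.le_mul_of_pos_right _ hp)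
  have hmain : Nat.card (MulAction.orbit G y) ≤
      (Q ^ s * D ^ ((A + 1) * s + 3)) * R ^ 2 ^ s := by
    refine (Cf.orb_V y V).trans ?_
    rw [hy3]
    refine (Nat.mul_le_mul_left _ horb).trans ?_
    rw [hWidx, ← mul_assoc]
    refine Nat.mul_le_mul_right _ ?_
    calc V.index * ((L.relIndex J) ^ s * (W.relIndex (MulAction.stabilizer V x) * d)) =
        (V.index * d) * ((L.relIndex J) ^ s * W.relIndex (MulAction.stabilizer V x)) := by ring
      _ = D * ((L.relIndex J) ^ s * W.relIndex (MulAction.stabilizer V x)) := by rw [hVD]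
      _ ≤ D * ((Q * D ^ (A + 1)) ^ s * D ^ 2) := by
          refine Nat.mul_le_mul_left _ (Nat.mul_le_mul (Nat.pow_le_pow_left hJL s) ?_)
          exact hWi.trans (Nat.pow_le_pow_left hdD 2)
      _ = Q ^ s * D ^ ((A + 1) * s + 3) := by
          rw [mul_pow, ← pow_mul, pow_add]
          ring
  calc _ ≤ ((Q ^ s * D ^ ((A + 1) * s + 3)) * R ^ 2 ^ s) ^ 2 := Nat.pow_le_pow_left hmain 2
    _ = (Q ^ s) ^ 2 * (R ^ 2 ^ s) ^ 2 * D ^ (2 * (A + 1) * s + 6) := by
        rw [mul_pow, mul_pow, ← pow_mul D]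
        have h1 : ((A + 1) * s + 3) * 2 = 2 * (A + 1) * s + 6 := by ring
        rw [h1]
        ring
    _ ≤ (Q ^ s) ^ 2 * (R ^ 2 ^ s) ^ 2 * D ^ 2 ^ s :=
        Nat.mul_le_mul_left _ (Nat.pow_le_pow_right hDpos hs)

end Pool.DynLehmer.LW
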