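import Mathlib

set_option autoImplicit false
set_option linter.unusedSectionVars false

/-!
# Linearly independent cubes

Let a finite group `H` act on a vector space over `ℚ`. If the orbit of `v` spans a space of
dimension greater than `16 ^ s`, there are elements `h_1, ..., h_s` of `H` such that the `2 ^ s`
vectors `h_1^{e_1} ... h_s^{e_s} v` are linearly independent.
-/

namespace Pool.DynLehmer.LW.Gram
open scoped Classical

variable {H V : Type} [Group H] [Fintype H] [AddCommGroup V] [Module ℚ V] [DistribMulAction H V]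

theorem smul_rat (h : H) (c : ℚ) (x : V) : h • (c • x) = c • (h • x) := by
  have h1 : h • (c • x) = (DistribSMul.toAddMonoidHom V h) (c • x) := rfl
  rw [h1, map_rat_smul]
  rfl

/-- translation of the relations -/
theorem rel_translate (v : V) {k : H → ℚ} (hk : ∑ g, k g • g • v = 0) (h : H) :
    ∑ g, k (h⁻¹ * g) • g • v = 0 := by
  have h1 : ∑ g, k (h⁻¹ * g) • g • v = ∑ g, k g • (h * g) • v := by
    refine Fintype.sum_equiv (Equiv.mulLeft h⁻¹) _ _ fun g => ?_
    simp
  have h2 : ∑ g, k g • (h * g) • v = h • ∑ g, k g • g • v := by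
    rw [Finset.smul_sum]
    refine Finset.sum_congr rfl fun g _ => ?_
    rw [smul_rat, mul_smul]
  rw [h1, h2, hk, smul_zero]

/-- **The kernel of the projection.** -/
theorem exists_kernel (v : V) : ∃ p : H → ℚ,
    p 1 * Fintype.card H = Module.finrank ℚ (Submodule.span ℚ (Set.range fun g : H => g • v)) ∧
    ∑ g, p g ^ 2 = p 1 ∧
    ∀ k : H → ℚ, ∑ g, k g • g • v = 0 → ∀ h : H, ∑ g, p (h⁻¹ * g) * k g = 0 := by
  set L : (H → ℚ) →ₗ[ℚ] V := Fintype.linearCombination ℚ (fun g : H => g • v) with hL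
  have hLa : ∀ k, L k = ∑ g, k g • g • v := fun k => by
    rw [hL, Fintype.linearCombination_apply]
  set K := LinearMap.ker L with hK
  have hmK : ∀ k, k ∈ K ↔ ∑ g, k g • g • v = 0 := fun k => by
    rw [hK, LinearMap.mem_ker, hLa]
  let B : LinearMap.BilinForm ℚ (H → ℚ) := dotProductBilin ℚ ℚ
  have hBa : ∀ x y, B x y = ∑ g, x g * y g := fun x y => rfl
  have hBr : B.IsRefl := by
    intro x y hxy
    rw [hBa] at hxy ⊢
    rw [← hxy]
    exact Finset.sum_congr rfl fun g _ => mul_comm _ _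
  set E := B.orthogonal K with hE
  have hmE : ∀ y, y ∈ E ↔ ∀ x ∈ K, ∑ g, x g * y g = 0 := fun y => by
    rw [hE, LinearMap.BilinForm.mem_orthogonal_iff]
    rfl
  have hpos : ∀ x : H → ℚ, ∑ g, x g * x g = 0 → x = 0 := by
    intro x hx
    funext g
    have h1 := (Finset.sum_eq_zero_iff_of_nonneg fun g _ => mul_self_nonneg (x g)).1 hx g
      (Finset.mem_univ g)
    exact mul_self_eq_zero.1 h1
  have hc : IsCompl K E := by
    rw [hE, LinearMap.BilinForm.isCompl_orthogonal_iff_disjoint hBr, Submodule.disjoint_def]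
    intro x hx hx'
    exact hpos x ((hmE x).1 hx' x hx)
  -- translations
  have hKt : ∀ (h : H) (x : H → ℚ), x ∈ K → (fun g => x (h⁻¹ * g)) ∈ K := by
    intro h x hx
    rw [hmK] at hx ⊢
    exact rel_translate v hx h
  have hEt : ∀ (h : H) (y : H → ℚ), y ∈ E → (fun g => y (h⁻¹ * g)) ∈ E := by
    intro h y hy
    rw [hmE] at hy ⊢
    intro x hx
    have h1 := hy _ (hKt h⁻¹ x hx)
    rw [← h1]
    refine Fintype.sum_equiv (Equiv.mulLeft h⁻¹) _ _ fun g => ?_
    simp
  set P : (H → ℚ) →ₗ[ℚ] (H → ℚ) := E.projection K hc.symm with hP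
  have hPE : ∀ x, P x ∈ E := fun x => Submodule.projection_apply_mem hc.symm x
  have hPK : ∀ x, x - P x ∈ K := by
    intro x
    have h1 := Submodule.projection_apply_mem hc x
    rwa [Submodule.projection_eq_self_sub_projection hc.symm] at h1
  have hPu : ∀ x y : H → ℚ, y ∈ E → x - y ∈ K → P x = y := by
    intro x y hy hxy
    have h1 : P x - y ∈ E := E.sub_mem (hPE x) hy
    have h2 : P x - y ∈ K := by
      have h3 := K.sub_mem hxy (hPK x)
      have h4 : x - y - (x - P x) = P x - y := by abel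
      rwa [h4] at h3
    have h5 := hpos _ ((hmE _).1 h1 _ h2)
    exact sub_eq_zero.1 h5
  have hPt : ∀ (h : H) (x : H → ℚ), P (fun g => x (h⁻¹ * g)) = fun g => P x (h⁻¹ * g) := by
    intro h x
    exact hPu _ _ (hEt h _ (hPE x)) (hKt h _ (hPK x))
  set p : H → ℚ := P (Pi.single 1 1) with hp
  refine ⟨p, ?_, ?_, ?_⟩
  · -- the trace
    have hproj : LinearMap.IsProj E P :=
      ⟨hPE, fun x hx => Submodule.projection_apply_of_mem_left hc.symm hx⟩
    have htr := hproj.trace
    rw [LinearMap.trace_eq_matrix_trace ℚ (Pi.basisFun ℚ H), Matrix.trace] at htr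
    have hdiag : ∀ h : H, (LinearMap.toMatrix (Pi.basisFun ℚ H) (Pi.basisFun ℚ H) P).diag h =
        p 1 := by
      intro h
      rw [Matrix.diag_apply, LinearMap.toMatrix_apply, Pi.basisFun_repr, Pi.basisFun_apply]
      have h1 : (Pi.single h 1 : H → ℚ) = fun g => (Pi.single 1 1 : H → ℚ) (h⁻¹ * g) := by
        funext g
        by_cases hg : g = h
        · subst hg
          simp
        · have hg' : h⁻¹ * g ≠ 1 := fun h2 => hg (inv_mul_eq_one.1 h2).symm
          rw [Pi.single_eq_of_ne hg, Pi.single_eq_of_ne hg']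
      rw [h1, hPt]
      simp [hp]
    rw [Finset.sum_congr rfl fun h _ => hdiag h, Finset.sum_const, Finset.card_univ,
      nsmul_eq_mul, mul_comm] at htr
    rw [htr]
    have h1 := Submodule.finrank_add_eq_of_isCompl hc
    have h2 := LinearMap.finrank_range_add_finrank_ker L
    rw [← hK] at h2
    have h3 : Module.finrank ℚ E = Module.finrank ℚ (LinearMap.range L) := by omega
    have h4 : LinearMap.range L = Submodule.span ℚ (Set.range fun g : H => g • v) := by
      rw [hL, Fintype.range_linearCombination]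
    rw [h3, h4]
  · have h1 := (hmE p).1 (hPE _) _ (hPK (Pi.single 1 1))
    rw [← hp] at h1
    have h2 : ∑ g, ((Pi.single 1 1 : H → ℚ) - p) g * p g = p 1 - ∑ g, p g ^ 2 := by
      have h3 : ∀ g, ((Pi.single 1 1 : H → ℚ) - p) g * p g =
          (Pi.single 1 1 : H → ℚ) g * p g - p g ^ 2 := by
        intro g
        rw [Pi.sub_apply]
        ring
      rw [Finset.sum_congr rfl fun g _ => h3 g, Finset.sum_sub_distrib]
      congr 1
      rw [Finset.sum_eq_single 1]
      · simp
      · intro g _ hg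
        rw [Pi.single_eq_of_ne hg, zero_mul]
      · intro h
        exact absurd (Finset.mem_univ _) h
    rw [h2] at h1
    linarith
  · intro k hk h
    have h1 := (hmE p).1 (hPE _) _ (hKt h⁻¹ k ((hmK k).2 hk))
    rw [← h1]
    refine Fintype.sum_equiv (Equiv.mulLeft h⁻¹) _ _ fun g => ?_
    simp [mul_comm]

/-! ## Cubes -/

/-- the product `h_1^{e_1} ... h_s^{e_s}` -/
def wd {G : Type} [Group G] {s : ℕ} (h : Fin s → G) (e : Fin s → Bool) : G :=
  (List.ofFn fun i => if e i then h i else 1).prod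

theorem wd_cons {G : Type} [Group G] {s : ℕ} (h : Fin s → G) (h0 : G) (e : Fin (s + 1) → Bool) :
    wd (Fin.cons h0 h : Fin (s + 1) → G) e =
      (if e 0 then h0 else 1) * wd h (fun i => e i.succ) := by
  unfold wd
  rw [List.ofFn_succ, List.prod_cons, Fin.cons_zero]
  simp only [Fin.cons_succ]

/-- few elements are bad -/
theorem card_bad {p : H → ℚ} (hp : ∑ g, p g ^ 2 = p 1) (h1 : 0 < p 1) (c : ℕ) :
    ((Finset.univ.filter fun g => p 1 ≤ c * |p g|).card : ℚ) * p 1 ≤ (c : ℚ) ^ 2 := by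
  set T := Finset.univ.filter fun g => p 1 ≤ c * |p g| with hT
  have h2 : ∑ _g ∈ T, p 1 ^ 2 ≤ ∑ g ∈ T, (c : ℚ) ^ 2 * p g ^ 2 := by
    refine Finset.sum_le_sum fun g hg => ?_
    have h3 : p 1 ≤ c * |p g| := (Finset.mem_filter.1 hg).2
    have h4 : p 1 ^ 2 ≤ (c * |p g|) ^ 2 := pow_le_pow_left₀ h1.le h3 2
    rwa [mul_pow, sq_abs] at h4
  have h3 : ∑ g ∈ T, (c : ℚ) ^ 2 * p g ^ 2 ≤ ∑ g, (c : ℚ) ^ 2 * p g ^ 2 :=
    Finset.sum_le_sum_of_subset_of_nonneg (Finset.subset_univ _) fun g _ _ => by positivity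
  rw [← Finset.mul_sum, ← Finset.mul_sum, hp] at h3
  rw [Finset.sum_const, nsmul_eq_mul, ← Finset.mul_sum] at h2
  have h4 : (T.card : ℚ) * p 1 ^ 2 ≤ (c : ℚ) ^ 2 * p 1 := h2.trans h3
  have h5 : ((T.card : ℚ) * p 1) * p 1 ≤ (c : ℚ) ^ 2 * p 1 := by
    calc ((T.card : ℚ) * p 1) * p 1 = (T.card : ℚ) * p 1 ^ 2 := by ring
      _ ≤ _ := h4
  exact le_of_mul_le_mul_right h5 h1

/-- the choice of the elements -/
theorem exists_good (B : Finset H) (s : ℕ) (hB : 4 ^ s * B.card < 2 * Fintype.card H) :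
    ∀ j ≤ s, ∃ h : Fin j → H, ∀ e e' : Fin j → Bool, e ≠ e' → (wd h e)⁻¹ * wd h e' ∉ B := by
  intro j
  induction j with
  | zero =>
    intro _
    refine ⟨fun i => i.elim0, fun e e' hee => ?_⟩
    exact absurd (Subsingleton.elim e e') hee
  | succ j ih =>
    intro hj
    obtain ⟨h, hh⟩ := ih (by omega)
    -- the bad elements
    set Z : Finset H := Finset.univ.biUnion fun ee : (Fin j → Bool) × (Fin j → Bool) =>
      (Finset.univ.filter fun x : H => (wd h ee.1)⁻¹ * x * wd h ee.2 ∈ B) ∪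
      (Finset.univ.filter fun x : H => (wd h ee.1)⁻¹ * x⁻¹ * wd h ee.2 ∈ B) with hZ
    have hc1 : ∀ a b : H, (Finset.univ.filter fun x : H => a⁻¹ * x * b ∈ B).card ≤ B.card := by
      intro a b
      refine Finset.card_le_card_of_injOn (fun x => a⁻¹ * x * b) ?_ ?_
      · intro x hx
        exact Finset.mem_coe.2 (Finset.mem_filter.1 (Finset.mem_coe.1 hx)).2
      · intro x _ y _ hxy
        exact mul_left_cancel (mul_right_cancel hxy)
    have hc2 : ∀ a b : H, (Finset.univ.filter fun x : H => a⁻¹ * x⁻¹ * b ∈ B).card ≤ B.card := by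
      intro a b
      refine Finset.card_le_card_of_injOn (fun x => a⁻¹ * x⁻¹ * b) ?_ ?_
      · intro x hx
        exact Finset.mem_coe.2 (Finset.mem_filter.1 (Finset.mem_coe.1 hx)).2
      · intro x _ y _ hxy
        exact inv_injective (mul_left_cancel (mul_right_cancel hxy))
    have hZc : Z.card ≤ 4 ^ j * (2 * B.card) := by
      refine Finset.card_biUnion_le.trans ?_
      have h1 : ∀ ee : (Fin j → Bool) × (Fin j → Bool),
          ((Finset.univ.filter fun x : H => (wd h ee.1)⁻¹ * x * wd h ee.2 ∈ B) ∪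
          (Finset.univ.filter fun x : H => (wd h ee.1)⁻¹ * x⁻¹ * wd h ee.2 ∈ B)).card ≤
          2 * B.card := by
        intro ee
        refine (Finset.card_union_le _ _).trans ?_
        have := hc1 (wd h ee.1) (wd h ee.2)
        have := hc2 (wd h ee.1) (wd h ee.2)
        omega
      refine (Finset.sum_le_sum fun ee _ => h1 ee).trans ?_
      rw [Finset.sum_const, Finset.card_univ, smul_eq_mul]
      refine Nat.mul_le_mul_right _ (le_of_eq ?_)
      rw [Fintype.card_prod, Fintype.card_pi, Fintype.card_bool, Finset.prod_const,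
        Finset.card_univ, Fintype.card_fin, ← mul_pow]
      norm_num
    have hlt : Z.card < (Finset.univ : Finset H).card := by
      rw [Finset.card_univ]
      have h2 : 4 ^ j * 4 ≤ 4 ^ s := by
        rw [← pow_succ]
        exact Nat.pow_le_pow_right (by norm_num) hj
      have h3 : 4 ^ j * 4 * B.card ≤ 4 ^ s * B.card := Nat.mul_le_mul_right _ h2
      have h4 : 4 ^ j * 4 * B.card = 2 * (4 ^ j * (2 * B.card)) := by ring
      omega
    obtain ⟨x, -, hx⟩ := Finset.exists_mem_notMem_of_card_lt_card hlt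
    have hx1 : ∀ e e' : Fin j → Bool, (wd h e)⁻¹ * x * wd h e' ∉ B := by
      intro e e' hmem
      refine hx (Finset.mem_biUnion.2 ⟨(e, e'), Finset.mem_univ _, Finset.mem_union_left _ ?_⟩)
      exact Finset.mem_filter.2 ⟨Finset.mem_univ _, hmem⟩
    have hx2 : ∀ e e' : Fin j → Bool, (wd h e)⁻¹ * x⁻¹ * wd h e' ∉ B := by
      intro e e' hmem
      refine hx (Finset.mem_biUnion.2 ⟨(e, e'), Finset.mem_univ _, Finset.mem_union_right _ ?_⟩)
      exact Finset.mem_filter.2 ⟨Finset.mem_univ _, hmem⟩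
    refine ⟨Fin.cons x h, fun e e' hee => ?_⟩
    rw [wd_cons, wd_cons]
    have htail : e 0 = e' 0 → (fun i : Fin j => e i.succ) ≠ fun i => e' i.succ := by
      intro h0 ht
      apply hee
      funext i
      refine Fin.cases h0 (fun i => congrFun ht i) i
    cases h0 : e 0 <;> cases h0' : e' 0
    · simpa using hh _ _ (htail (by rw [h0, h0']))
    · simpa [mul_assoc] using hx1 (fun i => e i.succ) (fun i => e' i.succ)
    · simpa [mul_assoc] using hx2 (fun i => e i.succ) (fun i => e' i.succ)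
    · simpa [mul_assoc] using hh _ _ (htail (by rw [h0, h0']))

/-- independence from the kernel -/
theorem indep_of_kernel {v : V} {p : H → ℚ} (hp1 : 0 < p 1)
    (hk : ∀ k : H → ℚ, ∑ g, k g • g • v = 0 → ∀ h : H, ∑ g, p (h⁻¹ * g) * k g = 0)
    {ι : Type} [Fintype ι] (w : ι → H)
    (hw : ∀ e e', e ≠ e' → (Fintype.card ι : ℚ) * |p ((w e)⁻¹ * w e')| < p 1) :
    LinearIndependent ℚ (fun e => w e • v) := by
  rw [Fintype.linearIndependent_iff]
  intro m hm
  have h1 : ∀ h : H, ∑ e, p (h⁻¹ * w e) * m e = 0 := by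
    intro h
    have h2 : ∑ g, (∑ e, if w e = g then m e else 0) • g • v = 0 := by
      rw [← hm]
      simp only [Finset.sum_smul]
      rw [Finset.sum_comm]
      refine Finset.sum_congr rfl fun e _ => ?_
      rw [Finset.sum_eq_single (w e)]
      · rw [if_pos rfl]
      · intro g _ hg
        rw [if_neg (Ne.symm hg), zero_smul]
      · intro h
        exact absurd (Finset.mem_univ _) h
    have h3 := hk _ h2 h
    rw [← h3]
    simp only [Finset.mul_sum]
    rw [Finset.sum_comm]
    refine Finset.sum_congr rfl fun e _ => ?_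
    rw [Finset.sum_eq_single (w e)]
    · rw [if_pos rfl]
    · intro g _ hg
      rw [if_neg (Ne.symm hg), mul_zero]
    · intro h
      exact absurd (Finset.mem_univ _) h
  by_contra hcon
  push Not at hcon
  obtain ⟨e0, he0⟩ := hcon
  obtain ⟨e', -, hmax⟩ := Finset.exists_max_image Finset.univ (fun e => |m e|)
    ⟨e0, Finset.mem_univ _⟩
  have hpos : 0 < |m e'| := lt_of_lt_of_le (abs_pos.2 he0) (hmax e0 (Finset.mem_univ _))
  have h2 := h1 (w e')
  rw [← Finset.add_sum_erase _ _ (Finset.mem_univ e'), inv_mul_cancel] at h2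
  have h3 : p 1 * m e' = -∑ e ∈ Finset.univ.erase e', p ((w e')⁻¹ * w e) * m e := by
    linarith
  have h4 : p 1 * |m e'| ≤ ∑ e ∈ Finset.univ.erase e', |p ((w e')⁻¹ * w e)| * |m e'| := by
    calc p 1 * |m e'| = |p 1 * m e'| := by rw [abs_mul, abs_of_pos hp1]
      _ = |∑ e ∈ Finset.univ.erase e', p ((w e')⁻¹ * w e) * m e| := by rw [h3, abs_neg]
      _ ≤ ∑ e ∈ Finset.univ.erase e', |p ((w e')⁻¹ * w e) * m e| := Finset.abs_sum_le_sum_abs _ _
      _ ≤ _ := by
        refine Finset.sum_le_sum fun e _ => ?_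
        rw [abs_mul]
        exact mul_le_mul_of_nonneg_left (hmax e (Finset.mem_univ _)) (abs_nonneg _)
  have hN : (0 : ℚ) < Fintype.card ι := by
    exact_mod_cast Fintype.card_pos_iff.2 ⟨e'⟩
  have h5 : (Fintype.card ι : ℚ) * (p 1 * |m e'|) ≤
      ∑ e ∈ Finset.univ.erase e', p 1 * |m e'| := by
    calc (Fintype.card ι : ℚ) * (p 1 * |m e'|) ≤
        (Fintype.card ι : ℚ) * ∑ e ∈ Finset.univ.erase e', |p ((w e')⁻¹ * w e)| * |m e'| :=
          mul_le_mul_of_nonneg_left h4 hN.le
      _ = ∑ e ∈ Finset.univ.erase e', ((Fintype.card ι : ℚ) * |p ((w e')⁻¹ * w e)|) * |m e'| := by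
        rw [Finset.mul_sum]
        exact Finset.sum_congr rfl fun e _ => by ring
      _ ≤ _ := by
        refine Finset.sum_le_sum fun e he => ?_
        exact mul_le_mul_of_nonneg_right (hw e' e (Finset.ne_of_mem_erase he).symm).le hpos.le
  rw [Finset.sum_const, Finset.card_erase_of_mem (Finset.mem_univ _), Finset.card_univ,
    nsmul_eq_mul] at h5
  have h6 : 0 < p 1 * |m e'| := mul_pos hp1 hpos
  have h7 : (Fintype.card ι : ℚ) ≤ ((Fintype.card ι - 1 : ℕ) : ℚ) :=
    le_of_mul_le_mul_right h5 h6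
  have h8 : Fintype.card ι ≤ Fintype.card ι - 1 := by exact_mod_cast h7
  have h9 : 0 < Fintype.card ι := Fintype.card_pos_iff.2 ⟨e'⟩
  omega

/-- **GRAM.** If the orbit spans a space of large dimension there are linearly independent
cubes. -/
theorem exists_cube (v : V) (s : ℕ)
    (hn : 16 ^ s ≤ Module.finrank ℚ (Submodule.span ℚ (Set.range fun g : H => g • v))) :
    ∃ h : Fin s → H, LinearIndependent ℚ (fun e : Fin s → Bool => wd h e • v) := by
  obtain ⟨p, hp1, hp2, hk⟩ := exists_kernel (H := H) v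
  set n := Module.finrank ℚ (Submodule.span ℚ (Set.range fun g : H => g • v)) with hnd
  have hn1 : 0 < n := lt_of_lt_of_le (by positivity) hn
  have hH : (0 : ℚ) < Fintype.card H := by exact_mod_cast Fintype.card_pos
  have hp0 : 0 < p 1 := by
    have h1 : (0 : ℚ) < p 1 * Fintype.card H := by
      rw [hp1]
      exact_mod_cast hn1
    exact (pos_iff_pos_of_mul_pos h1).2 hH
  have hbad := card_bad hp2 hp0 (2 ^ s)
  set B : Finset H := Finset.univ.filter fun g => p 1 ≤ ((2 ^ s : ℕ) : ℚ) * |p g| with hB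
  have hBc : B.card * n ≤ 4 ^ s * Fintype.card H := by
    have h1 : (B.card : ℚ) * p 1 * Fintype.card H ≤ ((2 ^ s : ℕ) : ℚ) ^ 2 * Fintype.card H :=
      mul_le_mul_of_nonneg_right hbad hH.le
    rw [mul_assoc, hp1] at h1
    have h2 : ((2 ^ s : ℕ) : ℚ) ^ 2 = ((4 ^ s : ℕ) : ℚ) := by
      rw [← Nat.cast_pow, ← pow_mul, mul_comm s 2, pow_mul]
      norm_num
    rw [h2] at h1
    exact_mod_cast h1
  have hlt : 4 ^ s * B.card < 2 * Fintype.card H := by
    by_contra hcon
    push Not at hcon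
    have h1 : 16 ^ s * (2 * Fintype.card H) ≤ n * (4 ^ s * B.card) := Nat.mul_le_mul hn hcon
    have h2 : n * (4 ^ s * B.card) ≤ 4 ^ s * (4 ^ s * Fintype.card H) := by
      calc n * (4 ^ s * B.card) = 4 ^ s * (B.card * n) := by ring
        _ ≤ _ := Nat.mul_le_mul_left _ hBc
    have h3 : 4 ^ s * (4 ^ s * Fintype.card H) = 16 ^ s * Fintype.card H := by
      rw [← mul_assoc, ← mul_pow]
      norm_num
    have h4 : 0 < 16 ^ s * Fintype.card H := by
      have := Fintype.card_pos (α := H)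
      positivity
    have h5 : 16 ^ s * (2 * Fintype.card H) = 2 * (16 ^ s * Fintype.card H) := by ring
    omega
  obtain ⟨h, hh⟩ := exists_good B s hlt s le_rfl
  refine ⟨h, indep_of_kernel hp0 hk _ fun e e' hee => ?_⟩
  have h1 := hh e e' hee
  rw [hB, Finset.mem_filter] at h1
  push Not at h1
  have h2 := h1 (Finset.mem_univ _)
  have h3 : Fintype.card (Fin s → Bool) = 2 ^ s := by
    rw [Fintype.card_pi, Fintype.card_bool, Finset.prod_const, Finset.card_univ, Fintype.card_fin]
  rw [h3]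
  exact h2

end Pool.DynLehmer.LW.Gram
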