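import Pool.Agent.Lib.MP_2194ec_nt.LW.DefsMul
import Pool.Agent.Lib.MP_2194ec_nt.LW.Gram

set_option autoImplicit false

/-!
# Row GRAM
-/

namespace Pool.DynLehmer.LW

/-- **GRAM** -/
theorem gram : GramStatement := by
  intro s H V _ _ _ _ ρ v hn
  let _ : Fintype H := Fintype.ofFinite H
  let _ : DistribMulAction H V :=
    { smul := fun h x => ρ h x
      one_smul := fun x => by
        change ρ 1 x = x
        rw [map_one]
        rfl
      mul_smul := fun g h x => by
        change ρ (g * h) x = ρ g (ρ h x)
        rw [map_mul]
        rfl
      smul_zero := fun h => map_zero (ρ h)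
      smul_add := fun h x y => map_add (ρ h) x y }
  exact Gram.exists_cube (H := H) v s hn.le

end Pool.DynLehmer.LW
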