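import Pool.Agent.Lib.MP_2194ec_nt.LW.Hypk
import Pool.Agent.Lib.MP_2194ec_nt.GAL.R.Mor

set_option autoImplicit false
set_option linter.unusedSectionVars false

/-!
# Row HYPK over the number field
-/

namespace Pool.DynLehmer.LW
open MvPolynomial Pool.DynLehmer Pool.DynLehmer.GS NumberField
open scoped Classical

namespace Hypq

theorem norm_fixed {K L σ : Type} [Field K] [Field L] [Algebra K L] [FiniteDimensional K L]
    [IsGalois K L] (g : MvPolynomial σ L) :
    ∃ n : MvPolynomial σ K, map (algebraMap K L) n =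
      ∏ τ : Gal(L/K), map ((τ : L ≃ₐ[K] L) : L →+* L) g := by
  set N := ∏ τ : Gal(L/K), map ((τ : L ≃ₐ[K] L) : L →+* L) g with hN
  have h1 : ∀ ρ : Gal(L/K), map ((ρ : L ≃ₐ[K] L) : L →+* L) N = N := by
    intro ρ
    rw [hN, map_prod]
    have h2 : ∀ τ : Gal(L/K), map ((ρ : L ≃ₐ[K] L) : L →+* L)
        (map ((τ : L ≃ₐ[K] L) : L →+* L) g) = map (((ρ * τ : Gal(L/K)) : L ≃ₐ[K] L) : L →+* L) g := by
      intro τ
      rw [map_map]
      rfl
    rw [Finset.prod_congr rfl fun τ _ => h2 τ]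
    exact Fintype.prod_equiv (Equiv.mulLeft ρ) _ _ fun τ => rfl
  have h3 : (N.coeffs : Set L) ⊆ Set.range (algebraMap K L) := by
    intro x hx
    rw [Finset.mem_coe, mem_coeffs_iff] at hx
    obtain ⟨t, ht, rfl⟩ := hx
    rw [IsGalois.mem_range_algebraMap_iff_fixed]
    intro ρ
    have h4 := congrArg (coeff t) (h1 ρ)
    rw [coeff_map] at h4
    exact h4
  obtain ⟨n, hn⟩ := mem_range_map_iff_coeffs_subset.2 h3
  exact ⟨n, hn⟩

theorem norm_dvd {K L σ : Type} [Field K] [Field L] [Algebra K L] [FiniteDimensional K L]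
    [IsGalois K L] {Q : MvPolynomial σ K} (hQ : Irreducible Q) {g g' : MvPolynomial σ L}
    (hg : ¬ IsUnit g) (h : map (algebraMap K L) Q = g * g') :
    ∃ n : MvPolynomial σ K, n ≠ 0 ∧ Q ∣ n ∧ n.vars ⊆ g.vars := by
  obtain ⟨n, hn⟩ := norm_fixed (K := K) g
  obtain ⟨n', hn'⟩ := norm_fixed (K := K) g'
  have hinj : Function.Injective (map (algebraMap K L) : MvPolynomial σ K → MvPolynomial σ L) :=
    map_injective _ (algebraMap K L).injective
  have h1 : Q ^ Fintype.card Gal(L/K) = n * n' := by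
    apply hinj
    rw [map_pow, map_mul, hn, hn', ← Finset.prod_mul_distrib, ← Finset.card_univ,
      ← Finset.prod_const]
    refine Finset.prod_congr rfl fun τ _ => ?_
    rw [← map_mul, ← h, map_map]
    have h2 : ((τ : L ≃ₐ[K] L) : L →+* L).comp (algebraMap K L) = algebraMap K L :=
      RingHom.ext fun x => τ.commutes x
    rw [h2]
  have hn0 : n ≠ 0 := by
    rintro rfl
    rw [zero_mul] at h1
    exact pow_ne_zero _ hQ.ne_zero h1
  refine ⟨n, hn0, ?_, ?_⟩
  · obtain ⟨i, _, hi⟩ := (dvd_prime_pow hQ.prime _).1 ⟨n', h1⟩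
    have hi0 : i ≠ 0 := by
      rintro rfl
      rw [pow_zero] at hi
      have h2 : IsUnit n := hi.symm.isUnit isUnit_one
      have h3 := h2.map (map (algebraMap K L))
      rw [hn] at h3
      have h4 : (map (((1 : Gal(L/K)) : L ≃ₐ[K] L) : L →+* L) g) ∣
          ∏ τ : Gal(L/K), map ((τ : L ≃ₐ[K] L) : L →+* L) g :=
        Finset.dvd_prod_of_mem (fun τ : Gal(L/K) => map ((τ : L ≃ₐ[K] L) : L →+* L) g)
          (Finset.mem_univ 1)
      have h5 : map (((1 : Gal(L/K)) : L ≃ₐ[K] L) : L →+* L) g = g := map_id g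
      rw [h5] at h4
      exact hg (isUnit_of_dvd_unit h4 h3)
    exact (dvd_pow_self Q hi0).trans hi.symm.dvd
  · rw [← vars_map_of_injective n (algebraMap K L).injective, hn]
    refine (vars_prod _).trans (Finset.biUnion_subset.2 fun τ _ => ?_)
    exact vars_map _ _

/-- an irreducible polynomial which has a common factor with `g` over the algebraic closure -/
theorem norm_lemma {K Ω σ : Type} [Field K] [Field Ω] [CharZero K] [Algebra K Ω]
    [IsAlgClosure K Ω] {Q : MvPolynomial σ K} (hQ : Irreducible Q)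
    {g g' : MvPolynomial σ Ω} (hg : ¬ IsUnit g) (h : map (algebraMap K Ω) Q = g * g') :
    ∃ n : MvPolynomial σ K, n ≠ 0 ∧ Q ∣ n ∧ n.vars ⊆ g.vars := by
  have hN : Normal K Ω := IsAlgClosure.normal K Ω
  have hA : Algebra.IsAlgebraic K Ω := IsAlgClosure.isAlgebraic
  set M := IntermediateField.adjoin K ((g.coeffs ∪ g'.coeffs : Finset Ω) : Set Ω) with hM
  have hMf : FiniteDimensional K M := IntermediateField.finiteDimensional_adjoin
    (fun x _ => Algebra.IsIntegral.isIntegral x)
  set L := IntermediateField.normalClosure K M Ω with hL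
  have hLf : FiniteDimensional K L := normalClosure.is_finiteDimensional K M Ω
  have hLn : Normal K L := normalClosure.normal K M Ω
  have hLg : IsGalois K L := IsGalois.mk
  have hML : M ≤ L := IntermediateField.le_normalClosure M
  have hsub : ∀ x ∈ g.coeffs ∪ g'.coeffs, x ∈ Set.range (algebraMap L Ω) := fun x hx =>
    ⟨⟨x, hML (IntermediateField.subset_adjoin K _ (Finset.mem_coe.2 hx))⟩, rfl⟩
  obtain ⟨gL, hgL⟩ := mem_range_map_iff_coeffs_subset.2 (show (g.coeffs : Set Ω) ⊆
    Set.range (algebraMap L Ω) from fun x hx => hsub x (Finset.mem_union_left _ hx))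
  obtain ⟨gL', hgL'⟩ := mem_range_map_iff_coeffs_subset.2 (show (g'.coeffs : Set Ω) ⊆
    Set.range (algebraMap L Ω) from fun x hx => hsub x (Finset.mem_union_right _ hx))
  have hinj : Function.Injective (map (algebraMap L Ω) : MvPolynomial σ L → MvPolynomial σ Ω) :=
    map_injective _ (algebraMap L Ω).injective
  have h1 : map (algebraMap K L) Q = gL * gL' := by
    apply hinj
    rw [map_mul, hgL, hgL', ← h, map_map, ← IsScalarTower.algebraMap_eq]
  obtain ⟨n, hn1, hn2, hn3⟩ := norm_dvd hQ (g := gL)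
    (fun hu => hg (by rw [← hgL]; exact hu.map _)) h1
  refine ⟨n, hn1, hn2, hn3.trans ?_⟩
  rw [← hgL, vars_map_of_injective gL (algebraMap L Ω).injective]

theorem gAct_map_eq {K Ω ι : Type} [Field K] [Field Ω] [Algebra K Ω]
    (F : ι → MvPolynomial ι K) (N : Type) [Field N] [Algebra K N] [Algebra Ω N]
    [IsScalarTower K Ω N] :
    gAct (fun i => map (algebraMap K Ω) (F i)) N = gAct F N := by
  funext P i
  exact aeval_map_algebraMap Ω P (F i)

theorem mor_map {K Ω : Type} [Field K] [Field Ω] [Algebra K Ω] {q : ℕ}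
    {F : Fin 2 → MvPolynomial (Fin 2) K} (h : Mor q F) :
    Mor q (fun i => map (algebraMap K Ω) (F i)) where
  hom i := (h.hom i).map _
  ne N _ _ P hP := by
    let _ : Algebra K N := ((algebraMap Ω N).comp (algebraMap K Ω)).toAlgebra
    have : IsScalarTower K Ω N := IsScalarTower.of_algebraMap_eq fun x => rfl
    rw [gAct_map_eq]
    exact h.ne N P hP

end Hypq

/-- an irreducible invariant form over the number field involves at most two of the points -/
theorem hypq (hH : HypkStatement) (hP : PerpStatement) (hC : CntuStatement)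
    (K : Type) [Field K] [NumberField K] (p s : ℕ) (v : FinitePlace K)
    (F : Fin 2 → MvPolynomial (Fin 2) K) (hF : HypR p s v F) (hw : CritW F) (k : ℕ)
    (e : Fin k → ℕ) (Q : MvPolynomial (Fin k × Fin 2) K) (hirr : Irreducible Q) (hQ : MH e Q)
    (m : ℕ) (hm : 1 ≤ m) (hd : Q ∣ (bind₁ (FX F k))^[m] Q) :
    (Finset.univ.filter fun i => 1 ≤ e i).card ≤ 2 := by
  set Ω := AlgebraicClosure K with hΩ
  set F' : Fin 2 → MvPolynomial (Fin 2) Ω := fun i => map (algebraMap K Ω) (F i) with hF'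
  have hMor : Mor (p ^ s) F := mor K p s v F hF
  have hMor' : Mor (p ^ s) F' := Hypq.mor_map hMor
  have hq : 2 ≤ p ^ s := by
    calc 2 ≤ p := hF.prime.two_le
      _ = p ^ 1 := (pow_one p).symm
      _ ≤ p ^ s := Nat.pow_le_pow_right hF.prime.pos hF.pos
  have hper := hP K p s v F hF
  have hcnt := hC K p s v F hF hw
  have hit : ∀ n : ℕ, map (algebraMap K Ω) ((bind₁ (FX F k))^[n] Q) =
      (bind₁ (FX F' k))^[n] (map (algebraMap K Ω) Q) := by
    intro n
    induction n with
    | zero => rfl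
    | succ n ih =>
      rw [Function.iterate_succ_apply', Function.iterate_succ_apply', map_bind₁, ih]
      congr 1
      congr 1
      funext a
      rw [FX, FX, map_rename]
  have hinj : Function.Injective (map (algebraMap K Ω) :
      MvPolynomial (Fin k × Fin 2) K → MvPolynomial (Fin k × Fin 2) Ω) :=
    map_injective _ (algebraMap K Ω).injective
  have hQ' : MH e (map (algebraMap K Ω) Q) := by
    rw [Hypk.mh_iff] at *
    intro i
    have h1 := hQ i
    intro t ht
    rw [coeff_map] at ht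
    exact h1 (fun h => ht (by rw [h, map_zero]))
  obtain ⟨i₀, hi₀⟩ := Hypk.not_all_zero hQ hirr
  have hd' := map_dvd (map (algebraMap K Ω)) hd
  rw [hit] at hd'
  set Φ : MvPolynomial (Fin k × Fin 2) Ω →+* MvPolynomial (Fin k × Fin 2) Ω :=
    (bind₁ (FX F' k)).toRingHom ^ m with hΦ
  have hΦ' : ∀ (j : ℕ) (x : MvPolynomial (Fin k × Fin 2) Ω),
      Φ^[j] x = (bind₁ (FX F' k))^[m * j] x := by
    intro j x
    rw [hΦ, Function.iterate_mul, RingHom.coe_pow]
    rfl
  obtain ⟨g, hg, hgQ, j, hj, hgj⟩ := Hypk.exists_per Φ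
    (fun h => hirr.ne_zero (hinj (by rw [h, map_zero]))) (Hypk.not_unit hQ' hi₀) (by
    have h1 := hΦ' 1 (map (algebraMap K Ω) Q)
    rw [Function.iterate_one, mul_one] at h1
    rw [h1]
    exact hd')
  rw [hΦ'] at hgj
  obtain ⟨e', he', hge'⟩ := Hypk.mh_of_dvd hQ' (fun h => hirr.ne_zero (hinj (by
    rw [h, map_zero]))) hgQ
  have h2 := hH Ω (p ^ s) F' hq hMor' (by
    rw [hF', Hypq.gAct_map_eq F Ω]
    exact hper) hcnt k e' g hg hge' _ (Nat.mul_pos hm hj) hgj
  by_contra hn
  push Not at hn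
  obtain ⟨c, hc, hc'⟩ : ∃ c, 1 ≤ e c ∧ e' c = 0 := by
    by_contra hcon
    push Not at hcon
    have h3 : (Finset.univ.filter fun i => 1 ≤ e i) ⊆ Finset.univ.filter fun i => 1 ≤ e' i := by
      intro x hx
      rw [Finset.mem_filter] at *
      exact ⟨hx.1, Nat.one_le_iff_ne_zero.2 (hcon x hx.2)⟩
    have h4 := Finset.card_le_card h3
    omega
  obtain ⟨g', hg'⟩ := hgQ
  obtain ⟨n, hn0, hn1, hn2⟩ := Hypq.norm_lemma hirr hg.not_isUnit hg'
  have h5 : Hypk.sp c 0 n = n := by
    rw [Hypk.sp]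
    have h6 : ∀ x ∈ n.vars, x.1 ≠ c := by
      intro x hx hxc
      obtain ⟨t, ht, hxt⟩ := (mem_vars_iff_mem_support x).1 (hn2 hx)
      exact (Finsupp.mem_support_iff.1 hxt) (Hypk.zero_of_mh hge' ht (by rw [hxc]; exact hc'))
    have h7 := hom_congr_vars (f₁ := (aeval fun a : Fin k × Fin 2 => if a.1 = c then
      (C ((0 : Fin 2 → K) a.2) : MvPolynomial (Fin k × Fin 2) K) else X a).toRingHom)
      (f₂ := RingHom.id _) (p₁ := n) (p₂ := n) ?_ (fun x hx _ => ?_) rfl
    · exact h7
    · ext x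
      simp
    · show aeval _ (X x) = X x
      rw [aeval_X, if_neg (h6 x hx)]
  have h8 := map_dvd (Hypk.sp (Ω := K) c 0) hn1
  rw [Hypk.sp_zero hQ hc, h5, zero_dvd_iff] at h8
  exact hn0 h8

end Pool.DynLehmer.LW
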