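import Pool.Agent.Lib.MP_2194ec_nt.LW.ClA

set_option autoImplicit false
set_option linter.unusedSectionVars false

/-!
# Row CLSK, part 2: the generic point
-/

namespace Pool.DynLehmer.LW
open MvPolynomial Pool.DynLehmer Pool.DynLehmer.GS
open scoped Classical

namespace Cl

variable {K : Type} [Field K] {k : ℕ}

/-- the properties of the generic point -/
structure GP (K : Type) [Field K] (k : ℕ) (F : Fin 2 → MvPolynomial (Fin 2) K) (m : ℕ)
    (E N : Type) [Field E] [Algebra K E] [Field N] [Algebra K N] (ξ : Fin k → Fin 2 → E)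
    (y : Fin k → Fin 2 → N) : Prop where
  ne : ∀ i, ξ i ≠ 0
  inv : ∀ (e : Fin k → ℕ) (Q : MvPolynomial (Fin k × Fin 2) K), MH e Q →
    aeval (uc ξ) Q = 0 → aeval (uc ξ) ((bind₁ (FX F k))^[m] Q) = 0
  spec : ∀ (e : Fin k → ℕ) (Q : MvPolynomial (Fin k × Fin 2) K), MH e Q →
    aeval (uc ξ) Q = 0 → aeval (uc y) Q = 0
  rel : ∃ (e : Fin k → ℕ) (Q : MvPolynomial (Fin k × Fin 2) K), MH e Q ∧ Q ≠ 0 ∧
    aeval (uc ξ) Q = 0

theorem mh_segX (J : Fin k → Fin 2) : MH (fun _ => 1) (segX K k J) := by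
  have h1 := mh_prod Finset.univ (fun i => (Pi.single i 1 : Fin k → ℕ))
    (fun i => (X (i, J i) : MvPolynomial (Fin k × Fin 2) K)) fun i _ => mh_X (i, J i)
  have h2 : ∑ i : Fin k, (Pi.single i 1 : Fin k → ℕ) = fun _ => 1 := by
    funext i
    rw [Finset.sum_apply, Finset.sum_eq_single i]
    · rw [Pi.single_eq_same]
    · intro b _ hb
      rw [Pi.single_eq_of_ne hb.symm]
    · intro h
      exact absurd (Finset.mem_univ _) h
  rw [← h2]
  exact h1

theorem mh_seg {f : MvPolynomial (Fin k → Fin 2) K} {n : ℕ} (hf : f.IsHomogeneous n) :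
    MH (fun _ => n) (bind₁ (segX K k) f) := by
  rw [f.as_sum, map_sum]
  refine mh_sum _ _ fun u hu => ?_
  rw [bind_mono]
  have h1 := mh_mul (mh_C (k := k) (coeff u f)) (mh_prod Finset.univ
    (fun J => u J • (fun _ : Fin k => 1)) (fun J => segX K k J ^ u J)
    fun J _ => mh_pow (mh_segX J) (u J))
  have h2 : (0 : Fin k → ℕ) + ∑ J : Fin k → Fin 2, u J • (fun _ : Fin k => 1) = fun _ => n := by
    rw [zero_add]
    funext i
    rw [Finset.sum_apply]
    have h3 : u.degree = n := by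
      rw [Finsupp.degree_eq_weight_one]
      exact hf (mem_support_iff.1 hu)
    rw [← h3, Finsupp.degree_eq_sum]
    refine Finset.sum_congr rfl fun J _ => ?_
    simp
  rw [← h2]
  exact h1

theorem seg_bind {F : Fin 2 → MvPolynomial (Fin 2) K}
    {Fz : (Fin k → Fin 2) → MvPolynomial (Fin k → Fin 2) K}
    (hFz : ∀ I, bind₁ (segX K k) (Fz I) = bind₁ (FX F k) (segX K k I)) (m : ℕ)
    (f : MvPolynomial (Fin k → Fin 2) K) :
    bind₁ (segX K k) ((bind₁ Fz)^[m] f) = (bind₁ (FX F k))^[m] (bind₁ (segX K k) f) := by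
  induction m with
  | zero => rfl
  | succ m ih =>
    rw [Function.iterate_succ_apply', Function.iterate_succ_apply', ← ih, bind₁_bind₁,
      bind₁_bind₁]
    congr 2
    funext I
    exact hFz I

theorem hom_iter {Fz : (Fin k → Fin 2) → MvPolynomial (Fin k → Fin 2) K} {q : ℕ}
    (hz : ∀ I, (Fz I).IsHomogeneous q) {f : MvPolynomial (Fin k → Fin 2) K} {n : ℕ}
    (hf : f.IsHomogeneous n) (m : ℕ) : ((bind₁ Fz)^[m] f).IsHomogeneous (q ^ m * n) := by
  induction m with
  | zero => simpa using hf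
  | succ m ih =>
    rw [Function.iterate_succ_apply', pow_succ', mul_assoc]
    exact ih.aeval Fz hz

/-- an identity of products -/
theorem prod_one_change {R : Type} [CommMonoid R] (i' : Fin k) (a b : R) :
    b * ∏ i : Fin k, (if i = i' then a else b) = b ^ k * a := by
  have h1 : ∏ i : Fin k, (if i = i' then a else b) = a * ∏ _i ∈ Finset.univ.erase i', b := by
    rw [← Finset.mul_prod_erase Finset.univ _ (Finset.mem_univ i'), if_pos rfl]
    congr 1
    refine Finset.prod_congr rfl fun i hi => ?_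
    rw [if_neg (Finset.ne_of_mem_erase hi)]
  have h2 : b * ∏ _i ∈ Finset.univ.erase i', b = b ^ k := by
    rw [Finset.mul_prod_erase Finset.univ (fun _ => b) (Finset.mem_univ i'), Finset.prod_const,
      Finset.card_univ, Fintype.card_fin]
  rw [h1, ← h2, mul_left_comm, mul_comm a, mul_assoc]

theorem seg_rel (I₀ J : Fin k → Fin 2) :
    bind₁ (segX K k) (X I₀ * ∏ i, X (Function.update I₀ i (J i)) - X I₀ ^ k * X J) = 0 := by
  rw [map_sub, map_mul, map_mul, map_prod, map_pow, bind₁_X_right, bind₁_X_right, sub_eq_zero]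
  have h1 : ∏ i, bind₁ (segX K k) (X (Function.update I₀ i (J i))) =
      ∏ i', ∏ i, (if i = i' then X (i', J i') else X (i', I₀ i') :
        MvPolynomial (Fin k × Fin 2) K) := by
    rw [Finset.prod_comm]
    refine Finset.prod_congr rfl fun i _ => ?_
    rw [bind₁_X_right, segX]
    refine Finset.prod_congr rfl fun i' _ => ?_
    by_cases h : i = i'
    · subst h
      rw [if_pos rfl, Function.update_self]
    · rw [if_neg h, Function.update_of_ne (Ne.symm h)]
  rw [h1, segX, segX, ← Finset.prod_mul_distrib, ← Finset.prod_pow, ← Finset.prod_mul_distrib]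
  exact Finset.prod_congr rfl fun i' _ => prod_one_change i' _ _

theorem aeval_hom {ι N : Type} [Fintype ι] [Field N] [Algebra K N] {f : MvPolynomial ι K} {n : ℕ}
    (hf : f.IsHomogeneous n) (c : N) (z : ι → N) :
    aeval (fun j => c * z j) f = c ^ n * aeval z f := by
  rw [aeval_def, aeval_def, eval₂_eq', eval₂_eq', Finset.mul_sum]
  refine Finset.sum_congr rfl fun s hs => ?_
  have h2 : s.degree = n := by
    by_contra hne
    exact (mem_support_iff.1 hs) (hf.coeff_eq_zero hne)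
  have h3 : ∏ k, (c * z k) ^ s k = c ^ n * ∏ k, z k ^ s k := by
    simp_rw [mul_pow]
    rw [Finset.prod_mul_distrib, Finset.prod_pow_eq_pow_sum, ← h2, Finsupp.degree_eq_sum]
  rw [h3]
  ring

theorem iter_ne {q : ℕ} {F : Fin 2 → MvPolynomial (Fin 2) K} (hF : Mor q F) {N : Type} [Field N]
    [Algebra K N] {P : Fin 2 → N} (hP : P ≠ 0) (m : ℕ) : (gAct F N)^[m] P ≠ 0 := by
  induction m with
  | zero => exact hP
  | succ m ih =>
    rw [Function.iterate_succ_apply']
    exact hF.ne N _ ih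

/-- the multiplication by coordinates -/
theorem exists_lift' {e : Fin k → ℕ} {Q : MvPolynomial (Fin k × Fin 2) K} (hQ : MH e Q)
    (j : Fin k → Fin 2) : ∃ f : MvPolynomial (Fin k → Fin 2) K, f.IsHomogeneous (∑ i, e i) ∧
      bind₁ (segX K k) f = Q * ∏ i, X (i, j i) ^ (∑ i', e i' - e i) := by
  refine exists_lift ?_
  have h1 := mh_mul hQ (mh_prod Finset.univ
    (fun i => (∑ i', e i' - e i) • (Pi.single i 1 : Fin k → ℕ))
    (fun i => (X (i, j i) : MvPolynomial (Fin k × Fin 2) K) ^ (∑ i', e i' - e i))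
    fun i _ => mh_pow (mh_X (i, j i)) _)
  have h2 : e + ∑ i, (∑ i', e i' - e i) • (Pi.single i 1 : Fin k → ℕ) =
      fun _ => ∑ i, e i := by
    funext i
    rw [Pi.add_apply, Finset.sum_apply, Finset.sum_eq_single i]
    · rw [Pi.smul_apply, Pi.single_eq_same, smul_eq_mul, mul_one]
      have h3 : e i ≤ ∑ i', e i' := Finset.single_le_sum (fun _ _ => Nat.zero_le _)
        (Finset.mem_univ i)
      omega
    · intro b _ hb
      rw [Pi.smul_apply, Pi.single_eq_of_ne hb.symm, smul_zero]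
    · intro h
      exact absurd (Finset.mem_univ _) h
  rw [← h2]
  exact h1

theorem exists_coord {N : Type} [Field N] {y : Fin k → Fin 2 → N} (hy : ∀ i, y i ≠ 0) :
    ∃ j : Fin k → Fin 2, ∀ i, y i (j i) ≠ 0 := by
  have h : ∀ i, ∃ j, y i j ≠ 0 := fun i => by
    by_contra hcon
    push Not at hcon
    exact hy i (funext hcon)
  choose j hj using h
  exact ⟨j, hj⟩

theorem eval_of_lift {N : Type} [Field N] [Algebra K N] {y : Fin k → Fin 2 → N}
    {Q : MvPolynomial (Fin k × Fin 2) K} {j : Fin k → Fin 2}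
    (hj : ∀ i, y i (j i) ≠ 0) (n : Fin k → ℕ)
    (h : aeval (uc y) (Q * ∏ i, X (i, j i) ^ (n i)) = 0) : aeval (uc y) Q = 0 := by
  rw [map_mul, map_prod] at h
  rcases mul_eq_zero.1 h with h | h
  · exact h
  · exfalso
    rw [Finset.prod_eq_zero_iff] at h
    obtain ⟨i, -, hi⟩ := h
    rw [map_pow, aeval_X] at hi
    exact hj i (eq_zero_of_pow_eq_zero hi)

/-- the generic point of an invariant subvariety -/
theorem exists_gp {q : ℕ} {F : Fin 2 → MvPolynomial (Fin 2) K} (hF : Mor q F)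
    {Fz : (Fin k → Fin 2) → MvPolynomial (Fin k → Fin 2) K} {q' : ℕ}
    (hz : ∀ I, (Fz I).IsHomogeneous q')
    (hFz : ∀ I, bind₁ (segX K k) (Fz I) = bind₁ (FX F k) (segX K k I))
    {I : Ideal (MvPolynomial (Fin k → Fin 2) K)} (hI : I.IsPrime) (hH : HomI I) {m : ℕ}
    (hinv : ∀ f, f ∈ I ↔ (bind₁ Fz : MvPolynomial (Fin k → Fin 2) K →ₐ[K]
      MvPolynomial (Fin k → Fin 2) K)^[m] f ∈ I)
    (hseg : ∀ f, bind₁ (segX K k) f = 0 → f ∈ I)
    (hrel : ∃ f ∈ I, bind₁ (segX K k) f ≠ 0)
    {N : Type} [Field N] [Algebra K N] {y : Fin k → Fin 2 → N} (hy : ∀ i, y i ≠ 0)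
    (hvan : ∀ (f : MvPolynomial (Fin k → Fin 2) K) (n : ℕ), f.IsHomogeneous n → f ∈ I →
      aeval (segk y) f = 0) :
    ∃ (E : Type) (_ : Field E) (_ : Algebra K E) (ξ : Fin k → Fin 2 → E),
      GP K k F m E N ξ y := by
  have := hI
  let R := MvPolynomial (Fin k → Fin 2) K ⧸ I
  let E := FractionRing R
  let ev : MvPolynomial (Fin k → Fin 2) K →ₐ[K] E :=
    (IsScalarTower.toAlgHom K R E).comp (Ideal.Quotient.mkₐ K I)
  have hev : ∀ f, ev f = 0 ↔ f ∈ I := by
    intro f
    have h1 : ev f = algebraMap R E (Ideal.Quotient.mk I f) := rfl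
    rw [h1, ← Ideal.Quotient.eq_zero_iff_mem]
    constructor
    · intro h
      exact (IsFractionRing.injective R E) (h.trans (map_zero _).symm)
    · intro h
      rw [h, map_zero]
  let x : (Fin k → Fin 2) → E := fun J => ev (X J)
  have hx : ∀ f, aeval x f = ev f := fun f => by
    have h1 := aeval_unique ev
    exact (congrArg (fun φ : MvPolynomial (Fin k → Fin 2) K →ₐ[K] E => φ f) h1).symm
  obtain ⟨I₀, hI₀⟩ := exists_coord hy
  have hx0 : x I₀ ≠ 0 := by
    intro h
    have h1 := hvan (X I₀) 1 (isHomogeneous_X K I₀) ((hev _).1 h)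
    rw [aeval_X, segk, Finset.prod_eq_zero_iff] at h1
    obtain ⟨i, -, hi⟩ := h1
    exact hI₀ i hi
  let ξ : Fin k → Fin 2 → E := fun i j => x (Function.update I₀ i j) / x I₀
  have hξ1 : ∀ i, ξ i (I₀ i) = 1 := by
    intro i
    show x (Function.update I₀ i (I₀ i)) / x I₀ = 1
    rw [Function.update_eq_self, div_self hx0]
  have hξ0 : ∀ i, ξ i ≠ 0 := by
    intro i h
    have h1 := hξ1 i
    rw [h] at h1
    exact zero_ne_one h1
  have hsegk : segk ξ = fun J => (x I₀)⁻¹ * x J := by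
    funext J
    have h1 : aeval x (X I₀ * ∏ i, X (Function.update I₀ i (J i)) - X I₀ ^ k * X J :
        MvPolynomial (Fin k → Fin 2) K) = 0 := by
      rw [hx]
      exact (hev _).2 (hseg _ (seg_rel I₀ J))
    rw [map_sub, map_mul, map_mul, map_prod, map_pow, aeval_X, aeval_X, sub_eq_zero] at h1
    simp only [aeval_X] at h1
    have h2 : segk ξ J = (∏ i, x (Function.update I₀ i (J i))) / x I₀ ^ k := by
      show ∏ i, x (Function.update I₀ i (J i)) / x I₀ = _
      rw [Finset.prod_div_distrib, Finset.prod_const, Finset.card_univ, Fintype.card_fin]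
    rw [h2, div_eq_iff (pow_ne_zero _ hx0), inv_mul_eq_div, div_mul_eq_mul_div, eq_div_iff hx0,
      mul_comm _ (x I₀), h1, mul_comm]
  have hzero : ∀ (f : MvPolynomial (Fin k → Fin 2) K) (n : ℕ), f.IsHomogeneous n →
      (aeval (segk ξ) f = 0 ↔ f ∈ I) := by
    intro f n hf
    rw [hsegk, aeval_hom hf, hx, mul_eq_zero, hev]
    constructor
    · rintro (h | h)
      · exact absurd h (pow_ne_zero _ (inv_ne_zero hx0))
      · exact h
    · exact Or.inr
  refine ⟨E, inferInstance, inferInstance, ξ, hξ0, ?_, ?_, ?_⟩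
  · intro e Q hQ h0
    have hne : ∀ i, (gAct F E)^[m] (ξ i) ≠ 0 := fun i => iter_ne hF (hξ0 i) m
    obtain ⟨j, hj⟩ := exists_coord hne
    obtain ⟨f, hf, hfQ⟩ := exists_lift' hQ j
    have h1 : f ∈ I := by
      rw [← hzero f _ hf, aeval_seg, hfQ, map_mul, h0, zero_mul]
    have h2 := (hzero _ _ (hom_iter hz hf m)).2 ((hinv f).1 h1)
    rw [aeval_seg, seg_bind hFz, hfQ, aeval_iter] at h2
    rw [aeval_iter]
    exact eval_of_lift hj _ h2
  · intro e Q hQ h0
    obtain ⟨j, hj⟩ := exists_coord hy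
    obtain ⟨f, hf, hfQ⟩ := exists_lift' hQ j
    have h1 : f ∈ I := by
      rw [← hzero f _ hf, aeval_seg, hfQ, map_mul, h0, zero_mul]
    have h2 := hvan f _ hf h1
    rw [aeval_seg, hfQ] at h2
    exact eval_of_lift hj _ h2
  · obtain ⟨f, hf, hf0⟩ := hrel
    obtain ⟨n, hn⟩ : ∃ n, bind₁ (segX K k) (homogeneousComponent n f) ≠ 0 := by
      by_contra hcon
      push Not at hcon
      apply hf0
      rw [← sum_homogeneousComponent f, map_sum]
      exact Finset.sum_eq_zero fun n _ => hcon n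
    refine ⟨fun _ => n, bind₁ (segX K k) (homogeneousComponent n f),
      mh_seg (homogeneousComponent_isHomogeneous n f), hn, ?_⟩
    rw [← aeval_seg]
    exact (hzero _ _ (homogeneousComponent_isHomogeneous n f)).2 (hH f hf n)

end Cl

end Pool.DynLehmer.LW
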