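import Pool.Agent.Lib.MP_2194ec_nt.LW.DefsPas

set_option autoImplicit false

/-!
# The primitive almost simple exception in terms of fields
-/

namespace Pool.DynLehmer.LW

namespace PasFld

variable {K L : Type} [Field K] [Field L] [Algebra K L] [FiniteDimensional K L] [IsGalois K L]

theorem finrank_fixed (S : Subgroup (L ≃ₐ[K] L)) :
    Module.finrank K (IntermediateField.fixedField S) = S.index := by
  rw [IntermediateField.finrank_eq_fixingSubgroup_index,
    IntermediateField.fixingSubgroup_fixedField]

theorem relfinrank_fixed {S W : Subgroup (L ≃ₐ[K] L)} (h : S ≤ W) :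
    IntermediateField.relfinrank (IntermediateField.fixedField W)
      (IntermediateField.fixedField S) = S.relIndex W := by
  have h1 := IntermediateField.finrank_bot_mul_relfinrank
    (IntermediateField.fixedField_le h : IntermediateField.fixedField W ≤
      IntermediateField.fixedField S)
  rw [finrank_fixed, finrank_fixed, ← Subgroup.relIndex_mul_index h, mul_comm] at h1
  exact Nat.eq_of_mul_eq_mul_right (Nat.pos_of_ne_zero Subgroup.FiniteIndex.index_ne_zero) h1

omit [FiniteDimensional K L] [IsGalois K L] in
theorem iSup_map_fixing {k : ℕ} (M : IntermediateField K L) (s : Fin k → (L ≃ₐ[K] L)) :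
    (⨆ i, M.map (s i : L →ₐ[K] L)).fixingSubgroup =
      ⨅ i, M.fixingSubgroup.map (MulAut.conj (s i)).toMonoidHom := by
  have h0 : ∀ i, (M.map (s i : L →ₐ[K] L)).fixingSubgroup =
      M.fixingSubgroup.map (MulAut.conj (s i)).toMonoidHom :=
    fun i => IsGalois.map_fixingSubgroup (E := M) (s i)
  apply le_antisymm
  · refine le_iInf fun i => ?_
    rw [← h0]
    exact IntermediateField.fixingSubgroup_antitone (le_iSup (fun i => M.map (s i : L →ₐ[K] L)) i)
  · rw [← IntermediateField.le_iff_le]
    refine iSup_le fun i => ?_
    rw [IntermediateField.le_iff_le, h0]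
    exact iInf_le _ i

/-- The degree of a compositum of conjugates. -/
theorem finrank_iSup {k : ℕ} (M : IntermediateField K L) (s : Fin k → (L ≃ₐ[K] L)) :
    Module.finrank K (⨆ i, M.map (s i : L →ₐ[K] L) : IntermediateField K L) =
      (⨅ i, M.fixingSubgroup.map (MulAut.conj (s i)).toMonoidHom).index := by
  rw [IntermediateField.finrank_eq_fixingSubgroup_index, iSup_map_fixing]

/-- The exception in terms of fields: `M` is the fixed field of `S`. -/
theorem pas_fields {S : Subgroup (L ≃ₐ[K] L)} {A R : ℕ} (h : Pas S A R)
    {M : IntermediateField K L} (hM : M.fixingSubgroup = S) :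
    ∃ E F : IntermediateField K L, E < F ∧ F ≤ M ∧
      (∀ M' : IntermediateField K L, E ≤ M' → M' ≤ F → M' = E ∨ M' = F) ∧
      IntermediateField.relfinrank F M ≤ R ∧
      Module.finrank K E ^ A < Module.finrank K M ∧
      ∃ T : Subgroup (E.fixingSubgroup ⧸
          (F.fixingSubgroup.subgroupOf E.fixingSubgroup).normalCore),
        T.Normal ∧ IsSimpleGroup T ∧ Subgroup.centralizer (T : Set (E.fixingSubgroup ⧸
          (F.fixingSubgroup.subgroupOf E.fixingSubgroup).normalCore)) = ⊥ ∧
        Module.finrank K M ^ A < Nat.card T ∧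
        ∀ n : ℕ, Nonempty (T ≃* alternatingGroup (Fin n)) →
          Module.finrank K M ^ (A - 1) < n ^ A := by
  have hMS : M = IntermediateField.fixedField S := by
    rw [← hM, IsGalois.fixedField_fixingSubgroup M]
  obtain ⟨U, W, hSW, hWU, hmax, hrel, hidx, T, hT⟩ := h
  subst hMS
  rw [finrank_fixed]
  refine ⟨IntermediateField.fixedField U, IntermediateField.fixedField W, ?_, ?_, ?_, ?_, ?_, ?_⟩
  · refine lt_of_le_of_ne (IntermediateField.fixedField_le hWU.le) fun h1 => ?_
    have h2 := congrArg IntermediateField.fixingSubgroup h1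
    rw [IntermediateField.fixingSubgroup_fixedField,
      IntermediateField.fixingSubgroup_fixedField] at h2
    exact hWU.ne h2.symm
  · exact IntermediateField.fixedField_le hSW
  · intro M' hM1 hM2
    have e1 : W ≤ M'.fixingSubgroup := by
      have h1 := IntermediateField.fixingSubgroup_le hM2
      rwa [IntermediateField.fixingSubgroup_fixedField] at h1
    have e2 : M'.fixingSubgroup ≤ U := by
      have h1 := IntermediateField.fixingSubgroup_le hM1
      rwa [IntermediateField.fixingSubgroup_fixedField] at h1
    have e3 : IntermediateField.fixedField M'.fixingSubgroup = M' :=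
      IsGalois.fixedField_fixingSubgroup M'
    rcases hmax _ e1 e2 with h1 | h1
    · right
      rw [← e3, h1]
    · left
      rw [← e3, h1]
  · rw [relfinrank_fixed hSW]
    exact hrel
  · rw [finrank_fixed]
    exact hidx
  · have key : ∀ U' W' : Subgroup (L ≃ₐ[K] L), U' = U → W' = W →
        ∃ T : Subgroup (U' ⧸ (W'.subgroupOf U').normalCore), T.Normal ∧ IsSimpleGroup T ∧
          Subgroup.centralizer (T : Set (U' ⧸ (W'.subgroupOf U').normalCore)) = ⊥ ∧
          S.index ^ A < Nat.card T ∧
          ∀ n : ℕ, Nonempty (T ≃* alternatingGroup (Fin n)) → S.index ^ (A - 1) < n ^ A := by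
      rintro U' W' rfl rfl
      exact ⟨T, hT⟩
    exact key _ _ (IntermediateField.fixingSubgroup_fixedField U)
      (IntermediateField.fixingSubgroup_fixedField W)

end PasFld

end Pool.DynLehmer.LW
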