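import Pool.Agent.Lib.MP_2194ec_nt.RamL
import Pool.Agent.Lib.MP_2194ec_nt.GAL.R.Mor
import Pool.Agent.Lib.MP_2194ec_nt.LP.Vpfin

set_option autoImplicit false

/-!
# A near Lehmer bound for all wandering points of the projective line

For a map `F` of the projective line of degree `q = p ^ s` over a number field `K` which has purely
inseparable good reduction at a place above `p` there is `c > 0` such that the canonical height of
every wandering point of degree `D` over `K` is at least `c / D * exp (- √(log D) / c)`.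
-/

namespace Pool.DynLehmer.LW.Near
open MvPolynomial NumberField Filter Topology Pool.DynLehmer Pool.DynLehmer.GS Pool.DynLehmer.LP
open scoped Classical

/-- the lower bound in the form with one constant -/
theorem exp_bound {A B : ℝ} (hA : 0 < A) (hB : 0 < B) : ∃ c : ℝ, 0 < c ∧
    ∀ D : ℝ, 1 ≤ D → c / D * Real.exp (-(√(Real.log D) / c)) ≤
      A / (D * 1) * Real.exp (-(B * 1 * (1 + (Real.log D) ^ ((1 : ℝ) / (1 + 1))))) := by
  refine ⟨min (A * Real.exp (-B)) (1 / B), lt_min (by positivity) (by positivity), fun D hD => ?_⟩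
  set c : ℝ := min (A * Real.exp (-B)) (1 / B) with hcdef
  have hc : 0 < c := lt_min (by positivity) (by positivity)
  have hD0 : 0 < D := by linarith
  have h1 : (Real.log D) ^ ((1 : ℝ) / (1 + 1)) = √(Real.log D) := by
    rw [Real.sqrt_eq_rpow]
    norm_num
  rw [h1]
  have h2 : A / (D * 1) * Real.exp (-(B * 1 * (1 + √(Real.log D)))) =
      A * Real.exp (-B) / D * Real.exp (-(B * √(Real.log D))) := by
    have h3 : -(B * 1 * (1 + √(Real.log D))) = -B + -(B * √(Real.log D)) := by ring
    rw [h3, Real.exp_add]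
    field_simp
  rw [h2]
  have h4 : c ≤ A * Real.exp (-B) := min_le_left _ _
  have h5 : B ≤ 1 / c := by
    rw [le_div_iff₀ hc, mul_comm, ← le_div_iff₀ hB]
    exact min_le_right _ _
  have h6 : B * √(Real.log D) ≤ √(Real.log D) / c := by
    rw [div_eq_mul_one_div, mul_comm]
    exact mul_le_mul_of_nonneg_left h5 (Real.sqrt_nonneg _)
  refine mul_le_mul (div_le_div_of_nonneg_right h4 hD0.le) (Real.exp_le_exp.2 (by linarith))
    (Real.exp_pos _).le (by positivity)

/-- the lower bound for a smaller constant -/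
theorem near_mono {c₀ c D : ℝ} (h₀ : 0 < c₀) (h : c₀ ≤ c) (hD : 0 ≤ D) :
    c₀ / D * Real.exp (-(√(Real.log D) / c₀)) ≤ c / D * Real.exp (-(√(Real.log D) / c)) := by
  have hc : 0 < c := h₀.trans_le h
  have h1 : √(Real.log D) / c ≤ √(Real.log D) / c₀ :=
    div_le_div_of_nonneg_left (Real.sqrt_nonneg _) h₀ h
  exact mul_le_mul (div_le_div_of_nonneg_right h hD) (Real.exp_le_exp.2 (by linarith))
    (Real.exp_pos _).le (by positivity)

/-- a prime of `K` over `v` is unramified over `K` -/
theorem unram {K : Type} [Field K] [NumberField K] (v : FinitePlace K) (Q : Ideal (𝓞 K))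
    (hQ : Q.LiesOver v.maximalIdeal.asIdeal) :
    ¬ (v.maximalIdeal.asIdeal.map (algebraMap (𝓞 K) (𝓞 K)) ≤ Q ^ (1 + 1)) := by
  have h1 : (algebraMap (𝓞 K) (𝓞 K)) = RingHom.id _ := by
    ext x
    rfl
  have h2 : v.maximalIdeal.asIdeal = Q := by
    have h3 := hQ.over
    rw [h3]
    unfold Ideal.under
    rw [h1]
    exact Ideal.comap_id Q
  rw [h1, Ideal.map_id, ← h2]
  intro h4
  have h5 := Ideal.pow_lt_self v.maximalIdeal.asIdeal v.maximalIdeal.ne_bot
    v.maximalIdeal.isPrime.ne_top (1 + 1) (by norm_num)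
  exact absurd h4 (not_le_of_gt h5)

/-- A point of the projective line has a representative over the field generated by it. -/
theorem exists_rep {K N : Type} [Field K] [Field N] [Algebra K N] (x : Fin 2 → N) (hx : x ≠ 0) :
    ∃ y : Fin 2 → IntermediateField.adjoin K {x 0 / x 1}, y ≠ 0 ∧
      Prl x (fun i => ((y i : IntermediateField.adjoin K {x 0 / x 1}) : N)) := by
  by_cases h1 : x 1 = 0
  · have h0 : x 0 ≠ 0 := by
      intro h0
      apply hx
      funext i
      fin_cases i
      · exact h0
      · exact h1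
    refine ⟨![1, 0], fun h => one_ne_zero (congrFun h 0), x 0, h0, ?_⟩
    funext i
    fin_cases i
    · exact (mul_one (x 0)).symm
    · show x 1 = x 0 * 0
      rw [h1, mul_zero]
  · refine ⟨![⟨x 0 / x 1, IntermediateField.mem_adjoin_simple_self K _⟩, 1],
      fun h => one_ne_zero (congrFun h 1), x 1, h1, ?_⟩
    funext i
    fin_cases i
    · show x 0 = x 1 * (x 0 / x 1)
      rw [mul_div_cancel₀ _ h1]
    · exact (mul_one (x 1)).symm

/-- **The near Lehmer bound** for maps of the projective line with purely inseparable good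
reduction: it holds for all wandering points. -/
theorem near_lehmer (K : Type) [Field K] [NumberField K] (p s : ℕ) (v : FinitePlace K)
    (F : Fin 2 → MvPolynomial (Fin 2) K) (hR : HypR p s v F) :
    ∃ c : ℝ, 0 < c ∧ ∀ (N : Type) [Field N] [NumberField N] [Algebra K N] (x : Fin 2 → N), x ≠ 0 →
      WandP F x → ∃ h : ℝ, HasHt (p ^ s) F x h ∧
        c / (dg K x : ℝ) * Real.exp (-(√(Real.log (dg K x : ℝ)) / c)) ≤ h := by
  have hM : Mor (p ^ s) F := Pool.DynLehmer.GS.mor K p s v F hR
  have hq : 2 ≤ p ^ s := hR.prime.two_le.trans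
    (Nat.le_self_pow (by have := hR.pos; omega) p)
  obtain ⟨A, B, hA, hB, H⟩ := rel_galois2 (ι := Fin 2) (by simp) hq F hR.hom
    (fun z hz => by
      by_contra hne
      exact hM.ne (AlgebraicClosure K) z hne (funext hz))
    hR.prime hR.pos v F hR.hom hR.above hR.int hR.red hR.det (fun i j => mul_comm _ _) 1 le_rfl
  obtain ⟨c, hc, Hc⟩ := exp_bound (A := A) (B := B) hA hB
  refine ⟨c, hc, ?_⟩
  intro N _ _ _ x hx hw
  have hfd : FiniteDimensional K N := Module.Finite.of_restrictScalars_finite ℚ K N
  have hNL : NumberField (IntermediateField.adjoin K {x 0 / x 1}) :=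
    NumberField.of_module_finite K _
  obtain ⟨y, hy, hxy⟩ := exists_rep (K := K) x hx
  have hwy : WandP F y := by
    have h1 : WandP F (fun i => ((y i : IntermediateField.adjoin K {x 0 / x 1}) : N)) :=
      Bas.wandP_prl hR.hom (Bas.prl_symm hxy) hw
    exact (Bas.wandP_map (F := F) (IntermediateField.adjoin K {x 0 / x 1}).val).1 h1
  obtain ⟨h, hh, hle⟩ := H 1 le_rfl K (fun g => by
      refine (Set.ncard_le_one (Set.toFinite _)).2 fun a _ b _ => ?_
      exact AlgEquiv.ext fun z => (a.commutes z).trans (b.commutes z).symm) 1 le_rfl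
    (fun Q _ hQ => unram v Q hQ) (IntermediateField.adjoin K {x 0 / x 1}) y hy hwy
  refine ⟨h, ?_, ?_⟩
  · refine VpAux.hasHt_prl hR.hom (Bas.prl_symm hxy) ?_
    unfold HasHt
    refine hh.congr fun n => ?_
    congr 1
    have h1 := gAct_iter_map F (IntermediateField.adjoin K {x 0 / x 1}).val n y
    change (gAct F N)^[n] (fun i => ((y i : IntermediateField.adjoin K {x 0 / x 1}) : N)) = _ at h1
    rw [h1]
    exact (logHeight_hom ((IntermediateField.adjoin K {x 0 / x 1}).val :
      (IntermediateField.adjoin K {x 0 / x 1}) →+* N) _).symm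
  · refine le_trans (Hc _ ?_) (le_trans (le_of_eq ?_) hle)
    · exact_mod_cast (Module.finrank_pos : 0 < Module.finrank K
        (IntermediateField.adjoin K {x 0 / x 1}))
    · unfold dg
      norm_num [Fintype.card_fin]

end Pool.DynLehmer.LW.Near
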