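import Pool.Agent.Lib.MP_2194ec_nt.LW.DefsX

set_option autoImplicit false

/-!
# The Lehmer bound for algebraic numbers whose Galois closure is solvable: statements of the rows
-/

namespace Pool.DynLehmer.LW
open MvPolynomial NumberField Filter Topology Pool.DynLehmer Pool.DynLehmer.SB Pool.DynLehmer.SP
  Pool.DynLehmer.GS Pool.DynLehmer.LP
open scoped Classical

/-! ## The analytic part, for every `F` -/

/-- The tuple lies on no proper invariant subvariety of the product of projective lines. -/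
def FreeT {K : Type} [Field K] (q : ℕ) (F : Fin 2 → MvPolynomial (Fin 2) K) {N : Type} [Field N]
    [Algebra K N] {k : ℕ} (y : Fin k → Fin 2 → N) : Prop :=
  ∀ Fz : (Fin k → Fin 2) → MvPolynomial (Fin k → Fin 2) K,
    (∀ I, (Fz I).IsHomogeneous q) →
    (∀ I, bind₁ (segX K k) (Fz I) = bind₁ (FX F k) (segX K k I)) →
    ∀ I : Ideal (MvPolynomial (Fin k → Fin 2) K), I.IsPrime → HomI I → ∀ m : ℕ, 1 ≤ m →
    (∀ f, f ∈ I ↔ (bind₁ Fz : MvPolynomial (Fin k → Fin 2) K →ₐ[K]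
      MvPolynomial (Fin k → Fin 2) K)^[m] f ∈ I) →
    (∀ f, bind₁ (segX K k) f = 0 → f ∈ I) →
    (∃ f ∈ I, bind₁ (segX K k) f ≠ 0) →
    ¬ ∀ (f : MvPolynomial (Fin k → Fin 2) K) (n : ℕ), f.IsHomogeneous n → f ∈ I →
      aeval (segk y) f = 0

/-- Row GENM: as `FinY.y_gal` (without `CritW`), for free tuples. -/
def GenmStatement : Prop :=
  ∀ (K : Type) [Field K] [NumberField K] (p s : ℕ) (v : FinitePlace K)
    (F : Fin 2 → MvPolynomial (Fin 2) K), HypR p s v F → ∀ k₀ : ℕ, ∀ δ : ℝ, 0 < δ →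
    ∃ c : ℝ, 0 < c ∧ ∀ (N : Type) [Field N] [NumberField N] [Algebra K N] [IsGalois K N] (a : N),
      WandP F ![a, 1] →
      (∀ n : ℕ, 1 / δ < (dg K ((gAct F N)^[n] ![a, 1]) : ℝ) →
        ((p ^ s : ℕ) : ℝ) ^ n * (dg K ((gAct F N)^[n] ![a, 1]) : ℝ) ^ (1 - δ) ≤ dg K ![a, 1] →
        ∃ (k : ℕ) (b : Fin k → N), 2 ≤ k ∧ k ≤ k₀ ∧ (∀ i, ∃ σ : N ≃ₐ[K] N, σ a = b i) ∧
          (((p ^ s : ℕ) : ℝ) ^ n *
              (dgk K (fun i => (gAct F N)^[n] ![b i, 1]) : ℝ) ^ (1 - δ) ≤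
              dgk K (fun i => ![b i, 1]) →
            ((p ^ s : ℕ) : ℝ) ^ n *
              (dgk K (fun i => (gAct F N)^[n] ![b i, 1]) : ℝ) ^ (1 / (k : ℝ) + δ) ≤
              dg K ![a, 1]) ∧
          ∀ m : ℕ, ((p ^ s : ℕ) : ℝ) ^ m ≤ (dg K ((gAct F N)^[n] ![a, 1]) : ℝ) ^ δ →
            FreeT (p ^ s) F (fun i => (gAct F N)^[n + m] ![b i, 1])) →
      ∃ h : ℝ, HasHt (p ^ s) F ![a, 1] h ∧ c / (dg K ![a, 1] : ℝ) ≤ h

/-! ## Power maps -/

/-- the power map -/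
noncomputable def powF (K : Type) [Field K] (q : ℕ) : Fin 2 → MvPolynomial (Fin 2) K :=
  fun i => X i ^ q

/-- Row CLSM (from MULB, TRD): multiplicatively independent numbers are free for the power map. -/
def ClsmStatement : Prop :=
  ∀ (K : Type) [Field K] [CharZero K] (q : ℕ), 2 ≤ q → ∀ (N : Type) [Field N] [Algebra K N]
    (k : ℕ) (b : Fin k → N), (∀ i, b i ≠ 0) → (∀ l : Fin k → ℤ, ∏ i, b i ^ l i = 1 → l = 0) →
    FreeT q (powF K q) (fun i => ![b i, 1])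

/-- Row MULB (part of CLSM): the exponents of a factor `g` of a polynomial `G` which divides the
`G (X ^ (q ^ j))` are on a line. -/
def MulbStatement : Prop :=
  ∀ (Ω σ : Type) [Field Ω] [CharZero Ω] [IsAlgClosed Ω] [Fintype σ] (q : ℕ), 2 ≤ q →
    ∀ G g : MvPolynomial σ Ω, G ≠ 0 → (∀ j : ℕ, G ∣ expand (q ^ j) G) → Irreducible g → g ∣ G →
    (∀ a, ¬ Associated g (X a)) →
    ∀ r ∈ g.support, ∀ t ∈ g.support, ∀ u ∈ g.support, ∀ a b : σ,
      ((t a : ℤ) - r a) * ((u b : ℤ) - r b) = ((t b : ℤ) - r b) * ((u a : ℤ) - r a)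

/-! ## Cubes of independent vectors -/

/-- the products `h₀ ^ e₀ * ... ` -/
def cube {H : Type} [Group H] {s : ℕ} (h : Fin s → H) (e : Fin s → Bool) : H :=
  (List.ofFn fun i => if e i then h i else 1).prod

/-- Row GRAM: if the module generated by `v` is large there is an independent cube. -/
def GramStatement : Prop :=
  ∀ (s : ℕ) (H V : Type) [Group H] [Finite H] [AddCommGroup V] [Module ℚ V]
    (ρ : Representation ℚ H V) (v : V),
    16 ^ s < Module.finrank ℚ (Submodule.span ℚ (Set.range fun h => ρ h v)) →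
    ∃ h : Fin s → H, LinearIndependent ℚ (fun e : Fin s → Bool => ρ (cube h e) v)

/-- Row MODT: a bounded dimension gives a bounded orbit. -/
def ModtStatement : Prop :=
  ∀ (n : ℕ) (H V : Type) [Group H] [Finite H] [AddCommGroup V] [Module ℚ V]
    (ρ : Representation ℚ H V) (v : V),
    Module.finrank ℚ (Submodule.span ℚ (Set.range fun h => ρ h v)) ≤ n →
    Nat.card (Set.range fun h => ρ h v) ≤ 3 ^ (n ^ 2)

/-- Row GRPM (from GRAM, MODT): tuples with independent vectors and a small orbit. -/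
def GrpmStatement : Prop :=
  ∀ A : ℕ, ∃ s R : ℕ, 1 ≤ s ∧ ∀ B : ℕ, ∃ C : ℕ, ∀ (G Ω V : Type) [Group G] [Finite G]
    [Fintype Ω] [MulAction G Ω] [AddCommGroup V] [Module ℚ V] (ρ : Representation ℚ G V)
    (f : Ω → V), (∀ (g : G) (x : Ω), f (g • x) = ρ g (f x)) → Function.Injective f →
    MulAction.IsPretransitive G Ω → ∀ (x : Ω) (H L : Subgroup G), L ≤ H →
    (∀ g ∈ MulAction.stabilizer G x, ∀ h ∈ H, g * h * g⁻¹ ∈ H) →
    (∀ g ∈ MulAction.stabilizer G x, ∀ h ∈ L, g * h * g⁻¹ ∈ L) →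
    (∀ h ∈ H, ∀ l ∈ L, h * l * h⁻¹ ∈ L) →
    (∀ z ∈ MulAction.orbit H x, Nat.card (MulAction.orbit L z) ≤ B) →
    L.relIndex H ≤ (Fintype.card Ω) ^ A → R < Nat.card (MulAction.orbit H x) →
    ∃ y : Fin (2 ^ s) → Ω, (∃ i, y i = x) ∧ LinearIndependent ℚ (fun i => f (y i)) ∧
      (Nat.card (MulAction.orbit G y)) ^ 2 ≤ C * (Fintype.card Ω) ^ (2 ^ s)

/-- Row GRPS (from GRPM): solvable groups. -/
def GrpsStatement : Prop :=
  ∃ s C : ℕ, 1 ≤ s ∧ ∀ (G Ω V : Type) [Group G] [Finite G]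
    [Fintype Ω] [MulAction G Ω] [AddCommGroup V] [Module ℚ V] (ρ : Representation ℚ G V)
    (f : Ω → V), (∀ (g : G) (x : Ω), f (g • x) = ρ g (f x)) → Function.Injective f →
    MulAction.IsPretransitive G Ω → Group.IsSolvable G → C ≤ Fintype.card Ω → ∀ x : Ω,
    ∃ y : Fin (2 ^ s) → Ω, (∃ i, y i = x) ∧ LinearIndependent ℚ (fun i => f (y i)) ∧
      (Nat.card (MulAction.orbit G y)) ^ 2 ≤ C * (Fintype.card Ω) ^ (2 ^ s)

/-! ## The end -/

/-- Row NORM: the product of the conjugates which differ from `a` by a root of unity. -/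
def NormStatement : Prop :=
  ∀ (K : Type) [Field K] [NumberField K] (N : Type) [Field N] [NumberField N] [Algebra K N]
    [IsGalois K N] (a : N), a ≠ 0 →
    ∃ (b : N) (m : ℕ), 1 ≤ m ∧ b ≠ 0 ∧
      (∀ σ : N ≃ₐ[K] N, σ b = b ↔ ∃ r : ℕ, 1 ≤ r ∧ (σ a) ^ r = a ^ r) ∧
      (∀ σ : N ≃ₐ[K] N, (∃ r : ℕ, 1 ≤ r ∧ (σ b) ^ r = b ^ r) → σ b = b) ∧
      ((∀ n : ℕ, 1 ≤ n → a ^ n ≠ 1) → ∀ n : ℕ, 1 ≤ n → b ^ n ≠ 1) ∧
      m * Module.finrank K (IntermediateField.adjoin K {b}) =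
        Module.finrank K (IntermediateField.adjoin K {a}) ∧
      Height.logHeight ![b, 1] = m * Height.logHeight ![a, 1]

/-- Row REPM: the multiplicative group as a rational representation of the Galois group. -/
def RepmStatement : Prop :=
  ∀ (K N : Type) [Field K] [Field N] [Algebra K N],
    ∃ (V : Type) (_ : AddCommGroup V) (_ : Module ℚ V) (ρ : Representation ℚ (N ≃ₐ[K] N) V)
      (f : N → V), (∀ (σ : N ≃ₐ[K] N) (z : N), z ≠ 0 → f (σ z) = ρ σ (f z)) ∧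
      (∀ z z' : N, z ≠ 0 → z' ≠ 0 → f z = f z' → ∃ r : ℕ, 1 ≤ r ∧ z ^ r = z' ^ r) ∧
      ∀ (k : ℕ) (y : Fin k → N), (∀ i, y i ≠ 0) → LinearIndependent ℚ (fun i => f (y i)) →
        ∀ l : Fin k → ℤ, ∏ i, y i ^ l i = 1 → l = 0

/-- Row FINM (from GENM, CLSM, GRPS, NORM, REPM, LIFT, MOR): the Lehmer bound for algebraic
numbers whose Galois closure is solvable. -/
def MulStatement : Prop :=
  ∀ (K : Type) [Field K] [NumberField K], ∃ c : ℝ, 0 < c ∧
    ∀ (N : Type) [Field N] [NumberField N] [Algebra K N] [IsGalois K N] (a : N), a ≠ 0 →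
      (∀ n : ℕ, 1 ≤ n → a ^ n ≠ 1) → Group.IsSolvable (N ≃ₐ[K] N) →
      c / (Module.finrank K (IntermediateField.adjoin K {a}) : ℝ) ≤
        Height.logHeight ![a, 1] / (Module.finrank ℚ N : ℝ)

end Pool.DynLehmer.LW
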