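import Pool.Agent.Lib.MP_2194ec_nt.LW.Finy
import Pool.Agent.Lib.MP_2194ec_nt.LW.DefsMul

set_option autoImplicit false
set_option linter.unusedSectionVars false

/-!
# The bound for free tuples, for every map with purely inseparable reduction (row GENM)
-/

namespace Pool.DynLehmer.LW
open MvPolynomial NumberField Filter Topology Pool.DynLehmer Pool.DynLehmer.SB Pool.DynLehmer.SP
  Pool.DynLehmer.GS Pool.DynLehmer.LP
open scoped Classical

namespace GenmAux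

theorem aeval_smul_form {K N : Type} [Field K] [Field N] [Algebra K N] {τ : Type} [Fintype τ]
    {n : ℕ} {f : MvPolynomial τ K} (hf : f.IsHomogeneous n) (c : N) (x : τ → N) :
    aeval (c • x) f = c ^ n * aeval x f := by
  rw [aeval_def, aeval_def, eval₂_eq', eval₂_eq', Finset.mul_sum]
  refine Finset.sum_congr rfl fun t ht => ?_
  have h1 : ∑ i, t i = n := by
    have := hf (mem_support_iff.1 ht)
    simpa [Finsupp.weight_apply, Finsupp.sum_fintype] using this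
  have h2 : ∏ i, (c • x) i ^ t i = c ^ n * ∏ i, x i ^ t i := by
    rw [← h1, ← Finset.prod_pow_eq_pow_sum, ← Finset.prod_mul_distrib]
    refine Finset.prod_congr rfl fun i _ => ?_
    rw [Pi.smul_apply, smul_eq_mul, mul_pow]
  rw [h2]
  ring

/-- a form which vanishes at a tuple vanishes at every tuple of the same points -/
theorem aeval_segk_prl {K N : Type} [Field K] [Field N] [Algebra K N] {k : ℕ}
    {y y' : Fin k → Fin 2 → N} (h : ∀ i, Prl (y i) (y' i))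
    {f : MvPolynomial (Fin k → Fin 2) K} {n : ℕ} (hf : f.IsHomogeneous n)
    (h0 : aeval (segk y') f = 0) : aeval (segk y) f = 0 := by
  choose c hc hy using h
  have h1 : segk y = (∏ i, c i) • segk y' := by
    funext I
    change ∏ i, y i (I i) = (∏ i, c i) * ∏ i, y' i (I i)
    rw [← Finset.prod_mul_distrib]
    refine Finset.prod_congr rfl fun i _ => ?_
    rw [hy i]
    rfl
  rw [h1, aeval_smul_form hf, h0, mul_zero]

end GenmAux

/-- The bound at a level where the discs are small, for given constants. -/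
def LevM (K : Type) [Field K] [NumberField K] (p s : ℕ) (F : Fin 2 → MvPolynomial (Fin 2) K)
    (v : FinitePlace K) (B δ : ℝ) (k X : ℕ) (c : ℝ) : Prop :=
  ∀ (N : Type) [Field N] [NumberField N] [Algebra K N] [IsGalois K N]
      (S : Finset (FinitePlace N)) (e : FinitePlace N → ℕ), (∀ w ∈ S, Above v w (e w)) →
      ∑ w ∈ S, e w = Module.finrank K N → ∀ y : Fin 2 → N, y ≠ 0 → WandP F y →
      X ≤ dg K y →
      B * (1 + Real.log (dg K y)) ≤ (dg K y : ℝ) ^ δ ∧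
      B * (1 + Real.log (dg K y)) ^ 2 * (B * (1 + Real.log (dg K y))) ^ k ≤
        (dg K y : ℝ) ^ δ ∧ ∀ ρ₁ : ℝ, k * ρ₁ ≤ 1 / 8 →
      ∑ w ∈ S, (e w : ℝ) * (((orb (N ≃ₐ[K] N) (nz y)).filter fun z =>
        B * (1 + Real.log (dg K y)) ≤ (LP.disc K w z : ℝ)).card : ℝ) ≤
        ρ₁ * Module.finrank K N * dgo K (nz y) →
      ∀ σ : Fin k → (N ≃ₐ[K] N),
      (∀ m : ℕ, ((p ^ s : ℕ) : ℝ) ^ m ≤ (dg K y : ℝ) ^ δ →
        FreeT (p ^ s) F (fun i => (gAct F N)^[m] (gal (σ i) y))) →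
      ∀ ρ : ℝ, 0 ≤ ρ →
      (dgk K (fun i => gal (σ i) y) : ℝ) ^ (1 / (k : ℝ) + δ) ≤ ρ →
      ∀ h : ℝ, HasHt (p ^ s) F y h → c ≤ ρ * h

open FinW FinY in
theorem m_level (hRamk : RamkStatement) (hHomc : HomcStatement)
    (hSharpx : SharpxStatement) (hNumx : NumxStatement) (hMor : MorStatement)
    (hSegk : SegkStatement) (hSegt : SegtStatement)
    (K : Type) [Field K] [NumberField K] (p s : ℕ) (v : FinitePlace K)
    (F : Fin 2 → MvPolynomial (Fin 2) K) (hyp : HypR p s v F)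
    (k : ℕ) (hk : 2 ≤ k) (δ B : ℝ) (hδ : 0 < δ) (hB1 : 1 ≤ B) :
    ∃ (X : ℕ) (c : ℝ), 0 < c ∧ LevM K p s F v B δ k X c := by
  have hq2 : 2 ≤ p ^ s := by
    calc 2 ≤ p := hyp.prime.two_le
      _ = p ^ 1 := (pow_one p).symm
      _ ≤ p ^ s := Nat.pow_le_pow_right hyp.prime.pos hyp.pos
  have hq1 : 1 ≤ p ^ s := by omega
  have hmor : Mor (p ^ s) F := hMor K p s v F hyp
  obtain ⟨Fz, hF1, hF2, hF3, hF4, hF5, hF6⟩ := hSegk K p s v F hyp k (by omega)
  obtain ⟨u, hu0, hu1, hu⟩ := exists_unif v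
  have hne : Nonempty (Fin k → Fin 2) := ⟨fun _ => 0⟩
  have hcard : Fintype.card (Fin k → Fin 2) = 2 ^ k := by simp
  have hcard2 : 2 ≤ Fintype.card (Fin k → Fin 2) := by
    rw [hcard]
    calc 2 = 2 ^ 1 := rfl
      _ ≤ 2 ^ k := Nat.pow_le_pow_right (by norm_num) (by omega)
  obtain ⟨A, B₂, hA, hB₂, hS⟩ := hSharpx K p s (Fin k → Fin 2) hcard2 hyp.prime hyp.pos v Fz
    hF1 hyp.above hF2 hF3 hF4 u hu0 hu1 hu
  set θ : ℝ := ((Fintype.card (Fin k → Fin 2) - 1 : ℕ) : ℝ) /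
    (((Fintype.card (Fin k → Fin 2) - 1 : ℕ) : ℝ) + 1) with hθ
  have hθ0 : 0 ≤ θ := by positivity
  have hθ1 : θ < 1 := by
    rw [hθ, div_lt_one (by positivity)]
    linarith
  obtain ⟨X₁, c₀, hc₀, hN⟩ := hNumx k δ A B₂ B θ hk hδ hA hB₂ hB1 hθ0 hθ1
  have hk0 : (0 : ℝ) < k := by
    have : 0 < k := by omega
    exact_mod_cast this
  refine ⟨max X₁ ((k + 1) ^ k), c₀ / k, by positivity, ?_⟩
  intro N _ _ _ _ S e hSe hsum y hy0 hwy hXD
  have hXD1 : X₁ ≤ dg K y := (le_max_left _ _).trans hXD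
  have hXD2 : (k + 1) ^ k ≤ dg K y := (le_max_right _ _).trans hXD
  set D : ℕ := dg K y with hD
  have hD1 : 1 ≤ D := Module.finrank_pos
  have hD1r : (1 : ℝ) ≤ D := by exact_mod_cast hD1
  have hlogD : 0 ≤ Real.log D := Real.log_nonneg hD1r
  set T : ℝ := B * (1 + Real.log D) with hT
  have hT1 : 1 ≤ T := by nlinarith
  have hT0 : 0 < T := by linarith
  have hX1 : 1 ≤ ⌊T⌋₊ := Nat.le_floor (by exact_mod_cast hT1)
  have hE1 : 1 ≤ ⌊T⌋₊ ^ k := Nat.one_le_pow _ _ hX1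
  have hTE : ((⌊T⌋₊ ^ k : ℕ) : ℝ) ≤ 2 ^ k * (B * (1 + Real.log D)) ^ k := by
    have h1 : ((⌊T⌋₊ : ℕ) : ℝ) ≤ T := Nat.floor_le (by linarith)
    have h2 : (0 : ℝ) ≤ ((⌊T⌋₊ : ℕ) : ℝ) := Nat.cast_nonneg _
    rw [← hT, ← mul_pow]
    push_cast
    exact pow_le_pow_left₀ h2 (by linarith) k
  obtain ⟨hN1, hN2, hN3⟩ := hN D (⌊T⌋₊ ^ k) hXD1 hE1 hTE
  refine ⟨hN1, hN2, ?_⟩
  intro ρ₁ hρ₁ hbad σ hoff ρ hρ hMρ h hlim
  have hh0 : 0 ≤ h := ge_of_tendsto' hlim fun n => div_nonneg (div_nonneg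
    (Height.logHeight_nonneg _) (Nat.cast_nonneg _)) (by positivity)
  -- the points
  set yy : Fin k → Fin 2 → N := fun i => gal (σ i) y with hyy
  have hyy0 : ∀ i, yy i ≠ 0 := fun i => gal_ne (σ i) hy0
  set L := IntermediateField.adjoin K (Set.range fun i => yy i 0 / yy i 1) with hLdef
  have hLfin : FiniteDimensional K L := inferInstance
  have hLnf : NumberField L := NumberField.of_module_finite K L
  have hex : ∀ i, ∃ Y : Fin 2 → L, Y ≠ 0 ∧ Prl (yy i) (fun j => (Y j : N)) ∧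
      ((Y 0 / Y 1 : L) : N) = yy i 0 / yy i 1 := fun i =>
    FinAux.exists_pt L (hyy0 i) (IntermediateField.subset_adjoin _ _ ⟨i, rfl⟩)
  choose Y hY0 hY1 hY2 using hex
  set φ₀ : L →ₐ[K] N := L.val with hφ₀
  have hadj : IntermediateField.adjoin K (Set.range fun i => Y i 0 / Y i 1) = ⊤ :=
    FinW.adj_top hLdef (fun i => Y i 0 / Y i 1) hY2
  have hφY : ∀ i, (nz fun j => φ₀ (Y i j)) ∈ orb (N ≃ₐ[K] N) (nz y) := by
    intro i
    have h1 : nz (yy i) = nz fun j => φ₀ (Y i j) :=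
      FinAux.nz_prl (hyy0 i) (HomcAux.emb_ne φ₀ (hY0 i)) (hY1 i)
    rw [← h1]
    have h2 : nz (gal (σ i) y) = (σ i) • nz y := (HomcAux.gal_nz (σ i) hy0).symm
    rw [hyy]
    change nz (gal (σ i) y) ∈ _
    rw [h2]
    exact smul_mem_orb _ _
  have hgood := good_tuples hHomc hRamk v u hu φ₀ hY0 hadj hφY S e hSe hsum T ρ₁ hρ₁ hbad
  have hi0 : Fin k := ⟨0, by omega⟩
  have hcardL : Nat.card (L →ₐ[K] N) = Module.finrank K L :=
    (hHomc K N L φ₀ (Y hi0) (hY0 hi0)).2.1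
  have hwY : ∀ i, WandP F (Y i) := fun i => (Bas.wandP_map φ₀).1
    (Bas.wandP_prl hyp.hom (Bas.prl_symm (hY1 i)) (E.wand_gal hwy (σ i)))
  have hx0 : segk Y ≠ 0 := segk_ne hY0
  have hit : ∀ n, (gAct Fz L)^[n] (segk Y) = segk (fun i => (gAct F L)^[n] (Y i)) :=
    fun n => segk_iter (fun y => hF6 L y) Y n
  have hYn : ∀ n i, (gAct F L)^[n] (Y i) ≠ 0 := fun n i => Bas.iter_ne hmor (hY0 i) n
  have hxw : ¬ ∃ m n : ℕ, m ≠ n ∧ ∃ c : L, c ≠ 0 ∧
      (gAct Fz L)^[n] (segk Y) = c • (gAct Fz L)^[m] (segk Y) := by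
    rintro ⟨m, n, hmn, c, hc0, h1⟩
    rw [hit, hit] at h1
    obtain ⟨d, hd, h2⟩ := hSegt.2.2 L k _ _ (hYn n) (hYn m) ⟨c, hc0, h1⟩ hi0
    exact hwY hi0 ⟨m, n, hmn, d, hd, h2⟩
  -- the numbers
  set M : ℕ := Module.finrank K L with hM
  have hMk : dgk K yy = M := rfl
  have hDM : D ≤ M := by
    have h1 := dg_le_dgk (K := K) yy hi0
    rwa [hyy, dg_gal] at h1
  have hMD : M ≤ D ^ k := by
    rw [← hMk]
    refine (dgk_le_prod yy).trans (le_of_eq ?_)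
    rw [Finset.prod_congr rfl fun i _ => dg_gal (σ i) y, Finset.prod_const, Finset.card_univ,
      Fintype.card_fin]
  obtain ⟨t0, Dn, ht0, hDn, htD, hMt, hED, hnum⟩ := hN3 M ρ hDM hMD hρ hMρ
  have hkt : k ≤ t0 := by
    by_contra hlt
    push Not at hlt
    have h1 : (t0 + 1) ^ k ≤ (k + 1) ^ k := Nat.pow_le_pow_left (by omega) k
    omega
  rcases hS (⌊T⌋₊ ^ k) hE1 L N S e hcardL hSe hsum.ge hgood (segk Y) hx0 hxw Dn t0 hDn
    (by omega) htD with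
    ⟨h', hlim', hle⟩ | ⟨r, r', m, I, hm, hIp, hIh, hIv, hIi, hIt, hrE⟩
  · have hh' := height_tuple (fun N _ _ k y => hSegt.1 N k y) hyp.hom (by omega)
      (fun y => hF6 L y) φ₀ σ hY1 hlim hlim'
    rw [div_le_iff₀ hk0]
    calc c₀ ≤ _ := hnum
      _ ≤ ρ * (k * h) := mul_le_mul_of_nonneg_left (hle.trans hh') hρ
      _ = ρ * h * k := by ring
  · exfalso
    rw [hit] at hIv hIt
    -- a coordinate outside the ideal
    obtain ⟨J₀, hJ₀⟩ := Function.ne_iff.1 (segk_ne (hYn r))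
    have hXJ : (X J₀ : MvPolynomial (Fin k → Fin 2) K) ∉ I := by
      intro h1
      have h2 := hIv (X J₀) 1 (isHomogeneous_X K J₀) h1
      rw [aeval_X] at h2
      exact hJ₀ h2
    have hgI : ∀ J, gq K J₀ J ∈ I := by
      intro J
      have h1 : ((X J₀ : MvPolynomial (Fin k → Fin 2) K) ^ (t0 - k) * gq K J₀ J) ∈ I := by
        refine hIt _ ?_ ?_
        · have h2 := ((isHomogeneous_X K J₀).pow (t0 - k)).mul (gq_hom (by omega) J₀ J)
          rwa [one_mul, show t0 - k + k = t0 by omega] at h2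
        · rw [map_mul, aeval_segk _ (gq K J₀ J), gq_zero (by omega), map_zero, mul_zero]
      rcases hIp.mem_or_mem h1 with h2 | h2
      · exact absurd (hIp.mem_of_pow_mem _ h2) hXJ
      · exact h2
    obtain ⟨f, hf1, hf2, hf3⟩ := hSegt.2.1 K L k t0 (fun i => (gAct F L)^[r'] (Y i)) hMt
    refine hoff r (hrE.trans hED) Fz hF1 hF5 I hIp hIh m hm hIi
      (fun f hf => seg_mem (by omega) hIp hIh hXJ hgI hf) ⟨f, hIt f hf1 hf2, hf3⟩ ?_
    have e1 : ∀ i, (gAct F N)^[r] (fun j => (Y i j : N)) = fun j => φ₀ ((gAct F L)^[r] (Y i) j) :=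
      fun i => gAct_iter_map F φ₀ r (Y i)
    intro f n hf hfI
    refine GenmAux.aeval_segk_prl (y' := fun i => fun j => φ₀ ((gAct F L)^[r] (Y i) j))
      (fun i => ?_) hf ?_
    · rw [← e1]
      exact Bas.prl_iter hyp.hom (hY1 i) r
    · have h1 := hIv f n hf hfI
      have h2 := MvPolynomial.comp_aeval_apply (segk fun i => (gAct F L)^[r] (Y i)) φ₀ f
      rw [h1, map_zero] at h2
      have h3 : (fun J => φ₀ (segk (fun i => (gAct F L)^[r] (Y i)) J)) =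
          segk (fun i j => φ₀ ((gAct F L)^[r] (Y i) j)) := by
        funext J
        change φ₀ (∏ i, (gAct F L)^[r] (Y i) (J i)) = ∏ i, φ₀ ((gAct F L)^[r] (Y i) (J i))
        rw [map_prod]
      rw [← h3]
      exact h2.symm

theorem levM_mono {K : Type} [Field K] [NumberField K] {p s : ℕ} {v : FinitePlace K}
    {F : Fin 2 → MvPolynomial (Fin 2) K} {B δ : ℝ} {k X X' : ℕ} {c c' : ℝ}
    (hX : X ≤ X') (hc : c' ≤ c) (h : LevM K p s F v B δ k X c) : LevM K p s F v B δ k X' c' := by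
  intro N _ _ _ _ S e hSe hsum y hy0 hwy hXD
  obtain ⟨h1, h2, h3⟩ := h N S e hSe hsum y hy0 hwy (hX.trans hXD)
  exact ⟨h1, h2, fun ρ₁ hρ₁ hbad σ hoff ρ hρ hM h' hlim =>
    hc.trans (h3 ρ₁ hρ₁ hbad σ hoff ρ hρ hM h' hlim)⟩

/-- the constants do not depend on `k ≤ k₀` -/
theorem levM_all (hRamk : RamkStatement) (hHomc : HomcStatement)
    (hSharpx : SharpxStatement) (hNumx : NumxStatement) (hMor : MorStatement)
    (hSegk : SegkStatement) (hSegt : SegtStatement)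
    (K : Type) [Field K] [NumberField K] (p s : ℕ) (v : FinitePlace K)
    (F : Fin 2 → MvPolynomial (Fin 2) K) (hyp : HypR p s v F)
    (δ B : ℝ) (hδ : 0 < δ) (hB1 : 1 ≤ B) (k₀ : ℕ) :
    ∃ (X : ℕ) (c : ℝ), 0 < c ∧ ∀ k : ℕ, 2 ≤ k → k ≤ k₀ → LevM K p s F v B δ k X c := by
  induction k₀ with
  | zero => exact ⟨0, 1, one_pos, fun k h1 h2 => by omega⟩
  | succ k₀ ih =>
    obtain ⟨X, c, hc, hX⟩ := ih
    by_cases hk : 2 ≤ k₀ + 1
    · obtain ⟨X', c', hc', hX'⟩ := m_level hRamk hHomc hSharpx hNumx hMor hSegk hSegt K p s v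
        F hyp (k₀ + 1) hk δ B hδ hB1
      refine ⟨max X X', min c c', lt_min hc hc', fun k h1 h2 => ?_⟩
      rcases Nat.lt_or_ge k (k₀ + 1) with h3 | h3
      · exact levM_mono (le_max_left _ _) (min_le_left _ _) (hX k h1 (by omega))
      · obtain rfl : k = k₀ + 1 := by omega
        exact levM_mono (le_max_right _ _) (min_le_right _ _) hX'
    · exact ⟨X, c, hc, fun k h1 h2 => by omega⟩

open LP.VpAux LP.WAux FinY in
/-- The bound in a Galois extension. -/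
theorem m_gal (hLvnw : LvnwStatement) (hRamk : RamkStatement) (hHomc : HomcStatement)
    (hPthk : PthkStatement) (hSharpx : SharpxStatement) (hNumx : NumxStatement)
    (hVnor : VnorStatement) (hMor : MorStatement)
    (hSegk : SegkStatement) (hSegt : SegtStatement)
    (K : Type) [Field K] [NumberField K] (p s : ℕ) (v : FinitePlace K)
    (F : Fin 2 → MvPolynomial (Fin 2) K) (hyp : HypR p s v F)
    (k₀ : ℕ) (δ : ℝ) (hδ : 0 < δ) :
    ∃ c : ℝ, 0 < c ∧ ∀ (N : Type) [Field N] [NumberField N] [Algebra K N] [IsGalois K N] (a : N),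
      WandP F ![a, 1] →
      (∀ n : ℕ, 1 / δ < (dg K ((gAct F N)^[n] ![a, 1]) : ℝ) →
        ((p ^ s : ℕ) : ℝ) ^ n * (dg K ((gAct F N)^[n] ![a, 1]) : ℝ) ^ (1 - δ) ≤ dg K ![a, 1] →
        ∃ (k : ℕ) (b : Fin k → N), 2 ≤ k ∧ k ≤ k₀ ∧ (∀ i, ∃ σ : N ≃ₐ[K] N, σ a = b i) ∧
          (((p ^ s : ℕ) : ℝ) ^ n *
              (dgk K (fun i => (gAct F N)^[n] ![b i, 1]) : ℝ) ^ (1 - δ) ≤
              dgk K (fun i => ![b i, 1]) →
            ((p ^ s : ℕ) : ℝ) ^ n *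
              (dgk K (fun i => (gAct F N)^[n] ![b i, 1]) : ℝ) ^ (1 / (k : ℝ) + δ) ≤
              dg K ![a, 1]) ∧
          ∀ m : ℕ, ((p ^ s : ℕ) : ℝ) ^ m ≤ (dg K ((gAct F N)^[n] ![a, 1]) : ℝ) ^ δ →
            FreeT (p ^ s) F (fun i => (gAct F N)^[n + m] ![b i, 1])) →
      ∃ h : ℝ, HasHt (p ^ s) F ![a, 1] h ∧ c / (dg K ![a, 1] : ℝ) ≤ h := by
  have hq2 : 2 ≤ p ^ s := by
    calc 2 ≤ p := hyp.prime.two_le
      _ = p ^ 1 := (pow_one p).symm
      _ ≤ p ^ s := Nat.pow_le_pow_right hyp.prime.pos hyp.pos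
  have hq1 : 1 ≤ p ^ s := by omega
  have hq0 : (0 : ℝ) < ((p ^ s : ℕ) : ℝ) := by
    have : 0 < p ^ s := by omega
    exact_mod_cast this
  have hmor : Mor (p ^ s) F := hMor K p s v F hyp
  have hz : ∀ z : Fin 2 → AlgebraicClosure K, (∀ i, aeval z (F i) = 0) → z = 0 := by
    intro z hz
    by_contra h0
    exact hmor.ne (AlgebraicClosure K) z h0 (funext hz)
  set ρ₁ : ℝ := 1 / (16 * (k₀ + 1)) with hρ₁
  have hρ₁0 : 0 < ρ₁ := by rw [hρ₁]; positivity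
  obtain ⟨B, c₁, hB1, hc₁, hL⟩ := hLvnw K p s v F hyp ρ₁ hρ₁0
  obtain ⟨X₁, c₂, hc₂, hlev⟩ := levM_all hRamk hHomc hSharpx hNumx hMor hSegk hSegt K p s v
    F hyp δ B hδ hB1 (k₀ + 2)
  set X : ℕ := max X₁ (⌈1 / δ⌉₊ + 1) with hX
  obtain ⟨c₃, hc₃, hVn⟩ := hVnor K p s v F hyp X
  have hXX : (1 : ℝ) ≤ X := by
    have h1 : 1 ≤ X := by
      rw [hX]
      exact le_trans (by omega) (le_max_right _ _)
    exact_mod_cast h1
  have hlogX : 0 ≤ Real.log X := Real.log_nonneg hXX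
  have hTX : 0 < B * (1 + Real.log X) := by positivity
  refine ⟨min (min c₁ c₂) (c₃ / (B * (1 + Real.log X))), lt_min (lt_min hc₁ hc₂)
    (by positivity), ?_⟩
  intro N _ _ _ _ a ha hH
  obtain ⟨S, e, hSe, hsum⟩ := exists_above v N
  set P : Fin 2 → N := ![a, 1] with hP
  have hP0 : P ≠ 0 := fun h0 => one_ne_zero (congrFun h0 1 : (1 : N) = 0)
  obtain ⟨h, hlim, halt⟩ := hL N S e hSe hsum P hP0 ha
  refine ⟨h, hlim, ?_⟩
  have hh0 : 0 ≤ h := ge_of_tendsto' hlim fun n => div_nonneg (div_nonneg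
    (Height.logHeight_nonneg _) (Nat.cast_nonneg _)) (by positivity)
  have hhne := hhat_ne_zero hq2 F hyp.hom hz N P hP0 ha h hlim
  have hhpos : 0 < h := lt_of_le_of_ne hh0 (Ne.symm hhne)
  have hD0eq : dgo K (nz P) = dg K P := FinAux.dgo_eq hP0
  set D₀ : ℝ := (dg K P : ℝ) with hD₀
  have hD0pos : (0 : ℝ) < D₀ := by
    rw [hD₀]
    exact_mod_cast Module.finrank_pos
  rw [div_le_iff₀ hD0pos]
  rcases halt with h1 | ⟨n, hk1, hk2, hk3⟩
  · rw [hD0eq] at h1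
    exact ((min_le_left _ _).trans (min_le_left _ _)).trans (by linarith)
  rw [hD0eq] at hk1
  -- the point at level `n`
  set y : Fin 2 → N := (gAct F N)^[n] P with hy
  have hy0 : y ≠ 0 := Bas.iter_ne hmor hP0 n
  have hwy : WandP F y := Bas.wandP_iter ha n
  have hlimy : HasHt (p ^ s) F y (((p ^ s : ℕ) : ℝ) ^ n * h) := hasHt_iter (by omega) hlim n
  have hhypos : 0 < ((p ^ s : ℕ) : ℝ) ^ n * h := mul_pos (pow_pos hq0 n) hhpos
  have hqn : (0 : ℝ) < ((p ^ s : ℕ) : ℝ) ^ n := pow_pos hq0 n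
  have hdgy : dgo K (nz y) = dg K y := FinAux.dgo_eq hy0
  rw [hdgy] at hk1
  set D : ℕ := dg K y with hD
  have hD1 : 1 ≤ D := Module.finrank_pos
  have hD1r : (1 : ℝ) ≤ D := by exact_mod_cast hD1
  have hDpos : (0 : ℝ) < D := by linarith
  have hlogD : 0 ≤ Real.log D := Real.log_nonneg hD1r
  set T : ℝ := B * (1 + Real.log D) with hT
  have hT1 : 1 ≤ T := by nlinarith
  have hT0 : 0 < T := by linarith
  by_cases hDX : D ≤ X
  · -- bounded degree
    refine (min_le_right _ _).trans ?_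
    have h1 := hVn N y hy0 hwy hDX _ hlimy
    rw [div_le_iff₀ hTX]
    have h2 : T ≤ B * (1 + Real.log X) := by
      rw [hT]
      have h3 : Real.log D ≤ Real.log X := Real.log_le_log (by linarith) (by exact_mod_cast hDX)
      have h4 : 0 ≤ B := by linarith
      exact mul_le_mul_of_nonneg_left (by linarith) h4
    calc c₃ ≤ ((p ^ s : ℕ) : ℝ) ^ n * h := h1
      _ ≤ ((p ^ s : ℕ) : ℝ) ^ n * h * D := le_mul_of_one_le_right hhypos.le hD1r
      _ = (((p ^ s : ℕ) : ℝ) ^ n * D) * h := by ring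
      _ ≤ (T * D₀) * h := mul_le_mul_of_nonneg_right hk1 hh0
      _ = (h * D₀) * T := by ring
      _ ≤ (h * D₀) * (B * (1 + Real.log X)) :=
        mul_le_mul_of_nonneg_left h2 (mul_nonneg hh0 hD0pos.le)
  refine ((min_le_left _ _).trans (min_le_right _ _)).trans ?_
  push Not at hDX
  have hDX1 : X₁ ≤ D := (le_max_left _ _).trans hDX.le
  have hDX3 : ⌈1 / δ⌉₊ + 1 ≤ D := (le_max_right _ _).trans hDX.le
  have hDδ : 1 / δ < (D : ℝ) := by
    have h1 : (1 / δ : ℝ) ≤ (⌈1 / δ⌉₊ : ℝ) := Nat.le_ceil _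
    have h2 : ((⌈1 / δ⌉₊ : ℕ) : ℝ) + 1 ≤ D := by exact_mod_cast hDX3
    linarith
  -- the level is thin
  have hDδ0 : 0 < (D : ℝ) ^ δ := Real.rpow_pos_of_pos hDpos _
  have hTδ : T ≤ (D : ℝ) ^ δ :=
    (hlev 2 le_rfl (by omega) N S e hSe hsum y hy0 hwy hDX1).1
  have hthin : ((p ^ s : ℕ) : ℝ) ^ n * (D : ℝ) ^ (1 - δ) ≤ D₀ := by
    have h1 : (D : ℝ) ^ (1 - δ) = D / (D : ℝ) ^ δ := by
      rw [Real.rpow_sub hDpos, Real.rpow_one]
    rw [h1, ← mul_div_assoc, div_le_iff₀ hDδ0]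
    calc ((p ^ s : ℕ) : ℝ) ^ n * D ≤ T * D₀ := hk1
      _ ≤ (D : ℝ) ^ δ * D₀ := mul_le_mul_of_nonneg_right hTδ hD0pos.le
      _ = _ := mul_comm _ _
  obtain ⟨k, b, hk2', hkk, hbσ, hthk, hoff⟩ := hH n hDδ hthin
  choose σ hσ using hbσ
  obtain ⟨-, hT4, hfin⟩ := hlev k hk2' (by omega) N S e hSe hsum y hy0 hwy hDX1
  have hk1r : (1 : ℝ) ≤ k := by
    have : 1 ≤ k := by omega
    exact_mod_cast this
  have hkk' : (k : ℝ) ≤ k₀ := by exact_mod_cast hkk
  have hρk : (k : ℝ) * ρ₁ ≤ 1 / 8 := by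
    rw [hρ₁, mul_one_div, div_le_div_iff₀ (by positivity) (by norm_num)]
    linarith
  have hρk' : ρ₁ ≤ 1 / (16 * k) := by
    rw [hρ₁]
    apply one_div_le_one_div_of_le (by linarith)
    linarith
  have hgalb : ∀ i, gal (σ i) P = ![b i, 1] := fun i => gal_pt (σ i) (hσ i)
  have hyb : ∀ i, gal (σ i) y = (gAct F N)^[n] ![b i, 1] := by
    intro i
    rw [hy, ← SP.CasebAux.gAct_iter_gal, hgalb]
  -- the tuple is thin
  have hM : ((p ^ s : ℕ) : ℝ) ^ n *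
      (dgk K (fun i => (gAct F N)^[n] ![b i, 1]) : ℝ) ^ (1 / (k : ℝ) + δ) ≤ D₀ := by
    refine hthk ?_
    have h1 := hPthk K N (p ^ s) F hq1 hmor S e hsum P hP0 k n T (B * (1 + Real.log D) ^ 2)
      (by omega) hT0.le (by positivity) (by
        rw [hdgy] at hk2 ⊢
        refine hk2.trans ?_
        have h2 : (0 : ℝ) ≤ Module.finrank K N * D := by positivity
        nlinarith [mul_le_mul_of_nonneg_right hρk' h2]) (by
        rw [hdgy] at hk3
        refine hk3.trans ?_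
        have h2 : (0 : ℝ) ≤ Module.finrank K N * dgo K (nz P) := by positivity
        nlinarith [mul_le_mul_of_nonneg_right hρk' h2]) σ
    have h1' : ((p ^ s : ℕ) : ℝ) ^ n * (dgk K (fun i => (gAct F N)^[n] ![b i, 1]) : ℝ) ≤
        B * (1 + Real.log D) ^ 2 * T ^ k * (dgk K (fun i => ![b i, 1]) : ℝ) := by
      simpa only [hgalb] using h1
    have h2 : D ≤ dgk K (fun i => (gAct F N)^[n] ![b i, 1]) := by
      have h3 := dg_le_dgk (K := K) (fun i => gal (σ i) y) ⟨0, by omega⟩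
      rw [dg_gal] at h3
      simpa only [hyb] using h3
    set M₁ : ℝ := (dgk K (fun i => (gAct F N)^[n] ![b i, 1]) : ℝ) with hM₁
    have h3 : (D : ℝ) ≤ M₁ := by
      rw [hM₁]
      exact_mod_cast h2
    have h4 : 0 < M₁ := by linarith
    have h5 : M₁ ^ (1 - δ) = M₁ / M₁ ^ δ := by
      rw [Real.rpow_sub h4, Real.rpow_one]
    have h6 : 0 < M₁ ^ δ := Real.rpow_pos_of_pos h4 _
    rw [h5, ← mul_div_assoc, div_le_iff₀ h6]
    have h7 : B * (1 + Real.log D) ^ 2 * T ^ k ≤ M₁ ^ δ :=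
      hT4.trans (Real.rpow_le_rpow hDpos.le h3 hδ.le)
    calc ((p ^ s : ℕ) : ℝ) ^ n * M₁ ≤
        B * (1 + Real.log D) ^ 2 * T ^ k * (dgk K (fun i => ![b i, 1]) : ℝ) := h1'
      _ ≤ M₁ ^ δ * (dgk K (fun i => ![b i, 1]) : ℝ) :=
        mul_le_mul_of_nonneg_right h7 (Nat.cast_nonneg _)
      _ = _ := mul_comm _ _
  have hfin' := hfin ρ₁ hρk (by rw [hdgy] at hk2 ⊢; exact hk2) σ (by
    intro m hm
    have h1 : (fun i => (gAct F N)^[m] (gal (σ i) y)) =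
        fun i => (gAct F N)^[n + m] ![b i, 1] := by
      funext i
      rw [hyb, ← Function.iterate_add_apply, add_comm m n]
    rw [h1]
    exact hoff m hm) (D₀ / ((p ^ s : ℕ) : ℝ) ^ n)
    (div_nonneg hD0pos.le hqn.le) (by
      rw [le_div_iff₀ hqn]
      simp only [hyb]
      linarith) _ hlimy
  calc c₂ ≤ D₀ / ((p ^ s : ℕ) : ℝ) ^ n * (((p ^ s : ℕ) : ℝ) ^ n * h) := hfin'
    _ = h * D₀ := by
      field_simp

/-- Row GENM. -/
theorem genm (hLvnw : LvnwStatement) (hRamk : RamkStatement) (hHomc : HomcStatement)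
    (hPthk : PthkStatement) (hSharpx : SharpxStatement) (hNumx : NumxStatement)
    (hVnor : VnorStatement) (hMor : MorStatement)
    (hSegk : SegkStatement) (hSegt : SegtStatement) : GenmStatement := by
  intro K _ _ p s v F hyp k₀ δ hδ
  exact m_gal hLvnw hRamk hHomc hPthk hSharpx hNumx hVnor hMor hSegk hSegt K p s v F hyp k₀ δ hδ

end Pool.DynLehmer.LW
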