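import Pool.Agent.Lib.MP_2194ec_nt.LW.AllY
import Pool.Agent.Lib.MP_2194ec_nt.LW.Genm

set_option autoImplicit false

/-!
# The bound for free tuples: assembly
-/

namespace Pool.DynLehmer.LW
open MvPolynomial NumberField Filter Topology Pool.DynLehmer Pool.DynLehmer.GS Pool.DynLehmer.LP
open scoped Classical

/-- **The bound for free tuples.** -/
theorem gmst : GenmStatement :=
  genm (lvnw levelw iew) ramk homc pthk (sharpx cored (propx trd trc (hil nne upp (low bezt avd))))
    numx vnor mor segk' segt

end Pool.DynLehmer.LW
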