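import Mathlib

set_option autoImplicit false

/-!
# Alternating sections: statement of the row ALTG
-/

namespace Pool.DynLehmer.LW

/-- Row ALTG: pairs of independent vectors with a small orbit, from a section `B / B₀` which is an
alternating group of degree `n ≤ D ^ (1 - 1 / A)`. -/
def AltgStatement : Prop :=
  ∀ A : ℕ, 1 ≤ A → ∀ Rb : ℕ, ∃ C : ℕ, ∀ (G Ω V : Type) [Group G] [Finite G]
    [Fintype Ω] [MulAction G Ω] [AddCommGroup V] [Module ℚ V] (ρ : Representation ℚ G V)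
    (f : Ω → V), (∀ (g : G) (x : Ω), f (g • x) = ρ g (f x)) → Function.Injective f →
    MulAction.IsPretransitive G Ω → ∀ (x : Ω) (B₀ B : Subgroup G), B₀ ≤ B →
    (∀ g ∈ MulAction.stabilizer G x, ∀ h ∈ B₀, g * h * g⁻¹ ∈ B₀) →
    (∀ g ∈ MulAction.stabilizer G x, ∀ h ∈ B, g * h * g⁻¹ ∈ B) →
    (∀ g ∈ B, ∀ h ∈ B₀, g * h * g⁻¹ ∈ B₀) →
    Nat.card (MulAction.orbit B₀ x) ≤ Rb →
    Nat.card (MulAction.orbit B₀ x) < Nat.card (MulAction.orbit B x) →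
    ∀ (n : ℕ) (φ : B →* alternatingGroup (Fin n)), Function.Surjective φ →
    φ.ker = B₀.subgroupOf B → n ^ A ≤ (Fintype.card Ω) ^ (A - 1) →
    ∃ y : Fin 2 → Ω, (∃ i, y i = x) ∧ LinearIndependent ℚ (fun i => f (y i)) ∧
      (Nat.card (MulAction.orbit G y)) ^ (2 * A) ≤ C * (Fintype.card Ω) ^ (2 * (2 * A) - 1)

/-- Row ALTW: the same with a subgroup `W` of the stabilizer which normalises the section, of index
at most `r * D` with `2 ^ r ≤ D ^ 2`. -/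
def AltwStatement : Prop :=
  ∀ A : ℕ, 1 ≤ A → ∀ Rb : ℕ, ∃ C : ℕ, ∀ (G Ω V : Type) [Group G] [Finite G]
    [Fintype Ω] [MulAction G Ω] [AddCommGroup V] [Module ℚ V] (ρ : Representation ℚ G V)
    (f : Ω → V), (∀ (g : G) (x : Ω), f (g • x) = ρ g (f x)) → Function.Injective f →
    ∀ (x : Ω) (W B₀ B : Subgroup G), W ≤ MulAction.stabilizer G x → B₀ ≤ B →
    (∀ g ∈ W, ∀ h ∈ B₀, g * h * g⁻¹ ∈ B₀) → (∀ g ∈ W, ∀ h ∈ B, g * h * g⁻¹ ∈ B) →
    (∀ g ∈ B, ∀ h ∈ B₀, g * h * g⁻¹ ∈ B₀) →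
    ∀ r : ℕ, W.index ≤ r * Fintype.card Ω → 2 ^ r ≤ (Fintype.card Ω) ^ 2 →
    Nat.card (MulAction.orbit B₀ x) ≤ Rb →
    Nat.card (MulAction.orbit B₀ x) < Nat.card (MulAction.orbit B x) →
    ∀ (n : ℕ) (φ : B →* alternatingGroup (Fin n)), Function.Surjective φ →
    φ.ker = B₀.subgroupOf B → n ^ A ≤ (Fintype.card Ω) ^ (A - 1) →
    ∃ y : Fin 2 → Ω, (∃ i, y i = x) ∧ LinearIndependent ℚ (fun i => f (y i)) ∧
      (Nat.card (MulAction.orbit G y)) ^ (2 * A) ≤ C * (Fintype.card Ω) ^ (2 * (2 * A) - 1)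

end Pool.DynLehmer.LW
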