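import Pool.Agent.Lib.MP_2194ec_nt.LW.AltC
import Pool.Agent.Lib.MP_2194ec_nt.LW.DefsAlt

set_option autoImplicit false

/-!
# Pairs of independent vectors with a small orbit, from an alternating section
-/

namespace Pool.DynLehmer.LW.Alt
open scoped Classical
open Equiv Equiv.Perm Filter Topology

/-! ## Numbers -/

theorem pow_le_two_pow (N : ℕ) : ∃ C : ℕ, ∀ m : ℕ, m ^ N ≤ C * 2 ^ m := by
  have h1 := tendsto_pow_const_div_const_pow_of_one_lt N (one_lt_two : (1 : ℝ) < 2)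
  obtain ⟨C, hC⟩ := h1.bddAbove_range
  refine ⟨⌈C⌉₊, fun m => ?_⟩
  have h2 : (m : ℝ) ^ N / 2 ^ m ≤ C := hC ⟨m, rfl⟩
  have h3 : (0 : ℝ) < 2 ^ m := by positivity
  rw [div_le_iff₀ h3] at h2
  have h4 : (m : ℝ) ^ N ≤ (⌈C⌉₊ : ℝ) * 2 ^ m :=
    h2.trans (mul_le_mul_of_nonneg_right (Nat.le_ceil C) h3.le)
  exact_mod_cast h4

theorem polylog (N : ℕ) : ∃ C : ℕ, ∀ k D : ℕ, 2 ^ k ≤ D ^ 10 → (k + 5) ^ N ≤ C * D := by
  obtain ⟨C, hC⟩ := pow_le_two_pow N
  refine ⟨15 ^ N * C * 2, fun k D h => ?_⟩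
  set m := k / 10 with hm
  have h1 : 2 ^ m ≤ D := by
    have h2 : (2 ^ m) ^ 10 ≤ D ^ 10 := by
      rw [← pow_mul]
      exact (Nat.pow_le_pow_right (by norm_num) (by omega)).trans h
    exact (Nat.pow_le_pow_iff_left (by norm_num)).1 h2
  calc (k + 5) ^ N ≤ (15 * (m + 1)) ^ N := Nat.pow_le_pow_left (by omega) N
    _ = 15 ^ N * (m + 1) ^ N := mul_pow _ _ _
    _ ≤ 15 ^ N * (C * 2 ^ (m + 1)) := Nat.mul_le_mul_left _ (hC _)
    _ = 15 ^ N * C * 2 * 2 ^ m := by ring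
    _ ≤ 15 ^ N * C * 2 * D := Nat.mul_le_mul_left _ h1

theorem num (A R : ℕ) (hA : 1 ≤ A) : ∃ C : ℕ, ∀ D r k n M : ℕ, 1 ≤ D → 2 ^ k ≤ D ^ 10 →
    2 ^ r ≤ D ^ 2 → n ^ A ≤ D ^ (A - 1) → M ≤ r * D * (R * (5040 * (k + 5) ^ 2 * n)) →
    M ^ (2 * A) ≤ C * D ^ (2 * (2 * A) - 1) := by
  obtain ⟨C, hC⟩ := polylog (3 * (2 * A))
  refine ⟨(5040 * R) ^ (2 * A) * C, ?_⟩
  intro D r k n M hD hk hr hn hM
  set K := max r k with hK
  have h1 : 2 ^ K ≤ D ^ 10 := by
    rcases max_choice r k with h | h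
    · rw [hK, h]
      exact hr.trans (Nat.pow_le_pow_right hD (by norm_num))
    · rw [hK, h]
      exact hk
  have h2 := hC K D h1
  have h3 : M ≤ D * (5040 * R) * (K + 5) ^ 3 * n := by
    refine hM.trans ?_
    have h4 : r ≤ K + 5 := (le_max_left _ _).trans (Nat.le_add_right _ _)
    have h5 : k + 5 ≤ K + 5 := Nat.add_le_add_right (le_max_right _ _) _
    calc r * D * (R * (5040 * (k + 5) ^ 2 * n)) = D * (5040 * R) * (r * (k + 5) ^ 2) * n := by
          ring
      _ ≤ D * (5040 * R) * ((K + 5) * (K + 5) ^ 2) * n := by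
          apply Nat.mul_le_mul_right
          apply Nat.mul_le_mul_left
          exact Nat.mul_le_mul h4 (Nat.pow_le_pow_left h5 2)
      _ = _ := by ring
  calc M ^ (2 * A) ≤ (D * (5040 * R) * (K + 5) ^ 3 * n) ^ (2 * A) := Nat.pow_le_pow_left h3 _
    _ = D ^ (2 * A) * (5040 * R) ^ (2 * A) * (K + 5) ^ (3 * (2 * A)) * (n ^ A) ^ 2 := by
        rw [mul_pow, mul_pow, mul_pow, ← pow_mul, ← pow_mul, mul_comm A 2]
    _ ≤ D ^ (2 * A) * (5040 * R) ^ (2 * A) * (C * D) * (D ^ (A - 1)) ^ 2 :=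
        Nat.mul_le_mul (Nat.mul_le_mul_left _ h2) (Nat.pow_le_pow_left hn 2)
    _ = (5040 * R) ^ (2 * A) * C * (D ^ (2 * A) * D * (D ^ (A - 1)) ^ 2) := by ring
    _ = (5040 * R) ^ (2 * A) * C * D ^ (2 * (2 * A) - 1) := by
        congr 1
        rw [← pow_succ, ← pow_mul, ← pow_add]
        congr 1
        omega

/-! ## The pair -/

theorem indep {G V : Type} [Group G] [Finite G] [AddCommGroup V] [Module ℚ V]
    (ρ : Representation ℚ G V) (h : G) {v : V} (h1 : ρ h v ≠ v) (h2 : ρ h v ≠ -v) :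
    LinearIndependent ℚ ![v, ρ h v] := by
  have hv : v ≠ 0 := by
    rintro rfl
    exact h1 (map_zero _)
  rw [LinearIndependent.pair_iff' hv]
  intro c hc
  have hpow : ∀ n : ℕ, ρ (h ^ n) v = c ^ n • v := by
    intro n
    induction n with
    | zero => simp
    | succ n ih =>
      rw [pow_succ, map_mul, Module.End.mul_apply, ← hc, map_smul, ih, smul_smul, pow_succ,
        mul_comm]
  obtain ⟨n, hn, hn1⟩ := isOfFinOrder_iff_pow_eq_one.1 (isOfFinOrder_of_finite h)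
  have h3 := hpow n
  rw [hn1, map_one, Module.End.one_apply] at h3
  have h4 : c ^ n = 1 := by
    by_contra hne
    have h5 : (c ^ n - 1) • v = 0 := by rw [sub_smul, one_smul, ← h3, sub_self]
    rcases smul_eq_zero.1 h5 with h6 | h6
    · exact hne (sub_eq_zero.1 h6)
    · exact hv h6
  have h5 : |c| = 1 := by
    have h6 : |c| ^ n = 1 := by rw [← abs_pow, h4, abs_one]
    exact (pow_eq_one_iff_of_nonneg (abs_nonneg c) (by omega)).1 h6
  rcases abs_eq (by norm_num : (0 : ℚ) ≤ 1) |>.1 h5 with h6 | h6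
  · rw [h6, one_smul] at hc
    exact h1 hc.symm
  · rw [h6, neg_one_smul] at hc
    exact h2 hc.symm

section Pair

variable {G Ω : Type} [Group G] [Finite G] [Finite Ω] [MulAction G Ω]

theorem oS_le {B C : Subgroup G} (x : Ω) {n : ℕ} (φ : B →* alternatingGroup (Fin n))
    (hφ : Function.Surjective φ) (hker : φ.ker = C.subgroupOf B) {R : ℕ}
    (hR : (oS C x).ncard ≤ R) (hn : n ≤ 7) : (oS B x).ncard ≤ R * 5040 := by
  choose bq hbq using hφ
  let U : Finset Ω := (Finset.univ : Finset (alternatingGroup (Fin n))).biUnion fun q =>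
    (Set.toFinite ((fun w => (bq q : G) • w) '' oS C x)).toFinset
  have hsub : oS B x ⊆ (U : Set Ω) := by
    rintro z ⟨b, hb, rfl⟩
    rw [Finset.mem_coe, Finset.mem_biUnion]
    refine ⟨φ ⟨b, hb⟩, Finset.mem_univ _, ?_⟩
    rw [Set.Finite.mem_toFinset]
    have h2 : (bq (φ ⟨b, hb⟩))⁻¹ * ⟨b, hb⟩ ∈ φ.ker := by
      rw [MonoidHom.mem_ker, map_mul, map_inv, hbq, inv_mul_cancel]
    rw [hker, Subgroup.mem_subgroupOf] at h2
    refine ⟨_, ⟨_, h2, rfl⟩, ?_⟩
    change (bq (φ ⟨b, hb⟩) : G) • ((((bq (φ ⟨b, hb⟩))⁻¹ * ⟨b, hb⟩ : B) : G) • x) = b • x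
    rw [← mul_smul]
    congr 1
    rw [Subgroup.coe_mul, Subgroup.coe_inv, mul_inv_cancel_left]
  have h1 := Set.ncard_le_ncard hsub (Set.toFinite _)
  rw [Set.ncard_coe_finset] at h1
  refine h1.trans ?_
  have h2 : U.card ≤ (Finset.univ : Finset (alternatingGroup (Fin n))).card * R := by
    refine Finset.card_biUnion_le_card_mul _ _ _ ?_
    intro q _
    rw [← Set.ncard_eq_toFinset_card]
    exact (Set.ncard_image_le (Set.toFinite _)).trans hR
  refine h2.trans ?_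
  rw [mul_comm]
  apply Nat.mul_le_mul_left
  rw [Finset.card_univ]
  calc Fintype.card (alternatingGroup (Fin n)) ≤ Fintype.card (Perm (Fin n)) :=
        Fintype.card_le_of_injective _ Subtype.val_injective
    _ = n.factorial := by rw [Fintype.card_perm, Fintype.card_fin]
    _ ≤ Nat.factorial 7 := Nat.factorial_le hn
    _ = 5040 := rfl

theorem alt_pair {V : Type} [AddCommGroup V] [Module ℚ V] (ρ : Representation ℚ G V)
    (f : Ω → V) (hf : ∀ (g : G) (x : Ω), f (g • x) = ρ g (f x)) (hinj : Function.Injective f)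
    (x : Ω) (W C B : Subgroup G) (hWx : W ≤ MulAction.stabilizer G x) (hCB : C ≤ B)
    (hWC : ∀ g ∈ W, ∀ h ∈ C, g * h * g⁻¹ ∈ C) (hWB : ∀ g ∈ W, ∀ h ∈ B, g * h * g⁻¹ ∈ B)
    (hBC : ∀ g ∈ B, ∀ h ∈ C, g * h * g⁻¹ ∈ C) {R : ℕ} (hR : (oS C x).ncard ≤ R)
    (hlt : ∃ b ∈ B, b • x ∉ oS C x) {n : ℕ} (φ : B →* alternatingGroup (Fin n))
    (hφ : Function.Surjective φ) (hker : φ.ker = C.subgroupOf B) :
    ∃ h ∈ B, LinearIndependent ℚ (fun i => f ((![x, h • x] : Fin 2 → Ω) i)) ∧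
      ∃ k : ℕ, 2 ^ k ≤ (oS B x).ncard ^ 10 ∧
        Nat.card (MulAction.orbit G (![x, h • x] : Fin 2 → Ω)) ≤
          W.index * (R * (5040 * (k + 5) ^ 2 * n)) := by
  obtain ⟨h, hh3, hhx⟩ := exists_tc hBC x φ hφ hker hlt
  have hn3 : 3 ≤ n := by
    have h1 := hh3.card_support
    have h2 : ((φ h : alternatingGroup (Fin n)) : Perm (Fin n)).support.card ≤ n := by
      refine (Finset.card_le_univ _).trans ?_
      rw [Fintype.card_fin]
    omega
  refine ⟨h, h.2, ?_, ?_⟩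
  · have h5 : (fun i => f ((![x, (h : G) • x] : Fin 2 → Ω) i)) = ![f x, ρ (h : G) (f x)] := by
      funext i
      fin_cases i
      · rfl
      · exact hf h x
    rw [h5]
    apply indep
    · rw [← hf]
      intro h6
      apply hhx
      rw [hinj h6]
      exact self_oS C x
    · rw [← hf]
      intro h6
      have h7 : (h : G) • (h : G) • x = x := by
        apply hinj
        rw [hf, h6, map_neg, ← hf, h6, neg_neg]
      have h8 : h * h ∈ KK B C hBC x := by
        refine ⟨1, C.one_mem, ?_⟩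
        rw [one_smul, Subgroup.coe_mul, mul_smul, h7]
      have h9 : h * h * h ∈ φ.ker := by
        rw [MonoidHom.mem_ker]
        apply Subtype.ext
        rw [map_mul, map_mul]
        have h10 : ((φ h : alternatingGroup (Fin n)) : Perm (Fin n)) ^ 3 = 1 := by
          rw [← hh3.orderOf]
          exact pow_orderOf_eq_one _
        rw [pow_succ, pow_succ, pow_one] at h10
        exact h10
      have h10 := ker_le hBC x φ hker h9
      have h11 : (h * h)⁻¹ * (h * h * h) ∈ KK B C hBC x := Subgroup.mul_mem _ (Subgroup.inv_mem _ h8) h10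
      rw [inv_mul_cancel_left] at h11
      exact hhx h11
  · have hmove : ∀ w ∈ W, w • (h : G) • x = (w * h * w⁻¹) • x := by
      intro w hw
      have h1 : w⁻¹ • x = x := by
        rw [inv_smul_eq_iff]
        exact (MulAction.mem_stabilizer_iff.1 (hWx hw)).symm
      rw [mul_smul, h1, mul_smul]
    by_cases h8 : 8 ≤ n
    · obtain ⟨k, hk1, hk2⟩ := Z_le hBC x φ hφ hker (by omega) hR
      refine ⟨k, hk1, ?_⟩
      refine (orb_pair_le x ((h : G) • x) W hWx _ ?_).trans (Nat.mul_le_mul_left _ (hk2.trans ?_))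
      · intro w hw
        have hB : ∀ b, b ∈ B ↔ w * b * w⁻¹ ∈ B := by
          intro b
          refine ⟨fun hb => hWB w hw b hb, fun hb => ?_⟩
          have h1 := hWB w⁻¹ (W.inv_mem hw) _ hb
          have h2 : w⁻¹ * (w * b * w⁻¹) * w⁻¹⁻¹ = b := by group
          rwa [h2] at h1
        have hC : ∀ b, b ∈ C ↔ w * b * w⁻¹ ∈ C := by
          intro b
          refine ⟨fun hb => hWC w hw b hb, fun hb => ?_⟩
          have h1 := hWC w⁻¹ (W.inv_mem hw) _ hb
          have h2 : w⁻¹ * (w * b * w⁻¹) * w⁻¹⁻¹ = b := by group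
          rwa [h2] at h1
        exact ⟨⟨w * h * w⁻¹, (hB h).1 h.2⟩, tc_conj φ hφ hker h8 w hB hC h hh3,
          (hmove w hw).symm⟩
      · apply Nat.mul_le_mul_left
        apply Nat.mul_le_mul_right
        apply Nat.mul_le_mul_right
        norm_num
    · have h7 : n ≤ 7 := by omega
      refine ⟨0, ?_, ?_⟩
      · rw [pow_zero]
        apply Nat.one_le_pow
        exact (Set.ncard_pos (Set.toFinite _)).2 ⟨x, self_oS _ _⟩
      · refine (orb_pair_le x ((h : G) • x) W hWx (oS B x) ?_).trans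
          (Nat.mul_le_mul_left _ ((oS_le x φ hφ hker hR h7).trans ?_))
        · intro w hw
          exact ⟨w * h * w⁻¹, hWB w hw h h.2, (hmove w hw).symm⟩
        · apply Nat.mul_le_mul_left
          have h9 : 1 ≤ n := by omega
          calc 5040 = 5040 * 1 * 1 := rfl
            _ ≤ 5040 * (0 + 5) ^ 2 * n := Nat.mul_le_mul (by norm_num) h9

end Pair

theorem oS_eq {G Ω : Type} [Group G] [MulAction G Ω] (B : Subgroup G) (x : Ω) :
    Nat.card (MulAction.orbit B x) = (oS B x).ncard := by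
  rw [Nat.card_coe_set_eq]
  congr 1
  ext z
  constructor
  · rintro ⟨b, rfl⟩
    exact ⟨b, b.2, rfl⟩
  · rintro ⟨b, hb, rfl⟩
    exact ⟨⟨b, hb⟩, rfl⟩

end Pool.DynLehmer.LW.Alt

namespace Pool.DynLehmer.LW
open scoped Classical
open Alt

theorem altw : AltwStatement := by
  intro A hA Rb
  obtain ⟨C, hC⟩ := num A Rb hA
  refine ⟨C, ?_⟩
  intro G Ω V _ _ _ _ _ _ ρ f hf hinj x W B₀ B hWx hle hW0 hWB hBB r hr1 hr2 hR hlt n φ hφ hker hn
  rw [oS_eq] at hR
  rw [oS_eq, oS_eq] at hlt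
  have hex : ∃ b ∈ B, b • x ∉ oS B₀ x := by
    by_contra hcon
    push Not at hcon
    have h1 : oS B x ⊆ oS B₀ x := by
      rintro z ⟨b, hb, rfl⟩
      exact hcon b hb
    have h2 := Set.ncard_le_ncard h1 (Set.toFinite _)
    omega
  obtain ⟨h, hh, hind, k, hk1, hk2⟩ := alt_pair ρ f hf hinj x W B₀ B hWx hle hW0 hWB hBB hR hex φ
    hφ hker
  refine ⟨![x, h • x], ⟨0, rfl⟩, hind, ?_⟩
  have hD : 1 ≤ Fintype.card Ω := Fintype.card_pos_iff.2 ⟨x⟩
  have h1 : (oS B x).ncard ≤ Fintype.card Ω := by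
    rw [← Nat.card_eq_fintype_card]
    exact Set.ncard_le_card _
  exact hC (Fintype.card Ω) r k n _ hD (hk1.trans (Nat.pow_le_pow_left h1 10)) hr2 hn
    (hk2.trans (Nat.mul_le_mul_right _ hr1))

theorem altg : AltgStatement := by
  intro A hA Rb
  obtain ⟨C, hC⟩ := altw A hA Rb
  refine ⟨C, ?_⟩
  intro G Ω V _ _ _ _ _ _ ρ f hf hinj htr x B₀ B hle hS0 hSB hBB hR hlt n φ hφ hker hn
  refine hC G Ω V ρ f hf hinj x (MulAction.stabilizer G x) B₀ B le_rfl hle hS0 hSB hBB 1 ?_ ?_ hR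
    hlt n φ hφ hker hn
  · rw [MulAction.index_stabilizer_of_transitive, Nat.card_eq_fintype_card, one_mul]
  · have h1 : 2 ≤ Fintype.card Ω := by
      have h2 : Nat.card (MulAction.orbit B x) ≤ Nat.card Ω := by
        rw [Nat.card_coe_set_eq]
        exact Set.ncard_le_card _
      have h3 : 1 ≤ Nat.card (MulAction.orbit B₀ x) := by
        rw [oS_eq]
        exact (Set.ncard_pos (Set.toFinite _)).2 ⟨x, self_oS _ _⟩
      rw [Nat.card_eq_fintype_card (α := Ω)] at h2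
      omega
    calc 2 ^ 1 ≤ 2 ^ 2 := by norm_num
      _ ≤ _ := Nat.pow_le_pow_left h1 2

end Pool.DynLehmer.LW
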