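import Pool.Agent.Lib.MP_2194ec_nt.LW.GrppB
import Pool.Agent.Lib.MP_2194ec_nt.LW.DefsAlt

set_option autoImplicit false

/-!
# The row GRPQA: large simple sections, with the clause for alternating groups
-/

namespace Pool.DynLehmer.LW
open scoped Classical

/-- Row GRPQA. -/
theorem grpqa (hGram : GramStatement) (hMod : ModtStatement) (hAlt : AltgStatement) :
    GrpqaStatement := by
  intro A hA
  obtain ⟨R₁, k₁, A₁, C₁, hA₁, h1⟩ := grpq' hGram hMod (A + 1) (by omega)
  obtain ⟨C₂, h2⟩ := hAlt A hA R₁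
  refine ⟨R₁ ^ (A + 1) + 1, max k₁ 2, A₁ * (2 * A), C₁ ^ (2 * A) + C₂ ^ A₁ + 1,
    Nat.one_le_iff_ne_zero.2 (by positivity), ?_⟩
  intro G Ω V _ _ _ _ _ _ ρ f hf hinj htr x hR
  obtain ⟨D, hD⟩ : ∃ D : ℕ, Fintype.card Ω = D := ⟨_, rfl⟩
  have hR1 : R₁ ≤ R₁ ^ (A + 1) := Nat.le_self_pow (by omega) _
  have h3 := h1 G Ω V ρ f hf hinj htr x (by omega)
  have h4 := h2 G Ω V ρ f hf hinj htr x
  rw [hD] at hR h3 h4 ⊢
  have hDpos : 1 ≤ D := by omega
  obtain ⟨k, y, hk2, hk, hind, hc⟩ | ⟨B₀, B, hn, hS, hi, h0, hb⟩ := h3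
  · left
    refine ⟨k, y, hk2, hk.trans (le_max_left _ _), hind, ?_⟩
    have h5 := Pp.exp_up (a := 2 * A) hDpos hk2 hA₁ (by omega) hc
    rw [mul_comm A₁ (2 * A)]
    exact h5.trans (Nat.mul_le_mul_right _ (by
      have : 0 ≤ C₂ ^ A₁ := Nat.zero_le _
      omega))
  · have hb' : D ^ A < (Nat.card (MulAction.orbit B x)) ^ (A + 1) := by
      rwa [Nat.add_sub_cancel] at hb
    have hDA : D ≤ D ^ A := Nat.le_self_pow (by omega) _
    by_cases halt : ∀ (n : ℕ) (φ : B →* alternatingGroup (Fin n)), Function.Surjective φ →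
        φ.ker = B₀.subgroupOf B → D ^ (A - 1) < n ^ A
    · right
      refine ⟨B₀, B, hn, hS, ?_, h0.trans (by omega), ?_, halt⟩
      · exact lt_of_le_of_lt (Nat.pow_le_pow_right hDpos (by omega)) hi
      · by_contra hcon
        push Not at hcon
        have h5 : (D ^ A) ^ A < ((Nat.card (MulAction.orbit B x)) ^ (A + 1)) ^ A :=
          Nat.pow_lt_pow_left hb' (by omega)
        have h6 : ((Nat.card (MulAction.orbit B x)) ^ (A + 1)) ^ A ≤ (D ^ (A - 1)) ^ (A + 1) := by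
          rw [← pow_mul, mul_comm, pow_mul]
          exact Nat.pow_le_pow_left hcon _
        have h7 : (D ^ (A - 1)) ^ (A + 1) ≤ (D ^ A) ^ A := by
          rw [← pow_mul, ← pow_mul]
          refine Nat.pow_le_pow_right hDpos ?_
          obtain ⟨a, rfl⟩ : ∃ a, A = a + 1 := ⟨A - 1, by omega⟩
          rw [Nat.add_sub_cancel]
          have h8 : (a + 1) * (a + 1) = a * (a + 1 + 1) + 1 := by ring
          omega
        exact absurd (lt_of_lt_of_le h5 (h6.trans h7)) (lt_irrefl _)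
    · left
      push Not at halt
      obtain ⟨n, φ, hφ, hker, hn'⟩ := halt
      have hlt : Nat.card (MulAction.orbit B₀ x) < Nat.card (MulAction.orbit B x) := by
        refine lt_of_le_of_lt h0 ?_
        refine lt_of_pow_lt_pow_left₀ (A + 1) (Nat.zero_le _) ?_
        omega
      obtain ⟨y, -, hy, hc⟩ := h4 B₀ B hS.lt.le (fun g hg h hh => hS.nor₀ g hg h hh)
        (fun g hg h hh => hS.nor g hg h hh) (fun g hg h hh => hS.nrm g hg h hh) h0 hlt n φ hφ
        hker hn'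
      refine ⟨2, y, le_rfl, le_max_right _ _, hy, ?_⟩
      have h5 := Pp.exp_up (a := A₁) hDpos le_rfl (by omega) hA₁ hc
      exact h5.trans (Nat.mul_le_mul_right _ (by
        have : 0 ≤ C₁ ^ (2 * A) := Nat.zero_le _
        omega))

end Pool.DynLehmer.LW
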