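import Pool.Agent.Lib.MP_2194ec_nt.LW.DefsMulD
import Pool.Agent.Lib.MP_2194ec_nt.LW.Grpm

set_option autoImplicit false

/-!
# Cubes in a section which has few conjugates under the stabilizer
-/

namespace Pool.DynLehmer.LW
open scoped Classical

/-- Row GRPW. -/
theorem grpw (hGram : GramStatement) (hMod : ModtStatement) : GrpwStatement := by
  intro A
  -- `2 ^ s ≥ 2 A s + 2 A + 2`
  obtain ⟨s, hs1, hs⟩ : ∃ s, 1 ≤ s ∧ 2 * A * s + 2 * A + 2 ≤ 2 ^ s := by
    have key : ∀ n : ℕ, n ^ 2 ≤ 2 ^ (n + 1) := by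
      intro n
      have h1 : ∀ n : ℕ, (n + 4) ^ 2 ≤ 2 ^ (n + 5) := by
        intro n
        induction n with
        | zero => norm_num
        | succ n ih =>
          have h2 : 2 ^ (n + 1 + 5) = 2 * 2 ^ (n + 5) := by
            rw [← pow_succ']
          rw [h2]
          have h3 : (n + 1 + 4) ^ 2 ≤ 2 * (n + 4) ^ 2 := by
            have h4 : 2 * (n + 4) ^ 2 = (n + 1 + 4) ^ 2 + (n ^ 2 + 6 * n + 7) := by ring
            rw [h4]
            exact Nat.le_add_right _ _
          omega
      rcases Nat.lt_or_ge n 4 with h | h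
      · interval_cases n <;> norm_num
      · obtain ⟨m, rfl⟩ := Nat.exists_eq_add_of_le h
        rw [add_comm 4 m]
        exact h1 m
    refine ⟨4 * A + 5, by omega, ?_⟩
    have h3 := key (4 * A + 4)
    have h4 : 4 * A + 4 + 1 = 4 * A + 5 := by ring
    rw [h4] at h3
    nlinarith
  refine ⟨s, 3 ^ ((16 ^ s) ^ 2), hs1, ?_⟩
  intro B
  refine ⟨(B ^ 2 ^ s) ^ 2, ?_⟩
  intro G Ω V _ _ _ _ _ _ ρ f hf hinj htr x P P₀ W _ hWx hWP hWP₀ hPP₀ hB hidx hW hbig
  rw [Cf.natCard_orbit] at hbig
  obtain ⟨h, hind⟩ := Cf.cube_ind hGram hMod s ρ f hf hinj x P hbig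
  set D := Fintype.card Ω with hD
  have hDpos : 1 ≤ D := Fintype.card_pos_iff.2 ⟨x⟩
  have hstab : (MulAction.stabilizer G x).index = D := by
    rw [MulAction.index_stabilizer_of_transitive, Nat.card_eq_fintype_card]
  have hWi : W.index ≤ D ^ A * D := by
    rw [← Subgroup.relIndex_mul_index hWx, hstab]
    exact Nat.mul_le_mul_right _ hW
  have horb := Cf.cube_orb (L := P₀) (H := P) (W := W) (x := x) hPP₀ hWP₀ hWP
    (fun w hw => MulAction.mem_stabilizer_iff.1 (hWx hw)) (B := B) (by
      rintro z ⟨p, hp, rfl⟩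
      have h1 : Cf.Ob P₀ (p • x) = (fun w => p • w) '' Cf.Ob P₀ x := by
        ext w
        constructor
        · rintro ⟨l, hl, rfl⟩
          refine ⟨(p⁻¹ * l * p) • x, ⟨p⁻¹ * l * p, ?_, rfl⟩, ?_⟩
          · have := hPP₀ p⁻¹ (P.inv_mem hp) l hl
            rwa [inv_inv] at this
          · change p • ((p⁻¹ * l * p) • x) = l • (p • x)
            rw [← mul_smul, ← mul_smul]
            congr 1
            group
        · rintro ⟨_, ⟨l, hl, rfl⟩, rfl⟩
          refine ⟨p * l * p⁻¹, hPP₀ p hp l hl, ?_⟩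
          change (p * l * p⁻¹) • (p • x) = p • (l • x)
          rw [← mul_smul, ← mul_smul]
          congr 1
          group
      rw [Cf.oc, h1, Set.ncard_image_of_injective _ (MulAction.injective p)]
      rw [Cf.natCard_orbit] at hB
      exact hB) h
  have e : (Fin s → Bool) ≃ Fin (2 ^ s) := Fintype.equivFinOfCardEq (by
    rw [Fintype.card_fun, Fintype.card_bool, Fintype.card_fin])
  refine ⟨fun i => ((cube h (e.symm i) : P) : G) • x, ⟨e (fun _ => false), ?_⟩, ?_, ?_⟩
  · change ((cube h (e.symm (e fun _ => false)) : P) : G) • x = x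
    rw [Equiv.symm_apply_apply]
    have h1 : cube h (fun _ => false) = 1 := by
      simp [cube]
    rw [h1]
    simp
  · exact hind.comp _ e.symm.injective
  · have h1 : Nat.card (MulAction.orbit G (fun i => ((cube h (e.symm i) : P) : G) • x)) =
        Nat.card (MulAction.orbit G (fun e : Fin s → Bool => ((cube h e : P) : G) • x)) := by
      rw [Nat.card_coe_set_eq, Nat.card_coe_set_eq, ← MulAction.index_stabilizer,
        ← MulAction.index_stabilizer]
      congr 1
      ext g
      simp only [MulAction.mem_stabilizer_iff]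
      constructor
      · intro hg
        funext j
        have := congrFun hg (e j)
        simpa using this
      · intro hg
        funext i
        have := congrFun hg (e.symm i)
        simpa using this
    rw [h1]
    have h2 : (P₀.relIndex P) ^ s * W.index * B ^ 2 ^ s ≤ D ^ (A * s + A + 1) * B ^ 2 ^ s := by
      apply Nat.mul_le_mul_right
      have h3 : D ^ (A * s + A + 1) = (D ^ A) ^ s * (D ^ A * D) := by
        rw [pow_succ, pow_add, pow_mul]
        ring
      rw [h3]
      exact Nat.mul_le_mul (Nat.pow_le_pow_left hidx s) hWi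
    calc _ ≤ (D ^ (A * s + A + 1) * B ^ 2 ^ s) ^ 2 := Nat.pow_le_pow_left (horb.trans h2) 2
      _ = (B ^ 2 ^ s) ^ 2 * D ^ (2 * A * s + 2 * A + 2) := by
          rw [mul_pow, ← pow_mul, mul_comm]
          congr 2
          ring
      _ ≤ (B ^ 2 ^ s) ^ 2 * D ^ 2 ^ s :=
          Nat.mul_le_mul_left _ (Nat.pow_le_pow_right hDpos hs)

end Pool.DynLehmer.LW
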