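import Pool.Agent.Lib.MP_2194ec_nt.LW.Grpo
import Pool.Agent.Lib.MP_2194ec_nt.LW.Grpqa
import Pool.Agent.Lib.MP_2194ec_nt.LW.Altg
import Pool.Agent.Lib.MP_2194ec_nt.LW.GramRow
import Pool.Agent.Lib.MP_2194ec_nt.LW.Modt
import Pool.Agent.Lib.MP_2194ec_nt.LW.Grpw

set_option autoImplicit false

namespace Pool.DynLehmer.LW

/-- Row GRPO, complete. -/
theorem grpoAll : GrpoStatement := grpo gram modt (grpw gram modt) (grpqa gram modt altg)

end Pool.DynLehmer.LW
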