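import Pool.Agent.Lib.MP_2194ec_nt.LW.ClB

set_option autoImplicit false
set_option linter.unusedSectionVars false

/-!
# Row CLSK, part 3: the relations of a minimal dependent set of coordinates
-/

namespace Pool.DynLehmer.LW
open MvPolynomial Pool.DynLehmer Pool.DynLehmer.GS
open scoped Classical

namespace Cl

variable {K : Type} [Field K] {k : ℕ}

/-- an irreducible factor that vanishes -/
theorem exists_factor {σ : Type} [Finite σ] {E : Type} [Field E] [Algebra K E] (z : σ → E)
    (Q : MvPolynomial σ K) : Q ≠ 0 → aeval z Q = 0 → ∃ G, Irreducible G ∧ G ∣ Q ∧ aeval z G = 0 := by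
  induction Q using WfDvdMonoid.induction_on_irreducible with
  | zero => exact fun h => absurd rfl h
  | unit u hu =>
    intro _ h
    exact absurd (hu.map (aeval z : MvPolynomial σ K →ₐ[K] E)) (by rw [h]; exact not_isUnit_zero)
  | mul a i ha hi ih =>
    intro _ h
    rw [map_mul, mul_eq_zero] at h
    rcases h with h | h
    · exact ⟨i, hi, dvd_mul_right i a, h⟩
    · obtain ⟨G, h1, h2, h3⟩ := ih ha h
      exact ⟨G, h1, h2.mul_left i, h3⟩

/-- an irreducible relation with minimal support -/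
theorem exists_min {E : Type} [Field E] [Algebra K E] {ξ : Fin k → Fin 2 → E}
    (hrel : ∃ (e : Fin k → ℕ) (Q : MvPolynomial (Fin k × Fin 2) K), MH e Q ∧ Q ≠ 0 ∧
      aeval (uc ξ) Q = 0) :
    ∃ (g : Fin k → ℕ) (G : MvPolynomial (Fin k × Fin 2) K), Irreducible G ∧ MH g G ∧
      aeval (uc ξ) G = 0 ∧ ∀ (e : Fin k → ℕ) (Q : MvPolynomial (Fin k × Fin 2) K), MH e Q →
        Q ≠ 0 → aeval (uc ξ) Q = 0 → (su g).card ≤ (su e).card := by
  let P : ℕ → Prop := fun n => ∃ (e : Fin k → ℕ) (Q : MvPolynomial (Fin k × Fin 2) K), MH e Q ∧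
    Q ≠ 0 ∧ aeval (uc ξ) Q = 0 ∧ (su e).card = n
  have hP : ∃ n, P n := by
    obtain ⟨e, Q, h1, h2, h3⟩ := hrel
    exact ⟨_, e, Q, h1, h2, h3, rfl⟩
  obtain ⟨e, Q, h1, h2, h3, h4⟩ := Nat.find_spec hP
  obtain ⟨G, hG1, hG2, hG3⟩ := exists_factor (uc ξ) Q h2 h3
  obtain ⟨g, hge, hg⟩ := mh_of_dvd h1 h2 hG2
  refine ⟨g, G, hG1, hg, hG3, fun e' Q' h5 h6 h7 => ?_⟩
  have h8 : (su g).card ≤ (su e).card := by
    refine Finset.card_le_card fun i hi => ?_
    rw [mem_su] at hi ⊢
    have h9 : g i ≤ e i := hge i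
    omega
  exact h8.trans (h4.trans_le (Nat.find_min' hP ⟨e', Q', h5, h6, h7, rfl⟩))

/-- irreducible polynomials in a part of the variables -/
theorem irr_of_rename {σ τ : Type} {f : σ → τ} (hf : Function.Injective f)
    {p : MvPolynomial σ K} (h : Irreducible (rename f p)) : Irreducible p := by
  refine ⟨fun hu => h.not_isUnit (hu.map (rename f : MvPolynomial σ K →ₐ[K] _)), fun a b hab => ?_⟩
  have key : ∀ a : MvPolynomial σ K, IsUnit (rename f a) → IsUnit a := by
    intro a ha
    have h1 := ha.map (killCompl hf : MvPolynomial τ K →ₐ[K] _)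
    rwa [killCompl_rename_app] at h1
  rcases h.isUnit_or_isUnit (by rw [hab, map_mul] : rename f p = rename f a * rename f b) with
    h1 | h1
  · exact Or.inl (key a h1)
  · exact Or.inr (key b h1)

theorem dvd_of_rename {σ τ : Type} {f : σ → τ} (hf : Function.Injective f)
    {p q : MvPolynomial σ K} (h : rename f p ∣ rename f q) : p ∣ q := by
  have h1 := map_dvd (killCompl hf : MvPolynomial τ K →ₐ[K] _) h
  rwa [killCompl_rename_app, killCompl_rename_app] at h1

/-- the variables of a multihomogeneous polynomial -/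
theorem exists_rename {τ : Type} {f : τ → Fin k × Fin 2} (hf : Function.Injective f)
    {e : Fin k → ℕ} {Q : MvPolynomial (Fin k × Fin 2) K} (hQ : MH e Q)
    (h : ∀ i ∈ su e, ∀ j, (i, j) ∈ Set.range f) : ∃ Q' : MvPolynomial τ K, rename f Q' = Q := by
  refine exists_rename_eq_of_vars_subset_range Q f hf ?_
  rintro ⟨i, j⟩ ha
  rw [Finset.mem_coe, mem_vars_iff_mem_support] at ha
  obtain ⟨t, ht, hta⟩ := ha
  refine h i ?_ j
  rw [mem_su, ← hQ t ht i]
  rw [Finsupp.mem_support_iff] at hta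
  fin_cases j
  · intro h0
    exact hta (Nat.eq_zero_of_add_eq_zero h0).1
  · intro h0
    exact hta (Nat.eq_zero_of_add_eq_zero h0).2

theorem X_pow_dvd {σ : Type} (a : σ) (n : ℕ) {Q : MvPolynomial σ K}
    (h : ∀ t ∈ Q.support, t a = n) : X a ^ n ∣ Q := by
  rw [Q.as_sum]
  refine Finset.dvd_sum fun t ht => ?_
  have h1 : Finsupp.single a n ≤ t := by
    rw [Finsupp.single_le_iff, h t ht]
  rw [X_pow_eq_monomial]
  refine ⟨monomial (t - Finsupp.single a n) (coeff t Q), ?_⟩
  rw [monomial_mul, one_mul, add_tsub_cancel_of_le h1]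

/-- the relations in the pairs of a minimal dependent set are the multiples of `G` -/
theorem principal (trd : TrdStatement) {E : Type} [Field E] [Algebra K E]
    {ξ : Fin k → Fin 2 → E} (hne : ∀ i, ξ i ≠ 0) {g : Fin k → ℕ}
    {G : MvPolynomial (Fin k × Fin 2) K} (hirr : Irreducible G) (hG : MH g G)
    (hG0 : aeval (uc ξ) G = 0)
    (hmin : ∀ (e : Fin k → ℕ) (Q : MvPolynomial (Fin k × Fin 2) K), MH e Q → Q ≠ 0 →
      aeval (uc ξ) Q = 0 → (su g).card ≤ (su e).card)
    {e : Fin k → ℕ} {Q : MvPolynomial (Fin k × Fin 2) K} (hQ : MH e Q)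
    (hQ0 : aeval (uc ξ) Q = 0) (hsu : su e ⊆ su g) : G ∣ Q := by
  let ι := {a : Fin k × Fin 2 // a.1 ∈ su g}
  have hval : Function.Injective (Subtype.val : ι → Fin k × Fin 2) := Subtype.val_injective
  obtain ⟨G', hG'⟩ := exists_rename hval hG fun i hi j => ⟨⟨(i, j), hi⟩, rfl⟩
  obtain ⟨Q', hQ'⟩ := exists_rename hval hQ fun i hi j => ⟨⟨(i, j), hsu hi⟩, rfl⟩
  let κ : MvPolynomial ι K →ₐ[K] MvPolynomial (Fin k) E :=
    (Ph (uc ξ)).comp (rename Subtype.val)
  let P' : Ideal (MvPolynomial ι K) := RingHom.ker κ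
  have hP' : P'.IsPrime := RingHom.ker_isPrime κ
  have hκ : ∀ (e : Fin k → ℕ) (R : MvPolynomial ι K), MH e (rename Subtype.val R) →
      aeval (uc ξ) (rename Subtype.val R) = 0 → R ∈ P' := by
    intro e R h1 h2
    show Ph (uc ξ) (rename Subtype.val R) = 0
    rw [ph_mh _ h1, h2, monomial_zero]
  have hG'P : G' ∈ P' := hκ g G' (by rw [hG']; exact hG) (by rw [hG']; exact hG0)
  have hQ'P : Q' ∈ P' := hκ e Q' (by rw [hQ']; exact hQ) (by rw [hQ']; exact hQ0)
  have hirr' : Irreducible G' := irr_of_rename hval (by rw [hG']; exact hirr)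
  let P : Ideal (MvPolynomial ι K) := Ideal.span {G'}
  have hP : P.IsPrime := (Ideal.span_singleton_prime hirr'.ne_zero).2 hirr'.prime
  have hPP' : P ≤ P' := by
    rw [Ideal.span_le, Set.singleton_subset_iff]
    exact hG'P
  have hPne : ⊥ ≠ P := by
    intro h
    have h1 : G' ∈ P := Ideal.subset_span rfl
    rw [← h, Ideal.mem_bot] at h1
    exact hirr'.ne_zero h1
  obtain ⟨h1, h2, h3, -⟩ := trd K ι ⊥ P Ideal.isPrime_bot hP bot_le
  obtain ⟨-, h5, h6, -⟩ := trd K ι P P' hP hP' hPP'
  have h7 : dimI P + 1 ≤ Fintype.card ι := by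
    have h8 : dimI P ≠ dimI (⊥ : Ideal (MvPolynomial ι K)) := fun h => hPne (h3 h)
    omega
  -- a pair
  have hcard : 0 < Fintype.card ι := by omega
  obtain ⟨⟨⟨i₀, jj⟩, hi₀⟩⟩ := Fintype.card_pos_iff.1 hcard
  obtain ⟨j₀, hj₀⟩ : ∃ j, ξ i₀ j ≠ 0 := by
    by_contra hcon
    push Not at hcon
    exact hne i₀ (funext hcon)
  obtain ⟨j₁, hj₁, hj⟩ : ∃ j₁ : Fin 2, j₁ ≠ j₀ ∧ ∀ j, j = j₀ ∨ j = j₁ := by
    fin_cases j₀
    · exact ⟨1, by decide, fun j => by fin_cases j <;> simp⟩
    · exact ⟨0, by decide, fun j => by fin_cases j <;> simp⟩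
  let a₁ : ι := ⟨(i₀, j₁), hi₀⟩
  let ι' := {a : ι // a ≠ a₁}
  have hsub : ∀ s : Finset (Fin k), s ⊆ su g → i₀ ∉ s → s.card < (su g).card := by
    intro s hs hi
    refine Finset.card_lt_card ⟨hs, fun h => hi (h hi₀)⟩
  -- independence
  have hind : AlgebraicIndependent K fun a : ι' => Ideal.Quotient.mk P' (X a.1) := by
    rw [algebraicIndependent_iff]
    intro r hr
    by_contra hr0
    let w : ι' → Fin k × Fin 2 := fun a => a.1.1
    have hw : Function.Injective w := fun a b hab => Subtype.ext (Subtype.ext hab)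
    have h8 : rename (Subtype.val : ι' → ι) r ∈ P' := by
      rw [← Ideal.Quotient.eq_zero_iff_mem, ← hr]
      have h9 : (aeval fun a : ι' => Ideal.Quotient.mk P' (X a.1) :
          MvPolynomial ι' K →ₐ[K] MvPolynomial ι K ⧸ P') =
          (Ideal.Quotient.mkₐ K P').comp (rename Subtype.val) := by
        refine algHom_ext fun a => ?_
        rw [aeval_X, AlgHom.comp_apply, rename_X]
        rfl
      rw [h9]
      rfl
    set R : MvPolynomial (Fin k × Fin 2) K := rename w r with hR
    have h9 : Ph (uc ξ) R = 0 := by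
      have h10 : Ph (uc ξ) (rename Subtype.val (rename (Subtype.val : ι' → ι) r)) = 0 := h8
      rw [rename_rename] at h10
      exact h10
    have hR0 : R ≠ 0 := fun h => hr0 (rename_injective w hw (h.trans (map_zero _).symm))
    obtain ⟨u, hu⟩ := exists_comp hR0
    have hu0 : aeval (uc ξ) (comp u R) = 0 := by rw [← coeff_ph, h9, coeff_zero]
    -- the exponents of `R`
    have hexp : ∀ t ∈ (comp u R).support, (∀ i ∉ su g, ∀ j, t (i, j) = 0) ∧ t (i₀, j₁) = 0 := by
      intro t ht
      have ht1 : coeff t R ≠ 0 := by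
        intro h
        rw [mem_support_iff, coeff_comp, h, ite_self] at ht
        exact ht rfl
      obtain ⟨s, rfl, -⟩ := coeff_rename_ne_zero w r t ht1
      constructor
      · intro i hi j
        rw [Finsupp.mapDomain_of_notMem_range]
        rintro ⟨a, ha⟩
        apply hi
        have := a.1.2
        rw [show a.1.1 = (i, j) from ha] at this
        exact this
      · rw [Finsupp.mapDomain_of_notMem_range]
        rintro ⟨a, ha⟩
        exact a.2 (Subtype.ext ha)
    have hdvd : X (i₀, j₀) ^ (u i₀) ∣ comp u R := by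
      refine X_pow_dvd _ _ fun t ht => ?_
      have h10 := mh_comp u R t ht i₀
      have h11 := (hexp t ht).2
      have h12 : t (i₀, 0) + t (i₀, 1) = t (i₀, j₀) + t (i₀, j₁) := by
        rcases hj 0 with h0 | h0
        · have h1' : (1 : Fin 2) = j₁ := by
            rcases hj 1 with h | h
            · exact absurd (h.trans h0.symm) (by decide)
            · exact h
          rw [← h0, ← h1']
        · have h1' : (1 : Fin 2) = j₀ := by
            rcases hj 1 with h | h
            · exact h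
            · exact absurd (h.trans h0.symm) (by decide)
          rw [← h0, ← h1', add_comm]
      omega
    obtain ⟨R', hR'⟩ := hdvd
    have hR'0 : R' ≠ 0 := by
      rintro rfl
      rw [mul_zero] at hR'
      exact hu hR'
    obtain ⟨b, hb, hb'⟩ := mh_of_dvd (mh_comp u R) hu ⟨X (i₀, j₀) ^ (u i₀), by
      rw [hR', mul_comm]⟩
    have hR'z : aeval (uc ξ) R' = 0 := by
      rw [hR', map_mul, map_pow, aeval_X, mul_eq_zero] at hu0
      rcases hu0 with h | h
      · exact absurd (eq_zero_of_pow_eq_zero h) hj₀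
      · exact h
    have hbi : b i₀ = 0 := by
      have h10 := mh_mul (mh_pow (mh_X (K := K) (i₀, j₀)) (u i₀)) hb'
      rw [← hR'] at h10
      have h11 := congrFun (mh_unique h10 (mh_comp u R) hu) i₀
      rw [Pi.add_apply, Pi.smul_apply, Pi.single_eq_same, smul_eq_mul, mul_one] at h11
      omega
    have h10 := hmin b R' hb' hR'0 hR'z
    have h11 := hsub (su b) (fun i hi => by
      by_contra hi'
      obtain ⟨t, ht⟩ := support_nonempty.2 hu
      have h12 := mh_comp u R t ht i
      rw [(hexp t ht).1 i hi', (hexp t ht).1 i hi'] at h12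
      have h13 : b i ≤ u i := hb i
      rw [mem_su] at hi
      omega) (fun h => (mem_su.1 h) hbi)
    omega
  have h8 := hind.cardinalMk_le_trdeg
  have h9 : Algebra.trdeg K (MvPolynomial ι K ⧸ P') < Cardinal.aleph0 :=
    trdeg_lt_aleph0_of_finiteType
  have h10 := Cardinal.toNat_le_toNat h8 h9
  have h11 : Cardinal.toNat (Cardinal.mk ι') = Fintype.card ι - 1 := by
    rw [Cardinal.mk_fintype, Cardinal.toNat_natCast]
    exact Set.card_ne_eq a₁
  rw [h11] at h10
  have h12 : Fintype.card ι - 1 ≤ dimI P' := h10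
  have h13 : P = P' := h6 (by omega)
  rw [← h13, Ideal.mem_span_singleton] at hQ'P
  rw [← hG', ← hQ']
  exact map_dvd _ hQ'P

end Cl

end Pool.DynLehmer.LW
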