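import Mathlib

set_option autoImplicit false
set_option linter.unusedSectionVars false

/-!
# Invariant hypersurfaces of power maps are cosets

If `G` divides `G (X ^ N)`, then the exponents of each irreducible factor of `G` (over an
algebraically closed field) are on a line, and the zeros of `G` are multiplicatively dependent.
-/

namespace Pool.DynLehmer.LW
open MvPolynomial
open scoped Classical

namespace Powd

variable {σ : Type} {Ω : Type} [Field Ω]

/-- multiplication of the variables by constants -/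
noncomputable def scl (c : σ → Ω) : MvPolynomial σ Ω →ₐ[Ω] MvPolynomial σ Ω :=
  bind₁ fun i => C (c i) * X i

theorem scl_X (c : σ → Ω) (i : σ) : scl c (X i) = C (c i) * X i := bind₁_X_right _ _

theorem scl_monomial (c : σ → Ω) (e : σ →₀ ℕ) (a : Ω) :
    scl c (monomial e a) = monomial e (a * e.prod fun i n => c i ^ n) := by
  rw [scl, bind₁_monomial, monomial_eq, C_mul, mul_assoc]
  congr 1
  rw [Finsupp.prod, Finsupp.prod, map_prod, ← Finset.prod_mul_distrib]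
  refine Finset.prod_congr rfl fun i _ => ?_
  rw [mul_pow, C_pow]

theorem coeff_scl (c : σ → Ω) (e : σ →₀ ℕ) (P : MvPolynomial σ Ω) :
    coeff e (scl c P) = coeff e P * e.prod fun i n => c i ^ n := by
  induction P using MvPolynomial.induction_on' with
  | monomial u a =>
    rw [scl_monomial, coeff_monomial, coeff_monomial]
    split_ifs with h
    · rw [h]
    · rw [zero_mul]
  | add p q hp hq => rw [map_add, coeff_add, coeff_add, hp, hq, add_mul]

theorem scl_scl (c d : σ → Ω) (P : MvPolynomial σ Ω) :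
    scl c (scl d P) = scl (fun i => c i * d i) P := by
  have h : (scl c).comp (scl d) = scl (fun i => c i * d i) := by
    refine MvPolynomial.algHom_ext fun i => ?_
    rw [AlgHom.comp_apply, scl_X, map_mul, scl_X, scl_X, C_mul]
    have : scl c (C (d i)) = C (d i) := (scl c).commutes (d i)
    rw [this]
    ring
  rw [← h, AlgHom.comp_apply]

theorem scl_one (P : MvPolynomial σ Ω) : scl (fun _ => (1 : Ω)) P = P := by
  have h : scl (fun _ : σ => (1 : Ω)) = AlgHom.id Ω _ := by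
    refine MvPolynomial.algHom_ext fun i => ?_
    rw [scl_X, C_1, one_mul, AlgHom.id_apply]
  rw [h, AlgHom.id_apply]

theorem prod_ne {c : σ → Ω} (hc : ∀ i, c i ≠ 0) (e : σ →₀ ℕ) : (e.prod fun i n => c i ^ n) ≠ 0 :=
  Finset.prod_ne_zero_iff.2 fun i _ => pow_ne_zero _ (hc i)

theorem supp_scl {c : σ → Ω} (hc : ∀ i, c i ≠ 0) (P : MvPolynomial σ Ω) :
    (scl c P).support = P.support := by
  ext e
  rw [mem_support_iff, mem_support_iff, coeff_scl]
  constructor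
  · intro h h0
    rw [h0, zero_mul] at h
    exact h rfl
  · intro h
    exact mul_ne_zero h (prod_ne hc e)

theorem deg_scl {c : σ → Ω} (hc : ∀ i, c i ≠ 0) (P : MvPolynomial σ Ω) (i : σ) :
    degreeOf i (scl c P) = degreeOf i P := by
  rw [degreeOf_eq_sup, degreeOf_eq_sup, supp_scl hc]

theorem irr_scl {c : σ → Ω} (hc : ∀ i, c i ≠ 0) {P : MvPolynomial σ Ω} (hP : Irreducible P) :
    Irreducible (scl c P) := by
  let e : MvPolynomial σ Ω ≃ₐ[Ω] MvPolynomial σ Ω := AlgEquiv.ofAlgHom (scl c)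
    (scl fun i => (c i)⁻¹)
    (by
      refine MvPolynomial.algHom_ext fun i => ?_
      rw [AlgHom.comp_apply, scl_scl]
      have : (fun i => c i * (c i)⁻¹) = fun _ : σ => (1 : Ω) := by
        funext i
        exact mul_inv_cancel₀ (hc i)
      rw [this, scl_one, AlgHom.id_apply])
    (by
      refine MvPolynomial.algHom_ext fun i => ?_
      rw [AlgHom.comp_apply, scl_scl]
      have : (fun i => (c i)⁻¹ * c i) = fun _ : σ => (1 : Ω) := by
        funext i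
        exact inv_mul_cancel₀ (hc i)
      rw [this, scl_one, AlgHom.id_apply])
  exact (MulEquiv.irreducible_iff (e : MvPolynomial σ Ω ≃* MvPolynomial σ Ω)).2 hP

/-- substitution of the powers -/
theorem scl_expand {M : ℕ} {c : σ → Ω} (hc : ∀ i, c i ^ M = 1) (P : MvPolynomial σ Ω) :
    scl c (expand M P) = expand M P := by
  have h : (scl c).comp (expand M) = (expand M : MvPolynomial σ Ω →ₐ[Ω] MvPolynomial σ Ω) := by
    refine MvPolynomial.algHom_ext fun i => ?_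
    rw [AlgHom.comp_apply, expand_X, map_pow, scl_X, mul_pow, ← C_pow, hc, C_1, one_mul]
  rw [← AlgHom.comp_apply, h]

theorem deg_expand {M : ℕ} (P : MvPolynomial σ Ω) (i : σ) :
    degreeOf i (expand M P) ≤ M * degreeOf i P := by
  rw [degreeOf_le_iff]
  intro m hm
  have h1 := support_expand_subset (p := M) P hm
  obtain ⟨a, ha, rfl⟩ := Finset.mem_image.1 h1
  show M * a i ≤ _
  exact Nat.mul_le_mul_left M (le_degreeOf_of_mem_support i ha)

/-- The translates by a box of roots of unity in the two variables. -/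
noncomputable def box (ζ : Ω) (a b : σ) (r : ℕ × ℕ) : σ → Ω := fun i =>
  (if i = a then ζ ^ r.1 else 1) * if i = b then ζ ^ r.2 else 1

theorem box_ne {ζ : Ω} (hζ : ζ ≠ 0) (a b : σ) (r : ℕ × ℕ) (i : σ) : box ζ a b r i ≠ 0 := by
  unfold box
  refine mul_ne_zero ?_ ?_ <;> split_ifs <;> first | exact pow_ne_zero _ hζ | exact one_ne_zero

theorem box_pow {ζ : Ω} {M : ℕ} (hζ : ζ ^ M = 1) (a b : σ) (r : ℕ × ℕ) (i : σ) :
    box ζ a b r i ^ M = 1 := by
  unfold box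
  rw [mul_pow]
  have h : ∀ n : ℕ, (ζ ^ n) ^ M = 1 := fun n => by rw [← pow_mul, mul_comm, pow_mul, hζ, one_pow]
  split_ifs <;> simp [h]

theorem box_prod [Fintype σ] (ζ : Ω) (a b : σ) (r : ℕ × ℕ) (e : σ →₀ ℕ) :
    (e.prod fun i n => box ζ a b r i ^ n) = ζ ^ (r.1 * e a + r.2 * e b) := by
  rw [Finsupp.prod_fintype _ _ (fun i => pow_zero _)]
  unfold box
  simp_rw [mul_pow, Finset.prod_mul_distrib, ite_pow, one_pow, Finset.prod_ite_eq',
    Finset.mem_univ, if_true, ← pow_mul, pow_add]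

theorem exists_prim [IsAlgClosed Ω] [CharZero Ω] {M : ℕ} (hM : 0 < M) :
    ∃ ζ : Ω, IsPrimitiveRoot ζ M := by
  have : NeZero (M : Ω) := ⟨by exact_mod_cast hM.ne'⟩
  have hd : (Polynomial.cyclotomic M Ω).degree ≠ 0 := by
    rw [Polynomial.degree_cyclotomic]
    exact_mod_cast (Nat.totient_pos.2 hM).ne'
  obtain ⟨ζ, hζ⟩ := IsAlgClosed.exists_root _ hd
  exact ⟨ζ, Polynomial.isRoot_cyclotomic_iff.1 hζ⟩

/-- coefficients of associated translates -/
theorem assoc_coeff {P Q : MvPolynomial σ Ω} (h : Associated P Q) :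
    ∃ c : Ω, ∀ e, coeff e Q = coeff e P * c := by
  obtain ⟨u, hu⟩ := h
  obtain ⟨c, -, hc⟩ := isUnit_iff_eq_C_of_isReduced.1 u.isUnit
  refine ⟨c, fun e => ?_⟩
  rw [← hu, hc, mul_comm, coeff_C_mul, mul_comm]

theorem minor_zero [Fintype σ] [IsAlgClosed Ω] [CharZero Ω] {g G : MvPolynomial σ Ω}
    (hg : Irreducible g) (hG : G ≠ 0) (hM : ∀ B : ℕ, ∃ M : ℕ, B ≤ M ∧ 0 < M ∧ g ∣ expand M G)
    {e0 e1 e2 : σ →₀ ℕ} (h0 : e0 ∈ g.support) (h1 : e1 ∈ g.support) (h2 : e2 ∈ g.support)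
    (a b : σ) :
    ((e1 a : ℤ) - e0 a) * ((e2 b : ℤ) - e0 b) = ((e1 b : ℤ) - e0 b) * ((e2 a : ℤ) - e0 a) := by
  by_contra hne
  set δ : ℤ := ((e1 a : ℤ) - e0 a) * ((e2 b : ℤ) - e0 b) -
    ((e1 b : ℤ) - e0 b) * ((e2 a : ℤ) - e0 a) with hδ
  have hδ0 : δ ≠ 0 := sub_ne_zero.2 hne
  set d : ℕ := δ.natAbs with hd
  have hd1 : 1 ≤ d := Nat.one_le_iff_ne_zero.2 (Int.natAbs_ne_zero.2 hδ0)
  -- a variable which occurs in `g`
  obtain ⟨c, hc⟩ : ∃ c, 1 ≤ degreeOf c g := by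
    by_contra hcon
    push Not at hcon
    have hz : ∀ e ∈ g.support, ∀ i, e i = 0 := fun e he i => by
      have h3 := le_degreeOf_of_mem_support (i := i) he
      have h4 := hcon i
      omega
    apply hne
    rw [hz e0 h0 a, hz e0 h0 b, hz e1 h1 a, hz e1 h1 b]
    simp
  set D : ℕ := degreeOf c G with hD
  obtain ⟨M, hMB, hM0, hdvd⟩ := hM (d * (2 * d * D + 1))
  obtain ⟨ζ, hζ⟩ := exists_prim (Ω := Ω) hM0
  have hζ0 : ζ ≠ 0 := hζ.ne_zero hM0.ne'
  set R : ℕ := M / d with hR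
  have hRd : R * d ≤ M := Nat.div_mul_le_self M d
  have hMR : M < (R + 1) * d := by
    have h3 := Nat.lt_div_mul_add (a := M) (b := d) (by omega)
    rw [← hR] at h3
    nlinarith
  have hR1 : 2 * d * D + 1 ≤ R := by
    rw [hR, Nat.le_div_iff_mul_le (by omega)]
    nlinarith
  let f : ℕ × ℕ → MvPolynomial σ Ω := fun r => scl (box ζ a b r) g
  have hf : ∀ r, Irreducible (f r) := fun r => irr_scl (box_ne hζ0 a b r) hg
  have hinj : ∀ r ∈ Finset.range R ×ˢ Finset.range R, ∀ r' ∈ Finset.range R ×ˢ Finset.range R,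
      Associated (f r) (f r') → r = r' := by
    intro r hr r' hr' hass
    obtain ⟨hr1, hr2⟩ := Finset.mem_product.1 hr
    obtain ⟨hr1', hr2'⟩ := Finset.mem_product.1 hr'
    rw [Finset.mem_range] at hr1 hr2 hr1' hr2'
    obtain ⟨κ, hκ⟩ := assoc_coeff hass
    have key : ∀ e ∈ g.support, ζ ^ (r'.1 * e a + r'.2 * e b) =
        ζ ^ (r.1 * e a + r.2 * e b) * κ := by
      intro e he
      have h3 := hκ e
      simp only [f] at h3
      rw [coeff_scl, coeff_scl, box_prod, box_prod, mul_assoc] at h3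
      exact mul_left_cancel₀ (mem_support_iff.1 he) h3
    have hk0 := key e0 h0
    have key2 : ∀ e ∈ g.support, (M : ℤ) ∣ ((r'.1 : ℤ) - r.1) * ((e a : ℤ) - e0 a) +
        ((r'.2 : ℤ) - r.2) * ((e b : ℤ) - e0 b) := by
      intro e he
      have h3 := key e he
      rw [← hζ.zpow_eq_one_iff_dvd]
      have h4 : ζ ^ ((r'.1 * e a + r'.2 * e b : ℕ) + (r.1 * e0 a + r.2 * e0 b : ℕ)) =
          ζ ^ ((r'.1 * e0 a + r'.2 * e0 b : ℕ) + (r.1 * e a + r.2 * e b : ℕ)) := by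
        rw [pow_add ζ (r'.1 * e a + r'.2 * e b), pow_add ζ (r'.1 * e0 a + r'.2 * e0 b), h3, hk0]
        ring
      have h5 : ((r'.1 : ℤ) - r.1) * ((e a : ℤ) - e0 a) +
        ((r'.2 : ℤ) - r.2) * ((e b : ℤ) - e0 b) =
        (((r'.1 * e a + r'.2 * e b : ℕ) + (r.1 * e0 a + r.2 * e0 b : ℕ) : ℕ) : ℤ) -
        (((r'.1 * e0 a + r'.2 * e0 b : ℕ) + (r.1 * e a + r.2 * e b : ℕ) : ℕ) : ℤ) := by
        push_cast
        ring
      rw [h5, zpow_sub₀ hζ0, zpow_natCast, zpow_natCast, h4, div_self (pow_ne_zero _ hζ0)]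
    have k1 := key2 e1 h1
    have k2 := key2 e2 h2
    have hx : (M : ℤ) ∣ δ * ((r'.1 : ℤ) - r.1) := by
      have h3 := dvd_sub (k1.mul_right ((e2 b : ℤ) - e0 b)) (k2.mul_right ((e1 b : ℤ) - e0 b))
      have h4 : δ * ((r'.1 : ℤ) - r.1) = (((r'.1 : ℤ) - r.1) * ((e1 a : ℤ) - e0 a) +
        ((r'.2 : ℤ) - r.2) * ((e1 b : ℤ) - e0 b)) * ((e2 b : ℤ) - e0 b) -
        (((r'.1 : ℤ) - r.1) * ((e2 a : ℤ) - e0 a) +
        ((r'.2 : ℤ) - r.2) * ((e2 b : ℤ) - e0 b)) * ((e1 b : ℤ) - e0 b) := by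
        rw [hδ]
        ring
      rw [h4]
      exact h3
    have hy : (M : ℤ) ∣ δ * ((r'.2 : ℤ) - r.2) := by
      have h3 := dvd_sub (k2.mul_right ((e1 a : ℤ) - e0 a)) (k1.mul_right ((e2 a : ℤ) - e0 a))
      have h4 : δ * ((r'.2 : ℤ) - r.2) = (((r'.1 : ℤ) - r.1) * ((e2 a : ℤ) - e0 a) +
        ((r'.2 : ℤ) - r.2) * ((e2 b : ℤ) - e0 b)) * ((e1 a : ℤ) - e0 a) -
        (((r'.1 : ℤ) - r.1) * ((e1 a : ℤ) - e0 a) +
        ((r'.2 : ℤ) - r.2) * ((e1 b : ℤ) - e0 b)) * ((e2 a : ℤ) - e0 a) := by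
        rw [hδ]
        ring
      rw [h4]
      exact h3
    have hsm : ∀ x y : ℕ, x < R → y < R → (M : ℤ) ∣ δ * ((x : ℤ) - y) → x = y := by
      intro x y hx hy hxy
      have h3 : δ * ((x : ℤ) - y) = 0 := by
        refine Int.eq_zero_of_abs_lt_dvd hxy ?_
        rw [abs_mul]
        have h4 : |δ| = d := by rw [hd]; exact (Int.natCast_natAbs δ).symm
        have h5 : |(x : ℤ) - y| < R := by
          rw [abs_lt]
          constructor <;> omega
        have h6 : |(x : ℤ) - y| + 1 ≤ R := h5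
        have h7 : ((R * d : ℕ) : ℤ) ≤ M := by exact_mod_cast hRd
        push_cast at h7
        rw [h4]
        have h8 : (1 : ℤ) ≤ d := by exact_mod_cast hd1
        nlinarith [abs_nonneg ((x : ℤ) - y)]
      rcases mul_eq_zero.1 h3 with h4 | h4
      · exact absurd h4 hδ0
      · omega
    exact Prod.ext (hsm _ _ hr1' hr1 hx).symm (hsm _ _ hr2' hr2 hy).symm
  have hprod : (∏ r ∈ Finset.range R ×ˢ Finset.range R, f r) ∣ expand M G := by
    refine Finset.prod_dvd_of_isRelPrime ?_ ?_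
    · intro r hr r' hr' hrr
      refine (hf r).isRelPrime_iff_not_dvd.2 fun hdv => hrr ?_
      exact hinj r (by simpa using hr) r' (by simpa using hr')
        ((hf r).associated_of_dvd (hf r') hdv)
    · intro r _
      have h3 := map_dvd (scl (box ζ a b r)) hdvd
      rwa [scl_expand (box_pow hζ.pow_eq_one a b r)] at h3
  have hE0 : expand M G ≠ 0 := (expand_ne_zero hM0).2 hG
  obtain ⟨Q, hQ⟩ := hprod
  have hQ0 : Q ≠ 0 := by
    rintro rfl
    rw [mul_zero] at hQ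
    exact hE0 hQ
  have hP0 : (∏ r ∈ Finset.range R ×ˢ Finset.range R, f r) ≠ 0 :=
    Finset.prod_ne_zero_iff.2 fun r _ => (hf r).ne_zero
  have hdeg : R * R * degreeOf c g ≤ M * D := by
    refine le_trans ?_ (deg_expand G c)
    rw [hQ, degreeOf_mul_eq hP0 hQ0, degreeOf_prod_eq _ _ fun r _ => (hf r).ne_zero]
    refine le_trans (le_of_eq ?_) (Nat.le_add_right _ _)
    rw [Finset.sum_congr rfl fun r _ => deg_scl (box_ne hζ0 a b r) g c, Finset.sum_const,
      Finset.card_product, Finset.card_range, smul_eq_mul]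
  have h3 : R * R ≤ M * D := le_trans (by nlinarith) hdeg
  have h4 : R * R ≤ (2 * R * d) * D := by
    refine h3.trans (Nat.mul_le_mul_right D ?_)
    nlinarith
  have h5 : R ≤ 2 * d * D := by
    have : R * R ≤ R * (2 * d * D) := by nlinarith
    exact Nat.le_of_mul_le_mul_left this (by omega)
  omega

theorem mulb_core [Fintype σ] [IsAlgClosed Ω] [CharZero Ω] {q : ℕ} (hq : 2 ≤ q)
    {G g : MvPolynomial σ Ω} (hG : G ≠ 0) (hd : ∀ j : ℕ, G ∣ expand (q ^ j) G)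
    (hg : Irreducible g) (hgG : g ∣ G)
    {r t u : σ →₀ ℕ} (hr : r ∈ g.support) (ht : t ∈ g.support) (hu : u ∈ g.support) (a b : σ) :
    ((t a : ℤ) - r a) * ((u b : ℤ) - r b) = ((t b : ℤ) - r b) * ((u a : ℤ) - r a) :=
  minor_zero hg hG (fun B => ⟨q ^ B, (Nat.lt_pow_self (by omega)).le, pow_pos (by omega) B,
    hgG.trans (hd B)⟩) hr ht hu a b

/-- integral monomials -/
noncomputable def zm [Fintype σ] (β : σ → Ω) (v : σ → ℤ) : Ω := ∏ i, β i ^ v i

theorem zm_add [Fintype σ] {β : σ → Ω} (hβ : ∀ i, β i ≠ 0) (v w : σ → ℤ) :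
    zm β (fun i => v i + w i) = zm β v * zm β w := by
  unfold zm
  rw [← Finset.prod_mul_distrib]
  exact Finset.prod_congr rfl fun i _ => zpow_add₀ (hβ i) _ _

theorem zm_smul [Fintype σ] (β : σ → Ω) (m : ℤ) (v : σ → ℤ) :
    zm β (fun i => m * v i) = zm β v ^ m := by
  unfold zm
  rw [← Finset.prod_zpow]
  refine Finset.prod_congr rfl fun i _ => ?_
  show β i ^ (m * v i) = _
  rw [mul_comm, zpow_mul]

theorem zm_ne [Fintype σ] {β : σ → Ω} (hβ : ∀ i, β i ≠ 0) (v : σ → ℤ) : zm β v ≠ 0 :=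
  Finset.prod_ne_zero_iff.2 fun i _ => zpow_ne_zero _ (hβ i)

theorem eval_sum [Fintype σ] (β : σ → Ω) (g : MvPolynomial σ Ω) :
    eval β g = ∑ e ∈ g.support, coeff e g * zm β (fun i => (e i : ℤ)) := by
  rw [eval_eq']
  refine Finset.sum_congr rfl fun e _ => ?_
  unfold zm
  congr 1
  exact Finset.prod_congr rfl fun i _ => (zpow_natCast _ _).symm

/-- The values of the character `e1 - e0` on the zeros of `g` are finite in number. -/
theorem fin_val [Fintype σ] [IsAlgClosed Ω] {g : MvPolynomial σ Ω} {e0 e1 : σ →₀ ℕ}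
    (h0 : e0 ∈ g.support) (hline : ∀ u ∈ g.support, ∀ a b : σ,
      ((e1 a : ℤ) - e0 a) * ((u b : ℤ) - e0 b) = ((e1 b : ℤ) - e0 b) * ((u a : ℤ) - e0 a))
    {a : σ} (ha : e0 a < e1 a) :
    {z : Ω | ∃ β : σ → Ω, (∀ i, β i ≠ 0) ∧ eval β g = 0 ∧
      z = zm β (fun i => (e1 i : ℤ) - e0 i)}.Finite := by
  obtain ⟨n, hn⟩ : ∃ n : ℕ, e1 a = e0 a + n := Nat.exists_eq_add_of_lt ha |>.imp
    (fun k hk => hk) |> fun ⟨k, hk⟩ => ⟨k + 1, by omega⟩
  have hn0 : 0 < n := by omega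
  have hnz : (e1 a : ℤ) - e0 a = n := by omega
  let Pl : (g.support → Ω) → Polynomial Ω := fun ξ =>
    ∑ e : g.support, Polynomial.monomial ((e : σ →₀ ℕ) a) (coeff (e : σ →₀ ℕ) g * ξ e)
  have hinj : ∀ e ∈ g.support, e a = e0 a → e = e0 := by
    intro e he hea
    ext b
    have h3 := hline e he a b
    rw [hnz, hea, sub_self, mul_zero] at h3
    rcases mul_eq_zero.1 h3 with h4 | h4
    · omega
    · omega
  have hPl : ∀ ξ : g.support → Ω, ξ ⟨e0, h0⟩ ≠ 0 → Pl ξ ≠ 0 := by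
    intro ξ hξ hz
    have h3 : (Pl ξ).coeff (e0 a) = coeff e0 g * ξ ⟨e0, h0⟩ := by
      simp only [Pl, Polynomial.finsetSum_coeff, Polynomial.coeff_monomial]
      rw [Finset.sum_eq_single ⟨e0, h0⟩]
      · simp
      · intro e _ hne
        rw [if_neg]
        intro h4
        exact hne (Subtype.ext (hinj e e.2 h4))
      · intro h4
        exact absurd (Finset.mem_univ _) h4
    rw [hz, Polynomial.coeff_zero] at h3
    exact mul_ne_zero (mem_support_iff.1 h0) hξ h3.symm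
  refine Set.Finite.subset (((Fintype.piFinset fun _ : g.support =>
    Polynomial.nthRootsFinset n (1 : Ω)).biUnion fun ξ =>
      (Pl ξ).roots.toFinset.image fun y => y ^ n) : Finset Ω).finite_toSet ?_
  rintro z ⟨β, hβ, hev, rfl⟩
  obtain ⟨y, hy⟩ := IsAlgClosed.exists_pow_nat_eq (zm β (fun i => (e1 i : ℤ) - e0 i)) hn0
  have hz0 := zm_ne hβ (fun i => (e1 i : ℤ) - e0 i)
  have hy0 : y ≠ 0 := by
    rintro rfl
    rw [zero_pow hn0.ne'] at hy
    exact hz0 hy.symm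
  let ξ : g.support → Ω := fun e =>
    zm β (fun i => ((e : σ →₀ ℕ) i : ℤ) - e0 i) * y ^ ((e0 a : ℤ) - (e : σ →₀ ℕ) a)
  have hξ0 : ∀ e, ξ e ≠ 0 := fun e => mul_ne_zero (zm_ne hβ _) (zpow_ne_zero _ hy0)
  have hξn : ∀ e, ξ e ^ n = 1 := by
    intro e
    have h3 : zm β (fun i => ((e : σ →₀ ℕ) i : ℤ) - e0 i) ^ n =
        (y ^ n) ^ (((e : σ →₀ ℕ) a : ℤ) - e0 a) := by
      rw [hy, ← zpow_natCast, ← zm_smul, ← zm_smul]
      congr 1
      funext i
      have h4 := hline e e.2 a i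
      rw [hnz] at h4
      rw [h4, mul_comm]
    show (zm β (fun i => ((e : σ →₀ ℕ) i : ℤ) - e0 i) * y ^ ((e0 a : ℤ) - (e : σ →₀ ℕ) a)) ^ n = 1
    rw [mul_pow, h3, ← zpow_natCast (y ^ ((e0 a : ℤ) - (e : σ →₀ ℕ) a)), ← zpow_mul, mul_comm _ (n : ℤ),
      zpow_mul, zpow_natCast, ← zpow_add₀ (pow_ne_zero _ hy0)]
    simp
  rw [Finset.mem_coe, Finset.mem_biUnion]
  refine ⟨ξ, ?_, ?_⟩
  · rw [Fintype.mem_piFinset]
    intro e
    rw [Polynomial.mem_nthRootsFinset hn0]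
    exact hξn e
  · rw [Finset.mem_image]
    refine ⟨y, ?_, hy⟩
    rw [Multiset.mem_toFinset, Polynomial.mem_roots (hPl ξ (hξ0 _)), Polynomial.IsRoot.def]
    simp only [Pl, Polynomial.eval_finsetSum, Polynomial.eval_monomial]
    have h3 : ∀ e : g.support, coeff (e : σ →₀ ℕ) g * ξ e * y ^ ((e : σ →₀ ℕ) a) =
        coeff (e : σ →₀ ℕ) g * zm β (fun i => ((e : σ →₀ ℕ) i : ℤ)) *
          (zm β (fun i => -(e0 i : ℤ)) * y ^ (e0 a)) := by
      intro e
      have h4 : ξ e = zm β (fun i => ((e : σ →₀ ℕ) i : ℤ)) * zm β (fun i => -(e0 i : ℤ)) *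
          y ^ ((e0 a : ℤ) - (e : σ →₀ ℕ) a) := by
        show zm β (fun i => ((e : σ →₀ ℕ) i : ℤ) - e0 i) * _ = _
        rw [← zm_add hβ]
        rfl
      have h5 : y ^ ((e0 a : ℤ) - (e : σ →₀ ℕ) a) * y ^ ((e : σ →₀ ℕ) a) = y ^ (e0 a) := by
        rw [← zpow_natCast y ((e : σ →₀ ℕ) a), ← zpow_add₀ hy0, sub_add_cancel, zpow_natCast]
      rw [h4, ← h5]
      ring
    rw [Finset.sum_congr rfl fun e _ => h3 e, ← Finset.sum_mul,
      Finset.sum_coe_sort g.support (fun e => coeff e g * zm β (fun i => (e i : ℤ))),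
      ← eval_sum, hev, zero_mul]

/-- Zeros of invariant polynomials are multiplicatively dependent. -/
theorem pow_dep [Fintype σ] [IsAlgClosed Ω] [CharZero Ω] {q : ℕ} (hq : 2 ≤ q)
    {G : MvPolynomial σ Ω} (hG : G ≠ 0) (hd : ∀ j : ℕ, G ∣ expand (q ^ j) G) {b : σ → Ω}
    (hb : ∀ i, b i ≠ 0) (hGb : eval b G = 0) :
    ∃ g : MvPolynomial σ Ω, Irreducible g ∧ g ∣ G ∧ ∃ e0 ∈ g.support, ∃ e1 ∈ g.support,
      e0 ≠ e1 ∧ ∃ m : ℤ, m ≠ 0 ∧ ∏ i, b i ^ (m * ((e1 i : ℤ) - e0 i)) = 1 := by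
  have hbj : ∀ j : ℕ, ∀ i, (b ^ (q ^ j)) i ≠ 0 := fun j i => pow_ne_zero _ (hb i)
  have hev : ∀ j : ℕ, eval (b ^ (q ^ j)) G = 0 := by
    intro j
    rw [← eval_expand]
    obtain ⟨Q, hQ⟩ := hd j
    rw [hQ, map_mul, hGb, zero_mul]
  have hfac : ∀ j : ℕ, ∃ g ∈ (UniqueFactorizationMonoid.factors G).toFinset,
      eval (b ^ (q ^ j)) g = 0 := by
    intro j
    have h3 := UniqueFactorizationMonoid.factors_prod hG
    obtain ⟨u, hu⟩ := h3
    have h4 : eval (b ^ (q ^ j)) (UniqueFactorizationMonoid.factors G).prod = 0 := by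
      have h5 := hev j
      rw [← hu, map_mul] at h5
      rcases mul_eq_zero.1 h5 with h6 | h6
      · exact h6
      · exact absurd h6 ((u.isUnit.map (eval (b ^ (q ^ j)))).ne_zero)
    rw [map_multiset_prod, Multiset.prod_eq_zero_iff, Multiset.mem_map] at h4
    obtain ⟨g, hg, hg0⟩ := h4
    exact ⟨g, Multiset.mem_toFinset.2 hg, hg0⟩
  choose g hgm hg0 using hfac
  obtain ⟨g₀, hinf⟩ := Finite.exists_infinite_fiber
    (fun j : ℕ => (⟨g j, hgm j⟩ : (UniqueFactorizationMonoid.factors G).toFinset))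
  have hmem : (g₀ : MvPolynomial σ Ω) ∈ UniqueFactorizationMonoid.factors G :=
    Multiset.mem_toFinset.1 g₀.2
  have hirr : Irreducible (g₀ : MvPolynomial σ Ω) :=
    UniqueFactorizationMonoid.irreducible_of_factor _ hmem
  have hdvd : (g₀ : MvPolynomial σ Ω) ∣ G := UniqueFactorizationMonoid.dvd_of_mem_factors hmem
  have hval : ∀ j : ((fun j : ℕ => (⟨g j, hgm j⟩ :
      (UniqueFactorizationMonoid.factors G).toFinset)) ⁻¹' {g₀} : Set ℕ),
      eval (b ^ (q ^ (j : ℕ))) (g₀ : MvPolynomial σ Ω) = 0 := by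
    intro j
    have h3 : g (j : ℕ) = g₀ := congrArg Subtype.val (Set.mem_singleton_iff.1 j.2)
    rw [← h3]
    exact hg0 _
  -- two exponents
  obtain ⟨e, he⟩ : (g₀ : MvPolynomial σ Ω).support.Nonempty :=
    support_nonempty.2 hirr.ne_zero
  obtain ⟨e', he', hne⟩ : ∃ e' ∈ (g₀ : MvPolynomial σ Ω).support, e' ≠ e := by
    by_contra hcon
    push Not at hcon
    have hs : (g₀ : MvPolynomial σ Ω).support = {e} := by
      ext x
      rw [Finset.mem_singleton]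
      exact ⟨fun hx => hcon x hx, fun hx => hx ▸ he⟩
    obtain ⟨j⟩ := (inferInstance : Nonempty ((fun j : ℕ => (⟨g j, hgm j⟩ :
      (UniqueFactorizationMonoid.factors G).toFinset)) ⁻¹' {g₀} : Set ℕ))
    have h3 := hval j
    rw [eval_sum, hs, Finset.sum_singleton] at h3
    exact mul_ne_zero (mem_support_iff.1 he) (zm_ne (hbj j) _) h3
  obtain ⟨a, ha⟩ : ∃ a, e' a ≠ e a := by
    by_contra hcon
    push Not at hcon
    exact hne (Finsupp.ext hcon)
  obtain ⟨e0, he0, e1, he1, ha'⟩ : ∃ e0 ∈ (g₀ : MvPolynomial σ Ω).support,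
      ∃ e1 ∈ (g₀ : MvPolynomial σ Ω).support, e0 a < e1 a := by
    rcases lt_or_gt_of_ne ha with h | h
    · exact ⟨e', he', e, he, h⟩
    · exact ⟨e, he, e', he', h⟩
  have hfin := fin_val he0 (fun u hu a b => mulb_core hq hG hd hirr hdvd he0 he1 hu a b) ha'
  obtain ⟨j, j', hjj, hz⟩ := @Finite.exists_ne_map_eq_of_infinite _ _ hinf hfin.to_subtype
    (fun j => (⟨zm (b ^ (q ^ (j : ℕ))) (fun i => (e1 i : ℤ) - e0 i),
      b ^ (q ^ (j : ℕ)), hbj j, hval j, rfl⟩ : {z : Ω | ∃ β : σ → Ω, (∀ i, β i ≠ 0) ∧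
        eval β (g₀ : MvPolynomial σ Ω) = 0 ∧ z = zm β (fun i => (e1 i : ℤ) - e0 i)}))
  have hz' : zm (b ^ (q ^ (j : ℕ))) (fun i => (e1 i : ℤ) - e0 i) =
      zm (b ^ (q ^ (j' : ℕ))) (fun i => (e1 i : ℤ) - e0 i) := congrArg Subtype.val hz
  have hp : ∀ n : ℕ, zm (b ^ n) (fun i => (e1 i : ℤ) - e0 i) =
      zm b (fun i => (n : ℤ) * ((e1 i : ℤ) - e0 i)) := by
    intro n
    unfold zm
    refine Finset.prod_congr rfl fun i _ => ?_
    rw [Pi.pow_apply, zpow_mul, zpow_natCast]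
  refine ⟨g₀, hirr, hdvd, e0, he0, e1, he1, fun h => ?_, (q ^ (j : ℕ) : ℕ) - (q ^ (j' : ℕ) : ℕ),
    ?_, ?_⟩
  · rw [h] at ha'
    exact lt_irrefl _ ha'
  · intro h
    have h3 : q ^ (j : ℕ) = q ^ (j' : ℕ) := by
      have := sub_eq_zero.1 h
      exact_mod_cast this
    exact hjj (Subtype.ext (Nat.pow_right_injective hq h3))
  · rw [hp, hp, zm_smul, zm_smul] at hz'
    show zm b (fun i => _ * ((e1 i : ℤ) - e0 i)) = 1
    rw [zm_smul, zpow_sub₀ (zm_ne hb _), hz', div_self (zpow_ne_zero _ (zm_ne hb _))]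

end Powd

end Pool.DynLehmer.LW
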