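import Pool.Agent.Lib.MP_2194ec_nt.LW.DefsMul
import Pool.Agent.Lib.MP_2194ec_nt.LW.ClC
import Pool.Agent.Lib.MP_2194ec_nt.LW.Powdep

set_option autoImplicit false
set_option linter.unusedSectionVars false

/-!
# Row CLSM: multiplicatively independent numbers are free for the power map
-/

namespace Pool.DynLehmer.LW
open MvPolynomial Pool.DynLehmer Pool.DynLehmer.GS
open scoped Classical

namespace Clsm

open Cl

theorem mor_pow (K : Type) [Field K] (q : ℕ) : Mor q (powF K q) := by
  refine ⟨fun i => ?_, fun N _ _ P hP => ?_⟩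
  · have h1 := (isHomogeneous_X K i).pow q
    rwa [one_mul] at h1
  · obtain ⟨i, hi⟩ := Function.ne_iff.1 hP
    refine Function.ne_iff.2 ⟨i, ?_⟩
    rw [gAct, powF, map_pow, aeval_X, Pi.zero_apply]
    exact pow_ne_zero _ hi

theorem bind_pow {K : Type} [Field K] (q k : ℕ) (Q : MvPolynomial (Fin k × Fin 2) K) :
    bind₁ (FX (powF K q) k) Q = expand q Q := by
  have h1 : (bind₁ (FX (powF K q) k) : MvPolynomial (Fin k × Fin 2) K →ₐ[K] _) = expand q := by
    ext1 a
    rw [bind₁_X_right, expand_X, FX, powF, map_pow, rename_X]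
  exact congrArg (fun f => f Q) h1

theorem iter_pow {K : Type} [Field K] (q k m : ℕ) (Q : MvPolynomial (Fin k × Fin 2) K) :
    (bind₁ (FX (powF K q) k))^[m] Q = expand (q ^ m) Q := by
  induction m with
  | zero => rw [pow_zero, expand_one_apply]; rfl
  | succ m ih => rw [Function.iterate_succ_apply', ih, bind_pow, ← expand_mul, ← pow_succ']

end Clsm

open Cl Clsm

/-- **Row CLSM.** -/
theorem clsm (trd : TrdStatement) : ClsmStatement := by
  intro K _ _ q hq N _ _ k b hb hind Fz hz hFz I hI hH m hm hinv hseg hrel hvan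
  have hF : Mor q (powF K q) := mor_pow K q
  have hy : ∀ i, (![b i, 1] : Fin 2 → N) ≠ 0 := fun i h => one_ne_zero (congrFun h 1)
  obtain ⟨E, _, _, ξ, gp⟩ := exists_gp hF hz hFz hI hH hinv hseg hrel hy hvan
  obtain ⟨g, G, hirr, hG, hG0, hmin⟩ := exists_min gp.rel
  have hdvd : G ∣ (bind₁ (FX (powF K q) k))^[m] G := by
    refine principal trd gp.ne hirr hG hG0 hmin (mh_iter hF.hom hG m) (gp.inv _ _ hG hG0) ?_
    intro i hi
    rw [mem_su] at hi ⊢
    intro h0
    rw [Pi.smul_apply, h0, smul_zero] at hi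
    exact hi rfl
  have hy0 : aeval (uc fun i => ![b i, 1]) G = 0 := gp.spec _ _ hG hG0
  rw [iter_pow] at hdvd
  have hdj : ∀ j : ℕ, G ∣ expand ((q ^ m) ^ j) G := by
    intro j
    induction j with
    | zero => rw [pow_zero, expand_one_apply]
    | succ j ih =>
      rw [pow_succ', expand_mul]
      exact hdvd.trans (map_dvd (expand (q ^ m)) ih)
  have : CharZero N := charZero_of_injective_algebraMap (algebraMap K N).injective
  obtain ⟨φ, hφ⟩ : ∃ φ : K →+* AlgebraicClosure N,
      φ = (algebraMap N (AlgebraicClosure N)).comp (algebraMap K N) := ⟨_, rfl⟩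
  have hGb0 : map φ G ≠ 0 := fun h => hirr.ne_zero
    (map_injective φ φ.injective (h.trans (map_zero _).symm))
  have hc : ∀ a, (algebraMap N (AlgebraicClosure N)) (uc (fun i => ![b i, 1]) a) ≠ 0 := by
    rintro ⟨i, j⟩
    rw [Ne, map_eq_zero]
    fin_cases j
    · exact hb i
    · exact one_ne_zero
  have he : eval (fun a => (algebraMap N (AlgebraicClosure N)) (uc (fun i => ![b i, 1]) a))
      (map φ G) = 0 := by
    have h1 := congrArg (algebraMap N (AlgebraicClosure N)) hy0
    rw [map_zero, aeval_def, eval₂_comp_left] at h1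
    rw [eval_map, hφ]
    exact h1
  have hqm : 2 ≤ q ^ m := hq.trans (Nat.le_self_pow (Nat.one_le_iff_ne_zero.1 hm) q)
  obtain ⟨g₁, hg₁, hg₁G, e₀, he₀, e₁, he₁, hne, n, hn, hrel'⟩ :=
    Powd.pow_dep hqm hGb0 (fun j => by
      rw [← map_expand]
      exact map_dvd (map φ) (hdj j)) hc he
  obtain ⟨e, -, hmh⟩ := mh_of_dvd (mh_map φ hG) hGb0 hg₁G
  have h0 := hmh e₀ he₀
  have h1 := hmh e₁ he₁
  -- the relation
  have h2 : ∏ i, b i ^ (n * ((e₁ (i, 0) : ℤ) - e₀ (i, 0))) = 1 := by
    apply (algebraMap N (AlgebraicClosure N)).injective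
    rw [map_one, map_prod, ← hrel', Fintype.prod_prod_type]
    refine Finset.prod_congr rfl fun i _ => ?_
    rw [Fin.prod_univ_two, map_zpow₀]
    have h3 : (algebraMap N (AlgebraicClosure N)) (uc (fun i => ![b i, 1]) (i, 1)) = 1 :=
      map_one _
    rw [h3, one_zpow, mul_one]
    rfl
  have h3 := hind _ h2
  apply hne
  refine Finsupp.ext ?_
  rintro ⟨i, j⟩
  have h4 := congrFun h3 i
  have h5 : (e₁ (i, 0) : ℤ) - e₀ (i, 0) = 0 :=
    (mul_eq_zero.1 h4).resolve_left hn
  have h6 := h0 i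
  have h7 := h1 i
  fin_cases j
  · show e₀ (i, 0) = e₁ (i, 0)
    omega
  · show e₀ (i, 1) = e₁ (i, 1)
    omega

end Pool.DynLehmer.LW
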