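import Pool.Agent.Lib.MP_2194ec_nt.LW.Fino
import Pool.Agent.Lib.MP_2194ec_nt.LW.GrppC

set_option autoImplicit false
set_option linter.unusedSectionVars false

/-!
# The Lehmer bound and primitive almost simple groups: assembly of the sharp form
-/

namespace Pool.DynLehmer.LW
open MvPolynomial NumberField Filter Topology Pool.DynLehmer Pool.DynLehmer.SB Pool.DynLehmer.SP
  Pool.DynLehmer.GS Pool.DynLehmer.LP
open scoped Classical

/-- The Lehmer bound for algebraic numbers whose Galois group is not a primitive almost simple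
group, essentially; sharp form, with `[W : S] ≤ 2`. `S` is the stabilizer of the class of `a`
modulo roots of unity. -/
def Mulo2Statement : Prop :=
  ∀ A : ℕ, 1 ≤ A → ∀ (K : Type) [Field K] [NumberField K], ∃ c : ℝ, 0 < c ∧
    ∀ (N : Type) [Field N] [NumberField N] [Algebra K N] [IsGalois K N] (a : N), a ≠ 0 →
      (∀ n : ℕ, 1 ≤ n → a ^ n ≠ 1) →
      ∃ S : Subgroup (N ≃ₐ[K] N), (∀ g, g ∈ S ↔ ∃ r : ℕ, 1 ≤ r ∧ (g a) ^ r = a ^ r) ∧
      (c / (Module.finrank K (IntermediateField.adjoin K {a}) : ℝ) ≤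
        Height.logHeight ![a, 1] / (Module.finrank ℚ N : ℝ) ∨
      Ind a S A ∧ Pas S A 2)

open FinM FinZ FinO in
/-- **The Lehmer bound for all algebraic numbers whose Galois group is not a primitive almost
simple group, essentially.** -/
theorem fino2 (hFin : FingStatement) (hGrp : Grpo2Statement) (hNorm : NormbStatement)
    (hRep : RepmStatement) : Mulo2Statement := by
  intro A hA
  obtain ⟨R, k₀, A', C₀, hA', hG⟩ := hGrp A hA
  intro K _ _
  obtain ⟨c, hc, hmain⟩ := hFin K (max k₀ A) (A * A') ((max (max C₀ R) 1) ^ A)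
    (Nat.mul_pos hA hA')
  refine ⟨c, hc, ?_⟩
  intro N _ _ _ _ a ha0 hat
  have hfd : FiniteDimensional K N := Module.Finite.of_restrictScalars_finite ℚ K N
  obtain ⟨b, μ, hμ, hb0, hba, hbw, hbt, hdeg, hht, r₀, hr₀, hbr⟩ := hNorm K N a ha0
  have hbt := hbt hat
  have hconj : ∀ (σ τ : N ≃ₐ[K] N) (Q : ℕ), 1 ≤ Q → (σ b) ^ Q = (τ b) ^ Q → σ b = τ b := by
    intro σ τ Q hQ h1
    have h2 : ((τ⁻¹ * σ) b) ^ Q = b ^ Q := by
      have h3 : (τ⁻¹ * σ) b = τ⁻¹ (σ b) := rfl
      rw [h3, ← map_pow, h1, map_pow]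
      congr 1
      exact τ.symm_apply_apply b
    have h4 := hbw _ ⟨Q, hQ, h2⟩
    have h5 : (τ⁻¹ * σ) b = τ⁻¹ (σ b) := rfl
    rw [h5] at h4
    calc σ b = τ (τ⁻¹ (σ b)) := (τ.apply_symm_apply _).symm
      _ = τ b := by rw [h4]
  -- the orbit
  let Ω : Type := MulAction.orbit (N ≃ₐ[K] N) b
  have hΩfin : Finite Ω := Set.finite_range (fun g : N ≃ₐ[K] N => g • b)
  let _ : Fintype Ω := Fintype.ofFinite Ω
  have hΩ : ∀ z : Ω, ∃ τ : N ≃ₐ[K] N, τ b = (z : N) := fun z => z.2
  have hΩ0 : ∀ z : Ω, (z : N) ≠ 0 := by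
    intro z
    obtain ⟨τ, hτ⟩ := hΩ z
    rw [← hτ]
    exact (map_ne_zero_iff τ τ.injective).2 hb0
  obtain ⟨V, hV1, hV2, ρ, f, hf1, hf2, hf3⟩ := hRep K N
  have hfinj : Function.Injective (fun z : Ω => f (z : N)) := by
    intro z z' h1
    obtain ⟨r, hr, h2⟩ := hf2 _ _ (hΩ0 z) (hΩ0 z') h1
    obtain ⟨τ, hτ⟩ := hΩ z
    obtain ⟨τ', hτ'⟩ := hΩ z'
    apply Subtype.ext
    rw [← hτ, ← hτ'] at h2 ⊢
    exact hconj τ τ' r hr h2
  have htr : MulAction.IsPretransitive (N ≃ₐ[K] N) Ω := inferInstance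
  have hDΩ : Module.finrank K (IntermediateField.adjoin K {b}) = Fintype.card Ω := by
    rw [finrank_orbit (Ω := N) {b} b (fun σ => ⟨fun h => h b rfl, fun h x hx => by
      rw [Set.mem_singleton_iff.1 hx]
      exact h⟩), ← Nat.card_eq_fintype_card]
  set x : Ω := ⟨b, MulAction.mem_orbit_self b⟩ with hx
  -- the stabilizer
  set S : Subgroup (N ≃ₐ[K] N) := MulAction.stabilizer (N ≃ₐ[K] N) x with hS
  have hSmem : ∀ g : N ≃ₐ[K] N, g ∈ S ↔ ∃ r : ℕ, 1 ≤ r ∧ (g a) ^ r = a ^ r := by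
    intro g
    rw [← hba g, hS, MulAction.mem_stabilizer_iff]
    constructor
    · intro h
      exact congrArg Subtype.val h
    · intro h
      exact Subtype.ext h
  have hSb : S = MulAction.stabilizer (N ≃ₐ[K] N) b := by
    ext g
    rw [hS, MulAction.mem_stabilizer_iff, MulAction.mem_stabilizer_iff]
    constructor
    · intro h
      exact congrArg Subtype.val h
    · intro h
      exact Subtype.ext h
  have hSidx : S.index = Fintype.card Ω := by
    rw [hS, MulAction.index_stabilizer, MulAction.orbit_eq_univ, Set.ncard_univ,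
      Nat.card_eq_fintype_card]
  refine ⟨S, hSmem, ?_⟩
  by_cases hexc : Ind a S A ∧ Pas S A 2
  · exact Or.inr hexc
  refine Or.inl ?_
  have hDpos : 1 ≤ Fintype.card Ω := by
    have : Nonempty Ω := ⟨x⟩
    exact Fintype.card_pos
  have hmn := hmain N b hb0 hbt hbw (by
    intro hCD
    have hC1 : 1 ≤ max (max C₀ R) 1 := le_max_right _ _
    have hR : R < Fintype.card Ω := by
      rw [← hDΩ]
      refine lt_of_le_of_lt ?_ hCD
      exact (le_max_right _ _).trans ((le_max_left _ _).trans (Nat.le_self_pow (by omega) _))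
    rw [hDΩ]
    rcases hG (N ≃ₐ[K] N) Ω V ρ (fun z => f (z : N))
      (fun g z => hf1 g _ (hΩ0 z)) hfinj htr x hR with
      ⟨k, y, hk2, hkk, hlin, hcard⟩ | ⟨-, hpas⟩
    · refine ⟨k, fun i => (y i : N), hk2, hkk.trans (le_max_left _ _), fun i => hΩ (y i),
        fun l hl => hf3 _ (fun i => (y i : N)) (fun i => hΩ0 _) hlin l hl, ?_⟩
      rw [card_orbit_val]
      exact num1 hA (by omega) hA' hDpos hcard ((le_max_left _ _).trans (le_max_left _ _))
    · have hind : ¬ Ind a S A := fun h => hexc ⟨h, hpas⟩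
      unfold Ind at hind
      push Not at hind
      obtain ⟨k, σ, hk2, hkA, hσ, hle⟩ := hind
      refine ⟨k, fun i => σ i b, hk2, hkA.trans (le_max_right _ _), fun i => ⟨σ i, rfl⟩, ?_, ?_⟩
      · intro l hl
        have h1 : ∏ i, (σ i a) ^ ((μ * r₀ : ℕ) * l i : ℤ) = 1 := by
          have h2 : ∀ i, (σ i a) ^ ((μ * r₀ : ℕ) * l i : ℤ) = ((σ i b) ^ l i) ^ (r₀ : ℤ) := by
            intro i
            have h3 : (σ i a) ^ (μ * r₀) = (σ i b) ^ r₀ := by
              rw [← map_pow, ← map_pow, hbr]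
            rw [zpow_mul, zpow_natCast, h3, ← zpow_natCast, ← zpow_mul, ← zpow_mul, mul_comm]
          rw [Finset.prod_congr rfl fun i _ => h2 i, Finset.prod_zpow, hl, one_zpow]
        have h4 := hσ (fun i => ((μ * r₀ : ℕ) : ℤ) * l i) h1
        funext i
        have h5 := congrFun h4 i
        have h6 : ((μ * r₀ : ℕ) : ℤ) ≠ 0 := by
          have : 0 < μ * r₀ := Nat.mul_pos hμ hr₀
          exact_mod_cast this.ne'
        rcases mul_eq_zero.1 h5 with h7 | h7
        · exact absurd h7 h6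
        · exact h7
      · rw [hSidx, hSb] at hle
        have h8 : Nat.card (MulAction.orbit (N ≃ₐ[K] N) (fun i => σ i b)) =
            (⨅ i, (MulAction.stabilizer (N ≃ₐ[K] N) b).map
              (MulAut.conj (σ i)).toMonoidHom).index := orbit_meet b σ
        rw [h8]
        exact num2 hA (by omega) hA' hDpos hC1 hle)
  have hD1 : 0 < Module.finrank K (IntermediateField.adjoin K {b}) := Module.finrank_pos
  have hm0 : (0 : ℝ) < μ := by exact_mod_cast hμ
  have hD0 : (0 : ℝ) < (Module.finrank K (IntermediateField.adjoin K {b}) : ℝ) := by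
    exact_mod_cast hD1
  have hdeg' : (μ : ℝ) * (Module.finrank K (IntermediateField.adjoin K {b}) : ℝ) =
      (Module.finrank K (IntermediateField.adjoin K {a}) : ℝ) := by
    exact_mod_cast hdeg
  rw [hht] at hmn
  rw [← hdeg', div_le_iff₀ (by positivity)]
  rw [div_le_iff₀ hD0] at hmn
  calc c ≤ _ := hmn
    _ = _ := by ring

end Pool.DynLehmer.LW
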