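import Pool.Agent.Lib.MP_2194ec_nt.LW.DefsMulB
import Pool.Agent.Lib.MP_2194ec_nt.LW.Finm

set_option autoImplicit false

/-!
# The Lehmer bound from multiplicatively independent conjugates, general exponent
-/

namespace Pool.DynLehmer.LW
open MvPolynomial NumberField Filter Topology Pool.DynLehmer Pool.DynLehmer.SB Pool.DynLehmer.SP
  Pool.DynLehmer.GS Pool.DynLehmer.LP
open scoped Classical

/-- Row FINTG (as FINT, with a general exponent). -/
def FintgStatement : Prop :=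
  ∀ (K : Type) [Field K] [NumberField K] (k : ℕ), 2 ≤ k → ∀ A : ℕ, 1 ≤ A → ∀ C : ℕ,
    ∃ c : ℝ, 0 < c ∧
    ∀ (N : Type) [Field N] [NumberField N] [Algebra K N] [IsGalois K N] (b : N), b ≠ 0 →
      (∀ n : ℕ, 1 ≤ n → b ^ n ≠ 1) →
      (∀ σ : N ≃ₐ[K] N, (∃ r : ℕ, 1 ≤ r ∧ (σ b) ^ r = b ^ r) → σ b = b) →
      (C < Module.finrank K (IntermediateField.adjoin K {b}) →
        ∃ y : Fin k → N, (∀ i, ∃ σ : N ≃ₐ[K] N, σ b = y i) ∧
          (∀ l : Fin k → ℤ, ∏ i, y i ^ l i = 1 → l = 0) ∧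
          (Nat.card (MulAction.orbit (N ≃ₐ[K] N) y)) ^ A ≤
            C * (Module.finrank K (IntermediateField.adjoin K {b})) ^ (k * A - 1)) →
      c / (Module.finrank K (IntermediateField.adjoin K {b}) : ℝ) ≤
        Height.logHeight ![b, 1] / (Module.finrank ℚ N : ℝ)

namespace FinM

theorem numg {k A C D M : ℕ} {Q δ : ℝ} (hk : 2 ≤ k) (hA : 1 ≤ A) (hC : 1 ≤ C)
    (hδ : δ = 1 / (8 * k ^ 2 * A * (C : ℝ) ^ (4 * k * A)))
    (hD : 1 / δ < (D : ℝ)) (hthin : Q * (D : ℝ) ^ (1 - δ) ≤ D) (hM1 : 1 ≤ M)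
    (hM : M ^ A ≤ C * D ^ (k * A - 1)) (hQ : 0 < Q) :
    Q * (M : ℝ) ^ (1 / (k : ℝ) + δ) ≤ D := by
  have hk' : (2 : ℝ) ≤ k := by exact_mod_cast hk
  have hA' : (1 : ℝ) ≤ A := by exact_mod_cast hA
  have hC' : (1 : ℝ) ≤ C := by exact_mod_cast hC
  have hCp : (1 : ℝ) ≤ (C : ℝ) ^ (4 * k * A) := one_le_pow₀ hC'
  have hden : (0 : ℝ) < 8 * k ^ 2 * A * (C : ℝ) ^ (4 * k * A) := by positivity
  have hδ0 : 0 < δ := by rw [hδ]; positivity
  have h1δ : 1 / δ = 8 * k ^ 2 * A * (C : ℝ) ^ (4 * k * A) := by rw [hδ, one_div_one_div]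
  have hkA : (0 : ℝ) < k * A := by positivity
  have hδk : δ ≤ 1 / (8 * k ^ 2 * A) := by
    rw [hδ]
    apply one_div_le_one_div_of_le (by positivity)
    exact le_mul_of_one_le_right (by positivity) hCp
  have hδk2 : δ + δ * k ≤ 1 / (4 * (k * A)) := by
    have h1 : δ + δ * k ≤ δ * (2 * k) := by nlinarith
    refine h1.trans ?_
    have h2 : δ * (2 * k) ≤ 1 / (8 * k ^ 2 * A) * (2 * k) :=
      mul_le_mul_of_nonneg_right hδk (by positivity)
    refine h2.trans (le_of_eq ?_)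
    field_simp
    ring
  have hDC : (C : ℝ) ^ (4 * k * A) ≤ D := by
    rw [h1δ] at hD
    have h1 : (1 : ℝ) ≤ 8 * k ^ 2 * A := by nlinarith [mul_pos hkA hkA, sq_nonneg (k : ℝ)]
    have h2 : (C : ℝ) ^ (4 * k * A) ≤ 8 * k ^ 2 * A * (C : ℝ) ^ (4 * k * A) :=
      le_mul_of_one_le_left (by positivity) h1
    linarith
  have hD1 : (1 : ℝ) ≤ D := hCp.trans hDC
  have hD0 : (0 : ℝ) < D := by linarith
  have hCD : (C : ℝ) ≤ (D : ℝ) ^ (1 / (4 * (k * A)) : ℝ) := by
    have h1 := Real.rpow_le_rpow (by positivity) hDC (z := 1 / (4 * (k * A))) (by positivity)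
    rwa [← Real.rpow_natCast, ← Real.rpow_mul (by positivity),
      show ((4 * k * A : ℕ) : ℝ) * (1 / (4 * (k * A))) = 1 by
      push_cast
      field_simp, Real.rpow_one] at h1
  have hQD : Q ≤ (D : ℝ) ^ δ := by
    have h1 : (D : ℝ) ^ (1 - δ) * (D : ℝ) ^ δ = D := by
      rw [← Real.rpow_add hD0, show 1 - δ + δ = 1 by ring, Real.rpow_one]
    have h2 : 0 < (D : ℝ) ^ (1 - δ) := Real.rpow_pos_of_pos hD0 _
    have h3 : Q * (D : ℝ) ^ (1 - δ) ≤ (D : ℝ) ^ δ * (D : ℝ) ^ (1 - δ) := by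
      rw [mul_comm ((D : ℝ) ^ δ), h1]
      exact hthin
    exact le_of_mul_le_mul_right h3 h2
  have hM0 : (0 : ℝ) < M := by exact_mod_cast hM1
  set e : ℝ := 1 / (k : ℝ) + δ with he
  have hkinv : 1 / (k : ℝ) ≤ 1 / 2 := one_div_le_one_div_of_le (by norm_num) hk'
  have he0 : 0 < e := by rw [he]; positivity
  have hδ1 : δ ≤ 1 / 2 := by
    refine hδk.trans ?_
    apply one_div_le_one_div_of_le (by norm_num)
    nlinarith [mul_pos hkA hkA, sq_nonneg (k : ℝ)]
  have he1 : e / A ≤ 1 := by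
    rw [div_le_one (by linarith)]
    linarith
  have hMe : (M : ℝ) ^ e ≤ (D : ℝ) ^ (1 / (4 * (k * A)) : ℝ) *
      (D : ℝ) ^ (1 - 1 / (k * A) + δ * k) := by
    have h1 : ((M : ℝ) ^ A) ≤ C * (D : ℝ) ^ (k * A - 1) := by exact_mod_cast hM
    have h2 : (M : ℝ) ^ e = ((M : ℝ) ^ A) ^ (e / A) := by
      rw [← Real.rpow_natCast, ← Real.rpow_mul hM0.le]
      congr 1
      field_simp
    have hkA1 : 1 ≤ k * A := Nat.one_le_iff_ne_zero.2 (by
      have : 0 < k * A := Nat.mul_pos (by omega) (by omega)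
      omega)
    have h3 : ((D : ℝ) ^ (k * A - 1)) ^ (e / A) ≤ (D : ℝ) ^ (1 - 1 / (k * A) + δ * k) := by
      rw [← Real.rpow_natCast, ← Real.rpow_mul hD0.le]
      apply Real.rpow_le_rpow_of_exponent_le hD1
      rw [Nat.cast_sub hkA1, he]
      push_cast
      have h4 : ((k : ℝ) * A - 1) * ((1 / k + δ) / A) = 1 - 1 / (k * A) + δ * k - δ / A := by
        field_simp
        ring
      rw [h4]
      have h5 : 0 ≤ δ / A := by positivity
      linarith
    rw [h2]
    refine (Real.rpow_le_rpow (by positivity) h1 (by positivity)).trans ?_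
    rw [Real.mul_rpow (by positivity) (by positivity)]
    refine mul_le_mul ?_ h3 (by positivity) (by positivity)
    calc (C : ℝ) ^ (e / A) ≤ (C : ℝ) ^ (1 : ℝ) := Real.rpow_le_rpow_of_exponent_le hC' he1
      _ = C := Real.rpow_one _
      _ ≤ _ := hCD
  calc Q * (M : ℝ) ^ e ≤ (D : ℝ) ^ δ * ((D : ℝ) ^ (1 / (4 * (k * A)) : ℝ) *
        (D : ℝ) ^ (1 - 1 / (k * A) + δ * k)) :=
        mul_le_mul hQD hMe (by positivity) (by positivity)
    _ = (D : ℝ) ^ (δ + (1 / (4 * (k * A)) + (1 - 1 / (k * A) + δ * k))) := by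
        rw [Real.rpow_add hD0 δ, Real.rpow_add hD0 (1 / (4 * (k * A)))]
    _ ≤ (D : ℝ) ^ (1 : ℝ) := by
        apply Real.rpow_le_rpow_of_exponent_le hD1
        have h6 : 1 / (4 * ((k : ℝ) * A)) = 1 / (k * A) / 4 := by
          field_simp
        have h7 : 0 < 1 / ((k : ℝ) * A) := by positivity
        rw [h6] at hδk2 ⊢
        linarith
    _ = D := Real.rpow_one _

end FinM

open FinM in
/-- **The bound from multiplicatively independent conjugates.** -/
theorem fintg (hGen : GenmStatement) (hCls : ClsmStatement) : FintgStatement := by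
  intro K _ _ k hk2 A hA C₀
  obtain ⟨v, hv⟩ := exists_place K Nat.prime_two
  set C : ℕ := C₀ + 1 with hC
  have hk' : (2 : ℝ) ≤ k := by exact_mod_cast hk2
  have hC1 : 1 ≤ C := by omega
  have hC' : (1 : ℝ) ≤ C := by exact_mod_cast hC1
  have hA' : (1 : ℝ) ≤ A := by exact_mod_cast hA
  set δ : ℝ := 1 / (8 * k ^ 2 * A * (C : ℝ) ^ (4 * k * A)) with hδ
  have hδ0 : 0 < δ := by rw [hδ]; positivity
  have h1δ : 1 / δ = 8 * k ^ 2 * A * (C : ℝ) ^ (4 * k * A) := by rw [hδ, one_div_one_div]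
  obtain ⟨c, hc, hmain⟩ := hGen K 2 1 v (powF K (2 ^ 1)) (hypR_powF Nat.prime_two v hv) k δ hδ0
  refine ⟨c, hc, ?_⟩
  intro N _ _ _ _ b hb0 hbt hbw hy
  have hfd : FiniteDimensional K N := Module.Finite.of_restrictScalars_finite ℚ K N
  set q : ℕ := 2 ^ 1 with hq
  have hq2 : q = 2 := by rw [hq]; norm_num
  -- conjugates are different modulo torsion
  have hconj : ∀ (σ τ : N ≃ₐ[K] N) (Q : ℕ), 1 ≤ Q → (σ (τ b)) ^ Q = (τ b) ^ Q →
      σ (τ b) = τ b := by
    intro σ τ Q hQ h1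
    have h2 : ((τ⁻¹ * σ * τ) b) ^ Q = b ^ Q := by
      have h3 : (τ⁻¹ * σ * τ) b = τ⁻¹ (σ (τ b)) := rfl
      rw [h3, ← map_pow, h1, map_pow]
      congr 1
      exact τ.symm_apply_apply b
    have h4 := hbw _ ⟨Q, hQ, h2⟩
    have h5 : (τ⁻¹ * σ * τ) b = τ⁻¹ (σ (τ b)) := rfl
    rw [h5] at h4
    calc σ (τ b) = τ (τ⁻¹ (σ (τ b))) := (τ.apply_symm_apply _).symm
      _ = τ b := by rw [h4]
  -- the degree
  set D : ℕ := dg K ![b, 1] with hD
  have hDdef : D = Module.finrank K (IntermediateField.adjoin K {b}) := by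
    rw [hD]
    unfold dg
    rw [show (![b, 1] : Fin 2 → N) 0 / (![b, 1] : Fin 2 → N) 1 = b from div_one b]
  have hD1 : 1 ≤ D := Module.finrank_pos
  have hstep : ∀ (z : N) (n : ℕ), (gAct (powF K q) N)^[n] ![z, 1] = ![z ^ q ^ n, 1] := fun z n => by
    rw [iter_powF, pt_pow]
  have hqn : ∀ n : ℕ, 1 ≤ q ^ n := fun n => Nat.one_le_pow _ _ (by omega)
  have hDn : ∀ n : ℕ, dg K ((gAct (powF K q) N)^[n] ![b, 1]) = D := by
    intro n
    rw [hstep, hDdef]
    unfold dg
    apply finrank_congr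
    intro σ
    simp only [Matrix.cons_val_zero, Matrix.cons_val_one, div_one, Set.mem_singleton_iff,
      forall_eq, map_pow]
    constructor
    · intro h1
      exact hbw σ ⟨q ^ n, hqn n, h1⟩
    · intro h1
      rw [h1]
  have hwand : WandP (powF K q) (![b, 1] : Fin 2 → N) := by
    rintro ⟨i, j, hij, u, hu, h1⟩
    rw [hstep, hstep] at h1
    have h2 := congrFun h1 1
    have h3 := congrFun h1 0
    simp only [Matrix.cons_val_zero, Matrix.cons_val_one, Pi.smul_apply, smul_eq_mul] at h2 h3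
    rw [mul_one] at h2
    rw [← h2, one_mul] at h3
    have hne : q ^ i ≠ q ^ j := fun h => hij (Nat.pow_right_injective (by omega) h)
    rcases Nat.lt_or_gt_of_ne hne with h | h
    · have h4 : b ^ (q ^ j - q ^ i) = 1 := by
        have h5 : b ^ (q ^ i) * b ^ (q ^ j - q ^ i) = b ^ (q ^ i) * 1 := by
          rw [← pow_add, Nat.add_sub_cancel' h.le, h3, mul_one]
        exact mul_left_cancel₀ (pow_ne_zero _ hb0) h5
      exact hbt _ (by omega) h4
    · have h4 : b ^ (q ^ i - q ^ j) = 1 := by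
        have h5 : b ^ (q ^ j) * b ^ (q ^ i - q ^ j) = b ^ (q ^ j) * 1 := by
          rw [← pow_add, Nat.add_sub_cancel' h.le, h3, mul_one]
        exact mul_left_cancel₀ (pow_ne_zero _ hb0) h5
      exact hbt _ (by omega) h4
  obtain ⟨h, hlim, hle⟩ := hmain N b hwand (by
    intro n hn hthin
    rw [hDn] at hn hthin
    have hCD : C₀ < D := by
      rw [h1δ] at hn
      have h2 : (C : ℝ) ≤ (C : ℝ) ^ (4 * k * A) := le_self_pow₀ hC' (by positivity)
      have h1 : (1 : ℝ) ≤ 8 * k ^ 2 * A := by nlinarith [sq_nonneg (k : ℝ)]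
      have h3 : (C : ℝ) < D := by
        have h5 : (C : ℝ) ^ (4 * k * A) ≤ 8 * k ^ 2 * A * (C : ℝ) ^ (4 * k * A) :=
          le_mul_of_one_le_left (by positivity) h1
        linarith
      have h4 : C < D := by exact_mod_cast h3
      omega
    rw [← hDdef] at hy
    obtain ⟨y, hyσ, hlin, hcard⟩ := hy hCD
    refine ⟨k, y, hk2, le_rfl, hyσ, fun _ => ?_, fun j hj => ?_⟩
    · have hMn : dgk K (fun i => (gAct (powF K q) N)^[n] ![y i, 1]) =
          Nat.card (MulAction.orbit (N ≃ₐ[K] N) y) := by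
        unfold dgk
        refine finrank_orbit (Ω := Fin k → N) _ y fun σ => ?_
        rw [Set.forall_mem_range, _root_.funext_iff]
        refine forall_congr' fun i => ?_
        beta_reduce
        rw [hstep]
        simp only [Matrix.cons_val_zero, Matrix.cons_val_one, div_one, map_pow, Pi.smul_apply,
          AlgEquiv.smul_def]
        obtain ⟨τ, hτ⟩ := hyσ i
        constructor
        · intro h1
          rw [← hτ] at h1 ⊢
          exact hconj σ τ _ (hqn n) h1
        · intro h1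
          rw [h1]
      rw [hMn]
      have hM1 : 1 ≤ Nat.card (MulAction.orbit (N ≃ₐ[K] N) y) := by
        have hfin : Finite (MulAction.orbit (N ≃ₐ[K] N) y) :=
          Set.finite_range (fun g : N ≃ₐ[K] N => g • y)
        have hne : Nonempty (MulAction.orbit (N ≃ₐ[K] N) y) := ⟨⟨y, MulAction.mem_orbit_self y⟩⟩
        exact Nat.card_pos
      refine numg hk2 hA hC1 hδ hn hthin hM1 ?_ ?_
      · exact hcard.trans (Nat.mul_le_mul_right _ (by omega))
      · have := hqn n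
        positivity
    · have h1 : (fun i => (gAct (powF K q) N)^[n + j] ![y i, 1]) =
          fun i => ![y i ^ q ^ (n + j), 1] := by
        funext i
        rw [hstep]
      rw [h1]
      refine hCls K q (by omega) N k (fun i => y i ^ q ^ (n + j))
        (fun i => pow_ne_zero _ (by
          obtain ⟨τ, hτ⟩ := hyσ i
          rw [← hτ]
          exact (map_ne_zero_iff τ τ.injective).2 hb0)) fun l hl => ?_
      have h2 := hlin (fun i => ((q ^ (n + j) : ℕ) : ℤ) * l i) (by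
          rw [← hl]
          refine Finset.prod_congr rfl fun i _ => ?_
          rw [zpow_mul, zpow_natCast])
      funext i
      have h3 := congrFun h2 i
      have h4 : ((q ^ (n + j) : ℕ) : ℤ) ≠ 0 := by
        have := hqn (n + j)
        exact_mod_cast (by omega : q ^ (n + j) ≠ 0)
      simpa [h4] using h3)
  -- the height
  have hheq : h = Height.logHeight (![b, 1] : Fin 2 → N) / (Module.finrank ℚ N : ℝ) := by
    have h1 : Tendsto (fun n : ℕ => Height.logHeight ((gAct (powF K q) N)^[n] ![b, 1]) /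
        (Module.finrank ℚ N : ℝ) / (((2 ^ 1 : ℕ) : ℝ)) ^ n) atTop
        (𝓝 (Height.logHeight (![b, 1] : Fin 2 → N) / (Module.finrank ℚ N : ℝ))) := by
      refine tendsto_const_nhds.congr fun n => ?_
      rw [iter_powF, Height.logHeight_pow]
      have h2 : ((q : ℝ)) ^ n ≠ 0 := by
        have := hqn n
        positivity
      push_cast
      rw [hq]
      push_cast
      field_simp
    exact tendsto_nhds_unique hlim h1
  rw [hheq, ← hD, hDdef] at hle
  exact hle

end Pool.DynLehmer.LW
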