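import Pool.Agent.Lib.MP_2194ec_nt.LW.DefsMulB
import Pool.Agent.Lib.MP_2194ec_nt.LW.Finm

set_option autoImplicit false
set_option linter.unusedSectionVars false

/-!
# The Lehmer bound for algebraic numbers whose Galois closure has small composition factors:
assembly
-/

namespace Pool.DynLehmer.LW
open MvPolynomial NumberField Filter Topology Pool.DynLehmer Pool.DynLehmer.SB Pool.DynLehmer.SP
  Pool.DynLehmer.GS Pool.DynLehmer.LP
open scoped Classical

namespace FinZ

/-- orbits of tuples in an invariant subset -/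
theorem card_orbit_val {G X : Type} [Group G] [MulAction G X] (b : X) {k : ℕ}
    (y : Fin k → MulAction.orbit G b) :
    Nat.card (MulAction.orbit G (fun i => (y i : X))) = Nat.card (MulAction.orbit G y) := by
  rw [Nat.card_coe_set_eq, Nat.card_coe_set_eq, ← MulAction.index_stabilizer G,
    ← MulAction.index_stabilizer G]
  congr 1
  ext g
  rw [MulAction.mem_stabilizer_iff, MulAction.mem_stabilizer_iff, _root_.funext_iff,
    _root_.funext_iff]
  refine forall_congr' fun i => ?_
  rw [Subtype.ext_iff]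
  rfl

end FinZ

open FinM FinZ in
/-- **The Lehmer bound for algebraic numbers whose Galois closure has small composition
factors.** -/
theorem finz (hFin : FintStatement) (hGrp : GrpzStatement) (hNorm : NormStatement)
    (hRep : RepmStatement) : MulzStatement := by
  obtain ⟨s, R, T, hs, hT1, hG⟩ := hGrp
  refine ⟨R, T, hT1, ?_⟩
  intro K _ _ M
  obtain ⟨C₀, hG⟩ := hG M
  have hk2 : 2 ≤ 2 ^ s := by
    calc 2 = 2 ^ 1 := rfl
      _ ≤ 2 ^ s := Nat.pow_le_pow_right (by norm_num) hs
  obtain ⟨c, hc, hmain⟩ := hFin K (2 ^ s) hk2 (max C₀ R)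
  refine ⟨c, hc, ?_⟩
  intro N _ _ _ _ a ha0 hat H hH m hser hem
  have hfd : FiniteDimensional K N := Module.Finite.of_restrictScalars_finite ℚ K N
  obtain ⟨b, μ, hμ, hb0, hba, hbw, hbt, hdeg, hht⟩ := hNorm K N a ha0
  have hbt := hbt hat
  -- the classes of the conjugates of `a` and the conjugates of `b`
  have hcls : ∀ σ τ : N ≃ₐ[K] N, σ b = τ b ↔ ∃ r : ℕ, 1 ≤ r ∧ (σ a) ^ r = (τ a) ^ r := by
    intro σ τ
    have h1 : σ b = τ b ↔ (τ⁻¹ * σ) b = b := by
      constructor
      · intro h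
        change τ⁻¹ (σ b) = b
        rw [h]
        exact τ.symm_apply_apply b
      · intro h
        change τ⁻¹ (σ b) = b at h
        calc σ b = τ (τ⁻¹ (σ b)) := (τ.apply_symm_apply _).symm
          _ = τ b := by rw [h]
    rw [h1, hba]
    refine exists_congr fun r => and_congr_right fun hr => ?_
    constructor
    · intro h
      have h2 := congrArg τ h
      rw [map_pow, map_pow] at h2
      have h3 : τ ((τ⁻¹ * σ) a) = σ a := τ.apply_symm_apply (σ a)
      rwa [h3] at h2
    · intro h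
      have h2 := congrArg (τ⁻¹ : N ≃ₐ[K] N) h
      rw [map_pow, map_pow] at h2
      have h3 : (τ⁻¹ : N ≃ₐ[K] N) (τ a) = a := τ.symm_apply_apply a
      rw [h3] at h2
      exact h2
  have hconj : ∀ (σ τ : N ≃ₐ[K] N) (Q : ℕ), 1 ≤ Q → (σ b) ^ Q = (τ b) ^ Q → σ b = τ b := by
    intro σ τ Q hQ h1
    have h2 : ((τ⁻¹ * σ) b) ^ Q = b ^ Q := by
      have h3 : (τ⁻¹ * σ) b = τ⁻¹ (σ b) := rfl
      rw [h3, ← map_pow, h1, map_pow]
      congr 1
      exact τ.symm_apply_apply b
    have h4 := hbw _ ⟨Q, hQ, h2⟩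
    have h5 : (τ⁻¹ * σ) b = τ⁻¹ (σ b) := rfl
    rw [h5] at h4
    calc σ b = τ (τ⁻¹ (σ b)) := (τ.apply_symm_apply _).symm
      _ = τ b := by rw [h4]
  -- the orbit
  let Ω : Type := MulAction.orbit (N ≃ₐ[K] N) b
  have hΩfin : Finite Ω := Set.finite_range (fun g : N ≃ₐ[K] N => g • b)
  let _ : Fintype Ω := Fintype.ofFinite Ω
  have hΩ : ∀ z : Ω, ∃ τ : N ≃ₐ[K] N, τ b = (z : N) := fun z => z.2
  have hΩ0 : ∀ z : Ω, (z : N) ≠ 0 := by
    intro z
    obtain ⟨τ, hτ⟩ := hΩ z
    rw [← hτ]
    exact (map_ne_zero_iff τ τ.injective).2 hb0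
  have hsm : ∀ (σ : N ≃ₐ[K] N) (z : Ω), ((σ • z : Ω) : N) = σ (z : N) := fun σ z => rfl
  obtain ⟨V, hV1, hV2, ρ, f, hf1, hf2, hf3⟩ := hRep K N
  have hfinj : Function.Injective (fun z : Ω => f (z : N)) := by
    intro z z' h1
    obtain ⟨r, hr, h2⟩ := hf2 _ _ (hΩ0 z) (hΩ0 z') h1
    obtain ⟨τ, hτ⟩ := hΩ z
    obtain ⟨τ', hτ'⟩ := hΩ z'
    apply Subtype.ext
    rw [← hτ, ← hτ'] at h2 ⊢
    exact hconj τ τ' r hr h2
  have htr : MulAction.IsPretransitive (N ≃ₐ[K] N) Ω := inferInstance
  have hDΩ : Module.finrank K (IntermediateField.adjoin K {b}) = Fintype.card Ω := by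
    rw [finrank_orbit (Ω := N) {b} b (fun σ => ⟨fun h => h b rfl, fun h x hx => by
      rw [Set.mem_singleton_iff.1 hx]
      exact h⟩), ← Nat.card_eq_fintype_card]
  set x : Ω := ⟨b, MulAction.mem_orbit_self b⟩ with hx
  have hsx : ∀ σ : N ≃ₐ[K] N, ((σ • x : Ω) : N) = σ b := fun σ => rfl
  -- the group
  have hnor : ∀ g ∈ MulAction.stabilizer (N ≃ₐ[K] N) x, ∀ h ∈ H, g * h * g⁻¹ ∈ H := by
    rcases hH with rfl | ⟨hH, -⟩
    · intro g _ h _
      exact Subgroup.mem_top _
    · intro g hg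
      rw [MulAction.mem_stabilizer_iff] at hg
      have h1 : g b = b := by
        have h2 := congrArg Subtype.val hg
        exact h2
      exact hH g ((hcls g 1).1 h1)
  have hfac : FacH H x m := by
    obtain ⟨l, L, hL0, hLl, hL⟩ := hser
    refine ⟨l, L, ?_, hLl, hL⟩
    intro g hg h hh
    apply Subtype.ext
    exact (hcls (g * h) h).2 (hL0 g hg h hh)
  have hmT : m ^ T ≤ M * Fintype.card Ω := by
    obtain ⟨e, τ, hτ, hme⟩ := hem
    refine hme.trans (Nat.mul_le_mul_left _ ?_)
    have hinj : Function.Injective (fun i : Fin e => τ i • x) := by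
      intro i j hij
      by_contra hne
      have h1 : τ i b = τ j b := congrArg Subtype.val hij
      obtain ⟨r, hr, h2⟩ := (hcls _ _).1 h1
      exact hτ i j hne r hr h2
    have h3 := Fintype.card_le_of_injective _ hinj
    rwa [Fintype.card_fin] at h3
  have hmn := hmain N b hb0 hbt hbw (by
    intro hCD
    have hR : R < Nat.card (MulAction.orbit H x) := by
      rcases hH with hH | ⟨-, σ, hσH, hσ⟩
      · have h1 : MulAction.orbit H x = Set.univ := by
          ext z
          simp only [Set.mem_univ, iff_true]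
          obtain ⟨g, hg⟩ := MulAction.exists_smul_eq (N ≃ₐ[K] N) x z
          exact ⟨⟨g, by rw [hH]; exact Subgroup.mem_top g⟩, hg⟩
        rw [h1, Nat.card_coe_set_eq, Set.ncard_univ, Nat.card_eq_fintype_card, ← hDΩ]
        exact lt_of_le_of_lt (le_max_right _ _) hCD
      · have hinj : Function.Injective (fun i : Fin (R + 1) =>
            (⟨σ i • x, ⟨⟨σ i, hσH i⟩, rfl⟩⟩ : MulAction.orbit H x)) := by
          intro i j hij
          by_contra hne
          have h0 : σ i • x = σ j • x := congrArg Subtype.val hij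
          have h1 : σ i b = σ j b := congrArg Subtype.val h0
          obtain ⟨r, hr, h2⟩ := (hcls _ _).1 h1
          exact hσ i j hne r hr h2
        have h3 : Nat.card (Fin (R + 1)) ≤ Nat.card (MulAction.orbit H x) :=
          Nat.card_le_card_of_injective _ hinj
        rw [Nat.card_eq_fintype_card, Fintype.card_fin] at h3
        exact h3
    obtain ⟨y, -, hlin, hcard⟩ := hG (N ≃ₐ[K] N) Ω V ρ (fun z => f (z : N))
      (fun g z => hf1 g _ (hΩ0 z)) hfinj htr x H hnor hR m hfac hmT
    refine ⟨fun i => (y i : N), fun i => hΩ (y i), fun l hl =>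
      hf3 _ (fun i => (y i : N)) (fun i => hΩ0 _) hlin l hl, ?_⟩
    rw [card_orbit_val, hDΩ]
    exact hcard.trans (Nat.mul_le_mul_right _ (le_max_left _ _)))
  have hD1 : 0 < Module.finrank K (IntermediateField.adjoin K {b}) := Module.finrank_pos
  have hm0 : (0 : ℝ) < μ := by exact_mod_cast hμ
  have hD0 : (0 : ℝ) < (Module.finrank K (IntermediateField.adjoin K {b}) : ℝ) := by
    exact_mod_cast hD1
  have hdeg' : (μ : ℝ) * (Module.finrank K (IntermediateField.adjoin K {b}) : ℝ) =
      (Module.finrank K (IntermediateField.adjoin K {a}) : ℝ) := by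
    exact_mod_cast hdeg
  rw [hht] at hmn
  rw [← hdeg', div_le_iff₀ (by positivity)]
  rw [div_le_iff₀ hD0] at hmn
  calc c ≤ _ := hmn
    _ = _ := by ring

end Pool.DynLehmer.LW
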