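import Pool.Agent.Lib.MP_2194ec_nt.LW.DefsMulC
import Pool.Agent.Lib.MP_2194ec_nt.LW.Finz
import Pool.Agent.Lib.MP_2194ec_nt.LW.Fintg

set_option autoImplicit false
set_option linter.unusedSectionVars false

/-!
# The Lehmer bound and simple sections of the Galois group: assembly
-/

namespace Pool.DynLehmer.LW
open MvPolynomial NumberField Filter Topology Pool.DynLehmer Pool.DynLehmer.SB Pool.DynLehmer.SP
  Pool.DynLehmer.GS Pool.DynLehmer.LP
open scoped Classical

namespace FinQ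

/-- the orbit of a subgroup and the index of the stabilizer in it -/
theorem card_orbit_sub {G Ω : Type} [Group G] [Finite G] [MulAction G Ω] (B : Subgroup G)
    (x : Ω) : Nat.card (MulAction.orbit B x) = (MulAction.stabilizer G x).relIndex B := by
  rw [Nat.card_coe_set_eq, ← MulAction.index_stabilizer B, Subgroup.relIndex]
  congr 1

end FinQ

/-- the bound from `k ≤ k₀` conjugates -/
theorem fing_of_fintg (h : FintgStatement) : FingStatement := by
  intro K _ _ k₀ A' C hA'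
  have h2 := fun (k : ℕ) (hk : 2 ≤ k) => h K k hk A' hA' C
  have h3 : ∀ k : ℕ, ∃ c : ℝ, 0 < c ∧ ∀ k' : ℕ, 2 ≤ k' → k' ≤ k + 2 →
      ∀ (N : Type) [Field N] [NumberField N] [Algebra K N] [IsGalois K N] (b : N), b ≠ 0 →
      (∀ n : ℕ, 1 ≤ n → b ^ n ≠ 1) →
      (∀ σ : N ≃ₐ[K] N, (∃ r : ℕ, 1 ≤ r ∧ (σ b) ^ r = b ^ r) → σ b = b) →
      (C < Module.finrank K (IntermediateField.adjoin K {b}) →
        ∃ y : Fin k' → N, (∀ i, ∃ σ : N ≃ₐ[K] N, σ b = y i) ∧
          (∀ l : Fin k' → ℤ, ∏ i, y i ^ l i = 1 → l = 0) ∧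
          (Nat.card (MulAction.orbit (N ≃ₐ[K] N) y)) ^ A' ≤
            C * (Module.finrank K (IntermediateField.adjoin K {b})) ^ (k' * A' - 1)) →
      c / (Module.finrank K (IntermediateField.adjoin K {b}) : ℝ) ≤
        Height.logHeight ![b, 1] / (Module.finrank ℚ N : ℝ) := by
    intro k
    induction k with
    | zero =>
      obtain ⟨c, hc, h4⟩ := h2 2 le_rfl
      refine ⟨c, hc, ?_⟩
      intro k' h5 h6
      obtain rfl : k' = 2 := by omega
      exact h4
    | succ k ih =>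
      obtain ⟨c, hc, h4⟩ := ih
      obtain ⟨c', hc', h5⟩ := h2 (k + 1 + 2) (by omega)
      refine ⟨min c c', lt_min hc hc', ?_⟩
      intro k' h6 h7 N _ _ _ _ b hb0 hbt hbw hy
      have hD : (0 : ℝ) ≤ (Module.finrank K (IntermediateField.adjoin K {b}) : ℝ) :=
        Nat.cast_nonneg _
      rcases Nat.lt_or_ge k' (k + 1 + 2) with h8 | h8
      · exact (div_le_div_of_nonneg_right (min_le_left _ _) hD).trans
          (h4 k' h6 (by omega) N b hb0 hbt hbw hy)
      · obtain rfl : k' = k + 1 + 2 := by omega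
        exact (div_le_div_of_nonneg_right (min_le_right _ _) hD).trans (h5 N b hb0 hbt hbw hy)
  obtain ⟨c, hc, h4⟩ := h3 k₀
  refine ⟨c, hc, ?_⟩
  intro N _ _ _ _ b hb0 hbt hbw hy
  by_cases hCD : C < Module.finrank K (IntermediateField.adjoin K {b})
  · obtain ⟨k, y, hk2, hk, hy'⟩ := hy hCD
    exact h4 k hk2 (by omega) N b hb0 hbt hbw fun _ => ⟨y, hy'⟩
  · exact h4 2 le_rfl (by omega) N b hb0 hbt hbw fun h5 => absurd h5 hCD

open FinM FinZ FinQ in
/-- **The Lehmer bound for algebraic numbers whose Galois group has no large simple section.** -/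
theorem finq (hFin : FingStatement) (hGrp : GrpqStatement) (hNorm : NormStatement)
    (hRep : RepmStatement) : MulqStatement := by
  intro A hA
  obtain ⟨R, k₀, A', C₀, hA', hG⟩ := hGrp A hA
  refine ⟨R, ?_⟩
  intro K _ _
  obtain ⟨c, hc, hmain⟩ := hFin K k₀ A' (max C₀ R) hA'
  refine ⟨c, hc, ?_⟩
  intro N _ _ _ _ a ha0 hat
  have hfd : FiniteDimensional K N := Module.Finite.of_restrictScalars_finite ℚ K N
  obtain ⟨b, μ, hμ, hb0, hba, hbw, hbt, hdeg, hht⟩ := hNorm K N a ha0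
  have hbt := hbt hat
  have hconj : ∀ (σ τ : N ≃ₐ[K] N) (Q : ℕ), 1 ≤ Q → (σ b) ^ Q = (τ b) ^ Q → σ b = τ b := by
    intro σ τ Q hQ h1
    have h2 : ((τ⁻¹ * σ) b) ^ Q = b ^ Q := by
      have h3 : (τ⁻¹ * σ) b = τ⁻¹ (σ b) := rfl
      rw [h3, ← map_pow, h1, map_pow]
      congr 1
      exact τ.symm_apply_apply b
    have h4 := hbw _ ⟨Q, hQ, h2⟩
    have h5 : (τ⁻¹ * σ) b = τ⁻¹ (σ b) := rfl
    rw [h5] at h4
    calc σ b = τ (τ⁻¹ (σ b)) := (τ.apply_symm_apply _).symm
      _ = τ b := by rw [h4]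
  -- the orbit
  let Ω : Type := MulAction.orbit (N ≃ₐ[K] N) b
  have hΩfin : Finite Ω := Set.finite_range (fun g : N ≃ₐ[K] N => g • b)
  let _ : Fintype Ω := Fintype.ofFinite Ω
  have hΩ : ∀ z : Ω, ∃ τ : N ≃ₐ[K] N, τ b = (z : N) := fun z => z.2
  have hΩ0 : ∀ z : Ω, (z : N) ≠ 0 := by
    intro z
    obtain ⟨τ, hτ⟩ := hΩ z
    rw [← hτ]
    exact (map_ne_zero_iff τ τ.injective).2 hb0
  obtain ⟨V, hV1, hV2, ρ, f, hf1, hf2, hf3⟩ := hRep K N
  have hfinj : Function.Injective (fun z : Ω => f (z : N)) := by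
    intro z z' h1
    obtain ⟨r, hr, h2⟩ := hf2 _ _ (hΩ0 z) (hΩ0 z') h1
    obtain ⟨τ, hτ⟩ := hΩ z
    obtain ⟨τ', hτ'⟩ := hΩ z'
    apply Subtype.ext
    rw [← hτ, ← hτ'] at h2 ⊢
    exact hconj τ τ' r hr h2
  have htr : MulAction.IsPretransitive (N ≃ₐ[K] N) Ω := inferInstance
  have hDΩ : Module.finrank K (IntermediateField.adjoin K {b}) = Fintype.card Ω := by
    rw [finrank_orbit (Ω := N) {b} b (fun σ => ⟨fun h => h b rfl, fun h x hx => by
      rw [Set.mem_singleton_iff.1 hx]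
      exact h⟩), ← Nat.card_eq_fintype_card]
  set x : Ω := ⟨b, MulAction.mem_orbit_self b⟩ with hx
  set S : Subgroup (N ≃ₐ[K] N) := MulAction.stabilizer (N ≃ₐ[K] N) x with hS
  have hSb : ∀ g : N ≃ₐ[K] N, g ∈ S ↔ g b = b := by
    intro g
    rw [hS, MulAction.mem_stabilizer_iff, Subtype.ext_iff]
    exact Iff.rfl
  have hSind : S.index = Fintype.card Ω := by
    rw [hS, MulAction.index_stabilizer_of_transitive, Nat.card_eq_fintype_card]
  refine ⟨S, fun g => (hSb g).trans (hba g), ?_⟩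
  -- the bound for `a` from the bound for `b`
  have hfinal : c / (Module.finrank K (IntermediateField.adjoin K {b}) : ℝ) ≤
      Height.logHeight ![b, 1] / (Module.finrank ℚ N : ℝ) →
      c / (Module.finrank K (IntermediateField.adjoin K {a}) : ℝ) ≤
        Height.logHeight ![a, 1] / (Module.finrank ℚ N : ℝ) := by
    intro hmn
    have hD1 : 0 < Module.finrank K (IntermediateField.adjoin K {b}) := Module.finrank_pos
    have hm0 : (0 : ℝ) < μ := by exact_mod_cast hμ
    have hD0 : (0 : ℝ) < (Module.finrank K (IntermediateField.adjoin K {b}) : ℝ) := by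
      exact_mod_cast hD1
    have hdeg' : (μ : ℝ) * (Module.finrank K (IntermediateField.adjoin K {b}) : ℝ) =
        (Module.finrank K (IntermediateField.adjoin K {a}) : ℝ) := by
      exact_mod_cast hdeg
    rw [hht] at hmn
    rw [← hdeg', div_le_iff₀ (by positivity)]
    rw [div_le_iff₀ hD0] at hmn
    calc c ≤ _ := hmn
      _ = _ := by ring
  by_cases hRD : R < Fintype.card Ω
  · rcases hG (N ≃ₐ[K] N) Ω V ρ (fun z => f (z : N)) (fun g z => hf1 g _ (hΩ0 z)) hfinj htr x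
      hRD with ⟨k, y, hk2, hk, hlin, hcard⟩ | ⟨B₀, B, hB, h1, h2, h3⟩
    · left
      refine hfinal (hmain N b hb0 hbt hbw fun _ => ⟨k, fun i => (y i : N), hk2, hk,
        fun i => hΩ (y i), fun l hl => hf3 _ (fun i => (y i : N)) (fun i => hΩ0 _) hlin l hl, ?_⟩)
      rw [card_orbit_val, hDΩ]
      exact hcard.trans (Nat.mul_le_mul_right _ (le_max_left _ _))
    · right
      rw [card_orbit_sub] at h2 h3
      rw [← hSind] at h1 h3
      exact ⟨B₀, B, hB, h1, h2, h3⟩
  · left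
    refine hfinal (hmain N b hb0 hbt hbw fun h1 => absurd ?_ hRD)
    rw [← hDΩ]
    exact lt_of_le_of_lt (le_max_right _ _) h1

end Pool.DynLehmer.LW
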