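import Pool.Agent.Lib.MP_2194ec_nt.LW.DefsMul

set_option autoImplicit false

/-!
# Row NORM: the product of the conjugates which differ from `a` by a root of unity
-/

namespace Pool.DynLehmer.LW

namespace NormRow

/-- two numbers differ by a root of unity -/
def Te {N : Type} [Field N] (z w : N) : Prop := ∃ r : ℕ, 1 ≤ r ∧ z ^ r = w ^ r

variable {N : Type} [Field N]

theorem Te.refl (z : N) : Te z z := ⟨1, le_refl 1, rfl⟩

theorem Te.symm {z w : N} (h : Te z w) : Te w z := by
  obtain ⟨r, hr, h⟩ := h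
  exact ⟨r, hr, h.symm⟩

theorem Te.trans {z w u : N} (h : Te z w) (h' : Te w u) : Te z u := by
  obtain ⟨r, hr, h⟩ := h
  obtain ⟨s, hs, h'⟩ := h'
  refine ⟨r * s, Nat.mul_pos hr hs, ?_⟩
  rw [pow_mul, h, ← pow_mul, mul_comm, pow_mul, h', ← pow_mul]

theorem Te.mul {z w z' w' : N} (h : Te z w) (h' : Te z' w') : Te (z * z') (w * w') := by
  obtain ⟨r, hr, h⟩ := h
  obtain ⟨s, hs, h'⟩ := h'
  refine ⟨r * s, Nat.mul_pos hr hs, ?_⟩
  have e1 : z ^ (r * s) = w ^ (r * s) := by rw [pow_mul, h, ← pow_mul]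
  have e2 : z' ^ (r * s) = w' ^ (r * s) := by
    rw [mul_comm r s, pow_mul, h', ← pow_mul]
  rw [mul_pow, mul_pow, e1, e2]

theorem Te.pow {z w : N} (h : Te z w) (n : ℕ) : Te (z ^ n) (w ^ n) := by
  obtain ⟨r, hr, h⟩ := h
  refine ⟨r, hr, ?_⟩
  rw [← pow_mul, mul_comm, pow_mul, h, ← pow_mul, mul_comm, pow_mul]

theorem Te.of_pow {z w : N} {n : ℕ} (hn : 1 ≤ n) (h : Te (z ^ n) (w ^ n)) : Te z w := by
  obtain ⟨r, hr, h⟩ := h
  refine ⟨n * r, Nat.mul_pos hn hr, ?_⟩
  rw [pow_mul, h, ← pow_mul]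

theorem Te.map {K : Type} [Field K] [Algebra K N] {z w : N} (h : Te z w) (σ : N ≃ₐ[K] N) :
    Te (σ z) (σ w) := by
  obtain ⟨r, hr, h⟩ := h
  exact ⟨r, hr, by rw [← map_pow, h, map_pow]⟩

theorem Te.prod {T : Finset N} {a : N} (h : ∀ c ∈ T, Te c a) : Te (∏ c ∈ T, c) (a ^ T.card) := by
  classical
  induction T using Finset.induction_on with
  | empty => rw [Finset.prod_empty, Finset.card_empty, pow_zero]; exact Te.refl 1
  | insert c T hc ih =>
    rw [Finset.prod_insert hc, Finset.card_insert_of_notMem hc, pow_succ, mul_comm (a ^ T.card)]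
    exact (h c (Finset.mem_insert_self c T)).mul
      (ih fun d hd => h d (Finset.mem_insert_of_mem hd))

/-- the automorphisms which move `a` by a root of unity -/
def S (K : Type) [Field K] [Algebra K N] (a : N) : Subgroup (N ≃ₐ[K] N) where
  carrier := {σ | Te (σ a) a}
  one_mem' := Te.refl a
  mul_mem' := by
    intro σ τ hσ hτ
    exact (hτ.map σ).trans hσ
  inv_mem' := by
    intro σ hσ
    have h := hσ.map σ⁻¹
    rw [show (σ⁻¹ : N ≃ₐ[K] N) (σ a) = a from σ.symm_apply_apply a] at h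
    exact h.symm

theorem mem_S {K : Type} [Field K] [Algebra K N] {a : N} {σ : N ≃ₐ[K] N} :
    σ ∈ S K a ↔ Te (σ a) a := Iff.rfl

theorem finrank_adjoin (K : Type) [Field K] [Algebra K N] [FiniteDimensional K N] [IsGalois K N]
    (b : N) : Module.finrank K (IntermediateField.adjoin K {b}) =
      (MulAction.stabilizer (N ≃ₐ[K] N) b).index := by
  rw [IntermediateField.finrank_eq_fixingSubgroup_index]
  congr 1
  ext σ
  rw [IntermediateField.mem_fixingSubgroup_iff, MulAction.mem_stabilizer_iff]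
  constructor
  · intro h
    exact h b (IntermediateField.mem_adjoin_simple_self K b)
  · intro h x hx
    have h1 : IntermediateField.adjoin K {b} ≤
        IntermediateField.fixedField (Subgroup.zpowers σ) := by
      rw [IntermediateField.adjoin_simple_le_iff]
      rintro ⟨τ, hτ⟩
      have h2 : τ ∈ MulAction.stabilizer (N ≃ₐ[K] N) b :=
        (Subgroup.zpowers_le.2 (MulAction.mem_stabilizer_iff.2 h)) hτ
      exact h2
    exact h1 hx ⟨σ, Subgroup.mem_zpowers σ⟩

end NormRow

open NormRow in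
/-- Row NORM. -/
theorem norm : NormStatement := by
  classical
  intro K _ _ N _ _ _ _ a ha
  have hfd : FiniteDimensional K N := Module.Finite.of_restrictScalars_finite ℚ K N
  have hfin : (MulAction.orbit (S K a) a).Finite :=
    Set.finite_range fun m : S K a => m • a
  set T : Finset N := hfin.toFinset with hT
  have hmem : ∀ c, c ∈ T ↔ ∃ σ : N ≃ₐ[K] N, Te (σ a) a ∧ σ a = c := by
    intro c
    rw [hT, Set.Finite.mem_toFinset]
    constructor
    · rintro ⟨⟨σ, hσ⟩, rfl⟩
      exact ⟨σ, hσ, rfl⟩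
    · rintro ⟨σ, hσ, rfl⟩
      exact ⟨⟨σ, hσ⟩, rfl⟩
  have hTe : ∀ c ∈ T, Te c a := by
    intro c hc
    obtain ⟨σ, hσ, rfl⟩ := (hmem c).1 hc
    exact hσ
  have haT : a ∈ T := (hmem a).2 ⟨1, Te.refl a, rfl⟩
  have hm : 1 ≤ T.card := Finset.card_pos.2 ⟨a, haT⟩
  set b : N := ∏ c ∈ T, c with hb
  have hb0 : b ≠ 0 := by
    rw [hb, Finset.prod_ne_zero_iff]
    intro c hc
    obtain ⟨σ, _, rfl⟩ := (hmem c).1 hc
    intro h0
    exact ha (σ.injective (h0.trans (map_zero σ).symm))
  have hba : Te b (a ^ T.card) := Te.prod hTe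
  have hstab : ∀ σ : N ≃ₐ[K] N, Te (σ a) a → σ b = b := by
    intro σ hσ
    rw [hb, map_prod]
    refine Finset.prod_bijective σ σ.bijective ?_ (fun c _ => rfl)
    intro c
    rw [hmem, hmem]
    constructor
    · rintro ⟨τ, hτ, rfl⟩
      exact ⟨σ * τ, (hτ.map σ).trans hσ, rfl⟩
    · rintro ⟨τ, hτ, h⟩
      have hσ' : Te ((σ⁻¹ : N ≃ₐ[K] N) a) a := (S K a).inv_mem (mem_S.2 hσ)
      refine ⟨σ⁻¹ * τ, (hτ.map σ⁻¹).trans hσ', ?_⟩
      show (σ⁻¹ : N ≃ₐ[K] N) (τ a) = c
      rw [h]
      exact σ.symm_apply_apply c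
  have hrev : ∀ σ : N ≃ₐ[K] N, Te (σ b) b → Te (σ a) a := by
    intro σ hσ
    refine Te.of_pow hm ?_
    have h1 : Te (σ b) ((σ a) ^ T.card) := by
      have h2 := hba.map σ
      rwa [map_pow] at h2
    exact (h1.symm.trans hσ).trans hba
  refine ⟨b, T.card, hm, hb0, ?_, ?_, ?_, ?_, ?_⟩
  · intro σ
    constructor
    · intro h
      exact hrev σ (by rw [h]; exact Te.refl b)
    · intro h
      exact hstab σ h
  · intro σ h
    exact hstab σ (hrev σ h)
  · intro hna n hn h1
    obtain ⟨r, hr, h2⟩ := hba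
    refine hna (T.card * r * n) (Nat.mul_pos (Nat.mul_pos hm hr) hn) ?_
    rw [pow_mul, pow_mul, ← h2, ← pow_mul, mul_comm, pow_mul, h1, one_pow]
  · rw [finrank_adjoin K b, finrank_adjoin K a]
    have h1 : MulAction.stabilizer (N ≃ₐ[K] N) b = S K a := by
      ext σ
      rw [MulAction.mem_stabilizer_iff, mem_S]
      constructor
      · intro h
        refine hrev σ ?_
        rw [show σ b = b from h]
        exact Te.refl b
      · intro h
        exact hstab σ h
    have h2 : MulAction.stabilizer (N ≃ₐ[K] N) a ≤ S K a := by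
      intro σ h
      rw [MulAction.mem_stabilizer_iff] at h
      rw [mem_S, show σ a = a from h]
      exact Te.refl a
    rw [h1, ← Subgroup.relIndex_mul_index h2]
    congr 1
    have h3 : (MulAction.stabilizer (N ≃ₐ[K] N) a).subgroupOf (S K a) =
        MulAction.stabilizer (S K a) a := by
      ext σ
      rfl
    rw [Subgroup.relIndex, h3, MulAction.index_stabilizer, hT, Set.ncard_eq_toFinset_card _ hfin]
  · obtain ⟨r, hr, h2⟩ := hba
    rw [← Height.logHeight₁_eq_logHeight, ← Height.logHeight₁_eq_logHeight]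
    have h3 := congrArg Height.logHeight₁ h2
    rw [← pow_mul, Height.logHeight₁_pow, Height.logHeight₁_pow] at h3
    have hr0 : (r : ℝ) ≠ 0 := by
      have : (0 : ℝ) < r := by exact_mod_cast hr
      exact this.ne'
    apply mul_left_cancel₀ hr0
    rw [h3]
    push_cast
    ring

end Pool.DynLehmer.LW
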