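import Pool.Agent.Lib.MP_2194ec_nt.LW.DefsMulE
import Pool.Agent.Lib.MP_2194ec_nt.LW.Norm

set_option autoImplicit false

/-!
# Row NORMB: the product of the conjugates which differ from `a` by a root of unity
-/

namespace Pool.DynLehmer.LW

open NormRow in
/-- Row NORMB. -/
theorem normb : NormbStatement := by
  classical
  intro K _ _ N _ _ _ _ a ha
  have hfd : FiniteDimensional K N := Module.Finite.of_restrictScalars_finite ℚ K N
  have hfin : (MulAction.orbit (S K a) a).Finite :=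
    Set.finite_range fun m : S K a => m • a
  set T : Finset N := hfin.toFinset with hT
  have hmem : ∀ c, c ∈ T ↔ ∃ σ : N ≃ₐ[K] N, Te (σ a) a ∧ σ a = c := by
    intro c
    rw [hT, Set.Finite.mem_toFinset]
    constructor
    · rintro ⟨⟨σ, hσ⟩, rfl⟩
      exact ⟨σ, hσ, rfl⟩
    · rintro ⟨σ, hσ, rfl⟩
      exact ⟨⟨σ, hσ⟩, rfl⟩
  have hTe : ∀ c ∈ T, Te c a := by
    intro c hc
    obtain ⟨σ, hσ, rfl⟩ := (hmem c).1 hc
    exact hσ
  have haT : a ∈ T := (hmem a).2 ⟨1, Te.refl a, rfl⟩
  have hm : 1 ≤ T.card := Finset.card_pos.2 ⟨a, haT⟩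
  set b : N := ∏ c ∈ T, c with hb
  have hb0 : b ≠ 0 := by
    rw [hb, Finset.prod_ne_zero_iff]
    intro c hc
    obtain ⟨σ, _, rfl⟩ := (hmem c).1 hc
    intro h0
    exact ha (σ.injective (h0.trans (map_zero σ).symm))
  have hba : Te b (a ^ T.card) := Te.prod hTe
  have hstab : ∀ σ : N ≃ₐ[K] N, Te (σ a) a → σ b = b := by
    intro σ hσ
    rw [hb, map_prod]
    refine Finset.prod_bijective σ σ.bijective ?_ (fun c _ => rfl)
    intro c
    rw [hmem, hmem]
    constructor
    · rintro ⟨τ, hτ, rfl⟩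
      exact ⟨σ * τ, (hτ.map σ).trans hσ, rfl⟩
    · rintro ⟨τ, hτ, h⟩
      have hσ' : Te ((σ⁻¹ : N ≃ₐ[K] N) a) a := (S K a).inv_mem (mem_S.2 hσ)
      refine ⟨σ⁻¹ * τ, (hτ.map σ⁻¹).trans hσ', ?_⟩
      show (σ⁻¹ : N ≃ₐ[K] N) (τ a) = c
      rw [h]
      exact σ.symm_apply_apply c
  have hrev : ∀ σ : N ≃ₐ[K] N, Te (σ b) b → Te (σ a) a := by
    intro σ hσ
    refine Te.of_pow hm ?_
    have h1 : Te (σ b) ((σ a) ^ T.card) := by
      have h2 := hba.map σ
      rwa [map_pow] at h2
    exact (h1.symm.trans hσ).trans hba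
  refine ⟨b, T.card, hm, hb0, ?_, ?_, ?_, ?_, ?_, ?_⟩
  · intro σ
    constructor
    · intro h
      exact hrev σ (by rw [h]; exact Te.refl b)
    · intro h
      exact hstab σ h
  · intro σ h
    exact hstab σ (hrev σ h)
  · intro hna n hn h1
    obtain ⟨r, hr, h2⟩ := hba
    refine hna (T.card * r * n) (Nat.mul_pos (Nat.mul_pos hm hr) hn) ?_
    rw [pow_mul, pow_mul, ← h2, ← pow_mul, mul_comm, pow_mul, h1, one_pow]
  · rw [finrank_adjoin K b, finrank_adjoin K a]
    have h1 : MulAction.stabilizer (N ≃ₐ[K] N) b = S K a := by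
      ext σ
      rw [MulAction.mem_stabilizer_iff, mem_S]
      constructor
      · intro h
        refine hrev σ ?_
        rw [show σ b = b from h]
        exact Te.refl b
      · intro h
        exact hstab σ h
    have h2 : MulAction.stabilizer (N ≃ₐ[K] N) a ≤ S K a := by
      intro σ h
      rw [MulAction.mem_stabilizer_iff] at h
      rw [mem_S, show σ a = a from h]
      exact Te.refl a
    rw [h1, ← Subgroup.relIndex_mul_index h2]
    congr 1
    have h3 : (MulAction.stabilizer (N ≃ₐ[K] N) a).subgroupOf (S K a) =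
        MulAction.stabilizer (S K a) a := by
      ext σ
      rfl
    rw [Subgroup.relIndex, h3, MulAction.index_stabilizer, hT, Set.ncard_eq_toFinset_card _ hfin]
  · obtain ⟨r, hr, h2⟩ := hba
    rw [← Height.logHeight₁_eq_logHeight, ← Height.logHeight₁_eq_logHeight]
    have h3 := congrArg Height.logHeight₁ h2
    rw [← pow_mul, Height.logHeight₁_pow, Height.logHeight₁_pow] at h3
    have hr0 : (r : ℝ) ≠ 0 := by
      have : (0 : ℝ) < r := by exact_mod_cast hr
      exact this.ne'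
    apply mul_left_cancel₀ hr0
    rw [h3]
    push_cast
    ring
  · obtain ⟨r, hr, h2⟩ := hba
    exact ⟨r, hr, by rw [h2, ← pow_mul]⟩

end Pool.DynLehmer.LW
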