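import Pool.Agent.Lib.MP_2194ec_nt.LW.DefsMul

set_option autoImplicit false

/-!
# Row REPM: the multiplicative group modulo torsion as a rational representation

`V` is the tensor product of `ℚ` and the multiplicative group (written additively); it is a
localization, so two elements with the same image differ by a root of unity.
-/

namespace Pool.DynLehmer.LW
open scoped Classical TensorProduct

namespace Repm65

variable {K N : Type} [Field K] [Field N] [Algebra K N]

/-- The action of an automorphism on the multiplicative group, written additively. -/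
noncomputable def act (σ : N ≃ₐ[K] N) : Additive Nˣ →ₗ[ℤ] Additive Nˣ :=
  (MonoidHom.toAdditive (Units.map (σ : N →* N))).toIntLinearMap

theorem act_ofMul (σ : N ≃ₐ[K] N) (u : Nˣ) :
    act σ (Additive.ofMul u) = Additive.ofMul (Units.map (σ : N →* N) u) := rfl

theorem act_one : act (1 : N ≃ₐ[K] N) = LinearMap.id := by
  ext u
  rfl

theorem act_mul (σ τ : N ≃ₐ[K] N) : act (σ * τ) = act σ ∘ₗ act τ := by
  ext u
  rfl

/-- The representation. -/
noncomputable def rep : Representation ℚ (N ≃ₐ[K] N) (ℚ ⊗[ℤ] Additive Nˣ) where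
  toFun σ := (act σ).baseChange ℚ
  map_one' := by
    rw [act_one, LinearMap.baseChange_id]
    rfl
  map_mul' σ τ := by
    rw [act_mul, LinearMap.baseChange_comp]
    rfl

/-- The map. -/
noncomputable def toV (z : N) : ℚ ⊗[ℤ] Additive Nˣ :=
  if h : z = 0 then 0 else TensorProduct.mk ℤ ℚ (Additive Nˣ) 1 (Additive.ofMul (Units.mk0 z h))

theorem toV_unit (u : Nˣ) :
    toV (u : N) = TensorProduct.mk ℤ ℚ (Additive Nˣ) 1 (Additive.ofMul u) := by
  unfold toV
  rw [dif_neg u.ne_zero, Units.mk0_val]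

theorem toV_equi (σ : N ≃ₐ[K] N) (z : N) (hz : z ≠ 0) : toV (σ z) = rep σ (toV z) := by
  obtain ⟨u, rfl⟩ : ∃ u : Nˣ, (u : N) = z := ⟨Units.mk0 z hz, rfl⟩
  have h1 : σ (u : N) = ((Units.map (σ : N →* N) u : Nˣ) : N) := rfl
  rw [h1, toV_unit, toV_unit]
  change _ = (act σ).baseChange ℚ (TensorProduct.mk ℤ ℚ (Additive Nˣ) 1 (Additive.ofMul u))
  rw [TensorProduct.mk_apply, TensorProduct.mk_apply, LinearMap.baseChange_tmul, act_ofMul]

theorem toV_eq (z z' : N) (hz : z ≠ 0) (hz' : z' ≠ 0) (h : toV z = toV z') :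
    ∃ r : ℕ, 1 ≤ r ∧ z ^ r = z' ^ r := by
  obtain ⟨u, rfl⟩ : ∃ u : Nˣ, (u : N) = z := ⟨Units.mk0 z hz, rfl⟩
  obtain ⟨u', rfl⟩ : ∃ u : Nˣ, (u : N) = z' := ⟨Units.mk0 z' hz', rfl⟩
  rw [toV_unit, toV_unit] at h
  have hloc : IsLocalizedModule (nonZeroDivisors ℤ)
      (TensorProduct.mk ℤ ℚ (Additive Nˣ) 1) :=
    (isLocalizedModule_iff_isBaseChange (nonZeroDivisors ℤ) ℚ _).2
      (TensorProduct.isBaseChange ℤ (Additive Nˣ) ℚ)
  obtain ⟨c, hc⟩ := (IsLocalizedModule.eq_iff_exists (nonZeroDivisors ℤ)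
    (TensorProduct.mk ℤ ℚ (Additive Nˣ) 1)).1 h
  have hc0 : (c : ℤ) ≠ 0 := nonZeroDivisors.ne_zero c.2
  have h1 : u ^ (c : ℤ) = u' ^ (c : ℤ) := by
    have : Additive.ofMul (u ^ (c : ℤ)) = Additive.ofMul (u' ^ (c : ℤ)) := by
      rw [ofMul_zpow, ofMul_zpow]
      exact hc
    exact Additive.ofMul.injective this
  have h2 : u ^ (c : ℤ).natAbs = u' ^ (c : ℤ).natAbs := by
    rcases Int.natAbs_eq (c : ℤ) with h3 | h3
    · rw [h3, zpow_natCast, zpow_natCast] at h1
      exact h1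
    · rw [h3, zpow_neg, zpow_neg, inv_inj, zpow_natCast, zpow_natCast] at h1
      exact h1
  refine ⟨(c : ℤ).natAbs, Int.natAbs_pos.2 hc0, ?_⟩
  have h3 := congrArg (fun w : Nˣ => (w : N)) h2
  simpa using h3

theorem toV_indep (k : ℕ) (y : Fin k → N) (hy : ∀ i, y i ≠ 0)
    (hl : LinearIndependent ℚ (fun i => toV (y i))) (l : Fin k → ℤ)
    (h : ∏ i, y i ^ l i = 1) : l = 0 := by
  choose u hu using fun i => (⟨Units.mk0 (y i) (hy i), rfl⟩ : ∃ u : Nˣ, (u : N) = y i)
  have h1 : ∏ i, u i ^ l i = 1 := by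
    apply Units.ext
    rw [Units.coe_prod]
    simp only [Units.val_zpow_eq_zpow_val, hu, h, Units.val_one]
  have h2 : ∑ i, l i • Additive.ofMul (u i) = 0 := by
    have := congrArg Additive.ofMul h1
    rw [ofMul_prod] at this
    simpa [ofMul_zpow] using this
  have h3 : ∑ i, (l i : ℚ) • toV (y i) = 0 := by
    have h4 : ∀ i, (l i : ℚ) • toV (y i) =
        TensorProduct.mk ℤ ℚ (Additive Nˣ) 1 (l i • Additive.ofMul (u i)) := by
      intro i
      rw [← hu i, toV_unit, map_zsmul, Int.cast_smul_eq_zsmul]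
    simp only [h4]
    rw [← map_sum, h2, map_zero]
  have h5 := Fintype.linearIndependent_iff.1 hl (fun i => (l i : ℚ)) h3
  funext i
  have := h5 i
  exact_mod_cast this

end Repm65

open Repm65 in
/-- Row REPM. -/
theorem repm : RepmStatement := by
  intro K N _ _ _
  exact ⟨ℚ ⊗[ℤ] Additive Nˣ, inferInstance, inferInstance, rep, toV, toV_equi,
    toV_eq, toV_indep⟩

end Pool.DynLehmer.LW
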