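import Pool.Agent.Lib.MP_2194ec_nt.LW.AllGm
import Pool.Agent.Lib.MP_2194ec_nt.LW.Clsm
import Pool.Agent.Lib.MP_2194ec_nt.LW.GramRow
import Pool.Agent.Lib.MP_2194ec_nt.LW.Modt
import Pool.Agent.Lib.MP_2194ec_nt.LW.Normb
import Pool.Agent.Lib.MP_2194ec_nt.LW.Repm
import Pool.Agent.Lib.MP_2194ec_nt.LW.Fintg
import Pool.Agent.Lib.MP_2194ec_nt.LW.Finq
import Pool.Agent.Lib.MP_2194ec_nt.LW.Fino2
import Pool.Agent.Lib.MP_2194ec_nt.LW.AllGrpo2
import Pool.Agent.Lib.MP_2194ec_nt.LW.Trd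

set_option autoImplicit false

/-!
# Lehmer's bound outside primitive almost simple Galois groups
-/

namespace Pool.DynLehmer.LW
open Pool.DynLehmer Pool.DynLehmer.LP Pool.DynLehmer.GS

/-- **Theorem P**, sharp form. -/
theorem mulo2 : Mulo2Statement :=
  fino2 (fing_of_fintg (fintg gmst (clsm trd))) grpo2All normb repm

end Pool.DynLehmer.LW
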