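import Pool.Agent.Lib.MP_2194ec_nt.LW.Defs2

set_option autoImplicit false

/-!
# The dynamical Lehmer bound and composition factors: statements of the rows
-/

namespace Pool.DynLehmer.LW
open MvPolynomial NumberField Filter Topology Pool.DynLehmer Pool.DynLehmer.SB Pool.DynLehmer.SP
  Pool.DynLehmer.GS Pool.DynLehmer.LP
open scoped Classical

/-- The group of permutations of the orbit of `x` under `G` which is induced by the subgroup `H`
has no composition factor which is not abelian and of order greater than `M`: there is a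
subnormal series of `H` whose factors are abelian or of order at most `M`, and which starts with
a group which acts trivially. -/
def Fac {G Ω : Type} [Group G] [MulAction G Ω] (H : Subgroup G) (x : Ω) (M : ℕ) : Prop :=
  ∃ (l : ℕ) (L : ℕ → Subgroup G), (∀ g ∈ L 0, ∀ τ : G, g • τ • x = τ • x) ∧ L l = H ∧
    ∀ i < l, L i ≤ L (i + 1) ∧ (∀ a ∈ L (i + 1), ∀ b ∈ L i, a * b * a⁻¹ ∈ L i) ∧
      ((∀ a ∈ L (i + 1), ∀ b ∈ L (i + 1), a * b * a⁻¹ * b⁻¹ ∈ L i) ∨
        (L i).relIndex (L (i + 1)) ≤ M)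

/-- Row GRPC: tuples with a small orbit for a transitive group with a normal subgroup with small
composition factors. -/
def GrpcStatement : Prop :=
  ∀ R A : ℕ, 1 ≤ R → ∃ k₀ C : ℕ, ∀ (G Ω : Type) [Group G] [Finite G] [Fintype Ω]
    [MulAction G Ω], MulAction.IsPretransitive G Ω → ∀ (x : Ω) (H : Subgroup G), H.Normal →
    Fac H x ((Fintype.card Ω) ^ A) →
    ∀ E : Ω → Finset Ω, (∀ x, (E x).card ≤ R) → (∀ x, x ∈ E x) →
    (∀ x y, y ∈ E x → x ∈ E y) → (∀ (g : G) (x y : Ω), y ∈ E x → g • y ∈ E (g • x)) →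
    C ≤ Fintype.card Ω → R < Nat.card (MulAction.orbit H x) →
    ∃ (k : ℕ) (y : Fin k → Ω), 2 ≤ k ∧ k ≤ k₀ ∧ (∃ i, y i = x) ∧
      (∀ i i', i ≠ i' → y i' ∉ E (y i)) ∧
      (Nat.card (MulAction.orbit G y)) ^ 2 ≤ C * (Fintype.card Ω) ^ (2 * k - 1)

/-- THEOREM C (row C-SOLV, from YStatement, GRPC, EXC, LIFT). -/
def SolvcStatement : Prop :=
  ∀ (K : Type) [Field K] [NumberField K] (p s : ℕ) (v : FinitePlace K)
    (F : Fin 2 → MvPolynomial (Fin 2) K), HypR p s v F → CritW F →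
    ∃ R : ℕ, 1 ≤ R ∧ (OneOrb F → R = 1) ∧ ∀ (A : ℕ) (δ : ℝ), 0 < δ →
    ∃ c : ℝ, 0 < c ∧ ∀ (N : Type) [Field N] [NumberField N] [Algebra K N] [IsGalois K N] (a : N),
      WandP F ![a, 1] →
      (∀ n : ℕ, 1 / δ < (dg K ((gAct F N)^[n] ![a, 1]) : ℝ) →
        ((p ^ s : ℕ) : ℝ) ^ n * (dg K ((gAct F N)^[n] ![a, 1]) : ℝ) ^ (1 - δ) ≤ dg K ![a, 1] →
        ∃ H : Subgroup (N ≃ₐ[K] N), H.Normal ∧
          Fac H (nz ((gAct F N)^[n] ![a, 1])) ((dg K ((gAct F N)^[n] ![a, 1])) ^ A) ∧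
          R < Nat.card (MulAction.orbit H (nz ((gAct F N)^[n] ![a, 1])))) →
      ∃ h : ℝ, HasHt (p ^ s) F ![a, 1] h ∧ c / (dg K ![a, 1] : ℝ) ≤ h

end Pool.DynLehmer.LW
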