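import Pool.Agent.Lib.MP_2194ec_nt.LW.GrpcD
import Pool.Agent.Lib.MP_2194ec_nt.LW.DefsC

set_option autoImplicit false

/-!
# Small composition factors give a section with a small orbit
-/

namespace Pool.DynLehmer.LW
open scoped Classical

/-- The group of permutations of the orbit of `x` under `H` which is induced by `H` has no
composition factor which is not abelian and of order greater than `M`: there is a subnormal series
of `H` whose factors are abelian or of order at most `M`, and which starts with a group which acts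
trivially on this orbit. -/
def FacH {G Ω : Type} [Group G] [MulAction G Ω] (H : Subgroup G) (x : Ω) (M : ℕ) : Prop :=
  ∃ (l : ℕ) (L : ℕ → Subgroup G), (∀ g ∈ L 0, ∀ h ∈ H, g • h • x = h • x) ∧ L l = H ∧
    ∀ i < l, L i ≤ L (i + 1) ∧ (∀ a ∈ L (i + 1), ∀ b ∈ L i, a * b * a⁻¹ ∈ L i) ∧
      ((∀ a ∈ L (i + 1), ∀ b ∈ L (i + 1), a * b * a⁻¹ * b⁻¹ ∈ L i) ∨
        (L i).relIndex (L (i + 1)) ≤ M)

/-- `H` is normalised by the stabilizer of `x`, the orbit of `x` under `H` has more than `R`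
elements, and it has at most `D ^ (1/2)` elements or the composition factors of the group of
permutations of this orbit which is induced by `H` are abelian or of order at most `D ^ A`. -/
structure Nfc {G Ω : Type} [Group G] [MulAction G Ω] (H : Subgroup G) (x : Ω) (D A R : ℕ) :
    Prop where
  nor : ∀ g ∈ MulAction.stabilizer G x, ∀ h ∈ H, g * h * g⁻¹ ∈ H
  big : R < Nat.card (MulAction.orbit H x)
  fac : (Nat.card (MulAction.orbit H x)) ^ 2 ≤ D ∨ FacH H x (D ^ A)

/-- Tuples with a small orbit for a transitive group with a subgroup with small composition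
factors. -/
def GrphStatement : Prop :=
  ∀ R A : ℕ, 1 ≤ R → ∃ k₀ C : ℕ, ∀ (G Ω : Type) [Group G] [Finite G] [Fintype Ω]
    [MulAction G Ω], MulAction.IsPretransitive G Ω → ∀ (x : Ω) (H : Subgroup G),
    Nfc H x (Fintype.card Ω) A R →
    ∀ E : Ω → Finset Ω, (∀ x, (E x).card ≤ R) → (∀ x, x ∈ E x) →
    (∀ x y, y ∈ E x → x ∈ E y) → (∀ (g : G) (x y : Ω), y ∈ E x → g • y ∈ E (g • x)) →
    C ≤ Fintype.card Ω →
    ∃ (k : ℕ) (y : Fin k → Ω), 2 ≤ k ∧ k ≤ k₀ ∧ (∃ i, y i = x) ∧
      (∀ i i', i ≠ i' → y i' ∉ E (y i)) ∧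
      (Nat.card (MulAction.orbit G y)) ^ 2 ≤ C * (Fintype.card Ω) ^ (2 * k - 1)

namespace Cf

section Struct

variable {V Ω : Type} [Group V] [Finite V] [Finite Ω] [MulAction V Ω]

theorem struct {H : Subgroup V} (hH : H.Normal) {x : Ω} (hV : ∀ v : V, v • x ∈ Ob H x)
    {M R1 t : ℕ} (hF : FacH H x M) (hM : 1 ≤ M) (hR1 : 1 ≤ R1) (h1 : R1 < oc H x)
    (ht : R1 < 2 ^ t) :
    ∃ L H' W : Subgroup V, (∀ h ∈ H', ∀ a ∈ L, h * a * h⁻¹ ∈ L) ∧
      (∀ w ∈ W, ∀ a ∈ L, w * a * w⁻¹ ∈ L) ∧ (∀ w ∈ W, ∀ h ∈ H', w * h * w⁻¹ ∈ H') ∧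
      W ≤ MulAction.stabilizer V x ∧ R1 < oc H' x ∧ oc L x ≤ R1 ∧
      ((W.relIndex (MulAction.stabilizer V x) ≤ 1 ∧ L.relIndex H' ≤ oc H x) ∨
        (W.relIndex (MulAction.stabilizer V x) ≤ (oc H x) ^ 2 ∧ L.relIndex H' ≤ M ^ t)) := by
  obtain ⟨B, ⟨hBn, hBH, hBx⟩, hBmin⟩ := Set.Finite.exists_minimal
    (Set.toFinite {N : Subgroup V | N.Normal ∧ N ≤ H ∧ R1 < oc N x}) ⟨H, hH, le_rfl, h1⟩
  have hbot : (⊥ : Subgroup V) < B := by
    rw [bot_lt_iff_ne_bot]
    rintro rfl
    have h2 : Ob (⊥ : Subgroup V) x ⊆ {x} := by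
      rintro z ⟨u, hu, rfl⟩
      rw [Subgroup.mem_bot] at hu
      rw [hu, one_smul]
      rfl
    have h3 : oc (⊥ : Subgroup V) x ≤ 1 := by
      refine (Set.ncard_le_ncard h2 (Set.toFinite _)).trans ?_
      rw [Set.ncard_singleton]
    omega
  obtain ⟨C, ⟨hCn, hCB⟩, hCmax⟩ := Set.Finite.exists_maximal
    (Set.toFinite {N : Subgroup V | N.Normal ∧ N < B}) ⟨⊥, inferInstance, hbot⟩
  have hchf : Chf C B := by
    refine ⟨hCn, hBn, hCB, ?_⟩
    intro N hN hCN hNB
    by_contra hne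
    have h2 := hCmax (⟨hN, lt_of_le_of_ne hNB hne⟩ : N ∈ {N : Subgroup V | N.Normal ∧ N < B})
      hCN.le
    exact absurd hCN (not_lt_of_ge h2)
  have hCx : oc C x ≤ R1 := by
    by_contra hcon
    have h2 := hBmin (⟨hCn, hCB.le.trans hBH, not_le.1 hcon⟩ :
      C ∈ {N : Subgroup V | N.Normal ∧ N ≤ H ∧ R1 < oc N x}) hCB.le
    exact absurd hCB (not_lt_of_ge h2)
  by_cases hab : B ≤ cen C B
  · -- the abelian case
    have hCnor : ∀ g ∈ B, ∀ u ∈ C, g * u * g⁻¹ ∈ C := fun g _ c hc => hCn.conj_mem c hc g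
    refine ⟨st B C x hCnor, B, MulAction.stabilizer V x, ?_, ?_, ?_, le_rfl, hBx, ?_, Or.inl ⟨?_,
      ?_⟩⟩
    · intro b hb a ha
      have h2 : C ≤ st B C x hCnor := fun c hc => ⟨hCB.le hc, c, hc, rfl⟩
      have h3 := mem_cen.1 (hab hb) a ha.1
      have h4 := Subgroup.mul_mem _ (h2 h3) ha
      simpa [mul_assoc] using h4
    · rintro w hw a ⟨haB, c, hc, hcx⟩
      refine ⟨hBn.conj_mem a haB w, w * c * w⁻¹, hCn.conj_mem c hc w, ?_⟩
      have hw' : w⁻¹ • x = x := by rw [inv_smul_eq_iff]; exact (MulAction.mem_stabilizer_iff.1 hw).symm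
      rw [mul_smul, hw', mul_smul, hcx, mul_smul, hw', mul_smul]
    · intro w _ b hb
      exact hBn.conj_mem b hb w
    · refine (Set.ncard_le_ncard ?_ (Set.toFinite _)).trans hCx
      rintro z ⟨a, ha, rfl⟩
      exact ha.2
    · rw [Subgroup.relIndex_self]
    · have h2 : oc B x ≤ oc H x := oc_mono hBH x
      refine le_trans ?_ h2
      have h3 : oc B x = Nat.card (Ob B x) := rfl
      rw [h3]
      refine ri_le _ _ (fun b => (⟨(b : V) • x, b, b.2, rfl⟩ : Ob B x)) ?_
      intro a b hab'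
      have h4 : (a : V) • x = (b : V) • x := congrArg Subtype.val hab'
      refine ⟨B.mul_mem (B.inv_mem a.2) b.2, ?_⟩
      rw [mul_smul, ← h4, inv_smul_smul]
      exact self_mem C x
  · -- the non-abelian case
    obtain ⟨l, L, hL0, hLl, hL⟩ := hF
    let K0 : Subgroup V :=
      { carrier := {b | b ∈ B ∧ ∀ v : V, b • v • x = v • x}
        one_mem' := ⟨B.one_mem, fun v => one_smul _ _⟩
        mul_mem' := by
          rintro a b ⟨ha, ha'⟩ ⟨hb, hb'⟩
          exact ⟨B.mul_mem ha hb, fun v => by rw [mul_smul, hb', ha']⟩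
        inv_mem' := by
          rintro a ⟨ha, ha'⟩
          exact ⟨B.inv_mem ha, fun v => by rw [inv_smul_eq_iff, ha']⟩ }
    have hK0n : K0.Normal := by
      constructor
      rintro a ⟨ha, ha'⟩ g
      refine ⟨hBn.conj_mem a ha g, fun v => ?_⟩
      have h2 := ha' (g⁻¹ * v)
      rw [mul_smul] at h2
      rw [mul_smul, mul_smul, h2, smul_inv_smul]
    have hK0C : K0 ≤ C := by
      by_contra hcon
      have h2 : C ⊔ K0 = B := by
        apply hchf.mx
        · exact Subgroup.sup_normal C K0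
        · exact lt_of_le_not_ge le_sup_left fun h3 => hcon (le_sup_right.trans h3)
        · exact sup_le hCB.le fun b hb => hb.1
      have h3 : B ≤ st B C x (fun g _ c hc => hCn.conj_mem c hc g) := by
        conv_lhs => rw [← h2]
        refine sup_le (fun c hc => ⟨hCB.le hc, c, hc, rfl⟩) ?_
        intro b hb
        refine ⟨hb.1, ?_⟩
        have h4 := hb.2 1
        rw [one_smul] at h4
        rw [h4]
        exact self_mem C x
      have h4 : Ob B x ⊆ Ob C x := by
        rintro z ⟨b, hb, rfl⟩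
        exact (h3 hb).2
      have h5 : oc B x ≤ oc C x := Set.ncard_le_ncard h4 (Set.toFinite _)
      omega
    have h0 : L 0 ⊓ B ≤ C := by
      refine le_trans ?_ hK0C
      rintro g ⟨hg, hgB⟩
      refine ⟨hgB, fun v => ?_⟩
      obtain ⟨h, hh, hhx⟩ := hV v
      rw [← hhx]
      exact hL0 g hg h hh
    obtain ⟨I, hIrel, hIt, hIx⟩ := choose_I hchf x hBx ht
    have hIT : I ⊆ TT C B := hIrel.trans (rel_sub x)
    refine ⟨C, T C I, W1 I x, fun h _ a ha => hCn.conj_mem a ha h,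
      fun w _ a ha => hCn.conj_mem a ha w, ?_, fun w hw => hw.1, hIx, hCx, Or.inr ⟨?_, ?_⟩⟩
    · intro w hw
      refine T_conj (fun c hc => hCn.conj_mem c hc w) ?_
      intro S hS s hs
      exact mem_le_T (((mem_W1.1 hw).2 S).1 hS) (conj_mem_cj hs)
    · refine (W1_idx hchf hIrel).trans ((rel_card hchf hab x).trans ?_)
      exact Nat.pow_le_pow_left (oc_mono hBH x) 2
    · refine (idxT hchf (fun S hS => idxS hchf hBH hab h0 hLl hL hS) I hIT).trans ?_
      exact Nat.pow_le_pow_right hM hIt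

end Struct

section Tuple

variable {V Ω : Type} [Group V] [Finite V] [Finite Ω] [MulAction V Ω]

theorem vtuple {H : Subgroup V} (hH : H.Normal) {x : Ω} (hV : ∀ v : V, v • x ∈ Ob H x)
    {M R r t : ℕ} (hF : FacH H x M) (hM : 1 ≤ M) (hR : 1 ≤ R) (hr2 : 2 ≤ r)
    (h1 : 4 ^ r * R < oc H x) (ht : 4 ^ r * R < 2 ^ t)
    {E : Ω → Finset Ω} (hE : ∀ x, (E x).card ≤ R)
    (hsymm : ∀ x y, y ∈ E x → x ∈ E y)
    (heq : ∀ (g : V) (x y : Ω), y ∈ E x → g • y ∈ E (g • x)) :
    ∃ (s : ℕ) (y : Fin (2 ^ s) → Ω), (∃ i, y i = x) ∧ (∀ i i', i ≠ i' → y i' ∉ E (y i)) ∧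
      ((s = 2 ∧ Nat.card (MulAction.orbit V y) ≤ (oc H x) ^ 3 * (4 ^ r * R) ^ 2 ^ s) ∨
        (s = r ∧ Nat.card (MulAction.orbit V y) ≤
          (M ^ t) ^ r * (oc H x) ^ 3 * (4 ^ r * R) ^ 2 ^ s)) := by
  have hR1 : 1 ≤ 4 ^ r * R := Nat.one_le_iff_ne_zero.2 (by positivity)
  obtain ⟨L, H', W, hLH, hWL, hWH, hWx, hH'x, hLx, hidx⟩ :=
    struct hH hV hF hM hR1 h1 ht
  have hstab : (MulAction.stabilizer V x).index = oc H x := by
    rw [MulAction.index_stabilizer, oc]
    congr 1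
    ext z
    constructor
    · rintro ⟨v, rfl⟩
      exact hV v
    · rintro ⟨u, _, rfl⟩
      exact ⟨u, rfl⟩
  have hWidx : W.index = W.relIndex (MulAction.stabilizer V x) * oc H x := by
    rw [← hstab, Subgroup.relIndex_mul_index hWx]
  have key : ∀ s ≤ r, ∃ y : Fin (2 ^ s) → Ω, (∃ i, y i = x) ∧
      (∀ i i', i ≠ i' → y i' ∉ E (y i)) ∧
      Nat.card (MulAction.orbit V y) ≤
        (L.relIndex H') ^ s * W.index * (4 ^ r * R) ^ 2 ^ s := by
    intro s hs
    obtain ⟨ι, _, y, hcard, ⟨i0, hi0⟩, hyH, hyE, W', hW'W, hidx', hW'⟩ :=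
      cube hLH hWL hWH (fun w hw => MulAction.mem_stabilizer_iff.1 (hWx hw)) hE hsymm heq hH'x s hs
    have e : ι ≃ Fin (2 ^ s) := Fintype.equivFinOfCardEq hcard
    refine ⟨y ∘ e.symm, ⟨e i0, by simpa using hi0⟩, ?_, ?_⟩
    · intro i i' hne
      exact hyE _ _ fun hc => hne (e.symm.injective hc)
    · refine (orb_le (y ∘ e.symm) W' (fun i => Ob L (y (e.symm i)))
        (fun w hw i => hW' w hw _)).trans ?_
      have h2 : W'.index ≤ (L.relIndex H') ^ s * W.index := by
        rw [← Subgroup.relIndex_mul_index hW'W]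
        exact Nat.mul_le_mul_right _ hidx'
      refine Nat.mul_le_mul h2 ?_
      calc ∏ i, (Ob L (y (e.symm i))).ncard ≤ ∏ _i : Fin (2 ^ s), (4 ^ r * R) := by
            refine Finset.prod_le_prod' fun i _ => ?_
            obtain ⟨h, hh, hhx⟩ := hyH (e.symm i)
            rw [← hhx]
            exact (oc_smul hLH hh x).le.trans hLx
        _ = (4 ^ r * R) ^ 2 ^ s := by
            rw [Finset.prod_const, Finset.card_univ, Fintype.card_fin]
  rcases hidx with ⟨hw, hl⟩ | ⟨hw, hl⟩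
  · obtain ⟨y, hyx, hyE, hy⟩ := key 2 hr2
    refine ⟨2, y, hyx, hyE, Or.inl ⟨rfl, hy.trans (Nat.mul_le_mul_right _ ?_)⟩⟩
    calc (L.relIndex H') ^ 2 * W.index ≤ (oc H x) ^ 2 * (1 * oc H x) := by
          rw [hWidx]
          exact Nat.mul_le_mul (Nat.pow_le_pow_left hl 2) (Nat.mul_le_mul_right _ hw)
      _ = (oc H x) ^ 3 := by ring
  · obtain ⟨y, hyx, hyE, hy⟩ := key r le_rfl
    refine ⟨r, y, hyx, hyE, Or.inr ⟨rfl, hy.trans (Nat.mul_le_mul_right _ ?_)⟩⟩
    calc (L.relIndex H') ^ r * W.index ≤ (M ^ t) ^ r * ((oc H x) ^ 2 * oc H x) := by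
          rw [hWidx]
          exact Nat.mul_le_mul (Nat.pow_le_pow_left hl r) (Nat.mul_le_mul_right _ hw)
      _ = (M ^ t) ^ r * (oc H x) ^ 3 := by ring

end Tuple

section Main

variable {G Ω : Type} [Group G] [Finite G] [Finite Ω] [MulAction G Ω]

omit [Finite Ω] in
theorem orb_V {ι : Type} (y : ι → Ω) (V : Subgroup G) :
    Nat.card (MulAction.orbit G y) ≤ V.index * Nat.card (MulAction.orbit V y) := by
  rw [Nat.card_coe_set_eq, ← MulAction.index_stabilizer, Nat.card_coe_set_eq,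
    ← MulAction.index_stabilizer]
  have h1 : (MulAction.stabilizer G y).relIndex V = (MulAction.stabilizer V y).index := rfl
  rw [← h1]
  calc (MulAction.stabilizer G y).index ≤ (MulAction.stabilizer G y ⊓ V).index :=
        Nat.le_of_dvd (Nat.pos_of_ne_zero Subgroup.FiniteIndex.index_ne_zero)
          (Subgroup.index_dvd_of_le inf_le_left)
    _ = (MulAction.stabilizer G y).relIndex V * V.index := by
        rw [← Subgroup.inf_relIndex_right, Subgroup.relIndex_mul_index inf_le_right]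
    _ = _ := mul_comm _ _

theorem cube_le (n : ℕ) (hn : 10 ≤ n) : n ^ 3 ≤ 2 ^ n := by
  induction n, hn using Nat.le_induction with
  | base => norm_num
  | succ n hn ih =>
    rw [pow_succ 2 n]
    nlinarith [ih, mul_le_mul hn hn (by norm_num) (by omega : 0 ≤ n)]

theorem exists_r (A R : ℕ) : ∃ r, 2 ≤ r ∧ A * (2 * r + R) * r + 4 ≤ 2 ^ r := by
  refine ⟨max 10 (A * (2 + R) + 4), by omega, ?_⟩
  set r := max 10 (A * (2 + R) + 4) with hr
  have h1 : 10 ≤ r := le_max_left _ _
  have h2 : A * (2 + R) + 4 ≤ r := le_max_right _ _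
  refine le_trans ?_ (cube_le r h1)
  have h3 : A * (2 * r + R) ≤ A * (2 + R) * r := by
    have h4 : 2 * r + R ≤ (2 + R) * r := by nlinarith
    calc A * (2 * r + R) ≤ A * ((2 + R) * r) := Nat.mul_le_mul_left _ h4
      _ = _ := by ring
  calc A * (2 * r + R) * r + 4 ≤ A * (2 + R) * r * r + 4 * r * r := by
        have h5 := Nat.mul_le_mul_right r h3
        have h6 : 4 ≤ 4 * r * r := by nlinarith
        omega
    _ = (A * (2 + R) + 4) * r ^ 2 := by ring
    _ ≤ r * r ^ 2 := Nat.mul_le_mul_right _ h2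
    _ = r ^ 3 := by ring

theorem grph : GrphStatement := by
  intro R A hR
  obtain ⟨r, hr2, hr⟩ := exists_r A R
  set R1 := 4 ^ r * R with hR1
  have hR1pos : 1 ≤ R1 := Nat.one_le_iff_ne_zero.2 (by positivity)
  have hk4 : 4 ≤ 2 ^ r := by
    calc 4 = 2 ^ 2 := by norm_num
      _ ≤ 2 ^ r := Nat.pow_le_pow_right (by norm_num) hr2
  refine ⟨2 ^ r, (R1 ^ 2 ^ r) ^ 2 + R1 ^ 2 + 1, ?_⟩
  intro G Ω _ _ _ _ htr x H hN E hE hrefl hsymm heq hC
  obtain ⟨hnor, hbig, hfac⟩ := hN
  rw [natCard_orbit] at hbig hfac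
  set D := Fintype.card Ω with hD
  set d := oc H x with hd
  have hDpos : 1 ≤ D := Fintype.card_pos_iff.2 ⟨x⟩
  have hstabG : (MulAction.stabilizer G x).index = D := by
    rw [MulAction.index_stabilizer_of_transitive, Nat.card_eq_fintype_card]
  by_cases hsq : d ^ 2 ≤ D
  · -- a pair
    obtain ⟨z, hz, hzE⟩ : ∃ z ∈ Ob H x, z ∉ E x := by
      by_contra hcon
      push Not at hcon
      have h1 : Ob H x ⊆ (E x : Set Ω) := fun z hz => hcon z hz
      have h2 := Set.ncard_le_ncard h1 (Set.toFinite _)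
      rw [Set.ncard_coe_finset] at h2
      have h3 := hE x
      have h4 : (Ob H x).ncard = d := rfl
      omega
    obtain ⟨h, hh, rfl⟩ := hz
    refine ⟨2, ![x, h • x], le_rfl, by omega, ⟨0, rfl⟩, ?_, ?_⟩
    · have hny : x ∉ E (h • x) := fun hc => hzE (hsymm _ _ hc)
      intro i i' hii
      fin_cases i <;> fin_cases i'
      · exact absurd rfl hii
      · exact hzE
      · exact hny
      · exact absurd rfl hii
    · have h1 := orb_le (![x, h • x] : Fin 2 → Ω) (MulAction.stabilizer G x)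
        (![{x}, Ob H x] : Fin 2 → Set Ω) (by
          intro w hw i
          have hw' := MulAction.mem_stabilizer_iff.1 hw
          fin_cases i
          · exact hw'
          · refine ⟨w * h * w⁻¹, hnor w hw h hh, ?_⟩
            have hw2 : w⁻¹ • x = x := by rw [inv_smul_eq_iff, hw']
            rw [mul_smul, hw2, mul_smul]
            rfl)
      rw [hstabG, Fin.prod_univ_two] at h1
      have h2 : (![{x}, Ob H x] : Fin 2 → Set Ω) 0 = {x} := rfl
      have h3 : (![{x}, Ob H x] : Fin 2 → Set Ω) 1 = Ob H x := rfl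
      rw [h2, h3, Set.ncard_singleton, one_mul] at h1
      calc (Nat.card (MulAction.orbit G (![x, h • x] : Fin 2 → Ω))) ^ 2 ≤ (D * d) ^ 2 :=
            Nat.pow_le_pow_left h1 2
        _ = D ^ 2 * d ^ 2 := by ring
        _ ≤ D ^ 2 * D := Nat.mul_le_mul_left _ hsq
        _ = 1 * D ^ (2 * 2 - 1) := by ring
        _ ≤ _ := Nat.mul_le_mul_right _ (by omega)
  · have hF : FacH H x (D ^ A) := by
      rcases hfac with h1 | h1
      · exact absurd h1 hsq
      · exact h1
    have hdR1 : R1 < d := by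
      by_contra hcon
      have h1 : d ^ 2 ≤ R1 ^ 2 := Nat.pow_le_pow_left (not_lt.1 hcon) 2
      have h2 : 0 ≤ (R1 ^ 2 ^ r) ^ 2 := Nat.zero_le _
      omega
    set V : Subgroup G := H ⊔ MulAction.stabilizer G x with hVdef
    have hHV : H ≤ V := le_sup_left
    have hSV : MulAction.stabilizer G x ≤ V := le_sup_right
    have hVn : ∀ g ∈ V, ∀ h ∈ H, g * h * g⁻¹ ∈ H := by
      have key : V ≤ Subgroup.normalizer (H : Set G) := by
        have key : ∀ U : Subgroup G, (∀ u ∈ U, ∀ a ∈ H, u * a * u⁻¹ ∈ H) →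
            U ≤ Subgroup.normalizer (H : Set G) := by
          intro U hU u hu
          rw [Subgroup.mem_normalizer_iff]
          intro a
          refine ⟨fun ha => hU u hu a ha, fun ha => ?_⟩
          have := hU u⁻¹ (U.inv_mem hu) _ ha
          simpa [mul_assoc] using this
        refine sup_le (key H ?_) (key _ hnor)
        intro u hu a ha
        exact H.mul_mem (H.mul_mem hu ha) (H.inv_mem hu)
      intro g hg h hh
      exact (Subgroup.mem_normalizer_iff.1 (key hg) h).1 hh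
    have hVx : ∀ g ∈ V, g • x ∈ Ob H x := by
      have h1 : V ≤ st V H x hVn := by
        refine sup_le ?_ ?_
        · intro h hh
          exact ⟨hHV hh, h, hh, rfl⟩
        · intro g hg
          refine ⟨hSV hg, ?_⟩
          rw [MulAction.mem_stabilizer_iff.1 hg]
          exact self_mem H x
      intro g hg
      exact (h1 hg).2
    set H' : Subgroup V := H.subgroupOf V with hH'
    have hH'n : H'.Normal := by
      constructor
      intro a ha g
      rw [hH', Subgroup.mem_subgroupOf] at ha ⊢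
      exact hVn g g.2 a ha
    have hOb : Ob H' x = Ob H x := by
      ext z
      constructor
      · rintro ⟨u, hu, rfl⟩
        exact ⟨u, Subgroup.mem_subgroupOf.1 hu, rfl⟩
      · rintro ⟨u, hu, rfl⟩
        exact ⟨⟨u, hHV hu⟩, Subgroup.mem_subgroupOf.2 hu, rfl⟩
    have hoc : oc H' x = d := by rw [oc, hOb, hd, oc]
    have hF' : FacH H' x (D ^ A) := by
      obtain ⟨l, L, h0, hl, hL⟩ := hF
      have hmono : ∀ i ≤ l, L i ≤ H := by
        intro i hi
        rw [← hl]
        induction hi using Nat.decreasingInduction with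
        | self => exact le_rfl
        | of_succ k hk ih => exact ((hL k hk).1).trans ih
      refine ⟨l, fun i => (L i).subgroupOf V, ?_, ?_, ?_⟩
      · intro g hg h hh
        exact h0 g (Subgroup.mem_subgroupOf.1 hg) h (Subgroup.mem_subgroupOf.1 hh)
      · simp only [hl, hH']
      · intro i hi
        obtain ⟨h1, h2, h3⟩ := hL i hi
        refine ⟨?_, ?_, ?_⟩
        · intro a ha
          exact Subgroup.mem_subgroupOf.2 (h1 (Subgroup.mem_subgroupOf.1 ha))
        · intro a ha b hb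
          exact Subgroup.mem_subgroupOf.2
            (h2 a (Subgroup.mem_subgroupOf.1 ha) b (Subgroup.mem_subgroupOf.1 hb))
        · rcases h3 with h3 | h3
          · left
            intro a ha b hb
            exact Subgroup.mem_subgroupOf.2
              (h3 a (Subgroup.mem_subgroupOf.1 ha) b (Subgroup.mem_subgroupOf.1 hb))
          · right
            rwa [Subgroup.relIndex_subgroupOf ((hmono (i + 1) (by omega)).trans hHV)]
    have ht : R1 < 2 ^ (2 * r + R) := by
      rw [hR1, pow_add, pow_mul]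
      norm_num
      exact Nat.lt_two_pow_self
    obtain ⟨s, y, hyx, hyE, hy⟩ := vtuple hH'n (fun v => by rw [hOb]; exact hVx v v.2) hF'
      (Nat.one_le_iff_ne_zero.2 (by positivity)) hR hr2 (by rw [hoc]; exact hdR1) ht hE hsymm
      (fun g x y h => heq g x y h)
    have hVD : V.index * d = D := by
      have h1 : (MulAction.stabilizer G x).relIndex V = d := by
        have h2 : (MulAction.stabilizer G x).relIndex V = (MulAction.stabilizer V x).index := rfl
        rw [h2, MulAction.index_stabilizer, ← hoc, oc]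
        congr 1
        ext z
        rw [hOb]
        constructor
        · rintro ⟨v, rfl⟩
          exact hVx v v.2
        · rintro ⟨u, hu, rfl⟩
          exact ⟨⟨u, hHV hu⟩, rfl⟩
      rw [← h1, mul_comm, Subgroup.relIndex_mul_index hSV, hstabG]
    have hdD : d ≤ D := by
      rw [← hVD]
      exact Nat.le_mul_of_pos_left _ (Nat.pos_of_ne_zero Subgroup.FiniteIndex.index_ne_zero)
    have hy' : (s = 2 ∧ Nat.card (MulAction.orbit G y) ≤ D ^ 3 * R1 ^ 2 ^ s) ∨
        (s = r ∧ Nat.card (MulAction.orbit G y) ≤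
          ((D ^ A) ^ (2 * r + R)) ^ r * D ^ 3 * R1 ^ 2 ^ s) := by
      rw [hoc] at hy
      have h3 : V.index * d ^ 3 ≤ D ^ 3 := by
        calc V.index * d ^ 3 = (V.index * d) * d ^ 2 := by ring
          _ = D * d ^ 2 := by rw [hVD]
          _ ≤ D * D ^ 2 := Nat.mul_le_mul_left _ (Nat.pow_le_pow_left hdD 2)
          _ = D ^ 3 := by ring
      rcases hy with ⟨hs, hy⟩ | ⟨hs, hy⟩
      · left
        refine ⟨hs, (orb_V y V).trans ((Nat.mul_le_mul_left _ hy).trans ?_)⟩
        rw [← mul_assoc]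
        exact Nat.mul_le_mul_right _ h3
      · right
        refine ⟨hs, (orb_V y V).trans ((Nat.mul_le_mul_left _ hy).trans ?_)⟩
        calc V.index * (((D ^ A) ^ (2 * r + R)) ^ r * d ^ 3 * (4 ^ r * R) ^ 2 ^ s) =
            ((D ^ A) ^ (2 * r + R)) ^ r * (V.index * d ^ 3) * R1 ^ 2 ^ s := by rw [hR1]; ring
          _ ≤ _ := Nat.mul_le_mul_right _ (Nat.mul_le_mul_left _ h3)
    refine ⟨2 ^ s, y, ?_, ?_, hyx, hyE, ?_⟩
    · rcases hy' with ⟨hs, _⟩ | ⟨hs, _⟩
      · rw [hs]; norm_num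
      · rw [hs]; omega
    · rcases hy' with ⟨hs, _⟩ | ⟨hs, _⟩
      · rw [hs]; exact hk4
      · rw [hs]
    · have hRk : R1 ^ 2 ^ s ≤ R1 ^ 2 ^ r := by
        apply Nat.pow_le_pow_right hR1pos
        rcases hy' with ⟨hs, _⟩ | ⟨hs, _⟩
        · rw [hs]; exact hk4
        · rw [hs]
      have hmain : Nat.card (MulAction.orbit G y) ≤ D ^ (2 ^ s - 1) * R1 ^ 2 ^ r := by
        rcases hy' with ⟨hs, hy'⟩ | ⟨hs, hy'⟩
        · refine hy'.trans (Nat.mul_le_mul ?_ hRk)
          rw [hs]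
          norm_num
        · refine hy'.trans (Nat.mul_le_mul ?_ hRk)
          have hpw : ((D ^ A) ^ (2 * r + R)) ^ r * D ^ 3 = D ^ (A * (2 * r + R) * r + 3) := by
            rw [← pow_mul, ← pow_mul, ← pow_add, mul_assoc]
          rw [hpw, hs]
          exact Nat.pow_le_pow_right hDpos (by omega)
      have h2s : 1 ≤ 2 ^ s := Nat.one_le_two_pow
      calc (Nat.card (MulAction.orbit G y)) ^ 2 ≤ (D ^ (2 ^ s - 1) * R1 ^ 2 ^ r) ^ 2 :=
            Nat.pow_le_pow_left hmain 2
        _ = (R1 ^ 2 ^ r) ^ 2 * D ^ (2 * (2 ^ s - 1)) := by rw [mul_pow, ← pow_mul, mul_comm,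
            mul_comm (2 ^ s - 1) 2]
        _ ≤ ((R1 ^ 2 ^ r) ^ 2 + R1 ^ 2 + 1) * D ^ (2 * 2 ^ s - 1) := by
            refine Nat.mul_le_mul (by omega) (Nat.pow_le_pow_right hDpos (by omega))

end Main

end Cf

/-- Row GRPC, in the form for subgroups which are normalised by a stabilizer. -/
theorem grph : GrphStatement := Cf.grph

/-- Row GRPC. -/
theorem grpc : GrpcStatement := by
  intro R A hR
  obtain ⟨k₀, C, h⟩ := Cf.grph R A hR
  refine ⟨k₀, C, ?_⟩
  intro G Ω _ _ _ _ htr x H hH hF E hE hrefl hsymm heq hC hbig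
  refine h G Ω htr x H ⟨fun g _ a ha => hH.conj_mem a ha g, hbig, Or.inr ?_⟩ E hE hrefl hsymm
    heq hC
  obtain ⟨l, L, h0, hl, hL⟩ := hF
  exact ⟨l, L, fun g hg a _ => h0 g hg a, hl, hL⟩

end Pool.DynLehmer.LW
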