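import Pool.Agent.Lib.MP_2194ec_nt.LW.Defs2

set_option autoImplicit false

/-!
# The dynamical Lehmer bound and composition factors of subgroups normalised by the stabilizer:
statements of the rows
-/

namespace Pool.DynLehmer.LW
open MvPolynomial NumberField Filter Topology Pool.DynLehmer Pool.DynLehmer.SB Pool.DynLehmer.SP
  Pool.DynLehmer.GS Pool.DynLehmer.LP
open scoped Classical

/-- The group of permutations of `H x` induced by `H` has no composition factor which is not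
abelian and of order greater than `M`: there is a subnormal series of `H` whose factors are abelian
or of order at most `M`, and which starts with a group which acts trivially on `H x`. -/
def FacU {G Ω : Type} [Group G] [MulAction G Ω] (H : Subgroup G) (x : Ω) (M : ℕ) : Prop :=
  ∃ (l : ℕ) (L : ℕ → Subgroup G), (∀ g ∈ L 0, ∀ τ ∈ H, g • τ • x = τ • x) ∧ L l = H ∧
    ∀ i < l, L i ≤ L (i + 1) ∧ (∀ a ∈ L (i + 1), ∀ b ∈ L i, a * b * a⁻¹ ∈ L i) ∧
      ((∀ a ∈ L (i + 1), ∀ b ∈ L (i + 1), a * b * a⁻¹ * b⁻¹ ∈ L i) ∨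
        (L i).relIndex (L (i + 1)) ≤ M)

/-- `H` is normalised by the stabilizer of `x`, the orbit `H x` has more than `R` elements, and it
has at most `D ^ (1 - 1 / A)` elements or the nonabelian composition factors of the group induced
by `H` on it have order at most `D ^ A`. -/
structure SecU {G Ω : Type} [Group G] [MulAction G Ω] (H : Subgroup G) (x : Ω) (D A R : ℕ) :
    Prop where
  nor : ∀ g ∈ MulAction.stabilizer G x, ∀ h ∈ H, g * h * g⁻¹ ∈ H
  big : R < Nat.card (MulAction.orbit H x)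
  alt : Nat.card (MulAction.orbit H x) ^ A ≤ D ^ (A - 1) ∨ FacU H x (D ^ A)

/-- Row U-GRP (from GRPC of `LW.DefsC`: apply it to the action of `V = G_x H` on `H x`; if the
orbit is small take a pair). -/
def GrpuStatement : Prop :=
  ∀ R A : ℕ, 1 ≤ R → 1 ≤ A → ∃ C X : ℕ, ∀ (G Ω : Type) [Group G] [Finite G] [Fintype Ω]
    [MulAction G Ω], MulAction.IsPretransitive G Ω → ∀ (x : Ω) (H : Subgroup G),
    SecU H x (Fintype.card Ω) A R →
    ∀ E : Ω → Finset Ω, (∀ x, (E x).card ≤ R) → (∀ x, x ∈ E x) →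
    (∀ x y, y ∈ E x → x ∈ E y) → (∀ (g : G) (x y : Ω), y ∈ E x → g • y ∈ E (g • x)) →
    X ≤ Fintype.card Ω →
    ∃ (k : ℕ) (y : Fin k → Ω), 2 ≤ k ∧ k ≤ C ∧ (∃ i, y i = x) ∧
      (∀ i i', i ≠ i' → y i' ∉ E (y i)) ∧
      (Nat.card (MulAction.orbit G y)) ^ C ≤ (Fintype.card Ω) ^ (k * C - 1)

/-- THEOREM U (row U-FIN, from YStatement, GRPU, EXC, LIFT). -/
def UlStatement : Prop :=
  ∀ (K : Type) [Field K] [NumberField K] (p s : ℕ) (v : FinitePlace K)
    (F : Fin 2 → MvPolynomial (Fin 2) K), HypR p s v F → CritW F →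
    ∃ R : ℕ, 1 ≤ R ∧ (OneOrb F → R = 1) ∧ ∀ A : ℕ, 1 ≤ A →
    ∃ c : ℝ, 0 < c ∧ ∀ (N : Type) [Field N] [NumberField N] [Algebra K N] [IsGalois K N] (a : N),
      WandP F ![a, 1] →
      (∀ n : ℕ, A < dg K ((gAct F N)^[n] ![a, 1]) →
        ((p ^ s) ^ n) ^ A * (dg K ((gAct F N)^[n] ![a, 1])) ^ (A - 1) ≤ (dg K ![a, 1]) ^ A →
        ∃ H : Subgroup (N ≃ₐ[K] N), SecU H (nz ((gAct F N)^[n] ![a, 1]))
          (dg K ((gAct F N)^[n] ![a, 1])) A R) →
      ∃ h : ℝ, HasHt (p ^ s) F ![a, 1] h ∧ c / (dg K ![a, 1] : ℝ) ≤ h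

end Pool.DynLehmer.LW
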