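import Pool.Agent.Lib.MP_2194ec_nt.LW.Grp
import Pool.Agent.Lib.MP_2194ec_nt.LW.DefsC
import Pool.Agent.Lib.MP_2194ec_nt.LW.DefsU

set_option autoImplicit false

/-!
# Tuples with a small orbit: from normal subgroups to subgroups normalised by a stabilizer

If `H` is normalised by the stabilizer of `x`, then `V = H G_x` acts transitively on `H x`, `H` is
normal in `V`, and the orbit of a tuple of points of `H x` one of which is `x` under the whole group
is `#Ω / #(H x)` times as large as its orbit under `V`.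
-/

namespace Pool.DynLehmer.LW
open scoped Classical

namespace Grpu

variable {G Ω : Type} [Group G] [MulAction G Ω]

theorem nor_of {H : Subgroup G} {x : Ω}
    (hn : ∀ g ∈ MulAction.stabilizer G x, ∀ h ∈ H, g * h * g⁻¹ ∈ H) {v h : G} (hh : h ∈ H)
    (hv : v • x = h • x) : ∀ a ∈ H, v * a * v⁻¹ ∈ H ∧ v⁻¹ * a * v ∈ H := by
  intro a ha
  have hg : h⁻¹ * v ∈ MulAction.stabilizer G x := by
    rw [MulAction.mem_stabilizer_iff, mul_smul, hv, inv_smul_smul]
  constructor
  · have h1 := H.mul_mem (H.mul_mem hh (hn _ hg a ha)) (H.inv_mem hh)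
    have h2 : h * (h⁻¹ * v * a * (h⁻¹ * v)⁻¹) * h⁻¹ = v * a * v⁻¹ := by group
    rwa [h2] at h1
  · have h1 := hn _ (Subgroup.inv_mem _ hg) _ (H.mul_mem (H.mul_mem (H.inv_mem hh) ha) hh)
    have h2 : (h⁻¹ * v)⁻¹ * (h⁻¹ * a * h) * ((h⁻¹ * v)⁻¹)⁻¹ = v⁻¹ * a * v := by group
    rwa [h2] at h1

/-- The elements which send `x` into its orbit under `H`. -/
def vgrp (H : Subgroup G) (x : Ω)
    (hn : ∀ g ∈ MulAction.stabilizer G x, ∀ h ∈ H, g * h * g⁻¹ ∈ H) : Subgroup G where
  carrier := {v | ∃ h ∈ H, v • x = h • x}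
  one_mem' := ⟨1, H.one_mem, rfl⟩
  mul_mem' := by
    rintro v w ⟨h, hh, hv⟩ ⟨h', hh', hw⟩
    refine ⟨(v * h' * v⁻¹) * h, H.mul_mem (nor_of hn hh hv h' hh').1 hh, ?_⟩
    rw [mul_smul v w, hw, mul_smul (v * h' * v⁻¹) h, ← hv]
    simp [mul_smul]
  inv_mem' := by
    rintro v ⟨h, hh, hv⟩
    refine ⟨v⁻¹ * h⁻¹ * v, (nor_of hn hh hv h⁻¹ (H.inv_mem hh)).2, ?_⟩
    have h1 : v⁻¹ • h • x = x := by rw [← hv, inv_smul_smul]
    rw [mul_smul, hv, mul_smul, inv_smul_smul]

theorem mem_vgrp {H : Subgroup G} {x : Ω}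
    {hn : ∀ g ∈ MulAction.stabilizer G x, ∀ h ∈ H, g * h * g⁻¹ ∈ H} {v : G} :
    v ∈ vgrp H x hn ↔ ∃ h ∈ H, v • x = h • x := Iff.rfl

theorem orb_stab {G' X : Type} [Group G'] [MulAction G' X] (b : X) :
    Nat.card (MulAction.orbit G' b) * Nat.card (MulAction.stabilizer G' b) = Nat.card G' := by
  rw [Nat.card_coe_set_eq, ← MulAction.index_stabilizer, Subgroup.index_mul_card]

/-- Orbits under a subgroup which contains a stabilizer. -/
theorem card_rel [Finite G] (V : Subgroup G) (x : Ω) (hV : MulAction.stabilizer G x ≤ V) {k : ℕ}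
    (y : Fin k → MulAction.orbit V x) (i₀ : Fin k) (hi₀ : (y i₀).1 = x) :
    Nat.card (MulAction.orbit G (fun i => (y i).1)) * Nat.card (MulAction.orbit V x) =
      Nat.card (MulAction.orbit G x) * Nat.card (MulAction.orbit V y) := by
  have h1 := orb_stab (G' := G) (fun i => (y i).1)
  have h2 := orb_stab (G' := G) x
  have h3 := orb_stab (G' := V) x
  have h4 := orb_stab (G' := V) y
  have hsub : ∀ g : G, g • (fun i => (y i).1) = (fun i => (y i).1) → g ∈ V := by
    intro g hg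
    apply hV
    have h5 := congrFun hg i₀
    have h6 : g • (y i₀).1 = (y i₀).1 := h5
    rw [hi₀] at h6
    exact h6
  have e1 : Nat.card (MulAction.stabilizer V x) = Nat.card (MulAction.stabilizer G x) := by
    refine Nat.card_congr
      { toFun := fun v => ⟨v.1.1, v.2⟩
        invFun := fun g => ⟨⟨g.1, hV g.2⟩, g.2⟩
        left_inv := fun v => rfl
        right_inv := fun g => rfl }
  have e2 : Nat.card (MulAction.stabilizer V y) =
      Nat.card (MulAction.stabilizer G (fun i => (y i).1)) := by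
    refine Nat.card_congr
      { toFun := fun v => ⟨v.1.1, ?_⟩
        invFun := fun g => ⟨⟨g.1, hsub g.1 g.2⟩, ?_⟩
        left_inv := fun v => rfl
        right_inv := fun g => rfl }
    · have h5 : v.1 • y = y := v.2
      change v.1.1 • (fun i => (y i).1) = fun i => (y i).1
      funext i
      exact congrArg Subtype.val (congrFun h5 i)
    · have h5 : g.1 • (fun i => (y i).1) = fun i => (y i).1 := g.2
      change (⟨g.1, hsub g.1 g.2⟩ : V) • y = y
      funext i
      exact Subtype.ext (congrFun h5 i)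
  rw [e1] at h3
  rw [e2] at h4
  have p1 : 0 < Nat.card (MulAction.stabilizer G x) := Nat.card_pos
  have p2 : 0 < Nat.card (MulAction.stabilizer G (fun i => (y i).1)) := Nat.card_pos
  apply Nat.eq_of_mul_eq_mul_right (Nat.mul_pos p1 p2)
  calc Nat.card (MulAction.orbit G (fun i => (y i).1)) * Nat.card (MulAction.orbit V x) *
        (Nat.card (MulAction.stabilizer G x) *
          Nat.card (MulAction.stabilizer G (fun i => (y i).1)))
      = (Nat.card (MulAction.orbit G (fun i => (y i).1)) *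
          Nat.card (MulAction.stabilizer G (fun i => (y i).1))) *
        (Nat.card (MulAction.orbit V x) * Nat.card (MulAction.stabilizer G x)) := by ring
    _ = Nat.card G * Nat.card V := by rw [h1, h3]
    _ = (Nat.card (MulAction.orbit G x) * Nat.card (MulAction.stabilizer G x)) *
        (Nat.card (MulAction.orbit V y) *
          Nat.card (MulAction.stabilizer G (fun i => (y i).1))) := by rw [h2, h4]
    _ = Nat.card (MulAction.orbit G x) * Nat.card (MulAction.orbit V y) *
        (Nat.card (MulAction.stabilizer G x) *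
          Nat.card (MulAction.stabilizer G (fun i => (y i).1))) := by ring

open Grp in
/-- The pair. -/
theorem pair [Fintype Ω] [Finite G] (H : Subgroup G) (x : Ω)
    (hn : ∀ g ∈ MulAction.stabilizer G x, ∀ h ∈ H, g * h * g⁻¹ ∈ H) (R : ℕ) (E : Ω → Finset Ω)
    (hE : ∀ x, (E x).card ≤ R) (hsymm : ∀ x y, y ∈ E x → x ∈ E y)
    (hbig : R < Nat.card (MulAction.orbit H x)) :
    ∃ y : Fin 2 → Ω, (∃ i, y i = x) ∧ (∀ i i', i ≠ i' → y i' ∉ E (y i)) ∧
      Nat.card (MulAction.orbit G y) ≤ Nat.card (MulAction.orbit H x) * Fintype.card Ω := by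
  rw [natCard_orbit] at hbig ⊢
  obtain ⟨y', hy', hny'⟩ := Finset.exists_mem_notMem_of_card_lt_card
    (lt_of_le_of_lt (hE x) hbig)
  obtain ⟨a, ha, rfl⟩ := mem_O.1 hy'
  refine ⟨![x, a • x], ⟨0, rfl⟩, ?_, ?_⟩
  · have hny : x ∉ E (a • x) := fun h => hny' (hsymm _ _ h)
    intro i i' hii
    fin_cases i <;> fin_cases i'
    · exact absurd rfl hii
    · exact hny'
    · exact hny
    · exact absurd rfl hii
  · refine card_orbit_le (![x, a • x] : Fin 2 → Ω) (fun z => z 0) 1 (O H x).card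
      (fun g => (O H x).image (fun z => g • z)) (fun g => Finset.card_image_le) ?_ ?_
    · intro z z' h0 h1
      funext j
      fin_cases j
      · exact h0
      · exact h1
    · intro g g' h
      have h' : g' • x = g • x := h
      have h1 : (g' • (![x, a • x] : Fin 2 → Ω) 1) = g' • a • x := rfl
      rw [h1]
      refine Finset.mem_image.2 ⟨(g⁻¹ * g') • a • x, ?_, ?_⟩
      · have hst : g⁻¹ * g' ∈ MulAction.stabilizer G x := by
          rw [MulAction.mem_stabilizer_iff, mul_smul, h', inv_smul_smul]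
        refine mem_O.2 ⟨(g⁻¹ * g') * a * (g⁻¹ * g')⁻¹, hn _ hst a ha, ?_⟩
        have hst' : (g⁻¹ * g')⁻¹ • x = x := by
          rw [inv_smul_eq_iff]
          exact (MulAction.mem_stabilizer_iff.1 hst).symm
        rw [mul_smul ((g⁻¹ * g') * a), hst', mul_smul]
      · rw [← mul_smul, mul_inv_cancel_left]

end Grpu

open Grpu in
/-- Row U-GRP. -/
theorem grpu (hc : GrpcStatement) : GrpuStatement := by
  intro R A hR hA
  obtain ⟨k₀, C₀, hC⟩ := hc R (2 * A) hR
  obtain ⟨n, hn⟩ : ∃ n : ℕ, n = k₀ + A + 2 := ⟨_, rfl⟩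
  refine ⟨2 * n, (C₀ + 1) ^ 2, ?_⟩
  intro G Ω _ _ _ _ ht x H hsec E hE hrefl hsymm heq hX
  have hD1 : 1 ≤ Fintype.card Ω := Fintype.card_pos_iff.2 ⟨x⟩
  have hDorb : Nat.card (MulAction.orbit G x) = Fintype.card Ω := by
    rw [MulAction.orbit_eq_univ G x, Nat.card_univ, Nat.card_eq_fintype_card]
  obtain ⟨d, hd⟩ : ∃ d : ℕ, d = Nat.card (MulAction.orbit H x) := ⟨_, rfl⟩
  have hdD : d ≤ Fintype.card Ω := by
    rw [hd, ← Nat.card_eq_fintype_card]
    exact Nat.card_le_card_of_injective (fun z : MulAction.orbit H x => z.1)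
      Subtype.val_injective
  -- the pair
  have hpair : (d ^ A ≤ Fintype.card Ω ^ (A - 1) ∨ d ^ 2 ≤ Fintype.card Ω) →
      ∃ (k : ℕ) (y : Fin k → Ω), 2 ≤ k ∧ k ≤ 2 * n ∧ (∃ i, y i = x) ∧
      (∀ i i', i ≠ i' → y i' ∉ E (y i)) ∧
      (Nat.card (MulAction.orbit G y)) ^ (2 * n) ≤ (Fintype.card Ω) ^ (k * (2 * n) - 1) := by
    intro hor
    obtain ⟨y, hyx, hyE, hyc⟩ := pair H x hsec.nor R E hE hsymm hsec.big
    refine ⟨2, y, le_rfl, by omega, hyx, hyE, ?_⟩
    rw [← hd] at hyc
    have hdC : d ^ (2 * n) ≤ Fintype.card Ω ^ (2 * n - 1) := by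
      rcases hor with h1 | h1
      · calc d ^ (2 * n) = d ^ A * d ^ (2 * n - A) := by
              rw [← pow_add]
              congr 1
              omega
          _ ≤ Fintype.card Ω ^ (A - 1) * Fintype.card Ω ^ (2 * n - A) :=
              Nat.mul_le_mul h1 (Nat.pow_le_pow_left hdD _)
          _ = Fintype.card Ω ^ (2 * n - 1) := by
              rw [← pow_add]
              congr 1
              omega
      · calc d ^ (2 * n) = d ^ 2 * d ^ (2 * n - 2) := by
              rw [← pow_add]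
              congr 1
              omega
          _ ≤ Fintype.card Ω * Fintype.card Ω ^ (2 * n - 2) :=
              Nat.mul_le_mul h1 (Nat.pow_le_pow_left hdD _)
          _ = Fintype.card Ω ^ (2 * n - 1) := by
              rw [← pow_succ']
              congr 1
              omega
    calc (Nat.card (MulAction.orbit G y)) ^ (2 * n)
        ≤ (d * Fintype.card Ω) ^ (2 * n) := Nat.pow_le_pow_left hyc _
      _ = d ^ (2 * n) * Fintype.card Ω ^ (2 * n) := mul_pow _ _ _
      _ ≤ Fintype.card Ω ^ (2 * n - 1) * Fintype.card Ω ^ (2 * n) :=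
          Nat.mul_le_mul_right _ hdC
      _ = Fintype.card Ω ^ (2 * (2 * n) - 1) := by
          rw [← pow_add]
          congr 1
          omega
  by_cases hor : d ^ A ≤ Fintype.card Ω ^ (A - 1) ∨ d ^ 2 ≤ Fintype.card Ω
  · exact hpair hor
  rw [not_or, not_le, not_le] at hor
  obtain ⟨hor1, hor2⟩ := hor
  have hfac : FacU H x (Fintype.card Ω ^ A) := by
    rcases hsec.alt with h1 | h1
    · rw [← hd] at h1
      omega
    · exact h1
  obtain ⟨l, L, hL0, hLl, hLs⟩ := hfac
  -- the group `V`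
  have hVst : MulAction.stabilizer G x ≤ vgrp H x hsec.nor := by
    intro g hg
    exact mem_vgrp.2 ⟨1, H.one_mem, by rw [one_smul]; exact hg⟩
  have hHV : H ≤ vgrp H x hsec.nor := fun h hh => mem_vgrp.2 ⟨h, hh, rfl⟩
  obtain ⟨V, hV⟩ : ∃ V : Subgroup G, V = vgrp H x hsec.nor := ⟨_, rfl⟩
  rw [← hV] at hVst hHV
  have hmemV : ∀ v : G, v ∈ V ↔ ∃ h ∈ H, v • x = h • x := by
    intro v
    rw [hV]
    exact Iff.rfl
  have hnV : ∀ v ∈ V, ∀ a ∈ H, v * a * v⁻¹ ∈ H := by
    intro v hv a ha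
    obtain ⟨h, hh, h1⟩ := (hmemV v).1 hv
    exact (nor_of hsec.nor hh h1 a ha).1
  -- the orbit of `V`
  have horb : ∀ z : Ω, z ∈ MulAction.orbit V x ↔ ∃ h ∈ H, h • x = z := by
    intro z
    constructor
    · rintro ⟨v, rfl⟩
      obtain ⟨h, hh, h1⟩ := (hmemV v.1).1 v.2
      exact ⟨h, hh, h1.symm⟩
    · rintro ⟨h, hh, rfl⟩
      exact ⟨⟨h, hHV hh⟩, rfl⟩
  have hdV : Nat.card (MulAction.orbit V x) = d := by
    rw [hd]
    apply Nat.card_congr
    apply Equiv.setCongr
    ext z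
    rw [horb]
    constructor
    · rintro ⟨h, hh, rfl⟩
      exact ⟨⟨h, hh⟩, rfl⟩
    · rintro ⟨h, rfl⟩
      exact ⟨h.1, h.2, rfl⟩
  have _ : Fintype (MulAction.orbit V x) := Fintype.ofFinite _
  have hcard : Fintype.card (MulAction.orbit V x) = d := by
    rw [← Nat.card_eq_fintype_card]
    exact hdV
  -- the normal subgroup
  have hnor : (H.subgroupOf V).Normal := by
    constructor
    intro a ha v
    rw [Subgroup.mem_subgroupOf] at ha ⊢
    exact hnV v.1 v.2 a.1 ha
  have hLi : ∀ j, ∀ i, i + j = l → L i ≤ H := by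
    intro j
    induction j with
    | zero =>
      intro i hi
      rw [Nat.add_zero] at hi
      rw [hi, hLl]
    | succ j ih =>
      intro i hi
      exact (hLs i (by omega)).1.trans (ih (i + 1) (by omega))
  have hLV : ∀ i ≤ l, L i ≤ V := fun i hi => (hLi (l - i) i (by omega)).trans hHV
  have hM : Fintype.card Ω ^ A ≤ d ^ (2 * A) := by
    rw [pow_mul]
    exact Nat.pow_le_pow_left hor2.le _
  have hfac' : Fac (H.subgroupOf V) (⟨x, MulAction.mem_orbit_self x⟩ : MulAction.orbit V x)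
      (Fintype.card (MulAction.orbit V x) ^ (2 * A)) := by
    refine ⟨l, fun i => (L i).subgroupOf V, ?_, ?_, ?_⟩
    · intro g hg τ
      have hg' : (g : G) ∈ L 0 := Subgroup.mem_subgroupOf.1 hg
      obtain ⟨h, hh, h1⟩ := (hmemV τ.1).1 τ.2
      apply Subtype.ext
      change g.1 • τ.1 • x = τ.1 • x
      rw [h1]
      exact hL0 g.1 hg' h hh
    · change (L l).subgroupOf V = _
      rw [hLl]
    · intro i hi
      obtain ⟨h1, h2, h3⟩ := hLs i hi
      refine ⟨Subgroup.subgroupOf_mono V h1, ?_, ?_⟩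
      · intro a ha b hb
        rw [Subgroup.mem_subgroupOf] at ha hb ⊢
        exact h2 a.1 ha b.1 hb
      · rcases h3 with h3 | h3
        · left
          intro a ha b hb
          rw [Subgroup.mem_subgroupOf] at ha hb ⊢
          exact h3 a.1 ha b.1 hb
        · right
          have h4 : ((L i).subgroupOf V).relIndex ((L (i + 1)).subgroupOf V) =
              (L i).relIndex (L (i + 1)) := Subgroup.relIndex_subgroupOf (hLV (i + 1) hi)
          change ((L i).subgroupOf V).relIndex ((L (i + 1)).subgroupOf V) ≤ _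
          rw [h4, hcard]
          exact h3.trans hM
  -- the relation
  obtain ⟨E', hE'⟩ : ∃ E' : MulAction.orbit V x → Finset (MulAction.orbit V x),
      ∀ z z', z' ∈ E' z ↔ z'.1 ∈ E z.1 :=
    ⟨fun z => Finset.univ.filter (fun z' => z'.1 ∈ E z.1), fun z z' => by simp⟩
  have hbig' : C₀ ≤ Fintype.card (MulAction.orbit V x) := by
    rw [hcard]
    have h1 : (C₀ + 1) ^ 2 < d ^ 2 := lt_of_le_of_lt hX hor2
    have h2 : C₀ + 1 < d := lt_of_pow_lt_pow_left₀ 2 (Nat.zero_le _) h1
    omega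
  have horb' : R < Nat.card (MulAction.orbit (H.subgroupOf V)
      (⟨x, MulAction.mem_orbit_self x⟩ : MulAction.orbit V x)) := by
    have h1 : MulAction.orbit (H.subgroupOf V)
        (⟨x, MulAction.mem_orbit_self x⟩ : MulAction.orbit V x) = Set.univ := by
      ext z
      simp only [Set.mem_univ, iff_true]
      obtain ⟨h, hh, h2⟩ := (horb z.1).1 z.2
      exact ⟨⟨⟨h, hHV hh⟩, Subgroup.mem_subgroupOf.2 hh⟩, Subtype.ext h2⟩
    rw [h1, Nat.card_univ, Nat.card_eq_fintype_card, hcard, hd]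
    exact hsec.big
  obtain ⟨k, y, hk2, hk0, ⟨i₀, hi₀⟩, hyE, hyc⟩ := hC V (MulAction.orbit V x) inferInstance
    ⟨x, MulAction.mem_orbit_self x⟩ (H.subgroupOf V) hnor hfac' E'
    (fun z => by
      refine (Finset.card_le_card_of_injOn (fun z' => z'.1) ?_ ?_).trans (hE z.1)
      · intro z' hz'
        exact (hE' z z').1 hz'
      · intro z1 _ z2 _ h1
        exact Subtype.ext h1)
    (fun z => (hE' z z).2 (hrefl z.1))
    (fun z z' h1 => (hE' z' z).2 (hsymm _ _ ((hE' z z').1 h1)))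
    (fun g z z' h1 => (hE' _ _).2 (heq g.1 z.1 z'.1 ((hE' z z').1 h1)))
    hbig' horb'
  have hrel := card_rel V x hVst y i₀ (congrArg Subtype.val hi₀)
  rw [hdV, hDorb] at hrel
  rw [hcard] at hyc
  have hd0 : 0 < d := by
    rw [hd]
    exact lt_of_le_of_lt (Nat.zero_le _) hsec.big
  refine ⟨k, fun i => (y i).1, hk2, by omega, ⟨i₀, congrArg Subtype.val hi₀⟩, ?_, ?_⟩
  · intro i i' hii h1
    exact hyE i i' hii ((hE' _ _).2 h1)
  · -- the bound
    obtain ⟨N, hN⟩ : ∃ N : ℕ, N = Nat.card (MulAction.orbit G (fun i => (y i).1)) := ⟨_, rfl⟩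
    obtain ⟨N', hN'⟩ : ∃ N' : ℕ, N' = Nat.card (MulAction.orbit V y) := ⟨_, rfl⟩
    rw [← hN, ← hN'] at hrel
    rw [← hN'] at hyc
    rw [← hN]
    have h1 : N ^ 2 * d ^ 2 ≤ (C₀ * Fintype.card Ω ^ (2 * k - 1)) * d ^ 2 := by
      calc N ^ 2 * d ^ 2 = (N * d) ^ 2 := (mul_pow _ _ _).symm
        _ = (Fintype.card Ω * N') ^ 2 := by rw [hrel]
        _ = Fintype.card Ω ^ 2 * N' ^ 2 := mul_pow _ _ _
        _ ≤ Fintype.card Ω ^ 2 * (C₀ * d ^ (2 * k - 1)) := Nat.mul_le_mul_left _ hyc
        _ = C₀ * (Fintype.card Ω ^ 2 * d ^ (2 * k - 3)) * d ^ 2 := by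
            have h2 : d ^ (2 * k - 1) = d ^ (2 * k - 3) * d ^ 2 := by
              rw [← pow_add]
              congr 1
              omega
            rw [h2]
            ring
        _ ≤ C₀ * (Fintype.card Ω ^ 2 * Fintype.card Ω ^ (2 * k - 3)) * d ^ 2 :=
            Nat.mul_le_mul_right _ (Nat.mul_le_mul_left _ (Nat.mul_le_mul_left _
              (Nat.pow_le_pow_left hdD _)))
        _ = (C₀ * Fintype.card Ω ^ (2 * k - 1)) * d ^ 2 := by
            rw [← pow_add]
            congr 3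
            omega
    have h2 : N ^ 2 ≤ C₀ * Fintype.card Ω ^ (2 * k - 1) :=
      Nat.le_of_mul_le_mul_right h1 (by positivity)
    have h3 : (C₀ + 1) ^ n ≤ Fintype.card Ω ^ (n - 1) := by
      calc (C₀ + 1) ^ n ≤ (C₀ + 1) ^ (2 * (n - 1)) :=
            Nat.pow_le_pow_right (Nat.succ_pos _) (by omega)
        _ = ((C₀ + 1) ^ 2) ^ (n - 1) := pow_mul _ _ _
        _ ≤ Fintype.card Ω ^ (n - 1) := Nat.pow_le_pow_left hX _
    calc N ^ (2 * n) = (N ^ 2) ^ n := pow_mul _ _ _
      _ ≤ ((C₀ + 1) * Fintype.card Ω ^ (2 * k - 1)) ^ n :=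
          Nat.pow_le_pow_left (h2.trans (Nat.mul_le_mul_right _ (Nat.le_succ _))) _
      _ = (C₀ + 1) ^ n * Fintype.card Ω ^ ((2 * k - 1) * n) := by rw [mul_pow, ← pow_mul]
      _ ≤ Fintype.card Ω ^ (n - 1) * Fintype.card Ω ^ ((2 * k - 1) * n) :=
          Nat.mul_le_mul_right _ h3
      _ = Fintype.card Ω ^ (k * (2 * n) - 1) := by
          rw [← pow_add]
          congr 1
          have h4 : (2 * k - 1) * n = k * (2 * n) - n := by
            rw [Nat.sub_mul, one_mul]
            congr 1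
            ring
          have h5 : n ≤ k * (2 * n) := by nlinarith
          omega

end Pool.DynLehmer.LW
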