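import Pool.Agent.Lib.MP_2194ec_nt.LW.Defs
import Pool.Agent.Lib.MP_2194ec_nt.LP.DefsW

set_option autoImplicit false

/-!
# The dynamical Lehmer bound for tuples of conjugates: the form which contains the pairs and the
points which generate Galois extensions. Statements of the rows
-/

namespace Pool.DynLehmer.LW
open MvPolynomial NumberField Filter Topology Pool.DynLehmer Pool.DynLehmer.SB Pool.DynLehmer.SP
  Pool.DynLehmer.GS Pool.DynLehmer.LP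
open scoped Classical

/-- Row PROPX: as `PropsStatement`, the time `a` being bounded. -/
def PropxStatement : Prop :=
  ∀ (ι : Type) [Fintype ι], ∃ C e : ℕ, 1 ≤ C ∧
    ∀ (K : Type) [Field K] [CharZero K] (q : ℕ) (F : ι → MvPolynomial ι K), 1 ≤ q →
    (∀ i, (F i).IsHomogeneous q) →
    (∀ z : ι → AlgebraicClosure K, (∀ i, aeval z (F i) = 0) → z = 0) →
    ∀ (N : Type) [Field N] [Algebra K N] (R : ℕ → ι → N), R 0 ≠ 0 →
    (∀ l i, R (l + 1) i = aeval (R l) (F i)) → ∀ j : ℕ, 1 ≤ j → ∀ t0 T : ℕ, 1 ≤ t0 →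
    C * (q ^ j) ^ e * t0 ≤ T →
    (∀ f : MvPolynomial ι K, f.IsHomogeneous T → (aeval (R 0) f = 0 ↔ aeval (R j) f = 0)) →
    ∃ (a m : ℕ) (P : Ideal (MvPolynomial ι K)), a ≤ C ∧ 1 ≤ m ∧ P.IsPrime ∧ HomI P ∧
      (∀ (f : MvPolynomial ι K) (n : ℕ), f.IsHomogeneous n → f ∈ P → aeval (R (a * j)) f = 0) ∧
      (∀ f : MvPolynomial ι K, f ∈ P ↔
        (bind₁ F : MvPolynomial ι K →ₐ[K] MvPolynomial ι K)^[m * j] f ∈ P) ∧
      ∀ f : MvPolynomial ι K, f.IsHomogeneous t0 → aeval (R 0) f = 0 → f ∈ P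

/-- Row SHARPX: as `SharpdStatement`, the time `r` being bounded (from CORED and PROPX). -/
def SharpxStatement : Prop :=
  ∀ (K : Type) [Field K] [NumberField K] (p s : ℕ) (ι : Type) [Fintype ι] [DecidableEq ι]
    [Nonempty ι], 2 ≤ Fintype.card ι → p.Prime → 1 ≤ s → ∀ (v : FinitePlace K)
    (P : ι → MvPolynomial ι K), (∀ i, (P i).IsHomogeneous (p ^ s)) → v (p : K) < 1 →
    (∀ i t, v (coeff t (P i)) ≤ 1) →
    (∀ i t, (∀ j, t ≠ Finsupp.single j (p ^ s)) → v (coeff t (P i)) < 1) →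
    v (Matrix.det (Matrix.of fun i j => coeff (Finsupp.single j (p ^ s)) (P i))) = 1 →
    ∀ u : K, u ≠ 0 → v u < 1 → (∀ a : K, v a < 1 → v a ≤ v u) →
    ∃ A B : ℝ, 0 < A ∧ 0 < B ∧ ∀ (E : ℕ), 1 ≤ E →
      ∀ (L N : Type) [Field L] [NumberField L] [Algebra K L]
      [Field N] [NumberField N] [Algebra K N] [IsGalois K N]
      (S : Finset (FinitePlace N)) (e : FinitePlace N → ℕ),
      Nat.card (L →ₐ[K] N) = Module.finrank K L →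
      (∀ w ∈ S, Above v w (e w)) → (Module.finrank K N ≤ ∑ w ∈ S, e w) →
      7 * (Nat.card (L →ₐ[K] N) * ∑ w ∈ S, e w) ≤
        8 * ∑ w ∈ S, e w * Nat.card {φ : L →ₐ[K] N // Low u w φ E} →
      ∀ x : ι → L, x ≠ 0 →
      (¬ ∃ m n : ℕ, m ≠ n ∧ ∃ c : L, c ≠ 0 ∧ (gAct P L)^[n] x = c • (gAct P L)^[m] x) →
      ∀ (D : ℝ) (t0 : ℕ), 1 ≤ D → 1 ≤ t0 → (t0 : ℝ) ≤ D →
      (∃ h : ℝ, Tendsto (fun n : ℕ => Height.logHeight ((gAct P L)^[n] x) /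
        (Module.finrank ℚ L : ℝ) / ((p ^ s : ℕ) : ℝ) ^ n) atTop (𝓝 h) ∧
          A / ((E : ℝ) * t0) * Real.exp (-(B * (1 + (Real.log D) ^
            (((Fintype.card ι - 1 : ℕ) : ℝ) / (((Fintype.card ι - 1 : ℕ) : ℝ) + 1))))) ≤ h) ∨
      ∃ (r r' m : ℕ) (I : Ideal (MvPolynomial ι K)), 1 ≤ m ∧ I.IsPrime ∧ HomI I ∧
        (∀ (f : MvPolynomial ι K) (n : ℕ), f.IsHomogeneous n → f ∈ I →
          aeval ((gAct P L)^[r] x) f = 0) ∧
        (∀ f : MvPolynomial ι K, f ∈ I ↔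
          (bind₁ P : MvPolynomial ι K →ₐ[K] MvPolynomial ι K)^[m] f ∈ I) ∧
        (∀ f : MvPolynomial ι K, f.IsHomogeneous t0 → aeval ((gAct P L)^[r'] x) f = 0 → f ∈ I) ∧
        ((p ^ s : ℕ) : ℝ) ^ r ≤ E * Real.exp (B * (1 + (Real.log D) ^
            (((Fintype.card ι - 1 : ℕ) : ℝ) / (((Fintype.card ι - 1 : ℕ) : ℝ) + 1))))

/-- Row SELK: among enough points of the same height there are `r` which, together with the given
one, are pairwise not related by periodic forms up to the time `μ` (from CLSF). -/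
def SelkStatement : Prop :=
  ∀ (K : Type) [Field K] [NumberField K] (p s : ℕ) (v : FinitePlace K)
    (F : Fin 2 → MvPolynomial (Fin 2) K), HypR p s v F → CritW F →
    ∃ R : ℕ, 1 ≤ R ∧ (OneOrb F → R = 1) ∧
      ∀ (N : Type) [Field N] [NumberField N] [Algebra K N] (P : Fin 2 → N) (h : ℝ), P ≠ 0 →
      WandP F P → 0 < h → HasHt (p ^ s) F P h → ∀ (μ r : ℕ) (T : Finset (Fin 2 → N)),
      (∀ P' ∈ T, P' ≠ 0 ∧ WandP F P' ∧ HasHt (p ^ s) F P' h) →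
      r * R < (T.image fun P' => pr ((gAct F N)^[μ] P')).card →
      ∃ y : Fin (r + 1) → Fin 2 → N, y 0 = P ∧ (∀ i : Fin r, y i.succ ∈ T) ∧
        ∀ i i' : Fin (r + 1), i ≠ i' → ∀ m : ℕ, m ≤ μ →
          ∀ (e : ℕ) (G : MvPolynomial (Fin 2 ⊕ Fin 2) K), PerForm F e G →
            GS.ev ((gAct F N)^[m] (y i)) ((gAct F N)^[m] (y i')) G ≠ 0

/-- Row PTHK: as `LP.PthStatement`, for tuples. -/
def PthkStatement : Prop :=
  ∀ (K : Type) [Field K] [NumberField K] (N : Type) [Field N] [NumberField N] [Algebra K N]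
    [IsGalois K N] (q : ℕ) (F : Fin 2 → MvPolynomial (Fin 2) K), 1 ≤ q → Mor q F →
    ∀ (S : Finset (FinitePlace N)) (e : FinitePlace N → ℕ), ∑ w ∈ S, e w = Module.finrank K N →
    ∀ x : Fin 2 → N, x ≠ 0 → ∀ (k n : ℕ) (T T₂ : ℝ), 1 ≤ k → 0 ≤ T → 0 ≤ T₂ →
      ∑ w ∈ S, (e w : ℝ) * (((orb (N ≃ₐ[K] N) (nz ((gAct F N)^[n] x))).filter fun z =>
        T ≤ (LP.disc K w z : ℝ)).card : ℝ) ≤
        1 / (16 * k) * Module.finrank K N * dgo K (nz ((gAct F N)^[n] x)) →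
      ∑ w ∈ S, (e w : ℝ) * (((orb (N ≃ₐ[K] N) (nz x)).filter fun z =>
        T₂ * (ie K w z : ℝ) < (q : ℝ) ^ n).card : ℝ) ≤
        1 / (16 * k) * Module.finrank K N * dgo K (nz x) →
      ∀ σ : Fin k → N ≃ₐ[K] N,
        (q : ℝ) ^ n * dgk K (fun i => (gAct F N)^[n] (gal (σ i) x)) ≤
          T₂ * T ^ k * dgk K (fun i => gal (σ i) x)

/-- Row NUMX: the numerical end. Here `d` is the degree of the point, `M` that of the tuple and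
`ρ = D₀ / q ^ n`. -/
def NumxStatement : Prop :=
  ∀ (k : ℕ) (δ A B B' θ : ℝ), 2 ≤ k → 0 < δ → 0 < A → 0 < B → 1 ≤ B' → 0 ≤ θ → θ < 1 →
    ∃ (X : ℕ) (c : ℝ), 0 < c ∧ ∀ (d E : ℕ), X ≤ d → 1 ≤ E →
      (E : ℝ) ≤ 2 ^ k * (B' * (1 + Real.log d)) ^ k →
      B' * (1 + Real.log d) ≤ (d : ℝ) ^ δ ∧
      B' * (1 + Real.log d) ^ 2 * (B' * (1 + Real.log d)) ^ k ≤ (d : ℝ) ^ δ ∧
      ∀ (M : ℕ) (ρ : ℝ), d ≤ M → M ≤ d ^ k → 0 ≤ ρ → (M : ℝ) ^ (1 / (k : ℝ) + δ) ≤ ρ →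
        ∃ (t0 : ℕ) (D : ℝ), 2 ≤ t0 ∧ 1 ≤ D ∧ (t0 : ℝ) ≤ D ∧ M < (t0 + 1) ^ k ∧
          (E : ℝ) * Real.exp (B * (1 + (Real.log D) ^ θ)) ≤ (d : ℝ) ^ δ ∧
          c ≤ ρ * (A / ((E : ℝ) * t0) * Real.exp (-(B * (1 + (Real.log D) ^ θ))))

/-- THEOREM X for `F` with a wandering critical point, `r` companions (row FINX: from LVNW, RAMK,
HOMC, VNOR, SHARPX, SEGK, SEGT, CLSK, SELK, PTHK, NUMX). -/
def XStatement : Prop :=
  ∀ (K : Type) [Field K] [NumberField K] (p s : ℕ) (v : FinitePlace K)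
    (F : Fin 2 → MvPolynomial (Fin 2) K), HypR p s v F → CritW F →
    ∃ R : ℕ, 1 ≤ R ∧ (OneOrb F → R = 1) ∧ ∀ r : ℕ, 1 ≤ r → ∀ δ : ℝ, 0 < δ →
    ∃ c : ℝ, 0 < c ∧ ∀ (N : Type) [Field N] [NumberField N] [Algebra K N] (a : N),
      WandP F ![a, 1] →
      (∀ n : ℕ, 1 / δ < (dg K ((gAct F N)^[n] ![a, 1]) : ℝ) →
        ((p ^ s : ℕ) : ℝ) ^ n * (dg K ((gAct F N)^[n] ![a, 1]) : ℝ) ^ (1 - δ) ≤ dg K ![a, 1] →
        ∃ S : Finset N, (∀ b ∈ S, Polynomial.aeval b (minpoly K a) = 0) ∧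
          (∀ b : Fin (r + 1) → N, b 0 = a → (∀ i : Fin r, b i.succ ∈ S) →
            ((p ^ s : ℕ) : ℝ) ^ n *
                (dgk K (fun i => (gAct F N)^[n] ![b i, 1]) : ℝ) ^ (1 - δ) ≤
                dgk K (fun i => ![b i, 1]) →
              ((p ^ s : ℕ) : ℝ) ^ n *
                (dgk K (fun i => (gAct F N)^[n] ![b i, 1]) : ℝ) ^ (1 / ((r : ℝ) + 1) + δ) ≤
                dg K ![a, 1]) ∧
          ∀ m : ℕ, ((p ^ s : ℕ) : ℝ) ^ m ≤ (dg K ((gAct F N)^[n] ![a, 1]) : ℝ) ^ δ →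
            r * R < (S.image fun b => pr ((gAct F N)^[n + m] ![b, 1])).card) →
      ∃ h : ℝ, HasHt (p ^ s) F ![a, 1] h ∧ c / (dg K ![a, 1] : ℝ) ≤ h

end Pool.DynLehmer.LW
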