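import Pool.Agent.Lib.MP_2194ec_nt.LP.Pth
import Pool.Agent.Lib.MP_2194ec_nt.LW.DefsX

set_option autoImplicit false

/-!
# Row PTHK: if the discs are small at a level and the inertia orbits are large, tuples of
conjugates are thin
-/

namespace Pool.DynLehmer.LW
open MvPolynomial NumberField Filter Topology Pool.DynLehmer Pool.DynLehmer.SB Pool.DynLehmer.SP
  Pool.DynLehmer.GS Pool.DynLehmer.GAL Pool.DynLehmer.LP
open scoped Classical

namespace PthkAux

/-- the degree of a tuple is the index of its stabilizer -/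
theorem dgk_eq {K : Type} [Field K] {N : Type} [Field N] [Algebra K N] [IsGalois K N] {k : ℕ}
    (y : Fin k → Fin 2 → N) :
    dgk K y = (MulAction.stabilizer (N ≃ₐ[K] N) fun i => nz (y i)).index := by
  unfold dgk
  rw [IntermediateField.finrank_eq_fixingSubgroup_index]
  congr 1
  ext g
  rw [IntermediateField.mem_fixingSubgroup_iff, MulAction.mem_stabilizer_iff]
  have h1 := IntermediateField.forall_mem_adjoin_smul_eq_self_iff (F := K)
    (S := Set.range fun i => y i 0 / y i 1) g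
  refine Iff.trans h1 ?_
  rw [funext_iff]
  constructor
  · intro h i
    exact (PthAux.stab_nz (y i) g).2 (h _ ⟨i, rfl⟩)
  · rintro h _ ⟨i, rfl⟩
    exact (PthAux.stab_nz (y i) g).1 (h i)

theorem stab_pi {G P : Type} [Group G] [MulAction G P] {k : ℕ} (y : Fin k → P) :
    MulAction.stabilizer G y = ⨅ i, MulAction.stabilizer G (y i) := by
  ext g
  rw [Subgroup.mem_iInf, MulAction.mem_stabilizer_iff, funext_iff]
  exact Iff.rfl

theorem relIndex_iInf_le {G : Type} [Group G] [Finite G] {k : ℕ} (H : Fin k → Subgroup G)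
    (J : Subgroup G) : (⨅ i, H i).relIndex J ≤ ∏ i, (H i).relIndex J := by
  induction k with
  | zero =>
    rw [iInf_of_empty, Subgroup.relIndex_top_left]
    simp
  | succ k ih =>
    have h1 : (⨅ i, H i) = H 0 ⊓ ⨅ i : Fin k, H i.succ := by
      apply le_antisymm
      · exact le_inf (iInf_le _ 0) (le_iInf fun i => iInf_le _ _)
      · refine le_iInf fun i => ?_
        refine Fin.cases ?_ ?_ i
        · exact inf_le_left
        · intro j
          exact inf_le_right.trans (iInf_le _ j)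
    rw [h1, Fin.prod_univ_succ]
    exact Subgroup.relIndex_inf_le.trans (Nat.mul_le_mul_left _ (ih _))

end PthkAux

open RamjAux PthAux PthkAux in
/-- Tuples of conjugates of `x` are thin at level `n`. -/
theorem pthk_gen (K : Type) [Field K] [NumberField K] (N : Type) [Field N] [NumberField N]
    [Algebra K N] [IsGalois K N] (q : ℕ) (F : Fin 2 → MvPolynomial (Fin 2) K) (hF : Mor q F)
    (S : Finset (FinitePlace N)) (e : FinitePlace N → ℕ)
    (hsum : ∑ w ∈ S, e w = Module.finrank K N) (x : Fin 2 → N) (hx : x ≠ 0) (n : ℕ)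
    (T T₂ ρ : ℝ) (hT₂ : 0 ≤ T₂) (k : ℕ) (hρ : (k + 1) * ρ < 1)
    (hA : ∑ w ∈ S, (e w : ℝ) * (((orb (N ≃ₐ[K] N) (nz ((gAct F N)^[n] x))).filter fun z =>
        T ≤ (LP.disc K w z : ℝ)).card : ℝ) ≤
        ρ * Module.finrank K N * dgo K (nz ((gAct F N)^[n] x)))
    (hB : ∑ w ∈ S, (e w : ℝ) * (((orb (N ≃ₐ[K] N) (nz x)).filter fun z =>
        T₂ * (ie K w z : ℝ) < (q : ℝ) ^ n).card : ℝ) ≤ ρ * Module.finrank K N * dgo K (nz x))
    (σ : Fin k → N ≃ₐ[K] N) (i₀ : Fin k) :
    (q : ℝ) ^ n * dgk K (fun i => (gAct F N)^[n] (gal (σ i) x)) ≤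
      T₂ * T ^ k * dgk K (fun i => gal (σ i) x) := by
  have hfd : FiniteDimensional K N := Module.Finite.of_restrictScalars_finite ℚ K N
  have hiterne : ∀ (z : Fin 2 → N), z ≠ 0 → (gAct F N)^[n] z ≠ 0 := by
    intro z hz
    exact Bas.iter_ne hF hz n
  have hgalne : ∀ (τ : N ≃ₐ[K] N), gal τ x ≠ 0 := by
    intro τ h0
    apply hx
    funext i
    have := congrFun h0 i
    simpa [gal] using this
  set y : Pt N := nz ((gAct F N)^[n] x) with hy
  set X : Pt N := nz x with hX
  have hGpos : (0 : ℝ) < Fintype.card (N ≃ₐ[K] N) := by exact_mod_cast Fintype.card_pos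
  have hKN : (0 : ℝ) < Module.finrank K N := by exact_mod_cast Module.finrank_pos
  -- shift of a count over the group
  have hshift : ∀ (τ : N ≃ₐ[K] N) (p : (N ≃ₐ[K] N) → Prop),
      (Finset.univ.filter fun g : N ≃ₐ[K] N => p (g * τ)).card =
        (Finset.univ.filter fun g : N ≃ₐ[K] N => p g).card := by
    intro τ p
    refine Finset.card_bij (fun g _ => g * τ) ?_ ?_ ?_
    · intro g hg
      rw [Finset.mem_filter] at hg ⊢
      exact ⟨Finset.mem_univ _, hg.2⟩
    · intro a _ b _ hab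
      exact mul_right_cancel hab
    · intro b hb
      rw [Finset.mem_filter] at hb
      refine ⟨b * τ⁻¹, ?_, inv_mul_cancel_right b τ⟩
      rw [Finset.mem_filter, inv_mul_cancel_right]
      exact ⟨Finset.mem_univ _, hb.2⟩
  -- the sums over the group
  have h1 := sum_le (G := N ≃ₐ[K] N) S e y (fun w z => T ≤ (LP.disc K w z : ℝ))
    (c := ρ * Module.finrank K N) hA
  have h2 := sum_le (G := N ≃ₐ[K] N) S e X (fun w z => T₂ * (ie K w z : ℝ) < (q : ℝ) ^ n)
    (c := ρ * Module.finrank K N) hB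
  have h3 : ∀ i : Fin k, ∑ w ∈ S, (e w : ℝ) *
      ((Finset.univ.filter fun g : N ≃ₐ[K] N => T ≤ (LP.disc K w ((g * σ i) • y) : ℝ)).card : ℝ) ≤
      ρ * Module.finrank K N * (Fintype.card (N ≃ₐ[K] N) : ℝ) := by
    intro i
    refine le_trans (le_of_eq ?_) h1
    refine Finset.sum_congr rfl fun w _ => ?_
    congr 2
    exact hshift (σ i) fun g => T ≤ (LP.disc K w (g • y) : ℝ)
  have h3' : ∑ w ∈ S, (e w : ℝ) *
      ((Finset.univ.filter fun g : N ≃ₐ[K] N =>
        T₂ * (ie K w ((g * σ i₀) • X) : ℝ) < (q : ℝ) ^ n).card : ℝ) ≤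
      ρ * Module.finrank K N * (Fintype.card (N ≃ₐ[K] N) : ℝ) := by
    refine le_trans (le_of_eq ?_) h2
    refine Finset.sum_congr rfl fun w _ => ?_
    congr 2
    exact hshift (σ i₀) fun g => T₂ * (ie K w (g • X) : ℝ) < (q : ℝ) ^ n
  -- a good place and a good conjugate
  obtain ⟨w, hw, g, hg1, hg3⟩ : ∃ w ∈ S, ∃ g : N ≃ₐ[K] N,
      (∀ i, (LP.disc K w ((g * σ i) • y) : ℝ) < T) ∧
      (q : ℝ) ^ n ≤ T₂ * (ie K w ((g * σ i₀) • X) : ℝ) := by
    by_contra hcon
    push Not at hcon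
    have h4 : ∀ w ∈ S, (Fintype.card (N ≃ₐ[K] N) : ℝ) ≤
        (∑ i, ((Finset.univ.filter fun g : N ≃ₐ[K] N =>
          T ≤ (LP.disc K w ((g * σ i) • y) : ℝ)).card : ℝ)) +
        ((Finset.univ.filter fun g : N ≃ₐ[K] N =>
          T₂ * (ie K w ((g * σ i₀) • X) : ℝ) < (q : ℝ) ^ n).card : ℝ) := by
      intro w hw
      have h5 : (Finset.univ : Finset (N ≃ₐ[K] N)) ⊆
          (Finset.univ.biUnion fun i => Finset.univ.filter fun g : N ≃ₐ[K] N =>
            T ≤ (LP.disc K w ((g * σ i) • y) : ℝ)) ∪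
          (Finset.univ.filter fun g : N ≃ₐ[K] N =>
            T₂ * (ie K w ((g * σ i₀) • X) : ℝ) < (q : ℝ) ^ n) := by
        intro g _
        rw [Finset.mem_union, Finset.mem_biUnion, Finset.mem_filter]
        by_cases ha : ∀ i, (LP.disc K w ((g * σ i) • y) : ℝ) < T
        · exact Or.inr ⟨Finset.mem_univ _, hcon w hw g ha⟩
        · push Not at ha
          obtain ⟨i, hi⟩ := ha
          exact Or.inl ⟨i, Finset.mem_univ _, Finset.mem_filter.2 ⟨Finset.mem_univ _, hi⟩⟩
      have h6 := Finset.card_le_card h5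
      have h7 := h6.trans ((Finset.card_union_le _ _).trans
        (Nat.add_le_add_right Finset.card_biUnion_le _))
      rw [Finset.card_univ] at h7
      exact_mod_cast h7
    have h8 : (Module.finrank K N : ℝ) * Fintype.card (N ≃ₐ[K] N) ≤
        (k + 1) * ρ * (Module.finrank K N * (Fintype.card (N ≃ₐ[K] N) : ℝ)) := by
      calc (Module.finrank K N : ℝ) * Fintype.card (N ≃ₐ[K] N)
          = ∑ w ∈ S, (e w : ℝ) * (Fintype.card (N ≃ₐ[K] N) : ℝ) := by
            rw [← Finset.sum_mul, ← hsum]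
            push_cast
            rfl
        _ ≤ ∑ w ∈ S, (e w : ℝ) *
            ((∑ i, ((Finset.univ.filter fun g : N ≃ₐ[K] N =>
              T ≤ (LP.disc K w ((g * σ i) • y) : ℝ)).card : ℝ)) +
            ((Finset.univ.filter fun g : N ≃ₐ[K] N =>
              T₂ * (ie K w ((g * σ i₀) • X) : ℝ) < (q : ℝ) ^ n).card : ℝ)) :=
            Finset.sum_le_sum fun w hw => mul_le_mul_of_nonneg_left (h4 w hw) (Nat.cast_nonneg _)
        _ = (∑ i, ∑ w ∈ S, (e w : ℝ) * ((Finset.univ.filter fun g : N ≃ₐ[K] N =>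
              T ≤ (LP.disc K w ((g * σ i) • y) : ℝ)).card : ℝ)) +
            ∑ w ∈ S, (e w : ℝ) * ((Finset.univ.filter fun g : N ≃ₐ[K] N =>
              T₂ * (ie K w ((g * σ i₀) • X) : ℝ) < (q : ℝ) ^ n).card : ℝ) := by
            simp only [mul_add, Finset.sum_add_distrib, Finset.mul_sum]
            rw [Finset.sum_comm]
        _ ≤ (∑ _i : Fin k, ρ * Module.finrank K N * (Fintype.card (N ≃ₐ[K] N) : ℝ)) +
            ρ * Module.finrank K N * (Fintype.card (N ≃ₐ[K] N) : ℝ) :=
            add_le_add (Finset.sum_le_sum fun i _ => h3 i) h3'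
        _ = _ := by
            rw [Finset.sum_const, Finset.card_univ, Fintype.card_fin, nsmul_eq_mul]
            ring
    have h9 := mul_pos hKN hGpos
    have h10 : (k + 1) * ρ * (Module.finrank K N * (Fintype.card (N ≃ₐ[K] N) : ℝ)) <
        1 * (Module.finrank K N * (Fintype.card (N ≃ₐ[K] N) : ℝ)) :=
      mul_lt_mul_of_pos_right hρ h9
    linarith
  -- the stabilizers
  have hσX : ∀ τ : N ≃ₐ[K] N, nz (gal τ x) = τ • X := fun τ => (HomcAux.gal_nz τ hx).symm
  have hσy : ∀ τ : N ≃ₐ[K] N, nz ((gAct F N)^[n] (gal τ x)) = τ • y := by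
    intro τ
    have h4 : (gAct F N)^[n] (gal τ x) = gal τ ((gAct F N)^[n] x) :=
      SP.CasebAux.gAct_iter_gal F τ n x
    rw [h4]
    exact (HomcAux.gal_nz τ (hiterne x hx)).symm
  rw [dgk_eq, dgk_eq]
  simp only [hσX, hσy]
  set A : Subgroup (N ≃ₐ[K] N) := MulAction.stabilizer (N ≃ₐ[K] N)
    (fun i => (g * σ i) • X) with hAdef
  set B : Subgroup (N ≃ₐ[K] N) := MulAction.stabilizer (N ≃ₐ[K] N)
    (fun i => (g * σ i) • y) with hBdef
  have hA1 : (MulAction.stabilizer (N ≃ₐ[K] N) fun i => σ i • X).index = A.index := by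
    have h4 : (fun i => (g * σ i) • X) = g • fun i => σ i • X := by
      funext i
      exact mul_smul _ _ _
    rw [MulAction.index_stabilizer, hAdef, MulAction.index_stabilizer, h4,
      MulAction.orbit_smul]
  have hB1 : (MulAction.stabilizer (N ≃ₐ[K] N) fun i => σ i • y).index = B.index := by
    have h4 : (fun i => (g * σ i) • y) = g • fun i => σ i • y := by
      funext i
      exact mul_smul _ _ _
    rw [MulAction.index_stabilizer, hBdef, MulAction.index_stabilizer, h4,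
      MulAction.orbit_smul]
  -- a point determines its iterate
  have hmap : ∀ (z : Fin 2 → N), z ≠ 0 → ∀ τ : N ≃ₐ[K] N, τ • nz z = nz z →
      τ • nz ((gAct F N)^[n] z) = nz ((gAct F N)^[n] z) := by
    intro z hz τ hτ
    rw [HomcAux.gal_nz τ hz] at hτ
    rw [HomcAux.gal_nz τ (hiterne z hz)]
    have h4 : (fun i => τ ((gAct F N)^[n] z i)) = (gAct F N)^[n] (gal τ z) :=
      (SP.CasebAux.gAct_iter_gal F τ n z).symm
    rw [h4]
    have hzτ : gal τ z ≠ 0 := by
      intro h0
      apply hz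
      funext i
      have := congrFun h0 i
      simpa [gal] using this
    obtain ⟨c, hc, h5⟩ := (nz_eq_iff hzτ hz).1 hτ
    exact (nz_eq_iff (hiterne _ hzτ) (hiterne z hz)).2
      (Bas.prl_iter hF.hom ⟨c, hc, h5⟩ n)
  have hAB : A ≤ B := by
    rw [hAdef, hBdef, stab_pi, stab_pi]
    refine iInf_mono fun i => ?_
    intro τ hτ
    rw [MulAction.mem_stabilizer_iff] at hτ ⊢
    rw [← hσX] at hτ
    rw [← hσy]
    exact hmap _ (hgalne _) τ hτ
  have hne : ∀ H J : Subgroup (N ≃ₐ[K] N), H.relIndex J ≠ 0 := fun H J => by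
    unfold Subgroup.relIndex
    exact Subgroup.index_ne_zero_of_finite
  have h4 : ie K w ((g * σ i₀) • X) ≤ A.relIndex (inert K w) := by
    unfold ie
    rw [hAdef, stab_pi]
    exact Subgroup.relIndex_le_of_le_left (iInf_le _ i₀) (hne _ _)
  have h5 : B.relIndex (inert K w) ≤ ∏ i, LP.disc K w ((g * σ i) • y) := by
    rw [hBdef, stab_pi]
    exact (relIndex_iInf_le _ _).trans (Finset.prod_le_prod' fun i _ => relIndex_le w _)
  have h6 : A.relIndex (inert K w) ≤ A.relIndex B * B.relIndex (inert K w) := by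
    have h7 := Subgroup.relIndex_inf_mul_relIndex A B (inert K w)
    rw [inf_eq_left.2 hAB] at h7
    rw [← h7]
    exact Nat.mul_le_mul_right _ (Subgroup.relIndex_le_of_le_right inf_le_left (hne _ _))
  have h7 : A.relIndex B * B.index = A.index := Subgroup.relIndex_mul_index hAB
  rw [hA1, hB1, ← h7]
  have h8 : (q : ℝ) ^ n ≤ T₂ * ((A.relIndex B : ℝ) * T ^ k) := by
    refine hg3.trans (mul_le_mul_of_nonneg_left ?_ hT₂)
    have h9 : ie K w ((g * σ i₀) • X) ≤ A.relIndex B * ∏ i, LP.disc K w ((g * σ i) • y) :=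
      h4.trans (h6.trans (Nat.mul_le_mul_left _ h5))
    calc (ie K w ((g * σ i₀) • X) : ℝ)
        ≤ (A.relIndex B : ℝ) * ∏ i, (LP.disc K w ((g * σ i) • y) : ℝ) := by
          exact_mod_cast h9
      _ ≤ (A.relIndex B : ℝ) * T ^ k := by
          refine mul_le_mul_of_nonneg_left ?_ (Nat.cast_nonneg _)
          calc ∏ i, (LP.disc K w ((g * σ i) • y) : ℝ) ≤ ∏ _i : Fin k, T :=
                Finset.prod_le_prod (fun i _ => Nat.cast_nonneg _) fun i _ => (hg1 i).le
            _ = T ^ k := by rw [Finset.prod_const, Finset.card_univ, Fintype.card_fin]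
  calc (q : ℝ) ^ n * (B.index : ℝ) ≤ T₂ * ((A.relIndex B : ℝ) * T ^ k) * (B.index : ℝ) :=
        mul_le_mul_of_nonneg_right h8 (Nat.cast_nonneg _)
    _ = T₂ * T ^ k * ((A.relIndex B * B.index : ℕ) : ℝ) := by
        push_cast
        ring

/-- **PTHK** -/
theorem pthk : PthkStatement := by
  intro K _ _ N _ _ _ _ q F _ hF S e hsum x hx k n T T₂ hk _ hT₂ hA hB σ
  have hk0 : (0 : ℝ) < k := by exact_mod_cast hk
  have hk1 : (1 : ℝ) ≤ k := by exact_mod_cast hk
  refine pthk_gen K N q F hF S e hsum x hx n T T₂ (1 / (16 * k)) hT₂ k ?_ hA hB σ ⟨0, hk⟩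
  rw [mul_one_div, div_lt_one (by positivity)]
  linarith

end Pool.DynLehmer.LW
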