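import Pool.Agent.Lib.MP_2194ec_nt.LW.Defs3
import Pool.Agent.Lib.MP_2194ec_nt.LW.Pthk

set_option autoImplicit false
set_option linter.unusedSectionVars false

/-!
# Tuples with a small orbit (row P-GRP)
-/

namespace Pool.DynLehmer.LW
open scoped Classical
open MulAction

namespace PGrp

variable {G Ω : Type} [Group G] [Finite G] [MulAction G Ω]

theorem card_orb (H : Subgroup G) (x : Ω) :
    Nat.card (orbit H x) = (stabilizer G x).relIndex H := by
  have h1 : (stabilizer G x).subgroupOf H = stabilizer H x := by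
    ext h
    rfl
  unfold Subgroup.relIndex
  rw [h1, index_stabilizer]
  rfl

theorem card_orb_top (x : Ω) : Nat.card (orbit G x) = (stabilizer G x).index := by
  rw [index_stabilizer]
  rfl

theorem stab_pi {k : ℕ} (y : Fin k → Ω) : stabilizer G y = ⨅ i, stabilizer G (y i) := by
  ext g
  simp only [mem_stabilizer_iff, Subgroup.mem_iInf]
  constructor
  · intro h i
    exact congrFun h i
  · intro h
    funext i
    exact h i

/-- the orbit of a pair -/
theorem pair_orb [Fintype Ω] (ht : IsPretransitive G Ω) (x z : Ω) :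
    Nat.card (orbit G (![x, z] : Fin 2 → Ω)) =
      Fintype.card Ω * Nat.card (orbit (stabilizer G x) z) := by
  rw [card_orb_top, card_orb]
  have h1 : stabilizer G (![x, z] : Fin 2 → Ω) = stabilizer G x ⊓ stabilizer G z := by
    rw [stab_pi]
    ext g
    simp only [Subgroup.mem_iInf, Subgroup.mem_inf]
    constructor
    · intro h
      exact ⟨h 0, h 1⟩
    · rintro ⟨h, h'⟩ i
      fin_cases i
      · exact h
      · exact h'
  rw [h1, ← Subgroup.relIndex_mul_index (inf_le_left : stabilizer G x ⊓ stabilizer G z ≤ _),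
    Subgroup.inf_relIndex_left, mul_comm]
  congr 1
  have h2 := index_stabilizer_of_transitive G x
  rw [h2, Nat.card_eq_fintype_card]

theorem orb_mono {H J : Subgroup G} (h : H ≤ J) (z : Ω) [Finite Ω] :
    Nat.card (orbit H z) ≤ Nat.card (orbit J z) := by
  refine Nat.card_mono (Set.toFinite _) ?_
  rintro _ ⟨g, rfl⟩
  exact ⟨⟨g.1, h g.2⟩, rfl⟩

/-- a pair in the orbit of `H` -/
theorem pair_le [Fintype Ω] (ht : IsPretransitive G Ω) {x z : Ω} {H : Subgroup G}
    (hH : stabilizer G x ≤ H) (hz : z ∈ orbit H x) :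
    Nat.card (orbit G (![x, z] : Fin 2 → Ω)) ≤ Fintype.card Ω * Nat.card (orbit H x) := by
  rw [pair_orb ht]
  refine Nat.mul_le_mul_left _ ((orb_mono hH z).trans (le_of_eq ?_))
  rw [orbit_eq_iff.2 hz]

theorem rel_ne (A B : Subgroup G) : A.relIndex B ≠ 0 := by
  unfold Subgroup.relIndex
  exact Subgroup.index_ne_zero_of_finite

/-- the orbit of a tuple of points in different cosets -/
theorem tuple_le [Fintype Ω] (ht : IsPretransitive G Ω) {x : Ω} {H H' : Subgroup G}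
    (hx : stabilizer G x ≤ H') (hH : H' ≤ H) {k : ℕ} (i₀ : Fin k) (σ : Fin k → G)
    (hσ : ∀ i, σ i ∈ H) :
    Nat.card (orbit G (fun i => σ i • x)) * Nat.card (orbit H x) ≤
      Fintype.card Ω * ((⨅ i, H'.map (MulAut.conj (σ i)).toMonoidHom).relIndex H) *
        (Nat.card (orbit H' x)) ^ k := by
  set y : Fin k → Ω := fun i => σ i • x with hy
  set V : Subgroup G := stabilizer G y with hV
  set W : Subgroup G := ⨅ i, H'.map (MulAut.conj (σ i)).toMonoidHom with hW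
  have hst : ∀ i, stabilizer G (y i) = (stabilizer G x).map (MulAut.conj (σ i)).toMonoidHom :=
    fun i => stabilizer_smul_eq_stabilizer_map_conj (σ i) x
  have hVle : ∀ i, V ≤ stabilizer G (y i) := by
    intro i
    rw [hV, stab_pi]
    exact iInf_le _ i
  have hVH : V ≤ H := by
    refine (hVle i₀).trans ?_
    rw [hst]
    rintro _ ⟨g, hg, rfl⟩
    change σ i₀ * g * (σ i₀)⁻¹ ∈ H
    exact H.mul_mem (H.mul_mem (hσ i₀) (hH (hx hg))) (H.inv_mem (hσ i₀))
  have hVW : V ≤ W := by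
    refine le_iInf fun i => (hVle i).trans ?_
    rw [hst]
    exact Subgroup.map_mono hx
  have hxH : stabilizer G x ≤ H := hx.trans hH
  have hcard : Fintype.card Ω = (stabilizer G x).relIndex H * H.index := by
    rw [Subgroup.relIndex_mul_index hxH, index_stabilizer_of_transitive G x,
      Nat.card_eq_fintype_card]
  have h1 : V.index = V.relIndex H * H.index := (Subgroup.relIndex_mul_index hVH).symm
  have h2 : V.relIndex H = V.relIndex (W ⊓ H) * W.relIndex H := by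
    rw [← Subgroup.relIndex_mul_relIndex V (W ⊓ H) H (le_inf hVW hVH) inf_le_right,
      Subgroup.inf_relIndex_right]
  have h3 : V.relIndex (W ⊓ H) ≤ (Nat.card (orbit H' x)) ^ k := by
    refine (Subgroup.relIndex_le_of_le_right inf_le_left (rel_ne _ _)).trans ?_
    have h4 : V = ⨅ i, stabilizer G (y i) := by rw [hV, stab_pi]
    rw [h4]
    refine (PthkAux.relIndex_iInf_le _ _).trans ?_
    have h5 : ∀ i ∈ (Finset.univ : Finset (Fin k)), (stabilizer G (y i)).relIndex W ≤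
        Nat.card (orbit H' x) := by
      intro i _
      have h6 : (stabilizer G (y i)).relIndex W ≤
          (stabilizer G (y i)).relIndex (H'.map (MulAut.conj (σ i)).toMonoidHom) :=
        Subgroup.relIndex_le_of_le_right (iInf_le _ i) (rel_ne _ _)
      refine h6.trans (le_of_eq ?_)
      rw [hst, Subgroup.relIndex_map_map_of_injective _ _ (MulAut.conj (σ i)).injective,
        card_orb]
    calc ∏ i, (stabilizer G (y i)).relIndex W ≤ ∏ _i : Fin k, Nat.card (orbit H' x) :=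
          Finset.prod_le_prod (fun _ _ => Nat.zero_le _) h5
      _ = (Nat.card (orbit H' x)) ^ k := by rw [Finset.prod_const, Finset.card_univ,
          Fintype.card_fin]
  rw [card_orb_top, card_orb, h1, h2, hcard]
  calc V.relIndex (W ⊓ H) * W.relIndex H * H.index * (stabilizer G x).relIndex H
      = ((stabilizer G x).relIndex H * H.index) * W.relIndex H * V.relIndex (W ⊓ H) := by ring
    _ ≤ ((stabilizer G x).relIndex H * H.index) * W.relIndex H * (Nat.card (orbit H' x)) ^ k :=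
        Nat.mul_le_mul_left _ h3

/-- the relation between the cosets of `H'` -/
def Rl (E : Ω → Finset Ω) (H' : Subgroup G) (x : Ω) (τ : G) : Prop :=
  ∃ a ∈ H', ∃ b ∈ H', (τ * b) • x ∈ E (a • x)

theorem orb_finset [Fintype Ω] (H : Subgroup G) (x : Ω) :
    ∃ T : Finset Ω, T.card = Nat.card (orbit H x) ∧ ∀ y, y ∈ T ↔ ∃ h ∈ H, h • x = y := by
  refine ⟨Finset.univ.filter fun y => y ∈ orbit H x, ?_, ?_⟩
  · rw [Nat.card_eq_fintype_card, Fintype.card_subtype]
  · intro y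
    rw [Finset.mem_filter]
    constructor
    · rintro ⟨-, ⟨h, rfl⟩⟩
      exact ⟨h.1, h.2, rfl⟩
    · rintro ⟨h, hh, rfl⟩
      exact ⟨Finset.mem_univ _, ⟨h, hh⟩, rfl⟩

/-- two steps of the relation generated by the exceptional pairs -/
theorem two_steps [Fintype Ω] (ht : IsPretransitive G Ω) (E : Ω → Finset Ω) {R : ℕ}
    (hR : ∀ x, (E x).card ≤ R) (hrefl : ∀ x, x ∈ E x) (hsym : ∀ x y, y ∈ E x → x ∈ E y)
    (hG : ∀ (g : G) (x y : Ω), y ∈ E x → g • y ∈ E (g • x)) {x : Ω} {H H' : Subgroup G}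
    (hx : stabilizer G x ≤ H') (hadj : Adj H' H)
    (hbig : Nat.card (orbit H' x) * R * Nat.card (orbit H' x) < Nat.card (orbit H x))
    (hex : ∃ τ ∈ H, Rl E H' x τ ∧ τ ∉ H') :
    ∃ z, z ∉ E x ∧ Nat.card (orbit G (![x, z] : Fin 2 → Ω)) ≤
      Fintype.card Ω * ((Nat.card (orbit H' x) * R) *
        ((Nat.card (orbit H' x) * R) * Nat.card (orbit H' x))) := by
  set r := Nat.card (orbit H' x) with hr
  obtain ⟨T, hT, hTm⟩ := orb_finset H' x
  -- the exceptional partners of the block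
  set U : Finset Ω := T.biUnion E with hU
  have hUc : U.card ≤ r * R := by
    refine (Finset.card_biUnion_le_card_mul T E R fun u _ => hR u).trans ?_
    rw [hT]
  have hUm : ∀ τ, Rl E H' x τ → ∃ b ∈ H', (τ * b) • x ∈ U := by
    rintro τ ⟨a, ha, b, hb, h⟩
    exact ⟨b, hb, Finset.mem_biUnion.2 ⟨a • x, (hTm _).2 ⟨a, ha, rfl⟩, h⟩⟩
  -- representatives of the related cosets
  have hrep : ∃ Rp : Finset G, Rp.card ≤ r * R ∧
      ∀ τ, Rl E H' x τ → ∃ t ∈ Rp, t⁻¹ * τ ∈ H' := by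
    have hch : ∀ e : Ω, ∃ t : G, (∃ τ, Rl E H' x τ ∧ ∃ b ∈ H', (τ * b) • x = e) →
        ∃ b ∈ H', (t * b) • x = e := by
      intro e
      by_cases h : ∃ τ, Rl E H' x τ ∧ ∃ b ∈ H', (τ * b) • x = e
      · obtain ⟨τ, -, hb⟩ := h
        exact ⟨τ, fun _ => hb⟩
      · exact ⟨1, fun h' => absurd h' h⟩
    choose t ht' using hch
    refine ⟨U.image t, Finset.card_image_le.trans hUc, ?_⟩
    intro τ hτ
    obtain ⟨b, hb, hbU⟩ := hUm τ hτ
    obtain ⟨b', hb', he⟩ := ht' ((τ * b) • x) ⟨τ, hτ, b, hb, rfl⟩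
    refine ⟨t ((τ * b) • x), Finset.mem_image_of_mem t hbU, ?_⟩
    set t₀ := t ((τ * b) • x) with ht₀
    have h1 : (t₀ * b')⁻¹ * (τ * b) ∈ stabilizer G x := by
      rw [mem_stabilizer_iff, mul_smul, ← he, inv_smul_smul]
    have h2 : t₀⁻¹ * τ = b' * ((t₀ * b')⁻¹ * (τ * b)) * b⁻¹ := by group
    rw [h2]
    exact H'.mul_mem (H'.mul_mem hb' (hx h1)) (H'.inv_mem hb)
  obtain ⟨Rp, hRpc, hRp⟩ := hrep
  -- the points of the related blocks
  set Sx : Finset Ω := Rp.biUnion fun t => T.image fun u => t • u with hSx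
  have hSxc : Sx.card ≤ (r * R) * r := by
    refine (Finset.card_biUnion_le_card_mul Rp _ r fun t _ => ?_).trans
      (Nat.mul_le_mul_right r hRpc)
    exact Finset.card_image_le.trans (le_of_eq hT)
  have hSxm : ∀ τ, Rl E H' x τ → τ • x ∈ Sx := by
    intro τ hτ
    obtain ⟨t, ht1, ht2⟩ := hRp τ hτ
    refine Finset.mem_biUnion.2 ⟨t, ht1, Finset.mem_image.2 ⟨(t⁻¹ * τ) • x,
      (hTm _).2 ⟨_, ht2, rfl⟩, ?_⟩⟩
    rw [← mul_smul]
    congr 1
    group
  -- properties of the relation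
  have hleft : ∀ h ∈ H', ∀ τ, Rl E H' x τ → Rl E H' x (h * τ) := by
    rintro h hh τ ⟨a, ha, b, hb, h1⟩
    refine ⟨h * a, H'.mul_mem hh ha, b, hb, ?_⟩
    have h2 := hG h _ _ h1
    rwa [← mul_smul, ← mul_smul, ← mul_assoc] at h2
  have hright : ∀ h ∈ H', ∀ τ, Rl E H' x τ → Rl E H' x (τ * h) := by
    rintro h hh τ ⟨a, ha, b, hb, h1⟩
    refine ⟨a, ha, h⁻¹ * b, H'.mul_mem (H'.inv_mem hh) hb, ?_⟩
    have h2 : τ * h * (h⁻¹ * b) = τ * b := by group
    rw [h2]
    exact h1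
  have hinv : ∀ τ, Rl E H' x τ → Rl E H' x τ⁻¹ := by
    rintro τ ⟨a, ha, b, hb, h1⟩
    refine ⟨b, hb, a, ha, ?_⟩
    have h2 := hG τ⁻¹ _ _ (hsym _ _ h1)
    rw [← mul_smul, ← mul_smul] at h2
    have h3 : τ⁻¹ * (τ * b) = b := by group
    rwa [h3] at h2
  have hin : ∀ h ∈ H', Rl E H' x h := by
    intro h hh
    refine ⟨h, hh, 1, H'.one_mem, ?_⟩
    rw [mul_one]
    exact hrefl _
  -- a product outside the relation
  have hprod : ∃ s₁ ∈ H, ∃ s₂ ∈ H, Rl E H' x s₁ ∧ Rl E H' x s₂ ∧ ¬ Rl E H' x (s₁ * s₂) := by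
    by_contra hno
    push Not at hno
    set J : Subgroup G :=
      { carrier := {τ | τ ∈ H ∧ Rl E H' x τ}
        mul_mem' := fun {u w} hu hw => ⟨H.mul_mem hu.1 hw.1, hno u hu.1 w hw.1 hu.2 hw.2⟩
        one_mem' := ⟨H.one_mem, hin 1 H'.one_mem⟩
        inv_mem' := fun {u} hu => ⟨H.inv_mem hu.1, hinv u hu.2⟩ } with hJ
    have hJm : ∀ τ, τ ∈ J ↔ τ ∈ H ∧ Rl E H' x τ := fun τ => Iff.rfl
    rcases hadj.2 J (fun h hh => (hJm h).2 ⟨hadj.1.le hh, hin h hh⟩) (fun h hh => ((hJm h).1 hh).1)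
      with h1 | h1
    · obtain ⟨τ, hτ, h2, h3⟩ := hex
      apply h3
      rw [← h1]
      exact (hJm τ).2 ⟨hτ, h2⟩
    · obtain ⟨TH, hTH, hTHm⟩ := orb_finset H x
      have h2 : TH ⊆ Sx := by
        intro y hy
        obtain ⟨h, hh, rfl⟩ := (hTHm y).1 hy
        rw [← h1] at hh
        exact hSxm h ((hJm h).1 hh).2
      have h3 := Finset.card_le_card h2
      rw [hTH] at h3
      omega
  obtain ⟨s₁, hs₁, s₂, hs₂, h₁, h₂, h₁₂⟩ := hprod
  refine ⟨(s₁ * s₂) • x, ?_, ?_⟩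
  · intro h
    apply h₁₂
    refine ⟨1, H'.one_mem, 1, H'.one_mem, ?_⟩
    rw [mul_one, one_smul]
    exact h
  · rw [pair_orb ht]
    refine Nat.mul_le_mul_left _ ?_
    obtain ⟨TS, hTS, hTSm⟩ := orb_finset (stabilizer G x) ((s₁ * s₂) • x)
    rw [← hTS]
    have h3 : TS ⊆ Rp.biUnion fun t => Sx.image fun u => t • u := by
      intro y hy
      obtain ⟨g, hg, rfl⟩ := (hTSm y).1 hy
      obtain ⟨t, ht1, ht2⟩ := hRp (g * s₁) (hleft g (hx hg) s₁ h₁)
      refine Finset.mem_biUnion.2 ⟨t, ht1, Finset.mem_image.2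
        ⟨((t⁻¹ * (g * s₁)) * s₂) • x, hSxm _ (hleft _ ht2 s₂ h₂), ?_⟩⟩
      simp only [← mul_smul]
      congr 1
      group
    refine (Finset.card_le_card h3).trans ?_
    refine (Finset.card_biUnion_le_card_mul Rp _ ((r * R) * r) fun t _ => ?_).trans
      (Nat.mul_le_mul_right _ hRpc)
    exact Finset.card_image_le.trans hSxc

/-- a pair with a small orbit is enough -/
theorem fin_pair [Fintype Ω] {C : ℕ} (hC : 1 ≤ C) (E : Ω → Finset Ω)
    (hsym : ∀ x y, y ∈ E x → x ∈ E y) {x z : Ω} (hz : z ∉ E x) (hD : 1 ≤ Fintype.card Ω) {e : ℕ}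
    (he : (Nat.card (orbit G (![x, z] : Fin 2 → Ω))) ^ (4 * C) ≤ (Fintype.card Ω) ^ e)
    (he' : e ≤ 2 * (4 * C) - 1) :
    ∃ (k : ℕ) (y : Fin k → Ω), 2 ≤ k ∧ k ≤ 4 * C ∧ (∃ i, y i = x) ∧
      (∀ i i', i ≠ i' → y i' ∉ E (y i)) ∧
      (Nat.card (orbit G y)) ^ (4 * C) ≤ (Fintype.card Ω) ^ (k * (4 * C) - 1) := by
  refine ⟨2, ![x, z], le_rfl, by omega, ⟨0, rfl⟩, ?_, ?_⟩
  · intro i i' hne h
    fin_cases i <;> fin_cases i'
    · exact hne rfl
    · exact hz h
    · exact hz (hsym _ _ h)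
    · exact hne rfl
  · exact he.trans (Nat.pow_le_pow_right hD he')

end PGrp

open PGrp

/-- Row P-GRP. -/
theorem grpp : GrppStatement := by
  intro R C hR hC
  refine ⟨(C * R * C + 1) ^ 2 + ((C * R) * ((C * R) * C)) ^ 2 + C ^ (4 * (C * C)) + 1, 4 * C, ?_⟩
  intro G Ω _ _ _ _ ht E hRc hrefl hsym hG hX x H hx hbig halt
  set D := Fintype.card Ω with hD
  have hD1 : 1 ≤ D := by omega
  have hX1 : (C * R * C + 1) ^ 2 ≤ D := by omega
  have hX2 : ((C * R) * ((C * R) * C)) ^ 2 ≤ D := by omega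
  have hX3 : C ^ (4 * (C * C)) ≤ D := by omega
  obtain ⟨TH, hTH, hTHm⟩ := orb_finset H x
  -- a pair in the orbit of `H`
  have hpair : ∃ z ∈ orbit H x, z ∉ E x := by
    obtain ⟨z, hz1, hz2⟩ := Finset.exists_mem_notMem_of_card_lt_card
      (s := E x) (t := TH) (by rw [hTH]; exact lt_of_le_of_lt (hRc x) hbig)
    obtain ⟨h, hh, rfl⟩ := (hTHm z).1 hz1
    exact ⟨_, ⟨⟨h, hh⟩, rfl⟩, hz2⟩
  have hsmall : ∀ z, z ∉ E x → ∀ h : ℕ, Nat.card (orbit G (![x, z] : Fin 2 → Ω)) ≤ D * h →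
      h ^ 2 ≤ D → ∃ (k : ℕ) (y : Fin k → Ω), 2 ≤ k ∧ k ≤ 4 * C ∧ (∃ i, y i = x) ∧
      (∀ i i', i ≠ i' → y i' ∉ E (y i)) ∧
      (Nat.card (orbit G y)) ^ (4 * C) ≤ D ^ (k * (4 * C) - 1) := by
    intro z hz h h1 h2
    refine fin_pair hC E hsym hz hD1 (e := 6 * C) ?_ (by omega)
    calc (Nat.card (orbit G (![x, z] : Fin 2 → Ω))) ^ (4 * C) ≤ (D * h) ^ (4 * C) :=
          Nat.pow_le_pow_left h1 _
      _ = D ^ (4 * C) * (h ^ 2) ^ (2 * C) := by rw [mul_pow, ← pow_mul]; ring_nf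
      _ ≤ D ^ (4 * C) * D ^ (2 * C) := Nat.mul_le_mul_left _ (Nat.pow_le_pow_left h2 _)
      _ = D ^ (6 * C) := by rw [← pow_add]; congr 1; ring
  rcases halt with h0 | ⟨H', hx', hadj, hr, htup⟩
  · -- a small orbit of `H`
    obtain ⟨z, hz, hzE⟩ := hpair
    refine fin_pair hC E hsym hzE hD1 (e := 4 * C + 4 * (C - 1)) ?_ (by omega)
    calc (Nat.card (orbit G (![x, z] : Fin 2 → Ω))) ^ (4 * C) ≤
          (D * Nat.card (orbit H x)) ^ (4 * C) := Nat.pow_le_pow_left (pair_le ht hx hz) _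
      _ = D ^ (4 * C) * ((Nat.card (orbit H x)) ^ C) ^ 4 := by rw [mul_pow, ← pow_mul]; ring_nf
      _ ≤ D ^ (4 * C) * (D ^ (C - 1)) ^ 4 := Nat.mul_le_mul_left _ (Nat.pow_le_pow_left h0 _)
      _ = D ^ (4 * C + 4 * (C - 1)) := by rw [← pow_mul, ← pow_add]; congr 1; ring
  by_cases hcase : (Nat.card (orbit H x)) ^ 2 ≤ D
  · obtain ⟨z, hz, hzE⟩ := hpair
    exact hsmall z hzE _ (pair_le ht hx hz) hcase
  push Not at hcase
  by_cases hex : ∃ τ ∈ H, Rl E H' x τ ∧ τ ∉ H'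
  · -- two steps
    have hb : Nat.card (orbit H' x) * R * Nat.card (orbit H' x) < Nat.card (orbit H x) := by
      by_contra hcon
      push Not at hcon
      have h1 : Nat.card (orbit H x) ≤ C * R * C + 1 := by
        refine hcon.trans (le_trans ?_ (Nat.le_succ _))
        exact Nat.mul_le_mul (Nat.mul_le_mul_right R hr) hr
      have h2 := Nat.pow_le_pow_left h1 2
      omega
    obtain ⟨z, hzE, hzo⟩ := two_steps ht E hRc hrefl hsym hG hx' hadj hb hex
    refine hsmall z hzE ((C * R) * ((C * R) * C)) (hzo.trans (Nat.mul_le_mul_left _ ?_)) hX2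
    exact Nat.mul_le_mul (Nat.mul_le_mul_right R hr)
      (Nat.mul_le_mul (Nat.mul_le_mul_right R hr) hr)
  -- different cosets are not related
  push Not at hex
  obtain ⟨k, σ, hk2, hkC, hσ, hne, hW⟩ := htup
  set i₀ : Fin k := ⟨0, by omega⟩ with hi₀
  set m := H'.relIndex H with hm
  set r := Nat.card (orbit H' x) with hrdef
  set w := (⨅ i, H'.map (MulAut.conj (σ i)).toMonoidHom).relIndex H with hw
  have htl := tuple_le ht hx' hadj.1.le i₀ σ hσ
  have hmr : Nat.card (orbit H x) = r * m := by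
    rw [card_orb, hrdef, card_orb, hm, Subgroup.relIndex_mul_relIndex _ _ _ hx' hadj.1.le]
  have hr1 : 1 ≤ r := by
    rw [hrdef, card_orb]
    exact Nat.one_le_iff_ne_zero.2 (rel_ne _ _)
  have hm1 : 1 ≤ m := Nat.one_le_iff_ne_zero.2 (rel_ne _ _)
  have hmD : m ≤ D := by
    have h1 : TH.card ≤ D := Finset.card_le_univ _
    rw [hTH, hmr] at h1
    exact (Nat.le_mul_of_pos_left m hr1).trans h1
  rw [hmr, ← hD] at htl
  set o := Nat.card (orbit G (fun i => σ i • x)) with ho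
  have h1 : o * m ≤ D * w * r ^ k := by
    refine le_trans ?_ htl
    exact Nat.mul_le_mul_left o (Nat.le_mul_of_pos_left m hr1)
  have hkC1 : C ≤ k * C - 1 := by
    have : 2 * C ≤ k * C := Nat.mul_le_mul_right C hk2
    omega
  have h2 : o ^ C ≤ D ^ (k * C - 1) * C ^ (k * C) := by
    have h3 : o ^ C * m ^ C ≤ (D ^ C * m ^ (k * C - 1 - C) * r ^ (k * C)) * m ^ C := by
      calc o ^ C * m ^ C = (o * m) ^ C := (mul_pow _ _ _).symm
        _ ≤ (D * w * r ^ k) ^ C := Nat.pow_le_pow_left h1 C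
        _ = D ^ C * w ^ C * r ^ (k * C) := by rw [mul_pow, mul_pow, ← pow_mul]
        _ ≤ D ^ C * m ^ (k * C - 1) * r ^ (k * C) :=
            Nat.mul_le_mul_right _ (Nat.mul_le_mul_left _ hW)
        _ = (D ^ C * m ^ (k * C - 1 - C) * r ^ (k * C)) * m ^ C := by
            have h5 : m ^ (k * C - 1) = m ^ (k * C - 1 - C) * m ^ C := by
              rw [← pow_add]; congr 1; omega
            rw [h5]; ring
    have h4 := Nat.le_of_mul_le_mul_right h3 (Nat.pow_pos hm1)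
    refine h4.trans ?_
    calc D ^ C * m ^ (k * C - 1 - C) * r ^ (k * C) ≤
          D ^ C * D ^ (k * C - 1 - C) * C ^ (k * C) :=
          Nat.mul_le_mul (Nat.mul_le_mul_left _ (Nat.pow_le_pow_left hmD _))
            (Nat.pow_le_pow_left hr _)
      _ = D ^ (k * C - 1) * C ^ (k * C) := by rw [← pow_add]; congr 2; omega
  have h3 : o ^ (4 * C) ≤ D ^ (k * (4 * C) - 1) := by
    calc o ^ (4 * C) = (o ^ C) ^ 4 := by rw [← pow_mul, mul_comm]
      _ ≤ (D ^ (k * C - 1) * C ^ (k * C)) ^ 4 := Nat.pow_le_pow_left h2 4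
      _ = D ^ ((k * C - 1) * 4) * C ^ (4 * (k * C)) := by
          rw [mul_pow, ← pow_mul, ← pow_mul, mul_comm (k * C) 4]
      _ ≤ D ^ ((k * C - 1) * 4) * D := by
          refine Nat.mul_le_mul_left _ (le_trans ?_ hX3)
          exact Nat.pow_le_pow_right hC (Nat.mul_le_mul_left 4 (Nat.mul_le_mul_right C hkC))
      _ = D ^ ((k * C - 1) * 4 + 1) := by rw [pow_succ]
      _ ≤ D ^ (k * (4 * C) - 1) := by
          refine Nat.pow_le_pow_right hD1 ?_
          have h6 : k * (4 * C) = 4 * (k * C) := by ring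
          rw [h6]
          omega
  refine ⟨k, fun i => (σ i₀)⁻¹ • σ i • x, hk2, hkC.trans (by omega), ⟨i₀, ?_⟩, ?_, ?_⟩
  · exact inv_smul_smul _ _
  · intro i i' hii h
    have h4 := hG (σ i₀) _ _ h
    rw [smul_inv_smul, smul_inv_smul] at h4
    have h5 := hG (σ i)⁻¹ _ _ h4
    rw [inv_smul_smul, ← mul_smul] at h5
    refine hne i i' hii (hex _ (H.mul_mem (H.inv_mem (hσ i)) (hσ i')) ⟨1, H'.one_mem, 1,
      H'.one_mem, ?_⟩)
    rw [mul_one, one_smul]
    exact h5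
  · have h4 : orbit G (fun i => (σ i₀)⁻¹ • σ i • x) = orbit G (fun i => σ i • x) :=
      orbit_smul (σ i₀)⁻¹ (fun i => σ i • x)
    rw [h4]
    exact h3

end Pool.DynLehmer.LW
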