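import Pool.Agent.Lib.MP_2194ec_nt.LW.Ufin

set_option autoImplicit false
set_option linter.unusedSectionVars false

/-!
# Points with a tuple of conjugates at each level: the general form
-/

namespace Pool.DynLehmer.LW
open MvPolynomial NumberField Filter Topology Pool.DynLehmer Pool.DynLehmer.SB Pool.DynLehmer.SP
  Pool.DynLehmer.GS Pool.DynLehmer.LP
open scoped Classical

/-- For every equivariant relation with at most `R` points related to a point of the orbit of `z`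
there is a tuple of pairwise unrelated points with a small orbit, if the orbit of `z` has at least
`X` elements. -/
def TupE {G P : Type} [Group G] [MulAction G P] (z : P) (R C X : ℕ) : Prop :=
  ∀ E : P → Finset P,
    (∀ y ∈ MulAction.orbit G z, (E y).card ≤ R ∧ y ∈ E y ∧ (∀ y' ∈ E y, y ∈ E y') ∧
      ∀ (g : G) (y' : P), y' ∈ E y → g • y' ∈ E (g • y)) →
    X ≤ Nat.card (MulAction.orbit G z) →
    ∃ (k : ℕ) (σ : Fin k → G), 2 ≤ k ∧ k ≤ C ∧ (∃ i, σ i = 1) ∧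
      (∀ i i', i ≠ i' → σ i' • z ∉ E (σ i • z)) ∧
      (Nat.card (MulAction.orbit G (fun i => σ i • z))) ^ C ≤
        (Nat.card (MulAction.orbit G z)) ^ (k * C - 1)

open SolvAux UfinAux

/-- **The bound for points with a tuple of conjugates at each level.** -/
theorem gfin (hY : YStatement) (hExc : ExcStatement) (hLift : LiftStatement) :
    ∀ (K : Type) [Field K] [NumberField K] (p s : ℕ) (v : FinitePlace K)
    (F : Fin 2 → MvPolynomial (Fin 2) K), HypR p s v F → CritW F →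
    ∃ R : ℕ, 1 ≤ R ∧ (OneOrb F → R = 1) ∧ ∀ A C X : ℕ, 1 ≤ A →
    ∃ c : ℝ, 0 < c ∧ ∀ (N : Type) [Field N] [NumberField N] [Algebra K N] [IsGalois K N] (a : N),
      WandP F ![a, 1] →
      (∀ n : ℕ, A < dg K ((gAct F N)^[n] ![a, 1]) →
        ((p ^ s) ^ n) ^ A * (dg K ((gAct F N)^[n] ![a, 1])) ^ (A - 1) ≤ (dg K ![a, 1]) ^ A →
        Nat.card (MulAction.orbit (N ≃ₐ[K] N) (nz ((gAct F N)^[n] ![a, 1]))) =
          dg K ((gAct F N)^[n] ![a, 1]) →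
        TupE (G := N ≃ₐ[K] N) (nz ((gAct F N)^[n] ![a, 1])) R C X) →
      ∃ h : ℝ, HasHt (p ^ s) F ![a, 1] h ∧ c / (dg K ![a, 1] : ℝ) ≤ h := by
  intro K _ _ p s v F hF hC
  obtain ⟨R, hR, hR1, hE⟩ := hExc K p s v F hF hC
  refine ⟨R, hR, hR1, ?_⟩
  intro A C X hA
  obtain ⟨B₀, hB1, hB3, hB4, hB5⟩ : ∃ B₀ : ℕ, X ≤ B₀ ∧ 10 * (C + 1) ^ 2 ≤ B₀ ∧ 10 ≤ B₀ ∧
      2 * A ≤ B₀ :=
    ⟨X + 10 * (C + 1) ^ 2 + 10 + 2 * A, by omega, by omega, by omega, by omega⟩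
  have hA1 : (1 : ℝ) ≤ (A : ℝ) := by exact_mod_cast hA
  obtain ⟨δ₀, hδ₀'⟩ : ∃ δ₀ : ℝ, δ₀ = 1 / (A : ℝ) := ⟨_, rfl⟩
  have hδA : δ₀ * (A : ℝ) = 1 := by rw [hδ₀', one_div, inv_mul_cancel₀ (by positivity)]
  have hδ₀ : 0 < δ₀ := by rw [hδ₀']; positivity
  have hδ₁ : δ₀ ≤ 1 := by nlinarith
  have hB0 : (10 : ℝ) ≤ (B₀ : ℝ) := by exact_mod_cast hB4
  have hB5' : 2 * (A : ℝ) ≤ (B₀ : ℝ) := by exact_mod_cast hB5
  obtain ⟨δ, hδ⟩ : ∃ δ : ℝ, δ = 1 / (B₀ : ℝ) ^ 2 := ⟨_, rfl⟩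
  have hδ0 : 0 < δ := by rw [hδ]; positivity
  have hδ1 : 1 / δ = (B₀ : ℝ) ^ 2 := by rw [hδ, one_div_one_div]
  have hδ2 : δ ≤ 1 / 100 := by
    rw [hδ]
    apply one_div_le_one_div_of_le (by norm_num)
    nlinarith
  have hδ3 : δ * (100 * (C : ℝ) ^ 4) ≤ 1 := by
    rw [hδ, one_div, inv_mul_le_iff₀ (by positivity), mul_one]
    have h1 : 10 * ((C : ℝ) + 1) ^ 2 ≤ (B₀ : ℝ) := by exact_mod_cast hB3
    have h2 : (0 : ℝ) ≤ (C : ℝ) := Nat.cast_nonneg _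
    have h3 : 10 * (C : ℝ) ^ 2 ≤ (B₀ : ℝ) := by nlinarith
    calc 100 * (C : ℝ) ^ 4 = (10 * (C : ℝ) ^ 2) ^ 2 := by ring
      _ ≤ (B₀ : ℝ) ^ 2 := pow_le_pow_left₀ (by positivity) h3 2
  have hδ4 : 2 * δ ≤ δ₀ := by
    have h1 : 2 ≤ B₀ * δ₀ := by nlinarith
    rw [hδ, mul_one_div, div_le_iff₀ (by positivity)]
    nlinarith
  obtain ⟨c, hc, hmain⟩ := hY K p s v F hF hC C δ hδ0
  refine ⟨c, hc, ?_⟩
  intro N _ _ _ _ a ha hH
  apply hmain N a ha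
  intro n hn hthin
  have hp2 : 2 ≤ p := hF.prime.two_le
  have hq2 : 2 ≤ p ^ s := hp2.trans (Nat.le_self_pow (by have := hF.pos; omega) p)
  have hM : Mor (p ^ s) F := GS.mor K p s v F hF
  generalize hq : p ^ s = q at hq2 hM hthin hH ⊢
  have hx : (![a, 1] : Fin 2 → N) ≠ 0 := by
    intro h0
    exact one_ne_zero (congrFun h0 1 : (1 : N) = 0)
  have hxn : ∀ m, (gAct F N)^[m] ![a, 1] ≠ 0 := fun m => Bas.iter_ne hM hx m
  obtain ⟨D, hD⟩ : ∃ D : ℕ, D = dg K ((gAct F N)^[n] ![a, 1]) := ⟨_, rfl⟩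
  rw [← hD] at hn hthin ⊢
  rw [hδ1] at hn
  have hDr0 : (1 : ℝ) ≤ (D : ℝ) := by nlinarith
  have hq2' : (2 : ℝ) ≤ (q : ℝ) := by exact_mod_cast hq2
  -- the time
  obtain ⟨μ, hμ1, hμ2⟩ : ∃ μ : ℕ, (q : ℝ) ^ μ ≤ (D : ℝ) ^ δ ∧
      ∀ m : ℕ, (q : ℝ) ^ m ≤ (D : ℝ) ^ δ → m ≤ μ := by
    refine ⟨Nat.findGreatest (fun m => (q : ℝ) ^ m ≤ (D : ℝ) ^ δ) D, ?_, ?_⟩
    · have h0 : (q : ℝ) ^ 0 ≤ (D : ℝ) ^ δ := by
        rw [pow_zero]
        exact Real.one_le_rpow hDr0 hδ0.le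
      exact Nat.findGreatest_spec (P := fun m => (q : ℝ) ^ m ≤ (D : ℝ) ^ δ) (Nat.zero_le D) h0
    · intro m hm
      apply Nat.le_findGreatest _ hm
      have h1 : (D : ℝ) ^ δ ≤ (D : ℝ) := by
        conv_rhs => rw [← Real.rpow_one (D : ℝ)]
        exact Real.rpow_le_rpow_of_exponent_le hDr0 (by linarith)
      have h2 : (2 : ℝ) ^ m ≤ (q : ℝ) ^ m := pow_le_pow_left₀ (by norm_num) hq2' m
      have h3 : (m : ℝ) < (2 : ℝ) ^ m := by exact_mod_cast Nat.lt_two_pow_self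
      have h4 : (m : ℝ) < (D : ℝ) := by linarith
      exact_mod_cast h4.le
  have hit : ∀ z : Fin 2 → N, (gAct F N)^[n + μ] z = (gAct F N)^[μ] ((gAct F N)^[n] z) := by
    intro z
    rw [add_comm, Function.iterate_add_apply]
  -- the degree at the time `n + μ`
  obtain ⟨D', hD'⟩ : ∃ D' : ℕ, D' = dg K ((gAct F N)^[n + μ] ![a, 1]) := ⟨_, rfl⟩
  have hL2 := hLift.2 K N q F (by omega) hM
  have hDD' := hL2 1 μ (fun _ => (gAct F N)^[n] ![a, 1]) (fun _ => hxn n)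
  rw [dgk_one, dgk_one, ← hit, ← hD, ← hD', pow_one] at hDD'
  obtain ⟨hDD1, hDD2⟩ := hDD'
  have hDD1' : (D' : ℝ) ≤ (D : ℝ) := by exact_mod_cast hDD1
  have hDD2' : (D : ℝ) ≤ (q : ℝ) ^ μ * (D' : ℝ) := by exact_mod_cast hDD2
  have hD0 : (0 : ℝ) < (D : ℝ) := by linarith
  have hlow : (D : ℝ) ^ (1 - δ) ≤ (D' : ℝ) := by
    have h1 : (D : ℝ) ≤ (D : ℝ) ^ δ * (D' : ℝ) :=
      hDD2'.trans (mul_le_mul_of_nonneg_right hμ1 (Nat.cast_nonneg _))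
    have h2 : (0 : ℝ) < (D : ℝ) ^ δ := Real.rpow_pos_of_pos hD0 _
    rw [Real.rpow_sub hD0, Real.rpow_one, div_le_iff₀ h2, mul_comm]
    exact h1
  have hbig : (B₀ : ℝ) < (D' : ℝ) := by
    refine lt_of_lt_of_le ?_ hlow
    have h1 : (D : ℝ) ^ (1 / 2 : ℝ) ≤ (D : ℝ) ^ (1 - δ) :=
      Real.rpow_le_rpow_of_exponent_le hDr0 (by linarith)
    refine lt_of_lt_of_le ?_ h1
    rw [← Real.sqrt_eq_rpow]
    exact Real.lt_sqrt_of_sq_lt hn
  have hbig' : B₀ < D' := by exact_mod_cast hbig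
  have hD'0 : (0 : ℝ) < (D' : ℝ) := by linarith
  have hD'1 : (1 : ℝ) ≤ (D' : ℝ) := by linarith
  have hL1 := hLift.1 K N
  have hcard : Nat.card (MulAction.orbit (N ≃ₐ[K] N) (nz ((gAct F N)^[n + μ] ![a, 1]))) = D' := by
    have h1 := hL1 1 (fun _ => (gAct F N)^[n + μ] ![a, 1]) (fun _ => hxn (n + μ))
    rw [dgk_one, ← hD'] at h1
    rw [h1]
    exact (card_orb (fun (w : Pt N) (_ : Fin 1) => w) (fun a b h => congrFun h 0)
      (fun g a => rfl) _).symm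
  -- the subgroup at the time `n + μ`
  have hS := hH (n + μ)
    (by
      rw [← hD']
      omega)
    (by
      rw [← hD']
      have hr : (q : ℝ) ^ (n + μ) * (D' : ℝ) ^ (1 - δ₀) ≤ (dg K ![a, 1] : ℝ) := by
        refine le_trans ?_ hthin
        rw [pow_add, mul_assoc]
        refine mul_le_mul_of_nonneg_left ?_ (by positivity)
        calc (q : ℝ) ^ μ * (D' : ℝ) ^ (1 - δ₀) ≤ (D : ℝ) ^ δ * (D : ℝ) ^ (1 - δ₀) := by
              refine mul_le_mul hμ1 ?_ (Real.rpow_nonneg hD'0.le _) (Real.rpow_nonneg hD0.le _)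
              exact Real.rpow_le_rpow hD'0.le hDD1' (by linarith)
          _ = (D : ℝ) ^ (δ + (1 - δ₀)) := (Real.rpow_add hD0 _ _).symm
          _ ≤ (D : ℝ) ^ (1 - δ) := Real.rpow_le_rpow_of_exponent_le hDr0 (by linarith)
      have hrA : ((q : ℝ) ^ (n + μ)) ^ A * (D' : ℝ) ^ (A - 1) ≤ (dg K ![a, 1] : ℝ) ^ A := by
        have h1 := pow_le_pow_left₀ (by positivity) hr A
        rw [mul_pow, ← Real.rpow_natCast ((D' : ℝ) ^ (1 - δ₀)) A, ← Real.rpow_mul hD'0.le] at h1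
        have h2 : (1 - δ₀) * (A : ℝ) = ((A - 1 : ℕ) : ℝ) := by
          rw [Nat.cast_sub hA, sub_mul, hδA]
          push_cast
          ring
        rw [h2, Real.rpow_natCast] at h1
        exact h1
      exact_mod_cast hrA)
    (by rw [hcard, hD'])
  -- the tuple
  obtain ⟨E, hE1, hE2⟩ := hE N ![a, 1] hx ha (n + μ)
  obtain ⟨k, σ, hk2, hk, ⟨i₀, hi₀⟩, hne, hMc⟩ := hS E
    (fun y hy => by
      obtain ⟨h1, h2, h3, h4⟩ := hE1 y (mem_orb.2 hy)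
      exact ⟨h1, h2, fun y' hy' => (h3 y' hy').2, h4⟩)
    (by rw [hcard]; omega)
  rw [hcard] at hMc
  have hnz : ∀ i, nz ((gAct F N)^[n + μ] ![σ i a, 1]) =
      σ i • nz ((gAct F N)^[n + μ] ![a, 1]) := by
    intro i
    rw [gal_vec, gal_act, nz_gal _ (hxn _)]
  have hbn : ∀ i m, (gAct F N)^[m] ![σ i a, 1] ≠ 0 := by
    intro i m
    rw [gal_vec, gal_act]
    exact gal_ne _ (hxn m)
  refine ⟨k, fun i => σ i a, hk2, hk, ⟨i₀, by simp [hi₀]⟩, ?_, ?_, ?_⟩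
  · intro i
    have h1 := Polynomial.aeval_algHom_apply (σ i : N →ₐ[K] N) a (minpoly K a)
    rw [minpoly.aeval, map_zero] at h1
    exact h1
  · intro _
    have h1 := hL1 k (fun i => (gAct F N)^[n + μ] ![σ i a, 1]) (fun i => hbn i _)
    have h2 : (fun i => nz ((gAct F N)^[n + μ] ![σ i a, 1])) =
        fun i => σ i • nz ((gAct F N)^[n + μ] ![a, 1]) := funext hnz
    rw [h2] at h1
    rw [← h1] at hMc
    have h3 := (hL2 k μ (fun i => (gAct F N)^[n] ![σ i a, 1]) (fun i => hbn i _)).2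
    have h4 : (fun i => (gAct F N)^[μ] ((gAct F N)^[n] ![σ i a, 1])) =
        fun i => (gAct F N)^[n + μ] ![σ i a, 1] := funext fun i => (hit _).symm
    rw [h4] at h3
    generalize dgk K (fun i => (gAct F N)^[n + μ] ![σ i a, 1]) = M' at hMc h3
    generalize dgk K (fun i => (gAct F N)^[n] ![σ i a, 1]) = M at h3 ⊢
    have hC0 : 0 < C := by omega
    have hC0' : (0 : ℝ) < (C : ℝ) := by exact_mod_cast hC0
    have h5 : (M' : ℝ) ≤ (D' : ℝ) ^ ((k : ℝ) - 1 / (C : ℝ)) := by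
      have h6 : (0 : ℝ) ≤ (D' : ℝ) ^ ((k : ℝ) - 1 / (C : ℝ)) := Real.rpow_nonneg hD'0.le _
      rw [← pow_le_pow_iff_left₀ (Nat.cast_nonneg _) h6 hC0.ne',
        ← Real.rpow_natCast ((D' : ℝ) ^ ((k : ℝ) - 1 / (C : ℝ))) C, ← Real.rpow_mul hD'0.le]
      have h7 : ((k : ℝ) - 1 / (C : ℝ)) * (C : ℝ) = ((k * C - 1 : ℕ) : ℝ) := by
        rw [Nat.cast_sub (by nlinarith), sub_mul, one_div, inv_mul_cancel₀ hC0'.ne']
        push_cast
        ring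
      rw [h7, Real.rpow_natCast]
      exact_mod_cast hMc
    have h8 : (D' : ℝ) ^ ((k : ℝ) - 1 / (C : ℝ)) ≤ (D : ℝ) ^ ((k : ℝ) - 1 / (C : ℝ)) := by
      apply Real.rpow_le_rpow hD'0.le hDD1'
      have h9 : (2 : ℝ) ≤ (k : ℝ) := by exact_mod_cast hk2
      have h10 : (1 : ℝ) ≤ (C : ℝ) := by exact_mod_cast hC0
      have h11 : 1 / (C : ℝ) ≤ 1 := by rw [div_le_one hC0']; exact h10
      linarith
    have h9 : (M : ℝ) ≤ (D : ℝ) ^ ((k : ℝ) - 1 / (C : ℝ) + δ * k) := by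
      have h10 : (M : ℝ) ≤ ((q : ℝ) ^ μ) ^ k * (M' : ℝ) := by exact_mod_cast h3
      have h11 : ((q : ℝ) ^ μ) ^ k ≤ (D : ℝ) ^ (δ * k) := by
        rw [Real.rpow_mul hD0.le, Real.rpow_natCast]
        exact pow_le_pow_left₀ (by positivity) hμ1 k
      calc (M : ℝ) ≤ ((q : ℝ) ^ μ) ^ k * (M' : ℝ) := h10
        _ ≤ (D : ℝ) ^ (δ * k) * (D : ℝ) ^ ((k : ℝ) - 1 / (C : ℝ)) := by
            apply mul_le_mul h11 _ (Nat.cast_nonneg _) (Real.rpow_nonneg hD0.le _)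
            exact h5.trans h8
        _ = (D : ℝ) ^ ((k : ℝ) - 1 / (C : ℝ) + δ * k) := by
            rw [← Real.rpow_add hD0]
            congr 1
            ring
    have h12 : (M : ℝ) ^ (1 / (k : ℝ) + δ) ≤ (D : ℝ) ^ (1 - δ) :=
      UfinAux.num_step hk2 hk hδ0 hδ3 hDr0 (Nat.cast_nonneg _) h9
    exact (mul_le_mul_of_nonneg_left h12 (by positivity)).trans hthin
  · intro i i' hii m hm e G hG
    have h1 := hE2 (σ i) (σ i') (by
      rw [← gal_vec, ← gal_vec, hnz, hnz]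
      exact hne i i' hii) (n + m) (by have := hμ2 m hm; omega) e G hG
    rw [← gal_vec, ← gal_vec] at h1
    exact h1

end Pool.DynLehmer.LW
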