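import Pool.Agent.Lib.MP_2194ec_nt.LW.Defs2
import Pool.Agent.Lib.MP_2194ec_nt.GAL.R.Mor

set_option autoImplicit false
set_option linter.unusedSectionVars false

/-!
# Points in Galois extensions with a solvable relative group (row SOLV)
-/

namespace Pool.DynLehmer.LW
open MvPolynomial NumberField Filter Topology Pool.DynLehmer Pool.DynLehmer.SB Pool.DynLehmer.SP
  Pool.DynLehmer.GS Pool.DynLehmer.LP
open scoped Classical

namespace SolvAux

section grp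

/-- the image of an orbit under an injective equivariant map -/
theorem card_orb {G A B : Type} [Group G] [MulAction G A] [MulAction G B] (f : A → B)
    (hf : Function.Injective f) (hG : ∀ (g : G) (a : A), f (g • a) = g • f a) (a : A) :
    Nat.card (MulAction.orbit G (f a)) = Nat.card (MulAction.orbit G a) := by
  have h1 : MulAction.orbit G (f a) = f '' MulAction.orbit G a := by
    ext b
    constructor
    · rintro ⟨g, rfl⟩
      exact ⟨g • a, ⟨g, rfl⟩, hG g a⟩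
    · rintro ⟨_, ⟨g, rfl⟩, rfl⟩
      exact ⟨g, (hG g a).symm⟩
  rw [h1, Nat.card_image_of_injective hf]

/-- Row GRP for the orbit of a point. -/
theorem grp_orb (hGrp : GrpStatement) {G P : Type} [Group G] [Finite G] [MulAction G P] (z : P)
    (H : Subgroup G) (hHn : H.Normal) (hHs : Group.IsSolvable H) (R : ℕ) (E : P → Finset P)
    (hR : 1 ≤ R)
    (hE : ∀ y ∈ MulAction.orbit G z, (E y).card ≤ R ∧ y ∈ E y ∧ (∀ y' ∈ E y, y ∈ E y') ∧
      ∀ (g : G) (y' : P), y' ∈ E y → g • y' ∈ E (g • y))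
    (hcard : (R ^ 2 + 3 * R) ^ 2 ≤ Nat.card (MulAction.orbit G z))
    (horb : R < Nat.card (MulAction.orbit H z)) :
    ∃ (k : ℕ) (σ : Fin k → G), (k = 2 ∨ k = 4) ∧ (∃ i, σ i = 1) ∧
      (∀ i i', i ≠ i' → σ i' • z ∉ E (σ i • z)) ∧
      (Nat.card (MulAction.orbit G (fun i => σ i • z))) ^ 2 ≤
        R ^ 2 * (Nat.card (MulAction.orbit G z)) ^ (2 * k - 1) := by
  have hfin : Finite (MulAction.orbit G z) := Set.finite_range (fun g : G => g • z)
  have hft : Fintype (MulAction.orbit G z) := Fintype.ofFinite _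
  set z₀ : MulAction.orbit G z := ⟨z, MulAction.mem_orbit_self z⟩ with hz₀
  have hinj : Function.Injective (Subtype.val : MulAction.orbit G z → P) :=
    Subtype.val_injective
  have hpre : MulAction.IsPretransitive G (MulAction.orbit G z) := inferInstance
  obtain ⟨k, y, hk, ⟨i₀, hi₀⟩, hy, hc⟩ := hGrp G (MulAction.orbit G z) hpre H hHn hHs R
    (fun y => Finset.univ.filter fun y' => (y' : P) ∈ E (y : P)) hR
    (by
      intro x
      refine le_trans ?_ (hE x x.2).1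
      rw [← Finset.card_image_of_injective _ hinj]
      apply Finset.card_le_card
      intro w hw
      obtain ⟨w', hw', rfl⟩ := Finset.mem_image.1 hw
      exact (Finset.mem_filter.1 hw').2)
    (fun x => Finset.mem_filter.2 ⟨Finset.mem_univ _, (hE x x.2).2.1⟩)
    (fun x y h => Finset.mem_filter.2 ⟨Finset.mem_univ _,
      (hE x x.2).2.2.1 _ (Finset.mem_filter.1 h).2⟩)
    (fun g x y h => Finset.mem_filter.2 ⟨Finset.mem_univ _,
      (hE x x.2).2.2.2 g _ (Finset.mem_filter.1 h).2⟩)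
    (by rw [← Nat.card_eq_fintype_card]; exact hcard) z₀
    (by
      have h1 := card_orb (G := H) (Subtype.val : MulAction.orbit G z → P) hinj
        (fun g a => rfl) z₀
      rw [← h1]
      exact horb)
  have hex : ∀ i, ∃ g : G, g • z = (y i : P) := fun i => (y i).2
  choose τ hτ using hex
  have hσ : ∀ i, (if y i = z₀ then (1 : G) else τ i) • z = (y i : P) := by
    intro i
    split_ifs with h
    · rw [one_smul, h]
    · exact hτ i
  refine ⟨k, fun i => if y i = z₀ then 1 else τ i, hk, ⟨i₀, if_pos hi₀⟩, ?_, ?_⟩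
  · intro i i' hne hmem
    apply hy i i' hne
    refine Finset.mem_filter.2 ⟨Finset.mem_univ _, ?_⟩
    have h1 := hσ i
    have h2 := hσ i'
    simp only at hmem
    rw [h1, h2] at hmem
    exact hmem
  · have h1 : (fun i => (if y i = z₀ then (1 : G) else τ i) • z) = fun i => (y i : P) :=
      funext hσ
    have h2 := card_orb (G := G) (fun (w : Fin k → MulAction.orbit G z) (i : Fin k) => (w i : P))
      (fun a b h => funext fun i => hinj (congrFun h i)) (fun g a => rfl) y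
    change (Nat.card (MulAction.orbit G
      (fun i => (if y i = z₀ then (1 : G) else τ i) • z))) ^ 2 ≤ _
    rw [h1, h2, Nat.card_eq_fintype_card (α := MulAction.orbit G z)]
    exact hc

end grp

section num

theorem num_step {k : ℕ} (hk : k = 2 ∨ k = 4) {δ D M R : ℝ} (hδ0 : 0 < δ) (hδ : δ ≤ 1 / 100)
    (hR : 1 ≤ R) (hRD : R ^ 20 ≤ D) (hM0 : 0 ≤ M)
    (hM : M ≤ R * D ^ ((k : ℝ) - 1 / 2 + δ * k)) :
    M ^ (1 / (k : ℝ) + δ) ≤ D ^ (1 - δ) := by
  have hD1 : 1 ≤ D := le_trans (one_le_pow₀ hR) hRD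
  have hD0 : 0 < D := by linarith
  have hR0 : 0 ≤ R := by linarith
  have h1 : R ≤ D ^ (1 / 20 : ℝ) := by
    have h2 : R = (R ^ 20) ^ (1 / 20 : ℝ) := by
      rw [← Real.rpow_natCast, ← Real.rpow_mul hR0]
      norm_num
    rw [h2]
    exact Real.rpow_le_rpow (by positivity) hRD (by norm_num)
  have h3 : M ≤ D ^ ((k : ℝ) - 9 / 20 + δ * k) := by
    refine hM.trans ?_
    have h4 : D ^ ((k : ℝ) - 9 / 20 + δ * k) = D ^ (1 / 20 : ℝ) * D ^ ((k : ℝ) - 1 / 2 + δ * k) := by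
      rw [← Real.rpow_add hD0]
      congr 1
      ring
    rw [h4]
    exact mul_le_mul_of_nonneg_right h1 (Real.rpow_nonneg hD0.le _)
  have hk0 : (0 : ℝ) ≤ 1 / (k : ℝ) + δ := by positivity
  calc M ^ (1 / (k : ℝ) + δ) ≤ (D ^ ((k : ℝ) - 9 / 20 + δ * k)) ^ (1 / (k : ℝ) + δ) :=
        Real.rpow_le_rpow hM0 h3 hk0
    _ = D ^ (((k : ℝ) - 9 / 20 + δ * k) * (1 / (k : ℝ) + δ)) := (Real.rpow_mul hD0.le _ _).symm
    _ ≤ D ^ (1 - δ) := by
        apply Real.rpow_le_rpow_of_exponent_le hD1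
        rcases hk with rfl | rfl
        · push_cast
          nlinarith
        · push_cast
          nlinarith

end num

section pts

variable {K : Type} [Field K] {N : Type} [Field N] [Algebra K N]

theorem nz_gal (σ : N ≃ₐ[K] N) {y : Fin 2 → N} (hy : y ≠ 0) : nz (gal σ y) = σ • nz y := by
  apply FinAux.pt_inj
  have h3 : (σ • nz y).val = gal σ (nz y).val := rfl
  rw [h3, E.pr_gal, FinAux.pr_nz (gal_ne σ hy), E.pr_gal, FinAux.pr_nz hy]

theorem dgk_one (y : Fin 2 → N) : dgk K (fun _ : Fin 1 => y) = dg K y := by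
  unfold dgk dg
  rw [Set.range_const]

theorem gal_vec (σ : N ≃ₐ[K] N) (a : N) : (![σ a, 1] : Fin 2 → N) = gal σ ![a, 1] := by
  funext i
  fin_cases i
  · rfl
  · exact (map_one σ).symm

end pts

end SolvAux

open SolvAux

/-- Row SOLV. -/
theorem solv (hY : YStatement) (hGrp : GrpStatement) (hExc : ExcStatement)
    (hLift : LiftStatement) : SolvStatement := by
  intro K _ _ p s v F hF hC
  obtain ⟨R, hR, hR1, hE⟩ := hExc K p s v F hF hC
  refine ⟨R, hR, hR1, ?_⟩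
  intro X
  obtain ⟨B₀, hB1, hB2, hB3, hB4⟩ : ∃ B₀ : ℕ, X ≤ B₀ ∧ (R ^ 2 + 3 * R) ^ 2 ≤ B₀ ∧ R ^ 10 ≤ B₀ ∧
      10 ≤ B₀ := ⟨X + (R ^ 2 + 3 * R) ^ 2 + R ^ 10 + 10, by omega, by omega, by omega, by omega⟩
  have hB0 : (10 : ℝ) ≤ (B₀ : ℝ) := by exact_mod_cast hB4
  obtain ⟨δ, hδ⟩ : ∃ δ : ℝ, δ = 1 / (B₀ : ℝ) ^ 2 := ⟨_, rfl⟩
  have hδ0 : 0 < δ := by rw [hδ]; positivity
  have hδ1 : 1 / δ = (B₀ : ℝ) ^ 2 := by rw [hδ, one_div_one_div]
  have hδ2 : δ ≤ 1 / 100 := by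
    rw [hδ]
    apply one_div_le_one_div_of_le (by norm_num)
    nlinarith
  obtain ⟨c, hc, hmain⟩ := hY K p s v F hF hC 4 δ hδ0
  refine ⟨c, hc, ?_⟩
  intro N _ _ _ _ a ha H hHn hHs hH
  apply hmain N a ha
  intro n hn hthin
  have hp2 : 2 ≤ p := hF.prime.two_le
  have hq2 : 2 ≤ p ^ s := hp2.trans (Nat.le_self_pow (by have := hF.pos; omega) p)
  have hM : Mor (p ^ s) F := GS.mor K p s v F hF
  generalize hq : p ^ s = q at hq2 hM hthin ⊢
  have hx : (![a, 1] : Fin 2 → N) ≠ 0 := by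
    intro h0
    exact one_ne_zero (congrFun h0 1 : (1 : N) = 0)
  have hxn : ∀ m, (gAct F N)^[m] ![a, 1] ≠ 0 := fun m => Bas.iter_ne hM hx m
  obtain ⟨D, hD⟩ : ∃ D : ℕ, D = dg K ((gAct F N)^[n] ![a, 1]) := ⟨_, rfl⟩
  rw [← hD] at hn hthin ⊢
  rw [hδ1] at hn
  have hDr0 : (1 : ℝ) ≤ (D : ℝ) := by nlinarith
  have hq2' : (2 : ℝ) ≤ (q : ℝ) := by exact_mod_cast hq2
  -- the time
  obtain ⟨μ, hμ1, hμ2⟩ : ∃ μ : ℕ, (q : ℝ) ^ μ ≤ (D : ℝ) ^ δ ∧
      ∀ m : ℕ, (q : ℝ) ^ m ≤ (D : ℝ) ^ δ → m ≤ μ := by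
    refine ⟨Nat.findGreatest (fun m => (q : ℝ) ^ m ≤ (D : ℝ) ^ δ) D, ?_, ?_⟩
    · have h0 : (q : ℝ) ^ 0 ≤ (D : ℝ) ^ δ := by
        rw [pow_zero]
        exact Real.one_le_rpow hDr0 hδ0.le
      exact Nat.findGreatest_spec (P := fun m => (q : ℝ) ^ m ≤ (D : ℝ) ^ δ) (Nat.zero_le D) h0
    · intro m hm
      apply Nat.le_findGreatest _ hm
      have h1 : (D : ℝ) ^ δ ≤ (D : ℝ) := by
        conv_rhs => rw [← Real.rpow_one (D : ℝ)]
        exact Real.rpow_le_rpow_of_exponent_le hDr0 (by linarith)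
      have h2 : (2 : ℝ) ^ m ≤ (q : ℝ) ^ m := pow_le_pow_left₀ (by norm_num) hq2' m
      have h3 : (m : ℝ) < (2 : ℝ) ^ m := by exact_mod_cast Nat.lt_two_pow_self
      have h4 : (m : ℝ) < (D : ℝ) := by linarith
      exact_mod_cast h4.le
  have hit : ∀ z : Fin 2 → N, (gAct F N)^[n + μ] z = (gAct F N)^[μ] ((gAct F N)^[n] z) := by
    intro z
    rw [add_comm, Function.iterate_add_apply]
  -- the degree at the time `n + μ`
  obtain ⟨D', hD'⟩ : ∃ D' : ℕ, D' = dg K ((gAct F N)^[n + μ] ![a, 1]) := ⟨_, rfl⟩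
  have hL2 := hLift.2 K N q F (by omega) hM
  have hDD' := hL2 1 μ (fun _ => (gAct F N)^[n] ![a, 1]) (fun _ => hxn n)
  rw [dgk_one, dgk_one, ← hit, ← hD, ← hD', pow_one] at hDD'
  obtain ⟨hDD1, hDD2⟩ := hDD'
  have hDD1' : (D' : ℝ) ≤ (D : ℝ) := by exact_mod_cast hDD1
  have hDD2' : (D : ℝ) ≤ (q : ℝ) ^ μ * (D' : ℝ) := by exact_mod_cast hDD2
  have hD0 : (0 : ℝ) < (D : ℝ) := by linarith
  have hlow : (D : ℝ) ^ (1 - δ) ≤ (D' : ℝ) := by
    have h1 : (D : ℝ) ≤ (D : ℝ) ^ δ * (D' : ℝ) :=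
      hDD2'.trans (mul_le_mul_of_nonneg_right hμ1 (Nat.cast_nonneg _))
    have h2 : (0 : ℝ) < (D : ℝ) ^ δ := Real.rpow_pos_of_pos hD0 _
    rw [Real.rpow_sub hD0, Real.rpow_one, div_le_iff₀ h2, mul_comm]
    exact h1
  have hbig : (B₀ : ℝ) < (D' : ℝ) := by
    refine lt_of_lt_of_le ?_ hlow
    have h1 : (D : ℝ) ^ (1 / 2 : ℝ) ≤ (D : ℝ) ^ (1 - δ) :=
      Real.rpow_le_rpow_of_exponent_le hDr0 (by linarith)
    refine lt_of_lt_of_le ?_ h1
    rw [← Real.sqrt_eq_rpow]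
    exact Real.lt_sqrt_of_sq_lt hn
  have hbig' : B₀ < D' := by exact_mod_cast hbig
  have hL1 := hLift.1 K N
  have hcard : Nat.card (MulAction.orbit (N ≃ₐ[K] N) (nz ((gAct F N)^[n + μ] ![a, 1]))) = D' := by
    have h1 := hL1 1 (fun _ => (gAct F N)^[n + μ] ![a, 1]) (fun _ => hxn (n + μ))
    rw [dgk_one, ← hD'] at h1
    rw [h1]
    exact (card_orb (fun (w : Pt N) (_ : Fin 1) => w) (fun a b h => congrFun h 0)
      (fun g a => rfl) _).symm
  -- the tuple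
  obtain ⟨E, hE1, hE2⟩ := hE N ![a, 1] hx ha (n + μ)
  obtain ⟨k, σ, hk, ⟨i₀, hi₀⟩, hne, hMc⟩ := grp_orb hGrp (nz ((gAct F N)^[n + μ] ![a, 1])) H hHn
    hHs R E hR
    (fun y hy => by
      obtain ⟨h1, h2, h3, h4⟩ := hE1 y (mem_orb.2 hy)
      exact ⟨h1, h2, fun y' hy' => (h3 y' hy').2, h4⟩)
    (by rw [hcard]; omega)
    (hH (n + μ) (by rw [← hD']; omega))
  rw [hcard] at hMc
  have hnz : ∀ i, nz ((gAct F N)^[n + μ] ![σ i a, 1]) =
      σ i • nz ((gAct F N)^[n + μ] ![a, 1]) := by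
    intro i
    rw [gal_vec, gal_act, nz_gal _ (hxn _)]
  have hbn : ∀ i m, (gAct F N)^[m] ![σ i a, 1] ≠ 0 := by
    intro i m
    rw [gal_vec, gal_act]
    exact gal_ne _ (hxn m)
  refine ⟨k, fun i => σ i a, by omega, by omega, ⟨i₀, by simp [hi₀]⟩, ?_, ?_, ?_⟩
  · intro i
    have h1 := Polynomial.aeval_algHom_apply (σ i : N →ₐ[K] N) a (minpoly K a)
    rw [minpoly.aeval, map_zero] at h1
    exact h1
  · intro _
    have h1 := hL1 k (fun i => (gAct F N)^[n + μ] ![σ i a, 1]) (fun i => hbn i _)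
    have h2 : (fun i => nz ((gAct F N)^[n + μ] ![σ i a, 1])) =
        fun i => σ i • nz ((gAct F N)^[n + μ] ![a, 1]) := funext hnz
    rw [h2] at h1
    rw [← h1] at hMc
    have h3 := (hL2 k μ (fun i => (gAct F N)^[n] ![σ i a, 1]) (fun i => hbn i _)).2
    have h4 : (fun i => (gAct F N)^[μ] ((gAct F N)^[n] ![σ i a, 1])) =
        fun i => (gAct F N)^[n + μ] ![σ i a, 1] := funext fun i => (hit _).symm
    rw [h4] at h3
    generalize dgk K (fun i => (gAct F N)^[n + μ] ![σ i a, 1]) = M' at hMc h3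
    generalize dgk K (fun i => (gAct F N)^[n] ![σ i a, 1]) = M at h3 ⊢
    have hk2 : 2 ≤ k := by omega
    have hD'0 : (0 : ℝ) < (D' : ℝ) := by linarith
    have h5 : (M' : ℝ) ≤ R * (D' : ℝ) ^ ((k : ℝ) - 1 / 2) := by
      have h6 : (0 : ℝ) ≤ R * (D' : ℝ) ^ ((k : ℝ) - 1 / 2) :=
        mul_nonneg (Nat.cast_nonneg _) (Real.rpow_nonneg hD'0.le _)
      rw [← pow_le_pow_iff_left₀ (Nat.cast_nonneg _) h6 two_ne_zero, mul_pow,
        ← Real.rpow_natCast ((D' : ℝ) ^ ((k : ℝ) - 1 / 2)) 2, ← Real.rpow_mul hD'0.le]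
      have h7 : ((k : ℝ) - 1 / 2) * ((2 : ℕ) : ℝ) = ((2 * k - 1 : ℕ) : ℝ) := by
        rw [Nat.cast_sub (by omega)]
        push_cast
        ring
      rw [h7, Real.rpow_natCast]
      exact_mod_cast hMc
    have h8 : (D' : ℝ) ^ ((k : ℝ) - 1 / 2) ≤ (D : ℝ) ^ ((k : ℝ) - 1 / 2) := by
      apply Real.rpow_le_rpow hD'0.le hDD1'
      have : (2 : ℝ) ≤ (k : ℝ) := by exact_mod_cast hk2
      linarith
    have h9 : (M : ℝ) ≤ R * (D : ℝ) ^ ((k : ℝ) - 1 / 2 + δ * k) := by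
      have h10 : (M : ℝ) ≤ ((q : ℝ) ^ μ) ^ k * (M' : ℝ) := by exact_mod_cast h3
      have h11 : ((q : ℝ) ^ μ) ^ k ≤ (D : ℝ) ^ (δ * k) := by
        rw [Real.rpow_mul hD0.le, Real.rpow_natCast]
        exact pow_le_pow_left₀ (by positivity) hμ1 k
      calc (M : ℝ) ≤ ((q : ℝ) ^ μ) ^ k * (M' : ℝ) := h10
        _ ≤ (D : ℝ) ^ (δ * k) * (R * (D : ℝ) ^ ((k : ℝ) - 1 / 2)) := by
            apply mul_le_mul h11 _ (Nat.cast_nonneg _) (Real.rpow_nonneg hD0.le _)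
            exact h5.trans (mul_le_mul_of_nonneg_left h8 (Nat.cast_nonneg _))
        _ = R * (D : ℝ) ^ ((k : ℝ) - 1 / 2 + δ * k) := by
            rw [Real.rpow_add hD0]
            ring
    have h12 : (M : ℝ) ^ (1 / (k : ℝ) + δ) ≤ (D : ℝ) ^ (1 - δ) := by
      apply num_step hk hδ0 hδ2 (R := (R : ℝ)) (by exact_mod_cast hR) _ (Nat.cast_nonneg _) h9
      have h13 : ((R : ℝ) ^ 10) ≤ (B₀ : ℝ) := by exact_mod_cast hB3
      have h14 : (R : ℝ) ^ 20 = ((R : ℝ) ^ 10) ^ 2 := by ring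
      rw [h14]
      exact (pow_le_pow_left₀ (by positivity) h13 2).trans hn.le
    exact (mul_le_mul_of_nonneg_left h12 (by positivity)).trans hthin
  · intro i i' hii m hm e G hG
    have h1 := hE2 (σ i) (σ i') (by
      rw [← gal_vec, ← gal_vec, hnz, hnz]
      exact hne i i' hii) (n + m) (by have := hμ2 m hm; omega) e G hG
    rw [← gal_vec, ← gal_vec] at h1
    exact h1

end Pool.DynLehmer.LW
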