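import Pool.Agent.Lib.MP_2194ec_nt.LW.Defs3
import Pool.Agent.Lib.MP_2194ec_nt.LW.Solv

set_option autoImplicit false
set_option linter.unusedSectionVars false

/-!
# The dynamical Lehmer bound and the subfields of `K(a)` (row P-FIN)
-/

namespace Pool.DynLehmer.LW
open MvPolynomial NumberField Filter Topology Pool.DynLehmer Pool.DynLehmer.SB Pool.DynLehmer.SP
  Pool.DynLehmer.GS Pool.DynLehmer.LP
open scoped Classical

namespace PfinAux

open SolvAux

section galois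

variable {K : Type} [Field K] {N : Type} [Field N] [Algebra K N]

theorem stab_nz (y : Fin 2 → N) (g : N ≃ₐ[K] N) :
    g • nz y = nz y ↔ g (y 0 / y 1) = y 0 / y 1 := by
  unfold nz
  split_ifs with h
  · rw [h, div_zero, map_zero]
    refine iff_of_true ?_ rfl
    apply Pt.ext'
    funext i
    change g ((![1, 0] : Fin 2 → N) i) = _
    fin_cases i
    · exact map_one g
    · exact map_zero g
  · constructor
    · intro h1
      exact congrFun (congrArg Pt.val h1) 0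
    · intro h1
      apply Pt.ext'
      funext i
      change g ((![y 0 / y 1, 1] : Fin 2 → N) i) = _
      fin_cases i
      · exact h1
      · exact map_one g

/-- the stabilizer of a point fixes its field -/
theorem stab_eq (y : Fin 2 → N) :
    MulAction.stabilizer (N ≃ₐ[K] N) (nz y) = (fld K y).fixingSubgroup := by
  ext g
  rw [IntermediateField.mem_fixingSubgroup_iff, MulAction.mem_stabilizer_iff, stab_nz]
  have h1 := IntermediateField.forall_mem_adjoin_smul_eq_self_iff (F := K)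
    (S := {y 0 / y 1}) g
  constructor
  · intro h
    exact h1.2 fun z hz => by
      rw [Set.mem_singleton_iff] at hz
      subst hz
      exact h
  · intro h
    exact h1.1 h _ (Set.mem_singleton _)

variable [FiniteDimensional K N] [IsGalois K N]

theorem relfin {M M' : IntermediateField K N} (h : M ≤ M') :
    IntermediateField.relfinrank M M' = M'.fixingSubgroup.relIndex M.fixingSubgroup := by
  have h1 := IntermediateField.relfinrank_mul_finrank_top h
  rw [← IsGalois.card_fixingSubgroup_eq_finrank, ← IsGalois.card_fixingSubgroup_eq_finrank] at h1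
  have h2 := Subgroup.relIndex_mul_index (IntermediateField.fixingSubgroup_le h)
  have h3 := Subgroup.card_mul_index M.fixingSubgroup
  have h4 := Subgroup.card_mul_index M'.fixingSubgroup
  rw [← h2, ← h3, ← mul_assoc] at h4
  have h5 : 0 < M.fixingSubgroup.index :=
    Nat.pos_of_ne_zero Subgroup.index_ne_zero_of_finite
  have h6 := Nat.eq_of_mul_eq_mul_right h5 h4
  rw [← h1, mul_comm] at h6
  exact (Nat.eq_of_mul_eq_mul_right Nat.card_pos h6).symm

theorem le_of_fix {M M' : IntermediateField K N} (h : M'.fixingSubgroup ≤ M.fixingSubgroup) :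
    M ≤ M' := by
  rw [← IsGalois.fixedField_fixingSubgroup M', IntermediateField.le_iff_le]
  exact h

theorem fix_iSup {k : ℕ} (L : Fin k → IntermediateField K N) :
    (⨆ i, L i).fixingSubgroup = ⨅ i, (L i).fixingSubgroup := by
  apply le_antisymm
  · exact le_iInf fun i => IntermediateField.fixingSubgroup_le (le_iSup L i)
  · rw [← IntermediateField.le_iff_le]
    refine iSup_le fun i => ?_
    rw [IntermediateField.le_iff_le]
    exact iInf_le _ i

theorem fix_map (M' : IntermediateField K N) (σ : N ≃ₐ[K] N) :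
    (M'.map (σ : N →ₐ[K] N)).fixingSubgroup =
      M'.fixingSubgroup.map (MulAut.conj σ).toMonoidHom := by
  ext g
  rw [IntermediateField.mem_fixingSubgroup_iff, Subgroup.mem_map]
  constructor
  · intro h
    refine ⟨σ⁻¹ * g * σ, ?_, ?_⟩
    · rw [IntermediateField.mem_fixingSubgroup_iff]
      intro z hz
      have h1 := h (σ z) ⟨z, hz, rfl⟩
      change σ.symm (g (σ z)) = z
      rw [h1, AlgEquiv.symm_apply_apply]
    · change σ * (σ⁻¹ * g * σ) * σ⁻¹ = g
      group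
  · rintro ⟨h, hh, rfl⟩ _ ⟨w, hw, rfl⟩
    rw [IntermediateField.mem_fixingSubgroup_iff] at hh
    change σ (h (σ.symm (σ w))) = σ w
    rw [AlgEquiv.symm_apply_apply, hh w hw]

theorem adj_of {M M' : IntermediateField K N} (h : AdjF M M') :
    Adj M'.fixingSubgroup M.fixingSubgroup := by
  obtain ⟨h1, h2⟩ := h
  refine ⟨lt_of_le_of_ne (IntermediateField.fixingSubgroup_le h1.le) fun h3 => ?_, ?_⟩
  · exact absurd (le_of_fix h3.ge) (not_le_of_gt h1)
  · intro J hJ1 hJ2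
    have h3 := IntermediateField.fixingSubgroup_fixedField J
    rw [← h3] at hJ1 hJ2
    rcases h2 (IntermediateField.fixedField J) (le_of_fix hJ2) (le_of_fix hJ1) with h4 | h4
    · right
      rw [← h3, h4]
    · left
      rw [← h3, h4]

theorem tup_of {M M' : IntermediateField K N} (hM : M ≤ M') {C : ℕ} (h : TupF M M' C) :
    Tup M'.fixingSubgroup M.fixingSubgroup C := by
  obtain ⟨k, σ, hk2, hk, h1, h2, h3⟩ := h
  refine ⟨k, σ, hk2, hk, ?_, ?_, ?_⟩
  · intro i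
    rw [IntermediateField.mem_fixingSubgroup_iff]
    exact h1 i
  · intro i j hij hmem
    obtain ⟨z, hz, hne⟩ := h2 i j hij
    rw [IntermediateField.mem_fixingSubgroup_iff] at hmem
    apply hne
    have h4 : (σ i).symm (σ j z) = z := hmem z hz
    rw [← h4, AlgEquiv.apply_symm_apply, h4]
  · rw [relfin hM, relfin (M' := ⨆ i, M'.map (σ i : N →ₐ[K] N)) ?_, fix_iSup] at h3
    · simp only [fix_map] at h3
      exact h3
    · refine le_trans ?_ (le_iSup (fun i => M'.map (σ i : N →ₐ[K] N)) (⟨0, by omega⟩ : Fin k))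
      intro z hz
      exact ⟨z, hM hz, h1 _ z hz⟩

theorem gal_of {M M' : IntermediateField K N} (hM : M ≤ M') {C : ℕ} (h : GalF M M' C) :
    ∃ A B : Subgroup (N ≃ₐ[K] N), B ≤ A ∧ A ≤ M.fixingSubgroup ∧
      (∀ h ∈ M.fixingSubgroup, ∀ a ∈ A, h * a * h⁻¹ ∈ A) ∧
      (∀ h ∈ M.fixingSubgroup, ∀ b ∈ B, h * b * h⁻¹ ∈ B) ∧ B ≤ M'.fixingSubgroup ∧
      ¬ A ≤ M'.fixingSubgroup ∧
      B.relIndex A ≤ (M'.fixingSubgroup.relIndex M.fixingSubgroup) ^ C := by
  obtain ⟨E₁, E₂, h1, h2, h3, h4, h5, h6⟩ := h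
  rw [relfin h2, relfin hM] at h6
  have key : ∀ E : IntermediateField K N, (∀ σ : N ≃ₐ[K] N, (∀ z ∈ M, σ z = z) →
      ∀ z ∈ E, σ z ∈ E) → ∀ h ∈ M.fixingSubgroup, ∀ a ∈ E.fixingSubgroup,
      h * a * h⁻¹ ∈ E.fixingSubgroup := by
    intro E hE h hh a ha
    rw [IntermediateField.mem_fixingSubgroup_iff] at ha ⊢
    intro z hz
    have h7 : h⁻¹ ∈ M.fixingSubgroup := inv_mem hh
    rw [IntermediateField.mem_fixingSubgroup_iff] at h7
    have h8 : h.symm z ∈ E := hE h⁻¹ h7 z hz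
    change h (a (h.symm z)) = z
    rw [ha _ h8, AlgEquiv.apply_symm_apply]
  exact ⟨E₁.fixingSubgroup, E₂.fixingSubgroup, IntermediateField.fixingSubgroup_le h2,
    IntermediateField.fixingSubgroup_le h1, key E₁ fun σ hσ => (h5 σ hσ).1,
    key E₂ fun σ hσ => (h5 σ hσ).2, IntermediateField.fixingSubgroup_le h3,
    fun h7 => h4 (le_of_fix h7), h6⟩

end galois

section grp

theorem orb_card {G P : Type} [Group G] [MulAction G P] (z : P) (H : Subgroup G) :
    Nat.card (MulAction.orbit H z) = (MulAction.stabilizer G z).relIndex H := by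
  have h1 : (MulAction.stabilizer G z).subgroupOf H = MulAction.stabilizer H z := rfl
  rw [Subgroup.relIndex, h1, MulAction.index_stabilizer]
  rfl

theorem pow_mono {a b k C C' : ℕ} (hk : 1 ≤ k) (hC : 1 ≤ C) (hCC : C ≤ C') (hb : 1 ≤ b)
    (h : a ^ C ≤ b ^ (k * C - 1)) : a ^ C' ≤ b ^ (k * C' - 1) := by
  have h1 : a ≤ b ^ k := by
    rw [← Nat.pow_le_pow_iff_left (n := C) (by omega), ← pow_mul]
    exact h.trans (Nat.pow_le_pow_right hb (Nat.sub_le _ _))
  obtain ⟨m, rfl⟩ : ∃ m, C' = C + m := ⟨C' - C, by omega⟩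
  have hkC : 1 ≤ k * C := Nat.mul_pos hk hC
  have h2 : k * (C + m) - 1 = (k * C - 1) + k * m := by
    rw [mul_add]
    omega
  rw [h2, pow_add, pow_add, pow_mul b k m]
  exact Nat.mul_le_mul h (Nat.pow_le_pow_left h1 m)

theorem tup_mono {G : Type} [Group G] [Finite G] {H' H : Subgroup G} {C C' : ℕ} (hC : 1 ≤ C)
    (hCC : C ≤ C') (h : Tup H' H C) : Tup H' H C' := by
  obtain ⟨k, σ, hk2, hk, h1, h2, h3⟩ := h
  have hne : H'.relIndex H ≠ 0 := by
    unfold Subgroup.relIndex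
    exact Subgroup.index_ne_zero_of_finite
  exact ⟨k, σ, hk2, hk.trans hCC, h1, h2,
    pow_mono (by omega) hC hCC (Nat.pos_of_ne_zero hne) h3⟩

/-- GRPP for the orbit of a point. -/
theorem grpp_orb (hGrpp : GrppStatement) (R C : ℕ) (hR : 1 ≤ R) (hC : 1 ≤ C) : ∃ X C' : ℕ,
    ∀ {G P : Type} [Group G] [Finite G] [MulAction G P] (z : P) (E : P → Finset P),
    (∀ y ∈ MulAction.orbit G z, (E y).card ≤ R ∧ y ∈ E y ∧ (∀ y' ∈ E y, y ∈ E y') ∧
      ∀ (g : G) (y' : P), y' ∈ E y → g • y' ∈ E (g • y)) →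
    X ≤ Nat.card (MulAction.orbit G z) → ∀ H : Subgroup G, MulAction.stabilizer G z ≤ H →
    R < Nat.card (MulAction.orbit H z) →
    ((Nat.card (MulAction.orbit H z)) ^ C ≤ (Nat.card (MulAction.orbit G z)) ^ (C - 1) ∨
      ∃ H' : Subgroup G, MulAction.stabilizer G z ≤ H' ∧ Adj H' H ∧
        Nat.card (MulAction.orbit H' z) ≤ C ∧ Tup H' H C) →
    ∃ (k : ℕ) (σ : Fin k → G), 2 ≤ k ∧ k ≤ C' ∧ (∃ i, σ i = 1) ∧
      (∀ i i', i ≠ i' → σ i' • z ∉ E (σ i • z)) ∧
      (Nat.card (MulAction.orbit G (fun i => σ i • z))) ^ C' ≤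
        (Nat.card (MulAction.orbit G z)) ^ (k * C' - 1) := by
  obtain ⟨X, C', hGrp⟩ := hGrpp R C hR hC
  refine ⟨X, C', ?_⟩
  intro G P _ _ _ z E hE hcard H hH horb halt
  have hfin : Finite (MulAction.orbit G z) := Set.finite_range (fun g : G => g • z)
  have hft : Fintype (MulAction.orbit G z) := Fintype.ofFinite _
  set z₀ : MulAction.orbit G z := ⟨z, MulAction.mem_orbit_self z⟩ with hz₀
  have hinj : Function.Injective (Subtype.val : MulAction.orbit G z → P) :=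
    Subtype.val_injective
  have hpre : MulAction.IsPretransitive G (MulAction.orbit G z) := inferInstance
  have hcd : Nat.card (MulAction.orbit G z) = Fintype.card (MulAction.orbit G z) :=
    Nat.card_eq_fintype_card
  have hoc : ∀ H : Subgroup G, Nat.card (MulAction.orbit H z₀) =
      Nat.card (MulAction.orbit H z) := fun H =>
    (card_orb (G := H) (Subtype.val : MulAction.orbit G z → P) hinj (fun g a => rfl) z₀).symm
  have hst : MulAction.stabilizer G z₀ = MulAction.stabilizer G z := by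
    ext g
    rw [MulAction.mem_stabilizer_iff, MulAction.mem_stabilizer_iff]
    exact ⟨fun h => congrArg Subtype.val h, fun h => Subtype.ext h⟩
  obtain ⟨k, y, hk2, hk, ⟨i₀, hi₀⟩, hy, hc⟩ := hGrp G (MulAction.orbit G z) hpre
    (fun y => Finset.univ.filter fun y' => (y' : P) ∈ E (y : P))
    (by
      intro x
      refine le_trans ?_ (hE x x.2).1
      rw [← Finset.card_image_of_injective _ hinj]
      apply Finset.card_le_card
      intro w hw
      obtain ⟨w', hw', rfl⟩ := Finset.mem_image.1 hw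
      exact (Finset.mem_filter.1 hw').2)
    (fun x => Finset.mem_filter.2 ⟨Finset.mem_univ _, (hE x x.2).2.1⟩)
    (fun x y h => Finset.mem_filter.2 ⟨Finset.mem_univ _,
      (hE x x.2).2.2.1 _ (Finset.mem_filter.1 h).2⟩)
    (fun g x y h => Finset.mem_filter.2 ⟨Finset.mem_univ _,
      (hE x x.2).2.2.2 g _ (Finset.mem_filter.1 h).2⟩)
    (by rw [← hcd]; exact hcard) z₀ H (by rw [hst]; exact hH) (by rw [hoc]; exact horb)
    (by
      rw [hoc, ← hcd]
      refine halt.imp id ?_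
      rintro ⟨H', h1, h2, h3, h4⟩
      exact ⟨H', by rw [hst]; exact h1, h2, by rw [hoc]; exact h3, h4⟩)
  have hex : ∀ i, ∃ g : G, g • z = (y i : P) := fun i => (y i).2
  choose τ hτ using hex
  have hσ : ∀ i, (if y i = z₀ then (1 : G) else τ i) • z = (y i : P) := by
    intro i
    split_ifs with h
    · rw [one_smul, h]
    · exact hτ i
  refine ⟨k, fun i => if y i = z₀ then 1 else τ i, hk2, hk, ⟨i₀, if_pos hi₀⟩, ?_, ?_⟩
  · intro i i' hne hmem
    apply hy i i' hne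
    refine Finset.mem_filter.2 ⟨Finset.mem_univ _, ?_⟩
    have h1 := hσ i
    have h2 := hσ i'
    simp only at hmem
    rw [h1, h2] at hmem
    exact hmem
  · have h1 : (fun i => (if y i = z₀ then (1 : G) else τ i) • z) = fun i => (y i : P) :=
      funext hσ
    have h2 := card_orb (G := G) (fun (w : Fin k → MulAction.orbit G z) (i : Fin k) => (w i : P))
      (fun a b h => funext fun i => hinj (congrFun h i)) (fun g a => rfl) y
    change (Nat.card (MulAction.orbit G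
      (fun i => (if y i = z₀ then (1 : G) else τ i) • z))) ^ C' ≤ _
    rw [h1, h2, Nat.card_eq_fintype_card (α := MulAction.orbit G z)]
    exact hc

/-- All the alternatives give a tuple. -/
theorem tuple (hGrpp : GrppStatement) (hAff : AffStatement) (hSol : SolStatement)
    (hChn : ChnpStatement) (R C : ℕ) (hR : 1 ≤ R) (hC : 1 ≤ C) : ∃ X C' : ℕ,
    ∀ {G P : Type} [Group G] [Finite G] [MulAction G P] (z : P) (E : P → Finset P),
    (∀ y ∈ MulAction.orbit G z, (E y).card ≤ R ∧ y ∈ E y ∧ (∀ y' ∈ E y, y ∈ E y') ∧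
      ∀ (g : G) (y' : P), y' ∈ E y → g • y' ∈ E (g • y)) →
    X ≤ Nat.card (MulAction.orbit G z) → ∀ H : Subgroup G, MulAction.stabilizer G z ≤ H →
    R < (MulAction.stabilizer G z).relIndex H →
    (((MulAction.stabilizer G z).relIndex H) ^ C ≤ (Nat.card (MulAction.orbit G z)) ^ (C - 1) ∨
      Group.IsSolvable H ∨
      ∃ H' : Subgroup G, MulAction.stabilizer G z ≤ H' ∧ Adj H' H ∧
        (MulAction.stabilizer G z).relIndex H' ≤ C ∧ (Tup H' H C ∨
        ∃ A B : Subgroup G, B ≤ A ∧ A ≤ H ∧ (∀ h ∈ H, ∀ a ∈ A, h * a * h⁻¹ ∈ A) ∧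
          (∀ h ∈ H, ∀ b ∈ B, h * b * h⁻¹ ∈ B) ∧ B ≤ H' ∧ ¬ A ≤ H' ∧
          B.relIndex A ≤ (H'.relIndex H) ^ C)) →
    ∃ (k : ℕ) (σ : Fin k → G), 2 ≤ k ∧ k ≤ C' ∧ (∃ i, σ i = 1) ∧
      (∀ i i', i ≠ i' → σ i' • z ∉ E (σ i • z)) ∧
      (Nat.card (MulAction.orbit G (fun i => σ i • z))) ^ C' ≤
        (Nat.card (MulAction.orbit G z)) ^ (k * C' - 1) := by
  obtain ⟨C₁, hC₁⟩ := hAff C
  obtain ⟨C₂, hC₂⟩ := hAff 1
  obtain ⟨C₃, h31, h32, h33, h34, h35⟩ : ∃ C₃ : ℕ, C ≤ C₃ ∧ C₁ ≤ C₃ ∧ C₂ ≤ C₃ ∧ R ≤ C₃ ∧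
      2 ≤ C₃ := ⟨C + C₁ + C₂ + R + 2, by omega, by omega, by omega, by omega, by omega⟩
  obtain ⟨X, C', hmain⟩ := grpp_orb hGrpp R C₃ hR (by omega)
  refine ⟨X + (C₃ * C₃) ^ C₃, C', ?_⟩
  intro G P _ _ _ z E hE hcard H hH horb halt
  set S := MulAction.stabilizer G z with hS
  set D := Nat.card (MulAction.orbit G z) with hD
  have hX : X ≤ D := by omega
  have hsmall : ∀ J : Subgroup G, S.relIndex J ≤ C₃ * C₃ →
      (Nat.card (MulAction.orbit J z)) ^ C₃ ≤ D ^ (C₃ - 1) := by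
    intro J hJ
    rw [orb_card]
    have h1 : (C₃ * C₃) ^ C₃ ≤ D := by omega
    have h2 : 1 ≤ D := le_trans (Nat.one_le_pow _ _ (by positivity)) h1
    calc (S.relIndex J) ^ C₃ ≤ (C₃ * C₃) ^ C₃ := Nat.pow_le_pow_left hJ _
      _ ≤ D := h1
      _ = D ^ 1 := (pow_one D).symm
      _ ≤ D ^ (C₃ - 1) := Nat.pow_le_pow_right h2 (by omega)
  have hne : ∀ H J : Subgroup G, H.relIndex J ≠ 0 := fun H J => by
    unfold Subgroup.relIndex
    exact Subgroup.index_ne_zero_of_finite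
  -- an adjacent pair with a small index
  have hpair : ∀ H' J : Subgroup G, S ≤ H' → Adj H' J → R < S.relIndex J →
      S.relIndex H' ≤ C₃ → (H'.relIndex J ≤ C₃ ∨ Tup H' J C₃) →
      ∃ (k : ℕ) (σ : Fin k → G), 2 ≤ k ∧ k ≤ C' ∧ (∃ i, σ i = 1) ∧
      (∀ i i', i ≠ i' → σ i' • z ∉ E (σ i • z)) ∧
      (Nat.card (MulAction.orbit G (fun i => σ i • z))) ^ C' ≤ D ^ (k * C' - 1) := by
    intro H' J h1 h2 h3 h4 h5
    apply hmain z E hE hX J (h1.trans h2.1.le) (by rw [orb_card]; exact h3)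
    rcases h5 with h5 | h5
    · left
      apply hsmall
      rw [← Subgroup.relIndex_mul_relIndex S H' J h1 h2.1.le]
      exact Nat.mul_le_mul h4 h5
    · right
      exact ⟨H', h1, h2, by rw [orb_card]; exact h4, h5⟩
  rcases halt with h | h | h
  · have h1 : 1 ≤ D := by
      have : 0 < (C₃ * C₃) ^ C₃ := by positivity
      omega
    apply hmain z E hE hX H hH (by rw [orb_card]; exact horb)
    left
    rw [orb_card]
    have h2 := pow_mono (a := S.relIndex H) (b := D) (k := 1) (C' := C₃) le_rfl hC h31 h1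
      (by rwa [one_mul])
    rwa [one_mul] at h2
  · obtain ⟨H', H₁, h1, h2, h3, h4, h5⟩ := hChn G P z H R hR hH (by rw [orb_card]; exact horb)
    have h6 : Group.IsSolvable H₁ := by
      have := h
      exact Group.isSolvable_of_isSolvable_injective (Subgroup.inclusion_injective h3)
    obtain ⟨A, B, hA⟩ := hSol G H' H₁ h2 h6
    rw [orb_card] at h4 h5
    apply hpair H' H₁ h1 h2 h5 (h4.trans h34)
    obtain ⟨a1, a2, a3, a4, a5, a6, a7⟩ := hA
    rcases le_or_gt (H'.relIndex H₁) C₂ with h7 | h7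
    · exact Or.inl (h7.trans h33)
    · have h8 := hC₂ G H' H₁ A B h2 a1 a2 a3 a4 a5 a6 (by rw [pow_one]; exact a7) h7
      right
      obtain ⟨k, _, hk2, hk, _⟩ := id h8
      exact tup_mono (by omega) h33 h8
  · obtain ⟨H', h1, h2, h3, h4⟩ := h
    apply hpair H' H h1 h2 horb (h3.trans h31)
    rcases h4 with h4 | ⟨A, B, a1, a2, a3, a4, a5, a6, a7⟩
    · exact Or.inr (tup_mono hC h31 h4)
    · rcases le_or_gt (H'.relIndex H) C₁ with h7 | h7
      · exact Or.inl (h7.trans h32)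
      · have h8 := hC₁ G H' H A B h2 a1 a2 a3 a4 a5 a6 a7 h7
        right
        obtain ⟨k, _, hk2, hk, _⟩ := id h8
        exact tup_mono (by omega) h32 h8

end grp

section num

theorem num_step {k C : ℕ} (hk2 : 2 ≤ k) (hk : k ≤ C) {δ D M : ℝ} (hδ0 : 0 < δ)
    (hδ : δ * (3 * (C : ℝ) ^ 3) ≤ 1) (hD1 : 1 ≤ D) (hM0 : 0 ≤ M)
    (hM : M ≤ D ^ ((k : ℝ) - 1 / C + δ * k)) :
    M ^ (1 / (k : ℝ) + δ) ≤ D ^ (1 - δ) := by
  have hD0 : 0 < D := by linarith
  have hk0 : (0 : ℝ) ≤ 1 / (k : ℝ) + δ := by positivity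
  calc M ^ (1 / (k : ℝ) + δ) ≤ (D ^ ((k : ℝ) - 1 / C + δ * k)) ^ (1 / (k : ℝ) + δ) :=
        Real.rpow_le_rpow hM0 hM hk0
    _ = D ^ (((k : ℝ) - 1 / C + δ * k) * (1 / (k : ℝ) + δ)) := (Real.rpow_mul hD0.le _ _).symm
    _ ≤ D ^ (1 - δ) := by
        apply Real.rpow_le_rpow_of_exponent_le hD1
        have hk2' : (2 : ℝ) ≤ (k : ℝ) := by exact_mod_cast hk2
        have hkk : (k : ℝ) ≤ (C : ℝ) := by exact_mod_cast hk
        have hkp : (0 : ℝ) < (k : ℝ) := by linarith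
        have hCp : (0 : ℝ) < (C : ℝ) := by linarith
        have e : ((k : ℝ) - 1 / C + δ * k) * (1 / (k : ℝ) + δ) =
            (((k : ℝ) - 1 / C + δ * k) * (1 + δ * k)) / k := by
          field_simp
        rw [e, div_le_iff₀ hkp]
        have h5 : 3 * (δ * (k : ℝ) ^ 2) ≤ 1 / C := by
          rw [le_div_iff₀ hCp]
          have h6 : (k : ℝ) ^ 2 ≤ (C : ℝ) ^ 2 := pow_le_pow_left₀ hkp.le hkk 2
          have h7 : 3 * (δ * (k : ℝ) ^ 2) * C ≤ 3 * (δ * (C : ℝ) ^ 2) * C := by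
            refine mul_le_mul_of_nonneg_right ?_ hCp.le
            refine mul_le_mul_of_nonneg_left ?_ (by norm_num)
            exact mul_le_mul_of_nonneg_left h6 hδ0.le
          have h8 : 3 * (δ * (C : ℝ) ^ 2) * C = δ * (3 * (C : ℝ) ^ 3) := by ring
          linarith
        have h9 : 0 ≤ δ * (k : ℝ) := by positivity
        have h10 : 2 * (δ * (k : ℝ)) ≤ δ * (k : ℝ) ^ 2 := by nlinarith
        have h11 : δ ≤ 1 := by
          have h12 : (1 : ℝ) ≤ 3 * (C : ℝ) ^ 3 := by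
            have : (1 : ℝ) ≤ (C : ℝ) ^ 3 := one_le_pow₀ (by linarith)
            linarith
          nlinarith
        have h13 : (δ * (k : ℝ)) ^ 2 ≤ δ * (k : ℝ) ^ 2 := by
          have : (δ * (k : ℝ)) ^ 2 = δ * (δ * (k : ℝ) ^ 2) := by ring
          rw [this]
          have h14 : 0 ≤ δ * (k : ℝ) ^ 2 := by positivity
          nlinarith
        have h15 : 0 ≤ 1 / (C : ℝ) * (δ * k) := by positivity
        nlinarith

end num

end PfinAux

open SolvAux PfinAux

/-- Row P-FIN. -/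
theorem pfin (hY : YStatement) (hGrpp : GrppStatement) (hAff : AffStatement)
    (hSol : SolStatement) (hChn : ChnpStatement) (hExc : ExcStatement)
    (hLift : LiftStatement) : PStatement := by
  intro K _ _ p s v F hF hCr
  obtain ⟨R, hR, hR1, hE⟩ := hExc K p s v F hF hCr
  refine ⟨R, hR, hR1, ?_⟩
  intro C hC
  obtain ⟨X, C', htup⟩ := tuple hGrpp hAff hSol hChn R C hR hC
  obtain ⟨B₀, hB1, hB2, hB3, hB4⟩ : ∃ B₀ : ℕ, X ≤ B₀ ∧ 2 * (C' + 1) ^ 2 ≤ B₀ ∧ 2 * C ≤ B₀ ∧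
      10 ≤ B₀ := ⟨X + 2 * (C' + 1) ^ 2 + 2 * C + 10, by omega, by omega, by omega, by omega⟩
  have hB0 : (10 : ℝ) ≤ (B₀ : ℝ) := by exact_mod_cast hB4
  have hCr : (1 : ℝ) ≤ (C : ℝ) := by exact_mod_cast hC
  obtain ⟨δ, hδ⟩ : ∃ δ : ℝ, δ = 1 / (B₀ : ℝ) ^ 2 := ⟨_, rfl⟩
  have hδ0 : 0 < δ := by rw [hδ]; positivity
  have hδ1 : 1 / δ = (B₀ : ℝ) ^ 2 := by rw [hδ, one_div_one_div]
  have hδ2 : δ ≤ 1 / 100 := by
    rw [hδ]
    apply one_div_le_one_div_of_le (by norm_num)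
    nlinarith
  have hδ3 : δ * (3 * (C' : ℝ) ^ 3) ≤ 1 := by
    rw [hδ, one_div, inv_mul_le_iff₀ (by positivity), mul_one]
    have h1 : 2 * ((C' : ℝ) + 1) ^ 2 ≤ (B₀ : ℝ) := by exact_mod_cast hB2
    have h2 : (0 : ℝ) ≤ (C' : ℝ) := Nat.cast_nonneg _
    have h3 : (2 * ((C' : ℝ) + 1) ^ 2) ^ 2 ≤ (B₀ : ℝ) ^ 2 :=
      pow_le_pow_left₀ (by positivity) h1 2
    have h4 : 3 * (C' : ℝ) ^ 3 ≤ (2 * ((C' : ℝ) + 1) ^ 2) ^ 2 := by
      have h5 : (2 * ((C' : ℝ) + 1) ^ 2) ^ 2 = 4 * (C' : ℝ) ^ 4 + 16 * (C' : ℝ) ^ 3 +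
          24 * (C' : ℝ) ^ 2 + 16 * C' + 4 := by ring
      rw [h5]
      have h6 : 0 ≤ (C' : ℝ) ^ 4 := by positivity
      have h7 : 0 ≤ (C' : ℝ) ^ 3 := by positivity
      have h8 : 0 ≤ (C' : ℝ) ^ 2 := by positivity
      linarith
    linarith
  have hδ4 : 2 * δ ≤ 1 / C := by
    have h1 : 2 * (C : ℝ) ≤ B₀ := by exact_mod_cast hB3
    rw [hδ, mul_one_div, div_le_div_iff₀ (by positivity) (by positivity)]
    nlinarith
  obtain ⟨c, hc, hmain⟩ := hY K p s v F hF ‹CritW F› C' δ hδ0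
  refine ⟨c, hc, ?_⟩
  intro N _ _ _ _ a ha hH
  have hfd : FiniteDimensional K N := Module.Finite.of_restrictScalars_finite ℚ K N
  apply hmain N a ha
  intro n hn hthin
  have hp2 : 2 ≤ p := hF.prime.two_le
  have hq2 : 2 ≤ p ^ s := hp2.trans (Nat.le_self_pow (by have := hF.pos; omega) p)
  have hM : Mor (p ^ s) F := GS.mor K p s v F hF
  generalize hq : p ^ s = q at hq2 hM hthin hH ⊢
  have hx : (![a, 1] : Fin 2 → N) ≠ 0 := by
    intro h0
    exact one_ne_zero (congrFun h0 1 : (1 : N) = 0)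
  have hxn : ∀ m, (gAct F N)^[m] ![a, 1] ≠ 0 := fun m => Bas.iter_ne hM hx m
  obtain ⟨D, hD⟩ : ∃ D : ℕ, D = dg K ((gAct F N)^[n] ![a, 1]) := ⟨_, rfl⟩
  rw [← hD] at hn hthin ⊢
  rw [hδ1] at hn
  have hDr0 : (1 : ℝ) ≤ (D : ℝ) := by nlinarith
  have hq2' : (2 : ℝ) ≤ (q : ℝ) := by exact_mod_cast hq2
  -- the time
  obtain ⟨μ, hμ1, hμ2⟩ : ∃ μ : ℕ, (q : ℝ) ^ μ ≤ (D : ℝ) ^ δ ∧
      ∀ m : ℕ, (q : ℝ) ^ m ≤ (D : ℝ) ^ δ → m ≤ μ := by
    refine ⟨Nat.findGreatest (fun m => (q : ℝ) ^ m ≤ (D : ℝ) ^ δ) D, ?_, ?_⟩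
    · have h0 : (q : ℝ) ^ 0 ≤ (D : ℝ) ^ δ := by
        rw [pow_zero]
        exact Real.one_le_rpow hDr0 hδ0.le
      exact Nat.findGreatest_spec (P := fun m => (q : ℝ) ^ m ≤ (D : ℝ) ^ δ) (Nat.zero_le D) h0
    · intro m hm
      apply Nat.le_findGreatest _ hm
      have h1 : (D : ℝ) ^ δ ≤ (D : ℝ) := by
        conv_rhs => rw [← Real.rpow_one (D : ℝ)]
        exact Real.rpow_le_rpow_of_exponent_le hDr0 (by linarith)
      have h2 : (2 : ℝ) ^ m ≤ (q : ℝ) ^ m := pow_le_pow_left₀ (by norm_num) hq2' m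
      have h3 : (m : ℝ) < (2 : ℝ) ^ m := by exact_mod_cast Nat.lt_two_pow_self
      have h4 : (m : ℝ) < (D : ℝ) := by linarith
      exact_mod_cast h4.le
  have hit : ∀ z : Fin 2 → N, (gAct F N)^[n + μ] z = (gAct F N)^[μ] ((gAct F N)^[n] z) := by
    intro z
    rw [add_comm, Function.iterate_add_apply]
  -- the degree at the time `n + μ`
  obtain ⟨D', hD'⟩ : ∃ D' : ℕ, D' = dg K ((gAct F N)^[n + μ] ![a, 1]) := ⟨_, rfl⟩
  have hL2 := hLift.2 K N q F (by omega) hM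
  have hDD' := hL2 1 μ (fun _ => (gAct F N)^[n] ![a, 1]) (fun _ => hxn n)
  rw [dgk_one, dgk_one, ← hit, ← hD, ← hD', pow_one] at hDD'
  obtain ⟨hDD1, hDD2⟩ := hDD'
  have hDD1' : (D' : ℝ) ≤ (D : ℝ) := by exact_mod_cast hDD1
  have hDD2' : (D : ℝ) ≤ (q : ℝ) ^ μ * (D' : ℝ) := by exact_mod_cast hDD2
  have hD0 : (0 : ℝ) < (D : ℝ) := by linarith
  have hlow : (D : ℝ) ^ (1 - δ) ≤ (D' : ℝ) := by
    have h1 : (D : ℝ) ≤ (D : ℝ) ^ δ * (D' : ℝ) :=
      hDD2'.trans (mul_le_mul_of_nonneg_right hμ1 (Nat.cast_nonneg _))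
    have h2 : (0 : ℝ) < (D : ℝ) ^ δ := Real.rpow_pos_of_pos hD0 _
    rw [Real.rpow_sub hD0, Real.rpow_one, div_le_iff₀ h2, mul_comm]
    exact h1
  have hbig : (B₀ : ℝ) < (D' : ℝ) := by
    refine lt_of_lt_of_le ?_ hlow
    have h1 : (D : ℝ) ^ (1 / 2 : ℝ) ≤ (D : ℝ) ^ (1 - δ) :=
      Real.rpow_le_rpow_of_exponent_le hDr0 (by linarith)
    refine lt_of_lt_of_le ?_ h1
    rw [← Real.sqrt_eq_rpow]
    exact Real.lt_sqrt_of_sq_lt hn
  have hbig' : B₀ < D' := by exact_mod_cast hbig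
  have hD'0 : (0 : ℝ) < (D' : ℝ) := by linarith
  have hD'1 : (1 : ℝ) ≤ (D' : ℝ) := by linarith
  have hL1 := hLift.1 K N
  have hcard : Nat.card (MulAction.orbit (N ≃ₐ[K] N) (nz ((gAct F N)^[n + μ] ![a, 1]))) = D' := by
    have h1 := hL1 1 (fun _ => (gAct F N)^[n + μ] ![a, 1]) (fun _ => hxn (n + μ))
    rw [dgk_one, ← hD'] at h1
    rw [h1]
    exact (card_orb (fun (w : Pt N) (_ : Fin 1) => w) (fun a b h => congrFun h 0)
      (fun g a => rfl) _).symm
  -- the subfield at the time `n + μ`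
  obtain ⟨M₀, hM1, hM2, hM3⟩ := hH (n + μ) (by rw [← hD']; omega)
    (by
      rw [← hD']
      have hkey : (q : ℝ) ^ (n + μ) * (D' : ℝ) ^ (1 - 1 / (C : ℝ)) ≤ (dg K ![a, 1] : ℝ) := by
        refine le_trans ?_ hthin
        rw [pow_add, mul_assoc]
        refine mul_le_mul_of_nonneg_left ?_ (by positivity)
        have hC1 : 1 / (C : ℝ) ≤ 1 := by
          rw [div_le_one (by linarith)]
          exact hCr
        calc (q : ℝ) ^ μ * (D' : ℝ) ^ (1 - 1 / (C : ℝ)) ≤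
              (D : ℝ) ^ δ * (D : ℝ) ^ (1 - 1 / (C : ℝ)) := by
              refine mul_le_mul hμ1 ?_ (Real.rpow_nonneg hD'0.le _) (Real.rpow_nonneg hD0.le _)
              exact Real.rpow_le_rpow hD'0.le hDD1' (by linarith)
          _ = (D : ℝ) ^ (δ + (1 - 1 / (C : ℝ))) := (Real.rpow_add hD0 _ _).symm
          _ ≤ (D : ℝ) ^ (1 - δ) := Real.rpow_le_rpow_of_exponent_le hDr0 (by linarith)
      have h1 := pow_le_pow_left₀ (by positivity) hkey C
      rw [mul_pow, ← Real.rpow_natCast ((D' : ℝ) ^ (1 - 1 / (C : ℝ))) C,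
        ← Real.rpow_mul hD'0.le] at h1
      have h2 : (1 - 1 / (C : ℝ)) * (C : ℝ) = ((C - 1 : ℕ) : ℝ) := by
        rw [Nat.cast_sub hC]
        have : (C : ℝ) ≠ 0 := by linarith
        field_simp
        push_cast
        ring
      rw [h2, Real.rpow_natCast] at h1
      exact_mod_cast h1)
  rw [← hD'] at hM3
  -- the tuple
  obtain ⟨E, hE1, hE2⟩ := hE N ![a, 1] hx ha (n + μ)
  have hst := stab_eq (K := K) ((gAct F N)^[n + μ] ![a, 1])
  obtain ⟨k, σ, hk2, hk, ⟨i₀, hi₀⟩, hne, hMc⟩ := htup (nz ((gAct F N)^[n + μ] ![a, 1])) E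
    (fun y hy => by
      obtain ⟨h1, h2, h3, h4⟩ := hE1 y (mem_orb.2 hy)
      exact ⟨h1, h2, fun y' hy' => (h3 y' hy').2, h4⟩)
    (by rw [hcard]; omega) M₀.fixingSubgroup
    (by rw [hst]; exact IntermediateField.fixingSubgroup_le hM1)
    (by rw [hst, ← relfin hM1]; exact hM2)
    (by
      rw [hst, ← relfin hM1, hcard]
      refine hM3.imp id (Or.imp id ?_)
      rintro ⟨M₁, h1, h2, h3, h4⟩
      refine ⟨M₁.fixingSubgroup, IntermediateField.fixingSubgroup_le h2, adj_of h1,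
        by rw [← relfin h2]; exact h3, ?_⟩
      exact h4.imp (tup_of h1.1.le) (gal_of h1.1.le))
  rw [hcard] at hMc
  have hnz : ∀ i, nz ((gAct F N)^[n + μ] ![σ i a, 1]) =
      σ i • nz ((gAct F N)^[n + μ] ![a, 1]) := by
    intro i
    rw [gal_vec, gal_act, nz_gal _ (hxn _)]
  have hbn : ∀ i m, (gAct F N)^[m] ![σ i a, 1] ≠ 0 := by
    intro i m
    rw [gal_vec, gal_act]
    exact gal_ne _ (hxn m)
  refine ⟨k, fun i => σ i a, hk2, hk, ⟨i₀, by simp [hi₀]⟩, ?_, ?_, ?_⟩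
  · intro i
    have h1 := Polynomial.aeval_algHom_apply (σ i : N →ₐ[K] N) a (minpoly K a)
    rw [minpoly.aeval, map_zero] at h1
    exact h1
  · intro _
    have h1 := hL1 k (fun i => (gAct F N)^[n + μ] ![σ i a, 1]) (fun i => hbn i _)
    have h2 : (fun i => nz ((gAct F N)^[n + μ] ![σ i a, 1])) =
        fun i => σ i • nz ((gAct F N)^[n + μ] ![a, 1]) := funext hnz
    rw [h2] at h1
    rw [← h1] at hMc
    have h3 := (hL2 k μ (fun i => (gAct F N)^[n] ![σ i a, 1]) (fun i => hbn i _)).2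
    have h4 : (fun i => (gAct F N)^[μ] ((gAct F N)^[n] ![σ i a, 1])) =
        fun i => (gAct F N)^[n + μ] ![σ i a, 1] := funext fun i => (hit _).symm
    rw [h4] at h3
    generalize dgk K (fun i => (gAct F N)^[n + μ] ![σ i a, 1]) = M' at hMc h3
    generalize dgk K (fun i => (gAct F N)^[n] ![σ i a, 1]) = M at h3 ⊢
    have hC'0 : (0 : ℝ) < (C' : ℝ) := by
      have : 0 < C' := by omega
      exact_mod_cast this
    have hk2' : (2 : ℝ) ≤ (k : ℝ) := by exact_mod_cast hk2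
    have hC'1 : 1 / (C' : ℝ) ≤ 1 := by
      rw [div_le_one hC'0]
      have : 1 ≤ C' := by omega
      exact_mod_cast this
    have h5 : (M' : ℝ) ≤ (D' : ℝ) ^ ((k : ℝ) - 1 / C') := by
      rw [← pow_le_pow_iff_left₀ (Nat.cast_nonneg _) (Real.rpow_nonneg hD'0.le _)
        (n := C') (by omega), ← Real.rpow_natCast ((D' : ℝ) ^ ((k : ℝ) - 1 / C')) C',
        ← Real.rpow_mul hD'0.le]
      have h7 : ((k : ℝ) - 1 / C') * (C' : ℝ) = ((k * C' - 1 : ℕ) : ℝ) := by
        rw [Nat.cast_sub (Nat.mul_pos (by omega) (by omega))]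
        push_cast
        field_simp
      rw [h7, Real.rpow_natCast]
      exact_mod_cast hMc
    have h8 : (D' : ℝ) ^ ((k : ℝ) - 1 / C') ≤ (D : ℝ) ^ ((k : ℝ) - 1 / C') :=
      Real.rpow_le_rpow hD'0.le hDD1' (by linarith)
    have h9 : (M : ℝ) ≤ (D : ℝ) ^ ((k : ℝ) - 1 / C' + δ * k) := by
      have h10 : (M : ℝ) ≤ ((q : ℝ) ^ μ) ^ k * (M' : ℝ) := by exact_mod_cast h3
      have h11 : ((q : ℝ) ^ μ) ^ k ≤ (D : ℝ) ^ (δ * k) := by
        rw [Real.rpow_mul hD0.le, Real.rpow_natCast]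
        exact pow_le_pow_left₀ (by positivity) hμ1 k
      calc (M : ℝ) ≤ ((q : ℝ) ^ μ) ^ k * (M' : ℝ) := h10
        _ ≤ (D : ℝ) ^ (δ * k) * (D : ℝ) ^ ((k : ℝ) - 1 / C') := by
            apply mul_le_mul h11 _ (Nat.cast_nonneg _) (Real.rpow_nonneg hD0.le _)
            exact h5.trans h8
        _ = (D : ℝ) ^ ((k : ℝ) - 1 / C' + δ * k) := by
            rw [← Real.rpow_add hD0]
            congr 1
            ring
    have h12 : (M : ℝ) ^ (1 / (k : ℝ) + δ) ≤ (D : ℝ) ^ (1 - δ) :=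
      PfinAux.num_step hk2 hk hδ0 hδ3 hDr0 (Nat.cast_nonneg _) h9
    exact (mul_le_mul_of_nonneg_left h12 (by positivity)).trans hthin
  · intro i i' hii m hm e G hG
    have h1 := hE2 (σ i) (σ i') (by
      rw [← gal_vec, ← gal_vec, hnz, hnz]
      exact hne i i' hii) (n + m) (by have := hμ2 m hm; omega) e G hG
    rw [← gal_vec, ← gal_vec] at h1
    exact h1

end Pool.DynLehmer.LW
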