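import Pool.Agent.Lib.MP_2194ec_nt.LW.DefsVQ
import Pool.Agent.Lib.MP_2194ec_nt.LW.Gfin
import Pool.Agent.Lib.MP_2194ec_nt.LW.Pfin

set_option autoImplicit false
set_option linter.unusedSectionVars false

/-!
# Tuples of unrelated points and simple sections

The statement on independent vectors, applied to the permutation representation on the classes of
an invariant relation.
-/

namespace Pool.DynLehmer.LW
open scoped Classical

namespace GrpE

section perm

variable {G Ω : Type} [Group G] [MulAction G Ω]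

/-- the permutation representation on functions -/
noncomputable def prm (G Ω : Type) [Group G] [MulAction G Ω] : Representation ℚ G (Ω → ℚ) where
  toFun g :=
    { toFun := fun φ x => φ (g⁻¹ • x)
      map_add' := fun _ _ => rfl
      map_smul' := fun _ _ => rfl }
  map_one' := by
    ext φ x
    simp
  map_mul' g h := by
    ext φ x
    simp [mul_smul]

/-- the basis vectors -/
noncomputable def dlt (x : Ω) : Ω → ℚ := Pi.single x 1

theorem dlt_inj : Function.Injective (dlt : Ω → Ω → ℚ) := by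
  intro x y h
  by_contra hne
  have h1 : dlt x x = (dlt y x : ℚ) := congrFun h x
  unfold dlt at h1
  rw [Pi.single_eq_same, Pi.single_eq_of_ne hne] at h1
  exact one_ne_zero h1

theorem dlt_smul (g : G) (x : Ω) : dlt (g • x) = prm G Ω g (dlt x) := by
  funext z
  change dlt (g • x) z = dlt x (g⁻¹ • z)
  unfold dlt
  by_cases h : z = g • x
  · subst h
    rw [Pi.single_eq_same, inv_smul_smul, Pi.single_eq_same]
  · rw [Pi.single_eq_of_ne h, Pi.single_eq_of_ne]
    intro h1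
    apply h
    rw [← h1, smul_inv_smul]

end perm

section idx

variable {G P : Type} [Group G] [Finite G] [MulAction G P]

theorem orb_card (z : P) : Nat.card (MulAction.orbit G z) = (MulAction.stabilizer G z).index := by
  rw [MulAction.index_stabilizer]
  rfl

theorem orb_card_sub (H : Subgroup G) (z : P) :
    Nat.card (MulAction.orbit H z) = (MulAction.stabilizer G z).relIndex H := by
  rw [Subgroup.relIndex]
  have h : (MulAction.stabilizer G z).subgroupOf H = MulAction.stabilizer H z := by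
    ext g
    rfl
  rw [h]
  exact orb_card (G := H) z

theorem rel_ne (S H : Subgroup G) : S.relIndex H ≠ 0 := by
  unfold Subgroup.relIndex
  exact Subgroup.index_ne_zero_of_finite

theorem rel_le_mul {S S' : Subgroup G} (h : S ≤ S') (B : Subgroup G) :
    S.relIndex B ≤ S.relIndex S' * S'.relIndex B := by
  have h1 := Subgroup.relIndex_mul_relIndex (S ⊓ B) (S' ⊓ B) B (inf_le_inf_right B h) inf_le_right
  rw [Subgroup.inf_relIndex_right, Subgroup.inf_relIndex_right] at h1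
  rw [← h1]
  apply Nat.mul_le_mul_right
  have h2 : (S ⊓ B).relIndex (S' ⊓ B) = S.relIndex (S' ⊓ B) := by
    have h3 : S ⊓ B ⊓ (S' ⊓ B) = S ⊓ (S' ⊓ B) := by
      apply le_antisymm
      · exact le_inf (inf_le_left.trans inf_le_left) inf_le_right
      · exact le_inf (le_inf inf_le_left (inf_le_right.trans inf_le_right)) inf_le_right
    rw [← Subgroup.inf_relIndex_right (S ⊓ B), h3, Subgroup.inf_relIndex_right]
  rw [h2]
  exact Subgroup.relIndex_le_of_le_right inf_le_left (rel_ne S S')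

end idx

/-- The orbit of a tuple, where the points of `T z` have at most `R` elements. -/
theorem tuple_card {G P : Type} [Group G] [Finite G] [MulAction G P] {z : P} {S' : Subgroup G}
    (hS : MulAction.stabilizer G z ≤ S') {R : ℕ}
    (hR : (MulAction.stabilizer G z).relIndex S' ≤ R) {k : ℕ} (σ : Fin k → G) :
    Nat.card (MulAction.orbit G (fun i => σ i • z)) ≤
      R ^ k * Nat.card (MulAction.orbit G (fun i => (σ i : G ⧸ S'))) := by
  rw [orb_card, orb_card]
  set T := MulAction.stabilizer G (fun i => σ i • z) with hT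
  set T' := MulAction.stabilizer G (fun i => (σ i : G ⧸ S')) with hT'
  have hmT : ∀ g, g ∈ T ↔ ∀ i, (σ i)⁻¹ * g * σ i ∈ MulAction.stabilizer G z := by
    intro g
    rw [hT, MulAction.mem_stabilizer_iff]
    constructor
    · intro h i
      have h1 : g • σ i • z = σ i • z := congrFun h i
      rw [MulAction.mem_stabilizer_iff, mul_smul, mul_smul, h1, inv_smul_smul]
    · intro h
      funext i
      have h1 := h i
      rw [MulAction.mem_stabilizer_iff, mul_smul, mul_smul, inv_smul_eq_iff] at h1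
      exact h1
  have hmT' : ∀ g, g ∈ T' ↔ ∀ i, (σ i)⁻¹ * g * σ i ∈ S' := by
    intro g
    rw [hT', MulAction.mem_stabilizer_iff]
    constructor
    · intro h i
      have h1 : g • (σ i : G ⧸ S') = (σ i : G ⧸ S') := congrFun h i
      rw [MulAction.Quotient.smul_coe, smul_eq_mul, eq_comm, QuotientGroup.eq] at h1
      rwa [← mul_assoc] at h1
    · intro h
      funext i
      change g • (σ i : G ⧸ S') = (σ i : G ⧸ S')
      rw [MulAction.Quotient.smul_coe, smul_eq_mul, eq_comm, QuotientGroup.eq, ← mul_assoc]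
      exact h i
  have hTT : T ≤ T' := fun g hg => (hmT' g).2 fun i => hS ((hmT g).1 hg i)
  have h1 := Subgroup.relIndex_mul_index hTT
  rw [← h1]
  apply Nat.mul_le_mul_right
  -- the index of `T` in `T'`
  rw [Subgroup.relIndex, Subgroup.index]
  let φ : T' ⧸ T.subgroupOf T' → (Fin k → S' ⧸ (MulAction.stabilizer G z).subgroupOf S') :=
    Quotient.lift (fun g i => QuotientGroup.mk
      (⟨(σ i)⁻¹ * g * σ i, (hmT' g).1 g.2 i⟩ : S')) (by
        intro g g' h
        have h2 : g⁻¹ * g' ∈ T.subgroupOf T' := QuotientGroup.leftRel_apply.1 h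
        rw [Subgroup.mem_subgroupOf] at h2
        funext i
        rw [QuotientGroup.eq, Subgroup.mem_subgroupOf]
        have h3 := (hmT _).1 h2 i
        have h4 : (((⟨(σ i)⁻¹ * g * σ i, (hmT' g).1 g.2 i⟩ : S')⁻¹ *
            ⟨(σ i)⁻¹ * g' * σ i, (hmT' g').1 g'.2 i⟩ : S') : G) =
            (σ i)⁻¹ * ((g⁻¹ * g' : T') : G) * σ i := by
          push_cast
          group
        rw [h4]
        exact h3)
  have hφ : Function.Injective φ := by
    intro a b
    induction a using QuotientGroup.induction_on with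
    | H g =>
      induction b using QuotientGroup.induction_on with
      | H g' =>
        intro h
        rw [QuotientGroup.eq, Subgroup.mem_subgroupOf, hmT]
        intro i
        have h2 : (QuotientGroup.mk (⟨(σ i)⁻¹ * g * σ i, (hmT' g).1 g.2 i⟩ : S') :
            S' ⧸ (MulAction.stabilizer G z).subgroupOf S') =
            QuotientGroup.mk (⟨(σ i)⁻¹ * g' * σ i, (hmT' g').1 g'.2 i⟩ : S') := congrFun h i
        rw [QuotientGroup.eq, Subgroup.mem_subgroupOf] at h2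
        have h4 : (((⟨(σ i)⁻¹ * g * σ i, (hmT' g).1 g.2 i⟩ : S')⁻¹ *
            ⟨(σ i)⁻¹ * g' * σ i, (hmT' g').1 g'.2 i⟩ : S') : G) =
            (σ i)⁻¹ * ((g⁻¹ * g' : T') : G) * σ i := by
          push_cast
          group
        rw [h4] at h2
        exact h2
  have h5 := Nat.card_le_card_of_injective φ hφ
  rw [Nat.card_pi, Finset.prod_const, Finset.card_univ, Fintype.card_fin] at h5
  exact h5.trans (Nat.pow_le_pow_left hR k)

/-- If the relation is not transitive there is a pair. -/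
theorem pair_card {G P : Type} [Group G] [Finite G] [MulAction G P] {z : P} {R : ℕ}
    (E : P → Finset P)
    (hE : ∀ y ∈ MulAction.orbit G z, (E y).card ≤ R ∧ y ∈ E y ∧ (∀ y' ∈ E y, y ∈ E y') ∧
      ∀ (g : G) (y' : P), y' ∈ E y → g • y' ∈ E (g • y))
    {σ τ : G} (h1 : σ • z ∈ E z) (h2 : τ • z ∈ E (σ • z)) :
    Nat.card (MulAction.orbit G (fun i : Fin 2 => (![1, τ] : Fin 2 → G) i • z)) ≤
      R ^ 2 * Nat.card (MulAction.orbit G z) := by
  have hz : z ∈ MulAction.orbit G z := MulAction.mem_orbit_self z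
  have hfin : Finite (MulAction.orbit G z) := Set.finite_range (fun g : G => g • z)
  let hft : Fintype (MulAction.orbit G z) := Fintype.ofFinite _
  -- the points at distance two
  let N : P → Finset P := fun u => ((E u).filter fun w => w ∈ MulAction.orbit G z).biUnion E
  have hN : ∀ u ∈ MulAction.orbit G z, (N u).card ≤ R ^ 2 := by
    intro u hu
    calc (N u).card ≤ ∑ w ∈ (E u).filter (fun w => w ∈ MulAction.orbit G z), (E w).card :=
          Finset.card_biUnion_le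
      _ ≤ ∑ w ∈ (E u).filter (fun w => w ∈ MulAction.orbit G z), R :=
          Finset.sum_le_sum fun w hw => (hE w (Finset.mem_filter.1 hw).2).1
      _ = ((E u).filter (fun w => w ∈ MulAction.orbit G z)).card * R := by
          rw [Finset.sum_const, smul_eq_mul]
      _ ≤ R * R := Nat.mul_le_mul_right _ ((Finset.card_filter_le _ _).trans (hE u hu).1)
      _ = R ^ 2 := (sq R).symm
  let U : Finset ((u : MulAction.orbit G z) × P) :=
    Finset.univ.sigma fun u => N (u : P)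
  have hU : U.card ≤ R ^ 2 * Nat.card (MulAction.orbit G z) := by
    rw [Finset.card_sigma, Nat.card_eq_fintype_card]
    calc ∑ u : MulAction.orbit G z, (N (u : P)).card ≤ ∑ _u : MulAction.orbit G z, R ^ 2 :=
          Finset.sum_le_sum fun u _ => hN u u.2
      _ = R ^ 2 * Fintype.card (MulAction.orbit G z) := by
          rw [Finset.sum_const, smul_eq_mul, Finset.card_univ, mul_comm]
  refine le_trans ?_ hU
  rw [← Nat.card_eq_finsetCard]
  have hmem : ∀ w ∈ MulAction.orbit G (fun i : Fin 2 => (![1, τ] : Fin 2 → G) i • z),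
      w 0 ∈ MulAction.orbit G z ∧ w 1 ∈ N (w 0) := by
    rintro w ⟨g, rfl⟩
    have h0 : (g • fun i : Fin 2 => (![1, τ] : Fin 2 → G) i • z) 0 = g • z := by
      change g • ((![1, τ] : Fin 2 → G) 0 • z) = g • z
      rw [Matrix.cons_val_zero, one_smul]
    have h1' : (g • fun i : Fin 2 => (![1, τ] : Fin 2 → G) i • z) 1 = g • τ • z := rfl
    have h5 : g • z ∈ MulAction.orbit G z := ⟨g, rfl⟩
    simp only at h0 h1' ⊢
    rw [h0, h1']
    refine ⟨h5, Finset.mem_biUnion.2 ⟨g • σ • z, Finset.mem_filter.2 ⟨?_, ?_⟩, ?_⟩⟩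
    · exact (hE z hz).2.2.2 g _ h1
    · exact ⟨g * σ, mul_smul _ _ _⟩
    · exact (hE (σ • z) ⟨σ, rfl⟩).2.2.2 g _ h2
  refine Nat.card_le_card_of_injective
    (fun w => (⟨⟨⟨w.1 0, (hmem w w.2).1⟩, w.1 1⟩,
      Finset.mem_sigma.2 ⟨Finset.mem_univ _, (hmem w w.2).2⟩⟩ : U)) ?_
  rintro ⟨w, hw⟩ ⟨w', hw'⟩ h
  have h6 : w 0 = w' 0 ∧ w 1 = w' 1 := by
    have h7 := Subtype.ext_iff.1 h
    simp only [Sigma.mk.injEq, Subtype.mk.injEq, heq_eq_eq] at h7
    exact h7
  apply Subtype.ext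
  funext i
  fin_cases i
  · exact h6.1
  · exact h6.2

/-- The stabilizer of the class of `z`. -/
def clsS {G P : Type} [Group G] [MulAction G P] (z : P) (E : P → Finset P)
    (hE : ∀ y ∈ MulAction.orbit G z, y ∈ E y ∧ (∀ y' ∈ E y, y ∈ E y') ∧
      ∀ (g : G) (y' : P), y' ∈ E y → g • y' ∈ E (g • y))
    (htr : ∀ σ τ : G, σ • z ∈ E z → τ • z ∈ E (σ • z) → τ • z ∈ E z) : Subgroup G where
  carrier := {g | g • z ∈ E z}
  one_mem' := by
    rw [Set.mem_setOf_eq, one_smul]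
    exact (hE z (MulAction.mem_orbit_self z)).1
  mul_mem' := by
    intro g h hg hh
    have h1 := (hE z (MulAction.mem_orbit_self z)).2.2 g _ hh
    rw [← mul_smul] at h1
    exact htr g (g * h) hg h1
  inv_mem' := by
    intro g hg
    have h1 := (hE z (MulAction.mem_orbit_self z)).2.2 g⁻¹ _ hg
    rw [inv_smul_smul] at h1
    exact (hE (g⁻¹ • z) ⟨g⁻¹, rfl⟩).2.1 _ h1

theorem num_lift {R k₀ a c k D D' M M' : ℕ} (ha : 1 ≤ a) (hR : 1 ≤ R) (hk2 : 2 ≤ k) (hk : k ≤ k₀)
    (hD : (R ^ (k₀ * a) * c) ^ 2 ≤ D) (hDD : D' ≤ D) (h1 : M ≤ R ^ k * M')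
    (h2 : M' ^ a ≤ c * D' ^ (k * a - 1)) : M ^ (2 * a) ≤ D ^ (k * (2 * a) - 1) := by
  have hka : 2 ≤ k * a := by
    calc 2 = 2 * 1 := rfl
      _ ≤ k * a := Nat.mul_le_mul hk2 ha
  have h3 : M ^ a ≤ R ^ (k₀ * a) * c * D ^ (k * a - 1) := by
    calc M ^ a ≤ (R ^ k * M') ^ a := Nat.pow_le_pow_left h1 a
      _ = R ^ (k * a) * M' ^ a := by rw [mul_pow, ← pow_mul]
      _ ≤ R ^ (k₀ * a) * (c * D' ^ (k * a - 1)) :=
          Nat.mul_le_mul (Nat.pow_le_pow_right hR (Nat.mul_le_mul_right a hk)) h2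
      _ ≤ R ^ (k₀ * a) * (c * D ^ (k * a - 1)) :=
          Nat.mul_le_mul_left _ (Nat.mul_le_mul_left _ (Nat.pow_le_pow_left hDD _))
      _ = _ := by ring
  have h4 : k * (2 * a) - 1 = 1 + 2 * (k * a - 1) := by
    have : k * (2 * a) = 2 * (k * a) := by ring
    omega
  calc M ^ (2 * a) = (M ^ a) ^ 2 := by rw [← pow_mul, mul_comm]
    _ ≤ (R ^ (k₀ * a) * c * D ^ (k * a - 1)) ^ 2 := Nat.pow_le_pow_left h3 2
    _ = (R ^ (k₀ * a) * c) ^ 2 * D ^ (2 * (k * a - 1)) := by rw [mul_pow, ← pow_mul, mul_comm 2]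
    _ ≤ D * D ^ (2 * (k * a - 1)) := Nat.mul_le_mul_right _ hD
    _ = D ^ (k * (2 * a) - 1) := by rw [h4, pow_add, pow_one]

/-- Tuples of classes can be lifted. -/
theorem lift_tuple {R k₀ a c : ℕ} (ha : 1 ≤ a) (hR : 1 ≤ R) {G P : Type} [Group G] [Finite G]
    [MulAction G P] {z : P} (E : P → Finset P)
    (hE : ∀ y ∈ MulAction.orbit G z, (E y).card ≤ R ∧ y ∈ E y ∧ (∀ y' ∈ E y, y ∈ E y') ∧
      ∀ (g : G) (y' : P), y' ∈ E y → g • y' ∈ E (g • y))
    {S' : Subgroup G} (hS' : ∀ g, g ∈ S' ↔ g • z ∈ E z)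
    (hSS : MulAction.stabilizer G z ≤ S') (hRS : (MulAction.stabilizer G z).relIndex S' ≤ R)
    (hX : (R ^ (k₀ * a) * c) ^ 2 ≤ Nat.card (MulAction.orbit G z))
    {k : ℕ} (hk2 : 2 ≤ k) (hk : k ≤ k₀) (y : Fin k → G ⧸ S') (hy : Function.Injective y)
    (hM : (Nat.card (MulAction.orbit G y)) ^ a ≤ c * S'.index ^ (k * a - 1)) :
    ∃ σ : Fin k → G, (∃ i, σ i = 1) ∧ (∀ i i', i ≠ i' → σ i' • z ∉ E (σ i • z)) ∧
      (Nat.card (MulAction.orbit G (fun i => σ i • z))) ^ (2 * a) ≤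
        (Nat.card (MulAction.orbit G z)) ^ (k * (2 * a) - 1) := by
  have hk0 : 0 < k := by omega
  have hex : ∀ i, ∃ g : G, (g : G ⧸ S') = y i := fun i => QuotientGroup.mk_surjective (y i)
  choose τ hτ using hex
  set i₀ : Fin k := ⟨0, hk0⟩ with hi₀
  have hσ : (fun i => (((τ i₀)⁻¹ * τ i : G) : G ⧸ S')) = (τ i₀)⁻¹ • y := by
    funext i
    rw [Pi.smul_apply, ← hτ i, MulAction.Quotient.smul_coe, smul_eq_mul]
  refine ⟨fun i => (τ i₀)⁻¹ * τ i, ⟨i₀, inv_mul_cancel _⟩, ?_, ?_⟩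
  · intro i i' hne hmem
    apply hne
    apply hy
    rw [← hτ i, ← hτ i', QuotientGroup.eq, hS']
    have h1 := (hE (((τ i₀)⁻¹ * τ i) • z) ⟨_, rfl⟩).2.2.2 ((τ i₀)⁻¹ * τ i)⁻¹ _ hmem
    rw [inv_smul_smul, ← mul_smul] at h1
    have h2 : ((τ i₀)⁻¹ * τ i)⁻¹ * ((τ i₀)⁻¹ * τ i') = (τ i)⁻¹ * τ i' := by group
    rwa [h2] at h1
  · have h1 := tuple_card hSS hRS (fun i => (τ i₀)⁻¹ * τ i)
    rw [hσ, MulAction.orbit_smul] at h1
    refine num_lift ha hR hk2 hk hX ?_ h1 hM
    rw [orb_card]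
    exact Nat.le_of_dvd (Nat.pos_of_ne_zero Subgroup.index_ne_zero_of_finite)
      (Subgroup.index_dvd_of_le hSS)

/-- a tuple of unrelated points with a small orbit -/
def Tp {G P : Type} [Group G] [MulAction G P] (z : P) (E : P → Finset P) (C : ℕ) : Prop :=
  ∃ (k : ℕ) (σ : Fin k → G), 2 ≤ k ∧ k ≤ C ∧ (∃ i, σ i = 1) ∧
    (∀ i i', i ≠ i' → σ i' • z ∉ E (σ i • z)) ∧
    (Nat.card (MulAction.orbit G (fun i => σ i • z))) ^ C ≤
      (Nat.card (MulAction.orbit G z)) ^ (k * C - 1)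

theorem Tp.mono {G P : Type} [Group G] [Finite G] [MulAction G P] {z : P} {E : P → Finset P}
    {C C' : ℕ} (h : Tp (G := G) z E C) (hC : C ≤ C') : Tp (G := G) z E C' := by
  obtain ⟨k, σ, hk2, hk, h1, h2, h3⟩ := h
  have hfin : Finite (MulAction.orbit G z) := Set.finite_range (fun g : G => g • z)
  have hne : Nonempty (MulAction.orbit G z) := ⟨⟨z, MulAction.mem_orbit_self z⟩⟩
  exact ⟨k, σ, hk2, hk.trans hC, h1, h2,
    PfinAux.pow_mono (by omega) (by omega) hC Nat.card_pos h3⟩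

theorem Tp.of_ge {G P : Type} [Group G] [Finite G] [MulAction G P] {z : P} {E : P → Finset P}
    {C a k₀ : ℕ} (ha : 1 ≤ a) (h2a : a ≤ C) (hk₀ : k₀ ≤ C) {k : ℕ} {σ : Fin k → G} (hk2 : 2 ≤ k)
    (hk : k ≤ k₀) (h1 : ∃ i, σ i = 1) (h2 : ∀ i i', i ≠ i' → σ i' • z ∉ E (σ i • z))
    (h3 : (Nat.card (MulAction.orbit G (fun i => σ i • z))) ^ a ≤
      (Nat.card (MulAction.orbit G z)) ^ (k * a - 1)) : Tp (G := G) z E C := by
  have hfin : Finite (MulAction.orbit G z) := Set.finite_range (fun g : G => g • z)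
  have hne : Nonempty (MulAction.orbit G z) := ⟨⟨z, MulAction.mem_orbit_self z⟩⟩
  exact ⟨k, σ, hk2, hk.trans hk₀, h1, h2,
    PfinAux.pow_mono (by omega) ha h2a Nat.card_pos h3⟩

/-- The dichotomy for independent vectors. -/
def BB (Z : ∀ (G : Type) [Group G], Subgroup G → Prop) (R₁ k₀ a c : ℕ) : Prop :=
  ∀ (G Ω V : Type) [Group G] [Finite G]
    [Fintype Ω] [MulAction G Ω] [AddCommGroup V] [Module ℚ V] (ρ : Representation ℚ G V)
    (f : Ω → V), (∀ (g : G) (x : Ω), f (g • x) = ρ g (f x)) → Function.Injective f →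
    MulAction.IsPretransitive G Ω → ∀ x : Ω, R₁ < Fintype.card Ω →
    (∃ (k : ℕ) (y : Fin k → Ω), 2 ≤ k ∧ k ≤ k₀ ∧ LinearIndependent ℚ (fun i => f (y i)) ∧
      (Nat.card (MulAction.orbit G y)) ^ a ≤ c * (Fintype.card Ω) ^ (k * a - 1)) ∨
    Z G (MulAction.stabilizer G x)

/-- The dichotomy for classes. -/
theorem bb_cls {Z : ∀ (G : Type) [Group G], Subgroup G → Prop} {R₁ k₀ a c : ℕ} (ha : 1 ≤ a)
    (hB : BB Z R₁ k₀ a c) {R : ℕ} (hR : 1 ≤ R) {G P : Type} [Group G] [Finite G]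
    [MulAction G P] {z : P} (E : P → Finset P)
    (hE : ∀ y ∈ MulAction.orbit G z, (E y).card ≤ R ∧ y ∈ E y ∧ (∀ y' ∈ E y, y ∈ E y') ∧
      ∀ (g : G) (y' : P), y' ∈ E y → g • y' ∈ E (g • y))
    {S' : Subgroup G} (hS' : ∀ g, g ∈ S' ↔ g • z ∈ E z)
    (hSS : MulAction.stabilizer G z ≤ S') (hRS : (MulAction.stabilizer G z).relIndex S' ≤ R)
    (hX : (R ^ (k₀ * a) * c) ^ 2 ≤ Nat.card (MulAction.orbit G z)) (hX' : R₁ < S'.index) :
    Tp (G := G) z E (2 * a + k₀) ∨ Z G S' := by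
  let _ : Fintype (G ⧸ S') := Fintype.ofFinite _
  have hcard : Fintype.card (G ⧸ S') = S'.index := by
    rw [Subgroup.index, Nat.card_eq_fintype_card]
  have h := hB G (G ⧸ S') ((G ⧸ S') → ℚ) (prm G (G ⧸ S')) dlt dlt_smul dlt_inj inferInstance
    ((1 : G) : G ⧸ S') (by rw [hcard]; exact hX')
  rw [MulAction.stabilizer_quotient] at h
  rcases h with ⟨k, y, hk2, hk, h1, h2⟩ | h
  · left
    have hy : Function.Injective y := by
      intro i j hij
      apply h1.injective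
      simp only [hij]
    rw [hcard] at h2
    obtain ⟨σ, h3, h4, h5⟩ := lift_tuple ha hR E hE hS' hSS hRS hX hk2 hk y hy h2
    exact Tp.of_ge (by omega) (by omega) (by omega) hk2 hk h3 h4 h5
  · exact Or.inr h

/-- Small sections with large orbits. -/
theorem bw_cls {A s R₂ B c : ℕ} (hs : 1 ≤ s)
    (hW : ∀ (G Ω V : Type) [Group G] [Finite G]
    [Fintype Ω] [MulAction G Ω] [AddCommGroup V] [Module ℚ V] (ρ : Representation ℚ G V)
    (f : Ω → V), (∀ (g : G) (x : Ω), f (g • x) = ρ g (f x)) → Function.Injective f →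
    MulAction.IsPretransitive G Ω → ∀ (x : Ω) (P P₀ W : Subgroup G), P₀ ≤ P →
    W ≤ MulAction.stabilizer G x →
    (∀ g ∈ W, ∀ h ∈ P, g * h * g⁻¹ ∈ P) → (∀ g ∈ W, ∀ h ∈ P₀, g * h * g⁻¹ ∈ P₀) →
    (∀ g ∈ P, ∀ h ∈ P₀, g * h * g⁻¹ ∈ P₀) →
    Nat.card (MulAction.orbit P₀ x) ≤ B → P₀.relIndex P ≤ (Fintype.card Ω) ^ A →
    W.relIndex (MulAction.stabilizer G x) ≤ (Fintype.card Ω) ^ A →
    R₂ < Nat.card (MulAction.orbit P x) →
    ∃ y : Fin (2 ^ s) → Ω, (∃ i, y i = x) ∧ LinearIndependent ℚ (fun i => f (y i)) ∧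
      (Nat.card (MulAction.orbit G y)) ^ 2 ≤ c * (Fintype.card Ω) ^ (2 ^ s))
    {R : ℕ} (hR : 1 ≤ R) {G P : Type} [Group G] [Finite G]
    [MulAction G P] {z : P} (E : P → Finset P)
    (hE : ∀ y ∈ MulAction.orbit G z, (E y).card ≤ R ∧ y ∈ E y ∧ (∀ y' ∈ E y, y ∈ E y') ∧
      ∀ (g : G) (y' : P), y' ∈ E y → g • y' ∈ E (g • y))
    {S' : Subgroup G} (hS' : ∀ g, g ∈ S' ↔ g • z ∈ E z)
    (hSS : MulAction.stabilizer G z ≤ S') (hRS : (MulAction.stabilizer G z).relIndex S' ≤ R)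
    (hX : (R ^ (2 ^ s * 2) * c) ^ 2 ≤ Nat.card (MulAction.orbit G z))
    {P₁ P₀ W : Subgroup G} (hP : P₀ ≤ P₁) (hWS : W ≤ MulAction.stabilizer G z)
    (h1 : ∀ g ∈ W, ∀ h ∈ P₁, g * h * g⁻¹ ∈ P₁) (h2 : ∀ g ∈ W, ∀ h ∈ P₀, g * h * g⁻¹ ∈ P₀)
    (h3 : ∀ g ∈ P₁, ∀ h ∈ P₀, g * h * g⁻¹ ∈ P₀) (h4 : S'.relIndex P₀ ≤ B)
    (h5 : P₀.relIndex P₁ ≤ S'.index ^ A) (h6 : W.relIndex S' ≤ S'.index ^ A)
    (h7 : R₂ < S'.relIndex P₁) : Tp (G := G) z E (4 + 2 ^ s) := by
  let _ : Fintype (G ⧸ S') := Fintype.ofFinite _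
  have hcard : Fintype.card (G ⧸ S') = S'.index := by
    rw [Subgroup.index, Nat.card_eq_fintype_card]
  have hst := MulAction.stabilizer_quotient S'
  have hk2 : 2 ≤ 2 ^ s := by
    calc 2 = 2 ^ 1 := rfl
      _ ≤ 2 ^ s := Nat.pow_le_pow_right (by norm_num) hs
  obtain ⟨y, -, h8, h9⟩ := hW G (G ⧸ S') ((G ⧸ S') → ℚ) (prm G (G ⧸ S')) dlt dlt_smul dlt_inj
    inferInstance ((1 : G) : G ⧸ S') P₁ P₀ W hP (by rw [hst]; exact hWS.trans hSS) h1 h2 h3
    (by rw [orb_card_sub, hst]; exact h4) (by rw [hcard]; exact h5)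
    (by rw [hcard, hst]; exact h6) (by rw [orb_card_sub, hst]; exact h7)
  have hy : Function.Injective y := by
    intro i j hij
    apply h8.injective
    simp only [hij]
  rw [hcard] at h9
  have hpos : 1 ≤ S'.index := Nat.pos_of_ne_zero Subgroup.index_ne_zero_of_finite
  obtain ⟨σ, h10, h11, h12⟩ := lift_tuple (k₀ := 2 ^ s) (a := 2) (c := c) (by norm_num) hR E hE hS'
    hSS hRS hX hk2 le_rfl y hy
    (h9.trans (Nat.mul_le_mul_left _ (Nat.pow_le_pow_right hpos (by omega))))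
  exact Tp.of_ge (k₀ := 2 ^ s) (a := 2 * 2) (by omega) (by omega) (by omega) hk2 le_rfl h10 h11 h12

theorem num_pow {R A D D' : ℕ} (hD : D ≤ R * D') (hR : R ≤ D') : D ^ A ≤ D' ^ (2 * A) := by
  calc D ^ A ≤ (D' * D') ^ A := Nat.pow_le_pow_left (hD.trans (Nat.mul_le_mul_right _ hR)) A
    _ = D' ^ (2 * A) := by rw [← sq, ← pow_mul]

theorem num_lt {R A D D' n : ℕ} (hA : 1 ≤ A) (hD : D ≤ R * D') (hR : R ^ (2 * A - 2) ≤ D')
    (h : D' ^ (2 * A - 1) < n ^ (2 * A)) : D ^ (A - 1) < n ^ A := by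
  have h1 : (D ^ (A - 1)) ^ 2 < (n ^ A) ^ 2 := by
    rw [← pow_mul, ← pow_mul, mul_comm A 2]
    have h2 : (A - 1) * 2 = 2 * A - 2 := by omega
    rw [h2]
    calc D ^ (2 * A - 2) ≤ (R * D') ^ (2 * A - 2) := Nat.pow_le_pow_left hD _
      _ = R ^ (2 * A - 2) * D' ^ (2 * A - 2) := mul_pow _ _ _
      _ ≤ D' * D' ^ (2 * A - 2) := Nat.mul_le_mul_right _ hR
      _ = D' ^ (2 * A - 1) := by
        rw [← pow_succ']
        congr 1
        omega
      _ < n ^ (2 * A) := h
  exact lt_of_pow_lt_pow_left₀ 2 (Nat.zero_le _) h1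

/-- The dichotomy for unrelated points. -/
theorem core (hW : GrpwStatement) (A : ℕ) (hA : 1 ≤ A) : ∃ R₂ : ℕ, ∀ R : ℕ, 1 ≤ R →
    ∀ (Z : ∀ (G : Type) [Group G], Subgroup G → Prop) (R₁ k₀ a c : ℕ), 1 ≤ a →
    BB Z R₁ k₀ a c → ∀ R' : ℕ, R * R₂ ≤ R' → ∀ T : ℕ, ∃ C X : ℕ,
    ∀ {G P : Type} [Group G] [Finite G] [MulAction G P] (z : P),
      (∀ S' : Subgroup G, MulAction.stabilizer G z ≤ S' →
        (MulAction.stabilizer G z).relIndex S' ≤ R → T ≤ S'.index → Z G S' →
        ¬ Smo (MulAction.stabilizer G z) A R') → TupE (G := G) z R C X := by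
  obtain ⟨s, R₂, hs, hW⟩ := hW (2 * A)
  refine ⟨R₂, ?_⟩
  intro R hR Z R₁ k₀ a c ha hB R' hR' T
  obtain ⟨c₂, hW⟩ := hW R'
  obtain ⟨T', hT'⟩ : ∃ T' : ℕ, T' = T + R₁ + 1 + R ^ 2 := ⟨_, rfl⟩
  obtain ⟨X₁, hX₁⟩ : ∃ X₁ : ℕ, X₁ = (R ^ (k₀ * a) * c) ^ 2 := ⟨_, rfl⟩
  obtain ⟨X₂, hX₂⟩ : ∃ X₂ : ℕ, X₂ = (R ^ (2 ^ s * 2) * c₂) ^ 2 := ⟨_, rfl⟩
  refine ⟨2 * a + k₀ + (4 + 2 ^ s), X₁ + X₂ + R * T' + R ^ 4, ?_⟩
  intro G P _ _ _ z hZ E hE hX
  have hk2 : 1 ≤ 2 ^ s := Nat.one_le_two_pow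
  have hz : z ∈ MulAction.orbit G z := MulAction.mem_orbit_self z
  have hgoal : Tp (G := G) z E (2 * a + k₀ + (4 + 2 ^ s)) := by
    by_cases htr : ∀ σ τ : G, σ • z ∈ E z → τ • z ∈ E (σ • z) → τ • z ∈ E z
    · set S' := clsS z E (fun y hy => (hE y hy).2) htr with hS'def
      have hS' : ∀ g, g ∈ S' ↔ g • z ∈ E z := fun g => Iff.rfl
      have hSS : MulAction.stabilizer G z ≤ S' := by
        intro g hg
        rw [hS', MulAction.mem_stabilizer_iff.1 hg]
        exact (hE z hz).2.1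
      have hRS : (MulAction.stabilizer G z).relIndex S' ≤ R := by
        rw [← orb_card_sub]
        refine le_trans ?_ (hE z hz).1
        rw [← Nat.card_eq_finsetCard]
        refine Nat.card_le_card_of_injective
          (fun w : MulAction.orbit S' z => (⟨w.1, ?_⟩ : E z)) ?_
        · obtain ⟨w, ⟨g, hg⟩, rfl⟩ := w
          exact (hS' g).1 hg
        · intro w w' h
          exact Subtype.ext (congrArg (fun v : E z => (v : P)) h)
      have hidx := Subgroup.relIndex_mul_index hSS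
      have hDidx : Nat.card (MulAction.orbit G z) = (MulAction.stabilizer G z).index := orb_card z
      have hDR : (MulAction.stabilizer G z).index ≤ R * S'.index := by
        rw [← hidx]
        exact Nat.mul_le_mul_right _ hRS
      have hT1 : T' ≤ S'.index := by
        have h1 : R * T' ≤ R * S'.index := by
          rw [hDidx] at hX
          omega
        exact Nat.le_of_mul_le_mul_left h1 (by omega)
      have hR2 : R ^ 2 ≤ S'.index := by omega
      have hRle : R ≤ S'.index := (Nat.le_self_pow (by norm_num) R).trans hR2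
      rcases bb_cls ha hB hR E hE hS' hSS hRS (by rw [← hX₁]; omega) (by omega) with h | h
      · exact h.mono (by omega)
      · have h1 := hZ S' hSS hRS (by omega) h
        unfold Smo at h1
        push Not at h1
        obtain ⟨P₀, P₁, W, hP, hWS, h2, h3, h4, h5, h6, h7, h8⟩ := h1
        have h9 : Tp (G := G) z E (4 + 2 ^ s) := by
          refine bw_cls hs hW hR E hE hS' hSS hRS (by rw [← hX₂]; omega) hP hWS h2 h3 h4 ?_ ?_ ?_ ?_
          · exact (Subgroup.relIndex_le_of_le_left hSS (rel_ne _ _)).trans h5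
          · exact h6.trans (num_pow hDR hRle)
          · have h10 := Subgroup.relIndex_mul_relIndex W (MulAction.stabilizer G z) S' hWS hSS
            rw [← h10]
            calc W.relIndex (MulAction.stabilizer G z) *
                  (MulAction.stabilizer G z).relIndex S' ≤
                  (MulAction.stabilizer G z).index ^ A * R := Nat.mul_le_mul h7 hRS
              _ ≤ (R * S'.index) ^ A * R := Nat.mul_le_mul_right _ (Nat.pow_le_pow_left hDR A)
              _ = R ^ (A + 1) * S'.index ^ A := by ring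
              _ ≤ R ^ (2 * A) * S'.index ^ A :=
                  Nat.mul_le_mul_right _ (Nat.pow_le_pow_right hR (by omega))
              _ = (R ^ 2) ^ A * S'.index ^ A := by rw [← pow_mul]
              _ ≤ S'.index ^ A * S'.index ^ A :=
                  Nat.mul_le_mul_right _ (Nat.pow_le_pow_left hR2 A)
              _ = S'.index ^ (2 * A) := by rw [← pow_add, two_mul]
          · have h11 := rel_le_mul hSS P₁
            have h12 : R * R₂ < R * S'.relIndex P₁ := by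
              calc R * R₂ ≤ R' := hR'
                _ < (MulAction.stabilizer G z).relIndex P₁ := h8
                _ ≤ _ := h11
                _ ≤ R * S'.relIndex P₁ := Nat.mul_le_mul_right _ hRS
            exact Nat.lt_of_mul_lt_mul_left h12
        exact h9.mono (by omega)
    · push Not at htr
      obtain ⟨σ, τ, h1, h2, h3⟩ := htr
      have h4 := pair_card E hE h1 h2
      obtain ⟨D, hD⟩ : ∃ D, D = Nat.card (MulAction.orbit G z) := ⟨_, rfl⟩
      rw [← hD] at hX h4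
      have h5 : (Nat.card (MulAction.orbit G (fun i : Fin 2 => (![1, τ] : Fin 2 → G) i • z))) ^ 2 ≤
          D ^ (2 * 2 - 1) := by
        calc _ ≤ (R ^ 2 * D) ^ 2 := Nat.pow_le_pow_left h4 2
          _ = R ^ 4 * D ^ 2 := by ring
          _ ≤ D * D ^ 2 := Nat.mul_le_mul_right _ (by omega)
          _ = D ^ (2 * 2 - 1) := by ring
      rw [hD] at h5
      refine Tp.of_ge (k₀ := 2) (a := 2) (by norm_num) (by omega) (by omega) le_rfl le_rfl
        ⟨0, rfl⟩ ?_ h5
      intro i i' hne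
      fin_cases i <;> fin_cases i'
      · exact absurd rfl hne
      · change τ • z ∉ E ((1 : G) • z)
        rw [one_smul]
        exact h3
      · change (1 : G) • z ∉ E (τ • z)
        rw [one_smul]
        intro h6
        exact h3 ((hE (τ • z) ⟨τ, rfl⟩).2.2.1 _ h6)
      · exact absurd rfl hne
  exact hgoal

end GrpE

open GrpE in
/-- **The dichotomy for unrelated points**, from the one for independent vectors. -/
theorem grpe (hQ : GrpqStatement) (hW : GrpwStatement) (R A : ℕ) (hR : 1 ≤ R) (hA : 1 ≤ A) :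
    ∃ R' C X : ℕ, ∀ {G P : Type} [Group G] [Finite G] [MulAction G P] (z : P),
      ¬ LrgS (MulAction.stabilizer G z) A R' → TupE (G := G) z R C X := by
  obtain ⟨R₁, k₀, a, c, ha, hQ⟩ := hQ (2 * A) (by omega)
  obtain ⟨R₂, hcore⟩ := core hW A hA
  obtain ⟨R', hR'⟩ : ∃ R', R' = R * R₁ + R * R₂ := ⟨_, rfl⟩
  obtain ⟨C, X, H⟩ := hcore R hR (fun G _ S' => ∃ B₀ B : Subgroup G, Sse S' B₀ B ∧
      S'.index ^ (2 * A) < B₀.relIndex B ∧ S'.relIndex B₀ ≤ R₁ ∧
      S'.index ^ (2 * A - 1) < (S'.relIndex B) ^ (2 * A)) R₁ k₀ a c ha (by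
    intro G Ω V _ _ _ _ _ _ ρ f h1 h2 h3 x h4
    rcases hQ G Ω V ρ f h1 h2 h3 x h4 with h | ⟨B₀, B, h5, h6, h7, h8⟩
    · exact Or.inl h
    · right
      have hidx : (MulAction.stabilizer G x).index = Fintype.card Ω := by
        rw [← orb_card, MulAction.orbit_eq_univ, Nat.card_univ, Nat.card_eq_fintype_card]
      rw [orb_card_sub] at h7 h8
      rw [← hidx] at h6 h8
      exact ⟨B₀, B, h5, h6, h7, h8⟩) R' (by omega) (R + R ^ (2 * A - 2))
  refine ⟨R', C, X, ?_⟩
  intro G P _ _ _ z hL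
  apply H z
  rintro S' hSS hRS hT ⟨B₀, B, h5, h6, h7, h8⟩ hSm
  apply hL
  have hidx := Subgroup.relIndex_mul_index hSS
  have hDR : (MulAction.stabilizer G z).index ≤ R * S'.index := by
    rw [← hidx]
    exact Nat.mul_le_mul_right _ hRS
  refine ⟨hSm, B₀, B, ⟨h5.lt, fun g hg => h5.nor₀ g (hSS hg), fun g hg => h5.nor g (hSS hg),
    h5.nrm, h5.simp, h5.nab⟩, ?_, ?_, ?_⟩
  · exact lt_of_le_of_lt (num_pow hDR (by omega)) h6
  · calc (MulAction.stabilizer G z).relIndex B₀ ≤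
          (MulAction.stabilizer G z).relIndex S' * S'.relIndex B₀ := rel_le_mul hSS B₀
      _ ≤ R * R₁ := Nat.mul_le_mul hRS h7
      _ ≤ R' := by omega
  · have h9 : (S'.relIndex B) ^ (2 * A) ≤ ((MulAction.stabilizer G z).relIndex B) ^ (2 * A) :=
      Nat.pow_le_pow_left (Subgroup.relIndex_le_of_le_left hSS (rel_ne _ _)) _
    exact num_lt hA hDR (by omega) (h8.trans_le h9)

end Pool.DynLehmer.LW
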