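import Pool.Agent.Lib.MP_2194ec_nt.LW.DefsVO
import Pool.Agent.Lib.MP_2194ec_nt.LW.Grpe

set_option autoImplicit false
set_option linter.unusedSectionVars false

/-!
# Tuples of unrelated points and primitive almost simple groups
-/

namespace Pool.DynLehmer.LW
open scoped Classical

open GrpE in
/-- **The dichotomy for unrelated points**, from the one for independent vectors. -/
theorem grpoe (hO : GrpoStatement) (hW : GrpwStatement) (R A : ℕ) (hR : 1 ≤ R) (hA : 1 ≤ A) :
    ∃ R' C X : ℕ, ∀ {G P : Type} [Group G] [Finite G] [MulAction G P] (z : P),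
      ¬ (Smo (MulAction.stabilizer G z) A R' ∧ Pas (MulAction.stabilizer G z) A R') →
      TupE (G := G) z R C X := by
  obtain ⟨R₁, k₀, a, c, ha, hO⟩ := hO (2 * A) (by omega)
  obtain ⟨R₂, hcore⟩ := core hW A hA
  obtain ⟨R', hR'⟩ : ∃ R', R' = R * R₁ + R * R₂ := ⟨_, rfl⟩
  obtain ⟨C, X, H⟩ := hcore R hR (fun G _ S' => Pas S' (2 * A) R₁) R₁ k₀ a c ha (by
    intro G Ω V _ _ _ _ _ _ ρ f h1 h2 h3 x h4
    rcases hO G Ω V ρ f h1 h2 h3 x h4 with h | ⟨-, h⟩
    · exact Or.inl h
    · exact Or.inr h) R' (by omega) (R + R ^ (2 * A - 2))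
  refine ⟨R', C, X, ?_⟩
  intro G P _ _ _ z hL
  apply H z
  rintro S' hSS hRS hT ⟨U, W, h1, h2, h3, h4, h5, T, h6, h7, h8, h9, h10⟩ hSm
  apply hL
  have hidx := Subgroup.relIndex_mul_index hSS
  have hDR : (MulAction.stabilizer G z).index ≤ R * S'.index := by
    rw [← hidx]
    exact Nat.mul_le_mul_right _ hRS
  have hle : S'.index ≤ (MulAction.stabilizer G z).index :=
    Nat.le_of_dvd (Nat.pos_of_ne_zero Subgroup.index_ne_zero_of_finite)
      (Subgroup.index_dvd_of_le hSS)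
  refine ⟨hSm, U, W, hSS.trans h1, h2, h3, ?_, ?_, T, h6, h7, h8, ?_, ?_⟩
  · rw [← Subgroup.relIndex_mul_relIndex _ _ _ hSS h1]
    calc (MulAction.stabilizer G z).relIndex S' * S'.relIndex W ≤ R * R₁ :=
          Nat.mul_le_mul hRS h4
      _ ≤ R' := by omega
  · calc U.index ^ A ≤ U.index ^ (2 * A) :=
          Nat.pow_le_pow_right (Nat.pos_of_ne_zero Subgroup.index_ne_zero_of_finite) (by omega)
      _ < S'.index := h5
      _ ≤ _ := hle
  · exact lt_of_le_of_lt (num_pow hDR (by omega)) h9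
  · intro n hn
    exact num_lt hA hDR (by omega) (h10 n hn)

end Pool.DynLehmer.LW
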