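import Pool.Agent.Lib.MP_2194ec_nt.LW.DefsVU
import Pool.Agent.Lib.MP_2194ec_nt.LW.Gfin
import Pool.Agent.Lib.MP_2194ec_nt.LW.Pfin

set_option autoImplicit false
set_option linter.unusedSectionVars false

/-!
# Composition factors and tuples of cosets
-/

namespace Pool.DynLehmer.LW
open MvPolynomial NumberField Filter Topology Pool.DynLehmer Pool.DynLehmer.SB Pool.DynLehmer.SP
  Pool.DynLehmer.GS Pool.DynLehmer.LP
open scoped Classical

namespace VfinAux

theorem tupE_mono {G P : Type} [Group G] [Finite G] [MulAction G P] {z : P} {R C C' X X' : ℕ}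
    (hC : C ≤ C') (hX : X ≤ X') (h : TupE (G := G) z R C X) : TupE (G := G) z R C' X' := by
  intro E hE hX'
  obtain ⟨k, σ, hk2, hk, h1, h2, h3⟩ := h E hE (hX.trans hX')
  have hfin : Finite (MulAction.orbit G z) := Set.finite_range (fun g : G => g • z)
  have hne : Nonempty (MulAction.orbit G z) := ⟨⟨z, MulAction.mem_orbit_self z⟩⟩
  exact ⟨k, σ, hk2, hk.trans hC, h1, h2,
    PfinAux.pow_mono (by omega) (by omega) hC Nat.card_pos h3⟩

end VfinAux

open VfinAux

/-- THEOREM V. -/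
theorem vfin (hY : YStatement) (hGrp : GrpuStatement) (hGrpp : GrppStatement)
    (hExc : ExcStatement) (hLift : LiftStatement) : VlStatement := by
  intro K _ _ p s v F hF hC
  obtain ⟨R, hR, hR1, hmain⟩ := gfin hY hExc hLift K p s v F hF hC
  refine ⟨R, hR, hR1, ?_⟩
  intro A hA
  obtain ⟨C₁, X₁, h1⟩ := UfinAux.grpu_orb hGrp R A hR hA
  obtain ⟨X₂, C₂, h2⟩ := PfinAux.grpp_orb hGrpp R A hR hA
  obtain ⟨c, hc, H⟩ := hmain A (C₁ + C₂) (X₁ + X₂) hA
  refine ⟨c, hc, ?_⟩
  intro N _ _ _ _ a ha hH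
  have hfd : FiniteDimensional K N := Module.Finite.of_restrictScalars_finite ℚ K N
  apply H N a ha
  intro n hn hthin hcard
  obtain ⟨J, hJ | ⟨hJ1, hJ2, J', hJ3, hJ4, hJ5, hJ6⟩⟩ := hH n hn hthin
  · apply tupE_mono (C := C₁) (X := X₁) (by omega) (by omega)
    intro E hE hX
    exact h1 _ J (by rw [hcard]; exact hJ) E hE hX
  · apply tupE_mono (C := C₂) (X := X₂) (by omega) (by omega)
    intro E hE hX
    exact h2 _ E hE hX J hJ2 hJ1 (Or.inr ⟨J', hJ3, hJ4, hJ5, hJ6⟩)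

end Pool.DynLehmer.LW
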