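import Pool.Agent.Lib.MP_2194ec_nt.LW.DefsVH
import Pool.Agent.Lib.MP_2194ec_nt.LW.Grpoe
import Pool.Agent.Lib.MP_2194ec_nt.LW.Vfin

set_option autoImplicit false
set_option linter.unusedSectionVars false

/-!
# Composition factors, tuples of cosets and an exceptional class: the dichotomy
-/

namespace Pool.DynLehmer.LW
open MvPolynomial NumberField Filter Topology Pool.DynLehmer Pool.DynLehmer.SB Pool.DynLehmer.SP
  Pool.DynLehmer.GS Pool.DynLehmer.LP
open scoped Classical

open VfinAux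

/-- THEOREM VH. -/
theorem vhfin (hY : YStatement) (hGrp : GrpuStatement) (hGrpp : GrppStatement)
    (Z : ∀ (G : Type) [Group G], Subgroup G → ℕ → ℕ → ℕ → Prop)
    (hZ : ∀ R A : ℕ, 1 ≤ R → 1 ≤ A → ∃ R' C X : ℕ, ∀ {G P : Type} [Group G] [Finite G]
      [MulAction G P] (z : P), TupE (G := G) z R C X ∨
        (Atr (G := G) z A R ∧ Z G (MulAction.stabilizer G z) A R R'))
    (hExc : ExcStatement) (hLift : LiftStatement) : VhStatement Z := by
  intro K _ _ p s v F hF hC
  obtain ⟨R, hR, hR1, hmain⟩ := gfin hY hExc hLift K p s v F hF hC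
  refine ⟨R, hR, hR1, ?_⟩
  intro A hA
  obtain ⟨C₁, X₁, h1⟩ := UfinAux.grpu_orb hGrp R A hR hA
  obtain ⟨X₂, C₂, h2⟩ := PfinAux.grpp_orb hGrpp R A hR hA
  obtain ⟨R', C₃, X₃, h3⟩ := hZ R A hR hA
  obtain ⟨c, hc, H⟩ := hmain A (C₁ + C₂ + C₃) (X₁ + X₂ + X₃) hA
  refine ⟨R', c, hc, ?_⟩
  intro N _ _ _ _ a ha
  have hfd : FiniteDimensional K N := Module.Finite.of_restrictScalars_finite ℚ K N
  by_contra hno
  push Not at hno
  obtain ⟨hno1, hno2⟩ := hno
  obtain ⟨h, h4, h5⟩ := H N a ha (by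
    intro n hn hthin hcard
    rcases h3 (G := N ≃ₐ[K] N) (nz ((gAct F N)^[n] ![a, 1])) with hL | ⟨hat, hL⟩
    · exact tupE_mono (C := C₃) (X := X₃) (by omega) (by omega) hL
    · obtain ⟨J, hJ⟩ := hno2 n hn hthin hat hL
      by_cases hJ' : SecU J (nz ((gAct F N)^[n] ![a, 1]))
          (dg K ((gAct F N)^[n] ![a, 1])) A R
      · apply tupE_mono (C := C₁) (X := X₁) (by omega) (by omega)
        intro E hE hX
        exact h1 _ J (by rw [hcard]; exact hJ') E hE hX
      · obtain ⟨hJ1, hJ2, J', hJ3, hJ4, hJ5, hJ6⟩ := hJ hJ'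
        apply tupE_mono (C := C₂) (X := X₂) (by omega) (by omega)
        intro E hE hX
        exact h2 _ E hE hX J hJ2 hJ1 (Or.inr ⟨J', hJ3, hJ4, hJ5, hJ6⟩))
  exact absurd h5 (not_le.2 (hno1 h h4))

open GrpE in
/-- **Primitive almost simple groups**, for unrelated points. -/
theorem grpoh (hO : GrpoStatement) (hW : GrpwStatement) (R A : ℕ) (hR : 1 ≤ R) (hA : 1 ≤ A) :
    ∃ R' C X : ℕ, ∀ {G P : Type} [Group G] [Finite G] [MulAction G P] (z : P),
      TupE (G := G) z R C X ∨ (Atr (G := G) z A R ∧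
        Smo (MulAction.stabilizer G z) A R' ∧ Pas (MulAction.stabilizer G z) A R) := by
  obtain ⟨R', C₀, X₀, H⟩ := grpoe hO hW R A hR hA
  refine ⟨R', C₀ + A + 2, X₀ + (R' + 1) ^ 4, ?_⟩
  intro G P _ _ _ z
  by_cases htup : TupE (G := G) z R (C₀ + A + 2) (X₀ + (R' + 1) ^ 4)
  · exact Or.inl htup
  right
  unfold TupE at htup
  push Not at htup
  obtain ⟨E, hE, hX, hno⟩ := htup
  have hno' : ¬ Tp (G := G) z E (C₀ + A + 2) := by
    rintro ⟨k, σ, h1, h2, h3, h4, h5⟩
    exact absurd h5 (not_le.2 (hno k σ h1 h2 h3 h4))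
  have hz : z ∈ MulAction.orbit G z := MulAction.mem_orbit_self z
  have hSP : Smo (MulAction.stabilizer G z) A R' ∧ Pas (MulAction.stabilizer G z) A R' := by
    by_contra h
    have h1 := H z h E hE (by omega)
    exact hno' (Tp.mono (C := C₀) h1 (by omega))
  refine ⟨⟨E z, (hE z hz).1, ?_, ?_⟩, hSP.1, ?_⟩
  · intro g hg
    have h1 := (hE z hz).2.2.2 g⁻¹ _ hg
    rw [inv_smul_smul] at h1
    exact (hE (g⁻¹ • z) ⟨g⁻¹, rfl⟩).2.2.1 _ h1
  · intro k σ hk2 hk h1
    by_contra h2
    push Not at h2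
    apply hno'
    have hk0 : 0 < k := by omega
    set i₀ : Fin k := ⟨0, hk0⟩ with hi₀
    refine Tp.of_ge (σ := fun i => (σ i₀)⁻¹ * σ i) (k₀ := A) (a := A) hA (by omega) (by omega)
      hk2 hk ⟨i₀, inv_mul_cancel _⟩ ?_ ?_
    · intro i i' hne hmem
      apply h1 i i' hne
      have h3 := (hE (((σ i₀)⁻¹ * σ i) • z) ⟨_, rfl⟩).2.2.2 ((σ i₀)⁻¹ * σ i)⁻¹ _ hmem
      rw [inv_smul_smul, ← mul_smul] at h3
      have h4 : ((σ i₀)⁻¹ * σ i)⁻¹ * ((σ i₀)⁻¹ * σ i') = (σ i)⁻¹ * σ i' := by group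
      rwa [h4] at h3
    · have h3 : (fun i => ((σ i₀)⁻¹ * σ i) • z) = (σ i₀)⁻¹ • fun i => σ i • z := by
        funext i
        rw [Pi.smul_apply, mul_smul]
      rw [h3, MulAction.orbit_smul]
      exact h2
  · obtain ⟨U, W, h1, h2, h3, h4, h5⟩ := hSP.2
    refine ⟨U, W, h1, h2, h3, ?_, h5⟩
    -- all points of the orbit of `z` under `W` are related to `z`
    have hWE : ∀ w ∈ W, w • z ∈ E z := by
      intro w hw
      by_contra hwz
      apply hno'
      have h6 := tuple_card h1 h4 (![1, w] : Fin 2 → G)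
      have h7 : (fun i => (((![1, w] : Fin 2 → G) i : G) : G ⧸ W)) = fun _ => ((1 : G) : G ⧸ W) := by
        funext i
        fin_cases i
        · rfl
        · change (w : G ⧸ W) = ((1 : G) : G ⧸ W)
          rw [eq_comm, QuotientGroup.eq, inv_one, one_mul]
          exact hw
      rw [h7] at h6
      have h8 : Nat.card (MulAction.orbit G (fun _ : Fin 2 => ((1 : G) : G ⧸ W))) = W.index := by
        rw [orb_card]
        congr 1
        ext g
        rw [MulAction.mem_stabilizer_iff]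
        constructor
        · intro h
          have h9 : g • ((1 : G) : G ⧸ W) = ((1 : G) : G ⧸ W) := congrFun h 0
          rw [← MulAction.mem_stabilizer_iff, MulAction.stabilizer_quotient] at h9
          exact h9
        · intro h
          funext i
          change g • ((1 : G) : G ⧸ W) = ((1 : G) : G ⧸ W)
          rw [← MulAction.mem_stabilizer_iff, MulAction.stabilizer_quotient]
          exact h
      rw [h8] at h6
      obtain ⟨D, hD⟩ : ∃ D, D = Nat.card (MulAction.orbit G z) := ⟨_, rfl⟩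
      have hWD : W.index ≤ D := by
        rw [hD, orb_card]
        exact Nat.le_of_dvd (Nat.pos_of_ne_zero Subgroup.index_ne_zero_of_finite)
          (Subgroup.index_dvd_of_le h1)
      rw [← hD] at hX
      have h10 : Nat.card (MulAction.orbit G
          (fun i : Fin 2 => (![1, w] : Fin 2 → G) i • z)) ^ 2 ≤
          (Nat.card (MulAction.orbit G z)) ^ (2 * 2 - 1) := by
        rw [← hD]
        calc _ ≤ (R' ^ 2 * D) ^ 2 :=
              Nat.pow_le_pow_left (h6.trans (Nat.mul_le_mul_left _ hWD)) 2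
          _ = R' ^ 4 * D ^ 2 := by ring
          _ ≤ (R' + 1) ^ 4 * D ^ 2 :=
              Nat.mul_le_mul_right _ (Nat.pow_le_pow_left (Nat.le_succ _) 4)
          _ ≤ D * D ^ 2 := Nat.mul_le_mul_right _ (by omega)
          _ = D ^ (2 * 2 - 1) := by ring
      refine Tp.of_ge (σ := (![1, w] : Fin 2 → G)) (k₀ := 2) (a := 2) (by norm_num) (by omega)
        (by omega) le_rfl le_rfl ⟨0, rfl⟩ ?_ h10
      intro i i' hne
      fin_cases i <;> fin_cases i'
      · exact absurd rfl hne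
      · change w • z ∉ E ((1 : G) • z)
        rw [one_smul]
        exact hwz
      · change (1 : G) • z ∉ E (w • z)
        rw [one_smul]
        intro h11
        exact hwz ((hE (w • z) ⟨w, rfl⟩).2.2.1 _ h11)
      · exact absurd rfl hne
    rw [← orb_card_sub]
    refine le_trans ?_ (hE z hz).1
    rw [← Nat.card_eq_finsetCard]
    refine Nat.card_le_card_of_injective
      (fun w : MulAction.orbit W z => (⟨w.1, ?_⟩ : E z)) ?_
    · obtain ⟨w, ⟨g, hg⟩, rfl⟩ := w
      exact hWE g hg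
    · intro w w' h
      exact Subtype.ext (congrArg (fun v : E z => (v : P)) h)

end Pool.DynLehmer.LW
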