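import Pool.Agent.Lib.MP_2194ec_nt.LW.AllY
import Pool.Agent.Lib.MP_2194ec_nt.LW.AllGrpo
import Pool.Agent.Lib.MP_2194ec_nt.LW.GramRow
import Pool.Agent.Lib.MP_2194ec_nt.LW.GrpcE
import Pool.Agent.Lib.MP_2194ec_nt.LW.Grpu
import Pool.Agent.Lib.MP_2194ec_nt.LW.Grpw
import Pool.Agent.Lib.MP_2194ec_nt.LW.Modt
import Pool.Agent.Lib.MP_2194ec_nt.LW.PGrp
import Pool.Agent.Lib.MP_2194ec_nt.LW.Vhfin

set_option autoImplicit false

/-!
# The dynamical Lehmer bound outside primitive almost simple Galois groups: assembly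
-/

namespace Pool.DynLehmer.LW
open MvPolynomial NumberField Filter Topology Pool.DynLehmer Pool.DynLehmer.GS Pool.DynLehmer.LP
open scoped Classical

/-- **The bound outside primitive almost simple groups.** -/
theorem vhst : VhStatement (fun _ _ S A R R' => Smo S A R' ∧ Pas S A R) :=
  vhfin yst (grpu grpc) grpp _ (grpoh grpoAll (grpw gram modt)) (exc push (clsf hcmp)) lift

end Pool.DynLehmer.LW
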