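import Pool.Agent.Lib.MP_2194ec_nt.LW.Geo

set_option autoImplicit false

/-!
# Row AVD: `m` elements of a space of polynomials suffice to isolate finitely many points
-/

namespace Pool.DynLehmer.LW
open MvPolynomial
open scoped Classical

/-- a vector space over an infinite field inside a ring avoids finitely many ideals, none of which
contains it -/
private lemma avd_avoid {K A : Type} [Field K] [Infinite K] [CommRing A] [Algebra K A]
    (Q : Submodule K A) (S : Finset (Ideal A)) (hS : ∀ J ∈ S, ¬ ((Q : Set A) ⊆ J)) :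
    ∃ x ∈ Q, ∀ J ∈ S, x ∉ J := by
  set W : Ideal A → Submodule K Q := fun J => (J.restrictScalars K).comap Q.subtype with hW
  have hmem : ∀ (J : Ideal A) (x : Q), x ∈ W J ↔ (x : A) ∈ J := by
    intro J x
    simp [hW]
  have hne : (⊤ : Submodule K Q) ∉ S.image W := by
    intro h
    obtain ⟨J, hJ, e⟩ := Finset.mem_image.1 h
    apply hS J hJ
    intro x hx
    have : (⟨x, hx⟩ : Q) ∈ W J := by
      rw [e]
      trivial
    exact (hmem J _).1 this
  have h := Subspace.biUnion_ne_univ_of_top_notMem hne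
  obtain ⟨x, hx⟩ := (Set.ne_univ_iff_exists_notMem _).1 h
  refine ⟨x, x.2, fun J hJ hxJ => hx ?_⟩
  simp only [Set.mem_iUnion]
  exact ⟨W J, Finset.mem_image_of_mem W hJ, (hmem J x).2 hxJ⟩

/-- the construction: after `i` steps each minimal prime below one of the given maximal ideals is
that maximal ideal or has height at least `i` -/
private lemma avd_step {K A : Type} [Field K] [Infinite K] [CommRing A] [IsNoetherianRing A]
    [Algebra K A] (Q : Submodule K A) (Z : Set (Ideal A))
    (hZ : ∀ M ∈ Z, M ∈ (Ideal.span (Q : Set A)).minimalPrimes) (i : ℕ) :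
    ∃ g : Fin i → A, (∀ j, g j ∈ Q) ∧
      ∀ M ∈ Z, ∀ q ∈ (Ideal.span (Set.range g)).minimalPrimes, q ≤ M →
        q = M ∨ (i : ℕ∞) ≤ q.height := by
  induction i with
  | zero =>
    refine ⟨fun j => j.elim0, fun j => j.elim0, fun M _ q _ _ => Or.inr ?_⟩
    simp
  | succ i ih =>
    obtain ⟨g, hg, h⟩ := ih
    have hfin : (Ideal.span (Set.range g)).minimalPrimes.Finite :=
      Ideal.finite_minimalPrimes_of_isNoetherianRing A _
    set S : Finset (Ideal A) := hfin.toFinset.filter (fun q => ∃ M ∈ Z, q ≤ M ∧ q ≠ M) with hS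
    obtain ⟨x, hxQ, hx⟩ := avd_avoid Q S (by
      intro q hq hQq
      rw [hS, Finset.mem_filter] at hq
      obtain ⟨hqm, M, hM, hle, hne⟩ := hq
      have hqp : q.IsPrime := ((Set.Finite.mem_toFinset hfin).1 hqm).1.1
      have hMm := hZ M hM
      exact hne (le_antisymm hle (hMm.2 ⟨hqp, Ideal.span_le.2 hQq⟩ hle)))
    refine ⟨Fin.snoc g x, ?_, ?_⟩
    · intro j
      refine Fin.lastCases ?_ (fun j => ?_) j
      · simpa using hxQ
      · simpa using hg j
    · intro M hM q' hq' hle'
      have hq'p : q'.IsPrime := hq'.1.1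
      have hsub : Ideal.span (Set.range g) ≤ q' := by
        refine le_trans (Ideal.span_mono ?_) hq'.1.2
        rintro _ ⟨j, rfl⟩
        exact ⟨Fin.castSucc j, by simp⟩
      have hxq' : x ∈ q' := hq'.1.2 (Ideal.subset_span ⟨Fin.last i, by simp⟩)
      obtain ⟨q, hq, hqq'⟩ := Ideal.exists_minimalPrimes_le hsub
      have hqp : q.IsPrime := hq.1.1
      have hqM : q ≤ M := hqq'.trans hle'
      by_cases e : q = M
      · left
        exact le_antisymm hle' (e ▸ hqq')
      · right
        have hqS : q ∈ S := by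
          rw [hS, Finset.mem_filter]
          exact ⟨(Set.Finite.mem_toFinset hfin).2 hq, M, hM, hqM, e⟩
        have hxq := hx q hqS
        have hlt : q < q' := lt_of_le_of_ne hqq' (fun h' => hxq (h' ▸ hxq'))
        have h1 : (i : ℕ∞) ≤ q.height := (h M hM q hq hqM).resolve_left e
        have h2 := Ideal.height_add_one_le_of_lt_of_isPrime hlt
        calc ((i + 1 : ℕ) : ℕ∞) = (i : ℕ∞) + 1 := by push_cast; rfl
          _ ≤ q.height + 1 := by gcongr
          _ ≤ q'.height := h2

theorem avd : AvdStatement := by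
  intro K Ω _ _ _ _ m Q Z hZ
  set Z' : Set (Ideal (MvPolynomial (Fin m) Ω)) :=
    {M | ∃ p ∈ Z, M = RingHom.ker (eval p : MvPolynomial (Fin m) Ω →+* Ω)} with hZ'
  obtain ⟨g, hg, h⟩ := avd_step Q Z' (by
    rintro M ⟨p, hp, rfl⟩
    exact hZ p hp) m
  refine ⟨g, hg, fun p hp => ?_⟩
  have hMm := hZ p hp
  have hMp : (RingHom.ker (eval p : MvPolynomial (Fin m) Ω →+* Ω)).IsPrime := hMm.1.1
  have hsub : Ideal.span (Set.range g) ≤ RingHom.ker (eval p : MvPolynomial (Fin m) Ω →+* Ω) := by
    refine le_trans (Ideal.span_mono ?_) hMm.1.2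
    rintro _ ⟨j, rfl⟩
    exact hg j
  obtain ⟨q, hq, hqM⟩ := Ideal.exists_minimalPrimes_le hsub
  have hqp : q.IsPrime := hq.1.1
  rcases h _ ⟨p, hp, rfl⟩ q hq hqM with e | hht
  · exact e ▸ hq
  · by_contra hcon
    have hne : q ≠ RingHom.ker (eval p : MvPolynomial (Fin m) Ω →+* Ω) := fun e => hcon (e ▸ hq)
    have hlt := lt_of_le_of_ne hqM hne
    have h2 := Ideal.height_add_one_le_of_lt_of_isPrime hlt
    have h3 : ((RingHom.ker (eval p : MvPolynomial (Fin m) Ω →+* Ω)).height : WithBot ℕ∞) ≤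
        ringKrullDim (MvPolynomial (Fin m) Ω) := Ideal.height_le_ringKrullDim_of_isPrime
    rw [MvPolynomial.ringKrullDim_of_isNoetherianRing, ringKrullDim_eq_zero_of_field,
      Nat.card_eq_fintype_card, Fintype.card_fin, zero_add] at h3
    have h4 : (RingHom.ker (eval p : MvPolynomial (Fin m) Ω →+* Ω)).height ≤ (m : ℕ∞) := by
      exact_mod_cast h3
    have h5 : (m : ℕ∞) + 1 ≤ (m : ℕ∞) :=
      (add_le_add_left hht 1).trans (h2.trans h4)
    have h6 : m + 1 ≤ m := by exact_mod_cast h5
    omega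

end Pool.DynLehmer.LW
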