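import Pool.Agent.Lib.MP_2194ec_nt.LW.Geo

set_option autoImplicit false

/-!
# Row BEZT: isolated zeros impose independent conditions (Bezoutian and Wiebe's theorem)
-/

namespace Pool.DynLehmer.LW
open MvPolynomial
open scoped Classical

namespace Bezt

/-! ## Differences -/

/-- `G(X) - G(Y) = ∑ θ_j (X_j - Y_j)` with `θ_j` of `X`-degree at most `d` -/
def HasTheta {Ω : Type} [Field Ω] {m : ℕ} (G : MvPolynomial (Fin m) Ω) (d : ℕ) : Prop :=
  ∃ θ : Fin m → MvPolynomial (Fin m) (MvPolynomial (Fin m) Ω),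
    (∀ j, (θ j).totalDegree ≤ d) ∧ map C G - C G = ∑ j, θ j * (X j - C (X j))

lemma hasTheta_zero {Ω : Type} [Field Ω] {m : ℕ} (d : ℕ) :
    HasTheta (0 : MvPolynomial (Fin m) Ω) d :=
  ⟨0, fun j => by simp, by simp⟩

lemma hasTheta_add {Ω : Type} [Field Ω] {m d : ℕ} {G H : MvPolynomial (Fin m) Ω}
    (hG : HasTheta G d) (hH : HasTheta H d) : HasTheta (G + H) d := by
  obtain ⟨θ, h1, h2⟩ := hG
  obtain ⟨η, h3, h4⟩ := hH
  refine ⟨fun j => θ j + η j, fun j => ?_, ?_⟩
  · exact (totalDegree_add _ _).trans (max_le (h1 j) (h3 j))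
  · simp only [add_mul, Finset.sum_add_distrib, ← h2, ← h4, map_add]
    ring

lemma hasTheta_C_mul {Ω : Type} [Field Ω] {m d : ℕ} {G : MvPolynomial (Fin m) Ω} (a : Ω)
    (hG : HasTheta G d) : HasTheta (C a * G) d := by
  obtain ⟨θ, h1, h2⟩ := hG
  refine ⟨fun j => C (C a) * θ j, fun j => ?_, ?_⟩
  · refine (totalDegree_mul _ _).trans ?_
    rw [totalDegree_C, zero_add]
    exact h1 j
  · simp only [map_mul, map_C, mul_assoc, ← Finset.mul_sum, ← h2]
    ring

/-- the size of a monomial -/
def sz {m : ℕ} (s : Fin m →₀ ℕ) : ℕ := s.sum fun _ e => e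

lemma sz_add {m : ℕ} (s t : Fin m →₀ ℕ) : sz (s + t) = sz s + sz t :=
  Finsupp.sum_add_index' (fun _ => rfl) (fun _ _ _ => rfl)

lemma hasTheta_monomial {Ω : Type} [Field Ω] {m : ℕ} (s : Fin m →₀ ℕ) :
    HasTheta (monomial s (1 : Ω)) (sz s) := by
  have hadd : ∀ s t : Fin m →₀ ℕ, HasTheta (monomial s (1 : Ω)) (sz s) →
      HasTheta (monomial t (1 : Ω)) (sz t) → HasTheta (monomial (s + t) (1 : Ω)) (sz (s + t)) := by
    intro s t hs ht
    obtain ⟨θ, h1, h2⟩ := hs
    obtain ⟨η, h3, h4⟩ := ht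
    refine ⟨fun j => monomial s (1 : MvPolynomial (Fin m) Ω) * η j + C (monomial t 1) * θ j,
      fun j => ?_, ?_⟩
    · refine (totalDegree_add _ _).trans (max_le ?_ ?_)
      · refine (totalDegree_mul _ _).trans ?_
        rw [sz_add]
        exact add_le_add (totalDegree_monomial_le _ _) (h3 j)
      · refine (totalDegree_mul _ _).trans ?_
        rw [totalDegree_C, zero_add, sz_add]
        exact (h1 j).trans (Nat.le_add_right _ _)
    · have h5 : ∀ j, (monomial s (1 : MvPolynomial (Fin m) Ω) * η j + C (monomial t 1) * θ j) *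
          (X j - C (X j)) = monomial s (1 : MvPolynomial (Fin m) Ω) * (η j * (X j - C (X j))) +
            C (monomial t 1) * (θ j * (X j - C (X j))) := fun j => by ring
      simp only [h5, Finset.sum_add_distrib, ← Finset.mul_sum, ← h2, ← h4]
      have h6 : monomial (s + t) (1 : Ω) = monomial s 1 * monomial t 1 := by
        rw [monomial_mul, one_mul]
      rw [h6]
      simp only [map_mul, map_monomial, map_one]
      ring
  have h0 : HasTheta (monomial (0 : Fin m →₀ ℕ) (1 : Ω)) (sz (0 : Fin m →₀ ℕ)) := by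
    refine ⟨0, fun j => by simp, ?_⟩
    simp
  have h1 : ∀ i : Fin m, HasTheta (monomial (Finsupp.single i 1) (1 : Ω)) (sz (Finsupp.single i 1)) := by
    intro i
    refine ⟨Pi.single i 1, fun j => ?_, ?_⟩
    · by_cases h : j = i
      · subst h
        simp
      · rw [Pi.single_eq_of_ne h]
        simp
    · rw [Finset.sum_eq_single i]
      · rw [Pi.single_eq_same, one_mul]
        simp [X]
      · intro j _ hj
        rw [Pi.single_eq_of_ne hj, zero_mul]
      · simp
  induction s using Finsupp.induction_linear with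
  | zero => exact h0
  | add s t hs ht => exact hadd s t hs ht
  | single i n =>
    induction n with
    | zero => simpa using h0
    | succ n ih =>
      rw [Finsupp.single_add]
      exact hadd _ _ ih (h1 i)

lemma hasTheta_mono {Ω : Type} [Field Ω] {m d d' : ℕ} {G : MvPolynomial (Fin m) Ω}
    (h : d ≤ d') (hG : HasTheta G d) : HasTheta G d' := by
  obtain ⟨θ, h1, h2⟩ := hG
  exact ⟨θ, fun j => (h1 j).trans h, h2⟩

lemma hasTheta_sum {Ω : Type} [Field Ω] {m d : ℕ} {ι : Type} (s : Finset ι)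
    (G : ι → MvPolynomial (Fin m) Ω) (h : ∀ i ∈ s, HasTheta (G i) d) :
    HasTheta (∑ i ∈ s, G i) d := by
  induction s using Finset.induction_on with
  | empty => simpa using hasTheta_zero d
  | insert a s ha ih =>
    rw [Finset.sum_insert ha]
    exact hasTheta_add (h a (Finset.mem_insert_self a s))
      (ih fun i hi => h i (Finset.mem_insert_of_mem hi))

lemma hasTheta {Ω : Type} [Field Ω] {m d : ℕ} (G : MvPolynomial (Fin m) Ω)
    (hG : G.totalDegree ≤ d) : HasTheta G d := by
  rw [as_sum G]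
  refine hasTheta_sum _ _ fun s hs => ?_
  have h1 : monomial s (coeff s G) = C (coeff s G) * monomial s 1 := by
    rw [C_mul_monomial, mul_one]
  rw [h1]
  exact hasTheta_C_mul _ (hasTheta_mono ((le_totalDegree hs).trans hG) (hasTheta_monomial s))

/-! ## Determinants -/

lemma totalDegree_det {R : Type} [CommRing R] {m b : ℕ}
    (M : Matrix (Fin m) (Fin m) (MvPolynomial (Fin m) R)) (h : ∀ i j, (M i j).totalDegree ≤ b) :
    M.det.totalDegree ≤ m * b := by
  rw [Matrix.det_apply]
  refine totalDegree_finsetSum_le fun σ _ => ?_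
  refine (totalDegree_smul_le _ _).trans ?_
  refine (totalDegree_finset_prod _ _).trans ?_
  calc ∑ i, (M (σ i) i).totalDegree ≤ ∑ _i : Fin m, b := Finset.sum_le_sum fun i _ => h _ _
    _ = m * b := by simp

/-- a functional that kills the evaluations kills the Bezoutian -/
lemma sum_eval_eq_zero {Ω : Type} [Field Ω] {m d : ℕ} (Z : Finset (Fin m → Ω))
    (lam : (Fin m → Ω) → Ω)
    (h : ∀ ψ : MvPolynomial (Fin m) Ω, ψ.totalDegree ≤ d → ∑ p ∈ Z, lam p * eval p ψ = 0)
    (Δ : MvPolynomial (Fin m) (MvPolynomial (Fin m) Ω)) (hΔ : Δ.totalDegree ≤ d) :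
    ∑ p ∈ Z, C (lam p) * eval (fun j => C (p j)) Δ = (0 : MvPolynomial (Fin m) Ω) := by
  ext t
  rw [coeff_sum, coeff_zero]
  simp only [coeff_C_mul]
  set ψ : MvPolynomial (Fin m) Ω := ∑ s ∈ Δ.support, monomial s (coeff t (coeff s Δ)) with hψ
  have h1 : ψ.totalDegree ≤ d := by
    rw [hψ]
    refine totalDegree_finsetSum_le fun s hs => ?_
    exact (totalDegree_monomial_le _ _).trans ((le_totalDegree hs).trans hΔ)
  have h2 : ∀ p : Fin m → Ω, coeff t (eval (fun j => (C (p j) : MvPolynomial (Fin m) Ω)) Δ)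
      = eval p ψ := by
    intro p
    rw [eval_eq, hψ, map_sum, coeff_sum]
    refine Finset.sum_congr rfl fun s _ => ?_
    have h3 : ∏ i ∈ s.support, (C (p i) : MvPolynomial (Fin m) Ω) ^ s i
        = C (∏ i ∈ s.support, p i ^ s i) := by
      rw [map_prod]
      simp only [map_pow]
    rw [h3, mul_comm, coeff_C_mul, eval_monomial, Finsupp.prod, mul_comm]
  simp only [h2]
  exact h ψ h1

/-! ## Syzygies of the variables -/

/-- linear maps that respect the Koszul relations kill the syzygies of the variables -/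
lemma koszul {Ω Q : Type} [Field Ω] {m : ℕ} [AddCommGroup Q] [Module (MvPolynomial (Fin m) Ω) Q]
    (l : Fin m → Q) (hl : ∀ a b, (X a : MvPolynomial (Fin m) Ω) • l b = (X b : MvPolynomial (Fin m) Ω) • l a)
    (r : Fin m → MvPolynomial (Fin m) Ω) (hr : ∑ j, r j * X j = 0) :
    ∑ j, r j • l j = 0 := by
  letI : Module Ω Q := Module.compHom Q (C : Ω →+* MvPolynomial (Fin m) Ω)
  haveI : IsScalarTower Ω (MvPolynomial (Fin m) Ω) Q := ⟨fun a f x => by
    show (a • f) • x = (C a : MvPolynomial (Fin m) Ω) • (f • x)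
    rw [smul_smul, ← C_mul']⟩
  set Λ : MvPolynomial (Fin m) Ω →ₗ[Ω] Q := (basisMonomials (Fin m) Ω).constr Ω
    (fun t => if h : ∃ j, t j ≠ 0 then
      (monomial (t - Finsupp.single h.choose 1) (1 : Ω)) • l h.choose else 0) with hΛ
  have hmono : ∀ t : Fin m →₀ ℕ, Λ (monomial t 1) = if h : ∃ j, t j ≠ 0 then
      (monomial (t - Finsupp.single h.choose 1) (1 : Ω)) • l h.choose else 0 := by
    intro t
    have h1 := (basisMonomials (Fin m) Ω).constr_basis Ω
      (fun t => if h : ∃ j, t j ≠ 0 then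
      (monomial (t - Finsupp.single h.choose 1) (1 : Ω)) • l h.choose else 0) t
    rw [coe_basisMonomials] at h1
    exact h1
  have key : ∀ (s : Fin m →₀ ℕ) (j : Fin m),
      Λ (monomial (s + Finsupp.single j 1) 1) = (monomial s (1 : Ω)) • l j := by
    intro s j
    rw [hmono]
    have hex : ∃ k, (s + Finsupp.single j 1 : Fin m →₀ ℕ) k ≠ 0 := ⟨j, by simp⟩
    rw [dif_pos hex]
    set k := hex.choose with hk
    have hk0 : (s + Finsupp.single j 1 : Fin m →₀ ℕ) k ≠ 0 := hex.choose_spec
    clear_value k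
    clear hk hex
    by_cases hkj : k = j
    · rw [hkj, add_tsub_cancel_right]
    · have hsk : s k ≠ 0 := by
        intro h0
        apply hk0
        rw [Finsupp.add_apply, h0, Finsupp.single_eq_of_ne hkj, add_zero]
      have h1 : Finsupp.single k 1 ≤ s := by
        rw [Finsupp.single_le_iff]
        omega
      obtain ⟨s', rfl⟩ : ∃ s', s = s' + Finsupp.single k 1 := ⟨s - Finsupp.single k 1, by
        rw [tsub_add_cancel_of_le h1]⟩
      have h2 : s' + Finsupp.single k 1 + Finsupp.single j 1 - Finsupp.single k 1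
          = s' + Finsupp.single j 1 := by
        rw [add_right_comm, add_tsub_cancel_right]
      rw [h2]
      have h3 : ∀ i : Fin m, (monomial (s' + Finsupp.single i 1) (1 : Ω))
          = monomial s' 1 * X i := by
        intro i
        rw [X, monomial_mul, one_mul]
      rw [h3, h3, mul_smul, mul_smul, hl]
  have key2 : ∀ (j : Fin m) (f : MvPolynomial (Fin m) Ω), Λ (f * X j) = f • l j := by
    intro j f
    rw [as_sum f, Finset.sum_mul, map_sum, Finset.sum_smul]
    refine Finset.sum_congr rfl fun s _ => ?_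
    have h1 : monomial s (coeff s f) * X j
        = (coeff s f) • monomial (s + Finsupp.single j 1) (1 : Ω) := by
      rw [X, monomial_mul, mul_one, smul_monomial, smul_eq_mul, mul_one]
    have h2 : monomial s (coeff s f) = (coeff s f) • monomial s (1 : Ω) := by
      rw [smul_monomial, smul_eq_mul, mul_one]
    rw [h1, map_smul, key, h2, smul_assoc]
  have h4 : ∑ j, r j • l j = Λ (∑ j, r j * X j) := by
    rw [map_sum]
    exact Finset.sum_congr rfl fun j _ => (key2 j (r j)).symm
  rw [h4, hr, map_zero]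

/-! ## Two matrices with the same product with the variables -/

section wiebe

variable {Ω : Type} [Field Ω] {m : ℕ}

lemma row_expand (H : Matrix (Fin m) (Fin m) (MvPolynomial (Fin m) Ω)) (k : Fin m)
    (v : Fin m → MvPolynomial (Fin m) Ω) :
    (H.updateRow k v).det = ∑ j, v j * H.adjugate j k := by
  rw [Matrix.det_eq_sum_mul_adjugate_row _ k]
  refine Finset.sum_congr rfl fun j _ => ?_
  rw [Matrix.updateRow_self, Matrix.adjugate_apply, Matrix.adjugate_apply,
    Matrix.updateRow_idem]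

/-- the Koszul relations for the cofactors -/
lemma cofactor_koszul (H : Matrix (Fin m) (Fin m) (MvPolynomial (Fin m) Ω))
    (u : Fin m → MvPolynomial (Fin m) Ω) (hu : ∀ i, ∑ j, H i j * X j = u i) (k a b : Fin m) :
    X a * H.adjugate b k - X b * H.adjugate a k ∈ Ideal.span (Set.range u) := by
  set M := H.updateRow k (Pi.single b 1) with hM
  have h1 : M.det = H.adjugate b k := by rw [hM, Matrix.adjugate_apply]
  have h2 : M.adjugate a k = H.adjugate a k := by
    rw [hM, Matrix.adjugate_apply, Matrix.adjugate_apply, Matrix.updateRow_idem]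
  have h3 : ∀ i, i ≠ k → (M.mulVec fun j => X j) i = u i := by
    intro i hi
    rw [← hu i, Matrix.mulVec, dotProduct]
    refine Finset.sum_congr rfl fun j _ => ?_
    rw [hM, Matrix.updateRow_ne hi]
  have h4 : (M.mulVec fun j => X j) k = X b := by
    rw [Matrix.mulVec, dotProduct]
    simp only [hM, Matrix.updateRow_self, Pi.single_apply, ite_mul, one_mul, zero_mul,
      Finset.sum_ite_eq', Finset.mem_univ, if_true]
  have h5 : M.adjugate.mulVec (M.mulVec fun j => X j) = M.det • fun j => X j := by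
    rw [Matrix.mulVec_mulVec, Matrix.adjugate_mul, Matrix.smul_mulVec, Matrix.one_mulVec]
  have h6 := congrFun h5 a
  rw [Matrix.mulVec, dotProduct, Pi.smul_apply, smul_eq_mul, h1] at h6
  rw [← Finset.add_sum_erase _ _ (Finset.mem_univ k), h4, h2] at h6
  have h7 : X a * H.adjugate b k - X b * H.adjugate a k
      = ∑ i ∈ Finset.univ.erase k, M.adjugate a i * (M.mulVec fun j => X j) i := by
    have : X a * H.adjugate b k = H.adjugate b k * X a := mul_comm _ _
    rw [this, ← h6]
    ring
  rw [h7]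
  refine Ideal.sum_mem _ fun i hi => ?_
  rw [h3 i (Finset.ne_of_mem_erase hi)]
  exact Ideal.mul_mem_left _ _ (Ideal.subset_span ⟨i, rfl⟩)

/-- a determinant with a row which is a syzygy of the variables -/
lemma syz_row (H : Matrix (Fin m) (Fin m) (MvPolynomial (Fin m) Ω))
    (u : Fin m → MvPolynomial (Fin m) Ω) (hu : ∀ i, ∑ j, H i j * X j = u i) (k : Fin m)
    (r : Fin m → MvPolynomial (Fin m) Ω) (hr : ∑ j, r j * X j = 0) :
    ∑ j, r j * H.adjugate j k ∈ Ideal.span (Set.range u) := by
  rw [← Ideal.Quotient.eq_zero_iff_mem]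
  have h := koszul (Q := MvPolynomial (Fin m) Ω ⧸ Ideal.span (Set.range u))
    (fun j => Ideal.Quotient.mk _ (H.adjugate j k)) (fun a b => by
      have h1 := cofactor_koszul H u hu k a b
      rw [← Ideal.Quotient.eq_zero_iff_mem, map_sub, sub_eq_zero] at h1
      exact h1) r hr
  rw [map_sum]
  exact h

lemma det_sub_mem (A B : Matrix (Fin m) (Fin m) (MvPolynomial (Fin m) Ω))
    (u : Fin m → MvPolynomial (Fin m) Ω) (hA : ∀ i, ∑ j, A i j * X j = u i)
    (hB : ∀ i, ∑ j, B i j * X j = u i) : A.det - B.det ∈ Ideal.span (Set.range u) := by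
  set H : Finset (Fin m) → Matrix (Fin m) (Fin m) (MvPolynomial (Fin m) Ω) :=
    fun S => Matrix.of fun i j => if i ∈ S then B i j else A i j with hH
  have hHu : ∀ S i, ∑ j, H S i j * X j = u i := by
    intro S i
    by_cases hi : i ∈ S
    · rw [← hB i]
      exact Finset.sum_congr rfl fun j _ => by simp [hH, hi]
    · rw [← hA i]
      exact Finset.sum_congr rfl fun j _ => by simp [hH, hi]
  have key : ∀ S, A.det - (H S).det ∈ Ideal.span (Set.range u) := by
    intro S
    induction S using Finset.induction_on with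
    | empty =>
      have h1 : H ∅ = A := by
        ext i j
        simp [hH]
      rw [h1, sub_self]
      exact zero_mem _
    | insert k S hk ih =>
      have h1 : H (insert k S) = (H S).updateRow k (B k) := by
        refine Matrix.ext fun i j => ?_
        by_cases hi : i = k
        · subst hi
          rw [Matrix.updateRow_self]
          simp [hH]
        · rw [Matrix.updateRow_ne hi]
          simp [hH, hi]
      have h2 : H S = (H S).updateRow k (A k) := by
        refine Matrix.ext fun i j => ?_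
        by_cases hi : i = k
        · subst hi
          rw [Matrix.updateRow_self]
          simp [hH, hk]
        · rw [Matrix.updateRow_ne hi]
      have h3 : (H S).det - (H (insert k S)).det
          = ∑ j, (A k j - B k j) * (H S).adjugate j k := by
        rw [h1, row_expand]
        conv_lhs => rw [h2, row_expand]
        simp only [sub_mul, Finset.sum_sub_distrib]
        rw [← h2]
      have h4 : (H S).det - (H (insert k S)).det ∈ Ideal.span (Set.range u) := by
        rw [h3]
        refine syz_row (H S) u (hHu S) k _ ?_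
        simp only [sub_mul, Finset.sum_sub_distrib, hA, hB, sub_self]
      have h5 := add_mem ih h4
      rwa [sub_add_sub_cancel] at h5
  have h := key Finset.univ
  have h1 : H Finset.univ = B := by
    ext i j
    simp [hH]
  rwa [h1] at h

/-- coefficients of elements of the ideal of powers of the variables -/
lemma coeff_pow_ideal (N : ℕ) (f : MvPolynomial (Fin m) Ω)
    (hf : f ∈ Ideal.span (Set.range fun i : Fin m => (X i : MvPolynomial (Fin m) Ω) ^ N))
    (t : Fin m →₀ ℕ) (ht : ∀ i, t i < N) : coeff t f = 0 := by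
  rw [Ideal.mem_span_range_iff_exists_fun] at hf
  obtain ⟨c, rfl⟩ := hf
  rw [coeff_sum]
  refine Finset.sum_eq_zero fun i _ => ?_
  rw [X_pow_eq_monomial, coeff_mul_monomial', if_neg]
  intro h
  rw [Finsupp.single_le_iff] at h
  exact absurd h (not_le.2 (ht i))

/-- Wiebe's theorem at the origin. -/
lemma wiebe_zero (g : Fin m → MvPolynomial (Fin m) Ω)
    (Θ : Matrix (Fin m) (Fin m) (MvPolynomial (Fin m) Ω)) (hΘ : ∀ i, ∑ j, Θ i j * X j = g i)
    (s₁ s' : MvPolynomial (Fin m) Ω) (N : ℕ) (hs₁ : eval 0 s₁ ≠ 0) (hs' : eval 0 s' ≠ 0)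
    (hN : ∀ i, s₁ * X i ^ (N + 1) ∈ Ideal.span (Set.range g))
    (h : s' * Θ.det ∈ Ideal.span (Set.range g)) : False := by
  have hΦ : ∀ i, ∃ c : Fin m → MvPolynomial (Fin m) Ω, ∑ j, c j * g j = s₁ * X i ^ (N + 1) :=
    fun i => (Ideal.mem_span_range_iff_exists_fun).1 (hN i)
  choose Φ hΦ using hΦ
  set u : Fin m → MvPolynomial (Fin m) Ω := fun i => s₁ * X i ^ (N + 1) with hu
  set PH : Matrix (Fin m) (Fin m) (MvPolynomial (Fin m) Ω) := Matrix.of Φ with hPH
  have hB : ∀ i, ∑ j, (PH * Θ) i j * X j = u i := by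
    intro i
    have h1 : ∀ j, (PH * Θ) i j * X j = ∑ l, Φ i l * (Θ l j * X j) := by
      intro j
      rw [Matrix.mul_apply, Finset.sum_mul]
      exact Finset.sum_congr rfl fun l _ => by rw [hPH, Matrix.of_apply]; ring
    simp only [h1]
    rw [Finset.sum_comm]
    simp only [← Finset.mul_sum, hΘ]
    exact hΦ i
  have hA : ∀ i, ∑ j, (Matrix.diagonal fun i => s₁ * X i ^ N) i j * X j = u i := by
    intro i
    rw [Finset.sum_eq_single i]
    · rw [Matrix.diagonal_apply_eq, hu]
      ring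
    · intro j _ hj
      rw [Matrix.diagonal_apply_ne _ (Ne.symm hj), zero_mul]
    · simp
  have h1 := det_sub_mem _ (PH * Θ) u hA hB
  have h2 : ∀ f ∈ Ideal.span (Set.range g), PH.det * f ∈ Ideal.span (Set.range u) := by
    intro f hf
    obtain ⟨c, rfl⟩ := (Ideal.mem_span_range_iff_exists_fun).1 hf
    rw [Finset.mul_sum]
    refine Ideal.sum_mem _ fun j _ => ?_
    have h3 : PH.adjugate.mulVec (PH.mulVec g) = PH.det • g := by
      rw [Matrix.mulVec_mulVec, Matrix.adjugate_mul, Matrix.smul_mulVec, Matrix.one_mulVec]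
    have h4 : PH.mulVec g = u := by
      funext i
      rw [Matrix.mulVec, dotProduct]
      exact hΦ i
    have h5 := congrFun h3 j
    rw [h4, Pi.smul_apply, smul_eq_mul, Matrix.mulVec, dotProduct] at h5
    have h6 : PH.det * (c j * g j) = c j * ∑ i, PH.adjugate j i * u i := by
      rw [h5]; ring
    rw [h6]
    refine Ideal.mul_mem_left _ _ (Ideal.sum_mem _ fun i _ => ?_)
    exact Ideal.mul_mem_left _ _ (Ideal.subset_span ⟨i, rfl⟩)
  have h3 : s' * (PH * Θ).det ∈ Ideal.span (Set.range u) := by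
    have h4 := h2 _ h
    rw [Matrix.det_mul]
    have h5 : s' * (PH.det * Θ.det) = PH.det * (s' * Θ.det) := by ring
    rw [h5]
    exact h4
  have h4 : s' * (Matrix.diagonal fun i => s₁ * X i ^ N).det ∈ Ideal.span (Set.range u) := by
    have h5 := add_mem (Ideal.mul_mem_left _ s' h1) h3
    have h6 : s' * ((Matrix.diagonal fun i => s₁ * X i ^ N).det - (PH * Θ).det)
        + s' * (PH * Θ).det = s' * (Matrix.diagonal fun i => s₁ * X i ^ N).det := by ring
    rwa [h6] at h5
  have h5 : Ideal.span (Set.range u) ≤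
      Ideal.span (Set.range fun i : Fin m => (X i : MvPolynomial (Fin m) Ω) ^ (N + 1)) := by
    rw [Ideal.span_le]
    rintro _ ⟨i, rfl⟩
    exact Ideal.mul_mem_left _ _ (Ideal.subset_span ⟨i, rfl⟩)
  have h6 := coeff_pow_ideal (N + 1) _ (h5 h4) (Finsupp.equivFunOnFinite.symm fun _ => N)
    (fun i => by simp)
  rw [Matrix.det_diagonal, Finset.prod_mul_distrib, Finset.prod_const] at h6
  have h7 : ∏ i : Fin m, (X i : MvPolynomial (Fin m) Ω) ^ N
      = monomial (Finsupp.equivFunOnFinite.symm fun _ => N) 1 := by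
    rw [monomial_eq, C_1, one_mul, Finsupp.prod_fintype _ _ (fun _ => pow_zero _)]
    rfl
  rw [h7, ← mul_assoc, coeff_mul_monomial', if_pos le_rfl, tsub_self, mul_one,
    ← constantCoeff_eq, map_mul, map_pow] at h6
  rw [eval_zero] at hs₁ hs'
  rcases mul_eq_zero.1 h6 with h8 | h8
  · exact hs' h8
  · exact pow_ne_zero _ hs₁ h8

end wiebe

/-! ## The main statement -/

section main

variable {Ω : Type} [Field Ω] {m : ℕ}

/-- elements of a minimal prime are nilpotent locally -/
lemma exists_pow_mem {R : Type} [CommRing R] {I p : Ideal R} (hp : p ∈ I.minimalPrimes) {x : R}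
    (hx : x ∈ p) : ∃ s, s ∉ p ∧ ∃ n : ℕ, s * x ^ n ∈ I := by
  by_contra hno
  push Not at hno
  haveI : p.IsPrime := hp.1.1
  let S : Submonoid R :=
    { carrier := {y | ∃ s, s ∉ p ∧ ∃ n : ℕ, y = s * x ^ n}
      one_mem' := ⟨1, (Ideal.ne_top_iff_one p).1 hp.1.1.ne_top, 0, by simp⟩
      mul_mem' := by
        rintro _ _ ⟨s, hs, n, rfl⟩ ⟨t, ht, k, rfl⟩
        exact ⟨s * t, fun h => (hp.1.1.mem_or_mem h).elim hs ht, n + k, by ring⟩ }
  have hdis : Disjoint (I : Set R) (S : Set R) := by
    rw [Set.disjoint_left]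
    rintro y hy ⟨s, hs, n, rfl⟩
    exact hno s hs n hy
  obtain ⟨q, hq, hIq, hqS⟩ := Ideal.exists_le_prime_disjoint I S hdis
  have hqp : q ≤ p := by
    intro y hy
    by_contra hyp
    exact Set.disjoint_left.1 hqS hy ⟨y, hyp, 0, by simp⟩
  have hpq : p ≤ q := hp.2 ⟨hq, hIq⟩ hqp
  exact Set.disjoint_left.1 hqS (hpq hx)
    ⟨1, (Ideal.ne_top_iff_one p).1 hp.1.1.ne_top, 1, by simp⟩

/-- the translation -/
noncomputable def tr (p : Fin m → Ω) : MvPolynomial (Fin m) Ω →ₐ[Ω] MvPolynomial (Fin m) Ω :=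
  bind₁ fun j => X j + C (p j)

lemma eval_tr (p : Fin m → Ω) (f : MvPolynomial (Fin m) Ω) : eval 0 (tr p f) = eval p f := by
  rw [tr, ← coe_aeval_eq_eval, ← coe_aeval_eq_eval]
  show aeval _ (bind₁ _ f) = aeval p f
  rw [aeval_bind₁]
  congr 1
  congr 1
  funext j
  simp

/-- Wiebe's theorem -/
lemma wiebe (p : Fin m → Ω) (g : Fin m → MvPolynomial (Fin m) Ω)
    (hp : RingHom.ker (eval p) ∈ (Ideal.span (Set.range g)).minimalPrimes)
    (Θ : Matrix (Fin m) (Fin m) (MvPolynomial (Fin m) Ω))
    (hΘ : ∀ i, ∑ j, Θ i j * (X j - C (p j)) = g i)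
    (s' : MvPolynomial (Fin m) Ω) (hs' : eval p s' ≠ 0)
    (h : s' * Θ.det ∈ Ideal.span (Set.range g)) : False := by
  have h1 : ∀ i : Fin m, ∃ s, s ∉ RingHom.ker (eval p) ∧ ∃ n : ℕ,
      s * (X i - C (p i)) ^ n ∈ Ideal.span (Set.range g) := by
    intro i
    refine exists_pow_mem hp ?_
    rw [RingHom.mem_ker]
    simp
  choose s hs n hn using h1
  set s₁ : MvPolynomial (Fin m) Ω := ∏ i, s i with hs₁
  set N : ℕ := ∑ i, n i with hN
  have hs₁0 : eval p s₁ ≠ 0 := by
    rw [hs₁, map_prod]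
    exact Finset.prod_ne_zero_iff.2 fun i _ h0 => hs i (by rw [RingHom.mem_ker]; exact h0)
  have hN1 : ∀ i, s₁ * (X i - C (p i)) ^ (N + 1) ∈ Ideal.span (Set.range g) := by
    intro i
    have h2 : s₁ = s i * ∏ j ∈ Finset.univ.erase i, s j :=
      (Finset.mul_prod_erase _ _ (Finset.mem_univ i)).symm
    have h3 : N + 1 = n i + (∑ j ∈ Finset.univ.erase i, n j + 1) := by
      rw [hN, ← Finset.add_sum_erase _ _ (Finset.mem_univ i)]
      ring
    rw [h2, h3, pow_add]
    have h4 : (s i * ∏ j ∈ Finset.univ.erase i, s j) *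
        ((X i - C (p i)) ^ n i * (X i - C (p i)) ^ (∑ j ∈ Finset.univ.erase i, n j + 1))
        = ((∏ j ∈ Finset.univ.erase i, s j) *
          (X i - C (p i)) ^ (∑ j ∈ Finset.univ.erase i, n j + 1)) *
          (s i * (X i - C (p i)) ^ n i) := by ring
    rw [h4]
    exact Ideal.mul_mem_left _ _ (hn i)
  have htr : ∀ f ∈ Ideal.span (Set.range g),
      tr p f ∈ Ideal.span (Set.range fun i => tr p (g i)) := by
    intro f hf
    obtain ⟨c, rfl⟩ := (Ideal.mem_span_range_iff_exists_fun).1 hf
    rw [map_sum]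
    refine Ideal.sum_mem _ fun j _ => ?_
    rw [map_mul]
    exact Ideal.mul_mem_left _ _ (Ideal.subset_span ⟨j, rfl⟩)
  have htX : ∀ i, tr p (X i - C (p i)) = X i := by
    intro i
    rw [map_sub, tr, bind₁_X_right, bind₁_C_right]
    ring
  refine wiebe_zero (fun i => tr p (g i)) ((tr p : MvPolynomial (Fin m) Ω →+* _).mapMatrix Θ) ?_
    (tr p s₁) (tr p s') N (by rwa [eval_tr]) (by rwa [eval_tr]) ?_ ?_
  · intro i
    show _ = tr p (g i)
    rw [← hΘ i, map_sum]
    refine Finset.sum_congr rfl fun j _ => ?_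
    rw [map_mul, htX]
    rfl
  · intro i
    have h5 := htr _ (hN1 i)
    rwa [map_mul, map_pow, htX] at h5
  · have h5 := htr _ h
    rw [map_mul] at h5
    rw [← RingHom.map_det]
    exact h5

end main

end Bezt

/-- Row BEZT. -/
theorem bezt : BeztStatement := by
  intro Ω _ m b g hg Z hZ lam hlam p₀ hp₀
  by_contra hne
  have hθ : ∀ i, Bezt.HasTheta (g i) b := fun i => Bezt.hasTheta (g i) (hg i)
  choose θ hθd hθ using hθ
  set M : Matrix (Fin m) (Fin m) (MvPolynomial (Fin m) (MvPolynomial (Fin m) Ω)) :=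
    Matrix.of θ with hM
  set E : (Fin m → Ω) → MvPolynomial (Fin m) (MvPolynomial (Fin m) Ω) →+*
    MvPolynomial (Fin m) Ω := fun p => eval fun j => C (p j) with hE
  have hsum := Bezt.sum_eval_eq_zero Z lam hlam M.det (Bezt.totalDegree_det M fun i j => hθd i j)
  have hg0 : ∀ p ∈ Z, ∀ i, eval p (g i) = 0 := by
    intro p hp i
    have h1 : g i ∈ RingHom.ker (eval p) := (hZ p hp).1.2 (Ideal.subset_span ⟨i, rfl⟩)
    rwa [RingHom.mem_ker] at h1
  -- the matrix at a point
  have hΘ : ∀ p ∈ Z, ∀ i, ∑ j, ((E p).mapMatrix M) i j * (X j - C (p j)) = g i := by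
    intro p hp i
    have h1 := congrArg (E p) (hθ i)
    rw [map_sub, map_sum] at h1
    have h2 : E p (map C (g i)) = 0 := by
      show eval (fun j => C (p j)) (map C (g i)) = 0
      rw [eval_map]
      have h3 : eval₂ C (fun j => C (p j)) (g i) = (C (eval p (g i)) : MvPolynomial (Fin m) Ω) := by
        have := eval₂_comp_left (C : Ω →+* MvPolynomial (Fin m) Ω) (RingHom.id Ω) p (g i)
        rw [RingHom.comp_id] at this
        rw [eval]
        exact this.symm
      rw [h3, hg0 p hp i, C_0]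
    have h4 : E p (C (g i)) = g i := eval_C _
    rw [h2, h4, zero_sub] at h1
    have h5 : ∀ j, E p (θ i j * (X j - C (X j))) = -(((E p).mapMatrix M) i j * (X j - C (p j))) := by
      intro j
      rw [map_mul, map_sub]
      have h6 : E p (X j) = C (p j) := eval_X _
      have h7 : E p (C (X j)) = X j := eval_C _
      rw [h6, h7]
      show E p (θ i j) * _ = -(E p (θ i j) * _)
      ring
    simp only [h5, Finset.sum_neg_distrib, neg_inj] at h1
    exact h1.symm
  -- the other points
  have hoth : ∀ p ∈ Z, p ≠ p₀ → ∃ s : MvPolynomial (Fin m) Ω, eval p₀ s ≠ 0 ∧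
      s * E p M.det ∈ Ideal.span (Set.range g) := by
    intro p hp hpp
    obtain ⟨j, hj⟩ : ∃ j, p j ≠ p₀ j := by
      by_contra hall
      push Not at hall
      exact hpp (funext hall)
    refine ⟨X j - C (p j), ?_, ?_⟩
    · simp only [map_sub, eval_X, eval_C]
      exact sub_ne_zero.2 (Ne.symm hj)
    · set Θ := (E p).mapMatrix M with hΘdef
      have h1 : E p M.det = Θ.det := RingHom.map_det _ _
      have h2 : Θ.adjugate.mulVec (Θ.mulVec fun j => X j - C (p j)) =
          Θ.det • fun j => X j - C (p j) := by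
        rw [Matrix.mulVec_mulVec, Matrix.adjugate_mul, Matrix.smul_mulVec, Matrix.one_mulVec]
      have h3 : (Θ.mulVec fun j => X j - C (p j)) = g := by
        funext i
        rw [Matrix.mulVec, dotProduct]
        exact hΘ p hp i
      have h4 := congrFun h2 j
      rw [h3, Pi.smul_apply, smul_eq_mul, Matrix.mulVec, dotProduct] at h4
      rw [h1, mul_comm, ← h4]
      exact Ideal.sum_mem _ fun i _ => Ideal.mul_mem_left _ _ (Ideal.subset_span ⟨i, rfl⟩)
  have hoth' : ∀ p : Fin m → Ω, ∃ s : MvPolynomial (Fin m) Ω, p ∈ Z → p ≠ p₀ →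
      eval p₀ s ≠ 0 ∧ s * E p M.det ∈ Ideal.span (Set.range g) := by
    intro p
    by_cases h : p ∈ Z ∧ p ≠ p₀
    · obtain ⟨s, h1, h2⟩ := hoth p h.1 h.2
      exact ⟨s, fun _ _ => ⟨h1, h2⟩⟩
    · exact ⟨0, fun h1 h2 => absurd ⟨h1, h2⟩ h⟩
  choose s hs using hoth'
  set s' : MvPolynomial (Fin m) Ω := ∏ p ∈ Z.erase p₀, s p with hs'
  have hs'0 : eval p₀ s' ≠ 0 := by
    rw [hs', map_prod]
    refine Finset.prod_ne_zero_iff.2 fun p hp => ?_
    rw [Finset.mem_erase] at hp
    exact (hs p hp.2 hp.1).1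
  refine Bezt.wiebe p₀ g (hZ p₀ hp₀) ((E p₀).mapMatrix M) (hΘ p₀ hp₀) s' hs'0 ?_
  rw [← RingHom.map_det]
  have h1 : C (lam p₀) * E p₀ M.det = - ∑ p ∈ Z.erase p₀, C (lam p) * E p M.det := by
    rw [← Finset.add_sum_erase Z _ hp₀] at hsum
    exact eq_neg_of_add_eq_zero_left hsum
  have h2 : C (lam p₀) * (s' * E p₀ M.det) ∈ Ideal.span (Set.range g) := by
    have h3 : C (lam p₀) * (s' * E p₀ M.det)
        = - ∑ p ∈ Z.erase p₀, C (lam p) * (s' * E p M.det) := by
      calc C (lam p₀) * (s' * E p₀ M.det) = s' * (C (lam p₀) * E p₀ M.det) := by ring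
        _ = _ := by
          rw [h1, mul_neg, Finset.mul_sum]
          congr 1
          exact Finset.sum_congr rfl fun p _ => by ring
    rw [h3]
    refine neg_mem (Ideal.sum_mem _ fun p hp => Ideal.mul_mem_left _ _ ?_)
    have h4 : s' = s p * ∏ q ∈ (Z.erase p₀).erase p, s q :=
      (Finset.mul_prod_erase _ _ hp).symm
    rw [Finset.mem_erase] at hp
    have h5 := (hs p hp.2 hp.1).2
    have h6 : s' * E p M.det = (∏ q ∈ (Z.erase p₀).erase p, s q) * (s p * E p M.det) := by
      rw [h4]; ring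
    rw [h6]
    exact Ideal.mul_mem_left _ _ h5
  have h3 : s' * E p₀ M.det = C (lam p₀)⁻¹ * (C (lam p₀) * (s' * E p₀ M.det)) := by
    rw [← mul_assoc, ← C_mul, inv_mul_cancel₀ hne, C_1, one_mul]
  rw [h3]
  exact Ideal.mul_mem_left _ _ h2

end Pool.DynLehmer.LW
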