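import Pool.Agent.Lib.MP_2194ec_nt.LW.Defs
import Pool.Agent.Lib.MP_2194ec_nt.LP.Hcmp
import Pool.Agent.Lib.MP_2194ec_nt.LP.FinA
import Pool.Agent.Lib.MP_2194ec_nt.GAL.R.Hts
import Pool.Agent.Lib.MP_2194ec_nt.GAL.R.Root
import Pool.Agent.Lib.MP_2194ec_nt.GAL.R.Bez
import Pool.Agent.Lib.MP_2194ec_nt.GAL.R.Fib
import Pool.Agent.Lib.MP_2194ec_nt.GAL.R.Jac
import Pool.Agent.Lib.MP_2194ec_nt.GAL.R.Lev
import Pool.Agent.Lib.MP_2194ec_nt.GAL.R.Chn
import Pool.Agent.Lib.MP_2194ec_nt.GAL.R.Mor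
import Pool.Agent.Lib.MP_2194ec_nt.GAL.R.Pre
import Pool.Agent.Lib.MP_2194ec_nt.GAL.R.Cntw

set_option autoImplicit false
set_option linter.unusedSectionVars false

/-!
# Row CNTU: finitely many periodic forms of bounded degree over the algebraic closure
-/

namespace Pool.DynLehmer.LW
open MvPolynomial NumberField Filter Topology Pool.DynLehmer Pool.DynLehmer.GS Pool.DynLehmer.LP
open scoped Classical

namespace Cntu

section base

variable {K : Type} [Field K] {A : Type} [Field A] [Algebra K A]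

/-- base change of forms -/
noncomputable def bc (A : Type) [Field A] [Algebra K A] (F : Fin 2 → MvPolynomial (Fin 2) K) :
    Fin 2 → MvPolynomial (Fin 2) A := fun i => map (algebraMap K A) (F i)

theorem gAct_bc (F : Fin 2 → MvPolynomial (Fin 2) K) : gAct (bc A F) A = gAct F A := by
  funext P i
  exact aeval_map_algebraMap A P (F i)

theorem wand_bc {F : Fin 2 → MvPolynomial (Fin 2) K} {P : Fin 2 → A} :
    WandP (bc A F) P ↔ WandP F P := by
  unfold WandP
  rw [gAct_bc]

theorem jac_bc (F : Fin 2 → MvPolynomial (Fin 2) K) :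
    Jac (bc A F) = map (algebraMap K A) (Jac F) := by
  unfold Jac bc
  rw [map_sub, map_mul, map_mul, pderiv_map, pderiv_map, pderiv_map, pderiv_map]

theorem aeval_jac_bc (F : Fin 2 → MvPolynomial (Fin 2) K) (P : Fin 2 → A) :
    aeval P (Jac (bc A F)) = aeval P (Jac F) := by
  rw [jac_bc]
  exact aeval_map_algebraMap A P (Jac F)

theorem mor_bc {q : ℕ} {F : Fin 2 → MvPolynomial (Fin 2) K} (hM : Mor q F) : Mor q (bc A F) where
  hom i := (hM.hom i).map _
  ne N _ _ P hP := by
    let _ : Algebra K N := ((algebraMap A N).comp (algebraMap K A)).toAlgebra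
    have h1 : gAct (bc A F) N P = gAct F N P := by
      funext i
      change aeval P (map (algebraMap K A) (F i)) = aeval P (F i)
      rw [aeval_def, eval₂_map, aeval_def]
      rfl
    rw [h1]
    exact hM.ne N P hP

end base

/-! ### Heights of points over the algebraic closure -/

/-- the canonical height of a wandering point, the same in all fields -/
theorem exists_ht {K : Type} [Field K] [NumberField K] {p s : ℕ} {v : FinitePlace K}
    {F : Fin 2 → MvPolynomial (Fin 2) K} (hF : HypR p s v F) (W : Fin 2 → AlgebraicClosure K)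
    (hW : W ≠ 0) (hw : WandP F W) : ∃ h : ℝ, 0 < h ∧
      ∀ (L : IntermediateField K (AlgebraicClosure K)) [NumberField L] (y : Fin 2 → L),
        Prl (fun i => (y i : AlgebraicClosure K)) W → HasHt (p ^ s) F y h := by
  obtain ⟨A, B, hA, hB, H⟩ := Hts.bound hF
  set L₀ := IntermediateField.adjoin K {W 0 / W 1} with hL₀
  have hfd : FiniteDimensional K L₀ :=
    IntermediateField.adjoin.finiteDimensional (Algebra.IsIntegral.isIntegral _)
  have hnf : NumberField L₀ := NumberField.of_module_finite K _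
  obtain ⟨u, hu0, hu, -⟩ := FinAux.exists_pt L₀ hW (IntermediateField.mem_adjoin_simple_self K _)
  have huw : WandP F u := (Bas.wandP_map L₀.val).1 (Bas.wandP_prl hF.hom (Bas.prl_symm hu) hw)
  obtain ⟨h, hlim, hle⟩ := H L₀ u hu0 huw
  have hpos : 0 < h := by
    refine lt_of_lt_of_le ?_ hle
    have : 0 < Module.finrank K L₀ := Module.finrank_pos
    positivity
  refine ⟨h, hpos, fun L _ y hy => ?_⟩
  have hLL : L₀ ≤ L := by
    rw [hL₀, IntermediateField.adjoin_simple_le_iff]
    obtain ⟨c, hc, e⟩ := Bas.prl_symm hy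
    have h1 : W 0 / W 1 = ((y 0 / y 1 : L) : AlgebraicClosure K) := by
      rw [e]
      simp [mul_div_mul_left _ _ hc]
    rw [h1]
    exact (y 0 / y 1).2
  have hprl : Prl y (fun i => IntermediateField.inclusion hLL (u i)) := by
    have h1 : Prl (fun i => (y i : AlgebraicClosure K)) (fun i => (u i : AlgebraicClosure K)) :=
      Bas.prl_trans hy hu
    have hy0 : y ≠ 0 := by
      rintro rfl
      have h2 := Bas.prl_ne h1 (by
        intro h3
        apply hu0
        funext i
        have := congrFun h3 i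
        exact Subtype.ext this)
      exact h2 (by funext i; rfl)
    have hu1 : (fun i => IntermediateField.inclusion hLL (u i)) ≠ 0 := by
      intro h3
      apply hu0
      funext i
      have h4 := congrFun h3 i
      exact (IntermediateField.inclusion hLL).toRingHom.injective
        (by rw [Pi.zero_apply, map_zero]; exact h4)
    rw [Bas.prl_iff_det hy0 hu1]
    have hy1 : (fun i => (y i : AlgebraicClosure K)) ≠ 0 := by
      intro h3
      apply hy0
      funext i
      exact Subtype.ext (congrFun h3 i)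
    have hu2 : (fun i => (u i : AlgebraicClosure K)) ≠ 0 := by
      intro h3
      apply hu0
      funext i
      exact Subtype.ext (congrFun h3 i)
    have h5 := (Bas.prl_iff_det hy1 hu2).1 h1
    exact Subtype.ext h5
  refine hlim.congr fun n => ?_
  congr 1
  have h1 := Bas.prl_iter hF.hom hprl n
  obtain ⟨c, hc, h2⟩ := h1
  have h3 : (gAct F L)^[n] (fun i => IntermediateField.inclusion hLL (u i)) =
      fun i => IntermediateField.inclusion hLL ((gAct F L₀)^[n] u i) :=
    gAct_iter_map F (IntermediateField.inclusion hLL) n u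
  rw [h2, Height.logHeight_smul_eq_logHeight _ hc, h3]
  exact (logHeight_hom ((IntermediateField.inclusion hLL : L₀ →ₐ[K] L) : L₀ →+* L) _).symm

/-- a form which becomes irreducible over a larger field is irreducible -/
theorem irr_of_map {L A σ : Type} [Field L] [Field A] (f : L →+* A) {G : MvPolynomial σ L}
    (h : Irreducible (map f G)) : Irreducible G := by
  have hu : ∀ a : MvPolynomial σ L, IsUnit (map f a) → IsUnit a := by
    intro a ha
    rw [MvPolynomial.isUnit_iff] at ha ⊢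
    obtain ⟨h1, h2⟩ := ha
    rw [coeff_map] at h1
    refine ⟨?_, fun i hi => ?_⟩
    · rw [isUnit_iff_ne_zero] at h1 ⊢
      rintro h0
      exact h1 (by rw [h0, map_zero])
    · have h3 := h2 i hi
      rw [coeff_map, isNilpotent_iff_eq_zero, map_eq_zero] at h3
      rw [h3]
      exact IsNilpotent.zero
  refine ⟨fun h0 => h.not_isUnit (h0.map (MvPolynomial.map f)), fun a b hab => ?_⟩
  have h1 := h.isUnit_or_isUnit (a := MvPolynomial.map f a) (b := MvPolynomial.map f b)
    (by rw [hab, map_mul])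
  rcases h1 with h1 | h1
  · exact Or.inl (hu a h1)
  · exact Or.inr (hu b h1)

theorem ht_le {K : Type} [Field K] [NumberField K] {p s : ℕ} {v : FinitePlace K}
    {F : Fin 2 → MvPolynomial (Fin 2) K} (hF : HypR p s v F) (hM : Mor (p ^ s) F) {A : Type}
    [Field A] [Algebra K A] [Algebra.IsAlgebraic K A] {e : ℕ}
    {G : MvPolynomial (Fin 2 ⊕ Fin 2) A}
    (hG : PerForm (bc A F) e G) {P P' : Fin 2 → A}
    (hP : P ≠ 0) (hP' : P' ≠ 0) (hev : GS.ev P P' G = 0) {h h' : ℝ} (h0 : 0 ≤ h')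
    (hh : ∀ (L : IntermediateField K A) [NumberField L] (y : Fin 2 → L),
      Prl (fun i => (y i : A)) P → HasHt (p ^ s) F y h)
    (hh' : ∀ (L : IntermediateField K A) [NumberField L] (y : Fin 2 → L),
      Prl (fun i => (y i : A)) P' → HasHt (p ^ s) F y h') : h ≤ e * h' := by
  classical
  obtain ⟨d₁, d₂, hd₁, hd₁e, hd₂, hd₂e, hB⟩ := hG.hom
  obtain ⟨k, hk, hk1⟩ := hG.per
  have hq : 2 ≤ p ^ s := by
    calc 2 ≤ p := hF.prime.two_le
      _ = p ^ 1 := (pow_one p).symm
      _ ≤ p ^ s := Nat.pow_le_pow_right hF.prime.pos hF.pos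
  -- the field
  let S : Finset A := (G.support.image fun t => coeff t G) ∪ {P 0 / P 1, P' 0 / P' 1}
  set L : IntermediateField K A := IntermediateField.adjoin K (S : Set A) with hL
  have hfd : FiniteDimensional K L :=
    IntermediateField.finiteDimensional_adjoin (S := (S : Set A))
      (fun x _ => Algebra.IsIntegral.isIntegral x)
  have hnf : NumberField L := NumberField.of_module_finite K _
  have hSL : ∀ x ∈ S, x ∈ L := fun x hx => IntermediateField.subset_adjoin K _ hx
  obtain ⟨G₁, hG₁⟩ : ∃ G₁ : MvPolynomial (Fin 2 ⊕ Fin 2) L, map (algebraMap L A) G₁ = G := by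
    have h1 : G ∈ Set.range (map (algebraMap L A) : MvPolynomial (Fin 2 ⊕ Fin 2) L →
        MvPolynomial (Fin 2 ⊕ Fin 2) A) := by
      rw [mem_range_map_iff_coeffs_subset]
      intro c hc
      obtain ⟨t, ht, rfl⟩ := mem_coeffs_iff.1 hc
      exact ⟨⟨coeff t G, hSL _ (Finset.mem_union_left _ (Finset.mem_image_of_mem _ ht))⟩, rfl⟩
    exact h1
  have hinj : Function.Injective (algebraMap L A) := (algebraMap L A).injective
  have hsupp : G₁.support = G.support := by
    rw [← hG₁]
    exact (support_map_of_injective G₁ hinj).symm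
  have hB₁ : BiHom d₁ d₂ G₁ := fun t ht => hB t (hsupp ▸ ht)
  have hirr : Irreducible G₁ := irr_of_map (algebraMap L A) (hG₁ ▸ hG.irr)
  obtain ⟨x, hx0, hx, -⟩ := FinAux.exists_pt L hP (hSL _ (Finset.mem_union_right _ (by simp)))
  obtain ⟨x', hx0', hx', -⟩ :=
    FinAux.exists_pt L hP' (hSL _ (Finset.mem_union_right _ (by simp)))
  have hht := hh L x (Bas.prl_symm hx)
  have hht' := hh' L x' (Bas.prl_symm hx')
  -- the orbit over `L`
  have horb : ∀ j : ℕ, GS.ev ((gAct F L)^[k * j] x) ((gAct F L)^[k * j] x') G₁ = 0 := by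
    intro j
    apply hinj
    rw [map_zero]
    have h1 : algebraMap L A (GS.ev ((gAct F L)^[k * j] x) ((gAct F L)^[k * j] x') G₁) =
        GS.ev (fun i => (((gAct F L)^[k * j] x i : L) : A))
          (fun i => (((gAct F L)^[k * j] x' i : L) : A)) G := by
      unfold GS.ev
      rw [← hG₁, aeval_map_algebraMap, ← aeval_algebraMap_apply]
      congr 2
      funext i
      rcases i with i | i <;> rfl
    rw [h1]
    have h2 : (gAct F A)^[k * j] (fun i => (x i : A)) =
        fun i => (((gAct F L)^[k * j] x i : L) : A) := gAct_iter_map F L.val (k * j) x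
    have h3 : (gAct F A)^[k * j] (fun i => (x' i : A)) =
        fun i => (((gAct F L)^[k * j] x' i : L) : A) := gAct_iter_map F L.val (k * j) x'
    rw [← h2, ← h3]
    have h4 := Cntw.ev_orbit hk1 hev j
    rw [gAct_bc] at h4
    exact (Bas.ev_prl hB (Bas.prl_iter hF.hom hx _) (Bas.prl_iter hF.hom hx' _)).1 h4
  obtain ⟨B, hB0, hBB⟩ := Hcmp.half L d₂ d₁ (rename Sum.swap G₁) (Bas.biHom_swap hB₁)
    (Bas.irreducible_swap hirr) hd₂ hd₁
  have hq0 : (0 : ℝ) < ((p ^ s : ℕ) : ℝ) := by
    have : 0 < p ^ s := by omega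
    exact_mod_cast this
  have hq1 : (1 : ℝ) < ((p ^ s : ℕ) : ℝ) := by
    have : 1 < p ^ s := by omega
    exact_mod_cast this
  have hsub : Tendsto (fun j : ℕ => k * j) atTop atTop := tendsto_id.const_mul_atTop' hk
  have h1 := hht.comp hsub
  have h2 := hht'.comp hsub
  have h3 : Tendsto (fun j : ℕ => B / ((p ^ s : ℕ) : ℝ) ^ (k * j)) atTop (𝓝 0) :=
    ((tendsto_const_nhds (x := B)).div_atTop (tendsto_pow_atTop_atTop_of_one_lt hq1)).comp hsub
  have h4 := (h2.const_mul (d₂ : ℝ)).add h3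
  rw [add_zero] at h4
  have h5 : h ≤ d₂ * h' := by
    refine le_of_tendsto_of_tendsto' h1 h4 fun j => ?_
    have h6 := hBB L ((gAct F L)^[k * j] x') ((gAct F L)^[k * j] x) (Bas.iter_ne hM hx0' _)
      (Bas.iter_ne hM hx0 _) (by
        rw [Bas.ev_swap]
        exact horb j)
    have h7 := pow_pos hq0 (k * j)
    simp only [Function.comp_apply]
    rw [div_le_iff₀ h7]
    calc _ ≤ _ := h6
      _ = _ := by field_simp
  refine h5.trans (mul_le_mul_of_nonneg_right ?_ h0)
  exact_mod_cast hd₂e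

end Cntu

open Cntu in
/-- Row CNTU. -/
theorem cntu : CntuStatement := by
  classical
  intro K _ _ p s v F hF hcrit e
  obtain ⟨U, hU, hUc, hUw⟩ := hcrit
  have hM : Mor (p ^ s) F := mor K p s v F hF
  have hM' : Mor (p ^ s) (bc (AlgebraicClosure K) F) := mor_bc hM
  have hchar : CharZero (AlgebraicClosure K) :=
    charZero_of_injective_algebraMap (algebraMap K (AlgebraicClosure K)).injective
  have hq : 2 ≤ p ^ s := by
    calc 2 ≤ p := hF.prime.two_le
      _ = p ^ 1 := (pow_one p).symm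
      _ ≤ p ^ s := Nat.pow_le_pow_right hF.prime.pos hF.pos
  have hqr : (0 : ℝ) < ((p ^ s : ℕ) : ℝ) := by
    have : 0 < p ^ s := by omega
    exact_mod_cast this
  obtain ⟨hJ0, hJd, -⟩ := jac K (p ^ s) F (by omega) hM
  obtain ⟨ZJ, -, hZJ⟩ := root K (AlgebraicClosure K) _ (Jac F) hJ0 hJd
  obtain ⟨CL, hCL⟩ := lev root jac K (p ^ s) F hq hM U hU hUw
  obtain ⟨hU0, hUpos, hUh⟩ := exists_ht hF U hU hUw
  -- the heights of the wandering critical points
  have hH : ∀ z : Option (AlgebraicClosure K), ∃ h : ℝ, WandP F (Cntw.vec z) → 0 < h ∧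
      ∀ (L : IntermediateField K (AlgebraicClosure K)) [NumberField L] (y : Fin 2 → L),
        Prl (fun i => (y i : AlgebraicClosure K)) (Cntw.vec z) → HasHt (p ^ s) F y h := by
    intro z
    by_cases hz : WandP F (Cntw.vec z)
    · obtain ⟨h, h1, h2⟩ := exists_ht hF (Cntw.vec z) (Cntw.vec_ne z) hz
      exact ⟨h, fun _ => ⟨h1, h2⟩⟩
    · exact ⟨0, fun h => absurd h hz⟩
  choose hz hzs using hH
  obtain ⟨CH, hCH0, hCH⟩ : ∃ CH : ℝ, 0 ≤ CH ∧ ∀ z ∈ ZJ, hz z ≤ CH := by
    refine ⟨∑ z ∈ ZJ, |hz z|, Finset.sum_nonneg fun _ _ => abs_nonneg _, fun z hzz => ?_⟩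
    exact (le_abs_self _).trans (Finset.single_le_sum (f := fun z => |hz z|)
      (fun _ _ => abs_nonneg _) hzz)
  obtain ⟨m, Z, hZc, -, hZ⟩ := hCL (2 * e ^ 2)
  obtain ⟨X, -, hX⟩ := pre root K (AlgebraicClosure K) (p ^ s) F (by omega) hM U hU m
  obtain ⟨Mq, hMq⟩ : ∃ Mq : ℕ, ((p ^ s : ℕ) : ℝ) ^ m * (e * CH) / hU0 ≤ Mq :=
    ⟨_, Nat.le_ceil _⟩
  obtain ⟨Y, -, hY⟩ := Cntw.back (pre root) hq hM ZJ Mq
  let good : Option (AlgebraicClosure K) × Option (AlgebraicClosure K) →
      MvPolynomial (Fin 2 ⊕ Fin 2) (AlgebraicClosure K) → Prop := fun w G =>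
    PerForm (bc (AlgebraicClosure K) F) e G ∧
    WandP (bc (AlgebraicClosure K) F) (Cntw.vec w.1) ∧
    GS.ev (Cntw.vec w.1) (Cntw.vec w.2) G = 0
  let g : Option (AlgebraicClosure K) × Option (AlgebraicClosure K) →
      MvPolynomial (Fin 2 ⊕ Fin 2) (AlgebraicClosure K) :=
    fun w => if h : ∃ G, good w G then h.choose else 0
  refine ⟨(X ×ˢ Y).image g, fun G hG => ?_⟩
  have hG' : PerForm (bc (AlgebraicClosure K) F) e G := hG
  obtain ⟨P, P', hP, hP', hev, hPU, hPw, hPw', i, hi⟩ :=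
    Cntw.good_pair root bez fib jac chn (by omega) hM' hG' (U := U)
      (by rw [aeval_jac_bc]; exact hUc) (wand_bc.2 hUw) hZc (by
        intro z hzZ
        rw [gAct_bc]
        exact hZ z hzZ)
  rw [gAct_bc] at hPU hi
  rw [aeval_jac_bc] at hi
  rw [wand_bc] at hPw hPw'
  obtain ⟨d₁, d₂, hd₁, -, hd₂, hd₂e, hB⟩ := hG'.hom
  have hPX : pr P ∈ X := hX P hP hPU
  obtain ⟨z, hzdef⟩ : ∃ z, z = pr ((gAct F (AlgebraicClosure K))^[i] P') := ⟨_, rfl⟩
  have hzJ : z ∈ ZJ := by
    rw [hzdef]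
    exact hZJ _ (Bas.iter_ne hM hP' i) hi
  have hprl : Prl ((gAct F (AlgebraicClosure K))^[i] P') (Cntw.vec z) := by
    rw [hzdef]
    exact Cntw.prl_vec (Bas.iter_ne hM hP' i)
  have hzw : WandP F (Cntw.vec z) :=
    Bas.wandP_prl hM.hom (Bas.prl_symm hprl) (Bas.wandP_iter hPw' i)
  obtain ⟨hzpos, hzh⟩ := hzs z hzw
  obtain ⟨hp, hppos, hph⟩ := exists_ht hF P hP hPw
  obtain ⟨hp', hppos', hph'⟩ := exists_ht hF P' hP' hPw'
  have hle : hp ≤ e * hp' := ht_le hF hM hG' hP hP' hev hppos'.le hph hph'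
  -- heights of iterates
  have hiter : ∀ (W V : Fin 2 → AlgebraicClosure K) (n : ℕ) (hW hV : ℝ), W ≠ 0 →
      Prl ((gAct F (AlgebraicClosure K))^[n] W) V →
      (∀ (L : IntermediateField K (AlgebraicClosure K)) [NumberField L] (y : Fin 2 → L),
        Prl (fun i => (y i : AlgebraicClosure K)) W → HasHt (p ^ s) F y hW) →
      (∀ (L : IntermediateField K (AlgebraicClosure K)) [NumberField L] (y : Fin 2 → L),
        Prl (fun i => (y i : AlgebraicClosure K)) V → HasHt (p ^ s) F y hV) →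
      hV = ((p ^ s : ℕ) : ℝ) ^ n * hW := by
    intro W V n hW hV hW0 hWV h1 h2
    set L := IntermediateField.adjoin K {W 0 / W 1} with hL
    have hfd : FiniteDimensional K L :=
      IntermediateField.adjoin.finiteDimensional (Algebra.IsIntegral.isIntegral _)
    have hnf : NumberField L := NumberField.of_module_finite K _
    obtain ⟨x, hx0, hx, -⟩ := FinAux.exists_pt L hW0 (IntermediateField.mem_adjoin_simple_self K _)
    have h3 := h1 L x (Bas.prl_symm hx)
    have h4 := h2 L ((gAct F L)^[n] x) (by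
      have h5 : (gAct F (AlgebraicClosure K))^[n] (fun i => (x i : AlgebraicClosure K)) =
        fun i => (((gAct F L)^[n] x i : L) : AlgebraicClosure K) := gAct_iter_map F L.val n x
      rw [← h5]
      exact Bas.prl_trans (Bas.prl_symm (Bas.prl_iter hF.hom hx n)) hWV)
    have h6 := ((tendsto_add_atTop_iff_nat n).2 h3).const_mul (((p ^ s : ℕ) : ℝ) ^ n)
    refine tendsto_nhds_unique h4 (h6.congr fun j => ?_)
    rw [← Function.iterate_add_apply, pow_add]
    have := pow_pos hqr j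
    have := pow_pos hqr n
    field_simp
  have e1 := hiter P U m hp hU0 hP hPU hph hUh
  have e2 := hiter P' (Cntw.vec z) i hp' (hz z) hP' hprl hph' hzh
  have hlevel : (p ^ s) ^ i ≤ Mq := by
    have h1 : ((p ^ s : ℕ) : ℝ) ^ i ≤ ((p ^ s : ℕ) : ℝ) ^ m * (e * CH) / hU0 := by
      rw [le_div_iff₀ hUpos, e1]
      have h2 : ((p ^ s : ℕ) : ℝ) ^ i * hp ≤ e * CH := by
        calc ((p ^ s : ℕ) : ℝ) ^ i * hp ≤ ((p ^ s : ℕ) : ℝ) ^ i * (e * hp') := by gcongr
          _ = e * (((p ^ s : ℕ) : ℝ) ^ i * hp') := by ring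
          _ = e * hz z := by rw [← e2]
          _ ≤ e * CH := by
              have := hCH z hzJ
              gcongr
      calc ((p ^ s : ℕ) : ℝ) ^ i * (((p ^ s : ℕ) : ℝ) ^ m * hp) =
          ((p ^ s : ℕ) : ℝ) ^ m * (((p ^ s : ℕ) : ℝ) ^ i * hp) := by ring
        _ ≤ _ := by gcongr
    exact_mod_cast h1.trans hMq
  have hPY : pr P' ∈ Y := hY _ hzJ i hlevel P' hP' hprl
  have hwx : WandP (bc (AlgebraicClosure K) F) (Cntw.vec (pr P)) :=
    wand_bc.2 (Bas.wandP_prl hM.hom (Bas.prl_symm (Cntw.prl_vec hP)) hPw)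
  have hgood : ∃ G, good (pr P, pr P') G :=
    ⟨G, hG', hwx, (Bas.ev_prl hB (Cntw.prl_vec hP) (Cntw.prl_vec hP')).1 hev⟩
  refine ⟨g (pr P, pr P'), Finset.mem_image.2 ⟨(pr P, pr P'),
    Finset.mem_product.2 ⟨hPX, hPY⟩, rfl⟩, ?_⟩
  have hgs : good (pr P, pr P') (g (pr P, pr P')) := by
    have : g (pr P, pr P') = hgood.choose := dif_pos hgood
    rw [this]
    exact hgood.choose_spec
  exact Cntw.uniq root bez hM' hG' hgs.1 (Cntw.vec_ne _) (Cntw.vec_ne _) hwx
    ((Bas.ev_prl hB (Cntw.prl_vec hP) (Cntw.prl_vec hP')).1 hev) hgs.2.2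

end Pool.DynLehmer.LW
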