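import Mathlib

set_option autoImplicit false

/-!
# Invariant subvarieties from equal truncated ideals: statements of the geometric rows
-/

namespace Pool.DynLehmer.LW
open MvPolynomial
open scoped Classical

/-- the Hilbert function of an ideal: the dimension of the forms of degree `b` modulo `P` -/
noncomputable def hf {K ι : Type} [Field K] (P : Ideal (MvPolynomial ι K)) (b : ℕ) : ℕ :=
  Module.finrank K ((homogeneousSubmodule ι K b).map (Ideal.Quotient.mkₐ K P).toLinearMap)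

/-- the transcendence degree of `K[X] / P` (the projective dimension is `dimI P - 1`) -/
noncomputable def dimI {K ι : Type} [Field K] (P : Ideal (MvPolynomial ι K)) : ℕ :=
  Cardinal.toNat (Algebra.trdeg K (MvPolynomial ι K ⧸ P))

/-- homogeneous ideals -/
def HomI {K ι : Type} [Field K] (P : Ideal (MvPolynomial ι K)) : Prop :=
  ∀ f ∈ P, ∀ n : ℕ, homogeneousComponent n f ∈ P

/-- linear Noether normalization -/
structure NN {K ι : Type} [Field K] (P : Ideal (MvPolynomial ι K)) (d : ℕ)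
    (T : Fin (d + 1) → MvPolynomial ι K) : Prop where
  lin : ∀ i, (T i).IsHomogeneous 1
  alg : AlgebraicIndependent K (fun i => Ideal.Quotient.mk P (T i))
  int : ∀ x : MvPolynomial ι K ⧸ P,
    IsIntegral (Algebra.adjoin K (Set.range fun i => Ideal.Quotient.mk P (T i))) x

/-- the rank of `K[X] / P` over `K[T]` -/
noncomputable def rk {K ι : Type} [Field K] (P : Ideal (MvPolynomial ι K)) {d : ℕ}
    (T : Fin (d + 1) → MvPolynomial ι K) : ℕ :=
  Module.finrank (Algebra.adjoin K (Set.range fun i => Ideal.Quotient.mk P (T i)))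
    (MvPolynomial ι K ⧸ P)

/-! ## Transcendence degree -/

/-- Row TRD: the transcendence degree and inclusions of primes. -/
def TrdStatement : Prop :=
  ∀ (K ι : Type) [Field K] [Fintype ι] (P P' : Ideal (MvPolynomial ι K)), P.IsPrime →
    P'.IsPrime → P ≤ P' → dimI P ≤ Fintype.card ι ∧ dimI P' ≤ dimI P ∧
      (dimI P' = dimI P → P = P') ∧ (dimI P = 0 → P.IsMaximal)

/-- Row TRC: the transcendence degree and morphisms. -/
def TrcStatement : Prop :=
  ∀ (K ι : Type) [Field K] [Fintype ι] (q : ℕ) (F : ι → MvPolynomial ι K), 1 ≤ q →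
    (∀ i, (F i).IsHomogeneous q) →
    (∀ z : ι → AlgebraicClosure K, (∀ i, aeval z (F i) = 0) → z = 0) →
    ∀ P : Ideal (MvPolynomial ι K), P.IsPrime → HomI P →
      (P.comap (bind₁ F : MvPolynomial ι K →ₐ[K] MvPolynomial ι K).toRingHom).IsPrime ∧
      HomI (P.comap (bind₁ F : MvPolynomial ι K →ₐ[K] MvPolynomial ι K).toRingHom) ∧
      dimI (P.comap (bind₁ F : MvPolynomial ι K →ₐ[K] MvPolynomial ι K).toRingHom) = dimI P

/-! ## Hilbert functions -/

/-- Row NNE: linear forms which are a Noether normalization for finitely many primes. -/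
def NneStatement : Prop :=
  ∀ (K ι : Type) [Field K] [Infinite K] [Fintype ι] (d r : ℕ)
    (P : Fin r → Ideal (MvPolynomial ι K)), (∀ a, (P a).IsPrime) → (∀ a, HomI (P a)) →
    (∀ a, dimI (P a) = d + 1) → ∃ T : Fin (d + 1) → MvPolynomial ι K, ∀ a, NN (P a) d T

/-- Row UPP: the upper bound for the Hilbert function. -/
def UppStatement : Prop :=
  ∀ (K ι : Type) [Field K] [CharZero K] [Fintype ι] (P : Ideal (MvPolynomial ι K)) (d : ℕ)
    (T : Fin (d + 1) → MvPolynomial ι K), P.IsPrime → HomI P → NN P d T →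
    1 ≤ rk P T ∧ ∀ b : ℕ, hf P b ≤ rk P T * (b + d).choose d

/-- Row BEZT: isolated zeros impose independent conditions (Bezoutian). -/
def BeztStatement : Prop :=
  ∀ (Ω : Type) [Field Ω] (m b : ℕ) (g : Fin m → MvPolynomial (Fin m) Ω),
    (∀ i, (g i).totalDegree ≤ b) → ∀ Z : Finset (Fin m → Ω),
    (∀ p ∈ Z, RingHom.ker (eval p) ∈ (Ideal.span (Set.range g)).minimalPrimes) →
    ∀ lam : (Fin m → Ω) → Ω,
    (∀ ψ : MvPolynomial (Fin m) Ω, ψ.totalDegree ≤ m * b → ∑ p ∈ Z, lam p * eval p ψ = 0) →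
    ∀ p ∈ Z, lam p = 0

/-- Row AVD: `m` elements of a space of polynomials suffice to isolate finitely many points. -/
def AvdStatement : Prop :=
  ∀ (K Ω : Type) [Field K] [Infinite K] [Field Ω] [Algebra K Ω] (m : ℕ)
    (Q : Submodule K (MvPolynomial (Fin m) Ω)) (Z : Finset (Fin m → Ω)),
    (∀ p ∈ Z, RingHom.ker (eval p) ∈
      (Ideal.span (Q : Set (MvPolynomial (Fin m) Ω))).minimalPrimes) →
    ∃ g : Fin m → MvPolynomial (Fin m) Ω, (∀ i, g i ∈ Q) ∧
      ∀ p ∈ Z, RingHom.ker (eval p) ∈ (Ideal.span (Set.range g)).minimalPrimes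

/-- Row LOW: the lower bound for the Hilbert function of a union of components of the base locus
of a space of forms of degree `b`. -/
def LowStatement : Prop :=
  ∀ (K ι : Type) [Field K] [CharZero K] [Fintype ι] (b : ℕ)
    (Q : Submodule K (MvPolynomial ι K)), Q ≤ homogeneousSubmodule ι K b →
    ∀ (d r : ℕ) (P : Fin r → Ideal (MvPolynomial ι K)), Function.Injective P →
    (∀ a, P a ∈ (Ideal.span (Q : Set (MvPolynomial ι K))).minimalPrimes) →
    (∀ a, HomI (P a)) → ∀ T : Fin (d + 1) → MvPolynomial ι K, (∀ a, NN (P a) d T) →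
    ∀ b' : ℕ, Fintype.card ι * b ≤ b' →
      (∑ a, rk (P a) T) * (b' - Fintype.card ι * b + d).choose d ≤ hf (⨅ a, P a) b'

/-- Row HIL: the two bounds together, without the linear forms (from NNE, UPP, LOW). -/
def HilStatement : Prop :=
  ∀ (K ι : Type) [Field K] [CharZero K] [Fintype ι] (b : ℕ)
    (Q : Submodule K (MvPolynomial ι K)), Q ≤ homogeneousSubmodule ι K b →
    ∀ (d r : ℕ) (P : Fin r → Ideal (MvPolynomial ι K)), Function.Injective P →
    (∀ a, P a ∈ (Ideal.span (Q : Set (MvPolynomial ι K))).minimalPrimes) →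
    (∀ a, HomI (P a)) → (∀ a, dimI (P a) = d + 1) →
    ∃ Δ : Fin r → ℕ, (∀ a, 1 ≤ Δ a) ∧ (∀ a b', hf (P a) b' ≤ Δ a * (b' + d).choose d) ∧
      ∀ b' : ℕ, Fintype.card ι * b ≤ b' →
        (∑ a, Δ a) * (b' - Fintype.card ι * b + d).choose d ≤ hf (⨅ a, P a) b'

/-! ## Proposition S -/

/-- Row PROPS: equal truncated ideals give an invariant subvariety. -/
def PropsStatement : Prop :=
  ∀ (ι : Type) [Fintype ι], ∃ C e : ℕ, 1 ≤ C ∧
    ∀ (K : Type) [Field K] [CharZero K] (q : ℕ) (F : ι → MvPolynomial ι K), 1 ≤ q →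
    (∀ i, (F i).IsHomogeneous q) →
    (∀ z : ι → AlgebraicClosure K, (∀ i, aeval z (F i) = 0) → z = 0) →
    ∀ (N : Type) [Field N] [Algebra K N] (R : ℕ → ι → N), R 0 ≠ 0 →
    (∀ l i, R (l + 1) i = aeval (R l) (F i)) → ∀ j : ℕ, 1 ≤ j → ∀ t0 T : ℕ, 1 ≤ t0 →
    C * (q ^ j) ^ e * t0 ≤ T →
    (∀ f : MvPolynomial ι K, f.IsHomogeneous T → (aeval (R 0) f = 0 ↔ aeval (R j) f = 0)) →
    ∃ (a m : ℕ) (P : Ideal (MvPolynomial ι K)), 1 ≤ m ∧ P.IsPrime ∧ HomI P ∧
      (∀ (f : MvPolynomial ι K) (n : ℕ), f.IsHomogeneous n → f ∈ P → aeval (R (a * j)) f = 0) ∧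
      (∀ f : MvPolynomial ι K, f ∈ P ↔
        (bind₁ F : MvPolynomial ι K →ₐ[K] MvPolynomial ι K)^[m * j] f ∈ P) ∧
      ∀ f : MvPolynomial ι K, f.IsHomogeneous t0 → aeval (R 0) f = 0 → f ∈ P

end Pool.DynLehmer.LW
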