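import Pool.Agent.Lib.MP_2194ec_nt.LP.Defs
import Pool.Agent.Lib.MP_2194ec_nt.LW.Geo

set_option autoImplicit false

/-!
# The dynamical Lehmer bound for tuples of conjugates of small degree: statements of the
arithmetic rows
-/

namespace Pool.DynLehmer.LW
open MvPolynomial NumberField Filter Topology Pool.DynLehmer Pool.DynLehmer.SB Pool.DynLehmer.SP
  Pool.DynLehmer.GS Pool.DynLehmer.LP
open scoped Classical

/-- Row CORED: as `CorebStatement`, the truncated ideals of the levels are only assumed to be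
distinct. `SH.core_wide` when the ramification is small for a proportion `7 / 8` of the
pairs (place, embedding). -/
def CoredStatement : Prop :=
  ∀ (K : Type) [Field K] [NumberField K] (p s : ℕ) (ι : Type) [Fintype ι] [DecidableEq ι]
    [Nonempty ι], 2 ≤ Fintype.card ι → p.Prime → 1 ≤ s → ∀ (v : FinitePlace K)
    (Φ : GF (OW v) p s ι), v (Φ.ϖ : K) < 1 → (Φ.ϖ : K) ≠ 0 →
    ∀ F : ι → MvPolynomial ι K, (∀ i, (F i).IsHomogeneous (p ^ s)) →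
    (∀ z : ι → AlgebraicClosure K, (∀ i, aeval z (F i) = 0) → z = 0) →
    (∀ i, map (OW v).subtype (Φ.F i) = F i) → ∀ f' : ℕ, 1 ≤ f' →
    ∃ k : ℕ, 1 ≤ k ∧ ∀ a : ℝ, 1 ≤ a → ∃ A B : ℝ, 0 < A ∧ 0 < B ∧
      ∀ (L N : Type) [Field L] [NumberField L] [Algebra K L]
      [Field N] [NumberField N] [Algebra K N] [IsGalois K N]
      (S : Finset (FinitePlace N)) (e : FinitePlace N → ℕ) (τ : FinitePlace N → (N ≃ₐ[K] N))
      (E : ℕ), 1 ≤ E → Nat.card (L →ₐ[K] N) = Module.finrank K L →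
      (∀ w ∈ S, Above v w (e w)) → (Module.finrank K N ≤ ∑ w ∈ S, e w) →
      (∀ w ∈ S, ∀ a : N, w a ≤ 1 → w (τ w a - a ^ (p ^ f')) < 1) →
      (∀ w ∈ S, ∀ a : N, w (τ w a) = w a) →
      7 * (Nat.card (L →ₐ[K] N) * ∑ w ∈ S, e w) ≤
        8 * ∑ w ∈ S, e w * Nat.card {φ : L →ₐ[K] N // Low (Φ.ϖ : K) w φ E} →
      ∀ x : ι → L, x ≠ 0 →
      (¬ ∃ m n : ℕ, m ≠ n ∧ ∃ c : L, c ≠ 0 ∧ (gAct F L)^[n] x = c • (gAct F L)^[m] x) →
      ∃ h : ℝ, Tendsto (fun n : ℕ => Height.logHeight ((gAct F L)^[n] x) /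
        (Module.finrank ℚ L : ℝ) / ((p ^ s : ℕ) : ℝ) ^ n) atTop (𝓝 h) ∧ 0 < h ∧
        ∀ D : ℝ, 1 ≤ D → ∃ r0 Lv : ℕ, 1 ≤ Lv ∧
        ((p ^ s : ℕ) : ℝ) ^ ((k + 1) * Lv) ≤ Real.exp (B * (1 + (Real.log D) ^
          (((Fintype.card ι - 1 : ℕ) : ℝ) / (((Fintype.card ι - 1 : ℕ) : ℝ) + 1)))) ∧
        ((p ^ s : ℕ) : ℝ) ^ r0 ≤ ((p ^ s : ℕ) : ℝ) * E * ((p ^ s : ℕ) : ℝ) ^ Lv ∧
        (∀ l l' : ℕ, l ≠ l' → ∀ φ φ' : L →ₐ[K] N, ¬ ∃ c : N,
          (fun t => φ ((gAct F L)^[r0 + k * l] x t)) =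
            c • fun t => φ' ((gAct F L)^[r0 + k * l'] x t)) ∧
        ∀ t : ℕ, 1 ≤ t → (t : ℝ) ≤ a ^ (Lv + 1) * D ^ 2 →
          (∀ l' l : ℕ, l' < l → l < Lv → ∃ f : MvPolynomial ι K, f.IsHomogeneous t ∧
            ¬ (aeval ((gAct F L)^[r0 + k * l'] x) f = 0 ↔
              aeval ((gAct F L)^[r0 + k * l] x) f = 0)) →
          A / ((E : ℝ) * t) * Real.exp (-(B * (1 + (Real.log D) ^
          (((Fintype.card ι - 1 : ℕ) : ℝ) / (((Fintype.card ι - 1 : ℕ) : ℝ) + 1))))) ≤ h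

/-- Row SHARPD: the exponent of a form which vanishes at the point, outside invariant
subvarieties (from CORED and PROPS). -/
def SharpdStatement : Prop :=
  ∀ (K : Type) [Field K] [NumberField K] (p s : ℕ) (ι : Type) [Fintype ι] [DecidableEq ι]
    [Nonempty ι], 2 ≤ Fintype.card ι → p.Prime → 1 ≤ s → ∀ (v : FinitePlace K)
    (P : ι → MvPolynomial ι K), (∀ i, (P i).IsHomogeneous (p ^ s)) → v (p : K) < 1 →
    (∀ i t, v (coeff t (P i)) ≤ 1) →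
    (∀ i t, (∀ j, t ≠ Finsupp.single j (p ^ s)) → v (coeff t (P i)) < 1) →
    v (Matrix.det (Matrix.of fun i j => coeff (Finsupp.single j (p ^ s)) (P i))) = 1 →
    ∀ u : K, u ≠ 0 → v u < 1 → (∀ a : K, v a < 1 → v a ≤ v u) →
    ∃ A B : ℝ, 0 < A ∧ 0 < B ∧ ∀ (E : ℕ), 1 ≤ E →
      ∀ (L N : Type) [Field L] [NumberField L] [Algebra K L]
      [Field N] [NumberField N] [Algebra K N] [IsGalois K N]
      (S : Finset (FinitePlace N)) (e : FinitePlace N → ℕ),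
      Nat.card (L →ₐ[K] N) = Module.finrank K L →
      (∀ w ∈ S, Above v w (e w)) → (Module.finrank K N ≤ ∑ w ∈ S, e w) →
      7 * (Nat.card (L →ₐ[K] N) * ∑ w ∈ S, e w) ≤
        8 * ∑ w ∈ S, e w * Nat.card {φ : L →ₐ[K] N // Low u w φ E} →
      ∀ x : ι → L, x ≠ 0 →
      (¬ ∃ m n : ℕ, m ≠ n ∧ ∃ c : L, c ≠ 0 ∧ (gAct P L)^[n] x = c • (gAct P L)^[m] x) →
      ∀ (D : ℝ) (t0 : ℕ), 1 ≤ D → 1 ≤ t0 → (t0 : ℝ) ≤ D →
      (∃ h : ℝ, Tendsto (fun n : ℕ => Height.logHeight ((gAct P L)^[n] x) /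
        (Module.finrank ℚ L : ℝ) / ((p ^ s : ℕ) : ℝ) ^ n) atTop (𝓝 h) ∧
          A / ((E : ℝ) * t0) * Real.exp (-(B * (1 + (Real.log D) ^
            (((Fintype.card ι - 1 : ℕ) : ℝ) / (((Fintype.card ι - 1 : ℕ) : ℝ) + 1))))) ≤ h) ∨
      ∃ (r r' m : ℕ) (I : Ideal (MvPolynomial ι K)), 1 ≤ m ∧ I.IsPrime ∧ HomI I ∧
        (∀ (f : MvPolynomial ι K) (n : ℕ), f.IsHomogeneous n → f ∈ I →
          aeval ((gAct P L)^[r] x) f = 0) ∧
        (∀ f : MvPolynomial ι K, f ∈ I ↔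
          (bind₁ P : MvPolynomial ι K →ₐ[K] MvPolynomial ι K)^[m] f ∈ I) ∧
        ∀ f : MvPolynomial ι K, f.IsHomogeneous t0 → aeval ((gAct P L)^[r'] x) f = 0 → f ∈ I

/-! ## Products of projective lines -/

/-- the Segre embedding of a product of projective lines -/
def segk {N : Type} [Field N] {k : ℕ} (y : Fin k → Fin 2 → N) : (Fin k → Fin 2) → N :=
  fun I => ∏ i, y i (I i)

/-- the Segre embedding, coordinates -/
noncomputable def segX (K : Type) [Field K] (k : ℕ) :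
    (Fin k → Fin 2) → MvPolynomial (Fin k × Fin 2) K := fun I => ∏ i, X (i, I i)

/-- `Q` is homogeneous of degree `e i` in the `i`-th pair of variables -/
def MH {K : Type} [Field K] {k : ℕ} (e : Fin k → ℕ) (Q : MvPolynomial (Fin k × Fin 2) K) : Prop :=
  ∀ t ∈ Q.support, ∀ i, t (i, 0) + t (i, 1) = e i

/-- the map `F × ... × F` on the variables -/
noncomputable def FX {K : Type} [Field K] (F : Fin 2 → MvPolynomial (Fin 2) K) (k : ℕ) :
    Fin k × Fin 2 → MvPolynomial (Fin k × Fin 2) K :=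
  fun a => rename (fun j => (a.1, j)) (F a.2)

/-- Row SEGK: `F × ... × F` extends to the projective space, with the hypotheses of SHARPD. -/
def SegkStatement : Prop :=
  ∀ (K : Type) [Field K] [NumberField K] (p s : ℕ) (v : FinitePlace K)
    (F : Fin 2 → MvPolynomial (Fin 2) K), HypR p s v F → ∀ k : ℕ, 1 ≤ k →
    ∃ Fz : (Fin k → Fin 2) → MvPolynomial (Fin k → Fin 2) K,
      (∀ I, (Fz I).IsHomogeneous (p ^ s)) ∧ (∀ I t, v (coeff t (Fz I)) ≤ 1) ∧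
      (∀ I t, (∀ J, t ≠ Finsupp.single J (p ^ s)) → v (coeff t (Fz I)) < 1) ∧
      v (Matrix.det (Matrix.of fun I J => coeff (Finsupp.single J (p ^ s)) (Fz I))) = 1 ∧
      (∀ I, bind₁ (segX K k) (Fz I) = bind₁ (FX F k) (segX K k I)) ∧
      ∀ (N : Type) [Field N] [Algebra K N] (y : Fin k → Fin 2 → N),
        gAct Fz N (segk y) = segk (fun i => gAct F N (y i))

/-- Row SEGT: heights, dimension count, proportional tuples. -/
def SegtStatement : Prop :=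
  (∀ (N : Type) [Field N] [NumberField N] (k : ℕ) (y : Fin k → Fin 2 → N),
    Height.logHeight (segk y) ≤ ∑ i, Height.logHeight (y i)) ∧
  (∀ (K L : Type) [Field K] [Field L] [Algebra K L] [FiniteDimensional K L] (k t : ℕ)
    (y : Fin k → Fin 2 → L), Module.finrank K L < (t + 1) ^ k →
    ∃ f : MvPolynomial (Fin k → Fin 2) K, f.IsHomogeneous t ∧ aeval (segk y) f = 0 ∧
      bind₁ (segX K k) f ≠ 0) ∧
  ∀ (N : Type) [Field N] (k : ℕ) (y z : Fin k → Fin 2 → N), (∀ i, y i ≠ 0) → (∀ i, z i ≠ 0) →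
    Prl (segk y) (segk z) → ∀ i, Prl (y i) (z i)

/-- Row PERP: infinitely many periodic points. -/
def PerpStatement : Prop :=
  ∀ (K : Type) [Field K] [NumberField K] (p s : ℕ) (v : FinitePlace K)
    (F : Fin 2 → MvPolynomial (Fin 2) K), HypR p s v F →
    {z : Option (AlgebraicClosure K) | ∃ (P : Fin 2 → AlgebraicClosure K) (m : ℕ), P ≠ 0 ∧
      1 ≤ m ∧ pr P = z ∧ Prl ((gAct F (AlgebraicClosure K))^[m] P) P}.Infinite

/-- Row CNTU: finitely many periodic forms of bounded degree over the algebraic closure. -/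
def CntuStatement : Prop :=
  ∀ (K : Type) [Field K] [NumberField K] (p s : ℕ) (v : FinitePlace K)
    (F : Fin 2 → MvPolynomial (Fin 2) K), HypR p s v F → CritW F → ∀ e : ℕ,
    ∃ S : Finset (MvPolynomial (Fin 2 ⊕ Fin 2) (AlgebraicClosure K)),
      ∀ G, PerForm (fun i => map (algebraMap K (AlgebraicClosure K)) (F i)) e G →
        ∃ G' ∈ S, Associated G G'

/-- Row HYPK: an irreducible invariant form involves at most two of the points. -/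
def HypkStatement : Prop :=
  ∀ (Ω : Type) [Field Ω] [CharZero Ω] [IsAlgClosed Ω] (q : ℕ)
    (F : Fin 2 → MvPolynomial (Fin 2) Ω), 2 ≤ q → Mor q F →
    {z : Option Ω | ∃ (P : Fin 2 → Ω) (m : ℕ), P ≠ 0 ∧ 1 ≤ m ∧ pr P = z ∧
      Prl ((gAct F Ω)^[m] P) P}.Infinite →
    (∀ e : ℕ, ∃ S : Finset (MvPolynomial (Fin 2 ⊕ Fin 2) Ω), ∀ G, PerForm F e G →
      ∃ G' ∈ S, Associated G G') →
    ∀ (k : ℕ) (e : Fin k → ℕ) (Q : MvPolynomial (Fin k × Fin 2) Ω), Irreducible Q → MH e Q →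
    ∀ m : ℕ, 1 ≤ m → Q ∣ (bind₁ (FX F k))^[m] Q →
    (Finset.univ.filter fun i => 1 ≤ e i).card ≤ 2

/-- Row CLSK: tuples on invariant subvarieties. -/
def ClskStatement : Prop :=
  ∀ (K : Type) [Field K] [NumberField K] (p s : ℕ) (v : FinitePlace K)
    (F : Fin 2 → MvPolynomial (Fin 2) K), HypR p s v F → CritW F → ∀ k : ℕ,
    ∀ Fz : (Fin k → Fin 2) → MvPolynomial (Fin k → Fin 2) K,
    (∀ I, (Fz I).IsHomogeneous (p ^ s)) →
    (∀ I, bind₁ (segX K k) (Fz I) = bind₁ (FX F k) (segX K k I)) →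
    ∀ I : Ideal (MvPolynomial (Fin k → Fin 2) K), I.IsPrime → HomI I → ∀ m : ℕ, 1 ≤ m →
    (∀ f, f ∈ I ↔ (bind₁ Fz : MvPolynomial (Fin k → Fin 2) K →ₐ[K]
      MvPolynomial (Fin k → Fin 2) K)^[m] f ∈ I) →
    (∀ f, bind₁ (segX K k) f = 0 → f ∈ I) →
    (∃ f ∈ I, bind₁ (segX K k) f ≠ 0) →
    ∀ (N : Type) [Field N] [Algebra K N] (y : Fin k → Fin 2 → N), (∀ i, y i ≠ 0) →
    (∀ i, WandP F (y i)) →
    (∀ (f : MvPolynomial (Fin k → Fin 2) K) (n : ℕ), f.IsHomogeneous n → f ∈ I →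
      aeval (segk y) f = 0) →
    ∃ i i' : Fin k, i ≠ i' ∧ ∃ (e : ℕ) (G : MvPolynomial (Fin 2 ⊕ Fin 2) K),
      PerForm F e G ∧ GS.ev (y i) (y i') G = 0

/-- Row RAMK: as `RamjStatement`, for a tuple. -/
def RamkStatement : Prop :=
  ∀ (K : Type) [Field K] [NumberField K] (N : Type) [Field N] [NumberField N] [Algebra K N]
    [IsGalois K N] (v : FinitePlace K) (w : FinitePlace N) (e : ℕ), Above v w e →
    ∀ u : K, (∀ a : K, v a < 1 → v a ≤ v u) →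
    ∀ (L : Type) [Field L] [NumberField L] [Algebra K L] (k : ℕ) (y : Fin k → Fin 2 → L),
    (∀ i, y i ≠ 0) →
    IntermediateField.adjoin K (Set.range fun i => y i 0 / y i 1) = ⊤ →
    ∀ (φ : L →ₐ[K] N) (X : Fin k → ℕ) (E : ℕ),
      (∀ i, LP.disc K w (nz fun j => φ (y i j)) ≤ X i) → ∏ i, X i ≤ E → Low u w φ E

/-- Row NUMK: the numerical end. -/
def NumkStatement : Prop :=
  ∀ (k : ℕ) (δ A B B' θ : ℝ), 2 ≤ k → 0 < δ → 0 < A → 0 < B → 1 ≤ B' → 0 ≤ θ → θ < 1 →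
    ∃ (X : ℕ) (c : ℝ), 0 < c ∧ ∀ (d M E : ℕ), X ≤ d → 1 ≤ M → (M : ℝ) ≤ (d : ℝ) ^ (k - δ) →
      1 ≤ E → (E : ℝ) ≤ 2 ^ k * (B' * (1 + Real.log d)) ^ k →
      ∃ (t0 : ℕ) (D : ℝ), 1 ≤ t0 ∧ 1 ≤ D ∧ (t0 : ℝ) ≤ D ∧ M < (t0 + 1) ^ k ∧
        c ≤ d * (A / ((E : ℝ) * t0) * Real.exp (-(B * (1 + (Real.log D) ^ θ)))) /
          (k * (B' * (1 + Real.log d)))

/-- the degree of a tuple over `K` -/
noncomputable def dgk (K : Type) [Field K] {N : Type} [Field N] [Algebra K N] {k : ℕ}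
    (y : Fin k → Fin 2 → N) : ℕ :=
  Module.finrank K (IntermediateField.adjoin K (Set.range fun i => y i 0 / y i 1))

/-- THEOREM W. -/
def WStatement : Prop :=
  ∀ (K : Type) [Field K] [NumberField K] (p s : ℕ) (v : FinitePlace K)
    (F : Fin 2 → MvPolynomial (Fin 2) K), HypR p s v F → CritW F →
    ∀ k : ℕ, 2 ≤ k → ∀ δ : ℝ, 0 < δ →
    ∃ c : ℝ, 0 < c ∧ ∀ (N : Type) [Field N] [NumberField N] [Algebra K N] (a : N)
      (b : Fin k → N), WandP F ![a, 1] → (∀ i, Polynomial.aeval (b i) (minpoly K a) = 0) →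
      (∀ i i', i ≠ i' →
        (∀ (n e : ℕ) (G : MvPolynomial (Fin 2 ⊕ Fin 2) K), PerForm F e G →
          GS.ev ((gAct F N)^[n] ![b i, 1]) ((gAct F N)^[n] ![b i', 1]) G ≠ 0) ∨
        OneOrb F ∧ ∀ n : ℕ, ¬ Prl ((gAct F N)^[n] ![b i, 1]) ((gAct F N)^[n] ![b i', 1])) →
      (∀ n : ℕ, (dg K ((gAct F N)^[n] ![a, 1]) : ℝ) ≤ 1 / δ ∨
        (dgk K (fun i => (gAct F N)^[n] ![b i, 1]) : ℝ) ≤
          (dg K ((gAct F N)^[n] ![a, 1]) : ℝ) ^ (k - δ)) →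
      ∃ h : ℝ, Tendsto (fun n : ℕ => Height.logHeight ((gAct F N)^[n] ![a, 1]) /
        (Module.finrank ℚ N : ℝ) / ((p ^ s : ℕ) : ℝ) ^ n) atTop (𝓝 h) ∧
        c / (Module.finrank K (IntermediateField.adjoin K {a}) : ℝ) ≤ h

end Pool.DynLehmer.LW
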