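import Pool.Agent.Lib.MP_2194ec_nt.LW.Defs2
import Pool.Agent.Lib.MP_2194ec_nt.LP.Cls
import Pool.Agent.Lib.MP_2194ec_nt.LP.Homc
import Pool.Agent.Lib.MP_2194ec_nt.GAL.R.ECnt
import Pool.Agent.Lib.MP_2194ec_nt.SmallD
import Pool.Agent.Lib.MP_2194ec_nt.RelLevels

set_option autoImplicit false
set_option linter.unusedSectionVars false

/-!
# Row EXC: the relation given by the periodic forms on the conjugates of a point
-/

namespace Pool.DynLehmer.LW
open MvPolynomial NumberField Filter Topology Pool.DynLehmer Pool.DynLehmer.SB Pool.DynLehmer.SP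
  Pool.DynLehmer.GS Pool.DynLehmer.LP
open scoped Classical

namespace ExcAux

/-- the diagonal form is irreducible -/
theorem irr_dia {K : Type} [Field K] (F : Fin 2 → MvPolynomial (Fin 2) K) :
    Irreducible (Cls.hF F 0 0) := by
  have h1 : Cls.hF F 0 0 = X (Sum.inl 0) * X (Sum.inr 1) +
      -(X (Sum.inl 1) * X (Sum.inr 0)) := by
    rw [Cls.hF, Bas.itF_zero, Bas.itF_zero, rename_X, rename_X, rename_X, rename_X, sub_eq_add_neg]
  rw [h1]
  have hX : ∀ i : Fin 2 ⊕ Fin 2, (X i : MvPolynomial (Fin 2 ⊕ Fin 2) K) ≠ 0 := fun i => X_ne_zero i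
  have hd : ∀ i j : Fin 2 ⊕ Fin 2, (X i : MvPolynomial (Fin 2 ⊕ Fin 2) K) ∣ X j → i = j := by
    intro i j h
    exact (X_dvd_X (R := K)).1 h
  refine irreducible_mul_X_add _ _ _ (hX _) ?_ ?_ ?_
  · rw [vars_X]
    simp
  · rw [vars_neg]
    intro h
    have h2 := vars_mul _ _ h
    rw [vars_X, vars_X] at h2
    simp at h2
  · have hp : Prime (X (Sum.inl (0 : Fin 2)) : MvPolynomial (Fin 2 ⊕ Fin 2) K) := X_prime
    rw [hp.irreducible.isRelPrime_iff_not_dvd, dvd_neg]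
    intro h
    rcases hp.dvd_or_dvd h with h2 | h2
    · have := hd _ _ h2
      simp at this
    · have := hd _ _ h2
      simp at this

/-- the diagonal form is periodic -/
theorem per_dia {K : Type} [Field K] [Infinite K] {q : ℕ}
    {F : Fin 2 → MvPolynomial (Fin 2) K} (hF : Mor q F) : PerForm F 1 (Cls.hF F 0 0) := by
  have hB := Cls.bihom_hF hF 0 0
  rw [pow_zero] at hB
  refine ⟨irr_dia F, ⟨1, 1, le_rfl, le_rfl, le_rfl, le_rfl, hB⟩, 1, one_pos, ?_⟩
  have h1 : (bind₁ (dbl F))^[1] (Cls.hF F 0 0) = Cls.hF F 1 1 := by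
    rw [Function.iterate_one, Cls.hF, Cls.hF, Bas.itF_zero, Bas.itF_zero, Bas.itF_one, Bas.itF_one,
      map_sub, map_mul, map_mul, rename_X, rename_X, rename_X, rename_X, bind₁_X_right,
      bind₁_X_right, bind₁_X_right, bind₁_X_right]
    rfl
  rw [h1]
  by_contra hdvd
  obtain ⟨R, hR, hRd, hRz⟩ := bez K 1 1 _ _ _ _ hB (Cls.bihom_hF hF 1 1) (irr_dia F) le_rfl hdvd
  apply hR
  have h2 : R * X 0 = 0 := by
    apply MvPolynomial.funext
    intro P
    rw [map_mul, map_zero]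
    by_cases hP : P = 0
    · rw [hP, eval_X, Pi.zero_apply, mul_zero]
    · have h3 := hRz K P P hP ((Cls.ev_hF_iff hF 0 0 hP hP).2 (Bas.prl_refl _))
        ((Cls.ev_hF_iff hF 1 1 hP hP).2 (Bas.prl_refl _))
      rw [show eval P R = aeval P R from rfl, h3, zero_mul]
  exact (mul_eq_zero.1 h2).resolve_right (X_ne_zero 0)

variable {K : Type} [Field K] [NumberField K] {N : Type} [Field N] [NumberField N] [Algebra K N]
  {q : ℕ} {F : Fin 2 → MvPolynomial (Fin 2) K}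

/-- two points are on a periodic curve -/
def Rel (F : Fin 2 → MvPolynomial (Fin 2) K) (P P' : Fin 2 → N) : Prop :=
  ∃ (e : ℕ) (G : MvPolynomial (Fin 2 ⊕ Fin 2) K), PerForm F e G ∧ GS.ev P P' G = 0

theorem rel_prl {P P' Q Q' : Fin 2 → N} (h : Prl P Q) (h' : Prl P' Q') (hr : Rel F P P') :
    Rel F Q Q' := by
  obtain ⟨e, G, hG, h0⟩ := hr
  obtain ⟨d₁, d₂, -, -, -, -, hB⟩ := hG.hom
  exact ⟨e, G, hG, (Bas.ev_prl hB h h').1 h0⟩

theorem rel_symm {P P' : Fin 2 → N} (hr : Rel F P P') : Rel F P' P := by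
  obtain ⟨e, G, hG, h0⟩ := hr
  exact ⟨e, _, Bas.perForm_swap hG, by rw [Bas.ev_swap]; exact h0⟩

theorem ev_gal (g : N ≃ₐ[K] N) (P P' : Fin 2 → N) (G : MvPolynomial (Fin 2 ⊕ Fin 2) K) :
    GS.ev (gal g P) (gal g P') G = g (GS.ev P P' G) := by
  have h1 : g (GS.ev P P' G) = (g : N →ₐ[K] N) (aeval (Sum.elim P P') G) := rfl
  rw [h1, comp_aeval_apply, GS.ev]
  congr 2
  funext i
  rcases i with i | i <;> rfl

theorem rel_gal (g : N ≃ₐ[K] N) {P P' : Fin 2 → N} (hr : Rel F P P') :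
    Rel F (gal g P) (gal g P') := by
  obtain ⟨e, G, hG, h0⟩ := hr
  exact ⟨e, G, hG, by rw [ev_gal, h0, map_zero]⟩

theorem rel_push (push : PushStatement) (hq : 1 ≤ q) (hF : Mor q F) {P P' : Fin 2 → N} {m : ℕ}
    (hr : Rel F ((gAct F N)^[m] P) ((gAct F N)^[m] P')) (j : ℕ) :
    Rel F ((gAct F N)^[m + j] P) ((gAct F N)^[m + j] P') := by
  induction j with
  | zero => exact hr
  | succ j ih =>
    obtain ⟨e, G, hG, h0⟩ := ih
    obtain ⟨e', G', hG', h1⟩ := push K q F hq hF e G hG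
    refine ⟨e', G', hG', ?_⟩
    rw [← add_assoc, Function.iterate_succ_apply', Function.iterate_succ_apply']
    exact h1 N _ _ h0

theorem galne {z : Fin 2 → N} (hz : z ≠ 0) (τ : N ≃ₐ[K] N) : gal τ z ≠ 0 := by
  intro h0
  apply hz
  funext i
  have := congrFun h0 i
  simpa [gal] using this

theorem smul_iter (hF : Mor q F) {z : Fin 2 → N} (hz : z ≠ 0) (n : ℕ) (τ : N ≃ₐ[K] N) :
    τ • nz ((gAct F N)^[n] z) = nz ((gAct F N)^[n] (gal τ z)) := by
  rw [SP.CasebAux.gAct_iter_gal F τ n z]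
  exact HomcAux.gal_nz τ (Bas.iter_ne hF hz n)

theorem prl_nz {P : Fin 2 → N} (hP : P ≠ 0) : Prl P (nz P).val := nz_spec hP

end ExcAux

open ExcAux in
/-- **EXC** -/
theorem exc (push : PushStatement) (clsf : ClsfStatement) : ExcStatement := by
  intro K _ _ p s v F hF hC
  obtain ⟨R, hR1, hR, hcl⟩ := clsf K p s v F hF hC
  refine ⟨R, hR1, hR, ?_⟩
  intro N _ _ _ _ x hx hW n
  have hmor : Mor (p ^ s) F := mor K p s v F hF
  have hq2 : 2 ≤ p ^ s := by
    calc 2 ≤ p := hF.prime.two_le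
      _ = p ^ 1 := (pow_one p).symm
      _ ≤ p ^ s := Nat.pow_le_pow_right hF.prime.pos hF.pos
  have hq1 : 1 ≤ p ^ s := by omega
  have hz : ∀ z : Fin 2 → AlgebraicClosure K, (∀ i, aeval z (F i) = 0) → z = 0 := by
    intro z hz
    by_contra h0
    exact hmor.ne (AlgebraicClosure K) z h0 (funext hz)
  obtain ⟨h, hlim⟩ := exists_limit hq2 F hF.hom hz N x hx
  have hh0 : 0 ≤ h := ge_of_tendsto' hlim fun n => div_nonneg (div_nonneg
    (Height.logHeight_nonneg _) (Nat.cast_nonneg _)) (by positivity)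
  have hhpos : 0 < h :=
    lt_of_le_of_ne hh0 (Ne.symm (hhat_ne_zero hq2 F hF.hom hz N x hx hW h hlim))
  have hlimg : ∀ τ : N ≃ₐ[K] N, HasHt (p ^ s) F (gal τ x) h := by
    intro τ
    refine hlim.congr fun n => ?_
    rw [SP.CasebAux.gAct_iter_gal]
    congr 2
    exact (logHeight_ringEquiv (τ : N ≃+* N) _).symm
  have hne : ∀ (τ : N ≃ₐ[K] N) (m : ℕ), (gAct F N)^[m] (gal τ x) ≠ 0 :=
    fun τ m => Bas.iter_ne hmor (galne hx τ) m
  have hmem : ∀ τ : N ≃ₐ[K] N, nz ((gAct F N)^[n] (gal τ x)) ∈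
      orb (N ≃ₐ[K] N) (nz ((gAct F N)^[n] x)) := by
    intro τ
    rw [← smul_iter hmor hx]
    exact smul_mem_orb τ _
  refine ⟨fun y => (orb (N ≃ₐ[K] N) (nz ((gAct F N)^[n] x))).filter fun z =>
    Rel F y.val z.val, ?_, ?_⟩
  · intro y hy
    obtain ⟨σ, hσ⟩ := mem_orb.1 hy
    rw [smul_iter hmor hx] at hσ
    refine ⟨?_, ?_, ?_, ?_⟩
    · set T : Finset (Fin 2 → N) := (Finset.univ.image fun τ : N ≃ₐ[K] N => gal τ x).filter
        fun P' => Rel F ((gAct F N)^[n] (gal σ x)) ((gAct F N)^[n] P') with hT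
      have hT1 : (T.image fun P' => pr ((gAct F N)^[n] P')).card ≤ R := by
        refine hcl N (gal σ x) h (galne hx σ) (E.wand_gal hW σ) hhpos (hlimg σ) n T ?_
        intro P' hP'
        obtain ⟨h1, e, G, hG, h2⟩ := Finset.mem_filter.1 hP'
        obtain ⟨τ, -, rfl⟩ := Finset.mem_image.1 h1
        exact ⟨galne hx τ, E.wand_gal hW τ, hlimg τ, n, e, G, le_rfl, hG, h2⟩
      refine le_trans ?_ hT1
      refine Finset.card_le_card_of_injOn (fun z : Pt N => pr z.val) ?_ ?_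
      · intro z hz
        obtain ⟨hz1, hz2⟩ := Finset.mem_filter.1 (Finset.mem_coe.1 hz)
        obtain ⟨τ, hτ⟩ := mem_orb.1 hz1
        rw [smul_iter hmor hx] at hτ
        refine Finset.mem_coe.2 (Finset.mem_image.2 ⟨gal τ x, ?_, ?_⟩)
        · refine Finset.mem_filter.2 ⟨Finset.mem_image_of_mem _ (Finset.mem_univ _), ?_⟩
          rw [← hσ, ← hτ] at hz2
          exact rel_prl (Bas.prl_symm (prl_nz (hne σ n))) (Bas.prl_symm (prl_nz (hne τ n))) hz2
        · rw [← hτ]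
          exact Bas.pr_of_prl (prl_nz (hne τ n))
      · intro z₁ _ z₂ _ h12
        have h2 := (nz_eq_iff z₁.ne_zero z₂.ne_zero).2 (Bas.prl_of_pr z₁.ne_zero z₂.ne_zero h12)
        rwa [nz_val, nz_val] at h2
    · refine Finset.mem_filter.2 ⟨hy, 1, _, per_dia hmor, ?_⟩
      exact (Cls.ev_hF_iff hmor 0 0 y.ne_zero y.ne_zero).2 (Bas.prl_refl _)
    · intro y' hy'
      obtain ⟨h1, h2⟩ := Finset.mem_filter.1 hy'
      exact ⟨h1, Finset.mem_filter.2 ⟨hy, rel_symm h2⟩⟩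
    · intro g y' hy'
      obtain ⟨h1, h2⟩ := Finset.mem_filter.1 hy'
      refine Finset.mem_filter.2 ⟨?_, rel_gal g h2⟩
      rw [← orb_eq_of_mem h1]
      exact smul_mem_orb g _
  · intro σ τ hnot m hm e G hG h0
    apply hnot
    refine Finset.mem_filter.2 ⟨hmem τ, ?_⟩
    obtain ⟨j, rfl⟩ := Nat.exists_eq_add_of_le hm
    exact rel_prl (prl_nz (hne σ _)) (prl_nz (hne τ _)) (rel_push push hq1 hmor ⟨e, G, hG, h0⟩ j)

end Pool.DynLehmer.LW
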