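import Pool.Agent.Lib.MP_2194ec_nt.LW.Defs2

set_option autoImplicit false

/-!
# Tuples with a small orbit for a group with a solvable normal subgroup

Let `A` be the last term of the derived series of the normal subgroup whose orbit of `x` has more
than `R` elements, and `B = [A, A]`. If the orbit of `A` is small, a pair `(x, a x)` is enough. If
it is large, a quadruple `(x, a x, b x, a b x)` with `a`, `b` in `A` is enough: an element of the
group which fixes the first three points sends the last one into its orbit under `B`.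
-/

namespace Pool.DynLehmer.LW
open scoped Classical

namespace Grp

variable {G Ω : Type} [Group G] [Fintype Ω] [MulAction G Ω]

/-- The orbit of a point under a subgroup, as a finite set. -/
noncomputable def O (A : Subgroup G) (x : Ω) : Finset Ω :=
  Finset.univ.filter (fun y => ∃ a ∈ A, a • x = y)

omit [Fintype Ω] in
theorem smul_two (g h : G) (x : Ω) : g • h • x = (g * h) • x := (mul_smul g h x).symm

theorem mem_O {A : Subgroup G} {x y : Ω} : y ∈ O A x ↔ ∃ a ∈ A, a • x = y := by
  simp [O]

theorem self_mem_O (A : Subgroup G) (x : Ω) : x ∈ O A x :=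
  mem_O.2 ⟨1, A.one_mem, one_smul G x⟩

theorem card_O_smul_le (A : Subgroup G) (hA : A.Normal) (g : G) (x : Ω) :
    (O A (g • x)).card ≤ (O A x).card := by
  refine Finset.card_le_card_of_injOn (fun y => g⁻¹ • y) ?_ ?_
  · intro y hy
    have hy' : y ∈ O A (g • x) := hy
    obtain ⟨a, ha, rfl⟩ := mem_O.1 hy'
    have : g⁻¹ • a • g • x ∈ O A x := by
      refine mem_O.2 ⟨g⁻¹ * a * g, ?_, ?_⟩
      · have := hA.conj_mem a ha g⁻¹
        simpa using this
      · simp [mul_smul]
    exact this
  · intro y _ z _ h
    exact MulAction.injective g⁻¹ h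

theorem card_O_smul (A : Subgroup G) (hA : A.Normal) (g : G) (x : Ω) :
    (O A (g • x)).card = (O A x).card := by
  apply le_antisymm (card_O_smul_le A hA g x)
  have := card_O_smul_le A hA g⁻¹ (g • x)
  simpa using this

theorem card_O_eq (A : Subgroup G) (hA : A.Normal) (ht : MulAction.IsPretransitive G Ω)
    (x y : Ω) : (O A y).card = (O A x).card := by
  obtain ⟨g, rfl⟩ := ht.exists_smul_eq x y
  exact card_O_smul A hA g x

theorem natCard_orbit (A : Subgroup G) (x : Ω) :
    Nat.card (MulAction.orbit A x) = (O A x).card := by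
  have h : (MulAction.orbit A x) = ((O A x : Finset Ω) : Set Ω) := by
    ext y
    simp only [MulAction.mem_orbit_iff, Finset.mem_coe, mem_O]
    constructor
    · rintro ⟨a, rfl⟩
      exact ⟨a.1, a.2, rfl⟩
    · rintro ⟨a, ha, rfl⟩
      exact ⟨⟨a, ha⟩, rfl⟩
  rw [h]
  simp

/-- Two consecutive terms of the derived series of a solvable normal subgroup. -/
theorem exists_pair (H : Subgroup G) (hH : H.Normal) (hs : Group.IsSolvable H) (R : ℕ)
    (hR : 1 ≤ R) (x : Ω) (hx : R < (O H x).card) :
    ∃ A B : Subgroup G, A.Normal ∧ B.Normal ∧ B = ⁅A, A⁆ ∧ R < (O A x).card ∧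
      (O B x).card ≤ R := by
  have _ := hH
  have hnor : ∀ n : ℕ, ((derivedSeries H n).map H.subtype).Normal := fun n =>
    ConjAct.normal_of_characteristic_of_normal
  have hsucc : ∀ n : ℕ, (derivedSeries H (n + 1)).map H.subtype =
      ⁅(derivedSeries H n).map H.subtype, (derivedSeries H n).map H.subtype⁆ := by
    intro n
    rw [derivedSeries_succ, Subgroup.map_commutator]
  have hex : ∃ n : ℕ, (O ((derivedSeries H n).map H.subtype) x).card ≤ R := by
    obtain ⟨n, hn⟩ := hs.solvable
    refine ⟨n, ?_⟩
    rw [hn, Subgroup.map_bot]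
    have : O (⊥ : Subgroup G) x ⊆ {x} := by
      intro y hy
      obtain ⟨a, ha, rfl⟩ := mem_O.1 hy
      rw [Subgroup.mem_bot] at ha
      simp [ha]
    exact (Finset.card_le_card this).trans (by simpa using hR)
  have hfind := Nat.find_spec hex
  set m := Nat.find hex with hm
  have hm0 : m ≠ 0 := by
    intro h0
    rw [h0] at hfind
    have h1 : (derivedSeries H 0).map H.subtype = H := by
      rw [derivedSeries_zero, ← MonoidHom.range_eq_map, Subgroup.range_subtype]
    rw [h1] at hfind
    omega
  obtain ⟨n, hn⟩ := Nat.exists_eq_succ_of_ne_zero hm0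
  have hn' : ¬ (O ((derivedSeries H n).map H.subtype) x).card ≤ R := by
    apply Nat.find_min hex
    omega
  refine ⟨(derivedSeries H n).map H.subtype, (derivedSeries H (n + 1)).map H.subtype,
    hnor n, hnor (n + 1), hsucc n, not_le.1 hn', ?_⟩
  rw [hn] at hfind
  exact hfind

/-- Counting an orbit of tuples with bounded fibres. -/
theorem card_orbit_le {k : ℕ} {T : Type} [Fintype T] (y : Fin k → Ω) (f : (Fin k → Ω) → T)
    (i : Fin k) (C : ℕ) (W : G → Finset Ω) (hW : ∀ g, (W g).card ≤ C)
    (hinj : ∀ z z' : Fin k → Ω, f z = f z' → z i = z' i → z = z')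
    (hmem : ∀ g g' : G, f (g' • y) = f (g • y) → g' • y i ∈ W g) :
    Nat.card (MulAction.orbit G y) ≤ C * Fintype.card T := by
  have h : (MulAction.orbit G y) =
      ((Finset.univ.filter (fun z => z ∈ MulAction.orbit G y) : Finset (Fin k → Ω)) :
        Set (Fin k → Ω)) := by
    ext z
    simp
  rw [h]
  set S : Finset (Fin k → Ω) := Finset.univ.filter (fun z => z ∈ MulAction.orbit G y) with hS
  have hc : Nat.card ((S : Finset (Fin k → Ω)) : Set (Fin k → Ω)) = S.card := by simp
  rw [hc]
  refine (Finset.card_le_mul_card_image (f := f) S C ?_).trans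
    (Nat.mul_le_mul_left C (Finset.card_le_univ _))
  intro t ht
  obtain ⟨z, hz, rfl⟩ := Finset.mem_image.1 ht
  have hz' : z ∈ MulAction.orbit G y := by
    simpa [hS] using hz
  obtain ⟨g, rfl⟩ := hz'
  refine (Finset.card_le_card_of_injOn (fun z => z i) ?_ ?_).trans (hW g)
  · intro z hz
    have hz1 : z ∈ S.filter (fun z => f z = f (g • y)) := hz
    rw [Finset.mem_filter] at hz1
    obtain ⟨hz2, hz3⟩ := hz1
    have hz4 : z ∈ MulAction.orbit G y := by
      simpa [hS] using hz2
    obtain ⟨g', rfl⟩ := hz4
    have := hmem g g' hz3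
    exact this
  · intro z hz z' hz' he
    have hz1 : z ∈ S.filter (fun z => f z = f (g • y)) := hz
    have hz1' : z' ∈ S.filter (fun z => f z = f (g • y)) := hz'
    rw [Finset.mem_filter] at hz1 hz1'
    exact hinj z z' (hz1.2.trans hz1'.2.symm) he

end Grp

open Grp in
theorem grp_core (G Ω : Type) [Group G] [Finite G] [Fintype Ω] [MulAction G Ω]
    (ht : MulAction.IsPretransitive G Ω) (H : Subgroup G) (hH : H.Normal)
    (hs : Group.IsSolvable H) (R : ℕ) (E : Ω → Finset Ω) (hR : 1 ≤ R)
    (hE : ∀ x, (E x).card ≤ R) (_hrefl : ∀ x, x ∈ E x) (hsymm : ∀ x y, y ∈ E x → x ∈ E y)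
    (heq : ∀ (g : G) (x y : Ω), y ∈ E x → g • y ∈ E (g • x))
    (hbig : (R ^ 2 + 3 * R) ^ 2 ≤ Fintype.card Ω) (x : Ω)
    (hx : R < Nat.card (MulAction.orbit H x)) :
    ∃ (k : ℕ) (y : Fin k → Ω), (k = 2 ∨ k = 4) ∧ (∃ i, y i = x) ∧
      (∀ i i', i ≠ i' → y i' ∉ E (y i)) ∧
      (Nat.card (MulAction.orbit G y)) ^ 2 ≤ R ^ 2 * (Fintype.card Ω) ^ (2 * k - 1) := by
  rw [natCard_orbit] at hx
  have hn1 : 1 ≤ Fintype.card Ω := Fintype.card_pos_iff.2 ⟨x⟩
  have heq' : ∀ (g : G) (u v : Ω), g • v ∈ E (g • u) → v ∈ E u := by
    intro g u v h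
    have := heq g⁻¹ _ _ h
    simpa using this
  obtain ⟨A, B, hA, hB, hAB, hAx, hBx⟩ := exists_pair H hH hs R hR x hx
  by_cases hM : (O A x).card ≤ R ^ 2 + 3 * R
  · -- case 1
    obtain ⟨y', hy', hny'⟩ := Finset.exists_mem_notMem_of_card_lt_card
      (lt_of_le_of_lt (hE x) hAx)
    obtain ⟨a, ha, rfl⟩ := mem_O.1 hy'
    refine ⟨2, ![x, a • x], Or.inl rfl, ⟨0, rfl⟩, ?_, ?_⟩
    · have hny : x ∉ E (a • x) := fun h => hny' (hsymm _ _ h)
      intro i i' hii
      fin_cases i <;> fin_cases i'
      · exact absurd rfl hii
      · exact hny'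
      · exact hny
      · exact absurd rfl hii
    · have hcard : Nat.card (MulAction.orbit G (![x, a • x] : Fin 2 → Ω)) ≤
          (O A x).card * Fintype.card Ω := by
        refine card_orbit_le (![x, a • x] : Fin 2 → Ω) (fun z => z 0) 1 (O A x).card
          (fun g => O A (g • x)) (fun g => (card_O_smul A hA g x).le) ?_ ?_
        · intro z z' h0 h1
          funext j
          fin_cases j
          · exact h0
          · exact h1
        · intro g g' h
          have h' : g' • x = g • x := h
          have h1 : (g' • (![x, a • x] : Fin 2 → Ω) 1) = g' • a • x := rfl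
          rw [h1]
          refine mem_O.2 ⟨g' * a * g'⁻¹, hA.conj_mem a ha g', ?_⟩
          rw [← h']
          simp [mul_smul]
      calc (Nat.card (MulAction.orbit G (![x, a • x] : Fin 2 → Ω))) ^ 2
          ≤ ((O A x).card * Fintype.card Ω) ^ 2 := Nat.pow_le_pow_left hcard 2
        _ ≤ ((R ^ 2 + 3 * R) * Fintype.card Ω) ^ 2 :=
            Nat.pow_le_pow_left (Nat.mul_le_mul_right _ hM) 2
        _ = (R ^ 2 + 3 * R) ^ 2 * (Fintype.card Ω) ^ 2 := by ring
        _ ≤ Fintype.card Ω * (Fintype.card Ω) ^ 2 := Nat.mul_le_mul_right _ hbig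
        _ = 1 * (Fintype.card Ω) ^ (2 * 2 - 1) := by ring
        _ ≤ R ^ 2 * (Fintype.card Ω) ^ (2 * 2 - 1) :=
            Nat.mul_le_mul_right _ (Nat.one_le_pow _ _ hR)
  · -- case 2
    have hM' : R ^ 2 + 3 * R < (O A x).card := not_le.1 hM
    -- the point a x
    have h1 : ((E x).biUnion (fun e => O B e)).card < (O A x).card := by
      refine lt_of_le_of_lt (Finset.card_biUnion_le) ?_
      have h2 : ∑ e ∈ E x, (O B e).card ≤ ∑ _e ∈ E x, R :=
        Finset.sum_le_sum (fun e _ => (card_O_eq B hB ht x e).le.trans hBx)
      have h3 : ∑ _e ∈ E x, R = (E x).card * R := by simp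
      have h4 : (E x).card * R ≤ R * R := Nat.mul_le_mul_right _ (hE x)
      have h5 : R ^ 2 = R * R := by ring
      omega
    obtain ⟨y1, hy1, hny1⟩ := Finset.exists_mem_notMem_of_card_lt_card h1
    obtain ⟨a, ha, rfl⟩ := mem_O.1 hy1
    have hca : ∀ c ∈ B, c • a • x ∉ E x := by
      intro c hc he
      apply hny1
      rw [Finset.mem_biUnion]
      refine ⟨c • a • x, he, mem_O.2 ⟨c⁻¹, B.inv_mem hc, ?_⟩⟩
      simp
    have hax : a • x ∉ E x := by
      have := hca 1 B.one_mem
      simpa using this
    -- the point b x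
    have h6 : ((E x ∪ E (a • x)) ∪ ((E x ∪ E (a • x)).image (fun z => a⁻¹ • z))).card <
        (O A x).card := by
      have h7 : (E x ∪ E (a • x)).card ≤ R + R :=
        (Finset.card_union_le _ _).trans (Nat.add_le_add (hE x) (hE (a • x)))
      have h8 : ((E x ∪ E (a • x)).image (fun z => a⁻¹ • z)).card ≤ R + R :=
        Finset.card_image_le.trans h7
      have h9 := Finset.card_union_le (E x ∪ E (a • x))
        ((E x ∪ E (a • x)).image (fun z => a⁻¹ • z))
      have h10 : R ≤ R ^ 2 := Nat.le_self_pow (by norm_num) R
      omega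
    obtain ⟨y2, hy2, hny2⟩ := Finset.exists_mem_notMem_of_card_lt_card h6
    obtain ⟨b, hb, rfl⟩ := mem_O.1 hy2
    rw [Finset.mem_union, not_or, Finset.mem_union, not_or] at hny2
    obtain ⟨⟨hbx, hbax⟩, himg⟩ := hny2
    have habU : (a * b) • x ∉ E x ∪ E (a • x) := by
      intro h
      apply himg
      refine Finset.mem_image.2 ⟨(a * b) • x, h, ?_⟩
      simp [mul_smul]
    rw [Finset.mem_union, not_or] at habU
    obtain ⟨habx, habax⟩ := habU
    have hbab : (a * b) • x ∉ E (b • x) := by
      intro h
      have h11 := heq b⁻¹ _ _ h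
      have h12 : b⁻¹ • b • x = x := inv_smul_smul b x
      rw [h12] at h11
      have h13 : b⁻¹ • (a * b) • x = (b⁻¹ * a * b * a⁻¹) • a • x := by
        simp [mul_smul]
      rw [h13] at h11
      refine hca _ ?_ h11
      rw [hAB]
      have := Subgroup.commutator_mem_commutator (A.inv_mem hb) ha
      rw [commutatorElement_def] at this
      simpa using this
    refine ⟨4, ![x, a • x, b • x, (a * b) • x], Or.inr rfl, ⟨0, rfl⟩, ?_, ?_⟩
    · have hlt : ∀ i i' : Fin 4, i < i' →
          (![x, a • x, b • x, (a * b) • x] : Fin 4 → Ω) i' ∉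
            E ((![x, a • x, b • x, (a * b) • x] : Fin 4 → Ω) i) := by
        intro i i' hii
        fin_cases i <;> fin_cases i' <;> first
          | exact absurd hii (by decide)
          | exact hax
          | exact hbx
          | exact habx
          | exact hbax
          | exact habax
          | exact hbab
      intro i i' hii h
      rcases lt_or_gt_of_ne hii with h14 | h14
      · exact hlt i i' h14 h
      · exact hlt i' i h14 (hsymm _ _ h)
    · have hcard : Nat.card (MulAction.orbit G
          (![x, a • x, b • x, (a * b) • x] : Fin 4 → Ω)) ≤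
          R * Fintype.card (Ω × Ω × Ω) := by
        refine card_orbit_le (![x, a • x, b • x, (a * b) • x] : Fin 4 → Ω)
          (fun z => (z 0, z 1, z 2)) 3 R (fun g => O B (g • (a * b) • x))
          (fun g => (card_O_eq B hB ht x _).le.trans hBx) ?_ ?_
        · intro z z' h0 h1
          have e0 : z 0 = z' 0 := congrArg (fun t : Ω × Ω × Ω => t.1) h0
          have e1 : z 1 = z' 1 := congrArg (fun t : Ω × Ω × Ω => t.2.1) h0
          have e2 : z 2 = z' 2 := congrArg (fun t : Ω × Ω × Ω => t.2.2) h0
          funext j
          fin_cases j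
          · exact e0
          · exact e1
          · exact e2
          · exact h1
        · intro g g' h
          have e0 : g' • x = g • x := congrArg (fun t : Ω × Ω × Ω => t.1) h
          have e1 : g' • a • x = g • a • x := congrArg (fun t : Ω × Ω × Ω => t.2.1) h
          have e2 : g' • b • x = g • b • x := congrArg (fun t : Ω × Ω × Ω => t.2.2) h
          have h15 : (g' • (![x, a • x, b • x, (a * b) • x] : Fin 4 → Ω) 3) =
            g' • (a * b) • x := rfl
          rw [h15]
          -- the element h = g⁻¹ g'
          obtain ⟨t, ht'⟩ : ∃ t : G, g' = g * t := ⟨g⁻¹ * g', by group⟩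
          subst ht'
          have f0 : t • x = x := by
            have := e0
            rw [mul_smul] at this
            exact MulAction.injective g this
          have f1 : t • a • x = a • x := by
            have := e1
            rw [mul_smul] at this
            exact MulAction.injective g this
          have f2 : t • b • x = b • x := by
            have := e2
            rw [mul_smul] at this
            exact MulAction.injective g this
          have f0' : t⁻¹ • x = x := by
            rw [inv_smul_eq_iff]
            exact f0.symm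
          -- s = a⁻¹ t a t⁻¹ fixes x
          have hsA : a⁻¹ * (t * a * t⁻¹) ∈ A := A.mul_mem (A.inv_mem ha) (hA.conj_mem a ha t)
          set s : G := a⁻¹ * (t * a * t⁻¹) with hsdef
          have hsx : s • x = x := by
            rw [hsdef]
            simp only [mul_smul]
            rw [f0', f1, inv_smul_smul]
          have hsx' : s⁻¹ • x = x := by
            rw [inv_smul_eq_iff]
            exact hsx.symm
          have hcB : b⁻¹ * s * b * s⁻¹ ∈ B := by
            rw [hAB]
            have := Subgroup.commutator_mem_commutator (A.inv_mem hb) hsA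
            rw [commutatorElement_def] at this
            simpa using this
          set c : G := b⁻¹ * s * b * s⁻¹ with hcdef
          have hkey : t • (a * b) • x = (a * b) • c • x := by
            have k1 : t • (a * b) • x = a • s • t • b • x := by
              rw [hsdef]
              simp only [smul_two]
              apply congrArg (fun u : G => u • x)
              group
            have k2 : (a * b) • c • x = a • s • b • s⁻¹ • x := by
              rw [hcdef]
              simp only [smul_two]
              apply congrArg (fun u : G => u • x)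
              group
            rw [k1, k2, f2, hsx']
          have hkey2 : (g * t) • (a * b) • x =
              ((g * (a * b)) * c * (g * (a * b))⁻¹) • g • (a * b) • x := by
            rw [mul_smul g t, hkey]
            simp only [smul_two]
            apply congrArg (fun u : G => u • x)
            group
          rw [hkey2]
          exact mem_O.2 ⟨_, hB.conj_mem c hcB (g * (a * b)), rfl⟩
      have h16 : Fintype.card (Ω × Ω × Ω) = (Fintype.card Ω) ^ 3 := by
        rw [Fintype.card_prod, Fintype.card_prod]
        ring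
      rw [h16] at hcard
      calc (Nat.card (MulAction.orbit G
            (![x, a • x, b • x, (a * b) • x] : Fin 4 → Ω))) ^ 2
          ≤ (R * (Fintype.card Ω) ^ 3) ^ 2 := Nat.pow_le_pow_left hcard 2
        _ = R ^ 2 * (Fintype.card Ω) ^ 6 := by ring
        _ ≤ R ^ 2 * (Fintype.card Ω) ^ (2 * 4 - 1) :=
            Nat.mul_le_mul_left _ (Nat.pow_le_pow_right hn1 (by norm_num))

/-- Row GRP. -/
theorem grp : GrpStatement := by
  intro G Ω _ _ _ _ ht H hH hs R E hR hE hrefl hsymm heq hbig x hx
  exact grp_core G Ω ht H hH hs R E hR hE hrefl hsymm heq hbig x hx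

end Pool.DynLehmer.LW
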