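import Pool.Agent.Lib.MP_2194ec_nt.LW.Geo

set_option autoImplicit false

/-!
# The two bounds for the Hilbert function together (row HIL)
-/

namespace Pool.DynLehmer.LW
open MvPolynomial
open scoped Classical

theorem hil (nne : NneStatement) (upp : UppStatement) (low : LowStatement) : HilStatement := by
  intro K ι _ _ _ b Q hQ d r P hinj hmin hhom hdim
  have hinf : Infinite K := CharZero.infinite K
  have hprime : ∀ a, (P a).IsPrime := fun a => (hmin a).1.1
  obtain ⟨T, hT⟩ := nne K ι d r P hprime hhom hdim
  exact ⟨fun a => rk (P a) T, fun a => (upp K ι (P a) d T (hprime a) (hhom a) (hT a)).1,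
    fun a b' => (upp K ι (P a) d T (hprime a) (hhom a) (hT a)).2 b',
    fun b' hb' => low K ι b Q hQ d r P hinj hmin hhom T hT b' hb'⟩

end Pool.DynLehmer.LW
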