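import Pool.Agent.Lib.MP_2194ec_nt.LW.Defs
import Pool.Agent.Lib.MP_2194ec_nt.GAL.R.Bez
import Pool.Agent.Lib.MP_2194ec_nt.GAL.R.Bif
import Pool.Agent.Lib.MP_2194ec_nt.GAL.R.Root
import Pool.Agent.Lib.MP_2194ec_nt.GAL.R.Lev

set_option autoImplicit false
set_option linter.unusedSectionVars false

/-!
# Row HYPK: an irreducible invariant form involves at most two of the points
-/

namespace Pool.DynLehmer.LW
open MvPolynomial Pool.DynLehmer Pool.DynLehmer.GS
open scoped Classical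

namespace Hypk

/-! ### Weights -/

section weights

/-- substitution of weighted homogeneous polynomials -/
theorem whom_aeval {R S σ τ : Type} [CommRing R] [CommRing S] [Algebra R S] {w : τ → ℕ}
    {w' : σ → ℕ} {g : σ → MvPolynomial τ S} (hg : ∀ a, IsWeightedHomogeneous w (g a) (w' a))
    {Q : MvPolynomial σ R} {n : ℕ} (hQ : IsWeightedHomogeneous w' Q n) :
    IsWeightedHomogeneous w (aeval g Q) n := by
  rw [Q.as_sum, map_sum]
  refine IsWeightedHomogeneous.sum _ _ n fun t ht => ?_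
  rw [aeval_monomial]
  have h1 : IsWeightedHomogeneous w (∏ a ∈ t.support, g a ^ t a) (∑ a ∈ t.support, t a • w' a) :=
    IsWeightedHomogeneous.prod _ _ _ fun a _ => (hg a).pow (t a)
  have h2 : ∑ a ∈ t.support, t a • w' a = n := by
    have h3 := hQ (mem_support_iff.1 ht)
    rw [Finsupp.weight_apply, Finsupp.sum] at h3
    exact h3
  rw [h2] at h1
  have h4 : (algebraMap R (MvPolynomial τ S)) (coeff t Q) = C (algebraMap R S (coeff t Q)) := rfl
  rw [h4]
  exact h1.C_mul _

end weights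

section forms

variable {Ω : Type} [Field Ω] {k : ℕ}

/-- the weight of the `i`-th pair of variables -/
def wk (i : Fin k) : Fin k × Fin 2 → ℕ := fun a => if a.1 = i then 1 else 0

theorem weight_wk (i : Fin k) (t : Fin k × Fin 2 →₀ ℕ) :
    Finsupp.weight (wk i) t = t (i, 0) + t (i, 1) := by
  rw [Finsupp.weight_apply, Finsupp.sum_fintype _ _ (fun i => by simp), Fintype.sum_prod_type,
    Finset.sum_eq_single i]
  · simp [wk, Fin.sum_univ_two]
  · intro j _ hj
    simp [wk, hj]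
  · intro h
    exact absurd (Finset.mem_univ i) h

theorem mh_iff {e : Fin k → ℕ} {Q : MvPolynomial (Fin k × Fin 2) Ω} :
    MH e Q ↔ ∀ i, IsWeightedHomogeneous (wk i) Q (e i) := by
  constructor
  · intro h i t ht
    rw [weight_wk]
    exact h t (mem_support_iff.2 ht) i
  · intro h t ht i
    rw [← weight_wk]
    exact h i (mem_support_iff.1 ht)

theorem mh_of_dvd {e : Fin k → ℕ} {Q G : MvPolynomial (Fin k × Fin 2) Ω} (hQ : MH e Q)
    (hQ0 : Q ≠ 0) (h : G ∣ Q) : ∃ e' : Fin k → ℕ, (∀ i, e' i ≤ e i) ∧ MH e' G := by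
  obtain ⟨y, rfl⟩ := h
  rw [mh_iff] at hQ
  choose e' h1 h2 using fun i => whom_of_mul (wk i) (hQ i) hQ0
  exact ⟨e', h1, mh_iff.2 h2⟩

/-- specialization of the `i`-th pair of variables -/
noncomputable def sp (i : Fin k) (P : Fin 2 → Ω) :
    MvPolynomial (Fin k × Fin 2) Ω →ₐ[Ω] MvPolynomial (Fin k × Fin 2) Ω :=
  aeval fun a => if a.1 = i then C (P a.2) else X a

theorem mh_sp {e : Fin k → ℕ} {Q : MvPolynomial (Fin k × Fin 2) Ω} (hQ : MH e Q) (i : Fin k)
    (P : Fin 2 → Ω) : MH (Function.update e i 0) (sp i P Q) := by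
  rw [mh_iff] at *
  intro j
  by_cases hj : j = i
  · subst hj
    rw [Function.update_self]
    refine whom_aeval (w' := fun _ => 0) (fun a => ?_) ?_
    · by_cases ha : a.1 = j
      · rw [if_pos ha]
        exact isWeightedHomogeneous_C _ _
      · rw [if_neg ha]
        have h1 := isWeightedHomogeneous_X Ω (wk j) a
        rwa [wk, if_neg ha] at h1
    · intro t _
      simp [Finsupp.weight_apply]
  · rw [Function.update_of_ne hj]
    refine whom_aeval (w' := wk j) (fun a => ?_) (hQ j)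
    by_cases ha : a.1 = i
    · rw [if_pos ha, wk, if_neg (by rw [ha]; exact fun h => hj h.symm)]
      exact isWeightedHomogeneous_C _ _
    · rw [if_neg ha]
      exact isWeightedHomogeneous_X Ω (wk j) a

theorem sp_smul {e : Fin k → ℕ} {Q : MvPolynomial (Fin k × Fin 2) Ω} (hQ : MH e Q) (i : Fin k)
    (c : Ω) (P : Fin 2 → Ω) : sp i (c • P) Q = C (c ^ e i) * sp i P Q := by
  rw [Q.as_sum, map_sum, map_sum, Finset.mul_sum]
  refine Finset.sum_congr rfl fun t ht => ?_
  rw [sp, sp, aeval_monomial, aeval_monomial, mul_left_comm]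
  congr 1
  have h1 : (t.prod fun a n => (if a.1 = i then (C ((c • P) a.2) : MvPolynomial (Fin k × Fin 2) Ω)
      else X a) ^ n) = (t.prod fun a n => (if a.1 = i then (C c : MvPolynomial (Fin k × Fin 2) Ω)
      else 1) ^ n) * t.prod fun a n => (if a.1 = i then (C (P a.2) : MvPolynomial (Fin k × Fin 2) Ω)
      else X a) ^ n := by
    rw [← Finsupp.prod_mul]
    refine Finsupp.prod_congr fun a _ => ?_
    rw [← mul_pow]
    congr 1
    by_cases ha : a.1 = i
    · rw [if_pos ha, if_pos ha, if_pos ha, Pi.smul_apply, smul_eq_mul, C_mul]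
    · rw [if_neg ha, if_neg ha, if_neg ha, one_mul]
  rw [h1]
  congr 1
  rw [Finsupp.prod_fintype _ _ (fun a => pow_zero _), Fintype.prod_prod_type,
    Finset.prod_eq_single i]
  · rw [Fin.prod_univ_two, if_pos rfl, ← pow_add, hQ t ht i, C_pow]
  · intro j _ hj
    rw [Fin.prod_univ_two, if_neg hj, one_pow, one_pow, one_mul]
  · intro h
    exact absurd (Finset.mem_univ i) h

theorem sp_zero {e : Fin k → ℕ} {Q : MvPolynomial (Fin k × Fin 2) Ω} (hQ : MH e Q) {i : Fin k}
    (hi : 1 ≤ e i) : sp i 0 Q = 0 := by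
  have h1 := sp_smul hQ i 0 0
  rw [smul_zero, zero_pow (by omega), C_0, zero_mul] at h1
  exact h1

theorem not_unit {e : Fin k → ℕ} {Q : MvPolynomial (Fin k × Fin 2) Ω} (hQ : MH e Q) {i : Fin k}
    (hi : 1 ≤ e i) : ¬ IsUnit Q := by
  intro h
  have h1 := h.map (sp (Ω := Ω) i 0)
  rw [sp_zero hQ hi] at h1
  exact not_isUnit_zero h1

theorem no_dvd {e : Fin k → ℕ} {Q G : MvPolynomial (Fin k × Fin 2) Ω} (hQ : MH e Q)
    (hirr : Irreducible Q) {i : Fin k} (hi : 1 ≤ e i) (hG : ¬ IsUnit G) (hs : sp i 0 G = G) :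
    ¬ G ∣ Q := by
  rintro ⟨u, hu⟩
  have h1 : IsUnit u := (hirr.isUnit_or_isUnit hu).resolve_left hG
  have h2 := sp_zero hQ hi
  rw [hu, map_mul, hs] at h2
  rcases mul_eq_zero.1 h2 with h3 | h3
  · exact hirr.ne_zero (by rw [hu, h3, zero_mul])
  · have h4 := h1.map (sp (Ω := Ω) i 0)
    rw [h3] at h4
    exact not_isUnit_zero h4

theorem sp_bind (F : Fin 2 → MvPolynomial (Fin 2) Ω) (i : Fin k) (P : Fin 2 → Ω)
    (Q : MvPolynomial (Fin k × Fin 2) Ω) :
    sp i P (bind₁ (FX F k) Q) = bind₁ (FX F k) (sp i (gAct F Ω P) Q) := by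
  have h1 : ((sp i P).comp (bind₁ (FX F k)) : MvPolynomial (Fin k × Fin 2) Ω →ₐ[Ω] _) =
      (bind₁ (FX F k)).comp (sp i (gAct F Ω P)) := by
    refine algHom_ext fun a => ?_
    rw [AlgHom.comp_apply, AlgHom.comp_apply, bind₁_X_right, sp, sp, aeval_X, FX, aeval_rename]
    by_cases ha : a.1 = i
    · rw [if_pos ha, bind₁_C_right]
      have h2 : ((fun a : Fin k × Fin 2 => if a.1 = i then (C (P a.2) :
          MvPolynomial (Fin k × Fin 2) Ω) else X a) ∘ fun j => (a.1, j)) = fun j => C (P j) := by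
        funext j
        exact if_pos ha
      rw [h2]
      exact (comp_aeval_apply (Algebra.ofId Ω (MvPolynomial (Fin k × Fin 2) Ω)) (f := P)
        (F a.2)).symm
    · rw [if_neg ha, bind₁_X_right]
      have h2 : ((fun a : Fin k × Fin 2 => if a.1 = i then (C (P a.2) :
          MvPolynomial (Fin k × Fin 2) Ω) else X a) ∘ fun j => (a.1, j)) =
          fun j => X (a.1, j) := by
        funext j
        exact if_neg ha
      rw [h2, FX, ← aeval_X_left_apply (rename (fun j => (a.1, j)) (F a.2)), aeval_rename]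
      rfl
  exact AlgHom.congr_fun h1 Q

theorem sp_iter (F : Fin 2 → MvPolynomial (Fin 2) Ω) (i : Fin k) (n : ℕ) (P : Fin 2 → Ω)
    (Q : MvPolynomial (Fin k × Fin 2) Ω) :
    sp i P ((bind₁ (FX F k))^[n] Q) = (bind₁ (FX F k))^[n] (sp i ((gAct F Ω)^[n] P) Q) := by
  induction n generalizing P with
  | zero => rfl
  | succ n ih =>
    rw [Function.iterate_succ_apply', sp_bind, ih, Function.iterate_succ_apply',
      Function.iterate_succ_apply]

theorem iter_dvd (F : Fin 2 → MvPolynomial (Fin 2) Ω) (n : ℕ)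
    {Q R : MvPolynomial (Fin k × Fin 2) Ω} (h : Q ∣ R) :
    (bind₁ (FX F k))^[n] Q ∣ (bind₁ (FX F k))^[n] R := by
  induction n with
  | zero => exact h
  | succ n ih =>
    rw [Function.iterate_succ_apply', Function.iterate_succ_apply']
    exact map_dvd _ ih

theorem dvd_iter (F : Fin 2 → MvPolynomial (Fin 2) Ω) {m : ℕ}
    {Q : MvPolynomial (Fin k × Fin 2) Ω} (h : Q ∣ (bind₁ (FX F k))^[m] Q) (l : ℕ) :
    Q ∣ (bind₁ (FX F k))^[m * l] Q := by
  induction l with
  | zero => exact dvd_rfl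
  | succ l ih =>
    rw [Nat.mul_succ, add_comm, Function.iterate_add_apply]
    exact h.trans (iter_dvd F m ih)

/-- the specialization at a periodic point -/
theorem sp_per {q : ℕ} {F : Fin 2 → MvPolynomial (Fin 2) Ω} (hF : ∀ i, (F i).IsHomogeneous q)
    {e : Fin k → ℕ} {Q : MvPolynomial (Fin k × Fin 2) Ω} (hQ : MH e Q) {m : ℕ}
    (h : Q ∣ (bind₁ (FX F k))^[m] Q) (i : Fin k) {P : Fin 2 → Ω} {l : ℕ}
    (hP : Prl ((gAct F Ω)^[l] P) P) :
    sp i P Q ∣ (bind₁ (FX F k))^[m * l] (sp i P Q) := by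
  have h1 : ∀ n : ℕ, ∃ c : Ω, c ≠ 0 ∧ (gAct F Ω)^[l * n] P = c • P := by
    intro n
    induction n with
    | zero => exact ⟨1, one_ne_zero, (one_smul _ _).symm⟩
    | succ n ih =>
      obtain ⟨c, hc, hc'⟩ := ih
      obtain ⟨d, hd, hd'⟩ := hP
      refine ⟨c ^ q ^ l * d, mul_ne_zero (pow_ne_zero _ hc) hd, ?_⟩
      rw [Nat.mul_succ, add_comm, Function.iterate_add_apply, hc', gAct_iter_smul F hF, hd',
        smul_smul]
  obtain ⟨c, hc, hc'⟩ := h1 m
  have h2 := map_dvd (sp (Ω := Ω) i P) (dvd_iter F h l)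
  rw [sp_iter, mul_comm m l, hc', sp_smul hQ] at h2
  have h3 : ∀ n : ℕ, (bind₁ (FX F k))^[n] (C (c ^ e i) * sp i P Q) =
      C (c ^ e i) * (bind₁ (FX F k))^[n] (sp i P Q) := by
    intro n
    induction n with
    | zero => rfl
    | succ n ih =>
      rw [Function.iterate_succ_apply', ih, map_mul, bind₁_C_right, Function.iterate_succ_apply']
  rw [h3, mul_comm l m] at h2
  have h4 : IsUnit (C (c ^ e i) : MvPolynomial (Fin k × Fin 2) Ω) :=
    (isUnit_iff_ne_zero.2 (pow_ne_zero _ hc)).map C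
  exact h4.dvd_mul_left.1 h2

end forms

/-! ### Periodic factors -/

theorem exists_per {A : Type} [CommRing A] [IsDomain A] [UniqueFactorizationMonoid A]
    (Φ : A →+* A) {R : A} (hR0 : R ≠ 0) (hRu : ¬ IsUnit R) (h : R ∣ Φ R) :
    ∃ g : A, Irreducible g ∧ g ∣ R ∧ ∃ n : ℕ, 1 ≤ n ∧ g ∣ (Φ^[n]) g := by
  set s := (UniqueFactorizationMonoid.factors R).toFinset with hs
  have h1 : ∀ g ∈ s, ∃ g' ∈ s, g ∣ Φ g' := by
    intro g hg
    have hg' : g ∈ UniqueFactorizationMonoid.factors R := Multiset.mem_toFinset.1 hg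
    have hp : Prime g := UniqueFactorizationMonoid.prime_of_factor g hg'
    have h2 : g ∣ Φ (UniqueFactorizationMonoid.factors R).prod :=
      ((UniqueFactorizationMonoid.dvd_of_mem_factors hg').trans h).trans
        (map_dvd Φ (UniqueFactorizationMonoid.factors_prod hR0).symm.dvd)
    rw [map_multiset_prod] at h2
    obtain ⟨g', hg1, hg2⟩ := hp.exists_mem_multiset_map_dvd h2
    exact ⟨g', Multiset.mem_toFinset.2 hg1, hg2⟩
  choose! σ hσ1 hσ2 using h1
  obtain ⟨g0, hg0⟩ := UniqueFactorizationMonoid.exists_mem_factors hR0 hRu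
  have h3 : ∀ n : ℕ, σ^[n] g0 ∈ s := by
    intro n
    induction n with
    | zero => exact Multiset.mem_toFinset.2 hg0
    | succ n ih =>
      rw [Function.iterate_succ_apply']
      exact hσ1 _ ih
  obtain ⟨i, j, hij, hij'⟩ := Finite.exists_ne_map_eq_of_infinite
    (fun n : ℕ => (⟨σ^[n] g0, h3 n⟩ : {g // g ∈ s}))
  have hij'' : σ^[i] g0 = σ^[j] g0 := congrArg Subtype.val hij'
  have h4 : ∀ i j : ℕ, i < j → σ^[i] g0 = σ^[j] g0 →
      ∃ g : A, Irreducible g ∧ g ∣ R ∧ ∃ n : ℕ, 1 ≤ n ∧ g ∣ (Φ^[n]) g := by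
    intro i j hlt heq
    have hgi : σ^[i] g0 ∈ UniqueFactorizationMonoid.factors R := Multiset.mem_toFinset.1 (h3 i)
    refine ⟨σ^[i] g0, UniqueFactorizationMonoid.irreducible_of_factor _ hgi,
      UniqueFactorizationMonoid.dvd_of_mem_factors hgi, j - i, by omega, ?_⟩
    have h5 : ∀ n : ℕ, σ^[i] g0 ∣ Φ^[n] (σ^[i + n] g0) := by
      intro n
      induction n with
      | zero => exact dvd_rfl
      | succ n ih =>
        rw [Function.iterate_succ_apply]
        refine ih.trans ?_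
        have h6 : σ^[i + n] g0 ∣ Φ (σ^[i + (n + 1)] g0) := by
          rw [← add_assoc, Function.iterate_succ_apply']
          exact hσ2 _ (h3 _)
        have h7 : ∀ m : ℕ, Φ^[m] (σ^[i + n] g0) ∣ Φ^[m] (Φ (σ^[i + (n + 1)] g0)) := by
          intro m
          induction m with
          | zero => exact h6
          | succ m ih =>
            rw [Function.iterate_succ_apply', Function.iterate_succ_apply']
            exact map_dvd Φ ih
        exact h7 n
    have h8 := h5 (j - i)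
    rw [show i + (j - i) = j by omega, ← heq] at h8
    exact h8
  rcases lt_or_gt_of_ne hij with hlt | hlt
  · exact h4 i j hlt hij''
  · exact h4 j i hlt hij''.symm

/-! ### Divisibility of the specializations -/

section fin

variable {Ω : Type} [Field Ω] {k : ℕ}

/-- a prime divides few specializations -/
theorem fin_dvd (hroot : RootStatement) (i : Fin k) {e : Fin k → ℕ}
    {Q : MvPolynomial (Fin k × Fin 2) Ω} (hQ : MH e Q) {G : MvPolynomial (Fin k × Fin 2) Ω}
    (hG : Irreducible G) (hn : ¬ G ∣ Q) :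
    ∃ Z : Finset (Option Ω), ∀ P : Fin 2 → Ω, P ≠ 0 → G ∣ sp i P Q → pr P ∈ Z := by
  have hp : Prime G := hG.prime
  have hI : (Ideal.span {G}).IsPrime := (Ideal.span_singleton_prime hp.ne_zero).2 hp
  set D := MvPolynomial (Fin k × Fin 2) Ω ⧸ Ideal.span {G} with hD
  have : IsDomain D := Ideal.Quotient.isDomain _
  set E := FractionRing D with hE
  set mk : MvPolynomial (Fin k × Fin 2) Ω →ₐ[Ω] E :=
    (IsScalarTower.toAlgHom Ω D E).comp (Ideal.Quotient.mkₐ Ω (Ideal.span {G})) with hmk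
  have hmk0 : ∀ H, mk H = 0 ↔ G ∣ H := by
    intro H
    rw [hmk, AlgHom.comp_apply, IsScalarTower.toAlgHom_apply,
      map_eq_zero_iff _ (IsFractionRing.injective D E), Ideal.Quotient.mkₐ_eq_mk,
      Ideal.Quotient.eq_zero_iff_mem, Ideal.mem_span_singleton]
  set Ψ : MvPolynomial (Fin k × Fin 2) Ω →ₐ[Ω] MvPolynomial (Fin 2) E :=
    aeval fun a => if a.1 = i then X a.2 else C (mk (X a)) with hΨ
  have h1 : (aeval fun j => mk (X (i, j)) : MvPolynomial (Fin 2) E →ₐ[E] E) (Ψ Q) = mk Q := by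
    have h2 : ((aeval fun j => mk (X (i, j)) : MvPolynomial (Fin 2) E →ₐ[E] E).restrictScalars
        Ω).comp Ψ = mk := by
      refine algHom_ext fun a => ?_
      rw [AlgHom.comp_apply, hΨ, aeval_X, AlgHom.restrictScalars_apply]
      by_cases ha : a.1 = i
      · rw [if_pos ha, aeval_X, ← ha]
      · rw [if_neg ha, aeval_C]
        rfl
    exact AlgHom.congr_fun h2 Q
  have hR0 : Ψ Q ≠ 0 := by
    intro h0
    rw [h0, map_zero] at h1
    exact hn ((hmk0 Q).1 h1.symm)
  have hRh : (Ψ Q).IsHomogeneous (e i) := by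
    refine whom_aeval (w' := wk i) (fun a => ?_) ((mh_iff.1 hQ) i)
    by_cases ha : a.1 = i
    · rw [if_pos ha, wk, if_pos ha]
      exact isHomogeneous_X _ _
    · rw [if_neg ha, wk, if_neg ha]
      exact isHomogeneous_C _ _
  obtain ⟨Z, _, hZ⟩ := hroot E E (e i) (Ψ Q) hR0 hRh
  have hinj : Function.Injective (Option.map (algebraMap Ω E)) :=
    Option.map_injective (algebraMap Ω E).injective
  refine ⟨Z.preimage (Option.map (algebraMap Ω E)) hinj.injOn, fun P hP hd => ?_⟩
  rw [Finset.mem_preimage]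
  have h3 : (aeval fun j => algebraMap Ω E (P j) : MvPolynomial (Fin 2) E →ₐ[E] E) (Ψ Q) =
      mk (sp i P Q) := by
    have h2 : ((aeval fun j => algebraMap Ω E (P j) : MvPolynomial (Fin 2) E →ₐ[E]
        E).restrictScalars Ω).comp Ψ = mk.comp (sp i P) := by
      refine algHom_ext fun a => ?_
      rw [AlgHom.comp_apply, AlgHom.comp_apply, hΨ, aeval_X, AlgHom.restrictScalars_apply, sp,
        aeval_X]
      by_cases ha : a.1 = i
      · rw [if_pos ha, if_pos ha, aeval_X]
        exact (AlgHom.commutes mk (P a.2)).symm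
      · rw [if_neg ha, if_neg ha, aeval_C]
        rfl
    exact AlgHom.congr_fun h2 Q
  have h4 := hZ (fun j => algebraMap Ω E (P j)) (fun h => hP (by
    funext j
    exact (map_eq_zero_iff _ (algebraMap Ω E).injective).1 (congrFun h j)))
    (by rw [h3]; exact (hmk0 _).2 hd)
  have h5 : pr (fun j => algebraMap Ω E (P j)) = Option.map (algebraMap Ω E) (pr P) := by
    rw [pr, pr]
    by_cases h0 : P 1 = 0
    · rw [if_pos h0, if_pos (by rw [h0, map_zero])]
      rfl
    · rw [if_neg h0, if_neg (fun h => h0 ((map_eq_zero_iff _ (algebraMap Ω E).injective).1 h)),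
        Option.map_some, map_div₀]
  rw [← h5]
  exact h4

/-! ### Two pairs of variables -/

/-- the inclusion of two pairs of variables -/
def jj (i a : Fin k) : Fin 2 ⊕ Fin 2 → Fin k × Fin 2 :=
  Sum.elim (fun j => (i, j)) (fun j => (a, j))

theorem jj_inj {i a : Fin k} (h : a ≠ i) : Function.Injective (jj i a) := by
  rintro (x | x) (y | y) hxy
  · exact congrArg Sum.inl (Prod.mk.inj hxy).2
  · exact absurd (Prod.mk.inj hxy).1.symm h
  · exact absurd (Prod.mk.inj hxy).1 h
  · exact congrArg Sum.inr (Prod.mk.inj hxy).2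

/-- the other variables as variables, two pairs of variables in the coefficients -/
noncomputable def th (i a : Fin k) : MvPolynomial (Fin k × Fin 2) Ω →ₐ[Ω]
    MvPolynomial (Fin k × Fin 2) (MvPolynomial (Fin 2 ⊕ Fin 2) Ω) :=
  aeval fun x => if x.1 = i then C (X (Sum.inl x.2)) else
    if x.1 = a then C (X (Sum.inr x.2)) else X x

theorem th_dvd (i a : Fin k) {Q : MvPolynomial (Fin k × Fin 2) Ω}
    {h : MvPolynomial (Fin 2 ⊕ Fin 2) Ω} (hd : ∀ μ, h ∣ coeff μ (th i a Q)) :
    rename (jj i a) h ∣ Q := by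
  set r : MvPolynomial (Fin k × Fin 2) (MvPolynomial (Fin 2 ⊕ Fin 2) Ω) →+*
    MvPolynomial (Fin k × Fin 2) Ω := eval₂Hom (rename (jj i a)).toRingHom X with hr
  have h1 : r (th i a Q) = Q := by
    have h2 : r.comp (th i a).toRingHom = RingHom.id _ := by
      refine MvPolynomial.ringHom_ext (fun c => ?_) (fun x => ?_)
      · have h3 : (th i a) (C c) = C (C c) := (th i a).commutes c
        rw [RingHom.comp_apply, RingHom.id_apply, AlgHom.toRingHom_eq_coe, RingHom.coe_coe, h3, hr,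
          eval₂Hom_C, AlgHom.toRingHom_eq_coe, RingHom.coe_coe, rename_C]
      · rw [RingHom.comp_apply, RingHom.id_apply, AlgHom.toRingHom_eq_coe, RingHom.coe_coe, th,
          aeval_X]
        by_cases hx : x.1 = i
        · rw [if_pos hx, hr, eval₂Hom_C, AlgHom.toRingHom_eq_coe, RingHom.coe_coe, rename_X]
          congr 1
          exact Prod.ext hx.symm rfl
        · rw [if_neg hx]
          by_cases hx' : x.1 = a
          · rw [if_pos hx', hr, eval₂Hom_C, AlgHom.toRingHom_eq_coe, RingHom.coe_coe, rename_X]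
            congr 1
            exact Prod.ext hx'.symm rfl
          · rw [if_neg hx', hr, eval₂Hom_X']
    exact RingHom.congr_fun h2 Q
  have h4 := map_dvd r ((C_dvd_iff_dvd_coeff h _).2 hd)
  rw [h1, hr, eval₂Hom_C] at h4
  exact h4

theorem th_ne (i a : Fin k) {Q : MvPolynomial (Fin k × Fin 2) Ω} (hQ : Q ≠ 0) :
    ∃ μ, coeff μ (th i a Q) ≠ 0 := by
  by_contra hc
  push Not at hc
  have h1 := th_dvd (h := 0) i a (Q := Q) (fun μ => by rw [hc μ])
  rw [map_zero, zero_dvd_iff] at h1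
  exact hQ h1

theorem th_ev (i a : Fin k) (P β : Fin 2 → Ω) (Q : MvPolynomial (Fin k × Fin 2) Ω)
    (h : sp a β (sp i P Q) = 0) (μ : Fin k × Fin 2 →₀ ℕ) : GS.ev P β (coeff μ (th i a Q)) = 0 := by
  set r : MvPolynomial (Fin k × Fin 2) (MvPolynomial (Fin 2 ⊕ Fin 2) Ω) →+*
    MvPolynomial (Fin k × Fin 2) Ω := map (aeval (Sum.elim P β)).toRingHom with hr
  have h1 : r (th i a Q) = sp a β (sp i P Q) := by
    have h2 : r.comp (th i a).toRingHom = ((sp a β).comp (sp i P)).toRingHom := by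
      refine MvPolynomial.ringHom_ext (fun c => ?_) (fun x => ?_)
      · have h3 : (th i a) (C c) = C (C c) := (th i a).commutes c
        have h4 : ((sp a β).comp (sp i P)) (C c) = C c := AlgHom.commutes _ c
        rw [RingHom.comp_apply, AlgHom.toRingHom_eq_coe, AlgHom.toRingHom_eq_coe, RingHom.coe_coe,
          RingHom.coe_coe, h3, h4, hr, map_C, AlgHom.toRingHom_eq_coe, RingHom.coe_coe,
          algHom_C]
        rfl
      · rw [RingHom.comp_apply, AlgHom.toRingHom_eq_coe, AlgHom.toRingHom_eq_coe, RingHom.coe_coe,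
          RingHom.coe_coe, th, aeval_X, AlgHom.comp_apply, sp, sp, aeval_X]
        by_cases hx : x.1 = i
        · rw [if_pos hx, if_pos hx, hr, map_C, AlgHom.toRingHom_eq_coe, RingHom.coe_coe, aeval_X,
            algHom_C]
          rfl
        · rw [if_neg hx, if_neg hx, aeval_X]
          by_cases hx' : x.1 = a
          · rw [if_pos hx', if_pos hx', hr, map_C, AlgHom.toRingHom_eq_coe, RingHom.coe_coe,
              aeval_X]
            rfl
          · rw [if_neg hx', if_neg hx', hr, map_X]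
    exact RingHom.congr_fun h2 Q
  rw [h] at h1
  have h5 : coeff μ (r (th i a Q)) = GS.ev P β (coeff μ (th i a Q)) := by
    rw [hr, coeff_map]
    rfl
  rw [← h5, h1, coeff_zero]

theorem th_bihom {i a : Fin k} (hia : a ≠ i) {e : Fin k → ℕ}
    {Q : MvPolynomial (Fin k × Fin 2) Ω} (hQ : MH e Q) (μ : Fin k × Fin 2 →₀ ℕ) :
    BiHom (e i) (e a) (coeff μ (th i a Q)) := by
  rw [Q.as_sum, map_sum, coeff_sum]
  refine BiHom.sum _ fun t ht => ?_
  have h1 : th i a (monomial t (coeff t Q)) = C (C (coeff t Q) * t.prod fun x n =>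
      (if x.1 = i then X (Sum.inl x.2) else if x.1 = a then X (Sum.inr x.2) else 1) ^ n) *
      map C (t.prod fun x n => (if x.1 = i then 1 else if x.1 = a then 1 else X x) ^ n) := by
    rw [th, aeval_monomial, C_mul, mul_assoc]
    congr 1
    rw [Finsupp.prod, Finsupp.prod, Finsupp.prod, map_prod, map_prod, ← Finset.prod_mul_distrib]
    refine Finset.prod_congr rfl fun x _ => ?_
    rw [map_pow, map_pow, ← mul_pow]
    congr 1
    by_cases hx : x.1 = i
    · rw [if_pos hx, if_pos hx, if_pos hx, map_one, mul_one]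
    · rw [if_neg hx, if_neg hx, if_neg hx]
      by_cases hx' : x.1 = a
      · rw [if_pos hx', if_pos hx', if_pos hx', map_one, mul_one]
      · rw [if_neg hx', if_neg hx', if_neg hx', C_1, one_mul, map_X]
  rw [h1, coeff_C_mul, coeff_map, mul_assoc]
  refine BiHom.C_mul ?_ _
  rw [mul_comm]
  refine BiHom.C_mul ?_ _
  have h2 : ∀ (w : Fin 2 ⊕ Fin 2 → ℕ) (w' : Fin k × Fin 2 → ℕ)
      (A : Fin k × Fin 2 → MvPolynomial (Fin 2 ⊕ Fin 2) Ω),
      (∀ x, IsWeightedHomogeneous w (A x) (w' x)) →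
      IsWeightedHomogeneous w (t.prod fun x n => A x ^ n) (Finsupp.weight w' t) := by
    intro w w' A hA
    rw [Finsupp.prod, Finsupp.weight_apply, Finsupp.sum]
    exact IsWeightedHomogeneous.prod _ _ _ fun x _ => (hA x).pow (t x)
  have h3 := hQ t ht
  rw [bihom_iff]
  constructor
  · rw [← h3 i, ← weight_wk]
    refine h2 _ _ _ fun x => ?_
    by_cases hx : x.1 = i
    · rw [if_pos hx, wk, if_pos hx]
      exact isWeightedHomogeneous_X Ω w1 (Sum.inl x.2)
    · rw [if_neg hx, wk, if_neg hx]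
      by_cases hx' : x.1 = a
      · rw [if_pos hx']
        exact isWeightedHomogeneous_X Ω w1 (Sum.inr x.2)
      · rw [if_neg hx']
        exact isWeightedHomogeneous_one _ _
  · rw [← h3 a, ← weight_wk]
    refine h2 _ _ _ fun x => ?_
    by_cases hx : x.1 = i
    · rw [if_pos hx, wk, if_neg (by rw [hx]; exact fun h => hia h.symm)]
      exact isWeightedHomogeneous_X Ω w2 (Sum.inl x.2)
    · rw [if_neg hx, wk]
      by_cases hx' : x.1 = a
      · rw [if_pos hx', if_pos hx']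
        exact isWeightedHomogeneous_X Ω w2 (Sum.inr x.2)
      · rw [if_neg hx', if_neg hx']
        exact isWeightedHomogeneous_one _ _

theorem sp_rename {i a c : Fin k} (hi : i ≠ c) (ha : a ≠ c) (P : Fin 2 → Ω)
    (h : MvPolynomial (Fin 2 ⊕ Fin 2) Ω) : sp c P (rename (jj i a) h) = rename (jj i a) h := by
  rw [sp, aeval_rename, ← aeval_X_left_apply (rename (jj i a) h), aeval_rename]
  congr 1
  congr 1
  funext x
  rcases x with x | x
  · exact if_neg hi
  · exact if_neg ha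

theorem rename_unit {i a : Fin k} (hia : a ≠ i) {h : MvPolynomial (Fin 2 ⊕ Fin 2) Ω}
    (hu : IsUnit (rename (jj i a) h)) : IsUnit h := by
  have h1 := hu.map (killCompl (jj_inj hia) : _ →ₐ[Ω] _)
  rwa [killCompl_rename_app] at h1

/-- few points of the first pair of variables are zeros of all coefficients -/
theorem fin_zero (hroot : RootStatement) (hbez : BezStatement) {i a c : Fin k} (hia : a ≠ i)
    (hic : i ≠ c) (hac : a ≠ c) {e : Fin k → ℕ} {Q : MvPolynomial (Fin k × Fin 2) Ω}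
    (hQ : MH e Q) (hirr : Irreducible Q) (hec : 1 ≤ e c) :
    ∃ Z : Finset (Option Ω), ∀ P β : Fin 2 → Ω, P ≠ 0 → β ≠ 0 → sp a β (sp i P Q) = 0 →
      pr P ∈ Z := by
  obtain ⟨μ₀, hμ₀⟩ := th_ne i a hirr.ne_zero
  set c₀ := coeff μ₀ (th i a Q) with hc₀
  have hbi : BiHom (e i) (e a) c₀ := th_bihom hia hQ μ₀
  have key : ∀ h : MvPolynomial (Fin 2 ⊕ Fin 2) Ω, ∃ Z : Finset (Option Ω),
      h ∈ UniqueFactorizationMonoid.factors c₀ → ∀ P β : Fin 2 → Ω, P ≠ 0 → β ≠ 0 →
      sp a β (sp i P Q) = 0 → GS.ev P β h = 0 → pr P ∈ Z := by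
    intro h
    by_cases hh : h ∈ UniqueFactorizationMonoid.factors c₀
    swap
    · exact ⟨∅, fun h' => absurd h' hh⟩
    have hirr' : Irreducible h := UniqueFactorizationMonoid.irreducible_of_factor h hh
    obtain ⟨d₁, d₂, hd₁, hd₂, hbh⟩ := hbi.of_dvd hμ₀
      (UniqueFactorizationMonoid.dvd_of_mem_factors hh)
    by_cases h0 : d₂ = 0
    · subst h0
      obtain ⟨g, hg1, hg2⟩ := Bif.exists_rename (f := Sum.inl) Sum.inl_injective
        (fun t ht => (hbh t ht).1) (fun t ht x hx => by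
          rcases x with x | x
          · exact absurd ⟨x, rfl⟩ hx
          · have h1 := (hbh t ht).2
            fin_cases x
            · show t (Sum.inr 0) = 0
              omega
            · show t (Sum.inr 1) = 0
              omega)
      have hg0 : g ≠ 0 := by
        rintro rfl
        exact hirr'.ne_zero (by rw [← hg2, map_zero])
      obtain ⟨Z, _, hZ⟩ := hroot Ω Ω d₁ g hg0 hg1
      refine ⟨Z, fun _ P β hP _ _ hev => hZ P hP ?_⟩
      rw [← hg2, GS.ev, aeval_rename] at hev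
      exact hev
    · have h1 : ∃ μ, ¬ h ∣ coeff μ (th i a Q) := by
        by_contra hc
        push Not at hc
        exact no_dvd hQ hirr hec (fun hu => hirr'.not_isUnit (rename_unit hia hu))
          (sp_rename hic hac 0 h) (th_dvd i a hc)
      obtain ⟨μ, hμ⟩ := h1
      obtain ⟨R, hR0, hRh, hR⟩ := hbez Ω d₁ d₂ (e i) (e a) h (coeff μ (th i a Q)) hbh
        (th_bihom hia hQ μ) hirr' (by omega) hμ
      obtain ⟨Z, _, hZ⟩ := hroot Ω Ω _ R hR0 hRh
      exact ⟨Z, fun _ P β hP hβ hs hev => hZ P hP (hR Ω P β hβ hev (th_ev i a P β Q hs μ))⟩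
  choose Z hZ using key
  refine ⟨(UniqueFactorizationMonoid.factors c₀).toFinset.biUnion Z, fun P β hP hβ hs => ?_⟩
  have h1 : GS.ev P β c₀ = 0 := th_ev i a P β Q hs μ₀
  have h2 : GS.ev P β (UniqueFactorizationMonoid.factors c₀).prod = 0 := by
    obtain ⟨u, hu⟩ := (UniqueFactorizationMonoid.factors_prod hμ₀).symm
    rw [← hu, GS.ev, map_mul]
    rw [GS.ev] at h1
    rw [h1, zero_mul]
  rw [GS.ev, map_multiset_prod, Multiset.prod_eq_zero_iff, Multiset.mem_map] at h2
  obtain ⟨h, hh, hh'⟩ := h2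
  exact Finset.mem_biUnion.2 ⟨h, Multiset.mem_toFinset.2 hh, hZ h hh P β hP hβ hs hh'⟩

/-! ### Factors which involve few pairs of variables -/

theorem exists_rename' {σ : Type} {f : σ → Fin k × Fin 2} (hf : Function.Injective f)
    {G : MvPolynomial (Fin k × Fin 2) Ω}
    (h2 : ∀ t ∈ G.support, ∀ x, x ∉ Set.range f → t x = 0) :
    ∃ g : MvPolynomial σ Ω, rename f g = G ∧ ∀ m ∈ g.support, m.mapDomain f ∈ G.support := by
  have hv : (↑G.vars : Set (Fin k × Fin 2)) ⊆ Set.range f := by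
    intro x hx
    by_contra hc
    obtain ⟨t, ht, hxt⟩ := (mem_vars_iff_mem_support x).1 (Finset.mem_coe.1 hx)
    exact (Finsupp.mem_support_iff.1 hxt) (h2 t ht x hc)
  obtain ⟨g, hg⟩ := exists_rename_eq_of_vars_subset_range G f hf hv
  refine ⟨g, hg, fun m hm => ?_⟩
  rw [mem_support_iff] at *
  rwa [← hg, coeff_rename_mapDomain f hf]

theorem zero_of_mh {e : Fin k → ℕ} {G : MvPolynomial (Fin k × Fin 2) Ω} (hG : MH e G)
    {t : Fin k × Fin 2 →₀ ℕ} (ht : t ∈ G.support) {x : Fin k × Fin 2} (hx : e x.1 = 0) :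
    t x = 0 := by
  have h1 := hG t ht x.1
  obtain ⟨i, j⟩ := x
  fin_cases j
  · show t (i, 0) = 0
    simp only at h1 hx
    omega
  · show t (i, 1) = 0
    simp only at h1 hx
    omega

theorem not_all_zero {e : Fin k → ℕ} {G : MvPolynomial (Fin k × Fin 2) Ω} (hG : MH e G)
    (hirr : Irreducible G) : ∃ i, 1 ≤ e i := by
  by_contra hc
  push Not at hc
  have h1 : G = C (coeff 0 G) := by
    ext t
    rw [coeff_C]
    by_cases ht : t ∈ G.support
    · have h2 : t = 0 := by
        ext x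
        exact zero_of_mh hG ht (Nat.lt_one_iff.1 (hc x.1))
      rw [h2, if_pos rfl]
    · rw [notMem_support_iff.1 ht]
      by_cases h0 : 0 = t
      · rw [if_pos h0, h0, notMem_support_iff.1 ht]
      · rw [if_neg h0]
  by_cases h0 : coeff 0 G = 0
  · rw [h0, C_0] at h1
    exact hirr.ne_zero h1
  · exact hirr.not_isUnit (by rw [h1]; exact (isUnit_iff_ne_zero.2 h0).map C)

/-- a form in one pair of variables has a zero -/
theorem one_pair [IsAlgClosed Ω] {e : Fin k → ℕ} {G : MvPolynomial (Fin k × Fin 2) Ω}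
    (hG : MH e G) {a : Fin k} (ha : 1 ≤ e a) (h0 : ∀ i, i ≠ a → e i = 0) :
    ∃ β : Fin 2 → Ω, β ≠ 0 ∧ sp a β G = 0 := by
  have hinj : Function.Injective (fun j : Fin 2 => (a, j)) := fun x y h => (Prod.mk.inj h).2
  obtain ⟨g, hg, hg'⟩ := exists_rename' hinj (G := G) (fun t ht x hx => by
    refine zero_of_mh hG ht (h0 _ fun h => hx ⟨x.2, ?_⟩)
    exact Prod.ext h.symm rfl)
  have hh : g.IsHomogeneous (e a) := by
    intro m hm
    have h1 := hG _ (hg' m (mem_support_iff.2 hm)) a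
    have e1 : ∀ x, (Finsupp.mapDomain (fun j : Fin 2 => (a, j)) m) (a, x) = m x := fun x =>
      Finsupp.mapDomain_apply hinj _ _
    rw [e1, e1] at h1
    have h2 : m.degree = e a := by
      rw [Finsupp.degree_eq_sum, Fin.sum_univ_two]
      exact h1
    rw [Finsupp.degree_eq_weight_one] at h2
    exact h2
  obtain ⟨β, hβ, hβ'⟩ := LevA.exists_zero ha hh
  refine ⟨β, hβ, ?_⟩
  rw [← hg, sp, aeval_rename]
  have h2 : ((fun x : Fin k × Fin 2 => if x.1 = a then (C (β x.2) :
      MvPolynomial (Fin k × Fin 2) Ω) else X x) ∘ fun j => (a, j)) = fun j => C (β j) := by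
    funext j
    exact if_pos rfl
  rw [h2]
  have h3 := (comp_aeval_apply (Algebra.ofId Ω (MvPolynomial (Fin k × Fin 2) Ω)) (f := β) g)
  rw [hβ', map_zero] at h3
  exact h3.symm

theorem bind_rename (F : Fin 2 → MvPolynomial (Fin 2) Ω) (i a : Fin k)
    (G : MvPolynomial (Fin 2 ⊕ Fin 2) Ω) :
    bind₁ (FX F k) (rename (jj i a) G) = rename (jj i a) (bind₁ (dbl F) G) := by
  have h1 : ((bind₁ (FX F k)).comp (rename (jj i a)) : MvPolynomial (Fin 2 ⊕ Fin 2) Ω →ₐ[Ω] _) =
      (rename (jj i a)).comp (bind₁ (dbl F)) := by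
    refine algHom_ext fun x => ?_
    rw [AlgHom.comp_apply, AlgHom.comp_apply, rename_X, bind₁_X_right, bind₁_X_right, FX, dbl]
    rcases x with x | x
    · rw [Sum.elim_inl, rename_rename]
      rfl
    · rw [Sum.elim_inr, rename_rename]
      rfl
  exact AlgHom.congr_fun h1 G

theorem iter_rename (F : Fin 2 → MvPolynomial (Fin 2) Ω) (i a : Fin k) (n : ℕ)
    (G : MvPolynomial (Fin 2 ⊕ Fin 2) Ω) :
    (bind₁ (FX F k))^[n] (rename (jj i a) G) = rename (jj i a) ((bind₁ (dbl F))^[n] G) := by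
  induction n with
  | zero => rfl
  | succ n ih => rw [Function.iterate_succ_apply', ih, bind_rename, Function.iterate_succ_apply']

/-- a periodic form in two pairs of variables -/
theorem two_pair {F : Fin 2 → MvPolynomial (Fin 2) Ω} {e : Fin k → ℕ}
    {G : MvPolynomial (Fin k × Fin 2) Ω} (hG : MH e G) (hirr : Irreducible G) {a b : Fin k}
    (hab : b ≠ a) (ha : 1 ≤ e a) (hb : 1 ≤ e b) (h0 : ∀ i, i ≠ a → i ≠ b → e i = 0) {E : ℕ}
    (hEa : e a ≤ E) (hEb : e b ≤ E) {n : ℕ} (hn : 1 ≤ n)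
    (hd : G ∣ (bind₁ (FX F k))^[n] G) :
    ∃ g : MvPolynomial (Fin 2 ⊕ Fin 2) Ω, rename (jj a b) g = G ∧ PerForm F E g := by
  have hinj := jj_inj hab
  obtain ⟨g, hg, hg'⟩ := exists_rename' hinj (G := G) (fun t ht x hx => by
    refine zero_of_mh hG ht (h0 _ (fun h => hx ⟨Sum.inl x.2, ?_⟩) fun h => hx ⟨Sum.inr x.2, ?_⟩)
    · exact Prod.ext h.symm rfl
    · exact Prod.ext h.symm rfl)
  refine ⟨g, hg, ?_, ⟨e a, e b, ha, hEa, hb, hEb, ?_⟩, n, hn, ?_⟩
  · have : IsLocalHom (rename (R := Ω) (jj a b)) := ⟨fun x hx => rename_unit hab hx⟩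
    rw [← hg] at hirr
    exact hirr.of_map
  · intro m hm
    have h1 := hG _ (hg' m hm)
    have h2 := h1 a
    have h3 := h1 b
    have e1 : ∀ x, (Finsupp.mapDomain (jj a b) m) (jj a b x) = m x := fun x =>
      Finsupp.mapDomain_apply hinj _ _
    exact ⟨by rw [← e1, ← e1]; exact h2, by rw [← e1, ← e1]; exact h3⟩
  · rw [← hg, iter_rename] at hd
    have h1 := map_dvd (killCompl hinj : MvPolynomial (Fin k × Fin 2) Ω →ₐ[Ω] _) hd
    rwa [killCompl_rename_app, killCompl_rename_app] at h1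

end fin

/-- the induction -/
theorem main (hroot : RootStatement) (hbez : BezStatement) {Ω : Type} [Field Ω] [IsAlgClosed Ω]
    {q : ℕ} {F : Fin 2 → MvPolynomial (Fin 2) Ω} (hF : ∀ i, (F i).IsHomogeneous q)
    (hper : {z : Option Ω | ∃ (P : Fin 2 → Ω) (m : ℕ), P ≠ 0 ∧ 1 ≤ m ∧ pr P = z ∧
      Prl ((gAct F Ω)^[m] P) P}.Infinite)
    (hcnt : ∀ e : ℕ, ∃ S : Finset (MvPolynomial (Fin 2 ⊕ Fin 2) Ω), ∀ G, PerForm F e G →
      ∃ G' ∈ S, Associated G G') {k : ℕ} :
    ∀ (n : ℕ) (e : Fin k → ℕ) (Q : MvPolynomial (Fin k × Fin 2) Ω), Irreducible Q → MH e Q →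
    (Finset.univ.filter fun i => 1 ≤ e i).card = n → ∀ m : ℕ, 1 ≤ m →
    Q ∣ (bind₁ (FX F k))^[m] Q → n ≤ 2 := by
  intro n
  induction n using Nat.strong_induction_on with
  | _ n ih =>
  intro e Q hirr hQ hcard m hm hd
  by_contra hn
  push Not at hn
  -- the pair of variables which is specialized
  obtain ⟨i, hi⟩ : (Finset.univ.filter fun i => 1 ≤ e i).Nonempty := by
    rw [← Finset.card_pos]
    omega
  have hei : 1 ≤ e i := (Finset.mem_filter.1 hi).2
  -- third pairs of variables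
  have hthird : ∀ a : Fin k, ∃ c : Fin k, i ≠ c ∧ a ≠ c ∧ 1 ≤ e c := by
    intro a
    by_contra hc
    push Not at hc
    have h1 : (Finset.univ.filter fun i => 1 ≤ e i) ⊆ {i, a} := by
      intro c hc'
      rw [Finset.mem_insert, Finset.mem_singleton]
      by_contra h
      push Not at h
      exact absurd (Finset.mem_filter.1 hc').2
        (by have := hc c (fun h' => h.1 h'.symm) (fun h' => h.2 h'.symm); omega)
    have h2 := Finset.card_le_card h1
    have h3 : ({i, a} : Finset (Fin k)).card ≤ 2 := Finset.card_le_two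
    omega
  obtain ⟨S, hS⟩ := hcnt (∑ i, e i)
  -- the exceptional points
  have hB : ∀ a : Fin k, ∃ Z : Finset (Option Ω), a ≠ i → ∀ P β : Fin 2 → Ω, P ≠ 0 → β ≠ 0 →
      sp a β (sp i P Q) = 0 → pr P ∈ Z := by
    intro a
    by_cases ha : a = i
    · exact ⟨∅, fun h => absurd ha h⟩
    · obtain ⟨c, hc1, hc2, hc3⟩ := hthird a
      obtain ⟨Z, hZ⟩ := fin_zero hroot hbez ha hc1 hc2 hQ hirr hc3
      exact ⟨Z, fun _ => hZ⟩
  have hA : ∀ (a b : Fin k) (G : MvPolynomial (Fin 2 ⊕ Fin 2) Ω), ∃ Z : Finset (Option Ω),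
      a ≠ i → b ≠ i → Irreducible (rename (jj a b) G) → ∀ P : Fin 2 → Ω, P ≠ 0 →
      rename (jj a b) G ∣ sp i P Q → pr P ∈ Z := by
    intro a b G
    by_cases h : a ≠ i ∧ b ≠ i ∧ Irreducible (rename (jj a b) G)
    · obtain ⟨Z, hZ⟩ := fin_dvd hroot i hQ h.2.2
        (no_dvd hQ hirr hei h.2.2.not_isUnit (sp_rename h.1 h.2.1 0 G))
      exact ⟨Z, fun _ _ _ => hZ⟩
    · exact ⟨∅, fun h1 h2 h3 => absurd ⟨h1, h2, h3⟩ h⟩
  choose ZB hZB using hB
  choose ZA hZA using hA
  obtain ⟨z, ⟨P, l, hP, hl, hPz, hPl⟩, hz⟩ := hper.exists_notMem_finset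
    ((Finset.univ.biUnion ZB) ∪ Finset.univ.biUnion fun a => Finset.univ.biUnion fun b =>
      S.biUnion fun G => ZA a b G)
  rw [← hPz, Finset.mem_union, not_or, Finset.mem_biUnion, Finset.mem_biUnion] at hz
  have hz1 : ∀ a, a ≠ i → ∀ β : Fin 2 → Ω, β ≠ 0 → sp a β (sp i P Q) ≠ 0 := fun a ha β hβ h =>
    hz.1 ⟨a, Finset.mem_univ a, hZB a ha P β hP hβ h⟩
  have hz2 : ∀ a b, a ≠ i → b ≠ i → ∀ G ∈ S, Irreducible (rename (jj a b) G) →
      ¬ rename (jj a b) G ∣ sp i P Q := fun a b ha hb G hG hG' h =>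
    hz.2 ⟨a, Finset.mem_univ a, Finset.mem_biUnion.2 ⟨b, Finset.mem_univ b,
      Finset.mem_biUnion.2 ⟨G, hG, hZA a b G ha hb hG' P hP h⟩⟩⟩
  obtain ⟨c, hc1, _, hc3⟩ := hthird i
  have hβ0 : (![1, 0] : Fin 2 → Ω) ≠ 0 := fun h => one_ne_zero (congrFun h 0)
  have hR0 : sp i P Q ≠ 0 := fun h => hz1 c (fun h => hc1 h.symm) ![1, 0] hβ0
    (by rw [h, map_zero])
  have hRmh := mh_sp hQ i P
  have hRu : ¬ IsUnit (sp i P Q) := not_unit hRmh (i := c)
    (by rw [Function.update_of_ne (fun h => hc1 h.symm)]; exact hc3)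
  have hRd := sp_per hF hQ hd i hPl
  set Φ : MvPolynomial (Fin k × Fin 2) Ω →+* MvPolynomial (Fin k × Fin 2) Ω :=
    (bind₁ (FX F k)).toRingHom ^ (m * l) with hΦ
  have hΦ' : ∀ (j : ℕ) (x : MvPolynomial (Fin k × Fin 2) Ω),
      Φ^[j] x = (bind₁ (FX F k))^[m * l * j] x := by
    intro j x
    rw [hΦ, Function.iterate_mul, RingHom.coe_pow]
    rfl
  obtain ⟨g, hg, hgR, j, hj, hgj⟩ := exists_per Φ hR0 hRu (by
    have h1 := hΦ' 1 (sp i P Q)
    rw [Function.iterate_one, mul_one] at h1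
    rw [h1]
    exact hRd)
  rw [hΦ'] at hgj
  obtain ⟨e', he', hge'⟩ := mh_of_dvd hRmh hR0 hgR
  have hpos : 1 ≤ m * l * j := Nat.mul_pos (Nat.mul_pos hm hl) hj
  have hi0 : e' i = 0 := by
    have h1 := he' i
    rw [Function.update_self] at h1
    omega
  have hle : ∀ a, e' a ≤ e a := by
    intro a
    by_cases ha : a = i
    · rw [ha, hi0]
      exact Nat.zero_le _
    · have h1 := he' a
      rwa [Function.update_of_ne ha] at h1
  have hlt : (Finset.univ.filter fun i => 1 ≤ e' i).card < n := by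
    rw [← hcard]
    refine Finset.card_lt_card ⟨?_, fun h => ?_⟩
    · intro a ha
      rw [Finset.mem_filter] at *
      exact ⟨ha.1, ha.2.trans (hle a)⟩
    · have h1 := (Finset.mem_filter.1 (h hi)).2
      omega
  have h2 := ih _ hlt e' g hg hge' rfl _ hpos hgj
  obtain ⟨a, ha⟩ := not_all_zero hge' hg
  have hai : a ≠ i := by
    rintro rfl
    omega
  by_cases hb : ∃ b, b ≠ a ∧ 1 ≤ e' b
  · obtain ⟨b, hba, hb⟩ := hb
    have hbi : b ≠ i := by
      rintro rfl
      omega
    have h0 : ∀ x, x ≠ a → x ≠ b → e' x = 0 := by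
      intro x hxa hxb
      by_contra hx
      have h3 : ({a, b, x} : Finset (Fin k)) ⊆ Finset.univ.filter fun i => 1 ≤ e' i := by
        intro y hy
        rw [Finset.mem_filter]
        refine ⟨Finset.mem_univ _, ?_⟩
        rw [Finset.mem_insert, Finset.mem_insert, Finset.mem_singleton] at hy
        rcases hy with rfl | rfl | rfl
        · exact ha
        · exact hb
        · omega
      have h4 := Finset.card_le_card h3
      rw [Finset.card_eq_three.2 ⟨a, b, x, fun h => hba h.symm, fun h => hxa h.symm,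
        fun h => hxb h.symm, rfl⟩] at h4
      omega
    have hsum : ∀ x, e' x ≤ ∑ i, e i := fun x => (hle x).trans
      (Finset.single_le_sum (f := e) (fun _ _ => Nat.zero_le _) (Finset.mem_univ x))
    obtain ⟨G, hG, hper'⟩ := two_pair hge' hg hba ha hb h0 (hsum a) (hsum b) hpos hgj
    obtain ⟨G', hG', hass⟩ := hS G hper'
    have h5 : Associated (rename (jj a b) G) (rename (jj a b) G') :=
      hass.map (rename (R := Ω) (jj a b))
    rw [hG] at h5
    exact hz2 a b hai hbi G' hG' (h5.irreducible hg) (h5.symm.dvd.trans hgR)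
  · push Not at hb
    obtain ⟨β, hβ, hβ'⟩ := one_pair hge' ha fun x hx => by
      have := hb x hx
      omega
    refine hz1 a hai β hβ ?_
    obtain ⟨u, hu⟩ := hgR
    rw [hu, map_mul, hβ', zero_mul]

end Hypk

/-- Row HYPK -/
theorem hypk : HypkStatement := by
  intro Ω _ _ _ q F _ hF hper hcnt k e Q hirr hQ m hm hd
  exact Hypk.main GS.root GS.bez hF.hom hper hcnt _ e Q hirr hQ rfl m hm hd

end Pool.DynLehmer.LW
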