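import Pool.Agent.Lib.MP_2194ec_nt.LW.Defs2
import Pool.Agent.Lib.MP_2194ec_nt.LW.Pthk
import Pool.Agent.Lib.MP_2194ec_nt.GAL.R.Pre
import Pool.Agent.Lib.MP_2194ec_nt.GAL.R.Root

set_option autoImplicit false
set_option linter.unusedSectionVars false

/-!
# Row LIFT: degrees of tuples and orbits; degrees at different times
-/

namespace Pool.DynLehmer.LW
open MvPolynomial NumberField Filter Topology Pool.DynLehmer Pool.DynLehmer.SB Pool.DynLehmer.SP
  Pool.DynLehmer.GS Pool.DynLehmer.GAL Pool.DynLehmer.LP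
open scoped Classical

namespace LiftAux

open PthkAux

variable {K : Type} [Field K] [NumberField K] {N : Type} [Field N] [NumberField N] [Algebra K N]
  {q : ℕ} {F : Fin 2 → MvPolynomial (Fin 2) K}

theorem gal_ne {z : Fin 2 → N} (hz : z ≠ 0) (τ : N ≃ₐ[K] N) : gal τ z ≠ 0 := by
  intro h0
  apply hz
  funext i
  have := congrFun h0 i
  simpa [gal] using this

theorem smul_iter (hF : Mor q F) {z : Fin 2 → N} (hz : z ≠ 0) (n : ℕ) (τ : N ≃ₐ[K] N) :
    τ • nz ((gAct F N)^[n] z) = nz ((gAct F N)^[n] (gal τ z)) := by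
  rw [SP.CasebAux.gAct_iter_gal F τ n z]
  exact HomcAux.gal_nz τ (Bas.iter_ne hF hz n)

/-- the stabilizer of a point fixes its iterates -/
theorem stab_le (hF : Mor q F) {z : Fin 2 → N} (hz : z ≠ 0) (n : ℕ) :
    MulAction.stabilizer (N ≃ₐ[K] N) (nz z) ≤
      MulAction.stabilizer (N ≃ₐ[K] N) (nz ((gAct F N)^[n] z)) := by
  intro τ hτ
  rw [MulAction.mem_stabilizer_iff] at hτ ⊢
  rw [smul_iter hF hz]
  rw [HomcAux.gal_nz τ hz] at hτ
  obtain ⟨c, hc, h5⟩ := (nz_eq_iff (gal_ne hz τ) hz).1 hτ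
  exact (nz_eq_iff (Bas.iter_ne hF (gal_ne hz τ) n) (Bas.iter_ne hF hz n)).2
    (Bas.prl_iter hF.hom ⟨c, hc, h5⟩ n)

/-- the relative degree of a point over its iterate is at most the degree of the iterate -/
theorem relIndex_le (hq : 1 ≤ q) (hF : Mor q F) {z : Fin 2 → N} (hz : z ≠ 0) (n : ℕ) :
    (MulAction.stabilizer (N ≃ₐ[K] N) (nz z)).relIndex
      (MulAction.stabilizer (N ≃ₐ[K] N) (nz ((gAct F N)^[n] z))) ≤ q ^ n := by
  obtain ⟨Z, hZ, hZ'⟩ := pre root K N q F hq hF ((gAct F N)^[n] z) (Bas.iter_ne hF hz n) n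
  set B := MulAction.stabilizer (N ≃ₐ[K] N) (nz ((gAct F N)^[n] z)) with hB
  have h1 : (MulAction.stabilizer (N ≃ₐ[K] N) (nz z)).subgroupOf B =
      MulAction.stabilizer B (nz z) := rfl
  rw [Subgroup.relIndex, h1, MulAction.index_stabilizer]
  refine le_trans ?_ hZ
  rw [← Set.ncard_coe_finset]
  refine Set.ncard_le_ncard_of_injOn (fun P : Pt N => pr P.val) ?_ ?_ Z.finite_toSet
  · rintro _ ⟨g, rfl⟩
    have h2 : g.1 • nz z = nz (gal g.1 z) := HomcAux.gal_nz g.1 hz
    have h3 : pr (nz (gal g.1 z)).val = pr (gal g.1 z) := (Bas.pr_of_prl (nz_spec (gal_ne hz g.1))).symm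
    show pr (g.1 • nz z).val ∈ (Z : Set (Option N))
    rw [h2, h3]
    refine hZ' _ (gal_ne hz g.1) ?_
    have h4 : g.1 • nz ((gAct F N)^[n] z) = nz ((gAct F N)^[n] z) := g.2
    rw [smul_iter hF hz] at h4
    exact (nz_eq_iff (Bas.iter_ne hF (gal_ne hz g.1) n) (Bas.iter_ne hF hz n)).1 h4
  · intro P _ Q _ h
    have h2 := (nz_eq_iff P.ne_zero Q.ne_zero).2 (Bas.prl_of_pr P.ne_zero Q.ne_zero h)
    rwa [nz_val, nz_val] at h2

end LiftAux

open LiftAux PthkAux in
/-- **LIFT** -/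
theorem lift : LiftStatement := by
  refine ⟨?_, ?_⟩
  · intro K _ _ N _ _ _ _ k y _
    rw [dgk_eq, MulAction.index_stabilizer]
    rfl
  · intro K _ _ N _ _ _ _ q F hq hF k j y hy
    rw [dgk_eq, dgk_eq]
    set A := MulAction.stabilizer (N ≃ₐ[K] N) (fun i => nz (y i)) with hA
    set B := MulAction.stabilizer (N ≃ₐ[K] N) (fun i => nz ((gAct F N)^[j] (y i))) with hB
    have hAB : A ≤ B := by
      rw [hA, hB, stab_pi, stab_pi]
      exact iInf_mono fun i => stab_le hF (hy i) j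
    have h1 : A.relIndex B * B.index = A.index := Subgroup.relIndex_mul_index hAB
    have hne : ∀ H J : Subgroup (N ≃ₐ[K] N), H.relIndex J ≠ 0 := fun H J => by
      unfold Subgroup.relIndex
      exact Subgroup.index_ne_zero_of_finite
    refine ⟨?_, ?_⟩
    · rw [← h1]
      exact Nat.le_mul_of_pos_left _ (Nat.pos_of_ne_zero (hne A B))
    · rw [← h1]
      refine Nat.mul_le_mul_right _ ?_
      rw [hA, stab_pi]
      refine (relIndex_iInf_le _ _).trans ?_
      refine (Finset.prod_le_prod' (g := fun _ => q ^ j) fun i _ => ?_).trans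
        (by rw [Finset.prod_const, Finset.card_univ, Fintype.card_fin])
      refine le_trans (Subgroup.relIndex_le_of_le_right ?_ (hne _ _)) (relIndex_le hq hF (hy i) j)
      rw [hB, stab_pi]
      exact iInf_le _ i

end Pool.DynLehmer.LW
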