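import Pool.Agent.Lib.MP_2194ec_nt.LW.Geo

set_option autoImplicit false

/-!
# Row LOW: the lower bound for the Hilbert function

`low : BeztStatement → AvdStatement → LowStatement`.  Linear forms `Y` complete the Noether
normalization `T` (`exists_compl`); over an algebraic closure `Ω` of `K(T)` each prime `P a` has
`rk (P a) T` generic points (`points`), which are isolated zeros of the specialized space of forms
(`minimal`), so that they impose independent conditions on polynomials of degree `m * b` (`indep`,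
from AVD and BEZT); the products of monomials in `T` and chosen monomials in `Y` are then linearly
independent modulo the intersection of the `P a` (`count`).
-/

namespace Pool.DynLehmer.LW
open MvPolynomial
open scoped Classical nonZeroDivisors

namespace Low6

theorem exists_compl {K ι : Type} [Field K] [Fintype ι] (n : ℕ) (T : Fin n → MvPolynomial ι K)
    (hT : ∀ i, (T i).IsHomogeneous 1) (hlin : LinearIndependent K T) :
    ∃ (m : ℕ) (Y : Fin m → MvPolynomial ι K) (s : ι → Fin n → K) (t : ι → Fin m → K),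
      m ≤ Fintype.card ι ∧ (∀ k, (Y k).IsHomogeneous 1) ∧
      (∀ (B : Type) [CommRing B] [Algebra K B] (τ : Fin n → B) (p : Fin m → B),
        (∀ i, aeval (fun j => ∑ i, s j i • τ i + ∑ k, t j k • p k) (T i) = τ i) ∧
        (∀ k, aeval (fun j => ∑ i, s j i • τ i + ∑ k, t j k • p k) (Y k) = p k)) ∧
      (∀ j, (X j : MvPolynomial ι K) = ∑ i, s j i • T i + ∑ k, t j k • Y k) := by
  set V := homogeneousSubmodule ι K 1 with hV
  have hVs : V = Submodule.span K (Set.range (X : ι → MvPolynomial ι K)) :=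
    homogeneousSubmodule_one_eq_span_X
  have hXV : ∀ j, (X j : MvPolynomial ι K) ∈ V := fun j => by
    rw [hVs]; exact Submodule.subset_span ⟨j, rfl⟩
  have : Module.Finite K V := by
    rw [hVs]; exact Module.Finite.span_of_finite K (Set.finite_range _)
  have hfr : Module.finrank K V ≤ Fintype.card ι := by
    rw [hVs]; exact finrank_range_le_card _
  let T' : Fin n → V := fun i => ⟨T i, hT i⟩
  have hT' : LinearIndependent K T' := by
    apply LinearIndependent.of_comp V.subtype
    exact hlin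
  let b := Module.Basis.sumExtend hT'
  have hb : ∀ i, b (Sum.inl i) = T' i := fun i => by
    simp only [b, Module.Basis.sumExtend, Module.Basis.reindex_apply]
    rw [Module.Basis.extend_apply_self]
    rfl
  have : Finite (Fin n ⊕ (Module.Basis.sumExtendIndex hT')) := Module.Finite.finite_basis b
  have : Finite (Module.Basis.sumExtendIndex hT') := Finite.of_injective (Sum.inr : _ → Fin n ⊕ (Module.Basis.sumExtendIndex hT')) Sum.inr_injective
  have := Fintype.ofFinite (Module.Basis.sumExtendIndex hT')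
  let e := Fintype.equivFin (Module.Basis.sumExtendIndex hT')
  have hcard : n + Fintype.card (Module.Basis.sumExtendIndex hT') = Module.finrank K V := by
    rw [Module.finrank_eq_card_basis b, Fintype.card_sum, Fintype.card_fin]
  refine ⟨Fintype.card (Module.Basis.sumExtendIndex hT'), fun k => (b (Sum.inr (e.symm k)) : MvPolynomial ι K),
    fun j i => b.repr ⟨X j, hXV j⟩ (Sum.inl i), fun j k => b.repr ⟨X j, hXV j⟩ (Sum.inr (e.symm k)), ?_, ?_, ?_, ?_⟩
  · omega
  · intro k; exact (b (Sum.inr (e.symm k))).2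
  · intro B _ _ τ p
    let L : V →ₗ[K] B := b.constr K (Sum.elim τ (fun u => p (e u)))
    have hL : ∀ j, L ⟨X j, hXV j⟩ = ∑ i, b.repr ⟨X j, hXV j⟩ (Sum.inl i) • τ i
        + ∑ k, b.repr ⟨X j, hXV j⟩ (Sum.inr (e.symm k)) • p k := by
      intro j
      rw [Module.Basis.constr_apply_fintype, Fintype.sum_sum_type]
      congr 1
      rw [← e.symm.sum_comp]
      simp
    have key : ∀ v : V, aeval (fun j => ∑ i, b.repr ⟨X j, hXV j⟩ (Sum.inl i) • τ i
        + ∑ k, b.repr ⟨X j, hXV j⟩ (Sum.inr (e.symm k)) • p k) (v : MvPolynomial ι K) = L v := by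
      have h1 : ∀ (w : MvPolynomial ι K) (hw : w ∈ Submodule.span K (Set.range (X : ι → MvPolynomial ι K)))
          (hw' : w ∈ V), aeval (fun j => ∑ i, b.repr ⟨X j, hXV j⟩ (Sum.inl i) • τ i
        + ∑ k, b.repr ⟨X j, hXV j⟩ (Sum.inr (e.symm k)) • p k) w = L ⟨w, hw'⟩ := by
        intro w hw
        induction hw using Submodule.span_induction with
        | mem x hx =>
          obtain ⟨j, rfl⟩ := hx
          intro _
          rw [aeval_X, hL]
        | zero => intro h; rw [map_zero]; exact (map_zero L).symm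
        | add x y hx hy ihx ihy =>
          intro h
          have hx' : x ∈ V := by rw [hVs]; exact hx
          have hy' : y ∈ V := by rw [hVs]; exact hy
          rw [map_add, ihx hx', ihy hy', ← map_add]; rfl
        | smul a x hx ih =>
          intro h
          have hx' : x ∈ V := by rw [hVs]; exact hx
          rw [map_smul, ih hx', ← map_smul]; rfl
      intro v
      exact h1 v (by rw [← hVs]; exact v.2) v.2
    constructor
    · intro i
      have := key (b (Sum.inl i))
      rw [show L (b (Sum.inl i)) = τ i by simp [L], hb] at this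
      exact this
    · intro k
      have := key (b (Sum.inr (e.symm k)))
      rw [show L (b (Sum.inr (e.symm k))) = p k by simp [L]] at this
      exact this
  · intro j
    have := b.sum_repr ⟨X j, hXV j⟩
    rw [Fintype.sum_sum_type] at this
    have h2 := congrArg (Subtype.val) this
    refine h2.symm.trans ?_
    simp only [Submodule.coe_add, AddSubmonoidClass.coe_finsetSum, SetLike.val_smul]
    congr 1
    · refine Finset.sum_congr rfl fun i _ => ?_
      rw [hb]
    · rw [← e.symm.sum_comp]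

theorem homs (R S : Type) [CommRing R] [IsDomain R] [CharZero R] [CommRing S] [IsDomain S]
    [Algebra R S] [FaithfulSMul R S] [Module.Finite R S] (Ω : Type) [Field Ω] [Algebra R Ω]
    [FaithfulSMul R Ω] [IsAlgClosed Ω] :
    ∃ Φ : Finset (S →ₐ[R] Ω), Φ.card = Module.finrank R S ∧ ∀ φ ∈ Φ, Function.Injective φ := by
  let _ : Algebra (FractionRing R) (FractionRing S) := FractionRing.liftAlgebra R _
  have i1 := FractionRing.isScalarTower_liftAlgebra R (FractionRing S)
  let _ : Algebra (FractionRing R) Ω := FractionRing.liftAlgebra R _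
  have i2 := FractionRing.isScalarTower_liftAlgebra R Ω
  have i3 : CharZero (FractionRing R) :=
    charZero_of_injective_algebraMap (IsFractionRing.injective R (FractionRing R))
  have i4 : Algebra.IsAlgebraic R S := inferInstance
  have i5 : Module.Finite (FractionRing R) (FractionRing S) :=
    Module.Finite.of_isLocalization R S R⁰
  have i6 : Algebra.IsSeparable (FractionRing R) (FractionRing S) := inferInstance
  have h1 := AlgHom.card (FractionRing R) (FractionRing S) Ω
  have h2 := IsFractionRing.finrank_eq R (FractionRing R) S (FractionRing S)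
  refine ⟨Finset.univ.image (fun φ : FractionRing S →ₐ[FractionRing R] Ω =>
    (φ.restrictScalars R).comp (IsScalarTower.toAlgHom R S (FractionRing S))), ?_, ?_⟩
  · rw [Finset.card_image_of_injective, Finset.card_univ, h1, h2]
    intro φ ψ h
    apply AlgHom.coe_ringHom_injective
    apply IsLocalization.ringHom_ext S⁰
    ext s
    exact DFunLike.congr_fun h s
  · intro φ hφ
    obtain ⟨ψ, _, rfl⟩ := Finset.mem_image.1 hφ
    intro a b hab
    exact IsFractionRing.injective S (FractionRing S) (ψ.toRingHom.injective hab)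

theorem points {K ι : Type} [Field K] [CharZero K] [Fintype ι] (P : Ideal (MvPolynomial ι K))
    (hP : P.IsPrime) {d : ℕ} (T : Fin (d + 1) → MvPolynomial ι K) (h : NN P d T) (Ω : Type)
    [Field Ω] [Algebra (MvPolynomial (Fin (d + 1)) K) Ω]
    [FaithfulSMul (MvPolynomial (Fin (d + 1)) K) Ω] [IsAlgClosed Ω] [Algebra K Ω]
    [IsScalarTower K (MvPolynomial (Fin (d + 1)) K) Ω] :
    ∃ Z : Finset (ι → Ω), Z.card = rk P T ∧ ∀ x ∈ Z,
      (∀ i, aeval x (T i) = algebraMap (MvPolynomial (Fin (d + 1)) K) Ω (X i)) ∧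
      ∀ f, aeval x f = 0 ↔ f ∈ P := by
  have j1 : IsDomain (MvPolynomial ι K ⧸ P) := inferInstance
  let T' : Fin (d + 1) → MvPolynomial ι K ⧸ P := fun i => Ideal.Quotient.mk P (T i)
  let φ0 : MvPolynomial (Fin (d + 1)) K →ₐ[K] MvPolynomial ι K ⧸ P := aeval T'
  let _ : Algebra (MvPolynomial (Fin (d + 1)) K) (MvPolynomial ι K ⧸ P) := φ0.toRingHom.toAlgebra
  have hmap : ∀ r, algebraMap (MvPolynomial (Fin (d + 1)) K) (MvPolynomial ι K ⧸ P) r = φ0 r :=
    fun _ => rfl
  have j2 : IsScalarTower K (MvPolynomial (Fin (d + 1)) K) (MvPolynomial ι K ⧸ P) :=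
    IsScalarTower.of_algebraMap_eq fun r => (φ0.commutes r).symm
  have j3 : FaithfulSMul (MvPolynomial (Fin (d + 1)) K) (MvPolynomial ι K ⧸ P) :=
    (faithfulSMul_iff_algebraMap_injective _ _).2 h.alg
  let e : MvPolynomial (Fin (d + 1)) K ≃ₐ[K] Algebra.adjoin K (Set.range T') := h.alg.aevalEquiv
  have he : ∀ r, ((e r : Algebra.adjoin K (Set.range T')) : MvPolynomial ι K ⧸ P) = φ0 r :=
    fun r => h.alg.algebraMap_aevalEquiv r
  have j4 : Algebra.IsIntegral (MvPolynomial (Fin (d + 1)) K) (MvPolynomial ι K ⧸ P) := by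
    refine ⟨fun x => ?_⟩
    have hx := h.int x
    refine IsIntegral.map_of_comp_eq (e.symm : Algebra.adjoin K (Set.range T') →+* _)
      (RingHom.id (MvPolynomial ι K ⧸ P)) ?_ hx
    ext u
    obtain ⟨r, rfl⟩ := e.surjective u
    change φ0 (e.symm (e r)) = (e r : MvPolynomial ι K ⧸ P)
    rw [AlgEquiv.symm_apply_apply, he]
  have j5 : Algebra.FiniteType (MvPolynomial (Fin (d + 1)) K) (MvPolynomial ι K ⧸ P) :=
    Algebra.FiniteType.of_restrictScalars_finiteType K _ _
  have j6 : Module.Finite (MvPolynomial (Fin (d + 1)) K) (MvPolynomial ι K ⧸ P) :=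
    Algebra.IsIntegral.finite
  have hrk : Module.finrank (MvPolynomial (Fin (d + 1)) K) (MvPolynomial ι K ⧸ P) = rk P T := by
    refine Algebra.finrank_eq_of_equiv_equiv (e : _ ≃+* _) (RingEquiv.refl _) ?_
    ext r
    · exact (he _)
    · exact (he _)
  obtain ⟨Φ, hΦc, hΦ⟩ := homs (MvPolynomial (Fin (d + 1)) K) (MvPolynomial ι K ⧸ P) Ω
  have hval : ∀ (φ : (MvPolynomial ι K ⧸ P) →ₐ[MvPolynomial (Fin (d + 1)) K] Ω)
      (f : MvPolynomial ι K), aeval (fun j => φ (Ideal.Quotient.mk P (X j))) f =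
        φ (Ideal.Quotient.mk P f) := by
    intro φ f
    have : aeval (fun j => φ (Ideal.Quotient.mk P (X j))) =
        (φ.restrictScalars K).comp (Ideal.Quotient.mkₐ K P) := by
      ext j; simp
    rw [this]; rfl
  refine ⟨Φ.image fun φ j => φ (Ideal.Quotient.mk P (X j)), ?_, ?_⟩
  · rw [Finset.card_image_of_injective, hΦc, hrk]
    intro φ ψ hφψ
    ext x
    obtain ⟨f, rfl⟩ := Ideal.Quotient.mk_surjective x
    rw [← hval, ← hval]
    have := congrArg (fun z => aeval z f) hφψ
    exact this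
  · intro x hx
    obtain ⟨φ, hφ, rfl⟩ := Finset.mem_image.1 hx
    refine ⟨fun i => ?_, fun f => ?_⟩
    · rw [hval, ← φ.commutes]
      congr 1
      rw [hmap]
      exact (aeval_X T' i).symm
    · rw [hval, ← Ideal.Quotient.eq_zero_iff_mem]
      constructor
      · intro h0
        exact hΦ φ hφ (h0.trans (map_zero φ).symm)
      · intro h0
        rw [h0, map_zero]

section geo

variable {K ι : Type} [Field K] [Fintype ι]

theorem totalDegree_aeval_le {Ω : Type} [Field Ω] [Algebra K Ω] {m : ℕ}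
    (L : ι → MvPolynomial (Fin m) Ω) (hL : ∀ j, (L j).totalDegree ≤ 1) (f : MvPolynomial ι K)
    (b : ℕ) (hf : f.IsHomogeneous b) : (aeval L f).totalDegree ≤ b := by
  rw [aeval_def, eval₂_eq']
  refine (totalDegree_finsetSum _ _).trans (Finset.sup_le fun α hα => ?_)
  refine (totalDegree_mul _ _).trans ?_
  have h1 : (algebraMap K (MvPolynomial (Fin m) Ω) (coeff α f)).totalDegree = 0 := by
    rw [IsScalarTower.algebraMap_apply K Ω (MvPolynomial (Fin m) Ω), algebraMap_eq]
    exact totalDegree_C _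
  rw [h1, zero_add]
  refine (totalDegree_finsetProd _ _).trans ?_
  have h2 : ∀ j ∈ (Finset.univ : Finset ι), (L j ^ α j).totalDegree ≤ α j := fun j _ =>
    (totalDegree_pow _ _).trans (by
      calc α j * (L j).totalDegree ≤ α j * 1 := Nat.mul_le_mul_left _ (hL j)
        _ = α j := mul_one _)
  refine (Finset.sum_le_sum h2).trans ?_
  have h3 := hf (mem_support_iff.1 hα)
  have h4 : ∑ j, α j = α.degree := (Finsupp.degree_eq_sum α).symm
  rw [h4, ← h3, Finsupp.degree_eq_weight_one]
  exact le_of_eq rfl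

end geo

theorem maximal_of_le {K ι : Type} [Field K] [Fintype ι] {d m : ℕ} {Ω : Type} [Field Ω]
    [Algebra (MvPolynomial (Fin (d + 1)) K) Ω] [Algebra K Ω]
    [IsScalarTower K (MvPolynomial (Fin (d + 1)) K) Ω]
    (T : Fin (d + 1) → MvPolynomial ι K) (Y : Fin m → MvPolynomial ι K)
    (σ : MvPolynomial ι K →ₐ[K] MvPolynomial (Fin m) Ω)
    (hσT : ∀ i, σ (T i) = C (algebraMap (MvPolynomial (Fin (d + 1)) K) Ω (X i)))
    (hσY : ∀ k, σ (Y k) = X k) (P : Ideal (MvPolynomial ι K)) (hNN : NN P d T)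
    (q : Ideal (MvPolynomial (Fin m) Ω)) (hq : q.IsPrime)
    (hle : P ≤ q.comap σ.toRingHom) : q.IsMaximal := by
  let T' : Fin (d + 1) → MvPolynomial ι K ⧸ P := fun i => Ideal.Quotient.mk P (T i)
  let e : MvPolynomial (Fin (d + 1)) K ≃ₐ[K] Algebra.adjoin K (Set.range T') :=
    hNN.alg.aevalEquiv
  have he : ∀ r, ((e r : Algebra.adjoin K (Set.range T')) : MvPolynomial ι K ⧸ P) =
    aeval T' r := fun r => hNN.alg.algebraMap_aevalEquiv r
  let ψ : (MvPolynomial ι K ⧸ P) →+* (MvPolynomial (Fin m) Ω ⧸ q) :=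
    Ideal.quotientMap q σ.toRingHom hle
  have hψ : ∀ f, ψ (Ideal.Quotient.mk P f) = Ideal.Quotient.mk q (σ f) := fun f =>
    Ideal.quotientMap_mk
  have hint : ∀ y : MvPolynomial ι K ⧸ P, IsIntegral Ω (ψ y) := by
    intro y
    refine IsIntegral.map_of_comp_eq
      ((algebraMap (MvPolynomial (Fin (d + 1)) K) Ω).comp
        (e.symm : Algebra.adjoin K (Set.range T') →+* MvPolynomial (Fin (d + 1)) K)) ψ ?_
      (hNN.int y)
    refine RingHom.ext fun u => ?_
    obtain ⟨r, rfl⟩ := e.surjective u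
    change algebraMap Ω (MvPolynomial (Fin m) Ω ⧸ q)
      (algebraMap (MvPolynomial (Fin (d + 1)) K) Ω (e.symm (e r))) =
      ψ (e r : MvPolynomial ι K ⧸ P)
    rw [AlgEquiv.symm_apply_apply, he]
    have : (algebraMap Ω (MvPolynomial (Fin m) Ω ⧸ q)).comp
        (algebraMap (MvPolynomial (Fin (d + 1)) K) Ω) =
        ψ.comp (aeval T' : MvPolynomial (Fin (d + 1)) K →ₐ[K] _).toRingHom := by
      refine MvPolynomial.ringHom_ext (fun c => ?_) (fun i => ?_)
      · change algebraMap Ω (MvPolynomial (Fin m) Ω ⧸ q)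
          (algebraMap (MvPolynomial (Fin (d + 1)) K) Ω (algebraMap K _ c)) =
          ψ (aeval T' (algebraMap K _ c))
        rw [← IsScalarTower.algebraMap_apply K (MvPolynomial (Fin (d + 1)) K) Ω,
          AlgHom.commutes]
        change _ = ψ (Ideal.Quotient.mk P (algebraMap K _ c))
        rw [hψ, AlgHom.commutes]
        rw [IsScalarTower.algebraMap_apply K Ω (MvPolynomial (Fin m) Ω)]
        rfl
      · change algebraMap Ω (MvPolynomial (Fin m) Ω ⧸ q)
          (algebraMap (MvPolynomial (Fin (d + 1)) K) Ω (X i)) = ψ (aeval T' (X i))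
        rw [aeval_X]
        change _ = ψ (Ideal.Quotient.mk P (T i))
        rw [hψ, hσT]
        rfl
    exact DFunLike.congr_fun this r
  have hall : ∀ f : MvPolynomial (Fin m) Ω, IsIntegral Ω (Ideal.Quotient.mk q f) := by
    intro f
    induction f using MvPolynomial.induction_on with
    | C a => exact isIntegral_algebraMap (R := Ω) (A := MvPolynomial (Fin m) Ω ⧸ q) (x := a)
    | add f g hf hg => rw [map_add]; exact hf.add hg
    | mul_X f k hf =>
      rw [map_mul]
      refine hf.mul ?_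
      rw [← hσY k, ← hψ]
      exact hint _
  have hI : Algebra.IsIntegral Ω (MvPolynomial (Fin m) Ω ⧸ q) :=
    ⟨fun x => by obtain ⟨f, rfl⟩ := Ideal.Quotient.mk_surjective x; exact hall f⟩
  exact Ideal.Quotient.maximal_of_isField q
    (isField_of_isIntegral_of_isField' (R := Ω) (Field.toIsField Ω))

theorem minimal {K ι : Type} [Field K] [Fintype ι] {d m : ℕ} {Ω : Type} [Field Ω]
    [Algebra (MvPolynomial (Fin (d + 1)) K) Ω] [Algebra K Ω]
    [IsScalarTower K (MvPolynomial (Fin (d + 1)) K) Ω]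
    (T : Fin (d + 1) → MvPolynomial ι K) (Y : Fin m → MvPolynomial ι K)
    (σ : MvPolynomial ι K →ₐ[K] MvPolynomial (Fin m) Ω)
    (hσT : ∀ i, σ (T i) = C (algebraMap (MvPolynomial (Fin (d + 1)) K) Ω (X i)))
    (hσY : ∀ k, σ (Y k) = X k) (I : Ideal (MvPolynomial ι K))
    (P : Ideal (MvPolynomial ι K)) (hP : P ∈ I.minimalPrimes) (hNN : NN P d T)
    (p : Fin m → Ω) (hp : ∀ f, eval p (σ f) = 0 ↔ f ∈ P) :
    RingHom.ker (eval p) ∈ (I.map σ.toRingHom).minimalPrimes := by
  refine ⟨⟨RingHom.ker_isPrime _, ?_⟩, ?_⟩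
  · rw [Ideal.map_le_iff_le_comap]
    intro f hf
    exact (hp f).2 (hP.1.2 hf)
  · rintro q ⟨hq, hIq⟩ hle
    rw [Ideal.map_le_iff_le_comap] at hIq
    have h1 : q.comap σ.toRingHom ≤ P := fun f hf => (hp f).1 (hle hf)
    have h2 : P ≤ q.comap σ.toRingHom := hP.2 ⟨Ideal.comap_isPrime _ _, hIq⟩ h1
    have h3 := maximal_of_le T Y σ hσT hσY P hNN q hq h2
    exact (h3.eq_of_le (RingHom.ker_ne_top _) hle).ge

theorem indep (bezt : BeztStatement) (avd : AvdStatement) {K ι : Type} [Field K] [CharZero K]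
    [Fintype ι] (b : ℕ) (Q : Submodule K (MvPolynomial ι K)) (hQ : Q ≤ homogeneousSubmodule ι K b)
    (d r : ℕ) (P : Fin r → Ideal (MvPolynomial ι K)) (hinj : Function.Injective P)
    (hmin : ∀ a, P a ∈ (Ideal.span (Q : Set (MvPolynomial ι K))).minimalPrimes)
    (T : Fin (d + 1) → MvPolynomial ι K) (hNN : ∀ a, NN (P a) d T)
    {m : ℕ} (Y : Fin m → MvPolynomial ι K) (s : ι → Fin (d + 1) → K) (t : ι → Fin m → K)
    (hB : ∀ (B : Type) [CommRing B] [Algebra K B] (τ : Fin (d + 1) → B) (p : Fin m → B),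
        (∀ i, aeval (fun j => ∑ i, s j i • τ i + ∑ k, t j k • p k) (T i) = τ i) ∧
        (∀ k, aeval (fun j => ∑ i, s j i • τ i + ∑ k, t j k • p k) (Y k) = p k))
    (hX : ∀ j, (X j : MvPolynomial ι K) = ∑ i, s j i • T i + ∑ k, t j k • Y k)
    (Ω : Type) [Field Ω] [Algebra (MvPolynomial (Fin (d + 1)) K) Ω]
    [FaithfulSMul (MvPolynomial (Fin (d + 1)) K) Ω] [IsAlgClosed Ω] [Algebra K Ω]
    [IsScalarTower K (MvPolynomial (Fin (d + 1)) K) Ω] :
    ∃ (σ : MvPolynomial ι K →ₐ[K] MvPolynomial (Fin m) Ω) (Z : Finset (Fin m → Ω)),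
      (∀ i, σ (T i) = C (algebraMap (MvPolynomial (Fin (d + 1)) K) Ω (X i))) ∧
      (∀ k, σ (Y k) = X k) ∧ Z.card = ∑ a, rk (P a) T ∧
      (∀ p ∈ Z, ∀ f ∈ ⨅ a, P a, eval p (σ f) = 0) ∧
      (∀ lam : (Fin m → Ω) → Ω,
        (∀ ψ : MvPolynomial (Fin m) Ω, ψ.totalDegree ≤ m * b → ∑ p ∈ Z, lam p * eval p ψ = 0) →
        ∀ p ∈ Z, lam p = 0) := by
  let τ : Fin (d + 1) → Ω := fun i => algebraMap (MvPolynomial (Fin (d + 1)) K) Ω (X i)
  let σ : MvPolynomial ι K →ₐ[K] MvPolynomial (Fin m) Ω :=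
    aeval (fun j => ∑ i, s j i • (C (τ i) : MvPolynomial (Fin m) Ω) + ∑ k, t j k • X k)
  have hσT : ∀ i, σ (T i) = C (τ i) := (hB (MvPolynomial (Fin m) Ω) (fun i => C (τ i)) X).1
  have hσY : ∀ k, σ (Y k) = X k := (hB (MvPolynomial (Fin m) Ω) (fun i => C (τ i)) X).2
  have hev : ∀ (p : Fin m → Ω) (f : MvPolynomial ι K),
      eval p (σ f) = aeval (fun j => ∑ i, s j i • τ i + ∑ k, t j k • p k) f := by
    intro p f
    have h1 : (((aeval p : MvPolynomial (Fin m) Ω →ₐ[Ω] Ω).restrictScalars K).comp σ) =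
        aeval (fun j => ∑ i, s j i • τ i + ∑ k, t j k • p k) := by
      ext j
      simp only [σ, AlgHom.comp_apply, aeval_X, map_add, map_sum, AlgHom.restrictScalars_apply,
        Algebra.smul_def, map_mul]
      congr 1
      · refine Finset.sum_congr rfl fun i _ => ?_
        rw [IsScalarTower.algebraMap_apply K Ω (MvPolynomial (Fin m) Ω), algebraMap_eq]
        simp
      · refine Finset.sum_congr rfl fun i _ => ?_
        rw [IsScalarTower.algebraMap_apply K Ω (MvPolynomial (Fin m) Ω), algebraMap_eq]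
        simp
    have h2 := DFunLike.congr_fun h1 f
    rw [← h2]
    rw [AlgHom.comp_apply, AlgHom.restrictScalars_apply]
    exact (DFunLike.congr_fun (coe_aeval_eq_eval p) (σ f)).symm
  choose Za hZc hZ using fun a => points (P a) (hmin a).1.1 T (hNN a) Ω
  have hrec : ∀ a, ∀ x ∈ Za a,
      x = fun j => ∑ i, s j i • τ i + ∑ k, t j k • aeval x (Y k) := by
    intro a x hx
    funext j
    have h1 : aeval x (X j : MvPolynomial ι K) = x j := aeval_X x j
    rw [← h1, hX j, map_add, map_sum, map_sum]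
    congr 1
    · refine Finset.sum_congr rfl fun i _ => ?_
      rw [map_smul, (hZ a x hx).1 i]
    · refine Finset.sum_congr rfl fun i _ => ?_
      rw [map_smul]
  have hpt : ∀ a, ∀ x ∈ Za a, ∀ f, eval (fun k => aeval x (Y k)) (σ f) = 0 ↔ f ∈ P a := by
    intro a x hx f
    rw [hev, ← hrec a x hx]
    exact (hZ a x hx).2 f
  let Z : Finset (Fin m → Ω) :=
    (Finset.univ : Finset (Fin r)).biUnion fun a => (Za a).image fun x k => aeval x (Y k)
  have hZm : ∀ p ∈ Z, ∃ a, ∀ f, eval p (σ f) = 0 ↔ f ∈ P a := by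
    intro p hp
    obtain ⟨a, _, hpa⟩ := Finset.mem_biUnion.1 hp
    obtain ⟨x, hx, rfl⟩ := Finset.mem_image.1 hpa
    exact ⟨a, hpt a x hx⟩
  have hcard : Z.card = ∑ a, rk (P a) T := by
    rw [Finset.card_biUnion]
    · refine Finset.sum_congr rfl fun a _ => ?_
      rw [Finset.card_image_of_injOn, hZc]
      intro x hx y hy hxy
      rw [hrec a x hx, hrec a y hy]
      have hxy' : ∀ k, aeval x (Y k) = aeval y (Y k) := fun k => congrFun hxy k
      funext j
      simp only [hxy']
    · intro a _ a' _ hne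
      rw [Function.onFun, Finset.disjoint_left]
      intro p hp hp'
      obtain ⟨x, hx, rfl⟩ := Finset.mem_image.1 hp
      obtain ⟨y, hy, hxy⟩ := Finset.mem_image.1 hp'
      apply hne
      apply hinj
      ext f
      rw [← hpt a x hx f, ← hpt a' y hy f]
      have hxy' : (fun k => aeval y (Y k)) = fun k => aeval x (Y k) := hxy
      rw [hxy']
  have hspan : Ideal.span ((Q.map σ.toLinearMap : Submodule K (MvPolynomial (Fin m) Ω)) :
      Set (MvPolynomial (Fin m) Ω)) = (Ideal.span (Q : Set (MvPolynomial ι K))).map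
        σ.toRingHom := by
    rw [Ideal.map_span]
    rfl
  have hZmin : ∀ p ∈ Z, RingHom.ker (eval p) ∈ (Ideal.span
      ((Q.map σ.toLinearMap : Submodule K (MvPolynomial (Fin m) Ω)) :
      Set (MvPolynomial (Fin m) Ω))).minimalPrimes := by
    intro p hp
    obtain ⟨a, ha⟩ := hZm p hp
    rw [hspan]
    exact minimal T Y σ hσT hσY _ (P a) (hmin a) (hNN a) p ha
  obtain ⟨g, hgQ, hg⟩ := avd K Ω m (Q.map σ.toLinearMap) Z hZmin
  have hLdeg : ∀ j, (∑ i, s j i • (C (τ i) : MvPolynomial (Fin m) Ω) +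
      ∑ k, t j k • X k).totalDegree ≤ 1 := by
    intro j
    refine (totalDegree_add _ _).trans (max_le ?_ ?_)
    · refine (totalDegree_finsetSum _ _).trans (Finset.sup_le fun i _ => ?_)
      refine (totalDegree_smul_le _ _).trans ?_
      rw [totalDegree_C]
      exact zero_le_one
    · refine (totalDegree_finsetSum _ _).trans (Finset.sup_le fun i _ => ?_)
      refine (totalDegree_smul_le _ _).trans ?_
      rw [totalDegree_X]
  have hgdeg : ∀ i, (g i).totalDegree ≤ b := by
    intro i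
    obtain ⟨f, hf, hfg⟩ := hgQ i
    rw [← hfg]
    exact totalDegree_aeval_le _ hLdeg f b (hQ hf)
  refine ⟨σ, Z, hσT, hσY, hcard, ?_, bezt Ω m b g hgdeg Z hg⟩
  intro p hp f hf
  obtain ⟨a, ha⟩ := hZm p hp
  exact (ha f).2 ((Ideal.mem_iInf.1 hf) a)

section count

variable {Ω : Type} [Field Ω] {m : ℕ}

/-- the values of the monomial `Y^μ` at the points of `Z` -/
noncomputable def vec (n : ℕ) (Z : Finset (Fin m → Ω)) (μ : {μ : Fin m →₀ ℕ // μ.degree ≤ n}) :
    {p // p ∈ Z} → Ω := fun p => eval p.1 (monomial μ.1 1)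

theorem vec_span (n : ℕ) (Z : Finset (Fin m → Ω))
    (hind : ∀ lam : (Fin m → Ω) → Ω,
        (∀ ψ : MvPolynomial (Fin m) Ω, ψ.totalDegree ≤ n → ∑ p ∈ Z, lam p * eval p ψ = 0) →
        ∀ p ∈ Z, lam p = 0) : Submodule.span Ω (Set.range (vec n Z)) = ⊤ := by
  by_contra hne
  obtain ⟨f, hf0, hf⟩ := Submodule.exists_le_ker_of_lt_top _ (lt_top_iff_ne_top.2 hne)
  apply hf0
  let lam : (Fin m → Ω) → Ω := fun p =>
    if h : p ∈ Z then f (fun j => if (⟨p, h⟩ : {p // p ∈ Z}) = j then 1 else 0) else 0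
  have hlam : ∀ p : {p // p ∈ Z}, lam p.1 = f (fun j => if p = j then 1 else 0) := by
    intro p
    simp only [lam, p.2, dif_pos]
  have hfx : ∀ x : {p // p ∈ Z} → Ω, f x = ∑ p : {p // p ∈ Z}, lam p.1 * x p := by
    intro x
    rw [LinearMap.pi_apply_eq_sum_univ f x]
    refine Finset.sum_congr rfl fun p _ => ?_
    rw [hlam, smul_eq_mul, mul_comm]
  have h0 := hind lam (by
    intro ψ hψ
    rw [← Finset.sum_coe_sort Z (fun p => lam p * eval p ψ)]
    rw [← hfx (fun p => eval p.1 ψ)]
    have hmem : (fun p : {p // p ∈ Z} => eval p.1 ψ) ∈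
        Submodule.span Ω (Set.range (vec n Z)) := by
      have h1 : (fun p : {p // p ∈ Z} => eval p.1 ψ) = ∑ μ ∈ ψ.support,
          coeff μ ψ • (fun p : {p // p ∈ Z} => eval p.1 (monomial μ 1)) := by
        funext p
        rw [Finset.sum_apply]
        conv_lhs => rw [ψ.as_sum, map_sum]
        refine Finset.sum_congr rfl fun μ _ => ?_
        rw [Pi.smul_apply, eval_monomial, eval_monomial, one_mul, smul_eq_mul]
      rw [h1]
      refine Submodule.sum_mem _ fun μ hμ => Submodule.smul_mem _ _ (Submodule.subset_span ?_)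
      have hd : μ.degree ≤ n := by
        refine le_trans ?_ hψ
        rw [Finsupp.degree_eq_sum] 
        have := le_totalDegree hμ
        rwa [Finsupp.sum_fintype _ _ (fun _ => rfl)] at this
      exact ⟨⟨μ, hd⟩, rfl⟩
    exact hf hmem)
  refine LinearMap.ext fun x => ?_
  rw [hfx, LinearMap.zero_apply]
  refine Finset.sum_eq_zero fun p _ => ?_
  rw [h0 p.1 p.2, zero_mul]

end count

theorem count {K ι : Type} [Field K] [Fintype ι] {d m n : ℕ}
    (Ω : Type) [Field Ω] [Algebra (MvPolynomial (Fin (d + 1)) K) Ω]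
    [FaithfulSMul (MvPolynomial (Fin (d + 1)) K) Ω] [Algebra K Ω]
    [IsScalarTower K (MvPolynomial (Fin (d + 1)) K) Ω]
    (T : Fin (d + 1) → MvPolynomial ι K) (hT : ∀ i, (T i).IsHomogeneous 1)
    (Y : Fin m → MvPolynomial ι K) (hY : ∀ k, (Y k).IsHomogeneous 1)
    (σ : MvPolynomial ι K →ₐ[K] MvPolynomial (Fin m) Ω) (Z : Finset (Fin m → Ω))
    (hσT : ∀ i, σ (T i) = C (algebraMap (MvPolynomial (Fin (d + 1)) K) Ω (X i)))
    (hσY : ∀ k, σ (Y k) = X k) (I : Ideal (MvPolynomial ι K))
    (hI : ∀ p ∈ Z, ∀ f ∈ I, eval p (σ f) = 0)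
    (hind : ∀ lam : (Fin m → Ω) → Ω,
        (∀ ψ : MvPolynomial (Fin m) Ω, ψ.totalDegree ≤ n → ∑ p ∈ Z, lam p * eval p ψ = 0) →
        ∀ p ∈ Z, lam p = 0) (b' : ℕ) (hb' : n ≤ b') :
    Z.card * (b' - n + d).choose d ≤ hf I b' := by
  obtain ⟨κ, a, ha, hsp, hli⟩ := exists_linearIndependent' Ω (vec n Z)
  rw [vec_span n Z hind] at hsp
  let bs : Module.Basis κ Ω ({p // p ∈ Z} → Ω) := Module.Basis.mk hli hsp.ge
  have hfin : Finite κ := Module.Finite.finite_basis bs
  have hft := Fintype.ofFinite κ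
  have hcard : Fintype.card κ = Z.card := by
    rw [← Module.finrank_eq_card_basis bs, Module.finrank_fintype_fun_eq_card, Fintype.card_coe]
  let mon : (Fin (d + 1) →₀ ℕ) → Ω := fun α =>
    algebraMap (MvPolynomial (Fin (d + 1)) K) Ω (monomial α 1)
  have hmon : LinearIndependent K mon := by
    have h1 := (basisMonomials (Fin (d + 1)) K).linearIndependent
    have h2 := h1.map' (IsScalarTower.toAlgHom K (MvPolynomial (Fin (d + 1)) K) Ω).toLinearMap
      (LinearMap.ker_eq_bot.2 (FaithfulSMul.algebraMap_injective _ _))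
    have h3 : mon = ⇑(IsScalarTower.toAlgHom K (MvPolynomial (Fin (d + 1)) K) Ω).toLinearMap ∘
        ⇑(basisMonomials (Fin (d + 1)) K) := by
      funext α
      simp [mon]
    rw [h3]
    exact h2
  have hG : LinearIndependent K
      (fun q : (Fin (d + 1) →₀ ℕ) × κ => mon q.1 • (vec n Z ∘ a) q.2) :=
    linearIndependent_smul hmon hli
  let J := Σ k : κ, {α : Fin (d + 1) →₀ ℕ //
    α ∈ Finset.finsuppAntidiag Finset.univ (b' - (a k).1.degree)}
  let F : J → MvPolynomial ι K := fun j =>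
    (∏ i, T i ^ j.2.1 i) * ∏ k, Y k ^ (a j.1).1 k
  have hF : ∀ j, F j ∈ homogeneousSubmodule ι K b' := by
    rintro ⟨k, α, hα⟩
    have h1 : (∏ i, T i ^ α i).IsHomogeneous (∑ i, α i) :=
      IsHomogeneous.prod _ _ _ fun i _ => by simpa using (hT i).pow (α i)
    have h2 : (∏ l, Y l ^ (a k).1 l).IsHomogeneous (∑ l, (a k).1 l) :=
      IsHomogeneous.prod _ _ _ fun i _ => by simpa using (hY i).pow ((a k).1 i)
    have h3 := h1.mul h2
    have h4 : ∑ i, α i + ∑ l, (a k).1 l = b' := by
      have h5 := (Finset.mem_finsuppAntidiag.1 hα).1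
      have h6 : (a k).1.degree ≤ n := (a k).2
      rw [Finsupp.degree_eq_sum] at h5 h6
      have h7 : ∑ i, α i = Finset.univ.sum α := rfl
      omega
    rw [h4] at h3
    exact h3
  let ev : {p // p ∈ Z} → ((MvPolynomial ι K) ⧸ I) →ₐ[K] Ω := fun p =>
    Ideal.Quotient.liftₐ I (((aeval p.1 : MvPolynomial (Fin m) Ω →ₐ[Ω] Ω).restrictScalars K).comp σ)
      (fun f hf' => by
        have := hI p.1 p.2 f hf'
        rw [← coe_aeval_eq_eval] at this
        exact this)
  let Ψ : ((MvPolynomial ι K) ⧸ I) →ₗ[K] ({p // p ∈ Z} → Ω) :=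
    LinearMap.pi fun p => (ev p).toLinearMap
  have hΨ : ∀ j : J, Ψ (Ideal.Quotient.mk I (F j)) = mon j.2.1 • (vec n Z ∘ a) j.1 := by
    rintro ⟨k, α, hα⟩
    funext p
    have h1 : Ψ (Ideal.Quotient.mk I (F ⟨k, α, hα⟩)) p = eval p.1 (σ (F ⟨k, α, hα⟩)) := by
      change aeval p.1 (σ (F ⟨k, α, hα⟩)) = _
      exact DFunLike.congr_fun (coe_aeval_eq_eval p.1) _
    rw [h1]
    simp only [F, map_mul, map_prod, map_pow, hσT, hσY, eval_C, eval_X, Pi.smul_apply,
      Function.comp_apply, vec, smul_eq_mul, mon]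
    rw [eval_monomial, one_mul, monomial_eq, map_one, one_mul,
      Finsupp.prod_fintype _ _ (fun _ => pow_zero _), Finsupp.prod_fintype _ _ (fun _ => pow_zero _),
      map_prod]
    simp only [map_pow]
  let W := (homogeneousSubmodule ι K b').map (Ideal.Quotient.mkₐ K I).toLinearMap
  have hWfin : Module.Finite K W := by
    rw [Module.Finite.iff_fg]
    exact (homogeneousSubmodule_fg _ _ b').map _
  let u : J → W := fun j => ⟨Ideal.Quotient.mk I (F j), ⟨F j, hF j, rfl⟩⟩
  have hu : LinearIndependent K u := by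
    refine LinearIndependent.of_comp (Ψ ∘ₗ W.subtype) ?_
    have h1 := hG.comp (fun j : J => (j.2.1, j.1)) (by
      rintro ⟨k, α, hα⟩ ⟨k', α', hα'⟩ h
      obtain ⟨rfl, rfl⟩ := Prod.mk.inj h
      rfl)
    convert h1 using 1
    funext j
    exact hΨ j
  have hle := hu.fintype_card_le_finrank
  refine le_trans ?_ hle
  rw [Fintype.card_sigma, ← hcard, Fintype.card, ← smul_eq_mul, ← Finset.sum_const]
  refine Finset.sum_le_sum fun k _ => ?_
  rw [Fintype.card_coe, Finset.card_finsuppAntidiag_nat_eq_choose, Finset.card_univ,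
    Fintype.card_fin]
  have h6 : (a k).1.degree ≤ n := (a k).2
  have h7 : d + 1 + (b' - (a k).1.degree) - 1 = (b' - (a k).1.degree) + d := by omega
  rw [h7, Nat.choose_symm_add]
  exact Nat.choose_le_choose d (by omega)

end Low6

/-- Row LOW: the lower bound for the Hilbert function, from BEZT and AVD. -/
theorem low (bezt : BeztStatement) (avd : AvdStatement) : LowStatement := by
  intro K ι _ _ _ b Q hQ d r P hinj hmin _ T hNN b' hb'
  rcases Nat.eq_zero_or_pos r with rfl | hr
  · simp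
  let a0 : Fin r := ⟨0, hr⟩
  have hT : ∀ i, (T i).IsHomogeneous 1 := (hNN a0).lin
  have hlin : LinearIndependent K T := by
    have h1 := (hNN a0).alg.linearIndependent
    exact LinearIndependent.of_comp (Ideal.Quotient.mkₐ K (P a0)).toLinearMap h1
  obtain ⟨m, Y, s, t, hm, hY, hB, hX⟩ := Low6.exists_compl (d + 1) T hT hlin
  let Ω := AlgebraicClosure (FractionRing (MvPolynomial (Fin (d + 1)) K))
  have i1 : FaithfulSMul (MvPolynomial (Fin (d + 1)) K) Ω := by
    rw [faithfulSMul_iff_algebraMap_injective,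
      IsScalarTower.algebraMap_eq (MvPolynomial (Fin (d + 1)) K)
        (FractionRing (MvPolynomial (Fin (d + 1)) K)) Ω]
    exact (algebraMap (FractionRing (MvPolynomial (Fin (d + 1)) K)) Ω).injective.comp
      (IsFractionRing.injective _ _)
  obtain ⟨σ, Z, hσT, hσY, hZ, hI, hind⟩ :=
    Low6.indep bezt avd b Q hQ d r P hinj hmin T hNN Y s t hB hX Ω
  have hmb : m * b ≤ Fintype.card ι * b := Nat.mul_le_mul_right b hm
  have h1 := Low6.count Ω T hT Y hY σ Z hσT hσY (⨅ a, P a) hI hind b' (hmb.trans hb')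
  rw [← hZ]
  refine le_trans (Nat.mul_le_mul_left _ (Nat.choose_le_choose d ?_)) h1
  omega

end Pool.DynLehmer.LW
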