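import Pool.Agent.Lib.MP_2194ec_nt.LW.Geo

set_option autoImplicit false
set_option linter.unusedSectionVars false

/-!
# Linear Noether normalization for finitely many homogeneous primes (row NNE)

If `S / P_a` is integral over the subalgebra generated by the linear forms `Y_0, .., Y_m`, for all
`a`, and these are algebraically dependent modulo each `P_a`, then there are constants `c_i` such
that `S / P_a` is integral over the subalgebra generated by the `Y_i - c_i Y_m`, `i < m`.
-/

namespace Pool.DynLehmer.LW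
open MvPolynomial
open scoped Classical

namespace NneAux

/-! ### Homogeneous forms at linear polynomials -/

section lin

variable {K σ R : Type*} [Field K] [CommRing R] [Algebra K R]

theorem deg_prod (s : Finset σ) (l : σ → Polynomial R) (hl : ∀ i, (l i).natDegree ≤ 1)
    (e : σ → ℕ) : (∏ i ∈ s, l i ^ e i).natDegree ≤ ∑ i ∈ s, e i ∧
      (∏ i ∈ s, l i ^ e i).coeff (∑ i ∈ s, e i) = ∏ i ∈ s, (l i).coeff 1 ^ e i := by
  induction s using Finset.induction_on with
  | empty => simp
  | insert a s ha ih =>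
    have h1 : (l a ^ e a).natDegree ≤ e a := by
      have h := Polynomial.natDegree_pow_le_of_le (e a) (hl a)
      rwa [mul_one] at h
    have h2 : (l a ^ e a).coeff (e a) = (l a).coeff 1 ^ e a := by
      have h := Polynomial.coeff_pow_of_natDegree_le (m := e a) (hl a)
      rwa [mul_one] at h
    rw [Finset.prod_insert ha, Finset.sum_insert ha, Finset.prod_insert ha]
    refine ⟨(Polynomial.natDegree_mul_le_of_le h1 ih.1), ?_⟩
    rw [Polynomial.coeff_mul_add_eq_of_natDegree_le h1 ih.1, h2, ih.2]

theorem form {f : MvPolynomial σ K} {n : ℕ} (hf : f.IsHomogeneous n) (l : σ → Polynomial R)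
    (hl : ∀ i, (l i).natDegree ≤ 1) : (aeval l f).natDegree ≤ n ∧
      (aeval l f).coeff n = aeval (fun i => (l i).coeff 1) f := by
  have hd : ∀ d ∈ f.support, ∑ i ∈ d.support, d i = n := by
    intro d hd
    have h := hf (mem_support_iff.1 hd)
    rw [← h, Finsupp.weight_apply, Finsupp.sum]
    refine Finset.sum_congr rfl fun i _ => ?_
    simp
  rw [aeval_def, aeval_def, eval₂_eq, eval₂_eq]
  constructor
  · refine Polynomial.natDegree_sum_le_of_forall_le _ _ fun d hd' => ?_
    have h := (deg_prod d.support l hl d).1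
    rw [hd d hd'] at h
    rw [Polynomial.algebraMap_apply]
    exact (Polynomial.natDegree_C_mul_le _ _).trans h
  · rw [Polynomial.finset_sum_coeff]
    refine Finset.sum_congr rfl fun d hd' => ?_
    have h := (deg_prod d.support l hl d).2
    rw [hd d hd'] at h
    rw [Polynomial.algebraMap_apply, Polynomial.coeff_C_mul, h]

end lin

/-! ### One step -/

section ring

variable {K B : Type*} [Field K] [CommRing B] [Algebra K B] {m : ℕ}

theorem int_last (y : Fin (m + 1) → B) {f : MvPolynomial (Fin (m + 1)) K} {n : ℕ}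
    (hf : f.IsHomogeneous n) (h0 : aeval y f = 0) (c : Fin m → K)
    (hc : eval (Fin.snoc c 1 : Fin (m + 1) → K) f ≠ 0) :
    IsIntegral (Algebra.adjoin K (Set.range fun i : Fin m =>
      y (Fin.castSucc i) - c i • y (Fin.last m))) (y (Fin.last m)) := by
  set A := Algebra.adjoin K (Set.range fun i : Fin m =>
      y (Fin.castSucc i) - c i • y (Fin.last m)) with hA
  let v : Fin m → A := fun i => ⟨y (Fin.castSucc i) - c i • y (Fin.last m),
    Algebra.subset_adjoin ⟨i, rfl⟩⟩
  let l : Fin (m + 1) → Polynomial A := Fin.snoc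
    (fun i => Polynomial.C (v i) + Polynomial.C (algebraMap K A (c i)) * Polynomial.X) Polynomial.X
  have hl : ∀ i, (l i).natDegree ≤ 1 := by
    intro i
    refine Fin.lastCases ?_ (fun i => ?_) i
    · simp only [l, Fin.snoc_last]
      exact Polynomial.natDegree_X_le
    · simp only [l, Fin.snoc_castSucc]
      refine (Polynomial.natDegree_add_le_of_degree_le (n := 1) ?_ ?_)
      · exact (Polynomial.natDegree_C _).le.trans zero_le_one
      · exact (Polynomial.natDegree_C_mul_le _ _).trans Polynomial.natDegree_X_le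
  have hl1 : ∀ i, (l i).coeff 1 = algebraMap K A ((Fin.snoc c 1 : Fin (m + 1) → K) i) := by
    intro i
    refine Fin.lastCases ?_ (fun i => ?_) i
    · simp only [l, Fin.snoc_last, Polynomial.coeff_X_one, map_one]
    · simp only [l, Fin.snoc_castSucc, Polynomial.coeff_add, Polynomial.coeff_C_mul,
        Polynomial.coeff_X_one, mul_one]
      rw [Polynomial.coeff_C_ne_zero one_ne_zero, zero_add]
  have hl2 : ∀ i, Polynomial.aeval (y (Fin.last m)) (l i) = y i := by
    intro i
    refine Fin.lastCases ?_ (fun i => ?_) i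
    · simp only [l, Fin.snoc_last, Polynomial.aeval_X]
    · simp only [l, Fin.snoc_castSucc, map_add, map_mul, Polynomial.aeval_C, Polynomial.aeval_X]
      have e1 : algebraMap A B (v i) = y (Fin.castSucc i) - c i • y (Fin.last m) := rfl
      have e2 : algebraMap A B (algebraMap K A (c i)) = algebraMap K B (c i) :=
        (IsScalarTower.algebraMap_apply K A B (c i)).symm
      rw [e1, e2, ← Algebra.smul_def, sub_add_cancel]
  obtain ⟨h1, h2⟩ := form hf l hl
  have h3 : Polynomial.aeval (y (Fin.last m)) (aeval l f) = 0 := by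
    have h := comp_aeval_apply (f := l)
      ((Polynomial.aeval (R := A) (y (Fin.last m))).restrictScalars K) f
    refine Eq.trans h ?_
    refine Eq.trans ?_ h0
    congr 2
    funext i
    exact hl2 i
  have h4 : (aeval l f).coeff n =
      algebraMap K A (eval (Fin.snoc c 1 : Fin (m + 1) → K) f) := by
    rw [h2]
    simp only [hl1]
    exact aeval_algebraMap_apply A _ f
  set e := eval (Fin.snoc c 1 : Fin (m + 1) → K) f with he
  refine ⟨Polynomial.C (algebraMap K A e⁻¹) * aeval l f, ?_, ?_⟩
  · refine Polynomial.monic_of_natDegree_le_of_coeff_eq_one n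
      ((Polynomial.natDegree_C_mul_le _ _).trans h1) ?_
    rw [Polynomial.coeff_C_mul, h4, ← map_mul, inv_mul_cancel₀ hc, map_one]
  · rw [← Polynomial.aeval_def, map_mul, h3, mul_zero]

theorem int_all (y : Fin (m + 1) → B)
    (hy : ∀ x : B, IsIntegral (Algebra.adjoin K (Set.range y)) x) {f : MvPolynomial (Fin (m + 1)) K}
    {n : ℕ} (hf : f.IsHomogeneous n) (h0 : aeval y f = 0) (c : Fin m → K)
    (hc : eval (Fin.snoc c 1 : Fin (m + 1) → K) f ≠ 0) (x : B) :
    IsIntegral (Algebra.adjoin K (Set.range fun i : Fin m =>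
      y (Fin.castSucc i) - c i • y (Fin.last m))) x := by
  have hlast := int_last y hf h0 c hc
  set A := Algebra.adjoin K (Set.range fun i : Fin m =>
      y (Fin.castSucc i) - c i • y (Fin.last m)) with hA
  have hmem : ∀ i, y i ∈ integralClosure A B := by
    intro i
    refine Fin.lastCases hlast (fun i => ?_) i
    have h1 : IsIntegral A (y (Fin.castSucc i) - c i • y (Fin.last m)) :=
      isIntegral_algebraMap (R := A) (A := B)
        (x := ⟨y (Fin.castSucc i) - c i • y (Fin.last m), Algebra.subset_adjoin ⟨i, rfl⟩⟩)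
    have h2 : IsIntegral A (algebraMap K B (c i)) := by
      rw [IsScalarTower.algebraMap_apply K A B]
      exact isIntegral_algebraMap
    have h3 := h1.add (h2.mul hlast)
    rw [← Algebra.smul_def, sub_add_cancel] at h3
    exact h3
  have hle : Algebra.adjoin K (Set.range y) ≤ (integralClosure A B).restrictScalars K := by
    refine Algebra.adjoin_le ?_
    rintro _ ⟨i, rfl⟩
    exact hmem i
  have hx : IsIntegral (integralClosure A B) x := by
    obtain ⟨p, hp, hpx⟩ := hy x
    let φ : Algebra.adjoin K (Set.range y) →+* integralClosure A B :=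
      { toFun := fun z => ⟨z, hle z.2⟩
        map_one' := rfl
        map_mul' := fun _ _ => rfl
        map_zero' := rfl
        map_add' := fun _ _ => rfl }
    refine ⟨p.map φ, hp.map φ, ?_⟩
    rw [Polynomial.eval₂_map]
    exact hpx
  exact isIntegral_trans x hx

/-- the number of generators is at least the transcendence degree -/
theorem le_of_int [IsDomain B] (y : Fin m → B)
    (hy : ∀ x : B, IsIntegral (Algebra.adjoin K (Set.range y)) x) {d : ℕ}
    (hd : Algebra.trdeg K B = (d : Cardinal)) : d ≤ m := by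
  haveI : Algebra.IsIntegral (Algebra.adjoin K (Set.range y)) B := ⟨hy⟩
  have h1 := Algebra.IsAlgebraic.trdeg_le_cardinalMk K (Set.range y)
  rw [hd] at h1
  have h2 : Cardinal.mk (Set.range y) ≤ (m : Cardinal) := by
    have h3 : Cardinal.mk (Set.range y) = ((Set.range y).ncard : Cardinal) :=
      (Set.cast_ncard (Set.finite_range y)).symm
    rw [h3, Nat.cast_le, ← Set.image_univ]
    refine (Set.ncard_image_le Set.finite_univ).trans ?_
    rw [Set.ncard_univ, Nat.card_eq_fintype_card, Fintype.card_fin]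
  exact_mod_cast h1.trans h2

end ring

/-- generators whose number is the transcendence degree are algebraically independent -/
theorem indep_of_int {K B : Type} [Field K] [CommRing B] [Algebra K B] [IsDomain B] {m : ℕ}
    (y : Fin m → B) (hy : ∀ x : B, IsIntegral (Algebra.adjoin K (Set.range y)) x)
    (hd : Algebra.trdeg K B = (m : Cardinal)) : AlgebraicIndependent K y := by
  haveI : Algebra.IsIntegral (Algebra.adjoin K (Set.range y)) B := ⟨hy⟩
  refine (Algebra.IsAlgebraic.isTranscendenceBasis_of_le_trdeg_of_finite K y ?_).1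
  rw [hd, Cardinal.mk_fin]

/-! ### Homogeneous relations -/

section rel

variable {K ι : Type} [Field K]

/-- homogeneous components and linear substitutions -/
theorem comp_aeval {m : ℕ} (Y : Fin m → MvPolynomial ι K) (hY : ∀ i, (Y i).IsHomogeneous 1)
    (p : MvPolynomial (Fin m) K) (n : ℕ) :
    homogeneousComponent n (aeval Y p) = aeval Y (homogeneousComponent n p) := by
  have hc : ∀ i, (aeval Y (homogeneousComponent i p)).IsHomogeneous i := by
    intro i
    have h := (homogeneousComponent_isHomogeneous i p).aeval Y hY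
    rwa [one_mul] at h
  conv_lhs => rw [← sum_homogeneousComponent p]
  rw [map_sum, map_sum]
  by_cases hn : n ∈ Finset.range (p.totalDegree + 1)
  · rw [Finset.sum_eq_single n]
    · rw [homogeneousComponent_of_mem (hc n), if_pos rfl]
    · intro i _ hi
      rw [homogeneousComponent_of_mem (hc i), if_neg (Ne.symm hi)]
    · exact fun h => absurd hn h
  · rw [Finset.sum_eq_zero]
    · rw [homogeneousComponent_eq_zero n p (by rw [Finset.mem_range] at hn; omega), map_zero]
    · intro i hi
      rw [homogeneousComponent_of_mem (hc i), if_neg]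
      rintro rfl
      exact hn hi

/-- a homogeneous relation modulo a homogeneous ideal -/
theorem exists_rel {P : Ideal (MvPolynomial ι K)} (hP : HomI P) {m : ℕ}
    (Y : Fin m → MvPolynomial ι K) (hY : ∀ i, (Y i).IsHomogeneous 1)
    (h : ¬ AlgebraicIndependent K (fun i => Ideal.Quotient.mk P (Y i))) :
    ∃ (n : ℕ) (f : MvPolynomial (Fin m) K), f ≠ 0 ∧ f.IsHomogeneous n ∧
      aeval (fun i => Ideal.Quotient.mk P (Y i)) f = 0 := by
  rw [algebraicIndependent_iff] at h
  push Not at h
  obtain ⟨p, hp, hp0⟩ := h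
  have e : ∀ q : MvPolynomial (Fin m) K,
      aeval (fun i => Ideal.Quotient.mk P (Y i)) q = Ideal.Quotient.mk P (aeval Y q) :=
    fun q => (comp_aeval_apply (f := Y) (Ideal.Quotient.mkₐ K P) q).symm
  obtain ⟨n, hn⟩ : ∃ n, homogeneousComponent n p ≠ 0 := by
    by_contra hh
    push Not at hh
    exact hp0 (by rw [← sum_homogeneousComponent p]; exact Finset.sum_eq_zero fun i _ => hh i)
  refine ⟨n, homogeneousComponent n p, hn, homogeneousComponent_isHomogeneous n p, ?_⟩
  rw [e] at hp ⊢
  rw [← comp_aeval Y hY, Ideal.Quotient.eq_zero_iff_mem]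
  exact hP _ (Ideal.Quotient.eq_zero_iff_mem.1 hp) n

/-- a homogeneous polynomial at a multiple of a point -/
theorem eval_smul {σ : Type} {f : MvPolynomial σ K} {n : ℕ} (hf : f.IsHomogeneous n) (t : K)
    (x : σ → K) : eval (fun i => t * x i) f = t ^ n * eval x f := by
  have hd : ∀ d ∈ f.support, ∑ i ∈ d.support, d i = n := by
    intro d hd
    have h := hf (mem_support_iff.1 hd)
    rw [← h, Finsupp.weight_apply, Finsupp.sum]
    refine Finset.sum_congr rfl fun i _ => ?_
    simp
  rw [eval_eq, eval_eq, Finset.mul_sum]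
  refine Finset.sum_congr rfl fun d hd' => ?_
  have e : ∏ i ∈ d.support, (t * x i) ^ d i = t ^ n * ∏ i ∈ d.support, x i ^ d i := by
    simp only [mul_pow]
    rw [Finset.prod_mul_distrib, Finset.prod_pow_eq_pow_sum, hd d hd']
  rw [e]
  ring

/-- a common point where finitely many homogeneous polynomials do not vanish -/
theorem exists_pt [Infinite K] {m r : ℕ} (n : Fin r → ℕ)
    (f : Fin r → MvPolynomial (Fin (m + 1)) K) (h0 : ∀ a, f a ≠ 0)
    (hf : ∀ a, (f a).IsHomogeneous (n a)) :
    ∃ c : Fin m → K, ∀ a, eval (Fin.snoc c 1 : Fin (m + 1) → K) (f a) ≠ 0 := by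
  have hF : (∏ a, f a) * X (Fin.last m) ≠ 0 :=
    mul_ne_zero (Finset.prod_ne_zero_iff.2 fun a _ => h0 a) (X_ne_zero _)
  obtain ⟨x, hx⟩ : ∃ x : Fin (m + 1) → K, eval x ((∏ a, f a) * X (Fin.last m)) ≠ 0 := by
    by_contra hh
    push Not at hh
    exact hF (MvPolynomial.funext fun x => by rw [hh x, map_zero])
  rw [map_mul, eval_X, map_prod] at hx
  have hx1 : x (Fin.last m) ≠ 0 := right_ne_zero_of_mul hx
  have hx2 := Finset.prod_ne_zero_iff.1 (left_ne_zero_of_mul hx)
  refine ⟨fun i => (x (Fin.last m))⁻¹ * x (Fin.castSucc i), fun a => ?_⟩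
  have e : (Fin.snoc (fun i => (x (Fin.last m))⁻¹ * x (Fin.castSucc i)) 1 : Fin (m + 1) → K)
      = fun i => (x (Fin.last m))⁻¹ * x i := by
    funext i
    refine Fin.lastCases ?_ (fun i => ?_) i
    · rw [Fin.snoc_last, inv_mul_cancel₀ hx1]
    · rw [Fin.snoc_castSucc]
  rw [e, eval_smul (hf a)]
  exact mul_ne_zero (pow_ne_zero _ (inv_ne_zero hx1)) (hx2 a (Finset.mem_univ a))

end rel

/-- **One linear form less.** -/
theorem step {K ι : Type} [Field K] [Infinite K] {d r m : ℕ}
    (P : Fin r → Ideal (MvPolynomial ι K)) (hh : ∀ a, HomI (P a))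
    (hd : ∀ a, Algebra.trdeg K (MvPolynomial ι K ⧸ P a) = (d : Cardinal)) (hm : d < m + 1)
    (Y : Fin (m + 1) → MvPolynomial ι K) (hY : ∀ i, (Y i).IsHomogeneous 1)
    (hI : ∀ a, ∀ x : MvPolynomial ι K ⧸ P a,
      IsIntegral (Algebra.adjoin K (Set.range fun i => Ideal.Quotient.mk (P a) (Y i))) x) :
    ∃ Y' : Fin m → MvPolynomial ι K, (∀ i, (Y' i).IsHomogeneous 1) ∧
      ∀ a, ∀ x : MvPolynomial ι K ⧸ P a,
        IsIntegral (Algebra.adjoin K (Set.range fun i => Ideal.Quotient.mk (P a) (Y' i))) x := by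
  have h1 : ∀ a, ¬ AlgebraicIndependent K (fun i => Ideal.Quotient.mk (P a) (Y i)) := by
    intro a ha
    have h := ha.cardinalMk_le_trdeg
    rw [hd a, Cardinal.mk_fin] at h
    have h2 : m + 1 ≤ d := by exact_mod_cast h
    omega
  choose n f hf0 hf hfa using fun a => exists_rel (hh a) Y hY (h1 a)
  obtain ⟨c, hc⟩ := exists_pt n f hf0 hf
  refine ⟨fun i => Y (Fin.castSucc i) - c i • Y (Fin.last m), fun i => ?_, fun a x => ?_⟩
  · have h3 : (c i • Y (Fin.last m)).IsHomogeneous 1 :=
      (homogeneousSubmodule ι K 1).smul_mem (c i) (hY _)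
    exact (hY _).sub h3
  · exact int_all (fun i => Ideal.Quotient.mk (P a) (Y i)) (hI a) (hf a) (hfa a) c (hc a) x

/-- all variables -/
theorem base {K ι : Type} [Field K] [Fintype ι] (P : Ideal (MvPolynomial ι K))
    (x : MvPolynomial ι K ⧸ P) : IsIntegral (Algebra.adjoin K
      (Set.range fun i : Fin (Fintype.card ι) =>
        Ideal.Quotient.mk P (X ((Fintype.equivFin ι).symm i)))) x := by
  set A := Algebra.adjoin K (Set.range fun i : Fin (Fintype.card ι) =>
        Ideal.Quotient.mk P (X ((Fintype.equivFin ι).symm i))) with hA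
  have h : ∀ q : MvPolynomial ι K, Ideal.Quotient.mk P q ∈ A := by
    intro q
    induction q using MvPolynomial.induction_on with
    | C a => exact A.algebraMap_mem a
    | add p q hp hq => rw [map_add]; exact add_mem hp hq
    | mul_X p i hp =>
      rw [map_mul]
      refine mul_mem hp (Algebra.subset_adjoin ⟨Fintype.equivFin ι i, ?_⟩)
      show Ideal.Quotient.mk P (X ((Fintype.equivFin ι).symm (Fintype.equivFin ι i))) = _
      rw [Equiv.symm_apply_apply]
  obtain ⟨q, rfl⟩ := Ideal.Quotient.mk_surjective x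
  exact isIntegral_algebraMap (R := A) (A := MvPolynomial ι K ⧸ P) (x := ⟨_, h q⟩)

theorem descend {K ι : Type} [Field K] [Infinite K] {d r : ℕ}
    (P : Fin r → Ideal (MvPolynomial ι K)) (hh : ∀ a, HomI (P a))
    (hd : ∀ a, Algebra.trdeg K (MvPolynomial ι K ⧸ P a) = (d : Cardinal)) : ∀ (t : ℕ)
    (Y : Fin (d + t) → MvPolynomial ι K) (_ : ∀ i, (Y i).IsHomogeneous 1)
    (_ : ∀ a, ∀ x : MvPolynomial ι K ⧸ P a,
      IsIntegral (Algebra.adjoin K (Set.range fun i => Ideal.Quotient.mk (P a) (Y i))) x),
    ∃ Y' : Fin d → MvPolynomial ι K, (∀ i, (Y' i).IsHomogeneous 1) ∧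
      ∀ a, ∀ x : MvPolynomial ι K ⧸ P a,
        IsIntegral (Algebra.adjoin K (Set.range fun i => Ideal.Quotient.mk (P a) (Y' i))) x
  | 0, Y, hY, hI => ⟨Y, hY, hI⟩
  | t + 1, Y, hY, hI => by
    obtain ⟨Y', hY', hI'⟩ := step (m := d + t) P hh hd (by omega) Y hY hI
    exact descend P hh hd t Y' hY' hI'

end NneAux

open NneAux in
/-- **Row NNE.** -/
theorem nne : NneStatement := by
  intro K ι _ _ _ d r P hP hh hd
  rcases Nat.eq_zero_or_pos r with rfl | hr
  · exact ⟨fun _ => 0, fun a => a.elim0⟩
  have hdom : ∀ a, IsDomain (MvPolynomial ι K ⧸ P a) := fun a => by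
    haveI := hP a
    infer_instance
  have hd' : ∀ a, Algebra.trdeg K (MvPolynomial ι K ⧸ P a) = ((d + 1 : ℕ) : Cardinal) := by
    intro a
    have h := hd a
    rw [dimI] at h
    have hlt : Algebra.trdeg K (MvPolynomial ι K ⧸ P a) < Cardinal.aleph0 := by
      by_contra hc
      rw [Cardinal.toNat_apply_of_aleph0_le (not_lt.1 hc)] at h
      omega
    rw [← h]
    exact (Cardinal.cast_toNat_of_lt_aleph0 hlt).symm
  have hcard : d + 1 ≤ Fintype.card ι := by
    haveI := hdom ⟨0, hr⟩
    exact le_of_int _ (base (P ⟨0, hr⟩)) (hd' ⟨0, hr⟩)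
  obtain ⟨t, ht⟩ := Nat.exists_eq_add_of_le hcard
  have key : ∀ N, N = d + 1 + t → ∀ (Y : Fin N → MvPolynomial ι K)
      (_ : ∀ i, (Y i).IsHomogeneous 1) (_ : ∀ a, ∀ x : MvPolynomial ι K ⧸ P a,
      IsIntegral (Algebra.adjoin K (Set.range fun i => Ideal.Quotient.mk (P a) (Y i))) x),
      ∃ Y' : Fin (d + 1) → MvPolynomial ι K, (∀ i, (Y' i).IsHomogeneous 1) ∧
      ∀ a, ∀ x : MvPolynomial ι K ⧸ P a,
        IsIntegral (Algebra.adjoin K (Set.range fun i => Ideal.Quotient.mk (P a) (Y' i))) x := by
    rintro _ rfl Y hY hI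
    exact descend P hh hd' t Y hY hI
  obtain ⟨T, hT, hI⟩ := key _ ht (fun i => X ((Fintype.equivFin ι).symm i))
    (fun i => isHomogeneous_X K _) (fun a => base (P a))
  refine ⟨T, fun a => ⟨hT, ?_, hI a⟩⟩
  haveI := hdom a
  exact indep_of_int _ (hI a) (hd' a)

end Pool.DynLehmer.LW
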