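import Pool.Agent.Lib.MP_2194ec_nt.LW.DefsX
import Pool.Agent.Lib.MP_2194ec_nt.LP.Num

set_option autoImplicit false

/-!
# The numerical end of the proof for tuples (row NUMX)
-/

namespace Pool.DynLehmer.LW
open Real Filter Topology

namespace Numx

theorem ev (k : ℕ) (δ B B' θ : ℝ) (hδ : 0 < δ) (hB : 0 < B) (hB' : 1 ≤ B') (hθ0 : 0 ≤ θ)
    (hθ1 : θ < 1) :
    ∃ X : ℕ, 1 ≤ X ∧ 2 ^ k ≤ X ∧ ∀ d : ℕ, X ≤ d →
      2 ^ k * B' ^ (k + 1) * (1 + Real.log d) ^ (k + 2) *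
        Real.exp (B * (1 + (Real.log d) ^ θ)) ≤ (d : ℝ) ^ δ := by
  obtain ⟨C, hC0, hC⟩ := LP.num_aux δ B θ hδ hB hθ0 hθ1
  obtain ⟨η, hη⟩ : ∃ η : ℝ, η = δ / (4 * (k + 2)) := ⟨_, rfl⟩
  have hη0 : 0 < η := by rw [hη]; positivity
  obtain ⟨K, hK⟩ : ∃ K : ℝ, K = max 1 (1 / η) := ⟨_, rfl⟩
  have hK1 : 1 ≤ K := by rw [hK]; exact le_max_left _ _
  have hK2 : 1 / η ≤ K := by rw [hK]; exact le_max_right _ _
  have hKpos : 0 < K := by linarith
  have hKl : ∀ l : ℝ, 0 ≤ l → 1 + l ≤ K * Real.exp (η * l) := by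
    intro l hl
    have h1 : η * l + 1 ≤ Real.exp (η * l) := Real.add_one_le_exp _
    have h2 : l ≤ K * (η * l) := by
      have h3 : 1 ≤ K * η := by
        rw [div_le_iff₀ hη0] at hK2
        linarith
      nlinarith
    nlinarith
  obtain ⟨W, hW⟩ : ∃ W : ℝ, W = 2 ^ k * B' ^ (k + 1) * K ^ (k + 2) * Real.exp (B + C) := ⟨_, rfl⟩
  have hev : ∀ᶠ d : ℕ in atTop, W ≤ (d : ℝ) ^ (δ / 4) :=
    ((tendsto_rpow_atTop (show 0 < δ / 4 by positivity)).comp
      tendsto_natCast_atTop_atTop).eventually_ge_atTop W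
  obtain ⟨X, hX⟩ := eventually_atTop.1 hev
  refine ⟨max (2 ^ k) X, ?_, le_max_left _ _, fun d hd => ?_⟩
  · exact le_max_of_le_left Nat.one_le_two_pow
  have hd1 : 1 ≤ d := Nat.one_le_two_pow.trans ((le_max_left _ _).trans hd)
  have hdR : (1 : ℝ) ≤ d := by exact_mod_cast hd1
  have hdpos : (0 : ℝ) < d := by linarith
  have hWd := hX d ((le_max_right _ _).trans hd)
  obtain ⟨l, hl⟩ : ∃ l : ℝ, l = Real.log d := ⟨_, rfl⟩
  have hl0 : 0 ≤ l := by rw [hl]; exact Real.log_nonneg hdR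
  rw [Real.rpow_def_of_pos hdpos, ← hl] at hWd ⊢
  have h1 : (1 + l) ^ (k + 2) ≤ K ^ (k + 2) * Real.exp (l * (δ / 4)) := by
    calc (1 + l) ^ (k + 2) ≤ (K * Real.exp (η * l)) ^ (k + 2) :=
          pow_le_pow_left₀ (by linarith) (hKl l hl0) _
      _ = K ^ (k + 2) * Real.exp (l * (δ / 4)) := by
        rw [mul_pow, ← Real.exp_nat_mul]
        congr 2
        rw [hη]
        push_cast
        field_simp
  have h2 : Real.exp (B * (1 + l ^ θ)) ≤ Real.exp (B + C) * Real.exp (l * (δ / 2)) := by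
    rw [← Real.exp_add]
    apply Real.exp_le_exp.2
    have := hC l hl0
    linarith
  calc 2 ^ k * B' ^ (k + 1) * (1 + l) ^ (k + 2) * Real.exp (B * (1 + l ^ θ))
      ≤ 2 ^ k * B' ^ (k + 1) * (K ^ (k + 2) * Real.exp (l * (δ / 4))) *
        (Real.exp (B + C) * Real.exp (l * (δ / 2))) := by
        gcongr
    _ = W * (Real.exp (l * (δ / 4)) * Real.exp (l * (δ / 2))) := by
        rw [hW]
        ring
    _ ≤ Real.exp (l * (δ / 4)) * (Real.exp (l * (δ / 4)) * Real.exp (l * (δ / 2))) :=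
        mul_le_mul_of_nonneg_right hWd (by positivity)
    _ = Real.exp (l * δ) := by
        rw [← Real.exp_add, ← Real.exp_add]
        congr 1
        ring

end Numx

/-- Row NUMX. -/
theorem numx : NumxStatement := by
  intro k δ A B B' θ hk hδ hA hB hB' hθ0 hθ1
  have hk0 : 0 < k := by omega
  have hkR : (0 : ℝ) < k := by exact_mod_cast hk0
  obtain ⟨X, hX1, hX2, hX⟩ := Numx.ev k δ B B' θ hδ hB hB' hθ0 hθ1
  refine ⟨X, A, hA, ?_⟩
  intro d E hd hE1 hE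
  have hev := hX d hd
  have hd1 : 1 ≤ d := hX1.trans hd
  have hdR : (1 : ℝ) ≤ d := by exact_mod_cast hd1
  have hdpos : (0 : ℝ) < d := by linarith
  have hER : (1 : ℝ) ≤ E := by exact_mod_cast hE1
  have hl0 : 0 ≤ Real.log d := Real.log_nonneg hdR
  obtain ⟨L, hL⟩ : ∃ L : ℝ, L = 1 + Real.log d := ⟨_, rfl⟩
  rw [← hL] at hev hE ⊢
  have hL1 : 1 ≤ L := by rw [hL]; linarith
  have hB0 : (0 : ℝ) < B' := by linarith
  have hL0 : (0 : ℝ) < L := by linarith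
  have hexp1 : 1 ≤ Real.exp (B * (1 + (Real.log d) ^ θ)) := Real.one_le_exp (by positivity)
  have h2k : (1 : ℝ) ≤ 2 ^ k := one_le_pow₀ (by norm_num)
  have hbase : 2 ^ k * B' ^ (k + 1) * L ^ (k + 2) ≤ (d : ℝ) ^ δ :=
    (le_mul_of_one_le_right (by positivity) hexp1).trans hev
  have hbase' : B' ^ (k + 1) * L ^ (k + 2) ≤ (d : ℝ) ^ δ := by
    refine le_trans ?_ hbase
    rw [mul_assoc]
    exact le_mul_of_one_le_left (by positivity) h2k
  refine ⟨?_, ?_, ?_⟩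
  · refine le_trans ?_ hbase'
    exact mul_le_mul (le_self_pow₀ hB' (by omega)) (le_self_pow₀ hL1 (by omega)) hL0.le
      (by positivity)
  · refine le_trans (le_of_eq ?_) hbase'
    rw [mul_pow, pow_succ B' k, pow_add L k 2]
    ring
  intro M ρ hdM hMd hρ hyp
  have hdMR : (d : ℝ) ≤ M := by exact_mod_cast hdM
  have hMR : (1 : ℝ) ≤ M := hdR.trans hdMR
  have hMpos : (0 : ℝ) < M := by linarith
  obtain ⟨x, hx⟩ : ∃ x : ℝ, x = (M : ℝ) ^ (1 / (k : ℝ)) := ⟨_, rfl⟩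
  have hxk : x ^ k = M := by
    rw [hx, ← Real.rpow_natCast, ← Real.rpow_mul (by positivity), one_div,
      inv_mul_cancel₀ hkR.ne', Real.rpow_one]
  have hx0 : 0 ≤ x := by rw [hx]; positivity
  have hx2 : 2 ≤ x := by
    have h1 : (2 : ℝ) ^ k ≤ x ^ k := by
      rw [hxk]
      have h2 : 2 ^ k ≤ M := hX2.trans (hd.trans hdM)
      exact_mod_cast h2
    exact le_of_pow_le_pow_left₀ hk0.ne' hx0 h1
  have hxd : x ≤ d := by
    have h1 : x ^ k ≤ (d : ℝ) ^ k := by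
      rw [hxk]
      exact_mod_cast hMd
    exact le_of_pow_le_pow_left₀ hk0.ne' hdpos.le h1
  obtain ⟨t0, ht0⟩ : ∃ t0 : ℕ, t0 = ⌊x⌋₊ := ⟨_, rfl⟩
  have ht2 : 2 ≤ t0 := by
    rw [ht0]
    exact Nat.le_floor (by exact_mod_cast hx2)
  have htx : (t0 : ℝ) ≤ x := by
    rw [ht0]
    exact Nat.floor_le hx0
  have hxt : x < t0 + 1 := by
    rw [ht0]
    exact Nat.lt_floor_add_one x
  have htR : (2 : ℝ) ≤ t0 := by exact_mod_cast ht2
  have htpos : (0 : ℝ) < t0 := by linarith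
  have hEe : (E : ℝ) * Real.exp (B * (1 + (Real.log d) ^ θ)) ≤ (d : ℝ) ^ δ := by
    refine le_trans ?_ hev
    refine mul_le_mul_of_nonneg_right (hE.trans ?_) (Real.exp_pos _).le
    rw [mul_pow, ← mul_assoc]
    have h1 : B' ^ k ≤ B' ^ (k + 1) := pow_le_pow_right₀ hB' (by omega)
    have h2 : L ^ k ≤ L ^ (k + 2) := pow_le_pow_right₀ hL1 (by omega)
    gcongr
  refine ⟨t0, d, ht2, hdR, htx.trans hxd, ?_, hEe, ?_⟩
  · have h1 : (M : ℝ) < ((t0 : ℝ) + 1) ^ k := by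
      rw [← hxk]
      exact pow_lt_pow_left₀ hxt hx0 hk0.ne'
    exact_mod_cast h1
  · have hE0 : (0 : ℝ) < E := by linarith
    have hW : 0 < Real.exp (B * (1 + (Real.log d) ^ θ)) := Real.exp_pos _
    rw [Real.exp_neg]
    have h1 : ρ * (A / ((E : ℝ) * t0) * (Real.exp (B * (1 + (Real.log d) ^ θ)))⁻¹) =
        ρ * A / (t0 * (E * Real.exp (B * (1 + (Real.log d) ^ θ)))) := by
      field_simp
    rw [h1, le_div_iff₀ (by positivity)]
    have h2 : t0 * (E * Real.exp (B * (1 + (Real.log d) ^ θ))) ≤ ρ := by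
      calc t0 * (E * Real.exp (B * (1 + (Real.log d) ^ θ))) ≤ x * (d : ℝ) ^ δ :=
            mul_le_mul htx hEe (by positivity) hx0
        _ ≤ x * (M : ℝ) ^ δ :=
            mul_le_mul_of_nonneg_left (Real.rpow_le_rpow hdpos.le hdMR hδ.le) hx0
        _ = (M : ℝ) ^ (1 / (k : ℝ) + δ) := by rw [hx, Real.rpow_add hMpos]
        _ ≤ ρ := hyp
    calc A * (t0 * (E * Real.exp (B * (1 + (Real.log d) ^ θ)))) ≤ A * ρ :=
          mul_le_mul_of_nonneg_left h2 hA.le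
      _ = ρ * A := mul_comm _ _

end Pool.DynLehmer.LW
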