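import Pool.Agent.Lib.MP_2194ec_nt.LW.Defs
import Pool.Agent.Lib.MP_2194ec_nt.GAL.R.Bas
import Pool.Agent.Lib.MP_2194ec_nt.GAL.R.Mor
import Pool.Agent.Lib.MP_2194ec_nt.GAL.R.Chn
import Pool.Agent.Lib.MP_2194ec_nt.GAL.R.Ldg
import Pool.Agent.Lib.MP_2194ec_nt.GAL.R.Ldm

set_option autoImplicit false

/-!
# Infinitely many periodic points (row PERP)

The fixed points of the `l`-th iterate are the zeros of `X₁ F^l₀ - X₀ F^l₁`, a form of degree
`q ^ l + 1` whose gradient has no zero, because the derivatives of `F^l` vanish in the residue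
field and `F^l` has good reduction.
-/

namespace Pool.DynLehmer.LW
open MvPolynomial NumberField Filter Topology Pool.DynLehmer Pool.DynLehmer.SB Pool.DynLehmer.SP
  Pool.DynLehmer.GS Pool.DynLehmer.LP Pool.DynLehmer.GS.Bas
open scoped Classical

namespace P92

section val

variable {K : Type} [Field K] [NumberField K] {p s : ℕ} {v : FinitePlace K}
  {F : Fin 2 → MvPolynomial (Fin 2) K} {N : Type} [Field N] [Algebra K N]

theorem aeval_le (B : ValuationSubring N)
    (hle : ∀ x : K, v x ≤ 1 → B.valuation (algebraMap K N x) ≤ 1)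
    {G : MvPolynomial (Fin 2) K} (hG : ∀ t, v (coeff t G) ≤ 1) (Q : Fin 2 → N)
    (hQ : ∀ j, B.valuation (Q j) ≤ 1) : B.valuation (aeval Q G) ≤ 1 := by
  rw [aeval_def, eval₂_eq']
  refine Valuation.map_sum_le _ fun t _ => ?_
  rw [map_mul, map_prod]
  refine mul_le_one' (hle _ (hG t)) (Finset.prod_le_one' fun j _ => ?_)
  rw [map_pow]
  exact pow_le_one' (hQ j) _

/-- the derivatives vanish in the residue field -/
theorem pderiv_lt (hF : HypR p s v F) (B : ValuationSubring N)
    (hle : ∀ x : K, v x ≤ 1 → B.valuation (algebraMap K N x) ≤ 1)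
    (hlt : ∀ x : K, v x < 1 → B.valuation (algebraMap K N x) < 1)
    (Q : Fin 2 → N) (hQ : ∀ j, B.valuation (Q j) ≤ 1) (k i : Fin 2) :
    B.valuation (aeval Q (pderiv k (F i))) < 1 := by
  have h1 : aeval Q (pderiv k (F i)) = ∑ t ∈ (F i).support,
      algebraMap K N (coeff t (F i) * t k) * ∏ j, Q j ^ ((t - Finsupp.single k 1 : Fin 2 →₀ ℕ) j) := by
    conv_lhs => rw [(F i).as_sum]
    rw [map_sum, map_sum]
    refine Finset.sum_congr rfl fun t _ => ?_
    rw [pderiv_monomial, aeval_monomial, Finsupp.prod_fintype _ _ fun j => pow_zero _]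
  rw [h1]
  refine Valuation.map_sum_lt _ one_ne_zero fun t _ => ?_
  rw [map_mul, map_prod]
  refine mul_lt_one_of_lt_of_le ?_ (Finset.prod_le_one' fun j _ => by
    rw [map_pow]
    exact pow_le_one' (hQ j) _)
  have hn : ∀ n : ℕ, v (n : K) ≤ 1 := by
    intro n
    induction n with
    | zero => rw [Nat.cast_zero, map_zero]; exact zero_le_one
    | succ n ih =>
      rw [Nat.cast_succ]
      exact (FinitePlace.add_le v _ _).trans (max_le ih (by rw [map_one]))
  refine hlt _ ?_
  rw [map_mul]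
  by_cases ht : ∃ j, t = Finsupp.single j (p ^ s)
  · obtain ⟨j, rfl⟩ := ht
    by_cases hjk : k = j
    · subst hjk
      rw [Finsupp.single_eq_same]
      have h3 : v (((p ^ s : ℕ) : K)) < 1 := by
        rw [Nat.cast_pow, map_pow]
        exact pow_lt_one₀ (apply_nonneg v _) hF.above (by have := hF.pos; omega)
      calc _ ≤ 1 * v (((p ^ s : ℕ) : K)) :=
            mul_le_mul_of_nonneg_right (hF.int i _) (apply_nonneg v _)
        _ < 1 := by rw [one_mul]; exact h3
    · rw [Finsupp.single_eq_of_ne hjk, Nat.cast_zero, map_zero, mul_zero]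
      exact one_pos
  · push Not at ht
    calc _ ≤ v (coeff t (F i)) * 1 :=
          mul_le_mul_of_nonneg_left (hn _) (apply_nonneg v _)
      _ < 1 := by rw [mul_one]; exact hF.red i t ht

theorem pderiv_it (hF : HypR p s v F) (B : ValuationSubring N)
    (hle : ∀ x : K, v x ≤ 1 → B.valuation (algebraMap K N x) ≤ 1)
    (hlt : ∀ x : K, v x < 1 → B.valuation (algebraMap K N x) < 1) (n : ℕ) :
    (∀ (Q : Fin 2 → N), (∀ j, B.valuation (Q j) ≤ 1) → ∀ k i : Fin 2,
      B.valuation (aeval Q (pderiv k (itF F n i))) ≤ 1) ∧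
    (∀ (Q : Fin 2 → N), (∀ j, B.valuation (Q j) ≤ 1) → ∀ k i : Fin 2,
      B.valuation (aeval Q (pderiv k (itF F (n + 1) i))) < 1) := by
  have step : ∀ n : ℕ, (∀ (Q : Fin 2 → N), (∀ j, B.valuation (Q j) ≤ 1) → ∀ k i : Fin 2,
      B.valuation (aeval Q (pderiv k (itF F n i))) ≤ 1) →
      (∀ (Q : Fin 2 → N), (∀ j, B.valuation (Q j) ≤ 1) → ∀ k i : Fin 2,
      B.valuation (aeval Q (pderiv k (itF F (n + 1) i))) < 1) := by
    intro n h Q hQ k i
    rw [itF_succ', Chn.pderiv_bind, map_sum]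
    refine Valuation.map_sum_lt _ one_ne_zero fun j _ => ?_
    rw [map_mul, map_mul, mul_comm, aeval_bind₁]
    refine mul_lt_one_of_lt_of_le (pderiv_lt hF B hle hlt Q hQ k j) ?_
    exact h _ (fun j => aeval_le B hle (hF.int j) Q hQ) j i
  have h0 : ∀ n : ℕ, ∀ (Q : Fin 2 → N), (∀ j, B.valuation (Q j) ≤ 1) → ∀ k i : Fin 2,
      B.valuation (aeval Q (pderiv k (itF F n i))) ≤ 1 := by
    intro n
    induction n with
    | zero =>
      intro Q _ k i
      rw [itF_zero, pderiv_X]
      by_cases h : k = i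
      · subst h
        rw [Pi.single_eq_same, map_one, map_one]
      · rw [Pi.single_eq_of_ne (fun h' => h h'.symm), map_zero, map_zero]
        exact zero_le_one
    | succ n ih => exact fun Q hQ k i => (step n ih Q hQ k i).le
  exact ⟨h0 n, step n (h0 n)⟩

/-- primitive points have primitive images -/
theorem prim (hF : HypR p s v F) (B : ValuationSubring N)
    (hle : ∀ x : K, v x ≤ 1 → B.valuation (algebraMap K N x) ≤ 1)
    (hlt : ∀ x : K, v x < 1 → B.valuation (algebraMap K N x) < 1)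
    (heq : ∀ x : K, v x = 1 → B.valuation (algebraMap K N x) = 1)
    (Q : Fin 2 → N) (hQ : ∀ j, B.valuation (Q j) ≤ 1) (j₀ : Fin 2)
    (hj₀ : B.valuation (Q j₀) = 1) : ∃ i, B.valuation (gAct F N Q i) = 1 := by
  by_contra hcon
  push Not at hcon
  have hz : ∀ i, B.valuation (aeval Q (F i)) < 1 := fun i =>
    lt_of_le_of_ne (aeval_le B hle (hF.int i) Q hQ) (hcon i)
  have hq : 0 < p ^ s := pow_pos hF.prime.pos _
  set w := B.valuation with hw
  set q := p ^ s with hqd
  set S : Fin 2 → N := fun i => ∑ j, algebraMap K N (coeff (Finsupp.single j q) (F i)) * Q j ^ q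
    with hS
  have hsing : ∀ i j : Fin 2, Finsupp.single i q = Finsupp.single j q → i = j := by
    intro i j h
    exact Finsupp.single_left_injective hq.ne' h
  have hSlt : ∀ i, w (S i) < 1 := by
    intro i
    set T : Finset (Fin 2 →₀ ℕ) := Finset.univ.image fun j : Fin 2 => Finsupp.single j q with hT
    have h1 : aeval Q (F i) = ∑ t ∈ (F i).support ∪ T,
        algebraMap K N (coeff t (F i)) * ∏ j, Q j ^ t j := by
      rw [aeval_def, eval₂_eq']
      refine Finset.sum_subset Finset.subset_union_left fun t _ ht => ?_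
      rw [notMem_support_iff.1 ht, map_zero, zero_mul]
    have h2 : S i = ∑ t ∈ T, algebraMap K N (coeff t (F i)) * ∏ j, Q j ^ t j := by
      rw [hT, Finset.sum_image fun a _ b _ h => hsing a b h]
      refine Finset.sum_congr rfl fun j _ => ?_
      congr 1
      rw [Finset.prod_eq_single j]
      · rw [Finsupp.single_eq_same]
      · intro l _ hl
        rw [Finsupp.single_eq_of_ne hl, pow_zero]
      · intro h
        exact absurd (Finset.mem_univ j) h
    have h3 : S i = aeval Q (F i) - ∑ t ∈ (F i).support \ T, algebraMap K N (coeff t (F i)) *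
        ∏ j, Q j ^ t j := by
      have h4 := Finset.sum_sdiff (s₁ := T) (s₂ := (F i).support ∪ T)
        (f := fun t => algebraMap K N (coeff t (F i)) * ∏ j, Q j ^ t j) Finset.subset_union_right
      rw [← h1, ← h2, Finset.union_sdiff_right] at h4
      rw [← h4]
      ring
    rw [h3]
    refine lt_of_le_of_lt (Valuation.map_sub w _ _) (max_lt (hz i) ?_)
    refine Valuation.map_sum_lt w one_ne_zero fun t ht => ?_
    have ht2 := (Finset.mem_sdiff.1 ht).2
    rw [map_mul]
    refine mul_lt_one_of_lt_of_le (hlt _ (hF.red i t fun j hj => ht2 ?_)) ?_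
    · rw [hj, hT]
      exact Finset.mem_image_of_mem _ (Finset.mem_univ j)
    · rw [map_prod]
      refine Finset.prod_le_one' fun j _ => ?_
      rw [map_pow]
      exact pow_le_one' (hQ j) _
  have hdet := heq _ hF.det
  rw [Matrix.det_fin_two] at hdet
  simp only [Matrix.of_apply] at hdet
  have ha : ∀ i j, w (algebraMap K N (coeff (Finsupp.single j q) (F i))) ≤ 1 := fun i j =>
    hle _ (hF.int i _)
  have hSe : ∀ i, S i = algebraMap K N (coeff (Finsupp.single 0 q) (F i)) * Q 0 ^ q +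
      algebraMap K N (coeff (Finsupp.single 1 q) (F i)) * Q 1 ^ q := fun i => by
    rw [hS]
    exact Fin.sum_univ_two _
  set d : N := algebraMap K N (coeff (Finsupp.single 0 q) (F 0) *
    coeff (Finsupp.single 1 q) (F 1) - coeff (Finsupp.single 1 q) (F 0) *
    coeff (Finsupp.single 0 q) (F 1)) with hd
  have hcomb : ∀ (a b : N), w a ≤ 1 → w b ≤ 1 → w (a * S 0 - b * S 1) < 1 := by
    intro a b h1 h2
    refine lt_of_le_of_lt (Valuation.map_sub w _ _) (max_lt ?_ ?_)
    · rw [map_mul, mul_comm]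
      exact mul_lt_one_of_lt_of_le (hSlt 0) h1
    · rw [map_mul, mul_comm]
      exact mul_lt_one_of_lt_of_le (hSlt 1) h2
  have key : ∀ j, w (d * Q j ^ q) < 1 := by
    intro j
    fin_cases j
    · have h1 : d * Q 0 ^ q = algebraMap K N (coeff (Finsupp.single 1 q) (F 1)) * S 0 -
          algebraMap K N (coeff (Finsupp.single 1 q) (F 0)) * S 1 := by
        rw [hSe, hSe, hd, map_sub, map_mul, map_mul]
        ring
      change w (d * Q 0 ^ q) < 1
      rw [h1]
      exact hcomb _ _ (ha 1 1) (ha 0 1)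
    · have h1 : d * Q 1 ^ q = -(algebraMap K N (coeff (Finsupp.single 0 q) (F 1)) * S 0 -
          algebraMap K N (coeff (Finsupp.single 0 q) (F 0)) * S 1) := by
        rw [hSe, hSe, hd, map_sub, map_mul, map_mul]
        ring
      change w (d * Q 1 ^ q) < 1
      rw [h1, Valuation.map_neg]
      exact hcomb _ _ (ha 1 0) (ha 0 0)
  have h1 := key j₀
  rw [map_mul, map_pow, hj₀, one_pow, mul_one, hdet] at h1
  exact lt_irrefl _ h1

theorem prim_iter (hF : HypR p s v F) (B : ValuationSubring N)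
    (hle : ∀ x : K, v x ≤ 1 → B.valuation (algebraMap K N x) ≤ 1)
    (hlt : ∀ x : K, v x < 1 → B.valuation (algebraMap K N x) < 1)
    (heq : ∀ x : K, v x = 1 → B.valuation (algebraMap K N x) = 1)
    (Q : Fin 2 → N) (hQ : ∀ j, B.valuation (Q j) ≤ 1)
    (hj₀ : ∃ j₀, B.valuation (Q j₀) = 1) (n : ℕ) :
    ∃ i, B.valuation ((gAct F N)^[n] Q i) = 1 := by
  have h : (∀ j, B.valuation ((gAct F N)^[n] Q j) ≤ 1) ∧
      ∃ i, B.valuation ((gAct F N)^[n] Q i) = 1 := by
    induction n with
    | zero => exact ⟨hQ, hj₀⟩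
    | succ n ih =>
      rw [Function.iterate_succ_apply']
      obtain ⟨h1, j, hj⟩ := ih
      exact ⟨fun i => aeval_le B hle (hF.int i) _ h1, prim hF B hle hlt heq _ h1 j hj⟩
  exact h.2

/-- the form whose zeros are the fixed points of the iterate -/
noncomputable def fixF (F : Fin 2 → MvPolynomial (Fin 2) K) (n : ℕ) : MvPolynomial (Fin 2) K :=
  X 1 * itF F n 0 - X 0 * itF F n 1

theorem fixF_hom (hF : ∀ i, (F i).IsHomogeneous (p ^ s)) (n : ℕ) :
    (fixF F n).IsHomogeneous (1 + (p ^ s) ^ n) :=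
  ((isHomogeneous_X K 1).mul (itF_hom hF n 0)).sub ((isHomogeneous_X K 0).mul (itF_hom hF n 1))

theorem aeval_fixF (P : Fin 2 → N) (n : ℕ) : aeval P (fixF F n) =
    P 1 * (gAct F N)^[n] P 0 - P 0 * (gAct F N)^[n] P 1 := by
  rw [fixF, map_sub, map_mul, map_mul, aeval_X, aeval_X, ← gAct_itF]
  rfl

theorem pderiv_fixF (P : Fin 2 → N) (n : ℕ) :
    aeval P (pderiv 0 (fixF F n)) = P 1 * aeval P (pderiv 0 (itF F n 0)) -
      (P 0 * aeval P (pderiv 0 (itF F n 1)) + (gAct F N)^[n] P 1) ∧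
    aeval P (pderiv 1 (fixF F n)) = (P 1 * aeval P (pderiv 1 (itF F n 0)) +
      (gAct F N)^[n] P 0) - P 0 * aeval P (pderiv 1 (itF F n 1)) := by
  have h0 : (gAct F N)^[n] P 0 = aeval P (itF F n 0) := by rw [← gAct_itF]; rfl
  have h1 : (gAct F N)^[n] P 1 = aeval P (itF F n 1) := by rw [← gAct_itF]; rfl
  rw [h0, h1]
  constructor
  · rw [fixF, map_sub, pderiv_mul, pderiv_mul, pderiv_X_self,
      pderiv_X_of_ne (show (1 : Fin 2) ≠ 0 by decide)]
    simp only [map_sub, map_add, map_mul, aeval_X, map_zero, map_one]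
    ring
  · rw [fixF, map_sub, pderiv_mul, pderiv_mul, pderiv_X_self,
      pderiv_X_of_ne (show (0 : Fin 2) ≠ 1 by decide)]
    simp only [map_sub, map_add, map_mul, aeval_X, map_zero, map_one]
    ring

/-- the gradient has no zero -/
theorem grad (hF : HypR p s v F) (n : ℕ) (P : Fin 2 → N) (hP : P ≠ 0) :
    ∃ j, aeval P (pderiv j (fixF F (n + 1))) ≠ 0 := by
  obtain ⟨B, hle, hlt, heq⟩ := M92.exists_ext v N
  obtain ⟨j₀, hj₀⟩ : ∃ j₀ : Fin 2, ∀ j, B.valuation (P j) ≤ B.valuation (P j₀) := by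
    rcases le_total (B.valuation (P 0)) (B.valuation (P 1)) with h | h
    · exact ⟨1, fun j => by fin_cases j; exacts [h, le_rfl]⟩
    · exact ⟨0, fun j => by fin_cases j; exacts [le_rfl, h]⟩
  have hc : P j₀ ≠ 0 := by
    intro h0
    refine hP (funext fun j => ?_)
    have h1 := hj₀ j
    rw [h0, map_zero] at h1
    exact (map_eq_zero B.valuation).1 (le_antisymm h1 zero_le)
  set Q : Fin 2 → N := (P j₀)⁻¹ • P with hQ
  have hQ1 : ∀ j, B.valuation (Q j) ≤ 1 := by
    intro j
    rw [hQ, Pi.smul_apply, smul_eq_mul, map_mul, map_inv₀, mul_comm, ← div_eq_mul_inv]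
    exact (div_le_one₀ (zero_lt_iff.2 ((map_ne_zero B.valuation).2 hc))).2 (hj₀ j)
  have hQ0 : Q j₀ = 1 := by
    rw [hQ, Pi.smul_apply, smul_eq_mul, inv_mul_cancel₀ hc]
  by_contra hcon
  push Not at hcon
  have hzQ : ∀ j, aeval Q (pderiv j (fixF F (n + 1))) = 0 := by
    intro j
    have h1 := (fixF_hom hF.hom (n + 1)).pderiv (i := j)
    have h2 := congrFun (gAct_smul (fun _ : Fin 2 => pderiv j (fixF F (n + 1))) (fun _ => h1)
      (P j₀)⁻¹ P) 0
    have h3 : aeval Q (pderiv j (fixF F (n + 1))) = ((P j₀)⁻¹ ^ (1 + (p ^ s) ^ (n + 1) - 1)) *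
      aeval P (pderiv j (fixF F (n + 1))) := h2
    rw [h3, hcon j, mul_zero]
  obtain ⟨g0, g1⟩ := pderiv_fixF (F := F) Q (n + 1)
  have hd := (pderiv_it hF B hle hlt n).2 Q hQ1
  have hsm : ∀ a b : N, B.valuation a ≤ 1 → B.valuation b < 1 → B.valuation (a * b) < 1 := by
    intro a b h1 h2
    rw [map_mul, mul_comm]
    exact mul_lt_one_of_lt_of_le h2 h1
  have e1 : (gAct F N)^[n + 1] Q 1 = Q 1 * aeval Q (pderiv 0 (itF F (n + 1) 0)) -
      Q 0 * aeval Q (pderiv 0 (itF F (n + 1) 1)) := by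
    rw [hzQ] at g0
    linear_combination g0
  have e0 : (gAct F N)^[n + 1] Q 0 = Q 0 * aeval Q (pderiv 1 (itF F (n + 1) 1)) -
      Q 1 * aeval Q (pderiv 1 (itF F (n + 1) 0)) := by
    rw [hzQ] at g1
    linear_combination -g1
  obtain ⟨i, hi⟩ := prim_iter hF B hle hlt heq Q hQ1 ⟨j₀, by rw [hQ0, map_one]⟩ (n + 1)
  have hlt' : ∀ i, B.valuation ((gAct F N)^[n + 1] Q i) < 1 := by
    intro i
    fin_cases i
    · change B.valuation ((gAct F N)^[n + 1] Q 0) < 1
      rw [e0]
      exact lt_of_le_of_lt (Valuation.map_sub _ _ _)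
        (max_lt (hsm _ _ (hQ1 0) (hd 1 1)) (hsm _ _ (hQ1 1) (hd 1 0)))
    · change B.valuation ((gAct F N)^[n + 1] Q 1) < 1
      rw [e1]
      exact lt_of_le_of_lt (Valuation.map_sub _ _ _)
        (max_lt (hsm _ _ (hQ1 1) (hd 0 0)) (hsm _ _ (hQ1 0) (hd 0 1)))
  have h5 := hlt' i
  rw [hi] at h5
  exact lt_irrefl _ h5

end val

/-- a form whose gradient has no zero has as many zeros as its degree -/
theorem zeros {K Ω : Type} [Field K] [Field Ω] [Algebra K Ω] [IsAlgClosed Ω] {d : ℕ}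
    {G : MvPolynomial (Fin 2) K} (hG : G.IsHomogeneous d)
    (hgr : ∀ P : Fin 2 → Ω, P ≠ 0 → ∃ j, aeval P (pderiv j G) ≠ 0) :
    ∃ Z : Finset (Option Ω), Z.card = d ∧ ∀ z ∈ Z, ∃ P : Fin 2 → Ω, P ≠ 0 ∧ pr P = z ∧
      aeval P G = 0 := by
  have hinf : Infinite Ω := IsAlgClosed.instInfinite
  set H : MvPolynomial (Fin 2) Ω := map (algebraMap K Ω) G with hH
  have hHh : H.IsHomogeneous d := hG.map _
  have hev : ∀ (P : Fin 2 → Ω) (G' : MvPolynomial (Fin 2) K),
      aeval P (map (algebraMap K Ω) G') = aeval P G' := by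
    intro P G'
    rw [aeval_map_algebraMap]
  have hH0 : H ≠ 0 := by
    intro h0
    obtain ⟨j, hj⟩ := hgr ![1, 0] (by
      intro h
      have := congrFun h 0
      simp at this)
    apply hj
    rw [← hev, ← pderiv_map, ← hH, h0, map_zero, map_zero]
  obtain ⟨V, hV⟩ : ∃ V : Fin 2 → Ω, eval V H ≠ 0 := by
    by_contra hcon
    push Not at hcon
    exact hH0 (MvPolynomial.funext fun x => by rw [hcon x, map_zero])
  have hd0 : 0 < d ∨ d = 0 := by omega
  rcases hd0 with hd | rfl
  swap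
  · refine ⟨∅, rfl, fun z hz => absurd hz (Finset.notMem_empty z)⟩
  have hVne : V ≠ 0 := by
    rintro rfl
    apply hV
    have h1 := congrFun (gAct_smul (fun _ : Fin 2 => H) (fun _ => hHh) (0 : Ω) 0) 0
    have h2 : aeval ((0 : Ω) • (0 : Fin 2 → Ω)) H = (0 : Ω) ^ d * aeval (0 : Fin 2 → Ω) H := h1
    rw [zero_pow hd.ne', zero_mul, zero_smul] at h2
    exact h2
  obtain ⟨U, hU⟩ := Ldm.exists_ind hVne
  have hUV : Ind U V := by
    intro h
    apply hU
    linear_combination -h
  set h := LDG.W U V H with hh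
  have hdeg : h.natDegree ≤ d := LDG.W_natDegree U V hHh
  have hcoe : h.coeff d = eval V H := by
    have h1 := congrArg (eval V) (LDG.hom_id U V hUV hHh)
    rw [map_mul, eval_C, map_sum, Finset.sum_eq_single d] at h1
    · simp only [map_mul, map_pow, map_neg, LDG.lf, map_sub, eval_C, eval_X, Nat.sub_self,
        pow_zero, mul_one] at h1
      have h2 : -(U 1 * V 0 - U 0 * V 1) = U 0 * V 1 - U 1 * V 0 := by ring
      rw [h2, mul_comm] at h1
      exact (mul_right_cancel₀ (pow_ne_zero d hUV) h1).symm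
    · intro i hi hid
      have hi' : i < d := lt_of_le_of_ne (Nat.lt_succ_iff.1 (Finset.mem_range.1 hi)) hid
      simp only [map_mul, map_pow, map_sub, eval_C, eval_X]
      have h2 : V 1 * V 0 - V 0 * V 1 = 0 := by ring
      rw [h2, zero_pow (by omega), mul_zero, zero_mul]
    · intro hd'
      exact absurd (Finset.mem_range.2 (Nat.lt_succ_self d)) hd'
  have hnd : h.natDegree = d :=
    le_antisymm hdeg (Polynomial.le_natDegree_of_ne_zero (by rw [hcoe]; exact hV))
  have hh0 : h ≠ 0 := by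
    intro h0
    rw [h0, Polynomial.coeff_zero] at hcoe
    exact hV hcoe.symm
  have hevW : ∀ (t : Ω) (G' : MvPolynomial (Fin 2) Ω),
      Polynomial.eval t (LDG.W U V G') = aeval (lpt U V t) G' := by
    intro t G'
    rw [← LDG.W_aeval U V G' (N := Ω) t, Polynomial.coe_aeval_eq_eval]
  have hdet : ∀ t : Ω, lpt U V t 0 * V 1 - lpt U V t 1 * V 0 ≠ 0 := by
    intro t ht
    apply hUV
    simp only [lpt, Algebra.algebraMap_self, RingHom.id_apply] at ht
    linear_combination ht
  have hlne : ∀ t : Ω, lpt U V t ≠ 0 := by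
    intro t ht
    apply hdet t
    rw [ht]
    simp
  have hroot : ∀ t : Ω, h.IsRoot t → ¬ (Polynomial.derivative h).IsRoot t := by
    intro t ht ht'
    have h1 : aeval (lpt U V t) H = 0 := by rw [← hevW]; exact ht
    have h2 : Polynomial.eval t (Polynomial.derivative h) = 0 := ht'
    rw [hh, LDG.derivative_W, Fin.sum_univ_two, Polynomial.eval_add, Polynomial.eval_mul,
      Polynomial.eval_mul, Polynomial.eval_C, Polynomial.eval_C, hevW, hevW] at h2
    have h3 := Chn.euler_two hHh (lpt U V t)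
    rw [h1, mul_zero] at h3
    have h4 : aeval (lpt U V t) (pderiv 0 H) = 0 := by
      apply mul_left_cancel₀ (hdet t)
      linear_combination V 1 * h3 - lpt U V t 1 * h2
    have h5 : aeval (lpt U V t) (pderiv 1 H) = 0 := by
      apply mul_left_cancel₀ (hdet t)
      linear_combination (-V 0) * h3 + lpt U V t 0 * h2
    obtain ⟨j, hj⟩ := hgr _ (hlne t)
    apply hj
    rw [← hev, ← pderiv_map, ← hH]
    fin_cases j
    · exact h4
    · exact h5
  have hnodup : h.roots.Nodup := by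
    rw [Multiset.nodup_iff_count_le_one]
    intro t
    rw [Polynomial.count_roots]
    by_contra hcon
    push Not at hcon
    have h1 := (Polynomial.one_lt_rootMultiplicity_iff_isRoot hh0).1 hcon
    exact hroot t h1.1 h1.2
  have hcard : h.roots.card = d := by
    rw [← hnd]
    exact (IsAlgClosed.splits h).natDegree_eq_card_roots.symm
  refine ⟨h.roots.toFinset.image fun t => pr (lpt U V t), ?_, ?_⟩
  · rw [Finset.card_image_of_injective, Multiset.toFinset_card_of_nodup hnodup, hcard]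
    intro t t' htt
    exact Ldm.lpt_inj hUV (prl_of_pr (hlne t) (hlne t') htt)
  · intro z hz
    obtain ⟨t, ht, rfl⟩ := Finset.mem_image.1 hz
    refine ⟨lpt U V t, hlne t, rfl, ?_⟩
    rw [← hev, ← hH, ← hevW]
    exact (Polynomial.mem_roots hh0).1 (Multiset.mem_toFinset.1 ht)

end P92

open P92 in
theorem perp : PerpStatement := by
  intro K _ _ p s v F hF
  have hM := mor K p s v F hF
  have hq : 2 ≤ p ^ s := by
    calc 2 ≤ p := hF.prime.two_le
      _ = p ^ 1 := (pow_one p).symm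
      _ ≤ p ^ s := Nat.pow_le_pow_right hF.prime.pos hF.pos
  intro hfin
  obtain ⟨Z, hZc, hZ⟩ := zeros (Ω := AlgebraicClosure K)
    (fixF_hom (F := F) hF.hom (hfin.toFinset.card + 1)) (fun P hP => grad hF _ P hP)
  have hsub : Z ⊆ hfin.toFinset := by
    intro z hz
    rw [Set.Finite.mem_toFinset]
    obtain ⟨P, hP, hPz, h0⟩ := hZ z hz
    refine ⟨P, hfin.toFinset.card + 1, hP, Nat.le_add_left 1 _, hPz, ?_⟩
    rw [prl_iff_det (iter_ne hM hP _) hP]
    rw [aeval_fixF] at h0
    linear_combination h0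
  have h1 := Finset.card_le_card hsub
  rw [hZc] at h1
  have h2 : hfin.toFinset.card + 1 < (p ^ s) ^ (hfin.toFinset.card + 1) :=
    Nat.lt_pow_self hq
  omega

end Pool.DynLehmer.LW
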