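import Pool.Agent.Lib.MP_2194ec_nt.GAL.R.Nlt2
import Pool.Agent.Lib.MP_2194ec_nt.GAL.R.Bif

set_option autoImplicit false

/-!
# Row PUSH: the image of a periodic curve is on a periodic curve
-/

namespace Pool.DynLehmer.LW
open MvPolynomial Pool.DynLehmer Pool.DynLehmer.GS
open scoped Classical

namespace Push24

variable {K : Type} [Field K]

/-- the bidegree of a nonzero form is unique -/
theorem bi_unique {a b c d : ℕ} {G : MvPolynomial (Fin 2 ⊕ Fin 2) K} (hG : BiHom a b G)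
    (hG' : BiHom c d G) (h0 : G ≠ 0) : a = c ∧ b = d := by
  obtain ⟨t, ht⟩ : G.support.Nonempty := by
    rw [Finset.nonempty_iff_ne_empty]
    intro h
    exact h0 (support_eq_empty.1 h)
  have h1 := hG t ht
  have h2 := hG' t ht
  exact ⟨h1.1.symm.trans h2.1, h1.2.symm.trans h2.2⟩

/-- a form with both degrees positive does not vanish at some pair of points -/
theorem exists_nz {a b : ℕ} {G : MvPolynomial (Fin 2 ⊕ Fin 2) K} (hG : BiHom a b G)
    (ha : 1 ≤ a) (hb : 1 ≤ b) (h0 : G ≠ 0) :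
    ∃ P P' : Fin 2 → AlgebraicClosure K, P ≠ 0 ∧ P' ≠ 0 ∧ GS.ev P P' G ≠ 0 := by
  by_contra hcon
  push Not at hcon
  have h1 : ∀ x : Fin 2 ⊕ Fin 2 → AlgebraicClosure K,
      eval x (map (algebraMap K (AlgebraicClosure K)) G) = 0 := by
    intro x
    have h2 : eval x (map (algebraMap K (AlgebraicClosure K)) G) =
        GS.ev (fun i => x (Sum.inl i)) (fun i => x (Sum.inr i)) G := by
      rw [eval_map]
      unfold GS.ev
      rw [aeval_def]
      congr 1
      funext i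
      rcases i with i | i <;> rfl
    rw [h2]
    by_cases hP : (fun i => x (Sum.inl i)) = 0
    · have h3 := Bas.ev_smul hG (0 : AlgebraicClosure K) 1 0 (fun i => x (Sum.inr i))
      rw [zero_smul, one_smul, zero_pow (by omega), zero_mul, zero_mul] at h3
      rw [hP]
      exact h3
    · by_cases hP' : (fun i => x (Sum.inr i)) = 0
      · have h3 := Bas.ev_smul hG (1 : AlgebraicClosure K) 0 (fun i => x (Sum.inl i)) 0
        rw [zero_smul, one_smul, zero_pow (show b ≠ 0 by omega), mul_zero, zero_mul] at h3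
        rw [hP']
        exact h3
      · exact hcon _ _ hP hP'
  have : Infinite (AlgebraicClosure K) := IsAlgClosed.instInfinite
  have h2 : map (algebraMap K (AlgebraicClosure K)) G = 0 := by
    apply MvPolynomial.funext
    intro x
    rw [h1 x, map_zero]
  exact h0 (map_injective _ (algebraMap K (AlgebraicClosure K)).injective (by rw [h2, map_zero]))

/-- the pull-back of a form is not zero -/
theorem it_ne {q : ℕ} {F : Fin 2 → MvPolynomial (Fin 2) K} (hq : 1 ≤ q) (hF : Mor q F)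
    {a b : ℕ} {G : MvPolynomial (Fin 2 ⊕ Fin 2) K} (hG : BiHom a b G)
    (ha : 1 ≤ a) (hb : 1 ≤ b) (h0 : G ≠ 0) (n : ℕ) : (bind₁ (dbl F))^[n] G ≠ 0 := by
  obtain ⟨P, P', hP, hP', h⟩ := exists_nz hG ha hb h0
  obtain ⟨Q, -, hQ⟩ := N19.pre_exists_iter hq hF hP n
  obtain ⟨Q', -, hQ'⟩ := N19.pre_exists_iter hq hF hP' n
  intro h1
  have h2 := Bas.ev_iter (F := F) Q Q' G n
  rw [h1] at h2
  have h3 : GS.ev ((gAct F (AlgebraicClosure K))^[n] Q) ((gAct F (AlgebraicClosure K))^[n] Q') G = 0 := by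
    rw [← h2]
    unfold GS.ev
    exact map_zero _
  exact h ((Bas.ev_prl hG hQ hQ').1 h3)

/-- a periodic form divides the pull-back of a periodic form -/
theorem push_form {q : ℕ} {F : Fin 2 → MvPolynomial (Fin 2) K} (hq : 1 ≤ q) (hF : Mor q F)
    {e : ℕ} {G : MvPolynomial (Fin 2 ⊕ Fin 2) K} (hG : PerForm F e G) :
    ∃ (e' : ℕ) (G' : MvPolynomial (Fin 2 ⊕ Fin 2) K), PerForm F e' G' ∧
      G ∣ bind₁ (dbl F) G' := by
  obtain ⟨d₁, d₂, h1, h1', h2, h2', hb⟩ := hG.hom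
  obtain ⟨k, hk, hd⟩ := hG.per
  have hp : Prime G := hG.irr.prime
  have hG0 : G ≠ 0 := hp.ne_zero
  set H := (bind₁ (dbl F))^[k - 1] G with hH
  have hH0 : H ≠ 0 := it_ne hq hF hb h1 h2 hG0 (k - 1)
  have hkH : bind₁ (dbl F) H = (bind₁ (dbl F))^[k] G := by
    rw [hH, ← Function.iterate_succ_apply' (bind₁ (dbl F))]
    congr 2
    omega
  have hdH : G ∣ bind₁ (dbl F) H := by
    rw [hkH]
    exact hd
  have hk0 : bind₁ (dbl F) H ≠ 0 := by
    rw [hkH]
    exact it_ne hq hF hb h1 h2 hG0 k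
  -- an irreducible factor
  obtain ⟨G', hG', hGG'⟩ : ∃ G' ∈ UniqueFactorizationMonoid.factors H, G ∣ bind₁ (dbl F) G' := by
    have h3 : G ∣ bind₁ (dbl F) (UniqueFactorizationMonoid.factors H).prod :=
      hdH.trans (map_dvd (bind₁ (dbl F)) (UniqueFactorizationMonoid.factors_prod hH0).symm.dvd)
    rw [map_multiset_prod] at h3
    exact hp.exists_mem_multiset_map_dvd h3
  have hirr : Irreducible G' := UniqueFactorizationMonoid.irreducible_of_factor G' hG'
  have hG'H : G' ∣ H := UniqueFactorizationMonoid.dvd_of_mem_factors hG'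
  obtain ⟨c, d, -, -, hcd⟩ := GS.BiHom.of_dvd (Bif.bihom_it hF.hom hb (k - 1)) hH0 hG'H
  have hΦ0 : bind₁ (dbl F) G' ≠ 0 := by
    intro h0
    obtain ⟨u, hu⟩ := hG'H
    apply hk0
    rw [hu, map_mul, h0, zero_mul]
  have hΦb := Bif.bihom_bind hF.hom hcd
  obtain ⟨a, b, ha, hb', hab⟩ := GS.BiHom.of_dvd hΦb hΦ0 hGG'
  obtain ⟨e1, e2⟩ := bi_unique hb hab hG0
  have hc : 1 ≤ c := by
    rcases Nat.eq_zero_or_pos c with h | h
    · rw [h, mul_zero] at ha
      omega
    · exact h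
  have hd' : 1 ≤ d := by
    rcases Nat.eq_zero_or_pos d with h | h
    · rw [h, mul_zero] at hb'
      omega
    · exact h
  refine ⟨max c d, G', ⟨hirr, ⟨c, d, hc, le_max_left _ _, hd', le_max_right _ _, hcd⟩, k, hk, ?_⟩,
    hGG'⟩
  have h4 := Bas.bind_iter_dvd (F := F) hGG' (k - 1)
  have h5 : (bind₁ (dbl F))^[k - 1] (bind₁ (dbl F) G') = (bind₁ (dbl F))^[k] G' := by
    rw [← Function.iterate_succ_apply (bind₁ (dbl F))]
    congr 2
    omega
  rw [h5] at h4
  exact hG'H.trans h4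

theorem push (q : ℕ) (F : Fin 2 → MvPolynomial (Fin 2) K) (hq : 1 ≤ q) (hF : Mor q F)
    (e : ℕ) (G : MvPolynomial (Fin 2 ⊕ Fin 2) K) (hG : PerForm F e G) :
    ∃ (e' : ℕ) (G' : MvPolynomial (Fin 2 ⊕ Fin 2) K), PerForm F e' G' ∧
      ∀ (N : Type) [Field N] [Algebra K N] (P P' : Fin 2 → N), GS.ev P P' G = 0 →
        GS.ev (gAct F N P) (gAct F N P') G' = 0 := by
  obtain ⟨e', G', h1, u, hu⟩ := push_form hq hF hG
  refine ⟨e', G', h1, fun N _ _ P P' h => ?_⟩
  have h2 : GS.ev P P' (G * u) = GS.ev P P' G * GS.ev P P' u := by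
    unfold GS.ev
    exact map_mul _ _ _
  rw [← Bas.ev_bind, hu, h2, h, zero_mul]

end Push24

end Pool.DynLehmer.LW
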