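import Pool.Agent.Lib.MP_2194ec_nt.LW.Defs2
import Pool.Agent.Lib.MP_2194ec_nt.LW.PushA

set_option autoImplicit false

/-!
# Row PUSH
-/

namespace Pool.DynLehmer.LW

theorem push : PushStatement :=
  fun _ _ q F hq hF e G hG => Push24.push q F hq hF e G hG

end Pool.DynLehmer.LW
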