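import Pool.Agent.Lib.MP_2194ec_nt.LW.Defs
import Pool.Agent.Lib.MP_2194ec_nt.LP.Ramj

set_option autoImplicit false

/-!
# Inertia orbits of a tuple of points and ramification
-/

namespace Pool.DynLehmer.LW
open MvPolynomial NumberField Pool.DynLehmer Pool.DynLehmer.LP
open scoped Classical

open LP.RamjAux LP.HomcAux in
/-- **RAMK** -/
theorem ramk : RamkStatement := by
  intro K _ _ N _ _ _ _ v w e h u hunif L _ _ _ k y hy hadj φ X E hX hE a ha
  have hfd : FiniteDimensional K N := Module.Finite.of_restrictScalars_finite ℚ K N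
  have hid : ∀ (u : FinitePlace K) (e₁ : ℕ), Above v u e₁ →
      ¬ (v.maximalIdeal.asIdeal.map (algebraMap (𝓞 K) (𝓞 K)) ≤
        u.maximalIdeal.asIdeal ^ (1 + 1)) := by
    intro u e₁ hu hle
    have h1 : u.maximalIdeal.asIdeal = v.maximalIdeal.asIdeal := by
      rw [← above_under hu]
      rfl
    rw [h1, Algebra.algebraMap_self, Ideal.map_id] at hle
    have hpr := v.maximalIdeal.isPrime
    have h2 := Ideal.pow_succ_lt_pow v.maximalIdeal.ne_bot 1
    rw [pow_one] at h2
    exact absurd (hle.trans_lt h2) (lt_irrefl _)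
  have hJ2 := (inert_data (M := K) h hunif (fun u e₁ _ hu _ => hid u e₁ hu)).1
  set P : Fin k → Pt N := fun i => nz fun j => φ (y i j) with hP
  set H := ⨅ i, MulAction.stabilizer (N ≃ₐ[K] N) (P i) with hH
  have hJ2' : ∀ a, (∀ g ∈ inert K w, g a = a) → w a < 1 →
      (w a) ^ 1 ≤ w (algebraMap K N u) := fun a ha hwa => hJ2 a (fun g hg => ha g hg.2) hwa
  -- the ratio of the coordinates is fixed
  have hratio : ∀ (z : Fin 2 → L), z ≠ 0 → ∀ g : N ≃ₐ[K] N,
      g • (nz fun i => φ (z i)) = (nz fun i => φ (z i)) → g (φ (z 0 / z 1)) = φ (z 0 / z 1) := by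
    intro z hz g hg
    rw [gal_nz g (emb_ne φ hz)] at hg
    have hgne : (fun i => g (φ (z i))) ≠ 0 := by
      intro h0
      apply emb_ne φ hz
      funext i
      have := congrFun h0 i
      simpa using this
    obtain ⟨c, hc, h1⟩ := (nz_eq_iff hgne (emb_ne φ hz)).1 hg
    have h2 := congrFun h1 0
    have h3 := congrFun h1 1
    simp only [Pi.smul_apply, smul_eq_mul] at h2 h3
    rw [map_div₀, map_div₀, h2, h3, mul_div_mul_left _ _ hc]
  -- the stabilizer of the tuple fixes the field
  have hgen : ∀ g : N ≃ₐ[K] N, (∀ i, g • P i = P i) → g (φ a) = φ a := by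
    intro g hg
    have h1 : (a : L) ∈ IntermediateField.adjoin K (Set.range fun i => y i 0 / y i 1) := by
      rw [hadj]; trivial
    have h2 : IntermediateField.adjoin K (Set.range fun i => y i 0 / y i 1) ≤
        (AlgHom.equalizer ((g : N →ₐ[K] N).comp φ) φ).toIntermediateField (by
          intro x hx
          rw [AlgHom.mem_equalizer] at hx ⊢
          rw [map_inv₀, map_inv₀, hx]) := by
      rw [IntermediateField.adjoin_le_iff]
      rintro _ ⟨i, rfl⟩
      exact hratio (y i) (hy i) g (hg i)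
    exact h2 h1
  have h1 := orbit_bound (J := inert K w) (fun g hg => hg.1) hJ2' H (a := φ a) (by
    rintro g ⟨_, hg⟩
    refine hgen g fun i => ?_
    have h3 := (Subgroup.mem_iInf.1 hg) i
    exact MulAction.mem_stabilizer_iff.1 h3) ha
  rw [mul_one] at h1
  refine le_trans (pow_le_pow_of_le_one (apply_nonneg w _) ha.le ?_) h1
  refine le_trans (Subgroup.relIndex_iInf_le _) (le_trans (Finset.prod_le_prod'  fun i _ => ?_) hE)
  exact (relIndex_le w (P i)).trans (hX i)

end Pool.DynLehmer.LW
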