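import Pool.Agent.Lib.MP_2194ec_nt.LW.Defs
import Pool.Agent.Lib.MP_2194ec_nt.GAL.R.Seg

set_option autoImplicit false

/-!
# The product `F × ... × F` on the Segre variety extends to the projective space
-/

namespace Pool.DynLehmer.LW
open MvPolynomial NumberField Filter Topology Pool.DynLehmer Pool.DynLehmer.SB Pool.DynLehmer.SP
  Pool.DynLehmer.GS Pool.DynLehmer.LP
open scoped Classical

namespace SegkAux

/-- the `l`-th letter of the word of `a` -/
def wd {q k : ℕ} (a : Fin k → Fin (q + 1)) (l : Fin q) : Fin k → Fin 2 :=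
  fun i => if (l : ℕ) < a i then 0 else 1

/-- the exponent of `a` -/
noncomputable def nk {q k : ℕ} (a : Fin k → Fin (q + 1)) : (Fin k → Fin 2) →₀ ℕ :=
  ∑ l : Fin q, Finsupp.single (wd a l) 1

theorem card_lt {q : ℕ} (a : Fin (q + 1)) :
    (Finset.univ.filter fun l : Fin q => (l : ℕ) < a).card = a := by
  have h := a.2
  have h1 : (Finset.univ.filter fun l : Fin q => (l : ℕ) < a).map Fin.valEmbedding =
      Finset.range a := by
    ext x
    simp only [Finset.mem_map, Finset.mem_filter, Finset.mem_univ, true_and, Finset.mem_range]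
    constructor
    · rintro ⟨y, hy, rfl⟩
      exact hy
    · intro hx
      exact ⟨⟨x, by omega⟩, hx, rfl⟩
  rw [← Finset.card_map Fin.valEmbedding, h1, Finset.card_range]

theorem cnt_nk {q k : ℕ} (a : Fin k → Fin (q + 1)) (i : Fin k) :
    ∑ J : Fin k → Fin 2, (if J i = 0 then nk a J else 0) = a i := by
  unfold nk
  simp only [Finsupp.finsetSum_apply, Finsupp.single_apply]
  have h1 : ∀ J : Fin k → Fin 2, (if J i = 0 then ∑ l : Fin q, (if wd a l = J then 1 else 0)
      else 0) = ∑ l : Fin q, (if wd a l = J then (if wd a l i = 0 then 1 else 0) else 0) := by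
    intro J
    by_cases hJ : J i = 0
    · rw [if_pos hJ]
      refine Finset.sum_congr rfl fun l _ => ?_
      by_cases h : wd a l = J
      · rw [if_pos h, if_pos h, h, if_pos hJ]
      · rw [if_neg h, if_neg h]
    · rw [if_neg hJ]
      symm
      refine Finset.sum_eq_zero fun l _ => ?_
      by_cases h : wd a l = J
      · rw [if_pos h, h, if_neg hJ]
      · rw [if_neg h]
  rw [Finset.sum_congr rfl fun J _ => h1 J, Finset.sum_comm]
  have h2 : ∀ l : Fin q, ∑ J : Fin k → Fin 2,
      (if wd a l = J then (if wd a l i = 0 then 1 else 0) else 0) =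
        if (l : ℕ) < a i then 1 else 0 := by
    intro l
    rw [Finset.sum_ite_eq Finset.univ (wd a l), if_pos (Finset.mem_univ _)]
    unfold wd
    by_cases h : (l : ℕ) < a i
    · rw [if_pos h, if_pos h, if_pos rfl]
    · rw [if_neg h, if_neg h, if_neg (by decide)]
  rw [Finset.sum_congr rfl fun l _ => h2 l, ← Finset.card_filter, card_lt]

theorem nk_inj {q k : ℕ} {a b : Fin k → Fin (q + 1)} (h : nk a = nk b) : a = b := by
  funext i
  apply Fin.ext
  rw [← cnt_nk a i, ← cnt_nk b i, h]

theorem nk_deg {q k : ℕ} (a : Fin k → Fin (q + 1)) : ∑ J, nk a J = q := by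
  unfold nk
  simp only [Finsupp.finsetSum_apply, Finsupp.single_apply]
  rw [Finset.sum_comm]
  simp

theorem nk_pure {q k : ℕ} (a : Fin k → Fin (q + 1)) (J : Fin k → Fin 2)
    (h : ∀ i, (a i : ℕ) = if J i = 0 then q else 0) : nk a = Finsupp.single J q := by
  have h1 : ∀ l : Fin q, wd a l = J := by
    intro l
    funext i
    unfold wd
    rw [h i]
    have hl := l.2
    by_cases hJ : J i = 0
    · rw [if_pos hJ, if_pos hl, hJ]
    · rw [if_neg hJ, if_neg (Nat.not_lt_zero _)]
      have := (J i).2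
      have h3 : (J i : ℕ) ≠ 0 := fun h4 => hJ (Fin.ext h4)
      apply Fin.ext
      change 1 = (J i : ℕ)
      omega
  unfold nk
  rw [Finset.sum_congr rfl fun l _ => by rw [h1 l]]
  rw [Finset.sum_const, Finset.card_univ, Fintype.card_fin, Finsupp.smul_single, smul_eq_mul,
    mul_one]

section

variable {K : Type} [Field K]

/-- the extension of `F × ... × F` -/
noncomputable def Fzk (q k : ℕ) (F : Fin 2 → MvPolynomial (Fin 2) K) (I : Fin k → Fin 2) :
    MvPolynomial (Fin k → Fin 2) K :=
  ∑ a : Fin k → Fin (q + 1), monomial (nk a) (∏ i, coeff (GS.ex q (a i)) (F (I i)))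

theorem coeff_Fzk_nk (q k : ℕ) (F : Fin 2 → MvPolynomial (Fin 2) K) (I : Fin k → Fin 2)
    (a : Fin k → Fin (q + 1)) :
    coeff (nk a) (Fzk q k F I) = ∏ i, coeff (GS.ex q (a i)) (F (I i)) := by
  unfold Fzk
  rw [coeff_sum, Finset.sum_eq_single a]
  · rw [coeff_monomial, if_pos rfl]
  · intro b _ hb
    rw [coeff_monomial, if_neg fun h => hb (nk_inj h)]
  · intro h
    exact absurd (Finset.mem_univ _) h

theorem coeff_Fzk_ne (q k : ℕ) (F : Fin 2 → MvPolynomial (Fin 2) K) (I : Fin k → Fin 2)
    {t : (Fin k → Fin 2) →₀ ℕ} (h : coeff t (Fzk q k F I) ≠ 0) :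
    ∃ a : Fin k → Fin (q + 1), t = nk a := by
  by_contra hc
  push Not at hc
  apply h
  unfold Fzk
  rw [coeff_sum]
  refine Finset.sum_eq_zero fun a _ => ?_
  rw [coeff_monomial, if_neg fun h' => hc a h'.symm]

theorem Fzk_hom (q k : ℕ) (F : Fin 2 → MvPolynomial (Fin 2) K) (I : Fin k → Fin 2) :
    (Fzk q k F I).IsHomogeneous q := by
  intro t ht
  obtain ⟨a, rfl⟩ := coeff_Fzk_ne q k F I ht
  rw [Finsupp.weight_apply, Finsupp.sum_fintype _ _ (by simp)]
  simp only [Pi.one_apply, smul_eq_mul, mul_one]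
  exact nk_deg a

theorem mono_sum {σ ι : Type} (s : Finset ι) (w : ι → σ) (c : K) :
    (monomial (∑ l ∈ s, Finsupp.single (w l) 1) c : MvPolynomial σ K) =
      C c * ∏ l ∈ s, X (w l) := by
  induction s using Finset.induction_on with
  | empty => simp
  | insert a s ha ih =>
    rw [Finset.sum_insert ha, Finset.prod_insert ha, add_comm, monomial_add_single, pow_one, ih]
    ring

/-- monomials in the Segre coordinates -/
theorem bind_nk {q k : ℕ} (a : Fin k → Fin (q + 1)) (c : K) :
    bind₁ (segX K k) (monomial (nk a) c) =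
      C c * ∏ i : Fin k, (X (i, 0) ^ (a i : ℕ) * X (i, 1) ^ (q - (a i : ℕ)) :
        MvPolynomial (Fin k × Fin 2) K) := by
  unfold nk
  rw [mono_sum, map_mul, map_prod, bind₁_C_right]
  congr 1
  simp only [bind₁_X_right]
  unfold segX
  rw [Finset.prod_comm]
  refine Finset.prod_congr rfl fun i _ => ?_
  have h1 : ∀ l : Fin q, (X (i, wd a l i) : MvPolynomial (Fin k × Fin 2) K) =
      if (l : ℕ) < a i then X (i, 0) else X (i, 1) := by
    intro l
    unfold wd
    by_cases h : (l : ℕ) < a i
    · rw [if_pos h, if_pos h]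
    · rw [if_neg h, if_neg h]
  rw [Finset.prod_congr rfl fun l _ => h1 l, Finset.prod_ite, Finset.prod_const,
    Finset.prod_const, card_lt]
  congr 2
  have h2 := Finset.card_filter_add_card_filter_not (s := (Finset.univ : Finset (Fin q)))
    (fun l : Fin q => (l : ℕ) < a i)
  rw [card_lt, Finset.card_univ, Fintype.card_fin] at h2
  omega

theorem rename_form {q k : ℕ} {f : MvPolynomial (Fin 2) K} (hf : f.IsHomogeneous q) (i : Fin k) :
    rename (fun j => (i, j)) f = ∑ a : Fin (q + 1), C (coeff (GS.ex q a) f) *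
      (X (i, 0) ^ (a : ℕ) * X (i, 1) ^ (q - (a : ℕ)) : MvPolynomial (Fin k × Fin 2) K) := by
  conv_lhs => rw [form_eq hf]
  rw [map_sum, Finset.sum_range]
  refine Finset.sum_congr rfl fun a _ => ?_
  rw [monomial_eq, map_mul, rename_C, Finsupp.prod_fintype _ _ (by simp), Fin.prod_univ_two,
    GS.ex_zero, GS.ex_one, map_mul, map_pow, map_pow, rename_X, rename_X]

theorem bind_Fzk {q k : ℕ} {F : Fin 2 → MvPolynomial (Fin 2) K}
    (hF : ∀ i, (F i).IsHomogeneous q) (I : Fin k → Fin 2) :
    bind₁ (segX K k) (Fzk q k F I) = bind₁ (FX F k) (segX K k I) := by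
  have h1 : bind₁ (FX F k) (segX K k I) = ∏ i : Fin k, rename (fun j => (i, j)) (F (I i)) := by
    unfold segX
    rw [map_prod]
    refine Finset.prod_congr rfl fun i _ => ?_
    rw [bind₁_X_right]
    rfl
  rw [h1, Finset.prod_congr rfl fun i _ => rename_form (hF (I i)) i, Finset.prod_univ_sum,
    Fintype.piFinset_univ]
  unfold Fzk
  rw [map_sum]
  refine Finset.sum_congr rfl fun a _ => ?_
  rw [bind_nk, map_prod, ← Finset.prod_mul_distrib]

theorem act_Fzk {q k : ℕ} {F : Fin 2 → MvPolynomial (Fin 2) K}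
    (hF : ∀ i, (F i).IsHomogeneous q) (N : Type) [Field N] [Algebra K N]
    (y : Fin k → Fin 2 → N) :
    gAct (Fzk q k F) N (segk y) = segk (fun i => gAct F N (y i)) := by
  funext I
  have h1 := congrArg (aeval fun a : Fin k × Fin 2 => y a.1 a.2) (bind_Fzk hF I)
  rw [aeval_bind₁, aeval_bind₁] at h1
  have h2 : (fun J : Fin k → Fin 2 => aeval (fun a : Fin k × Fin 2 => y a.1 a.2)
      (segX K k J)) = segk y := by
    funext J
    unfold segX segk
    rw [map_prod]
    refine Finset.prod_congr rfl fun i _ => ?_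
    rw [aeval_X]
  rw [h2] at h1
  change aeval (segk y) (Fzk q k F I) = _
  rw [h1]
  unfold segX segk
  rw [map_prod]
  refine Finset.prod_congr rfl fun i _ => ?_
  rw [aeval_X]
  unfold FX
  rw [aeval_rename]
  rfl

end

/-! ## The determinant -/

theorem v_det_le {K : Type} [Field K] [NumberField K] (v : FinitePlace K) {n : Type} [Fintype n]
    [DecidableEq n] (M : Matrix n n K) (h : ∀ i j, v (M i j) ≤ 1) : v M.det ≤ 1 := by
  set M' : Matrix n n (OW v) := Matrix.of fun i j => ⟨M i j, h i j⟩ with hM'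
  have h1 : M = M'.map (OW v).subtype := by
    ext i j
    rfl
  have h2 : M.det = (OW v).subtype M'.det := by
    rw [h1, ← RingHom.mapMatrix_apply, ← RingHom.map_det]
  rw [h2]
  exact M'.det.2

/-- the `k`-fold Kronecker power -/
def kp {R : Type} [CommSemiring R] (k : ℕ) (M : Matrix (Fin 2) (Fin 2) R) :
    Matrix (Fin k → Fin 2) (Fin k → Fin 2) R := fun I J => ∏ i, M (I i) (J i)

theorem kp_mul {R : Type} [CommRing R] (k : ℕ) (M M' : Matrix (Fin 2) (Fin 2) R)
    (h : M * M' = 1) : kp k M * kp k M' = 1 := by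
  ext I L
  rw [Matrix.mul_apply]
  unfold kp
  have h1 : ∑ J : Fin k → Fin 2, (∏ i, M (I i) (J i)) * (∏ i, M' (J i) (L i)) =
      ∏ i, ∑ j, M (I i) j * M' j (L i) := by
    rw [Finset.prod_univ_sum, Fintype.piFinset_univ]
    refine Finset.sum_congr rfl fun J _ => ?_
    rw [Finset.prod_mul_distrib]
  rw [h1]
  have h2 : ∀ i, ∑ j, M (I i) j * M' j (L i) = if I i = L i then 1 else 0 := by
    intro i
    rw [← Matrix.mul_apply, h, Matrix.one_apply]
  rw [Finset.prod_congr rfl fun i _ => h2 i, Matrix.one_apply]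
  by_cases hIL : I = L
  · rw [if_pos hIL]
    refine Finset.prod_eq_one fun i _ => ?_
    rw [hIL, if_pos rfl]
  · rw [if_neg hIL]
    obtain ⟨i, hi⟩ := Function.ne_iff.1 hIL
    exact Finset.prod_eq_zero (Finset.mem_univ i) (if_neg hi)

theorem v_prod_le {K : Type} [Field K] [NumberField K] (v : FinitePlace K) {n : Type}
    (s : Finset n) (f : n → K) (h : ∀ i ∈ s, v (f i) ≤ 1) : v (∏ i ∈ s, f i) ≤ 1 := by
  rw [map_prod]
  exact Finset.prod_le_one (fun i _ => apply_nonneg v _) h

theorem v_det_kp {K : Type} [Field K] [NumberField K] (v : FinitePlace K) (k : ℕ)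
    (M : Matrix (Fin 2) (Fin 2) K) (h : ∀ i j, v (M i j) ≤ 1) (hdet : v M.det = 1) :
    v (kp k M).det = 1 := by
  have hdet0 : M.det ≠ 0 := by
    intro h0
    rw [h0, map_zero] at hdet
    exact zero_ne_one hdet
  have hM' : M * M⁻¹ = 1 := Matrix.mul_nonsing_inv M (isUnit_iff_ne_zero.2 hdet0)
  have hadj : ∀ i j, v (M.adjugate i j) ≤ 1 := by
    intro i j
    rw [Matrix.adjugate_apply]
    refine v_det_le v _ fun a b => ?_
    rw [Matrix.updateRow_apply]
    split_ifs
    · rw [Pi.single_apply]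
      split_ifs
      · rw [map_one]
      · rw [map_zero]; exact zero_le_one
    · exact h a b
  have hinv : ∀ i j, v (M⁻¹ i j) ≤ 1 := by
    intro i j
    rw [Matrix.inv_def, Matrix.smul_apply, smul_eq_mul, map_mul, Ring.inverse_eq_inv', map_inv₀,
      hdet, inv_one, one_mul]
    exact hadj i j
  have h1 : v (kp k M).det ≤ 1 := v_det_le v _ fun I J => v_prod_le v _ _ fun i _ => h _ _
  have h2 : v (kp k M⁻¹).det ≤ 1 := v_det_le v _ fun I J => v_prod_le v _ _ fun i _ => hinv _ _
  have h3 : v (kp k M).det * v (kp k M⁻¹).det = 1 := by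
    rw [← map_mul, ← Matrix.det_mul, kp_mul k _ _ hM', Matrix.det_one, map_one]
  have h4 : 0 ≤ v (kp k M).det := apply_nonneg v _
  nlinarith [apply_nonneg v (kp k M⁻¹).det]

end SegkAux

open SegkAux

theorem segk_ext : SegkStatement := by
  intro K _ _ p s v F h k hk
  set q := p ^ s with hq
  have hint : ∀ i t, v (coeff t (F i)) ≤ 1 := h.int
  have hq1 : 1 ≤ q := Nat.one_le_iff_ne_zero.2 (pow_ne_zero _ h.prime.ne_zero)
  refine ⟨Fzk q k F, Fzk_hom q k F, ?_, ?_, ?_, bind_Fzk h.hom, fun N _ _ y => act_Fzk h.hom N y⟩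
  · intro I t
    by_cases h0 : coeff t (Fzk q k F I) = 0
    · rw [h0, map_zero]
      exact zero_le_one
    · obtain ⟨a, rfl⟩ := coeff_Fzk_ne q k F I h0
      rw [coeff_Fzk_nk]
      exact v_prod_le v _ _ fun i _ => hint _ _
  · intro I t ht
    by_cases h0 : coeff t (Fzk q k F I) = 0
    · rw [h0, map_zero]
      exact zero_lt_one
    · obtain ⟨a, rfl⟩ := coeff_Fzk_ne q k F I h0
      rw [coeff_Fzk_nk]
      have key : ∀ c : ℕ, (∀ j : Fin 2, c ≠ if j = 0 then q else 0) → ∀ i',
          v (coeff (GS.ex q c) (F i')) < 1 := by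
        intro c hc i'
        refine h.red i' _ fun j hj => hc j ?_
        rw [← hq, ← GS.ex_pure] at hj
        have := DFunLike.congr_fun hj 0
        rwa [GS.ex_zero, GS.ex_zero] at this
      by_cases h1 : ∀ i, ∃ j : Fin 2, (a i : ℕ) = if j = 0 then q else 0
      · exfalso
        choose J hJ using h1
        exact ht J (nk_pure a J hJ)
      · push Not at h1
        obtain ⟨i0, hi0⟩ := h1
        rw [← Finset.mul_prod_erase _ _ (Finset.mem_univ i0), map_mul]
        calc v (coeff (GS.ex q (a i0)) (F (I i0))) *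
              v (∏ i ∈ Finset.univ.erase i0, coeff (GS.ex q (a i)) (F (I i)))
            ≤ v (coeff (GS.ex q (a i0)) (F (I i0))) * 1 :=
              mul_le_mul_of_nonneg_left (v_prod_le v _ _ fun i _ => hint _ _)
                (apply_nonneg v _)
          _ < 1 := by rw [mul_one]; exact key _ hi0 _
  · have e1 : (Matrix.of fun I J : Fin k → Fin 2 =>
        coeff (Finsupp.single J q) (Fzk q k F I)) =
        kp k (Matrix.of fun i j : Fin 2 => coeff (Finsupp.single j q) (F i)) := by
      ext I J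
      change coeff (Finsupp.single J q) (Fzk q k F I) =
        ∏ i, coeff (Finsupp.single (J i) q) (F (I i))
      set a : Fin k → Fin (q + 1) := fun i =>
        if J i = 0 then ⟨q, by omega⟩ else ⟨0, by omega⟩ with ha
      have ha' : ∀ i, (a i : ℕ) = if J i = 0 then q else 0 := by
        intro i
        rw [ha]
        dsimp only
        split_ifs <;> rfl
      rw [← nk_pure a J ha', coeff_Fzk_nk]
      refine Finset.prod_congr rfl fun i _ => ?_
      rw [ha' i, GS.ex_pure]
    rw [e1]
    exact v_det_kp v k _ (fun i j => hint _ _) h.det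

theorem segk' : SegkStatement := segk_ext

end Pool.DynLehmer.LW
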