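import Pool.Agent.Lib.MP_2194ec_nt.LW.Defs

set_option autoImplicit false

/-!
# Row SEGT: the Segre embedding of a product of projective lines: heights, forms that vanish at
a point, proportional tuples
-/

namespace Pool.DynLehmer.LW
open MvPolynomial NumberField Filter Topology Pool.DynLehmer Pool.DynLehmer.SB Pool.DynLehmer.SP
  Pool.DynLehmer.GS Pool.DynLehmer.LP
open scoped Classical

namespace SegtAux

/-- heights -/
theorem height (N : Type) [Field N] [NumberField N] (k : ℕ) (y : Fin k → Fin 2 → N) :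
    Height.logHeight (segk y) ≤ ∑ i, Height.logHeight (y i) := by
  by_cases h : ∀ i, y i ≠ 0
  · exact (Height.logHeight_fun_prod_eq h).le
  · push Not at h
    obtain ⟨i, hi⟩ := h
    have e : segk y = 0 := by
      funext I
      exact Finset.prod_eq_zero (Finset.mem_univ i) (by rw [hi]; rfl)
    rw [e, Height.logHeight_zero]
    exact Finset.sum_nonneg fun i _ => Height.logHeight_nonneg _

/-- proportional tuples -/
theorem prl (N : Type) [Field N] (k : ℕ) (y z : Fin k → Fin 2 → N) (hy : ∀ i, y i ≠ 0)
    (_hz : ∀ i, z i ≠ 0) (h : Prl (segk y) (segk z)) (i : Fin k) : Prl (y i) (z i) := by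
  obtain ⟨c, hc, h⟩ := h
  have hJ : ∀ i, ∃ j, y i j ≠ 0 := by
    intro i
    by_contra hcon
    push Not at hcon
    exact hy i (funext hcon)
  choose J hJ using hJ
  have hval : ∀ a : Fin 2, y i a * ∏ j ∈ Finset.univ.erase i, y j (J j) =
      c * (z i a * ∏ j ∈ Finset.univ.erase i, z j (J j)) := by
    intro a
    have h1 := congrFun h (Function.update J i a)
    have h2 : ∀ x : Fin k → Fin 2 → N, segk x (Function.update J i a) =
        x i a * ∏ j ∈ Finset.univ.erase i, x j (J j) := by
      intro x
      show ∏ j, x j (Function.update J i a j) = _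
      rw [← Finset.mul_prod_erase _ _ (Finset.mem_univ i), Function.update_self]
      congr 1
      refine Finset.prod_congr rfl fun j hj => ?_
      rw [Function.update_of_ne (Finset.ne_of_mem_erase hj)]
    rw [Pi.smul_apply, smul_eq_mul, h2, h2] at h1
    exact h1
  have hY : ∏ j ∈ Finset.univ.erase i, y j (J j) ≠ 0 := Finset.prod_ne_zero_iff.2 fun j _ => hJ j
  have hZ : ∏ j ∈ Finset.univ.erase i, z j (J j) ≠ 0 := by
    intro h0
    have h1 := hval (J i)
    rw [h0, mul_zero, mul_zero] at h1
    exact mul_ne_zero (hJ i) hY h1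
  refine ⟨c * (∏ j ∈ Finset.univ.erase i, z j (J j)) / ∏ j ∈ Finset.univ.erase i, y j (J j),
    div_ne_zero (mul_ne_zero hc hZ) hY, funext fun a => ?_⟩
  rw [Pi.smul_apply, smul_eq_mul, div_mul_eq_mul_div, eq_div_iff hY, hval a]
  ring

/-- the monomial form with exponents `a i`, `t - a i` in the `i`-th pair -/
noncomputable def fm (K : Type) [Field K] (k t : ℕ) (a : Fin k → Fin (t + 1)) :
    MvPolynomial (Fin k → Fin 2) K :=
  ∏ s : Fin t, X fun i => if (s : ℕ) < (a i : ℕ) then (0 : Fin 2) else 1

/-- the exponents -/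
noncomputable def ee (k t : ℕ) (a : Fin k → Fin (t + 1)) : Fin k × Fin 2 →₀ ℕ :=
  Finsupp.equivFunOnFinite.symm fun x => if x.2 = 0 then (a x.1 : ℕ) else t - a x.1

theorem ee_apply (k t : ℕ) (a : Fin k → Fin (t + 1)) (x : Fin k × Fin 2) :
    ee k t a x = if x.2 = 0 then (a x.1 : ℕ) else t - a x.1 := rfl

theorem ee_inj (k t : ℕ) : Function.Injective (ee k t) := by
  intro a b h
  funext i
  have h1 := DFunLike.congr_fun h (i, 0)
  rw [ee_apply, ee_apply, if_pos rfl, if_pos rfl] at h1
  exact Fin.ext h1

theorem fm_hom (K : Type) [Field K] (k t : ℕ) (a : Fin k → Fin (t + 1)) :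
    (fm K k t a).IsHomogeneous t := by
  have h := IsHomogeneous.prod Finset.univ (fun s : Fin t =>
    (X (fun i => if (s : ℕ) < (a i : ℕ) then (0 : Fin 2) else 1) :
      MvPolynomial (Fin k → Fin 2) K)) (fun _ => 1) fun s _ => isHomogeneous_X _ _
  simpa [fm] using h

theorem prod_lt {M : Type} [CommMonoid M] (t a : ℕ) (ha : a ≤ t) (x y : M) :
    ∏ s : Fin t, (if (s : ℕ) < a then x else y) = x ^ a * y ^ (t - a) := by
  rw [Finset.prod_ite, Finset.prod_const, Finset.prod_const]
  have h1 : (Finset.univ.filter fun s : Fin t => (s : ℕ) < a).card = a := by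
    rw [Fin.card_filter_val_lt]
    omega
  have h2 : (Finset.univ.filter fun s : Fin t => ¬ (s : ℕ) < a).card = t - a := by
    have h3 := Finset.card_filter_add_card_filter_not (s := (Finset.univ : Finset (Fin t)))
      (p := fun s : Fin t => (s : ℕ) < a)
    rw [h1, Finset.card_univ, Fintype.card_fin] at h3
    omega
  rw [h1, h2]

theorem bind_fm (K : Type) [Field K] (k t : ℕ) (a : Fin k → Fin (t + 1)) :
    bind₁ (segX K k) (fm K k t a) = monomial (ee k t a) 1 := by
  have h1 : bind₁ (segX K k) (fm K k t a) = ∏ i : Fin k, ((X (i, 0) : MvPolynomial _ K) ^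
      (a i : ℕ) * X (i, 1) ^ (t - a i)) := by
    rw [fm, map_prod]
    simp only [bind₁_X_right, segX]
    rw [Finset.prod_comm]
    refine Finset.prod_congr rfl fun i _ => ?_
    rw [← prod_lt t (a i) (by have := (a i).isLt; omega)]
    refine Finset.prod_congr rfl fun s _ => ?_
    split_ifs <;> rfl
  rw [h1, monomial_eq, Finsupp.prod_fintype _ _ (by simp), Fintype.prod_prod_type, map_one,
    one_mul]
  refine Finset.prod_congr rfl fun i _ => ?_
  rw [Fin.prod_univ_two, ee_apply, ee_apply]
  rfl

/-- a form which vanishes at a point of small degree -/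
theorem form (K L : Type) [Field K] [Field L] [Algebra K L] [FiniteDimensional K L] (k t : ℕ)
    (y : Fin k → Fin 2 → L) (h : Module.finrank K L < (t + 1) ^ k) :
    ∃ f : MvPolynomial (Fin k → Fin 2) K, f.IsHomogeneous t ∧ aeval (segk y) f = 0 ∧
      bind₁ (segX K k) f ≠ 0 := by
  have hcard : Module.finrank K L < Fintype.card (Fin k → Fin (t + 1)) := by
    rw [Fintype.card_fun, Fintype.card_fin, Fintype.card_fin]
    exact h
  have hdep : ¬ LinearIndependent K (fun a : Fin k → Fin (t + 1) =>
      aeval (segk y) (fm K k t a)) := fun hli =>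
    absurd hli.fintype_card_le_finrank (not_le.2 hcard)
  rw [Fintype.not_linearIndependent_iff] at hdep
  obtain ⟨g, hg, a₀, ha₀⟩ := hdep
  refine ⟨∑ a, g a • fm K k t a, ?_, ?_, ?_⟩
  · exact IsHomogeneous.sum _ _ _ fun a _ => (homogeneousSubmodule _ _ t).smul_mem (g a)
      (fm_hom K k t a)
  · rw [map_sum, ← hg]
    exact Finset.sum_congr rfl fun a _ => map_smul _ _ _
  · intro h0
    apply ha₀
    have h1 : coeff (ee k t a₀) (bind₁ (segX K k) (∑ a, g a • fm K k t a)) = g a₀ := by
      rw [map_sum, coeff_sum, Finset.sum_eq_single a₀]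
      · rw [map_smul, bind_fm, coeff_smul, coeff_monomial, if_pos rfl, smul_eq_mul, mul_one]
      · intro a _ ha
        rw [map_smul, bind_fm, coeff_smul, coeff_monomial,
          if_neg fun e => ha (ee_inj k t e), smul_zero]
      · intro hn
        exact absurd (Finset.mem_univ _) hn
    rw [← h1, h0, coeff_zero]

end SegtAux

/-- **Row SEGT.** -/
theorem segt : SegtStatement :=
  ⟨SegtAux.height, fun K L _ _ _ _ k t y h => SegtAux.form K L k t y h,
    fun N _ k y z hy hz h i => SegtAux.prl N k y z hy hz h i⟩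

end Pool.DynLehmer.LW
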