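import Pool.Agent.Lib.MP_2194ec_nt.LW.DefsX
import Pool.Agent.Lib.MP_2194ec_nt.LP.Sharpb

set_option autoImplicit false

/-!
# The exponent of a form which vanishes at the point, outside invariant subvarieties, with a
bound for the time
-/

namespace Pool.DynLehmer.LW
open MvPolynomial NumberField Pool.DynLehmer Pool.DynLehmer.SB Pool.DynLehmer.SP
  Pool.DynLehmer.LP
open Filter Topology IsDedekindDomain
open scoped Classical Pointwise

/-- **SHARPX** -/
theorem sharpx (hCore : CoredStatement) (hProps : PropxStatement) : SharpxStatement := by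
  intro K _ _ p s ι _ _ _ hι hp hs v P hP hv hint hred hdet u hu0 hu1 huu
  obtain ⟨Φ, hΦP, hϖ0, hϖ, hunif⟩ := exists_GF v hp P hP hv hint hred hdet
  have hzP := gno_common_zero hp Φ hϖ P hΦP
  have hvu : v u = v (Φ.ϖ : K) := le_antisymm (hunif u hu1) (huu _ hϖ)
  obtain ⟨f, hf1, hf⟩ := exists_card_eq v hp hv
  obtain ⟨k, hk1, hcore0⟩ := hCore K p s ι hι hp hs v Φ hϖ hϖ0 P hP hzP hΦP f hf1
  have hq2 : 2 ≤ p ^ s := hp.two_le.trans (Nat.le_self_pow (by omega) p)
  have hq1 : 1 ≤ p ^ s := by omega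
  obtain ⟨C, e₀, hC1, hprops⟩ := hProps ι
  have hprops := hprops K (p ^ s) P hq1 hP hzP
  set q : ℝ := ((p ^ s : ℕ) : ℝ) with hq
  have hq1r : (1 : ℝ) ≤ q := by rw [hq]; exact_mod_cast hq1
  have hC1r : (1 : ℝ) ≤ C := by exact_mod_cast hC1
  set a : ℝ := C * (q ^ k) ^ e₀ with ha
  have hqk1 : (1 : ℝ) ≤ (q ^ k) ^ e₀ := one_le_pow₀ (one_le_pow₀ hq1r)
  have ha1 : 1 ≤ a := one_le_mul_of_one_le_of_one_le hC1r hqk1
  obtain ⟨A0, B0, hA0, hB0, hcore⟩ := hcore0 a ha1
  set θ : ℝ := ((Fintype.card ι - 1 : ℕ) : ℝ) / (((Fintype.card ι - 1 : ℕ) : ℝ) + 1) with hθ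
  have hlogq : 0 ≤ Real.log q := Real.log_nonneg hq1r
  set B1 : ℝ := ((e₀ : ℝ) + 1) * B0 + (((C : ℝ) + 1) * B0 + Real.log q) with hB1
  refine ⟨A0 / C, B1, by positivity, by positivity, ?_⟩
  intro E hE L N _ _ _ _ _ _ _ S e hcardLN hS hcard hlow x hx hwand D t0 hD1 ht0 ht0D
  have hτ : ∀ w ∈ S, ∃ τ : N ≃ₐ[K] N, ∀ a : N, w a ≤ 1 → w (τ a - a ^ (p ^ f)) < 1 :=
    fun w hw => exists_frob_at v hf N w (e w) (hS w hw)
  choose! τ hτ using hτ
  -- the ramification condition does not depend on the uniformizer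
  have hlow' : 7 * (Nat.card (L →ₐ[K] N) * ∑ w ∈ S, e w) ≤
      8 * ∑ w ∈ S, e w * Nat.card {φ : L →ₐ[K] N // Low (Φ.ϖ : K) w φ E} := by
    refine hlow.trans (le_of_eq ?_)
    congr 1
    refine Finset.sum_congr rfl fun w hw => ?_
    have h1 : ∀ φ : L →ₐ[K] N, Low u w φ E ↔ Low (Φ.ϖ : K) w φ E := by
      intro φ
      have h2 : w (algebraMap K N u) = w (algebraMap K N (Φ.ϖ : K)) := by
        rw [(hS w hw).2, (hS w hw).2, hvu]
      unfold Low
      rw [h2]
    have h3 : {φ : L →ₐ[K] N // Low u w φ E} = {φ : L →ₐ[K] N // Low (Φ.ϖ : K) w φ E} := by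
      congr 1
      funext φ
      exact propext (h1 φ)
    rw [h3]
  obtain ⟨h, hlim, hhpos, hcoreD⟩ := hcore L N S e τ E hE hcardLN hS
    hcard hτ (fun w hw a => frob_inv w (τ w) (hτ w hw) a) hlow' x hx hwand
  obtain ⟨r0, Lv, hLv1, hexp, hr0, hnc, hbd⟩ := hcoreD D hD1
  set X : ℝ := 1 + (Real.log D) ^ θ with hX
  have hX1 : 1 ≤ X := by
    have : 0 ≤ (Real.log D) ^ θ := Real.rpow_nonneg (Real.log_nonneg hD1) θ
    rw [hX]; linarith
  have hE1 : (1 : ℝ) ≤ E := by exact_mod_cast hE
  have hEpos : (0 : ℝ) < E := by linarith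
  have ht0r : (1 : ℝ) ≤ t0 := by exact_mod_cast ht0
  set y : ℕ → (ι → L) := fun l => (gAct P L)^[r0 + k * l] x with hy
  have hyne : ∀ l, y l ≠ 0 := fun l => gAct_iter_ne P hP hzP _ _ hx
  -- the degree of the forms
  set T : ℕ := C * ((p ^ s) ^ (k * Lv)) ^ e₀ * t0 with hT
  have hTr : (T : ℝ) = C * ((q ^ (k * Lv)) ^ e₀) * t0 := by
    rw [hT, hq]
    push_cast
    ring
  have hT1 : 1 ≤ T := by
    have h1 : 1 ≤ ((p ^ s) ^ (k * Lv)) ^ e₀ := Nat.one_le_iff_ne_zero.2 (by positivity)
    exact Nat.one_le_iff_ne_zero.2 (Nat.mul_ne_zero (Nat.mul_ne_zero (by omega) (by omega))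
      (by omega))
  have hcond : (T : ℝ) ≤ a ^ (Lv + 1) * D ^ 2 := by
    rw [hTr]
    have h1 : (C : ℝ) * ((q ^ (k * Lv)) ^ e₀) ≤ a ^ (Lv + 1) := by
      have h2 : (q ^ (k * Lv)) ^ e₀ = ((q ^ k) ^ e₀) ^ Lv := by
        rw [← pow_mul, ← pow_mul, ← pow_mul]
        congr 1
        ring
      have h3 : ((q ^ k) ^ e₀) ^ Lv ≤ a ^ Lv := by
        refine pow_le_pow_left₀ (by linarith) ?_ Lv
        exact le_mul_of_one_le_left (by linarith) hC1r
      have h4 : (C : ℝ) ≤ a := le_mul_of_one_le_right (by linarith) hqk1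
      rw [h2, pow_succ, mul_comm (a ^ Lv) a]
      exact mul_le_mul h4 h3 (by positivity) (by linarith)
    have h2 : (t0 : ℝ) ≤ D ^ 2 := by nlinarith
    exact mul_le_mul h1 h2 (by linarith) (by positivity)
  by_cases hsep : ∀ l' l : ℕ, l' < l → l < Lv → ∃ g : MvPolynomial ι K, g.IsHomogeneous T ∧
      ¬ (aeval (y l') g = 0 ↔ aeval (y l) g = 0)
  · -- the bound
    left
    refine ⟨h, hlim, ?_⟩
    have h1 := hbd T hT1 hcond hsep
    refine le_trans ?_ h1
    have h2 : (q ^ (k * Lv)) ^ e₀ ≤ Real.exp (e₀ * (B0 * X)) := by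
      have h3 : q ^ (k * Lv) ≤ Real.exp (B0 * X) :=
        (pow_le_pow_right₀ hq1r (Nat.mul_le_mul_right _ (Nat.le_succ k))).trans hexp
      calc (q ^ (k * Lv)) ^ e₀ ≤ (Real.exp (B0 * X)) ^ e₀ :=
            pow_le_pow_left₀ (by positivity) h3 e₀
        _ = Real.exp (e₀ * (B0 * X)) := (Real.exp_nat_mul _ _).symm
    have h4 : (T : ℝ) ≤ C * Real.exp (e₀ * (B0 * X)) * t0 := by
      rw [hTr]
      gcongr
    have hTpos : (0 : ℝ) < T := by exact_mod_cast hT1
    have h8 : Real.exp (-(B1 * X)) ≤ Real.exp (-(((e₀ : ℝ) + 1) * B0 * X)) := by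
      apply Real.exp_le_exp.2
      have h9 : 0 ≤ (((C : ℝ) + 1) * B0 + Real.log q) * X := by positivity
      have h10 : B1 * X = ((e₀ : ℝ) + 1) * B0 * X + (((C : ℝ) + 1) * B0 + Real.log q) * X := by
        rw [hB1]; ring
      linarith
    calc A0 / C / ((E : ℝ) * t0) * Real.exp (-(B1 * X))
        ≤ A0 / C / ((E : ℝ) * t0) * Real.exp (-(((e₀ : ℝ) + 1) * B0 * X)) :=
          mul_le_mul_of_nonneg_left h8 (by positivity)
      _ = A0 / ((E : ℝ) * (C * Real.exp (e₀ * (B0 * X)) * t0)) * Real.exp (-(B0 * X)) := by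
          have h5 : Real.exp (-(((e₀ : ℝ) + 1) * B0 * X)) =
              Real.exp (-(B0 * X)) / Real.exp (e₀ * (B0 * X)) := by
            rw [← Real.exp_sub]; congr 1; ring
          rw [h5]
          have h6 : (C : ℝ) ≠ 0 := by linarith
          have h7 : (t0 : ℝ) ≠ 0 := by linarith
          field_simp
      _ ≤ _ := by
          apply mul_le_mul_of_nonneg_right _ (Real.exp_nonneg _)
          apply div_le_div_of_nonneg_left hA0.le (by positivity)
          exact mul_le_mul_of_nonneg_left h4 hEpos.le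
  · -- an invariant subvariety
    right
    push Not at hsep
    obtain ⟨l', l, hll, hl, heq⟩ := hsep
    set j : ℕ := k * (l - l') with hj
    have hj1 : 1 ≤ j := Nat.mul_pos hk1 (by omega)
    have hyl : y l = (gAct P L)^[j] (y l') := by
      have h0 : k * l = k * (l - l') + k * l' := by
        rw [← mul_add]; congr 1; omega
      have h1 : r0 + k * l = j + (r0 + k * l') := by omega
      simp only [hy]
      rw [h1, Function.iterate_add_apply]
    obtain ⟨a', m, I, ha', hm, hI, hIh, hv1, hv2, hv3⟩ := hprops L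
      (fun n => (gAct P L)^[n] (y l')) (hyne l') (by
        intro n i
        change (gAct P L)^[n + 1] (y l') i = aeval ((gAct P L)^[n] (y l')) (P i)
        rw [Function.iterate_succ_apply']
        rfl) j hj1 t0 T ht0 (by
        rw [hT]
        apply Nat.mul_le_mul_right
        apply Nat.mul_le_mul_left
        apply Nat.pow_le_pow_left
        apply Nat.pow_le_pow_right (by omega)
        exact Nat.mul_le_mul_left k (by omega)) (by
        intro g hg
        have h1 := heq g hg
        rw [hyl] at h1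
        exact h1)
    refine ⟨a' * j + (r0 + k * l'), r0 + k * l', m * j, I, Nat.mul_pos hm hj1, hI, hIh, ?_, hv2,
      ?_, ?_⟩
    · intro g n hg hgI
      rw [Function.iterate_add_apply]
      exact hv1 g n hg hgI
    · intro g hg hg0
      exact hv3 g hg hg0
    · have h1 : a' * j + (r0 + k * l') ≤ r0 + (C + 1) * (k * Lv) := by
        have h2 : j ≤ k * Lv := Nat.mul_le_mul_left k (by omega)
        have h3 : a' * j ≤ C * (k * Lv) := Nat.mul_le_mul ha' h2
        have h4 : k * l' ≤ k * Lv := Nat.mul_le_mul_left k (by omega)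
        have h5 : (C + 1) * (k * Lv) = C * (k * Lv) + k * Lv := by ring
        omega
      have h2 : Real.exp (Real.log q) = q := Real.exp_log (by linarith)
      have h3 : q ≤ Real.exp (Real.log q * X) := by
        rw [← h2]
        apply Real.exp_le_exp.2
        rw [h2]
        exact le_mul_of_one_le_right hlogq hX1
      have h4 : q ^ Lv * (q ^ (k * Lv)) ^ (C + 1) ≤ Real.exp ((((C : ℝ) + 1) * B0) * X) := by
        calc q ^ Lv * (q ^ (k * Lv)) ^ (C + 1)
            ≤ (q ^ Lv) ^ (C + 1) * (q ^ (k * Lv)) ^ (C + 1) := by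
              apply mul_le_mul_of_nonneg_right _ (by positivity)
              exact le_self_pow₀ (one_le_pow₀ hq1r) (by omega)
          _ = (q ^ ((k + 1) * Lv)) ^ (C + 1) := by
              rw [← mul_pow, ← pow_add]
              congr 2
              ring
          _ ≤ (Real.exp (B0 * X)) ^ (C + 1) := pow_le_pow_left₀ (by positivity) hexp _
          _ = Real.exp ((((C : ℝ) + 1) * B0) * X) := by
              rw [← Real.exp_nat_mul]
              congr 1
              push_cast
              ring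
      calc q ^ (a' * j + (r0 + k * l')) ≤ q ^ (r0 + (C + 1) * (k * Lv)) :=
            pow_le_pow_right₀ hq1r h1
        _ = q ^ r0 * (q ^ (k * Lv)) ^ (C + 1) := by
            rw [pow_add, ← pow_mul]
            congr 2
            ring
        _ ≤ (q * E * q ^ Lv) * (q ^ (k * Lv)) ^ (C + 1) :=
            mul_le_mul_of_nonneg_right hr0 (by positivity)
        _ = E * (q * (q ^ Lv * (q ^ (k * Lv)) ^ (C + 1))) := by ring
        _ ≤ E * (Real.exp (Real.log q * X) * Real.exp ((((C : ℝ) + 1) * B0) * X)) := by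
            apply mul_le_mul_of_nonneg_left _ hEpos.le
            exact mul_le_mul h3 h4 (by positivity) (Real.exp_nonneg _)
        _ = E * Real.exp ((Real.log q + ((C : ℝ) + 1) * B0) * X) := by
            rw [← Real.exp_add]
            congr 2
            ring
        _ ≤ E * Real.exp (B1 * X) := by
            apply mul_le_mul_of_nonneg_left _ hEpos.le
            apply Real.exp_le_exp.2
            apply mul_le_mul_of_nonneg_right _ (by linarith)
            have : 0 ≤ ((e₀ : ℝ) + 1) * B0 := by positivity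
            rw [hB1]
            linarith

end Pool.DynLehmer.LW
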