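import Pool.Agent.Lib.MP_2194ec_nt.LW.Geo

set_option autoImplicit false
set_option linter.unusedSectionVars false

/-!
# The transcendence degree and inclusions of primes (row TRD)
-/

namespace Pool.DynLehmer.LW
open MvPolynomial
open scoped Classical

namespace TrdAux

variable {K ι : Type} [Field K] [Fintype ι]

theorem fin_trd (P : Ideal (MvPolynomial ι K)) :
    Algebra.trdeg K (MvPolynomial ι K ⧸ P) ≤ Fintype.card ι := by
  have h := trdeg_le_of_surjective (Ideal.Quotient.mkₐ K P) (Ideal.Quotient.mkₐ_surjective K P)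
  rwa [MvPolynomial.trdeg_of_isDomain, Cardinal.lift_id, Cardinal.mk_fintype] at h

theorem lt_aleph (P : Ideal (MvPolynomial ι K)) :
    Algebra.trdeg K (MvPolynomial ι K ⧸ P) < Cardinal.aleph0 :=
  (fin_trd P).trans_lt (Cardinal.natCast_lt_aleph0)

theorem le_of_le {P P' : Ideal (MvPolynomial ι K)} (h : P ≤ P') :
    Algebra.trdeg K (MvPolynomial ι K ⧸ P') ≤ Algebra.trdeg K (MvPolynomial ι K ⧸ P) :=
  trdeg_le_of_surjective (Ideal.Quotient.factorₐ K h) (Ideal.Quotient.factor_surjective h)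

theorem eq_of_trdeg_eq {P P' : Ideal (MvPolynomial ι K)} [P.IsPrime] [P'.IsPrime] (h : P ≤ P')
    (he : Algebra.trdeg K (MvPolynomial ι K ⧸ P') = Algebra.trdeg K (MvPolynomial ι K ⧸ P)) :
    P = P' := by
  refine le_antisymm h fun f hf => ?_
  by_contra hfP
  let φ : MvPolynomial ι K ⧸ P →ₐ[K] MvPolynomial ι K ⧸ P' := Ideal.Quotient.factorₐ K h
  have hφ : Function.Surjective φ := Ideal.Quotient.factor_surjective h
  obtain ⟨κ, x', hx'⟩ := exists_isTranscendenceBasis' (R := K) (A := MvPolynomial ι K ⧸ P')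
  choose x hx using fun i => hφ (x' i)
  have hx0 : φ ∘ x = x' := funext hx
  have hxi : AlgebraicIndependent K x := AlgebraicIndependent.of_comp φ (by rw [hx0]; exact hx'.1)
  have hcard : Algebra.trdeg K (MvPolynomial ι K ⧸ P) ≤ Cardinal.mk κ := by
    rw [hx'.cardinalMk_eq_trdeg, he]
  have hxb : IsTranscendenceBasis K x := hxi.isTranscendenceBasis_of_trdeg_le (lt_aleph P) hcard
  have halg := hxb.isAlgebraic
  have hf0 : Ideal.Quotient.mk P f ≠ 0 := fun h0 => hfP (Ideal.Quotient.eq_zero_iff_mem.1 h0)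
  obtain ⟨q, hq0, hq⟩ := (halg.isAlgebraic (Ideal.Quotient.mk P f)).exists_nonzero_coeff_and_aeval_eq_zero
    (mem_nonZeroDivisors_of_ne_zero hf0)
  obtain ⟨r, hr⟩ := Polynomial.X_dvd_sub_C (p := q)
  have h1 : -((q.coeff 0 : Algebra.adjoin K (Set.range x)) : MvPolynomial ι K ⧸ P) =
      Ideal.Quotient.mk P f * Polynomial.aeval (Ideal.Quotient.mk P f) r := by
    have h2 := congrArg (Polynomial.aeval (Ideal.Quotient.mk P f)) hr
    rw [map_sub, map_mul, Polynomial.aeval_X, hq, zero_sub, Polynomial.aeval_C] at h2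
    exact h2
  have h3 : φ (Ideal.Quotient.mk P f) = 0 := by
    show Ideal.Quotient.factor h (Ideal.Quotient.mk P f) = 0
    rw [Ideal.Quotient.factor_mk]
    exact Ideal.Quotient.eq_zero_iff_mem.2 hf
  have h4 : φ ((q.coeff 0 : Algebra.adjoin K (Set.range x)) : MvPolynomial ι K ⧸ P) = 0 := by
    rw [← neg_eq_zero, ← map_neg, h1, map_mul, h3, zero_mul]
  obtain ⟨p, hp⟩ : ∃ p : MvPolynomial κ K, aeval x p =
      ((q.coeff 0 : Algebra.adjoin K (Set.range x)) : MvPolynomial ι K ⧸ P) := by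
    have h5 : ∀ z ∈ Algebra.adjoin K (Set.range x), ∃ p : MvPolynomial κ K, aeval x p = z := by
      intro z hz
      rw [Algebra.adjoin_range_eq_range_aeval] at hz
      exact hz
    exact h5 _ (q.coeff 0).2
  have h6 : aeval x' p = 0 := by
    rw [← h4, ← hp, comp_aeval_apply, ← hx0]
    rfl
  have h7 : p = 0 := hx'.1.eq_zero_of_aeval_eq_zero p h6
  apply hq0
  apply Subtype.ext
  rw [← hp, h7, map_zero]
  rfl

end TrdAux

open TrdAux in
theorem trd : TrdStatement := by
  intro K ι _ _ P P' hP hP' h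
  have hle := (Cardinal.toNat_le_toNat (le_of_le h) (lt_aleph P))
  refine ⟨?_, hle, fun he => ?_, fun h0 => ?_⟩
  · have h1 := Cardinal.toNat_le_toNat (fin_trd P) (Cardinal.natCast_lt_aleph0)
    rwa [Cardinal.toNat_natCast] at h1
  · exact eq_of_trdeg_eq h (Cardinal.toNat_injOn (lt_aleph P') (lt_aleph P) he)
  · have h1 : Algebra.trdeg K (MvPolynomial ι K ⧸ P) = 0 := by
      rcases Cardinal.toNat_eq_zero.1 h0 with h2 | h2
      · exact h2
      · exact absurd h2 (not_le.2 (lt_aleph P))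
    have h2 : Algebra.IsAlgebraic K (MvPolynomial ι K ⧸ P) := trdeg_eq_zero_iff.1 h1
    have h3 : IsField (MvPolynomial ι K ⧸ P) :=
      isField_of_isIntegral_of_isField' (R := K) (Semifield.toIsField K)
    exact Ideal.Quotient.maximal_of_isField P h3

end Pool.DynLehmer.LW
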