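import Pool.Agent.Lib.MP_2194ec_nt.LW.Geo

set_option autoImplicit false
set_option linter.unusedSectionVars false

/-!
# Row UPP: reduction to a statement on finite algebras over a polynomial ring
-/

namespace Pool.DynLehmer.LW.Upp24
open MvPolynomial
open scoped Classical

/-- the abstract form of the upper bound -/
def Core : Prop := ∀ (K R : Type) [Field K] [CharZero K] [CommRing R] [IsDomain R] [Algebra K R]
  (d : ℕ) [Algebra (MvPolynomial (Fin (d + 1)) K) R]
  [IsScalarTower K (MvPolynomial (Fin (d + 1)) K) R]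
  [Module.Finite (MvPolynomial (Fin (d + 1)) K) R],
  Function.Injective (algebraMap (MvPolynomial (Fin (d + 1)) K) R) → ∀ σ : R ≃+* R,
  (∀ a : MvPolynomial (Fin (d + 1)) K,
    σ (algebraMap _ R a) = algebraMap _ R (bind₁ (fun i => C 2 * X i) a)) →
  ∀ (V : Submodule K R) (b : ℕ), (∀ f ∈ V, σ f = (2 : K) ^ b • f) →
    Module.finrank K V ≤ Module.finrank (MvPolynomial (Fin (d + 1)) K) R * (b + d).choose d

variable {K ι : Type} [Field K] [CharZero K] [Fintype ι]

/-- the scaling by `c` -/
noncomputable def scl (ι : Type) (c : K) : MvPolynomial ι K →ₐ[K] MvPolynomial ι K :=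
  aeval fun i => C c * X i

theorem scl_hom (c : K) {f : MvPolynomial ι K} {n : ℕ} (hf : f.IsHomogeneous n) :
    scl ι c f = c ^ n • f := by
  conv_lhs => rw [f.as_sum, map_sum]
  conv_rhs => rw [f.as_sum, Finset.smul_sum]
  refine Finset.sum_congr rfl fun t ht => ?_
  have h1 : t.degree = n := by
    rw [Finsupp.degree_eq_weight_one]
    exact hf (mem_support_iff.1 ht)
  rw [scl, aeval_monomial, Finsupp.prod_fintype _ _ (fun i => pow_zero _), monomial_eq,
    Finsupp.prod_fintype _ _ (fun i => pow_zero _)]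
  have h2 : ∏ i, (C c * X i : MvPolynomial ι K) ^ t i = C (c ^ n) * ∏ i, X i ^ t i := by
    simp_rw [mul_pow]
    rw [Finset.prod_mul_distrib, Finset.prod_pow_eq_pow_sum, ← h1, Finsupp.degree_eq_sum, C_pow]
  rw [h2, smul_eq_C_mul, algebraMap_eq]
  ring

theorem scl_scl (c e : K) (f : MvPolynomial ι K) : scl ι c (scl ι e f) = scl ι (e * c) f := by
  have h : (scl ι c).comp (scl ι e) = scl ι (e * c) := by
    refine algHom_ext fun i => ?_
    rw [AlgHom.comp_apply, scl, scl, scl, aeval_X, aeval_X, map_mul, aeval_X, algHom_C,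
      algebraMap_eq, C_mul, mul_assoc]
  exact congrArg (fun φ : MvPolynomial ι K →ₐ[K] MvPolynomial ι K => φ f) h

theorem scl_one (f : MvPolynomial ι K) : scl ι (1 : K) f = f := by
  have h : scl ι (1 : K) = AlgHom.id K _ := by
    refine algHom_ext fun i => ?_
    rw [scl, aeval_X, C_1, one_mul]
    rfl
  exact congrArg (fun φ : MvPolynomial ι K →ₐ[K] MvPolynomial ι K => φ f) h

theorem scl_mem (c : K) {P : Ideal (MvPolynomial ι K)} (hH : HomI P) {f : MvPolynomial ι K}
    (hf : f ∈ P) : scl ι c f ∈ P := by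
  rw [← sum_homogeneousComponent f, map_sum]
  refine P.sum_mem fun n _ => ?_
  rw [scl_hom c (homogeneousComponent_isHomogeneous n f), smul_eq_C_mul]
  exact P.mul_mem_left _ (hH f hf n)

/-- the scaling by `2` -/
noncomputable def two (K ι : Type) [Field K] [CharZero K] [Fintype ι] :
    MvPolynomial ι K ≃ₐ[K] MvPolynomial ι K :=
  AlgEquiv.ofAlgHom (scl ι (2 : K)) (scl ι (2⁻¹ : K))
    (AlgHom.ext fun f => by
      show scl ι (2 : K) (scl ι (2⁻¹ : K) f) = f
      rw [scl_scl, inv_mul_cancel₀ two_ne_zero, scl_one])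
    (AlgHom.ext fun f => by
      show scl ι (2⁻¹ : K) (scl ι (2 : K) f) = f
      rw [scl_scl, mul_inv_cancel₀ two_ne_zero, scl_one])

theorem two_map {P : Ideal (MvPolynomial ι K)} (hH : HomI P) :
    P = P.map (two K ι : MvPolynomial ι K →+* MvPolynomial ι K) := by
  apply le_antisymm
  · intro f hf
    have h1 : f = two K ι (scl ι (2⁻¹ : K) f) := by
      show f = scl ι (2 : K) (scl ι (2⁻¹ : K) f)
      rw [scl_scl, inv_mul_cancel₀ two_ne_zero, scl_one]
    rw [h1]
    exact Ideal.mem_map_of_mem (two K ι : MvPolynomial ι K →+* MvPolynomial ι K)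
      (scl_mem _ hH hf)
  · rw [Ideal.map_le_iff_le_comap]
    intro f hf
    exact scl_mem _ hH hf

theorem upp_of (core : Core) : UppStatement := by
  intro K ι _ _ _ P d T hP hH hT
  have := hP
  let R := MvPolynomial ι K ⧸ P
  let t : Fin (d + 1) → R := fun i => Ideal.Quotient.mk P (T i)
  let φ : MvPolynomial (Fin (d + 1)) K →ₐ[K] R := aeval t
  let algR : Algebra (MvPolynomial (Fin (d + 1)) K) R := φ.toRingHom.toAlgebra
  let modR : Module (MvPolynomial (Fin (d + 1)) K) R := algR.toModule
  let smulR : SMul (MvPolynomial (Fin (d + 1)) K) R := algR.toSMul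
  have hmap : ∀ a, algebraMap (MvPolynomial (Fin (d + 1)) K) R a = φ a := fun _ => rfl
  have : IsScalarTower K (MvPolynomial (Fin (d + 1)) K) R := by
    refine IsScalarTower.of_algebraMap_eq fun x => ?_
    rw [hmap, algebraMap_eq, algHom_C]
  let e := hT.alg.aevalEquiv
  have he : ∀ a, ((e a : Algebra.adjoin K (Set.range t)) : R) = φ a := fun a =>
    hT.alg.algebraMap_aevalEquiv a
  have hint : Algebra.IsIntegral (MvPolynomial (Fin (d + 1)) K) R := by
    refine ⟨fun x => ?_⟩
    obtain ⟨p, hp, hpx⟩ := hT.int x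
    refine ⟨p.map (e.symm : Algebra.adjoin K (Set.range t) →+* MvPolynomial (Fin (d + 1)) K),
      hp.map _, ?_⟩
    rw [Polynomial.eval₂_map, ← hpx]
    congr 1
    refine RingHom.ext fun y => ?_
    show φ (e.symm y) = (y : R)
    rw [← he, AlgEquiv.apply_symm_apply]
  have hft : Algebra.FiniteType (MvPolynomial (Fin (d + 1)) K) R :=
    Algebra.FiniteType.of_restrictScalars_finiteType K _ R
  have hfin : Module.Finite (MvPolynomial (Fin (d + 1)) K) R := Algebra.IsIntegral.finite
  have hinj : Function.Injective (algebraMap (MvPolynomial (Fin (d + 1)) K) R) := hT.alg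
  have hrk : rk P T = Module.finrank (MvPolynomial (Fin (d + 1)) K) R := by
    refine (Algebra.finrank_eq_of_equiv_equiv e.toRingEquiv (RingEquiv.refl R) ?_).symm
    refine RingHom.ext fun a => ?_
    exact he a
  let σ : R ≃ₐ[K] R := Ideal.quotientEquivAlg P P (two K ι) (two_map hH)
  have hσmk : ∀ f : MvPolynomial ι K, σ (Ideal.Quotient.mk P f) =
      Ideal.Quotient.mk P (scl ι (2 : K) f) := fun f => rfl
  have hσ : ∀ a : MvPolynomial (Fin (d + 1)) K, σ.toRingEquiv (algebraMap _ R a) =
      algebraMap _ R (bind₁ (fun i => C 2 * X i) a) := by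
    have h1 : (σ : R →ₐ[K] R).comp φ = φ.comp (bind₁ fun i => C 2 * X i) := by
      refine algHom_ext fun i => ?_
      show σ (φ (X i)) = φ (bind₁ (fun i => C 2 * X i) (X i))
      rw [bind₁_X_right, map_mul, aeval_X, algHom_C]
      show σ (Ideal.Quotient.mk P (T i)) = _
      rw [hσmk, scl_hom (2 : K) (hT.lin i), pow_one, Algebra.smul_def, map_mul]
      rfl
    intro a
    exact congrArg (fun ψ : MvPolynomial (Fin (d + 1)) K →ₐ[K] R => ψ a) h1
  constructor
  · have h1 := core K R d hinj σ.toRingEquiv hσ (Submodule.span K {1}) 0 (fun f hf => by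
      rw [Submodule.mem_span_singleton] at hf
      obtain ⟨c, rfl⟩ := hf
      rw [pow_zero, one_smul]
      show σ (c • 1) = c • 1
      rw [map_smul, map_one])
    rw [finrank_span_singleton one_ne_zero, zero_add, Nat.choose_self, mul_one, ← hrk] at h1
    exact h1
  · intro b
    rw [hrk]
    refine core K R d hinj σ.toRingEquiv hσ _ b ?_
    rintro _ ⟨g, hg, rfl⟩
    show σ (Ideal.Quotient.mk P g) = (2 : K) ^ b • Ideal.Quotient.mk P g
    rw [hσmk, scl_hom (2 : K) hg]
    exact map_smul (Ideal.Quotient.mkₐ K P) _ _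

end Pool.DynLehmer.LW.Upp24
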