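import Pool.Agent.Lib.MP_2194ec_nt.LW.UppD

set_option autoImplicit false
set_option linter.unusedSectionVars false

/-!
# Row UPP: the core
-/

namespace Pool.DynLehmer.LW.Upp24
open MvPolynomial
open scoped Classical

/-- jets at a point -/
def PolH : Prop := ∀ (K : Type) [Field K] [CharZero K] (d : ℕ)
    (h : MvPolynomial (Fin (d + 1)) K), h ≠ 0 →
    ∃ ψ : MvPolynomial (Fin (d + 1)) K →ₐ[K] MvPolynomial (Fin d) K,
      ∀ (n b : ℕ) (c : Fin n → MvPolynomial (Fin (d + 1)) K)
        (e : Fin n → Fin n → Fin n → MvPolynomial (Fin (d + 1)) K)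
        (N : MvPolynomial (Fin (d + 1)) K), 1 ≤ n → N.IsHomogeneous (n * b) →
        Matrix.det (Matrix.of fun i j => ∑ k, c k * e k i j) = h ^ (2 * n) * N →
        (∀ k, ∀ m : Fin d →₀ ℕ, m.degree ≤ b → coeff m (ψ (c k)) = 0) → N = 0

section core

variable {K R F L : Type} [Field K] [CharZero K] [CommRing R] [IsDomain R] [Algebra K R] {d : ℕ}
  [Algebra (MvPolynomial (Fin (d + 1)) K) R] [IsScalarTower K (MvPolynomial (Fin (d + 1)) K) R]
  [Module.Finite (MvPolynomial (Fin (d + 1)) K) R]
  [Field F] [Field L] [Algebra (MvPolynomial (Fin (d + 1)) K) F]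
  [IsFractionRing (MvPolynomial (Fin (d + 1)) K) F] [Algebra R L]
  [IsFractionRing R L] [Algebra F L] [Algebra (MvPolynomial (Fin (d + 1)) K) L]
  [IsScalarTower (MvPolynomial (Fin (d + 1)) K) R L]
  [IsScalarTower (MvPolynomial (Fin (d + 1)) K) F L]

theorem core_gen (F L : Type) [Field F] [Field L] [Algebra (MvPolynomial (Fin (d + 1)) K) F]
    [IsFractionRing (MvPolynomial (Fin (d + 1)) K) F] [Algebra R L]
    [IsFractionRing R L] [Algebra F L] [Algebra (MvPolynomial (Fin (d + 1)) K) L]
    [IsScalarTower (MvPolynomial (Fin (d + 1)) K) R L]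
    [IsScalarTower (MvPolynomial (Fin (d + 1)) K) F L]
    (pol : PolH)
    (hinj : Function.Injective (algebraMap (MvPolynomial (Fin (d + 1)) K) R))
    (σ : R ≃+* R) (hσ : ∀ a : MvPolynomial (Fin (d + 1)) K,
      σ (algebraMap _ R a) = algebraMap _ R (bind₁ (fun i => C 2 * X i) a))
    (V : Submodule K R) (b : ℕ) (hV : ∀ f ∈ V, σ f = (2 : K) ^ b • f) :
    Module.finrank K V ≤ Module.finrank (MvPolynomial (Fin (d + 1)) K) R * (b + d).choose d := by
  have hfs : FaithfulSMul (MvPolynomial (Fin (d + 1)) K) R :=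
    (faithfulSMul_iff_algebraMap_injective _ _).2 hinj
  obtain ⟨n, w, B, hB⟩ := exists_basis F (L := L) hinj
  obtain ⟨h, hh0, hh⟩ := exists_coord (A := MvPolynomial (Fin (d + 1)) K) (R := R) B
  choose c hc using hh
  have hiF : Function.Injective (algebraMap (MvPolynomial (Fin (d + 1)) K) F) :=
    IsFractionRing.injective _ _
  have hfd : FiniteDimensional F L := Module.Finite.of_basis B
  choose nrm hnrm using exists_norm (A := MvPolynomial (Fin (d + 1)) K) (R := R) (F := F) (L := L)
  have hn : 1 ≤ n := by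
    rcases Nat.eq_zero_or_pos n with h0 | h0
    · subst h0
      exfalso
      have := B.index_nonempty
      exact (this.some).elim0
    · exact h0
  have hnf : n = Module.finrank (MvPolynomial (Fin (d + 1)) K) R := by
    rw [← IsFractionRing.finrank_eq (MvPolynomial (Fin (d + 1)) K) F R L,
      Module.finrank_eq_card_basis B, Fintype.card_fin]
  have hdet : ∀ x, Matrix.det (Matrix.of fun i j => ∑ k, c x k * c (w k * w j) i) =
      h ^ (2 * n) * nrm x := by
    intro x
    apply hiF
    rw [det_norm hB hc, map_mul, map_pow, hnrm]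
  obtain ⟨ψ, hψ⟩ := pol K d h hh0
  -- homogeneity of the norm
  have hsm : ∀ (k : K) (x : R), algebraMap R L (k • x) =
      (algebraMap (MvPolynomial (Fin (d + 1)) K) F (C k)) • algebraMap R L x := by
    intro k x
    have h1 : k • x = algebraMap (MvPolynomial (Fin (d + 1)) K) R (C k) * x := by
      rw [Algebra.smul_def, IsScalarTower.algebraMap_apply K (MvPolynomial (Fin (d + 1)) K) R]
      rfl
    rw [h1, map_mul, ← IsScalarTower.algebraMap_apply (MvPolynomial (Fin (d + 1)) K) R L,
      Algebra.smul_def, ← IsScalarTower.algebraMap_apply (MvPolynomial (Fin (d + 1)) K) F L]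
  have hhom : ∀ f ∈ V, (nrm f).IsHomogeneous (n * b) := by
    intro f hf
    apply hom_of_sca
    apply hiF
    have h1 := norm_equiv (F := F) (L := L) σ (scaE (K := K) (Fin (d + 1))) hσ f
    rw [hV f hf, ← hnrm, IsFractionRing.ringEquivOfRingEquiv_algebraMap] at h1
    have h2 : (scaE (K := K) (Fin (d + 1))) (nrm f) = sca (Fin (d + 1)) 2 (nrm f) := rfl
    rw [h2, hsm, Algebra.smul_def, map_mul, Algebra.norm_algebraMap_of_basis B, Fintype.card_fin,
      ← hnrm, ← map_pow, ← C_pow, ← map_mul] at h1
    rw [h1, ← pow_mul, mul_comm b n]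
  -- linearity of the coordinates
  have hadd : ∀ x y i, c (x + y) i = c x i + c y i := by
    intro x y i
    apply hiF
    rw [map_add, hc, hc, hc, map_add, map_add, Finsupp.add_apply, mul_add]
  have hsmul : ∀ (k : K) (x : R) i, c (k • x) i = C k * c x i := by
    intro k x i
    apply hiF
    rw [map_mul, hc, hc, hsm, map_smul, Finsupp.smul_apply, smul_eq_mul]
    ring
  set J := {μ : Fin (d + 1) →₀ ℕ // μ ∈ (Finset.univ : Finset (Fin (d + 1))).finsuppAntidiag b}
    with hJ
  set Λ : V →ₗ[K] (Fin n × J → K) :=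
    { toFun := fun f a => coeff a.2.1.tail (ψ (c f.1 a.1))
      map_add' := by
        intro f g
        funext a
        rw [Pi.add_apply, Submodule.coe_add, hadd, map_add, coeff_add]
      map_smul' := by
        intro k f
        funext a
        rw [RingHom.id_apply, Pi.smul_apply, Submodule.coe_smul, hsmul, map_mul, smul_eq_mul]
        have h1 : ψ (C k) = C k := ψ.commutes k
        rw [h1, coeff_C_mul] } with hΛ
  have hΛi : Function.Injective Λ := by
    rw [← LinearMap.ker_eq_bot, LinearMap.ker_eq_bot']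
    intro f hf
    have h1 : ∀ k, ∀ m : Fin d →₀ ℕ, m.degree ≤ b → coeff m (ψ (c f.1 k)) = 0 := by
      intro k m hm
      obtain ⟨μ, hμ, hμm⟩ := exists_mono d b m hm
      have h2 := congrFun hf (k, ⟨μ, hμ⟩)
      rw [← hμm]
      exact h2
    have h2 : nrm f.1 = 0 := hψ n b (c f.1) (fun k i j => c (w k * w j) i) (nrm f.1) hn
      (hhom f.1 f.2) (hdet f.1) h1
    have h3 := hnrm f.1
    rw [h2, map_zero] at h3
    have h4 := Algebra.norm_eq_zero_iff.1 h3.symm
    have h5 : f.1 = 0 := (map_eq_zero_iff _ (IsFractionRing.injective R L)).1 h4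
    exact Subtype.ext h5
  have h1 := LinearMap.finrank_le_finrank_of_injective hΛi
  rw [Module.finrank_fintype_fun_eq_card, Fintype.card_prod, Fintype.card_fin] at h1
  have h2 : Fintype.card J = (b + d).choose d := by
    rw [← card_mono d b]
    exact Fintype.card_coe _
  rw [h2] at h1
  rw [← hnf]
  exact h1

theorem core (pol : PolH)
    (hinj : Function.Injective (algebraMap (MvPolynomial (Fin (d + 1)) K) R))
    (σ : R ≃+* R) (hσ : ∀ a : MvPolynomial (Fin (d + 1)) K,
      σ (algebraMap _ R a) = algebraMap _ R (bind₁ (fun i => C 2 * X i) a))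
    (V : Submodule K R) (b : ℕ) (hV : ∀ f ∈ V, σ f = (2 : K) ^ b • f) :
    Module.finrank K V ≤ Module.finrank (MvPolynomial (Fin (d + 1)) K) R * (b + d).choose d := by
  have hfs : FaithfulSMul (MvPolynomial (Fin (d + 1)) K) R :=
    (faithfulSMul_iff_algebraMap_injective _ _).2 hinj
  have hfs' : FaithfulSMul (MvPolynomial (Fin (d + 1)) K) (FractionRing R) := by
    rw [faithfulSMul_iff_algebraMap_injective,
      IsScalarTower.algebraMap_eq (MvPolynomial (Fin (d + 1)) K) R (FractionRing R)]
    exact (IsFractionRing.injective R (FractionRing R)).comp hinj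
  let := FractionRing.liftAlgebra (MvPolynomial (Fin (d + 1)) K) (FractionRing R)
  exact core_gen (FractionRing (MvPolynomial (Fin (d + 1)) K)) (FractionRing R) pol hinj σ hσ V b hV

end core

end Pool.DynLehmer.LW.Upp24
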