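import Pool.Agent.Lib.MP_2194ec_nt.LW.UppB
import Pool.Agent.Lib.MP_2194ec_nt.LW.UppC
import Pool.Agent.Lib.MP_2194ec_nt.LW.UppE

set_option autoImplicit false

/-!
# Row UPP: the upper bound for the Hilbert function
-/

namespace Pool.DynLehmer.LW

theorem upp : UppStatement :=
  Upp24.upp_of fun _ _ _ _ _ _ _ _ _ _ _ hinj σ hσ V b hV =>
    Upp24.core (fun _ _ _ d h hh => Upp24.pol d h hh) hinj σ hσ V b hV

end Pool.DynLehmer.LW
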