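import Pool.Agent.Lib.MP_2194ec_nt.LW.Finy
import Pool.Agent.Lib.MP_2194ec_nt.LW.Solv
import Pool.Agent.Lib.MP_2194ec_nt.LW.Lift
import Pool.Agent.Lib.MP_2194ec_nt.LW.Push
import Pool.Agent.Lib.MP_2194ec_nt.LW.Exc
import Pool.Agent.Lib.MP_2194ec_nt.LW.Grp
import Pool.Agent.Lib.MP_2194ec_nt.LW.Ramk
import Pool.Agent.Lib.MP_2194ec_nt.LW.Pthk
import Pool.Agent.Lib.MP_2194ec_nt.LW.Sharpx
import Pool.Agent.Lib.MP_2194ec_nt.LW.Cored
import Pool.Agent.Lib.MP_2194ec_nt.LW.Propx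
import Pool.Agent.Lib.MP_2194ec_nt.LW.Trd
import Pool.Agent.Lib.MP_2194ec_nt.LW.Hil
import Pool.Agent.Lib.MP_2194ec_nt.LW.Nne
import Pool.Agent.Lib.MP_2194ec_nt.LW.Upp
import Pool.Agent.Lib.MP_2194ec_nt.LW.Low
import Pool.Agent.Lib.MP_2194ec_nt.LW.Bezt
import Pool.Agent.Lib.MP_2194ec_nt.LW.Avd
import Pool.Agent.Lib.MP_2194ec_nt.LW.Numx
import Pool.Agent.Lib.MP_2194ec_nt.LW.Segk
import Pool.Agent.Lib.MP_2194ec_nt.LW.Segt
import Pool.Agent.Lib.MP_2194ec_nt.LW.Clsk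
import Pool.Agent.Lib.MP_2194ec_nt.LW.Perp
import Pool.Agent.Lib.MP_2194ec_nt.LW.Cntu
import Pool.Agent.Lib.MP_2194ec_nt.LW.Hypk
import Pool.Agent.Lib.MP_2194ec_nt.LP.Lvnw
import Pool.Agent.Lib.MP_2194ec_nt.LP.Levelw
import Pool.Agent.Lib.MP_2194ec_nt.LP.Iew
import Pool.Agent.Lib.MP_2194ec_nt.LP.Vnor
import Pool.Agent.Lib.MP_2194ec_nt.LP.Clsf
import Pool.Agent.Lib.MP_2194ec_nt.LP.Hcmp

set_option autoImplicit false

/-!
# The dynamical Lehmer bound for tuples of conjugates which depend on the level: assembly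
-/

namespace Pool.DynLehmer.LW
open MvPolynomial NumberField Filter Topology Pool.DynLehmer Pool.DynLehmer.GS Pool.DynLehmer.LP
open scoped Classical

/-- **The bound for tuples of conjugates of small degree.** -/
theorem yst : YStatement :=
  finy (lvnw levelw iew) ramk homc pthk (sharpx cored (propx trd trc (hil nne upp (low bezt avd))))
    numx vnor mor segk' segt (clsk perp cntu hypk trd)

/-- **The bound for points in solvable extensions.** -/
theorem sst : SolvStatement := solv yst grp (exc push (clsf hcmp)) lift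

end Pool.DynLehmer.LW
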