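import Mathlib

set_option autoImplicit false

/-!
# Subgroups of small index in alternating groups and three-cycles

`bags`: a family of pairwise commuting subgroups, no one of which has all its commutators in the
stabilizer of a point, has at most `2 * log₂ N` members, `N` the number of points.
`exists_delta`: a subgroup `P` of index `I` of an alternating group contains all three-cycles
outside a set `Δ` with `2 ^ #Δ ≤ I ^ 10`.
`cosets`: the three-cycles lie in at most `4 * (#Δ + 5) ^ 2 * n` cosets of `P`.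
-/

namespace Pool.DynLehmer.LW.Alt
open scoped Classical
open Equiv Equiv.Perm

section Bags

variable {T X ι : Type*} [Group T] [MulAction T X]

/-- the orbit of `x` under `K` -/
def oS (K : Subgroup T) (x : X) : Set X := {z | ∃ k ∈ K, k • x = z}

theorem self_oS (K : Subgroup T) (x : X) : x ∈ oS K x := ⟨1, K.one_mem, one_smul _ _⟩

theorem orb_double [Finite X] (x : X) {K K' : Subgroup T} (hK : K ≤ K') {e : T} (he : e ∈ K')
    (hc : ∀ k ∈ K, e * k = k * e) (hx : e • x ∉ oS K x) :
    2 * (oS K x).ncard ≤ (oS K' x).ncard := by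
  have hdis : Disjoint (oS K x) ((fun z => e • z) '' oS K x) := by
    rw [Set.disjoint_left]
    rintro z ⟨k, hk, rfl⟩ ⟨y, ⟨k', hk', rfl⟩, hy⟩
    apply hx
    refine ⟨k'⁻¹ * k, K.mul_mem (K.inv_mem hk') hk, ?_⟩
    have h1 : e • k' • x = k • x := hy
    rw [← mul_smul, hc k' hk', mul_smul] at h1
    rw [mul_smul, ← h1, inv_smul_smul]
  have hsub : oS K x ∪ (fun z => e • z) '' oS K x ⊆ oS K' x := by
    rintro z (⟨k, hk, rfl⟩ | ⟨y, ⟨k, hk, rfl⟩, rfl⟩)
    · exact ⟨k, hK hk, rfl⟩
    · exact ⟨e * k, K'.mul_mem he (hK hk), mul_smul _ _ _⟩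
  have h1 := Set.ncard_le_ncard hsub (Set.toFinite _)
  rw [Set.ncard_union_eq hdis (Set.toFinite _) (Set.toFinite _),
    Set.ncard_image_of_injective _ (MulAction.injective e)] at h1
  omega

theorem bags_aux [Finite X] (x : X) (E : ι → Subgroup T) (s : Finset ι)
    (hcomm : ∀ i ∈ s, ∀ j ∈ s, i ≠ j → ∀ a ∈ E i, ∀ b ∈ E j, a * b = b * a)
    (hbad : ∀ i ∈ s, ∃ a ∈ E i, ∃ b ∈ E i, (a * b * a⁻¹ * b⁻¹) • x ≠ x) :
    ∃ (K K' : Subgroup T) (p q : ℕ), p + q = s.card ∧ 2 ^ p ≤ (oS K x).ncard ∧
      2 ^ q ≤ (oS K' x).ncard ∧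
      (∀ g : T, (∀ i ∈ s, ∀ a ∈ E i, a * g = g * a) → ∀ k ∈ K, k * g = g * k) ∧
      (∀ g : T, (∀ i ∈ s, ∀ a ∈ E i, a * g = g * a) → ∀ k ∈ K', k * g = g * k) ∧
      (∀ k ∈ K, ∀ k' ∈ K', k * k' = k' * k) := by
  induction s using Finset.induction_on with
  | empty =>
    refine ⟨⊥, ⊥, 0, 0, rfl, ?_, ?_, ?_, ?_, ?_⟩
    · rw [pow_zero]
      exact (Set.ncard_pos (Set.toFinite _)).2 ⟨x, self_oS _ _⟩
    · rw [pow_zero]
      exact (Set.ncard_pos (Set.toFinite _)).2 ⟨x, self_oS _ _⟩
    · intro g _ k hk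
      rw [Subgroup.mem_bot] at hk
      rw [hk, one_mul, mul_one]
    · intro g _ k hk
      rw [Subgroup.mem_bot] at hk
      rw [hk, one_mul, mul_one]
    · intro k hk k' _
      rw [Subgroup.mem_bot] at hk
      rw [hk, one_mul, mul_one]
  | insert i s his ih =>
    obtain ⟨K, K', p, q, hpq, hp, hq, hK, hK', hKK⟩ := ih
      (fun i hi j hj hij => hcomm i (Finset.mem_insert_of_mem hi) j (Finset.mem_insert_of_mem hj)
        hij) (fun i hi => hbad i (Finset.mem_insert_of_mem hi))
    have hEs : ∀ e ∈ E i, ∀ j ∈ s, ∀ a ∈ E j, a * e = e * a := by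
      intro e he j hj a ha
      exact hcomm j (Finset.mem_insert_of_mem hj) i (Finset.mem_insert_self _ _)
        (fun h => his (h ▸ hj)) a ha e he
    have hKe : ∀ e ∈ E i, ∀ k ∈ K, e * k = k * e := fun e he k hk =>
      (hK e (hEs e he) k hk).symm
    have hKe' : ∀ e ∈ E i, ∀ k ∈ K', e * k = k * e := fun e he k hk =>
      (hK' e (hEs e he) k hk).symm
    have key : (∃ e ∈ E i, e • x ∉ oS K x) ∨ (∃ e ∈ E i, e • x ∉ oS K' x) := by
      by_contra hcon
      push Not at hcon
      obtain ⟨h1, h2⟩ := hcon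
      obtain ⟨a, ha, b, hb, hab⟩ := hbad i (Finset.mem_insert_self _ _)
      obtain ⟨k, hk, hkx⟩ := h1 a ha
      obtain ⟨k', hk', hkx'⟩ := h2 b hb
      apply hab
      have h3 : (k⁻¹ * a) • x = x := by rw [mul_smul, ← hkx, inv_smul_smul]
      have h4 : (k'⁻¹ * b) • x = x := by rw [mul_smul, ← hkx', inv_smul_smul]
      have h5 : (k⁻¹ * a)⁻¹ • x = x := by rw [inv_smul_eq_iff, h3]
      have h6 : (k'⁻¹ * b)⁻¹ • x = x := by rw [inv_smul_eq_iff, h4]
      have c1 : Commute k a := (hKe a ha k hk).symm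
      have c2 : Commute k b := (hKe b hb k hk).symm
      have c3 : Commute k' a := (hKe' a ha k' hk').symm
      have c4 : Commute k' b := (hKe' b hb k' hk').symm
      have c5 : Commute k k' := hKK k hk k' hk'
      have h7 : a * b * a⁻¹ * b⁻¹ =
          (k⁻¹ * a) * (k'⁻¹ * b) * (k⁻¹ * a)⁻¹ * (k'⁻¹ * b)⁻¹ := by
        have e1 : (k⁻¹ * a) * (k'⁻¹ * b) = (k⁻¹ * k'⁻¹) * (a * b) := by
          rw [mul_assoc, ← mul_assoc a, c3.inv_left.symm.eq]
          simp only [mul_assoc]
        have e2 : (k⁻¹ * a)⁻¹ * (k'⁻¹ * b)⁻¹ = (a⁻¹ * b⁻¹) * (k * k') := by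
          rw [mul_inv_rev, mul_inv_rev, inv_inv, inv_inv, mul_assoc, ← mul_assoc k,
            c2.inv_right.eq, mul_assoc, mul_assoc]
        have e3 : (k⁻¹ * k'⁻¹) * (a * b) * ((a⁻¹ * b⁻¹) * (k * k')) =
            (k⁻¹ * k'⁻¹) * (k * k') * (a * b * (a⁻¹ * b⁻¹)) := by
          have e4 : Commute (k * k') (a * b * (a⁻¹ * b⁻¹)) := by
            apply Commute.mul_left
            · exact (c1.mul_right c2).mul_right (c1.inv_right.mul_right c2.inv_right)
            · exact (c3.mul_right c4).mul_right (c3.inv_right.mul_right c4.inv_right)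
          rw [mul_assoc (k⁻¹ * k'⁻¹) (k * k'), e4.eq]
          simp only [mul_assoc]
        have e5 : (k⁻¹ * k'⁻¹) * (k * k') = 1 := by
          rw [c5.eq]
          group
        rw [mul_assoc (k⁻¹ * a * (k'⁻¹ * b)), e1, e2, e3, e5, one_mul]
        simp only [mul_assoc]
      rw [h7, mul_smul, mul_smul, mul_smul, h6, h5, h4, h3]
    have hcl : ∀ (L : Subgroup T) (g : T), (∀ k ∈ L, k * g = g * k) →
        (∀ e ∈ E i, e * g = g * e) → ∀ k ∈ L ⊔ E i, k * g = g * k := by
      intro L g h1 h2
      have h3 : L ⊔ E i ≤ Subgroup.centralizer {g} := by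
        refine sup_le ?_ ?_
        · intro k hk
          rw [Subgroup.mem_centralizer_singleton_iff]
          exact h1 k hk
        · intro k hk
          rw [Subgroup.mem_centralizer_singleton_iff]
          exact h2 k hk
      intro k hk
      exact Subgroup.mem_centralizer_singleton_iff.1 (h3 hk)
    rcases key with ⟨e, he, hx⟩ | ⟨e, he, hx⟩
    · refine ⟨K ⊔ E i, K', p + 1, q, ?_, ?_, hq, ?_, ?_, ?_⟩
      · rw [Finset.card_insert_of_notMem his]
        omega
      · have h1 := orb_double x (le_sup_left : K ≤ K ⊔ E i) (Subgroup.mem_sup_right he)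
          (fun k hk => hKe e he k hk) hx
        rw [pow_succ]
        omega
      · intro g hg
        exact hcl K g (hK g fun j hj => hg j (Finset.mem_insert_of_mem hj))
          (hg i (Finset.mem_insert_self _ _))
      · intro g hg
        exact hK' g fun j hj => hg j (Finset.mem_insert_of_mem hj)
      · intro k hk k' hk'
        exact hcl K k' (fun k hk => hKK k hk k' hk') (fun e he => hKe' e he k' hk') k hk
    · refine ⟨K, K' ⊔ E i, p, q + 1, ?_, hp, ?_, ?_, ?_, ?_⟩
      · rw [Finset.card_insert_of_notMem his]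
        omega
      · have h1 := orb_double x (le_sup_left : K' ≤ K' ⊔ E i) (Subgroup.mem_sup_right he)
          (fun k hk => hKe' e he k hk) hx
        rw [pow_succ]
        omega
      · intro g hg
        exact hK g fun j hj => hg j (Finset.mem_insert_of_mem hj)
      · intro g hg
        exact hcl K' g (hK' g fun j hj => hg j (Finset.mem_insert_of_mem hj))
          (hg i (Finset.mem_insert_self _ _))
      · intro k hk k' hk'
        exact (hcl K' k (fun k' hk' => (hKK k hk k' hk').symm) (fun e he => hKe e he k hk) k'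
          hk').symm

/-- Two bags. -/
theorem bags [Finite X] (x : X) (E : ι → Subgroup T) (s : Finset ι)
    (hcomm : ∀ i ∈ s, ∀ j ∈ s, i ≠ j → ∀ a ∈ E i, ∀ b ∈ E j, a * b = b * a)
    (hbad : ∀ i ∈ s, ∃ a ∈ E i, ∃ b ∈ E i, (a * b * a⁻¹ * b⁻¹) • x ≠ x) :
    2 ^ s.card ≤ Nat.card X ^ 2 := by
  obtain ⟨K, K', p, q, hpq, hp, hq, -⟩ := bags_aux x E s hcomm hbad
  have h1 : ∀ L : Subgroup T, (oS L x).ncard ≤ Nat.card X := fun L =>
    Set.ncard_le_card _
  rw [← hpq, pow_add, sq]
  exact Nat.mul_le_mul (hp.trans (h1 K)) (hq.trans (h1 K'))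

/-- Two bags, for the cosets of a subgroup. -/
theorem bags_index [Finite T] (P : Subgroup T) (E : ι → Subgroup T) (s : Finset ι)
    (hcomm : ∀ i ∈ s, ∀ j ∈ s, i ≠ j → ∀ a ∈ E i, ∀ b ∈ E j, a * b = b * a)
    (hbad : ∀ i ∈ s, ∃ a ∈ E i, ∃ b ∈ E i, a * b * a⁻¹ * b⁻¹ ∉ P) :
    2 ^ s.card ≤ P.index ^ 2 := by
  refine bags (X := T ⧸ P) ((1 : T) : T ⧸ P) E s hcomm ?_
  intro i hi
  obtain ⟨a, ha, b, hb, hab⟩ := hbad i hi
  refine ⟨a, ha, b, hb, fun h => hab ?_⟩
  have h1 : ((a * b * a⁻¹ * b⁻¹ * 1 : T) : T ⧸ P) = ((1 : T) : T ⧸ P) := h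
  rw [mul_one, eq_comm, QuotientGroup.eq, inv_one, one_mul] at h1
  exact h1

end Bags

section Delta

variable {α : Type*} [Fintype α] [DecidableEq α]

theorem comm_of_disjoint {Y Z : Finset α} (h : Disjoint Y Z) {a b : alternatingGroup α}
    (ha : (a : Perm α).support ⊆ Y) (hb : (b : Perm α).support ⊆ Z) : a * b = b * a := by
  apply Subtype.ext
  have h1 : Perm.Disjoint (a : Perm α) (b : Perm α) := by
    rw [Perm.disjoint_iff_disjoint_support]
    exact Finset.disjoint_of_subset_left ha (Finset.disjoint_of_subset_right hb h)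
  exact h1.commute.eq

/-- if the alternating group of `Y` is not in `P`, some commutator is not in `P` -/
theorem exists_comm (P : Subgroup (alternatingGroup α)) (Y : Finset α) (hY : Y.card = 5)
    (hbad : ¬ (alternatingGroup.ofSubtype Y).range ≤ P) :
    ∃ a ∈ (alternatingGroup.ofSubtype Y).range, ∃ b ∈ (alternatingGroup.ofSubtype Y).range,
      a * b * a⁻¹ * b⁻¹ ∉ P := by
  by_contra hcon
  push Not at hcon
  apply hbad
  have h5 : 5 ≤ Nat.card Y := by
    rw [Nat.card_eq_fintype_card, Fintype.card_coe, hY]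
  have h1 : (⊤ : Subgroup (alternatingGroup Y)) ≤ P.comap (alternatingGroup.ofSubtype Y) := by
    rw [← commutator_alternatingGroup_eq_top h5, commutator_eq_closure, Subgroup.closure_le]
    rintro g ⟨a, b, rfl⟩
    rw [commutatorElement_def]
    change alternatingGroup.ofSubtype Y (a * b * a⁻¹ * b⁻¹) ∈ P
    rw [map_mul, map_mul, map_mul, map_inv, map_inv]
    exact hcon _ ⟨a, rfl⟩ _ ⟨b, rfl⟩
  rintro _ ⟨g, rfl⟩
  exact h1 (Subgroup.mem_top g)

/-- A subgroup of index `I` contains all three-cycles outside a set of at most `10 * log₂ I`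
points. -/
theorem exists_delta (P : Subgroup (alternatingGroup α)) :
    ∃ Δ : Finset α, 2 ^ Δ.card ≤ P.index ^ 10 ∧ (Δ.card + 5 ≤ Fintype.card α →
      ∀ g : alternatingGroup α, Perm.IsThreeCycle (g : Perm α) →
        Disjoint (g : Perm α).support Δ → g ∈ P) := by
  obtain ⟨F, ⟨hF1, hF2⟩, hFmax⟩ := Set.Finite.exists_maximal
    (Set.toFinite {F : Finset (Finset α) |
      (∀ Y ∈ F, Y.card = 5 ∧ ¬ (alternatingGroup.ofSubtype Y).range ≤ P) ∧
        ∀ Y ∈ F, ∀ Z ∈ F, Y ≠ Z → Disjoint Y Z})
    ⟨∅, by simp, by simp⟩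
  refine ⟨F.sup id, ?_, ?_⟩
  · have h1 : 2 ^ F.card ≤ P.index ^ 2 := by
      refine bags_index P (fun Y : Finset α => (alternatingGroup.ofSubtype Y).range) F ?_ ?_
      · intro Y hY Z hZ hYZ a ha b hb
        exact comm_of_disjoint (hF2 Y hY Z hZ hYZ)
          ((alternatingGroup.mem_range_ofSubtype_iff Y a).1 ha)
          ((alternatingGroup.mem_range_ofSubtype_iff Z b).1 hb)
      · intro Y hY
        exact exists_comm P Y (hF1 Y hY).1 (hF1 Y hY).2
    have h2 : (F.sup id).card ≤ 5 * F.card := by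
      rw [Finset.sup_eq_biUnion]
      refine Finset.card_biUnion_le.trans ?_
      refine (Finset.sum_le_card_nsmul F _ 5 fun Y hY => (hF1 Y hY).1.le).trans ?_
      rw [smul_eq_mul, mul_comm]
    calc 2 ^ (F.sup id).card ≤ 2 ^ (5 * F.card) := Nat.pow_le_pow_right (by norm_num) h2
      _ = (2 ^ F.card) ^ 5 := by rw [mul_comm, pow_mul]
      _ ≤ (P.index ^ 2) ^ 5 := Nat.pow_le_pow_left h1 5
      _ = P.index ^ 10 := by rw [← pow_mul]
  · intro hcard g hg hdis
    have h3 : (g : Perm α).support ⊆ (F.sup id)ᶜ := by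
      rwa [Finset.subset_compl_iff_disjoint_right]
    have h4 : (g : Perm α).support.card ≤ 5 := by
      rw [hg.card_support]
      norm_num
    have h5 : 5 ≤ ((F.sup id)ᶜ).card := by
      rw [Finset.card_compl]
      omega
    obtain ⟨Y, hgY, hYd, hYc⟩ := Finset.exists_subsuperset_card_eq h3 h4 h5
    have h6 : Disjoint Y (F.sup id) := by
      rwa [← Finset.subset_compl_iff_disjoint_right]
    have hgood : (alternatingGroup.ofSubtype Y).range ≤ P := by
      by_contra hbad
      have hYF : Y ∉ F := by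
        intro hY
        have h7 : Y ⊆ F.sup id := Finset.le_sup (f := id) hY
        have h8 : Y = ∅ := by
          have h9 := Finset.disjoint_of_subset_right h7 h6
          exact Finset.disjoint_self_iff_empty _ |>.1 h9
        rw [h8] at hYc
        simp at hYc
      have h7 := hFmax (y := insert Y F) ⟨?_, ?_⟩ (Finset.subset_insert Y F)
      · exact hYF (h7 (Finset.mem_insert_self Y F))
      · intro Z hZ
        rcases Finset.mem_insert.1 hZ with rfl | hZ
        · exact ⟨hYc, hbad⟩
        · exact hF1 Z hZ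
      · have h8 : ∀ Z ∈ F, Disjoint Y Z := fun Z hZ =>
          Finset.disjoint_of_subset_right (Finset.le_sup (f := id) hZ) h6
        intro Z hZ Z' hZ' hne
        rcases Finset.mem_insert.1 hZ with hZ1 | hZ1
        · rcases Finset.mem_insert.1 hZ' with hZ2 | hZ2
          · exact absurd (hZ1.trans hZ2.symm) hne
          · rw [hZ1]
            exact h8 Z' hZ2
        · rcases Finset.mem_insert.1 hZ' with hZ2 | hZ2
          · rw [hZ2]
            exact (h8 Z hZ1).symm
          · exact hF2 Z hZ1 Z' hZ2 hne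
    exact hgood ((alternatingGroup.mem_range_ofSubtype_iff Y g).2 hgY)

/-- `a ↦ b ↦ d ↦ a` -/
def tc (a b d : α) : Perm α := swap a d * swap a b

theorem tc_self {g : Perm α} (hg : g.IsThreeCycle) {a : α} (ha : a ∈ g.support) :
    g = tc a (g a) (g (g a)) := by
  have h3 : g (g (g a)) = a := by
    have h4 : g ^ 3 = 1 := by
      rw [← hg.orderOf]
      exact pow_orderOf_eq_one g
    have h5 : (g ^ 3) a = a := by rw [h4]; rfl
    simpa [pow_succ] using h5
  have h1 : g a ≠ a := Perm.mem_support.1 ha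
  have h2 : g (g a) ≠ g a := fun h => h1 (g.injective h)
  have h2' : g (g a) ≠ a := by
    intro h
    rw [h] at h3
    exact h1 h3
  have hs : g.support = {a, g a, g (g a)} := by
    symm
    apply Finset.eq_of_subset_of_card_le
    · intro z hz
      simp only [Finset.mem_insert, Finset.mem_singleton] at hz
      rcases hz with rfl | rfl | rfl
      · exact ha
      · exact Perm.apply_mem_support.2 ha
      · exact Perm.apply_mem_support.2 (Perm.apply_mem_support.2 ha)
    · rw [hg.card_support, Finset.card_insert_of_notMem, Finset.card_insert_of_notMem,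
        Finset.card_singleton]
      · simpa using h2.symm
      · simp only [Finset.mem_insert, Finset.mem_singleton, not_or]
        exact ⟨h1.symm, h2'.symm⟩
  ext z
  by_cases hz : z ∈ g.support
  · rw [hs] at hz
    simp only [Finset.mem_insert, Finset.mem_singleton] at hz
    rcases hz with rfl | rfl | rfl
    · simp [tc, Perm.mul_apply, swap_apply_of_ne_of_ne h1 h2.symm]
    · simp [tc, Perm.mul_apply]
    · simp [tc, Perm.mul_apply, h3, swap_apply_of_ne_of_ne h2' h2]
  · have hz' := hz
    rw [hs] at hz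
    simp only [Finset.mem_insert, Finset.mem_singleton, not_or] at hz
    rw [Perm.notMem_support.1 hz', tc, Perm.mul_apply, swap_apply_of_ne_of_ne hz.1 hz.2.1,
      swap_apply_of_ne_of_ne hz.1 hz.2.2]

theorem tc_inv_mul {a b d d' : α} (hab : a ≠ b) (had : a ≠ d) (had' : a ≠ d') (hbd : b ≠ d)
    (hbd' : b ≠ d') : (tc a b d)⁻¹ * tc a b d' = swap b d * swap b d' := by
  have h1 : (tc a b d)⁻¹ * tc a b d' = (swap a b * swap a d * swap a b) *
      (swap a b * swap a d' * swap a b) := by
    rw [tc, tc, mul_inv_rev, swap_inv, swap_inv]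
    simp only [mul_assoc, swap_mul_self_mul]
  have h2 : ∀ e : α, a ≠ e → b ≠ e → swap a b * swap a e * swap a b = swap b e := by
    intro e hae hbe
    have h3 := swap_apply_apply (swap a b) a e
    rw [swap_apply_left, swap_apply_of_ne_of_ne hae.symm hbe.symm, swap_inv] at h3
    exact h3.symm
  rw [h1, h2 d had hbd, h2 d' had' hbd']

/-- the coset of the cycle `a ↦ b ↦ d ↦ a` -/
noncomputable def tq (P : Subgroup (alternatingGroup α)) (a b d : α) : alternatingGroup α ⧸ P :=
  if h : tc a b d ∈ alternatingGroup α then ((⟨tc a b d, h⟩ : alternatingGroup α) :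
    alternatingGroup α ⧸ P) else ((1 : alternatingGroup α) : alternatingGroup α ⧸ P)

theorem tq_self (P : Subgroup (alternatingGroup α)) {g : alternatingGroup α}
    (hg : (g : Perm α).IsThreeCycle) {a : α} (ha : a ∈ (g : Perm α).support) :
    ((g : alternatingGroup α) : alternatingGroup α ⧸ P) =
      tq P a ((g : Perm α) a) ((g : Perm α) ((g : Perm α) a)) := by
  have h1 := tc_self hg ha
  have h2 : tc a ((g : Perm α) a) ((g : Perm α) ((g : Perm α) a)) ∈ alternatingGroup α := by
    rw [← h1]
    exact g.2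
  rw [tq, dif_pos h2]
  congr 1
  exact Subtype.ext h1

theorem tq_eq (P : Subgroup (alternatingGroup α)) {Δ : Finset α}
    (hΔ : ∀ g : alternatingGroup α, Perm.IsThreeCycle (g : Perm α) →
        Disjoint (g : Perm α).support Δ → g ∈ P) {a b d d' : α} (ha : a ∈ Δ) (hb : b ∉ Δ)
    (hd : d ∉ Δ) (hd' : d' ∉ Δ) (hbd : b ≠ d) (hbd' : b ≠ d') : tq P a b d = tq P a b d' := by
  have hab : a ≠ b := fun h => hb (h ▸ ha)
  have had : a ≠ d := fun h => hd (h ▸ ha)
  have had' : a ≠ d' := fun h => hd' (h ▸ ha)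
  have hm : ∀ e : α, a ≠ e → tc a b e ∈ alternatingGroup α := by
    intro e he
    exact mul_mem_alternatingGroup_of_isSwap ⟨a, e, he, rfl⟩ ⟨a, b, hab, rfl⟩
  rw [tq, tq, dif_pos (hm d had), dif_pos (hm d' had'), QuotientGroup.eq]
  by_cases hdd : d = d'
  · subst hdd
    rw [inv_mul_cancel]
    exact P.one_mem
  · have h1 := tc_inv_mul hab had had' hbd hbd'
    have h2 : (((⟨tc a b d, hm d had⟩ : alternatingGroup α)⁻¹ * ⟨tc a b d', hm d' had'⟩ :
        alternatingGroup α) : Perm α) = swap b d * swap b d' := h1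
    apply hΔ
    · rw [h2]
      exact isThreeCycle_swap_mul_swap_same hbd hbd' hdd
    · rw [h2, Finset.disjoint_left]
      intro z hz hzΔ
      rw [Perm.mem_support] at hz
      apply hz
      have hzb : z ≠ b := fun h => hb (h ▸ hzΔ)
      have hzd : z ≠ d := fun h => hd (h ▸ hzΔ)
      have hzd' : z ≠ d' := fun h => hd' (h ▸ hzΔ)
      rw [Perm.mul_apply, swap_apply_of_ne_of_ne hzb hzd', swap_apply_of_ne_of_ne hzb hzd]

/-- The three-cycles lie in few cosets of a subgroup of small index. -/
theorem cosets (P : Subgroup (alternatingGroup α)) (h5 : 5 ≤ Fintype.card α) :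
    ∃ k : ℕ, 2 ^ k ≤ P.index ^ 10 ∧
      {q : alternatingGroup α ⧸ P | ∃ g : alternatingGroup α, (g : Perm α).IsThreeCycle ∧
        ((g : alternatingGroup α) : alternatingGroup α ⧸ P) = q}.ncard ≤
        4 * (k + 5) ^ 2 * Fintype.card α := by
  obtain ⟨Δ, hΔ1, hΔ2⟩ := exists_delta P
  refine ⟨Δ.card, hΔ1, ?_⟩
  set n := Fintype.card α with hn
  set k := Δ.card with hk
  have hfin : Finite (alternatingGroup α ⧸ P) := inferInstance
  by_cases hkn : k + 5 ≤ n
  · have hΔ := hΔ2 hkn
    let F : α × α → alternatingGroup α ⧸ P := fun p =>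
      if h : ∃ d, d ∉ Δ ∧ p.2 ≠ d then tq P p.1 p.2 h.choose else ((1 : alternatingGroup α) :
        alternatingGroup α ⧸ P)
    let U : Finset (alternatingGroup α ⧸ P) :=
      {((1 : alternatingGroup α) : alternatingGroup α ⧸ P)} ∪
        (Δ ×ˢ (Finset.univ : Finset α)).image F ∪
        (Δ ×ˢ (Δ ×ˢ (Finset.univ : Finset α))).image (fun p => tq P p.1 p.2.1 p.2.2) ∪
        (Δ ×ˢ (Δ ×ˢ (Finset.univ : Finset α))).image (fun p => tq P p.1 p.2.2 p.2.1)
    have hsub : {q : alternatingGroup α ⧸ P | ∃ g : alternatingGroup α,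
        (g : Perm α).IsThreeCycle ∧ ((g : alternatingGroup α) : alternatingGroup α ⧸ P) = q} ⊆
        (U : Set (alternatingGroup α ⧸ P)) := by
      rintro q ⟨g, hg, rfl⟩
      rw [Finset.mem_coe]
      by_cases hdis : Disjoint (g : Perm α).support Δ
      · have h1 : ((g : alternatingGroup α) : alternatingGroup α ⧸ P) =
            ((1 : alternatingGroup α) : alternatingGroup α ⧸ P) := by
          rw [eq_comm, QuotientGroup.eq, inv_one, one_mul]
          exact hΔ g hg hdis
        rw [h1]
        simp [U]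
      · rw [Finset.not_disjoint_iff] at hdis
        obtain ⟨a, ha, haΔ⟩ := hdis
        have h1 := tq_self P hg ha
        set b := (g : Perm α) a with hb
        set d := (g : Perm α) b with hd
        have hbd : b ≠ d := by
          intro h
          have h2 : (g : Perm α) a = a := (g : Perm α).injective (hb.symm.trans (h.trans hd)).symm
          exact Perm.mem_support.1 ha h2
        rw [h1]
        by_cases hbΔ : b ∈ Δ
        · apply Finset.mem_union_left
          apply Finset.mem_union_right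
          exact Finset.mem_image.2 ⟨(a, b, d), by simp [haΔ, hbΔ], rfl⟩
        · by_cases hdΔ : d ∈ Δ
          · apply Finset.mem_union_right
            exact Finset.mem_image.2 ⟨(a, d, b), by simp [haΔ, hdΔ], rfl⟩
          · apply Finset.mem_union_left
            apply Finset.mem_union_left
            apply Finset.mem_union_right
            refine Finset.mem_image.2 ⟨(a, b), by simp [haΔ], ?_⟩
            have hex : ∃ e, e ∉ Δ ∧ b ≠ e := ⟨d, hdΔ, hbd⟩
            have h2 : F (a, b) = tq P a b hex.choose := dif_pos hex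
            rw [h2]
            exact tq_eq P hΔ haΔ hbΔ hex.choose_spec.1 hdΔ hex.choose_spec.2 hbd
    have hU : U.card ≤ 1 + k * n + k * (k * n) + k * (k * n) := by
      refine (Finset.card_union_le _ _).trans (Nat.add_le_add ?_ ?_)
      · refine (Finset.card_union_le _ _).trans (Nat.add_le_add ?_ ?_)
        · refine (Finset.card_union_le _ _).trans (Nat.add_le_add ?_ ?_)
          · rw [Finset.card_singleton]
          · refine Finset.card_image_le.trans ?_
            rw [Finset.card_product, Finset.card_univ]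
        · refine Finset.card_image_le.trans ?_
          rw [Finset.card_product, Finset.card_product, Finset.card_univ]
      · refine Finset.card_image_le.trans ?_
        rw [Finset.card_product, Finset.card_product, Finset.card_univ]
    have h1 := Set.ncard_le_ncard hsub (Set.toFinite _)
    rw [Set.ncard_coe_finset] at h1
    refine h1.trans (hU.trans ?_)
    nlinarith [Nat.zero_le (k * n), Nat.zero_le (k ^ 2 * n), Nat.zero_le n]
  · let U : Finset (alternatingGroup α ⧸ P) :=
        ((Finset.univ : Finset α) ×ˢ ((Finset.univ : Finset α) ×ˢ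
          (Finset.univ : Finset α))).image (fun p => tq P p.1 p.2.1 p.2.2)
    have hsub : {q : alternatingGroup α ⧸ P | ∃ g : alternatingGroup α,
        (g : Perm α).IsThreeCycle ∧ ((g : alternatingGroup α) : alternatingGroup α ⧸ P) = q} ⊆
        (U : Set (alternatingGroup α ⧸ P)) := by
      rintro q ⟨g, hg, rfl⟩
      rw [Finset.mem_coe]
      have hne : (g : Perm α).support.Nonempty := by
        rw [← Finset.card_pos, hg.card_support]
        norm_num
      obtain ⟨a, ha⟩ := hne
      rw [tq_self P hg ha]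
      exact Finset.mem_image.2 ⟨(a, _, _), by simp, rfl⟩
    have h1 := Set.ncard_le_ncard hsub (Set.toFinite _)
    rw [Set.ncard_coe_finset] at h1
    have hU : U.card ≤ n * (n * n) := by
      refine Finset.card_image_le.trans ?_
      rw [Finset.card_product, Finset.card_product, Finset.card_univ]
    have h2 : n ≤ k + 5 := by omega
    have h3 : n * n ≤ (k + 5) * (k + 5) := Nat.mul_le_mul h2 h2
    have h4 : n * (n * n) ≤ n * ((k + 5) * (k + 5)) := Nat.mul_le_mul_left _ h3
    refine h1.trans (hU.trans (h4.trans ?_))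
    nlinarith [Nat.zero_le (n * ((k + 5) * (k + 5)))]

end Delta

end Pool.DynLehmer.LW.Alt
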