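import Mathlib

set_option autoImplicit false

/-!
# Automorphisms of alternating groups preserve the three-cycles
-/

namespace Pool.DynLehmer.LW.Alt
open scoped Classical Nat
open Equiv Equiv.Perm

theorem fac_aux {j : ℕ} (hj : 3 ≤ j) : 2 * (3 ^ j * j !) < 3 * (3 * j - 3)! := by
  induction j, hj using Nat.le_induction with
  | base => decide
  | succ j hj ih =>
    have h1 : 3 * (j + 1) - 3 = (3 * j - 3) + 3 := by omega
    rw [h1]
    have h2 : (3 * j - 3 + 3)! = (3 * j - 3 + 3) * ((3 * j - 3 + 2) * ((3 * j - 3 + 1) *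
        (3 * j - 3)!)) := by
      rw [Nat.factorial_succ, Nat.factorial_succ, Nat.factorial_succ]
    rw [h2, pow_succ, Nat.factorial_succ]
    have h3 : 3 * (j + 1) ≤ (3 * j - 3 + 3) * ((3 * j - 3 + 2) * (3 * j - 3 + 1)) := by
      obtain ⟨t, rfl⟩ : ∃ t, j = t + 3 := ⟨j - 3, by omega⟩
      have h4 : 3 * (t + 3) - 3 = 3 * t + 6 := by omega
      rw [h4]
      have h5 : 8 * 7 ≤ (3 * t + 6 + 2) * (3 * t + 6 + 1) :=
        Nat.mul_le_mul (by omega) (by omega)
      have h6 : (3 * t + 6 + 3) * (8 * 7) ≤ (3 * t + 6 + 3) * ((3 * t + 6 + 2) * (3 * t + 6 + 1)) :=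
        Nat.mul_le_mul_left _ h5
      omega
    calc 2 * (3 ^ j * 3 * ((j + 1) * j !)) = (3 * (j + 1)) * (2 * (3 ^ j * j !)) := by ring
      _ < (3 * (j + 1)) * (3 * (3 * j - 3)!) := Nat.mul_lt_mul_of_pos_left ih (by omega)
      _ ≤ ((3 * j - 3 + 3) * ((3 * j - 3 + 2) * (3 * j - 3 + 1))) * (3 * (3 * j - 3)!) :=
          Nat.mul_le_mul_right _ h3
      _ = _ := by ring

theorem fac_lt {j m : ℕ} (hj : 2 ≤ j) (hm : 8 ≤ m + 3 * j) :
    2 * (m ! * 3 ^ j * j !) < 3 * (m + 3 * j - 3)! := by
  rcases Nat.lt_or_ge j 3 with h | h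
  · obtain rfl : j = 2 := by omega
    have h1 : m + 3 * 2 - 3 = m + 3 := by omega
    rw [h1]
    have h2 : (m + 3)! = (m + 3) * ((m + 2) * ((m + 1) * m !)) := by
      rw [Nat.factorial_succ, Nat.factorial_succ, Nat.factorial_succ]
    rw [h2]
    have h3 : 2 * (9 * 2) < 3 * ((m + 3) * ((m + 2) * (m + 1))) := by
      have h5 : 5 * (4 * 3) ≤ (m + 3) * ((m + 2) * (m + 1)) :=
        Nat.mul_le_mul (by omega) (Nat.mul_le_mul (by omega) (by omega))
      omega
    have h4 : 0 < m ! := Nat.factorial_pos m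
    calc 2 * (m ! * 3 ^ 2 * 2 !) = (2 * (9 * 2)) * m ! := by
          rw [show (2 : ℕ)! = 2 from rfl]
          ring
      _ < (3 * ((m + 3) * ((m + 2) * (m + 1)))) * m ! := Nat.mul_lt_mul_of_pos_right h3 h4
      _ = _ := by ring
  · have h1 : m + 3 * j - 3 = m + (3 * j - 3) := by omega
    rw [h1]
    have h2 : m ! * (3 * j - 3)! ≤ (m + (3 * j - 3))! :=
      Nat.le_of_dvd (Nat.factorial_pos _) (Nat.factorial_mul_factorial_dvd_factorial_add _ _)
    have h4 : 0 < m ! := Nat.factorial_pos m
    calc 2 * (m ! * 3 ^ j * j !) = m ! * (2 * (3 ^ j * j !)) := by ring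
      _ < m ! * (3 * (3 * j - 3)!) := Nat.mul_lt_mul_of_pos_left (fac_aux h) h4
      _ = 3 * (m ! * (3 * j - 3)!) := by ring
      _ ≤ 3 * (m + (3 * j - 3))! := Nat.mul_le_mul_left _ h2

section

variable {α : Type*} [Fintype α] [DecidableEq α]

theorem card_cent (h : alternatingGroup α) :
    Nat.card (Subgroup.centralizer {h}) ≤ Nat.card (Subgroup.centralizer {(h : Perm α)}) ∧
    Nat.card (Subgroup.centralizer {(h : Perm α)}) ≤
      2 * Nat.card (Subgroup.centralizer {h}) := by
  let CS := Subgroup.centralizer {(h : Perm α)}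
  have e : Nat.card ((alternatingGroup α).subgroupOf CS) =
      Nat.card (Subgroup.centralizer {h}) := by
    refine Nat.card_congr
      { toFun := fun g => ⟨⟨g.1.1, Subgroup.mem_subgroupOf.1 g.2⟩, ?_⟩
        invFun := fun g => ⟨⟨g.1.1, ?_⟩, ?_⟩
        left_inv := fun g => rfl
        right_inv := fun g => rfl }
    · rw [Subgroup.mem_centralizer_singleton_iff]
      apply Subtype.ext
      exact Subgroup.mem_centralizer_singleton_iff.1 g.1.2
    · rw [Subgroup.mem_centralizer_singleton_iff]
      exact congrArg Subtype.val (Subgroup.mem_centralizer_singleton_iff.1 g.2)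
    · rw [Subgroup.mem_subgroupOf]
      exact g.1.2
  have h1 := ((alternatingGroup α).subgroupOf CS).card_mul_index
  rw [e] at h1
  have h2 : ((alternatingGroup α).subgroupOf CS).index ≤ 2 := by
    have h3 : (alternatingGroup α).relIndex CS ∣ (alternatingGroup α).index :=
      Subgroup.relIndex_dvd_index_of_normal _ _
    have h4 : (alternatingGroup α).index ≤ 2 := by
      rcases subsingleton_or_nontrivial α with h5 | h5
      · rw [alternatingGroup.index_eq_one]
        norm_num
      · rw [alternatingGroup.index_eq_two]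
    have h5 : 0 < (alternatingGroup α).index := Nat.pos_of_ne_zero Subgroup.FiniteIndex.index_ne_zero
    exact (Nat.le_of_dvd h5 h3).trans h4
  have h3 : 1 ≤ ((alternatingGroup α).subgroupOf CS).index :=
    Nat.one_le_iff_ne_zero.2 Subgroup.FiniteIndex.index_ne_zero
  change _ ≤ Nat.card CS ∧ Nat.card CS ≤ _
  constructor
  · rw [← h1]
    exact Nat.le_mul_of_pos_right _ h3
  · rw [← h1, mul_comm]
    exact Nat.mul_le_mul_right _ h2

theorem card_cent_map (θ : alternatingGroup α ≃* alternatingGroup α) (g : alternatingGroup α) :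
    Nat.card (Subgroup.centralizer {θ g}) = Nat.card (Subgroup.centralizer {g}) := by
  refine Nat.card_congr
    { toFun := fun t => ⟨θ.symm t.1, ?_⟩
      invFun := fun t => ⟨θ t.1, ?_⟩
      left_inv := fun t => Subtype.ext (θ.apply_symm_apply _)
      right_inv := fun t => Subtype.ext (θ.symm_apply_apply _) }
  · have h1 := Subgroup.mem_centralizer_singleton_iff.1 t.2
    rw [Subgroup.mem_centralizer_singleton_iff]
    have h2 := congrArg θ.symm h1
    simpa using h2
  · have h1 := Subgroup.mem_centralizer_singleton_iff.1 t.2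
    rw [Subgroup.mem_centralizer_singleton_iff]
    have h2 := congrArg θ h1
    simpa using h2

theorem isThreeCycle_map (h8 : 8 ≤ Fintype.card α) (θ : alternatingGroup α ≃* alternatingGroup α)
    {g : alternatingGroup α} (hg : (g : Perm α).IsThreeCycle) :
    ((θ g : alternatingGroup α) : Perm α).IsThreeCycle := by
  set h : alternatingGroup α := θ g with hh
  have ho : orderOf (h : Perm α) = 3 := by
    have h1 : orderOf (h : Perm α) = orderOf h := Subgroup.orderOf_coe h
    have h2 : orderOf (g : Perm α) = orderOf g := Subgroup.orderOf_coe g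
    rw [h1, hh, MulEquiv.orderOf_eq, ← h2, hg.orderOf]
  obtain ⟨j, hj⟩ := cycleType_prime_order (σ := (h : Perm α)) (by rw [ho]; norm_num)
  rw [ho] at hj
  rcases Nat.eq_zero_or_pos j with rfl | hjpos
  · rw [IsThreeCycle, hj]
    rfl
  · exfalso
    have hsum : (h : Perm α).cycleType.sum ≤ Fintype.card α := by
      rw [sum_cycleType]
      exact Finset.card_le_univ _
    have hs : (h : Perm α).cycleType.sum = 3 * (j + 1) := by
      rw [hj, Multiset.sum_replicate, smul_eq_mul, mul_comm]
    have hC1 : Nat.card (Subgroup.centralizer {(g : Perm α)}) = (Fintype.card α - 3)! * 3 := by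
      rw [nat_card_centralizer, hg.cycleType]
      simp
    have hC2 : Nat.card (Subgroup.centralizer {(h : Perm α)}) =
        (Fintype.card α - 3 * (j + 1))! * 3 ^ (j + 1) * (j + 1)! := by
      rw [nat_card_centralizer, hs, hj]
      have h1 : (Multiset.replicate (j + 1) 3).toFinset = {3} := by
        rw [Multiset.toFinset_replicate, if_neg (by omega)]
      rw [h1, Finset.prod_singleton, Multiset.count_replicate_self, Multiset.prod_replicate]
    have h1 := (card_cent g).2
    have h2 := (card_cent h).1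
    rw [hh, card_cent_map, ← hh] at h2
    rw [hC1] at h1
    rw [hC2] at h2
    obtain ⟨m, hm⟩ : ∃ m, Fintype.card α = m + 3 * (j + 1) :=
      ⟨Fintype.card α - 3 * (j + 1), by omega⟩
    have h3 := fac_lt (j := j + 1) (m := m) (by omega) (by omega)
    rw [hm] at h1 h2
    have h4 : m + 3 * (j + 1) - 3 * (j + 1) = m := by omega
    rw [h4] at h2
    have h5 : 3 * (m + 3 * (j + 1) - 3)! ≤ 2 * (m ! * 3 ^ (j + 1) * (j + 1)!) := by
      calc 3 * (m + 3 * (j + 1) - 3)! = (m + 3 * (j + 1) - 3)! * 3 := by ring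
        _ ≤ 2 * Nat.card (Subgroup.centralizer {g}) := h1
        _ ≤ _ := Nat.mul_le_mul_left _ h2
    omega

end

end Pool.DynLehmer.LW.Alt
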