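import Pool.Agent.Lib.MP_2194ec_nt.LW.AltA
import Pool.Agent.Lib.MP_2194ec_nt.LW.AltB

set_option autoImplicit false

/-!
# Pairs of independent vectors with a small orbit, from an alternating section
-/

namespace Pool.DynLehmer.LW.Alt
open scoped Classical
open Equiv Equiv.Perm

section Act

variable {G Ω : Type} [Group G] [Finite G] [Finite Ω] [MulAction G Ω]

theorem orb_pair_le (x z : Ω) (W : Subgroup G) (hW : W ≤ MulAction.stabilizer G x) (Z : Set Ω)
    (hZ : ∀ w ∈ W, w • z ∈ Z) :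
    Nat.card (MulAction.orbit G (![x, z] : Fin 2 → Ω)) ≤ W.index * Z.ncard := by
  have h1 : W ⊓ MulAction.stabilizer G z ≤ MulAction.stabilizer G (![x, z] : Fin 2 → Ω) := by
    rintro w ⟨hw, hwz⟩
    rw [MulAction.mem_stabilizer_iff]
    funext i
    have hwx : w • x = x := MulAction.mem_stabilizer_iff.1 (hW hw)
    have hwz' : w • z = z := MulAction.mem_stabilizer_iff.1 hwz
    fin_cases i
    · exact hwx
    · exact hwz'
  have h2 : (MulAction.stabilizer G z).relIndex W = (MulAction.stabilizer W z).index := rfl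
  have h3 : (MulAction.stabilizer W z).index ≤ Z.ncard := by
    rw [MulAction.index_stabilizer]
    refine Set.ncard_le_ncard ?_ (Set.toFinite _)
    rintro _ ⟨w, rfl⟩
    exact hZ w w.2
  have h4 : (W ⊓ MulAction.stabilizer G z).index ≤ W.index * Z.ncard := by
    rw [← Subgroup.relIndex_mul_index (inf_le_left : W ⊓ MulAction.stabilizer G z ≤ W),
      Subgroup.inf_relIndex_left, h2, mul_comm]
    exact Nat.mul_le_mul_left _ h3
  rw [Nat.card_coe_set_eq, ← MulAction.index_stabilizer]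
  refine le_trans ?_ h4
  exact Nat.le_of_dvd (Nat.pos_of_ne_zero Subgroup.FiniteIndex.index_ne_zero)
    (Subgroup.index_dvd_of_le h1)

/-- The elements of `B` which move `x` inside its orbit under `C`. -/
def KK (B C : Subgroup G) (hBC : ∀ g ∈ B, ∀ h ∈ C, g * h * g⁻¹ ∈ C) (x : Ω) : Subgroup B where
  carrier := {b | (b : G) • x ∈ oS C x}
  one_mem' := ⟨1, C.one_mem, by simp⟩
  mul_mem' := by
    rintro a b ⟨c, hc, hca⟩ ⟨d, hd, hdb⟩
    refine ⟨(a : G) * d * (a : G)⁻¹ * c, C.mul_mem (hBC a a.2 d hd) hc, ?_⟩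
    rw [mul_smul, hca, mul_smul, inv_smul_smul, mul_smul, hdb, ← mul_smul]
    rfl
  inv_mem' := by
    rintro a ⟨c, hc, hca⟩
    refine ⟨(a : G)⁻¹ * c⁻¹ * (a : G)⁻¹⁻¹, hBC _ (B.inv_mem a.2) _ (C.inv_mem hc), ?_⟩
    rw [inv_inv, mul_smul, ← hca, mul_smul, inv_smul_smul]
    rfl

variable {B C : Subgroup G} (hCB : C ≤ B) (hBC : ∀ g ∈ B, ∀ h ∈ C, g * h * g⁻¹ ∈ C) (x : Ω)

theorem KK_index : (KK B C hBC x).index ≤ (oS B x).ncard := by
  have h1 : MulAction.stabilizer B x ≤ KK B C hBC x := by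
    intro b hb
    exact ⟨1, C.one_mem, by rw [one_smul]; exact (MulAction.mem_stabilizer_iff.1 hb).symm⟩
  have h2 : (MulAction.stabilizer B x).index = (oS B x).ncard := by
    rw [MulAction.index_stabilizer]
    congr 1
    ext z
    constructor
    · rintro ⟨b, rfl⟩
      exact ⟨b, b.2, rfl⟩
    · rintro ⟨b, hb, rfl⟩
      exact ⟨⟨b, hb⟩, rfl⟩
  rw [← h2]
  exact Nat.le_of_dvd (Nat.pos_of_ne_zero Subgroup.FiniteIndex.index_ne_zero)
    (Subgroup.index_dvd_of_le h1)

variable {n : ℕ} (φ : B →* alternatingGroup (Fin n)) (hφ : Function.Surjective φ)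
  (hker : φ.ker = C.subgroupOf B)

include hker in
theorem ker_le : φ.ker ≤ KK B C hBC x := by
  intro b hb
  rw [hker, Subgroup.mem_subgroupOf] at hb
  exact ⟨b, hb, rfl⟩

include hBC hφ hker in
/-- The points which come from three-cycles are few. -/
theorem Z_le (h5 : 5 ≤ n) {R : ℕ} (hR : (oS C x).ncard ≤ R) :
    ∃ k : ℕ, 2 ^ k ≤ (oS B x).ncard ^ 10 ∧
      {z : Ω | ∃ b : B, ((φ b : alternatingGroup (Fin n)) : Perm (Fin n)).IsThreeCycle ∧
        (b : G) • x = z}.ncard ≤ R * (4 * (k + 5) ^ 2 * n) := by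
  set K := KK B C hBC x with hK
  set P : Subgroup (alternatingGroup (Fin n)) := K.map φ with hP
  have hkerK : φ.ker ≤ K := ker_le hBC x φ hker
  have hPi : P.index = K.index := Subgroup.index_map_eq K hφ hkerK
  obtain ⟨k, hk1, hk2⟩ := cosets P (by rwa [Fintype.card_fin])
  rw [Fintype.card_fin] at hk2
  refine ⟨k, hk1.trans (Nat.pow_le_pow_left (hPi.le.trans (KK_index hBC x)) 10), ?_⟩
  set S := {q : alternatingGroup (Fin n) ⧸ P | ∃ g : alternatingGroup (Fin n),
    (g : Perm (Fin n)).IsThreeCycle ∧ ((g : alternatingGroup (Fin n)) :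
      alternatingGroup (Fin n) ⧸ P) = q} with hS
  have hex : ∀ q : alternatingGroup (Fin n) ⧸ P, ∃ b : B,
      ((φ b : alternatingGroup (Fin n)) : alternatingGroup (Fin n) ⧸ P) = q := by
    intro q
    obtain ⟨g, rfl⟩ := QuotientGroup.mk_surjective q
    obtain ⟨b, rfl⟩ := hφ g
    exact ⟨b, rfl⟩
  choose bq hbq using hex
  have hSf : S.Finite := Set.toFinite _
  let U : Finset Ω := hSf.toFinset.biUnion fun q =>
    (Set.toFinite ((fun w => (bq q : G) • w) '' oS C x)).toFinset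
  have hsub : {z : Ω | ∃ b : B, ((φ b : alternatingGroup (Fin n)) : Perm (Fin n)).IsThreeCycle ∧
      (b : G) • x = z} ⊆ (U : Set Ω) := by
    rintro z ⟨b, hb, rfl⟩
    rw [Finset.mem_coe, Finset.mem_biUnion]
    refine ⟨((φ b : alternatingGroup (Fin n)) : alternatingGroup (Fin n) ⧸ P), ?_, ?_⟩
    · rw [Set.Finite.mem_toFinset]
      exact ⟨φ b, hb, rfl⟩
    · rw [Set.Finite.mem_toFinset]
      set q := ((φ b : alternatingGroup (Fin n)) : alternatingGroup (Fin n) ⧸ P) with hq
      have h1 := hbq q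
      rw [hq, QuotientGroup.eq] at h1
      obtain ⟨b', hb', hb''⟩ := h1
      rw [← map_inv, ← map_mul] at hb''
      have h2 : b'⁻¹ * ((bq q)⁻¹ * b) ∈ φ.ker := by
        rw [MonoidHom.mem_ker, map_mul, map_inv, hb'', inv_mul_cancel]
      have h3 : b' * (b'⁻¹ * ((bq q)⁻¹ * b)) ∈ K := K.mul_mem hb' (hkerK h2)
      rw [mul_inv_cancel_left] at h3
      refine ⟨(((bq q)⁻¹ * b : B) : G) • x, h3, ?_⟩
      change (bq q : G) • (((bq q)⁻¹ * b : B) : G) • x = (b : G) • x
      rw [← mul_smul]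
      congr 1
      rw [Subgroup.coe_mul, Subgroup.coe_inv, mul_inv_cancel_left]
  have h1 := Set.ncard_le_ncard hsub (Set.toFinite _)
  rw [Set.ncard_coe_finset] at h1
  refine h1.trans ?_
  have h2 : U.card ≤ hSf.toFinset.card * R := by
    refine Finset.card_biUnion_le_card_mul _ _ _ ?_
    intro q _
    rw [← Set.ncard_eq_toFinset_card]
    refine le_trans ?_ hR
    exact Set.ncard_image_le (Set.toFinite _)
  refine h2.trans ?_
  rw [← Set.ncard_eq_toFinset_card, mul_comm]
  exact Nat.mul_le_mul_left _ hk2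

include hBC hφ hker in
/-- A three-cycle which moves the orbit of `x` under `C`. -/
theorem exists_tc (hlt : ∃ b ∈ B, b • x ∉ oS C x) :
    ∃ b : B, ((φ b : alternatingGroup (Fin n)) : Perm (Fin n)).IsThreeCycle ∧
      (b : G) • x ∉ oS C x := by
  by_contra hcon
  push Not at hcon
  set K := KK B C hBC x with hK
  have h1 : K.map φ = ⊤ := by
    rw [eq_top_iff, ← alternatingGroup.closure_isThreeCycles_eq_top, Subgroup.closure_le]
    intro g hg
    obtain ⟨b, rfl⟩ := hφ g
    exact ⟨b, hcon b hg, rfl⟩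
  obtain ⟨b, hb, hbx⟩ := hlt
  have h2 : φ ⟨b, hb⟩ ∈ K.map φ := by
    rw [h1]
    exact Subgroup.mem_top _
  obtain ⟨b', hb', hb''⟩ := h2
  have h3 : b'⁻¹ * ⟨b, hb⟩ ∈ φ.ker := by
    rw [MonoidHom.mem_ker, map_mul, map_inv, hb'', inv_mul_cancel]
  have h4 : b' * (b'⁻¹ * ⟨b, hb⟩) ∈ K := K.mul_mem hb' (ker_le hBC x φ hker h3)
  rw [mul_inv_cancel_left] at h4
  exact hbx h4

end Act

section Conj

variable {G : Type} [Group G] {B C : Subgroup G}
  {n : ℕ} (φ : B →* alternatingGroup (Fin n)) (hφ : Function.Surjective φ)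
  (hker : φ.ker = C.subgroupOf B)

include hφ hker in
/-- Conjugation preserves the three-cycles of an alternating section. -/
theorem tc_conj (h8 : 8 ≤ n) (w : G) (hB : ∀ b, b ∈ B ↔ w * b * w⁻¹ ∈ B)
    (hC : ∀ b, b ∈ C ↔ w * b * w⁻¹ ∈ C) (b : B)
    (hb : ((φ b : alternatingGroup (Fin n)) : Perm (Fin n)).IsThreeCycle) :
    ((φ ⟨w * b * w⁻¹, (hB b).1 b.2⟩ : alternatingGroup (Fin n)) :
      Perm (Fin n)).IsThreeCycle := by
  let c : B ≃* B :=
    { toFun := fun b => ⟨w * b * w⁻¹, (hB b).1 b.2⟩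
      invFun := fun b => ⟨w⁻¹ * b * w, (hB _).2 (by
        have h1 : w * (w⁻¹ * (b : G) * w) * w⁻¹ = b := by group
        rw [h1]
        exact b.2)⟩
      left_inv := fun b => by
        apply Subtype.ext
        change w⁻¹ * (w * (b : G) * w⁻¹) * w = b
        group
      right_inv := fun b => by
        apply Subtype.ext
        change w * (w⁻¹ * (b : G) * w) * w⁻¹ = b
        group
      map_mul' := fun a b => by
        apply Subtype.ext
        change w * ((a : G) * b) * w⁻¹ = (w * a * w⁻¹) * (w * b * w⁻¹)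
        group }
  have hc : φ.ker.map (c : B →* B) = φ.ker := by
    ext b
    constructor
    · rintro ⟨a, ha, rfl⟩
      rw [SetLike.mem_coe, hker, Subgroup.mem_subgroupOf] at ha
      rw [hker, Subgroup.mem_subgroupOf]
      exact (hC a).1 ha
    · intro hb
      refine ⟨c.symm b, ?_, c.apply_symm_apply b⟩
      rw [hker, Subgroup.mem_subgroupOf] at hb
      rw [SetLike.mem_coe, hker, Subgroup.mem_subgroupOf, hC]
      have h1 : w * ((c.symm b : B) : G) * w⁻¹ = b := congrArg Subtype.val (c.apply_symm_apply b)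
      rw [h1]
      exact hb
  let e := QuotientGroup.quotientKerEquivOfSurjective φ hφ
  let θ : alternatingGroup (Fin n) ≃* alternatingGroup (Fin n) :=
    (e.symm.trans (QuotientGroup.congr φ.ker φ.ker c hc)).trans e
  have he : ∀ b : B, e (QuotientGroup.mk b) = φ b := fun b => rfl
  have hθ : θ (φ b) = φ (c b) := by
    have h1 : e.symm (φ b) = QuotientGroup.mk b := by
      rw [MulEquiv.symm_apply_eq, he]
    change e (QuotientGroup.congr φ.ker φ.ker c hc (e.symm (φ b))) = φ (c b)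
    rw [h1]
    rfl
  have h1 := isThreeCycle_map (by rwa [Fintype.card_fin]) θ hb
  rw [hθ] at h1
  exact h1

end Conj

end Pool.DynLehmer.LW.Alt
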