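import Pool.Agent.Lib.MP_2194ec_nt.LW.Defs
import Pool.Agent.Lib.MP_2194ec_nt.GAL.R.Bih

set_option autoImplicit false
set_option linter.unusedSectionVars false

/-!
# Row CLSK, part 1: multihomogeneous polynomials, the Segre map
-/

namespace Pool.DynLehmer.LW
open MvPolynomial Pool.DynLehmer Pool.DynLehmer.GS
open scoped Classical

namespace Cl

variable {K : Type} [Field K] {k : ℕ}

/-- the weight of the pair `i` -/
def wt (k : ℕ) (i : Fin k) : Fin k × Fin 2 → ℕ := fun a => if a.1 = i then 1 else 0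

theorem weight_wt (i : Fin k) (t : Fin k × Fin 2 →₀ ℕ) :
    Finsupp.weight (wt k i) t = t (i, 0) + t (i, 1) := by
  rw [Finsupp.weight_apply, Finsupp.sum_fintype _ _ (fun i => by simp), Fintype.sum_prod_type,
    Finset.sum_eq_single i]
  · simp [wt, Fin.sum_univ_two]
  · intro b _ hb
    simp [wt, hb]
  · intro h
    exact absurd (Finset.mem_univ _) h

theorem mh_iff {e : Fin k → ℕ} {Q : MvPolynomial (Fin k × Fin 2) K} :
    MH e Q ↔ ∀ i, IsWeightedHomogeneous (wt k i) Q (e i) := by
  constructor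
  · intro h i t ht
    rw [weight_wt]
    exact h t (mem_support_iff.2 ht) i
  · intro h t ht i
    rw [← weight_wt]
    exact h i (mem_support_iff.1 ht)

theorem mh_mul {a b : Fin k → ℕ} {G H : MvPolynomial (Fin k × Fin 2) K} (hG : MH a G)
    (hH : MH b H) : MH (a + b) (G * H) := by
  rw [mh_iff] at *
  exact fun i => (hG i).mul (hH i)

theorem mh_C (c : K) : MH (0 : Fin k → ℕ) (C c) :=
  mh_iff.2 fun _ => isWeightedHomogeneous_C _ c

theorem mh_one : MH (0 : Fin k → ℕ) (1 : MvPolynomial (Fin k × Fin 2) K) := by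
  rw [← C_1]
  exact mh_C 1

theorem mh_X (a : Fin k × Fin 2) :
    MH (Pi.single a.1 1) (X a : MvPolynomial (Fin k × Fin 2) K) := mh_iff.2 fun i => by
  have h := isWeightedHomogeneous_X K (wt k i) a
  have h2 : wt k i a = (Pi.single a.1 1 : Fin k → ℕ) i := by
    rw [wt, Pi.single_apply]
    simp [eq_comm]
  rwa [← h2]

theorem mh_pow {a : Fin k → ℕ} {G : MvPolynomial (Fin k × Fin 2) K} (hG : MH a G) (n : ℕ) :
    MH (n • a) (G ^ n) := by
  rw [mh_iff] at *
  exact fun i => (hG i).pow n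

theorem mh_prod {ι : Type*} (s : Finset ι) (a : ι → Fin k → ℕ)
    (G : ι → MvPolynomial (Fin k × Fin 2) K) (h : ∀ i ∈ s, MH (a i) (G i)) :
    MH (∑ i ∈ s, a i) (∏ i ∈ s, G i) := by
  induction s using Finset.induction_on with
  | empty => exact mh_one
  | insert i s hi ih =>
    rw [Finset.sum_insert hi, Finset.prod_insert hi]
    exact mh_mul (h i (Finset.mem_insert_self i s))
      (ih fun j hj => h j (Finset.mem_insert_of_mem hj))

theorem mh_zero (a : Fin k → ℕ) : MH a (0 : MvPolynomial (Fin k × Fin 2) K) := by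
  intro t ht
  simp at ht

theorem mh_add {a : Fin k → ℕ} {G H : MvPolynomial (Fin k × Fin 2) K} (hG : MH a G)
    (hH : MH a H) : MH a (G + H) := by
  rw [mh_iff] at *
  exact fun i => (hG i).add (hH i)

theorem mh_sum {ι : Type*} (s : Finset ι) {a : Fin k → ℕ}
    (G : ι → MvPolynomial (Fin k × Fin 2) K) (h : ∀ i ∈ s, MH a (G i)) :
    MH a (∑ i ∈ s, G i) := by
  induction s using Finset.induction_on with
  | empty => exact mh_zero a
  | insert i s hi ih =>
    rw [Finset.sum_insert hi]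
    exact mh_add (h i (Finset.mem_insert_self i s))
      (ih fun j hj => h j (Finset.mem_insert_of_mem hj))

theorem mh_unique {a b : Fin k → ℕ} {G : MvPolynomial (Fin k × Fin 2) K} (hG : MH a G)
    (hG' : MH b G) (h0 : G ≠ 0) : a = b := by
  obtain ⟨t, ht⟩ := support_nonempty.2 h0
  funext i
  exact (hG t ht i).symm.trans (hG' t ht i)

theorem mh_of_dvd {a : Fin k → ℕ} {G H : MvPolynomial (Fin k × Fin 2) K} (hH : MH a H)
    (h0 : H ≠ 0) (h : G ∣ H) : ∃ b : Fin k → ℕ, b ≤ a ∧ MH b G := by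
  obtain ⟨y, rfl⟩ := h
  rw [mh_iff] at hH
  choose b hb hb' using fun i => whom_of_mul (wt k i) (hH i) h0
  exact ⟨b, hb, mh_iff.2 hb'⟩

theorem mh_map {L : Type} [Field L] (f : K →+* L) {a : Fin k → ℕ}
    {G : MvPolynomial (Fin k × Fin 2) K} (hG : MH a G) : MH a (map f G) := by
  intro t ht
  exact hG t (support_map_subset f G ht)

theorem mh_of_map {L : Type} [Field L] (f : K →+* L) {a : Fin k → ℕ}
    {G : MvPolynomial (Fin k × Fin 2) K} (hG : MH a (map f G)) : MH a G := by
  intro t ht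
  refine hG t ?_
  rw [mem_support_iff, coeff_map]
  intro h
  exact (mem_support_iff.1 ht) (f.injective (h.trans (map_zero f).symm))

/-- the support -/
def su (e : Fin k → ℕ) : Finset (Fin k) := Finset.univ.filter fun i => 1 ≤ e i

theorem mem_su {e : Fin k → ℕ} {i : Fin k} : i ∈ su e ↔ e i ≠ 0 := by
  rw [su, Finset.mem_filter]
  constructor
  · rintro ⟨-, h⟩
    omega
  · intro h
    exact ⟨Finset.mem_univ _, by omega⟩

/-! ### The action of the map -/

theorem mh_FX {F : Fin 2 → MvPolynomial (Fin 2) K} {q : ℕ} (hF : ∀ i, (F i).IsHomogeneous q)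
    (a : Fin k × Fin 2) : MH (q • (Pi.single a.1 1 : Fin k → ℕ)) (FX F k a) := by
  rw [FX, (F a.2).as_sum, map_sum]
  refine mh_sum _ _ fun u hu => ?_
  have h1 : u 0 + u 1 = q := by
    have h2 : u.degree = q := by
      rw [Finsupp.degree_eq_weight_one]
      exact hF a.2 (mem_support_iff.1 hu)
    rw [← h2, Finsupp.degree_eq_sum, Fin.sum_univ_two]
  rw [monomial_eq, Finsupp.prod_fintype _ _ (fun i => pow_zero _), Fin.prod_univ_two, map_mul,
    map_mul, rename_C, map_pow, map_pow, rename_X, rename_X]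
  have h3 := mh_mul (mh_C (k := k) (coeff u (F a.2)))
    (mh_mul (mh_pow (mh_X (K := K) (a.1, 0)) (u 0)) (mh_pow (mh_X (K := K) (a.1, 1)) (u 1)))
  have h4 : (0 : Fin k → ℕ) + (u 0 • Pi.single a.1 1 + u 1 • Pi.single a.1 1) =
      q • (Pi.single a.1 1 : Fin k → ℕ) := by
    rw [zero_add, ← add_smul, h1]
  rw [← h4]
  exact h3

theorem bind_mono {τ : Type} [Fintype τ] {σ : Type} (f : τ → MvPolynomial σ K) (d : τ →₀ ℕ)
    (r : K) : bind₁ f (monomial d r) = C r * ∏ i, f i ^ d i := by
  rw [bind₁_monomial]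
  congr 1
  exact Finsupp.prod_fintype d (fun i n => f i ^ n) fun i => pow_zero _

theorem mh_bind {F : Fin 2 → MvPolynomial (Fin 2) K} {q : ℕ} (hF : ∀ i, (F i).IsHomogeneous q)
    {e : Fin k → ℕ} {Q : MvPolynomial (Fin k × Fin 2) K} (hQ : MH e Q) :
    MH (q • e) (bind₁ (FX F k) Q) := by
  rw [Q.as_sum, map_sum]
  refine mh_sum _ _ fun u hu => ?_
  rw [bind_mono]
  have h1 := mh_mul (mh_C (k := k) (coeff u Q)) (mh_prod Finset.univ
    (fun a => u a • (q • (Pi.single a.1 1 : Fin k → ℕ))) (fun a => FX F k a ^ u a)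
    fun a _ => mh_pow (mh_FX hF a) (u a))
  have h2 : (0 : Fin k → ℕ) + ∑ a : Fin k × Fin 2, u a • (q • (Pi.single a.1 1 : Fin k → ℕ)) =
      q • e := by
    rw [zero_add]
    funext i
    rw [Finset.sum_apply, Fintype.sum_prod_type, Finset.sum_eq_single i]
    · rw [Fin.sum_univ_two]
      simp only [Pi.smul_apply, smul_eq_mul, Pi.single_eq_same, mul_one]
      rw [← hQ u hu i]
      ring
    · intro b _ hb
      simp [hb.symm]
    · intro h
      exact absurd (Finset.mem_univ _) h
  rw [← h2]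
  exact h1

theorem mh_iter {F : Fin 2 → MvPolynomial (Fin 2) K} {q : ℕ} (hF : ∀ i, (F i).IsHomogeneous q)
    {e : Fin k → ℕ} {Q : MvPolynomial (Fin k × Fin 2) K} (hQ : MH e Q) (m : ℕ) :
    MH (q ^ m • e) ((bind₁ (FX F k))^[m] Q) := by
  induction m with
  | zero => simpa using hQ
  | succ m ih =>
    rw [Function.iterate_succ_apply', pow_succ', mul_smul]
    exact mh_bind hF ih

/-- a tuple as a point -/
def uc {N : Type} (y : Fin k → Fin 2 → N) : Fin k × Fin 2 → N := fun a => y a.1 a.2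

theorem aeval_bind {F : Fin 2 → MvPolynomial (Fin 2) K} {N : Type} [Field N] [Algebra K N]
    (y : Fin k → Fin 2 → N) (Q : MvPolynomial (Fin k × Fin 2) K) :
    aeval (uc y) (bind₁ (FX F k) Q) = aeval (uc fun i => gAct F N (y i)) Q := by
  rw [aeval_bind₁]
  congr 2
  funext a
  rw [FX, aeval_rename]
  rfl

theorem aeval_iter {F : Fin 2 → MvPolynomial (Fin 2) K} {N : Type} [Field N] [Algebra K N]
    (m : ℕ) (y : Fin k → Fin 2 → N) (Q : MvPolynomial (Fin k × Fin 2) K) :
    aeval (uc y) ((bind₁ (FX F k))^[m] Q) = aeval (uc fun i => (gAct F N)^[m] (y i)) Q := by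
  induction m generalizing y with
  | zero => rfl
  | succ m ih =>
    rw [Function.iterate_succ_apply', aeval_bind, ih]
    rfl

/-! ### The Segre map -/

theorem aeval_seg {N : Type} [Field N] [Algebra K N] (y : Fin k → Fin 2 → N)
    (f : MvPolynomial (Fin k → Fin 2) K) :
    aeval (segk y) f = aeval (uc y) (bind₁ (segX K k) f) := by
  rw [aeval_bind₁]
  congr 2
  funext I
  rw [segX, map_prod]
  refine Finset.prod_congr rfl fun i _ => ?_
  rw [aeval_X]
  rfl

theorem prod_range_ite {R : Type} [CommMonoid R] (x y : R) {a t : ℕ} (h : a ≤ t) :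
    ∏ l ∈ Finset.range t, (if l < a then x else y) = x ^ a * y ^ (t - a) := by
  obtain ⟨b, rfl⟩ := Nat.exists_eq_add_of_le h
  rw [Finset.prod_range_add, Nat.add_sub_cancel_left]
  congr 1
  · rw [Finset.prod_congr rfl fun l hl => if_pos (Finset.mem_range.1 hl), Finset.prod_const,
      Finset.card_range]
  · rw [Finset.prod_congr rfl fun l _ => if_neg (by omega), Finset.prod_const,
      Finset.card_range]

/-- lifting multihomogeneous polynomials of degree `(t, ..., t)` -/
theorem exists_lift {Q : MvPolynomial (Fin k × Fin 2) K} {t : ℕ} (hQ : MH (fun _ => t) Q) :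
    ∃ f : MvPolynomial (Fin k → Fin 2) K, f.IsHomogeneous t ∧ bind₁ (segX K k) f = Q := by
  refine ⟨∑ u ∈ Q.support, C (coeff u Q) * ∏ l ∈ Finset.range t,
    X (fun i => if l < u (i, 0) then (0 : Fin 2) else 1), ?_, ?_⟩
  · refine IsHomogeneous.sum _ _ _ fun u _ => ?_
    have h1 : (∏ l ∈ Finset.range t, (X (fun i => if l < u (i, 0) then (0 : Fin 2) else 1) :
        MvPolynomial (Fin k → Fin 2) K)).IsHomogeneous (∑ _l ∈ Finset.range t, 1) :=
      IsHomogeneous.prod _ _ _ fun l _ => isHomogeneous_X K _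
    rw [Finset.sum_const, Finset.card_range, smul_eq_mul, mul_one] at h1
    have h2 := (isHomogeneous_C (Fin k → Fin 2) (coeff u Q)).mul h1
    rwa [zero_add] at h2
  · rw [map_sum]
    conv_rhs => rw [Q.as_sum]
    refine Finset.sum_congr rfl fun u hu => ?_
    rw [map_mul, map_prod, bind₁_C_right, monomial_eq,
      Finsupp.prod_fintype _ _ (fun i => pow_zero _), Fintype.prod_prod_type]
    congr 1
    have h1 : ∀ l ∈ Finset.range t, bind₁ (segX K k) (X (fun i => if l < u (i, 0) then
        (0 : Fin 2) else 1)) = ∏ i, if l < u (i, 0) then X (i, 0) else X (i, 1) := by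
      intro l _
      rw [bind₁_X_right, segX]
      refine Finset.prod_congr rfl fun i _ => ?_
      split_ifs <;> rfl
    rw [Finset.prod_congr rfl h1, Finset.prod_comm]
    refine Finset.prod_congr rfl fun i _ => ?_
    have h2 : u (i, 0) + u (i, 1) = t := hQ u hu i
    rw [prod_range_ite _ _ (by omega), Fin.prod_univ_two]
    congr 2
    omega

/-! ### The evaluation with scalars -/

/-- the degrees of an exponent -/
noncomputable def dgs (t : Fin k × Fin 2 →₀ ℕ) : Fin k →₀ ℕ :=
  Finsupp.equivFunOnFinite.symm fun i => t (i, 0) + t (i, 1)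

/-- the evaluation with scalars -/
noncomputable def Ph {E : Type} [Field E] [Algebra K E] (z : Fin k × Fin 2 → E) :
    MvPolynomial (Fin k × Fin 2) K →ₐ[K] MvPolynomial (Fin k) E :=
  aeval fun a => C (z a) * X a.1

theorem ph_monomial {E : Type} [Field E] [Algebra K E] (z : Fin k × Fin 2 → E)
    (t : Fin k × Fin 2 →₀ ℕ) (c : K) :
    Ph z (monomial t c) = monomial (dgs t) (aeval z (monomial t c)) := by
  rw [Ph, aeval_monomial, aeval_monomial, Finsupp.prod_fintype _ _ (fun i => pow_zero _),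
    Finsupp.prod_fintype _ _ (fun i => pow_zero _), Fintype.prod_prod_type,
    Fintype.prod_prod_type, monomial_eq, Finsupp.prod_fintype _ _ (fun i => pow_zero _), map_mul,
    map_prod, mul_assoc, ← Finset.prod_mul_distrib]
  congr 1
  refine Finset.prod_congr rfl fun i _ => ?_
  rw [Fin.prod_univ_two, Fin.prod_univ_two]
  have h : dgs t i = t (i, 0) + t (i, 1) := rfl
  rw [h, pow_add, map_mul, map_pow, map_pow, mul_pow, mul_pow]
  ring

/-- the component of multidegree `e` -/
noncomputable def comp (e : Fin k →₀ ℕ) (Q : MvPolynomial (Fin k × Fin 2) K) :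
    MvPolynomial (Fin k × Fin 2) K :=
  ∑ t ∈ Q.support.filter fun t => dgs t = e, monomial t (coeff t Q)

theorem coeff_comp (e : Fin k →₀ ℕ) (Q : MvPolynomial (Fin k × Fin 2) K)
    (u : Fin k × Fin 2 →₀ ℕ) : coeff u (comp e Q) = if dgs u = e then coeff u Q else 0 := by
  rw [comp, coeff_sum]
  simp only [coeff_monomial]
  rw [Finset.sum_ite_eq']
  by_cases h : dgs u = e
  · rw [if_pos h]
    by_cases h0 : coeff u Q = 0
    · rw [h0, ite_self]
    · rw [if_pos]
      exact Finset.mem_filter.2 ⟨mem_support_iff.2 h0, h⟩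
  · rw [if_neg h, if_neg]
    intro h'
    exact h (Finset.mem_filter.1 h').2

theorem mh_comp (e : Fin k →₀ ℕ) (Q : MvPolynomial (Fin k × Fin 2) K) : MH e (comp e Q) := by
  intro t ht i
  rw [mem_support_iff, coeff_comp] at ht
  have h : dgs t = e := by
    by_contra h
    rw [if_neg h] at ht
    exact ht rfl
  rw [← h]
  rfl

theorem coeff_ph {E : Type} [Field E] [Algebra K E] (z : Fin k × Fin 2 → E)
    (Q : MvPolynomial (Fin k × Fin 2) K) (e : Fin k →₀ ℕ) :
    coeff e (Ph z Q) = aeval z (comp e Q) := by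
  conv_lhs => rw [Q.as_sum, map_sum]
  rw [coeff_sum, comp, map_sum, Finset.sum_filter]
  refine Finset.sum_congr rfl fun t _ => ?_
  rw [ph_monomial, coeff_monomial]

theorem exists_comp {Q : MvPolynomial (Fin k × Fin 2) K} (h : Q ≠ 0) :
    ∃ e, comp e Q ≠ 0 := by
  obtain ⟨t, ht⟩ := support_nonempty.2 h
  refine ⟨dgs t, fun h0 => (mem_support_iff.1 ht) ?_⟩
  have h1 := coeff_comp (dgs t) Q t
  rw [if_pos rfl, h0, coeff_zero] at h1
  exact h1.symm

theorem ph_mh {E : Type} [Field E] [Algebra K E] (z : Fin k × Fin 2 → E) {e : Fin k → ℕ}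
    {Q : MvPolynomial (Fin k × Fin 2) K} (hQ : MH e Q) :
    Ph z Q = monomial (Finsupp.equivFunOnFinite.symm e) (aeval z Q) := by
  conv_lhs => rw [Q.as_sum, map_sum]
  conv_rhs => rw [Q.as_sum, map_sum, map_sum]
  refine Finset.sum_congr rfl fun t ht => ?_
  have h : dgs t = Finsupp.equivFunOnFinite.symm e := Finsupp.ext fun i => hQ t ht i
  rw [ph_monomial, h]

end Cl

end Pool.DynLehmer.LW
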