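import Pool.Agent.Lib.MP_2194ec_nt.LW.ClC

set_option autoImplicit false
set_option linter.unusedSectionVars false

/-!
# Row CLSK, part 4: factors over the algebraic closure
-/

namespace Pool.DynLehmer.LW
open MvPolynomial Pool.DynLehmer Pool.DynLehmer.GS
open scoped Classical

namespace Cl

/-! ### A periodic factor -/

theorem exists_periodic {A : Type} [CommRing A] [IsDomain A] [UniqueFactorizationMonoid A]
    (β : A →* A) {Q : A} (h0 : Q ≠ 0) (hu : ¬ IsUnit Q) (hd : Q ∣ β Q) :
    ∃ (G : A) (n : ℕ), Irreducible G ∧ G ∣ Q ∧ 1 ≤ n ∧ G ∣ β^[n] G := by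
  let S : Finset A := (UniqueFactorizationMonoid.factors Q).toFinset
  have hS : ∀ G ∈ S, Irreducible G ∧ G ∣ Q := by
    intro G hG
    rw [Multiset.mem_toFinset] at hG
    exact ⟨UniqueFactorizationMonoid.irreducible_of_factor G hG,
      UniqueFactorizationMonoid.dvd_of_mem_factors hG⟩
  have hprod := UniqueFactorizationMonoid.factors_prod h0
  have hstep : ∀ G : S, ∃ G' : S, (G : A) ∣ β (G' : A) := by
    intro G
    have h1 : (G : A) ∣ β ((UniqueFactorizationMonoid.factors Q).prod) := by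
      have h2 : β Q ∣ β ((UniqueFactorizationMonoid.factors Q).prod) :=
        map_dvd β hprod.symm.dvd
      exact ((hS G G.2).2.trans hd).trans h2
    rw [map_multiset_prod] at h1
    obtain ⟨G', hG', h3⟩ := (hS G G.2).1.prime.exists_mem_multiset_map_dvd h1
    exact ⟨⟨G', Multiset.mem_toFinset.2 hG'⟩, h3⟩
  choose φ hφ using hstep
  obtain ⟨G₀, hG₀⟩ := UniqueFactorizationMonoid.exists_mem_factors h0 hu
  have hit : ∀ (n : ℕ) (G : S), (G : A) ∣ β^[n] ((φ^[n] G : S) : A) := by
    intro n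
    induction n with
    | zero => exact fun G => dvd_rfl
    | succ n ih =>
      intro G
      rw [Function.iterate_succ_apply', Function.iterate_succ_apply]
      have h1 := map_dvd β (ih (φ G))
      exact (hφ G).trans h1
  obtain ⟨a, b, hab, h⟩ := Finite.exists_ne_map_eq_of_infinite
    (fun n : ℕ => φ^[n] (⟨G₀, Multiset.mem_toFinset.2 hG₀⟩ : S))
  have key : ∀ a b : ℕ, a < b → φ^[a] (⟨G₀, Multiset.mem_toFinset.2 hG₀⟩ : S) =
      φ^[b] (⟨G₀, Multiset.mem_toFinset.2 hG₀⟩ : S) →
      ∃ (G : A) (n : ℕ), Irreducible G ∧ G ∣ Q ∧ 1 ≤ n ∧ G ∣ β^[n] G := by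
    intro a b hlt h
    let G := φ^[a] (⟨G₀, Multiset.mem_toFinset.2 hG₀⟩ : S)
    have h1 : φ^[b - a] G = G := by
      show φ^[b - a] (φ^[a] _) = φ^[a] _
      rw [← Function.iterate_add_apply, Nat.sub_add_cancel hlt.le, h]
    have h2 := hit (b - a) G
    rw [h1] at h2
    exact ⟨G, b - a, (hS G G.2).1, (hS G G.2).2, by omega, h2⟩
  rcases lt_or_gt_of_ne hab with hlt | hlt
  · exact key a b hlt h
  · exact key b a hlt h.symm

/-! ### Norms -/

variable {K : Type} [Field K] {k : ℕ}

theorem exists_norm {M σ : Type} [Field M] [Algebra K M] [FiniteDimensional K M] [IsGalois K M]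
    (P : MvPolynomial σ M) : ∃ R : MvPolynomial σ K,
      map (algebraMap K M) R = ∏ s : M ≃ₐ[K] M, map (s : M →+* M) P := by
  have h : (∏ s : M ≃ₐ[K] M, map (s : M →+* M) P) ∈
      Set.range (MvPolynomial.map (σ := σ) (algebraMap K M)) := by
    rw [mem_range_map_iff_coeffs_subset]
    intro c hc
    rw [Finset.mem_coe, mem_coeffs_iff] at hc
    obtain ⟨t, -, rfl⟩ := hc
    have h1 : ∀ τ : M ≃ₐ[K] M, τ (coeff t (∏ s : M ≃ₐ[K] M, map (s : M →+* M) P)) =
        coeff t (∏ s : M ≃ₐ[K] M, map (s : M →+* M) P) := by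
      intro τ
      have h2 : map (τ : M →+* M) (∏ s : M ≃ₐ[K] M, map (s : M →+* M) P) =
          ∏ s : M ≃ₐ[K] M, map (s : M →+* M) P := by
        rw [map_prod]
        refine Fintype.prod_equiv (Equiv.mulLeft τ) _ _ fun s => ?_
        rw [map_map]
        rfl
      have h3 := congrArg (coeff t) h2
      rw [coeff_map] at h3
      exact h3
    have h2 := (IsGalois.mem_bot_iff_fixed (F := K) (E := M) _).2 h1
    rwa [IntermediateField.mem_bot] at h2
  exact h

theorem mh_norm {M : Type} [Field M] [Algebra K M] [FiniteDimensional K M]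
    {P : MvPolynomial (Fin k × Fin 2) M} {e : Fin k → ℕ} (hP : MH e P)
    {R : MvPolynomial (Fin k × Fin 2) K}
    (hR : map (algebraMap K M) R = ∏ s : M ≃ₐ[K] M, map (s : M →+* M) P) :
    MH (Fintype.card (M ≃ₐ[K] M) • e) R := by
  refine mh_of_map (algebraMap K M) ?_
  rw [hR]
  have h1 := mh_prod Finset.univ (fun _ : M ≃ₐ[K] M => e)
    (fun s => map (s : M →+* M) P) fun s _ => mh_map _ hP
  rwa [Finset.sum_const, Finset.card_univ] at h1

theorem isUnit_of_mh_zero {P : MvPolynomial (Fin k × Fin 2) K} (hP : MH (0 : Fin k → ℕ) P)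
    (h0 : P ≠ 0) : IsUnit P := by
  have h1 : P = C (coeff 0 P) := by
    refine MvPolynomial.ext _ _ fun t => ?_
    rw [coeff_C]
    by_cases ht : 0 = t
    · rw [if_pos ht, ht]
    · rw [if_neg ht]
      by_contra hc
      apply ht
      refine Finsupp.ext fun a => ?_
      have h2 := hP t (mem_support_iff.2 hc) a.1
      have h3 : t (a.1, 0) = 0 := (Nat.eq_zero_of_add_eq_zero h2).1
      have h4 : t (a.1, 1) = 0 := (Nat.eq_zero_of_add_eq_zero h2).2
      obtain ⟨i, j⟩ := a
      fin_cases j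
      · exact h3.symm
      · exact h4.symm
  have h2 : coeff 0 P ≠ 0 := by
    intro h
    rw [h, C_0] at h1
    exact h0 h1
  rw [h1]
  exact (isUnit_iff_ne_zero.2 h2).map C

theorem mh_unit {P : MvPolynomial (Fin k × Fin 2) K} {e : Fin k → ℕ} (hP : MH e P)
    (hu : IsUnit P) : e = 0 := by
  obtain ⟨b, hb, hb'⟩ := mh_of_dvd mh_one one_ne_zero hu.dvd
  have h1 : b = 0 := by
    funext i
    exact Nat.le_zero.1 (hb i)
  rw [← h1]
  exact mh_unique hP hb' hu.ne_zero

/-- the factors over the algebraic closure have the same support -/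
theorem su_le [CharZero K] {Q : MvPolynomial (Fin k × Fin 2) K} (hQ : Irreducible Q)
    {e : Fin k → ℕ} (he : MH e Q) {G : MvPolynomial (Fin k × Fin 2) (AlgebraicClosure K)}
    (hG : ¬ IsUnit G) {g : Fin k → ℕ} (hg : MH g G)
    (hd : G ∣ map (algebraMap K (AlgebraicClosure K)) Q) : su e ⊆ su g := by
  obtain ⟨H, hH⟩ := hd
  let S : Set (AlgebraicClosure K) := (G.coeffs ∪ H.coeffs : Finset (AlgebraicClosure K))
  have hSf : Finite S := (G.coeffs ∪ H.coeffs).finite_toSet.to_subtype
  let M₀ : IntermediateField K (AlgebraicClosure K) := IntermediateField.adjoin K S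
  have : FiniteDimensional K M₀ := IntermediateField.finiteDimensional_adjoin fun x _ =>
    Algebra.IsIntegral.isIntegral x
  let M : IntermediateField K (AlgebraicClosure K) :=
    IntermediateField.normalClosure K M₀ (AlgebraicClosure K)
  have : FiniteDimensional K M := normalClosure.is_finiteDimensional K M₀ (AlgebraicClosure K)
  have : Normal K M := normalClosure.normal K M₀ (AlgebraicClosure K)
  have : IsGalois K M := ⟨⟩
  have hSM : S ⊆ Set.range (algebraMap M (AlgebraicClosure K)) := by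
    intro x hx
    exact ⟨⟨x, M₀.le_normalClosure (IntermediateField.subset_adjoin K S hx)⟩, rfl⟩
  obtain ⟨G₁, hG₁⟩ : G ∈ Set.range (MvPolynomial.map (σ := Fin k × Fin 2)
      (algebraMap M (AlgebraicClosure K))) := by
    rw [mem_range_map_iff_coeffs_subset]
    intro x hx
    exact hSM (Finset.mem_coe.2 (Finset.mem_union_left _ (Finset.mem_coe.1 hx)))
  obtain ⟨H₁, hH₁⟩ : H ∈ Set.range (MvPolynomial.map (σ := Fin k × Fin 2)
      (algebraMap M (AlgebraicClosure K))) := by
    rw [mem_range_map_iff_coeffs_subset]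
    intro x hx
    exact hSM (Finset.mem_coe.2 (Finset.mem_union_right _ (Finset.mem_coe.1 hx)))
  have hQM : map (algebraMap K M) Q = G₁ * H₁ := by
    apply map_injective (algebraMap M (AlgebraicClosure K)) (algebraMap M _).injective
    rw [map_map, ← IsScalarTower.algebraMap_eq, hH, map_mul, hG₁, hH₁]
  obtain ⟨NG, hNG⟩ := exists_norm (K := K) G₁
  obtain ⟨NH, hNH⟩ := exists_norm (K := K) H₁
  have hmapQ : ∀ s : M ≃ₐ[K] M, map (s : M →+* M) (map (algebraMap K M) Q) =
      map (algebraMap K M) Q := by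
    intro s
    have h1 : (s : M →+* M).comp (algebraMap K M) = algebraMap K M :=
      RingHom.ext fun x => s.commutes x
    rw [map_map, h1]
  have hQr : Q ^ Fintype.card (M ≃ₐ[K] M) = NG * NH := by
    apply map_injective (algebraMap K M) (algebraMap K M).injective
    rw [map_mul, hNG, hNH, ← Finset.prod_mul_distrib, map_pow, ← Finset.card_univ,
      ← Finset.prod_const]
    refine Finset.prod_congr rfl fun s _ => ?_
    rw [← map_mul, ← hQM, hmapQ]
  have hG₁mh : MH g G₁ := mh_of_map (algebraMap M (AlgebraicClosure K)) (by rw [hG₁]; exact hg)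
  have hNGmh := mh_norm hG₁mh hNG
  have hNG0 : NG ≠ 0 := by
    rintro rfl
    rw [zero_mul] at hQr
    exact hQ.ne_zero (eq_zero_of_pow_eq_zero hQr)
  obtain ⟨i, -, hi⟩ := (dvd_prime_pow hQ.prime _).1 (⟨NH, hQr⟩ : NG ∣ Q ^ Fintype.card (M ≃ₐ[K] M))
  have hi0 : i ≠ 0 := by
    rintro rfl
    rw [pow_zero, associated_one_iff_isUnit] at hi
    have h1 : IsUnit (map (algebraMap K M) NG) := hi.map (map (algebraMap K M))
    rw [hNG] at h1
    have h2 : IsUnit (map ((1 : M ≃ₐ[K] M) : M →+* M) G₁) :=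
      isUnit_of_dvd_unit (Finset.dvd_prod_of_mem
        (fun s : M ≃ₐ[K] M => map (s : M →+* M) G₁) (Finset.mem_univ 1)) h1
    have h3 : map ((1 : M ≃ₐ[K] M) : M →+* M) G₁ = G₁ := map_id G₁
    rw [h3] at h2
    apply hG
    rw [← hG₁]
    exact h2.map (map (algebraMap M (AlgebraicClosure K)))
  obtain ⟨b, hb, hb'⟩ := mh_of_dvd hNGmh hNG0 hi.symm.dvd
  have h1 := mh_unique (mh_pow he i) hb' (pow_ne_zero i hQ.ne_zero)
  intro j hj
  rw [mem_su] at hj ⊢
  intro h0
  have h2 : b j ≤ (Fintype.card (M ≃ₐ[K] M) • g) j := hb j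
  rw [← h1, Pi.smul_apply, Pi.smul_apply, smul_eq_mul, smul_eq_mul, h0, mul_zero] at h2
  have h3 : 0 < i * e j := Nat.mul_pos (Nat.pos_of_ne_zero hi0) (Nat.pos_of_ne_zero hj)
  omega

end Cl

end Pool.DynLehmer.LW
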