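import Pool.Agent.Lib.MP_2194ec_nt.LW.ClD
import Pool.Agent.Lib.MP_2194ec_nt.GAL.R.Finp
import Pool.Agent.Lib.MP_2194ec_nt.GAL.R.Root
import Pool.Agent.Lib.MP_2194ec_nt.GAL.R.Mor

set_option autoImplicit false
set_option linter.unusedSectionVars false

/-!
# Row CLSK: tuples on invariant subvarieties
-/

namespace Pool.DynLehmer.LW
open MvPolynomial NumberField Pool.DynLehmer Pool.DynLehmer.GS
open scoped Classical

namespace Cl

variable {K : Type} [Field K] {k : ℕ}

theorem map_iter {L : Type} [Field L] (f : K →+* L) (F : Fin 2 → MvPolynomial (Fin 2) K) (m : ℕ)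
    (Q : MvPolynomial (Fin k × Fin 2) K) :
    map f ((bind₁ (FX F k))^[m] Q) = (bind₁ (FX (fun i => map f (F i)) k))^[m] (map f Q) := by
  induction m with
  | zero => rfl
  | succ m ih =>
    rw [Function.iterate_succ_apply', Function.iterate_succ_apply', ← ih, map_bind₁]
    congr 2
    funext a
    rw [FX, FX, map_rename]

theorem gAct_map' {L : Type} [Field L] [Algebra K L] (F : Fin 2 → MvPolynomial (Fin 2) K)
    {N : Type} [Field N] [Algebra K N] [Algebra L N] [IsScalarTower K L N] :
    gAct (fun i => map (algebraMap K L) (F i)) N = gAct F N := by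
  funext P i
  exact aeval_map_algebraMap L P (F i)

theorem mor_map {L : Type} [Field L] [Algebra K L] {q : ℕ} {F : Fin 2 → MvPolynomial (Fin 2) K}
    (hF : Mor q F) : Mor q fun i => map (algebraMap K L) (F i) := by
  refine ⟨fun i => (hF.hom i).map _, fun N _ _ P hP => ?_⟩
  let _ : Algebra K N := ((algebraMap L N).comp (algebraMap K L)).toAlgebra
  have : IsScalarTower K L N := IsScalarTower.of_algebraMap_eq fun _ => rfl
  rw [gAct_map' (L := L) F]
  exact hF.ne N P hP

theorem rename_iter {τ : Type} {w : τ → Fin k × Fin 2} {F : Fin 2 → MvPolynomial (Fin 2) K}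
    {B : τ → MvPolynomial τ K} (hB : ∀ a, rename w (B a) = FX F k (w a)) (m : ℕ)
    (P : MvPolynomial τ K) :
    rename w ((bind₁ B)^[m] P) = (bind₁ (FX F k))^[m] (rename w P) := by
  induction m with
  | zero => rfl
  | succ m ih =>
    rw [Function.iterate_succ_apply', Function.iterate_succ_apply', ← ih, rename_bind₁,
      bind₁_rename]
    congr 2
    funext a
    exact hB a

end Cl

open Cl

theorem clsk (perp : PerpStatement) (cntu : CntuStatement) (hypk : HypkStatement)
    (trd : TrdStatement) : ClskStatement := by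
  intro K _ _ p s v F hR hW k Fz hz hFz I hI hH m hm hinv hseg hrel N _ _ y hy hw hvan
  have hF : Mor (p ^ s) F := mor K p s v F hR
  have hq : 2 ≤ p ^ s := hR.prime.two_le.trans (Nat.le_self_pow (by have := hR.pos; omega) p)
  obtain ⟨E, _, _, ξ, gp⟩ := exists_gp hF hz hFz hI hH hinv hseg hrel hy hvan
  obtain ⟨g, G, hirr, hG, hG0, hmin⟩ := exists_min gp.rel
  have hdvd : G ∣ (bind₁ (FX F k))^[m] G := by
    refine principal trd gp.ne hirr hG hG0 hmin (mh_iter hF.hom hG m) (gp.inv _ _ hG hG0) ?_
    intro i hi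
    rw [mem_su] at hi ⊢
    intro h0
    rw [Pi.smul_apply, h0, smul_zero] at hi
    exact hi rfl
  have hy0 : aeval (uc y) G = 0 := gp.spec _ _ hG hG0
  -- over the algebraic closure
  let Kb := AlgebraicClosure K
  let Fb : Fin 2 → MvPolynomial (Fin 2) Kb := fun i => map (algebraMap K Kb) (F i)
  let Gb : MvPolynomial (Fin k × Fin 2) Kb := map (algebraMap K Kb) G
  have hGb0 : Gb ≠ 0 := fun h => hirr.ne_zero
    (map_injective (algebraMap K Kb) (algebraMap K Kb).injective (h.trans (map_zero _).symm))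
  have hGbu : ¬ IsUnit Gb := by
    intro h
    have h1 := mh_unit (mh_map (algebraMap K Kb) hG) h
    rw [h1] at hG
    exact hirr.not_isUnit (isUnit_of_mh_zero hG hirr.ne_zero)
  let β : MvPolynomial (Fin k × Fin 2) Kb →* MvPolynomial (Fin k × Fin 2) Kb :=
    { toFun := (bind₁ (FX Fb k))^[m]
      map_one' := iterate_map_one _ m
      map_mul' := iterate_map_mul _ m }
  have hβ : (β : MvPolynomial (Fin k × Fin 2) Kb → _) = (bind₁ (FX Fb k))^[m] := rfl
  have hGbd : Gb ∣ β Gb := by
    rw [hβ, ← map_iter]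
    exact map_dvd (map (algebraMap K Kb)) hdvd
  obtain ⟨G₁, n, hirr₁, hd₁, hn, hper⟩ := exists_periodic β hGb0 hGbu hGbd
  obtain ⟨g₁, -, hg₁⟩ := mh_of_dvd (mh_map (algebraMap K Kb) hG) hGb0 hd₁
  rw [hβ, ← Function.iterate_mul] at hper
  have hsu : su g ⊆ su g₁ := su_le hirr hG hirr₁.not_isUnit hg₁ hd₁
  have hperp : {z : Option Kb | ∃ (P : Fin 2 → Kb) (m : ℕ), P ≠ 0 ∧ 1 ≤ m ∧ pr P = z ∧
      Prl ((gAct Fb Kb)^[m] P) P}.Infinite := by
    have h1 := perp K p s v F hR
    rw [← gAct_map' (L := Kb) F] at h1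
    exact h1
  have h2 : (su g₁).card ≤ 2 := hypk Kb (p ^ s) Fb hq (mor_map hF) hperp
    (cntu K p s v F hR hW) k g₁ G₁ hirr₁ hg₁ (m * n) (Nat.mul_pos hm hn) hper
  have hcard : (su g).card ≤ 2 := (Finset.card_le_card hsu).trans h2
  have hne : (su g).Nonempty := by
    rw [Finset.nonempty_iff_ne_empty]
    intro h
    have h1 : g = 0 := by
      funext i
      by_contra hi
      have h3 : i ∈ su g := mem_su.2 hi
      rw [h] at h3
      simp at h3
    rw [h1] at hG
    exact hirr.not_isUnit (isUnit_of_mh_zero hG hirr.ne_zero)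
  obtain ⟨i, hi⟩ := hne
  by_cases hex : ∃ i', i' ∈ su g ∧ i' ≠ i
  · -- two pairs
    obtain ⟨i', hi', hii'⟩ := hex
    have hall : ∀ l ∈ su g, l = i ∨ l = i' := by
      intro l hl
      by_contra hcon
      push Not at hcon
      have h3 : ({l, i, i'} : Finset (Fin k)) ⊆ su g := by
        intro x hx
        simp only [Finset.mem_insert, Finset.mem_singleton] at hx
        rcases hx with rfl | rfl | rfl
        · exact hl
        · exact hi
        · exact hi'
      have h4 := Finset.card_le_card h3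
      rw [Finset.card_eq_three.2 ⟨l, i, i', hcon.1, hcon.2, hii'.symm, rfl⟩] at h4
      omega
    let w : Fin 2 ⊕ Fin 2 → Fin k × Fin 2 := Sum.elim (fun j => (i, j)) fun j => (i', j)
    have hwinj : Function.Injective w := by
      rintro (a | a) (b | b) hab
      · exact congrArg _ (Prod.ext_iff.1 hab).2
      · exact absurd (Prod.ext_iff.1 hab).1 hii'.symm
      · exact absurd (Prod.ext_iff.1 hab).1 hii'
      · exact congrArg _ (Prod.ext_iff.1 hab).2
    obtain ⟨G₀, hG₀⟩ := exists_rename hwinj hG fun l hl j => by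
      rcases hall l hl with rfl | rfl
      · exact ⟨Sum.inl j, rfl⟩
      · exact ⟨Sum.inr j, rfl⟩
    have hB : ∀ a, rename w (dbl F a) = FX F k (w a) := by
      rintro (a | a)
      · show rename w (rename Sum.inl (F a)) = rename (fun j => (i, j)) (F a)
        rw [rename_rename]
        rfl
      · show rename w (rename Sum.inr (F a)) = rename (fun j => (i', j)) (F a)
        rw [rename_rename]
        rfl
    refine ⟨i, i', hii'.symm, g i + g i', G₀, ⟨irr_of_rename hwinj (by rw [hG₀]; exact hirr),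
      ⟨g i, g i', Nat.one_le_iff_ne_zero.2 (mem_su.1 hi), by omega,
        Nat.one_le_iff_ne_zero.2 (mem_su.1 hi'), by omega, ?_⟩,
      ⟨m, hm, dvd_of_rename hwinj (by rw [rename_iter hB, hG₀]; exact hdvd)⟩⟩, ?_⟩
    · intro t ht
      have h3 : Finsupp.mapDomain w t ∈ G.support := by
        rw [← hG₀, mem_support_iff, coeff_rename_mapDomain w hwinj]
        exact mem_support_iff.1 ht
      have h4 := hG _ h3 i
      have h5 := hG _ h3 i'
      have e1 : ∀ a, Finsupp.mapDomain w t (w a) = t a := fun a =>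
        Finsupp.mapDomain_apply hwinj t a
      constructor
      · rw [← h4, ← e1 (Sum.inl 0), ← e1 (Sum.inl 1)]
        rfl
      · rw [← h5, ← e1 (Sum.inr 0), ← e1 (Sum.inr 1)]
        rfl
    · rw [← hG₀, aeval_rename] at hy0
      rw [GS.ev, ← hy0]
      congr 2
      funext a
      rcases a with a | a <;> rfl
  · -- one pair
    exfalso
    push Not at hex
    let w : Fin 2 → Fin k × Fin 2 := fun j => (i, j)
    have hwinj : Function.Injective w := fun a b hab => (Prod.ext_iff.1 hab).2
    obtain ⟨G₀, hG₀⟩ := exists_rename hwinj hG fun l hl j => by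
      rw [hex l hl]
      exact ⟨j, rfl⟩
    have hG₀0 : G₀ ≠ 0 := by
      rintro rfl
      rw [map_zero] at hG₀
      exact hirr.ne_zero hG₀.symm
    have hG₀h : G₀.IsHomogeneous (g i) := by
      intro t ht
      have h3 : Finsupp.mapDomain w t ∈ G.support := by
        rw [← hG₀, mem_support_iff, coeff_rename_mapDomain w hwinj]
        exact ht
      have h4 := hG _ h3 i
      have e1 : ∀ a, Finsupp.mapDomain w t (w a) = t a := fun a =>
        Finsupp.mapDomain_apply hwinj t a
      rw [← h4]
      have h5 : t.degree = t 0 + t 1 := by rw [Finsupp.degree_eq_sum, Fin.sum_univ_two]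
      rw [Finsupp.degree_eq_weight_one] at h5
      rw [← e1 0, ← e1 1] at h5
      exact h5
    obtain ⟨Z, -, hZ⟩ := root K N (g i) G₀ hG₀0 hG₀h
    have hdn : ∀ n : ℕ, G ∣ (bind₁ (FX F k))^[m * n] G := by
      intro n
      induction n with
      | zero => rw [mul_zero]; exact dvd_rfl
      | succ n ih =>
        rw [Nat.mul_succ, add_comm, Function.iterate_add_apply]
        let β' : MvPolynomial (Fin k × Fin 2) K →* MvPolynomial (Fin k × Fin 2) K :=
          { toFun := (bind₁ (FX F k))^[m]
            map_one' := iterate_map_one _ m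
            map_mul' := iterate_map_mul _ m }
        exact hdvd.trans (map_dvd β' ih)
    have hval : ∀ n : ℕ, pr ((gAct F N)^[m * n] (y i)) ∈ Z := by
      intro n
      refine hZ _ (iter_ne hF (hy i) _) ?_
      obtain ⟨R, hR'⟩ := hdn n
      have h3 : aeval (uc y) ((bind₁ (FX F k))^[m * n] G) = 0 := by
        rw [hR', map_mul, hy0, zero_mul]
      rw [aeval_iter, ← hG₀, aeval_rename] at h3
      exact h3
    obtain ⟨a, b, hab, h⟩ := Finite.exists_ne_map_eq_of_infinite
      (fun n : ℕ => (⟨pr ((gAct F N)^[m * n] (y i)), hval n⟩ : Z))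
    obtain ⟨c, hc, hcc⟩ := Finp.prl_of_pr (iter_ne hF (hy i) _) (iter_ne hF (hy i) _)
      (congrArg Subtype.val h)
    refine hw i ⟨m * b, m * a, ?_, c, hc, hcc⟩
    intro h3
    exact hab (Nat.eq_of_mul_eq_mul_left hm h3).symm

end Pool.DynLehmer.LW
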