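import Pool.Agent.Lib.MP_2194ec_nt.LW.DefsX

set_option autoImplicit false

/-!
# The dynamical Lehmer bound for points in solvable extensions: statements of the rows
-/

namespace Pool.DynLehmer.LW
open MvPolynomial NumberField Filter Topology Pool.DynLehmer Pool.DynLehmer.SB Pool.DynLehmer.SP
  Pool.DynLehmer.GS Pool.DynLehmer.LP
open scoped Classical

/-- THEOREM Y: as `XStatement`, with a tuple which may depend on the level. -/
def YStatement : Prop :=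
  ∀ (K : Type) [Field K] [NumberField K] (p s : ℕ) (v : FinitePlace K)
    (F : Fin 2 → MvPolynomial (Fin 2) K), HypR p s v F → CritW F →
    ∀ k₀ : ℕ, ∀ δ : ℝ, 0 < δ →
    ∃ c : ℝ, 0 < c ∧ ∀ (N : Type) [Field N] [NumberField N] [Algebra K N] (a : N),
      WandP F ![a, 1] →
      (∀ n : ℕ, 1 / δ < (dg K ((gAct F N)^[n] ![a, 1]) : ℝ) →
        ((p ^ s : ℕ) : ℝ) ^ n * (dg K ((gAct F N)^[n] ![a, 1]) : ℝ) ^ (1 - δ) ≤ dg K ![a, 1] →
        ∃ (k : ℕ) (b : Fin k → N), 2 ≤ k ∧ k ≤ k₀ ∧ (∃ i, b i = a) ∧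
          (∀ i, Polynomial.aeval (b i) (minpoly K a) = 0) ∧
          (((p ^ s : ℕ) : ℝ) ^ n *
              (dgk K (fun i => (gAct F N)^[n] ![b i, 1]) : ℝ) ^ (1 - δ) ≤
              dgk K (fun i => ![b i, 1]) →
            ((p ^ s : ℕ) : ℝ) ^ n *
              (dgk K (fun i => (gAct F N)^[n] ![b i, 1]) : ℝ) ^ (1 / (k : ℝ) + δ) ≤
              dg K ![a, 1]) ∧
          ∀ i i', i ≠ i' → ∀ m : ℕ,
            ((p ^ s : ℕ) : ℝ) ^ m ≤ (dg K ((gAct F N)^[n] ![a, 1]) : ℝ) ^ δ →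
            ∀ (e : ℕ) (G : MvPolynomial (Fin 2 ⊕ Fin 2) K), PerForm F e G →
              GS.ev ((gAct F N)^[n + m] ![b i, 1]) ((gAct F N)^[n + m] ![b i', 1]) G ≠ 0) →
      ∃ h : ℝ, HasHt (p ^ s) F ![a, 1] h ∧ c / (dg K ![a, 1] : ℝ) ≤ h

/-- Row GRP: tuples with a small orbit for a group with a solvable normal subgroup. -/
def GrpStatement : Prop :=
  ∀ (G Ω : Type) [Group G] [Finite G] [Fintype Ω] [MulAction G Ω],
    MulAction.IsPretransitive G Ω → ∀ (H : Subgroup G), H.Normal → Group.IsSolvable H →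
    ∀ (R : ℕ) (E : Ω → Finset Ω), 1 ≤ R → (∀ x, (E x).card ≤ R) → (∀ x, x ∈ E x) →
    (∀ x y, y ∈ E x → x ∈ E y) → (∀ (g : G) (x y : Ω), y ∈ E x → g • y ∈ E (g • x)) →
    (R ^ 2 + 3 * R) ^ 2 ≤ Fintype.card Ω → ∀ x : Ω, R < Nat.card (MulAction.orbit H x) →
    ∃ (k : ℕ) (y : Fin k → Ω), (k = 2 ∨ k = 4) ∧ (∃ i, y i = x) ∧
      (∀ i i', i ≠ i' → y i' ∉ E (y i)) ∧
      (Nat.card (MulAction.orbit G y)) ^ 2 ≤ R ^ 2 * (Fintype.card Ω) ^ (2 * k - 1)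

/-- Row PUSH: the image of a periodic curve is on a periodic curve. -/
def PushStatement : Prop :=
  ∀ (K : Type) [Field K] (q : ℕ) (F : Fin 2 → MvPolynomial (Fin 2) K), 1 ≤ q → Mor q F →
    ∀ (e : ℕ) (G : MvPolynomial (Fin 2 ⊕ Fin 2) K), PerForm F e G →
    ∃ (e' : ℕ) (G' : MvPolynomial (Fin 2 ⊕ Fin 2) K), PerForm F e' G' ∧
      ∀ (N : Type) [Field N] [Algebra K N] (P P' : Fin 2 → N), GS.ev P P' G = 0 →
        GS.ev (gAct F N P) (gAct F N P') G' = 0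

/-- Row EXC: the relation given by the periodic forms on the conjugates of a point, at the
time `n` (from PUSH and CLSF). -/
def ExcStatement : Prop :=
  ∀ (K : Type) [Field K] [NumberField K] (p s : ℕ) (v : FinitePlace K)
    (F : Fin 2 → MvPolynomial (Fin 2) K), HypR p s v F → CritW F →
    ∃ R : ℕ, 1 ≤ R ∧ (OneOrb F → R = 1) ∧
      ∀ (N : Type) [Field N] [NumberField N] [Algebra K N] [IsGalois K N] (x : Fin 2 → N),
      x ≠ 0 → WandP F x → ∀ n : ℕ, ∃ E : Pt N → Finset (Pt N),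
        (∀ y ∈ orb (N ≃ₐ[K] N) (nz ((gAct F N)^[n] x)), (E y).card ≤ R ∧ y ∈ E y ∧
          (∀ y' ∈ E y, y' ∈ orb (N ≃ₐ[K] N) (nz ((gAct F N)^[n] x)) ∧ y ∈ E y') ∧
          ∀ (g : N ≃ₐ[K] N) (y' : Pt N), y' ∈ E y → g • y' ∈ E (g • y)) ∧
        ∀ σ τ : N ≃ₐ[K] N,
          nz ((gAct F N)^[n] (gal τ x)) ∉ E (nz ((gAct F N)^[n] (gal σ x))) →
          ∀ m ≤ n, ∀ (e : ℕ) (G : MvPolynomial (Fin 2 ⊕ Fin 2) K), PerForm F e G →
            GS.ev ((gAct F N)^[m] (gal σ x)) ((gAct F N)^[m] (gal τ x)) G ≠ 0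

/-- Row LIFT: degrees of tuples and orbits; degrees at different times. -/
def LiftStatement : Prop :=
  (∀ (K : Type) [Field K] [NumberField K] (N : Type) [Field N] [NumberField N] [Algebra K N]
    [IsGalois K N] (k : ℕ) (y : Fin k → Fin 2 → N), (∀ i, y i ≠ 0) →
    dgk K y = Nat.card (MulAction.orbit (N ≃ₐ[K] N) (fun i => nz (y i)))) ∧
  (∀ (K : Type) [Field K] [NumberField K] (N : Type) [Field N] [NumberField N] [Algebra K N]
    [IsGalois K N] (q : ℕ) (F : Fin 2 → MvPolynomial (Fin 2) K), 1 ≤ q → Mor q F →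
    ∀ (k j : ℕ) (y : Fin k → Fin 2 → N), (∀ i, y i ≠ 0) →
      dgk K (fun i => (gAct F N)^[j] (y i)) ≤ dgk K y ∧
      dgk K y ≤ (q ^ j) ^ k * dgk K (fun i => (gAct F N)^[j] (y i)))

/-- THEOREM S (row SOLV): Galois extensions with a solvable relative group. -/
def SolvStatement : Prop :=
  ∀ (K : Type) [Field K] [NumberField K] (p s : ℕ) (v : FinitePlace K)
    (F : Fin 2 → MvPolynomial (Fin 2) K), HypR p s v F → CritW F →
    ∃ R : ℕ, 1 ≤ R ∧ (OneOrb F → R = 1) ∧ ∀ X : ℕ,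
    ∃ c : ℝ, 0 < c ∧ ∀ (N : Type) [Field N] [NumberField N] [Algebra K N] [IsGalois K N] (a : N),
      WandP F ![a, 1] → ∀ H : Subgroup (N ≃ₐ[K] N), H.Normal → Group.IsSolvable H →
      (∀ n : ℕ, X < dg K ((gAct F N)^[n] ![a, 1]) →
        R < Nat.card (MulAction.orbit H (nz ((gAct F N)^[n] ![a, 1])))) →
      ∃ h : ℝ, HasHt (p ^ s) F ![a, 1] h ∧ c / (dg K ![a, 1] : ℝ) ≤ h

end Pool.DynLehmer.LW
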