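import Pool.Agent.Lib.MP_2194ec_nt.LW.Defs2

set_option autoImplicit false

/-!
# The dynamical Lehmer bound and the subfields of `K(a)`: statements of the rows
-/

namespace Pool.DynLehmer.LW
open MvPolynomial NumberField Filter Topology Pool.DynLehmer Pool.DynLehmer.SB Pool.DynLehmer.SP
  Pool.DynLehmer.GS Pool.DynLehmer.LP
open scoped Classical

/-! ## Group theory -/

/-- `H'` is a maximal subgroup of `H` -/
def Adj {G : Type} [Group G] (H' H : Subgroup G) : Prop :=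
  H' < H ∧ ∀ J : Subgroup G, H' ≤ J → J ≤ H → J = H' ∨ J = H

/-- there are `k ≤ C` different cosets of `H'` in `H` such that the tuple has an orbit of size at
most `[H : H'] ^ (k - 1 / C)` -/
def Tup {G : Type} [Group G] (H' H : Subgroup G) (C : ℕ) : Prop :=
  ∃ (k : ℕ) (σ : Fin k → G), 2 ≤ k ∧ k ≤ C ∧ (∀ i, σ i ∈ H) ∧
    (∀ i j, i ≠ j → (σ i)⁻¹ * σ j ∉ H') ∧
    ((⨅ i, H'.map (MulAut.conj (σ i)).toMonoidHom).relIndex H) ^ C ≤
      (H'.relIndex H) ^ (k * C - 1)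

/-- Row P-GRP: tuples with a small orbit. -/
def GrppStatement : Prop :=
  ∀ R C : ℕ, 1 ≤ R → 1 ≤ C → ∃ X C' : ℕ, ∀ (G Ω : Type) [Group G] [Finite G] [Fintype Ω]
    [MulAction G Ω], MulAction.IsPretransitive G Ω → ∀ E : Ω → Finset Ω,
    (∀ x, (E x).card ≤ R) → (∀ x, x ∈ E x) →
    (∀ x y, y ∈ E x → x ∈ E y) → (∀ (g : G) (x y : Ω), y ∈ E x → g • y ∈ E (g • x)) →
    X ≤ Fintype.card Ω → ∀ (x : Ω) (H : Subgroup G), MulAction.stabilizer G x ≤ H →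
    R < Nat.card (MulAction.orbit H x) →
    ((Nat.card (MulAction.orbit H x)) ^ C ≤ (Fintype.card Ω) ^ (C - 1) ∨
      ∃ H' : Subgroup G, MulAction.stabilizer G x ≤ H' ∧ Adj H' H ∧
        Nat.card (MulAction.orbit H' x) ≤ C ∧ Tup H' H C) →
    ∃ (k : ℕ) (y : Fin k → Ω), 2 ≤ k ∧ k ≤ C' ∧ (∃ i, y i = x) ∧
      (∀ i i', i ≠ i' → y i' ∉ E (y i)) ∧
      (Nat.card (MulAction.orbit G y)) ^ C' ≤ (Fintype.card Ω) ^ (k * C' - 1)

/-- Row P-AFF: a primitive group with a small normal subgroup. -/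
def AffStatement : Prop :=
  ∀ C : ℕ, ∃ C' : ℕ, ∀ (G : Type) [Group G] [Finite G] (H' H A B : Subgroup G), Adj H' H →
    B ≤ A → A ≤ H → (∀ h ∈ H, ∀ a ∈ A, h * a * h⁻¹ ∈ A) → (∀ h ∈ H, ∀ b ∈ B, h * b * h⁻¹ ∈ B) →
    B ≤ H' → ¬ A ≤ H' → B.relIndex A ≤ (H'.relIndex H) ^ C → C' < H'.relIndex H → Tup H' H C'

/-- Row P-SOL: a solvable primitive group has such a subgroup. -/
def SolStatement : Prop :=
  ∀ (G : Type) [Group G] [Finite G] (H' H : Subgroup G), Adj H' H → Group.IsSolvable H →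
    ∃ A B : Subgroup G, B ≤ A ∧ A ≤ H ∧ (∀ h ∈ H, ∀ a ∈ A, h * a * h⁻¹ ∈ A) ∧
      (∀ h ∈ H, ∀ b ∈ B, h * b * h⁻¹ ∈ B) ∧ B ≤ H' ∧ ¬ A ≤ H' ∧
      B.relIndex A ≤ H'.relIndex H

/-- Row P-CHN: a minimal subgroup with a large orbit. -/
def ChnpStatement : Prop :=
  ∀ (G Ω : Type) [Group G] [Finite G] [MulAction G Ω] (x : Ω) (H : Subgroup G) (R : ℕ), 1 ≤ R →
    MulAction.stabilizer G x ≤ H → R < Nat.card (MulAction.orbit H x) →
    ∃ H' H₁ : Subgroup G, MulAction.stabilizer G x ≤ H' ∧ Adj H' H₁ ∧ H₁ ≤ H ∧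
      Nat.card (MulAction.orbit H' x) ≤ R ∧ R < Nat.card (MulAction.orbit H₁ x)

/-! ## The theorem -/

/-- the field generated by a point of the projective line -/
noncomputable def fld (K : Type) [Field K] {N : Type} [Field N] [Algebra K N] (y : Fin 2 → N) :
    IntermediateField K N := IntermediateField.adjoin K {y 0 / y 1}

/-- no field strictly between `M` and `M'` -/
def AdjF {K N : Type} [Field K] [Field N] [Algebra K N] (M M' : IntermediateField K N) : Prop :=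
  M < M' ∧ ∀ L : IntermediateField K N, M ≤ L → L ≤ M' → L = M ∨ L = M'

/-- (i): `k ≤ C` different conjugates of `M'` over `M` with small compositum -/
def TupF {K N : Type} [Field K] [Field N] [Algebra K N] (M M' : IntermediateField K N) (C : ℕ) :
    Prop :=
  ∃ (k : ℕ) (σ : Fin k → (N ≃ₐ[K] N)), 2 ≤ k ∧ k ≤ C ∧ (∀ i, ∀ z ∈ M, σ i z = z) ∧
    (∀ i j, i ≠ j → ∃ z ∈ M', σ i z ≠ σ j z) ∧
    (IntermediateField.relfinrank M (⨆ i, M'.map (σ i : N →ₐ[K] N))) ^ C ≤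
      (IntermediateField.relfinrank M M') ^ (k * C - 1)

/-- (ii): Galois extensions `E₁ ≤ E₂` of `M`, `M'` contained in `E₂` and not in `E₁`, with
`[E₂ : E₁] ≤ [M' : M] ^ C` -/
def GalF {K N : Type} [Field K] [Field N] [Algebra K N] (M M' : IntermediateField K N) (C : ℕ) :
    Prop :=
  ∃ E₁ E₂ : IntermediateField K N, M ≤ E₁ ∧ E₁ ≤ E₂ ∧ M' ≤ E₂ ∧ ¬ M' ≤ E₁ ∧
    (∀ σ : N ≃ₐ[K] N, (∀ z ∈ M, σ z = z) → (∀ z ∈ E₁, σ z ∈ E₁) ∧ ∀ z ∈ E₂, σ z ∈ E₂) ∧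
    IntermediateField.relfinrank E₁ E₂ ≤ (IntermediateField.relfinrank M M') ^ C

/-- THEOREM P (row P-FIN: from YStatement, GRPP, AFF, SOL, CHNP, EXC, LIFT). -/
def PStatement : Prop :=
  ∀ (K : Type) [Field K] [NumberField K] (p s : ℕ) (v : FinitePlace K)
    (F : Fin 2 → MvPolynomial (Fin 2) K), HypR p s v F → CritW F →
    ∃ R : ℕ, 1 ≤ R ∧ (OneOrb F → R = 1) ∧ ∀ C : ℕ, 1 ≤ C →
    ∃ c : ℝ, 0 < c ∧ ∀ (N : Type) [Field N] [NumberField N] [Algebra K N] [IsGalois K N] (a : N),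
      WandP F ![a, 1] →
      (∀ n : ℕ, C < dg K ((gAct F N)^[n] ![a, 1]) →
        ((p ^ s) ^ n) ^ C * (dg K ((gAct F N)^[n] ![a, 1])) ^ (C - 1) ≤ (dg K ![a, 1]) ^ C →
        ∃ M : IntermediateField K N, M ≤ fld K ((gAct F N)^[n] ![a, 1]) ∧
          R < IntermediateField.relfinrank M (fld K ((gAct F N)^[n] ![a, 1])) ∧
          ((IntermediateField.relfinrank M (fld K ((gAct F N)^[n] ![a, 1]))) ^ C ≤
              (dg K ((gAct F N)^[n] ![a, 1])) ^ (C - 1) ∨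
            Group.IsSolvable M.fixingSubgroup ∨
            ∃ M' : IntermediateField K N, AdjF M M' ∧ M' ≤ fld K ((gAct F N)^[n] ![a, 1]) ∧
              IntermediateField.relfinrank M' (fld K ((gAct F N)^[n] ![a, 1])) ≤ C ∧
              (TupF M M' C ∨ GalF M M' C))) →
      ∃ h : ℝ, HasHt (p ^ s) F ![a, 1] h ∧ c / (dg K ![a, 1] : ℝ) ≤ h

end Pool.DynLehmer.LW
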