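import Pool.Agent.Lib.MP_2194ec_nt.LW.DefsMul
import Pool.Agent.Lib.MP_2194ec_nt.LW.GrpcE

set_option autoImplicit false

/-!
# The Lehmer bound for algebraic numbers whose Galois closure has small composition factors:
statements of the rows
-/

namespace Pool.DynLehmer.LW
open MvPolynomial NumberField Filter Topology Pool.DynLehmer Pool.DynLehmer.SB Pool.DynLehmer.SP
  Pool.DynLehmer.GS Pool.DynLehmer.LP
open scoped Classical

/-- Row GRPZ (from GRAM, MODT and `Cf.struct`): tuples with independent vectors and a small orbit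
for a group with a subgroup with small composition factors. -/
def GrpzStatement : Prop :=
  ∃ s R T : ℕ, 1 ≤ s ∧ 1 ≤ T ∧ ∀ M : ℕ, ∃ C : ℕ, ∀ (G Ω V : Type) [Group G] [Finite G]
    [Fintype Ω] [MulAction G Ω] [AddCommGroup V] [Module ℚ V] (ρ : Representation ℚ G V)
    (f : Ω → V), (∀ (g : G) (x : Ω), f (g • x) = ρ g (f x)) → Function.Injective f →
    MulAction.IsPretransitive G Ω → ∀ (x : Ω) (H : Subgroup G),
    (∀ g ∈ MulAction.stabilizer G x, ∀ h ∈ H, g * h * g⁻¹ ∈ H) →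
    R < Nat.card (MulAction.orbit H x) → ∀ m : ℕ, FacH H x m → m ^ T ≤ M * Fintype.card Ω →
    ∃ y : Fin (2 ^ s) → Ω, (∃ i, y i = x) ∧ LinearIndependent ℚ (fun i => f (y i)) ∧
      (Nat.card (MulAction.orbit G y)) ^ 2 ≤ C * (Fintype.card Ω) ^ (2 ^ s)

/-- Row FINT (from GENM, CLSM, MOR, LIFT, PLC2, HTM): the bound from `k` multiplicatively
independent conjugates. -/
def FintStatement : Prop :=
  ∀ (K : Type) [Field K] [NumberField K] (k : ℕ), 2 ≤ k → ∀ C : ℕ, ∃ c : ℝ, 0 < c ∧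
    ∀ (N : Type) [Field N] [NumberField N] [Algebra K N] [IsGalois K N] (b : N), b ≠ 0 →
      (∀ n : ℕ, 1 ≤ n → b ^ n ≠ 1) →
      (∀ σ : N ≃ₐ[K] N, (∃ r : ℕ, 1 ≤ r ∧ (σ b) ^ r = b ^ r) → σ b = b) →
      (C < Module.finrank K (IntermediateField.adjoin K {b}) →
        ∃ y : Fin k → N, (∀ i, ∃ σ : N ≃ₐ[K] N, σ b = y i) ∧
          (∀ l : Fin k → ℤ, ∏ i, y i ^ l i = 1 → l = 0) ∧
          (Nat.card (MulAction.orbit (N ≃ₐ[K] N) y)) ^ 2 ≤
            C * (Module.finrank K (IntermediateField.adjoin K {b})) ^ k) →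
      c / (Module.finrank K (IntermediateField.adjoin K {b}) : ℝ) ≤
        Height.logHeight ![b, 1] / (Module.finrank ℚ N : ℝ)

/-- Row PLC2: the power map `z ↦ z ^ 2` at a place above `2`. -/
def Plc2Statement : Prop :=
  ∀ (K : Type) [Field K] [NumberField K], ∃ v : FinitePlace K, HypR 2 1 v (powF K 2)

/-- Row HTM: iterates, wandering points and heights for the power map. -/
def HtmStatement : Prop :=
  ∀ (K : Type) [Field K] [NumberField K] (N : Type) [Field N] [NumberField N] [Algebra K N]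
    (b : N),
    (∀ n : ℕ, (gAct (powF K 2) N)^[n] ![b, 1] = ![b ^ (2 ^ n), 1]) ∧
    (b ≠ 0 → (∀ n : ℕ, 1 ≤ n → b ^ n ≠ 1) → WandP (powF K 2) ![b, 1]) ∧
    ∀ h : ℝ, HasHt 2 (powF K 2) ![b, 1] h →
      h = Height.logHeight ![b, 1] / (Module.finrank ℚ N : ℝ)

/-- Row FINZ (from FINT, GRPZ, NORM, REPM): the Lehmer bound for algebraic numbers whose Galois
closure has small composition factors. `H` is normalised by the stabilizer of the class of `a`
modulo roots of unity and `H = ⊤` or the orbit of this class under `H` has more than `R` elements;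
`H` has a subnormal series with factors which are abelian or of order at most `m`, the first group
acts trivially on this orbit. -/
def MulzStatement : Prop :=
  ∃ R T : ℕ, 1 ≤ T ∧ ∀ (K : Type) [Field K] [NumberField K] (M : ℕ), ∃ c : ℝ, 0 < c ∧
    ∀ (N : Type) [Field N] [NumberField N] [Algebra K N] [IsGalois K N] (a : N), a ≠ 0 →
      (∀ n : ℕ, 1 ≤ n → a ^ n ≠ 1) → ∀ H : Subgroup (N ≃ₐ[K] N),
      (H = ⊤ ∨
        (∀ g : N ≃ₐ[K] N, (∃ r : ℕ, 1 ≤ r ∧ (g a) ^ r = a ^ r) → ∀ h ∈ H, g * h * g⁻¹ ∈ H) ∧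
        ∃ σ : Fin (R + 1) → (N ≃ₐ[K] N), (∀ i, σ i ∈ H) ∧
          ∀ i j, i ≠ j → ∀ r : ℕ, 1 ≤ r → (σ i a) ^ r ≠ (σ j a) ^ r) →
      ∀ m : ℕ,
      (∃ (l : ℕ) (L : ℕ → Subgroup (N ≃ₐ[K] N)),
        (∀ g ∈ L 0, ∀ h ∈ H, ∃ r : ℕ, 1 ≤ r ∧ (g (h a)) ^ r = (h a) ^ r) ∧ L l = H ∧
        ∀ i < l, L i ≤ L (i + 1) ∧ (∀ x ∈ L (i + 1), ∀ y ∈ L i, x * y * x⁻¹ ∈ L i) ∧
          ((∀ x ∈ L (i + 1), ∀ y ∈ L (i + 1), x * y * x⁻¹ * y⁻¹ ∈ L i) ∨
            (L i).relIndex (L (i + 1)) ≤ m)) →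
      (∃ (e : ℕ) (τ : Fin e → (N ≃ₐ[K] N)),
        (∀ i j, i ≠ j → ∀ r : ℕ, 1 ≤ r → (τ i a) ^ r ≠ (τ j a) ^ r) ∧ m ^ T ≤ M * e) →
      c / (Module.finrank K (IntermediateField.adjoin K {a}) : ℝ) ≤
        Height.logHeight ![a, 1] / (Module.finrank ℚ N : ℝ)

end Pool.DynLehmer.LW
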