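import Pool.Agent.Lib.MP_2194ec_nt.LW.DefsMul

set_option autoImplicit false

/-!
# The Lehmer bound and simple sections of the Galois group: statements of the rows
-/

namespace Pool.DynLehmer.LW
open MvPolynomial NumberField Filter Topology Pool.DynLehmer Pool.DynLehmer.SB Pool.DynLehmer.SP
  Pool.DynLehmer.GS Pool.DynLehmer.LP
open scoped Classical

/-- `B₀` and `B` are normalised by `S`, `B₀` is normal in `B` and `B / B₀` is simple and not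
abelian. -/
structure Sse {G : Type} [Group G] (S B₀ B : Subgroup G) : Prop where
  lt : B₀ < B
  nor₀ : ∀ g ∈ S, ∀ h ∈ B₀, g * h * g⁻¹ ∈ B₀
  nor : ∀ g ∈ S, ∀ h ∈ B, g * h * g⁻¹ ∈ B
  nrm : ∀ g ∈ B, ∀ h ∈ B₀, g * h * g⁻¹ ∈ B₀
  simp : ∀ N : Subgroup G, B₀ ≤ N → N ≤ B → (∀ g ∈ B, ∀ h ∈ N, g * h * g⁻¹ ∈ N) → N = B₀ ∨ N = B
  nab : ∃ g ∈ B, ∃ h ∈ B, g * h * g⁻¹ * h⁻¹ ∉ B₀

/-- Row GRPQ (from GRAM, MODT): tuples with independent vectors and a small orbit, or a large simple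
section. -/
def GrpqStatement : Prop :=
  ∀ A : ℕ, 1 ≤ A → ∃ R k₀ A' C : ℕ, 1 ≤ A' ∧ ∀ (G Ω V : Type) [Group G] [Finite G]
    [Fintype Ω] [MulAction G Ω] [AddCommGroup V] [Module ℚ V] (ρ : Representation ℚ G V)
    (f : Ω → V), (∀ (g : G) (x : Ω), f (g • x) = ρ g (f x)) → Function.Injective f →
    MulAction.IsPretransitive G Ω → ∀ x : Ω, R < Fintype.card Ω →
    (∃ (k : ℕ) (y : Fin k → Ω), 2 ≤ k ∧ k ≤ k₀ ∧ LinearIndependent ℚ (fun i => f (y i)) ∧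
      (Nat.card (MulAction.orbit G y)) ^ A' ≤ C * (Fintype.card Ω) ^ (k * A' - 1)) ∨
    ∃ B₀ B : Subgroup G, Sse (MulAction.stabilizer G x) B₀ B ∧
      (Fintype.card Ω) ^ A < B₀.relIndex B ∧ Nat.card (MulAction.orbit B₀ x) ≤ R ∧
      (Fintype.card Ω) ^ (A - 1) < (Nat.card (MulAction.orbit B x)) ^ A

/-- Row FING (from GENM, CLSM, MOR, LIFT, PLC2, HTM): the bound from `k` multiplicatively
independent conjugates. -/
def FingStatement : Prop :=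
  ∀ (K : Type) [Field K] [NumberField K] (k₀ A' C : ℕ), 1 ≤ A' → ∃ c : ℝ, 0 < c ∧
    ∀ (N : Type) [Field N] [NumberField N] [Algebra K N] [IsGalois K N] (b : N), b ≠ 0 →
      (∀ n : ℕ, 1 ≤ n → b ^ n ≠ 1) →
      (∀ σ : N ≃ₐ[K] N, (∃ r : ℕ, 1 ≤ r ∧ (σ b) ^ r = b ^ r) → σ b = b) →
      (C < Module.finrank K (IntermediateField.adjoin K {b}) →
        ∃ (k : ℕ) (y : Fin k → N), 2 ≤ k ∧ k ≤ k₀ ∧ (∀ i, ∃ σ : N ≃ₐ[K] N, σ b = y i) ∧
          (∀ l : Fin k → ℤ, ∏ i, y i ^ l i = 1 → l = 0) ∧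
          (Nat.card (MulAction.orbit (N ≃ₐ[K] N) y)) ^ A' ≤
            C * (Module.finrank K (IntermediateField.adjoin K {b})) ^ (k * A' - 1)) →
      c / (Module.finrank K (IntermediateField.adjoin K {b}) : ℝ) ≤
        Height.logHeight ![b, 1] / (Module.finrank ℚ N : ℝ)

/-- Row FINQ (from FING, GRPQ, NORM, REPM): the Lehmer bound for algebraic numbers whose Galois
group has no large simple section. `S` is the stabilizer of the class of `a` modulo roots of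
unity. -/
def MulqStatement : Prop :=
  ∀ A : ℕ, 1 ≤ A → ∃ R : ℕ, ∀ (K : Type) [Field K] [NumberField K], ∃ c : ℝ, 0 < c ∧
    ∀ (N : Type) [Field N] [NumberField N] [Algebra K N] [IsGalois K N] (a : N), a ≠ 0 →
      (∀ n : ℕ, 1 ≤ n → a ^ n ≠ 1) →
      ∃ S : Subgroup (N ≃ₐ[K] N), (∀ g, g ∈ S ↔ ∃ r : ℕ, 1 ≤ r ∧ (g a) ^ r = a ^ r) ∧
      (c / (Module.finrank K (IntermediateField.adjoin K {a}) : ℝ) ≤
        Height.logHeight ![a, 1] / (Module.finrank ℚ N : ℝ) ∨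
      ∃ B₀ B : Subgroup (N ≃ₐ[K] N), Sse S B₀ B ∧ S.index ^ A < B₀.relIndex B ∧
        S.relIndex B₀ ≤ R ∧ S.index ^ (A - 1) < (S.relIndex B) ^ A)

end Pool.DynLehmer.LW
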