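import Pool.Agent.Lib.MP_2194ec_nt.LW.DefsMulC

set_option autoImplicit false

/-!
# The Lehmer bound and simple sections of the Galois group: statements of the rows, strong form
-/

namespace Pool.DynLehmer.LW
open MvPolynomial NumberField Filter Topology Pool.DynLehmer Pool.DynLehmer.SB Pool.DynLehmer.SP
  Pool.DynLehmer.GS Pool.DynLehmer.LP
open scoped Classical

/-- Row GRPW (from GRAM, MODT): cubes in a section `P / P₀` of order at most `D ^ A` which has at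
most `D ^ A` conjugates under the stabilizer. -/
def GrpwStatement : Prop :=
  ∀ A : ℕ, ∃ s R : ℕ, 1 ≤ s ∧ ∀ B : ℕ, ∃ C : ℕ, ∀ (G Ω V : Type) [Group G] [Finite G]
    [Fintype Ω] [MulAction G Ω] [AddCommGroup V] [Module ℚ V] (ρ : Representation ℚ G V)
    (f : Ω → V), (∀ (g : G) (x : Ω), f (g • x) = ρ g (f x)) → Function.Injective f →
    MulAction.IsPretransitive G Ω → ∀ (x : Ω) (P P₀ W : Subgroup G), P₀ ≤ P →
    W ≤ MulAction.stabilizer G x →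
    (∀ g ∈ W, ∀ h ∈ P, g * h * g⁻¹ ∈ P) → (∀ g ∈ W, ∀ h ∈ P₀, g * h * g⁻¹ ∈ P₀) →
    (∀ g ∈ P, ∀ h ∈ P₀, g * h * g⁻¹ ∈ P₀) →
    Nat.card (MulAction.orbit P₀ x) ≤ B → P₀.relIndex P ≤ (Fintype.card Ω) ^ A →
    W.relIndex (MulAction.stabilizer G x) ≤ (Fintype.card Ω) ^ A →
    R < Nat.card (MulAction.orbit P x) →
    ∃ y : Fin (2 ^ s) → Ω, (∃ i, y i = x) ∧ LinearIndependent ℚ (fun i => f (y i)) ∧
      (Nat.card (MulAction.orbit G y)) ^ 2 ≤ C * (Fintype.card Ω) ^ (2 ^ s)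

/-- `#P x ≤ R` for all `P₀ ⊴ P` with `#P₀ x ≤ R`, `[P : P₀] ≤ D ^ A` which are normalised by a
subgroup of index at most `D ^ A` of `S`; here `S` is the stabilizer of `x` and `D` its index. -/
def Smo {G : Type} [Group G] (S : Subgroup G) (A R : ℕ) : Prop :=
  ∀ P₀ P W : Subgroup G, P₀ ≤ P → W ≤ S → (∀ g ∈ W, ∀ h ∈ P, g * h * g⁻¹ ∈ P) →
    (∀ g ∈ W, ∀ h ∈ P₀, g * h * g⁻¹ ∈ P₀) → (∀ g ∈ P, ∀ h ∈ P₀, g * h * g⁻¹ ∈ P₀) →
    S.relIndex P₀ ≤ R → P₀.relIndex P ≤ S.index ^ A → W.relIndex S ≤ S.index ^ A →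
    S.relIndex P ≤ R

/-- Row GRPR (from GRPQ, GRPW). -/
def GrprStatement : Prop :=
  ∀ A : ℕ, 1 ≤ A → ∃ R k₀ A' C : ℕ, 1 ≤ A' ∧ ∀ (G Ω V : Type) [Group G] [Finite G]
    [Fintype Ω] [MulAction G Ω] [AddCommGroup V] [Module ℚ V] (ρ : Representation ℚ G V)
    (f : Ω → V), (∀ (g : G) (x : Ω), f (g • x) = ρ g (f x)) → Function.Injective f →
    MulAction.IsPretransitive G Ω → ∀ x : Ω, R < Fintype.card Ω →
    (∃ (k : ℕ) (y : Fin k → Ω), 2 ≤ k ∧ k ≤ k₀ ∧ LinearIndependent ℚ (fun i => f (y i)) ∧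
      (Nat.card (MulAction.orbit G y)) ^ A' ≤ C * (Fintype.card Ω) ^ (k * A' - 1)) ∨
    Smo (MulAction.stabilizer G x) A R ∧
    ∃ B₀ B : Subgroup G, Sse (MulAction.stabilizer G x) B₀ B ∧
      (Fintype.card Ω) ^ A < B₀.relIndex B ∧ Nat.card (MulAction.orbit B₀ x) ≤ R ∧
      (Fintype.card Ω) ^ (A - 1) < (Nat.card (MulAction.orbit B x)) ^ A

/-- Row FINR (from FING, GRPR, NORM, REPM): the Lehmer bound for algebraic numbers whose Galois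
group has no large simple section. `S` is the stabilizer of the class of `a` modulo roots of
unity. -/
def MulrStatement : Prop :=
  ∀ A : ℕ, 1 ≤ A → ∃ R : ℕ, ∀ (K : Type) [Field K] [NumberField K], ∃ c : ℝ, 0 < c ∧
    ∀ (N : Type) [Field N] [NumberField N] [Algebra K N] [IsGalois K N] (a : N), a ≠ 0 →
      (∀ n : ℕ, 1 ≤ n → a ^ n ≠ 1) →
      ∃ S : Subgroup (N ≃ₐ[K] N), (∀ g, g ∈ S ↔ ∃ r : ℕ, 1 ≤ r ∧ (g a) ^ r = a ^ r) ∧
      (c / (Module.finrank K (IntermediateField.adjoin K {a}) : ℝ) ≤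
        Height.logHeight ![a, 1] / (Module.finrank ℚ N : ℝ) ∨
      Smo S A R ∧ ∃ B₀ B : Subgroup (N ≃ₐ[K] N), Sse S B₀ B ∧ S.index ^ A < B₀.relIndex B ∧
        S.relIndex B₀ ≤ R ∧ S.index ^ (A - 1) < (S.relIndex B) ^ A)

end Pool.DynLehmer.LW
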