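import Pool.Agent.Lib.MP_2194ec_nt.LW.DefsMulD
import Mathlib.GroupTheory.SpecificGroups.Alternating

set_option autoImplicit false

/-!
# The Lehmer bound and simple sections of the Galois group: statements of the rows, final form
-/

namespace Pool.DynLehmer.LW
open MvPolynomial NumberField Filter Topology Pool.DynLehmer Pool.DynLehmer.SB Pool.DynLehmer.SP
  Pool.DynLehmer.GS Pool.DynLehmer.LP
open scoped Classical

/-- Row NORMB: as NORM, with the relation between `a` and `b`. -/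
def NormbStatement : Prop :=
  ∀ (K : Type) [Field K] [NumberField K] (N : Type) [Field N] [NumberField N] [Algebra K N]
    [IsGalois K N] (a : N), a ≠ 0 →
    ∃ (b : N) (m : ℕ), 1 ≤ m ∧ b ≠ 0 ∧
      (∀ σ : N ≃ₐ[K] N, σ b = b ↔ ∃ r : ℕ, 1 ≤ r ∧ (σ a) ^ r = a ^ r) ∧
      (∀ σ : N ≃ₐ[K] N, (∃ r : ℕ, 1 ≤ r ∧ (σ b) ^ r = b ^ r) → σ b = b) ∧
      ((∀ n : ℕ, 1 ≤ n → a ^ n ≠ 1) → ∀ n : ℕ, 1 ≤ n → b ^ n ≠ 1) ∧
      m * Module.finrank K (IntermediateField.adjoin K {b}) =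
        Module.finrank K (IntermediateField.adjoin K {a}) ∧
      Height.logHeight ![b, 1] = m * Height.logHeight ![a, 1] ∧
      ∃ r : ℕ, 1 ≤ r ∧ b ^ r = a ^ (m * r)

/-- `B / B₀` is a non-abelian simple section normalised by `S`, of order more than `D ^ A`; the
`B₀`-orbit has at most `R` points and the `B`-orbit more than `D ^ (1 - 1 / A)`, and if `B / B₀` is
an alternating group, its degree is more than `D ^ (1 - 1 / A)`. Here `D` is the index of `S`. -/
structure Lse {G : Type} [Group G] (S B₀ B : Subgroup G) (A R : ℕ) : Prop where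
  sse : Sse S B₀ B
  ord : S.index ^ A < B₀.relIndex B
  sml : S.relIndex B₀ ≤ R
  big : S.index ^ (A - 1) < (S.relIndex B) ^ A
  alt : ∀ (n : ℕ) (φ : B →* alternatingGroup (Fin n)), Function.Surjective φ →
    φ.ker = B₀.subgroupOf B → S.index ^ (A - 1) < n ^ A

/-- Row GRPL (from GRPQ, GRPW, ALTG). -/
def GrplStatement : Prop :=
  ∀ A : ℕ, 1 ≤ A → ∃ R k₀ A' C : ℕ, 1 ≤ A' ∧ ∀ (G Ω V : Type) [Group G] [Finite G]
    [Fintype Ω] [MulAction G Ω] [AddCommGroup V] [Module ℚ V] (ρ : Representation ℚ G V)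
    (f : Ω → V), (∀ (g : G) (x : Ω), f (g • x) = ρ g (f x)) → Function.Injective f →
    MulAction.IsPretransitive G Ω → ∀ x : Ω, R < Fintype.card Ω →
    (∃ (k : ℕ) (y : Fin k → Ω), 2 ≤ k ∧ k ≤ k₀ ∧ LinearIndependent ℚ (fun i => f (y i)) ∧
      (Nat.card (MulAction.orbit G y)) ^ A' ≤ C * (Fintype.card Ω) ^ (k * A' - 1)) ∨
    Smo (MulAction.stabilizer G x) A R ∧
    ∃ B₀ B : Subgroup G, Lse (MulAction.stabilizer G x) B₀ B A R

/-- Every `k ≤ A` multiplicatively independent conjugates of `a` generate a field of degree more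
than `D ^ (k - 1 / A)` modulo roots of unity. -/
def Ind {K N : Type} [Field K] [Field N] [Algebra K N] (a : N) (S : Subgroup (N ≃ₐ[K] N))
    (A : ℕ) : Prop :=
  ∀ (k : ℕ) (σ : Fin k → (N ≃ₐ[K] N)), 2 ≤ k → k ≤ A →
    (∀ l : Fin k → ℤ, ∏ i, (σ i a) ^ l i = 1 → l = 0) →
    S.index ^ (k * A - 1) < (⨅ i, S.map (MulAut.conj (σ i)).toMonoidHom).index ^ A

/-- Row FINL (from FING, GRPL, NORMB, REPM): the Lehmer bound for algebraic numbers whose Galois
group has no large simple section. `S` is the stabilizer of the class of `a` modulo roots of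
unity. -/
def MullStatement : Prop :=
  ∀ A : ℕ, 1 ≤ A → ∃ R : ℕ, ∀ (K : Type) [Field K] [NumberField K], ∃ c : ℝ, 0 < c ∧
    ∀ (N : Type) [Field N] [NumberField N] [Algebra K N] [IsGalois K N] (a : N), a ≠ 0 →
      (∀ n : ℕ, 1 ≤ n → a ^ n ≠ 1) →
      ∃ S : Subgroup (N ≃ₐ[K] N), (∀ g, g ∈ S ↔ ∃ r : ℕ, 1 ≤ r ∧ (g a) ^ r = a ^ r) ∧
      (c / (Module.finrank K (IntermediateField.adjoin K {a}) : ℝ) ≤
        Height.logHeight ![a, 1] / (Module.finrank ℚ N : ℝ) ∨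
      Ind a S A ∧ Smo S A R ∧ ∃ B₀ B : Subgroup (N ≃ₐ[K] N), Lse S B₀ B A R)

end Pool.DynLehmer.LW
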