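import Pool.Agent.Lib.MP_2194ec_nt.LW.DefsVU

set_option autoImplicit false

/-!
# The dynamical Lehmer bound and an exceptional class of Galois groups: statement of the theorem
-/

namespace Pool.DynLehmer.LW
open MvPolynomial NumberField Filter Topology Pool.DynLehmer Pool.DynLehmer.SB Pool.DynLehmer.SP
  Pool.DynLehmer.GS Pool.DynLehmer.LP
open scoped Classical

/-- THEOREM VG: the stabilizers of the `F ^ n (a)` satisfy the condition of theorem V or are not in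
the exceptional class `Z`. -/
def VgStatement (Z : ∀ (G : Type) [Group G], Subgroup G → ℕ → ℕ → Prop) : Prop :=
  ∀ (K : Type) [Field K] [NumberField K] (p s : ℕ) (v : FinitePlace K)
    (F : Fin 2 → MvPolynomial (Fin 2) K), HypR p s v F → CritW F →
    ∃ R : ℕ, 1 ≤ R ∧ (OneOrb F → R = 1) ∧ ∀ A : ℕ, 1 ≤ A →
    ∃ (R' : ℕ) (c : ℝ), 0 < c ∧
    ∀ (N : Type) [Field N] [NumberField N] [Algebra K N] [IsGalois K N] (a : N),
      WandP F ![a, 1] →
      (∀ n : ℕ, A < dg K ((gAct F N)^[n] ![a, 1]) →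
        ((p ^ s) ^ n) ^ A * (dg K ((gAct F N)^[n] ![a, 1])) ^ (A - 1) ≤ (dg K ![a, 1]) ^ A →
        ¬ Z (N ≃ₐ[K] N)
            (MulAction.stabilizer (N ≃ₐ[K] N) (nz ((gAct F N)^[n] ![a, 1]))) A R' ∨
        ∃ H : Subgroup (N ≃ₐ[K] N),
          SecU H (nz ((gAct F N)^[n] ![a, 1])) (dg K ((gAct F N)^[n] ![a, 1])) A R ∨
          R < Nat.card (MulAction.orbit H (nz ((gAct F N)^[n] ![a, 1]))) ∧
            SecP H (nz ((gAct F N)^[n] ![a, 1])) A) →
      ∃ h : ℝ, HasHt (p ^ s) F ![a, 1] h ∧ c / (dg K ![a, 1] : ℝ) ≤ h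

end Pool.DynLehmer.LW
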