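import Pool.Agent.Lib.MP_2194ec_nt.LW.DefsVU

set_option autoImplicit false

/-!
# The dynamical Lehmer bound and an exceptional class of Galois groups: the dichotomy
-/

namespace Pool.DynLehmer.LW
open MvPolynomial NumberField Filter Topology Pool.DynLehmer Pool.DynLehmer.SB Pool.DynLehmer.SP
  Pool.DynLehmer.GS Pool.DynLehmer.LP
open scoped Classical

/-- `G` is almost `A`-transitive on the orbit of `z`: for a symmetric set `E` of at most `R` points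
all tuples of `k ≤ A` points `σ i • z` with no `σ i⁻¹ σ j • z` in `E` have large orbits. -/
def Atr {G P : Type} [Group G] [MulAction G P] (z : P) (A R : ℕ) : Prop :=
  ∃ E : Finset P, E.card ≤ R ∧ (∀ g : G, g • z ∈ E → g⁻¹ • z ∈ E) ∧ ∀ (k : ℕ) (σ : Fin k → G), 2 ≤ k → k ≤ A →
    (∀ i j, i ≠ j → ((σ i)⁻¹ * σ j) • z ∉ E) →
    (Nat.card (MulAction.orbit G z)) ^ (k * A - 1) <
      (Nat.card (MulAction.orbit G (fun i => σ i • z))) ^ A

/-- THEOREM VH: a dichotomy. -/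
def VhStatement (Z : ∀ (G : Type) [Group G], Subgroup G → ℕ → ℕ → ℕ → Prop) : Prop :=
  ∀ (K : Type) [Field K] [NumberField K] (p s : ℕ) (v : FinitePlace K)
    (F : Fin 2 → MvPolynomial (Fin 2) K), HypR p s v F → CritW F →
    ∃ R : ℕ, 1 ≤ R ∧ (OneOrb F → R = 1) ∧ ∀ A : ℕ, 1 ≤ A →
    ∃ (R' : ℕ) (c : ℝ), 0 < c ∧
    ∀ (N : Type) [Field N] [NumberField N] [Algebra K N] [IsGalois K N] (a : N),
      WandP F ![a, 1] →
      (∃ h : ℝ, HasHt (p ^ s) F ![a, 1] h ∧ c / (dg K ![a, 1] : ℝ) ≤ h) ∨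
      ∃ n : ℕ, A < dg K ((gAct F N)^[n] ![a, 1]) ∧
        ((p ^ s) ^ n) ^ A * (dg K ((gAct F N)^[n] ![a, 1])) ^ (A - 1) ≤ (dg K ![a, 1]) ^ A ∧
        Atr (G := N ≃ₐ[K] N) (nz ((gAct F N)^[n] ![a, 1])) A R ∧
        Z (N ≃ₐ[K] N)
            (MulAction.stabilizer (N ≃ₐ[K] N) (nz ((gAct F N)^[n] ![a, 1]))) A R R' ∧
        ∀ H : Subgroup (N ≃ₐ[K] N),
          ¬ SecU H (nz ((gAct F N)^[n] ![a, 1])) (dg K ((gAct F N)^[n] ![a, 1])) A R ∧
          ¬ (R < Nat.card (MulAction.orbit H (nz ((gAct F N)^[n] ![a, 1]))) ∧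
            SecP H (nz ((gAct F N)^[n] ![a, 1])) A)

end Pool.DynLehmer.LW
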