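import Pool.Agent.Lib.MP_2194ec_nt.LW.DefsU
import Pool.Agent.Lib.MP_2194ec_nt.LW.Defs3

set_option autoImplicit false

/-!
# The dynamical Lehmer bound, composition factors and tuples of cosets: statement of the theorem
-/

namespace Pool.DynLehmer.LW
open MvPolynomial NumberField Filter Topology Pool.DynLehmer Pool.DynLehmer.SB Pool.DynLehmer.SP
  Pool.DynLehmer.GS Pool.DynLehmer.LP
open scoped Classical

/-- `H` contains the stabilizer of `x` and has a maximal subgroup `H'` which contains it, such that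
the `H'`-orbit of `x` has at most `A` elements and there is a tuple of `k ≤ A` different cosets of
`H'` in `H` whose orbit under `H` has at most `[H : H'] ^ (k - 1 / A)` elements. -/
def SecP {G Ω : Type} [Group G] [MulAction G Ω] (H : Subgroup G) (x : Ω) (A : ℕ) : Prop :=
  MulAction.stabilizer G x ≤ H ∧ ∃ H' : Subgroup G, MulAction.stabilizer G x ≤ H' ∧ Adj H' H ∧
    Nat.card (MulAction.orbit H' x) ≤ A ∧ Tup H' H A

/-- THEOREM V (from YStatement, GRPU, GRPP, EXC, LIFT). -/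
def VlStatement : Prop :=
  ∀ (K : Type) [Field K] [NumberField K] (p s : ℕ) (v : FinitePlace K)
    (F : Fin 2 → MvPolynomial (Fin 2) K), HypR p s v F → CritW F →
    ∃ R : ℕ, 1 ≤ R ∧ (OneOrb F → R = 1) ∧ ∀ A : ℕ, 1 ≤ A →
    ∃ c : ℝ, 0 < c ∧ ∀ (N : Type) [Field N] [NumberField N] [Algebra K N] [IsGalois K N] (a : N),
      WandP F ![a, 1] →
      (∀ n : ℕ, A < dg K ((gAct F N)^[n] ![a, 1]) →
        ((p ^ s) ^ n) ^ A * (dg K ((gAct F N)^[n] ![a, 1])) ^ (A - 1) ≤ (dg K ![a, 1]) ^ A →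
        ∃ H : Subgroup (N ≃ₐ[K] N),
          SecU H (nz ((gAct F N)^[n] ![a, 1])) (dg K ((gAct F N)^[n] ![a, 1])) A R ∨
          R < Nat.card (MulAction.orbit H (nz ((gAct F N)^[n] ![a, 1]))) ∧
            SecP H (nz ((gAct F N)^[n] ![a, 1])) A) →
      ∃ h : ℝ, HasHt (p ^ s) F ![a, 1] h ∧ c / (dg K ![a, 1] : ℝ) ≤ h

end Pool.DynLehmer.LW
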