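import Pool.Agent.Lib.MP_2194ec_nt.LW.DefsVG
import Pool.Agent.Lib.MP_2194ec_nt.LW.ExplV

set_option autoImplicit false

/-!
# Theorem VG, with everything written out
-/

namespace Pool.DynLehmer.LW
open MvPolynomial NumberField Filter Topology Pool.DynLehmer Pool.DynLehmer.SB Pool.DynLehmer.SP
  Pool.DynLehmer.GS Pool.DynLehmer.GAL Pool.DynLehmer.LP
open scoped Classical

namespace ExplVG

open ExplU

variable {K : Type} [Field K] {N : Type} [Field N] [Algebra K N]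

theorem stab_af (b : N) : MulAction.stabilizer (N ≃ₐ[K] N) (af b) =
    MulAction.stabilizer (N ≃ₐ[K] N) b := by
  ext g
  rw [MulAction.mem_stabilizer_iff, MulAction.mem_stabilizer_iff, smul_af]
  exact ⟨fun h => af_inj h, fun h => congrArg af h⟩

end ExplVG

open ExplU ExplV ExplVG in
theorem vg_explicit (hMor : MorStatement)
    (Z : ∀ (G : Type) [Group G], Subgroup G → ℕ → ℕ → Prop) (hU : VgStatement Z) :
    ∀ (K : Type) [Field K] [NumberField K] (p s : ℕ) (v : NumberField.FinitePlace K)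
      (F : Fin 2 → MvPolynomial (Fin 2) K),
      p.Prime → 1 ≤ s → v (p : K) < 1 → (∀ i, (F i).IsHomogeneous (p ^ s)) →
      (∀ i t, v (coeff t (F i)) ≤ 1) →
      (∀ i t, (∀ j, t ≠ Finsupp.single j (p ^ s)) → v (coeff t (F i)) < 1) →
      v (Matrix.det (Matrix.of fun i j => coeff (Finsupp.single j (p ^ s)) (F i))) = 1 →
      (∃ x : Fin 2 → AlgebraicClosure K, x ≠ 0 ∧ 2 ≤ ld F x ∧
            ∀ m n : ℕ, Prl ((gAct F (AlgebraicClosure K))^[m] x)
              ((gAct F (AlgebraicClosure K))^[n] x) → m = n) →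
      ∃ R : ℕ, 1 ≤ R ∧
        ((∀ x y : Fin 2 → AlgebraicClosure K, x ≠ 0 → y ≠ 0 → 2 ≤ ld F x → 2 ≤ ld F y →
            (∀ m n : ℕ, Prl ((gAct F (AlgebraicClosure K))^[m] x)
              ((gAct F (AlgebraicClosure K))^[n] x) → m = n) →
            (∀ m n : ℕ, Prl ((gAct F (AlgebraicClosure K))^[m] y)
              ((gAct F (AlgebraicClosure K))^[n] y) → m = n) →
            ∃ m n : ℕ, Prl ((gAct F (AlgebraicClosure K))^[m] x)
              ((gAct F (AlgebraicClosure K))^[n] y)) → R = 1) ∧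
        ∀ A : ℕ, 1 ≤ A → ∃ (R' : ℕ) (c : ℝ), 0 < c ∧
        ∀ (L : Type) [Field L] [NumberField L] [Algebra K L] [IsGalois K L] (a : L),
          (∀ m n : ℕ, Prl ((gAct F L)^[m] ![a, 1]) ((gAct F L)^[n] ![a, 1]) → m = n) →
          (∀ (n D : ℕ) (b : L), b = (gAct F L)^[n] ![a, 1] 0 / (gAct F L)^[n] ![a, 1] 1 →
            D = Module.finrank K (IntermediateField.adjoin K {b}) → A < D →
            ((p ^ s) ^ n) ^ A * D ^ (A - 1) ≤
              (Module.finrank K (IntermediateField.adjoin K {a})) ^ A →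
            ¬ Z (L ≃ₐ[K] L) (MulAction.stabilizer (L ≃ₐ[K] L) b) A R' ∨
            ∃ H : Subgroup (L ≃ₐ[K] L), R < {x | ∃ σ ∈ H, σ b = x}.ncard ∧
              ((∀ σ : L ≃ₐ[K] L, σ b = b → ∀ τ ∈ H, σ * τ * σ⁻¹ ∈ H) ∧
                ({x | ∃ σ ∈ H, σ b = x}.ncard ^ A ≤ D ^ (A - 1) ∨
                  ∃ (l : ℕ) (G : ℕ → Subgroup (L ≃ₐ[K] L)),
                    (∀ σ ∈ G 0, ∀ x ∈ {x | ∃ σ ∈ H, σ b = x}, σ x = x) ∧ G l = H ∧
                    ∀ i < l, G i ≤ G (i + 1) ∧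
                      (∀ σ ∈ G (i + 1), ∀ τ ∈ G i, σ * τ * σ⁻¹ ∈ G i) ∧
                      ((∀ σ ∈ G (i + 1), ∀ τ ∈ G (i + 1), σ * τ * σ⁻¹ * τ⁻¹ ∈ G i) ∨
                        (G i).relIndex (G (i + 1)) ≤ D ^ A)) ∨
                (∀ σ : L ≃ₐ[K] L, σ b = b → σ ∈ H) ∧
                  ∃ H' : Subgroup (L ≃ₐ[K] L), (∀ σ : L ≃ₐ[K] L, σ b = b → σ ∈ H') ∧ H' < H ∧
                    (∀ J : Subgroup (L ≃ₐ[K] L), H' ≤ J → J ≤ H → J = H' ∨ J = H) ∧
                    {x | ∃ σ ∈ H', σ b = x}.ncard ≤ A ∧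
                    ∃ (k : ℕ) (σ : Fin k → (L ≃ₐ[K] L)), 2 ≤ k ∧ k ≤ A ∧ (∀ i, σ i ∈ H) ∧
                      (∀ i j, i ≠ j → (σ i)⁻¹ * σ j ∉ H') ∧
                      ((⨅ i, H'.map (MulAut.conj (σ i)).toMonoidHom).relIndex H) ^ A ≤
                        (H'.relIndex H) ^ (k * A - 1))) →
          ∃ h : ℝ,
            Filter.Tendsto (fun n : ℕ =>
              ((1 : ℝ) / (Module.finrank ℚ L : ℝ)) *
                ((∑ w : NumberField.InfinitePlace L, (NumberField.InfinitePlace.mult w : ℝ) *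
                    Real.log (⨆ j, w ((gAct F L)^[n] ![a, 1] j))) +
                 ∑ᶠ u : NumberField.FinitePlace L,
                    Real.log (⨆ j, u ((gAct F L)^[n] ![a, 1] j)))
                / ((p ^ s : ℕ) : ℝ) ^ n) Filter.atTop (nhds h) ∧
            c / (Module.finrank K (IntermediateField.adjoin K {a}) : ℝ) ≤ h := by
  intro K _ _ p s v F hp hs hv hF1 hF2 hF3 hF4 hcr
  have hyp : HypR p s v F := ⟨hp, hs, hv, hF1, hF2, hF3, hF4⟩
  have hM := hMor K p s v F hyp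
  have hq : 1 ≤ p ^ s := Nat.one_le_pow _ _ hp.pos
  have hw1 : ∀ x : Fin 2 → AlgebraicClosure K, WandP F x → ∀ m n : ℕ,
      Prl ((gAct F (AlgebraicClosure K))^[m] x) ((gAct F (AlgebraicClosure K))^[n] x) →
        m = n := by
    intro x hx m n h
    by_contra hmn
    obtain ⟨c, hc, h⟩ := h
    exact hx ⟨n, m, fun h => hmn h.symm, c, hc, h⟩
  have hw2 : ∀ x : Fin 2 → AlgebraicClosure K, (∀ m n : ℕ,
      Prl ((gAct F (AlgebraicClosure K))^[m] x) ((gAct F (AlgebraicClosure K))^[n] x) →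
        m = n) → WandP F x := by
    rintro x hx ⟨m, n, hmn, c, hc, h⟩
    exact hmn (hx n m ⟨c, hc, h⟩).symm
  have hcrit : CritW F := by
    obtain ⟨x, hx, hx2, hx3⟩ := hcr
    exact ⟨x, hx, (crit_iff hq hM hx).1 hx2, hw2 x hx3⟩
  obtain ⟨R, hR, hR1, H⟩ := hU K p s v F hyp hcrit
  refine ⟨R, hR, ?_, ?_⟩
  · intro hone
    refine hR1 ?_
    intro U U' hU hU' hJ hJ' hW hW'
    exact hone U U' hU hU' ((crit_iff hq hM hU).2 hJ) ((crit_iff hq hM hU').2 hJ')
      (hw1 U hW) (hw1 U' hW')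
  · intro A hA
    obtain ⟨R', c, hc, H⟩ := H A hA
    refine ⟨R', c, hc, ?_⟩
    intro L _ _ _ _ a ha hyp2
    have hdg0 : dg K ![a, 1] = Module.finrank K (IntermediateField.adjoin K {a}) := by
      unfold dg
      have h1 : (![a, 1] : Fin 2 → L) 0 / (![a, 1] : Fin 2 → L) 1 = a := by
        change a / 1 = a
        rw [div_one]
      rw [h1]
    obtain ⟨h, hlim, hle⟩ := H L a (by
      rintro ⟨m, n, hmn, u, hu, h⟩
      exact hmn (ha n m ⟨u, hu, h⟩).symm) (by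
      intro n h1 h2
      rw [hdg0] at h2
      have hy1 : (gAct F L)^[n] ![a, 1] 1 ≠ 0 := by
        intro h0
        have h6 : dg K ((gAct F L)^[n] ![a, 1]) = 1 := by
          rw [dg, h0, div_zero, IntermediateField.adjoin_zero, IntermediateField.finrank_bot]
        omega
      rw [nz_af hy1]
      obtain hZ | ⟨Hs, h4, h5⟩ := hyp2 n _ _ rfl rfl h1 h2
      · left
        rw [stab_af]
        exact hZ
      refine Or.inr ⟨Hs, ?_⟩
      rcases h5 with ⟨h3, h5⟩ | ⟨h3, h5⟩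
      · exact Or.inl (secU_af h3 h4 h5)
      · refine Or.inr ⟨?_, secP_af h3 h5⟩
        rw [card_af]
        exact h4)
    rw [hdg0] at hle
    refine ⟨h, Tendsto.congr (fun n => ?_) hlim, hle⟩
    have hne : (gAct F L)^[n] ![a, 1] ≠ 0 := E.gAct_iter_ne' hM n (by
      intro h0
      exact one_ne_zero (congrFun h0 1 : (1 : L) = 0))
    rw [logHeight_eq_sum hne, one_div, inv_mul_eq_div]

end Pool.DynLehmer.LW
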