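import Pool.Agent.Lib.MP_2194ec_nt.LW.DefsVH
import Pool.Agent.Lib.MP_2194ec_nt.LW.ExplVG
import Pool.Agent.Lib.MP_2194ec_nt.LW.Pthk
import Pool.Agent.Lib.MP_2194ec_nt.LW.Solv
import Pool.Agent.Lib.MP_2194ec_nt.LW.Grpe

set_option autoImplicit false

/-!
# Theorem VH, with everything written out
-/

namespace Pool.DynLehmer.LW
open MvPolynomial NumberField Filter Topology Pool.DynLehmer Pool.DynLehmer.SB Pool.DynLehmer.SP
  Pool.DynLehmer.GS Pool.DynLehmer.GAL Pool.DynLehmer.LP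
open scoped Classical

namespace ExplVH

open ExplU ExplVG

variable {K : Type} [Field K] {N : Type} [Field N] [Algebra K N] [FiniteDimensional K N]
  [IsGalois K N]

/-- the degree of a tuple of conjugates -/
theorem card_tuple (b : N) {k : ℕ} (σ : Fin k → (N ≃ₐ[K] N)) :
    Nat.card (MulAction.orbit (N ≃ₐ[K] N) (fun i => σ i • af b)) =
      Module.finrank K (IntermediateField.adjoin K (Set.range fun i => σ i b)) := by
  have h1 := PthkAux.dgk_eq (K := K) (fun i => (![σ i b, 1] : Fin 2 → N))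
  have h2 : (fun i => nz (![σ i b, 1] : Fin 2 → N)) = fun i => σ i • af b := by
    funext i
    have h3 : (![σ i b, 1] : Fin 2 → N) 1 ≠ 0 := one_ne_zero
    rw [nz_af h3, smul_af]
    congr 1
    change σ i b / 1 = σ i b
    rw [div_one]
  rw [h2] at h1
  have h4 : (fun i => (![σ i b, 1] : Fin 2 → N) 0 / (![σ i b, 1] : Fin 2 → N) 1) =
      fun i => σ i b := by
    funext i
    change σ i b / 1 = σ i b
    rw [div_one]
  rw [GrpE.orb_card, ← h1]
  unfold dgk
  rw [h4]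

theorem card_one (b : N) : Nat.card (MulAction.orbit (N ≃ₐ[K] N) (af b)) =
    Module.finrank K (IntermediateField.adjoin K {b}) := by
  have h1 := PthkAux.dgk_eq (K := K) (fun _ : Fin 1 => (![b, 1] : Fin 2 → N))
  have h2 : MulAction.stabilizer (N ≃ₐ[K] N) (fun _ : Fin 1 => nz (![b, 1] : Fin 2 → N)) =
      MulAction.stabilizer (N ≃ₐ[K] N) (af b) := by
    have h3 : nz (![b, 1] : Fin 2 → N) = af b := by
      have h4 : (![b, 1] : Fin 2 → N) 1 ≠ 0 := one_ne_zero
      rw [nz_af h4]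
      congr 1
      change b / 1 = b
      rw [div_one]
    rw [h3]
    ext g
    rw [MulAction.mem_stabilizer_iff, MulAction.mem_stabilizer_iff]
    exact ⟨fun h => congrFun h 0, fun h => funext fun _ => h⟩
  rw [GrpE.orb_card, ← h2, ← h1, SolvAux.dgk_one]
  unfold dg
  have h5 : (![b, 1] : Fin 2 → N) 0 / (![b, 1] : Fin 2 → N) 1 = b := by
    change b / 1 = b
    rw [div_one]
  rw [h5]

/-- the explicit form of almost transitivity -/
theorem atr_af {b : N} {A R : ℕ} (h : Atr (G := N ≃ₐ[K] N) (af b) A R) :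
    ∃ T : Finset N, T.card ≤ R ∧ (∀ σ : N ≃ₐ[K] N, σ b ∈ T → σ⁻¹ b ∈ T) ∧
      ∀ (k : ℕ) (σ : Fin k → (N ≃ₐ[K] N)), 2 ≤ k → k ≤ A →
        (∀ i j, i ≠ j → (σ i)⁻¹ (σ j b) ∉ T) →
        (Module.finrank K (IntermediateField.adjoin K {b})) ^ (k * A - 1) <
          (Module.finrank K (IntermediateField.adjoin K (Set.range fun i => σ i b))) ^ A := by
  obtain ⟨E, h1, h2, h3⟩ := h
  refine ⟨E.preimage af af_inj.injOn, ?_, ?_, ?_⟩
  · refine le_trans ?_ h1
    rw [← Finset.card_map ⟨af, af_inj⟩]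
    apply Finset.card_le_card
    intro x hx
    obtain ⟨y, hy, rfl⟩ := Finset.mem_map.1 hx
    exact Finset.mem_preimage.1 hy
  · intro σ hσ
    rw [Finset.mem_preimage, ← smul_af] at hσ ⊢
    exact h2 σ hσ
  · intro k σ hk2 hk h4
    have h5 := h3 k σ hk2 hk (by
      intro i j hij h6
      apply h4 i j hij
      rw [Finset.mem_preimage]
      rw [smul_af] at h6
      exact h6)
    rw [card_tuple, card_one] at h5
    exact h5

end ExplVH

open ExplU ExplV ExplVG ExplVH in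
theorem vh_explicit (hMor : MorStatement)
    (Z : ∀ (G : Type) [Group G], Subgroup G → ℕ → ℕ → ℕ → Prop) (hU : VhStatement Z) :
    ∀ (K : Type) [Field K] [NumberField K] (p s : ℕ) (v : NumberField.FinitePlace K)
      (F : Fin 2 → MvPolynomial (Fin 2) K),
      p.Prime → 1 ≤ s → v (p : K) < 1 → (∀ i, (F i).IsHomogeneous (p ^ s)) →
      (∀ i t, v (coeff t (F i)) ≤ 1) →
      (∀ i t, (∀ j, t ≠ Finsupp.single j (p ^ s)) → v (coeff t (F i)) < 1) →
      v (Matrix.det (Matrix.of fun i j => coeff (Finsupp.single j (p ^ s)) (F i))) = 1 →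
      (∃ x : Fin 2 → AlgebraicClosure K, x ≠ 0 ∧ 2 ≤ ld F x ∧
            ∀ m n : ℕ, Prl ((gAct F (AlgebraicClosure K))^[m] x)
              ((gAct F (AlgebraicClosure K))^[n] x) → m = n) →
      ∃ R : ℕ, 1 ≤ R ∧
        ((∀ x y : Fin 2 → AlgebraicClosure K, x ≠ 0 → y ≠ 0 → 2 ≤ ld F x → 2 ≤ ld F y →
            (∀ m n : ℕ, Prl ((gAct F (AlgebraicClosure K))^[m] x)
              ((gAct F (AlgebraicClosure K))^[n] x) → m = n) →
            (∀ m n : ℕ, Prl ((gAct F (AlgebraicClosure K))^[m] y)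
              ((gAct F (AlgebraicClosure K))^[n] y) → m = n) →
            ∃ m n : ℕ, Prl ((gAct F (AlgebraicClosure K))^[m] x)
              ((gAct F (AlgebraicClosure K))^[n] y)) → R = 1) ∧
        ∀ A : ℕ, 1 ≤ A → ∃ (R' : ℕ) (c : ℝ), 0 < c ∧
        ∀ (L : Type) [Field L] [NumberField L] [Algebra K L] [IsGalois K L] (a : L),
          (∀ m n : ℕ, Prl ((gAct F L)^[m] ![a, 1]) ((gAct F L)^[n] ![a, 1]) → m = n) →
          (∃ h : ℝ,
            Filter.Tendsto (fun n : ℕ =>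
              ((1 : ℝ) / (Module.finrank ℚ L : ℝ)) *
                ((∑ w : NumberField.InfinitePlace L, (NumberField.InfinitePlace.mult w : ℝ) *
                    Real.log (⨆ j, w ((gAct F L)^[n] ![a, 1] j))) +
                 ∑ᶠ u : NumberField.FinitePlace L,
                    Real.log (⨆ j, u ((gAct F L)^[n] ![a, 1] j)))
                / ((p ^ s : ℕ) : ℝ) ^ n) Filter.atTop (nhds h) ∧
            c / (Module.finrank K (IntermediateField.adjoin K {a}) : ℝ) ≤ h) ∨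
          ∃ (n D : ℕ) (b : L), b = (gAct F L)^[n] ![a, 1] 0 / (gAct F L)^[n] ![a, 1] 1 ∧
            D = Module.finrank K (IntermediateField.adjoin K {b}) ∧ A < D ∧
            ((p ^ s) ^ n) ^ A * D ^ (A - 1) ≤
              (Module.finrank K (IntermediateField.adjoin K {a})) ^ A ∧
            Z (L ≃ₐ[K] L) (MulAction.stabilizer (L ≃ₐ[K] L) b) A R R' ∧
            (∃ T : Finset L, T.card ≤ R ∧ (∀ σ : L ≃ₐ[K] L, σ b ∈ T → σ⁻¹ b ∈ T) ∧
              ∀ (k : ℕ) (σ : Fin k → (L ≃ₐ[K] L)), 2 ≤ k → k ≤ A →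
                (∀ i j, i ≠ j → (σ i)⁻¹ (σ j b) ∉ T) →
                D ^ (k * A - 1) < (Module.finrank K
                  (IntermediateField.adjoin K (Set.range fun i => σ i b))) ^ A) ∧
            ∀ H : Subgroup (L ≃ₐ[K] L), (∀ σ : L ≃ₐ[K] L, σ b = b → ∀ τ ∈ H, σ * τ * σ⁻¹ ∈ H) →
              R < {x | ∃ σ ∈ H, σ b = x}.ncard →
              D ^ (A - 1) < {x | ∃ σ ∈ H, σ b = x}.ncard ^ A ∧
              ¬ ∃ (l : ℕ) (G : ℕ → Subgroup (L ≃ₐ[K] L)),
                  (∀ σ ∈ G 0, ∀ x ∈ {x | ∃ σ ∈ H, σ b = x}, σ x = x) ∧ G l = H ∧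
                  ∀ i < l, G i ≤ G (i + 1) ∧
                    (∀ σ ∈ G (i + 1), ∀ τ ∈ G i, σ * τ * σ⁻¹ ∈ G i) ∧
                    ((∀ σ ∈ G (i + 1), ∀ τ ∈ G (i + 1), σ * τ * σ⁻¹ * τ⁻¹ ∈ G i) ∨
                      (G i).relIndex (G (i + 1)) ≤ D ^ A) := by
  intro K _ _ p s v F hp hs hv hF1 hF2 hF3 hF4 hcr
  have hyp : HypR p s v F := ⟨hp, hs, hv, hF1, hF2, hF3, hF4⟩
  have hM := hMor K p s v F hyp
  have hq : 1 ≤ p ^ s := Nat.one_le_pow _ _ hp.pos
  have hw1 : ∀ x : Fin 2 → AlgebraicClosure K, WandP F x → ∀ m n : ℕ,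
      Prl ((gAct F (AlgebraicClosure K))^[m] x) ((gAct F (AlgebraicClosure K))^[n] x) →
        m = n := by
    intro x hx m n h
    by_contra hmn
    obtain ⟨c, hc, h⟩ := h
    exact hx ⟨n, m, fun h => hmn h.symm, c, hc, h⟩
  have hw2 : ∀ x : Fin 2 → AlgebraicClosure K, (∀ m n : ℕ,
      Prl ((gAct F (AlgebraicClosure K))^[m] x) ((gAct F (AlgebraicClosure K))^[n] x) →
        m = n) → WandP F x := by
    rintro x hx ⟨m, n, hmn, c, hc, h⟩
    exact hmn (hx n m ⟨c, hc, h⟩).symm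
  have hcrit : CritW F := by
    obtain ⟨x, hx, hx2, hx3⟩ := hcr
    exact ⟨x, hx, (crit_iff hq hM hx).1 hx2, hw2 x hx3⟩
  obtain ⟨R, hR, hR1, H⟩ := hU K p s v F hyp hcrit
  refine ⟨R, hR, ?_, ?_⟩
  · intro hone
    refine hR1 ?_
    intro U U' hU hU' hJ hJ' hW hW'
    exact hone U U' hU hU' ((crit_iff hq hM hU).2 hJ) ((crit_iff hq hM hU').2 hJ')
      (hw1 U hW) (hw1 U' hW')
  · intro A hA
    obtain ⟨R', c, hc, H⟩ := H A hA
    refine ⟨R', c, hc, ?_⟩
    intro L _ _ _ _ a ha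
    have hfd : FiniteDimensional K L := Module.Finite.of_restrictScalars_finite ℚ K L
    have hdg0 : dg K ![a, 1] = Module.finrank K (IntermediateField.adjoin K {a}) := by
      unfold dg
      have h1 : (![a, 1] : Fin 2 → L) 0 / (![a, 1] : Fin 2 → L) 1 = a := by
        change a / 1 = a
        rw [div_one]
      rw [h1]
    rcases H L a (by
      rintro ⟨m, n, hmn, u, hu, h⟩
      exact hmn (ha n m ⟨u, hu, h⟩).symm) with ⟨h, hlim, hle⟩ | ⟨n, h1, h2, h3, h4, h5⟩
    · left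
      rw [hdg0] at hle
      refine ⟨h, Tendsto.congr (fun n => ?_) hlim, hle⟩
      have hne : (gAct F L)^[n] ![a, 1] ≠ 0 := E.gAct_iter_ne' hM n (by
        intro h0
        exact one_ne_zero (congrFun h0 1 : (1 : L) = 0))
      rw [logHeight_eq_sum hne, one_div, inv_mul_eq_div]
    · right
      rw [hdg0] at h2
      have hy1 : (gAct F L)^[n] ![a, 1] 1 ≠ 0 := by
        intro h0
        have h6 : dg K ((gAct F L)^[n] ![a, 1]) = 1 := by
          rw [dg, h0, div_zero, IntermediateField.adjoin_zero, IntermediateField.finrank_bot]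
        omega
      rw [nz_af hy1] at h3 h4 h5
      rw [stab_af] at h4
      refine ⟨n, _, _, rfl, rfl, h1, h2, h4, atr_af h3, ?_⟩
      intro Hs h6 h7
      constructor
      · by_contra h8
        exact (h5 Hs).1 (secU_af h6 h7 (Or.inl (not_lt.1 h8)))
      · intro h8
        exact (h5 Hs).1 (secU_af h6 h7 (Or.inr h8))

end Pool.DynLehmer.LW
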