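import Pool.Agent.Lib.MP_2194ec_nt.LW.Defs
import Pool.Agent.Lib.MP_2194ec_nt.LP.Vpfin

set_option autoImplicit false
set_option linter.unusedSectionVars false

/-!
# The end of the proof: auxiliary results on tuples of points
-/

namespace Pool.DynLehmer.LW
open MvPolynomial NumberField Filter Topology Pool.DynLehmer Pool.DynLehmer.SB Pool.DynLehmer.SP
  Pool.DynLehmer.GS Pool.DynLehmer.LP
open scoped Classical

namespace FinW

section points

variable {K : Type} [Field K] {N : Type} [Field N] [Algebra K N] {k : ℕ}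

theorem adj_top {x : Fin k → N} {L : IntermediateField K N}
    (hL : L = IntermediateField.adjoin K (Set.range x)) (z : Fin k → L)
    (hz : ∀ i, (z i : N) = x i) : IntermediateField.adjoin K (Set.range z) = ⊤ := by
  apply IntermediateField.lift_injective L
  rw [IntermediateField.lift_top, IntermediateField.lift_adjoin, ← Set.range_comp]
  have h1 : (Subtype.val ∘ z : Fin k → N) = x := funext hz
  change IntermediateField.adjoin K (Set.range (Subtype.val ∘ z : Fin k → N)) = L
  rw [h1, ← hL]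

theorem segk_ne {y : Fin k → Fin 2 → N} (hy : ∀ i, y i ≠ 0) : segk y ≠ 0 := by
  have h1 : ∀ i, ∃ j, y i j ≠ 0 := fun i => Function.ne_iff.1 (hy i)
  choose J hJ using h1
  intro h0
  have h2 : ∏ i, y i (J i) = 0 := congrFun h0 J
  exact (Finset.prod_ne_zero_iff.2 fun i _ => hJ i) h2

theorem segk_iter {F : Fin 2 → MvPolynomial (Fin 2) K}
    {Fz : (Fin k → Fin 2) → MvPolynomial (Fin k → Fin 2) K}
    (hFz : ∀ y : Fin k → Fin 2 → N, gAct Fz N (segk y) = segk (fun i => gAct F N (y i)))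
    (y : Fin k → Fin 2 → N) (n : ℕ) :
    (gAct Fz N)^[n] (segk y) = segk (fun i => (gAct F N)^[n] (y i)) := by
  induction n with
  | zero => rfl
  | succ n ih => rw [Function.iterate_succ_apply', ih, hFz]; simp only [Function.iterate_succ_apply']

theorem segk_hom {L : Type} [Field L] [Algebra K L] (φ : L →ₐ[K] N) (Y : Fin k → Fin 2 → L) :
    (segk fun i j => φ (Y i j)) = fun I => φ (segk Y I) := by
  funext I
  exact (map_prod φ _ _).symm

end points

section count

variable {K : Type} [Field K] [NumberField K] {N : Type} [Field N] [NumberField N] [Algebra K N]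
  [IsGalois K N] {L : Type} [Field L] [NumberField L] [Algebra K L] {k : ℕ}

/-- the ramification is small for a proportion `7 / 8` of the pairs -/
theorem good_tuples (hHomc : HomcStatement) (hRamk : RamkStatement) (v : FinitePlace K) (u : K)
    (hu : ∀ a : K, v a < 1 → v a ≤ v u) (φ₀ : L →ₐ[K] N) {Y : Fin k → Fin 2 → L}
    (hY : ∀ i, Y i ≠ 0)
    (hadj : IntermediateField.adjoin K (Set.range fun i => Y i 0 / Y i 1) = ⊤)
    {y : Fin 2 → N} (hy : ∀ i, (nz fun j => φ₀ (Y i j)) ∈ orb (N ≃ₐ[K] N) (nz y))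
    (S : Finset (FinitePlace N)) (e : FinitePlace N → ℕ) (hS : ∀ w ∈ S, Above v w (e w))
    (hsum : ∑ w ∈ S, e w = Module.finrank K N) (T ρ : ℝ) (hρ : k * ρ ≤ 1 / 8)
    (h : ∑ w ∈ S, (e w : ℝ) * (((orb (N ≃ₐ[K] N) (nz y)).filter fun z =>
      T ≤ (LP.disc K w z : ℝ)).card : ℝ) ≤ ρ * Module.finrank K N * dgo K (nz y)) :
    7 * (Nat.card (L →ₐ[K] N) * ∑ w ∈ S, e w) ≤
      8 * ∑ w ∈ S, e w * Nat.card {φ : L →ₐ[K] N // Low u w φ (⌊T⌋₊ ^ k)} := by
  have h1 := fun i => FinAux.bad_one hHomc φ₀ (hY i) (hy i) S e T ρ h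
  have hcard : ∀ p : (L →ₐ[K] N) → Prop, Nat.card {φ : L →ₐ[K] N // p φ} =
      (Finset.univ.filter p).card := by
    intro p
    rw [Nat.card_eq_fintype_card, Fintype.card_subtype]
  have hallc : Nat.card (L →ₐ[K] N) = (Finset.univ : Finset (L →ₐ[K] N)).card := by
    rw [Nat.card_eq_fintype_card, Finset.card_univ]
  have h3 : ∀ w ∈ S, Nat.card (L →ₐ[K] N) ≤
      Nat.card {φ : L →ₐ[K] N // Low u w φ (⌊T⌋₊ ^ k)} +
      ∑ i, Nat.card {φ : L →ₐ[K] N // T ≤ (LP.disc K w (nz fun j => φ (Y i j)) : ℝ)} := by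
    intro w hw
    rw [hcard, hallc]
    simp only [hcard]
    refine le_trans (Finset.card_le_card (t := (Finset.univ.filter fun φ : L →ₐ[K] N =>
      Low u w φ (⌊T⌋₊ ^ k)) ∪ Finset.univ.biUnion fun i => Finset.univ.filter
        fun φ : L →ₐ[K] N => T ≤ (LP.disc K w (nz fun j => φ (Y i j)) : ℝ)) ?_)
      ((Finset.card_union_le _ _).trans (Nat.add_le_add_left Finset.card_biUnion_le _))
    intro φ _
    rw [Finset.mem_union, Finset.mem_filter, Finset.mem_biUnion]
    by_contra hcon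
    push Not at hcon
    obtain ⟨hc1, hc2⟩ := hcon
    refine hc1 (Finset.mem_univ _) (hRamk K N v w (e w) (hS w hw) u hu L k Y hY hadj φ
      (fun _ => ⌊T⌋₊) _ (fun i => Nat.le_floor ?_) (by simp))
    have h4 := hc2 i (Finset.mem_univ _)
    rw [Finset.mem_filter] at h4
    push Not at h4
    exact (h4 (Finset.mem_univ _)).le
  have h4 : (Nat.card (L →ₐ[K] N) : ℝ) * Module.finrank K N ≤
      (∑ w ∈ S, (e w : ℝ) * Nat.card {φ : L →ₐ[K] N // Low u w φ (⌊T⌋₊ ^ k)}) +
      k * (ρ * Module.finrank K N * Nat.card (L →ₐ[K] N)) := by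
    calc (Nat.card (L →ₐ[K] N) : ℝ) * Module.finrank K N
        = ∑ w ∈ S, (e w : ℝ) * Nat.card (L →ₐ[K] N) := by
          rw [← Finset.sum_mul, ← hsum]
          push_cast
          ring
      _ ≤ ∑ w ∈ S, (e w : ℝ) * ((Nat.card {φ : L →ₐ[K] N // Low u w φ (⌊T⌋₊ ^ k)} : ℝ) +
          ∑ i, (Nat.card {φ : L →ₐ[K] N //
            T ≤ (LP.disc K w (nz fun j => φ (Y i j)) : ℝ)} : ℝ)) := by
          refine Finset.sum_le_sum fun w hw => mul_le_mul_of_nonneg_left ?_ (Nat.cast_nonneg _)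
          exact_mod_cast h3 w hw
      _ = (∑ w ∈ S, (e w : ℝ) * Nat.card {φ : L →ₐ[K] N // Low u w φ (⌊T⌋₊ ^ k)}) +
          ∑ i, ∑ w ∈ S, (e w : ℝ) * (Nat.card {φ : L →ₐ[K] N //
            T ≤ (LP.disc K w (nz fun j => φ (Y i j)) : ℝ)} : ℝ) := by
          simp only [mul_add, Finset.sum_add_distrib, Finset.mul_sum]
          rw [Finset.sum_comm]
      _ ≤ _ := by
          refine add_le_add_right ?_ _
          refine (Finset.sum_le_sum fun i _ => h1 i).trans (le_of_eq ?_)
          rw [Finset.sum_const, Finset.card_univ, Fintype.card_fin, nsmul_eq_mul]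
  have h5 : k * (ρ * Module.finrank K N * Nat.card (L →ₐ[K] N)) ≤
      1 / 8 * (Module.finrank K N * Nat.card (L →ₐ[K] N) : ℝ) := by
    have h6 : (0 : ℝ) ≤ Module.finrank K N * Nat.card (L →ₐ[K] N) := by positivity
    have h7 := mul_le_mul_of_nonneg_right hρ h6
    linarith
  have h6 : (7 : ℝ) * (Nat.card (L →ₐ[K] N) * Module.finrank K N) ≤
      8 * ∑ w ∈ S, (e w : ℝ) * Nat.card {φ : L →ₐ[K] N // Low u w φ (⌊T⌋₊ ^ k)} := by
    linarith
  rw [hsum]
  exact_mod_cast h6

end count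

section heights

variable {K : Type} [Field K] [NumberField K] {N : Type} [Field N] [NumberField N] [Algebra K N]
  {L : Type} [Field L] [NumberField L] [Algebra K L] {q : ℕ} {F : Fin 2 → MvPolynomial (Fin 2) K}
  {k : ℕ}

/-- the canonical height of the tuple is at most the sum of the canonical heights -/
theorem height_tuple (hSegH : ∀ (N : Type) [Field N] [NumberField N] (k : ℕ)
      (y : Fin k → Fin 2 → N), Height.logHeight (segk y) ≤ ∑ i, Height.logHeight (y i))
    (hF : ∀ i, (F i).IsHomogeneous q) (hq : 0 < q)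
    {Fz : (Fin k → Fin 2) → MvPolynomial (Fin k → Fin 2) K}
    (hFz : ∀ y : Fin k → Fin 2 → L, gAct Fz L (segk y) = segk (fun i => gAct F L (y i)))
    (φ : L →ₐ[K] N) {P : Fin 2 → N} (σ : Fin k → (N ≃ₐ[K] N)) {Y : Fin k → Fin 2 → L}
    (hY : ∀ i, Prl (gal (σ i) P) (fun j => φ (Y i j))) {h h' : ℝ} (hlim : HasHt q F P h)
    (hlim' : Tendsto (fun n : ℕ => Height.logHeight ((gAct Fz L)^[n] (segk Y)) /
      (Module.finrank ℚ L : ℝ) / (q : ℝ) ^ n) atTop (𝓝 h')) : h' ≤ k * h := by
  refine le_of_tendsto_of_tendsto' hlim' (hlim.const_mul (k : ℝ)) fun n => ?_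
  have h2 : Height.logHeight ((gAct Fz L)^[n] (segk Y)) / (Module.finrank ℚ L : ℝ) =
      Height.logHeight (segk fun i => (gAct F N)^[n] (fun j => φ (Y i j))) /
        (Module.finrank ℚ N : ℝ) := by
    rw [← logHeight_hom (φ : L →+* N), segk_iter hFz]
    congr 2
    have h3 : (fun i => (gAct F N)^[n] (fun j => φ (Y i j))) =
        fun i j => φ ((gAct F L)^[n] (Y i) j) := by
      funext i
      rw [gAct_iter_map F φ n (Y i)]
    rw [h3, segk_hom]
    rfl
  have h3 := hSegH N k fun i => (gAct F N)^[n] (fun j => φ (Y i j))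
  have h4 : ∀ i, Height.logHeight ((gAct F N)^[n] (fun j => φ (Y i j))) =
      Height.logHeight ((gAct F N)^[n] P) := by
    intro i
    rw [← FinAux.height_prl hF (hY i), SP.CasebAux.gAct_iter_gal]
    exact logHeight_ringEquiv ((σ i) : N ≃+* N) _
  simp only [h4, Finset.sum_const, Finset.card_univ, Fintype.card_fin, nsmul_eq_mul] at h3
  rw [h2, ← mul_div_assoc, ← mul_div_assoc]
  exact div_le_div_of_nonneg_right (div_le_div_of_nonneg_right h3 (Nat.cast_nonneg _))
    (by positivity)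

end heights

end FinW

end Pool.DynLehmer.LW
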