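import Pool.Agent.Lib.MP_2194ec_nt.LW.Defs

set_option autoImplicit false
set_option linter.unusedSectionVars false

/-!
# The end of the proof: the ideal of the product of projective lines
-/

namespace Pool.DynLehmer.LW
open MvPolynomial Pool.DynLehmer Pool.DynLehmer.GS
open scoped Classical

namespace FinW

variable {K : Type} [Field K] {k : ℕ}

/-- evaluation at a tuple -/
theorem aeval_segk {N : Type} [Field N] [Algebra K N] (y : Fin k → Fin 2 → N)
    (f : MvPolynomial (Fin k → Fin 2) K) :
    aeval (segk y) f = aeval (fun a : Fin k × Fin 2 => y a.1 a.2) (bind₁ (segX K k) f) := by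
  rw [aeval_bind₁]
  congr 1
  apply MvPolynomial.algHom_ext
  intro I
  rw [aeval_X, aeval_X, segX, map_prod]
  simp only [aeval_X]
  rfl

theorem segX_hom (I : Fin k → Fin 2) : (segX K k I).IsHomogeneous k := by
  unfold segX
  have h := IsHomogeneous.prod (Finset.univ : Finset (Fin k))
    (fun i => (X (i, I i) : MvPolynomial (Fin k × Fin 2) K)) (fun _ => 1)
    (fun i _ => isHomogeneous_X K (i, I i))
  simpa using h

theorem bind_segX_hom {n : ℕ} {f : MvPolynomial (Fin k → Fin 2) K} (hf : f.IsHomogeneous n) :
    (bind₁ (segX K k) f).IsHomogeneous (k * n) := by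
  exact hf.aeval (segX K k) fun I => segX_hom I

/-- the homogeneous components of an element of the ideal of the product are in the ideal -/
theorem bind_segX_comp (hk : 1 ≤ k) {f : MvPolynomial (Fin k → Fin 2) K}
    (hf : bind₁ (segX K k) f = 0) (n : ℕ) : bind₁ (segX K k) (homogeneousComponent n f) = 0 := by
  have h1 : ∀ m, (bind₁ (segX K k) (homogeneousComponent m f)).IsHomogeneous (k * m) := fun m =>
    bind_segX_hom (homogeneousComponent_isHomogeneous m f)
  have h2 : homogeneousComponent (k * n) (bind₁ (segX K k) f) =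
      bind₁ (segX K k) (homogeneousComponent n f) := by
    conv_lhs => rw [← sum_homogeneousComponent f]
    rw [map_sum, map_sum]
    by_cases hn : n ∈ Finset.range (f.totalDegree + 1)
    · rw [Finset.sum_eq_single_of_mem n hn]
      · rw [homogeneousComponent_of_mem (h1 n), if_pos rfl]
      · intro m _ hmn
        rw [homogeneousComponent_of_mem (h1 m), if_neg]
        intro h
        exact hmn (Nat.eq_of_mul_eq_mul_left (by omega) h).symm
    · rw [Finset.sum_eq_zero]
      · rw [homogeneousComponent_eq_zero, map_zero]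
        rw [Finset.mem_range] at hn
        omega
      · intro m hm
        rw [homogeneousComponent_of_mem (h1 m), if_neg]
        intro h
        have := Nat.eq_of_mul_eq_mul_left (show 0 < k by omega) h
        exact hn (this ▸ hm)
  rw [← h2, hf, map_zero]

/-- the equations of the product used below -/
noncomputable def gq (K : Type) [Field K] {k : ℕ} (J₀ J : Fin k → Fin 2) :
    MvPolynomial (Fin k → Fin 2) K :=
  ∏ i, X (Function.update J₀ i (J i)) - X J * X J₀ ^ (k - 1)

theorem gq_hom (hk : 1 ≤ k) (J₀ J : Fin k → Fin 2) : (gq K J₀ J).IsHomogeneous k := by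
  unfold gq
  refine IsHomogeneous.sub ?_ ?_
  · have h := IsHomogeneous.prod (Finset.univ : Finset (Fin k))
      (fun i => (X (Function.update J₀ i (J i)) : MvPolynomial (Fin k → Fin 2) K)) (fun _ => 1)
      (fun i _ => isHomogeneous_X K _)
    simpa using h
  · have h := (isHomogeneous_X K J).mul ((isHomogeneous_X K J₀).pow (k - 1))
    rwa [one_mul, show 1 + (k - 1) = k by omega] at h

theorem gq_zero (hk : 1 ≤ k) (J₀ J : Fin k → Fin 2) : bind₁ (segX K k) (gq K J₀ J) = 0 := by
  unfold gq
  rw [map_sub, map_prod, map_mul, map_pow]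
  simp only [bind₁_X_right]
  unfold segX
  rw [sub_eq_zero]
  have h1 : ∀ i : Fin k, ∏ j, (X (j, Function.update J₀ i (J i) j) :
      MvPolynomial (Fin k × Fin 2) K) =
      X (i, J i) * ∏ j ∈ Finset.univ.erase i, X (j, J₀ j) := by
    intro i
    rw [← Finset.mul_prod_erase Finset.univ _ (Finset.mem_univ i), Function.update_self]
    congr 1
    refine Finset.prod_congr rfl fun j hj => ?_
    rw [Function.update_of_ne (Finset.ne_of_mem_erase hj)]
  rw [Finset.prod_congr rfl fun i _ => h1 i, Finset.prod_mul_distrib]
  congr 1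
  -- the double product
  have h2 : ∀ i : Fin k, ∏ j ∈ Finset.univ.erase i, (X (j, J₀ j) :
      MvPolynomial (Fin k × Fin 2) K) = ∏ j, if j ≠ i then X (j, J₀ j) else 1 := by
    intro i
    rw [← Finset.prod_filter]
    congr 1
    ext j
    simp
  rw [Finset.prod_congr rfl fun i _ => h2 i, Finset.prod_comm, ← Finset.prod_pow]
  refine Finset.prod_congr rfl fun j _ => ?_
  rw [← Finset.prod_filter, Finset.prod_const]
  congr 1
  rw [Finset.filter_ne, Finset.card_erase_of_mem (Finset.mem_univ j), Finset.card_univ,
    Fintype.card_fin]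

/-- a homogeneous prime ideal which contains the equations contains the ideal of the product -/
theorem seg_mem (hk : 1 ≤ k) {I : Ideal (MvPolynomial (Fin k → Fin 2) K)} (hI : I.IsPrime)
    (hH : HomI I) {J₀ : Fin k → Fin 2} (hJ : (X J₀ : MvPolynomial (Fin k → Fin 2) K) ∉ I)
    (hg : ∀ J, gq K J₀ J ∈ I) {f : MvPolynomial (Fin k → Fin 2) K}
    (hf : bind₁ (segX K k) f = 0) : f ∈ I := by
  have key : ∀ n (g : MvPolynomial (Fin k → Fin 2) K), g.IsHomogeneous n →
      bind₁ (segX K k) g = 0 → g ∈ I := by
    intro n g hgn hg0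
    have h1 : aeval (fun J => ∏ i, Ideal.Quotient.mk I (X (Function.update J₀ i (J i)))) g =
        0 := by
      have h2 : (aeval (fun J => ∏ i, Ideal.Quotient.mk I (X (Function.update J₀ i (J i)))) :
          MvPolynomial (Fin k → Fin 2) K →ₐ[K] _) =
          (aeval fun a : Fin k × Fin 2 => Ideal.Quotient.mk I
            (X (Function.update J₀ a.1 a.2))).comp (bind₁ (segX K k)) := by
        apply MvPolynomial.algHom_ext
        intro J
        rw [aeval_X, AlgHom.comp_apply, bind₁_X_right, segX, map_prod]
        simp only [aeval_X]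
      rw [h2, AlgHom.comp_apply, hg0, map_zero]
    have h3 : (fun J => ∏ i, Ideal.Quotient.mk I (X (Function.update J₀ i (J i)))) =
        fun J => Ideal.Quotient.mk I (X J₀ ^ (k - 1)) * Ideal.Quotient.mk I (X J) := by
      funext J
      rw [← map_prod, ← map_mul, Ideal.Quotient.eq, mul_comm]
      exact hg J
    have h4 : aeval (fun J => Ideal.Quotient.mk I (X J₀ ^ (k - 1)) * Ideal.Quotient.mk I (X J))
        g = Ideal.Quotient.mk I ((X J₀ ^ (k - 1)) ^ n * g) := by
      have h5 : (fun J => Ideal.Quotient.mk I (X J₀ ^ (k - 1)) * Ideal.Quotient.mk I (X J)) =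
          fun J => Ideal.Quotient.mk I (X J₀ ^ (k - 1) * X J) := by
        funext J; rw [map_mul]
      rw [h5]
      have h6 : (aeval (fun J => Ideal.Quotient.mk I (X J₀ ^ (k - 1) * X J)) :
          MvPolynomial (Fin k → Fin 2) K →ₐ[K] _) =
          (Ideal.Quotient.mkₐ K I).comp (aeval fun J => X J₀ ^ (k - 1) * X J) := by
        apply MvPolynomial.algHom_ext
        intro J
        rw [aeval_X, AlgHom.comp_apply, aeval_X]
        rfl
      rw [h6, AlgHom.comp_apply]
      have h7 : aeval (fun J => X J₀ ^ (k - 1) * X J) g =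
          (X J₀ ^ (k - 1)) ^ n * (aeval (fun J => (X J : MvPolynomial (Fin k → Fin 2) K)) g) := by
        rw [aeval_def, aeval_def, eval₂_eq, eval₂_eq, Finset.mul_sum]
        refine Finset.sum_congr rfl fun t ht => ?_
        have h8 : n = ∑ i ∈ t.support, t i := hgn.degree_eq_sum_deg_support ht
        simp only [mul_pow, Finset.prod_mul_distrib]
        rw [Finset.prod_pow_eq_pow_sum, ← h8]
        ring
      rw [h7, aeval_X_left_apply]
      rfl
    rw [h3, h4, Ideal.Quotient.eq_zero_iff_mem] at h1
    rcases hI.mem_or_mem h1 with h2 | h2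
    · exact absurd (hI.mem_of_pow_mem _ (hI.mem_of_pow_mem _ h2)) hJ
    · exact h2
  rw [← sum_homogeneousComponent f]
  exact Ideal.sum_mem _ fun n _ => key n _ (homogeneousComponent_isHomogeneous n f)
    (bind_segX_comp hk hf n)

end FinW

end Pool.DynLehmer.LW
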