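import Pool.Agent.Lib.MP_2194ec_nt.LW.DefsPas
import Pool.Agent.Lib.MP_2194ec_nt.LW.Finz

set_option autoImplicit false
set_option linter.unusedSectionVars false

/-!
# The Lehmer bound and primitive almost simple groups: assembly
-/

namespace Pool.DynLehmer.LW
open MvPolynomial NumberField Filter Topology Pool.DynLehmer Pool.DynLehmer.SB Pool.DynLehmer.SP
  Pool.DynLehmer.GS Pool.DynLehmer.LP
open scoped Classical

namespace FinO

theorem orbit_meet {G X : Type} [Group G] [MulAction G X] (x : X) {k : ℕ} (σ : Fin k → G) :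
    Nat.card (MulAction.orbit G (fun i => σ i • x)) =
      (⨅ i, (MulAction.stabilizer G x).map (MulAut.conj (σ i)).toMonoidHom).index := by
  rw [Nat.card_coe_set_eq, ← MulAction.index_stabilizer G]
  congr 1
  ext g
  rw [MulAction.mem_stabilizer_iff, _root_.funext_iff, Subgroup.mem_iInf]
  refine forall_congr' fun i => ?_
  rw [← MulAction.stabilizer_smul_eq_stabilizer_map_conj, MulAction.mem_stabilizer_iff]
  rfl

theorem num1 {n e c C A A' k : ℕ} (hA : 1 ≤ A) (hk : 1 ≤ k) (hA' : 1 ≤ A') (he : 1 ≤ e)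
    (h : n ^ A' ≤ c * e ^ (k * A' - 1)) (hc : c ≤ C) :
    n ^ (A * A') ≤ C ^ A * e ^ (k * (A * A') - 1) := by
  calc n ^ (A * A') = (n ^ A') ^ A := by rw [← pow_mul, mul_comm]
    _ ≤ (c * e ^ (k * A' - 1)) ^ A := Nat.pow_le_pow_left h A
    _ = c ^ A * e ^ (A * (k * A' - 1)) := by
        rw [mul_pow, ← pow_mul, mul_comm (k * A' - 1) A]
    _ ≤ C ^ A * e ^ (k * (A * A') - 1) := by
        refine Nat.mul_le_mul (Nat.pow_le_pow_left hc A) (Nat.pow_le_pow_right he ?_)
        have h1 : 1 ≤ k * A' := Nat.mul_pos hk hA'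
        have h2 : k * (A * A') = A * (k * A') := by ring
        have h3 : A * (k * A' - 1) + A = A * (k * A') := by
          rw [Nat.mul_sub, mul_one]
          exact Nat.sub_add_cancel (Nat.le_mul_of_pos_right A h1)
        omega

theorem num2 {n e C A A' k : ℕ} (hA : 1 ≤ A) (hk : 1 ≤ k) (hA' : 1 ≤ A') (he : 1 ≤ e) (hC : 1 ≤ C)
    (h : n ^ A ≤ e ^ (k * A - 1)) :
    n ^ (A * A') ≤ C ^ A * e ^ (k * (A * A') - 1) := by
  calc n ^ (A * A') = (n ^ A) ^ A' := by rw [← pow_mul]
    _ ≤ (e ^ (k * A - 1)) ^ A' := Nat.pow_le_pow_left h A'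
    _ = 1 * e ^ (A' * (k * A - 1)) := by
        rw [one_mul, ← pow_mul, mul_comm (k * A - 1) A']
    _ ≤ C ^ A * e ^ (k * (A * A') - 1) := by
        refine Nat.mul_le_mul (Nat.one_le_pow _ _ hC) (Nat.pow_le_pow_right he ?_)
        have h1 : 1 ≤ k * A := Nat.mul_pos hk hA
        have h2 : k * (A * A') = A' * (k * A) := by ring
        have h3 : A' * (k * A - 1) + A' = A' * (k * A) := by
          rw [Nat.mul_sub, mul_one]
          exact Nat.sub_add_cancel (Nat.le_mul_of_pos_right A' h1)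
        omega

end FinO

open FinM FinZ FinO in
/-- **The Lehmer bound for all algebraic numbers whose Galois group is not a primitive almost
simple group, essentially.** -/
theorem fino (hFin : FingStatement) (hGrp : GrpoStatement) (hNorm : NormbStatement)
    (hRep : RepmStatement) : MuloStatement := by
  intro A hA
  obtain ⟨R, k₀, A', C₀, hA', hG⟩ := hGrp A hA
  refine ⟨R, ?_⟩
  intro K _ _
  obtain ⟨c, hc, hmain⟩ := hFin K (max k₀ A) (A * A') ((max (max C₀ R) 1) ^ A)
    (Nat.mul_pos hA hA')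
  refine ⟨c, hc, ?_⟩
  intro N _ _ _ _ a ha0 hat
  have hfd : FiniteDimensional K N := Module.Finite.of_restrictScalars_finite ℚ K N
  obtain ⟨b, μ, hμ, hb0, hba, hbw, hbt, hdeg, hht, r₀, hr₀, hbr⟩ := hNorm K N a ha0
  have hbt := hbt hat
  have hconj : ∀ (σ τ : N ≃ₐ[K] N) (Q : ℕ), 1 ≤ Q → (σ b) ^ Q = (τ b) ^ Q → σ b = τ b := by
    intro σ τ Q hQ h1
    have h2 : ((τ⁻¹ * σ) b) ^ Q = b ^ Q := by
      have h3 : (τ⁻¹ * σ) b = τ⁻¹ (σ b) := rfl
      rw [h3, ← map_pow, h1, map_pow]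
      congr 1
      exact τ.symm_apply_apply b
    have h4 := hbw _ ⟨Q, hQ, h2⟩
    have h5 : (τ⁻¹ * σ) b = τ⁻¹ (σ b) := rfl
    rw [h5] at h4
    calc σ b = τ (τ⁻¹ (σ b)) := (τ.apply_symm_apply _).symm
      _ = τ b := by rw [h4]
  -- the orbit
  let Ω : Type := MulAction.orbit (N ≃ₐ[K] N) b
  have hΩfin : Finite Ω := Set.finite_range (fun g : N ≃ₐ[K] N => g • b)
  let _ : Fintype Ω := Fintype.ofFinite Ω
  have hΩ : ∀ z : Ω, ∃ τ : N ≃ₐ[K] N, τ b = (z : N) := fun z => z.2
  have hΩ0 : ∀ z : Ω, (z : N) ≠ 0 := by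
    intro z
    obtain ⟨τ, hτ⟩ := hΩ z
    rw [← hτ]
    exact (map_ne_zero_iff τ τ.injective).2 hb0
  obtain ⟨V, hV1, hV2, ρ, f, hf1, hf2, hf3⟩ := hRep K N
  have hfinj : Function.Injective (fun z : Ω => f (z : N)) := by
    intro z z' h1
    obtain ⟨r, hr, h2⟩ := hf2 _ _ (hΩ0 z) (hΩ0 z') h1
    obtain ⟨τ, hτ⟩ := hΩ z
    obtain ⟨τ', hτ'⟩ := hΩ z'
    apply Subtype.ext
    rw [← hτ, ← hτ'] at h2 ⊢
    exact hconj τ τ' r hr h2
  have htr : MulAction.IsPretransitive (N ≃ₐ[K] N) Ω := inferInstance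
  have hDΩ : Module.finrank K (IntermediateField.adjoin K {b}) = Fintype.card Ω := by
    rw [finrank_orbit (Ω := N) {b} b (fun σ => ⟨fun h => h b rfl, fun h x hx => by
      rw [Set.mem_singleton_iff.1 hx]
      exact h⟩), ← Nat.card_eq_fintype_card]
  set x : Ω := ⟨b, MulAction.mem_orbit_self b⟩ with hx
  -- the stabilizer
  set S : Subgroup (N ≃ₐ[K] N) := MulAction.stabilizer (N ≃ₐ[K] N) x with hS
  have hSmem : ∀ g : N ≃ₐ[K] N, g ∈ S ↔ ∃ r : ℕ, 1 ≤ r ∧ (g a) ^ r = a ^ r := by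
    intro g
    rw [← hba g, hS, MulAction.mem_stabilizer_iff]
    constructor
    · intro h
      exact congrArg Subtype.val h
    · intro h
      exact Subtype.ext h
  have hSb : S = MulAction.stabilizer (N ≃ₐ[K] N) b := by
    ext g
    rw [hS, MulAction.mem_stabilizer_iff, MulAction.mem_stabilizer_iff]
    constructor
    · intro h
      exact congrArg Subtype.val h
    · intro h
      exact Subtype.ext h
  have hSidx : S.index = Fintype.card Ω := by
    rw [hS, MulAction.index_stabilizer, MulAction.orbit_eq_univ, Set.ncard_univ,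
      Nat.card_eq_fintype_card]
  refine ⟨S, hSmem, ?_⟩
  by_cases hexc : Ind a S A ∧ Smo S A R ∧ Pas S A R
  · exact Or.inr hexc
  refine Or.inl ?_
  have hDpos : 1 ≤ Fintype.card Ω := by
    have : Nonempty Ω := ⟨x⟩
    exact Fintype.card_pos
  have hmn := hmain N b hb0 hbt hbw (by
    intro hCD
    have hC1 : 1 ≤ max (max C₀ R) 1 := le_max_right _ _
    have hR : R < Fintype.card Ω := by
      rw [← hDΩ]
      refine lt_of_le_of_lt ?_ hCD
      exact (le_max_right _ _).trans ((le_max_left _ _).trans (Nat.le_self_pow (by omega) _))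
    rw [hDΩ]
    rcases hG (N ≃ₐ[K] N) Ω V ρ (fun z => f (z : N))
      (fun g z => hf1 g _ (hΩ0 z)) hfinj htr x hR with
      ⟨k, y, hk2, hkk, hlin, hcard⟩ | ⟨hsmo, hpas⟩
    · refine ⟨k, fun i => (y i : N), hk2, hkk.trans (le_max_left _ _), fun i => hΩ (y i),
        fun l hl => hf3 _ (fun i => (y i : N)) (fun i => hΩ0 _) hlin l hl, ?_⟩
      rw [card_orbit_val]
      exact num1 hA (by omega) hA' hDpos hcard ((le_max_left _ _).trans (le_max_left _ _))
    · have hind : ¬ Ind a S A := fun h => hexc ⟨h, hsmo, hpas⟩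
      unfold Ind at hind
      push Not at hind
      obtain ⟨k, σ, hk2, hkA, hσ, hle⟩ := hind
      refine ⟨k, fun i => σ i b, hk2, hkA.trans (le_max_right _ _), fun i => ⟨σ i, rfl⟩, ?_, ?_⟩
      · intro l hl
        have h1 : ∏ i, (σ i a) ^ ((μ * r₀ : ℕ) * l i : ℤ) = 1 := by
          have h2 : ∀ i, (σ i a) ^ ((μ * r₀ : ℕ) * l i : ℤ) = ((σ i b) ^ l i) ^ (r₀ : ℤ) := by
            intro i
            have h3 : (σ i a) ^ (μ * r₀) = (σ i b) ^ r₀ := by
              rw [← map_pow, ← map_pow, hbr]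
            rw [zpow_mul, zpow_natCast, h3, ← zpow_natCast, ← zpow_mul, ← zpow_mul, mul_comm]
          rw [Finset.prod_congr rfl fun i _ => h2 i, Finset.prod_zpow, hl, one_zpow]
        have h4 := hσ (fun i => ((μ * r₀ : ℕ) : ℤ) * l i) h1
        funext i
        have h5 := congrFun h4 i
        have h6 : ((μ * r₀ : ℕ) : ℤ) ≠ 0 := by
          have : 0 < μ * r₀ := Nat.mul_pos hμ hr₀
          exact_mod_cast this.ne'
        rcases mul_eq_zero.1 h5 with h7 | h7
        · exact absurd h7 h6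
        · exact h7
      · rw [hSidx, hSb] at hle
        have h8 : Nat.card (MulAction.orbit (N ≃ₐ[K] N) (fun i => σ i b)) =
            (⨅ i, (MulAction.stabilizer (N ≃ₐ[K] N) b).map
              (MulAut.conj (σ i)).toMonoidHom).index := orbit_meet b σ
        rw [h8]
        exact num2 hA (by omega) hA' hDpos hC1 hle)
  have hD1 : 0 < Module.finrank K (IntermediateField.adjoin K {b}) := Module.finrank_pos
  have hm0 : (0 : ℝ) < μ := by exact_mod_cast hμ
  have hD0 : (0 : ℝ) < (Module.finrank K (IntermediateField.adjoin K {b}) : ℝ) := by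
    exact_mod_cast hD1
  have hdeg' : (μ : ℝ) * (Module.finrank K (IntermediateField.adjoin K {b}) : ℝ) =
      (Module.finrank K (IntermediateField.adjoin K {a}) : ℝ) := by
    exact_mod_cast hdeg
  rw [hht] at hmn
  rw [← hdeg', div_le_iff₀ (by positivity)]
  rw [div_le_iff₀ hD0] at hmn
  calc c ≤ _ := hmn
    _ = _ := by ring

end Pool.DynLehmer.LW
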