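import Mathlib

set_option autoImplicit false

/-!
# Orbits of subgroups generated by many subgroups
-/

namespace Pool.DynLehmer.LW
open scoped Classical

namespace Cf

section Basic

variable {G Ω : Type} [Group G] [MulAction G Ω]

/-- The orbit of a point under a subgroup. -/
def Ob (U : Subgroup G) (x : Ω) : Set Ω := {z | ∃ u ∈ U, u • x = z}

/-- The number of elements of the orbit of a point under a subgroup. -/
noncomputable def oc (U : Subgroup G) (x : Ω) : ℕ := (Ob U x).ncard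

theorem orbit_eq (U : Subgroup G) (x : Ω) : MulAction.orbit U x = Ob U x := by
  ext z
  simp only [MulAction.mem_orbit_iff, Ob, Set.mem_setOf_eq]
  constructor
  · rintro ⟨u, rfl⟩
    exact ⟨u.1, u.2, rfl⟩
  · rintro ⟨u, hu, rfl⟩
    exact ⟨⟨u, hu⟩, rfl⟩

theorem natCard_orbit (U : Subgroup G) (x : Ω) : Nat.card (MulAction.orbit U x) = oc U x := by
  rw [orbit_eq, oc, Nat.card_coe_set_eq]

theorem self_mem (U : Subgroup G) (x : Ω) : x ∈ Ob U x := ⟨1, U.one_mem, one_smul G x⟩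

theorem ob_mono {U V : Subgroup G} (h : U ≤ V) (x : Ω) : Ob U x ⊆ Ob V x := by
  rintro z ⟨u, hu, rfl⟩
  exact ⟨u, h hu, rfl⟩

theorem oc_mono [Finite Ω] {U V : Subgroup G} (h : U ≤ V) (x : Ω) : oc U x ≤ oc V x :=
  Set.ncard_le_ncard (ob_mono h x) (Set.toFinite _)

theorem oc_pos [Finite Ω] (U : Subgroup G) (x : Ω) : 1 ≤ oc U x :=
  (Set.ncard_pos (Set.toFinite _)).2 ⟨x, self_mem U x⟩

theorem ob_smul {U B : Subgroup G} (hn : ∀ g ∈ B, ∀ u ∈ U, g * u * g⁻¹ ∈ U) {g : G} (hg : g ∈ B)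
    (x : Ω) : Ob U (g • x) = (fun z => g • z) '' Ob U x := by
  ext z
  constructor
  · rintro ⟨u, hu, rfl⟩
    refine ⟨(g⁻¹ * u * g) • x, ⟨g⁻¹ * u * g, ?_, rfl⟩, ?_⟩
    · have := hn g⁻¹ (B.inv_mem hg) u hu
      simpa using this
    · simp [mul_smul]
  · rintro ⟨w, ⟨u, hu, rfl⟩, rfl⟩
    refine ⟨g * u * g⁻¹, hn g hg u hu, ?_⟩
    simp [mul_smul]

theorem oc_smul {U B : Subgroup G} (hn : ∀ g ∈ B, ∀ u ∈ U, g * u * g⁻¹ ∈ U) {g : G} (hg : g ∈ B)
    (x : Ω) : oc U (g • x) = oc U x := by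
  rw [oc, ob_smul hn hg, Set.ncard_image_of_injective _ (MulAction.injective g), oc]

theorem dbl [Finite Ω] {U V : Subgroup G} (hle : U ≤ V)
    (hn : ∀ g ∈ V, ∀ u ∈ U, g * u * g⁻¹ ∈ U) {g : G} (hg : g ∈ V) {x : Ω}
    (hx : g • x ∉ Ob U x) : 2 * oc U x ≤ oc V x := by
  have hd : Disjoint (Ob U x) (Ob U (g • x)) := by
    rw [Set.disjoint_left]
    rintro z ⟨u, hu, rfl⟩ ⟨w, hw, h⟩
    refine hx ⟨w⁻¹ * u, U.mul_mem (U.inv_mem hw) hu, ?_⟩
    rw [mul_smul, ← h, inv_smul_smul]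
  have h1 : Ob U x ∪ Ob U (g • x) ⊆ Ob V x := by
    rintro z (⟨u, hu, rfl⟩ | ⟨u, hu, rfl⟩)
    · exact ⟨u, hle hu, rfl⟩
    · exact ⟨u * g, V.mul_mem (hle hu) hg, mul_smul _ _ _⟩
  have h2 := Set.ncard_le_ncard h1 (Set.toFinite _)
  rw [Set.ncard_union_eq hd (Set.toFinite _) (Set.toFinite _)] at h2
  have h3 := oc_smul hn hg x
  simp only [oc] at *
  omega

/-- The elements of `B` which map `x` into its orbit under `U`. -/
def st (B U : Subgroup G) (x : Ω) (hn : ∀ g ∈ B, ∀ u ∈ U, g * u * g⁻¹ ∈ U) : Subgroup G where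
  carrier := {g | g ∈ B ∧ g • x ∈ Ob U x}
  one_mem' := ⟨B.one_mem, by rw [one_smul]; exact self_mem U x⟩
  mul_mem' := by
    rintro a b ⟨ha, u, hu, hau⟩ ⟨hb, w, hw, hbw⟩
    refine ⟨B.mul_mem ha hb, a * w * a⁻¹ * u, U.mul_mem (hn a ha w hw) hu, ?_⟩
    rw [mul_smul a b, ← hbw, mul_smul, hau]
    simp [mul_smul]
  inv_mem' := by
    rintro a ⟨ha, u, hu, hau⟩
    refine ⟨B.inv_mem ha, a⁻¹ * u⁻¹ * a, ?_, ?_⟩
    · have := hn a⁻¹ (B.inv_mem ha) u⁻¹ (U.inv_mem hu)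
      simpa using this
    · rw [mul_smul, mul_smul, ← hau, inv_smul_smul]

theorem mem_st {B U : Subgroup G} {x : Ω} {hn : ∀ g ∈ B, ∀ u ∈ U, g * u * g⁻¹ ∈ U} {g : G} :
    g ∈ st B U x hn ↔ g ∈ B ∧ g • x ∈ Ob U x := Iff.rfl

end Basic

section Join

variable {G : Type} [Group G]

/-- The subgroup generated by `C` and the members of `J`. -/
def T (C : Subgroup G) (J : Finset (Subgroup G)) : Subgroup G := C ⊔ J.sup id

theorem le_T {C : Subgroup G} {J : Finset (Subgroup G)} : C ≤ T C J := le_sup_left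

theorem mem_le_T {C S : Subgroup G} {J : Finset (Subgroup G)} (h : S ∈ J) : S ≤ T C J :=
  le_trans (Finset.le_sup (f := id) h) le_sup_right

theorem T_le {C Q : Subgroup G} {J : Finset (Subgroup G)} (hC : C ≤ Q) (hJ : ∀ S ∈ J, S ≤ Q) :
    T C J ≤ Q := sup_le hC (Finset.sup_le hJ)

theorem T_mono {C : Subgroup G} {I J : Finset (Subgroup G)} (h : I ⊆ J) : T C I ≤ T C J :=
  T_le le_T fun _ hS => mem_le_T (h hS)

theorem T_conj {C : Subgroup G} {J : Finset (Subgroup G)} {g : G} (hC : ∀ c ∈ C, g * c * g⁻¹ ∈ C)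
    (hJ : ∀ S ∈ J, ∀ s ∈ S, g * s * g⁻¹ ∈ T C J) : ∀ a ∈ T C J, g * a * g⁻¹ ∈ T C J := by
  have h : T C J ≤ (T C J).comap (MulAut.conj g).toMonoidHom := by
    apply T_le
    · intro c hc
      exact le_T (hC c hc)
    · intro S hS s hs
      exact hJ S hS s hs
  intro a ha
  exact h ha

/-- The elements which commute modulo `C` with all elements of `U`. -/
def cen (C U : Subgroup G) [C.Normal] : Subgroup G :=
  (Subgroup.centralizer ((U.map (QuotientGroup.mk' C) : Subgroup (G ⧸ C)) : Set (G ⧸ C))).comap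
    (QuotientGroup.mk' C)

theorem mem_cen {C U : Subgroup G} [C.Normal] {g : G} :
    g ∈ cen C U ↔ ∀ u ∈ U, g * u * g⁻¹ * u⁻¹ ∈ C := by
  have h : ∀ u : G, g * u * g⁻¹ * u⁻¹ ∈ C ↔
      (QuotientGroup.mk' C u) * (QuotientGroup.mk' C g) =
        (QuotientGroup.mk' C g) * (QuotientGroup.mk' C u) := by
    intro u
    rw [← QuotientGroup.eq_one_iff]
    simp only [QuotientGroup.mk'_apply, QuotientGroup.mk_mul, QuotientGroup.mk_inv]
    rw [mul_inv_eq_one, mul_inv_eq_iff_eq_mul, eq_comm]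
  simp only [cen, Subgroup.mem_comap, Subgroup.mem_centralizer_iff]
  constructor
  · intro H u hu
    rw [h]
    exact H _ ⟨u, hu, rfl⟩
  · rintro H _ ⟨u, hu, rfl⟩
    exact (h u).1 (H u hu)

theorem le_cen {C U : Subgroup G} [C.Normal] : C ≤ cen C U := by
  intro c hc
  rw [mem_cen]
  intro u _
  have h1 : u * c⁻¹ * u⁻¹ ∈ C := ‹C.Normal›.conj_mem _ (C.inv_mem hc) u
  have h2 := C.mul_mem hc h1
  simpa [mul_assoc] using h2

theorem le_cen_comm {C U V : Subgroup G} [C.Normal] (h : U ≤ cen C V) : V ≤ cen C U := by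
  intro v hv
  rw [mem_cen]
  intro u hu
  have h1 := mem_cen.1 (h hu) v hv
  have h2 := C.inv_mem h1
  simpa [mul_assoc] using h2

theorem T_le_cen {C : Subgroup G} [C.Normal] {I J : Finset (Subgroup G)}
    (h : ∀ S ∈ I, ∀ S' ∈ J, S ≤ cen C S') : T C I ≤ cen C (T C J) := by
  apply T_le le_cen
  intro S hS
  apply le_cen_comm
  apply T_le le_cen
  intro S' hS'
  exact le_cen_comm (h S hS S' hS')

end Join

end Cf

end Pool.DynLehmer.LW
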