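import Pool.Agent.Lib.MP_2194ec_nt.LW.GrpcB

set_option autoImplicit false

/-!
# Orbits of a chief factor
-/

namespace Pool.DynLehmer.LW
open scoped Classical

namespace Cf

variable {G : Type} [Group G] [Finite G] {C B : Subgroup G}

omit [Finite G] in
theorem T_insert {C S : Subgroup G} {J : Finset (Subgroup G)} :
    T C (insert S J) = T C J ⊔ S := by
  apply le_antisymm
  · apply T_le
    · exact le_T.trans le_sup_left
    · intro S' hS'
      rcases Finset.mem_insert.1 hS' with rfl | h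
      · exact le_sup_right
      · exact (mem_le_T h).trans le_sup_left
  · exact sup_le (T_mono (Finset.subset_insert _ _)) (mem_le_T (Finset.mem_insert_self _ _))

theorem idxS (h : Chf C B) [C.Normal] {H : Subgroup G} (hBH : B ≤ H) (hna : ¬ B ≤ cen C B)
    {l : ℕ} {L : ℕ → Subgroup G} {M : ℕ} (h0 : L 0 ⊓ B ≤ C) (hl : L l = H)
    (hL : ∀ i < l, L i ≤ L (i + 1) ∧ (∀ a ∈ L (i + 1), ∀ b ∈ L i, a * b * a⁻¹ ∈ L i) ∧
      ((∀ a ∈ L (i + 1), ∀ b ∈ L (i + 1), a * b * a⁻¹ * b⁻¹ ∈ L i) ∨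
        (L i).relIndex (L (i + 1)) ≤ M)) {S : Subgroup G} (hS : S ∈ TT C B) :
    C.relIndex S ≤ M := by
  have hm := mem_TT.1 hS
  have hns := nonab h hna hS
  have hex : ∃ i, S ≤ T C {L i ⊓ S} := by
    refine ⟨l, ?_⟩
    rw [hl]
    exact le_trans (le_inf (hm.1.2.1.trans hBH) le_rfl) (mem_le_T (Finset.mem_singleton_self _))
  have hf := Nat.find_spec hex
  set m := Nat.find hex with hmdef
  have hlm : m ≤ l := by
    apply Nat.find_min' hex
    rw [hl]
    exact le_trans (le_inf (hm.1.2.1.trans hBH) le_rfl) (mem_le_T (Finset.mem_singleton_self _))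
  have hm0 : m ≠ 0 := by
    intro h00
    rw [h00] at hf
    have h1 : T C {L 0 ⊓ S} ≤ C := by
      apply T_le le_rfl
      intro S' hS'
      rw [Finset.mem_singleton] at hS'
      rw [hS']
      exact le_trans (inf_le_inf_left _ hm.1.2.1) h0
    exact not_le_of_gt hm.1.1 (hf.trans h1)
  obtain ⟨j, hj⟩ := Nat.exists_eq_succ_of_ne_zero hm0
  have hj' : ¬ S ≤ T C {L j ⊓ S} := by
    apply Nat.find_min hex
    omega
  obtain ⟨hle, hnor, hfac⟩ := hL j (by omega)
  rw [hj] at hf
  set U := L (j + 1) ⊓ S with hU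
  have hfU : S ≤ T C {U} := hf
  have hUS : U ≤ S := inf_le_right
  -- the subgroup `T C {L j ⊓ S}` is normalised by `S`
  have hn : ∀ s ∈ S, ∀ a ∈ T C {L j ⊓ S}, s * a * s⁻¹ ∈ T C {L j ⊓ S} := by
    have h1 : S ≤ Subgroup.normalizer ((T C {L j ⊓ S} : Subgroup G) : Set G) := by
      have key : ∀ V : Subgroup G, (∀ u ∈ V, ∀ a ∈ T C {L j ⊓ S}, u * a * u⁻¹ ∈ T C {L j ⊓ S}) →
          V ≤ Subgroup.normalizer ((T C {L j ⊓ S} : Subgroup G) : Set G) := by
        intro V hV u hu
        rw [Subgroup.mem_normalizer_iff]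
        intro a
        refine ⟨fun ha => hV u hu a ha, fun ha => ?_⟩
        have := hV u⁻¹ (V.inv_mem hu) _ ha
        simpa [mul_assoc] using this
      refine hfU.trans (T_le ?_ ?_)
      · apply key
        intro c hc a ha
        exact Subgroup.mul_mem _ (Subgroup.mul_mem _ (le_T hc) ha)
          (Subgroup.inv_mem _ (le_T hc))
      · intro V hV
        rw [Finset.mem_singleton] at hV
        rw [hV]
        apply key
        intro u hu
        refine T_conj (fun c hc => h.cn.conj_mem c hc u) ?_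
        intro W hW w hw
        rw [Finset.mem_singleton] at hW
        rw [hW] at hw
        refine mem_le_T (Finset.mem_singleton_self _) ⟨hnor u hu.1 w hw.1, ?_⟩
        exact S.mul_mem (S.mul_mem hu.2 hw.2) (S.inv_mem hu.2)
    intro s hs a ha
    exact (Subgroup.mem_normalizer_iff.1 (h1 hs) a).1 ha
  have h2 : T C {L j ⊓ S} ≤ C := by
    rcases smpl h hS le_T (T_le hm.1.1.le (by
      intro V hV
      rw [Finset.mem_singleton] at hV
      rw [hV]
      exact inf_le_right)) hn with h3 | h3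
    · exact h3
    · exact absurd h3 hj'
  have h3 : L j ⊓ S ≤ C := (mem_le_T (Finset.mem_singleton_self _)).trans h2
  rcases hfac with hab | hidx
  · exfalso
    apply hns
    have h4 : T C {U} ≤ cen C (T C {U}) := by
      apply T_le_cen
      intro V hV V' hV'
      rw [Finset.mem_singleton] at hV hV'
      rw [hV, hV']
      intro u hu
      rw [mem_cen]
      intro v hv
      refine h3 ⟨hab u hu.1 v hv.1, ?_⟩
      exact S.mul_mem (S.mul_mem (S.mul_mem hu.2 hv.2) (S.inv_mem hu.2)) (S.inv_mem hv.2)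
    exact hfU.trans (h4.trans (cen_anti hfU))
  · have h4 : S = U ⊔ C := by
      apply le_antisymm
      · refine hfU.trans (T_le le_sup_right ?_)
        intro V hV
        rw [Finset.mem_singleton] at hV
        rw [hV]
        exact le_sup_left
      · exact sup_le hUS hm.1.1.le
    have h5 : C.relIndex S = C.relIndex U := by
      conv_lhs => rw [h4]
      exact Subgroup.relIndex_sup_right U C
    rw [h5]
    have hne : ∀ X Y : Subgroup G, X.relIndex Y ≠ 0 := fun X Y => Subgroup.FiniteIndex.index_ne_zero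
    calc C.relIndex U ≤ (L j ⊓ U).relIndex U := Subgroup.relIndex_le_of_le_left
          (le_trans (inf_le_inf_left _ hUS) h3) (hne _ _)
      _ = (L j).relIndex U := Subgroup.inf_relIndex_right _ _
      _ ≤ (L j).relIndex (L (j + 1)) := Subgroup.relIndex_le_of_le_right inf_le_left (hne _ _)
      _ ≤ M := hidx

theorem idxT (h : Chf C B) {M : ℕ} (hM : ∀ S ∈ TT C B, C.relIndex S ≤ M) :
    ∀ J : Finset (Subgroup G), J ⊆ TT C B → C.relIndex (T C J) ≤ M ^ J.card := by
  intro J
  induction J using Finset.induction_on with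
  | empty =>
    intro _
    have h1 : T C ∅ = C := le_antisymm (T_le le_rfl (by simp)) le_T
    rw [h1, Subgroup.relIndex_self]
    simp
  | insert S J hSJ ih =>
    intro hJ
    have hJ' : J ⊆ TT C B := fun _ h' => hJ (Finset.mem_insert_of_mem h')
    have hS : S ∈ TT C B := hJ (Finset.mem_insert_self _ _)
    rw [T_insert, Finset.card_insert_of_notMem hSJ, pow_succ,
      ← Subgroup.relIndex_mul_relIndex C (T C J) (T C J ⊔ S) le_T le_sup_left]
    refine Nat.mul_le_mul (ih hJ') ?_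
    refine (ri_sup (T C J) S C le_T ?_).trans (hM S hS)
    intro s hs a ha
    exact T_nor h hJ' s ((mem_TT.1 hS).1.2.1 hs) a ha

variable {Ω : Type} [Finite Ω] [MulAction G Ω]

theorem greedy (h : Chf C B) (x : Ω) {P : Finset (Subgroup G)} (hP : P ⊆ TT C B) (n : ℕ) :
    ∃ I ⊆ P, I.card ≤ n ∧ 2 ^ I.card ≤ oc (T C I) x ∧
      (I.card = n ∨ ∀ S ∈ P, ∀ s ∈ S, s • x ∈ Ob (T C I) x) := by
  have hne : (P.powerset.filter (fun I => I.card ≤ n ∧ 2 ^ I.card ≤ oc (T C I) x)).Nonempty :=
    ⟨∅, by simp [oc_pos]⟩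
  obtain ⟨I, hI, hmax⟩ := Finset.exists_max_image _ (fun I : Finset (Subgroup G) => I.card) hne
  rw [Finset.mem_filter, Finset.mem_powerset] at hI
  obtain ⟨hIP, hIn, hI2⟩ := hI
  refine ⟨I, hIP, hIn, hI2, ?_⟩
  by_cases hc : I.card = n
  · exact Or.inl hc
  right
  intro S hS s hs
  by_contra hx
  have hSI : S ∉ I := by
    intro hSI
    exact hx ⟨s, mem_le_T hSI hs, rfl⟩
  have h1 : 2 * oc (T C I) x ≤ oc (T C (insert S I)) x := by
    refine dbl (T_mono (Finset.subset_insert _ _)) ?_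
      (mem_le_T (Finset.mem_insert_self S I) hs) hx
    intro g hg
    exact T_nor h (hIP.trans hP) g (T_le_B h (Finset.insert_subset (hP hS) (hIP.trans hP)) hg)
  have h2 := hmax (insert S I) (by
    rw [Finset.mem_filter, Finset.mem_powerset, Finset.card_insert_of_notMem hSI]
    refine ⟨Finset.insert_subset hS hIP, by omega, ?_⟩
    rw [pow_succ]
    omega)
  rw [Finset.card_insert_of_notMem hSI] at h2
  omega

omit [Finite Ω] in
theorem absorb (h : Chf C B) (x : Ω) {P I : Finset (Subgroup G)} (hP : P ⊆ TT C B)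
    (hI : I ⊆ TT C B) (hPI : ∀ S ∈ P, ∀ s ∈ S, s • x ∈ Ob (T C I) x) :
    ∀ g ∈ T C P, g • x ∈ Ob (T C I) x := by
  have h1 : T C P ≤ st B (T C I) x (T_nor h hI) := by
    apply T_le
    · intro c hc
      exact ⟨h.cb.le hc, c, le_T hc, rfl⟩
    · intro S hS s hs
      exact ⟨(mem_TT.1 (hP hS)).1.2.1 hs, hPI S hS s hs⟩
  intro g hg
  exact (h1 hg).2

/-- The minimal subgroups which move the orbit of `x` under `C`. -/
noncomputable def rel (C B : Subgroup G) (x : Ω) : Finset (Subgroup G) :=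
  (TT C B).filter (fun S => ∃ s ∈ S, s • x ∉ Ob C x)

omit [Finite Ω] in
theorem rel_sub (x : Ω) : rel C B x ⊆ TT C B := Finset.filter_subset _ _

/-- Two disjoint sets of minimal subgroups cannot both absorb a further one. -/
theorem noabs (h : Chf C B) [C.Normal] (hna : ¬ B ≤ cen C B) (x : Ω)
    {I J : Finset (Subgroup G)} (hI : I ⊆ TT C B) (hJ : J ⊆ TT C B) (hd : Disjoint I J)
    {S : Subgroup G} (hS : S ∈ rel C B x) (hSI : S ∉ I) (hSJ : S ∉ J)
    (h1 : ∀ s ∈ S, s • x ∈ Ob (T C I) x) : ∃ s ∈ S, s • x ∉ Ob (T C J) x := by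
  by_contra hcon
  push Not at hcon
  rw [rel, Finset.mem_filter] at hS
  obtain ⟨hST, s0, hs0, hs0x⟩ := hS
  have c1 : S ≤ cen C (T C I) := by
    apply le_cen_comm
    apply T_le le_cen
    intro S' hS'
    apply le_cen_of_ne (hI hS') hST
    rintro rfl
    exact hSI hS'
  have c2 : T C J ≤ cen C S := by
    apply T_le le_cen
    intro S' hS'
    apply le_cen_of_ne (hJ hS') hST
    rintro rfl
    exact hSJ hS'
  have c3 : T C I ≤ cen C (T C J) := by
    apply T_le_cen
    intro S1 hS1 S2 hS2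
    apply le_cen_of_ne (hI hS1) (hJ hS2)
    rintro rfl
    exact Finset.disjoint_left.1 hd hS1 hS2
  have hle : S ≤ st B C x (fun g _ c hc => h.cn.conj_mem c hc g) := by
    refine perf h hST (nonab h hna hST) ?_ ?_
    · intro c hc
      exact ⟨h.cb.le hc, c, hc, rfl⟩
    · intro s hs s' hs'
      have hSB := (mem_TT.1 hST).1.2.1
      refine ⟨B.mul_mem (B.mul_mem (B.mul_mem (hSB hs) (hSB hs')) (B.inv_mem (hSB hs)))
        (B.inv_mem (hSB hs')), ?_⟩
      -- put `a = s⁻¹`, `b = s'⁻¹`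
      obtain ⟨t, ht, htx⟩ := hcon s⁻¹ (S.inv_mem hs)
      obtain ⟨u, hu, hux⟩ := h1 s'⁻¹ (S.inv_mem hs')
      obtain ⟨a, ha⟩ : ∃ a, a = s⁻¹ := ⟨_, rfl⟩
      obtain ⟨b, hb⟩ : ∃ b, b = s'⁻¹ := ⟨_, rfl⟩
      rw [← ha] at htx
      rw [← hb] at hux
      have haS : a ∈ S := by rw [ha]; exact S.inv_mem hs
      have hbS : b ∈ S := by rw [hb]; exact S.inv_mem hs'
      rw [← ha, ← hb]
      have hc1 := mem_cen.1 (c1 haS) u hu
      have hc2 := mem_cen.1 (c3 hu) t ht
      have hc3 := mem_cen.1 (c2 ht) b hbS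
      have hs1 : s = a⁻¹ := by rw [ha, inv_inv]
      have hs2 : s' = b⁻¹ := by rw [hb, inv_inv]
      refine ⟨(b * a)⁻¹ * ((a * u * a⁻¹ * u⁻¹) * (u * t * u⁻¹ * t⁻¹) * (t * b * t⁻¹ * b⁻¹)) *
        (b * a), ?_, ?_⟩
      · have h5 := h.cn.conj_mem _ (C.mul_mem (C.mul_mem hc1 hc2) hc3) (b * a)⁻¹
        rwa [inv_inv] at h5
      · -- both sides are `a⁻¹ b⁻¹ a b x`
        have e1 : (s * s' * a * b) • x = (a⁻¹ * b⁻¹ * a * u) • x := by
          rw [hs1, hs2, mul_smul _ b, ← hux, ← mul_smul]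
        have e2 : ((b * a)⁻¹ * ((a * u * a⁻¹ * u⁻¹) * (u * t * u⁻¹ * t⁻¹) *
            (t * b * t⁻¹ * b⁻¹)) * (b * a)) • x = (a⁻¹ * b⁻¹ * a * u) • x := by
          have f1 : ((b * a)⁻¹ * ((a * u * a⁻¹ * u⁻¹) * (u * t * u⁻¹ * t⁻¹) *
              (t * b * t⁻¹ * b⁻¹)) * (b * a)) • x =
              (a⁻¹ * b⁻¹ * a * u * a⁻¹ * t * u⁻¹ * b * t⁻¹) • a • x := by
            rw [← mul_smul]
            congr 1
            group
          rw [f1, ← htx, ← mul_smul]
          have f2 : (a⁻¹ * b⁻¹ * a * u * a⁻¹ * t * u⁻¹ * b * t⁻¹ * t) • x =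
              (a⁻¹ * b⁻¹ * a * u * a⁻¹ * t * u⁻¹) • b • x := by
            rw [← mul_smul]
            congr 1
            group
          rw [f2, ← hux, ← mul_smul]
          have f3 : (a⁻¹ * b⁻¹ * a * u * a⁻¹ * t * u⁻¹ * u) • x =
              (a⁻¹ * b⁻¹ * a * u * a⁻¹) • t • x := by
            rw [← mul_smul]
            congr 1
            group
          rw [f3, htx, ← mul_smul]
          congr 1
          group
        rw [e2]
        exact e1.symm
  exact hs0x (hle hs0).2

theorem rel_card (h : Chf C B) [C.Normal] (hna : ¬ B ≤ cen C B) (x : Ω) :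
    2 ^ (rel C B x).card ≤ (oc B x) ^ 2 := by
  obtain ⟨I, hIP, _, hI2, hI⟩ := greedy h x (rel_sub (C := C) (B := B) x) (rel C B x).card
  have hI' : ∀ S ∈ rel C B x, ∀ s ∈ S, s • x ∈ Ob (T C I) x := by
    rcases hI with hI | hI
    · have h1 : I = rel C B x := Finset.eq_of_subset_of_card_le hIP hI.ge
      intro S hS s hs
      rw [h1]
      exact ⟨s, mem_le_T hS hs, rfl⟩
    · exact hI
  have hIT : I ⊆ TT C B := hIP.trans (rel_sub x)
  have key : ∀ J : Finset (Subgroup G), J ⊆ rel C B x \ I → 2 ^ J.card ≤ oc (T C J) x := by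
    intro J
    induction J using Finset.induction_on with
    | empty =>
      intro _
      simpa using oc_pos (T C ∅) x
    | insert S J hSJ ih =>
      intro hJ
      have hJ' : J ⊆ rel C B x \ I := fun _ h' => hJ (Finset.mem_insert_of_mem h')
      have hS := Finset.mem_sdiff.1 (hJ (Finset.mem_insert_self _ _))
      have hJT : J ⊆ TT C B := hJ'.trans (Finset.sdiff_subset.trans (rel_sub x))
      have hd : Disjoint I J := by
        rw [Finset.disjoint_left]
        intro S' h1 h2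
        exact (Finset.mem_sdiff.1 (hJ' h2)).2 h1
      obtain ⟨s, hs, hsx⟩ := noabs h hna x hIT hJT hd hS.1 hS.2 hSJ (hI' S hS.1)
      have h1 : 2 * oc (T C J) x ≤ oc (T C (insert S J)) x := by
        refine dbl (T_mono (Finset.subset_insert _ _)) ?_
          (mem_le_T (Finset.mem_insert_self S J) hs) hsx
        intro g hg
        exact T_nor h hJT g (T_le_B h (Finset.insert_subset (rel_sub x hS.1) hJT) hg)
      rw [Finset.card_insert_of_notMem hSJ, pow_succ]
      have := ih hJ'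
      omega
  have h1 := key (rel C B x \ I) subset_rfl
  have h2 : (rel C B x).card = I.card + (rel C B x \ I).card := by
    rw [Finset.card_sdiff_of_subset hIP]
    have := Finset.card_le_card hIP
    omega
  rw [h2, pow_add, sq]
  exact Nat.mul_le_mul (hI2.trans (oc_mono (T_le_B h hIT) x))
    (h1.trans (oc_mono (T_le_B h (Finset.sdiff_subset.trans (rel_sub x))) x))

/-- A bounded number of the minimal subgroups is enough for a large orbit. -/
theorem choose_I (h : Chf C B) (x : Ω) {R1 t : ℕ} (h1 : R1 < oc B x) (ht : R1 < 2 ^ t) :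
    ∃ I ⊆ rel C B x, I.card ≤ t ∧ R1 < oc (T C I) x := by
  obtain ⟨I, hIP, hIt, hI2, hI⟩ := greedy h x (rel_sub (C := C) (B := B) x) t
  refine ⟨I, hIP, hIt, ?_⟩
  rcases hI with hI | hI
  · rw [hI] at hI2
    omega
  · have h2 : ∀ g ∈ T C (TT C B), g • x ∈ Ob (T C I) x := by
      apply absorb h x subset_rfl (hIP.trans (rel_sub x))
      intro S hS s hs
      by_cases hr : S ∈ rel C B x
      · exact hI S hr s hs
      · by_contra hcon
        apply hr
        rw [rel, Finset.mem_filter]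
        exact ⟨hS, s, hs, fun hc => hcon (ob_mono le_T x hc)⟩
    rw [gen_all h] at h2
    have h3 : Ob B x ⊆ Ob (T C I) x := by
      rintro z ⟨b, hb, rfl⟩
      exact h2 b hb
    exact lt_of_lt_of_le h1 (Set.ncard_le_ncard h3 (Set.toFinite _))

/-- The elements of the stabilizer which permute the members of `I`. -/
def W1 (I : Finset (Subgroup G)) (x : Ω) : Subgroup G where
  carrier := {w | w • x = x ∧ ∀ S, S ∈ I ↔ cj w S ∈ I}
  one_mem' := ⟨one_smul G x, fun S => by rw [cj_one]⟩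
  mul_mem' := by
    rintro a b ⟨ha, ha'⟩ ⟨hb, hb'⟩
    refine ⟨by rw [mul_smul, hb, ha], fun S => ?_⟩
    rw [hb' S, ha' (cj b S), cj_cj]
  inv_mem' := by
    rintro a ⟨ha, ha'⟩
    refine ⟨by rw [inv_smul_eq_iff, ha], fun S => ?_⟩
    rw [ha' (cj a⁻¹ S), cj_cj_inv]

omit [Finite G] [Finite Ω] in
theorem mem_W1 {I : Finset (Subgroup G)} {x : Ω} {w : G} :
    w ∈ W1 I x ↔ w • x = x ∧ ∀ S, S ∈ I ↔ cj w S ∈ I := Iff.rfl

omit [Finite Ω] in
theorem rel_cj (h : Chf C B) {x : Ω} {w : G} (hw : w • x = x) {S : Subgroup G}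
    (hS : S ∈ rel C B x) : cj w S ∈ rel C B x := by
  rw [rel, Finset.mem_filter] at hS ⊢
  obtain ⟨hS, s, hs, hsx⟩ := hS
  refine ⟨TT_cj h hS w, w * s * w⁻¹, conj_mem_cj hs, ?_⟩
  intro hc
  apply hsx
  obtain ⟨c, hc, hcx⟩ := hc
  have hw' : w⁻¹ • x = x := by rw [inv_smul_eq_iff, hw]
  refine ⟨w⁻¹ * c * w, ?_, ?_⟩
  · have := h.cn.conj_mem c hc w⁻¹
    simpa using this
  · rw [mul_smul, mul_smul, hw, hcx, mul_smul, mul_smul, hw', inv_smul_smul]

omit [Finite Ω] in
theorem W1_idx (h : Chf C B) {x : Ω} {I : Finset (Subgroup G)} (hI : I ⊆ rel C B x) :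
    (W1 I x).relIndex (MulAction.stabilizer G x) ≤ 2 ^ (rel C B x).card := by
  have hc : Nat.card ((rel C B x).powerset) = 2 ^ (rel C B x).card := by
    rw [Nat.card_eq_fintype_card, Fintype.card_coe, Finset.card_powerset]
  rw [← hc]
  refine ri_le (W1 I x) (MulAction.stabilizer G x)
    (fun w => (⟨I.image (cj (w : G)), ?_⟩ : (rel C B x).powerset)) ?_
  · rw [Finset.mem_powerset]
    intro S hS
    obtain ⟨S', hS', rfl⟩ := Finset.mem_image.1 hS
    exact rel_cj h w.2 (hI hS')
  · intro a b hab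
    have h1 : I.image (cj (a : G)) = I.image (cj (b : G)) := congrArg Subtype.val hab
    have ha : (a : G) • x = x := a.2
    have hb : (b : G) • x = x := b.2
    rw [mem_W1]
    refine ⟨by rw [mul_smul, hb, inv_smul_eq_iff, ha], fun S => ?_⟩
    constructor
    · intro hS
      have h2 : cj (b : G) S ∈ I.image (cj (a : G)) := by
        rw [h1]
        exact Finset.mem_image_of_mem _ hS
      obtain ⟨S', hS', h3⟩ := Finset.mem_image.1 h2
      rw [← cj_cj, ← h3, cj_inv_cj]
      exact hS'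
    · intro hS
      have h2 : cj (a : G) (cj ((a : G)⁻¹ * (b : G)) S) ∈ I.image (cj (b : G)) := by
        rw [← h1]
        exact Finset.mem_image_of_mem _ hS
      rw [cj_cj, mul_inv_cancel_left] at h2
      obtain ⟨S', hS', h3⟩ := Finset.mem_image.1 h2
      rwa [← cj_inj h3]

end Cf

end Pool.DynLehmer.LW
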