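import Pool.Agent.Lib.MP_2194ec_nt.LW.Grpm
import Pool.Agent.Lib.MP_2194ec_nt.LW.GrpcE

set_option autoImplicit false

/-!
# Tuples with independent vectors for groups with bounded nonabelian composition factors
-/

namespace Pool.DynLehmer.LW
open scoped Classical

/-- The group `G` has a subnormal series with factors which are abelian or of order at most `A`;
that is, all its nonabelian composition factors have order at most `A`. -/
def FacG (G : Type) [Group G] (A : ℕ) : Prop :=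
  ∃ (l : ℕ) (L : ℕ → Subgroup G), L 0 = ⊥ ∧ L l = ⊤ ∧
    ∀ i < l, L i ≤ L (i + 1) ∧ (∀ a ∈ L (i + 1), ∀ b ∈ L i, a * b * a⁻¹ ∈ L i) ∧
      ((∀ a ∈ L (i + 1), ∀ b ∈ L (i + 1), a * b * a⁻¹ * b⁻¹ ∈ L i) ∨
        (L i).relIndex (L (i + 1)) ≤ A)

/-- Row GRPF: as GRPS, for groups with bounded nonabelian composition factors. -/
def GrpfStatement : Prop :=
  ∀ A : ℕ, ∃ s C : ℕ, 1 ≤ s ∧ ∀ (G Ω V : Type) [Group G] [Finite G]
    [Fintype Ω] [MulAction G Ω] [AddCommGroup V] [Module ℚ V] (ρ : Representation ℚ G V)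
    (f : Ω → V), (∀ (g : G) (x : Ω), f (g • x) = ρ g (f x)) → Function.Injective f →
    MulAction.IsPretransitive G Ω → FacG G A → C ≤ Fintype.card Ω → ∀ x : Ω,
    ∃ y : Fin (2 ^ s) → Ω, (∃ i, y i = x) ∧ LinearIndependent ℚ (fun i => f (y i)) ∧
      (Nat.card (MulAction.orbit G y)) ^ 2 ≤ C * (Fintype.card Ω) ^ (2 ^ s)

theorem tuple_of_cube {G Ω V : Type} [Group G] [Finite G] [Finite Ω] [MulAction G Ω]
    [AddCommGroup V] [Module ℚ V] (f : Ω → V) (x : Ω) (H : Subgroup G) {s : ℕ} (h : Fin s → H)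
    (hind : LinearIndependent ℚ (fun e : Fin s → Bool => f (((cube h e : H) : G) • x))) :
    ∃ y : Fin (2 ^ s) → Ω, (∃ i, y i = x) ∧ LinearIndependent ℚ (fun i => f (y i)) ∧
      Nat.card (MulAction.orbit G y) =
        Nat.card (MulAction.orbit G (fun e : Fin s → Bool => ((cube h e : H) : G) • x)) := by
  have e : (Fin s → Bool) ≃ Fin (2 ^ s) := Fintype.equivFinOfCardEq (by
    rw [Fintype.card_fun, Fintype.card_bool, Fintype.card_fin])
  refine ⟨fun i => ((cube h (e.symm i) : H) : G) • x, ⟨e (fun _ => false), ?_⟩, ?_, ?_⟩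
  · change ((cube h (e.symm (e fun _ => false)) : H) : G) • x = x
    rw [Equiv.symm_apply_apply]
    have h1 : cube h (fun _ => false) = 1 := by
      simp [cube]
    rw [h1]
    simp
  · exact hind.comp _ e.symm.injective
  · rw [Nat.card_coe_set_eq, Nat.card_coe_set_eq, ← MulAction.index_stabilizer,
      ← MulAction.index_stabilizer]
    congr 1
    ext g
    simp only [MulAction.mem_stabilizer_iff]
    constructor
    · intro hg
      funext j
      have := congrFun hg (e j)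
      simpa using this
    · intro hg
      funext i
      have := congrFun hg (e.symm i)
      simpa using this

/-- Row GRPF. -/
theorem grpf (hGram : GramStatement) (hMod : ModtStatement) : GrpfStatement := by
  intro A
  obtain ⟨s, hs⟩ : ∃ s : ℕ, s = 3 := ⟨3, rfl⟩
  obtain ⟨R, hR⟩ : ∃ R : ℕ, R = 3 ^ ((16 ^ s) ^ 2) := ⟨_, rfl⟩
  have hR1 : 1 ≤ R := by
    rw [hR]
    exact Nat.one_le_pow _ _ (by norm_num)
  obtain ⟨M, hM1, hAM⟩ : ∃ M : ℕ, 1 ≤ M ∧ A ≤ M := ⟨A + 1, by omega, by omega⟩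
  refine ⟨s, (M ^ R) ^ (2 * s) * (R ^ 2 ^ s) ^ 2 + R + 1, by omega, ?_⟩
  intro G Ω V _ _ _ _ _ _ ρ f hf hinj htr hfac hcard x
  set D := Fintype.card Ω with hD
  have hDpos : 1 ≤ D := Fintype.card_pos_iff.2 ⟨x⟩
  have hOb : Cf.Ob (⊤ : Subgroup G) x = Set.univ := by
    ext z
    simp only [Set.mem_univ, iff_true]
    obtain ⟨g, hg⟩ := htr.exists_smul_eq x z
    exact ⟨g, Subgroup.mem_top g, hg⟩
  have hoc : Cf.oc (⊤ : Subgroup G) x = D := by
    rw [Cf.oc, hOb, Set.ncard_univ, Nat.card_eq_fintype_card]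
  have hstab : (MulAction.stabilizer G x).index = D := by
    rw [MulAction.index_stabilizer_of_transitive, Nat.card_eq_fintype_card]
  have hF : FacH (⊤ : Subgroup G) x M := by
    obtain ⟨l, L, h0, hl, hL⟩ := hfac
    refine ⟨l, L, ?_, hl, ?_⟩
    · intro g hg h _
      rw [h0, Subgroup.mem_bot] at hg
      rw [hg, one_smul]
    · intro i hi
      obtain ⟨h1, h2, h3⟩ := hL i hi
      exact ⟨h1, h2, h3.imp id fun h => h.trans hAM⟩
  obtain ⟨L, H, W, hLH, hWL, hWH, hWx, hHx, hLx, hidx⟩ :=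
    Cf.struct (V := G) (H := ⊤) inferInstance (x := x) (fun v => by rw [hOb]; trivial) hF hM1 hR1
      (t := R) (by
        rw [hoc]
        have h1 : 0 ≤ (M ^ R) ^ (2 * s) * (R ^ 2 ^ s) ^ 2 := Nat.zero_le _
        omega) Nat.lt_two_pow_self
  obtain ⟨h, hind⟩ := Cf.cube_ind hGram hMod s ρ f hf hinj x H (by rw [← hR]; exact hHx)
  have horb := Cf.cube_orb (L := L) (H := H) (W := W) (x := x) hLH hWL hWH
    (fun w hw => MulAction.mem_stabilizer_iff.1 (hWx hw)) (B := R) (by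
      rintro z ⟨u, hu, rfl⟩
      rw [Cf.oc_smul hLH hu]
      exact hLx) h
  obtain ⟨y, hy1, hy2, hy3⟩ := tuple_of_cube f x H h hind
  refine ⟨y, hy1, hy2, ?_⟩
  rw [hy3]
  have hWidx : W.index = W.relIndex (MulAction.stabilizer G x) * D := by
    rw [← hstab, Subgroup.relIndex_mul_index hWx]
  rw [hoc] at hidx
  have hMR : 1 ≤ M ^ R := Nat.one_le_pow _ _ hM1
  have hmain : Nat.card (MulAction.orbit G (fun e : Fin s → Bool =>
      ((cube h e : H) : G) • x)) ≤ (M ^ R) ^ s * D ^ 4 * R ^ 2 ^ s := by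
    refine horb.trans (Nat.mul_le_mul_right _ ?_)
    rw [hWidx]
    rcases hidx with ⟨hw, hl⟩ | ⟨hw, hl⟩
    · calc (L.relIndex H) ^ s * (W.relIndex (MulAction.stabilizer G x) * D) ≤
          D ^ s * (1 * D) :=
            Nat.mul_le_mul (Nat.pow_le_pow_left hl s) (Nat.mul_le_mul_right _ hw)
        _ = 1 * D ^ 4 := by rw [hs]; ring
        _ ≤ (M ^ R) ^ s * D ^ 4 := Nat.mul_le_mul_right _ (Nat.one_le_pow _ _ hMR)
    · calc (L.relIndex H) ^ s * (W.relIndex (MulAction.stabilizer G x) * D) ≤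
          (M ^ R) ^ s * (D ^ 2 * D) :=
            Nat.mul_le_mul (Nat.pow_le_pow_left hl s) (Nat.mul_le_mul_right _ hw)
        _ = (M ^ R) ^ s * D ^ 3 := by ring
        _ ≤ (M ^ R) ^ s * D ^ 4 :=
            Nat.mul_le_mul_left _ (Nat.pow_le_pow_right hDpos (by norm_num))
  calc _ ≤ ((M ^ R) ^ s * D ^ 4 * R ^ 2 ^ s) ^ 2 := Nat.pow_le_pow_left hmain 2
    _ = (M ^ R) ^ (2 * s) * (R ^ 2 ^ s) ^ 2 * D ^ (2 ^ s) := by
        have h8 : 2 ^ s = 4 * 2 := by rw [hs]; norm_num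
        rw [mul_pow, mul_pow, mul_comm 2 s, pow_mul (M ^ R) s 2, h8, pow_mul D 4 2]
        ring
    _ ≤ _ := Nat.mul_le_mul_right _ (by omega)

end Pool.DynLehmer.LW
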