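import Pool.Agent.Lib.MP_2194ec_nt.LW.GrppB

set_option autoImplicit false

/-!
# The row GRPO: small sections and the primitive almost simple group together
-/

namespace Pool.DynLehmer.LW
open scoped Classical

theorem Pas.mono {G : Type} [Group G] {S : Subgroup G} {A R R' : ℕ} (h : Pas S A R)
    (hR : R ≤ R') : Pas S A R' := by
  obtain ⟨U, W, h1, h2, h3, h4, h5⟩ := h
  exact ⟨U, W, h1, h2, h3, h4.trans hR, h5⟩

/-- Row GRPO. -/
theorem grpo_of (hP : PasoStatement) (hW : GrpwStatement) : GrpoStatement := by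
  intro A hA
  obtain ⟨R₁, k₁, A₁, C₁, hA₁, h1⟩ := hP A hA
  obtain ⟨s, R₂, hs, h2⟩ := hW A
  obtain ⟨C₂, h2⟩ := h2 (max R₁ R₂)
  refine ⟨max R₁ R₂, max k₁ (2 ^ s), 2 * A₁, max (C₁ ^ 2) (C₂ ^ A₁), by omega, ?_⟩
  intro G Ω V _ _ _ _ _ _ ρ f hf hinj htr x hR
  have hDpos : 1 ≤ Fintype.card Ω := Fintype.card_pos_iff.2 ⟨x⟩
  have hstab : (MulAction.stabilizer G x).index = Fintype.card Ω := by
    rw [MulAction.index_stabilizer_of_transitive, Nat.card_eq_fintype_card]
  have hri : ∀ U : Subgroup G, (MulAction.stabilizer G x).relIndex U =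
      Nat.card (MulAction.orbit U x) := by
    intro U
    rw [Nat.card_coe_set_eq, ← MulAction.index_stabilizer]
    rfl
  by_cases hS : Smo (MulAction.stabilizer G x) A (max R₁ R₂)
  · obtain ⟨k, y, hk2, hk, hind, hc⟩ | hB :=
      h1 G Ω V ρ f hf hinj htr x (lt_of_le_of_lt (le_max_left _ _) hR)
    · refine Or.inl ⟨k, y, hk2, hk.trans (le_max_left _ _), hind, ?_⟩
      have h3 : 1 ≤ k * A₁ := Nat.one_le_iff_ne_zero.2 (by positivity)
      calc (Nat.card (MulAction.orbit G y)) ^ (2 * A₁) =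
            ((Nat.card (MulAction.orbit G y)) ^ A₁) ^ 2 := by
            rw [mul_comm, pow_mul]
        _ ≤ (C₁ * Fintype.card Ω ^ (k * A₁ - 1)) ^ 2 := Nat.pow_le_pow_left hc 2
        _ = C₁ ^ 2 * Fintype.card Ω ^ ((k * A₁ - 1) * 2) := by
            rw [mul_pow, ← pow_mul]
        _ ≤ max (C₁ ^ 2) (C₂ ^ A₁) * Fintype.card Ω ^ (k * (2 * A₁) - 1) := by
            refine Nat.mul_le_mul (le_max_left _ _) (Nat.pow_le_pow_right hDpos ?_)
            have h4 : k * (2 * A₁) = 2 * (k * A₁) := by ring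
            rw [h4]
            omega
    · exact Or.inr ⟨hS, hB.mono (le_max_left _ _)⟩
  · left
    unfold Smo at hS
    push Not at hS
    obtain ⟨P₀, P, W, hP, hWS, hWP, hWP₀, hPP₀, hr, hi, hw, hb⟩ := hS
    rw [hstab] at hi hw
    rw [hri] at hr hb
    obtain ⟨y, -, hind, hc⟩ := h2 G Ω V ρ f hf hinj htr x P P₀ W hP hWS hWP hWP₀ hPP₀ hr hi hw
      (lt_of_le_of_lt (le_max_right _ _) hb)
    have h3 : 2 ≤ 2 ^ s := by
      calc 2 = 2 ^ 1 := rfl
        _ ≤ 2 ^ s := Nat.pow_le_pow_right (by norm_num) hs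
    refine ⟨2 ^ s, y, h3, le_max_right _ _, hind, ?_⟩
    calc (Nat.card (MulAction.orbit G y)) ^ (2 * A₁) =
          ((Nat.card (MulAction.orbit G y)) ^ 2) ^ A₁ := by
          rw [pow_mul]
      _ ≤ (C₂ * Fintype.card Ω ^ (2 ^ s)) ^ A₁ := Nat.pow_le_pow_left hc A₁
      _ = C₂ ^ A₁ * Fintype.card Ω ^ (2 ^ s * A₁) := by
          rw [mul_pow, ← pow_mul]
      _ ≤ max (C₁ ^ 2) (C₂ ^ A₁) * Fintype.card Ω ^ (2 ^ s * (2 * A₁) - 1) := by
          refine Nat.mul_le_mul (le_max_right _ _) (Nat.pow_le_pow_right hDpos ?_)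
          have h4 : 2 ^ s * (2 * A₁) = 2 * (2 ^ s * A₁) := by ring
          have h5 : 1 ≤ 2 ^ s * A₁ := Nat.one_le_iff_ne_zero.2 (by positivity)
          rw [h4]
          omega

/-- Row GRPO, from the group theoretic statement with the clause for alternating groups. -/
theorem grpo (hGram : GramStatement) (hMod : ModtStatement) (hW : GrpwStatement)
    (hq : GrpqaStatement) : GrpoStatement :=
  grpo_of (Pp.paso hGram hMod hq) hW

end Pool.DynLehmer.LW
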