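import Pool.Agent.Lib.MP_2194ec_nt.LW.Grpq

set_option autoImplicit false

/-!
# The exceptional case is a primitive almost simple group
-/

namespace Pool.DynLehmer.LW
open scoped Classical

namespace Pp

open Cf

section Core

variable {G Ω : Type} [Group G] [Finite G] [Finite Ω] [MulAction G Ω]

omit [Finite G] in
theorem exists_fac {N W : Subgroup G} (hN : N.Normal) (h : N ⊔ W = ⊤) (g : G) :
    ∃ n ∈ N, ∃ w ∈ W, n * w = g := by
  have h1 : g ∈ N ⊔ W := by rw [h]; trivial
  exact Subgroup.mem_sup_of_normal_left.1 h1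

/-- A normal subgroup which is not in `W` has a large orbit. -/
theorem idx_le {N W : Subgroup G} (hN : N.Normal) (h : N ⊔ W = ⊤) : W.index ≤ W.relIndex N := by
  have h2 : W.relIndex N = Nat.card (N ⧸ W.subgroupOf N) := rfl
  rw [← Subgroup.relIndex_top_right, h2]
  choose n hn w hw hnw using exists_fac hN h
  refine ri_le W ⊤ (fun g => (QuotientGroup.mk ⟨n g, hn g⟩ : N ⧸ W.subgroupOf N)) ?_
  intro a b hab
  rw [QuotientGroup.eq, Subgroup.mem_subgroupOf] at hab
  have h3 : (n (a : G))⁻¹ * n (b : G) ∈ W := by simpa using hab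
  have h4 : (a : G)⁻¹ * (b : G) = (w (a : G))⁻¹ * ((n (a : G))⁻¹ * n (b : G)) * w (b : G) := by
    conv_lhs => rw [← hnw (a : G), ← hnw (b : G)]
    group
  rw [h4]
  exact W.mul_mem (W.mul_mem (W.inv_mem (hw _)) h3) (hw _)

theorem core [MulAction.IsPretransitive G Ω] (x : Ω) {R : ℕ} {B₀ B : Subgroup G}
    (hmin : ∀ Y : Subgroup G, MulAction.stabilizer G x ≤ Y → Y ≠ ⊤ → oc Y x ≤ R)
    (hβ : R * R < Nat.card Ω) (hn : B₀.Normal) (hS : Sse (MulAction.stabilizer G x) B₀ B)
    (hi : Nat.card Ω < B₀.relIndex B) (h0 : oc B₀ x ≤ R) (hB : R < oc B x) :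
    ∃ W : Subgroup G, MulAction.stabilizer G x ≤ W ∧ IsCoatom W ∧ oc W x ≤ R ∧
      ∃ T : Subgroup (G ⧸ W.normalCore), T.Normal ∧ IsSimpleGroup T ∧
        Subgroup.centralizer (T : Set (G ⧸ W.normalCore)) = ⊥ ∧ Nat.card T = B₀.relIndex B ∧
        ∃ π : B →* T, Function.Surjective π ∧ π.ker = B₀.subgroupOf B := by
  have hne : ∀ X Y : Subgroup G, X.relIndex Y ≠ 0 := fun X Y =>
    Subgroup.FiniteIndex.index_ne_zero
  have hR : 1 ≤ R := (oc_pos B₀ x).trans h0
  have hR2 : 1 ≤ R * R := Nat.one_le_iff_ne_zero.2 (by positivity)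
  have hSi : (MulAction.stabilizer G x).index = Nat.card Ω :=
    MulAction.index_stabilizer_of_transitive G x
  -- `B` is normal
  have hBn : B.Normal := by
    have h1 : MulAction.stabilizer G x ≤ Subgroup.normalizer (B : Set G) := by
      intro g hg
      rw [Subgroup.mem_normalizer_iff]
      intro h
      constructor
      · intro hh
        exact hS.nor g hg h hh
      · intro hh
        have h2 := hS.nor g⁻¹ (Subgroup.inv_mem _ hg) _ hh
        simpa [mul_assoc] using h2
    have h2 : B ≤ Subgroup.normalizer (B : Set G) := Subgroup.le_normalizer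
    have h3 : MulAction.stabilizer G x ⊔ B = ⊤ := by
      by_contra hcon
      have h4 := hmin _ le_sup_left hcon
      have h5 : oc B x ≤ oc (MulAction.stabilizer G x ⊔ B) x := oc_mono le_sup_right x
      omega
    have h4 : Subgroup.normalizer (B : Set G) = ⊤ := by
      rw [eq_top_iff, ← h3]
      exact sup_le h1 h2
    exact Subgroup.normalizer_eq_top_iff.1 h4
  -- `W`
  obtain ⟨W, hW, hSW⟩ : ∃ W : Subgroup G, IsCoatom W ∧ MulAction.stabilizer G x ≤ W := by
    rcases eq_top_or_exists_le_coatom (MulAction.stabilizer G x) with h1 | h1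
    · rw [h1, Subgroup.index_top] at hSi
      omega
    · exact h1
  have hWR : oc W x ≤ R := hmin W hSW hW.1
  have hWi : R < W.index := by
    have h1 : (MulAction.stabilizer G x).relIndex W * W.index = Nat.card Ω := by
      rw [Subgroup.relIndex_mul_index hSW, hSi]
    rw [← oc_relIndex] at h1
    by_contra hcon
    push Not at hcon
    have h2 := Nat.mul_le_mul hWR hcon
    omega
  have key : ∀ N : Subgroup G, N.Normal → oc N x ≤ R → N ≤ W := by
    intro N hN hN'
    by_contra hcon
    have h1 : N ⊔ W = ⊤ := hW.2 _ (lt_of_le_of_ne le_sup_right fun he => hcon (by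
      rw [he]
      exact le_sup_left))
    have h2 := idx_le hN h1
    have h3 : W.relIndex N ≤ (MulAction.stabilizer G x).relIndex N :=
      Subgroup.relIndex_le_of_le_left hSW (hne _ _)
    rw [← oc_relIndex] at h3
    omega
  have hB0W : B₀ ≤ W := key B₀ hn h0
  have hBW : ¬ B ≤ W := by
    intro hcon
    have h1 : oc B x ≤ oc W x := oc_mono hcon x
    omega
  have hB0C : B₀ ≤ W.normalCore := (Subgroup.normal_le_normalCore (hN := hn)).2 hB0W
  have hCW : W.normalCore ≤ W := Subgroup.normalCore_le W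
  have hBC : B ⊓ W.normalCore = B₀ := by
    rcases hS.simp (B ⊓ W.normalCore) (le_inf hS.lt.le hB0C) inf_le_left (by
      intro g hg h hh
      exact ⟨hBn.conj_mem h hh.1 g, (Subgroup.normalCore_normal W).conj_mem h hh.2 g⟩) with h1 | h1
    · exact h1
    · exact absurd ((inf_eq_left.1 h1).trans hCW) hBW
  set q := QuotientGroup.mk' W.normalCore with hq
  have hqs : Function.Surjective q := QuotientGroup.mk'_surjective _
  have hqk : ∀ g : G, q g = 1 ↔ g ∈ W.normalCore := fun g => QuotientGroup.eq_one_iff g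
  have hTn : (B.map q).Normal := hBn.map q hqs
  have hπs : Function.Surjective (q.subgroupMap B) := q.subgroupMap_surjective B
  have hπk : (q.subgroupMap B).ker = B₀.subgroupOf B := by
    ext b
    rw [MonoidHom.mem_ker, Subgroup.mem_subgroupOf]
    have h1 : q.subgroupMap B b = 1 ↔ q (b : G) = 1 := by
      rw [← Subtype.coe_inj]
      rfl
    rw [h1, hqk, ← hBC]
    exact ⟨fun h2 => ⟨b.2, h2⟩, fun h2 => h2.2⟩
  have hcard : Nat.card (B.map q) = B₀.relIndex B := by
    have h1 : Nat.card (B ⧸ (q.subgroupMap B).ker) = Nat.card (B.map q) :=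
      Nat.card_congr (QuotientGroup.quotientKerEquivOfSurjective _ hπs).toEquiv
    rw [← h1, hπk]
    rfl
  refine ⟨W, hSW, hW, hWR, B.map q, hTn, ?_, ?_, hcard, q.subgroupMap B, hπs, hπk⟩
  · -- simple
    have hnt : Nontrivial (B.map q) := by
      rw [← Finite.one_lt_card_iff_nontrivial, hcard]
      omega
    refine ⟨?_⟩
    intro H hH
    have h1 := hS.simp ((H.comap (q.subgroupMap B)).map B.subtype) ?_ ?_ ?_
    · rcases h1 with h1 | h1
      · left
        rw [eq_bot_iff]
        intro t ht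
        obtain ⟨b, rfl⟩ := hπs t
        have h2 : (b : G) ∈ B₀ := by
          rw [← h1]
          exact ⟨b, ht, rfl⟩
        rw [Subgroup.mem_bot, ← MonoidHom.mem_ker, hπk, Subgroup.mem_subgroupOf]
        exact h2
      · right
        rw [eq_top_iff]
        intro t _
        obtain ⟨b, rfl⟩ := hπs t
        have h2 : (b : G) ∈ (H.comap (q.subgroupMap B)).map B.subtype := by
          rw [h1]
          exact b.2
        obtain ⟨b', hb', hb''⟩ := h2
        have h3 : b' = b := Subtype.ext hb''
        rw [← h3]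
        exact hb'
    · intro b hb
      refine ⟨⟨b, hS.lt.le hb⟩, ?_, rfl⟩
      have h2 : (⟨b, hS.lt.le hb⟩ : B) ∈ (q.subgroupMap B).ker := by
        rw [hπk, Subgroup.mem_subgroupOf]
        exact hb
      rw [SetLike.mem_coe, Subgroup.mem_comap, MonoidHom.mem_ker.1 h2]
      exact H.one_mem
    · rintro _ ⟨b, _, rfl⟩
      exact b.2
    · rintro g hg _ ⟨b, hb, rfl⟩
      refine ⟨⟨g, hg⟩ * b * ⟨g, hg⟩⁻¹, ?_, rfl⟩
      rw [SetLike.mem_coe, Subgroup.mem_comap, map_mul, map_mul, map_inv]
      exact hH.conj_mem _ hb _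
  · -- centralizer
    by_contra hcon
    have hZn : (Subgroup.centralizer (B.map q : Set (G ⧸ W.normalCore))).Normal := by
      constructor
      intro z hz g
      rw [Subgroup.mem_centralizer_iff] at hz ⊢
      intro t ht
      have h1 : g⁻¹ * t * g ∈ B.map q := by
        have := hTn.conj_mem t ht g⁻¹
        simpa using this
      have h2 := hz _ h1
      calc t * (g * z * g⁻¹) = g * (g⁻¹ * t * g * z) * g⁻¹ := by group
        _ = g * (z * (g⁻¹ * t * g)) * g⁻¹ := by rw [h2]
        _ = g * z * g⁻¹ * t := by group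
    set Z := (Subgroup.centralizer (B.map q : Set (G ⧸ W.normalCore))).comap q with hZ
    have hZn' : Z.Normal := hZn.comap q
    have hZW : ¬ Z ≤ W := by
      intro h1
      apply hcon
      have h2 : Z ≤ W.normalCore := (Subgroup.normal_le_normalCore (hN := hZn')).2 h1
      rw [eq_bot_iff]
      intro z hz
      obtain ⟨g, rfl⟩ := hqs z
      rw [Subgroup.mem_bot, hqk]
      exact h2 hz
    have h1 : Z ⊔ W = ⊤ := hW.2 _ (lt_of_le_of_ne le_sup_right fun he => hZW (by
      rw [he]
      exact le_sup_left))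
    have h2 : W ⊓ B ≤ B₀ := by
      intro b hb
      rw [← hBC]
      refine ⟨hb.2, ?_⟩
      intro g
      obtain ⟨z, hz, w, hw, hzw⟩ := exists_fac hZn' h1 g⁻¹
      have h3 : g = w⁻¹ * z⁻¹ := by
        rw [← inv_inv g, ← hzw]
        group
      have h4 : q (z⁻¹ * b * z * b⁻¹) = 1 := by
        have h5 := (Subgroup.mem_centralizer_iff.1 hz) (q b) ⟨b, hb.2, rfl⟩
        simp only [map_mul, map_inv]
        have h6 : (q z)⁻¹ * q b * q z * (q b)⁻¹ = (q z)⁻¹ * (q b * q z) * (q b)⁻¹ := by group
        rw [h6, h5]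
        group
      rw [hqk] at h4
      have h5 : g * b * g⁻¹ = w⁻¹ * ((z⁻¹ * b * z * b⁻¹) * b) * w := by
        rw [h3]
        group
      rw [h5]
      exact W.mul_mem (W.mul_mem (W.inv_mem hw) (W.mul_mem (hCW h4) hb.1)) hw
    have h3 : B₀.relIndex B ≤ (W ⊓ B).relIndex B :=
      Subgroup.relIndex_le_of_le_left h2 (hne _ _)
    rw [Subgroup.inf_relIndex_right] at h3
    have h4 : W.relIndex B ≤ (MulAction.stabilizer G x).relIndex B :=
      Subgroup.relIndex_le_of_le_left hSW (hne _ _)
    rw [← oc_relIndex] at h4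
    have h5 : oc B x ≤ Nat.card Ω := by
      rw [← natCard_orbit]
      exact Nat.card_le_card_of_injective _ Subtype.val_injective
    omega

end Core

end Pp

end Pool.DynLehmer.LW
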