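import Pool.Agent.Lib.MP_2194ec_nt.LW.GrpqA
import Pool.Agent.Lib.MP_2194ec_nt.LW.DefsMulC

set_option autoImplicit false

/-!
# Tuples of independent vectors with a small orbit, or a large simple section
-/

namespace Pool.DynLehmer.LW
open scoped Classical

namespace Cf

section

variable {G Ω : Type} [Group G] [Finite G] [Fintype Ω] [MulAction G Ω]

omit [Finite G] [Fintype Ω] in
theorem oc_cj {w : G} {x : Ω} (hw : w • x = x) (S : Subgroup G) : oc (cj w S) x = oc S x := by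
  have h : Ob (cj w S) x = (fun z => w • z) '' Ob S x := by
    ext z
    constructor
    · rintro ⟨u, hu, rfl⟩
      refine ⟨(w⁻¹ * u * w) • x, ⟨w⁻¹ * u * w, mem_cj.1 hu, rfl⟩, ?_⟩
      change w • (w⁻¹ * u * w) • x = u • x
      rw [← mul_smul]
      have h1 : w * (w⁻¹ * u * w) = u * w := by group
      rw [h1, mul_smul, hw]
    · rintro ⟨_, ⟨u, hu, rfl⟩, rfl⟩
      refine ⟨w * u * w⁻¹, conj_mem_cj hu, ?_⟩
      have hw2 : w⁻¹ • x = x := by rw [inv_smul_eq_iff, hw]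
      change (w * u * w⁻¹) • x = w • u • x
      rw [mul_smul, hw2, mul_smul]
  rw [oc, h, Set.ncard_image_of_injective _ (MulAction.injective w), oc]

omit [Finite G] in
theorem oc_top (htr : MulAction.IsPretransitive G Ω) (x : Ω) :
    oc (⊤ : Subgroup G) x = Fintype.card Ω := by
  have h : Ob (⊤ : Subgroup G) x = Set.univ := by
    rw [Set.eq_univ_iff_forall]
    intro z
    obtain ⟨g, hg⟩ := MulAction.exists_smul_eq G x z
    exact ⟨g, Subgroup.mem_top _, hg⟩
  rw [oc, h, Set.ncard_univ, Nat.card_eq_fintype_card]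

/-- The structure of the proof of GRPQ: five kinds of tuples, or a simple section. -/
theorem qcore (hGram : GramStatement) (hMod : ModtStatement) {s R1 : ℕ} (hs : 2 ≤ s)
    (hR1 : 3 ^ ((16 ^ s) ^ 2) ≤ R1) {U : Type} [AddCommGroup U] [Module ℚ U]
    (ρ : Representation ℚ G U) (f : Ω → U) (hf : ∀ (g : G) (x : Ω), f (g • x) = ρ g (f x))
    (hinj : Function.Injective f) (htr : MulAction.IsPretransitive G Ω) (x : Ω) (A : ℕ)
    (hD : R1 ^ 4 < Fintype.card Ω) :
    ∃ r : ℕ, 2 ^ r ≤ (Fintype.card Ω) ^ 2 ∧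
      ((∃ y : Fin 4 → Ω, LinearIndependent ℚ (fun i => f (y i)) ∧
          Nat.card (MulAction.orbit G y) ≤
            (Fintype.card Ω) ^ 2 * ((r + 1) ^ 2 * Fintype.card Ω) * R1 ^ 4) ∨
      (∃ y : Fin 2 → Ω, LinearIndependent ℚ (fun i => f (y i)) ∧
          Nat.card (MulAction.orbit G y) ≤
            ((r + 1) ^ R1 * Fintype.card Ω) * ((R1 ^ R1) ^ R1 * R1)) ∨
      (∃ m : ℕ, m ^ 4 ≤ (Fintype.card Ω) ^ 3 ∧
        ∃ y : Fin 2 → Ω, LinearIndependent ℚ (fun i => f (y i)) ∧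
          Nat.card (MulAction.orbit G y) ≤ ((r + 1) * Fintype.card Ω) * m) ∨
      (∃ m : ℕ, m ^ A ≤ (Fintype.card Ω) ^ (A - 1) ∧
        ∃ y : Fin 2 → Ω, LinearIndependent ℚ (fun i => f (y i)) ∧
          Nat.card (MulAction.orbit G y) ≤ Fintype.card Ω * m) ∨
      (∃ y : Fin (2 ^ s) → Ω, LinearIndependent ℚ (fun i => f (y i)) ∧
          Nat.card (MulAction.orbit G y) ≤
            ((Fintype.card Ω) ^ A) ^ s * Fintype.card Ω * R1 ^ 2 ^ s) ∨
      (∃ B₀ B : Subgroup G, B₀.Normal ∧ Sse (MulAction.stabilizer G x) B₀ B ∧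
        (Fintype.card Ω) ^ A < B₀.relIndex B ∧ oc B₀ x ≤ R1 ∧
        (Fintype.card Ω) ^ (A - 1) < (oc B x) ^ A)) := by
  have h2R : ∀ t : ℕ, t ≤ s → 3 ^ ((16 ^ t) ^ 2) ≤ R1 := fun t ht =>
    (Nat.pow_le_pow_right (by norm_num)
      (Nat.pow_le_pow_left (Nat.pow_le_pow_right (by norm_num) ht) 2)).trans hR1
  have hR1pos : 1 ≤ R1 := (Nat.one_le_pow _ _ (by norm_num)).trans (h2R 1 (by omega))
  set D := Fintype.card Ω with hDdef
  have hR1D : R1 < D := lt_of_le_of_lt (Nat.le_self_pow (by norm_num) R1) hD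
  have hDpos : 1 ≤ D := by omega
  have hstabG : (MulAction.stabilizer G x).index = D := by
    rw [MulAction.index_stabilizer_of_transitive, Nat.card_eq_fintype_card]
  have htop := oc_top htr x
  have hocD : ∀ X : Subgroup G, oc X x ≤ D := fun X => by
    rw [hDdef, ← htop]
    exact oc_mono le_top x
  obtain ⟨B, ⟨hBn, hBx⟩, hBmin⟩ := Set.Finite.exists_minimal
    (Set.toFinite {N : Subgroup G | N.Normal ∧ R1 < oc N x})
    ⟨⊤, inferInstance, by rw [htop]; exact hR1D⟩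
  have hbot : (⊥ : Subgroup G) < B := by
    rw [bot_lt_iff_ne_bot]
    rintro rfl
    have h2 : Ob (⊥ : Subgroup G) x ⊆ {x} := by
      rintro z ⟨u, hu, rfl⟩
      rw [Subgroup.mem_bot] at hu
      rw [hu, one_smul]
      rfl
    have h3 : oc (⊥ : Subgroup G) x ≤ 1 := by
      refine (Set.ncard_le_ncard h2 (Set.toFinite _)).trans ?_
      rw [Set.ncard_singleton]
    omega
  obtain ⟨C, ⟨hCn, hCB⟩, hCmax⟩ := Set.Finite.exists_maximal
    (Set.toFinite {N : Subgroup G | N.Normal ∧ N < B}) ⟨⊥, inferInstance, hbot⟩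
  have hchf : Chf C B := by
    refine ⟨hCn, hBn, hCB, ?_⟩
    intro N hN hCN hNB
    by_contra hne
    have h2 := hCmax (⟨hN, lt_of_le_of_ne hNB hne⟩ : N ∈ {N : Subgroup G | N.Normal ∧ N < B})
      hCN.le
    exact absurd hCN (not_lt_of_ge h2)
  have hCx : oc C x ≤ R1 := by
    by_contra hcon
    have h2 := hBmin (⟨hCn, not_le.1 hcon⟩ :
      C ∈ {N : Subgroup G | N.Normal ∧ R1 < oc N x}) hCB.le
    exact absurd hCB (not_lt_of_ge h2)
  have hinv : ∀ w ∈ MulAction.stabilizer G x, w • x = x := fun w hw =>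
    MulAction.mem_stabilizer_iff.1 hw
  by_cases hab : B ≤ cen C B
  · -- the abelian case
    have hCnor : ∀ g ∈ B, ∀ u ∈ C, g * u * g⁻¹ ∈ C := fun g _ c hc => hCn.conj_mem c hc g
    have hLH : ∀ b ∈ B, ∀ a ∈ st B C x hCnor, b * a * b⁻¹ ∈ st B C x hCnor := by
      intro b hb a ha
      have h2 : C ≤ st B C x hCnor := fun c hc => ⟨hCB.le hc, c, hc, rfl⟩
      have h3 := mem_cen.1 (hab hb) a ha.1
      have h4 := Subgroup.mul_mem _ (h2 h3) ha
      simpa [mul_assoc] using h4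
    have hWL : ∀ w ∈ MulAction.stabilizer G x, ∀ a ∈ st B C x hCnor,
        w * a * w⁻¹ ∈ st B C x hCnor := by
      rintro w hw a ⟨haB, c, hc, hcx⟩
      refine ⟨hBn.conj_mem a haB w, w * c * w⁻¹, hCn.conj_mem c hc w, ?_⟩
      have hw' : w⁻¹ • x = x := by
        rw [inv_smul_eq_iff]
        exact (MulAction.mem_stabilizer_iff.1 hw).symm
      rw [mul_smul, hw', mul_smul, hcx, mul_smul, hw', mul_smul]
    have hLx : oc (st B C x hCnor) x ≤ R1 := by
      refine (Set.ncard_le_ncard ?_ (Set.toFinite _)).trans hCx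
      rintro z ⟨a, ha, rfl⟩
      exact ha.2
    have hidx : (st B C x hCnor).relIndex B ≤ D := by
      refine le_trans ?_ (hocD B)
      have h3 : oc B x = Nat.card (Ob B x) := rfl
      rw [h3]
      refine ri_le _ _ (fun b => (⟨(b : G) • x, b, b.2, rfl⟩ : Ob B x)) ?_
      intro a b hab'
      have h4 : (a : G) • x = (b : G) • x := congrArg Subtype.val hab'
      refine ⟨B.mul_mem (B.inv_mem a.2) b.2, ?_⟩
      rw [mul_smul, ← h4, inv_smul_smul]
      exact self_mem C x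
    obtain ⟨h, hind⟩ := cube_ind hGram hMod 2 ρ f hf hinj x B (lt_of_le_of_lt (h2R 2 hs) hBx)
    have horb := cube_orb (L := st B C x hCnor) (H := B) (W := MulAction.stabilizer G x) (x := x)
      hLH hWL (fun w _ b hb => hBn.conj_mem b hb w) hinv (B := R1) (by
        rintro z ⟨u, hu, rfl⟩
        rw [oc_smul hLH hu]
        exact hLx) h
    obtain ⟨y, _, hy2, hy3⟩ := tuple_of_cube f x B h hind
    refine ⟨0, Nat.one_le_pow _ _ hDpos, Or.inl ⟨y, hy2, ?_⟩⟩
    rw [hy3]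
    refine horb.trans ?_
    rw [hstabG]
    have h5 : ((0 + 1) ^ 2 * D) = D := by ring
    rw [h5]
    exact Nat.mul_le_mul_right _ (Nat.mul_le_mul_right _ (Nat.pow_le_pow_left hidx 2))
  · -- the non-abelian case
    have hCnorm : C.Normal := hCn
    have hrel : 2 ^ (rel C B x).card ≤ D ^ 2 :=
      (rel_card hchf hab x).trans (Nat.pow_le_pow_left (hocD B) 2)
    refine ⟨(rel C B x).card, hrel, ?_⟩
    set r := (rel C B x).card with hr
    -- the index of `Wf I x`
    have hWidx : ∀ (I : Finset (Subgroup G)) (t : ℕ), I ⊆ rel C B x → I.card ≤ t →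
        (Wf I x).index ≤ (r + 1) ^ t * D := by
      intro I t hI ht
      have h1 : Wf I x ≤ MulAction.stabilizer G x := fun w hw => hw.1
      rw [← Subgroup.relIndex_mul_index h1, hstabG]
      refine Nat.mul_le_mul_right _ ((Wf_idx hchf hI).trans ?_)
      exact (Nat.pow_le_pow_left (Nat.le_succ _) _).trans
        (Nat.pow_le_pow_right (Nat.succ_pos _) ht)
    -- a single member with a small orbit
    have hone : ∀ S ∈ rel C B x, R1 < oc S x → (oc S x) ^ 4 ≤ D ^ 3 →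
        ∃ m : ℕ, m ^ 4 ≤ D ^ 3 ∧
        ∃ y : Fin 2 → Ω, LinearIndependent ℚ (fun i => f (y i)) ∧
          Nat.card (MulAction.orbit G y) ≤ ((r + 1) * D) * m := by
      intro S hS hSx hS4
      obtain ⟨y, hy1, hy2⟩ := pair hGram hMod ρ f hf hinj (x := x) (H := S) (W := Wf {S} x)
        (lt_of_le_of_lt (h2R 1 (by omega)) hSx) (fun w hw => hw.1) (Wf_nor (Finset.mem_singleton_self S))
      refine ⟨oc S x, hS4, y, hy1, hy2.trans (Nat.mul_le_mul_right _ ?_)⟩
      have h1 := hWidx {S} 1 (Finset.singleton_subset_iff.2 hS) (by simp)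
      rwa [pow_one] at h1
    by_cases hbig : ∃ S ∈ rel C B x, R1 < oc S x
    · obtain ⟨S, hS, hSx⟩ := hbig
      have hST := rel_sub x hS
      have hSm := mem_TT.1 hST
      by_cases hS4 : (oc S x) ^ 4 ≤ D ^ 3
      · exact Or.inr (Or.inr (Or.inl (hone S hS hSx hS4)))
      by_cases htwo : ∃ S' ∈ rel C B x, S' ≠ S ∧ R1 < oc S' x
      · obtain ⟨S', hS', hne, hSx'⟩ := htwo
        have hST' := rel_sub x hS'
        have hSm' := mem_TT.1 hST'
        by_cases hS4' : (oc S' x) ^ 4 ≤ D ^ 3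
        · exact Or.inr (Or.inr (Or.inl (hone S' hS' hSx' hS4')))
        -- two members with a large orbit
        left
        have hPB := hSm.1.2.2
        have hoc := oc_st (x := x) hPB hSm.1.2.1 hSm'.1.2.1
        have hJ : R1 < oc (st S' S x (fun b hb => hPB b (hSm'.1.2.1 hb))) x := by
          set j := oc (st S' S x (fun b hb => hPB b (hSm'.1.2.1 hb))) x with hj
          have h1 : oc S x * oc S' x ≤ D * j := hoc.trans (Nat.mul_le_mul_right _ (hocD B))
          by_contra hcon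
          have h2 : j ≤ R1 := not_lt.1 hcon
          have h3 : (oc S x * oc S' x) ^ 4 ≤ D ^ 4 * R1 ^ 4 := by
            rw [← mul_pow]
            exact Nat.pow_le_pow_left (h1.trans (Nat.mul_le_mul_left _ h2)) 4
          have h4 : D ^ 3 * D ^ 3 ≤ (oc S x * oc S' x) ^ 4 := by
            rw [mul_pow]
            exact Nat.mul_le_mul (not_le.1 hS4).le (not_le.1 hS4').le
          have h5 : D ^ 4 * R1 ^ 4 < D ^ 4 * D ^ 2 := by
            refine Nat.mul_lt_mul_of_pos_left ?_ (by positivity)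
            refine lt_of_lt_of_le hD ?_
            exact Nat.le_self_pow (by norm_num) D
          have h6 : D ^ 3 * D ^ 3 = D ^ 4 * D ^ 2 := by ring
          omega
        obtain ⟨y, hy1, hy2⟩ := quad hGram hMod ρ f hf hinj hCn (x := x) (P := S) (Q := S')
          (W := Wf {S, S'} x)
          (fun p hp q hq => mem_cen.1 (le_cen_of_ne hST' hST hne hq) p hp) hSm.1.1.le
          (fun b hb => hPB b (hSm'.1.2.1 hb)) (fun w hw => hw.1)
          (Wf_nor (by simp)) (Wf_nor (by simp)) hCx (lt_of_le_of_lt (h2R 2 hs) hJ) (hocD _)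
        refine ⟨y, hy1, hy2.trans (Nat.mul_le_mul_right _ (Nat.mul_le_mul_left _ ?_))⟩
        refine hWidx {S, S'} 2 ?_ Finset.card_le_two
        intro T hT
        rcases Finset.mem_insert.1 hT with rfl | hT
        · exact hS
        · rw [Finset.mem_singleton.1 hT]
          exact hS'
      · -- a single member with a large orbit
        push Not at htwo
        have hnor : ∀ g ∈ MulAction.stabilizer G x, ∀ h ∈ S, g * h * g⁻¹ ∈ S := by
          intro g hg h hh
          have h1 : cj g S = S := by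
            by_contra hcon
            have h2 := htwo (cj g S) (rel_cj hchf (hinv g hg) hS) hcon
            rw [oc_cj (hinv g hg)] at h2
            omega
          have h2 := conj_mem_cj (g := g) hh
          rwa [h1] at h2
        by_cases hSA : (oc S x) ^ A ≤ D ^ (A - 1)
        · obtain ⟨y, hy1, hy2⟩ := pair hGram hMod ρ f hf hinj (x := x) (H := S)
            (W := MulAction.stabilizer G x) (lt_of_le_of_lt (h2R 1 (by omega)) hSx) hinv hnor
          refine Or.inr (Or.inr (Or.inr (Or.inl ⟨oc S x, hSA, y, hy1, ?_⟩)))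
          rwa [hstabG] at hy2
        by_cases hSI : C.relIndex S ≤ D ^ A
        · refine Or.inr (Or.inr (Or.inr (Or.inr (Or.inl ?_))))
          obtain ⟨h, hind⟩ := cube_ind hGram hMod s ρ f hf hinj x S (lt_of_le_of_lt hR1 hSx)
          have horb := cube_orb (L := C) (H := S) (W := MulAction.stabilizer G x) (x := x)
            (fun h _ a ha => hCn.conj_mem a ha h) (fun w _ a ha => hCn.conj_mem a ha w) hnor hinv
            (B := R1) (by
              rintro z ⟨u, hu, rfl⟩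
              rw [oc_smul (B := ⊤) (fun g _ u hu => hCn.conj_mem u hu g) (Subgroup.mem_top _)]
              exact hCx) h
          obtain ⟨y, _, hy2, hy3⟩ := tuple_of_cube f x S h hind
          refine ⟨y, hy2, ?_⟩
          rw [hy3]
          refine horb.trans ?_
          rw [hstabG]
          exact Nat.mul_le_mul_right _ (Nat.mul_le_mul_right _ (Nat.pow_le_pow_left hSI s))
        · refine Or.inr (Or.inr (Or.inr (Or.inr (Or.inr
            ⟨C, S, hCn, ?_, not_le.1 hSI, hCx, not_le.1 hSA⟩))))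
          refine ⟨hSm.1.1, fun g _ h hh => hCn.conj_mem h hh g, hnor,
            fun g _ h hh => hCn.conj_mem h hh g, ?_, ?_⟩
          · intro N hCN hNS hN
            rcases smpl hchf hST hCN hNS hN with h1 | h1
            · exact Or.inl (le_antisymm h1 hCN)
            · exact Or.inr (le_antisymm hNS h1)
          · have h1 := nonab hchf hab hST
            by_contra hcon
            push Not at hcon
            exact h1 fun g hg => mem_cen.2 fun h hh => hcon g hg h hh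
    · -- all members have a small orbit
      push Not at hbig
      right
      left
      obtain ⟨I, hIrel, hIt, hIx⟩ := choose_I hchf x hBx (t := R1) Nat.lt_two_pow_self
      have hIT : I ⊆ TT C B := hIrel.trans (rel_sub x)
      have hT : oc (T C I) x ≤ (R1 ^ R1) ^ R1 * R1 := by
        refine (oc_le_mul (x := x) (le_T (C := C) (J := I))).trans ?_
        refine Nat.mul_le_mul ?_ hCx
        refine (idxJ hchf I hIT (fun S hS => ker_idx hchf (hIrel hS)
          (hbig S (hIrel hS)))).trans ?_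
        exact Nat.pow_le_pow_right (Nat.one_le_pow _ _ hR1pos) hIt
      obtain ⟨y, hy1, hy2⟩ := pair hGram hMod ρ f hf hinj (x := x) (H := T C I)
        (W := Wf I x) (lt_of_le_of_lt (h2R 1 (by omega)) hIx) (fun w hw => hw.1) (by
          intro w hw
          refine T_conj (fun c hc => hCn.conj_mem c hc w) ?_
          intro S hS s' hs'
          exact mem_le_T hS (Wf_nor hS w hw s' hs'))
      exact ⟨y, hy1, hy2.trans (Nat.mul_le_mul (hWidx I R1 hIrel hIt) hT)⟩

end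

/-- Powers of the number of members are small against the degree. -/
theorem polylog (n : ℕ) : ∃ C : ℕ, 1 ≤ C ∧ ∀ r D : ℕ, 2 ^ r ≤ D ^ 2 → (r + 1) ^ n ≤ C * D := by
  obtain ⟨M, hM⟩ := (tendsto_pow_const_div_const_pow_of_one_lt (2 * n)
    (one_lt_two (α := ℝ))).bddAbove_range
  have h1 : ∀ r : ℕ, ((r : ℝ) + 1) ^ (2 * n) ≤ M * 2 ^ (r + 1) := by
    intro r
    have h2 := hM ⟨r + 1, rfl⟩
    simp only at h2
    rw [div_le_iff₀ (by positivity)] at h2
    push_cast at h2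
    exact h2
  obtain ⟨K, hK1, hK⟩ : ∃ K : ℕ, 1 ≤ K ∧ 2 * M ≤ K :=
    ⟨max 1 ⌈2 * M⌉₊, le_max_left _ _,
      (Nat.le_ceil _).trans (by exact_mod_cast le_max_right _ _)⟩
  refine ⟨K, hK1, ?_⟩
  intro r D h
  have h3 : ((r : ℝ) + 1) ^ (2 * n) ≤ K * 2 ^ r := by
    calc ((r : ℝ) + 1) ^ (2 * n) ≤ M * 2 ^ (r + 1) := h1 r
      _ = (2 * M) * 2 ^ r := by ring
      _ ≤ K * 2 ^ r := by gcongr
  have h4 : (r + 1) ^ (2 * n) ≤ K * 2 ^ r := by exact_mod_cast h3
  have h5 : ((r + 1) ^ n) ^ 2 ≤ (K * D) ^ 2 := by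
    calc ((r + 1) ^ n) ^ 2 = (r + 1) ^ (2 * n) := by rw [← pow_mul, mul_comm]
      _ ≤ K * 2 ^ r := h4
      _ ≤ K * D ^ 2 := Nat.mul_le_mul_left _ h
      _ ≤ K ^ 2 * D ^ 2 := Nat.mul_le_mul_right _ (Nat.le_self_pow (by norm_num) K)
      _ = (K * D) ^ 2 := by ring
  exact (Nat.pow_le_pow_iff_left (by norm_num)).1 h5

theorem exists_s (A : ℕ) : ∃ s, 2 ≤ s ∧ A * s + 2 ≤ 2 ^ s := by
  have key : ∀ n : ℕ, n ^ 2 ≤ 2 ^ (n + 1) := by
    intro n
    have h1 : ∀ n : ℕ, (n + 4) ^ 2 ≤ 2 ^ (n + 5) := by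
      intro n
      induction n with
      | zero => norm_num
      | succ n ih =>
        have h2 : 2 ^ (n + 1 + 5) = 2 * 2 ^ (n + 5) := by
          rw [← pow_succ']
        rw [h2]
        have h3 : (n + 1 + 4) ^ 2 ≤ 2 * (n + 4) ^ 2 := by
          have h4 : 2 * (n + 4) ^ 2 = (n + 1 + 4) ^ 2 + (n ^ 2 + 6 * n + 7) := by ring
          rw [h4]
          exact Nat.le_add_right _ _
        omega
    rcases Nat.lt_or_ge n 4 with h | h
    · interval_cases n <;> norm_num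
    · obtain ⟨m, rfl⟩ := Nat.exists_eq_add_of_le h
      rw [add_comm 4 m]
      exact h1 m
  refine ⟨4 * A + 8, by omega, ?_⟩
  have h3 := key (4 * A + 7)
  have h4 : 4 * A + 7 + 1 = 4 * A + 8 := by ring
  rw [h4] at h3
  nlinarith

theorem num {D o c C e k A' : ℕ} (hD : 1 ≤ D) (h : o ^ A' ≤ c * D ^ e) (hc : c ≤ C)
    (he : e ≤ k * A' - 1) : o ^ A' ≤ C * D ^ (k * A' - 1) :=
  h.trans (Nat.mul_le_mul hc (Nat.pow_le_pow_right hD he))

end Cf

/-- Row GRPQ, with a normal subgroup `B₀` in the second case. -/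
theorem grpq' (hGram : GramStatement) (hMod : ModtStatement) (A : ℕ) (hA : 1 ≤ A) :
    ∃ R k₀ A' C : ℕ, 1 ≤ A' ∧ ∀ (G Ω V : Type) [Group G] [Finite G]
    [Fintype Ω] [MulAction G Ω] [AddCommGroup V] [Module ℚ V] (ρ : Representation ℚ G V)
    (f : Ω → V), (∀ (g : G) (x : Ω), f (g • x) = ρ g (f x)) → Function.Injective f →
    MulAction.IsPretransitive G Ω → ∀ x : Ω, R < Fintype.card Ω →
    (∃ (k : ℕ) (y : Fin k → Ω), 2 ≤ k ∧ k ≤ k₀ ∧ LinearIndependent ℚ (fun i => f (y i)) ∧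
      (Nat.card (MulAction.orbit G y)) ^ A' ≤ C * (Fintype.card Ω) ^ (k * A' - 1)) ∨
    ∃ B₀ B : Subgroup G, B₀.Normal ∧ Sse (MulAction.stabilizer G x) B₀ B ∧
      (Fintype.card Ω) ^ A < B₀.relIndex B ∧ Nat.card (MulAction.orbit B₀ x) ≤ R ∧
      (Fintype.card Ω) ^ (A - 1) < (Nat.card (MulAction.orbit B x)) ^ A := by
  obtain ⟨s, hs2, hs⟩ := Cf.exists_s A
  obtain ⟨R1, hR1⟩ : ∃ R1 : ℕ, 3 ^ ((16 ^ s) ^ 2) = R1 := ⟨_, rfl⟩
  have hR1pos : 1 ≤ R1 := by
    rw [← hR1]
    exact Nat.one_le_pow _ _ (by norm_num)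
  obtain ⟨K1, _, hK1⟩ := Cf.polylog (16 * A)
  obtain ⟨K2, _, hK2⟩ := Cf.polylog (R1 * (8 * A))
  obtain ⟨K3, _, hK3⟩ := Cf.polylog (8 * A)
  obtain ⟨Q, hQ⟩ : ∃ Q : ℕ, (R1 ^ R1) ^ R1 * R1 = Q := ⟨_, rfl⟩
  obtain ⟨k₀, hk₀⟩ : ∃ k₀ : ℕ, 2 ^ s = k₀ := ⟨_, rfl⟩
  have hk4 : 4 ≤ k₀ := by
    rw [← hk₀]
    calc 4 = 2 ^ 2 := by norm_num
      _ ≤ 2 ^ s := Nat.pow_le_pow_right (by norm_num) hs2
  refine ⟨R1 ^ 4, k₀, 8 * A,
    K1 * (R1 ^ 4) ^ (8 * A) + K2 * Q ^ (8 * A) + K3 + 1 + (R1 ^ k₀) ^ (8 * A), by omega, ?_⟩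
  intro G Ω V _ _ _ _ _ _ ρ f hf hinj htr x hD
  have hR14 : R1 ≤ R1 ^ 4 := Nat.le_self_pow (by norm_num) R1
  have hDpos : 1 ≤ Fintype.card Ω := by omega
  obtain ⟨r, hr, hcase⟩ := Cf.qcore hGram hMod hs2 hR1.le ρ f hf hinj htr x A hD
  rw [hQ, hk₀] at hcase
  set D := Fintype.card Ω with hDdef
  rcases hcase with ⟨y, hy, ho⟩ | ⟨y, hy, ho⟩ | ⟨m, hm, y, hy, ho⟩ | ⟨m, hm, y, hy, ho⟩ |
    ⟨y, hy, ho⟩ | ⟨B₀, B, h1, h2, h3, h4, h5⟩
  · left
    refine ⟨4, y, by norm_num, hk4, hy, ?_⟩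
    refine Cf.num (c := K1 * (R1 ^ 4) ^ (8 * A)) (e := 24 * A + 1) hDpos ?_ (by omega) (by omega)
    calc _ ≤ (D ^ 2 * ((r + 1) ^ 2 * D) * R1 ^ 4) ^ (8 * A) := Nat.pow_le_pow_left ho _
      _ = (r + 1) ^ (16 * A) * D ^ (24 * A) * (R1 ^ 4) ^ (8 * A) := by
          rw [mul_pow _ (R1 ^ 4)]
          congr 1
          have e1 : D ^ 2 * ((r + 1) ^ 2 * D) = (r + 1) ^ 2 * D ^ 3 := by ring
          rw [e1, mul_pow, ← pow_mul, ← pow_mul]
          congr 2 <;> ring
      _ ≤ (K1 * D) * D ^ (24 * A) * (R1 ^ 4) ^ (8 * A) :=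
          Nat.mul_le_mul_right _ (Nat.mul_le_mul_right _ (hK1 r D hr))
      _ = K1 * (R1 ^ 4) ^ (8 * A) * D ^ (24 * A + 1) := by ring
  · left
    refine ⟨2, y, le_rfl, by omega, hy, ?_⟩
    refine Cf.num (c := K2 * Q ^ (8 * A)) (e := 8 * A + 1) hDpos ?_ (by omega) (by omega)
    calc _ ≤ (((r + 1) ^ R1 * D) * Q) ^ (8 * A) := Nat.pow_le_pow_left ho _
      _ = (r + 1) ^ (R1 * (8 * A)) * D ^ (8 * A) * Q ^ (8 * A) := by
          rw [mul_pow, mul_pow, ← pow_mul]
      _ ≤ (K2 * D) * D ^ (8 * A) * Q ^ (8 * A) :=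
          Nat.mul_le_mul_right _ (Nat.mul_le_mul_right _ (hK2 r D hr))
      _ = K2 * Q ^ (8 * A) * D ^ (8 * A + 1) := by ring
  · left
    refine ⟨2, y, le_rfl, by omega, hy, ?_⟩
    refine Cf.num (c := K3) (e := 14 * A + 1) hDpos ?_ (by omega) (by omega)
    calc _ ≤ (((r + 1) * D) * m) ^ (8 * A) := Nat.pow_le_pow_left ho _
      _ = (r + 1) ^ (8 * A) * D ^ (8 * A) * (m ^ 4) ^ (2 * A) := by
          rw [mul_pow, mul_pow, ← pow_mul m]
          congr 2
          ring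
      _ ≤ (K3 * D) * D ^ (8 * A) * (D ^ 3) ^ (2 * A) :=
          Nat.mul_le_mul (Nat.mul_le_mul_right _ (hK3 r D hr)) (Nat.pow_le_pow_left hm _)
      _ = K3 * D ^ (14 * A + 1) := by
          rw [← pow_mul]
          have e1 : 14 * A + 1 = 1 + 8 * A + 3 * (2 * A) := by ring
          rw [e1, pow_add, pow_add, pow_one]
          ring
  · left
    refine ⟨2, y, le_rfl, by omega, hy, ?_⟩
    refine Cf.num (c := 1) (e := 16 * A - 8) hDpos ?_ (by omega) (by omega)
    calc _ ≤ (D * m) ^ (8 * A) := Nat.pow_le_pow_left ho _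
      _ = D ^ (8 * A) * (m ^ A) ^ 8 := by
          rw [mul_pow, ← pow_mul m]
          congr 2
          ring
      _ ≤ D ^ (8 * A) * (D ^ (A - 1)) ^ 8 := Nat.mul_le_mul_left _ (Nat.pow_le_pow_left hm _)
      _ = 1 * D ^ (16 * A - 8) := by
          rw [← pow_mul, ← pow_add, one_mul]
          congr 1
          omega
  · left
    refine ⟨k₀, y, by omega, le_rfl, hy, ?_⟩
    refine Cf.num (c := (R1 ^ k₀) ^ (8 * A)) (e := (A * s + 1) * (8 * A)) hDpos ?_ (by omega) ?_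
    · calc _ ≤ ((D ^ A) ^ s * D * R1 ^ k₀) ^ (8 * A) := Nat.pow_le_pow_left ho _
        _ = (R1 ^ k₀) ^ (8 * A) * D ^ ((A * s + 1) * (8 * A)) := by
            rw [mul_pow _ (R1 ^ k₀), mul_comm]
            congr 1
            rw [← pow_mul, ← pow_succ, ← pow_mul]
    · rw [hk₀] at hs
      have h1 : (A * s + 2) * (8 * A) ≤ k₀ * (8 * A) := Nat.mul_le_mul_right _ hs
      have h2 : (A * s + 2) * (8 * A) = (A * s + 1) * (8 * A) + 8 * A := by ring
      omega
  · right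
    refine ⟨B₀, B, h1, h2, h3, ?_, ?_⟩
    · rw [Cf.natCard_orbit]
      exact h4.trans hR14
    · rw [Cf.natCard_orbit]
      exact h5

/-- Row GRPQ. -/
theorem grpq (hGram : GramStatement) (hMod : ModtStatement) : GrpqStatement := by
  intro A hA
  obtain ⟨R, k₀, A', C, hA', h⟩ := grpq' hGram hMod A hA
  refine ⟨R, k₀, A', C, hA', ?_⟩
  intro G Ω V _ _ _ _ _ _ ρ f hf hinj htr x hD
  rcases h G Ω V ρ f hf hinj htr x hD with h1 | ⟨B₀, B, _, h2⟩
  · exact Or.inl h1
  · exact Or.inr ⟨B₀, B, h2⟩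

end Pool.DynLehmer.LW
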