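import Pool.Agent.Lib.MP_2194ec_nt.LW.GrpzA

set_option autoImplicit false

/-!
# Pairs and quadruples of independent vectors with a small orbit
-/

namespace Pool.DynLehmer.LW
open scoped Classical

namespace Cf

section

variable {G Ω : Type} [Group G] [Finite G] [Finite Ω] [MulAction G Ω] {C B : Subgroup G}

omit [Finite G] [Finite Ω] in
theorem oc_relIndex (U : Subgroup G) (x : Ω) : oc U x = (MulAction.stabilizer G x).relIndex U := by
  have h1 : (MulAction.stabilizer G x).relIndex U = (MulAction.stabilizer U x).index := rfl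
  rw [h1, MulAction.index_stabilizer, oc, orbit_eq]

/-- The elements of the stabilizer which normalise each member of `I`. -/
def Wf (I : Finset (Subgroup G)) (x : Ω) : Subgroup G where
  carrier := {w | w • x = x ∧ ∀ S ∈ I, cj w S = S}
  one_mem' := ⟨one_smul G x, fun S _ => cj_one S⟩
  mul_mem' := by
    rintro a b ⟨ha, ha'⟩ ⟨hb, hb'⟩
    refine ⟨by rw [mul_smul, hb, ha], fun S hS => ?_⟩
    rw [← cj_cj, hb' S hS, ha' S hS]
  inv_mem' := by
    rintro a ⟨ha, ha'⟩
    refine ⟨by rw [inv_smul_eq_iff, ha], fun S hS => ?_⟩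
    conv_lhs => rw [← ha' S hS]
    exact cj_inv_cj a S

omit [Finite G] [Finite Ω] in
theorem Wf_nor {I : Finset (Subgroup G)} {x : Ω} {S : Subgroup G} (hS : S ∈ I) :
    ∀ w ∈ Wf I x, ∀ h ∈ S, w * h * w⁻¹ ∈ S := by
  intro w hw h hh
  have h1 := conj_mem_cj (g := w) hh
  rwa [hw.2 S hS] at h1

omit [Finite Ω] in
theorem Wf_idx (h : Chf C B) {x : Ω} {I : Finset (Subgroup G)} (hI : I ⊆ rel C B x) :
    (Wf I x).relIndex (MulAction.stabilizer G x) ≤ (rel C B x).card ^ I.card := by
  have hc : Nat.card (I → rel C B x) = (rel C B x).card ^ I.card := by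
    rw [Nat.card_fun, Nat.card_eq_fintype_card, Nat.card_eq_fintype_card, Fintype.card_coe,
      Fintype.card_coe]
  rw [← hc]
  refine ri_le (Wf I x) (MulAction.stabilizer G x)
    (fun w => fun S => (⟨cj (w : G) S, rel_cj h w.2 (hI S.2)⟩ : rel C B x)) ?_
  intro a b hab
  have ha : (a : G) • x = x := a.2
  have hb : (b : G) • x = x := b.2
  refine ⟨by rw [mul_smul, hb, inv_smul_eq_iff, ha], fun S hS => ?_⟩
  have h1 : cj (a : G) S = cj (b : G) S := congrArg Subtype.val (congrFun hab ⟨S, hS⟩)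
  rw [← cj_cj, ← h1, cj_inv_cj]

omit [Finite Ω] in
theorem oc_le_mul {U : Subgroup G} {x : Ω} (hCU : C ≤ U) :
    oc U x ≤ C.relIndex U * oc C x := by
  rw [oc_relIndex, oc_relIndex, mul_comm]
  have hne : ∀ X Y : Subgroup G, X.relIndex Y ≠ 0 := fun X Y =>
    Subgroup.FiniteIndex.index_ne_zero
  calc (MulAction.stabilizer G x).relIndex U ≤ (MulAction.stabilizer G x ⊓ C).relIndex U :=
        Subgroup.relIndex_le_of_le_left inf_le_left (hne _ _)
    _ = (MulAction.stabilizer G x ⊓ C).relIndex C * C.relIndex U :=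
        (Subgroup.relIndex_mul_relIndex _ _ _ inf_le_right hCU).symm
    _ = (MulAction.stabilizer G x).relIndex C * C.relIndex U := by
        rw [Subgroup.inf_relIndex_right]

/-- A pair of independent vectors. -/
theorem pair (hGram : GramStatement) (hMod : ModtStatement) {U : Type}
    [AddCommGroup U] [Module ℚ U] (ρ : Representation ℚ G U) (f : Ω → U)
    (hf : ∀ (g : G) (x : Ω), f (g • x) = ρ g (f x)) (hinj : Function.Injective f) {x : Ω}
    {H W : Subgroup G} (hH : 3 ^ ((16 ^ 1) ^ 2) < oc H x) (hWx : ∀ w ∈ W, w • x = x)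
    (hWH : ∀ w ∈ W, ∀ h ∈ H, w * h * w⁻¹ ∈ H) :
    ∃ y : Fin 2 → Ω, LinearIndependent ℚ (fun i => f (y i)) ∧
      Nat.card (MulAction.orbit G y) ≤ W.index * oc H x := by
  obtain ⟨h, hind⟩ := cube_ind hGram hMod 1 ρ f hf hinj x H hH
  let em : Fin 2 → (Fin 1 → Bool) := ![fun _ => false, fun _ => true]
  have hem : Function.Injective em := by
    intro i j hij
    fin_cases i <;> fin_cases j
    · rfl
    · exact absurd (congrFun hij 0) (by simp [em])
    · exact absurd (congrFun hij 0) (by simp [em])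
    · rfl
  have h1 := hind.comp em hem
  have h2 : (fun i : Fin 2 => f ((![x, ((h 0 : H) : G) • x] : Fin 2 → Ω) i)) =
      (fun e : Fin 1 → Bool => f (((LW.cube h e : H) : G) • x)) ∘ em := by
    funext i
    fin_cases i
    · simp [em, LW.cube]
    · simp [em, LW.cube]
  refine ⟨![x, ((h 0 : H) : G) • x], ?_, ?_⟩
  · rw [h2]
    exact h1
  · have h3 := orb_le (![x, ((h 0 : H) : G) • x] : Fin 2 → Ω) W
      (![{x}, Ob H x] : Fin 2 → Set Ω) (by
        intro w hw i
        have hw' := hWx w hw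
        fin_cases i
        · exact hw'
        · refine ⟨w * (h 0 : H) * w⁻¹, hWH w hw _ (h 0).2, ?_⟩
          have hw2 : w⁻¹ • x = x := by rw [inv_smul_eq_iff, hw']
          rw [mul_smul, hw2, mul_smul]
          rfl)
    rw [Fin.prod_univ_two] at h3
    have h4 : (![{x}, Ob H x] : Fin 2 → Set Ω) 0 = {x} := rfl
    have h5 : (![{x}, Ob H x] : Fin 2 → Set Ω) 1 = Ob H x := rfl
    rw [h4, h5, Set.ncard_singleton, one_mul] at h3
    exact h3

/-- Two subgroups which commute modulo `C`: a quadruple of independent vectors. -/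
theorem quad (hGram : GramStatement) (hMod : ModtStatement) {U : Type}
    [AddCommGroup U] [Module ℚ U] (ρ : Representation ℚ G U) (f : Ω → U)
    (hf : ∀ (g : G) (x : Ω), f (g • x) = ρ g (f x)) (hinj : Function.Injective f)
    (hC : C.Normal) {x : Ω} {P Q W : Subgroup G}
    (hPQ : ∀ p ∈ P, ∀ q ∈ Q, q * p * q⁻¹ * p⁻¹ ∈ C) (hCP : C ≤ P)
    (hPB : ∀ b ∈ Q, ∀ p ∈ P, b * p * b⁻¹ ∈ P)
    (hWx : ∀ w ∈ W, w • x = x) (hWP : ∀ w ∈ W, ∀ h ∈ P, w * h * w⁻¹ ∈ P)
    (hWQ : ∀ w ∈ W, ∀ h ∈ Q, w * h * w⁻¹ ∈ Q) {R n : ℕ} (hCx : oc C x ≤ R)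
    (hQ1 : 3 ^ ((16 ^ 2) ^ 2) < oc (st Q P x hPB) x) (hn : oc (st Q P x hPB) x ≤ n) :
    ∃ y : Fin 4 → Ω, LinearIndependent ℚ (fun i => f (y i)) ∧
      Nat.card (MulAction.orbit G y) ≤ n ^ 2 * W.index * R ^ 4 := by
  have _ := hCP
  set J := st Q P x hPB with hJ
  obtain ⟨h, hind⟩ := cube_ind hGram hMod 2 ρ f hf hinj x J hQ1
  have hWJ : ∀ w ∈ W, ∀ g ∈ J, w * g * w⁻¹ ∈ J := by
    rintro w hw g ⟨hg, p, hp, hpx⟩
    have hw' := hWx w hw
    have hw2 : w⁻¹ • x = x := by rw [inv_smul_eq_iff, hw']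
    refine ⟨hWQ w hw g hg, w * p * w⁻¹, hWP w hw p hp, ?_⟩
    rw [mul_smul, hw2, mul_smul, hpx, mul_smul, hw2, mul_smul]
  -- the elements of `W` which fix `h 0 x` and `h 1 x`
  let W2 : Subgroup G := W ⊓ (MulAction.stabilizer G (((h 0 : J) : G) • x) ⊓
    MulAction.stabilizer G (((h 1 : J) : G) • x))
  have hW2 : W2.relIndex W ≤ n ^ 2 := by
    have hc : Nat.card (Ob J x × Ob J x) ≤ n ^ 2 := by
      rw [Nat.card_prod, sq]
      exact Nat.mul_le_mul hn hn
    refine le_trans ?_ hc
    have hmem : ∀ (w : W) (j : Fin 2), (w : G) • ((h j : J) : G) • x ∈ Ob J x := by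
      intro w j
      have hw' := hWx w w.2
      have hw2 : (w : G)⁻¹ • x = x := by rw [inv_smul_eq_iff, hw']
      refine ⟨(w : G) * ((h j : J) : G) * (w : G)⁻¹, hWJ w w.2 _ (h j).2, ?_⟩
      rw [mul_smul, hw2, mul_smul]
    refine ri_le _ _ (fun w => ((⟨_, hmem w 0⟩ : Ob J x), (⟨_, hmem w 1⟩ : Ob J x))) ?_
    intro a b hab
    have h1 : (a : G) • ((h 0 : J) : G) • x = (b : G) • ((h 0 : J) : G) • x :=
      congrArg Subtype.val (congrArg Prod.fst hab)
    have h2 : (a : G) • ((h 1 : J) : G) • x = (b : G) • ((h 1 : J) : G) • x :=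
      congrArg Subtype.val (congrArg Prod.snd hab)
    refine ⟨W.mul_mem (W.inv_mem a.2) b.2, ?_, ?_⟩
    · change ((a : G)⁻¹ * (b : G)) • (((h 0 : J) : G) • x) = ((h 0 : J) : G) • x
      rw [mul_smul, ← h1, inv_smul_smul]
    · change ((a : G)⁻¹ * (b : G)) • (((h 1 : J) : G) • x) = ((h 1 : J) : G) • x
      rw [mul_smul, ← h2, inv_smul_smul]
  have hself : ∀ e : Fin 2 → Bool, (LW.cube h e : J) =
      (if e 0 then h 0 else 1) * (if e 1 then h 1 else 1) := by
    intro e
    simp [LW.cube, List.ofFn_succ]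
  have hcube : Nat.card (MulAction.orbit G (fun e : Fin 2 → Bool =>
      ((LW.cube h e : J) : G) • x)) ≤ n ^ 2 * W.index * R ^ 4 := by
    refine (orb_le (fun e : Fin 2 → Bool => ((LW.cube h e : J) : G) • x) W2
      (fun e => Ob C (((LW.cube h e : J) : G) • x)) ?_).trans ?_
    · rintro w ⟨hw, hw0', hw1'⟩ e
      have hw' := hWx w hw
      have hw0 : w • (((h 0 : J) : G) • x) = ((h 0 : J) : G) • x := hw0'
      have hw1 : w • (((h 1 : J) : G) • x) = ((h 1 : J) : G) • x := hw1'
      rw [hself e]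
      by_cases e0 : e 0 = true
      · by_cases e1 : e 1 = true
        · -- both
          rw [if_pos e0, if_pos e1]
          obtain ⟨hq1, p, hp, hpx⟩ := (h 1).2
          have hw2 : w⁻¹ • x = x := by rw [inv_smul_eq_iff, hw']
          -- `w h0 h1 x = (w h0 w⁻¹) h1 x`
          obtain ⟨s, hs⟩ : ∃ s : G, s = ((h 0 : J) : G)⁻¹ * (w * ((h 0 : J) : G) * w⁻¹) :=
            ⟨_, rfl⟩
          have hsQ : s ∈ Q := by
            rw [hs]
            exact Q.mul_mem (Q.inv_mem (h 0).2.1) (hWQ w hw _ (h 0).2.1)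
          have hsx : s • x = x := by
            rw [hs, mul_smul, mul_smul, hw2, mul_smul, inv_smul_eq_iff, hw0]
          have e1' : w • ((((h 0 * h 1 : J)) : G) • x) =
              ((h 0 : J) : G) • s • ((h 1 : J) : G) • x := by
            have f1 : w • ((((h 0 * h 1 : J)) : G) • x) =
                (w * ((h 0 : J) : G) * w⁻¹) • w • ((h 1 : J) : G) • x := by
              rw [Subgroup.coe_mul, ← mul_smul, ← mul_smul, ← mul_smul]
              congr 1
              group
            rw [f1, hw1, hs, ← mul_smul, ← mul_smul, ← mul_smul]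
            congr 1
            group
          have hc := hPQ p hp s hsQ
          obtain ⟨c, hcdef⟩ : ∃ c : G, c = s * p * s⁻¹ * p⁻¹ := ⟨_, rfl⟩
          rw [← hcdef] at hc
          have e2 : s • ((h 1 : J) : G) • x = c • ((h 1 : J) : G) • x := by
            rw [← hpx]
            have f1 : s • p • x = (c * p * s) • x := by
              rw [← mul_smul, hcdef]
              congr 1
              group
            rw [f1, mul_smul, hsx, mul_smul]
          refine ⟨((h 0 : J) : G) * c * ((h 0 : J) : G)⁻¹, hC.conj_mem c hc _, ?_⟩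
          change _ = w • ((((h 0 * h 1 : J)) : G) • x)
          rw [e1', e2, Subgroup.coe_mul, ← mul_smul, ← mul_smul, ← mul_smul]
          congr 1
          group
        · rw [if_pos e0, if_neg e1, mul_one, hw0]
          exact self_mem _ _
      · by_cases e1 : e 1 = true
        · rw [if_neg e0, if_pos e1, one_mul, hw1]
          exact self_mem _ _
        · rw [if_neg e0, if_neg e1, mul_one]
          have h1 : (((1 : J) : J) : G) • x = x := by simp
          rw [h1, hw']
          exact self_mem _ _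
    · have h1 : W2.index ≤ n ^ 2 * W.index := by
        rw [← Subgroup.relIndex_mul_index (inf_le_left : W2 ≤ W)]
        exact Nat.mul_le_mul_right _ hW2
      refine Nat.mul_le_mul h1 ?_
      calc ∏ e : Fin 2 → Bool, (Ob C (((LW.cube h e : J) : G) • x)).ncard ≤
          ∏ _e : Fin 2 → Bool, R := by
            refine Finset.prod_le_prod' fun e _ => ?_
            have h2 : oc C (((LW.cube h e : J) : G) • x) = oc C x :=
              oc_smul (B := ⊤) (fun g _ u hu => hC.conj_mem u hu g) (Subgroup.mem_top _) x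
            exact h2.le.trans hCx
        _ = R ^ 4 := by
            rw [Finset.prod_const, Finset.card_univ, Fintype.card_fun, Fintype.card_bool,
              Fintype.card_fin]
            norm_num
  obtain ⟨y, _, hy2, hy3⟩ := tuple_of_cube f x J h hind
  exact ⟨y, hy2, by rw [hy3]; exact hcube⟩

/-- The size of the orbit of the elements of `Q` which fix the `P`-orbit of `x`. -/
theorem oc_st {x : Ω} {P Q : Subgroup G} (hPB : ∀ b ∈ B, ∀ p ∈ P, b * p * b⁻¹ ∈ P) (hP : P ≤ B)
    (hQ : Q ≤ B) :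
    oc P x * oc Q x ≤ oc B x * oc (st Q P x (fun b hb => hPB b (hQ hb))) x := by
  set U1 := st B P x hPB with hU1
  set J := st Q P x (fun b hb => hPB b (hQ hb)) with hJ
  have hne : ∀ X Y : Subgroup G, X.relIndex Y ≠ 0 := fun X Y =>
    Subgroup.FiniteIndex.index_ne_zero
  have hPU : P ≤ U1 := fun p hp => ⟨hP hp, p, hp, rfl⟩
  have h1 : oc U1 x = oc P x := by
    refine le_antisymm ?_ (oc_mono hPU x)
    refine Set.ncard_le_ncard ?_ (Set.toFinite _)
    rintro z ⟨u, hu, rfl⟩
    exact hu.2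
  have h2 : oc B x = oc P x * U1.relIndex B := by
    rw [← h1, oc_relIndex, oc_relIndex]
    have h3 : (MulAction.stabilizer G x).relIndex B =
        (MulAction.stabilizer G x ⊓ B).relIndex B := (Subgroup.inf_relIndex_right _ _).symm
    have h4 : MulAction.stabilizer G x ⊓ B ≤ U1 := by
      rintro g ⟨hg, hgB⟩
      refine ⟨hgB, ?_⟩
      rw [MulAction.mem_stabilizer_iff.1 hg]
      exact self_mem P x
    have h5 : U1 ≤ B := fun g hg => hg.1
    rw [h3, ← Subgroup.relIndex_mul_relIndex _ _ _ h4 h5]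
    congr 1
    have h6 : (MulAction.stabilizer G x ⊓ B) ⊓ U1 = MulAction.stabilizer G x ⊓ U1 := by
      ext g
      constructor
      · rintro ⟨⟨hg1, _⟩, hg3⟩
        exact ⟨hg1, hg3⟩
      · rintro ⟨hg1, hg3⟩
        exact ⟨⟨hg1, h5 hg3⟩, hg3⟩
    rw [← Subgroup.inf_relIndex_right (MulAction.stabilizer G x ⊓ B) U1, h6,
      Subgroup.inf_relIndex_right]
  have h3 : oc Q x = oc J x * U1.relIndex Q := by
    rw [oc_relIndex, oc_relIndex]
    have h4 : U1.relIndex Q = J.relIndex Q := by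
      have h5 : U1 ⊓ Q = J := by
        ext g
        constructor
        · rintro ⟨⟨_, hg2⟩, hg3⟩
          exact ⟨hg3, hg2⟩
        · rintro ⟨hg1, hg2⟩
          exact ⟨⟨hQ hg1, hg2⟩, hg1⟩
      rw [← Subgroup.inf_relIndex_right U1 Q, h5]
    have h6 : MulAction.stabilizer G x ⊓ Q ≤ J := by
      rintro g ⟨hg, hgQ⟩
      refine ⟨hgQ, ?_⟩
      rw [MulAction.mem_stabilizer_iff.1 hg]
      exact self_mem P x
    have h7 : J ≤ Q := fun g hg => hg.1
    rw [h4, ← Subgroup.inf_relIndex_right (MulAction.stabilizer G x) Q,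
      ← Subgroup.relIndex_mul_relIndex _ _ _ h6 h7]
    congr 1
    have h8 : (MulAction.stabilizer G x ⊓ Q) ⊓ J = MulAction.stabilizer G x ⊓ J := by
      ext g
      constructor
      · rintro ⟨⟨hg1, _⟩, hg3⟩
        exact ⟨hg1, hg3⟩
      · rintro ⟨hg1, hg3⟩
        exact ⟨⟨hg1, h7 hg3⟩, hg3⟩
    rw [← Subgroup.inf_relIndex_right (MulAction.stabilizer G x ⊓ Q) J, h8,
      Subgroup.inf_relIndex_right]
  have h4 : U1.relIndex Q ≤ U1.relIndex B := Subgroup.relIndex_le_of_le_right hQ (hne _ _)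
  calc oc P x * oc Q x = oc P x * (oc J x * U1.relIndex Q) := by rw [h3]
    _ ≤ oc P x * (oc J x * U1.relIndex B) :=
        Nat.mul_le_mul_left _ (Nat.mul_le_mul_left _ h4)
    _ = (oc P x * U1.relIndex B) * oc J x := by ring
    _ = oc B x * oc J x := by rw [← h2]

end

end Cf

end Pool.DynLehmer.LW
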