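import Pool.Agent.Lib.MP_2194ec_nt.LW.GrppB
import Pool.Agent.Lib.MP_2194ec_nt.LW.DefsHt

set_option autoImplicit false

/-!
# The row GRPQAH: large simple sections, with the clause for alternating groups
-/

namespace Pool.DynLehmer.LW
open scoped Classical

/-- A tuple with a saving `1 / A₁` has a saving `1 / (a * A₁)`. -/
theorem htup_up {G Ω V : Type} [Group G] [MulAction G Ω] [AddCommGroup V] [Module ℚ V]
    {f : Ω → V} {k₁ k₀ A₁ a C₁ C D : ℕ} (hD : 1 ≤ D) (hA : 1 ≤ A₁) (ha : 1 ≤ a) (hk : k₁ ≤ k₀)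
    (hC : C₁ ^ a + 1 ≤ C) (h : Htup G f k₁ A₁ C₁ D) : Htup G f k₀ (a * A₁) C D := by
  obtain ⟨m, y, hm3, hm, hy, hc⟩ := h
  refine ⟨m, y, hm3, hm.trans hk, hy, fun k ι hι hmk => ?_⟩
  have h1 := Pp.exp_up (a := a) hD (by omega) hA ha (hc k ι hι hmk)
  exact h1.trans (Nat.mul_le_mul_right _ hC)

/-- Row GRPQAH. -/
theorem grpqah (hq : GrpqhStatement) (hAlt : AlthStatement) : GrpqahStatement := by
  intro A hA
  obtain ⟨R₁, k₁, A₁, C₁, hA₁, h1⟩ := hq (A + 1) (by omega)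
  obtain ⟨C₂, h2⟩ := hAlt A hA R₁
  obtain ⟨R₂, hR₂⟩ : ∃ R₂ : ℕ, R₁ + 81 = R₂ := ⟨_, rfl⟩
  refine ⟨R₂ ^ (A + 1) + 1, max k₁ 3, A₁ * (2 * A), C₁ ^ (2 * A) + C₂ ^ A₁ + 1,
    Nat.one_le_iff_ne_zero.2 (by positivity), ?_⟩
  intro G Ω V _ _ _ _ _ _ ρ f hf hinj htr x hR
  obtain ⟨D, hD⟩ : ∃ D : ℕ, Fintype.card Ω = D := ⟨_, rfl⟩
  have hR1 : R₂ ≤ R₂ ^ (A + 1) := Nat.le_self_pow (by omega) _
  have h3 := h1 G Ω V ρ f hf hinj htr x (by omega)
  have h4 := h2 G Ω V ρ f hf hinj htr x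
  rw [hD] at hR h3 h4 ⊢
  have hDpos : 1 ≤ D := by omega
  obtain h3 | ⟨B₀, B, hn, hS, hi, h0, hb⟩ := h3
  · left
    have h5 := htup_up (a := 2 * A) hDpos hA₁ (by omega) (le_max_left k₁ 3)
      (C := C₁ ^ (2 * A) + C₂ ^ A₁ + 1) (by
        have : 0 ≤ C₂ ^ A₁ := Nat.zero_le _
        omega) h3
    rwa [mul_comm (2 * A) A₁] at h5
  · have hb' : D ^ A < (Nat.card (MulAction.orbit B x)) ^ (A + 1) := by
      rwa [Nat.add_sub_cancel] at hb
    have hDA : D ≤ D ^ A := Nat.le_self_pow (by omega) _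
    by_cases halt : ∀ (n : ℕ) (φ : B →* alternatingGroup (Fin n)), Function.Surjective φ →
        φ.ker = B₀.subgroupOf B → D ^ (A - 1) < n ^ A
    · right
      refine ⟨B₀, B, hn, hS, ?_, h0.trans (by omega), ?_, halt⟩
      · exact lt_of_le_of_lt (Nat.pow_le_pow_right hDpos (by omega)) hi
      · by_contra hcon
        push Not at hcon
        have h5 : (D ^ A) ^ A < ((Nat.card (MulAction.orbit B x)) ^ (A + 1)) ^ A :=
          Nat.pow_lt_pow_left hb' (by omega)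
        have h6 : ((Nat.card (MulAction.orbit B x)) ^ (A + 1)) ^ A ≤ (D ^ (A - 1)) ^ (A + 1) := by
          rw [← pow_mul, mul_comm, pow_mul]
          exact Nat.pow_le_pow_left hcon _
        have h7 : (D ^ (A - 1)) ^ (A + 1) ≤ (D ^ A) ^ A := by
          rw [← pow_mul, ← pow_mul]
          refine Nat.pow_le_pow_right hDpos ?_
          obtain ⟨a, rfl⟩ : ∃ a, A = a + 1 := ⟨A - 1, by omega⟩
          rw [Nat.add_sub_cancel]
          have h8 : (a + 1) * (a + 1) = a * (a + 1 + 1) + 1 := by ring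
          omega
        exact absurd (lt_of_lt_of_le h5 (h6.trans h7)) (lt_irrefl _)
    · left
      push Not at halt
      obtain ⟨n, φ, hφ, hker, hn'⟩ := halt
      have hlt0 : R₂ < Nat.card (MulAction.orbit B x) := by
        refine lt_of_pow_lt_pow_left₀ (A + 1) (Nat.zero_le _) ?_
        omega
      have h6 := h4 B₀ B hS.lt.le (fun g hg h hh => hS.nor₀ g hg h hh)
        (fun g hg h hh => hS.nor g hg h hh) (fun g hg h hh => hS.nrm g hg h hh) h0 (by omega)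
        (by omega) n φ hφ hker hn'
      exact htup_up (a := A₁) hDpos (by omega) hA₁ (le_max_right k₁ 3) (by
        have : 0 ≤ C₁ ^ (2 * A) := Nat.zero_le _
        omega) h6

end Pool.DynLehmer.LW
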