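import Pool.Agent.Lib.MP_2194ec_nt.LW.Grpq

set_option autoImplicit false

/-!
# Families of independent vectors all of whose halves have a small orbit
-/

namespace Pool.DynLehmer.LW
open scoped Classical

namespace Cf

section

variable {G Ω : Type} [Group G] [Finite G] [Finite Ω] [MulAction G Ω] {C : Subgroup G}

theorem sub_orb {m k : ℕ} (y : Fin m → Ω) (ι : Fin k → Fin m) :
    Nat.card (MulAction.orbit G (fun i => y (ι i))) ≤ Nat.card (MulAction.orbit G y) := by
  have hfin : Finite (MulAction.orbit G y) := Set.finite_range (fun g : G => g • y)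
  refine Nat.card_le_card_of_surjective (fun z : MulAction.orbit G y =>
    (⟨fun i => (z : Fin m → Ω) (ι i), ?_⟩ : MulAction.orbit G (fun i => y (ι i)))) ?_
  · obtain ⟨u, hu⟩ := z.2
    exact ⟨u, by rw [← hu]; rfl⟩
  · rintro ⟨_, u, rfl⟩
    exact ⟨⟨u • y, u, rfl⟩, rfl⟩

/-- A family of points of an orbit of `H`. -/
theorem fam_orb {x : Ω} {H W : Subgroup G} (hWx : ∀ w ∈ W, w • x = x)
    (hWH : ∀ w ∈ W, ∀ h ∈ H, w * h * w⁻¹ ∈ H) {k : ℕ} (hk : 1 ≤ k) (y : Fin k → Ω)
    (hy : ∀ i, y i ∈ Ob H x) :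
    Nat.card (MulAction.orbit G y) ≤ W.index * (oc H x) ^ (k - 1) := by
  obtain ⟨k, rfl⟩ : ∃ l, k = l + 1 := ⟨k - 1, by omega⟩
  rw [Nat.add_sub_cancel]
  obtain ⟨h0, hh0, h0x⟩ := hy 0
  have h1 : MulAction.orbit G y = MulAction.orbit G (h0⁻¹ • y) :=
    (MulAction.orbit_smul h0⁻¹ y).symm
  rw [h1]
  have h0' : (h0⁻¹ • y) 0 = x := by
    change h0⁻¹ • y 0 = x
    rw [← h0x, inv_smul_smul]
  have h3 := orb_le (h0⁻¹ • y) W (fun i => if i = 0 then {x} else Ob H x) (by
    intro w hw i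
    by_cases hi : i = 0
    · rw [if_pos hi, hi, h0', hWx w hw]
      rfl
    · rw [if_neg hi]
      obtain ⟨h, hh, hx⟩ := hy i
      refine ⟨w * (h0⁻¹ * h) * w⁻¹, hWH w hw _ (H.mul_mem (H.inv_mem hh0) hh), ?_⟩
      have hw2 : w⁻¹ • x = x := by rw [inv_smul_eq_iff, hWx w hw]
      change _ = w • h0⁻¹ • y i
      rw [mul_smul, hw2, mul_smul, mul_smul, hx])
  refine h3.trans (le_of_eq ?_)
  congr 1
  rw [Fin.prod_univ_succ, if_pos rfl, Set.ncard_singleton, one_mul]
  have h4 : ∀ i : Fin k, (if i.succ = 0 then ({x} : Set Ω) else Ob H x).ncard = oc H x := by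
    intro i
    rw [if_neg (Fin.succ_ne_zero i)]
    rfl
  rw [Finset.prod_congr rfl fun i _ => h4 i, Finset.prod_const, Finset.card_univ, Fintype.card_fin]

/-- Four independent vectors of an orbit of `H`. -/
theorem four (hGram : GramStatement) (hMod : ModtStatement) {U : Type}
    [AddCommGroup U] [Module ℚ U] (ρ : Representation ℚ G U) (f : Ω → U)
    (hf : ∀ (g : G) (x : Ω), f (g • x) = ρ g (f x)) (hinj : Function.Injective f) {x : Ω}
    {H W : Subgroup G} (hH : 3 ^ ((16 ^ 2) ^ 2) < oc H x) (hWx : ∀ w ∈ W, w • x = x)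
    (hWH : ∀ w ∈ W, ∀ h ∈ H, w * h * w⁻¹ ∈ H) :
    ∃ y : Fin 4 → Ω, LinearIndependent ℚ (fun i => f (y i)) ∧
      ∀ (k : ℕ) (ι : Fin k → Fin 4), 1 ≤ k →
        Nat.card (MulAction.orbit G (fun i => y (ι i))) ≤ W.index * (oc H x) ^ (k - 1) := by
  obtain ⟨h, hind⟩ := cube_ind hGram hMod 2 ρ f hf hinj x H hH
  have e : (Fin 2 → Bool) ≃ Fin 4 := Fintype.equivFinOfCardEq (by
    rw [Fintype.card_fun, Fintype.card_bool, Fintype.card_fin]
    norm_num)
  refine ⟨fun i => ((LW.cube h (e.symm i) : H) : G) • x, hind.comp _ e.symm.injective, ?_⟩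
  intro k ι hk
  exact fam_orb hWx hWH hk _ fun i => ⟨_, (LW.cube h (e.symm (ι i))).2, rfl⟩

/-- Two subgroups which commute modulo `C`: a cube of independent vectors. -/
theorem quadv (hGram : GramStatement) (hMod : ModtStatement) {U : Type}
    [AddCommGroup U] [Module ℚ U] (ρ : Representation ℚ G U) (f : Ω → U)
    (hf : ∀ (g : G) (x : Ω), f (g • x) = ρ g (f x)) (hinj : Function.Injective f)
    (hC : C.Normal) {x : Ω} {P Q W : Subgroup G}
    (hPQ : ∀ p ∈ P, ∀ q ∈ Q, q * p * q⁻¹ * p⁻¹ ∈ C)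
    (hPB : ∀ b ∈ Q, ∀ p ∈ P, b * p * b⁻¹ ∈ P)
    (hWx : ∀ w ∈ W, w • x = x) (hWP : ∀ w ∈ W, ∀ h ∈ P, w * h * w⁻¹ ∈ P)
    (hWQ : ∀ w ∈ W, ∀ h ∈ Q, w * h * w⁻¹ ∈ Q) {R n s : ℕ} (hCx : oc C x ≤ R)
    (hQ1 : 3 ^ ((16 ^ s) ^ 2) < oc (st Q P x hPB) x) (hn : oc (st Q P x hPB) x ≤ n) :
    ∃ y : Fin (2 ^ s) → Ω, LinearIndependent ℚ (fun i => f (y i)) ∧
      Nat.card (MulAction.orbit G y) ≤ n ^ s * W.index * R ^ 2 ^ s := by
  set J := st Q P x hPB with hJ
  obtain ⟨h, hind⟩ := cube_ind hGram hMod s ρ f hf hinj x J hQ1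
  have hWJ : ∀ w ∈ W, ∀ g ∈ J, w * g * w⁻¹ ∈ J := by
    rintro w hw g ⟨hg, p, hp, hpx⟩
    have hw' := hWx w hw
    have hw2 : w⁻¹ • x = x := by rw [inv_smul_eq_iff, hw']
    refine ⟨hWQ w hw g hg, w * p * w⁻¹, hWP w hw p hp, ?_⟩
    rw [mul_smul, hw2, mul_smul, hpx, mul_smul, hw2, mul_smul]
  -- the elements of `W` which fix the `h j x`
  let W2 : Subgroup G := W ⊓ ⨅ j, MulAction.stabilizer G (((h j : J) : G) • x)
  have hmemW2 : ∀ w, w ∈ W2 ↔ w ∈ W ∧ ∀ j, w • (((h j : J) : G) • x) = ((h j : J) : G) • x := by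
    intro w
    simp only [W2, Subgroup.mem_inf, Subgroup.mem_iInf, MulAction.mem_stabilizer_iff]
  have hW2 : W2.relIndex W ≤ n ^ s := by
    have hc : Nat.card (Fin s → Ob J x) ≤ n ^ s := by
      rw [Nat.card_fun, Nat.card_eq_fintype_card (α := Fin s), Fintype.card_fin]
      exact Nat.pow_le_pow_left hn s
    refine le_trans ?_ hc
    have hmem : ∀ (w : W) (j : Fin s), (w : G) • ((h j : J) : G) • x ∈ Ob J x := by
      intro w j
      have hw' := hWx w w.2
      have hw2 : (w : G)⁻¹ • x = x := by rw [inv_smul_eq_iff, hw']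
      refine ⟨(w : G) * ((h j : J) : G) * (w : G)⁻¹, hWJ w w.2 _ (h j).2, ?_⟩
      rw [mul_smul, hw2, mul_smul]
    refine ri_le _ _ (fun w => fun j => (⟨_, hmem w j⟩ : Ob J x)) ?_
    intro a b hab
    rw [hmemW2]
    refine ⟨W.mul_mem (W.inv_mem a.2) b.2, fun j => ?_⟩
    have h1 : (a : G) • ((h j : J) : G) • x = (b : G) • ((h j : J) : G) • x :=
      congrArg Subtype.val (congrFun hab j)
    rw [mul_smul, ← h1, inv_smul_smul]
  have hlist : ∀ w ∈ W, ∀ l : List J, (∀ g ∈ l, w • ((g : G) • x) = (g : G) • x) →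
      w • (((l.prod : J) : G) • x) ∈ Ob C (((l.prod : J) : G) • x) := by
    intro w hw l
    have hw' := hWx w hw
    have hw2 : w⁻¹ • x = x := by rw [inv_smul_eq_iff, hw']
    induction l with
    | nil =>
      intro _
      have h1 : (((([] : List J).prod : J) : G)) • x = x := by simp
      rw [h1, hw']
      exact self_mem C x
    | cons g l ih =>
      intro hl
      have hg := hl g (List.mem_cons_self ..)
      obtain ⟨c', hc', hc'x⟩ := ih fun g' hg' => hl g' (List.mem_cons_of_mem _ hg')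
      rw [List.prod_cons]
      obtain ⟨hq1, p, hp, hpx⟩ := (l.prod).2
      set g' : J := l.prod with hg'
      obtain ⟨u, hu⟩ : ∃ u : G, u = (g : G)⁻¹ * (w * (g : G) * w⁻¹) := ⟨_, rfl⟩
      have huQ : u ∈ Q := by
        rw [hu]
        exact Q.mul_mem (Q.inv_mem g.2.1) (hWQ w hw _ g.2.1)
      have hux : u • x = x := by
        rw [hu, mul_smul, mul_smul, hw2, mul_smul, inv_smul_eq_iff, hg]
      have hc := hPQ p hp u huQ
      obtain ⟨c, hcdef⟩ : ∃ c : G, c = u * p * u⁻¹ * p⁻¹ := ⟨_, rfl⟩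
      rw [← hcdef] at hc
      have e2 : u • (g' : G) • x = c • (g' : G) • x := by
        rw [← hpx]
        have f1 : u • p • x = (c * p * u) • x := by
          rw [← mul_smul, hcdef]
          congr 1
          group
        rw [f1, mul_smul, hux, mul_smul]
      refine ⟨(g : G) * (u * c' * u⁻¹ * c) * (g : G)⁻¹,
        hC.conj_mem _ (C.mul_mem (hC.conj_mem c' hc' u) hc) _, ?_⟩
      -- the computation
      have e3 : w • (((g * g' : J) : G) • x) = (g : G) • u • w • (g' : G) • x := by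
        rw [Subgroup.coe_mul, hu, ← mul_smul, ← mul_smul, ← mul_smul, ← mul_smul]
        congr 1
        group
      rw [e3, ← hc'x]
      have e4 : u • c' • (g' : G) • x = (u * c' * u⁻¹) • u • (g' : G) • x := by
        rw [← mul_smul, ← mul_smul, ← mul_smul, ← mul_smul]
        congr 1
        group
      rw [e4, e2, Subgroup.coe_mul, ← mul_smul, ← mul_smul, ← mul_smul, ← mul_smul]
      congr 1
      group
  have hcube : Nat.card (MulAction.orbit G (fun e : Fin s → Bool =>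
      ((LW.cube h e : J) : G) • x)) ≤ n ^ s * W.index * R ^ 2 ^ s := by
    refine (orb_le (fun e : Fin s → Bool => ((LW.cube h e : J) : G) • x) W2
      (fun e => Ob C (((LW.cube h e : J) : G) • x)) ?_).trans ?_
    · intro w hw e
      rw [hmemW2] at hw
      refine hlist w hw.1 _ ?_
      intro g hg
      rw [List.mem_ofFn] at hg
      obtain ⟨i, rfl⟩ := hg
      by_cases he : e i = true
      · rw [if_pos he]
        exact hw.2 i
      · rw [if_neg he]
        have h1 : ((1 : J) : G) • x = x := by simp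
        rw [h1]
        exact hWx w hw.1
    · have h1 : W2.index ≤ n ^ s * W.index := by
        rw [← Subgroup.relIndex_mul_index (inf_le_left : W2 ≤ W)]
        exact Nat.mul_le_mul_right _ hW2
      refine Nat.mul_le_mul h1 ?_
      calc ∏ e : Fin s → Bool, (Ob C (((LW.cube h e : J) : G) • x)).ncard ≤
          ∏ _e : Fin s → Bool, R := by
            refine Finset.prod_le_prod' fun e _ => ?_
            have h2 : oc C (((LW.cube h e : J) : G) • x) = oc C x :=
              oc_smul (B := ⊤) (fun g _ u hu => hC.conj_mem u hu g) (Subgroup.mem_top _) x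
            exact h2.le.trans hCx
        _ = R ^ 2 ^ s := by
            rw [Finset.prod_const, Finset.card_univ, Fintype.card_fun, Fintype.card_bool,
              Fintype.card_fin]
  obtain ⟨y, _, hy2, hy3⟩ := tuple_of_cube f x J h hind
  exact ⟨y, hy2, by rw [hy3]; exact hcube⟩

end

end Cf

end Pool.DynLehmer.LW
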