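import Pool.Agent.Lib.MP_2194ec_nt.LW.GrpqhA

set_option autoImplicit false

/-!
# Families of independent vectors all of whose halves have a small orbit, or a large simple section
-/

namespace Pool.DynLehmer.LW
open scoped Classical

namespace Cf

section

variable {G Ω : Type} [Group G] [Finite G] [Fintype Ω] [MulAction G Ω]

/-- The structure of the proof: five kinds of families, or a simple section. -/
theorem qcorev (hGram : GramStatement) (hMod : ModtStatement) {s R1 : ℕ} (hs : 4 ≤ s)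
    (hR1 : 3 ^ ((16 ^ s) ^ 2) ≤ R1) {U : Type} [AddCommGroup U] [Module ℚ U]
    (ρ : Representation ℚ G U) (f : Ω → U) (hf : ∀ (g : G) (x : Ω), f (g • x) = ρ g (f x))
    (hinj : Function.Injective f) (htr : MulAction.IsPretransitive G Ω) (x : Ω) (A : ℕ)
    (hD : R1 ^ 4 < Fintype.card Ω) :
    ∃ r : ℕ, 2 ^ r ≤ (Fintype.card Ω) ^ 2 ∧
      ((∃ y : Fin (2 ^ 4) → Ω, LinearIndependent ℚ (fun i => f (y i)) ∧
          Nat.card (MulAction.orbit G y) ≤
            (Fintype.card Ω) ^ 4 * ((r + 1) ^ 2 * Fintype.card Ω) * R1 ^ 2 ^ 4) ∨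
      (∃ y : Fin 4 → Ω, LinearIndependent ℚ (fun i => f (y i)) ∧
        ∀ (k : ℕ) (ι : Fin k → Fin 4), 1 ≤ k →
          Nat.card (MulAction.orbit G (fun i => y (ι i))) ≤
            ((r + 1) ^ R1 * Fintype.card Ω) * ((R1 ^ R1) ^ R1 * R1) ^ (k - 1)) ∨
      (∃ m : ℕ, m ^ 4 ≤ (Fintype.card Ω) ^ 3 ∧
        ∃ y : Fin 4 → Ω, LinearIndependent ℚ (fun i => f (y i)) ∧
        ∀ (k : ℕ) (ι : Fin k → Fin 4), 1 ≤ k →
          Nat.card (MulAction.orbit G (fun i => y (ι i))) ≤
            ((r + 1) * Fintype.card Ω) * m ^ (k - 1)) ∨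
      (∃ m : ℕ, m ^ A ≤ (Fintype.card Ω) ^ (A - 1) ∧
        ∃ y : Fin 4 → Ω, LinearIndependent ℚ (fun i => f (y i)) ∧
        ∀ (k : ℕ) (ι : Fin k → Fin 4), 1 ≤ k →
          Nat.card (MulAction.orbit G (fun i => y (ι i))) ≤ Fintype.card Ω * m ^ (k - 1)) ∨
      (∃ y : Fin (2 ^ s) → Ω, LinearIndependent ℚ (fun i => f (y i)) ∧
          Nat.card (MulAction.orbit G y) ≤
            ((Fintype.card Ω) ^ A) ^ s * Fintype.card Ω * R1 ^ 2 ^ s) ∨
      (∃ B₀ B : Subgroup G, B₀.Normal ∧ Sse (MulAction.stabilizer G x) B₀ B ∧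
        (Fintype.card Ω) ^ A < B₀.relIndex B ∧ oc B₀ x ≤ R1 ∧
        (Fintype.card Ω) ^ (A - 1) < (oc B x) ^ A)) := by
  have h2R : ∀ t : ℕ, t ≤ s → 3 ^ ((16 ^ t) ^ 2) ≤ R1 := fun t ht =>
    (Nat.pow_le_pow_right (by norm_num)
      (Nat.pow_le_pow_left (Nat.pow_le_pow_right (by norm_num) ht) 2)).trans hR1
  have hR1pos : 1 ≤ R1 := (Nat.one_le_pow _ _ (by norm_num)).trans (h2R 1 (by omega))
  set D := Fintype.card Ω with hDdef
  have hR1D : R1 < D := lt_of_le_of_lt (Nat.le_self_pow (by norm_num) R1) hD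
  have hDpos : 1 ≤ D := by omega
  have hstabG : (MulAction.stabilizer G x).index = D := by
    rw [MulAction.index_stabilizer_of_transitive, Nat.card_eq_fintype_card]
  have htop := oc_top htr x
  have hocD : ∀ X : Subgroup G, oc X x ≤ D := fun X => by
    rw [hDdef, ← htop]
    exact oc_mono le_top x
  obtain ⟨B, ⟨hBn, hBx⟩, hBmin⟩ := Set.Finite.exists_minimal
    (Set.toFinite {N : Subgroup G | N.Normal ∧ R1 < oc N x})
    ⟨⊤, inferInstance, by rw [htop]; exact hR1D⟩
  have hbot : (⊥ : Subgroup G) < B := by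
    rw [bot_lt_iff_ne_bot]
    rintro rfl
    have h2 : Ob (⊥ : Subgroup G) x ⊆ {x} := by
      rintro z ⟨u, hu, rfl⟩
      rw [Subgroup.mem_bot] at hu
      rw [hu, one_smul]
      rfl
    have h3 : oc (⊥ : Subgroup G) x ≤ 1 := by
      refine (Set.ncard_le_ncard h2 (Set.toFinite _)).trans ?_
      rw [Set.ncard_singleton]
    omega
  obtain ⟨C, ⟨hCn, hCB⟩, hCmax⟩ := Set.Finite.exists_maximal
    (Set.toFinite {N : Subgroup G | N.Normal ∧ N < B}) ⟨⊥, inferInstance, hbot⟩
  have hchf : Chf C B := by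
    refine ⟨hCn, hBn, hCB, ?_⟩
    intro N hN hCN hNB
    by_contra hne
    have h2 := hCmax (⟨hN, lt_of_le_of_ne hNB hne⟩ : N ∈ {N : Subgroup G | N.Normal ∧ N < B})
      hCN.le
    exact absurd hCN (not_lt_of_ge h2)
  have hCx : oc C x ≤ R1 := by
    by_contra hcon
    have h2 := hBmin (⟨hCn, not_le.1 hcon⟩ :
      C ∈ {N : Subgroup G | N.Normal ∧ R1 < oc N x}) hCB.le
    exact absurd hCB (not_lt_of_ge h2)
  have hinv : ∀ w ∈ MulAction.stabilizer G x, w • x = x := fun w hw =>
    MulAction.mem_stabilizer_iff.1 hw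
  by_cases hab : B ≤ cen C B
  · -- the abelian case
    have hCnor : ∀ g ∈ B, ∀ u ∈ C, g * u * g⁻¹ ∈ C := fun g _ c hc => hCn.conj_mem c hc g
    have hLH : ∀ b ∈ B, ∀ a ∈ st B C x hCnor, b * a * b⁻¹ ∈ st B C x hCnor := by
      intro b hb a ha
      have h2 : C ≤ st B C x hCnor := fun c hc => ⟨hCB.le hc, c, hc, rfl⟩
      have h3 := mem_cen.1 (hab hb) a ha.1
      have h4 := Subgroup.mul_mem _ (h2 h3) ha
      simpa [mul_assoc] using h4
    have hWL : ∀ w ∈ MulAction.stabilizer G x, ∀ a ∈ st B C x hCnor,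
        w * a * w⁻¹ ∈ st B C x hCnor := by
      rintro w hw a ⟨haB, c, hc, hcx⟩
      refine ⟨hBn.conj_mem a haB w, w * c * w⁻¹, hCn.conj_mem c hc w, ?_⟩
      have hw' : w⁻¹ • x = x := by
        rw [inv_smul_eq_iff]
        exact (MulAction.mem_stabilizer_iff.1 hw).symm
      rw [mul_smul, hw', mul_smul, hcx, mul_smul, hw', mul_smul]
    have hLx : oc (st B C x hCnor) x ≤ R1 := by
      refine (Set.ncard_le_ncard ?_ (Set.toFinite _)).trans hCx
      rintro z ⟨a, ha, rfl⟩
      exact ha.2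
    have hidx : (st B C x hCnor).relIndex B ≤ D := by
      refine le_trans ?_ (hocD B)
      have h3 : oc B x = Nat.card (Ob B x) := rfl
      rw [h3]
      refine ri_le _ _ (fun b => (⟨(b : G) • x, b, b.2, rfl⟩ : Ob B x)) ?_
      intro a b hab'
      have h4 : (a : G) • x = (b : G) • x := congrArg Subtype.val hab'
      refine ⟨B.mul_mem (B.inv_mem a.2) b.2, ?_⟩
      rw [mul_smul, ← h4, inv_smul_smul]
      exact self_mem C x
    obtain ⟨h, hind⟩ := cube_ind hGram hMod 4 ρ f hf hinj x B (lt_of_le_of_lt (h2R 4 hs) hBx)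
    have horb := cube_orb (L := st B C x hCnor) (H := B) (W := MulAction.stabilizer G x) (x := x)
      hLH hWL (fun w _ b hb => hBn.conj_mem b hb w) hinv (B := R1) (by
        rintro z ⟨u, hu, rfl⟩
        rw [oc_smul hLH hu]
        exact hLx) h
    obtain ⟨y, _, hy2, hy3⟩ := tuple_of_cube f x B h hind
    refine ⟨0, Nat.one_le_pow _ _ hDpos, Or.inl ⟨y, hy2, ?_⟩⟩
    rw [hy3]
    refine horb.trans ?_
    rw [hstabG]
    have h5 : ((0 + 1) ^ 2 * D) = D := by ring
    rw [h5]
    exact Nat.mul_le_mul_right _ (Nat.mul_le_mul_right _ (Nat.pow_le_pow_left hidx 4))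
  · -- the non-abelian case
    have hCnorm : C.Normal := hCn
    have hrel : 2 ^ (rel C B x).card ≤ D ^ 2 :=
      (rel_card hchf hab x).trans (Nat.pow_le_pow_left (hocD B) 2)
    refine ⟨(rel C B x).card, hrel, ?_⟩
    set r := (rel C B x).card with hr
    -- the index of `Wf I x`
    have hWidx : ∀ (I : Finset (Subgroup G)) (t : ℕ), I ⊆ rel C B x → I.card ≤ t →
        (Wf I x).index ≤ (r + 1) ^ t * D := by
      intro I t hI ht
      have h1 : Wf I x ≤ MulAction.stabilizer G x := fun w hw => hw.1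
      rw [← Subgroup.relIndex_mul_index h1, hstabG]
      refine Nat.mul_le_mul_right _ ((Wf_idx hchf hI).trans ?_)
      exact (Nat.pow_le_pow_left (Nat.le_succ _) _).trans
        (Nat.pow_le_pow_right (Nat.succ_pos _) ht)
    -- a single member with a small orbit
    have hone : ∀ S ∈ rel C B x, R1 < oc S x → (oc S x) ^ 4 ≤ D ^ 3 →
        ∃ m : ℕ, m ^ 4 ≤ D ^ 3 ∧
        ∃ y : Fin 4 → Ω, LinearIndependent ℚ (fun i => f (y i)) ∧
        ∀ (k : ℕ) (ι : Fin k → Fin 4), 1 ≤ k →
          Nat.card (MulAction.orbit G (fun i => y (ι i))) ≤ ((r + 1) * D) * m ^ (k - 1) := by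
      intro S hS hSx hS4
      obtain ⟨y, hy1, hy2⟩ := four hGram hMod ρ f hf hinj (x := x) (H := S) (W := Wf {S} x)
        (lt_of_le_of_lt (h2R 2 (by omega)) hSx) (fun w hw => hw.1) (Wf_nor (Finset.mem_singleton_self S))
      refine ⟨oc S x, hS4, y, hy1, fun k ι hk => (hy2 k ι hk).trans (Nat.mul_le_mul_right _ ?_)⟩
      have h1 := hWidx {S} 1 (Finset.singleton_subset_iff.2 hS) (by simp)
      rwa [pow_one] at h1
    by_cases hbig : ∃ S ∈ rel C B x, R1 < oc S x
    · obtain ⟨S, hS, hSx⟩ := hbig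
      have hST := rel_sub x hS
      have hSm := mem_TT.1 hST
      by_cases hS4 : (oc S x) ^ 4 ≤ D ^ 3
      · exact Or.inr (Or.inr (Or.inl (hone S hS hSx hS4)))
      by_cases htwo : ∃ S' ∈ rel C B x, S' ≠ S ∧ R1 < oc S' x
      · obtain ⟨S', hS', hne, hSx'⟩ := htwo
        have hST' := rel_sub x hS'
        have hSm' := mem_TT.1 hST'
        by_cases hS4' : (oc S' x) ^ 4 ≤ D ^ 3
        · exact Or.inr (Or.inr (Or.inl (hone S' hS' hSx' hS4')))
        -- two members with a large orbit
        left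
        have hPB := hSm.1.2.2
        have hoc := oc_st (x := x) hPB hSm.1.2.1 hSm'.1.2.1
        have hJ : R1 < oc (st S' S x (fun b hb => hPB b (hSm'.1.2.1 hb))) x := by
          set j := oc (st S' S x (fun b hb => hPB b (hSm'.1.2.1 hb))) x with hj
          have h1 : oc S x * oc S' x ≤ D * j := hoc.trans (Nat.mul_le_mul_right _ (hocD B))
          by_contra hcon
          have h2 : j ≤ R1 := not_lt.1 hcon
          have h3 : (oc S x * oc S' x) ^ 4 ≤ D ^ 4 * R1 ^ 4 := by
            rw [← mul_pow]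
            exact Nat.pow_le_pow_left (h1.trans (Nat.mul_le_mul_left _ h2)) 4
          have h4 : D ^ 3 * D ^ 3 ≤ (oc S x * oc S' x) ^ 4 := by
            rw [mul_pow]
            exact Nat.mul_le_mul (not_le.1 hS4).le (not_le.1 hS4').le
          have h5 : D ^ 4 * R1 ^ 4 < D ^ 4 * D ^ 2 := by
            refine Nat.mul_lt_mul_of_pos_left ?_ (by positivity)
            refine lt_of_lt_of_le hD ?_
            exact Nat.le_self_pow (by norm_num) D
          have h6 : D ^ 3 * D ^ 3 = D ^ 4 * D ^ 2 := by ring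
          omega
        obtain ⟨y, hy1, hy2⟩ := quadv hGram hMod ρ f hf hinj hCn (x := x) (P := S) (Q := S')
          (W := Wf {S, S'} x) (s := 4)
          (fun p hp q hq => mem_cen.1 (le_cen_of_ne hST' hST hne hq) p hp)
          (fun b hb => hPB b (hSm'.1.2.1 hb)) (fun w hw => hw.1)
          (Wf_nor (by simp)) (Wf_nor (by simp)) hCx (lt_of_le_of_lt (h2R 4 hs) hJ) (hocD _)
        refine ⟨y, hy1, hy2.trans (Nat.mul_le_mul_right _ (Nat.mul_le_mul_left _ ?_))⟩
        refine hWidx {S, S'} 2 ?_ Finset.card_le_two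
        intro T hT
        rcases Finset.mem_insert.1 hT with rfl | hT
        · exact hS
        · rw [Finset.mem_singleton.1 hT]
          exact hS'
      · -- a single member with a large orbit
        push Not at htwo
        have hnor : ∀ g ∈ MulAction.stabilizer G x, ∀ h ∈ S, g * h * g⁻¹ ∈ S := by
          intro g hg h hh
          have h1 : cj g S = S := by
            by_contra hcon
            have h2 := htwo (cj g S) (rel_cj hchf (hinv g hg) hS) hcon
            rw [oc_cj (hinv g hg)] at h2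
            omega
          have h2 := conj_mem_cj (g := g) hh
          rwa [h1] at h2
        by_cases hSA : (oc S x) ^ A ≤ D ^ (A - 1)
        · obtain ⟨y, hy1, hy2⟩ := four hGram hMod ρ f hf hinj (x := x) (H := S)
            (W := MulAction.stabilizer G x) (lt_of_le_of_lt (h2R 2 (by omega)) hSx) hinv hnor
          refine Or.inr (Or.inr (Or.inr (Or.inl ⟨oc S x, hSA, y, hy1, ?_⟩)))
          rwa [hstabG] at hy2
        by_cases hSI : C.relIndex S ≤ D ^ A
        · refine Or.inr (Or.inr (Or.inr (Or.inr (Or.inl ?_))))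
          obtain ⟨h, hind⟩ := cube_ind hGram hMod s ρ f hf hinj x S (lt_of_le_of_lt hR1 hSx)
          have horb := cube_orb (L := C) (H := S) (W := MulAction.stabilizer G x) (x := x)
            (fun h _ a ha => hCn.conj_mem a ha h) (fun w _ a ha => hCn.conj_mem a ha w) hnor hinv
            (B := R1) (by
              rintro z ⟨u, hu, rfl⟩
              rw [oc_smul (B := ⊤) (fun g _ u hu => hCn.conj_mem u hu g) (Subgroup.mem_top _)]
              exact hCx) h
          obtain ⟨y, _, hy2, hy3⟩ := tuple_of_cube f x S h hind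
          refine ⟨y, hy2, ?_⟩
          rw [hy3]
          refine horb.trans ?_
          rw [hstabG]
          exact Nat.mul_le_mul_right _ (Nat.mul_le_mul_right _ (Nat.pow_le_pow_left hSI s))
        · refine Or.inr (Or.inr (Or.inr (Or.inr (Or.inr
            ⟨C, S, hCn, ?_, not_le.1 hSI, hCx, not_le.1 hSA⟩))))
          refine ⟨hSm.1.1, fun g _ h hh => hCn.conj_mem h hh g, hnor,
            fun g _ h hh => hCn.conj_mem h hh g, ?_, ?_⟩
          · intro N hCN hNS hN
            rcases smpl hchf hST hCN hNS hN with h1 | h1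
            · exact Or.inl (le_antisymm h1 hCN)
            · exact Or.inr (le_antisymm hNS h1)
          · have h1 := nonab hchf hab hST
            by_contra hcon
            push Not at hcon
            exact h1 fun g hg => mem_cen.2 fun h hh => hcon g hg h hh
    · -- all members have a small orbit
      push Not at hbig
      right
      left
      obtain ⟨I, hIrel, hIt, hIx⟩ := choose_I hchf x hBx (t := R1) Nat.lt_two_pow_self
      have hIT : I ⊆ TT C B := hIrel.trans (rel_sub x)
      have hT : oc (T C I) x ≤ (R1 ^ R1) ^ R1 * R1 := by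
        refine (oc_le_mul (x := x) (le_T (C := C) (J := I))).trans ?_
        refine Nat.mul_le_mul ?_ hCx
        refine (idxJ hchf I hIT (fun S hS => ker_idx hchf (hIrel hS)
          (hbig S (hIrel hS)))).trans ?_
        exact Nat.pow_le_pow_right (Nat.one_le_pow _ _ hR1pos) hIt
      obtain ⟨y, hy1, hy2⟩ := four hGram hMod ρ f hf hinj (x := x) (H := T C I)
        (W := Wf I x) (lt_of_le_of_lt (h2R 2 (by omega)) hIx) (fun w hw => hw.1) (by
          intro w hw
          refine T_conj (fun c hc => hCn.conj_mem c hc w) ?_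
          intro S hS s' hs'
          exact mem_le_T hS (Wf_nor hS w hw s' hs'))
      exact ⟨y, hy1, fun k ι hk => (hy2 k ι hk).trans (Nat.mul_le_mul (hWidx I R1 hIrel hIt)
        (Nat.pow_le_pow_left hT _))⟩

end

end Cf

end Pool.DynLehmer.LW
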