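import Pool.Agent.Lib.MP_2194ec_nt.GAL.R.Bih
import Pool.Agent.Lib.MP_2194ec_nt.GAL.R.Lev
import Pool.Agent.Lib.MP_2194ec_nt.LP.Cls
import Pool.Agent.Lib.MP_2194ec_nt.LW.AllVh
import Pool.Agent.Lib.MP_2194ec_nt.LW.Clsk
import Pool.Agent.Lib.MP_2194ec_nt.LW.Defs2
import Pool.Agent.Lib.MP_2194ec_nt.LW.DefsVH
import Pool.Agent.Lib.MP_2194ec_nt.LW.Exc
import Pool.Agent.Lib.MP_2194ec_nt.LW.ExplVH
import Pool.Agent.Lib.MP_2194ec_nt.LW.Finy
import Pool.Agent.Lib.MP_2194ec_nt.LW.Gfin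
import Pool.Agent.Lib.MP_2194ec_nt.LW.Vhfin

set_option autoImplicit false

/-!
# The dynamical Lehmer bound for one given map: statements
-/

namespace Pool.DynLehmer.LW
open MvPolynomial NumberField Filter Topology Pool.DynLehmer Pool.DynLehmer.SB Pool.DynLehmer.SP
  Pool.DynLehmer.GS Pool.DynLehmer.LP
open scoped Classical

/-- The conclusion of row CNTU for a given map: finitely many periodic forms of bounded degree
over the algebraic closure. -/
def CntuF (K : Type) [Field K] (F : Fin 2 → MvPolynomial (Fin 2) K) : Prop :=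
  ∀ e : ℕ, ∃ S : Finset (MvPolynomial (Fin 2 ⊕ Fin 2) (AlgebraicClosure K)),
    ∀ G, PerForm (fun i => map (algebraMap K (AlgebraicClosure K)) (F i)) e G →
      ∃ G' ∈ S, Associated G G'

/-- The conclusion of row CLSK for a given map. -/
def ClskF (K : Type) [Field K] (q : ℕ) (F : Fin 2 → MvPolynomial (Fin 2) K) : Prop :=
  ∀ k : ℕ, ∀ Fz : (Fin k → Fin 2) → MvPolynomial (Fin k → Fin 2) K,
    (∀ I, (Fz I).IsHomogeneous q) →
    (∀ I, bind₁ (segX K k) (Fz I) = bind₁ (FX F k) (segX K k I)) →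
    ∀ I : Ideal (MvPolynomial (Fin k → Fin 2) K), I.IsPrime → HomI I → ∀ m : ℕ, 1 ≤ m →
    (∀ f, f ∈ I ↔ (bind₁ Fz : MvPolynomial (Fin k → Fin 2) K →ₐ[K]
      MvPolynomial (Fin k → Fin 2) K)^[m] f ∈ I) →
    (∀ f, bind₁ (segX K k) f = 0 → f ∈ I) →
    (∃ f ∈ I, bind₁ (segX K k) f ≠ 0) →
    ∀ (N : Type) [Field N] [Algebra K N] (y : Fin k → Fin 2 → N), (∀ i, y i ≠ 0) →
    (∀ i, WandP F (y i)) →
    (∀ (f : MvPolynomial (Fin k → Fin 2) K) (n : ℕ), f.IsHomogeneous n → f ∈ I →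
      aeval (segk y) f = 0) →
    ∃ i i' : Fin k, i ≠ i' ∧ ∃ (e : ℕ) (G : MvPolynomial (Fin 2 ⊕ Fin 2) K),
      PerForm F e G ∧ GS.ev (y i) (y i') G = 0

/-- The conclusion of Theorem Y for a given map. -/
def YF (K : Type) [Field K] (p s : ℕ) (F : Fin 2 → MvPolynomial (Fin 2) K) : Prop :=
    ∀ k₀ : ℕ, ∀ δ : ℝ, 0 < δ →
    ∃ c : ℝ, 0 < c ∧ ∀ (N : Type) [Field N] [NumberField N] [Algebra K N] (a : N),
      WandP F ![a, 1] →
      (∀ n : ℕ, 1 / δ < (dg K ((gAct F N)^[n] ![a, 1]) : ℝ) →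
        ((p ^ s : ℕ) : ℝ) ^ n * (dg K ((gAct F N)^[n] ![a, 1]) : ℝ) ^ (1 - δ) ≤ dg K ![a, 1] →
        ∃ (k : ℕ) (b : Fin k → N), 2 ≤ k ∧ k ≤ k₀ ∧ (∃ i, b i = a) ∧
          (∀ i, Polynomial.aeval (b i) (minpoly K a) = 0) ∧
          (((p ^ s : ℕ) : ℝ) ^ n *
              (dgk K (fun i => (gAct F N)^[n] ![b i, 1]) : ℝ) ^ (1 - δ) ≤
              dgk K (fun i => ![b i, 1]) →
            ((p ^ s : ℕ) : ℝ) ^ n *
              (dgk K (fun i => (gAct F N)^[n] ![b i, 1]) : ℝ) ^ (1 / (k : ℝ) + δ) ≤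
              dg K ![a, 1]) ∧
          ∀ i i', i ≠ i' → ∀ m : ℕ,
            ((p ^ s : ℕ) : ℝ) ^ m ≤ (dg K ((gAct F N)^[n] ![a, 1]) : ℝ) ^ δ →
            ∀ (e : ℕ) (G : MvPolynomial (Fin 2 ⊕ Fin 2) K), PerForm F e G →
              GS.ev ((gAct F N)^[n + m] ![b i, 1]) ((gAct F N)^[n + m] ![b i', 1]) G ≠ 0) →
      ∃ h : ℝ, HasHt (p ^ s) F ![a, 1] h ∧ c / (dg K ![a, 1] : ℝ) ≤ h

/-- The conclusion of row CLSF for a given map and a given bound. -/
def ClsfF (K : Type) [Field K] (p s : ℕ) (F : Fin 2 → MvPolynomial (Fin 2) K) (R : ℕ) : Prop :=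
  ∀ (N : Type) [Field N] [NumberField N] [Algebra K N] (P : Fin 2 → N) (h : ℝ), P ≠ 0 →
      WandP F P → 0 < h → HasHt (p ^ s) F P h → ∀ (μ : ℕ) (T : Finset (Fin 2 → N)),
      (∀ P' ∈ T, P' ≠ 0 ∧ WandP F P' ∧ HasHt (p ^ s) F P' h ∧
        ∃ (m e : ℕ) (G : MvPolynomial (Fin 2 ⊕ Fin 2) K), m ≤ μ ∧ PerForm F e G ∧
          GS.ev ((gAct F N)^[m] P) ((gAct F N)^[m] P') G = 0) →
      (T.image fun P' => pr ((gAct F N)^[μ] P')).card ≤ R

/-- The conclusion of row EXC for a given map and a given bound. -/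
def ExcF (K : Type) [Field K] [NumberField K] (F : Fin 2 → MvPolynomial (Fin 2) K) (R : ℕ) : Prop :=
      ∀ (N : Type) [Field N] [NumberField N] [Algebra K N] [IsGalois K N] (x : Fin 2 → N),
      x ≠ 0 → WandP F x → ∀ n : ℕ, ∃ E : Pt N → Finset (Pt N),
        (∀ y ∈ orb (N ≃ₐ[K] N) (nz ((gAct F N)^[n] x)), (E y).card ≤ R ∧ y ∈ E y ∧
          (∀ y' ∈ E y, y' ∈ orb (N ≃ₐ[K] N) (nz ((gAct F N)^[n] x)) ∧ y ∈ E y') ∧
          ∀ (g : N ≃ₐ[K] N) (y' : Pt N), y' ∈ E y → g • y' ∈ E (g • y)) ∧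
        ∀ σ τ : N ≃ₐ[K] N,
          nz ((gAct F N)^[n] (gal τ x)) ∉ E (nz ((gAct F N)^[n] (gal σ x))) →
          ∀ m ≤ n, ∀ (e : ℕ) (G : MvPolynomial (Fin 2 ⊕ Fin 2) K), PerForm F e G →
            GS.ev ((gAct F N)^[m] (gal σ x)) ((gAct F N)^[m] (gal τ x)) G ≠ 0

/-- The conclusion of Theorem VH for a given map and a given bound. -/
def VhF (Z : ∀ (G : Type) [Group G], Subgroup G → ℕ → ℕ → ℕ → Prop) (K : Type) [Field K]
    [NumberField K] (p s : ℕ) (F : Fin 2 → MvPolynomial (Fin 2) K) (R : ℕ) : Prop :=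
  ∀ A : ℕ, 1 ≤ A →
    ∃ (R' : ℕ) (c : ℝ), 0 < c ∧
    ∀ (N : Type) [Field N] [NumberField N] [Algebra K N] [IsGalois K N] (a : N),
      WandP F ![a, 1] →
      (∃ h : ℝ, HasHt (p ^ s) F ![a, 1] h ∧ c / (dg K ![a, 1] : ℝ) ≤ h) ∨
      ∃ n : ℕ, A < dg K ((gAct F N)^[n] ![a, 1]) ∧
        ((p ^ s) ^ n) ^ A * (dg K ((gAct F N)^[n] ![a, 1])) ^ (A - 1) ≤ (dg K ![a, 1]) ^ A ∧
        Atr (G := N ≃ₐ[K] N) (nz ((gAct F N)^[n] ![a, 1])) A R ∧
        Z (N ≃ₐ[K] N)
            (MulAction.stabilizer (N ≃ₐ[K] N) (nz ((gAct F N)^[n] ![a, 1]))) A R R' ∧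
        ∀ H : Subgroup (N ≃ₐ[K] N),
          ¬ SecU H (nz ((gAct F N)^[n] ![a, 1])) (dg K ((gAct F N)^[n] ![a, 1])) A R ∧
          ¬ (R < Nat.card (MulAction.orbit H (nz ((gAct F N)^[n] ![a, 1]))) ∧
            SecP H (nz ((gAct F N)^[n] ![a, 1])) A)

end Pool.DynLehmer.LW

set_option linter.unusedSectionVars false

/-!
# Invariant subvarieties for one given map
-/

namespace Pool.DynLehmer.LW
open MvPolynomial NumberField Pool.DynLehmer Pool.DynLehmer.GS
open scoped Classical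

open Cl

theorem clskF (perp : PerpStatement) (hypk : HypkStatement) (trd : TrdStatement)
    (K : Type) [Field K] [NumberField K] (p s : ℕ) (v : FinitePlace K)
    (F : Fin 2 → MvPolynomial (Fin 2) K) (hR : HypR p s v F) (cntu : CntuF K F) :
    ClskF K (p ^ s) F := by
  intro k Fz hz hFz I hI hH m hm hinv hseg hrel N _ _ y hy hw hvan
  have hF : Mor (p ^ s) F := mor K p s v F hR
  have hq : 2 ≤ p ^ s := hR.prime.two_le.trans (Nat.le_self_pow (by have := hR.pos; omega) p)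
  obtain ⟨E, _, _, ξ, gp⟩ := exists_gp hF hz hFz hI hH hinv hseg hrel hy hvan
  obtain ⟨g, G, hirr, hG, hG0, hmin⟩ := exists_min gp.rel
  have hdvd : G ∣ (bind₁ (FX F k))^[m] G := by
    refine principal trd gp.ne hirr hG hG0 hmin (mh_iter hF.hom hG m) (gp.inv _ _ hG hG0) ?_
    intro i hi
    rw [mem_su] at hi ⊢
    intro h0
    rw [Pi.smul_apply, h0, smul_zero] at hi
    exact hi rfl
  have hy0 : aeval (uc y) G = 0 := gp.spec _ _ hG hG0
  -- over the algebraic closure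
  let Kb := AlgebraicClosure K
  let Fb : Fin 2 → MvPolynomial (Fin 2) Kb := fun i => map (algebraMap K Kb) (F i)
  let Gb : MvPolynomial (Fin k × Fin 2) Kb := map (algebraMap K Kb) G
  have hGb0 : Gb ≠ 0 := fun h => hirr.ne_zero
    (map_injective (algebraMap K Kb) (algebraMap K Kb).injective (h.trans (map_zero _).symm))
  have hGbu : ¬ IsUnit Gb := by
    intro h
    have h1 := mh_unit (mh_map (algebraMap K Kb) hG) h
    rw [h1] at hG
    exact hirr.not_isUnit (isUnit_of_mh_zero hG hirr.ne_zero)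
  let β : MvPolynomial (Fin k × Fin 2) Kb →* MvPolynomial (Fin k × Fin 2) Kb :=
    { toFun := (bind₁ (FX Fb k))^[m]
      map_one' := iterate_map_one _ m
      map_mul' := iterate_map_mul _ m }
  have hβ : (β : MvPolynomial (Fin k × Fin 2) Kb → _) = (bind₁ (FX Fb k))^[m] := rfl
  have hGbd : Gb ∣ β Gb := by
    rw [hβ, ← map_iter]
    exact map_dvd (map (algebraMap K Kb)) hdvd
  obtain ⟨G₁, n, hirr₁, hd₁, hn, hper⟩ := exists_periodic β hGb0 hGbu hGbd
  obtain ⟨g₁, -, hg₁⟩ := mh_of_dvd (mh_map (algebraMap K Kb) hG) hGb0 hd₁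
  rw [hβ, ← Function.iterate_mul] at hper
  have hsu : su g ⊆ su g₁ := su_le hirr hG hirr₁.not_isUnit hg₁ hd₁
  have hperp : {z : Option Kb | ∃ (P : Fin 2 → Kb) (m : ℕ), P ≠ 0 ∧ 1 ≤ m ∧ pr P = z ∧
      Prl ((gAct Fb Kb)^[m] P) P}.Infinite := by
    have h1 := perp K p s v F hR
    rw [← gAct_map' (L := Kb) F] at h1
    exact h1
  have h2 : (su g₁).card ≤ 2 := hypk Kb (p ^ s) Fb hq (mor_map hF) hperp
    cntu k g₁ G₁ hirr₁ hg₁ (m * n) (Nat.mul_pos hm hn) hper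
  have hcard : (su g).card ≤ 2 := (Finset.card_le_card hsu).trans h2
  have hne : (su g).Nonempty := by
    rw [Finset.nonempty_iff_ne_empty]
    intro h
    have h1 : g = 0 := by
      funext i
      by_contra hi
      have h3 : i ∈ su g := mem_su.2 hi
      rw [h] at h3
      simp at h3
    rw [h1] at hG
    exact hirr.not_isUnit (isUnit_of_mh_zero hG hirr.ne_zero)
  obtain ⟨i, hi⟩ := hne
  by_cases hex : ∃ i', i' ∈ su g ∧ i' ≠ i
  · -- two pairs
    obtain ⟨i', hi', hii'⟩ := hex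
    have hall : ∀ l ∈ su g, l = i ∨ l = i' := by
      intro l hl
      by_contra hcon
      push Not at hcon
      have h3 : ({l, i, i'} : Finset (Fin k)) ⊆ su g := by
        intro x hx
        simp only [Finset.mem_insert, Finset.mem_singleton] at hx
        rcases hx with rfl | rfl | rfl
        · exact hl
        · exact hi
        · exact hi'
      have h4 := Finset.card_le_card h3
      rw [Finset.card_eq_three.2 ⟨l, i, i', hcon.1, hcon.2, hii'.symm, rfl⟩] at h4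
      omega
    let w : Fin 2 ⊕ Fin 2 → Fin k × Fin 2 := Sum.elim (fun j => (i, j)) fun j => (i', j)
    have hwinj : Function.Injective w := by
      rintro (a | a) (b | b) hab
      · exact congrArg _ (Prod.ext_iff.1 hab).2
      · exact absurd (Prod.ext_iff.1 hab).1 hii'.symm
      · exact absurd (Prod.ext_iff.1 hab).1 hii'
      · exact congrArg _ (Prod.ext_iff.1 hab).2
    obtain ⟨G₀, hG₀⟩ := exists_rename hwinj hG fun l hl j => by
      rcases hall l hl with rfl | rfl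
      · exact ⟨Sum.inl j, rfl⟩
      · exact ⟨Sum.inr j, rfl⟩
    have hB : ∀ a, rename w (dbl F a) = FX F k (w a) := by
      rintro (a | a)
      · show rename w (rename Sum.inl (F a)) = rename (fun j => (i, j)) (F a)
        rw [rename_rename]
        rfl
      · show rename w (rename Sum.inr (F a)) = rename (fun j => (i', j)) (F a)
        rw [rename_rename]
        rfl
    refine ⟨i, i', hii'.symm, g i + g i', G₀, ⟨irr_of_rename hwinj (by rw [hG₀]; exact hirr),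
      ⟨g i, g i', Nat.one_le_iff_ne_zero.2 (mem_su.1 hi), by omega,
        Nat.one_le_iff_ne_zero.2 (mem_su.1 hi'), by omega, ?_⟩,
      ⟨m, hm, dvd_of_rename hwinj (by rw [rename_iter hB, hG₀]; exact hdvd)⟩⟩, ?_⟩
    · intro t ht
      have h3 : Finsupp.mapDomain w t ∈ G.support := by
        rw [← hG₀, mem_support_iff, coeff_rename_mapDomain w hwinj]
        exact mem_support_iff.1 ht
      have h4 := hG _ h3 i
      have h5 := hG _ h3 i'
      have e1 : ∀ a, Finsupp.mapDomain w t (w a) = t a := fun a =>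
        Finsupp.mapDomain_apply hwinj t a
      constructor
      · rw [← h4, ← e1 (Sum.inl 0), ← e1 (Sum.inl 1)]
        rfl
      · rw [← h5, ← e1 (Sum.inr 0), ← e1 (Sum.inr 1)]
        rfl
    · rw [← hG₀, aeval_rename] at hy0
      rw [GS.ev, ← hy0]
      congr 2
      funext a
      rcases a with a | a <;> rfl
  · -- one pair
    exfalso
    push Not at hex
    let w : Fin 2 → Fin k × Fin 2 := fun j => (i, j)
    have hwinj : Function.Injective w := fun a b hab => (Prod.ext_iff.1 hab).2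
    obtain ⟨G₀, hG₀⟩ := exists_rename hwinj hG fun l hl j => by
      rw [hex l hl]
      exact ⟨j, rfl⟩
    have hG₀0 : G₀ ≠ 0 := by
      rintro rfl
      rw [map_zero] at hG₀
      exact hirr.ne_zero hG₀.symm
    have hG₀h : G₀.IsHomogeneous (g i) := by
      intro t ht
      have h3 : Finsupp.mapDomain w t ∈ G.support := by
        rw [← hG₀, mem_support_iff, coeff_rename_mapDomain w hwinj]
        exact ht
      have h4 := hG _ h3 i
      have e1 : ∀ a, Finsupp.mapDomain w t (w a) = t a := fun a =>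
        Finsupp.mapDomain_apply hwinj t a
      rw [← h4]
      have h5 : t.degree = t 0 + t 1 := by rw [Finsupp.degree_eq_sum, Fin.sum_univ_two]
      rw [Finsupp.degree_eq_weight_one] at h5
      rw [← e1 0, ← e1 1] at h5
      exact h5
    obtain ⟨Z, -, hZ⟩ := root K N (g i) G₀ hG₀0 hG₀h
    have hdn : ∀ n : ℕ, G ∣ (bind₁ (FX F k))^[m * n] G := by
      intro n
      induction n with
      | zero => rw [mul_zero]; exact dvd_rfl
      | succ n ih =>
        rw [Nat.mul_succ, add_comm, Function.iterate_add_apply]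
        let β' : MvPolynomial (Fin k × Fin 2) K →* MvPolynomial (Fin k × Fin 2) K :=
          { toFun := (bind₁ (FX F k))^[m]
            map_one' := iterate_map_one _ m
            map_mul' := iterate_map_mul _ m }
        exact hdvd.trans (map_dvd β' ih)
    have hval : ∀ n : ℕ, pr ((gAct F N)^[m * n] (y i)) ∈ Z := by
      intro n
      refine hZ _ (iter_ne hF (hy i) _) ?_
      obtain ⟨R, hR'⟩ := hdn n
      have h3 : aeval (uc y) ((bind₁ (FX F k))^[m * n] G) = 0 := by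
        rw [hR', map_mul, hy0, zero_mul]
      rw [aeval_iter, ← hG₀, aeval_rename] at h3
      exact h3
    obtain ⟨a, b, hab, h⟩ := Finite.exists_ne_map_eq_of_infinite
      (fun n : ℕ => (⟨pr ((gAct F N)^[m * n] (y i)), hval n⟩ : Z))
    obtain ⟨c, hc, hcc⟩ := Finp.prl_of_pr (iter_ne hF (hy i) _) (iter_ne hF (hy i) _)
      (congrArg Subtype.val h)
    refine hw i ⟨m * b, m * a, ?_, c, hc, hcc⟩
    intro h3
    exact hab (Nat.eq_of_mul_eq_mul_left hm h3).symm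

end Pool.DynLehmer.LW

set_option linter.unusedSectionVars false

/-!
# The end of the proof of Theorem Y for one given map
-/

namespace Pool.DynLehmer.LW
open MvPolynomial NumberField Filter Topology Pool.DynLehmer Pool.DynLehmer.SB Pool.DynLehmer.SP
  Pool.DynLehmer.GS Pool.DynLehmer.LP
open scoped Classical

open FinW FinY in
theorem y_levelF (hRamk : RamkStatement) (hHomc : HomcStatement)
    (hSharpx : SharpxStatement) (hNumx : NumxStatement) (hMor : MorStatement)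
    (hSegk : SegkStatement) (hSegt : SegtStatement)
    (K : Type) [Field K] [NumberField K] (p s : ℕ) (v : FinitePlace K)
    (F : Fin 2 → MvPolynomial (Fin 2) K) (hyp : HypR p s v F) (hClsk : ClskF K (p ^ s) F)
    (k : ℕ) (hk : 2 ≤ k) (δ B : ℝ) (hδ : 0 < δ) (hB1 : 1 ≤ B) :
    ∃ (X : ℕ) (c : ℝ), 0 < c ∧ LevY K p s F v B δ k X c := by
  have hq2 : 2 ≤ p ^ s := by
    calc 2 ≤ p := hyp.prime.two_le
      _ = p ^ 1 := (pow_one p).symm
      _ ≤ p ^ s := Nat.pow_le_pow_right hyp.prime.pos hyp.pos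
  have hq1 : 1 ≤ p ^ s := by omega
  have hmor : Mor (p ^ s) F := hMor K p s v F hyp
  obtain ⟨Fz, hF1, hF2, hF3, hF4, hF5, hF6⟩ := hSegk K p s v F hyp k (by omega)
  obtain ⟨u, hu0, hu1, hu⟩ := exists_unif v
  have hne : Nonempty (Fin k → Fin 2) := ⟨fun _ => 0⟩
  have hcard : Fintype.card (Fin k → Fin 2) = 2 ^ k := by simp
  have hcard2 : 2 ≤ Fintype.card (Fin k → Fin 2) := by
    rw [hcard]
    calc 2 = 2 ^ 1 := rfl
      _ ≤ 2 ^ k := Nat.pow_le_pow_right (by norm_num) (by omega)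
  obtain ⟨A, B₂, hA, hB₂, hS⟩ := hSharpx K p s (Fin k → Fin 2) hcard2 hyp.prime hyp.pos v Fz
    hF1 hyp.above hF2 hF3 hF4 u hu0 hu1 hu
  set θ : ℝ := ((Fintype.card (Fin k → Fin 2) - 1 : ℕ) : ℝ) /
    (((Fintype.card (Fin k → Fin 2) - 1 : ℕ) : ℝ) + 1) with hθ
  have hθ0 : 0 ≤ θ := by positivity
  have hθ1 : θ < 1 := by
    rw [hθ, div_lt_one (by positivity)]
    linarith
  obtain ⟨X₁, c₀, hc₀, hN⟩ := hNumx k δ A B₂ B θ hk hδ hA hB₂ hB1 hθ0 hθ1
  have hk0 : (0 : ℝ) < k := by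
    have : 0 < k := by omega
    exact_mod_cast this
  refine ⟨max X₁ ((k + 1) ^ k), c₀ / k, by positivity, ?_⟩
  intro N _ _ _ _ S e hSe hsum y hy0 hwy hXD
  have hXD1 : X₁ ≤ dg K y := (le_max_left _ _).trans hXD
  have hXD2 : (k + 1) ^ k ≤ dg K y := (le_max_right _ _).trans hXD
  set D : ℕ := dg K y with hD
  have hD1 : 1 ≤ D := Module.finrank_pos
  have hD1r : (1 : ℝ) ≤ D := by exact_mod_cast hD1
  have hlogD : 0 ≤ Real.log D := Real.log_nonneg hD1r
  set T : ℝ := B * (1 + Real.log D) with hT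
  have hT1 : 1 ≤ T := by nlinarith
  have hT0 : 0 < T := by linarith
  have hX1 : 1 ≤ ⌊T⌋₊ := Nat.le_floor (by exact_mod_cast hT1)
  have hE1 : 1 ≤ ⌊T⌋₊ ^ k := Nat.one_le_pow _ _ hX1
  have hTE : ((⌊T⌋₊ ^ k : ℕ) : ℝ) ≤ 2 ^ k * (B * (1 + Real.log D)) ^ k := by
    have h1 : ((⌊T⌋₊ : ℕ) : ℝ) ≤ T := Nat.floor_le (by linarith)
    have h2 : (0 : ℝ) ≤ ((⌊T⌋₊ : ℕ) : ℝ) := Nat.cast_nonneg _
    rw [← hT, ← mul_pow]
    push_cast
    exact pow_le_pow_left₀ h2 (by linarith) k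
  obtain ⟨hN1, hN2, hN3⟩ := hN D (⌊T⌋₊ ^ k) hXD1 hE1 hTE
  refine ⟨hN1, hN2, ?_⟩
  intro ρ₁ hρ₁ hbad σ hoff ρ hρ hMρ h hlim
  have hh0 : 0 ≤ h := ge_of_tendsto' hlim fun n => div_nonneg (div_nonneg
    (Height.logHeight_nonneg _) (Nat.cast_nonneg _)) (by positivity)
  -- the points
  set yy : Fin k → Fin 2 → N := fun i => gal (σ i) y with hyy
  have hyy0 : ∀ i, yy i ≠ 0 := fun i => gal_ne (σ i) hy0
  set L := IntermediateField.adjoin K (Set.range fun i => yy i 0 / yy i 1) with hLdef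
  have hLfin : FiniteDimensional K L := inferInstance
  have hLnf : NumberField L := NumberField.of_module_finite K L
  have hex : ∀ i, ∃ Y : Fin 2 → L, Y ≠ 0 ∧ Prl (yy i) (fun j => (Y j : N)) ∧
      ((Y 0 / Y 1 : L) : N) = yy i 0 / yy i 1 := fun i =>
    FinAux.exists_pt L (hyy0 i) (IntermediateField.subset_adjoin _ _ ⟨i, rfl⟩)
  choose Y hY0 hY1 hY2 using hex
  set φ₀ : L →ₐ[K] N := L.val with hφ₀
  have hadj : IntermediateField.adjoin K (Set.range fun i => Y i 0 / Y i 1) = ⊤ :=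
    FinW.adj_top hLdef (fun i => Y i 0 / Y i 1) hY2
  have hφY : ∀ i, (nz fun j => φ₀ (Y i j)) ∈ orb (N ≃ₐ[K] N) (nz y) := by
    intro i
    have h1 : nz (yy i) = nz fun j => φ₀ (Y i j) :=
      FinAux.nz_prl (hyy0 i) (HomcAux.emb_ne φ₀ (hY0 i)) (hY1 i)
    rw [← h1]
    have h2 : nz (gal (σ i) y) = (σ i) • nz y := (HomcAux.gal_nz (σ i) hy0).symm
    rw [hyy]
    change nz (gal (σ i) y) ∈ _
    rw [h2]
    exact smul_mem_orb _ _
  have hgood := good_tuples hHomc hRamk v u hu φ₀ hY0 hadj hφY S e hSe hsum T ρ₁ hρ₁ hbad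
  have hi0 : Fin k := ⟨0, by omega⟩
  have hcardL : Nat.card (L →ₐ[K] N) = Module.finrank K L :=
    (hHomc K N L φ₀ (Y hi0) (hY0 hi0)).2.1
  have hwY : ∀ i, WandP F (Y i) := fun i => (Bas.wandP_map φ₀).1
    (Bas.wandP_prl hyp.hom (Bas.prl_symm (hY1 i)) (E.wand_gal hwy (σ i)))
  have hx0 : segk Y ≠ 0 := segk_ne hY0
  have hit : ∀ n, (gAct Fz L)^[n] (segk Y) = segk (fun i => (gAct F L)^[n] (Y i)) :=
    fun n => segk_iter (fun y => hF6 L y) Y n
  have hYn : ∀ n i, (gAct F L)^[n] (Y i) ≠ 0 := fun n i => Bas.iter_ne hmor (hY0 i) n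
  have hxw : ¬ ∃ m n : ℕ, m ≠ n ∧ ∃ c : L, c ≠ 0 ∧
      (gAct Fz L)^[n] (segk Y) = c • (gAct Fz L)^[m] (segk Y) := by
    rintro ⟨m, n, hmn, c, hc0, h1⟩
    rw [hit, hit] at h1
    obtain ⟨d, hd, h2⟩ := hSegt.2.2 L k _ _ (hYn n) (hYn m) ⟨c, hc0, h1⟩ hi0
    exact hwY hi0 ⟨m, n, hmn, d, hd, h2⟩
  -- the numbers
  set M : ℕ := Module.finrank K L with hM
  have hMk : dgk K yy = M := rfl
  have hDM : D ≤ M := by
    have h1 := dg_le_dgk (K := K) yy hi0
    rwa [hyy, dg_gal] at h1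
  have hMD : M ≤ D ^ k := by
    rw [← hMk]
    refine (dgk_le_prod yy).trans (le_of_eq ?_)
    rw [Finset.prod_congr rfl fun i _ => dg_gal (σ i) y, Finset.prod_const, Finset.card_univ,
      Fintype.card_fin]
  obtain ⟨t0, Dn, ht0, hDn, htD, hMt, hED, hnum⟩ := hN3 M ρ hDM hMD hρ hMρ
  have hkt : k ≤ t0 := by
    by_contra hlt
    push Not at hlt
    have h1 : (t0 + 1) ^ k ≤ (k + 1) ^ k := Nat.pow_le_pow_left (by omega) k
    omega
  rcases hS (⌊T⌋₊ ^ k) hE1 L N S e hcardL hSe hsum.ge hgood (segk Y) hx0 hxw Dn t0 hDn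
    (by omega) htD with
    ⟨h', hlim', hle⟩ | ⟨r, r', m, I, hm, hIp, hIh, hIv, hIi, hIt, hrE⟩
  · have hh' := height_tuple (fun N _ _ k y => hSegt.1 N k y) hyp.hom (by omega)
      (fun y => hF6 L y) φ₀ σ hY1 hlim hlim'
    rw [div_le_iff₀ hk0]
    calc c₀ ≤ _ := hnum
      _ ≤ ρ * (k * h) := mul_le_mul_of_nonneg_left (hle.trans hh') hρ
      _ = ρ * h * k := by ring
  · exfalso
    rw [hit] at hIv hIt
    -- a coordinate outside the ideal
    obtain ⟨J₀, hJ₀⟩ := Function.ne_iff.1 (segk_ne (hYn r))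
    have hXJ : (X J₀ : MvPolynomial (Fin k → Fin 2) K) ∉ I := by
      intro h1
      have h2 := hIv (X J₀) 1 (isHomogeneous_X K J₀) h1
      rw [aeval_X] at h2
      exact hJ₀ h2
    have hgI : ∀ J, gq K J₀ J ∈ I := by
      intro J
      have h1 : ((X J₀ : MvPolynomial (Fin k → Fin 2) K) ^ (t0 - k) * gq K J₀ J) ∈ I := by
        refine hIt _ ?_ ?_
        · have h2 := ((isHomogeneous_X K J₀).pow (t0 - k)).mul (gq_hom (by omega) J₀ J)
          rwa [one_mul, show t0 - k + k = t0 by omega] at h2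
        · rw [map_mul, aeval_segk _ (gq K J₀ J), gq_zero (by omega), map_zero, mul_zero]
      rcases hIp.mem_or_mem h1 with h2 | h2
      · exact absurd (hIp.mem_of_pow_mem _ h2) hXJ
      · exact h2
    obtain ⟨f, hf1, hf2, hf3⟩ := hSegt.2.1 K L k t0 (fun i => (gAct F L)^[r'] (Y i)) hMt
    obtain ⟨i, i', hii, e', G, hG, hG'⟩ := hClsk k Fz hF1 hF5 I hIp hIh m hm hIi
      (fun f hf => seg_mem (by omega) hIp hIh hXJ hgI hf) ⟨f, hIt f hf1 hf2, hf3⟩ L
      (fun i => (gAct F L)^[r] (Y i)) (hYn r) (fun i => Bas.wandP_iter (hwY i) r) hIv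
    obtain ⟨d₁, d₂, -, -, -, -, hBi⟩ := hG.hom
    refine hoff i i' hii r (hrE.trans hED) e' G hG ?_
    have e1 : ∀ i, (gAct F N)^[r] (fun j => (Y i j : N)) = fun j => φ₀ ((gAct F L)^[r] (Y i) j) :=
      fun i => gAct_iter_map F φ₀ r (Y i)
    rw [Bas.ev_prl hBi (Bas.prl_iter hyp.hom (hY1 i) r) (Bas.prl_iter hyp.hom (hY1 i') r), e1, e1,
      FinAux.ev_hom φ₀ _ _ G, hG', map_zero]

/-- the constants do not depend on `k ≤ k₀` -/
theorem levY_allF (hRamk : RamkStatement) (hHomc : HomcStatement)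
    (hSharpx : SharpxStatement) (hNumx : NumxStatement) (hMor : MorStatement)
    (hSegk : SegkStatement) (hSegt : SegtStatement)
    (K : Type) [Field K] [NumberField K] (p s : ℕ) (v : FinitePlace K)
    (F : Fin 2 → MvPolynomial (Fin 2) K) (hyp : HypR p s v F) (hClsk : ClskF K (p ^ s) F)
    (δ B : ℝ) (hδ : 0 < δ) (hB1 : 1 ≤ B) (k₀ : ℕ) :
    ∃ (X : ℕ) (c : ℝ), 0 < c ∧ ∀ k : ℕ, 2 ≤ k → k ≤ k₀ → LevY K p s F v B δ k X c := by
  induction k₀ with
  | zero => exact ⟨0, 1, one_pos, fun k h1 h2 => by omega⟩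
  | succ k₀ ih =>
    obtain ⟨X, c, hc, hX⟩ := ih
    by_cases hk : 2 ≤ k₀ + 1
    · obtain ⟨X', c', hc', hX'⟩ := y_levelF hRamk hHomc hSharpx hNumx hMor hSegk hSegt K p s v
        F hyp hClsk (k₀ + 1) hk δ B hδ hB1
      refine ⟨max X X', min c c', lt_min hc hc', fun k h1 h2 => ?_⟩
      rcases Nat.lt_or_ge k (k₀ + 1) with h3 | h3
      · exact levY_mono (le_max_left _ _) (min_le_left _ _) (hX k h1 (by omega))
      · obtain rfl : k = k₀ + 1 := by omega
        exact levY_mono (le_max_right _ _) (min_le_right _ _) hX'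
    · exact ⟨X, c, hc, fun k h1 h2 => by omega⟩

open LP.VpAux LP.WAux FinY in
/-- The bound in a Galois extension. -/
theorem y_galF (hLvnw : LvnwStatement) (hRamk : RamkStatement) (hHomc : HomcStatement)
    (hPthk : PthkStatement) (hSharpx : SharpxStatement) (hNumx : NumxStatement)
    (hVnor : VnorStatement) (hMor : MorStatement)
    (hSegk : SegkStatement) (hSegt : SegtStatement)
    (K : Type) [Field K] [NumberField K] (p s : ℕ) (v : FinitePlace K)
    (F : Fin 2 → MvPolynomial (Fin 2) K) (hyp : HypR p s v F) (hClsk : ClskF K (p ^ s) F)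
    (k₀ : ℕ) (δ : ℝ) (hδ : 0 < δ) :
    ∃ c : ℝ, 0 < c ∧ ∀ (N : Type) [Field N] [NumberField N] [Algebra K N] [IsGalois K N] (a : N),
      WandP F ![a, 1] →
      (∀ n : ℕ, 1 / δ < (dg K ((gAct F N)^[n] ![a, 1]) : ℝ) →
        ((p ^ s : ℕ) : ℝ) ^ n * (dg K ((gAct F N)^[n] ![a, 1]) : ℝ) ^ (1 - δ) ≤ dg K ![a, 1] →
        ∃ (k : ℕ) (b : Fin k → N), 2 ≤ k ∧ k ≤ k₀ ∧ (∀ i, ∃ σ : N ≃ₐ[K] N, σ a = b i) ∧
          (((p ^ s : ℕ) : ℝ) ^ n *
              (dgk K (fun i => (gAct F N)^[n] ![b i, 1]) : ℝ) ^ (1 - δ) ≤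
              dgk K (fun i => ![b i, 1]) →
            ((p ^ s : ℕ) : ℝ) ^ n *
              (dgk K (fun i => (gAct F N)^[n] ![b i, 1]) : ℝ) ^ (1 / (k : ℝ) + δ) ≤
              dg K ![a, 1]) ∧
          ∀ i i', i ≠ i' → ∀ m : ℕ,
            ((p ^ s : ℕ) : ℝ) ^ m ≤ (dg K ((gAct F N)^[n] ![a, 1]) : ℝ) ^ δ →
            ∀ (e : ℕ) (G : MvPolynomial (Fin 2 ⊕ Fin 2) K), PerForm F e G →
              GS.ev ((gAct F N)^[n + m] ![b i, 1]) ((gAct F N)^[n + m] ![b i', 1]) G ≠ 0) →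
      ∃ h : ℝ, HasHt (p ^ s) F ![a, 1] h ∧ c / (dg K ![a, 1] : ℝ) ≤ h := by
  have hq2 : 2 ≤ p ^ s := by
    calc 2 ≤ p := hyp.prime.two_le
      _ = p ^ 1 := (pow_one p).symm
      _ ≤ p ^ s := Nat.pow_le_pow_right hyp.prime.pos hyp.pos
  have hq1 : 1 ≤ p ^ s := by omega
  have hq0 : (0 : ℝ) < ((p ^ s : ℕ) : ℝ) := by
    have : 0 < p ^ s := by omega
    exact_mod_cast this
  have hmor : Mor (p ^ s) F := hMor K p s v F hyp
  have hz : ∀ z : Fin 2 → AlgebraicClosure K, (∀ i, aeval z (F i) = 0) → z = 0 := by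
    intro z hz
    by_contra h0
    exact hmor.ne (AlgebraicClosure K) z h0 (funext hz)
  set ρ₁ : ℝ := 1 / (16 * (k₀ + 1)) with hρ₁
  have hρ₁0 : 0 < ρ₁ := by rw [hρ₁]; positivity
  obtain ⟨B, c₁, hB1, hc₁, hL⟩ := hLvnw K p s v F hyp ρ₁ hρ₁0
  obtain ⟨X₁, c₂, hc₂, hlev⟩ := levY_allF hRamk hHomc hSharpx hNumx hMor hSegk hSegt K p s v
    F hyp hClsk δ B hδ hB1 (k₀ + 2)
  set X : ℕ := max X₁ (⌈1 / δ⌉₊ + 1) with hX
  obtain ⟨c₃, hc₃, hVn⟩ := hVnor K p s v F hyp X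
  have hXX : (1 : ℝ) ≤ X := by
    have h1 : 1 ≤ X := by
      rw [hX]
      exact le_trans (by omega) (le_max_right _ _)
    exact_mod_cast h1
  have hlogX : 0 ≤ Real.log X := Real.log_nonneg hXX
  have hTX : 0 < B * (1 + Real.log X) := by positivity
  refine ⟨min (min c₁ c₂) (c₃ / (B * (1 + Real.log X))), lt_min (lt_min hc₁ hc₂)
    (by positivity), ?_⟩
  intro N _ _ _ _ a ha hH
  obtain ⟨S, e, hSe, hsum⟩ := exists_above v N
  set P : Fin 2 → N := ![a, 1] with hP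
  have hP0 : P ≠ 0 := fun h0 => one_ne_zero (congrFun h0 1 : (1 : N) = 0)
  obtain ⟨h, hlim, halt⟩ := hL N S e hSe hsum P hP0 ha
  refine ⟨h, hlim, ?_⟩
  have hh0 : 0 ≤ h := ge_of_tendsto' hlim fun n => div_nonneg (div_nonneg
    (Height.logHeight_nonneg _) (Nat.cast_nonneg _)) (by positivity)
  have hhne := hhat_ne_zero hq2 F hyp.hom hz N P hP0 ha h hlim
  have hhpos : 0 < h := lt_of_le_of_ne hh0 (Ne.symm hhne)
  have hD0eq : dgo K (nz P) = dg K P := FinAux.dgo_eq hP0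
  set D₀ : ℝ := (dg K P : ℝ) with hD₀
  have hD0pos : (0 : ℝ) < D₀ := by
    rw [hD₀]
    exact_mod_cast Module.finrank_pos
  rw [div_le_iff₀ hD0pos]
  rcases halt with h1 | ⟨n, hk1, hk2, hk3⟩
  · rw [hD0eq] at h1
    exact ((min_le_left _ _).trans (min_le_left _ _)).trans (by linarith)
  rw [hD0eq] at hk1
  -- the point at level `n`
  set y : Fin 2 → N := (gAct F N)^[n] P with hy
  have hy0 : y ≠ 0 := Bas.iter_ne hmor hP0 n
  have hwy : WandP F y := Bas.wandP_iter ha n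
  have hlimy : HasHt (p ^ s) F y (((p ^ s : ℕ) : ℝ) ^ n * h) := hasHt_iter (by omega) hlim n
  have hhypos : 0 < ((p ^ s : ℕ) : ℝ) ^ n * h := mul_pos (pow_pos hq0 n) hhpos
  have hqn : (0 : ℝ) < ((p ^ s : ℕ) : ℝ) ^ n := pow_pos hq0 n
  have hdgy : dgo K (nz y) = dg K y := FinAux.dgo_eq hy0
  rw [hdgy] at hk1
  set D : ℕ := dg K y with hD
  have hD1 : 1 ≤ D := Module.finrank_pos
  have hD1r : (1 : ℝ) ≤ D := by exact_mod_cast hD1
  have hDpos : (0 : ℝ) < D := by linarith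
  have hlogD : 0 ≤ Real.log D := Real.log_nonneg hD1r
  set T : ℝ := B * (1 + Real.log D) with hT
  have hT1 : 1 ≤ T := by nlinarith
  have hT0 : 0 < T := by linarith
  by_cases hDX : D ≤ X
  · -- bounded degree
    refine (min_le_right _ _).trans ?_
    have h1 := hVn N y hy0 hwy hDX _ hlimy
    rw [div_le_iff₀ hTX]
    have h2 : T ≤ B * (1 + Real.log X) := by
      rw [hT]
      have h3 : Real.log D ≤ Real.log X := Real.log_le_log (by linarith) (by exact_mod_cast hDX)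
      have h4 : 0 ≤ B := by linarith
      exact mul_le_mul_of_nonneg_left (by linarith) h4
    calc c₃ ≤ ((p ^ s : ℕ) : ℝ) ^ n * h := h1
      _ ≤ ((p ^ s : ℕ) : ℝ) ^ n * h * D := le_mul_of_one_le_right hhypos.le hD1r
      _ = (((p ^ s : ℕ) : ℝ) ^ n * D) * h := by ring
      _ ≤ (T * D₀) * h := mul_le_mul_of_nonneg_right hk1 hh0
      _ = (h * D₀) * T := by ring
      _ ≤ (h * D₀) * (B * (1 + Real.log X)) :=
        mul_le_mul_of_nonneg_left h2 (mul_nonneg hh0 hD0pos.le)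
  refine ((min_le_left _ _).trans (min_le_right _ _)).trans ?_
  push Not at hDX
  have hDX1 : X₁ ≤ D := (le_max_left _ _).trans hDX.le
  have hDX3 : ⌈1 / δ⌉₊ + 1 ≤ D := (le_max_right _ _).trans hDX.le
  have hDδ : 1 / δ < (D : ℝ) := by
    have h1 : (1 / δ : ℝ) ≤ (⌈1 / δ⌉₊ : ℝ) := Nat.le_ceil _
    have h2 : ((⌈1 / δ⌉₊ : ℕ) : ℝ) + 1 ≤ D := by exact_mod_cast hDX3
    linarith
  -- the level is thin
  have hDδ0 : 0 < (D : ℝ) ^ δ := Real.rpow_pos_of_pos hDpos _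
  have hTδ : T ≤ (D : ℝ) ^ δ :=
    (hlev 2 le_rfl (by omega) N S e hSe hsum y hy0 hwy hDX1).1
  have hthin : ((p ^ s : ℕ) : ℝ) ^ n * (D : ℝ) ^ (1 - δ) ≤ D₀ := by
    have h1 : (D : ℝ) ^ (1 - δ) = D / (D : ℝ) ^ δ := by
      rw [Real.rpow_sub hDpos, Real.rpow_one]
    rw [h1, ← mul_div_assoc, div_le_iff₀ hDδ0]
    calc ((p ^ s : ℕ) : ℝ) ^ n * D ≤ T * D₀ := hk1
      _ ≤ (D : ℝ) ^ δ * D₀ := mul_le_mul_of_nonneg_right hTδ hD0pos.le
      _ = _ := mul_comm _ _
  obtain ⟨k, b, hk2', hkk, hbσ, hthk, hoff⟩ := hH n hDδ hthin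
  choose σ hσ using hbσ
  obtain ⟨-, hT4, hfin⟩ := hlev k hk2' (by omega) N S e hSe hsum y hy0 hwy hDX1
  have hk1r : (1 : ℝ) ≤ k := by
    have : 1 ≤ k := by omega
    exact_mod_cast this
  have hkk' : (k : ℝ) ≤ k₀ := by exact_mod_cast hkk
  have hρk : (k : ℝ) * ρ₁ ≤ 1 / 8 := by
    rw [hρ₁, mul_one_div, div_le_div_iff₀ (by positivity) (by norm_num)]
    linarith
  have hρk' : ρ₁ ≤ 1 / (16 * k) := by
    rw [hρ₁]
    apply one_div_le_one_div_of_le (by linarith)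
    linarith
  have hgalb : ∀ i, gal (σ i) P = ![b i, 1] := fun i => gal_pt (σ i) (hσ i)
  have hyb : ∀ i, gal (σ i) y = (gAct F N)^[n] ![b i, 1] := by
    intro i
    rw [hy, ← SP.CasebAux.gAct_iter_gal, hgalb]
  -- the tuple is thin
  have hM : ((p ^ s : ℕ) : ℝ) ^ n *
      (dgk K (fun i => (gAct F N)^[n] ![b i, 1]) : ℝ) ^ (1 / (k : ℝ) + δ) ≤ D₀ := by
    refine hthk ?_
    have h1 := hPthk K N (p ^ s) F hq1 hmor S e hsum P hP0 k n T (B * (1 + Real.log D) ^ 2)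
      (by omega) hT0.le (by positivity) (by
        rw [hdgy] at hk2 ⊢
        refine hk2.trans ?_
        have h2 : (0 : ℝ) ≤ Module.finrank K N * D := by positivity
        nlinarith [mul_le_mul_of_nonneg_right hρk' h2]) (by
        rw [hdgy] at hk3
        refine hk3.trans ?_
        have h2 : (0 : ℝ) ≤ Module.finrank K N * dgo K (nz P) := by positivity
        nlinarith [mul_le_mul_of_nonneg_right hρk' h2]) σ
    have h1' : ((p ^ s : ℕ) : ℝ) ^ n * (dgk K (fun i => (gAct F N)^[n] ![b i, 1]) : ℝ) ≤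
        B * (1 + Real.log D) ^ 2 * T ^ k * (dgk K (fun i => ![b i, 1]) : ℝ) := by
      simpa only [hgalb] using h1
    have h2 : D ≤ dgk K (fun i => (gAct F N)^[n] ![b i, 1]) := by
      have h3 := dg_le_dgk (K := K) (fun i => gal (σ i) y) ⟨0, by omega⟩
      rw [dg_gal] at h3
      simpa only [hyb] using h3
    set M₁ : ℝ := (dgk K (fun i => (gAct F N)^[n] ![b i, 1]) : ℝ) with hM₁
    have h3 : (D : ℝ) ≤ M₁ := by
      rw [hM₁]
      exact_mod_cast h2
    have h4 : 0 < M₁ := by linarith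
    have h5 : M₁ ^ (1 - δ) = M₁ / M₁ ^ δ := by
      rw [Real.rpow_sub h4, Real.rpow_one]
    have h6 : 0 < M₁ ^ δ := Real.rpow_pos_of_pos h4 _
    rw [h5, ← mul_div_assoc, div_le_iff₀ h6]
    have h7 : B * (1 + Real.log D) ^ 2 * T ^ k ≤ M₁ ^ δ :=
      hT4.trans (Real.rpow_le_rpow hDpos.le h3 hδ.le)
    calc ((p ^ s : ℕ) : ℝ) ^ n * M₁ ≤
        B * (1 + Real.log D) ^ 2 * T ^ k * (dgk K (fun i => ![b i, 1]) : ℝ) := h1'
      _ ≤ M₁ ^ δ * (dgk K (fun i => ![b i, 1]) : ℝ) :=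
        mul_le_mul_of_nonneg_right h7 (Nat.cast_nonneg _)
      _ = _ := mul_comm _ _
  have hfin' := hfin ρ₁ hρk (by rw [hdgy] at hk2 ⊢; exact hk2) σ (by
    intro i i' hii m hm e' G hG
    rw [hyb, hyb, ← Function.iterate_add_apply, ← Function.iterate_add_apply, add_comm m n]
    exact hoff i i' hii m hm e' G hG) (D₀ / ((p ^ s : ℕ) : ℝ) ^ n)
    (div_nonneg hD0pos.le hqn.le) (by
      rw [le_div_iff₀ hqn]
      simp only [hyb]
      linarith) _ hlimy
  calc c₂ ≤ D₀ / ((p ^ s : ℕ) : ℝ) ^ n * (((p ^ s : ℕ) : ℝ) ^ n * h) := hfin'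
    _ = h * D₀ := by
      field_simp

/-- **Theorem Y** for one given map. -/
theorem finyF (hLvnw : LvnwStatement) (hRamk : RamkStatement) (hHomc : HomcStatement)
    (hPthk : PthkStatement) (hSharpx : SharpxStatement) (hNumx : NumxStatement)
    (hVnor : VnorStatement) (hMor : MorStatement)
    (hSegk : SegkStatement) (hSegt : SegtStatement)
    (K : Type) [Field K] [NumberField K] (p s : ℕ) (v : FinitePlace K)
    (F : Fin 2 → MvPolynomial (Fin 2) K) (hyp : HypR p s v F) (hClsk : ClskF K (p ^ s) F) :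
    YF K p s F := by
  intro k₀ δ hδ
  obtain ⟨c, hc, hmain⟩ := y_galF hLvnw hRamk hHomc hPthk hSharpx hNumx hVnor hMor hSegk hSegt
    K p s v F hyp hClsk k₀ δ hδ
  refine ⟨c, hc, ?_⟩
  intro L _ _ _ a ha hH
  have hmor : Mor (p ^ s) F := hMor K p s v F hyp
  -- the Galois closure
  let N := IntermediateField.normalClosure K L (AlgebraicClosure L)
  have hfdKL : FiniteDimensional K L := Module.Finite.of_restrictScalars_finite ℚ K L
  have hfd : FiniteDimensional K N := normalClosure.is_finiteDimensional K L (AlgebraicClosure L)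
  have hNnf : NumberField N := NumberField.of_module_finite K N
  have hnormal : Normal K N := normalClosure.normal K L (AlgebraicClosure L)
  have hgal : IsGalois K N := ⟨⟩
  let φ : L →ₐ[K] N := IsScalarTower.toAlgHom K L N
  have hφ : Function.Injective φ := φ.toRingHom.injective
  have hpt : ∀ x : L, (![φ x, 1] : Fin 2 → N) = fun i => φ ((![x, 1] : Fin 2 → L) i) := by
    intro x
    funext i
    fin_cases i
    · rfl
    · exact (map_one φ).symm
  have hit : ∀ (x : L) (n : ℕ), (gAct F N)^[n] ![φ x, 1] =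
      fun i => φ ((gAct F L)^[n] ![x, 1] i) := by
    intro x n
    rw [hpt, gAct_iter_map]
  have hw : WandP F ![φ a, 1] := by
    rw [hpt]
    exact (Bas.wandP_map φ).2 ha
  have hdgφ : ∀ P : Fin 2 → L, dg K (fun i => φ (P i)) = dg K P := by
    intro P
    unfold dg
    rw [← GAL.H28.finrank_adjoin_hom φ, Set.image_singleton, map_div₀]
  have hdgkφ : ∀ (k : ℕ) (y : Fin k → Fin 2 → L), dgk K (fun i j => φ (y i j)) = dgk K y := by
    intro k y
    unfold dgk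
    have h1 : (fun i => φ (y i 0) / φ (y i 1)) = φ ∘ fun i => y i 0 / y i 1 := by
      funext i
      exact (map_div₀ φ _ _).symm
    rw [h1, Set.range_comp, GAL.H28.finrank_adjoin_hom]
  obtain ⟨h, hlim, hle⟩ := hmain N (φ a) hw (by
    intro n hyδ hthin
    rw [hit, hdgφ] at hyδ
    rw [hit, hdgφ, hpt, hdgφ] at hthin
    obtain ⟨k, b, hk2, hkk, -, hb, hthk, hoff⟩ := hH n hyδ hthin
    refine ⟨k, fun i => φ (b i), hk2, hkk, fun i => ?_, ?_, ?_⟩
    · have h4 : minpoly K (φ a) = minpoly K a := minpoly.algHom_eq φ hφ a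
      refine minpoly.exists_algEquiv_of_root' (Algebra.IsAlgebraic.isAlgebraic (φ a)) ?_
      rw [h4, Polynomial.aeval_algHom_apply, hb, map_zero]
    · simp only [hit]
      rw [hdgkφ k fun i => (gAct F L)^[n] ![b i, 1]]
      simp only [hpt]
      rw [hdgkφ k fun i => ![b i, 1], hdgφ]
      exact hthk
    · intro i i' hii m hm e G hG
      rw [hit, hdgφ] at hm
      rw [hit, hit, FinAux.ev_hom]
      exact (map_ne_zero_iff φ hφ).2 (hoff i i' hii m hm e G hG))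
  refine ⟨h, hlim.congr fun n => ?_, ?_⟩
  · rw [hit]
    have h2 := logHeight_hom (φ : L →+* N) ((gAct F L)^[n] ![a, 1])
    exact congrArg (fun x => x / ((p ^ s : ℕ) : ℝ) ^ n) h2
  · rw [hpt, hdgφ] at hle
    exact hle

end Pool.DynLehmer.LW

set_option linter.unusedSectionVars false

/-!
# The relation given by the periodic forms on the conjugates of a point, for one given map
-/

namespace Pool.DynLehmer.LW
open MvPolynomial NumberField Filter Topology Pool.DynLehmer Pool.DynLehmer.SB Pool.DynLehmer.SP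
  Pool.DynLehmer.GS Pool.DynLehmer.LP
open scoped Classical

open ExcAux in
/-- **EXC** -/
theorem excF (push : PushStatement) (K : Type) [Field K] [NumberField K] (p s : ℕ)
    (v : FinitePlace K) (F : Fin 2 → MvPolynomial (Fin 2) K) (hF : HypR p s v F) (R : ℕ)
    (hcl : ClsfF K p s F R) : ExcF K F R := by
  intro N _ _ _ _ x hx hW n
  have hmor : Mor (p ^ s) F := mor K p s v F hF
  have hq2 : 2 ≤ p ^ s := by
    calc 2 ≤ p := hF.prime.two_le
      _ = p ^ 1 := (pow_one p).symm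
      _ ≤ p ^ s := Nat.pow_le_pow_right hF.prime.pos hF.pos
  have hq1 : 1 ≤ p ^ s := by omega
  have hz : ∀ z : Fin 2 → AlgebraicClosure K, (∀ i, aeval z (F i) = 0) → z = 0 := by
    intro z hz
    by_contra h0
    exact hmor.ne (AlgebraicClosure K) z h0 (funext hz)
  obtain ⟨h, hlim⟩ := exists_limit hq2 F hF.hom hz N x hx
  have hh0 : 0 ≤ h := ge_of_tendsto' hlim fun n => div_nonneg (div_nonneg
    (Height.logHeight_nonneg _) (Nat.cast_nonneg _)) (by positivity)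
  have hhpos : 0 < h :=
    lt_of_le_of_ne hh0 (Ne.symm (hhat_ne_zero hq2 F hF.hom hz N x hx hW h hlim))
  have hlimg : ∀ τ : N ≃ₐ[K] N, HasHt (p ^ s) F (gal τ x) h := by
    intro τ
    refine hlim.congr fun n => ?_
    rw [SP.CasebAux.gAct_iter_gal]
    congr 2
    exact (logHeight_ringEquiv (τ : N ≃+* N) _).symm
  have hne : ∀ (τ : N ≃ₐ[K] N) (m : ℕ), (gAct F N)^[m] (gal τ x) ≠ 0 :=
    fun τ m => Bas.iter_ne hmor (galne hx τ) m
  have hmem : ∀ τ : N ≃ₐ[K] N, nz ((gAct F N)^[n] (gal τ x)) ∈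
      orb (N ≃ₐ[K] N) (nz ((gAct F N)^[n] x)) := by
    intro τ
    rw [← smul_iter hmor hx]
    exact smul_mem_orb τ _
  refine ⟨fun y => (orb (N ≃ₐ[K] N) (nz ((gAct F N)^[n] x))).filter fun z =>
    Rel F y.val z.val, ?_, ?_⟩
  · intro y hy
    obtain ⟨σ, hσ⟩ := mem_orb.1 hy
    rw [smul_iter hmor hx] at hσ
    refine ⟨?_, ?_, ?_, ?_⟩
    · set T : Finset (Fin 2 → N) := (Finset.univ.image fun τ : N ≃ₐ[K] N => gal τ x).filter
        fun P' => Rel F ((gAct F N)^[n] (gal σ x)) ((gAct F N)^[n] P') with hT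
      have hT1 : (T.image fun P' => pr ((gAct F N)^[n] P')).card ≤ R := by
        refine hcl N (gal σ x) h (galne hx σ) (E.wand_gal hW σ) hhpos (hlimg σ) n T ?_
        intro P' hP'
        obtain ⟨h1, e, G, hG, h2⟩ := Finset.mem_filter.1 hP'
        obtain ⟨τ, -, rfl⟩ := Finset.mem_image.1 h1
        exact ⟨galne hx τ, E.wand_gal hW τ, hlimg τ, n, e, G, le_rfl, hG, h2⟩
      refine le_trans ?_ hT1
      refine Finset.card_le_card_of_injOn (fun z : Pt N => pr z.val) ?_ ?_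
      · intro z hz
        obtain ⟨hz1, hz2⟩ := Finset.mem_filter.1 (Finset.mem_coe.1 hz)
        obtain ⟨τ, hτ⟩ := mem_orb.1 hz1
        rw [smul_iter hmor hx] at hτ
        refine Finset.mem_coe.2 (Finset.mem_image.2 ⟨gal τ x, ?_, ?_⟩)
        · refine Finset.mem_filter.2 ⟨Finset.mem_image_of_mem _ (Finset.mem_univ _), ?_⟩
          rw [← hσ, ← hτ] at hz2
          exact rel_prl (Bas.prl_symm (prl_nz (hne σ n))) (Bas.prl_symm (prl_nz (hne τ n))) hz2
        · rw [← hτ]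
          exact Bas.pr_of_prl (prl_nz (hne τ n))
      · intro z₁ _ z₂ _ h12
        have h2 := (nz_eq_iff z₁.ne_zero z₂.ne_zero).2 (Bas.prl_of_pr z₁.ne_zero z₂.ne_zero h12)
        rwa [nz_val, nz_val] at h2
    · refine Finset.mem_filter.2 ⟨hy, 1, _, per_dia hmor, ?_⟩
      exact (Cls.ev_hF_iff hmor 0 0 y.ne_zero y.ne_zero).2 (Bas.prl_refl _)
    · intro y' hy'
      obtain ⟨h1, h2⟩ := Finset.mem_filter.1 hy'
      exact ⟨h1, Finset.mem_filter.2 ⟨hy, rel_symm h2⟩⟩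
    · intro g y' hy'
      obtain ⟨h1, h2⟩ := Finset.mem_filter.1 hy'
      refine Finset.mem_filter.2 ⟨?_, rel_gal g h2⟩
      rw [← orb_eq_of_mem h1]
      exact smul_mem_orb g _
  · intro σ τ hnot m hm e G hG h0
    apply hnot
    refine Finset.mem_filter.2 ⟨hmem τ, ?_⟩
    obtain ⟨j, rfl⟩ := Nat.exists_eq_add_of_le hm
    exact rel_prl (prl_nz (hne σ _)) (prl_nz (hne τ _)) (rel_push push hq1 hmor ⟨e, G, hG, h0⟩ j)

end Pool.DynLehmer.LW

set_option linter.unusedSectionVars false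

/-!
# Points with a tuple of conjugates at each level, for one given map
-/

namespace Pool.DynLehmer.LW
open MvPolynomial NumberField Filter Topology Pool.DynLehmer Pool.DynLehmer.SB Pool.DynLehmer.SP
  Pool.DynLehmer.GS Pool.DynLehmer.LP
open scoped Classical

open SolvAux UfinAux

/-- **The bound for points with a tuple of conjugates at each level**, for one given map. -/
theorem gfinF (hLift : LiftStatement) (K : Type) [Field K] [NumberField K] (p s : ℕ)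
    (v : FinitePlace K) (F : Fin 2 → MvPolynomial (Fin 2) K) (hF : HypR p s v F)
    (hY : YF K p s F) (R : ℕ) (hR : 1 ≤ R) (hE : ExcF K F R) :
    ∀ A C X : ℕ, 1 ≤ A →
    ∃ c : ℝ, 0 < c ∧ ∀ (N : Type) [Field N] [NumberField N] [Algebra K N] [IsGalois K N] (a : N),
      WandP F ![a, 1] →
      (∀ n : ℕ, A < dg K ((gAct F N)^[n] ![a, 1]) →
        ((p ^ s) ^ n) ^ A * (dg K ((gAct F N)^[n] ![a, 1])) ^ (A - 1) ≤ (dg K ![a, 1]) ^ A →
        Nat.card (MulAction.orbit (N ≃ₐ[K] N) (nz ((gAct F N)^[n] ![a, 1]))) =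
          dg K ((gAct F N)^[n] ![a, 1]) →
        TupE (G := N ≃ₐ[K] N) (nz ((gAct F N)^[n] ![a, 1])) R C X) →
      ∃ h : ℝ, HasHt (p ^ s) F ![a, 1] h ∧ c / (dg K ![a, 1] : ℝ) ≤ h := by
  intro A C X hA
  obtain ⟨B₀, hB1, hB3, hB4, hB5⟩ : ∃ B₀ : ℕ, X ≤ B₀ ∧ 10 * (C + 1) ^ 2 ≤ B₀ ∧ 10 ≤ B₀ ∧
      2 * A ≤ B₀ :=
    ⟨X + 10 * (C + 1) ^ 2 + 10 + 2 * A, by omega, by omega, by omega, by omega⟩
  have hA1 : (1 : ℝ) ≤ (A : ℝ) := by exact_mod_cast hA
  obtain ⟨δ₀, hδ₀'⟩ : ∃ δ₀ : ℝ, δ₀ = 1 / (A : ℝ) := ⟨_, rfl⟩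
  have hδA : δ₀ * (A : ℝ) = 1 := by rw [hδ₀', one_div, inv_mul_cancel₀ (by positivity)]
  have hδ₀ : 0 < δ₀ := by rw [hδ₀']; positivity
  have hδ₁ : δ₀ ≤ 1 := by nlinarith
  have hB0 : (10 : ℝ) ≤ (B₀ : ℝ) := by exact_mod_cast hB4
  have hB5' : 2 * (A : ℝ) ≤ (B₀ : ℝ) := by exact_mod_cast hB5
  obtain ⟨δ, hδ⟩ : ∃ δ : ℝ, δ = 1 / (B₀ : ℝ) ^ 2 := ⟨_, rfl⟩
  have hδ0 : 0 < δ := by rw [hδ]; positivity
  have hδ1 : 1 / δ = (B₀ : ℝ) ^ 2 := by rw [hδ, one_div_one_div]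
  have hδ2 : δ ≤ 1 / 100 := by
    rw [hδ]
    apply one_div_le_one_div_of_le (by norm_num)
    nlinarith
  have hδ3 : δ * (100 * (C : ℝ) ^ 4) ≤ 1 := by
    rw [hδ, one_div, inv_mul_le_iff₀ (by positivity), mul_one]
    have h1 : 10 * ((C : ℝ) + 1) ^ 2 ≤ (B₀ : ℝ) := by exact_mod_cast hB3
    have h2 : (0 : ℝ) ≤ (C : ℝ) := Nat.cast_nonneg _
    have h3 : 10 * (C : ℝ) ^ 2 ≤ (B₀ : ℝ) := by nlinarith
    calc 100 * (C : ℝ) ^ 4 = (10 * (C : ℝ) ^ 2) ^ 2 := by ring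
      _ ≤ (B₀ : ℝ) ^ 2 := pow_le_pow_left₀ (by positivity) h3 2
  have hδ4 : 2 * δ ≤ δ₀ := by
    have h1 : 2 ≤ B₀ * δ₀ := by nlinarith
    rw [hδ, mul_one_div, div_le_iff₀ (by positivity)]
    nlinarith
  obtain ⟨c, hc, hmain⟩ := hY C δ hδ0
  refine ⟨c, hc, ?_⟩
  intro N _ _ _ _ a ha hH
  apply hmain N a ha
  intro n hn hthin
  have hp2 : 2 ≤ p := hF.prime.two_le
  have hq2 : 2 ≤ p ^ s := hp2.trans (Nat.le_self_pow (by have := hF.pos; omega) p)
  have hM : Mor (p ^ s) F := GS.mor K p s v F hF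
  generalize hq : p ^ s = q at hq2 hM hthin hH ⊢
  have hx : (![a, 1] : Fin 2 → N) ≠ 0 := by
    intro h0
    exact one_ne_zero (congrFun h0 1 : (1 : N) = 0)
  have hxn : ∀ m, (gAct F N)^[m] ![a, 1] ≠ 0 := fun m => Bas.iter_ne hM hx m
  obtain ⟨D, hD⟩ : ∃ D : ℕ, D = dg K ((gAct F N)^[n] ![a, 1]) := ⟨_, rfl⟩
  rw [← hD] at hn hthin ⊢
  rw [hδ1] at hn
  have hDr0 : (1 : ℝ) ≤ (D : ℝ) := by nlinarith
  have hq2' : (2 : ℝ) ≤ (q : ℝ) := by exact_mod_cast hq2
  -- the time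
  obtain ⟨μ, hμ1, hμ2⟩ : ∃ μ : ℕ, (q : ℝ) ^ μ ≤ (D : ℝ) ^ δ ∧
      ∀ m : ℕ, (q : ℝ) ^ m ≤ (D : ℝ) ^ δ → m ≤ μ := by
    refine ⟨Nat.findGreatest (fun m => (q : ℝ) ^ m ≤ (D : ℝ) ^ δ) D, ?_, ?_⟩
    · have h0 : (q : ℝ) ^ 0 ≤ (D : ℝ) ^ δ := by
        rw [pow_zero]
        exact Real.one_le_rpow hDr0 hδ0.le
      exact Nat.findGreatest_spec (P := fun m => (q : ℝ) ^ m ≤ (D : ℝ) ^ δ) (Nat.zero_le D) h0
    · intro m hm
      apply Nat.le_findGreatest _ hm
      have h1 : (D : ℝ) ^ δ ≤ (D : ℝ) := by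
        conv_rhs => rw [← Real.rpow_one (D : ℝ)]
        exact Real.rpow_le_rpow_of_exponent_le hDr0 (by linarith)
      have h2 : (2 : ℝ) ^ m ≤ (q : ℝ) ^ m := pow_le_pow_left₀ (by norm_num) hq2' m
      have h3 : (m : ℝ) < (2 : ℝ) ^ m := by exact_mod_cast Nat.lt_two_pow_self
      have h4 : (m : ℝ) < (D : ℝ) := by linarith
      exact_mod_cast h4.le
  have hit : ∀ z : Fin 2 → N, (gAct F N)^[n + μ] z = (gAct F N)^[μ] ((gAct F N)^[n] z) := by
    intro z
    rw [add_comm, Function.iterate_add_apply]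
  -- the degree at the time `n + μ`
  obtain ⟨D', hD'⟩ : ∃ D' : ℕ, D' = dg K ((gAct F N)^[n + μ] ![a, 1]) := ⟨_, rfl⟩
  have hL2 := hLift.2 K N q F (by omega) hM
  have hDD' := hL2 1 μ (fun _ => (gAct F N)^[n] ![a, 1]) (fun _ => hxn n)
  rw [dgk_one, dgk_one, ← hit, ← hD, ← hD', pow_one] at hDD'
  obtain ⟨hDD1, hDD2⟩ := hDD'
  have hDD1' : (D' : ℝ) ≤ (D : ℝ) := by exact_mod_cast hDD1
  have hDD2' : (D : ℝ) ≤ (q : ℝ) ^ μ * (D' : ℝ) := by exact_mod_cast hDD2
  have hD0 : (0 : ℝ) < (D : ℝ) := by linarith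
  have hlow : (D : ℝ) ^ (1 - δ) ≤ (D' : ℝ) := by
    have h1 : (D : ℝ) ≤ (D : ℝ) ^ δ * (D' : ℝ) :=
      hDD2'.trans (mul_le_mul_of_nonneg_right hμ1 (Nat.cast_nonneg _))
    have h2 : (0 : ℝ) < (D : ℝ) ^ δ := Real.rpow_pos_of_pos hD0 _
    rw [Real.rpow_sub hD0, Real.rpow_one, div_le_iff₀ h2, mul_comm]
    exact h1
  have hbig : (B₀ : ℝ) < (D' : ℝ) := by
    refine lt_of_lt_of_le ?_ hlow
    have h1 : (D : ℝ) ^ (1 / 2 : ℝ) ≤ (D : ℝ) ^ (1 - δ) :=
      Real.rpow_le_rpow_of_exponent_le hDr0 (by linarith)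
    refine lt_of_lt_of_le ?_ h1
    rw [← Real.sqrt_eq_rpow]
    exact Real.lt_sqrt_of_sq_lt hn
  have hbig' : B₀ < D' := by exact_mod_cast hbig
  have hD'0 : (0 : ℝ) < (D' : ℝ) := by linarith
  have hD'1 : (1 : ℝ) ≤ (D' : ℝ) := by linarith
  have hL1 := hLift.1 K N
  have hcard : Nat.card (MulAction.orbit (N ≃ₐ[K] N) (nz ((gAct F N)^[n + μ] ![a, 1]))) = D' := by
    have h1 := hL1 1 (fun _ => (gAct F N)^[n + μ] ![a, 1]) (fun _ => hxn (n + μ))
    rw [dgk_one, ← hD'] at h1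
    rw [h1]
    exact (card_orb (fun (w : Pt N) (_ : Fin 1) => w) (fun a b h => congrFun h 0)
      (fun g a => rfl) _).symm
  -- the subgroup at the time `n + μ`
  have hS := hH (n + μ)
    (by
      rw [← hD']
      omega)
    (by
      rw [← hD']
      have hr : (q : ℝ) ^ (n + μ) * (D' : ℝ) ^ (1 - δ₀) ≤ (dg K ![a, 1] : ℝ) := by
        refine le_trans ?_ hthin
        rw [pow_add, mul_assoc]
        refine mul_le_mul_of_nonneg_left ?_ (by positivity)
        calc (q : ℝ) ^ μ * (D' : ℝ) ^ (1 - δ₀) ≤ (D : ℝ) ^ δ * (D : ℝ) ^ (1 - δ₀) := by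
              refine mul_le_mul hμ1 ?_ (Real.rpow_nonneg hD'0.le _) (Real.rpow_nonneg hD0.le _)
              exact Real.rpow_le_rpow hD'0.le hDD1' (by linarith)
          _ = (D : ℝ) ^ (δ + (1 - δ₀)) := (Real.rpow_add hD0 _ _).symm
          _ ≤ (D : ℝ) ^ (1 - δ) := Real.rpow_le_rpow_of_exponent_le hDr0 (by linarith)
      have hrA : ((q : ℝ) ^ (n + μ)) ^ A * (D' : ℝ) ^ (A - 1) ≤ (dg K ![a, 1] : ℝ) ^ A := by
        have h1 := pow_le_pow_left₀ (by positivity) hr A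
        rw [mul_pow, ← Real.rpow_natCast ((D' : ℝ) ^ (1 - δ₀)) A, ← Real.rpow_mul hD'0.le] at h1
        have h2 : (1 - δ₀) * (A : ℝ) = ((A - 1 : ℕ) : ℝ) := by
          rw [Nat.cast_sub hA, sub_mul, hδA]
          push_cast
          ring
        rw [h2, Real.rpow_natCast] at h1
        exact h1
      exact_mod_cast hrA)
    (by rw [hcard, hD'])
  -- the tuple
  obtain ⟨E, hE1, hE2⟩ := hE N ![a, 1] hx ha (n + μ)
  obtain ⟨k, σ, hk2, hk, ⟨i₀, hi₀⟩, hne, hMc⟩ := hS E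
    (fun y hy => by
      obtain ⟨h1, h2, h3, h4⟩ := hE1 y (mem_orb.2 hy)
      exact ⟨h1, h2, fun y' hy' => (h3 y' hy').2, h4⟩)
    (by rw [hcard]; omega)
  rw [hcard] at hMc
  have hnz : ∀ i, nz ((gAct F N)^[n + μ] ![σ i a, 1]) =
      σ i • nz ((gAct F N)^[n + μ] ![a, 1]) := by
    intro i
    rw [gal_vec, gal_act, nz_gal _ (hxn _)]
  have hbn : ∀ i m, (gAct F N)^[m] ![σ i a, 1] ≠ 0 := by
    intro i m
    rw [gal_vec, gal_act]
    exact gal_ne _ (hxn m)
  refine ⟨k, fun i => σ i a, hk2, hk, ⟨i₀, by simp [hi₀]⟩, ?_, ?_, ?_⟩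
  · intro i
    have h1 := Polynomial.aeval_algHom_apply (σ i : N →ₐ[K] N) a (minpoly K a)
    rw [minpoly.aeval, map_zero] at h1
    exact h1
  · intro _
    have h1 := hL1 k (fun i => (gAct F N)^[n + μ] ![σ i a, 1]) (fun i => hbn i _)
    have h2 : (fun i => nz ((gAct F N)^[n + μ] ![σ i a, 1])) =
        fun i => σ i • nz ((gAct F N)^[n + μ] ![a, 1]) := funext hnz
    rw [h2] at h1
    rw [← h1] at hMc
    have h3 := (hL2 k μ (fun i => (gAct F N)^[n] ![σ i a, 1]) (fun i => hbn i _)).2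
    have h4 : (fun i => (gAct F N)^[μ] ((gAct F N)^[n] ![σ i a, 1])) =
        fun i => (gAct F N)^[n + μ] ![σ i a, 1] := funext fun i => (hit _).symm
    rw [h4] at h3
    generalize dgk K (fun i => (gAct F N)^[n + μ] ![σ i a, 1]) = M' at hMc h3
    generalize dgk K (fun i => (gAct F N)^[n] ![σ i a, 1]) = M at h3 ⊢
    have hC0 : 0 < C := by omega
    have hC0' : (0 : ℝ) < (C : ℝ) := by exact_mod_cast hC0
    have h5 : (M' : ℝ) ≤ (D' : ℝ) ^ ((k : ℝ) - 1 / (C : ℝ)) := by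
      have h6 : (0 : ℝ) ≤ (D' : ℝ) ^ ((k : ℝ) - 1 / (C : ℝ)) := Real.rpow_nonneg hD'0.le _
      rw [← pow_le_pow_iff_left₀ (Nat.cast_nonneg _) h6 hC0.ne',
        ← Real.rpow_natCast ((D' : ℝ) ^ ((k : ℝ) - 1 / (C : ℝ))) C, ← Real.rpow_mul hD'0.le]
      have h7 : ((k : ℝ) - 1 / (C : ℝ)) * (C : ℝ) = ((k * C - 1 : ℕ) : ℝ) := by
        rw [Nat.cast_sub (by nlinarith), sub_mul, one_div, inv_mul_cancel₀ hC0'.ne']
        push_cast
        ring
      rw [h7, Real.rpow_natCast]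
      exact_mod_cast hMc
    have h8 : (D' : ℝ) ^ ((k : ℝ) - 1 / (C : ℝ)) ≤ (D : ℝ) ^ ((k : ℝ) - 1 / (C : ℝ)) := by
      apply Real.rpow_le_rpow hD'0.le hDD1'
      have h9 : (2 : ℝ) ≤ (k : ℝ) := by exact_mod_cast hk2
      have h10 : (1 : ℝ) ≤ (C : ℝ) := by exact_mod_cast hC0
      have h11 : 1 / (C : ℝ) ≤ 1 := by rw [div_le_one hC0']; exact h10
      linarith
    have h9 : (M : ℝ) ≤ (D : ℝ) ^ ((k : ℝ) - 1 / (C : ℝ) + δ * k) := by
      have h10 : (M : ℝ) ≤ ((q : ℝ) ^ μ) ^ k * (M' : ℝ) := by exact_mod_cast h3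
      have h11 : ((q : ℝ) ^ μ) ^ k ≤ (D : ℝ) ^ (δ * k) := by
        rw [Real.rpow_mul hD0.le, Real.rpow_natCast]
        exact pow_le_pow_left₀ (by positivity) hμ1 k
      calc (M : ℝ) ≤ ((q : ℝ) ^ μ) ^ k * (M' : ℝ) := h10
        _ ≤ (D : ℝ) ^ (δ * k) * (D : ℝ) ^ ((k : ℝ) - 1 / (C : ℝ)) := by
            apply mul_le_mul h11 _ (Nat.cast_nonneg _) (Real.rpow_nonneg hD0.le _)
            exact h5.trans h8
        _ = (D : ℝ) ^ ((k : ℝ) - 1 / (C : ℝ) + δ * k) := by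
            rw [← Real.rpow_add hD0]
            congr 1
            ring
    have h12 : (M : ℝ) ^ (1 / (k : ℝ) + δ) ≤ (D : ℝ) ^ (1 - δ) :=
      UfinAux.num_step hk2 hk hδ0 hδ3 hDr0 (Nat.cast_nonneg _) h9
    exact (mul_le_mul_of_nonneg_left h12 (by positivity)).trans hthin
  · intro i i' hii m hm e G hG
    have h1 := hE2 (σ i) (σ i') (by
      rw [← gal_vec, ← gal_vec, hnz, hnz]
      exact hne i i' hii) (n + m) (by have := hμ2 m hm; omega) e G hG
    rw [← gal_vec, ← gal_vec] at h1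
    exact h1

end Pool.DynLehmer.LW

set_option linter.unusedSectionVars false

/-!
# Composition factors, tuples of cosets and an exceptional class, for one given map
-/

namespace Pool.DynLehmer.LW
open MvPolynomial NumberField Filter Topology Pool.DynLehmer Pool.DynLehmer.SB Pool.DynLehmer.SP
  Pool.DynLehmer.GS Pool.DynLehmer.LP
open scoped Classical

open VfinAux

/-- THEOREM VH for one given map. -/
theorem vhfinF (hGrp : GrpuStatement) (hGrpp : GrppStatement)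
    (Z : ∀ (G : Type) [Group G], Subgroup G → ℕ → ℕ → ℕ → Prop)
    (hZ : ∀ R A : ℕ, 1 ≤ R → 1 ≤ A → ∃ R' C X : ℕ, ∀ {G P : Type} [Group G] [Finite G]
      [MulAction G P] (z : P), TupE (G := G) z R C X ∨
        (Atr (G := G) z A R ∧ Z G (MulAction.stabilizer G z) A R R'))
    (hLift : LiftStatement) (K : Type) [Field K] [NumberField K] (p s : ℕ)
    (v : FinitePlace K) (F : Fin 2 → MvPolynomial (Fin 2) K) (hF : HypR p s v F)
    (hY : YF K p s F) (R : ℕ) (hR : 1 ≤ R) (hE : ExcF K F R) : VhF Z K p s F R := by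
  have hmain := gfinF hLift K p s v F hF hY R hR hE
  intro A hA
  obtain ⟨C₁, X₁, h1⟩ := UfinAux.grpu_orb hGrp R A hR hA
  obtain ⟨X₂, C₂, h2⟩ := PfinAux.grpp_orb hGrpp R A hR hA
  obtain ⟨R', C₃, X₃, h3⟩ := hZ R A hR hA
  obtain ⟨c, hc, H⟩ := hmain A (C₁ + C₂ + C₃) (X₁ + X₂ + X₃) hA
  refine ⟨R', c, hc, ?_⟩
  intro N _ _ _ _ a ha
  have hfd : FiniteDimensional K N := Module.Finite.of_restrictScalars_finite ℚ K N
  by_contra hno
  push Not at hno
  obtain ⟨hno1, hno2⟩ := hno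
  obtain ⟨h, h4, h5⟩ := H N a ha (by
    intro n hn hthin hcard
    rcases h3 (G := N ≃ₐ[K] N) (nz ((gAct F N)^[n] ![a, 1])) with hL | ⟨hat, hL⟩
    · exact tupE_mono (C := C₃) (X := X₃) (by omega) (by omega) hL
    · obtain ⟨J, hJ⟩ := hno2 n hn hthin hat hL
      by_cases hJ' : SecU J (nz ((gAct F N)^[n] ![a, 1]))
          (dg K ((gAct F N)^[n] ![a, 1])) A R
      · apply tupE_mono (C := C₁) (X := X₁) (by omega) (by omega)
        intro E hE hX
        exact h1 _ J (by rw [hcard]; exact hJ') E hE hX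
      · obtain ⟨hJ1, hJ2, J', hJ3, hJ4, hJ5, hJ6⟩ := hJ hJ'
        apply tupE_mono (C := C₂) (X := X₂) (by omega) (by omega)
        intro E hE hX
        exact h2 _ E hE hX J hJ2 hJ1 (Or.inr ⟨J', hJ3, hJ4, hJ5, hJ6⟩))
  exact absurd h5 (not_le.2 (hno1 h h4))

end Pool.DynLehmer.LW

set_option linter.unusedSectionVars false

/-!
# Theorem VH for one given map, with everything written out
-/

namespace Pool.DynLehmer.LW
open MvPolynomial NumberField Filter Topology Pool.DynLehmer Pool.DynLehmer.SB Pool.DynLehmer.SP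
  Pool.DynLehmer.GS Pool.DynLehmer.GAL Pool.DynLehmer.LP
open scoped Classical

open ExplU ExplV ExplVG ExplVH in
theorem vh_explicitF (hMor : MorStatement)
    (Z : ∀ (G : Type) [Group G], Subgroup G → ℕ → ℕ → ℕ → Prop)
    (K : Type) [Field K] [NumberField K] (p s : ℕ) (v : NumberField.FinitePlace K)
    (F : Fin 2 → MvPolynomial (Fin 2) K) (hyp : HypR p s v F) (R : ℕ) (H : VhF Z K p s F R) :
        ∀ A : ℕ, 1 ≤ A → ∃ (R' : ℕ) (c : ℝ), 0 < c ∧
        ∀ (L : Type) [Field L] [NumberField L] [Algebra K L] [IsGalois K L] (a : L),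
          (∀ m n : ℕ, Prl ((gAct F L)^[m] ![a, 1]) ((gAct F L)^[n] ![a, 1]) → m = n) →
          (∃ h : ℝ,
            Filter.Tendsto (fun n : ℕ =>
              ((1 : ℝ) / (Module.finrank ℚ L : ℝ)) *
                ((∑ w : NumberField.InfinitePlace L, (NumberField.InfinitePlace.mult w : ℝ) *
                    Real.log (⨆ j, w ((gAct F L)^[n] ![a, 1] j))) +
                 ∑ᶠ u : NumberField.FinitePlace L,
                    Real.log (⨆ j, u ((gAct F L)^[n] ![a, 1] j)))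
                / ((p ^ s : ℕ) : ℝ) ^ n) Filter.atTop (nhds h) ∧
            c / (Module.finrank K (IntermediateField.adjoin K {a}) : ℝ) ≤ h) ∨
          ∃ (n D : ℕ) (b : L), b = (gAct F L)^[n] ![a, 1] 0 / (gAct F L)^[n] ![a, 1] 1 ∧
            D = Module.finrank K (IntermediateField.adjoin K {b}) ∧ A < D ∧
            ((p ^ s) ^ n) ^ A * D ^ (A - 1) ≤
              (Module.finrank K (IntermediateField.adjoin K {a})) ^ A ∧
            Z (L ≃ₐ[K] L) (MulAction.stabilizer (L ≃ₐ[K] L) b) A R R' ∧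
            (∃ T : Finset L, T.card ≤ R ∧ (∀ σ : L ≃ₐ[K] L, σ b ∈ T → σ⁻¹ b ∈ T) ∧
              ∀ (k : ℕ) (σ : Fin k → (L ≃ₐ[K] L)), 2 ≤ k → k ≤ A →
                (∀ i j, i ≠ j → (σ i)⁻¹ (σ j b) ∉ T) →
                D ^ (k * A - 1) < (Module.finrank K
                  (IntermediateField.adjoin K (Set.range fun i => σ i b))) ^ A) ∧
            ∀ H : Subgroup (L ≃ₐ[K] L), (∀ σ : L ≃ₐ[K] L, σ b = b → ∀ τ ∈ H, σ * τ * σ⁻¹ ∈ H) →
              R < {x | ∃ σ ∈ H, σ b = x}.ncard →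
              D ^ (A - 1) < {x | ∃ σ ∈ H, σ b = x}.ncard ^ A ∧
              ¬ ∃ (l : ℕ) (G : ℕ → Subgroup (L ≃ₐ[K] L)),
                  (∀ σ ∈ G 0, ∀ x ∈ {x | ∃ σ ∈ H, σ b = x}, σ x = x) ∧ G l = H ∧
                  ∀ i < l, G i ≤ G (i + 1) ∧
                    (∀ σ ∈ G (i + 1), ∀ τ ∈ G i, σ * τ * σ⁻¹ ∈ G i) ∧
                    ((∀ σ ∈ G (i + 1), ∀ τ ∈ G (i + 1), σ * τ * σ⁻¹ * τ⁻¹ ∈ G i) ∨
                      (G i).relIndex (G (i + 1)) ≤ D ^ A) := by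
  have hM := hMor K p s v F hyp
  intro A hA
  obtain ⟨R', c, hc, H⟩ := H A hA
  refine ⟨R', c, hc, ?_⟩
  intro L _ _ _ _ a ha
  have hfd : FiniteDimensional K L := Module.Finite.of_restrictScalars_finite ℚ K L
  have hdg0 : dg K ![a, 1] = Module.finrank K (IntermediateField.adjoin K {a}) := by
    unfold dg
    have h1 : (![a, 1] : Fin 2 → L) 0 / (![a, 1] : Fin 2 → L) 1 = a := by
      change a / 1 = a
      rw [div_one]
    rw [h1]
  rcases H L a (by
    rintro ⟨m, n, hmn, u, hu, h⟩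
    exact hmn (ha n m ⟨u, hu, h⟩).symm) with ⟨h, hlim, hle⟩ | ⟨n, h1, h2, h3, h4, h5⟩
  · left
    rw [hdg0] at hle
    refine ⟨h, Tendsto.congr (fun n => ?_) hlim, hle⟩
    have hne : (gAct F L)^[n] ![a, 1] ≠ 0 := E.gAct_iter_ne' hM n (by
      intro h0
      exact one_ne_zero (congrFun h0 1 : (1 : L) = 0))
    rw [logHeight_eq_sum hne, one_div, inv_mul_eq_div]
  · right
    rw [hdg0] at h2
    have hy1 : (gAct F L)^[n] ![a, 1] 1 ≠ 0 := by
      intro h0
      have h6 : dg K ((gAct F L)^[n] ![a, 1]) = 1 := by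
        rw [dg, h0, div_zero, IntermediateField.adjoin_zero, IntermediateField.finrank_bot]
      omega
    rw [nz_af hy1] at h3 h4 h5
    rw [stab_af] at h4
    refine ⟨n, _, _, rfl, rfl, h1, h2, h4, atr_af h3, ?_⟩
    intro Hs h6 h7
    constructor
    · by_contra h8
      exact (h5 Hs).1 (secU_af h6 h7 (Or.inl (not_lt.1 h8)))
    · intro h8
      exact (h5 Hs).1 (secU_af h6 h7 (Or.inr h8))

end Pool.DynLehmer.LW

/-!
# The dynamical Lehmer bound for one given map: assembly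
-/

namespace Pool.DynLehmer.LW
open MvPolynomial NumberField Filter Topology Pool.DynLehmer Pool.DynLehmer.GS Pool.DynLehmer.LP
open scoped Classical

/-- Theorem Y for a given map with finitely many periodic forms of each degree. -/
theorem ystF (K : Type) [Field K] [NumberField K] (p s : ℕ) (v : FinitePlace K)
    (F : Fin 2 → MvPolynomial (Fin 2) K) (hF : HypR p s v F) (hC : CntuF K F) : YF K p s F :=
  finyF (lvnw levelw iew) ramk homc pthk (sharpx cored (propx trd trc (hil nne upp (low bezt avd))))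
    numx vnor mor segk' segt K p s v F hF (clskF perp hypk trd K p s v F hF hC)

/-- **The bound outside primitive almost simple groups**, for one given map. -/
theorem vhstF (K : Type) [Field K] [NumberField K] (p s : ℕ) (v : FinitePlace K)
    (F : Fin 2 → MvPolynomial (Fin 2) K) (hF : HypR p s v F) (hC : CntuF K F) (R : ℕ)
    (hR : 1 ≤ R) (hE : ExcF K F R) :
    VhF (fun _ _ S A R R' => Smo S A R' ∧ Pas S A R) K p s F R :=
  vhfinF (grpu grpc) grpp _ (grpoh grpoAll (grpw gram modt)) lift K p s v F hF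
    (ystF K p s v F hF hC) R hR hE

/-- the same with the conclusion of row CLSF -/
theorem vhstF' (K : Type) [Field K] [NumberField K] (p s : ℕ) (v : FinitePlace K)
    (F : Fin 2 → MvPolynomial (Fin 2) K) (hF : HypR p s v F) (hC : CntuF K F) (R : ℕ)
    (hR : 1 ≤ R) (hE : ClsfF K p s F R) :
    VhF (fun _ _ S A R R' => Smo S A R' ∧ Pas S A R) K p s F R :=
  vhstF K p s v F hF hC R hR (excF push K p s v F hF R hE)

end Pool.DynLehmer.LW

set_option linter.unusedSectionVars false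

/-!
# Maps whose periodic forms are the graphs of the iterates
-/

namespace Pool.DynLehmer.LW
open MvPolynomial NumberField Filter Topology Pool.DynLehmer Pool.DynLehmer.SB Pool.DynLehmer.SP
  Pool.DynLehmer.GS Pool.DynLehmer.LP
open scoped Classical

/-- The periodic forms of `F` are the graphs of the iterates of `F`, in one of the two
directions. -/
def GraF (K : Type) [Field K] (F : Fin 2 → MvPolynomial (Fin 2) K) : Prop :=
  ∀ (e : ℕ) (G : MvPolynomial (Fin 2 ⊕ Fin 2) K), PerForm F e G →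
    ∃ l : ℕ, l ≤ e ∧
      (Associated G (X (Sum.inl 0) * rename Sum.inr (itF F l 1) -
          X (Sum.inl 1) * rename Sum.inr (itF F l 0)) ∨
       Associated G (X (Sum.inr 0) * rename Sum.inl (itF F l 1) -
          X (Sum.inr 1) * rename Sum.inl (itF F l 0)))

theorem cntuF_of_gra (K : Type) [Field K] (F : Fin 2 → MvPolynomial (Fin 2) K)
    (h : GraF (AlgebraicClosure K) fun i => map (algebraMap K (AlgebraicClosure K)) (F i)) :
    CntuF K F := by
  intro e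
  set F' : Fin 2 → MvPolynomial (Fin 2) (AlgebraicClosure K) :=
    fun i => map (algebraMap K (AlgebraicClosure K)) (F i) with hF'
  refine ⟨(Finset.range (e + 1)).image (fun l => X (Sum.inl 0) * rename Sum.inr (itF F' l 1) -
      X (Sum.inl 1) * rename Sum.inr (itF F' l 0)) ∪
    (Finset.range (e + 1)).image (fun l => X (Sum.inr 0) * rename Sum.inl (itF F' l 1) -
      X (Sum.inr 1) * rename Sum.inl (itF F' l 0)), ?_⟩
  intro G hG
  obtain ⟨l, hl, h1 | h1⟩ := h e G hG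
  · exact ⟨_, Finset.mem_union_left _ (Finset.mem_image_of_mem _
      (Finset.mem_range.2 (Nat.lt_succ_of_le hl))), h1⟩
  · exact ⟨_, Finset.mem_union_right _ (Finset.mem_image_of_mem _
      (Finset.mem_range.2 (Nat.lt_succ_of_le hl))), h1⟩

/-- every periodic form divides a form `F^a(X) ∧ F^b(Y)` -/
theorem dvd_of_gra {K : Type} [Field K] {F : Fin 2 → MvPolynomial (Fin 2) K} (h : GraF K F)
    {e : ℕ} {G : MvPolynomial (Fin 2 ⊕ Fin 2) K} (hG : PerForm F e G) :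
    ∃ a b : ℕ, G ∣ Cls.hF F a b := by
  obtain ⟨l, -, h1 | h1⟩ := h e G hG
  · refine ⟨0, l, h1.dvd.trans (dvd_of_eq ?_)⟩
    rw [Cls.hF]
    simp only [itF, Function.iterate_zero_apply, rename_X]
  · refine ⟨l, 0, h1.dvd.trans ?_⟩
    refine Dvd.intro (-1) ?_
    rw [Cls.hF]
    simp only [itF, Function.iterate_zero_apply, rename_X]
    ring

/-- a periodic form which divides some `F^a(X) ∧ F^b(Y)` and vanishes at two points of the same
positive height, only vanishes at pairs of equal points -/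
theorem cls_of_dvd {K : Type} [Field K] {q : ℕ} (hq : 2 ≤ q)
    {F : Fin 2 → MvPolynomial (Fin 2) K} (hM : Mor q F) {e : ℕ}
    {G : MvPolynomial (Fin 2 ⊕ Fin 2) K} (hG : PerForm F e G) {a b : ℕ} (hd : G ∣ Cls.hF F a b)
    {N : Type} [Field N] [NumberField N] [Algebra K N] {P P' : Fin 2 → N} (hP : P ≠ 0)
    (hP' : P' ≠ 0) (hw : WandP F P) (hev : GS.ev P P' G = 0) {h : ℝ} (h0 : 0 < h)
    (hh : Tendsto (fun n : ℕ => Height.logHeight ((gAct F N)^[n] P) /
      (Module.finrank ℚ N : ℝ) / (q : ℝ) ^ n) atTop (𝓝 h))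
    (hh' : Tendsto (fun n : ℕ => Height.logHeight ((gAct F N)^[n] P') /
      (Module.finrank ℚ N : ℝ) / (q : ℝ) ^ n) atTop (𝓝 h)) : Prl P P' := by
  have hz : ∀ {H : MvPolynomial (Fin 2 ⊕ Fin 2) K}, G ∣ H → GS.ev P P' H = 0 := by
    rintro H ⟨W, rfl⟩
    have h1 : GS.ev P P' (G * W) = GS.ev P P' G * GS.ev P P' W := map_mul _ _ _
    rw [h1, hev, zero_mul]
  have h1 : Prl ((gAct F N)^[a] P) ((gAct F N)^[b] P') := (Cls.ev_hF_iff hM a b hP hP').1 (hz hd)
  obtain rfl := Cls.height_eq hq hM.hom h1 h0 (by exact_mod_cast hh) (by exact_mod_cast hh')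
  obtain ⟨k, hk, hk1⟩ := hG.per
  have h2 : Prl ((gAct F N)^[k * a] P) ((gAct F N)^[k * a] P') := by
    have h3 := Bas.prl_iter hM.hom h1 (k * a - a)
    rw [← Function.iterate_add_apply, ← Function.iterate_add_apply,
      Nat.sub_add_cancel (Nat.le_mul_of_pos_left a hk)] at h3
    exact h3
  have h3 := Cls.dvd_hF root bez hM hG (Bas.iter_ne hM hP (k * a)) (Bas.iter_ne hM hP' (k * a))
    (Bas.wandP_iter hw _) (Cntw.ev_orbit hk1 hev a) (a := 0) (b := 0) h2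
  exact (Cls.ev_hF_iff hM 0 0 hP hP').1 (hz h3)

/-- the canonical height of an iterate -/
theorem hasHt_it {K : Type} [Field K] {q : ℕ} (hq : 0 < q) {F : Fin 2 → MvPolynomial (Fin 2) K}
    {N : Type} [Field N] [NumberField N] [Algebra K N] {P : Fin 2 → N} {h : ℝ}
    (hP : HasHt q F P h) (m : ℕ) : HasHt q F ((gAct F N)^[m] P) ((q : ℝ) ^ m * h) := by
  have hq0 : (0 : ℝ) < q := by exact_mod_cast hq
  have h1 := ((tendsto_add_atTop_iff_nat m).2 hP).mul_const ((q : ℝ) ^ m)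
  rw [mul_comm h] at h1
  refine h1.congr fun n => ?_
  rw [← Function.iterate_add_apply, pow_add]
  have := pow_pos hq0 n
  have := pow_pos hq0 m
  field_simp

theorem clsfF_of_gra (K : Type) [Field K] [NumberField K] (p s : ℕ) (v : FinitePlace K)
    (F : Fin 2 → MvPolynomial (Fin 2) K) (hF : HypR p s v F)
    (hG : ∀ (e : ℕ) (G : MvPolynomial (Fin 2 ⊕ Fin 2) K), PerForm F e G →
      ∃ a b : ℕ, G ∣ Cls.hF F a b) : ClsfF K p s F 1 := by
  have hM : Mor (p ^ s) F := mor K p s v F hF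
  have hq : 2 ≤ p ^ s := by
    calc 2 ≤ p := hF.prime.two_le
      _ = p ^ 1 := (pow_one p).symm
      _ ≤ p ^ s := Nat.pow_le_pow_right hF.prime.pos hF.pos
  intro N _ _ _ P h hP hw h0 hh μ T hT
  rw [Finset.card_le_one]
  have hkey : ∀ z ∈ T.image fun P' => pr ((gAct F N)^[μ] P'), z = pr ((gAct F N)^[μ] P) := by
    intro z hz
    obtain ⟨P', hP'T, rfl⟩ := Finset.mem_image.1 hz
    obtain ⟨hP', hw', hh', m, e, G, hm, hper, hev⟩ := hT P' hP'T
    obtain ⟨a, b, hd⟩ := hG e G hper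
    have hhm := hasHt_it (by omega) hh m
    have hhm' := hasHt_it (by omega) hh' m
    have h0' : 0 < ((p ^ s : ℕ) : ℝ) ^ m * h := by
      have : (0 : ℝ) < ((p ^ s : ℕ) : ℝ) := by
        have : 0 < p ^ s := by omega
        exact_mod_cast this
      positivity
    have h1 : Prl ((gAct F N)^[m] P) ((gAct F N)^[m] P') :=
      cls_of_dvd hq hM hper hd (Bas.iter_ne hM hP m) (Bas.iter_ne hM hP' m)
        (Bas.wandP_iter hw m) hev h0' hhm hhm'
    have h2 := Bas.prl_iter hM.hom h1 (μ - m)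
    rw [← Function.iterate_add_apply, ← Function.iterate_add_apply, Nat.sub_add_cancel hm] at h2
    exact (Bas.pr_of_prl h2).symm
  intro z hz z' hz'
  rw [hkey z hz, hkey z' hz']

end Pool.DynLehmer.LW

set_option linter.unusedSectionVars false

/-!
# Factors of the graph of an iterate
-/

namespace Pool.DynLehmer.LW
open MvPolynomial NumberField Filter Topology Pool.DynLehmer Pool.DynLehmer.SB Pool.DynLehmer.SP
  Pool.DynLehmer.GS Pool.DynLehmer.LP
open scoped Classical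

namespace Un60

variable {K : Type} [Field K] {q : ℕ} {F : Fin 2 → MvPolynomial (Fin 2) K}

theorem ev_mul {N : Type} [Field N] [Algebra K N] (P P' : Fin 2 → N)
    (x y : MvPolynomial (Fin 2 ⊕ Fin 2) K) :
    GS.ev P P' (x * y) = GS.ev P P' x * GS.ev P P' y := map_mul _ x y

/-- a form in the first pair of variables has a zero -/
theorem zero_inl [IsAlgClosed K] {n : ℕ} (hn : 1 ≤ n) {W : MvPolynomial (Fin 2 ⊕ Fin 2) K}
    (hW : BiHom n 0 W) : ∃ P : Fin 2 → K, P ≠ 0 ∧ ∀ P' : Fin 2 → K, GS.ev P P' W = 0 := by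
  obtain ⟨g, hg, rfl⟩ := Bif.exists_rename (f := Sum.inl) Sum.inl_injective
    (fun t ht => (hW t ht).1) (fun t ht x hx => by
      rcases x with x | x
      · exact absurd ⟨x, rfl⟩ hx
      · have h := (hW t ht).2
        fin_cases x
        · exact (by omega : t (Sum.inr 0) = 0)
        · exact (by omega : t (Sum.inr 1) = 0))
  obtain ⟨P, hP, h⟩ := LevA.exists_zero hn hg
  refine ⟨P, hP, fun P' => ?_⟩
  rw [GS.ev, aeval_rename, Sum.elim_comp_inl]
  exact h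

/-- a form in the second pair of variables has a zero -/
theorem zero_inr [IsAlgClosed K] {n : ℕ} (hn : 1 ≤ n) {W : MvPolynomial (Fin 2 ⊕ Fin 2) K}
    (hW : BiHom 0 n W) : ∃ P' : Fin 2 → K, P' ≠ 0 ∧ ∀ P : Fin 2 → K, GS.ev P P' W = 0 := by
  obtain ⟨g, hg, rfl⟩ := Bif.exists_rename (f := Sum.inr) Sum.inr_injective
    (fun t ht => (hW t ht).2) (fun t ht x hx => by
      rcases x with x | x
      · have h := (hW t ht).1
        fin_cases x
        · exact (by omega : t (Sum.inl 0) = 0)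
        · exact (by omega : t (Sum.inl 1) = 0)
      · exact absurd ⟨x, rfl⟩ hx)
  obtain ⟨P, hP, h⟩ := LevA.exists_zero hn hg
  refine ⟨P, hP, fun P' => ?_⟩
  rw [GS.ev, aeval_rename, Sum.elim_comp_inr]
  exact h

theorem ne_10 : (![1, 0] : Fin 2 → K) ≠ 0 := by
  intro h
  have := congrFun h 0
  simp at this

/-- the form of the graph is not zero -/
theorem hF_ne_zero (hM : Mor q F) (a b : ℕ) (hab : a = 0 ∨ b = 0) : Cls.hF F a b ≠ 0 := by
  intro h
  have h1 : ∀ P P' : Fin 2 → K, (gAct F K)^[a] P 0 * (gAct F K)^[b] P' 1 -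
      (gAct F K)^[a] P 1 * (gAct F K)^[b] P' 0 = 0 := by
    intro P P'
    rw [← Cls.ev_hF, h]
    exact map_zero _
  rcases hab with rfl | rfl
  · have h2 := h1 ![1, 0] ![1, 0]
    have h3 := h1 ![0, 1] ![1, 0]
    simp only [Function.iterate_zero_apply, Matrix.cons_val_zero, Matrix.cons_val_one, one_mul,
      zero_mul, sub_zero, zero_sub, neg_eq_zero] at h2 h3
    refine Bas.iter_ne hM (ne_10 (K := K)) b (funext fun i => ?_)
    fin_cases i
    · exact h3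
    · exact h2
  · have h2 := h1 ![1, 0] ![1, 0]
    have h3 := h1 ![1, 0] ![0, 1]
    simp only [Function.iterate_zero_apply, Matrix.cons_val_zero, Matrix.cons_val_one, mul_one,
      mul_zero, sub_zero, zero_sub, neg_eq_zero] at h2 h3
    refine Bas.iter_ne hM (ne_10 (K := K)) a (funext fun i => ?_)
    fin_cases i
    · exact h3
    · exact h2

/-- the cofactor of a factor -/
theorem cofactor {a b d₁ d₂ : ℕ} {G H : MvPolynomial (Fin 2 ⊕ Fin 2) K} (hH : BiHom a b H)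
    (hH0 : H ≠ 0) (hG : BiHom d₁ d₂ G) (h : G ∣ H) :
    ∃ (W : MvPolynomial (Fin 2 ⊕ Fin 2) K) (c d : ℕ), H = G * W ∧ BiHom c d W ∧ d₁ + c = a ∧
      d₂ + d = b := by
  obtain ⟨W, hW⟩ := h
  obtain ⟨c, d, -, -, hcd⟩ := hH.of_dvd hH0 ⟨G, by rw [hW, mul_comm]⟩
  refine ⟨W, c, d, hW, hcd, ?_⟩
  have h1 := hG.mul hcd
  rw [← hW] at h1
  obtain ⟨t, ht⟩ := MvPolynomial.support_nonempty.2 hH0
  have h2 := h1 t ht
  have h3 := hH t ht
  exact ⟨h2.1.symm.trans h3.1, h2.2.symm.trans h3.2⟩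

/-- a factor of `F^l(X) ∧ Y` which depends on `Y` has the same degree in `X` -/
theorem bound_left [IsAlgClosed K] (hM : Mor q F) {l d₁ d₂ : ℕ}
    {G : MvPolynomial (Fin 2 ⊕ Fin 2) K} (hG : BiHom d₁ d₂ G) (h2 : 1 ≤ d₂)
    (h : G ∣ Cls.hF F l 0) : d₁ = q ^ l := by
  obtain ⟨W, c, d, hW, hcd, h3, h4⟩ := cofactor (Cls.bihom_hF hM l 0) (hF_ne_zero hM l 0 (Or.inr rfl))
    hG h
  by_contra hne
  have hc : 1 ≤ c := by omega
  rw [pow_zero] at h4
  have hd : d = 0 := by omega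
  rw [hd] at hcd
  obtain ⟨P, hP, hz⟩ := zero_inl hc hcd
  have h1 : ∀ P' : Fin 2 → K, (gAct F K)^[l] P 0 * (gAct F K)^[0] P' 1 -
      (gAct F K)^[l] P 1 * (gAct F K)^[0] P' 0 = 0 := by
    intro P'
    rw [← Cls.ev_hF, hW, ev_mul, hz P', mul_zero]
  have h5 := h1 ![1, 0]
  have h6 := h1 ![0, 1]
  simp only [Function.iterate_zero_apply, Matrix.cons_val_zero, Matrix.cons_val_one, mul_one,
    mul_zero, sub_zero, zero_sub, neg_eq_zero] at h5 h6
  refine Bas.iter_ne hM hP l (funext fun i => ?_)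
  fin_cases i
  · exact h6
  · exact h5

/-- a factor of `X ∧ F^l(Y)` which depends on `X` has the same degree in `Y` -/
theorem bound_right [IsAlgClosed K] (hM : Mor q F) {l d₁ d₂ : ℕ}
    {G : MvPolynomial (Fin 2 ⊕ Fin 2) K} (hG : BiHom d₁ d₂ G) (h2 : 1 ≤ d₁)
    (h : G ∣ Cls.hF F 0 l) : d₂ = q ^ l := by
  obtain ⟨W, c, d, hW, hcd, h3, h4⟩ := cofactor (Cls.bihom_hF hM 0 l) (hF_ne_zero hM 0 l (Or.inl rfl))
    hG h
  by_contra hne
  have hc : 1 ≤ d := by omega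
  rw [pow_zero] at h3
  have hd : c = 0 := by omega
  rw [hd] at hcd
  obtain ⟨P, hP, hz⟩ := zero_inr hc hcd
  have h1 : ∀ P' : Fin 2 → K, (gAct F K)^[0] P' 0 * (gAct F K)^[l] P 1 -
      (gAct F K)^[0] P' 1 * (gAct F K)^[l] P 0 = 0 := by
    intro P'
    rw [← Cls.ev_hF, hW, ev_mul, hz P', mul_zero]
  have h5 := h1 ![1, 0]
  have h6 := h1 ![0, 1]
  simp only [Function.iterate_zero_apply, Matrix.cons_val_zero, Matrix.cons_val_one, one_mul,
    zero_mul, sub_zero, zero_sub, neg_eq_zero] at h5 h6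
  refine Bas.iter_ne hM hP l (funext fun i => ?_)
  fin_cases i
  · exact h6
  · exact h5

/-- finitely many periodic forms of bounded degree, if all of them divide the graph of an iterate
-/
theorem fin_of_dvd [IsAlgClosed K] (hq : 2 ≤ q) (hM : Mor q F)
    (h : ∀ (e : ℕ) (G : MvPolynomial (Fin 2 ⊕ Fin 2) K), PerForm F e G →
      ∃ l : ℕ, G ∣ Cls.hF F l 0 ∨ G ∣ Cls.hF F 0 l) (e : ℕ) :
    ∃ S : Finset (MvPolynomial (Fin 2 ⊕ Fin 2) K), ∀ G, PerForm F e G →
      ∃ G' ∈ S, Associated G G' := by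
  refine ⟨(Finset.range (e + 1)).biUnion (fun l =>
      (UniqueFactorizationMonoid.factors (Cls.hF F l 0)).toFinset) ∪
    (Finset.range (e + 1)).biUnion (fun l =>
      (UniqueFactorizationMonoid.factors (Cls.hF F 0 l)).toFinset), ?_⟩
  intro G hG
  obtain ⟨d₁, d₂, h1, h2, h3, h4, hB⟩ := hG.hom
  obtain ⟨l, hl | hl⟩ := h e G hG
  · obtain ⟨G', hG', hass⟩ := UniqueFactorizationMonoid.exists_mem_factors_of_dvd
      (hF_ne_zero hM l 0 (Or.inr rfl)) hG.irr hl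
    have h5 := bound_left hM hB h3 hl
    have h6 : l < q ^ l := Nat.lt_pow_self (by omega)
    exact ⟨G', Finset.mem_union_left _ (Finset.mem_biUnion.2 ⟨l, Finset.mem_range.2 (by omega),
      Multiset.mem_toFinset.2 hG'⟩), hass⟩
  · obtain ⟨G', hG', hass⟩ := UniqueFactorizationMonoid.exists_mem_factors_of_dvd
      (hF_ne_zero hM 0 l (Or.inl rfl)) hG.irr hl
    have h5 := bound_right hM hB h1 hl
    have h6 : l < q ^ l := Nat.lt_pow_self (by omega)
    exact ⟨G', Finset.mem_union_right _ (Finset.mem_biUnion.2 ⟨l, Finset.mem_range.2 (by omega),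
      Multiset.mem_toFinset.2 hG'⟩), hass⟩

end Un60

end Pool.DynLehmer.LW
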