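import Pool.Agent.Lib.MP_2194ec_nt.LW.Geo

set_option autoImplicit false

/-!
# Homogeneous cores and point ideals
-/

namespace Pool.DynLehmer.LW
open MvPolynomial
open scoped Classical

section core
variable {K ι : Type} [Field K]

attribute [local instance] MvPolynomial.gradedAlgebra

theorem homI_iff (P : Ideal (MvPolynomial ι K)) :
    HomI P ↔ P.IsHomogeneous (homogeneousSubmodule ι K) := by
  constructor
  · intro h n f hf
    have h1 := h f hf n
    rw [← decomposition.decompose'_apply] at h1
    exact h1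
  · intro h f hf n
    have h1 := h n hf
    rw [← decomposition.decompose'_apply]
    exact h1

/-- the homogeneous core of an ideal -/
noncomputable def hcore (P : Ideal (MvPolynomial ι K)) : Ideal (MvPolynomial ι K) :=
  (P.homogeneousCore (homogeneousSubmodule ι K)).toIdeal

theorem hcore_homI (P : Ideal (MvPolynomial ι K)) : HomI (hcore P) :=
  (homI_iff _).2 (P.homogeneousCore (homogeneousSubmodule ι K)).isHomogeneous

theorem hcore_le (P : Ideal (MvPolynomial ι K)) : hcore P ≤ P :=
  Ideal.toIdeal_homogeneousCore_le _ _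

theorem hcore_prime {P : Ideal (MvPolynomial ι K)} (h : P.IsPrime) : (hcore P).IsPrime :=
  Ideal.IsPrime.homogeneousCore h

theorem mem_hcore {P : Ideal (MvPolynomial ι K)} {f : MvPolynomial ι K} {n : ℕ}
    (hf : f.IsHomogeneous n) (h : f ∈ P) : f ∈ hcore P :=
  Ideal.mem_homogeneousCore_of_homogeneous_of_mem
    ⟨n, (mem_homogeneousSubmodule n f).2 hf⟩ h

end core

variable {K ι : Type} [Field K]

/-- a homogeneous ideal is determined by its forms -/
theorem homI_le {P P' : Ideal (MvPolynomial ι K)} (h : HomI P)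
    (h' : ∀ (n : ℕ) (f : MvPolynomial ι K), f.IsHomogeneous n → f ∈ P → f ∈ P') : P ≤ P' := by
  intro f hf
  rw [← sum_homogeneousComponent f]
  exact Ideal.sum_mem _ fun n _ => h' n _ (homogeneousComponent_isHomogeneous n f) (h f hf n)

/-- the homogeneous ideal of a point -/
noncomputable def ptI (K : Type) {ι N : Type} [Field K] [Field N] [Algebra K N] (R : ι → N) :
    Ideal (MvPolynomial ι K) :=
  hcore (RingHom.ker (aeval R : MvPolynomial ι K →ₐ[K] N).toRingHom)

theorem ptI_prime {N : Type} [Field N] [Algebra K N] (R : ι → N) : (ptI K R).IsPrime :=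
  hcore_prime (RingHom.ker_isPrime _)

theorem ptI_homI {N : Type} [Field N] [Algebra K N] (R : ι → N) : HomI (ptI K R) := hcore_homI _

theorem mem_ptI {N : Type} [Field N] [Algebra K N] {R : ι → N} {f : MvPolynomial ι K} {n : ℕ}
    (hf : f.IsHomogeneous n) : f ∈ ptI K R ↔ aeval R f = 0 :=
  ⟨fun h => hcore_le _ h, fun h => mem_hcore hf h⟩

theorem exists_X_not_mem {N : Type} [Field N] [Algebra K N] {R : ι → N} (hR : R ≠ 0) :
    ∃ i, (X i : MvPolynomial ι K) ∉ ptI K R := by
  by_contra h
  push Not at h
  apply hR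
  funext i
  have h1 := (mem_ptI (isHomogeneous_X K i)).1 (h i)
  rwa [aeval_X] at h1

/-- the forms of degree `b` which vanish at the point -/
noncomputable def QQ (K : Type) {ι N : Type} [Field K] [Field N] [Algebra K N] (R : ι → N)
    (b : ℕ) : Submodule K (MvPolynomial ι K) :=
  homogeneousSubmodule ι K b ⊓ LinearMap.ker (aeval R : MvPolynomial ι K →ₐ[K] N).toLinearMap

theorem mem_QQ {N : Type} [Field N] [Algebra K N] {R : ι → N} {f : MvPolynomial ι K} {b : ℕ} :
    f ∈ QQ K R b ↔ f.IsHomogeneous b ∧ aeval R f = 0 := by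
  unfold QQ
  rw [Submodule.mem_inf, mem_homogeneousSubmodule, LinearMap.mem_ker]
  rfl

/-- if a prime contains the forms of a degree vanishing at the point, it contains those of
smaller degrees -/
theorem QQ_mono {N : Type} [Field N] [Algebra K N] {R : ι → N} {P : Ideal (MvPolynomial ι K)}
    (hP : P.IsPrime) (hX : ∃ i, (X i : MvPolynomial ι K) ∉ P) {b b' : ℕ} (hb : b ≤ b')
    (h : ∀ f ∈ QQ K R b', f ∈ P) : ∀ f ∈ QQ K R b, f ∈ P := by
  intro f hf
  obtain ⟨i, hi⟩ := hX
  rw [mem_QQ] at hf
  have h1 : X i ^ (b' - b) * f ∈ QQ K R b' := by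
    rw [mem_QQ]
    constructor
    · have h2 := ((isHomogeneous_X K i).pow (b' - b)).mul hf.1
      rw [one_mul, Nat.sub_add_cancel hb] at h2
      exact h2
    · rw [map_mul, hf.2, mul_zero]
  rcases hP.mem_or_mem (h _ h1) with h2 | h2
  · exact absurd (hP.mem_of_pow_mem _ h2) hi
  · exact h2

/-- the Hilbert function depends only on the forms of the given degree -/
theorem hf_congr {P P' : Ideal (MvPolynomial ι K)} {b : ℕ}
    (h : ∀ f : MvPolynomial ι K, f.IsHomogeneous b → (f ∈ P ↔ f ∈ P')) : hf P b = hf P' b := by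
  have key : ∀ I : Ideal (MvPolynomial ι K), hf I b = Module.finrank K
      (homogeneousSubmodule ι K b ⧸ LinearMap.ker
        ((Ideal.Quotient.mkₐ K I).toLinearMap.comp (homogeneousSubmodule ι K b).subtype)) := by
    intro I
    have h2 := (LinearMap.quotKerEquivRange ((Ideal.Quotient.mkₐ K I).toLinearMap.comp
      (homogeneousSubmodule ι K b).subtype)).finrank_eq
    rw [h2, LinearMap.range_comp, Submodule.range_subtype]
    rfl
  rw [key, key]
  have h1 : LinearMap.ker
        ((Ideal.Quotient.mkₐ K P).toLinearMap.comp (homogeneousSubmodule ι K b).subtype) =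
      LinearMap.ker
        ((Ideal.Quotient.mkₐ K P').toLinearMap.comp (homogeneousSubmodule ι K b).subtype) := by
    ext f
    simp only [LinearMap.mem_ker, LinearMap.comp_apply, Submodule.subtype_apply,
      AlgHom.toLinearMap_apply, Ideal.Quotient.mkₐ_eq_mk, Ideal.Quotient.eq_zero_iff_mem]
    exact h f.1 ((mem_homogeneousSubmodule b f.1).1 f.2)
  rw [h1]

end Pool.DynLehmer.LW
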