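import Pool.Agent.Lib.MP_2194ec_nt.LW.PropsA

set_option autoImplicit false

/-!
# Dimensions of the primes between the truncated ideal and the ideal of a point; numerical lemmas
-/

namespace Pool.DynLehmer.LW
open MvPolynomial
open scoped Classical

/-! ## Numerical lemmas -/

theorem choose_up (x d : ℕ) : (x + d).choose d ≤ (x + 1) ^ d := by
  induction d with
  | zero => simp
  | succ d ih =>
    have h1 := Nat.add_one_mul_choose_eq (x + d) d
    have h2 : (x + d).succ ≤ (x + 1) * (d + 1) := by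
      rw [Nat.succ_eq_add_one]; nlinarith
    have h3 : (x + d).succ.choose d.succ * (d + 1) ≤ (x + 1) ^ (d + 1) * (d + 1) := by
      calc (x + d).succ.choose d.succ * (d + 1) = (x + d).succ * (x + d).choose d := by
            rw [h1]
        _ ≤ ((x + 1) * (d + 1)) * (x + 1) ^ d := Nat.mul_le_mul h2 ih
        _ = (x + 1) ^ (d + 1) * (d + 1) := by ring
    exact Nat.le_of_mul_le_mul_right h3 (Nat.succ_pos d)

theorem choose_low (x d : ℕ) : (x + 1) ^ d ≤ d.factorial * (x + d).choose d := by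
  rw [← Nat.ascFactorial_eq_factorial_mul_choose]
  exact Nat.pow_succ_le_ascFactorial _ _

theorem choose_two (u d : ℕ) : (2 * u + d).choose d ≤ 2 ^ d * (u + d).choose d := by
  induction d with
  | zero => simp
  | succ d ih =>
    have h1 := Nat.add_one_mul_choose_eq (2 * u + d) d
    have h2 := Nat.add_one_mul_choose_eq (u + d) d
    have h3 : (2 * u + d).succ ≤ 2 * (u + d).succ := by
      rw [Nat.succ_eq_add_one, Nat.succ_eq_add_one]; omega
    have h4 : (2 * u + d).succ.choose d.succ * (d + 1) ≤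
        2 ^ (d + 1) * (u + d).succ.choose d.succ * (d + 1) := by
      calc (2 * u + d).succ.choose d.succ * (d + 1) = (2 * u + d).succ * (2 * u + d).choose d := by
            rw [h1]
        _ ≤ (2 * (u + d).succ) * (2 ^ d * (u + d).choose d) := Nat.mul_le_mul h3 ih
        _ = 2 ^ (d + 1) * ((u + d).succ * (u + d).choose d) := by ring
        _ = 2 ^ (d + 1) * (u + d).succ.choose d.succ * (d + 1) := by rw [h2]; ring
    exact Nat.le_of_mul_le_mul_right h4 (Nat.succ_pos d)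

/-- growth of the Hilbert function determines the dimension -/
theorem growth (c d d' u lam Δ Δ' : ℕ) (hd : d ≤ c) (hd' : d' ≤ c) (hu : 1 ≤ u) (hΔ : 1 ≤ Δ)
    (hΔ' : 1 ≤ Δ') (hlam : (c.factorial) ^ 2 * 9 ^ c < lam) (h1 h2 : ℕ)
    (a1 : Δ * (u + d).choose d ≤ h1) (a2 : h2 ≤ Δ * (2 * lam * u + d).choose d)
    (b1 : h1 ≤ Δ' * (2 * u + d').choose d')
    (b2 : Δ' * (2 * lam * u - u + d').choose d' ≤ h2) : d' ≤ d := by
  by_contra hlt
  push Not at hlt
  have hlam1 : 1 ≤ lam := by omega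
  -- combine
  have e1 : (Δ * (u + d).choose d) * (Δ' * (2 * lam * u - u + d').choose d') ≤
      (Δ' * (2 * u + d').choose d') * (Δ * (2 * lam * u + d).choose d) :=
    Nat.mul_le_mul (a1.trans b1) (b2.trans a2)
  have e2 : (u + d).choose d * (2 * lam * u - u + d').choose d' ≤
      (2 * u + d').choose d' * (2 * lam * u + d).choose d := by
    have hpos : 0 < Δ * Δ' := Nat.mul_pos hΔ hΔ'
    refine Nat.le_of_mul_le_mul_left ?_ hpos
    calc Δ * Δ' * ((u + d).choose d * (2 * lam * u - u + d').choose d')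
        = (Δ * (u + d).choose d) * (Δ' * (2 * lam * u - u + d').choose d') := by ring
      _ ≤ _ := e1
      _ = Δ * Δ' * ((2 * u + d').choose d' * (2 * lam * u + d).choose d) := by ring
  have hx : lam * u ≤ 2 * lam * u - u + 1 := by
    have : u ≤ lam * u := Nat.le_mul_of_pos_left u hlam1
    have h3 : 2 * lam * u = lam * u + lam * u := by ring
    omega
  have f1 : u ^ d ≤ d.factorial * (u + d).choose d :=
    (Nat.pow_le_pow_left (Nat.le_succ u) d).trans (choose_low u d)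
  have f2 : (lam * u) ^ d' ≤ d'.factorial * (2 * lam * u - u + d').choose d' :=
    (Nat.pow_le_pow_left hx d').trans (choose_low _ d')
  have f3 : (2 * u + d').choose d' ≤ (3 * u) ^ d' :=
    (choose_up _ _).trans (Nat.pow_le_pow_left (by omega) d')
  have f4 : (2 * lam * u + d).choose d ≤ (3 * (lam * u)) ^ d := by
    refine (choose_up _ _).trans (Nat.pow_le_pow_left ?_ d)
    have : 1 ≤ lam * u := Nat.mul_pos hlam1 hu
    have h3 : 2 * lam * u = lam * u + lam * u := by ring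
    omega
  have g1 : u ^ d * (lam * u) ^ d' ≤ (d.factorial * d'.factorial) *
      ((3 * u) ^ d' * (3 * (lam * u)) ^ d) := by
    calc u ^ d * (lam * u) ^ d' ≤ (d.factorial * (u + d).choose d) *
          (d'.factorial * (2 * lam * u - u + d').choose d') := Nat.mul_le_mul f1 f2
      _ = (d.factorial * d'.factorial) *
          ((u + d).choose d * (2 * lam * u - u + d').choose d') := by ring
      _ ≤ (d.factorial * d'.factorial) *
          ((2 * u + d').choose d' * (2 * lam * u + d).choose d) := Nat.mul_le_mul_left _ e2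
      _ ≤ _ := Nat.mul_le_mul_left _ (Nat.mul_le_mul f3 f4)
  obtain ⟨r, rfl⟩ := Nat.exists_eq_add_of_lt hlt
  -- d' = d + r + 1
  have g2 : (u ^ d * u ^ (d + r + 1) * lam ^ d) * lam ^ (r + 1) ≤
      (u ^ d * u ^ (d + r + 1) * lam ^ d) *
        (d.factorial * (d + r + 1).factorial * 3 ^ (d + (d + r + 1))) := by
    calc (u ^ d * u ^ (d + r + 1) * lam ^ d) * lam ^ (r + 1)
        = u ^ d * (lam * u) ^ (d + r + 1) := by rw [mul_pow, pow_add lam]; ring
      _ ≤ _ := g1
      _ = _ := by rw [mul_pow, mul_pow, mul_pow, pow_add 3 d]; ring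
  have hpos : 0 < u ^ d * u ^ (d + r + 1) * lam ^ d := by positivity
  have g3 := Nat.le_of_mul_le_mul_left g2 hpos
  have g4 : lam ≤ lam ^ (r + 1) := Nat.le_self_pow (Nat.succ_ne_zero r) lam
  have g5 : d.factorial * (d + r + 1).factorial * 3 ^ (d + (d + r + 1)) ≤
      c.factorial ^ 2 * 9 ^ c := by
    have k1 : d.factorial ≤ c.factorial := Nat.factorial_le hd
    have k2 : (d + r + 1).factorial ≤ c.factorial := Nat.factorial_le hd'
    have k3 : 3 ^ (d + (d + r + 1)) ≤ 9 ^ c := by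
      calc 3 ^ (d + (d + r + 1)) ≤ 3 ^ (2 * c) := Nat.pow_le_pow_right (by norm_num) (by omega)
        _ = 9 ^ c := by rw [pow_mul]; norm_num
    calc _ ≤ c.factorial * c.factorial * 9 ^ c := Nat.mul_le_mul (Nat.mul_le_mul k1 k2) k3
      _ = _ := by ring
  omega

/-- pigeonhole for decreasing functions -/
theorem pigeon (A c : ℕ) (g : ℕ → ℕ → ℕ) (hg : ∀ a, ∀ i, g a (i + 1) ≤ g a i)
    (hc : ∀ a i, g a i ≤ c) : ∃ i ≤ (A + 1) * c, ∀ a ≤ A, g a (i + 1) = g a i := by
  by_contra h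
  push Not at h
  have h1 : ∀ i, i ≤ (A + 1) * c + 1 →
      ∑ a ∈ Finset.range (A + 1), g a i + i ≤ (A + 1) * c := by
    intro i
    induction i with
    | zero =>
      intro _
      rw [add_zero]
      calc ∑ a ∈ Finset.range (A + 1), g a 0 ≤ ∑ a ∈ Finset.range (A + 1), c :=
            Finset.sum_le_sum fun a _ => hc a 0
        _ = (A + 1) * c := by rw [Finset.sum_const, Finset.card_range, smul_eq_mul]
    | succ i ih =>
      intro hi
      obtain ⟨a, ha, hne⟩ := h i (by omega)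
      have h2 : ∑ a ∈ Finset.range (A + 1), g a (i + 1) < ∑ a ∈ Finset.range (A + 1), g a i :=
        Finset.sum_lt_sum (fun a _ => hg a i)
          ⟨a, Finset.mem_range.2 (by omega), lt_of_le_of_ne (hg a i) hne⟩
      have h3 := ih (by omega)
      omega
  have h2 := h1 ((A + 1) * c + 1) le_rfl
  omega

/-! ## Dimensions -/

variable {K ι : Type} [Field K]

/-- the largest dimension of a homogeneous prime between the forms of degree `b` which vanish at
`R` and the ideal of `R'` -/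
noncomputable def DD (K : Type) {ι N : Type} [Field K] [Field N] [Algebra K N] (R R' : ι → N)
    (b : ℕ) : ℕ :=
  sSup {d | ∃ P : Ideal (MvPolynomial ι K), P.IsPrime ∧ HomI P ∧ (∀ f ∈ QQ K R b, f ∈ P) ∧
    P ≤ ptI K R' ∧ dimI P = d}

theorem DD_bdd (hTrd : TrdStatement) [Fintype ι] {N : Type} [Field N] [Algebra K N]
    (R R' : ι → N) (b : ℕ) : BddAbove {d | ∃ P : Ideal (MvPolynomial ι K), P.IsPrime ∧ HomI P ∧
      (∀ f ∈ QQ K R b, f ∈ P) ∧ P ≤ ptI K R' ∧ dimI P = d} := by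
  refine ⟨Fintype.card ι, ?_⟩
  rintro d ⟨P, hP, -, -, -, rfl⟩
  exact (hTrd K ι P P hP hP le_rfl).1

theorem DD_le (hTrd : TrdStatement) [Fintype ι] {N : Type} [Field N] [Algebra K N]
    (R R' : ι → N) (b : ℕ) : DD K R R' b ≤ Fintype.card ι := by
  by_cases h : {d | ∃ P : Ideal (MvPolynomial ι K), P.IsPrime ∧ HomI P ∧
      (∀ f ∈ QQ K R b, f ∈ P) ∧ P ≤ ptI K R' ∧ dimI P = d}.Nonempty
  · obtain ⟨P, hP, -, -, -, h1⟩ := Nat.sSup_mem h (DD_bdd hTrd R R' b)
    unfold DD
    rw [← h1]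
    exact (hTrd K ι P P hP hP le_rfl).1
  · rw [Set.not_nonempty_iff_eq_empty] at h
    unfold DD
    rw [h]
    simp

theorem le_DD (hTrd : TrdStatement) [Fintype ι] {N : Type} [Field N] [Algebra K N]
    {R R' : ι → N} {b : ℕ} {P : Ideal (MvPolynomial ι K)} (h1 : P.IsPrime) (h2 : HomI P)
    (h3 : ∀ f ∈ QQ K R b, f ∈ P) (h4 : P ≤ ptI K R') : dimI P ≤ DD K R R' b :=
  le_csSup (DD_bdd hTrd R R' b) ⟨P, h1, h2, h3, h4, rfl⟩

theorem DD_mem (hTrd : TrdStatement) [Fintype ι] {N : Type} [Field N] [Algebra K N]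
    {R R' : ι → N} {b : ℕ} (h : ∀ f ∈ QQ K R b, f ∈ ptI K R') :
    ∃ P : Ideal (MvPolynomial ι K), P.IsPrime ∧ HomI P ∧ (∀ f ∈ QQ K R b, f ∈ P) ∧
      P ≤ ptI K R' ∧ dimI P = DD K R R' b := by
  have h1 : {d | ∃ P : Ideal (MvPolynomial ι K), P.IsPrime ∧ HomI P ∧
      (∀ f ∈ QQ K R b, f ∈ P) ∧ P ≤ ptI K R' ∧ dimI P = d}.Nonempty :=
    ⟨dimI (ptI K R'), ptI K R', ptI_prime R', ptI_homI R', h, le_rfl, rfl⟩
  exact Nat.sSup_mem h1 (DD_bdd hTrd R R' b)

theorem DD_anti (hTrd : TrdStatement) [Fintype ι] {N : Type} [Field N] [Algebra K N]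
    {R R' : ι → N} (hR' : R' ≠ 0) {b b' : ℕ} (hb : b ≤ b') : DD K R R' b' ≤ DD K R R' b := by
  obtain ⟨i, hi⟩ := exists_X_not_mem (K := K) hR'
  by_cases h : {d | ∃ P : Ideal (MvPolynomial ι K), P.IsPrime ∧ HomI P ∧
      (∀ f ∈ QQ K R b', f ∈ P) ∧ P ≤ ptI K R' ∧ dimI P = d}.Nonempty
  · obtain ⟨P, h1, h2, h3, h4, h5⟩ := Nat.sSup_mem h (DD_bdd hTrd R R' b')
    have h6 : DD K R R' b' = dimI P := h5.symm
    rw [h6]
    exact le_DD hTrd h1 h2 (QQ_mono h1 ⟨i, fun h => hi (h4 h)⟩ hb h3) h4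
  · rw [Set.not_nonempty_iff_eq_empty] at h
    have h6 : DD K R R' b' = 0 := by
      unfold DD
      rw [h]
      simp
    omega

/-- a prime of the largest dimension is minimal -/
theorem minimal_of_dim (hTrd : TrdStatement) [Fintype ι] {N : Type} [Field N] [Algebra K N]
    {R R' : ι → N} {b : ℕ} {P : Ideal (MvPolynomial ι K)} (h1 : P.IsPrime)
    (h3 : ∀ f ∈ QQ K R b, f ∈ P) (h4 : P ≤ ptI K R') (h5 : DD K R R' b ≤ dimI P) :
    P ∈ (Ideal.span (QQ K R b : Set (MvPolynomial ι K))).minimalPrimes := by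
  refine ⟨⟨h1, Ideal.span_le.2 h3⟩, ?_⟩
  rintro P' ⟨h6, h7⟩ h8
  have h9 : hcore P' ≤ P := (hcore_le P').trans h8
  have h10 : ∀ f ∈ QQ K R b, f ∈ hcore P' := fun f hf =>
    mem_hcore (mem_QQ.1 hf).1 (h7 (Ideal.subset_span hf))
  have h11 : dimI (hcore P') ≤ DD K R R' b :=
    le_DD hTrd (hcore_prime h6) (hcore_homI P') h10 (h9.trans h4)
  obtain ⟨-, h12, h13, -⟩ := hTrd K ι (hcore P') P (hcore_prime h6) h1 h9
  rw [← h13 (by omega)]
  exact hcore_le P'

end Pool.DynLehmer.LW
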