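import Pool.Agent.Lib.MP_2194ec_nt.LW.Geo

set_option autoImplicit false

/-!
# Row TRC: the transcendence degree and morphisms (helper94)
-/

namespace Pool.DynLehmer.LW
open MvPolynomial
open scoped Classical

namespace TrcAux

variable {K ι : Type} [Field K]

/-- the degree of an exponent of a form -/
theorem deg_of {n : ℕ} {f : MvPolynomial ι K} (hf : f.IsHomogeneous n) {s : ι →₀ ℕ}
    (hs : s ∈ f.support) : s.degree = n := by
  rw [Finsupp.degree_eq_weight_one]
  exact hf (mem_support_iff.1 hs)

/-- components of a product with a form -/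
theorem comp_mul {q : ℕ} {G : MvPolynomial ι K} (hG : G.IsHomogeneous q) (g : MvPolynomial ι K)
    (n : ℕ) : homogeneousComponent n (g * G) =
      if q ≤ n then homogeneousComponent (n - q) g * G else 0 := by
  have h1 : g * G = ∑ k ∈ Finset.range (g.totalDegree + 1), homogeneousComponent k g * G := by
    rw [← Finset.sum_mul, sum_homogeneousComponent]
  have h2 : ∀ k, homogeneousComponent n (homogeneousComponent k g * G) =
      if n = k + q then homogeneousComponent k g * G else 0 := fun k =>
    homogeneousComponent_of_mem ((homogeneousComponent_isHomogeneous k g).mul hG)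
  conv_lhs => rw [h1]
  rw [map_sum, Finset.sum_congr rfl fun k _ => h2 k]
  split_ifs with hqn
  · have h3 : ∀ k, (if n = k + q then homogeneousComponent k g * G else 0) =
        if k = n - q then homogeneousComponent k g * G else 0 := by
      intro k
      by_cases hk : k = n - q
      · rw [if_pos hk, if_pos (by omega)]
      · rw [if_neg hk, if_neg (by omega)]
    rw [Finset.sum_congr rfl fun k _ => h3 k, Finset.sum_ite_eq' (Finset.range (g.totalDegree + 1))
      (n - q) fun k => homogeneousComponent k g * G]
    split_ifs with hmem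
    · rfl
    · rw [homogeneousComponent_eq_zero _ _ (by rw [Finset.mem_range] at hmem; omega), zero_mul]
  · refine Finset.sum_eq_zero fun k _ => if_neg ?_
    omega

/-- the image of a form of degree `n` is a form of degree `q n` -/
theorem bind_hom {q : ℕ} {F : ι → MvPolynomial ι K} (hF : ∀ i, (F i).IsHomogeneous q) {n : ℕ}
    {f : MvPolynomial ι K} (hf : f.IsHomogeneous n) : (bind₁ F f).IsHomogeneous (q * n) := by
  rw [f.as_sum, map_sum]
  refine IsHomogeneous.sum _ _ _ fun s hs => ?_
  have hs' : s.degree = n := deg_of hf hs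
  rw [bind₁_monomial]
  have h1 : (C (coeff s f) : MvPolynomial ι K).IsHomogeneous 0 := isHomogeneous_C _ _
  have h2 : (∏ i ∈ s.support, F i ^ s i).IsHomogeneous (q * n) := by
    have h3 : q * n = ∑ i ∈ s.support, q * s i := by
      rw [← Finset.mul_sum, ← hs']
      rfl
    rw [h3]
    exact IsHomogeneous.prod _ _ _ fun i _ => (hF i).pow (s i)
  have h4 := h1.mul h2
  rwa [zero_add] at h4

/-- the components of the image -/
theorem comp_bind {q : ℕ} (hq : 1 ≤ q) {F : ι → MvPolynomial ι K}
    (hF : ∀ i, (F i).IsHomogeneous q) (f : MvPolynomial ι K) (n : ℕ) :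
    homogeneousComponent (q * n) (bind₁ F f) = bind₁ F (homogeneousComponent n f) := by
  have h1 : bind₁ F f = ∑ k ∈ Finset.range (f.totalDegree + 1),
      bind₁ F (homogeneousComponent k f) := by
    rw [← map_sum, sum_homogeneousComponent]
  have h2 : ∀ k, homogeneousComponent (q * n) (bind₁ F (homogeneousComponent k f)) =
      if k = n then bind₁ F (homogeneousComponent k f) else 0 := by
    intro k
    rw [homogeneousComponent_of_mem (bind_hom hF (homogeneousComponent_isHomogeneous k f))]
    by_cases hk : k = n
    · rw [if_pos hk, if_pos (by rw [hk])]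
    · rw [if_neg hk, if_neg]
      intro h
      exact hk (Nat.eq_of_mul_eq_mul_left hq h).symm
  rw [h1, map_sum, Finset.sum_congr rfl fun k _ => h2 k,
    Finset.sum_ite_eq' (Finset.range (f.totalDegree + 1)) n
      fun k => bind₁ F (homogeneousComponent k f)]
  split_ifs with hmem
  · rfl
  · rw [homogeneousComponent_eq_zero _ _ (by rw [Finset.mem_range] at hmem; omega), map_zero]

/-- the Nullstellensatz -/
theorem exists_pow [Fintype ι] {F : ι → MvPolynomial ι K}
    (h0 : ∀ z : ι → AlgebraicClosure K, (∀ i, aeval z (F i) = 0) → z = 0) :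
    ∃ N : ℕ, ∀ i, (X i : MvPolynomial ι K) ^ N ∈ Ideal.span (Set.range F) := by
  have h1 : ∀ i, ∃ N : ℕ, (X i : MvPolynomial ι K) ^ N ∈ Ideal.span (Set.range F) := by
    intro i
    have h2 : (X i : MvPolynomial ι K) ∈ (Ideal.span (Set.range F)).radical := by
      rw [← vanishingIdeal_zeroLocus_eq_radical (K := AlgebraicClosure K)]
      intro z hz
      have h3 := h0 z fun j => hz (F j) (Ideal.subset_span ⟨j, rfl⟩)
      rw [h3, aeval_X]
      rfl
    exact h2
  choose N hN using h1
  refine ⟨∑ i, N i, fun i => ?_⟩
  have h3 : N i ≤ ∑ j, N j := Finset.single_le_sum (fun j _ => Nat.zero_le (N j))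
    (Finset.mem_univ i)
  exact Ideal.pow_mem_of_pow_mem _ (hN i) h3

/-- forms of large degree are in the ideal -/
theorem mem_of_large [Fintype ι] {F : ι → MvPolynomial ι K} {N : ℕ}
    (hN : ∀ i, (X i : MvPolynomial ι K) ^ N ∈ Ideal.span (Set.range F)) {n : ℕ}
    (hn : Fintype.card ι * N + 1 ≤ n) {f : MvPolynomial ι K} (hf : f.IsHomogeneous n) :
    f ∈ Ideal.span (Set.range F) := by
  rw [f.as_sum]
  refine Ideal.sum_mem _ fun s hs => ?_
  have hs' : s.degree = n := deg_of hf hs
  have h1 : ∃ i, N ≤ s i := by
    by_contra hcon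
    push Not at hcon
    have h2 : s.degree = ∑ i, s i := Finsupp.degree_eq_sum s
    have h3 : ∑ i, s i ≤ ∑ _i : ι, N := Finset.sum_le_sum fun i _ => (hcon i).le
    rw [Finset.sum_const, Finset.card_univ, smul_eq_mul] at h3
    omega
  obtain ⟨i, hi⟩ := h1
  have h4 : (monomial s (coeff s f) : MvPolynomial ι K) =
      monomial (s - Finsupp.single i N) (coeff s f) * X i ^ N := by
    rw [X_pow_eq_monomial, monomial_mul, mul_one]
    congr 1
    rw [tsub_add_cancel_of_le]
    exact Finsupp.single_le_iff.2 hi
  rw [h4]
  exact Ideal.mul_mem_left _ _ (hN i)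

end TrcAux

open TrcAux in
/-- Row TRC. -/
theorem trc : TrcStatement := by
  intro K ι _ _ q F hq hF h0 P hP hPh
  set φ : MvPolynomial ι K →+* MvPolynomial ι K :=
    (bind₁ F : MvPolynomial ι K →ₐ[K] MvPolynomial ι K).toRingHom with hφ
  have hφa : ∀ f, φ f = bind₁ F f := fun _ => rfl
  have hP' : (P.comap φ).IsPrime := Ideal.IsPrime.comap φ
  refine ⟨hP', ?_, ?_⟩
  · intro f hf n
    rw [Ideal.mem_comap, hφa] at hf ⊢
    rw [← comp_bind hq hF]
    exact hPh _ hf _
  · obtain ⟨N, hN⟩ := exists_pow h0
    set D : ℕ := Fintype.card ι * N + 1 with hD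
    let j : (MvPolynomial ι K ⧸ P.comap φ) →+* (MvPolynomial ι K ⧸ P) :=
      Ideal.quotientMap P φ le_rfl
    have hj : Function.Injective j := Ideal.quotientMap_injective
    have hjm : ∀ f, j (Ideal.Quotient.mk _ f) = Ideal.Quotient.mk P (bind₁ F f) := fun f =>
      Ideal.quotientMap_mk
    let _ : Algebra (MvPolynomial ι K ⧸ P.comap φ) (MvPolynomial ι K ⧸ P) := j.toAlgebra
    have halg : ∀ c, algebraMap (MvPolynomial ι K ⧸ P.comap φ) (MvPolynomial ι K ⧸ P) c = j c :=
      fun _ => rfl
    have : IsScalarTower K (MvPolynomial ι K ⧸ P.comap φ) (MvPolynomial ι K ⧸ P) := by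
      refine IsScalarTower.of_algebraMap_eq (R := K) (S := MvPolynomial ι K ⧸ P.comap φ)
        (A := MvPolynomial ι K ⧸ P) fun c => ?_
      rw [halg]
      have h1 : algebraMap K (MvPolynomial ι K ⧸ P.comap φ) c = Ideal.Quotient.mk _ (C c) := rfl
      have h2 : algebraMap K (MvPolynomial ι K ⧸ P) c = Ideal.Quotient.mk P (C c) := rfl
      rw [h1, h2, hjm]
      simp
    have : Nontrivial (MvPolynomial ι K ⧸ P.comap φ) :=
      Ideal.Quotient.nontrivial_iff.2 hP'.ne_top
    have : IsDomain (MvPolynomial ι K ⧸ P) := Ideal.Quotient.isDomain P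
    have : IsDomain (MvPolynomial ι K ⧸ P.comap φ) := Ideal.Quotient.isDomain _
    have : FaithfulSMul (MvPolynomial ι K ⧸ P.comap φ) (MvPolynomial ι K ⧸ P) :=
      (faithfulSMul_iff_algebraMap_injective _ _).2 hj
    -- finiteness
    let G : Set (MvPolynomial ι K ⧸ P) := Set.range fun v : ι → Fin D =>
      Ideal.Quotient.mk P (monomial (Finsupp.equivFunOnFinite.symm fun i => (v i : ℕ)) (1 : K))
    have hG : G.Finite := Set.finite_range _
    let M : Submodule (MvPolynomial ι K ⧸ P.comap φ) (MvPolynomial ι K ⧸ P) :=
      Submodule.span _ G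
    have hMK : ∀ (c : K) (x : MvPolynomial ι K ⧸ P), x ∈ M → c • x ∈ M := by
      intro c x hx
      rw [← algebraMap_smul (MvPolynomial ι K ⧸ P.comap φ) c x]
      exact M.smul_mem _ hx
    have key : ∀ n : ℕ, ∀ f : MvPolynomial ι K, f.IsHomogeneous n →
        Ideal.Quotient.mk P f ∈ M := by
      intro n
      induction n using Nat.strong_induction_on with
      | _ n ih =>
        intro f hf
        rcases lt_or_ge n D with hn | hn
        · rw [f.as_sum, map_sum]
          refine M.sum_mem fun s hs => ?_
          have hs' : s.degree = n := deg_of hf hs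
          have h1 : (monomial s (coeff s f) : MvPolynomial ι K) =
              coeff s f • monomial s 1 := by
            rw [smul_monomial, smul_eq_mul, mul_one]
          have h2 : ∀ i, s i < D := fun i =>
            lt_of_le_of_lt ((Finsupp.le_degree i s).trans hs'.le) hn
          have h3 : Ideal.Quotient.mk P (coeff s f • monomial s (1 : K)) =
              coeff s f • Ideal.Quotient.mk P (monomial s (1 : K)) := rfl
          rw [h1, h3]
          refine hMK _ _ (Submodule.subset_span ⟨fun i => ⟨s i, h2 i⟩, ?_⟩)
          show Ideal.Quotient.mk P (monomial (Finsupp.equivFunOnFinite.symm fun i => s i) (1 : K)) =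
            Ideal.Quotient.mk P (monomial s (1 : K))
          have h4 : (Finsupp.equivFunOnFinite.symm fun i => s i) = s := by
            ext i
            simp
          rw [h4]
        · obtain ⟨g, hg⟩ := Ideal.mem_span_range_iff_exists_fun.1 (mem_of_large hN hn hf)
          have h1 : f = ∑ i, if q ≤ n then homogeneousComponent (n - q) (g i) * F i else 0 := by
            have h2 : homogeneousComponent n f = f := by
              rw [homogeneousComponent_of_mem hf, if_pos rfl]
            conv_lhs => rw [← h2, ← hg]
            rw [map_sum]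
            exact Finset.sum_congr rfl fun i _ => comp_mul (hF i) (g i) n
          rw [h1, map_sum]
          refine M.sum_mem fun i _ => ?_
          split_ifs with hqn
          · have h3 := ih (n - q) (by omega) _ (homogeneousComponent_isHomogeneous (n - q) (g i))
            have h4 : Ideal.Quotient.mk P (homogeneousComponent (n - q) (g i) * F i) =
                (Ideal.Quotient.mk (P.comap φ) (X i)) •
                  Ideal.Quotient.mk P (homogeneousComponent (n - q) (g i)) := by
              rw [Algebra.smul_def, halg, hjm, bind₁_X_right, map_mul, mul_comm]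
            rw [h4]
            exact M.smul_mem _ h3
          · rw [map_zero]
            exact M.zero_mem
    have hMtop : M = ⊤ := by
      rw [eq_top_iff]
      rintro x -
      obtain ⟨f, rfl⟩ := Ideal.Quotient.mk_surjective x
      rw [← sum_homogeneousComponent f, map_sum]
      exact M.sum_mem fun k _ => key k _ (homogeneousComponent_isHomogeneous k f)
    have : Module.Finite (MvPolynomial ι K ⧸ P.comap φ) (MvPolynomial ι K ⧸ P) :=
      ⟨⟨hG.toFinset, by rw [hG.coe_toFinset]; exact hMtop⟩⟩
    have : Algebra.IsIntegral (MvPolynomial ι K ⧸ P.comap φ) (MvPolynomial ι K ⧸ P) :=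
      Algebra.IsIntegral.of_finite _ _
    have h5 := trdeg_add_eq K (MvPolynomial ι K ⧸ P.comap φ) (A := MvPolynomial ι K ⧸ P)
    rw [trdeg_eq_zero (R := MvPolynomial ι K ⧸ P.comap φ), add_zero] at h5
    exact congrArg Cardinal.toNat h5

end Pool.DynLehmer.LW
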