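import Pool.Agent.Lib.MP_2194ec_nt.LW.DefsX
import Pool.Agent.Lib.MP_2194ec_nt.LW.PropsB
import Pool.Agent.Lib.MP_2194ec_nt.LW.Trc

set_option autoImplicit false

/-!
# Equal truncated ideals give an invariant subvariety (row PROPX)
-/

namespace Pool.DynLehmer.LW
open MvPolynomial
open scoped Classical

section iter
variable {K ι : Type} [Field K] {q : ℕ} {F : ι → MvPolynomial ι K}

theorem iter_hom (hF : ∀ i, (F i).IsHomogeneous q) (k : ℕ) {n : ℕ} {f : MvPolynomial ι K}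
    (hf : f.IsHomogeneous n) :
    ((bind₁ F : MvPolynomial ι K →ₐ[K] MvPolynomial ι K)^[k] f).IsHomogeneous (n * q ^ k) := by
  induction k generalizing f n with
  | zero => simpa using hf
  | succ k ih =>
    rw [Function.iterate_succ_apply]
    have h1 := ih (TrcAux.bind_hom hF hf)
    have h2 : q * n * q ^ k = n * q ^ (k + 1) := by ring
    rwa [h2] at h1

theorem iter_eval {N : Type} [Field N] [Algebra K N] {R : ℕ → ι → N}
    (hR : ∀ l i, R (l + 1) i = aeval (R l) (F i)) (k l : ℕ) (f : MvPolynomial ι K) :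
    aeval (R l) ((bind₁ F : MvPolynomial ι K →ₐ[K] MvPolynomial ι K)^[k] f) =
      aeval (R (l + k)) f := by
  induction k generalizing f with
  | zero => rfl
  | succ k ih =>
    rw [Function.iterate_succ_apply, ih, aeval_bind₁]
    have h1 : (fun i => aeval (R (l + k)) (F i)) = R (l + (k + 1)) := by
      funext i
      rw [← hR]
      rfl
    rw [h1]

theorem orbit_ne [Fintype ι] (h0 : ∀ z : ι → AlgebraicClosure K, (∀ i, aeval z (F i) = 0) → z = 0)
    {N : Type} [Field N] [Algebra K N] {R : ℕ → ι → N} (hR0 : R 0 ≠ 0)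
    (hR : ∀ l i, R (l + 1) i = aeval (R l) (F i)) (l : ℕ) : R l ≠ 0 := by
  induction l with
  | zero => exact hR0
  | succ l ih =>
    intro h
    apply ih
    obtain ⟨M, hM⟩ := TrcAux.exists_pow h0
    funext i
    have h1 : Ideal.span (Set.range F) ≤
        RingHom.ker (aeval (R l) : MvPolynomial ι K →ₐ[K] N).toRingHom := by
      rw [Ideal.span_le]
      rintro _ ⟨i, rfl⟩
      change aeval (R l) (F i) = 0
      rw [← hR, h]
      rfl
    have h2 : aeval (R l) ((X i : MvPolynomial ι K) ^ M) = 0 := h1 (hM i)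
    rw [map_pow, aeval_X] at h2
    by_contra hx
    exact pow_ne_zero M hx h2

/-- the pullback of an ideal under an iterate -/
noncomputable def pull (F : ι → MvPolynomial ι K) (P : Ideal (MvPolynomial ι K)) (k : ℕ) :
    Ideal (MvPolynomial ι K) :=
  (fun I : Ideal (MvPolynomial ι K) =>
    I.comap (bind₁ F : MvPolynomial ι K →ₐ[K] MvPolynomial ι K).toRingHom)^[k] P

theorem mem_pull (P : Ideal (MvPolynomial ι K)) (k : ℕ) (f : MvPolynomial ι K) :
    f ∈ pull F P k ↔ (bind₁ F : MvPolynomial ι K →ₐ[K] MvPolynomial ι K)^[k] f ∈ P := by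
  induction k generalizing f with
  | zero => exact Iff.rfl
  | succ k ih =>
    unfold pull at ih ⊢
    rw [Function.iterate_succ_apply', Function.iterate_succ_apply]
    exact ih _

theorem pull_spec (hTrc : TrcStatement) [Fintype ι] (hq : 1 ≤ q)
    (hF : ∀ i, (F i).IsHomogeneous q)
    (h0 : ∀ z : ι → AlgebraicClosure K, (∀ i, aeval z (F i) = 0) → z = 0)
    {P : Ideal (MvPolynomial ι K)} (hP : P.IsPrime) (hPh : HomI P) (k : ℕ) :
    (pull F P k).IsPrime ∧ HomI (pull F P k) ∧ dimI (pull F P k) = dimI P := by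
  induction k with
  | zero => exact ⟨hP, hPh, rfl⟩
  | succ k ih =>
    unfold pull at ih ⊢
    rw [Function.iterate_succ_apply']
    obtain ⟨h1, h2, h3⟩ := hTrc K ι q F hq hF h0 _ ih.1 ih.2.1
    exact ⟨h1, h2, h3.trans ih.2.2⟩

end iter

/-- Row HIL for one prime. -/
theorem hil_one (hHil : HilStatement) {K ι : Type} [Field K] [CharZero K] [Fintype ι] {b : ℕ}
    {Q : Submodule K (MvPolynomial ι K)} (hQ : Q ≤ homogeneousSubmodule ι K b) {d : ℕ}
    {P : Ideal (MvPolynomial ι K)}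
    (h1 : P ∈ (Ideal.span (Q : Set (MvPolynomial ι K))).minimalPrimes) (h2 : HomI P)
    (h3 : dimI P = d + 1) : ∃ Δ : ℕ, 1 ≤ Δ ∧ (∀ b', hf P b' ≤ Δ * (b' + d).choose d) ∧
      ∀ b', Fintype.card ι * b ≤ b' →
        Δ * (b' - Fintype.card ι * b + d).choose d ≤ hf P b' := by
  obtain ⟨Δ, hΔ1, hΔ2, hΔ3⟩ := hHil K ι b Q hQ d 1 (fun _ => P) (fun a a' _ => Subsingleton.elim _ _)
    (fun _ => h1) (fun _ => h2) (fun _ => h3)
  refine ⟨Δ 0, hΔ1 0, hΔ2 0, fun b' hb' => ?_⟩
  have h4 := hΔ3 b' hb'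
  rw [Fin.sum_univ_one, iInf_const] at h4
  exact h4

/-- the homogeneous primes below the ideal of a point have positive dimension -/
theorem dim_pos (hTrd : TrdStatement) {K ι : Type} [Field K] [Fintype ι] {N : Type} [Field N]
    [Algebra K N] {R : ι → N} (hR : R ≠ 0) {P : Ideal (MvPolynomial ι K)} (hP : P.IsPrime)
    (hPh : HomI P) (h : P ≤ ptI K R) : 1 ≤ dimI P := by
  by_contra h1
  have h2 : P.IsMaximal := (hTrd K ι P P hP hP le_rfl).2.2.2 (by omega)
  obtain ⟨i, hi⟩ := exists_X_not_mem (K := K) hR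
  obtain ⟨y, z, hz, hyz⟩ := h2.exists_inv (fun h3 => hi (h h3))
  have h3 := hPh z hz 0
  have h4 : z = 1 - y * X i := by rw [← hyz]; ring
  rw [h4, map_sub, TrcAux.comp_mul (isHomogeneous_X K i), if_neg (by norm_num), sub_zero,
    homogeneousComponent_of_mem (isHomogeneous_one ι K), if_pos rfl] at h3
  exact hP.ne_top ((Ideal.eq_top_iff_one P).2 h3)

/-- comparison of two primes with the same forms of small degree -/
theorem dim_compare (hTrd : TrdStatement) (hHil : HilStatement) {K ι : Type} [Field K]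
    [CharZero K] [Fintype ι] (hc : 1 ≤ Fintype.card ι) {b b' : ℕ} (hb : 1 ≤ b)
    {Q : Submodule K (MvPolynomial ι K)} (hQ : Q ≤ homogeneousSubmodule ι K b)
    {lam : ℕ} (hlam : (Fintype.card ι).factorial ^ 2 * 9 ^ Fintype.card ι < lam)
    (hbb : 2 * lam * (Fintype.card ι * b) ≤ b')
    {P P' : Ideal (MvPolynomial ι K)} (hP : P.IsPrime) (hP' : P'.IsPrime)
    (h1 : P ∈ (Ideal.span (Q : Set (MvPolynomial ι K))).minimalPrimes) (h2 : HomI P)
    (h3 : 1 ≤ dimI P)
    (h1' : P' ∈ (Ideal.span (Q : Set (MvPolynomial ι K))).minimalPrimes) (h2' : HomI P')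
    (h3' : 1 ≤ dimI P')
    (hforms : ∀ n ≤ b', ∀ f : MvPolynomial ι K, f.IsHomogeneous n → (f ∈ P ↔ f ∈ P')) :
    dimI P' ≤ dimI P := by
  obtain ⟨d, hd⟩ := Nat.exists_eq_add_of_le h3
  obtain ⟨d', hd'⟩ := Nat.exists_eq_add_of_le h3'
  rw [add_comm] at hd hd'
  have hdc : d ≤ Fintype.card ι := by
    have := (hTrd K ι P P hP hP le_rfl).1
    omega
  have hdc' : d' ≤ Fintype.card ι := by
    have := (hTrd K ι P' P' hP' hP' le_rfl).1
    omega
  obtain ⟨Δ, hΔ1, hΔ2, hΔ3⟩ := hil_one hHil hQ h1 h2 hd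
  obtain ⟨Δ', hΔ1', hΔ2', hΔ3'⟩ := hil_one hHil hQ h1' h2' hd'
  set u := Fintype.card ι * b with hu
  have hu1 : 1 ≤ u := Nat.mul_pos hc hb
  have hlam1 : 1 ≤ lam := by omega
  have hle1 : 2 * u ≤ b' := by
    refine le_trans ?_ hbb
    calc 2 * u ≤ 2 * (lam * u) := Nat.mul_le_mul_left 2 (Nat.le_mul_of_pos_left u hlam1)
      _ = 2 * lam * u := by ring
  have e1 : hf P (2 * u) = hf P' (2 * u) := hf_congr (hforms _ hle1)
  have e2 : hf P (2 * lam * u) = hf P' (2 * lam * u) := hf_congr (hforms _ hbb)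
  have key := growth (Fintype.card ι) d d' u lam Δ Δ' hdc hdc' hu1 hΔ1 hΔ1' hlam
    (hf P (2 * u)) (hf P (2 * lam * u)) (by
      have := hΔ3 (2 * u) (by omega)
      rwa [show 2 * u - u = u by omega] at this) (hΔ2 _) (by rw [e1]; exact hΔ2' _) (by
      rw [e2]
      refine hΔ3' (2 * lam * u) ?_
      have : u ≤ lam * u := Nat.le_mul_of_pos_left u hlam1
      have h3 : 2 * lam * u = lam * u + lam * u := by ring
      omega)
  omega

/-- Row PROPX. -/
theorem propx (hTrd : TrdStatement) (hTrc : TrcStatement) (hHil : HilStatement) :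
    PropxStatement := by
  intro ι _
  set c := Fintype.card ι with hc
  set A := 2 ^ c with hA
  set lam := c.factorial ^ 2 * 9 ^ c + 1 with hlam
  set I0 := (A + 1) * c with hI0
  refine ⟨(2 * lam * c + 1) ^ (I0 + 2) * A, A * (I0 + 2), Nat.mul_pos (Nat.pow_pos (Nat.succ_pos _))
    (Nat.pow_pos (by norm_num)), ?_⟩
  intro K _ _ q F hq hF h0 N _ _ R hR0 hR j hj t0 T ht0 hT' heq
  have hA1 : 1 ≤ A := Nat.pow_pos (by norm_num)
  have hT : (2 * lam * c + 1) ^ (I0 + 2) * (q ^ j) ^ (A * (I0 + 2)) * t0 ≤ T := by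
    refine le_trans ?_ hT'
    refine Nat.mul_le_mul_right _ (Nat.mul_le_mul_right _ ?_)
    exact Nat.le_mul_of_pos_right _ hA1
  have hne := orbit_ne h0 hR0 hR
  have hc1 : 1 ≤ c := by
    rw [hc]
    by_contra h
    have h1 : Fintype.card ι = 0 := by omega
    rw [Fintype.card_eq_zero_iff] at h1
    exact hR0 (Subsingleton.elim _ _)
  set Y := q ^ (A * j) with hY
  have hY1 : 1 ≤ Y := Nat.one_le_pow _ _ hq
  set ρ := (2 * lam * c + 1) * Y with hρ
  have hρ1 : 1 ≤ ρ := Nat.mul_pos (Nat.succ_pos _) hY1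
  have hYρ : Y ≤ ρ := Nat.le_mul_of_pos_left Y (Nat.succ_pos _)
  have hTρ : ρ ^ (I0 + 1) * t0 * Y ≤ T := by
    refine le_trans ?_ hT
    calc ρ ^ (I0 + 1) * t0 * Y ≤ ρ ^ (I0 + 1) * t0 * ρ := Nat.mul_le_mul_left _ hYρ
      _ = ρ ^ (I0 + 2) * t0 := by ring
      _ = (2 * lam * c + 1) ^ (I0 + 2) * (q ^ j) ^ (A * (I0 + 2)) * t0 := by
        rw [hρ, mul_pow, hY, ← pow_mul, ← pow_mul]
        congr 3
        ring
  have hlow : ∀ b, b ≤ T → ∀ f : MvPolynomial ι K, f.IsHomogeneous b →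
      (aeval (R 0) f = 0 ↔ aeval (R j) f = 0) := by
    intro b hb f hf
    have key : ∀ l l' : ℕ, (∀ f : MvPolynomial ι K, f.IsHomogeneous T →
        aeval (R l) f = 0 → aeval (R l') f = 0) → aeval (R l) f = 0 → aeval (R l') f = 0 := by
      intro l l' h h1
      obtain ⟨i, hi⟩ := Function.ne_iff.1 (hne l')
      have h2 := h (X i ^ (T - b) * f) (by
        have h2 := ((isHomogeneous_X K i).pow (T - b)).mul hf
        rw [one_mul, Nat.sub_add_cancel hb] at h2
        exact h2) (by rw [map_mul, h1, mul_zero])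
      rw [map_mul, map_pow, aeval_X] at h2
      rcases mul_eq_zero.1 h2 with h3 | h3
      · exact absurd h3 (pow_ne_zero _ hi)
      · exact h3
    exact ⟨key 0 j fun f hf => (heq f hf).1, key j 0 fun f hf => (heq f hf).2⟩
  have h21 : ∀ a b, b * q ^ (a * j) ≤ T → ∀ f : MvPolynomial ι K, f.IsHomogeneous b →
      (aeval (R 0) f = 0 ↔ aeval (R (a * j)) f = 0) := by
    intro a
    induction a with
    | zero => intro b _ f _; rw [zero_mul]
    | succ a ih =>
      intro b hb f hf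
      have h1 : b * q ^ (a * j) ≤ T := by
        refine le_trans (Nat.mul_le_mul_left b (Nat.pow_le_pow_right hq ?_)) hb
        exact Nat.mul_le_mul_right j (Nat.le_succ a)
      rw [ih b h1 f hf]
      have h2 := hlow (b * q ^ (a * j)) h1 _ (iter_hom hF (a * j) hf)
      have e1 := iter_eval hR (a * j) 0 f
      have e2 := iter_eval hR (a * j) j f
      rw [zero_add] at e1
      rw [e1, e2] at h2
      rw [h2]
      have e3 : j + a * j = (a + 1) * j := by ring
      rw [e3]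
  obtain ⟨i, hi, hDi⟩ := pigeon A c (fun a i => DD K (R 0) (R (a * j)) (ρ ^ i * t0))
    (fun a i => DD_anti hTrd (hne _) (Nat.mul_le_mul_right _
      (Nat.pow_le_pow_right hρ1 (Nat.le_succ i)))) (fun a i => DD_le hTrd _ _ _)
  set b := ρ ^ i * t0 with hb
  set b' := ρ ^ (i + 1) * t0 with hb'
  have hb1 : 1 ≤ b := Nat.mul_pos (Nat.pow_pos hρ1) ht0
  have hbb : b' = ρ * b := by rw [hb', hb]; ring
  have hb'T : b' * Y ≤ T := by
    refine le_trans (Nat.mul_le_mul_right Y ?_) hTρ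
    exact Nat.mul_le_mul_right _ (Nat.pow_le_pow_right hρ1 (by omega))
  have hYa : ∀ a ≤ A, q ^ (a * j) ≤ Y := fun a ha =>
    Nat.pow_le_pow_right hq (Nat.mul_le_mul_right j ha)
  have hpt : ∀ a ≤ A, ∀ n ≤ b', ∀ f : MvPolynomial ι K, f.IsHomogeneous n →
      (f ∈ ptI K (R (a * j)) ↔ aeval (R 0) f = 0) := by
    intro a ha n hn f hf
    rw [mem_ptI hf]
    exact (h21 a n (le_trans (Nat.mul_le_mul hn (hYa a ha)) hb'T) f hf).symm
  have hQb' : ∀ a ≤ A, ∀ f ∈ QQ K (R 0) b', f ∈ ptI K (R (a * j)) := by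
    intro a ha f hf
    rw [mem_QQ] at hf
    exact (hpt a ha b' le_rfl f hf.1).2 hf.2
  have hbb' : b ≤ b' := by rw [hbb]; exact Nat.le_mul_of_pos_left b hρ1
  have hP : ∀ a ≤ A, ∃ P : Ideal (MvPolynomial ι K), P.IsPrime ∧ HomI P ∧
      P ≤ ptI K (R (a * j)) ∧ dimI P = DD K (R 0) (R (a * j)) b ∧
      P ∈ (Ideal.span (QQ K (R 0) b : Set (MvPolynomial ι K))).minimalPrimes ∧
      ∀ n ≤ b', ∀ f : MvPolynomial ι K, f.IsHomogeneous n → (f ∈ P ↔ aeval (R 0) f = 0) := by
    intro a ha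
    obtain ⟨P, h1, h2, h3, h4, h5⟩ := DD_mem hTrd (hQb' a ha)
    obtain ⟨l, hl⟩ := exists_X_not_mem (K := K) (hne (a * j))
    have hl' : ∃ i, (X i : MvPolynomial ι K) ∉ P := ⟨l, fun h => hl (h4 h)⟩
    refine ⟨P, h1, h2, h4, h5.trans (hDi a ha), ?_, ?_⟩
    · exact minimal_of_dim hTrd h1 (QQ_mono h1 hl' hbb' h3) h4 (by rw [h5, hDi a ha])
    · intro n hn f hf
      constructor
      · intro h6
        exact (hpt a ha n hn f hf).1 (h4 h6)
      · intro h6
        exact QQ_mono h1 hl' hn h3 f (mem_QQ.2 ⟨hf, h6⟩)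
  choose! P hPp hPh hPle hPd hPm hPf using hP
  have hQhom : QQ K (R 0) b ≤ homogeneousSubmodule ι K b := fun f hf =>
    (mem_homogeneousSubmodule b f).2 (mem_QQ.1 hf).1
  have hbig : 2 * lam * (c * b) ≤ b' := by
    rw [hbb, hρ]
    calc 2 * lam * (c * b) = (2 * lam * c) * 1 * b := by ring
      _ ≤ (2 * lam * c + 1) * Y * b :=
        Nat.mul_le_mul_right b (Nat.mul_le_mul (Nat.le_succ _) hY1)
  have hdim : ∀ a ≤ A, dimI (P a) = dimI (P 0) := by
    intro a ha
    have hz : 0 ≤ A := Nat.zero_le _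
    have hforms : ∀ n ≤ b', ∀ f : MvPolynomial ι K, f.IsHomogeneous n →
        (f ∈ P a ↔ f ∈ P 0) := fun n hn f hf => by
      rw [hPf a ha n hn f hf, hPf 0 hz n hn f hf]
    refine le_antisymm ?_ ?_
    · exact dim_compare hTrd hHil hc1 hb1 hQhom (Nat.lt_succ_self _) hbig (hPp 0 hz) (hPp a ha)
        (hPm 0 hz) (hPh 0 hz) (dim_pos hTrd (hne _) (hPp 0 hz) (hPh 0 hz) (hPle 0 hz))
        (hPm a ha) (hPh a ha) (dim_pos hTrd (hne _) (hPp a ha) (hPh a ha) (hPle a ha))
        (fun n hn f hf => (hforms n hn f hf).symm)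
    · exact dim_compare hTrd hHil hc1 hb1 hQhom (Nat.lt_succ_self _) hbig (hPp a ha) (hPp 0 hz)
        (hPm a ha) (hPh a ha) (dim_pos hTrd (hne _) (hPp a ha) (hPh a ha) (hPle a ha))
        (hPm 0 hz) (hPh 0 hz) (dim_pos hTrd (hne _) (hPp 0 hz) (hPh 0 hz) (hPle 0 hz)) hforms
  have hz : 0 ≤ A := Nat.zero_le _
  have hVs := fun a : ℕ => pull_spec hTrc hq hF h0 (hPp 0 hz) (hPh 0 hz) (a * j)
  set V : ℕ → Ideal (MvPolynomial ι K) := fun a => pull F (P 0) (a * j) with hV
  have hVle : ∀ a, V a ≤ ptI K (R (a * j)) := by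
    intro a
    refine homI_le (hVs a).2.1 fun n f hf h1 => ?_
    rw [mem_ptI hf]
    have h2 := hPle 0 hz ((mem_pull (P 0) (a * j) f).1 h1)
    rw [mem_ptI (iter_hom hF (a * j) hf), iter_eval hR, zero_mul, zero_add] at h2
    exact h2
  have hVf : ∀ a n, n * q ^ (a * j) ≤ b' → ∀ f : MvPolynomial ι K, f.IsHomogeneous n →
      (f ∈ V a ↔ aeval (R 0) f = 0) := by
    intro a n hn f hf
    have h1 : f ∈ V a ↔ _ := mem_pull (P 0) (a * j) f
    rw [h1, hPf 0 hz _ hn _ (iter_hom hF (a * j) hf), iter_eval hR, zero_add]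
    exact (h21 a n (hn.trans ((Nat.le_mul_of_pos_right b' hY1).trans hb'T)) f hf).symm
  have hbY : ∀ n, n ≤ 2 * (c * b) → ∀ a ≤ A, n * q ^ (a * j) ≤ b' := by
    intro n hn a ha
    rw [hbb, hρ]
    calc n * q ^ (a * j) ≤ (2 * (c * b)) * Y := Nat.mul_le_mul hn (hYa a ha)
      _ = (2 * 1 * c) * Y * b := by ring
      _ ≤ (2 * lam * c + 1) * Y * b := by
        refine Nat.mul_le_mul_right b (Nat.mul_le_mul_right Y (le_trans ?_ (Nat.le_succ _)))
        exact Nat.mul_le_mul_right c (Nat.mul_le_mul_left 2 (by omega))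
  have hb2 : b ≤ 2 * (c * b) := by
    have : b ≤ c * b := Nat.le_mul_of_pos_left b hc1
    omega
  have hVm : ∀ a ≤ A, V a ∈ (Ideal.span (QQ K (R 0) b : Set (MvPolynomial ι K))).minimalPrimes := by
    intro a ha
    refine minimal_of_dim hTrd (hVs a).1 ?_ (hVle a) ?_
    · intro f hf
      rw [mem_QQ] at hf
      exact (hVf a b (hbY b hb2 a ha) f hf.1).2 hf.2
    · have h1 : dimI (V a) = dimI (P 0) := (hVs a).2.2
      rw [h1, ← hdim a ha, hPd a ha]
  obtain ⟨d, hd⟩ := Nat.exists_eq_add_of_le (dim_pos hTrd (hne _) (hPp 0 hz) (hPh 0 hz) (hPle 0 hz))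
  rw [add_comm] at hd
  have hdc : d ≤ c := by
    have := (hTrd K ι (P 0) (P 0) (hPp 0 hz) (hPp 0 hz) le_rfl).1
    omega
  have hninj : ¬ Function.Injective fun a : Fin (A + 1) => V a := by
    intro hinj
    obtain ⟨Δ, hΔ1, hΔ2, hΔ3⟩ := hHil K ι b (QQ K (R 0) b) hQhom d (A + 1) (fun a => V a) hinj
      (fun a => hVm a (by omega)) (fun a => (hVs a).2.1) (fun a => (hVs a).2.2.trans hd)
    set u := c * b with hu
    have hforms : ∀ a : Fin (A + 1), hf (⨅ a : Fin (A + 1), V a) (2 * u) = hf (V a) (2 * u) := by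
      intro a
      refine hf_congr fun f hf => ?_
      rw [hVf a _ (hbY _ le_rfl a (by omega)) f hf, Ideal.mem_iInf]
      constructor
      · intro h1
        exact (hVf a _ (hbY _ le_rfl a (by omega)) f hf).1 (h1 a)
      · intro h1 a'
        exact (hVf a' _ (hbY _ le_rfl a' (by omega)) f hf).2 h1
    have h1 := hΔ3 (2 * u) (by omega)
    rw [show 2 * u - Fintype.card ι * b = u by rw [hu, hc]; omega] at h1
    have hpos : 0 < (u + d).choose d := Nat.choose_pos (Nat.le_add_left d u)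
    have h2 : ∀ a : Fin (A + 1), ∑ a, Δ a ≤ 2 ^ d * Δ a := by
      intro a
      refine Nat.le_of_mul_le_mul_right (c := (u + d).choose d) ?_ hpos
      calc (∑ a, Δ a) * (u + d).choose d ≤ hf (⨅ a : Fin (A + 1), V a) (2 * u) := h1
        _ = hf (V a) (2 * u) := hforms a
        _ ≤ Δ a * (2 * u + d).choose d := hΔ2 a (2 * u)
        _ ≤ Δ a * (2 ^ d * (u + d).choose d) := Nat.mul_le_mul_left _ (choose_two u d)
        _ = 2 ^ d * Δ a * (u + d).choose d := by ring
    have h3 : (A + 1) * ∑ a, Δ a ≤ 2 ^ d * ∑ a, Δ a := by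
      have h4 := Finset.sum_le_sum fun a (_ : a ∈ (Finset.univ : Finset (Fin (A + 1)))) => h2 a
      rw [Finset.sum_const, Finset.card_univ, Fintype.card_fin, smul_eq_mul,
        ← Finset.mul_sum] at h4
      exact h4
    have h4 : 0 < ∑ a, Δ a := lt_of_lt_of_le (hΔ1 0)
      (Finset.single_le_sum (f := Δ) (fun _ _ => Nat.zero_le _) (Finset.mem_univ 0))
    have h5 : A + 1 ≤ 2 ^ d := Nat.le_of_mul_le_mul_right h3 h4
    have h6 : 2 ^ d ≤ A := Nat.pow_le_pow_right (by norm_num) hdc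
    omega
  -- two of the ideals are equal
  have hfin : ∃ a m : ℕ, 1 ≤ m ∧ a + m ≤ A ∧ V a = V (a + m) := by
    unfold Function.Injective at hninj
    push Not at hninj
    obtain ⟨a, a', h1, h2⟩ := hninj
    rcases lt_or_gt_of_ne h2 with h3 | h3
    · have h4 : (a : ℕ) < a' := h3
      refine ⟨a, a' - a, by omega, by omega, ?_⟩
      rw [show (a : ℕ) + (a' - a) = a' by omega]
      exact h1
    · have h4 : (a' : ℕ) < a := h3
      refine ⟨a', a - a', by omega, by omega, ?_⟩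
      rw [show (a' : ℕ) + (a - a') = a by omega]
      exact h1.symm
  obtain ⟨a, m, hm, ham, hVV⟩ := hfin
  refine ⟨a, m, V a, ?_, hm, (hVs a).1, (hVs a).2.1, ?_, ?_, ?_⟩
  · refine le_trans (by omega : a ≤ A) ?_
    exact Nat.le_mul_of_pos_left A (Nat.pow_pos (Nat.succ_pos _))
  · intro f n hf h1
    exact (mem_ptI hf).1 (hVle a h1)
  · intro f
    have h1 : f ∈ V a ↔ f ∈ V (a + m) := by rw [hVV]
    have h2 : f ∈ V (a + m) ↔ _ := mem_pull (P 0) ((a + m) * j) f
    have h3 : (bind₁ F : MvPolynomial ι K →ₐ[K] MvPolynomial ι K)^[m * j] f ∈ V a ↔ _ :=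
      mem_pull (P 0) (a * j) _
    rw [h1, h2, h3, ← Function.iterate_add_apply]
    rw [show a * j + m * j = (a + m) * j by ring]
  · intro f hf h1
    refine (hVf a t0 ?_ f hf).2 h1
    refine hbY t0 ?_ a (by omega)
    refine le_trans ?_ hb2
    exact Nat.le_mul_of_pos_left t0 (Nat.pow_pos hρ1)

end Pool.DynLehmer.LW
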