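import Pool.Agent.Lib.MP_2194ec_nt.LW.SmyD
import Pool.Agent.Lib.MP_2194ec_nt.RelLevels

set_option autoImplicit false

/-!
# A weak form of Smyth's theorem

If `a ≠ 0` is an algebraic number such that `1 / a` is not a conjugate of `a` over `ℚ`, then
`[ℚ(a) : ℚ] h(a) ≥ log (5 / 4)`.
-/

namespace Pool.DynLehmer.LW
open Polynomial NumberField

/-- A weak form of Smyth's theorem. -/
theorem smyth (N : Type) [Field N] [NumberField N] (a : N) (ha : a ≠ 0)
    (h : aeval a⁻¹ (minpoly ℚ a) ≠ 0) :
    Real.log (5 / 4) / (Module.finrank ℚ (IntermediateField.adjoin ℚ {a}) : ℝ) ≤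
      Height.logHeight (![a, 1] : Fin 2 → N) / (Module.finrank ℚ N : ℝ) := by
  set L := IntermediateField.adjoin ℚ {a} with hL
  set x : L := IntermediateField.AdjoinSimple.gen ℚ a with hxd
  have hxa : algebraMap L N x = a := IntermediateField.AdjoinSimple.algebraMap_gen ℚ a
  have hint : IsIntegral ℚ a := Algebra.IsIntegral.isIntegral a
  have hx : Algebra.adjoin ℚ ({x} : Set L) = ⊤ :=
    (IntermediateField.adjoin.powerBasis hint).adjoin_gen_eq_top
  have h0 : x ≠ 0 := by
    intro h0
    apply ha
    rw [← hxa, h0, map_zero]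
  have hmin : minpoly ℚ x = minpoly ℚ a := IntermediateField.minpoly_gen ℚ a
  have hne : aeval x⁻¹ (minpoly ℚ x) ≠ 0 := by
    intro h1
    apply h
    rw [← hxa, ← map_inv₀, aeval_algebraMap_apply, hxa, ← hmin, h1, map_zero]
  have h1 := Smy.smyth_gen x hx h0 hne
  rw [Height.logHeight₁_eq_logHeight] at h1
  have h2 := Pool.DynLehmer.logHeight_hom (algebraMap L N) (![x, 1] : Fin 2 → L)
  have h3 : (fun i => algebraMap L N ((![x, 1] : Fin 2 → L) i)) = (![a, 1] : Fin 2 → N) := by
    funext i
    fin_cases i
    · exact hxa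
    · exact map_one _
  rw [h3] at h2
  rw [h2]
  exact div_le_div_of_nonneg_right h1 (Nat.cast_nonneg _)

/-- A weak form of Smyth's theorem over a number field `K`. -/
theorem smyth_rel (K : Type) [Field K] [NumberField K] : ∃ c : ℝ, 0 < c ∧
    ∀ (N : Type) [Field N] [NumberField N] [Algebra K N] (a : N), a ≠ 0 →
      aeval a⁻¹ (minpoly ℚ a) ≠ 0 →
      c / (Module.finrank K (IntermediateField.adjoin K {a}) : ℝ) ≤
        Height.logHeight (![a, 1] : Fin 2 → N) / (Module.finrank ℚ N : ℝ) := by
  have hK : (0 : ℝ) < Module.finrank ℚ K := by exact_mod_cast Module.finrank_pos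
  have hlog : 0 < Real.log (5 / 4) := Real.log_pos (by norm_num)
  refine ⟨Real.log (5 / 4) / Module.finrank ℚ K, by positivity, ?_⟩
  intro N _ _ _ a ha h
  refine le_trans ?_ (smyth N a ha h)
  have hfd : FiniteDimensional K N := Module.Finite.of_restrictScalars_finite ℚ K N
  set E := IntermediateField.adjoin K {a} with hE
  have haE : a ∈ E := IntermediateField.mem_adjoin_simple_self K a
  have htower : Module.finrank ℚ K * Module.finrank K E = Module.finrank ℚ E :=
    Module.finrank_mul_finrank ℚ K E
  have hfdE : FiniteDimensional ℚ E := Module.Finite.trans K E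
  have hle : Module.finrank ℚ (IntermediateField.adjoin ℚ {a}) ≤ Module.finrank ℚ E := by
    have h1 : IntermediateField.adjoin ℚ {a} ≤ E.restrictScalars ℚ := by
      rw [IntermediateField.adjoin_simple_le_iff]
      exact haE
    exact IntermediateField.finrank_le_of_le_right h1
  have hpos : 0 < Module.finrank ℚ (IntermediateField.adjoin ℚ {a}) := Module.finrank_pos
  rw [div_div]
  apply div_le_div_of_nonneg_left hlog.le (by exact_mod_cast hpos)
  rw [← htower] at hle
  exact_mod_cast hle

end Pool.DynLehmer.LW
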