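import Mathlib

set_option autoImplicit false

/-!
# A weak form of Smyth's theorem: the analytic part
-/

namespace Pool.DynLehmer.LW.Smy
open Complex

/-- The basic inequality for Blaschke factors. -/
theorem norm_sub_le {a z : ℂ} (ha : ‖a‖ ≤ 1) (hz : ‖z‖ ≤ 1) :
    ‖z - a‖ ≤ ‖1 - (starRingEnd ℂ) a * z‖ := by
  have h1 : ‖1 - (starRingEnd ℂ) a * z‖ ^ 2 - ‖z - a‖ ^ 2 = (1 - ‖z‖ ^ 2) * (1 - ‖a‖ ^ 2) := by
    simp only [← Complex.normSq_eq_norm_sq, Complex.normSq_apply]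
    simp
    ring
  have h2 : 0 ≤ (1 - ‖z‖ ^ 2) * (1 - ‖a‖ ^ 2) := by
    apply mul_nonneg
    · nlinarith [norm_nonneg z]
    · nlinarith [norm_nonneg a]
  have h3 : ‖z - a‖ ^ 2 ≤ ‖1 - (starRingEnd ℂ) a * z‖ ^ 2 := by linarith
  exact (pow_le_pow_iff_left₀ (norm_nonneg _) (norm_nonneg _) two_ne_zero).1 h3

theorem le_norm_sub {a z : ℂ} (ha : 1 ≤ ‖a‖) (hz : ‖z‖ ≤ 1) :
    ‖1 - (starRingEnd ℂ) a * z‖ ≤ ‖z - a‖ := by
  have h1 : ‖1 - (starRingEnd ℂ) a * z‖ ^ 2 - ‖z - a‖ ^ 2 = (1 - ‖z‖ ^ 2) * (1 - ‖a‖ ^ 2) := by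
    simp only [← Complex.normSq_eq_norm_sq, Complex.normSq_apply]
    simp
    ring
  have h2 : (1 - ‖z‖ ^ 2) * (1 - ‖a‖ ^ 2) ≤ 0 := by
    apply mul_nonpos_of_nonneg_of_nonpos
    · nlinarith [norm_nonneg z]
    · nlinarith [norm_nonneg a]
  have h3 : ‖1 - (starRingEnd ℂ) a * z‖ ^ 2 ≤ ‖z - a‖ ^ 2 := by linarith
  exact (pow_le_pow_iff_left₀ (norm_nonneg _) (norm_nonneg _) two_ne_zero).1 h3

theorem one_sub_ne {a z : ℂ} (ha : ‖a‖ ≤ 1) (hz : ‖z‖ < 1) : 1 - (starRingEnd ℂ) a * z ≠ 0 := by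
  intro h
  have h1 : (starRingEnd ℂ) a * z = 1 := (sub_eq_zero.1 h).symm
  have h2 : ‖(starRingEnd ℂ) a * z‖ = 1 := by rw [h1]; simp
  rw [norm_mul, RCLike.norm_conj] at h2
  have := mul_le_mul ha hz.le (norm_nonneg z) zero_le_one
  nlinarith [norm_nonneg a, norm_nonneg z]

/-- The key inequality. -/
theorem key {f g ψ : ℂ → ℂ} {k : ℕ} (hf : DifferentiableOn ℂ f (Metric.ball 0 1))
    (hg : DifferentiableOn ℂ g (Metric.ball 0 1)) (hψ : DifferentiableOn ℂ ψ (Metric.ball 0 1))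
    (hf1 : ∀ z, ‖z‖ < 1 → ‖f z‖ ≤ 1) (hg1 : ∀ z, ‖z‖ < 1 → ‖g z‖ ≤ 1)
    (h : ∀ z, ‖z‖ < 1 → f z - g z = z ^ k * ψ z) (h0 : f 0 = g 0) (hw : ‖g 0‖ < 1) :
    ‖ψ 0‖ ≤ 2 * (1 - ‖g 0‖ ^ 2) := by
  set w := g 0 with hwd
  have hw2 : 0 < 1 - ‖w‖ ^ 2 := by nlinarith [norm_nonneg w]
  have hden : ∀ {u : ℂ}, ‖u‖ ≤ 1 → 1 - (starRingEnd ℂ) w * u ≠ 0 := by
    intro u hu h1
    have h2 : (starRingEnd ℂ) w * u = 1 := (sub_eq_zero.1 h1).symm
    have h3 : ‖(starRingEnd ℂ) w * u‖ = 1 := by rw [h2]; simp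
    rw [norm_mul, RCLike.norm_conj] at h3
    nlinarith [norm_nonneg w, norm_nonneg u]
  -- the function
  set Φ : ℂ → ℂ := fun z => ψ z * ((1 - ‖w‖ ^ 2 : ℝ) : ℂ) /
    ((1 - (starRingEnd ℂ) w * f z) * (1 - (starRingEnd ℂ) w * g z)) with hΦ
  have hΦd : DifferentiableOn ℂ Φ (Metric.ball 0 1) := by
    apply DifferentiableOn.div
    · exact hψ.mul_const _
    · exact ((hf.const_mul _).const_sub _).mul ((hg.const_mul _).const_sub _)
    · intro z hz
      have hz' : ‖z‖ < 1 := by simpa using hz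
      exact mul_ne_zero (hden (hf1 z hz')) (hden (hg1 z hz'))
  have hbd : ∀ r : ℝ, 0 < r → r < 1 → ‖Φ 0‖ ≤ 2 / r ^ k := by
    intro r hr0 hr1
    have hsub : Metric.closedBall (0 : ℂ) r ⊆ Metric.ball 0 1 := Metric.closedBall_subset_ball hr1
    have hdc : DiffContOnCl ℂ Φ (Metric.ball 0 r) := by
      apply DifferentiableOn.diffContOnCl
      rw [closure_ball _ hr0.ne']
      exact hΦd.mono hsub
    apply Complex.norm_le_of_forall_mem_frontier_norm_le (U := Metric.ball 0 r)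
      Metric.isBounded_ball hdc
    · intro z hz
      rw [frontier_ball _ hr0.ne'] at hz
      have hzr : ‖z‖ = r := by simpa using hz
      have hz1 : ‖z‖ < 1 := by rw [hzr]; exact hr1
      have hfz := hf1 z hz1
      have hgz := hg1 z hz1
      have e : z ^ k * Φ z = (f z - w) / (1 - (starRingEnd ℂ) w * f z) -
          (g z - w) / (1 - (starRingEnd ℂ) w * g z) := by
        have e1 := h z hz1
        have d1 := hden hfz
        have d2 := hden hgz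
        have e2 : ((1 - ‖w‖ ^ 2 : ℝ) : ℂ) = 1 - (starRingEnd ℂ) w * w := by
          push_cast
          rw [← Complex.conj_mul']
        rw [hΦ]
        simp only
        rw [e2, ← mul_div_assoc, ← mul_assoc, ← e1, div_sub_div _ _ d1 d2]
        congr 1
        ring
      have b1 : ‖(f z - w) / (1 - (starRingEnd ℂ) w * f z)‖ ≤ 1 := by
        rw [norm_div]
        exact div_le_one_of_le₀ (norm_sub_le hw.le hfz) (norm_nonneg _)
      have b2 : ‖(g z - w) / (1 - (starRingEnd ℂ) w * g z)‖ ≤ 1 := by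
        rw [norm_div]
        exact div_le_one_of_le₀ (norm_sub_le hw.le hgz) (norm_nonneg _)
      have b3 : ‖z ^ k * Φ z‖ ≤ 2 := by
        rw [e]
        exact (norm_sub_le_of_le b1 b2).trans (by norm_num)
      rw [norm_mul, norm_pow, hzr] at b3
      rw [le_div_iff₀ (pow_pos hr0 k)]
      linarith
    · apply subset_closure
      simpa using hr0
  have hlim : ‖Φ 0‖ ≤ 2 := by
    have ht : Filter.Tendsto (fun r : ℝ => 2 / r ^ k) (nhdsWithin 1 (Set.Iio 1)) (nhds 2) := by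
      have : Filter.Tendsto (fun r : ℝ => 2 / r ^ k) (nhds 1) (nhds (2 / 1 ^ k)) := by
        apply Filter.Tendsto.div tendsto_const_nhds
        · exact (continuous_pow k).tendsto 1
        · simp
      simp only [one_pow, div_one] at this
      exact this.mono_left nhdsWithin_le_nhds
    refine ge_of_tendsto ht ?_
    have : Set.Ioo (0 : ℝ) 1 ∈ nhdsWithin (1 : ℝ) (Set.Iio 1) :=
      Ioo_mem_nhdsLT (by norm_num)
    filter_upwards [this] with r hr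
    exact hbd r hr.1 hr.2
  have h4 : Φ 0 = ψ 0 / ((1 - ‖w‖ ^ 2 : ℝ) : ℂ) := by
    have e2 : ((1 - ‖w‖ ^ 2 : ℝ) : ℂ) = 1 - (starRingEnd ℂ) w * w := by
      push_cast
      rw [← Complex.conj_mul']
    have e3 : ((1 - ‖w‖ ^ 2 : ℝ) : ℂ) ≠ 0 := by exact_mod_cast hw2.ne'
    rw [hΦ]
    simp only
    rw [h0, ← hwd, ← e2]
    field_simp
  rw [h4, norm_div, Complex.norm_real, Real.norm_eq_abs, abs_of_pos hw2, div_le_iff₀ hw2] at hlim
  linarith

end Pool.DynLehmer.LW.Smy
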