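import Pool.Agent.Lib.MP_2194ec_nt.LW.SmyA

set_option autoImplicit false

/-!
# A weak form of Smyth's theorem: the inequality for polynomials
-/

namespace Pool.DynLehmer.LW.Smy
open Complex Polynomial

theorem norm_prod_le (s : Multiset ℂ) (f g : ℂ → ℂ) (h : ∀ a ∈ s, ‖f a‖ ≤ ‖g a‖) :
    ‖(s.map f).prod‖ ≤ ‖(s.map g).prod‖ := by
  induction s using Multiset.induction_on with
  | empty => simp
  | cons a s ih =>
    rw [Multiset.map_cons, Multiset.map_cons, Multiset.prod_cons, Multiset.prod_cons, norm_mul,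
      norm_mul]
    exact mul_le_mul (h a (Multiset.mem_cons_self a s))
      (ih fun b hb => h b (Multiset.mem_cons_of_mem hb)) (norm_nonneg _) (norm_nonneg _)

theorem norm_prod (s : Multiset ℂ) (f : ℂ → ℂ) :
    ‖(s.map f).prod‖ = (s.map fun a => ‖f a‖).prod := by
  induction s using Multiset.induction_on with
  | empty => simp
  | cons a s ih => simp [ih]

theorem eval_P (s : Multiset ℂ) (z : ℂ) :
    (s.map fun a => X - C a).prod.eval z = (s.map fun a => z - a).prod := by
  rw [Polynomial.eval_multiset_prod, Multiset.map_map]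
  simp

theorem eval_R (s : Multiset ℂ) (z : ℂ) :
    (s.map fun a => (1 : ℂ[X]) - C ((starRingEnd ℂ) a) * X).prod.eval z =
      (s.map fun a => 1 - (starRingEnd ℂ) a * z).prod := by
  rw [Polynomial.eval_multiset_prod, Multiset.map_map]
  simp

theorem prod_ne (s : Multiset ℂ) (f : ℂ → ℂ) (h : ∀ a ∈ s, f a ≠ 0) : (s.map f).prod ≠ 0 := by
  intro h0
  obtain ⟨a, ha, h1⟩ := Multiset.mem_map.1 (Multiset.prod_eq_zero_iff.1 h0)
  exact h a ha h1

theorem one_le (s : Multiset ℂ) (h : ∀ a ∈ s, 1 ≤ ‖a‖) : 1 ≤ (s.map fun a => ‖a‖).prod := by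
  induction s using Multiset.induction_on with
  | empty => simp
  | cons a s ih =>
    rw [Multiset.map_cons, Multiset.prod_cons]
    have h1 := h a (Multiset.mem_cons_self a s)
    have h2 := ih fun b hb => h b (Multiset.mem_cons_of_mem hb)
    nlinarith

/-- The numbers of modulus more than one. -/
theorem bound_aux (si so : Multiset ℂ) (hi : ∀ a ∈ si, ‖a‖ ≤ 1) (ho : ∀ a ∈ so, 1 < ‖a‖)
    (hne : so ≠ 0) (ε : ℂ) (hε : ‖ε‖ = 1) (k : ℕ) (hk : 1 ≤ k) (S : ℂ[X])
    (h : C ε * ((si.map fun a => X - C a).prod * (so.map fun a => X - C a).prod) -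
      (si.map fun a => (1 : ℂ[X]) - C ((starRingEnd ℂ) a) * X).prod *
      (so.map fun a => (1 : ℂ[X]) - C ((starRingEnd ℂ) a) * X).prod = X ^ k * S) :
    ‖S.eval 0‖ ≤ 2 * ((so.map fun a => ‖a‖).prod - 1 / (so.map fun a => ‖a‖).prod) := by
  set Pi : ℂ[X] := (si.map fun a => X - C a).prod with hPi
  set Po : ℂ[X] := (so.map fun a => X - C a).prod with hPo
  set Ri : ℂ[X] := (si.map fun a => (1 : ℂ[X]) - C ((starRingEnd ℂ) a) * X).prod with hRi
  set Ro : ℂ[X] := (so.map fun a => (1 : ℂ[X]) - C ((starRingEnd ℂ) a) * X).prod with hRo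
  set M : ℝ := (so.map fun a => ‖a‖).prod with hM
  have hRin : ∀ z : ℂ, ‖z‖ < 1 → Ri.eval z ≠ 0 := by
    intro z hz
    rw [hRi, eval_R]
    exact prod_ne _ _ fun a ha => one_sub_ne (hi a ha) hz
  have hPon : ∀ z : ℂ, ‖z‖ < 1 → Po.eval z ≠ 0 := by
    intro z hz
    rw [hPo, eval_P]
    apply prod_ne
    intro a ha h0
    have := ho a ha
    rw [← sub_eq_zero.1 h0] at this
    linarith
  have hP0 : ‖Po.eval 0‖ = M := by
    rw [hPo, eval_P, norm_prod, hM]
    congr 1
    apply Multiset.map_congr rfl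
    intro a _
    simp
  have hM1 : 1 < M := by
    obtain ⟨a, t, rfl⟩ : ∃ a t, so = a ::ₘ t := by
      obtain ⟨a, ha⟩ := Multiset.exists_mem_of_ne_zero hne
      exact ⟨a, so.erase a, (Multiset.cons_erase ha).symm⟩
    rw [hM, Multiset.map_cons, Multiset.prod_cons]
    have h1 : 1 < ‖a‖ := ho a (Multiset.mem_cons_self a t)
    have h2 : 1 ≤ (t.map fun a => ‖a‖).prod :=
      one_le t fun b hb => (ho b (Multiset.mem_cons_of_mem hb)).le
    nlinarith
  set f : ℂ → ℂ := fun z => ε * Pi.eval z / Ri.eval z with hf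
  set g : ℂ → ℂ := fun z => Ro.eval z / Po.eval z with hg
  set ψ : ℂ → ℂ := fun z => S.eval z / (Ri.eval z * Po.eval z) with hψ
  have hdf : DifferentiableOn ℂ f (Metric.ball 0 1) := by
    apply DifferentiableOn.div
    · exact (Pi.differentiable.differentiableOn).const_mul _
    · exact Ri.differentiable.differentiableOn
    · intro z hz
      exact hRin z (by simpa using hz)
  have hdg : DifferentiableOn ℂ g (Metric.ball 0 1) := by
    apply DifferentiableOn.div
    · exact Ro.differentiable.differentiableOn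
    · exact Po.differentiable.differentiableOn
    · intro z hz
      exact hPon z (by simpa using hz)
  have hdψ : DifferentiableOn ℂ ψ (Metric.ball 0 1) := by
    apply DifferentiableOn.div
    · exact S.differentiable.differentiableOn
    · exact (Ri.differentiable.mul Po.differentiable).differentiableOn
    · intro z hz
      exact mul_ne_zero (hRin z (by simpa using hz)) (hPon z (by simpa using hz))
  have hf1 : ∀ z, ‖z‖ < 1 → ‖f z‖ ≤ 1 := by
    intro z hz
    rw [hf]
    simp only
    rw [norm_div, norm_mul, hε, one_mul]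
    apply div_le_one_of_le₀ _ (norm_nonneg _)
    rw [hPi, hRi, eval_P, eval_R]
    exact norm_prod_le _ _ _ fun a ha => norm_sub_le (hi a ha) hz.le
  have hg1 : ∀ z, ‖z‖ < 1 → ‖g z‖ ≤ 1 := by
    intro z hz
    rw [hg]
    simp only
    rw [norm_div]
    apply div_le_one_of_le₀ _ (norm_nonneg _)
    rw [hPo, hRo, eval_P, eval_R]
    exact norm_prod_le _ _ _ fun a ha => le_norm_sub (ho a ha).le hz.le
  have hfg : ∀ z, ‖z‖ < 1 → f z - g z = z ^ k * ψ z := by
    intro z hz
    have h1 := congrArg (fun p : ℂ[X] => p.eval z) h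
    simp only [eval_sub, eval_mul, eval_C, eval_pow, eval_X] at h1
    rw [hf, hg, hψ]
    simp only
    rw [div_sub_div _ _ (hRin z hz) (hPon z hz), ← mul_div_assoc, ← h1]
    congr 1
    ring
  have h0 : f 0 = g 0 := by
    have := hfg 0 (by simp)
    rw [zero_pow (by omega), zero_mul] at this
    exact sub_eq_zero.1 this
  have hg0 : ‖g 0‖ = 1 / M := by
    rw [hg]
    simp only
    rw [norm_div, hP0, hRo, eval_R]
    simp
  have hw : ‖g 0‖ < 1 := by
    rw [hg0, div_lt_one (by linarith)]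
    exact hM1
  have hkey := key hdf hdg hdψ hf1 hg1 hfg h0 hw
  have hR0 : Ri.eval 0 = 1 := by
    rw [hRi, eval_R]
    simp
  have hψ0 : ‖ψ 0‖ = ‖S.eval 0‖ / M := by
    rw [hψ]
    simp only
    rw [hR0, one_mul, norm_div, hP0]
  rw [hψ0, hg0, div_le_iff₀ (by linarith)] at hkey
  have hMn : M ≠ 0 := by linarith
  calc ‖S.eval 0‖ ≤ 2 * (1 - (1 / M) ^ 2) * M := hkey
    _ = 2 * (M - 1 / M) := by field_simp

/-- If the roots are on the unit circle. -/
theorem circle_aux (s : Multiset ℂ) (h1 : ∀ a ∈ s, ‖a‖ = 1) :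
    (s.map fun a => X - C a).prod =
      C ((s.map fun a => -a).prod) *
        (s.map fun a => (1 : ℂ[X]) - C ((starRingEnd ℂ) a) * X).prod := by
  induction s using Multiset.induction_on with
  | empty => simp
  | cons a s ih =>
    rw [Multiset.map_cons, Multiset.map_cons, Multiset.map_cons, Multiset.prod_cons,
      Multiset.prod_cons, Multiset.prod_cons, ih fun b hb => h1 b (Multiset.mem_cons_of_mem hb)]
    have e : X - C a = C (-a) * ((1 : ℂ[X]) - C ((starRingEnd ℂ) a) * X) := by
      have h2 : a * (starRingEnd ℂ) a = 1 := by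
        rw [Complex.mul_conj, Complex.normSq_eq_norm_sq, h1 a (Multiset.mem_cons_self a s)]
        simp
      have h3 : C a * C ((starRingEnd ℂ) a) = (1 : ℂ[X]) := by rw [← C_mul, h2, C_1]
      rw [C_neg]
      linear_combination (-X : ℂ[X]) * h3
    rw [e, C_mul]
    ring

theorem norm_one_of_prod (s : Multiset ℂ) (h : ∀ a ∈ s, ‖a‖ ≤ 1)
    (hp : (s.map fun a => ‖a‖).prod = 1) : ∀ a ∈ s, ‖a‖ = 1 := by
  intro a ha
  obtain ⟨t, rfl⟩ := Multiset.exists_cons_of_mem ha
  rw [Multiset.map_cons, Multiset.prod_cons] at hp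
  have h2 : (t.map fun a => ‖a‖).prod ≤ 1 := by
    clear hp ha
    induction t using Multiset.induction_on with
    | empty => simp
    | cons b t ih =>
      rw [Multiset.map_cons, Multiset.prod_cons]
      have h3 := ih (fun c hc => h c (by
        rcases Multiset.mem_cons.1 hc with h4 | h4
        · simp [h4]
        · simp [h4]))
      have h4 := h b (by simp)
      have h5 : 0 ≤ (t.map fun a => ‖a‖).prod := by
        apply Multiset.prod_nonneg
        intro x hx
        obtain ⟨c, _, rfl⟩ := Multiset.mem_map.1 hx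
        exact norm_nonneg c
      nlinarith [norm_nonneg b]
  have h3 := h a (Multiset.mem_cons_self a t)
  have h5 : 0 ≤ (t.map fun a => ‖a‖).prod := by
    apply Multiset.prod_nonneg
    intro x hx
    obtain ⟨c, _, rfl⟩ := Multiset.mem_map.1 hx
    exact norm_nonneg c
  nlinarith [norm_nonneg a]

theorem max_prod (si so : Multiset ℂ) (hi : ∀ a ∈ si, ‖a‖ ≤ 1) (ho : ∀ a ∈ so, 1 < ‖a‖) :
    ((si + so).map fun a => max 1 ‖a‖).prod = (so.map fun a => ‖a‖).prod := by
  rw [Multiset.map_add, Multiset.prod_add]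
  have e1 : (si.map fun a => max 1 ‖a‖).prod = 1 := by
    apply Multiset.prod_eq_one
    intro x hx
    obtain ⟨a, ha, rfl⟩ := Multiset.mem_map.1 hx
    exact max_eq_left (hi a ha)
  rw [e1, one_mul]
  congr 1
  apply Multiset.map_congr rfl
  intro a ha
  exact max_eq_right (ho a ha).le

/-- The inequality. -/
theorem bound (s : Multiset ℂ) (hp : (s.map fun a => ‖a‖).prod = 1) (ε : ℂ) (hε : ‖ε‖ = 1)
    (k : ℕ) (hk : 1 ≤ k) (S : ℂ[X])
    (h : C ε * (s.map fun a => X - C a).prod -
      (s.map fun a => (1 : ℂ[X]) - C ((starRingEnd ℂ) a) * X).prod = X ^ k * S)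
    (hc : 1 ≤ ‖S.eval 0‖) : 5 / 4 ≤ (s.map fun a => max 1 ‖a‖).prod := by
  classical
  set si := s.filter fun a => ‖a‖ ≤ 1 with hsi
  set so := s.filter fun a => ¬ ‖a‖ ≤ 1 with hso
  have hs : s = si + so := (Multiset.filter_add_not _ s).symm
  have hi : ∀ a ∈ si, ‖a‖ ≤ 1 := fun a ha => (Multiset.mem_filter.1 ha).2
  have ho : ∀ a ∈ so, 1 < ‖a‖ := fun a ha => not_le.1 (Multiset.mem_filter.1 ha).2
  by_cases hne : so = 0
  · exfalso
    rw [hne, add_zero] at hs
    have h1 := norm_one_of_prod s (by rw [hs]; exact hi) hp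
    rw [circle_aux s h1] at h
    set R : ℂ[X] := (s.map fun a => (1 : ℂ[X]) - C ((starRingEnd ℂ) a) * X).prod with hR
    have hR0 : R.eval 0 = 1 := by
      rw [hR, eval_R]
      simp
    have h2 := congrArg (fun p : ℂ[X] => p.eval 0) h
    simp only [eval_sub, eval_mul, eval_C, eval_pow, eval_X, hR0] at h2
    rw [zero_pow (by omega), zero_mul, mul_one] at h2
    have h3 : ε * (s.map fun a => -a).prod = 1 := sub_eq_zero.1 h2
    have h4 : X ^ k * S = 0 := by
      rw [← h, ← mul_assoc, ← C_mul, h3, C_1, one_mul, sub_self]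
    have h5 : S = 0 := by
      rcases mul_eq_zero.1 h4 with h6 | h6
      · exact absurd h6 (pow_ne_zero _ X_ne_zero)
      · exact h6
    rw [h5] at hc
    simp at hc
    linarith
  · have h1 : C ε * ((si.map fun a => X - C a).prod * (so.map fun a => X - C a).prod) -
      (si.map fun a => (1 : ℂ[X]) - C ((starRingEnd ℂ) a) * X).prod *
      (so.map fun a => (1 : ℂ[X]) - C ((starRingEnd ℂ) a) * X).prod = X ^ k * S := by
      rw [← h, hs, Multiset.map_add, Multiset.prod_add, Multiset.map_add, Multiset.prod_add]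
    have h2 := bound_aux si so hi ho hne ε hε k hk S h1
    rw [hs, max_prod si so hi ho]
    set M : ℝ := (so.map fun a => ‖a‖).prod with hM
    have hM0 : 0 < M := by
      rw [hM]
      apply Multiset.prod_pos
      intro x hx
      obtain ⟨a, ha, rfl⟩ := Multiset.mem_map.1 hx
      exact lt_trans one_pos (ho a ha)
    by_contra hlt
    rw [not_le] at hlt
    have h3 : 1 ≤ 2 * (M - 1 / M) := hc.trans h2
    have h4 : 4 / 5 < 1 / M := by
      rw [lt_div_iff₀ hM0]
      linarith
    linarith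

end Pool.DynLehmer.LW.Smy
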