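import Pool.Agent.Lib.MP_2194ec_nt.LW.SmyB

set_option autoImplicit false

/-!
# A weak form of Smyth's theorem: polynomials over the integers
-/

namespace Pool.DynLehmer.LW.Smy
open Complex Polynomial

theorem reverse_lin (a : ℂ) : (X - C a : ℂ[X]).reverse = 1 - C a * X := by
  have h1 : (X - C a : ℂ[X]).natDegree = 1 := natDegree_X_sub_C a
  ext n
  rw [coeff_reverse, h1]
  rcases n with _ | _ | n
  · simp [revAt_le]
  · simp [revAt_le, coeff_one]
  · rw [revAt_eq_self_of_lt (by omega)]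
    simp [coeff_X, coeff_one]

theorem reverse_prod (s : Multiset ℂ) :
    (s.map fun a => (X - C a : ℂ[X])).prod.reverse =
      (s.map fun a => (1 : ℂ[X]) - C a * X).prod := by
  induction s using Multiset.induction_on with
  | empty =>
    simp only [Multiset.map_zero, Multiset.prod_zero]
    rw [← C_1, reverse_C]
  | cons a s ih =>
    rw [Multiset.map_cons, Multiset.prod_cons, reverse_mul_of_domain, ih, reverse_lin,
      Multiset.map_cons, Multiset.prod_cons]

theorem reverse_map' (p : ℤ[X]) :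
    (p.map (Int.castRingHom ℂ)).reverse = p.reverse.map (Int.castRingHom ℂ) := by
  ext n
  rw [coeff_reverse, coeff_map, coeff_map, coeff_reverse,
    natDegree_map_eq_of_injective (RingHom.injective_int (Int.castRingHom ℂ))]

theorem roots_prod (p : ℤ[X]) (hp : p.Monic) :
    ((p.map (Int.castRingHom ℂ)).roots.map fun a => (X - C a : ℂ[X])).prod =
      p.map (Int.castRingHom ℂ) :=
  ((IsAlgClosed.splits _).eq_prod_roots_of_monic (hp.map _)).symm

theorem conj_prod (p : ℤ[X]) (hp : p.Monic) :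
    ((p.map (Int.castRingHom ℂ)).roots.map fun a => (1 : ℂ[X]) - C ((starRingEnd ℂ) a) * X).prod =
      p.reverse.map (Int.castRingHom ℂ) := by
  rw [← reverse_map']
  have h1 : (p.map (Int.castRingHom ℂ)).map (starRingEnd ℂ) = p.map (Int.castRingHom ℂ) := by
    rw [Polynomial.map_map]
    congr 1
    exact RingHom.ext_int _ _
  have h2 := roots_prod p hp
  set s := (p.map (Int.castRingHom ℂ)).roots with hs
  have h3 : ((s.map (starRingEnd ℂ)).map fun a => (X - C a : ℂ[X])).prod =
      p.map (Int.castRingHom ℂ) := by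
    conv_rhs => rw [← h1, ← h2]
    rw [Polynomial.map_multiset_prod, Multiset.map_map, Multiset.map_map]
    congr 1
    apply Multiset.map_congr rfl
    intro a _
    simp
  rw [← h3, reverse_prod, Multiset.map_map]
  rfl

/-- The inequality for polynomials over the integers. -/
theorem int_bound (p : ℤ[X]) (hp : p.Monic) (hu : p.coeff 0 * p.coeff 0 = 1)
    (hr : p.reverse ≠ C (p.coeff 0) * p) :
    5 / 4 ≤ ((p.map (Int.castRingHom ℂ)).roots.map fun a => max 1 ‖a‖).prod := by
  set q : ℤ[X] := C (p.coeff 0) * p - p.reverse with hq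
  have hq0 : q ≠ 0 := by
    intro h0
    exact hr (sub_eq_zero.1 h0).symm
  have hqc : q.coeff 0 = 0 := by
    rw [hq, coeff_sub, coeff_C_mul, hu, coeff_zero_reverse, hp.leadingCoeff, sub_self]
  obtain ⟨S, hS, hnd⟩ := exists_eq_pow_rootMultiplicity_mul_and_not_dvd q hq0 0
  set k := q.rootMultiplicity 0 with hk
  rw [C_0, sub_zero] at hS hnd
  have hk1 : 1 ≤ k := by
    rw [hk, Nat.one_le_iff_ne_zero, ← Nat.pos_iff_ne_zero, rootMultiplicity_pos hq0, IsRoot.def,
      ← coeff_zero_eq_eval_zero]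
    exact hqc
  have hS0 : S.coeff 0 ≠ 0 := by
    intro h0
    exact hnd (X_dvd_iff.2 h0)
  have hn : ‖((p.coeff 0 : ℤ) : ℂ)‖ = 1 := by
    have h1 : ((p.coeff 0 : ℤ) : ℂ) * ((p.coeff 0 : ℤ) : ℂ) = 1 := by exact_mod_cast hu
    have h2 : ‖((p.coeff 0 : ℤ) : ℂ)‖ * ‖((p.coeff 0 : ℤ) : ℂ)‖ = 1 := by
      rw [← norm_mul, h1, norm_one]
    nlinarith [norm_nonneg ((p.coeff 0 : ℤ) : ℂ)]
  have hroots := roots_prod p hp
  refine bound _ ?_ ((p.coeff 0 : ℤ) : ℂ) hn k hk1 (S.map (Int.castRingHom ℂ)) ?_ ?_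
  · rw [← norm_prod]
    have h1 := congrArg (fun r : ℂ[X] => r.eval 0) hroots
    rw [eval_P, ← coeff_zero_eq_eval_zero, coeff_map] at h1
    have h2 : (((p.map (Int.castRingHom ℂ)).roots.map fun a => 0 - a).prod) =
        ((p.coeff 0 : ℤ) : ℂ) := h1
    have h3 := norm_prod ((p.map (Int.castRingHom ℂ)).roots) fun a => 0 - a
    rw [h2, hn] at h3
    have h4 := norm_prod ((p.map (Int.castRingHom ℂ)).roots) fun a => a
    rw [h4, h3]
    congr 1
    apply Multiset.map_congr rfl
    intro a _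
    simp
  · rw [hroots, conj_prod p hp]
    have h1 := congrArg (fun r : ℤ[X] => r.map (Int.castRingHom ℂ)) hS
    simp only [hq, Polynomial.map_sub, Polynomial.map_mul, Polynomial.map_pow, map_X, map_C] at h1
    exact h1
  · rw [← coeff_zero_eq_eval_zero, coeff_map]
    have h1 : (1 : ℝ) ≤ |((S.coeff 0 : ℤ) : ℝ)| := by
      exact_mod_cast Int.one_le_abs hS0
    have h2 : ‖(Int.castRingHom ℂ) (S.coeff 0)‖ = |((S.coeff 0 : ℤ) : ℝ)| := by
      simp [Complex.norm_intCast]
    rw [h2]
    exact h1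

end Pool.DynLehmer.LW.Smy
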