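import Pool.Agent.Lib.MP_2194ec_nt.LW.SmyC

set_option autoImplicit false

/-!
# A weak form of Smyth's theorem: generators of number fields
-/

namespace Pool.DynLehmer.LW.Smy
open Complex Polynomial NumberField

variable {L : Type} [Field L] [NumberField L]

theorem prod_places (f : ℝ → ℝ) (x : L) :
    ∏ w : InfinitePlace L, f (w x) ^ w.mult = ∏ φ : L →+* ℂ, f ‖φ x‖ := by
  classical
  rw [← Finset.prod_fiberwise Finset.univ InfinitePlace.mk (fun φ => f ‖φ x‖)]
  apply Finset.prod_congr rfl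
  intro w _
  have h1 : ∀ φ ∈ ({φ | InfinitePlace.mk φ = w} : Finset (L →+* ℂ)), f ‖φ x‖ = f (w x) := by
    intro φ hφ
    rw [← (Finset.mem_filter.mp hφ).2, InfinitePlace.apply]
  rw [Finset.prod_congr rfl h1, Finset.prod_const, InfinitePlace.card_filter_mk_eq]

theorem prod_embeddings (x : L) (hx : Algebra.adjoin ℚ ({x} : Set L) = ⊤) (g : ℂ → ℝ) :
    ∏ φ : L →+* ℂ, g (φ x) = (((minpoly ℚ x).map (algebraMap ℚ ℂ)).roots.map g).prod := by
  classical
  have hsep : ((minpoly ℚ x).map (algebraMap ℚ ℂ)).Separable :=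
    ((minpoly.irreducible (Algebra.IsIntegral.isIntegral x)).separable).map
  have hnd : ((minpoly ℚ x).map (algebraMap ℚ ℂ)).roots.Nodup := nodup_roots hsep
  have hinj : Function.Injective fun φ : L →+* ℂ => φ x := by
    intro φ ψ h
    have h1 : φ.toRatAlgHom = ψ.toRatAlgHom := by
      apply AlgHom.ext_of_adjoin_eq_top hx
      intro y hy
      rw [Set.mem_singleton_iff.1 hy]
      exact h
    ext y
    exact congrArg (fun χ : L →ₐ[ℚ] ℂ => χ y) h1
  have himg : (Finset.univ : Finset (L →+* ℂ)).image (fun φ => φ x) =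
      ((minpoly ℚ x).map (algebraMap ℚ ℂ)).roots.toFinset := by
    ext z
    have h1 := Set.ext_iff.1 (NumberField.Embeddings.range_eval_eq_rootSet_minpoly L ℂ x) z
    simp only [Finset.mem_image, Finset.mem_univ, true_and, Multiset.mem_toFinset]
    rw [Set.mem_range, mem_rootSet', aeval_def, ← eval_map] at h1
    rw [h1, mem_roots']
    rfl
  rw [← Finset.prod_image (f := g) (g := fun φ : L →+* ℂ => φ x) (fun φ _ ψ _ h => hinj h), himg,
    Finset.prod, Multiset.toFinset_val, hnd.dedup]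

/-- The product over the infinite places as a product over the roots. -/
theorem prod_roots (f : ℝ → ℝ) (x : L) (hx : Algebra.adjoin ℚ ({x} : Set L) = ⊤)
    (hi : IsIntegral ℤ x) : ∏ w : InfinitePlace L, f (w x) ^ w.mult =
      (((minpoly ℤ x).map (Int.castRingHom ℂ)).roots.map fun z => f ‖z‖).prod := by
  rw [prod_places, prod_embeddings x hx (fun z => f ‖z‖),
    minpoly.isIntegrallyClosed_eq_field_fractions' ℚ hi, Polynomial.map_map]
  rfl

theorem norm_int (x : L) (hi : IsIntegral ℤ x) : ∃ z : ℤ, Algebra.norm ℚ x = z := by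
  have h1 : IsIntegral ℤ (Algebra.norm ℚ x) := Algebra.isIntegral_norm ℚ hi
  obtain ⟨z, hz⟩ := IsIntegrallyClosed.isIntegral_iff.1 h1
  exact ⟨z, by rw [← hz]; simp⟩

theorem abs_norm_unit (x : L) (h0 : x ≠ 0) (hi : IsIntegral ℤ x) (hi' : IsIntegral ℤ x⁻¹) :
    |Algebra.norm ℚ x| = 1 := by
  obtain ⟨z, hz⟩ := norm_int x hi
  obtain ⟨z', hz'⟩ := norm_int x⁻¹ hi'
  have h1 : Algebra.norm ℚ x * Algebra.norm ℚ x⁻¹ = 1 := by
    rw [← map_mul, mul_inv_cancel₀ h0, map_one]
  rw [hz, hz'] at h1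
  have h2 : z * z' = 1 := by exact_mod_cast h1
  rw [hz]
  rcases Int.isUnit_iff.1 (IsUnit.of_mul_eq_one z' h2) with h3 | h3
  · rw [h3]; simp
  · rw [h3]; simp

theorem coeff_unit (x : L) (hx : Algebra.adjoin ℚ ({x} : Set L) = ⊤) (h0 : x ≠ 0)
    (hi : IsIntegral ℤ x) (hi' : IsIntegral ℤ x⁻¹) :
    (minpoly ℤ x).coeff 0 * (minpoly ℤ x).coeff 0 = 1 := by
  have h1 := prod_roots (fun t => t) x hx hi
  rw [InfinitePlace.prod_eq_abs_norm, abs_norm_unit x h0 hi hi'] at h1
  have hp := minpoly.monic hi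
  have h2 := congrArg (fun r : ℂ[X] => r.eval 0) (roots_prod (minpoly ℤ x) hp)
  rw [eval_P, ← coeff_zero_eq_eval_zero, coeff_map] at h2
  have h2' : ((((minpoly ℤ x).map (Int.castRingHom ℂ)).roots.map fun a => 0 - a).prod) =
        (((minpoly ℤ x).coeff 0 : ℤ) : ℂ) := h2
  have h3 := norm_prod (((minpoly ℤ x).map (Int.castRingHom ℂ)).roots) fun a => 0 - a
  have h4 : (((minpoly ℤ x).map (Int.castRingHom ℂ)).roots.map fun a => ‖0 - a‖) =
      (((minpoly ℤ x).map (Int.castRingHom ℂ)).roots.map fun a => ‖a‖) := by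
    apply Multiset.map_congr rfl
    intro a _
    simp
  rw [h2', h4, ← h1] at h3
  have h5 : |(minpoly ℤ x).coeff 0| = 1 := by
    have h6 : ‖(((minpoly ℤ x).coeff 0 : ℤ) : ℂ)‖ = ((|(minpoly ℤ x).coeff 0| : ℤ) : ℝ) := by
      simp [Complex.norm_intCast]
    rw [h6] at h3
    simp only [Rat.cast_one] at h3
    exact_mod_cast h3
  rw [← abs_mul_abs_self, h5, one_mul]

theorem height_ge (x : L) (hx : Algebra.adjoin ℚ ({x} : Set L) = ⊤)
    (hi : IsIntegral ℤ x) :
    Real.log (((minpoly ℤ x).map (Int.castRingHom ℂ)).roots.map fun z => max 1 ‖z‖).prod ≤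
      Height.logHeight₁ x := by
  rw [← prod_roots (fun t => max 1 t) x hx hi, NumberField.logHeight₁_eq, Real.log_prod]
  · have h1 : (0 : ℝ) ≤ ∑ᶠ v : FinitePlace L, Real.posLog (v x) :=
      finsum_nonneg fun v => Real.posLog_nonneg
    have h2 : ∑ w : InfinitePlace L, Real.log (max 1 (w x) ^ w.mult) =
        ∑ w : InfinitePlace L, w.mult * Real.posLog (w x) := by
      apply Finset.sum_congr rfl
      intro w _
      rw [Real.log_pow, Real.posLog_eq_log_max_one (apply_nonneg w x)]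
    rw [h2]
    linarith
  · intro w _
    positivity

theorem not_integral (x : L) (hi : ¬ IsIntegral ℤ x) : Real.log 2 ≤ Height.logHeight₁ x := by
  obtain ⟨n, hn, hle, hint⟩ := NumberField.exists_nat_le_mulHeight₁ x
  have h2 : 2 ≤ n := by
    rcases n with _ | _ | n
    · exact absurd rfl hn
    · exfalso
      apply hi
      simpa using hint
    · omega
  rw [Height.logHeight₁_eq_log_mulHeight₁]
  apply Real.log_le_log (by norm_num)
  refine le_trans ?_ hle
  exact_mod_cast h2

theorem reverse_root (x : L) (h0 : x ≠ 0) (p : ℤ[X]) (hp : aeval x p = 0) (c : ℤ) (hc : c ≠ 0)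
    (h : p.reverse = C c * p) : aeval x⁻¹ p = 0 := by
  let _ : Invertible x := invertibleOfNonzero h0
  have h1 := (eval₂_reverse_eq_zero_iff (algebraMap ℤ L) x p).2 hp
  rw [invOf_eq_inv, h, eval₂_mul, eval₂_C] at h1
  rcases mul_eq_zero.1 h1 with h2 | h2
  · exfalso
    apply hc
    rw [eq_intCast] at h2
    exact_mod_cast h2
  · exact h2

/-- A weak form of Smyth's theorem. -/
theorem smyth_gen (x : L) (hx : Algebra.adjoin ℚ ({x} : Set L) = ⊤) (h0 : x ≠ 0)
    (h : aeval x⁻¹ (minpoly ℚ x) ≠ 0) : Real.log (5 / 4) ≤ Height.logHeight₁ x := by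
  have h54 : Real.log (5 / 4) ≤ Real.log 2 := Real.log_le_log (by norm_num) (by norm_num)
  by_cases hi : IsIntegral ℤ x
  · by_cases hi' : IsIntegral ℤ x⁻¹
    · have hc := coeff_unit x hx h0 hi hi'
      refine le_trans (Real.log_le_log (by norm_num) ?_) (height_ge x hx hi)
      apply int_bound (minpoly ℤ x) (minpoly.monic hi) hc
      intro hrev
      apply h
      have h1 := reverse_root x h0 (minpoly ℤ x) (minpoly.aeval ℤ x) _ (by
        intro h2
        rw [h2] at hc
        norm_num at hc) hrev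
      rw [minpoly.isIntegrallyClosed_eq_field_fractions' ℚ hi, aeval_map_algebraMap]
      exact h1
    · rw [← Height.logHeight₁_inv]
      exact h54.trans (not_integral x⁻¹ hi')
  · exact h54.trans (not_integral x hi)

end Pool.DynLehmer.LW.Smy
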