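import Mathlib

set_option autoImplicit false
set_option linter.unusedSectionVars false

/-!
# Row UPP, part 1: the coordinates of a finite extension of domains
-/

namespace Pool.DynLehmer.LW.Upp24
open MvPolynomial
open scoped Classical

section basis

variable {A R F L : Type} [CommRing A] [IsDomain A] [CommRing R] [IsDomain R]
  [Field F] [Field L] [Algebra A R] [Algebra A F] [IsFractionRing A F] [Algebra R L]
  [IsFractionRing R L] [Algebra F L] [Algebra A L] [IsScalarTower A R L] [IsScalarTower A F L]
  [Module.Finite A R] [FaithfulSMul A R]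

omit [Field F] [Algebra A F] [IsFractionRing A F] [Algebra F L] [IsScalarTower A F L] in
theorem exists_den (y : L) : ∃ (x : R) (a : A), a ≠ 0 ∧ algebraMap A L a * y = algebraMap R L x := by
  obtain ⟨x, hx⟩ := IsLocalizedModule.surj (nonZeroDivisors A)
    (IsScalarTower.toAlgHom A R L).toLinearMap y
  refine ⟨x.1, x.2, nonZeroDivisors.coe_ne_zero x.2, ?_⟩
  rw [← Algebra.smul_def]
  exact hx

variable (F L) in
theorem exists_basis (_ : Function.Injective (algebraMap A R)) : ∃ (n : ℕ) (w : Fin n → R) (B : Module.Basis (Fin n) F L),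
    ∀ i, B i = algebraMap R L (w i) := by
  obtain ⟨s, hs⟩ := (Module.Finite.fg_top : (⊤ : Submodule A R).FG)
  set t : Set L := (algebraMap R L) '' (s : Set R) with ht
  have h1 : ∀ x : R, algebraMap R L x ∈ Submodule.span F t := by
    intro x
    have hx : x ∈ Submodule.span A (s : Set R) := by rw [hs]; trivial
    refine Submodule.span_induction (p := fun x _ => algebraMap R L x ∈ Submodule.span F t)
      ?_ ?_ ?_ ?_ hx
    · intro x hx
      exact Submodule.subset_span ⟨x, hx, rfl⟩
    · rw [map_zero]
      exact Submodule.zero_mem _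
    · intro x y _ _ hx hy
      rw [map_add]
      exact Submodule.add_mem _ hx hy
    · intro a x _ hx
      have e : algebraMap R L (a • x) = (algebraMap A F a) • algebraMap R L x := by
        rw [Algebra.smul_def, map_mul, ← IsScalarTower.algebraMap_apply A R L, Algebra.smul_def,
          ← IsScalarTower.algebraMap_apply A F L]
      rw [e]
      exact Submodule.smul_mem _ _ hx
  have h2 : Submodule.span F t = ⊤ := by
    rw [eq_top_iff]
    intro y _
    obtain ⟨x, a, ha, hy⟩ := exists_den (A := A) (R := R) y
    have ha' : algebraMap A F a ≠ 0 := fun h => ha ((map_eq_zero_iff _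
      (IsFractionRing.injective A F)).1 h)
    have e : y = (algebraMap A F a)⁻¹ • algebraMap R L x := by
      rw [← hy, Algebra.smul_def, map_inv₀, ← IsScalarTower.algebraMap_apply A F L,
        inv_mul_cancel_left₀]
      rw [IsScalarTower.algebraMap_apply A F L]
      exact fun h => ha' ((map_eq_zero_iff _ (algebraMap F L).injective).1 h)
    rw [e]
    exact Submodule.smul_mem _ _ (h1 x)
  obtain ⟨b, hb, hbs, hbl⟩ := exists_linearIndependent F t
  have hfin : b.Finite := (s.finite_toSet.image _).subset hb
  have := hfin.fintype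
  have hspan : ⊤ ≤ Submodule.span F (Set.range ((↑) : b → L)) := by
    rw [Subtype.range_coe, hbs, h2]
  set B0 := Module.Basis.mk hbl hspan with hB0
  set e := Fintype.equivFin b with he
  have hw : ∀ i : Fin (Fintype.card b), ∃ x : R, algebraMap R L x = (e.symm i : L) := by
    intro i
    obtain ⟨x, -, hx⟩ := hb (e.symm i).2
    exact ⟨x, hx⟩
  choose w hw using hw
  refine ⟨Fintype.card b, w, B0.reindex e, fun i => ?_⟩
  rw [Module.Basis.reindex_apply, hw, hB0, Module.Basis.mk_apply]

/-- a common denominator of the coordinates -/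
theorem exists_coord {n : ℕ} (B : Module.Basis (Fin n) F L) :
    ∃ h : A, h ≠ 0 ∧ ∀ (x : R) (i : Fin n), ∃ c : A,
      algebraMap A F c = algebraMap A F h * B.repr (algebraMap R L x) i := by
  obtain ⟨s, hs⟩ := (Module.Finite.fg_top : (⊤ : Submodule A R).FG)
  set T : Finset F := s.biUnion fun x => Finset.univ.image fun i => B.repr (algebraMap R L x) i
    with hT
  obtain ⟨h, hh⟩ := IsLocalization.exist_integer_multiples_of_finset (nonZeroDivisors A) T
  refine ⟨h, nonZeroDivisors.coe_ne_zero h, fun x i => ?_⟩
  have hx : x ∈ Submodule.span A (s : Set R) := by rw [hs]; trivial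
  refine Submodule.span_induction (p := fun x _ => ∃ c : A,
      algebraMap A F c = algebraMap A F h * B.repr (algebraMap R L x) i)
      ?_ ?_ ?_ ?_ hx
  · intro x hx
    obtain ⟨c, hc⟩ := hh (B.repr (algebraMap R L x) i) (by
      rw [hT, Finset.mem_biUnion]
      exact ⟨x, hx, Finset.mem_image_of_mem _ (Finset.mem_univ i)⟩)
    refine ⟨c, ?_⟩
    rw [hc, Algebra.smul_def]
  · exact ⟨0, by simp⟩
  · rintro x y _ _ ⟨c, hc⟩ ⟨c', hc'⟩
    refine ⟨c + c', ?_⟩
    rw [map_add, hc, hc', map_add, map_add, Finsupp.add_apply, mul_add]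
  · rintro a x _ ⟨c, hc⟩
    refine ⟨a * c, ?_⟩
    have e : algebraMap R L (a • x) = (algebraMap A F a) • algebraMap R L x := by
      rw [Algebra.smul_def, map_mul, ← IsScalarTower.algebraMap_apply A R L, Algebra.smul_def,
        ← IsScalarTower.algebraMap_apply A F L]
    rw [map_mul, hc, e, map_smul, Finsupp.smul_apply, smul_eq_mul]
    ring

/-- the norm as a determinant of integral elements -/
theorem det_norm {n : ℕ} {w : Fin n → R} {B : Module.Basis (Fin n) F L}
    (hB : ∀ i, B i = algebraMap R L (w i)) {h : A}
    {c : R → Fin n → A} (hc : ∀ x i, algebraMap A F (c x i) =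
      algebraMap A F h * B.repr (algebraMap R L x) i) (x : R) :
    algebraMap A F (Matrix.det (Matrix.of fun i j => ∑ k, c x k * c (w k * w j) i)) =
      algebraMap A F h ^ (2 * n) * Algebra.norm F (algebraMap R L x) := by
  rw [Algebra.norm_eq_matrix_det B, RingHom.map_det]
  have e : (algebraMap A F).mapMatrix (Matrix.of fun i j => ∑ k, c x k * c (w k * w j) i) =
      (algebraMap A F h ^ 2) • Algebra.leftMulMatrix B (algebraMap R L x) := by
    ext i j
    rw [RingHom.mapMatrix_apply, Matrix.map_apply, Matrix.of_apply, map_sum, Matrix.smul_apply,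
      Algebra.leftMulMatrix_eq_repr_mul, hB j]
    have h1 : algebraMap R L x * algebraMap R L (w j) =
        ∑ k, B.repr (algebraMap R L x) k • algebraMap R L (w k * w j) := by
      conv_lhs => rw [← B.sum_repr (algebraMap R L x)]
      rw [Finset.sum_mul]
      refine Finset.sum_congr rfl fun k _ => ?_
      rw [smul_mul_assoc, hB k, map_mul]
    rw [h1, map_sum, Finsupp.finsetSum_apply, smul_eq_mul, Finset.mul_sum]
    refine Finset.sum_congr rfl fun k _ => ?_
    rw [map_mul, hc, hc, map_smul, Finsupp.smul_apply, smul_eq_mul]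
    ring
  rw [e, Matrix.det_smul, Fintype.card_fin, ← pow_mul]

/-- the norm is in `A` -/
theorem exists_norm [IsIntegrallyClosed A] [FiniteDimensional F L] (x : R) : ∃ a : A,
    algebraMap A F a = Algebra.norm F (algebraMap R L x) := by
  have h1 : IsIntegral A (algebraMap R L x) :=
    (Algebra.IsIntegral.isIntegral x).map (IsScalarTower.toAlgHom A R L)
  have h2 := Algebra.isIntegral_norm F h1
  exact IsIntegrallyClosed.isIntegral_iff.1 h2

end basis

end Pool.DynLehmer.LW.Upp24
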