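import Mathlib

set_option autoImplicit false

/-!
# Elements whose matrices vanish to high order at a point
-/

namespace Pool.DynLehmer.LW.Upp24
open MvPolynomial
open scoped Classical

variable {K : Type} [Field K]

/-- the substitution `X i ↦ v i * X` -/
noncomputable def chi {d : ℕ} (v : Fin d → K) : MvPolynomial (Fin d) K →ₐ[K] Polynomial K :=
  aeval fun i => Polynomial.C (v i) * Polynomial.X

theorem chi_dvd {d : ℕ} (v : Fin d → K) (b : ℕ) (f : MvPolynomial (Fin d) K)
    (hf : ∀ m : Fin d →₀ ℕ, m.degree ≤ b → coeff m f = 0) :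
    (Polynomial.X : Polynomial K) ^ (b + 1) ∣ chi v f := by
  rw [f.as_sum, map_sum]
  refine Finset.dvd_sum fun m hm => ?_
  have h1 : b + 1 ≤ m.degree := by
    by_contra h
    exact mem_support_iff.1 hm (hf m (by omega))
  unfold chi
  rw [aeval_monomial, Finsupp.prod_fintype _ _ (by simp)]
  refine Dvd.dvd.mul_left ?_ _
  simp only [mul_pow]
  rw [Finset.prod_mul_distrib, Finset.prod_pow_eq_pow_sum]
  refine Dvd.dvd.mul_left (pow_dvd_pow _ ?_) _
  rw [← Finsupp.degree_eq_sum]
  exact h1

theorem det_dvd {R : Type} [CommRing R] {n : ℕ} (x : R) (M : Matrix (Fin n) (Fin n) R)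
    (h : ∀ i j, x ∣ M i j) : x ^ n ∣ M.det := by
  choose M' hM' using h
  have h1 : M = x • Matrix.of M' := by
    ext i j
    rw [Matrix.smul_apply, smul_eq_mul, hM']
    rfl
  rw [h1, Matrix.det_smul, Fintype.card_fin]
  exact dvd_mul_right _ _

theorem eval_smul_hom {n d : ℕ} {P : MvPolynomial (Fin n) K} (hP : P.IsHomogeneous d) (c : K)
    (x : Fin n → K) : eval (c • x) P = c ^ d * eval x P := by
  rw [eval_eq', eval_eq', Finset.mul_sum]
  refine Finset.sum_congr rfl fun m hm => ?_
  have h1 : ∑ i, m i = d := by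
    have h2 := hP (mem_support_iff.1 hm)
    rw [Finsupp.weight_apply, Finsupp.sum_fintype _ _ (by simp)] at h2
    simpa using h2
  have h3 : ∏ i, (c • x) i ^ m i = c ^ d * ∏ i, x i ^ m i := by
    simp only [Pi.smul_apply, smul_eq_mul, mul_pow]
    rw [Finset.prod_mul_distrib, Finset.prod_pow_eq_pow_sum, h1]
  rw [h3]
  ring

theorem pol [CharZero K] (d : ℕ) (h : MvPolynomial (Fin (d + 1)) K) (hh : h ≠ 0) :
    ∃ ψ : MvPolynomial (Fin (d + 1)) K →ₐ[K] MvPolynomial (Fin d) K,
      ∀ (n b : ℕ) (c : Fin n → MvPolynomial (Fin (d + 1)) K)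
        (e : Fin n → Fin n → Fin n → MvPolynomial (Fin (d + 1)) K)
        (N : MvPolynomial (Fin (d + 1)) K), 1 ≤ n → N.IsHomogeneous (n * b) →
        Matrix.det (Matrix.of fun i j => ∑ k, c k * e k i j) = h ^ (2 * n) * N →
        (∀ k, ∀ m : Fin d →₀ ℕ, m.degree ≤ b → coeff m (ψ (c k)) = 0) → N = 0 := by
  obtain ⟨t, ht⟩ : ∃ t : Fin (d + 1) → K, eval t (X 0 * h) ≠ 0 := by
    by_contra hc
    push Not at hc
    have h1 : (X 0 * h : MvPolynomial (Fin (d + 1)) K) = 0 :=
      MvPolynomial.funext fun t => by rw [hc t, map_zero]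
    exact (mul_ne_zero (X_ne_zero 0) hh) h1
  rw [map_mul, eval_X] at ht
  have ht0 : t 0 ≠ 0 := left_ne_zero_of_mul ht
  have hth : eval t h ≠ 0 := right_ne_zero_of_mul ht
  set ψ : MvPolynomial (Fin (d + 1)) K →ₐ[K] MvPolynomial (Fin d) K :=
    aeval (Fin.cons (C (t 0)) fun i : Fin d => X i + C (t i.succ)) with hψ
  refine ⟨ψ, fun n b c e N hn hN hdet hc => ?_⟩
  -- the composite with the substitution
  have hcomp : ∀ (v : Fin d → K) (f : MvPolynomial (Fin (d + 1)) K), chi v (ψ f) =
      aeval (Fin.cons (Polynomial.C (t 0)) fun i : Fin d =>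
        Polynomial.C (v i) * Polynomial.X + Polynomial.C (t i.succ) :
          Fin (d + 1) → Polynomial K) f := by
    intro v f
    have h1 : (chi v).comp ψ = aeval (Fin.cons (Polynomial.C (t 0)) fun i : Fin d =>
        Polynomial.C (v i) * Polynomial.X + Polynomial.C (t i.succ) :
          Fin (d + 1) → Polynomial K) := by
      refine MvPolynomial.algHom_ext fun i => ?_
      rw [AlgHom.comp_apply, hψ, aeval_X, aeval_X]
      refine Fin.cases ?_ (fun i => ?_) i
      · rw [Fin.cons_zero, Fin.cons_zero]
        unfold chi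
        rw [aeval_C]
        rfl
      · rw [Fin.cons_succ, Fin.cons_succ, map_add]
        unfold chi
        rw [aeval_X, aeval_C]
        rfl
    rw [← h1]
    rfl
  have hNv : ∀ v : Fin d → K, chi v (ψ N) = 0 := by
    intro v
    have h1 : chi v (ψ (Matrix.det (Matrix.of fun i j => ∑ k, c k * e k i j))) =
        chi v (ψ h) ^ (2 * n) * chi v (ψ N) := by
      rw [hdet, map_mul, map_mul, map_pow, map_pow]
    have h2 : chi v (ψ (Matrix.det (Matrix.of fun i j => ∑ k, c k * e k i j))) =
        Matrix.det (Matrix.of fun i j => ∑ k, chi v (ψ (c k)) * chi v (ψ (e k i j))) := by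
      have h3 : ∀ M : Matrix (Fin n) (Fin n) (MvPolynomial (Fin (d + 1)) K),
          chi v (ψ M.det) = (M.map fun f => chi v (ψ f)).det := by
        intro M
        have := ((chi v).comp ψ).map_det M
        exact this
      rw [h3]
      congr 1
      ext i j
      rw [Matrix.map_apply, Matrix.of_apply, Matrix.of_apply, map_sum, map_sum]
      refine congrArg (fun f : Polynomial K => f.coeff _) ?_
      exact Finset.sum_congr rfl fun k _ => by rw [map_mul, map_mul]
    have h4 : (Polynomial.X : Polynomial K) ^ ((b + 1) * n) ∣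
        chi v (ψ h) ^ (2 * n) * chi v (ψ N) := by
      rw [← h1, h2, pow_mul]
      refine det_dvd _ _ fun i j => ?_
      rw [Matrix.of_apply]
      exact Finset.dvd_sum fun k _ => (chi_dvd v b _ (hc k)).mul_right _
    have h5 : ¬ (Polynomial.X : Polynomial K) ∣ chi v (ψ h) := by
      rw [Polynomial.X_dvd_iff, hcomp, Polynomial.coeff_zero_eq_eval_zero]
      have h6 : (Polynomial.eval 0 (aeval (Fin.cons (Polynomial.C (t 0)) fun i : Fin d =>
          Polynomial.C (v i) * Polynomial.X + Polynomial.C (t i.succ) :
            Fin (d + 1) → Polynomial K) h)) = eval t h := by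
        have h7 := (Polynomial.aeval (R := K) (0 : K)).comp_apply
          (aeval (Fin.cons (Polynomial.C (t 0)) fun i : Fin d =>
            Polynomial.C (v i) * Polynomial.X + Polynomial.C (t i.succ) :
            Fin (d + 1) → Polynomial K)) h
        have h8 : (Polynomial.aeval (R := K) (0 : K)).comp
          (aeval (Fin.cons (Polynomial.C (t 0)) fun i : Fin d =>
            Polynomial.C (v i) * Polynomial.X + Polynomial.C (t i.succ) :
            Fin (d + 1) → Polynomial K)) = aeval t := by
          refine MvPolynomial.algHom_ext fun i => ?_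
          rw [AlgHom.comp_apply, aeval_X, aeval_X]
          refine Fin.cases ?_ (fun i => ?_) i
          · rw [Fin.cons_zero]
            simp
          · rw [Fin.cons_succ]
            simp
        rw [h8] at h7
        rw [← Polynomial.coe_aeval_eq_eval, ← h7]
        rfl
      rw [h6]
      exact hth
    have h9 : (Polynomial.X : Polynomial K) ^ ((b + 1) * n) ∣ chi v (ψ N) := by
      refine Prime.pow_dvd_of_dvd_mul_left Polynomial.prime_X _ ?_ h4
      exact fun h => h5 (Polynomial.prime_X.dvd_of_dvd_pow h)
    by_contra hne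
    have h10 : (b + 1) * n ≤ (chi v (ψ N)).natDegree := by
      have := Polynomial.natDegree_le_of_dvd h9 hne
      rwa [Polynomial.natDegree_X_pow] at this
    have h11 : (chi v (ψ N)).natDegree ≤ n * b := by
      rw [hcomp]
      have h12 := MvPolynomial.aeval_natDegree_le (n := 1) N
        (hN.totalDegree_le) (Fin.cons (Polynomial.C (t 0)) fun i : Fin d =>
            Polynomial.C (v i) * Polynomial.X + Polynomial.C (t i.succ) :
            Fin (d + 1) → Polynomial K) (fun i => by
          refine Fin.cases ?_ (fun i => ?_) i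
          · rw [Fin.cons_zero, Polynomial.natDegree_C]
            exact Nat.zero_le _
          · rw [Fin.cons_succ]
            compute_degree)
      rwa [mul_one] at h12
    have h13 : (b + 1) * n = n * b + n := by ring
    omega
  -- evaluation
  have hval : ∀ w : Fin d → K, eval (Fin.cons (t 0) w : Fin (d + 1) → K) N = 0 := by
    intro w
    have h1 := congrArg (Polynomial.aeval (R := K) (1 : K)) (hNv fun i => w i - t i.succ)
    rw [hcomp, map_zero] at h1
    have h8 : (Polynomial.aeval (R := K) (1 : K)).comp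
          (aeval (Fin.cons (Polynomial.C (t 0)) fun i : Fin d =>
            Polynomial.C (w i - t i.succ) * Polynomial.X + Polynomial.C (t i.succ) :
            Fin (d + 1) → Polynomial K)) = aeval (Fin.cons (t 0) w : Fin (d + 1) → K) := by
      refine MvPolynomial.algHom_ext fun i => ?_
      rw [AlgHom.comp_apply, aeval_X, aeval_X]
      refine Fin.cases ?_ (fun i => ?_) i
      · rw [Fin.cons_zero, Fin.cons_zero]
        simp
      · rw [Fin.cons_succ, Fin.cons_succ]
        simp
    have h9 : aeval (Fin.cons (t 0) w : Fin (d + 1) → K) N = 0 := by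
      rw [← h8]
      exact h1
    exact h9
  have hX : (X 0 * N : MvPolynomial (Fin (d + 1)) K) = 0 := by
    refine MvPolynomial.funext fun u => ?_
    rw [map_mul, eval_X, map_zero]
    by_cases hu : u 0 = 0
    · rw [hu, zero_mul]
    · have h1 : u = (u 0 / t 0) • (Fin.cons (t 0) fun i => t 0 / u 0 * u i.succ :
          Fin (d + 1) → K) := by
        funext i
        rw [Pi.smul_apply, smul_eq_mul]
        refine Fin.cases ?_ (fun i => ?_) i
        · rw [Fin.cons_zero, div_mul_cancel₀ _ ht0]
        · rw [Fin.cons_succ]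
          field_simp
      rw [h1, eval_smul_hom hN, hval, mul_zero, mul_zero]
  exact (mul_eq_zero.1 hX).resolve_left (X_ne_zero 0)

end Pool.DynLehmer.LW.Upp24
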