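import Pool.Agent.Lib.MP_2194ec_nt.LW.UppA

set_option autoImplicit false
set_option linter.unusedSectionVars false

/-!
# Row UPP: scaling, homogeneity of the norm, the count
-/

namespace Pool.DynLehmer.LW.Upp24
open MvPolynomial
open scoped Classical

section scaling

variable {K σ : Type} [Field K]

/-- the scaling of the variables -/
noncomputable def sca (σ : Type) (c : K) : MvPolynomial σ K →ₐ[K] MvPolynomial σ K :=
  bind₁ fun i => C c * X i

theorem sca_monomial (c : K) (m : σ →₀ ℕ) (a : K) :
    sca σ c (monomial m a) = monomial m (c ^ m.degree * a) := by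
  have h1 : (m.prod fun i k => (C c * X i : MvPolynomial σ K) ^ k) =
      C (c ^ m.degree) * monomial m 1 := by
    have h2 : (m.prod fun i k => (C c * X i : MvPolynomial σ K) ^ k) =
        (m.prod fun _ k => (C c : MvPolynomial σ K) ^ k) *
          m.prod fun i k => (X i : MvPolynomial σ K) ^ k := by
      rw [← Finsupp.prod_mul]
      exact Finsupp.prod_congr fun i _ => mul_pow _ _ _
    rw [h2]
    congr 1
    · rw [Finsupp.prod, Finset.prod_pow_eq_pow_sum, C_pow]
      rfl
    · rw [monomial_eq, C_1, one_mul]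
  rw [sca, bind₁_monomial]
  change C a * (m.prod fun i k => (C c * X i : MvPolynomial σ K) ^ k) = _
  rw [h1, ← mul_assoc, ← C_mul, C_mul_monomial, mul_one, mul_comm]

theorem coeff_sca (c : K) (g : MvPolynomial σ K) (m : σ →₀ ℕ) :
    coeff m (sca σ c g) = c ^ m.degree * coeff m g := by
  induction g using MvPolynomial.induction_on' with
  | monomial u a =>
    rw [sca_monomial, coeff_monomial, coeff_monomial]
    by_cases h : u = m
    · rw [if_pos h, if_pos h, h]
    · rw [if_neg h, if_neg h, mul_zero]
  | add p q hp hq => rw [map_add, coeff_add, coeff_add, hp, hq, mul_add]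

theorem sca_comp {c c' : K} (h : c * c' = 1) (g : MvPolynomial σ K) :
    sca σ c (sca σ c' g) = g := by
  ext m
  rw [coeff_sca, coeff_sca, ← mul_assoc, ← mul_pow, h, one_pow, one_mul]

theorem hom_of_sca [CharZero K] {g : MvPolynomial σ K} {D : ℕ}
    (h : sca σ 2 g = C (2 ^ D) * g) : g.IsHomogeneous D := by
  intro m hm
  have h1 := congrArg (coeff m) h
  rw [coeff_sca, coeff_C_mul] at h1
  have h2 : (2 : K) ^ m.degree = 2 ^ D := mul_right_cancel₀ hm h1
  have h3 : ((2 ^ m.degree : ℕ) : K) = ((2 ^ D : ℕ) : K) := by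
    push_cast
    exact h2
  have h4 : 2 ^ m.degree = 2 ^ D := Nat.cast_injective h3
  have h5 : m.degree = D := Nat.pow_right_injective (le_refl 2) h4
  rw [← h5, Finsupp.degree_eq_weight_one]
  rfl

/-- scaling as an automorphism -/
noncomputable def scaE (σ : Type) [CharZero K] : MvPolynomial σ K ≃+* MvPolynomial σ K where
  toFun := sca σ (2 : K)
  invFun := sca σ (2 : K)⁻¹
  left_inv := sca_comp (inv_mul_cancel₀ two_ne_zero)
  right_inv := sca_comp (mul_inv_cancel₀ two_ne_zero)
  map_mul' := map_mul _
  map_add' := map_add _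

end scaling

section norm

variable {A R F L : Type} [CommRing A] [IsDomain A] [CommRing R] [IsDomain R]
  [Field F] [Field L] [Algebra A R] [Algebra A F] [IsFractionRing A F] [Algebra R L]
  [IsFractionRing R L] [Algebra F L] [Algebra A L] [IsScalarTower A R L] [IsScalarTower A F L]

theorem norm_equiv (σ : R ≃+* R) (s : A ≃+* A)
    (hσ : ∀ a, σ (algebraMap A R a) = algebraMap A R (s a)) (x : R) :
    (IsFractionRing.ringEquivOfRingEquiv s : F ≃+* F) (Algebra.norm F (algebraMap R L x)) =
      Algebra.norm F (algebraMap R L (σ x)) := by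
  set sF : F ≃+* F := IsFractionRing.ringEquivOfRingEquiv s with hsF
  set σL : L ≃+* L := IsFractionRing.ringEquivOfRingEquiv σ with hσL
  have he : RingHom.comp (algebraMap F L) (sF : F →+* F) =
      RingHom.comp (σL : L →+* L) (algebraMap F L) := by
    refine IsLocalization.ringHom_ext (nonZeroDivisors A) (RingHom.ext fun a => ?_)
    simp only [RingHom.comp_apply, RingHom.coe_coe]
    rw [hsF, IsFractionRing.ringEquivOfRingEquiv_algebraMap,
      ← IsScalarTower.algebraMap_apply A F L, ← IsScalarTower.algebraMap_apply A F L,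
      IsScalarTower.algebraMap_apply A R L, IsScalarTower.algebraMap_apply A R L a, hσL,
      IsFractionRing.ringEquivOfRingEquiv_algebraMap, hσ]
  have h1 := Algebra.norm_eq_of_equiv_equiv sF σL he (algebraMap R L x)
  rw [hσL, IsFractionRing.ringEquivOfRingEquiv_algebraMap] at h1
  rw [h1, RingEquiv.apply_symm_apply]

end norm

/-- the number of monomials -/
theorem card_mono (d b : ℕ) :
    ((Finset.univ : Finset (Fin (d + 1))).finsuppAntidiag b).card = (b + d).choose d := by
  rw [Finset.card_finsuppAntidiag_nat_eq_choose, Finset.card_univ, Fintype.card_fin]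
  have h : d + 1 + b - 1 = b + d := by omega
  rw [h]
  have h2 := Nat.choose_symm_add (a := b) (b := d)
  exact h2

theorem exists_mono (d b : ℕ) (m : Fin d →₀ ℕ) (hm : m.degree ≤ b) :
    ∃ μ ∈ (Finset.univ : Finset (Fin (d + 1))).finsuppAntidiag b, μ.tail = m := by
  refine ⟨Finsupp.cons (b - m.degree) m, ?_, Finsupp.tail_cons _ _⟩
  rw [Finset.mem_finsuppAntidiag]
  refine ⟨?_, Finset.subset_univ _⟩
  rw [Fin.sum_univ_succ, Finsupp.cons_zero]
  simp only [Finsupp.cons_succ]
  rw [Finsupp.degree_eq_sum] at hm ⊢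
  omega

end Pool.DynLehmer.LW.Upp24
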